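import Mathlib

set_option autoImplicit false
set_option maxHeartbeats 4000000
open MeasureTheory ProbabilityTheory Filter Topology
open scoped ENNReal NNReal

namespace Cop764


/-- law of one (gap, sign) pair: gap with law `κ`, sign uniform on `{false, true}` -/
noncomputable def stepLaw (κ : PMF ℕ) : Measure (ℕ × Bool) :=
  κ.toMeasure.prod (PMF.uniformOfFintype Bool).toMeasure

instance instStepLaw (κ : PMF ℕ) : IsProbabilityMeasure (stepLaw κ) := by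
  unfold stepLaw; infer_instance

/-- law of the i.i.d. sequence of (gap, sign) pairs -/
noncomputable def pathMeasure (κ : PMF ℕ) : Measure (ℕ → ℕ × Bool) :=
  Measure.infinitePi (fun _ : ℕ => stepLaw κ)

instance instPathMeasure (κ : PMF ℕ) : IsProbabilityMeasure (pathMeasure κ) := by
  unfold pathMeasure; infer_instance

/-- renewal points `τ_0 = 0`, `τ_j` = sum of the first `j` gaps -/
def tau (x : ℕ → ℕ × Bool) (j : ℕ) : ℕ := ∑ i ∈ Finset.range j, (x i).1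

/-- `Δ_n` = sign of the excursion `(τ_j, τ_{j+1}]` containing `n` (as a real number 0 or 1) -/
noncomputable def Delta (x : ℕ → ℕ × Bool) (n : ℕ) : ℝ :=
  ∑ j ∈ Finset.range n, if tau x j < n ∧ n ≤ tau x (j + 1) ∧ (x j).2 = true then 1 else 0

/-- the copolymer partition function `Z_{N,ω,λ,h}` -/
noncomputable def Z (κ : PMF ℕ) (lam h : ℝ) (N : ℕ) (ω : ℕ → ℝ) : ℝ :=
  ∫ x, Real.exp (-2 * lam * ∑ n ∈ Finset.Icc 1 N, Delta x n * (ω n + h)) ∂(pathMeasure κ)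

/-- i.i.d. disorder with law `ν` (the coordinates `1, 2, ...` are used) -/
noncomputable def disorder (ν : Measure ℝ) [IsProbabilityMeasure ν] : Measure (ℕ → ℝ) :=
  Measure.infinitePi (fun _ : ℕ => ν)

instance instDisorder (ν : Measure ℝ) [IsProbabilityMeasure ν] :
    IsProbabilityMeasure (disorder ν) := by
  unfold disorder; infer_instance

/-- `N⁻¹ E log Z_N` -/
noncomputable def feN (κ : PMF ℕ) (ν : Measure ℝ) [IsProbabilityMeasure ν] (lam h : ℝ) (N : ℕ) : ℝ :=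
  (N : ℝ)⁻¹ * ∫ ω, Real.log (Z κ lam h N ω) ∂(disorder ν)

/-- the free energy `f(λ,h)` -/
noncomputable def freeEnergy (κ : PMF ℕ) (ν : Measure ℝ) [IsProbabilityMeasure ν] (lam h : ℝ) : ℝ :=
  limUnder atTop (feN κ ν lam h)

/-- `-N⁻¹ log E[(1 + exp(-2λ Σ_{n≤N} (ω_n+h))) / Z_N]` -/
noncomputable def muN (κ : PMF ℕ) (ν : Measure ℝ) [IsProbabilityMeasure ν] (lam h : ℝ) (N : ℕ) : ℝ :=
  -((N : ℝ)⁻¹ * Real.log (∫ ω, (1 + Real.exp (-2 * lam * ∑ n ∈ Finset.Icc 1 N, (ω n + h)))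
    * (Z κ lam h N ω)⁻¹ ∂(disorder ν)))

/-- the decay rate `μ(λ,h)` -/
noncomputable def mu (κ : PMF ℕ) (ν : Measure ℝ) [IsProbabilityMeasure ν] (lam h : ℝ) : ℝ :=
  limUnder atTop (muN κ ν lam h)

/-! ## deterministic partition functions for a weight sequence `w` -/

/-- `s(i,j) = Σ_{i<n≤j} w n` -/
noncomputable def S (w : ℕ → ℝ) (i j : ℕ) : ℝ := ∑ n ∈ Finset.Ioc i j, w n

noncomputable def phi (w : ℕ → ℝ) (i j : ℕ) : ℝ := (1 + Real.exp (S w i j)) / 2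

/-- constrained partition function on `(i,j]` (renewals at `i` and at `j`) -/
noncomputable def G (K : ℕ → ℝ) (w : ℕ → ℝ) (i j : ℕ) : ℝ :=
  if i = j then 1 else
    ∑ k ∈ (Finset.Ioc i j).attach, K (k.1 - i) * phi w i k.1 * G K w k.1 j
termination_by j - i
decreasing_by
  have := Finset.mem_Ioc.mp k.2
  omega

theorem G_eq (K : ℕ → ℝ) (w : ℕ → ℝ) (i j : ℕ) :
    G K w i j = if i = j then 1 else ∑ k ∈ Finset.Ioc i j, K (k - i) * phi w i k * G K w k j := by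
  rw [G]
  split_ifs
  · rfl
  · exact Finset.sum_attach (Finset.Ioc i j) (fun k => K (k - i) * phi w i k * G K w k j)

/-- `F(a,b) = Σ_{a ≤ i ≤ k ≤ b} φ(a,i) G(i,k) φ(k,b)` -/
noncomputable def F (K : ℕ → ℝ) (w : ℕ → ℝ) (a b : ℕ) : ℝ :=
  ∑ i ∈ Finset.Icc a b, ∑ k ∈ Finset.Icc i b, phi w a i * G K w i k * phi w k b

/-- hypotheses on the gap law used in the deterministic part -/
structure KHyp (K : ℕ → ℝ) (α c0 : ℝ) (n0 : ℕ) : Prop where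
  nonneg : ∀ n, 0 ≤ K n
  sum_le : ∀ n, ∑ k ∈ Finset.Icc 1 n, K k ≤ 1
  alpha_pos : 0 < α
  c0_pos : 0 < c0
  c0_le : c0 ≤ 1
  n0_pos : 1 ≤ n0
  lower : ∀ n, n0 ≤ n → c0 * (n : ℝ) ^ (-(1 + α)) ≤ K n

/-- the full data of the model -/
structure Data where
  κ : PMF ℕ
  κ0 : κ 0 = 0
  α : ℝ
  cK : ℝ
  hα : 0 < α
  hcK : 0 < cK
  htail : Tendsto (fun n : ℕ => (n : ℝ) ^ (1 + α) * (κ n).toReal) atTop (𝓝 cK)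
  ν : Measure ℝ
  hν : IsProbabilityMeasure ν
  mean : ∫ x, x ∂ν = 0
  var : ∫ x, x ^ 2 ∂ν = 1
  expm : ∀ t : ℝ, Integrable (fun x => Real.exp (t * x)) ν
  lam : ℝ
  hlam : 0 < lam

attribute [instance] Data.hν

/-- `K n = κ n` as a real number -/
noncomputable def Data.K (D : Data) (n : ℕ) : ℝ := (D.κ n).toReal

/-- disorder law -/
noncomputable def Data.P (D : Data) : Measure (ℕ → ℝ) := disorder D.ν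

instance instDataP (D : Data) : IsProbabilityMeasure D.P := by
  unfold Data.P; infer_instance

/-- weights `w n = -2λ(ω_n + h)` -/
noncomputable def Data.w (D : Data) (h : ℝ) (ω : ℕ → ℝ) : ℕ → ℝ := fun n => -2 * D.lam * (ω n + h)

/-- `log F(a,b)` as a random variable -/
noncomputable def Data.lF (D : Data) (h : ℝ) (a b : ℕ) (ω : ℕ → ℝ) : ℝ :=
  Real.log (F D.K (D.w h ω) a b)

/-- `log G(a,b)` as a random variable -/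
noncomputable def Data.lG (D : Data) (h : ℝ) (a b : ℕ) (ω : ℕ → ℝ) : ℝ :=
  Real.log (G D.K (D.w h ω) a b)

/-- `R(a,b) = (1 + e^{s(a,b)})/G(a,b)` as a random variable -/
noncomputable def Data.R (D : Data) (h : ℝ) (a b : ℕ) (ω : ℕ → ℝ) : ℝ :=
  (1 + Real.exp (S (D.w h ω) a b)) / G D.K (D.w h ω) a b

/-- the free energy as a function of `h` -/
noncomputable def Data.f (D : Data) (h : ℝ) : ℝ := freeEnergy D.κ D.ν D.lam h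

/-- the decay rate as a function of `h` -/
noncomputable def Data.mu (D : Data) (h : ℝ) : ℝ := Cop764.mu D.κ D.ν D.lam h


/-! ## statements of the lemmas (Prop-valued) -/

/-- path partition function for an arbitrary weight sequence -/
noncomputable def Zw (κ : PMF ℕ) (w : ℕ → ℝ) (N : ℕ) : ℝ :=
  ∫ x, Real.exp (∑ n ∈ Finset.Icc 1 N, Delta x n * w n) ∂(pathMeasure κ)

def St_G : Prop := ∀ (K w : ℕ → ℝ), (∀ n, 0 ≤ K n) →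
  (∀ i, G K w i i = 1) ∧ (∀ i j, 0 ≤ G K w i j) ∧
  (∀ i j, i < j → K (j - i) * phi w i j ≤ G K w i j) ∧
  (∀ i j k, i ≤ j → j ≤ k → G K w i j * G K w j k ≤ G K w i k)

def St_Fsub : Prop := ∀ (K w : ℕ → ℝ) (α c0 : ℝ) (n0 : ℕ), KHyp K α c0 n0 →
  ∀ a b c, a ≤ b → b ≤ c → F K w a c ≤ 6 * (F K w a b * F K w b c)

def St_Fbd : Prop := ∀ (K w : ℕ → ℝ) (α c0 : ℝ) (n0 : ℕ), KHyp K α c0 n0 →
  ∀ a b, a ≤ b → phi w a b ≤ F K w a b ∧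
    ∀ e : ℕ → ℝ, (∀ n, 0 ≤ e n) → (∀ n, w n ≤ e n) →
      (G K w a b ≤ Real.exp (S e a b)) ∧
      (F K w a b ≤ ((b : ℝ) - a + 1) ^ 2 * Real.exp (S e a b))

def St_FG : Prop := ∀ (K w : ℕ → ℝ) (α c0 : ℝ) (n0 : ℕ), KHyp K α c0 n0 →
  ∀ m a b, n0 ≤ m → a ≤ b → F K w (a + m) (b + m) ≤
    c0⁻¹ ^ 2 * ((b : ℝ) - a + 1) ^ 2 * ((b : ℝ) - a + m) ^ (2 * (1 + α)) *
      Real.exp (|S w a (a + m)| + |S w (b + m) (b + 2 * m)|) * G K w a (b + 2 * m)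

def St_strat : Prop := ∀ (X : ℕ → ℕ → ℝ) (b c : ℝ), 0 ≤ b → 0 ≤ c →
  (∀ i j k : ℕ, i ≤ j → j ≤ k → X i j + X j k ≤ X i k) →
  (∀ i j : ℕ, i ≤ j → -(b + c * ((j : ℝ) - i)) ≤ X i j) →
  ∀ Q : ℕ, ∑ i ∈ Finset.range Q, max (X i (i + 1) - b) 0 - b - c * Q ≤ X 0 Q

def St_loc : Prop :=
  (∀ (K w : ℕ → ℝ) (k i j : ℕ), G K (fun n => w (n + k)) i j = G K w (i + k) (j + k)) ∧
  (∀ (K w : ℕ → ℝ) (k i j : ℕ), F K (fun n => w (n + k)) i j = F K w (i + k) (j + k)) ∧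
  (∀ (w : ℕ → ℝ) (k i j : ℕ), S (fun n => w (n + k)) i j = S w (i + k) (j + k)) ∧
  (∀ (K w w' : ℕ → ℝ) (i j : ℕ), (∀ n ∈ Finset.Ioc i j, w n = w' n) →
    G K w i j = G K w' i j ∧ F K w i j = F K w' i j ∧ S w i j = S w' i j)

def St_meas : Prop := ∀ (D : Data) (h : ℝ) (a b : ℕ),
  Measurable (fun ω : ℕ → ℝ => G D.K (D.w h ω) a b) ∧
  Measurable (fun ω : ℕ → ℝ => F D.K (D.w h ω) a b) ∧
  Measurable (fun ω : ℕ → ℝ => S (D.w h ω) a b)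

def St_rec : Prop := ∀ (κ : PMF ℕ), κ 0 = 0 → ∀ (w : ℕ → ℝ) (N : ℕ),
  Zw κ w N = ∑ k ∈ Finset.Icc 1 N, (κ k).toReal * phi w 0 k * Zw κ (fun n => w (n + k)) (N - k)
    + (1 - ∑ k ∈ Finset.Icc 1 N, (κ k).toReal) * phi w 0 N

def St_Z : Prop := ∀ (D : Data) (h : ℝ) (ω : ℕ → ℝ) (N : ℕ),
  G D.K (D.w h ω) 0 N ≤ Z D.κ D.lam h N ω ∧ Z D.κ D.lam h N ω ≤ F D.K (D.w h ω) 0 N

def St_Zmeas : Prop := ∀ (κ : PMF ℕ) (lam h : ℝ) (N : ℕ), Measurable (fun ω => Z κ lam h N ω)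

def St_Zmono : Prop := ∀ (κ : PMF ℕ) (lam : ℝ), 0 ≤ lam → ∀ (ω : ℕ → ℝ) (N : ℕ) (h h' : ℝ),
  h ≤ h' → 0 < Z κ lam h' N ω ∧ Z κ lam h' N ω ≤ Z κ lam h N ω ∧
    Z κ lam h N ω ≤ Real.exp (2 * lam * (h' - h) * N) * Z κ lam h' N ω

def St_K : Prop := ∀ D : Data, ∃ (c0 : ℝ) (n0 : ℕ), KHyp D.K D.α c0 n0

def St_indep : Prop := ∀ (ν : Measure ℝ) [IsProbabilityMeasure ν] (s t : Finset ℕ), Disjoint s t →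
  ∀ f g : (ℕ → ℝ) → ℝ, Measurable f → Measurable g →
    (∀ ω ω' : ℕ → ℝ, (∀ n ∈ s, ω n = ω' n) → f ω = f ω') →
    (∀ ω ω' : ℕ → ℝ, (∀ n ∈ t, ω n = ω' n) → g ω = g ω') →
    IndepFun f g (disorder ν)

def St_stat : Prop := ∀ (ν : Measure ℝ) [IsProbabilityMeasure ν] (k : ℕ),
  MeasurePreserving (fun (ω : ℕ → ℝ) (n : ℕ) => ω (n + k)) (disorder ν) (disorder ν)

/-- product over blocks -/
def St_block : Prop := ∀ (D : Data) (ℓ : ℕ) (g : (ℕ → ℝ) → ℝ), Measurable g →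
    (∀ ω ω' : ℕ → ℝ, (∀ n ∈ Finset.Ioc 0 ℓ, ω n = ω' n) → g ω = g ω') →
    (∀ ω, 0 ≤ g ω) → ∀ N : ℕ,
    ∫ ω, ∏ i ∈ Finset.range N, g (fun n => ω (n + i * ℓ)) ∂D.P = (∫ ω, g ω ∂D.P) ^ N

def St_EF : Prop := ∀ D : Data, ∃ C1 : ℝ, 0 < C1 ∧ ∀ h, 0 ≤ h → ∀ a ℓ : ℕ, 1 ≤ ℓ →
  Integrable (fun ω => F D.K (D.w h ω) a (a + ℓ)) D.P ∧
  ∫ ω, F D.K (D.w h ω) a (a + ℓ) ∂D.P ≤ Real.exp (C1 * ℓ)

def St_int : Prop := ∀ (D : Data) (c0 : ℝ) (n0 : ℕ), KHyp D.K D.α c0 n0 → ∀ h, 0 ≤ h →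
  (∀ a b, a ≤ b → Integrable (D.lF h a b) D.P) ∧
  (∀ a b, a + n0 ≤ b → Integrable (D.lG h a b) D.P) ∧
  (∀ N, n0 ≤ N → Integrable (fun ω => Real.log (Z D.κ D.lam h N ω)) D.P)

def St_fe : Prop := ∀ (D : Data) (h : ℝ), 0 ≤ h →
  Tendsto (feN D.κ D.ν D.lam h) atTop (𝓝 (D.f h)) ∧
  ∀ ℓ : ℕ, 1 ≤ ℓ → ℓ * D.f h ≤ ∫ ω, D.lF h 0 ℓ ω ∂D.P + Real.log 6

def St_strE : Prop := ∀ (D : Data) (c0 : ℝ) (n0 : ℕ), KHyp D.K D.α c0 n0 → ∀ h, 0 ≤ h →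
  ∀ ℓ : ℕ, n0 ≤ ℓ → ∀ q : ℝ, 0 < q → q ≤ 1 →
    ∫ ω, max (D.lG h 0 ℓ ω - (Real.log (2 / c0) + (1 + D.α) * (Real.log ℓ + Real.log q⁻¹))) 0 ∂D.P
      ≤ ℓ * D.f h + (1 + D.α) * q

def St_T4 : Prop := ∀ (D : Data) (H : ℝ), ∃ C5 : ℝ, 0 < C5 ∧ ∀ h, 0 ≤ h → h ≤ H →
  ∀ ℓ : ℕ, 1 ≤ ℓ → ∀ q : ℝ, 0 < q → q ≤ 1 →
    ∫ ω, max (D.lF h 0 ℓ ω - C5 * (1 + Real.log ℓ + Real.log q⁻¹)) 0 ∂D.P
      ≤ C5 * (ℓ * D.f h + q)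

def St_step : Prop := ∀ (D : Data) (h : ℝ), 0 ≤ h → ∀ N ℓ : ℕ, 1 ≤ N → 1 ≤ ℓ →
  ∀ a y y' : ℝ, 0 ≤ a → 0 < y →
    D.P.real {ω | y' ≤ D.lF h 0 (N * ℓ) ω} ≤ N * D.P.real {ω | y ≤ D.lF h 0 ℓ ω} +
      Real.exp (-(y' - N * (a + Real.log 6)) / y +
        2 * N * (∫ ω, max (D.lF h 0 ℓ ω - a) 0 ∂D.P) / y)

def St_mean : Prop := ∀ (D : Data), ∃ C : ℝ, 0 < C ∧ ∀ h, 0 ≤ h →
  (∀ y, D.P.real {ω | y ≤ D.lF h 0 1 ω} ≤ Real.exp (C - y)) ∧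
  ∀ ℓ : ℕ, 1 ≤ ℓ → ∀ a y : ℝ, 0 ≤ a → a ≤ y →
    ℓ * D.f h - Real.log 6 ≤ a + y * D.P.real {ω | a ≤ D.lF h 0 ℓ ω} +
      C * ℓ * D.P.real {ω | y ≤ D.lF h 0 ℓ ω} + 1

def St_num : Prop := ∀ δ A C c : ℝ, 0 < δ → 0 < A → 0 < C → 0 ≤ c → ∃ f0 : ℝ, 0 < f0 ∧ f0 < 1 ∧
  ∀ f : ℝ, 0 < f → f < f0 → ∀ q : ℕ → ℝ → ℝ,
    (∀ ℓ y, 0 ≤ q ℓ y) →
    (∀ y, q 1 y ≤ Real.exp (C - y)) →
    (∀ N ℓ : ℕ, 1 ≤ N → 1 ≤ ℓ → (ℓ : ℝ) ≤ f ^ (-3 : ℝ) → ∀ y y' : ℝ, 0 < y →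
      q (N * ℓ) y' ≤ N * q ℓ y + Real.exp (-(y' - N * (A * Real.log f⁻¹ + c)) / y +
        2 * N * (C * ℓ * f) / y)) →
    (∀ (ℓ : ℕ) (y : ℝ), 1 ≤ ℓ → A * Real.log f⁻¹ ≤ y →
      ℓ * f - c ≤ A * Real.log f⁻¹ + y * q ℓ (A * Real.log f⁻¹) + C * ℓ * q ℓ y + 1) →
    ∃ ℓ : ℕ, 1 ≤ ℓ ∧ (ℓ : ℝ) ≤ f ^ (-(1 + δ)) ∧ f ^ δ ≤ q ℓ (A * Real.log f⁻¹)

def St_star : Prop := ∀ (D : Data) (H A δ : ℝ), 0 < A → 0 < δ → ∃ f0 : ℝ, 0 < f0 ∧ f0 < 1 ∧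
  ∀ h, 0 ≤ h → h ≤ H → 0 < D.f h → D.f h < f0 →
    ∃ ℓ : ℕ, 1 ≤ ℓ ∧ (ℓ : ℝ) ≤ D.f h ^ (-(1 + δ)) ∧
      D.f h ^ δ ≤ D.P.real {ω | A * Real.log (D.f h)⁻¹ ≤ D.lF h 0 ℓ ω}

def St_fanti : Prop := ∀ (D : Data) (h h' : ℝ), 0 ≤ h → h ≤ h' →
  D.f h' ≤ D.f h ∧ D.f h ≤ D.f h' + 2 * D.lam * (h' - h)

def St_fnn : Prop := ∀ (D : Data) (h : ℝ), 0 ≤ h → 0 ≤ D.f h

def St_absS : Prop := ∀ (D : Data), ∃ c : ℝ, 0 < c ∧ ∀ n : ℕ, 1 ≤ n →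
  Integrable (fun ω => S (D.w 0 ω) 0 n) D.P ∧
  c * Real.sqrt n ≤ ∫ ω, max (S (D.w 0 ω) 0 n) 0 ∂D.P

def St_f0 : Prop := ∀ D : Data, 0 < D.f 0

def St_fH : Prop := ∀ D : Data, ∃ H : ℝ, 0 < H ∧ D.f H ≤ 0

def St_hc : Prop := ∀ D : Data, ∃ hc : ℝ, 0 < hc ∧ (∀ h, 0 ≤ h → (0 < D.f h ↔ h < hc)) ∧
  Tendsto D.f (𝓝[<] hc) (𝓝 0)

def St_R : Prop := ∀ (D : Data) (c0 : ℝ) (n0 : ℕ), KHyp D.K D.α c0 n0 → ∀ (h : ℝ) (ω : ℕ → ℝ),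
  (∀ a, D.R h a a ω = 2) ∧
  (∀ a b, a + n0 ≤ b → 0 < D.R h a b ω ∧ D.R h a b ω ≤ 2 / D.K (b - a)) ∧
  (∀ a b c, (a = b ∨ a + n0 ≤ b) → (b = c ∨ b + n0 ≤ c) → D.R h a c ω ≤ D.R h a b ω * D.R h b c ω)

def St_mu : Prop := ∀ (D : Data) (c0 : ℝ) (n0 : ℕ), KHyp D.K D.α c0 n0 → ∀ (h : ℝ), 0 ≤ h →
  Tendsto (muN D.κ D.ν D.lam h) atTop (𝓝 (D.mu h)) ∧ D.mu h ≤ D.f h ∧
  ∀ N : ℕ, n0 ≤ N → ∫ ω, D.R h 0 N ω ∂D.P ≤ Real.exp (-1) → 1 / (N : ℝ) ≤ D.mu h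

def St_blockR : Prop := ∀ (D : Data) (c0 : ℝ) (n0 : ℕ), KHyp D.K D.α c0 n0 → ∀ h1 H : ℝ, 0 < h1 →
  ∃ C7 θ : ℝ, 0 < C7 ∧ 0 < θ ∧ ∀ h, h1 ≤ h → h ≤ H → ∀ ℓ : ℕ, 1 ≤ ℓ → ∀ y x : ℝ, 0 ≤ x →
    (1 / 2) * D.P.real {ω | y + C7 * (1 + Real.log ℓ) + x ≤ D.lF h 0 ℓ ω} - Real.exp (-(θ * x)) ≤
      D.P.real {ω | y ≤ -Real.log (D.R h 0 (ℓ + 2 * n0) ω)}

def St_ER : Prop := ∀ (D : Data) (c0 : ℝ) (n0 : ℕ), KHyp D.K D.α c0 n0 → ∀ h, 0 ≤ h →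
  ∀ ℓ : ℕ, n0 ≤ ℓ → ∀ Q : ℕ, 1 ≤ Q → ∀ b : ℝ,
    b = Real.log (2 / c0) + (1 + D.α) * (Real.log ℓ + Real.log Q) →
    ∫ ω, D.R h 0 (Q * ℓ) ω ∂D.P ≤
      Real.exp (b + (1 + D.α) - D.P.real {ω | b + 1 ≤ -Real.log (D.R h 0 ℓ ω)} * Q / 2)

def St_low : Prop := ∀ (D : Data) (h1 H ε : ℝ), 0 < h1 → 0 < ε → ∃ f0 : ℝ, 0 < f0 ∧ f0 < 1 ∧
  ∀ h, h1 ≤ h → h ≤ H → 0 < D.f h → D.f h < f0 → D.f h ^ (1 + ε) ≤ D.mu h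

def St_final : Prop := ∀ D : Data,
  (∀ h, 0 ≤ h → Tendsto (feN D.κ D.ν D.lam h) atTop (𝓝 (D.f h))) ∧
  (∀ h, 0 ≤ h → Tendsto (muN D.κ D.ν D.lam h) atTop (𝓝 (D.mu h))) ∧
  ∃ hc : ℝ, 0 < hc ∧ (∀ h, 0 ≤ h → (0 < D.f h ↔ h < hc)) ∧
    (∀ᶠ h in 𝓝[<] hc, 0 < D.mu h ∧ D.mu h ≤ D.f h) ∧
    Tendsto (fun h => Real.log (D.mu h) / Real.log (D.f h)) (𝓝[<] hc) (𝓝 1)


end Cop764
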