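import Pool.Agent.Helper764.CopDefs

set_option autoImplicit false
set_option maxHeartbeats 4000000
open MeasureTheory ProbabilityTheory Filter Topology
open scoped ENNReal NNReal

namespace Cop764
namespace M_G






theorem J_G : St_G := by
  intro K w hK
  have hphi : ∀ i j, 0 ≤ phi w i j := by
    intro i j
    unfold phi
    have := Real.exp_pos (S w i j)
    linarith
  have h1 : ∀ i, G K w i i = 1 := by
    intro i
    rw [G_eq, if_pos rfl]
  have hnn : ∀ d : ℕ, ∀ i j, j - i = d → 0 ≤ G K w i j := by
    intro d
    induction d using Nat.strong_induction_on with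
    | _ d ih =>
      intro i j hd
      rw [G_eq]
      split_ifs with hij
      · exact zero_le_one
      · refine Finset.sum_nonneg fun k hk => ?_
        rw [Finset.mem_Ioc] at hk
        exact mul_nonneg (mul_nonneg (hK _) (hphi _ _)) (ih (j - k) (by omega) k j rfl)
  have h2 : ∀ i j, 0 ≤ G K w i j := fun i j => hnn _ i j rfl
  have hterm : ∀ i j k, 0 ≤ K (k - i) * phi w i k * G K w k j := fun i j k =>
    mul_nonneg (mul_nonneg (hK _) (hphi _ _)) (h2 _ _)
  have h3 : ∀ i j, i < j → K (j - i) * phi w i j ≤ G K w i j := by
    intro i j hij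
    rw [G_eq, if_neg (by omega)]
    have hmem : j ∈ Finset.Ioc i j := Finset.mem_Ioc.2 ⟨hij, le_rfl⟩
    have := Finset.single_le_sum (f := fun k => K (k - i) * phi w i k * G K w k j)
      (fun k _ => hterm i j k) hmem
    simp only [h1, mul_one] at this
    exact this
  refine ⟨h1, h2, h3, ?_⟩
  have h4 : ∀ d : ℕ, ∀ i j k, j - i = d → i ≤ j → j ≤ k →
      G K w i j * G K w j k ≤ G K w i k := by
    intro d
    induction d using Nat.strong_induction_on with
    | _ d ih =>
      intro i j k hd hij hjk
      rcases eq_or_lt_of_le hij with rfl | hlt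
      · rw [h1, one_mul]
      · rw [G_eq K w i j, if_neg (by omega), G_eq K w i k, if_neg (by omega), Finset.sum_mul]
        calc ∑ l ∈ Finset.Ioc i j, K (l - i) * phi w i l * G K w l j * G K w j k
            ≤ ∑ l ∈ Finset.Ioc i j, K (l - i) * phi w i l * G K w l k := by
              refine Finset.sum_le_sum fun l hl => ?_
              rw [Finset.mem_Ioc] at hl
              rw [mul_assoc]
              exact mul_le_mul_of_nonneg_left (ih (j - l) (by omega) l j k rfl hl.2 hjk)
                (mul_nonneg (hK _) (hphi _ _))
          _ ≤ ∑ l ∈ Finset.Ioc i k, K (l - i) * phi w i l * G K w l k := by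
              refine Finset.sum_le_sum_of_subset_of_nonneg ?_ (fun l _ _ => hterm i k l)
              exact Finset.Ioc_subset_Ioc_right hjk
  exact fun i j k hij hjk => h4 _ i j k rfl hij hjk


end M_G
end Cop764
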