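import Pool.Agent.Helper764.CopDefs
import Pool.Agent.Helper764.Cop_G

set_option autoImplicit false
set_option maxHeartbeats 4000000
open MeasureTheory ProbabilityTheory Filter Topology
open scoped ENNReal NNReal

namespace Cop764
namespace M_Fbd

theorem given_G : St_G := M_G.J_G




theorem h16339_S_add (w : ℕ → ℝ) {a b c : ℕ} (h1 : a ≤ b) (h2 : b ≤ c) :
    S w a c = S w a b + S w b c := by
  unfold S
  exact (Finset.sum_Ioc_consecutive w h1 h2).symm

theorem h16339_S_nn (e : ℕ → ℝ) (he : ∀ n, 0 ≤ e n) (i j : ℕ) : 0 ≤ S e i j :=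
  Finset.sum_nonneg fun n _ => he n

theorem h16339_phi_pos (w : ℕ → ℝ) (i j : ℕ) : 0 < phi w i j := by
  unfold phi
  have := Real.exp_pos (S w i j)
  linarith

theorem h16339_phi_le (w e : ℕ → ℝ) (he : ∀ n, 0 ≤ e n) (hw : ∀ n, w n ≤ e n) (i j : ℕ) :
    phi w i j ≤ Real.exp (S e i j) := by
  unfold phi
  have h1 : S w i j ≤ S e i j := Finset.sum_le_sum fun n _ => hw n
  have h2 := Real.exp_le_exp.mpr h1
  have h3 := Real.one_le_exp (h16339_S_nn e he i j)
  linarith

theorem h16339_Ksum (K : ℕ → ℝ) (hK : ∀ n, ∑ k ∈ Finset.Icc 1 n, K k ≤ 1) (i j : ℕ) :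
    ∑ k ∈ Finset.Ioc i j, K (k - i) ≤ 1 := by
  have h1 : ∑ k ∈ Finset.Ioc i j, K (k - i) = ∑ m ∈ Finset.Icc 1 (j - i), K m := by
    apply Finset.sum_nbij' (fun k => k - i) (fun m => m + i)
    · intro k hk
      rw [Finset.mem_Ioc] at hk
      rw [Finset.mem_Icc]
      omega
    · intro m hm
      rw [Finset.mem_Icc] at hm
      rw [Finset.mem_Ioc]
      omega
    · intro k hk
      rw [Finset.mem_Ioc] at hk
      omega
    · intro m hm
      omega
    · intro k _
      rfl
  rw [h1]
  exact hK _

theorem h16339_G (K w e : ℕ → ℝ) (hK0 : ∀ n, 0 ≤ K n)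
    (hK : ∀ n, ∑ k ∈ Finset.Icc 1 n, K k ≤ 1) (he : ∀ n, 0 ≤ e n) (hw : ∀ n, w n ≤ e n) :
    ∀ m i j : ℕ, j - i = m → i ≤ j → G K w i j ≤ Real.exp (S e i j) := by
  intro m
  induction m using Nat.strong_induction_on with
  | _ m ih =>
    intro i j hm hij
    rw [G_eq]
    split_ifs with h
    · exact Real.one_le_exp (h16339_S_nn e he i j)
    · calc ∑ k ∈ Finset.Ioc i j, K (k - i) * phi w i k * G K w k j
          ≤ ∑ k ∈ Finset.Ioc i j, K (k - i) * Real.exp (S e i j) := by
            apply Finset.sum_le_sum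
            intro k hk
            rw [Finset.mem_Ioc] at hk
            have h1 := ih (j - k) (by omega) k j rfl hk.2
            have h2 := h16339_phi_le w e he hw i k
            have h3 := (h16339_phi_pos w i k).le
            have h4 : phi w i k * G K w k j ≤ Real.exp (S e i k) * Real.exp (S e k j) := by
              calc phi w i k * G K w k j ≤ phi w i k * Real.exp (S e k j) :=
                    mul_le_mul_of_nonneg_left h1 h3
                _ ≤ _ := mul_le_mul_of_nonneg_right h2 (Real.exp_pos _).le
            rw [← Real.exp_add, ← h16339_S_add e hk.1.le hk.2] at h4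
            rw [mul_assoc]
            exact mul_le_mul_of_nonneg_left h4 (hK0 _)
        _ = (∑ k ∈ Finset.Ioc i j, K (k - i)) * Real.exp (S e i j) := by
            rw [Finset.sum_mul]
        _ ≤ 1 * Real.exp (S e i j) :=
            mul_le_mul_of_nonneg_right (h16339_Ksum K hK i j) (Real.exp_pos _).le
        _ = _ := one_mul _


theorem J_Fbd : St_Fbd := by
  intro K w α c0 n0 hK a b hab
  obtain ⟨hG1, hG0, -, -⟩ := given_G K w hK.nonneg
  refine ⟨?_, ?_⟩
  · have h1 : phi w a a = 1 := by
      unfold phi S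
      simp
    have h2 : phi w a b = phi w a a * G K w a a * phi w a b := by
      rw [h1, hG1]
      ring
    unfold F
    calc phi w a b = phi w a a * G K w a a * phi w a b := h2
      _ ≤ ∑ k ∈ Finset.Icc a b, phi w a a * G K w a k * phi w k b := by
          refine Finset.single_le_sum (f := fun k => phi w a a * G K w a k * phi w k b) ?_
            (Finset.mem_Icc.mpr ⟨le_refl a, hab⟩)
          intro k _
          exact mul_nonneg (mul_nonneg (h16339_phi_pos _ _ _).le (hG0 _ _))
            (h16339_phi_pos _ _ _).le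
      _ ≤ _ := by
          refine Finset.single_le_sum (f := fun i => ∑ k ∈ Finset.Icc i b,
            phi w a i * G K w i k * phi w k b) ?_ (Finset.mem_Icc.mpr ⟨le_refl a, hab⟩)
          intro i _
          apply Finset.sum_nonneg
          intro k _
          exact mul_nonneg (mul_nonneg (h16339_phi_pos _ _ _).le (hG0 _ _))
            (h16339_phi_pos _ _ _).le
  · intro e he hw
    have hGb := h16339_G K w e hK.nonneg hK.sum_le he hw
    refine ⟨hGb (b - a) a b rfl hab, ?_⟩
    set E := Real.exp (S e a b) with hE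
    have hE0 : 0 < E := Real.exp_pos _
    have hba : 0 ≤ (b : ℝ) - a + 1 := by
      have : (a : ℝ) ≤ b := by exact_mod_cast hab
      linarith
    have hterm : ∀ i ∈ Finset.Icc a b, ∀ k ∈ Finset.Icc i b,
        phi w a i * G K w i k * phi w k b ≤ E := by
      intro i hi k hk
      rw [Finset.mem_Icc] at hi hk
      have h1 := h16339_phi_le w e he hw a i
      have h2 := h16339_phi_le w e he hw k b
      have h3 := hGb (k - i) i k rfl hk.1
      have h4 := (h16339_phi_pos w a i).le
      have h5 := (h16339_phi_pos w k b).le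
      have h6 : phi w a i * G K w i k ≤ Real.exp (S e a i) * Real.exp (S e i k) :=
        mul_le_mul h1 h3 (hG0 _ _) (Real.exp_pos _).le
      have h7 : phi w a i * G K w i k * phi w k b ≤
          Real.exp (S e a i) * Real.exp (S e i k) * Real.exp (S e k b) :=
        mul_le_mul h6 h2 h5 (mul_nonneg (Real.exp_pos _).le (Real.exp_pos _).le)
      refine h7.trans (le_of_eq ?_)
      rw [← Real.exp_add, ← Real.exp_add, hE, h16339_S_add e hi.1 hi.2,
        h16339_S_add e hk.1 hk.2]
      congr 1
      ring
    unfold F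
    calc ∑ i ∈ Finset.Icc a b, ∑ k ∈ Finset.Icc i b, phi w a i * G K w i k * phi w k b
        ≤ ∑ i ∈ Finset.Icc a b, ((b : ℝ) - a + 1) * E := by
          apply Finset.sum_le_sum
          intro i hi
          calc ∑ k ∈ Finset.Icc i b, phi w a i * G K w i k * phi w k b
              ≤ ∑ k ∈ Finset.Icc i b, E := Finset.sum_le_sum (hterm i hi)
            _ = ((b + 1 - i : ℕ) : ℝ) * E := by
                rw [Finset.sum_const, Nat.card_Icc, nsmul_eq_mul]
            _ ≤ ((b : ℝ) - a + 1) * E := by
                apply mul_le_mul_of_nonneg_right _ hE0.le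
                rw [Finset.mem_Icc] at hi
                have h1 : b + 1 - i + a ≤ b + 1 := by omega
                have h2 : ((b + 1 - i : ℕ) : ℝ) + a ≤ b + 1 := by exact_mod_cast h1
                linarith
      _ = ((b + 1 - a : ℕ) : ℝ) * (((b : ℝ) - a + 1) * E) := by
          rw [Finset.sum_const, Nat.card_Icc, nsmul_eq_mul]
      _ = ((b : ℝ) - a + 1) ^ 2 * E := by
          have h1 : b + 1 - a + a = b + 1 := by omega
          have h2 : ((b + 1 - a : ℕ) : ℝ) + a = b + 1 := by exact_mod_cast h1
          have h3 : ((b + 1 - a : ℕ) : ℝ) = (b : ℝ) - a + 1 := by linarith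
          rw [h3]
          ring


end M_Fbd
end Cop764
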