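import Pool.Agent.Helper764.CopDefs

set_option autoImplicit false
set_option maxHeartbeats 4000000
open MeasureTheory ProbabilityTheory Filter Topology
open scoped ENNReal NNReal

namespace Cop764
namespace M_K






theorem J_K : St_K := by
  intro D
  have hev : ∀ᶠ n : ℕ in atTop, D.cK / 2 < (n : ℝ) ^ (1 + D.α) * (D.κ n).toReal :=
    D.htail.eventually (lt_mem_nhds (by have := D.hcK; linarith))
  obtain ⟨n1, hn1⟩ := eventually_atTop.mp hev
  refine ⟨min 1 (D.cK / 2), max 1 n1, ?_⟩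
  refine ⟨fun n => ENNReal.toReal_nonneg, fun n => ?_, D.hα, ?_, min_le_left _ _,
    le_max_left _ _, fun n hn => ?_⟩
  · simp only [Data.K]
    rw [← ENNReal.toReal_sum (fun a _ => D.κ.apply_ne_top a)]
    have h1 : ∑ k ∈ Finset.Icc 1 n, D.κ k ≤ 1 := by
      rw [← D.κ.tsum_coe]
      exact ENNReal.sum_le_tsum _
    have h2 := ENNReal.toReal_mono ENNReal.one_ne_top h1
    rwa [ENNReal.toReal_one] at h2
  · have := D.hcK
    exact lt_min one_pos (by linarith)
  · have hn1' : 1 ≤ n := le_trans (le_max_left _ _) hn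
    have hn2 : n1 ≤ n := le_trans (le_max_right _ _) hn
    have hnpos : (0 : ℝ) < n := by exact_mod_cast hn1'
    have hx : (0 : ℝ) < (n : ℝ) ^ (1 + D.α) := Real.rpow_pos_of_pos hnpos _
    have h3 := hn1 n hn2
    simp only [Data.K]
    rw [Real.rpow_neg hnpos.le, ← div_eq_mul_inv, div_le_iff₀ hx]
    calc min 1 (D.cK / 2) ≤ D.cK / 2 := min_le_right _ _
      _ ≤ (n : ℝ) ^ (1 + D.α) * (D.κ n).toReal := h3.le
      _ = _ := mul_comm _ _


end M_K
end Cop764
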