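import Pool.Agent.Helper764.CopDefs

set_option autoImplicit false
set_option maxHeartbeats 4000000
open MeasureTheory ProbabilityTheory Filter Topology
open scoped ENNReal NNReal

namespace Cop764
namespace M_indep





private theorem indep_ext_meas (s : Finset ℕ) :
    Measurable (fun (v : s → ℝ) (n : ℕ) => if h : n ∈ s then v ⟨n, h⟩ else 0) := by
  refine measurable_pi_iff.2 (fun n => ?_)
  by_cases h : n ∈ s
  · simp only [h, dif_pos]
    exact measurable_pi_apply _
  · simp only [h, dif_neg, not_false_eq_true]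
    exact measurable_const


theorem J_indep : St_indep := by
  intro ν _ s t hst f g hf hg hfs hgt
  have hI : iIndepFun (fun (i : ℕ) (ω : ℕ → ℝ) => ω i) (disorder ν) := by
    unfold disorder
    exact iIndepFun_infinitePi (X := fun _ (x : ℝ) => x) (fun _ => measurable_id)
  have h1 := hI.indepFun_finset s t hst (fun i => measurable_pi_apply i)
  have h2 := h1.comp (hf.comp (indep_ext_meas s)) (hg.comp (indep_ext_meas t))
  have e1 : f = (f ∘ fun (v : s → ℝ) (n : ℕ) => if h : n ∈ s then v ⟨n, h⟩ else 0) ∘
      (fun (a : ℕ → ℝ) (i : s) => a i) := by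
    funext ω
    refine hfs _ _ (fun n hn => ?_)
    simp [hn]
  have e2 : g = (g ∘ fun (v : t → ℝ) (n : ℕ) => if h : n ∈ t then v ⟨n, h⟩ else 0) ∘
      (fun (a : ℕ → ℝ) (i : t) => a i) := by
    funext ω
    refine hgt _ _ (fun n hn => ?_)
    simp [hn]
  rw [e1, e2]
  exact h2


end M_indep
end Cop764
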