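import Pool.Agent.Helper764.CopDefs

set_option autoImplicit false
set_option maxHeartbeats 4000000
open MeasureTheory ProbabilityTheory Filter Topology
open scoped ENNReal NNReal

namespace Cop764
namespace M_stat






theorem J_stat : St_stat := by
  intro ν _ k
  refine ⟨measurable_pi_iff.mpr fun n => measurable_pi_apply (n + k), ?_⟩
  unfold disorder
  exact MeasureTheory.Measure.map_infinitePi_infinitePi_of_inj (α := ℕ) (ι := ℕ)
    (Ω := fun _ => ℝ) (P := fun _ : ℕ => ν) (f := fun n => n + k)
    (add_left_injective k)


end M_stat
end Cop764
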