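import Pool.Agent.Helper764.CopDefs
import Pool.Agent.Helper764.Cop_indep
import Pool.Agent.Helper764.Cop_stat

set_option autoImplicit false
set_option maxHeartbeats 4000000
open MeasureTheory ProbabilityTheory Filter Topology
open scoped ENNReal NNReal

namespace Cop764
namespace M_block

theorem given_indep : St_indep := M_indep.J_indep
theorem given_stat : St_stat := M_stat.J_stat





theorem J_block : St_block := by
  intro D ℓ g hg hloc hnn N
  induction N with
  | zero => simp
  | succ N ih =>
    simp only [Finset.prod_range_succ]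
    have hsh : ∀ k : ℕ, Measurable (fun (ω : ℕ → ℝ) (n : ℕ) => ω (n + k)) :=
      fun k => measurable_pi_lambda _ fun n => measurable_pi_apply _
    have hA : Measurable (fun ω : ℕ → ℝ => ∏ i ∈ Finset.range N, g (fun n => ω (n + i * ℓ))) :=
      Finset.measurable_fun_prod _ fun i _ => hg.comp (hsh _)
    have hB : Measurable (fun ω : ℕ → ℝ => g (fun n => ω (n + N * ℓ))) := hg.comp (hsh _)
    have hdisj : Disjoint (Finset.Ioc 0 (N * ℓ)) (Finset.Ioc (N * ℓ) ((N + 1) * ℓ)) := by
      rw [Finset.disjoint_left]
      intro a ha hb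
      rw [Finset.mem_Ioc] at ha hb
      omega
    have hI : IndepFun (fun ω : ℕ → ℝ => ∏ i ∈ Finset.range N, g (fun n => ω (n + i * ℓ)))
        (fun ω : ℕ → ℝ => g (fun n => ω (n + N * ℓ))) D.P := by
      refine given_indep D.ν _ _ hdisj _ _ hA hB ?_ ?_
      · intro ω ω' h
        refine Finset.prod_congr rfl fun i hi => hloc _ _ fun n hn => ?_
        apply h
        rw [Finset.mem_Ioc] at hn ⊢
        have h1 : i + 1 ≤ N := Finset.mem_range.1 hi
        have h2 : (i + 1) * ℓ ≤ N * ℓ := Nat.mul_le_mul_right _ h1
        have h3 : (i + 1) * ℓ = i * ℓ + ℓ := by ring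
        omega
      · intro ω ω' h
        refine hloc _ _ fun n hn => ?_
        apply h
        rw [Finset.mem_Ioc] at hn ⊢
        have h3 : (N + 1) * ℓ = N * ℓ + ℓ := by ring
        omega
    rw [hI.integral_fun_mul_eq_mul_integral hA.aestronglyMeasurable hB.aestronglyMeasurable, ih,
      pow_succ]
    congr 1
    have hmp := given_stat D.ν (N * ℓ)
    have h1 := MeasureTheory.integral_map (μ := disorder D.ν)
      (φ := fun (ω : ℕ → ℝ) (n : ℕ) => ω (n + N * ℓ)) (hsh _).aemeasurable
      (f := g) (by rw [hmp.map_eq]; exact hg.aestronglyMeasurable)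
    rw [hmp.map_eq] at h1
    exact h1.symm


end M_block
end Cop764
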