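import Pool.Agent.Helper764.CopDefs

set_option autoImplicit false
set_option maxHeartbeats 4000000
open MeasureTheory ProbabilityTheory Filter Topology
open scoped ENNReal NNReal

namespace Cop764
namespace M_meas





theorem J_meas_w (D : Data) (h : ℝ) (n : ℕ) : Measurable (fun ω : ℕ → ℝ => D.w h ω n) := by
  unfold Data.w
  have h1 : Measurable (fun ω : ℕ → ℝ => ω n) := measurable_pi_apply n
  exact (h1.add_const h).const_mul _

theorem J_meas_S (D : Data) (h : ℝ) (a b : ℕ) : Measurable (fun ω : ℕ → ℝ => S (D.w h ω) a b) := by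
  unfold S
  exact Finset.measurable_fun_sum _ fun n _ => J_meas_w D h n

theorem J_meas_phi (D : Data) (h : ℝ) (a b : ℕ) :
    Measurable (fun ω : ℕ → ℝ => phi (D.w h ω) a b) := by
  unfold phi
  exact ((J_meas_S D h a b).exp.const_add 1).div_const 2

theorem J_meas_G (D : Data) (h : ℝ) : ∀ (d a b : ℕ), b - a = d →
    Measurable (fun ω : ℕ → ℝ => G D.K (D.w h ω) a b) := by
  intro d
  induction d using Nat.strong_induction_on with
  | _ d ih =>
    intro a b hab
    by_cases hne : a = b
    · have e : (fun ω : ℕ → ℝ => G D.K (D.w h ω) a b) = fun _ => 1 := by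
        funext ω
        rw [G_eq, if_pos hne]
      rw [e]
      exact measurable_const
    · have e : (fun ω : ℕ → ℝ => G D.K (D.w h ω) a b) = fun ω =>
          ∑ k ∈ Finset.Ioc a b, D.K (k - a) * phi (D.w h ω) a k * G D.K (D.w h ω) k b := by
        funext ω
        rw [G_eq, if_neg hne]
      rw [e]
      refine Finset.measurable_fun_sum _ fun k hk => ?_
      rw [Finset.mem_Ioc] at hk
      exact ((J_meas_phi D h a k).const_mul _).mul (ih (b - k) (by omega) k b rfl)


theorem J_meas : St_meas := by
  intro D h a b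
  refine ⟨J_meas_G D h _ a b rfl, ?_, J_meas_S D h a b⟩
  unfold F
  refine Finset.measurable_fun_sum _ fun i _ => Finset.measurable_fun_sum _ fun k _ => ?_
  exact ((J_meas_phi D h a i).mul (J_meas_G D h _ i k rfl)).mul (J_meas_phi D h k b)


end M_meas
end Cop764
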