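import Pool.Agent.Helper764.CopDefs
import Pool.Agent.Helper764.Cop_Fbd
import Pool.Agent.Helper764.Cop_K
import Pool.Agent.Helper764.Cop_meas
import Pool.Agent.Helper764.Cop_block
import Pool.Agent.Helper764.Cop_stat

set_option autoImplicit false
set_option maxHeartbeats 4000000
open MeasureTheory ProbabilityTheory Filter Topology
open scoped ENNReal NNReal

namespace Cop764
namespace M_EF

theorem given_Fbd : St_Fbd := M_Fbd.J_Fbd
theorem given_K : St_K := M_K.J_K
theorem given_meas : St_meas := M_meas.J_meas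
theorem given_block : St_block := M_block.J_block
theorem given_stat : St_stat := M_stat.J_stat




theorem ef_intg (D : Data) : Integrable (fun x : ℝ => Real.exp (2 * D.lam * |x|)) D.ν := by
  have h1 := (D.expm (2 * D.lam)).add (D.expm (-(2 * D.lam)))
  refine h1.mono' (by fun_prop) (Filter.Eventually.of_forall fun x => ?_)
  rw [Real.norm_eq_abs, abs_of_pos (Real.exp_pos _)]
  simp only [Pi.add_apply]
  rcases abs_cases x with ⟨h, _⟩ | ⟨h, _⟩
  · rw [h]
    have := Real.exp_pos (-(2 * D.lam) * x)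
    linarith
  · rw [h]
    have := Real.exp_pos (2 * D.lam * x)
    have e : 2 * D.lam * -x = -(2 * D.lam) * x := by ring
    rw [e]
    linarith

theorem ef_S (D : Data) (ω : ℕ → ℝ) (a ℓ : ℕ) :
    Real.exp (S (fun n => 2 * D.lam * |ω n|) a (a + ℓ))
      = ∏ i ∈ Finset.range ℓ, Real.exp (2 * D.lam * |ω (1 + i * 1 + a)|) := by
  rw [← Real.exp_sum]
  congr 1
  unfold S
  induction ℓ with
  | zero => simp
  | succ ℓ ih =>
    rw [Finset.sum_range_succ, ← ih, ← add_assoc, Finset.sum_Ioc_succ_top (by omega)]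
    congr 4
    omega

theorem ef_int (D : Data) (a ℓ : ℕ) :
    ∫ ω, Real.exp (S (fun n => 2 * D.lam * |ω n|) a (a + ℓ)) ∂D.P
      = (∫ x, Real.exp (2 * D.lam * |x|) ∂D.ν) ^ ℓ := by
  have hg : Measurable (fun ω : ℕ → ℝ => Real.exp (2 * D.lam * |ω 1|)) := by fun_prop
  have h1 := given_block D 1 (fun ω => Real.exp (2 * D.lam * |ω 1|)) hg
    (fun ω ω' h => by
      have : ω 1 = ω' 1 := h 1 (by simp)
      simp only [this]) (fun ω => (Real.exp_pos _).le) ℓ
  have h2 : ∫ ω, Real.exp (2 * D.lam * |ω 1|) ∂D.P = ∫ x, Real.exp (2 * D.lam * |x|) ∂D.ν := by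
    have h3 : MeasurePreserving (Function.eval 1) (disorder D.ν) D.ν :=
      measurePreserving_eval_infinitePi (fun _ : ℕ => D.ν) 1
    unfold Data.P
    have h4 := h3.map_eq
    conv_rhs => rw [← h4]
    rw [integral_map h3.measurable.aemeasurable (by fun_prop)]
  rw [h2] at h1
  rw [← h1]
  have h5 := given_stat D.ν a
  have h6 : ∫ ω, (fun ω' : ℕ → ℝ => ∏ i ∈ Finset.range ℓ, Real.exp (2 * D.lam * |ω' (1 + i * 1)|))
      ((fun (ω : ℕ → ℝ) (n : ℕ) => ω (n + a)) ω) ∂(disorder D.ν)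
      = ∫ ω, ∏ i ∈ Finset.range ℓ, Real.exp (2 * D.lam * |ω (1 + i * 1)|) ∂(disorder D.ν) := by
    conv_rhs => rw [← h5.map_eq]
    have h7 : Measurable (fun ω : ℕ → ℝ => ∏ i ∈ Finset.range ℓ,
        Real.exp (2 * D.lam * |ω (1 + i * 1)|)) := by fun_prop
    rw [integral_map h5.measurable.aemeasurable h7.aestronglyMeasurable]
  unfold Data.P
  rw [← h6]
  congr 1
  funext ω
  rw [ef_S]

theorem J_EF : St_EF := by
  intro D
  set M := ∫ x, Real.exp (2 * D.lam * |x|) ∂D.ν with hM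
  have hM1 : 1 ≤ M := by
    have h1 : ∫ _x : ℝ, (1 : ℝ) ∂D.ν = 1 := by simp
    rw [← h1]
    refine integral_mono (integrable_const _) (ef_intg D) fun x => ?_
    have := D.hlam
    exact Real.one_le_exp (by positivity)
  have hlM : 0 ≤ Real.log M := Real.log_nonneg hM1
  refine ⟨2 + Real.log M + 1, by linarith, fun h hh a ℓ hℓ => ?_⟩
  obtain ⟨c0, n0, hK⟩ := given_K D
  have hb : ∀ ω : ℕ → ℝ, phi (D.w h ω) a (a + ℓ) ≤ F D.K (D.w h ω) a (a + ℓ) ∧
      F D.K (D.w h ω) a (a + ℓ)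
        ≤ ((ℓ : ℝ) + 1) ^ 2 * Real.exp (S (fun n => 2 * D.lam * |ω n|) a (a + ℓ)) := by
    intro ω
    have h1 := given_Fbd D.K (D.w h ω) D.α c0 n0 hK a (a + ℓ) (by omega)
    refine ⟨h1.1, ?_⟩
    have h2 := (h1.2 (fun n => 2 * D.lam * |ω n|)
      (fun n => by have := D.hlam; positivity)
      (fun n => by
        unfold Data.w
        have h3 := D.hlam
        have h4 := neg_abs_le (ω n)
        nlinarith [mul_nonneg h3.le hh])).2
    push_cast at h2
    have h3 : (a : ℝ) + ℓ - a + 1 = ℓ + 1 := by ring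
    rw [h3] at h2
    exact h2
  have hnn : ∀ ω : ℕ → ℝ, 0 ≤ F D.K (D.w h ω) a (a + ℓ) := by
    intro ω
    refine le_trans ?_ (hb ω).1
    unfold phi
    have := Real.exp_pos (S (D.w h ω) a (a + ℓ))
    linarith
  have hpos : 0 < ∫ ω, Real.exp (S (fun n => 2 * D.lam * |ω n|) a (a + ℓ)) ∂D.P := by
    rw [ef_int]
    positivity
  have hint : Integrable (fun ω => Real.exp (S (fun n => 2 * D.lam * |ω n|) a (a + ℓ))) D.P := by
    by_contra hc
    rw [integral_undef hc] at hpos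
    exact lt_irrefl _ hpos
  have hint2 := hint.const_mul (((ℓ : ℝ) + 1) ^ 2)
  have hF : Integrable (fun ω => F D.K (D.w h ω) a (a + ℓ)) D.P := by
    refine hint2.mono' (given_meas D h a (a + ℓ)).2.1.aestronglyMeasurable
      (Filter.Eventually.of_forall fun ω => ?_)
    rw [Real.norm_eq_abs, abs_of_nonneg (hnn ω)]
    exact (hb ω).2
  refine ⟨hF, ?_⟩
  have h1 := integral_mono hF hint2 (fun ω => (hb ω).2)
  rw [integral_const_mul, ef_int, ← hM] at h1
  refine h1.trans ?_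
  have h2 : ((ℓ : ℝ) + 1) ^ 2 ≤ Real.exp (2 * ℓ) := by
    have h3 := Real.add_one_le_exp (ℓ : ℝ)
    have h4 : Real.exp (2 * ℓ) = Real.exp ℓ ^ 2 := by
      rw [← Real.exp_nat_mul]
      norm_num
    rw [h4]
    gcongr
  have h3 : M ^ ℓ = Real.exp (Real.log M * ℓ) := by
    rw [Real.exp_mul, Real.exp_log (by linarith), Real.rpow_natCast]
  rw [h3]
  calc ((ℓ : ℝ) + 1) ^ 2 * Real.exp (Real.log M * ℓ)
      ≤ Real.exp (2 * ℓ) * Real.exp (Real.log M * ℓ) := by gcongr
    _ = Real.exp (2 * ℓ + Real.log M * ℓ) := by rw [Real.exp_add]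
    _ ≤ Real.exp ((2 + Real.log M + 1) * ℓ) := by
        apply Real.exp_le_exp.2
        have : (0:ℝ) ≤ ℓ := Nat.cast_nonneg _
        nlinarith


end M_EF
end Cop764
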