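import Pool.Agent.Helper764.CopDefs
import Pool.Agent.Helper764.Cop_G

set_option autoImplicit false
set_option maxHeartbeats 4000000
open MeasureTheory ProbabilityTheory Filter Topology
open scoped ENNReal NNReal

namespace Cop764
namespace M_R

theorem given_G : St_G := M_G.J_G





theorem J_R : St_R := by
  intro D c0 n0 hK h ω
  obtain ⟨G1, G2, G3, G4⟩ := given_G D.K (D.w h ω) hK.nonneg
  have hRnn : ∀ a b, 0 ≤ D.R h a b ω := fun a b => by
    unfold Data.R
    exact div_nonneg (by positivity) (G2 a b)
  have hRaa : ∀ a, D.R h a a ω = 2 := by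
    intro a
    unfold Data.R
    rw [G1]
    simp [S]
    norm_num
  have hKpos : ∀ n, n0 ≤ n → 0 < D.K n := by
    intro n hn
    have h1 := hK.lower n hn
    have h2 : 0 < (n : ℝ) := by
      have := hK.n0_pos
      exact_mod_cast (by omega : 0 < n)
    have h3 : 0 < c0 * (n : ℝ) ^ (-(1 + D.α)) := mul_pos hK.c0_pos (Real.rpow_pos_of_pos h2 _)
    linarith
  have hGpos : ∀ a b, a + n0 ≤ b → 0 < D.K (b - a) * phi (D.w h ω) a b ∧
      D.K (b - a) * phi (D.w h ω) a b ≤ G D.K (D.w h ω) a b := by
    intro a b hab
    have h1 := hK.n0_pos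
    refine ⟨mul_pos (hKpos _ (by omega)) ?_, G3 a b (by omega)⟩
    unfold phi
    positivity
  refine ⟨hRaa, ?_, ?_⟩
  · intro a b hab
    obtain ⟨h1, h2⟩ := hGpos a b hab
    have hKp := hKpos (b - a) (by omega)
    have hG : 0 < G D.K (D.w h ω) a b := lt_of_lt_of_le h1 h2
    refine ⟨?_, ?_⟩
    · unfold Data.R
      exact div_pos (by positivity) hG
    · unfold Data.R
      rw [div_le_div_iff₀ hG hKp]
      unfold phi at h2
      nlinarith
  · intro a b c hab hbc
    rcases hab with rfl | hab
    · rw [hRaa]
      have := hRnn a c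
      linarith
    · rcases hbc with rfl | hbc
      · rw [hRaa]
        have := hRnn a b
        linarith
      · obtain ⟨h1, h2⟩ := hGpos a b hab
        obtain ⟨h3, h4⟩ := hGpos b c hbc
        have hGab : 0 < G D.K (D.w h ω) a b := lt_of_lt_of_le h1 h2
        have hGbc : 0 < G D.K (D.w h ω) b c := lt_of_lt_of_le h3 h4
        have h5 := G4 a b c (by omega) (by omega)
        have hS : S (D.w h ω) a c = S (D.w h ω) a b + S (D.w h ω) b c := by
          unfold S
          exact (Finset.sum_Ioc_consecutive _ (by omega) (by omega)).symm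
        unfold Data.R
        rw [div_mul_div_comm, hS, Real.exp_add]
        apply div_le_div₀ (by positivity) _ (mul_pos hGab hGbc) h5
        have e1 := Real.exp_pos (S (D.w h ω) a b)
        have e2 := Real.exp_pos (S (D.w h ω) b c)
        nlinarith


end M_R
end Cop764
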