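import Pool.Agent.Helper764.CopDefs

set_option autoImplicit false
set_option maxHeartbeats 4000000
open MeasureTheory ProbabilityTheory Filter Topology
open scoped ENNReal NNReal

namespace Cop764
namespace M_loc






theorem J_loc : St_loc := by
  have hIoc : ∀ (f : ℕ → ℝ) (k i j : ℕ), ∑ n ∈ Finset.Ioc (i + k) (j + k), f n
      = ∑ n ∈ Finset.Ioc i j, f (n + k) := by
    intro f k i j
    rw [← Finset.map_add_right_Ioc, Finset.sum_map]
    rfl
  have hIcc : ∀ (f : ℕ → ℝ) (k i j : ℕ), ∑ n ∈ Finset.Icc (i + k) (j + k), f n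
      = ∑ n ∈ Finset.Icc i j, f (n + k) := by
    intro f k i j
    rw [← Finset.map_add_right_Icc, Finset.sum_map]
    rfl
  have hS : ∀ (w : ℕ → ℝ) (k i j : ℕ), S (fun n => w (n + k)) i j = S w (i + k) (j + k) := by
    intro w k i j
    unfold S
    rw [hIoc]
  have hphi : ∀ (w : ℕ → ℝ) (k i j : ℕ), phi (fun n => w (n + k)) i j = phi w (i + k) (j + k) := by
    intro w k i j
    unfold phi
    rw [hS]
  have hG : ∀ (K w : ℕ → ℝ) (k : ℕ), ∀ d i j : ℕ, j - i = d →
      G K (fun n => w (n + k)) i j = G K w (i + k) (j + k) := by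
    intro K w k d
    induction d using Nat.strong_induction_on with
    | _ d ih =>
      intro i j hd
      rw [G_eq, G_eq K w (i + k)]
      by_cases hij : i = j
      · simp [hij]
      · have hij' : ¬ (i + k = j + k) := by omega
        rw [if_neg hij, if_neg hij', hIoc]
        apply Finset.sum_congr rfl
        intro n hn
        have hn' := Finset.mem_Ioc.mp hn
        rw [Nat.add_sub_add_right, hphi, ih (j - n) (by omega) n j rfl]
  have hSl : ∀ (w w' : ℕ → ℝ) (a b i j : ℕ), (∀ n ∈ Finset.Ioc i j, w n = w' n) → i ≤ a → b ≤ j →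
      S w a b = S w' a b := by
    intro w w' a b i j h ha hb
    unfold S
    apply Finset.sum_congr rfl
    intro n hn
    apply h
    rw [Finset.mem_Ioc] at hn ⊢
    omega
  have hphil : ∀ (w w' : ℕ → ℝ) (a b i j : ℕ), (∀ n ∈ Finset.Ioc i j, w n = w' n) → i ≤ a → b ≤ j →
      phi w a b = phi w' a b := by
    intro w w' a b i j h ha hb
    unfold phi
    rw [hSl w w' a b i j h ha hb]
  have hGl : ∀ (K w w' : ℕ → ℝ) (i j : ℕ), (∀ n ∈ Finset.Ioc i j, w n = w' n) →
      ∀ d a b : ℕ, b - a = d → i ≤ a → b ≤ j → G K w a b = G K w' a b := by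
    intro K w w' i j h d
    induction d using Nat.strong_induction_on with
    | _ d ih =>
      intro a b hd ha hb
      rw [G_eq, G_eq K w' a]
      by_cases hab : a = b
      · simp [hab]
      · rw [if_neg hab, if_neg hab]
        apply Finset.sum_congr rfl
        intro n hn
        have hn' := Finset.mem_Ioc.mp hn
        rw [hphil w w' a n i j h ha (by omega), ih (b - n) (by omega) n b rfl (by omega) hb]
  refine ⟨?_, ?_, hS, ?_⟩
  · intro K w k i j
    exact hG K w k _ i j rfl
  · intro K w k i j
    unfold F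
    rw [hIcc]
    apply Finset.sum_congr rfl
    intro a _
    rw [hIcc]
    apply Finset.sum_congr rfl
    intro b _
    rw [hphi, hphi, hG K w k _ a b rfl]
  · intro K w w' i j h
    refine ⟨hGl K w w' i j h _ i j rfl le_rfl le_rfl, ?_, hSl w w' i j i j h le_rfl le_rfl⟩
    unfold F
    apply Finset.sum_congr rfl
    intro a ha
    apply Finset.sum_congr rfl
    intro b hb
    rw [Finset.mem_Icc] at ha hb
    rw [hphil w w' i a i j h le_rfl (by omega), hphil w w' b j i j h (by omega) le_rfl,
      hGl K w w' i j h _ a b rfl (by omega) (by omega)]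



end M_loc
end Cop764
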