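import Pool.Agent.Helper764.CopDefs

set_option autoImplicit false
set_option maxHeartbeats 4000000
open MeasureTheory ProbabilityTheory Filter Topology
open scoped ENNReal NNReal

namespace Cop764
namespace M_strat






theorem J_strat : St_strat := by
  intro X b c hb hc h1 h2 Q
  have key : ∀ Q m : ℕ, Q ≤ m →
      ∑ i ∈ Finset.range Q, max (X i (i + 1) - b) 0 - b - c * m ≤ X 0 m := by
    intro Q
    induction Q with
    | zero =>
      intro m _
      have := h2 0 m (Nat.zero_le m)
      simp only [Finset.range_zero, Finset.sum_empty, Nat.cast_zero, sub_zero] at this ⊢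
      linarith
    | succ Q ih =>
      intro m hm
      rw [Finset.sum_range_succ]
      rcases le_or_gt (X Q (Q + 1) - b) 0 with h | h
      · rw [max_eq_right h]
        have := ih m (by omega)
        linarith
      · rw [max_eq_left h.le]
        have e1 := ih Q le_rfl
        have e2 := h2 (Q + 1) m hm
        have e3 := h1 0 Q (Q + 1) (Nat.zero_le _) (Nat.le_succ _)
        have e4 := h1 0 (Q + 1) m (Nat.zero_le _) hm
        push_cast at e2
        nlinarith
  exact key Q Q le_rfl


end M_strat
end Cop764
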