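import Pool.Agent.Helper764.CopDefs
import Pool.Agent.Helper764.Cop_strat
import Pool.Agent.Helper764.Cop_R
import Pool.Agent.Helper764.Cop_block
import Pool.Agent.Helper764.Cop_loc
import Pool.Agent.Helper764.Cop_meas
import Pool.Agent.Helper764.Cop_stat

set_option autoImplicit false
set_option maxHeartbeats 4000000
open MeasureTheory ProbabilityTheory Filter Topology
open scoped ENNReal NNReal

namespace Cop764
namespace M_ER

theorem given_strat : St_strat := M_strat.J_strat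
theorem given_R : St_R := M_R.J_R
theorem given_block : St_block := M_block.J_block
theorem given_loc : St_loc := M_loc.J_loc
theorem given_meas : St_meas := M_meas.J_meas
theorem given_stat : St_stat := M_stat.J_stat




theorem ER_shift (D : Data) (h : ℝ) (k a b : ℕ) (ω : ℕ → ℝ) :
    D.R h a b (fun n => ω (n + k)) = D.R h (a + k) (b + k) ω := by
  obtain ⟨h1, _, h3, _⟩ := given_loc
  unfold Data.R
  have e : D.w h (fun n => ω (n + k)) = fun n => D.w h ω (n + k) := rfl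
  rw [e, h1, h3]

theorem ER_gap {ℓ n0 i j : ℕ} (hℓ : n0 ≤ ℓ) (hij : i < j) : i * ℓ + n0 ≤ j * ℓ := by
  have h1 : (i + 1) * ℓ ≤ j * ℓ := Nat.mul_le_mul_right ℓ hij
  have h2 : (i + 1) * ℓ = i * ℓ + ℓ := by ring
  omega

theorem ER_pos (D : Data) (c0 : ℝ) (n0 : ℕ) (hK : KHyp D.K D.α c0 n0) (h : ℝ) (ω : ℕ → ℝ)
    {ℓ : ℕ} (hℓ : n0 ≤ ℓ) {i j : ℕ} (hij : i ≤ j) : 0 < D.R h (i * ℓ) (j * ℓ) ω := by
  obtain ⟨h1, h2, _⟩ := given_R D c0 n0 hK h ω
  rcases hij.eq_or_lt with rfl | hlt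
  · rw [h1]; norm_num
  · exact (h2 _ _ (ER_gap hℓ hlt)).1

theorem ER_lower (D : Data) (c0 : ℝ) (n0 : ℕ) (hK : KHyp D.K D.α c0 n0) (h : ℝ) (ω : ℕ → ℝ)
    {ℓ : ℕ} (hℓ : n0 ≤ ℓ) {i j : ℕ} (hij : i < j) {Q : ℕ} (hQ : 1 ≤ Q) :
    Real.log (D.R h (i * ℓ) (j * ℓ) ω) ≤ Real.log (2 / c0) +
      (1 + D.α) * (Real.log ℓ + Real.log Q) + (1 + D.α) / Q * ((j : ℝ) - i) := by
  obtain ⟨_, h2, _⟩ := given_R D c0 n0 hK h ω
  obtain ⟨hpos, hle⟩ := h2 _ _ (ER_gap hℓ hij)
  have hα := hK.alpha_pos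
  have hc0 := hK.c0_pos
  have hn0 := hK.n0_pos
  have hℓ1 : 1 ≤ ℓ := hn0.trans hℓ
  have hℓpos : (0 : ℝ) < ℓ := by exact_mod_cast hℓ1
  have hQpos : (0 : ℝ) < Q := by exact_mod_cast hQ
  obtain ⟨r, rfl⟩ : ∃ r, j = i + r := ⟨j - i, by omega⟩
  have hr : 1 ≤ r := by omega
  have hrpos : (0 : ℝ) < r := by exact_mod_cast hr
  have e1 : (i + r) * ℓ - i * ℓ = r * ℓ := by
    rw [← Nat.sub_mul]; congr 1; omega
  rw [e1] at hle
  have hn : n0 ≤ r * ℓ := by nlinarith
  have hlow := hK.lower (r * ℓ) hn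
  have hrl : (0 : ℝ) < ((r * ℓ : ℕ) : ℝ) := by push_cast; positivity
  have hlow0 : 0 < c0 * ((r * ℓ : ℕ) : ℝ) ^ (-(1 + D.α)) :=
    mul_pos hc0 (Real.rpow_pos_of_pos hrl _)
  have h3 : D.R h (i * ℓ) ((i + r) * ℓ) ω ≤ 2 / (c0 * ((r * ℓ : ℕ) : ℝ) ^ (-(1 + D.α))) :=
    hle.trans (div_le_div_of_nonneg_left (by norm_num) hlow0 hlow)
  have h4 := Real.log_le_log hpos h3
  have h5 : Real.log (2 / (c0 * ((r * ℓ : ℕ) : ℝ) ^ (-(1 + D.α))))
      = Real.log (2 / c0) + (1 + D.α) * (Real.log r + Real.log ℓ) := by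
    rw [← div_div, Real.log_div (by positivity) (Real.rpow_pos_of_pos hrl _).ne',
      Real.log_rpow hrl]
    have e2 : Real.log ((r * ℓ : ℕ) : ℝ) = Real.log r + Real.log ℓ := by
      push_cast
      exact Real.log_mul hrpos.ne' hℓpos.ne'
    rw [e2]
    ring
  rw [h5] at h4
  have h6 : Real.log r ≤ Real.log Q + r / Q := by
    have h7 : Real.log ((r : ℝ) / Q) ≤ (r : ℝ) / Q - 1 := Real.log_le_sub_one_of_pos (by positivity)
    rw [Real.log_div hrpos.ne' hQpos.ne'] at h7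
    linarith
  have h8 : (1 + D.α) * Real.log r ≤ (1 + D.α) * (Real.log Q + r / Q) :=
    mul_le_mul_of_nonneg_left h6 (by linarith)
  have e3 : (1 + D.α) / Q * (((i + r : ℕ) : ℝ) - i) = (1 + D.α) * (r / Q) := by
    push_cast
    field_simp
    ring
  rw [e3]
  nlinarith [h4, h8]

theorem ER_det (D : Data) (c0 : ℝ) (n0 : ℕ) (hK : KHyp D.K D.α c0 n0) (h : ℝ) (ω : ℕ → ℝ)
    {ℓ : ℕ} (hℓ : n0 ≤ ℓ) {Q : ℕ} (hQ : 1 ≤ Q) (b : ℝ)
    (hb : b = Real.log (2 / c0) + (1 + D.α) * (Real.log ℓ + Real.log Q)) (hb2 : Real.log 2 ≤ b) :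
    D.R h 0 (Q * ℓ) ω ≤ Real.exp (b + (1 + D.α)) *
      ∏ i ∈ Finset.range Q,
        Real.exp (-max (-Real.log (D.R h 0 ℓ (fun n => ω (n + i * ℓ))) - b) 0) := by
  have hα := hK.alpha_pos
  have hQpos : (0 : ℝ) < Q := by exact_mod_cast hQ
  have hb0 : 0 ≤ b := (Real.log_nonneg (by norm_num)).trans hb2
  obtain ⟨r1, r2, r3⟩ := given_R D c0 n0 hK h ω
  have hs := given_strat (fun i j => -Real.log (D.R h (i * ℓ) (j * ℓ) ω)) b ((1 + D.α) / Q)
    hb0 (by positivity) ?_ ?_ Q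
  · simp only [Nat.zero_mul] at hs
    have hpos : 0 < D.R h 0 (Q * ℓ) ω := by
      have := ER_pos D c0 n0 hK h ω hℓ (Nat.zero_le Q)
      rwa [Nat.zero_mul] at this
    have e1 : ∀ i ∈ Finset.range Q,
        Real.exp (-max (-Real.log (D.R h 0 ℓ (fun n => ω (n + i * ℓ))) - b) 0)
        = Real.exp (-max (-Real.log (D.R h (i * ℓ) ((i + 1) * ℓ) ω) - b) 0) := by
      intro i _
      rw [ER_shift]
      have e2 : 0 + i * ℓ = i * ℓ := by ring
      have e3 : ℓ + i * ℓ = (i + 1) * ℓ := by ring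
      rw [e2, e3]
    rw [Finset.prod_congr rfl e1, ← Real.exp_sum, ← Real.exp_add, ← Real.log_le_iff_le_exp hpos,
      Finset.sum_neg_distrib]
    have e4 : (1 + D.α) / Q * (Q : ℝ) = 1 + D.α := by field_simp
    rw [e4] at hs
    linarith
  · intro i j k hij hjk
    have h1 : D.R h (i * ℓ) (k * ℓ) ω ≤ D.R h (i * ℓ) (j * ℓ) ω * D.R h (j * ℓ) (k * ℓ) ω := by
      apply r3
      · rcases hij.eq_or_lt with rfl | hlt
        · exact Or.inl rfl
        · exact Or.inr (ER_gap hℓ hlt)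
      · rcases hjk.eq_or_lt with rfl | hlt
        · exact Or.inl rfl
        · exact Or.inr (ER_gap hℓ hlt)
    have p1 := ER_pos D c0 n0 hK h ω hℓ hij
    have p2 := ER_pos D c0 n0 hK h ω hℓ hjk
    have p3 := ER_pos D c0 n0 hK h ω hℓ (hij.trans hjk)
    have h2 := Real.log_le_log p3 h1
    rw [Real.log_mul p1.ne' p2.ne'] at h2
    show -_ + -_ ≤ -_
    linarith
  · intro i j hij
    show -_ ≤ -_
    apply neg_le_neg
    rcases hij.eq_or_lt with rfl | hlt
    · rw [r1]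
      simpa using hb2
    · have := ER_lower D c0 n0 hK h ω hℓ hlt hQ
      rw [← hb] at this
      exact this

theorem ER_meas (D : Data) (h : ℝ) (a b : ℕ) : Measurable (fun ω : ℕ → ℝ => D.R h a b ω) := by
  obtain ⟨h1, _, h3⟩ := given_meas D h a b
  unfold Data.R
  exact (measurable_const.add (Real.measurable_exp.comp h3)).div h1

theorem ER_local (D : Data) (h : ℝ) (a b : ℕ) (ω ω' : ℕ → ℝ)
    (he : ∀ n ∈ Finset.Ioc a b, ω n = ω' n) : D.R h a b ω = D.R h a b ω' := by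
  obtain ⟨_, _, _, h4⟩ := given_loc
  obtain ⟨g1, _, g3⟩ := h4 D.K (D.w h ω) (D.w h ω') a b (by
    intro n hn
    unfold Data.w
    rw [he n hn])
  unfold Data.R
  rw [g1, g3]

theorem ER_one (D : Data) (Y : (ℕ → ℝ) → ℝ) (hY : Measurable Y) (b : ℝ) :
    ∫ ω, Real.exp (-max (Y ω - b) 0) ∂D.P ≤ Real.exp (-(D.P.real {ω | b + 1 ≤ Y ω} / 2)) := by
  have hE : MeasurableSet {ω | b + 1 ≤ Y ω} := measurableSet_le measurable_const hY
  have hmeas : Measurable (fun ω => Real.exp (-max (Y ω - b) 0)) :=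
    Real.measurable_exp.comp ((hY.sub_const b).max measurable_const).neg
  have hind : Integrable (fun ω => ({ω | b + 1 ≤ Y ω}.indicator (fun _ => (1 : ℝ)) ω)) D.P :=
    (integrable_const (1 : ℝ)).indicator hE
  have h2 : Real.exp (-1) ≤ 1 / 2 := by
    rw [Real.exp_neg, inv_eq_one_div]
    apply one_div_le_one_div_of_le (by norm_num)
    have := Real.add_one_le_exp (1 : ℝ)
    linarith
  have h1 : ∫ ω, Real.exp (-max (Y ω - b) 0) ∂D.P
      ≤ ∫ ω, (1 - (1 / 2) * ({ω | b + 1 ≤ Y ω}.indicator (fun _ => (1 : ℝ)) ω)) ∂D.P := by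
    apply integral_mono_of_nonneg
    · exact Filter.Eventually.of_forall (fun ω => (Real.exp_pos _).le)
    · exact (integrable_const (1 : ℝ)).sub (hind.const_mul _)
    · refine Filter.Eventually.of_forall (fun ω => ?_)
      show Real.exp (-max (Y ω - b) 0) ≤ 1 - (1 / 2) * _
      by_cases hω : ω ∈ {ω | b + 1 ≤ Y ω}
      · rw [Set.indicator_of_mem hω]
        have h3 : b + 1 ≤ Y ω := hω
        have h4 : Real.exp (-max (Y ω - b) 0) ≤ Real.exp (-1) := by
          apply Real.exp_le_exp.2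
          have := le_max_left (Y ω - b) 0
          linarith
        linarith
      · rw [Set.indicator_of_notMem hω]
        have h4 : Real.exp (-max (Y ω - b) 0) ≤ Real.exp 0 := by
          apply Real.exp_le_exp.2
          have := le_max_right (Y ω - b) 0
          linarith
        rw [Real.exp_zero] at h4
        linarith
  have h5 : ∫ ω, (1 - (1 / 2) * ({ω | b + 1 ≤ Y ω}.indicator (fun _ => (1 : ℝ)) ω)) ∂D.P
      = 1 - (1 / 2) * D.P.real {ω | b + 1 ≤ Y ω} := by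
    rw [integral_sub (integrable_const _) (hind.const_mul _), integral_const_mul]
    have e1 : ∫ ω, ({ω | b + 1 ≤ Y ω}.indicator (fun _ => (1 : ℝ)) ω) ∂D.P
        = D.P.real {ω | b + 1 ≤ Y ω} := by
      have := integral_indicator_one (μ := D.P) hE
      exact this
    rw [e1]
    simp
  rw [h5] at h1
  have h6 := Real.add_one_le_exp (-(D.P.real {ω | b + 1 ≤ Y ω} / 2))
  linarith


theorem J_ER : St_ER := by
  intro D c0 n0 hK h hh ℓ hℓ Q hQ b hb
  have hα := hK.alpha_pos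
  have hc0 := hK.c0_pos
  have hc1 := hK.c0_le
  have hn0 := hK.n0_pos
  have hℓ1 : 1 ≤ ℓ := hn0.trans hℓ
  have hb2 : Real.log 2 ≤ b := by
    have h1 : Real.log 2 ≤ Real.log (2 / c0) := by
      apply Real.log_le_log (by norm_num)
      rw [le_div_iff₀ hc0]
      linarith
    have h2 : 0 ≤ Real.log (ℓ : ℝ) := Real.log_nonneg (by exact_mod_cast hℓ1)
    have h3 : 0 ≤ Real.log (Q : ℝ) := Real.log_nonneg (by exact_mod_cast hQ)
    rw [hb]
    have h4 : 0 ≤ (1 + D.α) * (Real.log ℓ + Real.log Q) := by positivity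
    linarith
  set g : (ℕ → ℝ) → ℝ := fun ω => Real.exp (-max (-Real.log (D.R h 0 ℓ ω) - b) 0) with hg
  have hYm : Measurable (fun ω : ℕ → ℝ => -Real.log (D.R h 0 ℓ ω)) :=
    (Real.measurable_log.comp (ER_meas D h 0 ℓ)).neg
  have hgm : Measurable g := Real.measurable_exp.comp ((hYm.sub_const b).max measurable_const).neg
  have hg0 : ∀ ω, 0 ≤ g ω := fun ω => (Real.exp_pos _).le
  have hg1 : ∀ ω, g ω ≤ 1 := by
    intro ω
    show Real.exp _ ≤ 1
    rw [← Real.exp_zero]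
    apply Real.exp_le_exp.2
    have := le_max_right (-Real.log (D.R h 0 ℓ ω) - b) 0
    linarith
  have hblock := given_block D ℓ g hgm (by
    intro ω ω' he
    show Real.exp _ = Real.exp _
    rw [ER_local D h 0 ℓ ω ω' he]) hg0 Q
  have hone := ER_one D (fun ω => -Real.log (D.R h 0 ℓ ω)) hYm b
  have hprodm : Measurable (fun ω : ℕ → ℝ => ∏ i ∈ Finset.range Q, g (fun n => ω (n + i * ℓ))) := by
    apply Finset.measurable_prod
    intro i _
    apply hgm.comp
    apply measurable_pi_lambda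
    intro n
    exact measurable_pi_apply _
  have hprodi : Integrable (fun ω : ℕ → ℝ => ∏ i ∈ Finset.range Q, g (fun n => ω (n + i * ℓ))) D.P := by
    refine Integrable.of_bound hprodm.aestronglyMeasurable 1 (Filter.Eventually.of_forall ?_)
    intro ω
    rw [Real.norm_eq_abs, abs_of_nonneg (Finset.prod_nonneg (fun i _ => hg0 _))]
    exact Finset.prod_le_one (fun i _ => hg0 _) (fun i _ => hg1 _)
  have hmain : ∫ ω, D.R h 0 (Q * ℓ) ω ∂D.P ≤
      ∫ ω, Real.exp (b + (1 + D.α)) * ∏ i ∈ Finset.range Q, g (fun n => ω (n + i * ℓ)) ∂D.P := by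
    apply integral_mono_of_nonneg
    · refine Filter.Eventually.of_forall (fun ω => ?_)
      have := ER_pos D c0 n0 hK h ω hℓ (Nat.zero_le Q)
      rw [Nat.zero_mul] at this
      exact this.le
    · exact hprodi.const_mul _
    · exact Filter.Eventually.of_forall (fun ω => ER_det D c0 n0 hK h ω hℓ hQ b hb hb2)
  rw [integral_const_mul, hblock] at hmain
  refine hmain.trans ?_
  have hint0 : 0 ≤ ∫ ω, g ω ∂D.P := integral_nonneg hg0
  have h7 : (∫ ω, g ω ∂D.P) ^ Q ≤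
      Real.exp (-(D.P.real {ω | b + 1 ≤ -Real.log (D.R h 0 ℓ ω)} / 2)) ^ Q :=
    pow_le_pow_left₀ hint0 hone Q
  rw [← Real.exp_nat_mul] at h7
  calc Real.exp (b + (1 + D.α)) * (∫ ω, g ω ∂D.P) ^ Q
      ≤ Real.exp (b + (1 + D.α)) *
        Real.exp (Q * -(D.P.real {ω | b + 1 ≤ -Real.log (D.R h 0 ℓ ω)} / 2)) :=
        mul_le_mul_of_nonneg_left h7 (Real.exp_pos _).le
    _ = _ := by
        rw [← Real.exp_add]
        congr 1
        ring


end M_ER
end Cop764
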