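import Pool.Agent.Helper764.CopDefs
import Pool.Agent.Helper764.Cop_G

set_option autoImplicit false
set_option maxHeartbeats 4000000
open MeasureTheory ProbabilityTheory Filter Topology
open scoped ENNReal NNReal

namespace Cop764
namespace M_FG

theorem given_G : St_G := M_G.J_G




lemma S_add_FG (w : ℕ → ℝ) {i j k : ℕ} (h1 : i ≤ j) (h2 : j ≤ k) : S w i k = S w i j + S w j k := by
  unfold S
  rw [← Finset.sum_union]
  · rw [Finset.Ioc_union_Ioc_eq_Ioc h1 h2]
  · rw [Finset.disjoint_left]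
    intro x hx hx'
    rw [Finset.mem_Ioc] at hx hx'
    omega

lemma exp_abs_FG (s t : ℝ) : Real.exp (-|s|) * (1 + Real.exp t) ≤ 1 + Real.exp (s + t) := by
  have h1 : Real.exp (-|s|) ≤ 1 := Real.exp_le_one_iff.mpr (by have := abs_nonneg s; linarith)
  have h2 : Real.exp (-|s|) * Real.exp t ≤ Real.exp (s + t) := by
    rw [← Real.exp_add]
    apply Real.exp_le_exp.mpr
    have := neg_abs_le s
    linarith
  nlinarith

lemma phi_pos_FG (w : ℕ → ℝ) (i j : ℕ) : 0 < phi w i j := by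
  unfold phi
  have := Real.exp_pos (S w i j)
  linarith

lemma K_low_FG {K : ℕ → ℝ} {α c0 : ℝ} {n0 : ℕ} (h : KHyp K α c0 n0) {n : ℕ} (hn : n0 ≤ n) {L : ℝ}
    (hL : (n : ℝ) ≤ L) : 1 ≤ c0⁻¹ * L ^ (1 + α) * K n := by
  have hn1 : 1 ≤ n := h.n0_pos.trans hn
  have hn0 : (0:ℝ) < n := by exact_mod_cast hn1
  have hL0 : 0 < L := hn0.trans_le hL
  have h1 := h.lower n hn
  have hc := h.c0_pos
  have hα := h.alpha_pos
  have h2 : (n : ℝ) ^ (1 + α) ≤ L ^ (1 + α) := Real.rpow_le_rpow hn0.le hL (by linarith)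
  have h3 : (n : ℝ) ^ (1 + α) * (n : ℝ) ^ (-(1 + α)) = 1 := by
    rw [← Real.rpow_add hn0]; simp
  have h4 : 0 < (n : ℝ) ^ (-(1 + α)) := Real.rpow_pos_of_pos hn0 _
  have h5 : 0 < L ^ (1 + α) := Real.rpow_pos_of_pos hL0 _
  calc (1:ℝ) = (n : ℝ) ^ (1 + α) * (n : ℝ) ^ (-(1 + α)) := h3.symm
    _ ≤ L ^ (1 + α) * (n : ℝ) ^ (-(1 + α)) := mul_le_mul_of_nonneg_right h2 h4.le
    _ = c0⁻¹ * L ^ (1 + α) * (c0 * (n : ℝ) ^ (-(1 + α))) := by field_simp
    _ ≤ c0⁻¹ * L ^ (1 + α) * K n := by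
        apply mul_le_mul_of_nonneg_left h1; positivity

lemma left_FG {K : ℕ → ℝ} {α c0 : ℝ} {n0 : ℕ} (h : KHyp K α c0 n0) (w : ℕ → ℝ) {a i m : ℕ} (hm : n0 ≤ m)
    (hi : a + m ≤ i) {L : ℝ} (hL : ((i - a : ℕ) : ℝ) ≤ L) :
    phi w (a + m) i ≤ c0⁻¹ * L ^ (1 + α) * Real.exp |S w a (a + m)| * G K w a i := by
  have hm1 : 1 ≤ m := h.n0_pos.trans hm
  have hG := (given_G K w h.nonneg).2.2.1 a i (by omega)
  have hK := K_low_FG h (n := i - a) (by omega) hL
  have hφ : phi w (a + m) i ≤ Real.exp |S w a (a + m)| * phi w a i := by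
    unfold phi
    rw [S_add_FG w (i := a) (j := a + m) (k := i) (by omega) hi]
    have h1 := exp_abs_FG (S w a (a + m)) (S w (a + m) i)
    have h2 : Real.exp |S w a (a + m)| * Real.exp (-|S w a (a + m)|) = 1 := by
      rw [← Real.exp_add]; simp
    have h3 := mul_le_mul_of_nonneg_left h1 (Real.exp_pos |S w a (a + m)|).le
    rw [← mul_assoc, h2, one_mul] at h3
    linarith
  have hLpos : 0 ≤ c0⁻¹ * L ^ (1 + α) := by
    have : (0:ℝ) ≤ L := (Nat.cast_nonneg _).trans hL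
    have hc := h.c0_pos
    positivity
  have hE := Real.exp_pos |S w a (a + m)|
  have hp := phi_pos_FG w a i
  calc phi w (a + m) i ≤ Real.exp |S w a (a + m)| * phi w a i := hφ
    _ ≤ (c0⁻¹ * L ^ (1 + α) * K (i - a)) * (Real.exp |S w a (a + m)| * phi w a i) :=
        le_mul_of_one_le_left (by positivity) hK
    _ = c0⁻¹ * L ^ (1 + α) * Real.exp |S w a (a + m)| * (K (i - a) * phi w a i) := by ring
    _ ≤ c0⁻¹ * L ^ (1 + α) * Real.exp |S w a (a + m)| * G K w a i :=
        mul_le_mul_of_nonneg_left hG (by positivity)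

lemma right_FG {K : ℕ → ℝ} {α c0 : ℝ} {n0 : ℕ} (h : KHyp K α c0 n0) (w : ℕ → ℝ) {b k m : ℕ} (hm : n0 ≤ m)
    (hk : k ≤ b + m) {L : ℝ} (hL : ((b + 2 * m - k : ℕ) : ℝ) ≤ L) :
    phi w k (b + m) ≤ c0⁻¹ * L ^ (1 + α) * Real.exp |S w (b + m) (b + 2 * m)| * G K w k (b + 2 * m) := by
  have hm1 : 1 ≤ m := h.n0_pos.trans hm
  have hG := (given_G K w h.nonneg).2.2.1 k (b + 2 * m) (by omega)
  have hK := K_low_FG h (n := b + 2 * m - k) (by omega) hL
  have hφ : phi w k (b + m) ≤ Real.exp |S w (b + m) (b + 2 * m)| * phi w k (b + 2 * m) := by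
    unfold phi
    rw [S_add_FG w (i := k) (j := b + m) (k := b + 2 * m) hk (by omega)]
    have h1 := exp_abs_FG (S w (b + m) (b + 2 * m)) (S w k (b + m))
    rw [add_comm (S w (b + m) (b + 2 * m))] at h1
    have h2 : Real.exp |S w (b + m) (b + 2 * m)| * Real.exp (-|S w (b + m) (b + 2 * m)|) = 1 := by
      rw [← Real.exp_add]; simp
    have h3 := mul_le_mul_of_nonneg_left h1 (Real.exp_pos |S w (b + m) (b + 2 * m)|).le
    rw [← mul_assoc, h2, one_mul] at h3
    linarith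
  have hLpos : 0 ≤ c0⁻¹ * L ^ (1 + α) := by
    have : (0:ℝ) ≤ L := (Nat.cast_nonneg _).trans hL
    have hc := h.c0_pos
    positivity
  have hE := Real.exp_pos |S w (b + m) (b + 2 * m)|
  have hp := phi_pos_FG w k (b + 2 * m)
  calc phi w k (b + m) ≤ Real.exp |S w (b + m) (b + 2 * m)| * phi w k (b + 2 * m) := hφ
    _ ≤ (c0⁻¹ * L ^ (1 + α) * K (b + 2 * m - k)) *
          (Real.exp |S w (b + m) (b + 2 * m)| * phi w k (b + 2 * m)) :=
        le_mul_of_one_le_left (by positivity) hK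
    _ = c0⁻¹ * L ^ (1 + α) * Real.exp |S w (b + m) (b + 2 * m)| *
          (K (b + 2 * m - k) * phi w k (b + 2 * m)) := by ring
    _ ≤ c0⁻¹ * L ^ (1 + α) * Real.exp |S w (b + m) (b + 2 * m)| * G K w k (b + 2 * m) :=
        mul_le_mul_of_nonneg_left hG (by positivity)


theorem J_FG : St_FG := by
  intro K w α c0 n0 h m a b hm hab
  have hm1 : 1 ≤ m := h.n0_pos.trans hm
  have hc := h.c0_pos
  set L : ℝ := (b : ℝ) - a + m with hLdef
  have hL0 : 0 < L := by
    have h1 : (a : ℝ) ≤ b := by exact_mod_cast hab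
    have h2 : (1 : ℝ) ≤ m := by exact_mod_cast hm1
    rw [hLdef]; linarith
  set E1 := Real.exp |S w a (a + m)| with hE1
  set E2 := Real.exp |S w (b + m) (b + 2 * m)| with hE2
  obtain ⟨-, hGn, -, hGs⟩ := given_G K w h.nonneg
  set T : ℝ := c0⁻¹ ^ 2 * L ^ (2 * (1 + α)) * (E1 * E2) * G K w a (b + 2 * m) with hT
  have hT0 : 0 ≤ T := by
    have := hGn a (b + 2 * m)
    have := Real.exp_pos |S w a (a + m)|
    have := Real.exp_pos |S w (b + m) (b + 2 * m)|
    positivity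
  have hterm : ∀ i ∈ Finset.Icc (a + m) (b + m), ∀ k ∈ Finset.Icc i (b + m),
      phi w (a + m) i * G K w i k * phi w k (b + m) ≤ T := by
    intro i hi k hk
    rw [Finset.mem_Icc] at hi hk
    have h1 := left_FG h w (a := a) (i := i) hm hi.1 (L := L) (by
      rw [Nat.cast_sub (by omega), hLdef]
      have : (i : ℝ) ≤ b + m := by exact_mod_cast hi.2
      linarith)
    have h2 := right_FG h w (b := b) (k := k) hm hk.2 (L := L) (by
      rw [Nat.cast_sub (by omega), hLdef]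
      push_cast
      have : (a : ℝ) + m ≤ k := by exact_mod_cast hi.1.trans hk.1
      linarith)
    have h3 : G K w a i * G K w i k * G K w k (b + 2 * m) ≤ G K w a (b + 2 * m) := by
      calc G K w a i * G K w i k * G K w k (b + 2 * m)
          ≤ G K w a k * G K w k (b + 2 * m) :=
            mul_le_mul_of_nonneg_right (hGs a i k (by omega) hk.1) (hGn _ _)
        _ ≤ G K w a (b + 2 * m) := hGs a k _ (by omega) (by omega)
    have hL2 : L ^ (2 * (1 + α)) = L ^ (1 + α) * L ^ (1 + α) := by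
      rw [← Real.rpow_add hL0]; ring_nf
    calc phi w (a + m) i * G K w i k * phi w k (b + m)
        ≤ (c0⁻¹ * L ^ (1 + α) * E1 * G K w a i) * G K w i k *
            (c0⁻¹ * L ^ (1 + α) * E2 * G K w k (b + 2 * m)) := by
          apply mul_le_mul _ h2 (phi_pos_FG _ _ _).le
          · have := hGn a i
            have := hGn i k
            positivity
          · exact mul_le_mul_of_nonneg_right h1 (hGn _ _)
      _ = c0⁻¹ ^ 2 * L ^ (2 * (1 + α)) * (E1 * E2) * (G K w a i * G K w i k * G K w k (b + 2 * m)) := by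
          rw [hL2]; ring
      _ ≤ T := mul_le_mul_of_nonneg_left h3 (by positivity)
  have hNr : (((b - a + 1 : ℕ)) : ℝ) = (b : ℝ) - a + 1 := by
    rw [Nat.cast_add, Nat.cast_sub hab]; simp
  have hsum : F K w (a + m) (b + m) ≤ ((b : ℝ) - a + 1) ^ 2 * T := by
    unfold F
    have hin : ∀ i ∈ Finset.Icc (a + m) (b + m),
        ∑ k ∈ Finset.Icc i (b + m), phi w (a + m) i * G K w i k * phi w k (b + m) ≤
          ((b - a + 1 : ℕ) : ℝ) * T := by
      intro i hi
      calc ∑ k ∈ Finset.Icc i (b + m), phi w (a + m) i * G K w i k * phi w k (b + m)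
          ≤ ∑ k ∈ Finset.Icc i (b + m), T := Finset.sum_le_sum (hterm i hi)
        _ = ((Finset.Icc i (b + m)).card : ℝ) * T := by rw [Finset.sum_const, nsmul_eq_mul]
        _ ≤ ((b - a + 1 : ℕ) : ℝ) * T := by
            apply mul_le_mul_of_nonneg_right _ hT0
            rw [Nat.card_Icc]
            rw [Finset.mem_Icc] at hi
            exact_mod_cast (by omega : b + m + 1 - i ≤ b - a + 1)
    calc ∑ i ∈ Finset.Icc (a + m) (b + m),
        ∑ k ∈ Finset.Icc i (b + m), phi w (a + m) i * G K w i k * phi w k (b + m)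
        ≤ ∑ i ∈ Finset.Icc (a + m) (b + m), ((b - a + 1 : ℕ) : ℝ) * T := Finset.sum_le_sum hin
      _ = ((b : ℝ) - a + 1) ^ 2 * T := by
          rw [Finset.sum_const, nsmul_eq_mul, Nat.card_Icc,
            (by omega : b + m + 1 - (a + m) = b - a + 1), hNr]
          ring
  refine hsum.trans (le_of_eq ?_)
  rw [hT, Real.exp_add]
  ring



end M_FG
end Cop764
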