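import Pool.Agent.Helper764.CopDefs
import Pool.Agent.Helper764.Cop_G

set_option autoImplicit false
set_option maxHeartbeats 4000000
open MeasureTheory ProbabilityTheory Filter Topology
open scoped ENNReal NNReal

namespace Cop764
namespace M_Fsub

theorem given_G : St_G := M_G.J_G




theorem fs_phi_pos (w : ℕ → ℝ) (i j : ℕ) : 0 < phi w i j := by
  unfold phi
  have := Real.exp_pos (S w i j)
  linarith

theorem fs_phi_self (w : ℕ → ℝ) (i : ℕ) : phi w i i = 1 := by
  unfold phi S
  simp

theorem fs_S_add (w : ℕ → ℝ) {i b k : ℕ} (h1 : i ≤ b) (h2 : b ≤ k) :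
    S w i k = S w i b + S w b k := by
  unfold S
  rw [← Finset.Ioc_union_Ioc_eq_Ioc h1 h2, Finset.sum_union (Finset.Ioc_disjoint_Ioc_of_le le_rfl)]

theorem fs_phi_mul (w : ℕ → ℝ) {i b k : ℕ} (h1 : i ≤ b) (h2 : b ≤ k) :
    phi w i k ≤ 2 * (phi w i b * phi w b k) := by
  unfold phi
  rw [fs_S_add w h1 h2, Real.exp_add]
  have := Real.exp_pos (S w i b)
  have := Real.exp_pos (S w b k)
  nlinarith

noncomputable def fsU (K w : ℕ → ℝ) (i b : ℕ) : ℝ := ∑ k ∈ Finset.Icc i b, G K w i k * phi w k b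
noncomputable def fsV (K w : ℕ → ℝ) (b k : ℕ) : ℝ := ∑ l ∈ Finset.Icc b k, phi w b l * G K w l k

theorem fs_U_nonneg {K w : ℕ → ℝ} (hK : ∀ n, 0 ≤ K n) (i b : ℕ) : 0 ≤ fsU K w i b :=
  Finset.sum_nonneg fun k _ => mul_nonneg ((given_G K w hK).2.1 i k) (fs_phi_pos w k b).le

theorem fs_V_nonneg {K w : ℕ → ℝ} (hK : ∀ n, 0 ≤ K n) (b k : ℕ) : 0 ≤ fsV K w b k :=
  Finset.sum_nonneg fun l _ => mul_nonneg (fs_phi_pos w b l).le ((given_G K w hK).2.1 l k)

theorem fs_U_rec {K w : ℕ → ℝ} (hK : ∀ n, 0 ≤ K n) {i b : ℕ} (h : i ≤ b) :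
    fsU K w i b = phi w i b + ∑ l ∈ Finset.Ioc i b, K (l - i) * phi w i l * fsU K w l b := by
  have hG := given_G K w hK
  unfold fsU
  rw [← Finset.Ioc_insert_left h, Finset.sum_insert (by simp), hG.1 i, one_mul]
  congr 1
  have h1 : ∀ k ∈ Finset.Ioc i b, G K w i k * phi w k b =
      ∑ l ∈ Finset.Ioc i k, K (l - i) * phi w i l * (G K w l k * phi w k b) := by
    intro k hk
    have hk' := Finset.mem_Ioc.1 hk
    rw [G_eq, if_neg (by omega), Finset.sum_mul]
    refine Finset.sum_congr rfl fun l _ => ?_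
    ring
  rw [Finset.sum_congr rfl h1]
  have h2 : ∀ l ∈ Finset.Ioc i b, K (l - i) * phi w i l * ∑ k ∈ Finset.Icc l b, G K w l k * phi w k b
      = ∑ k ∈ Finset.Icc l b, K (l - i) * phi w i l * (G K w l k * phi w k b) := by
    intro l _
    rw [Finset.mul_sum]
  rw [Finset.sum_congr rfl h2]
  apply Finset.sum_comm'
  intro x y
  simp only [Finset.mem_Ioc, Finset.mem_Icc]
  omega

theorem fs_K_le {K : ℕ → ℝ} {α c0 : ℝ} {n0 : ℕ} (hK : KHyp K α c0 n0) {n : ℕ} (hn : 1 ≤ n) :
    K n ≤ 1 := by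
  refine le_trans ?_ (hK.sum_le n)
  exact Finset.single_le_sum (f := K) (fun k _ => hK.nonneg k) (Finset.mem_Icc.2 ⟨hn, le_rfl⟩)

theorem fs_G_le {K w : ℕ → ℝ} {α c0 : ℝ} {n0 : ℕ} (hK : KHyp K α c0 n0) :
    ∀ (d i b k : ℕ), b - i = d → i ≤ b → b ≤ k → G K w i k ≤ 2 * (fsU K w i b * fsV K w b k) := by
  have hG := given_G K w hK.nonneg
  intro d
  induction d using Nat.strong_induction_on with
  | _ d ih =>
    intro i b k hd hib hbk
    have hV := fs_V_nonneg (w := w) hK.nonneg b k
    rcases Nat.eq_or_lt_of_le hib with h | h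
    · subst h
      have hU1 : fsU K w i i = 1 := by
        unfold fsU
        rw [Finset.Icc_self, Finset.sum_singleton, hG.1, fs_phi_self, one_mul]
      have hV1 : G K w i k ≤ fsV K w i k := by
        unfold fsV
        have := Finset.single_le_sum (f := fun l => phi w i l * G K w l k)
          (fun l _ => mul_nonneg (fs_phi_pos w i l).le (hG.2.1 l k))
          (Finset.mem_Icc.2 ⟨le_rfl, hbk⟩ : i ∈ Finset.Icc i k)
        simp only [fs_phi_self, one_mul] at this
        exact this
      rw [hU1, one_mul]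
      linarith
    · have e1 : G K w i k = ∑ l ∈ Finset.Ioc i b, K (l - i) * phi w i l * G K w l k
          + ∑ l ∈ Finset.Ioc b k, K (l - i) * phi w i l * G K w l k := by
        rw [G_eq, if_neg (by omega), ← Finset.Ioc_union_Ioc_eq_Ioc hib hbk,
          Finset.sum_union (Finset.Ioc_disjoint_Ioc_of_le le_rfl)]
      have e2 : ∑ l ∈ Finset.Ioc i b, K (l - i) * phi w i l * G K w l k ≤
          2 * fsV K w b k * ∑ l ∈ Finset.Ioc i b, K (l - i) * phi w i l * fsU K w l b := by
        rw [Finset.mul_sum]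
        refine Finset.sum_le_sum fun l hl => ?_
        have hl' := Finset.mem_Ioc.1 hl
        have h3 := ih (b - l) (by omega) l b k rfl hl'.2 hbk
        have h4 : 0 ≤ K (l - i) * phi w i l := mul_nonneg (hK.nonneg _) (fs_phi_pos w i l).le
        calc K (l - i) * phi w i l * G K w l k
            ≤ K (l - i) * phi w i l * (2 * (fsU K w l b * fsV K w b k)) :=
              mul_le_mul_of_nonneg_left h3 h4
          _ = 2 * fsV K w b k * (K (l - i) * phi w i l * fsU K w l b) := by ring
      have e3 : ∑ l ∈ Finset.Ioc b k, K (l - i) * phi w i l * G K w l k ≤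
          2 * fsV K w b k * phi w i b := by
        have h5 : ∑ l ∈ Finset.Ioc b k, K (l - i) * phi w i l * G K w l k ≤
            ∑ l ∈ Finset.Icc b k, 2 * phi w i b * (phi w b l * G K w l k) := by
          refine le_trans (Finset.sum_le_sum fun l hl => ?_)
            (Finset.sum_le_sum_of_subset_of_nonneg Finset.Ioc_subset_Icc_self fun l _ _ => ?_)
          · have hl' := Finset.mem_Ioc.1 hl
            have h6 := fs_K_le hK (n := l - i) (by omega)
            have h7 := fs_phi_mul w hib hl'.1.le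
            have h8 := hG.2.1 l k
            have h9 := (fs_phi_pos w i l).le
            calc K (l - i) * phi w i l * G K w l k ≤ 1 * phi w i l * G K w l k := by gcongr
              _ = phi w i l * G K w l k := by ring
              _ ≤ 2 * (phi w i b * phi w b l) * G K w l k := by gcongr
              _ = 2 * phi w i b * (phi w b l * G K w l k) := by ring
          · have := fs_phi_pos w i b
            have := fs_phi_pos w b l
            have := hG.2.1 l k
            positivity
        refine h5.trans (le_of_eq ?_)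
        rw [← Finset.mul_sum]
        unfold fsV
        ring
      rw [e1, fs_U_rec hK.nonneg hib]
      calc _ ≤ 2 * fsV K w b k * (∑ l ∈ Finset.Ioc i b, K (l - i) * phi w i l * fsU K w l b)
            + 2 * fsV K w b k * phi w i b := add_le_add e2 e3
        _ = _ := by ring

theorem fs_split {f : ℕ → ℝ} (hf : ∀ n, 0 ≤ f n) {a b c : ℕ} (_h1 : a ≤ b) (_h2 : b ≤ c) :
    ∑ i ∈ Finset.Icc a c, f i ≤ ∑ i ∈ Finset.Icc a b, f i + ∑ i ∈ Finset.Icc b c, f i := by
  rw [← Finset.sum_union_inter]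
  have h3 : ∑ i ∈ Finset.Icc a c, f i ≤ ∑ i ∈ Finset.Icc a b ∪ Finset.Icc b c, f i := by
    apply Finset.sum_le_sum_of_subset_of_nonneg
    · intro x hx
      simp only [Finset.mem_union, Finset.mem_Icc] at hx ⊢
      omega
    · intro x _ _; exact hf x
  have h4 : 0 ≤ ∑ i ∈ Finset.Icc a b ∩ Finset.Icc b c, f i := Finset.sum_nonneg fun i _ => hf i
  linarith

theorem fs_phi_le_F {K w : ℕ → ℝ} (hK : ∀ n, 0 ≤ K n) {a b : ℕ} (h : a ≤ b) :
    phi w a b ≤ F K w a b := by
  have hG := given_G K w hK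
  unfold F
  have hnn : ∀ i k, 0 ≤ phi w a i * G K w i k * phi w k b := fun i k =>
    mul_nonneg (mul_nonneg (fs_phi_pos w a i).le (hG.2.1 i k)) (fs_phi_pos w k b).le
  have h1 : phi w a b = phi w a a * G K w a a * phi w a b := by
    rw [fs_phi_self, hG.1]; ring
  have ha : a ∈ Finset.Icc a b := Finset.mem_Icc.2 ⟨le_rfl, h⟩
  calc phi w a b = phi w a a * G K w a a * phi w a b := h1
    _ ≤ ∑ k ∈ Finset.Icc a b, phi w a a * G K w a k * phi w k b :=
        Finset.single_le_sum (f := fun k => phi w a a * G K w a k * phi w k b)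
          (fun k _ => hnn a k) ha
    _ ≤ _ := Finset.single_le_sum
          (f := fun i => ∑ k ∈ Finset.Icc i b, phi w a i * G K w i k * phi w k b)
          (fun i _ => Finset.sum_nonneg fun k _ => hnn i k) ha

theorem fs_F_U (K w : ℕ → ℝ) (a b : ℕ) :
    F K w a b = ∑ i ∈ Finset.Icc a b, phi w a i * fsU K w i b := by
  unfold F fsU
  refine Finset.sum_congr rfl fun i _ => ?_
  rw [Finset.mul_sum]
  refine Finset.sum_congr rfl fun k _ => ?_
  ring

theorem fs_F_V (K w : ℕ → ℝ) (b c : ℕ) :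
    F K w b c = ∑ k ∈ Finset.Icc b c, fsV K w b k * phi w k c := by
  unfold F fsV
  have h : ∀ k ∈ Finset.Icc b c, (∑ l ∈ Finset.Icc b k, phi w b l * G K w l k) * phi w k c =
      ∑ l ∈ Finset.Icc b k, phi w b l * G K w l k * phi w k c := by
    intro k _
    rw [Finset.sum_mul]
  rw [Finset.sum_congr rfl h]
  apply Finset.sum_comm'
  intro x y
  simp only [Finset.mem_Icc]
  omega


theorem J_Fsub : St_Fsub := by
  intro K w α c0 n0 hK a b c hab hbc
  have hG := given_G K w hK.nonneg
  have hFab : 0 ≤ F K w a b := (fs_phi_pos w a b).le.trans (fs_phi_le_F hK.nonneg hab)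
  have hFbc : 0 ≤ F K w b c := (fs_phi_pos w b c).le.trans (fs_phi_le_F hK.nonneg hbc)
  have hnn : ∀ i k, 0 ≤ phi w a i * G K w i k * phi w k c := fun i k =>
    mul_nonneg (mul_nonneg (fs_phi_pos w a i).le (hG.2.1 i k)) (fs_phi_pos w k c).le
  have s1 : F K w a c ≤ ∑ i ∈ Finset.Icc a b, ∑ k ∈ Finset.Icc i c, phi w a i * G K w i k * phi w k c
      + ∑ i ∈ Finset.Icc b c, ∑ k ∈ Finset.Icc i c, phi w a i * G K w i k * phi w k c :=
    fs_split (f := fun i => ∑ k ∈ Finset.Icc i c, phi w a i * G K w i k * phi w k c)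
      (fun i => Finset.sum_nonneg fun k _ => hnn i k) hab hbc
  have s2 : ∑ i ∈ Finset.Icc a b, ∑ k ∈ Finset.Icc i c, phi w a i * G K w i k * phi w k c ≤
      ∑ i ∈ Finset.Icc a b, (∑ k ∈ Finset.Icc i b, phi w a i * G K w i k * phi w k c
        + ∑ k ∈ Finset.Icc b c, phi w a i * G K w i k * phi w k c) := by
    refine Finset.sum_le_sum fun i hi => ?_
    exact fs_split (f := fun k => phi w a i * G K w i k * phi w k c) (fun k => hnn i k)
      (Finset.mem_Icc.1 hi).2 hbc
  rw [Finset.sum_add_distrib] at s2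
  have tA : ∑ i ∈ Finset.Icc a b, ∑ k ∈ Finset.Icc i b, phi w a i * G K w i k * phi w k c ≤
      2 * (F K w a b * F K w b c) := by
    have : ∑ i ∈ Finset.Icc a b, ∑ k ∈ Finset.Icc i b, phi w a i * G K w i k * phi w k c ≤
        ∑ i ∈ Finset.Icc a b, ∑ k ∈ Finset.Icc i b,
          2 * phi w b c * (phi w a i * G K w i k * phi w k b) := by
      refine Finset.sum_le_sum fun i _ => Finset.sum_le_sum fun k hk => ?_
      have h7 := fs_phi_mul w (Finset.mem_Icc.1 hk).2 hbc
      have h8 : 0 ≤ phi w a i * G K w i k := mul_nonneg (fs_phi_pos w a i).le (hG.2.1 i k)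
      calc phi w a i * G K w i k * phi w k c
          ≤ phi w a i * G K w i k * (2 * (phi w k b * phi w b c)) :=
            mul_le_mul_of_nonneg_left h7 h8
        _ = _ := by ring
    refine this.trans ?_
    simp only [← Finset.mul_sum]
    have h9 : ∑ i ∈ Finset.Icc a b, ∑ k ∈ Finset.Icc i b, phi w a i * G K w i k * phi w k b
      = F K w a b := rfl
    have h10 := fs_phi_le_F (w := w) hK.nonneg hbc
    have h11 : 2 * phi w b c * (∑ i ∈ Finset.Icc a b, ∑ k ∈ Finset.Icc i b,
        phi w a i * G K w i k * phi w k b) ≤ 2 * F K w b c * F K w a b := by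
      rw [h9]; gcongr
    linarith
  have tB : ∑ i ∈ Finset.Icc b c, ∑ k ∈ Finset.Icc i c, phi w a i * G K w i k * phi w k c ≤
      2 * (F K w a b * F K w b c) := by
    have : ∑ i ∈ Finset.Icc b c, ∑ k ∈ Finset.Icc i c, phi w a i * G K w i k * phi w k c ≤
        ∑ i ∈ Finset.Icc b c, ∑ k ∈ Finset.Icc i c,
          2 * phi w a b * (phi w b i * G K w i k * phi w k c) := by
      refine Finset.sum_le_sum fun i hi => Finset.sum_le_sum fun k _ => ?_
      have h7 := fs_phi_mul w hab (Finset.mem_Icc.1 hi).1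
      have h8 : 0 ≤ G K w i k * phi w k c := mul_nonneg (hG.2.1 i k) (fs_phi_pos w k c).le
      calc phi w a i * G K w i k * phi w k c = phi w a i * (G K w i k * phi w k c) := by ring
        _ ≤ 2 * (phi w a b * phi w b i) * (G K w i k * phi w k c) :=
            mul_le_mul_of_nonneg_right h7 h8
        _ = _ := by ring
    refine this.trans ?_
    simp only [← Finset.mul_sum]
    have h9 : ∑ i ∈ Finset.Icc b c, ∑ k ∈ Finset.Icc i c, phi w b i * G K w i k * phi w k c
      = F K w b c := rfl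
    have h10 := fs_phi_le_F (w := w) hK.nonneg hab
    have h11 : 2 * phi w a b * (∑ i ∈ Finset.Icc b c, ∑ k ∈ Finset.Icc i c,
        phi w b i * G K w i k * phi w k c) ≤ 2 * F K w a b * F K w b c := by
      rw [h9]; gcongr
    linarith
  have tC : ∑ i ∈ Finset.Icc a b, ∑ k ∈ Finset.Icc b c, phi w a i * G K w i k * phi w k c ≤
      2 * (F K w a b * F K w b c) := by
    have h1 : ∑ i ∈ Finset.Icc a b, ∑ k ∈ Finset.Icc b c, phi w a i * G K w i k * phi w k c ≤
        ∑ i ∈ Finset.Icc a b, ∑ k ∈ Finset.Icc b c,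
          (phi w a i * fsU K w i b) * (2 * (fsV K w b k * phi w k c)) := by
      refine Finset.sum_le_sum fun i hi => Finset.sum_le_sum fun k hk => ?_
      have h7 := fs_G_le (w := w) hK (b - i) i b k rfl (Finset.mem_Icc.1 hi).2
        (Finset.mem_Icc.1 hk).1
      have h8 := (fs_phi_pos w a i).le
      have h9 := (fs_phi_pos w k c).le
      calc phi w a i * G K w i k * phi w k c
          ≤ phi w a i * (2 * (fsU K w i b * fsV K w b k)) * phi w k c := by gcongr
        _ = _ := by ring
    refine h1.trans (le_of_eq ?_)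
    rw [← Finset.sum_mul_sum, ← fs_F_U, ← Finset.mul_sum, ← fs_F_V]
    ring
  linarith


end M_Fsub
end Cop764
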