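import Pool.Agent.Helper764.CopDefs

set_option autoImplicit false
set_option maxHeartbeats 4000000
open MeasureTheory ProbabilityTheory Filter Topology
open scoped ENNReal NNReal

namespace Cop764
namespace M_rec





/-- prepend -/
def cons764 {α : Type*} (p : α × (ℕ → α)) : ℕ → α
  | 0 => p.1
  | n + 1 => p.2 n

theorem cons_mp {α : Type} [MeasurableSpace α] (μ : Measure α) [IsProbabilityMeasure μ] :
    MeasurePreserving (cons764 : α × (ℕ → α) → ℕ → α)
      (μ.prod (Measure.infinitePi (fun _ : ℕ => μ))) (Measure.infinitePi (fun _ : ℕ => μ)) := by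
  classical
  have hm : Measurable (cons764 : α × (ℕ → α) → ℕ → α) := by
    rw [measurable_pi_iff]
    intro n
    cases n with
    | zero => exact measurable_fst
    | succ n => exact (measurable_pi_apply n).comp measurable_snd
  refine ⟨hm, ?_⟩
  apply Measure.eq_infinitePi
  intro s t ht
  obtain ⟨T, hT⟩ : ∃ T : ℕ → Set α, ∀ i, T i = if i ∈ s then t i else Set.univ := ⟨_, fun _ => rfl⟩
  obtain ⟨M, hM⟩ : ∃ M, s ⊆ Finset.range (M + 1) :=
    ⟨s.sup id, fun i hi => Finset.mem_range.2 (Nat.lt_succ_of_le (Finset.le_sup (f := id) hi))⟩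
  have hTm : ∀ i, MeasurableSet (T i) := by
    intro i
    rw [hT]
    by_cases h : i ∈ s
    · rw [if_pos h]
      exact ht i
    · rw [if_neg h]
      exact MeasurableSet.univ
  have h1 : cons764 ⁻¹' (Set.pi (s : Set ℕ) t)
      = T 0 ×ˢ (Set.pi (Finset.range M : Set ℕ) (fun n => T (n + 1))) := by
    ext p
    simp only [Set.mem_preimage, Set.mem_pi, Set.mem_prod]
    constructor
    · intro h
      constructor
      · rw [hT]
        by_cases h0 : 0 ∈ s
        · rw [if_pos h0]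
          exact h 0 h0
        · rw [if_neg h0]
          trivial
      · intro n _
        rw [hT]
        by_cases h0 : n + 1 ∈ s
        · rw [if_pos h0]
          exact h (n + 1) h0
        · rw [if_neg h0]
          trivial
    · rintro ⟨h0, h1⟩ i hi
      cases i with
      | zero =>
        rw [hT, if_pos (Finset.mem_coe.1 hi)] at h0
        exact h0
      | succ n =>
        have hn : n ∈ (Finset.range M : Set ℕ) := by
          have := Finset.mem_range.1 (hM (Finset.mem_coe.1 hi))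
          exact Finset.mem_coe.2 (Finset.mem_range.2 (by omega))
        have h2 := h1 n hn
        rw [hT, if_pos (Finset.mem_coe.1 hi)] at h2
        exact h2
  have hms : MeasurableSet (Set.pi (s : Set ℕ) t) :=
    MeasurableSet.pi s.countable_toSet (fun i _ => ht i)
  rw [Measure.map_apply hm hms, h1, Measure.prod_prod, Measure.infinitePi_pi _ (fun i _ => hTm _)]
  have h2 : ∏ i ∈ Finset.range (M + 1), μ (T i) = ∏ i ∈ s, μ (t i) := by
    symm
    rw [← Finset.prod_subset hM]
    · apply Finset.prod_congr rfl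
      intro i hi
      rw [hT, if_pos hi]
    · intro i _ hi
      rw [hT, if_neg hi, measure_univ]
  rw [← h2, Finset.prod_range_succ', mul_comm]

theorem tau_cons (p : ℕ × Bool) (x : ℕ → ℕ × Bool) (j : ℕ) :
    tau (cons764 (p, x)) (j + 1) = p.1 + tau x j := by
  unfold tau
  rw [Finset.sum_range_succ', add_comm]
  rfl

theorem tau_zero (x : ℕ → ℕ × Bool) : tau x 0 = 0 := by
  unfold tau
  rw [Finset.range_zero, Finset.sum_empty]

theorem tau_ge (x : ℕ → ℕ × Bool) (hx : ∀ i, 1 ≤ (x i).1) (j : ℕ) : j ≤ tau x j := by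
  unfold tau
  calc j = ∑ i ∈ Finset.range j, 1 := by simp
    _ ≤ _ := Finset.sum_le_sum (fun i _ => hx i)

theorem Delta_cons_small (k : ℕ) (b : Bool) (x : ℕ → ℕ × Bool) (n : ℕ) (hn : 1 ≤ n) (hnk : n ≤ k) :
    Delta (cons764 ((k, b), x)) n = if b = true then 1 else 0 := by
  obtain ⟨m, rfl⟩ : ∃ m, n = m + 1 := ⟨n - 1, by omega⟩
  unfold Delta
  rw [Finset.sum_range_succ', Finset.sum_eq_zero, zero_add]
  · rw [tau_cons, tau_zero, tau_zero]
    have e1 : (cons764 ((k, b), x) 0).2 = b := rfl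
    rw [e1]
    have e2 : (0 < m + 1 ∧ m + 1 ≤ (k, b).1 + 0 ∧ b = true) ↔ b = true := by
      constructor
      · exact fun h => h.2.2
      · intro h
        refine ⟨by omega, ?_, h⟩
        show m + 1 ≤ k + 0
        omega
    simp only [e2]
  · intro j _
    rw [tau_cons, if_neg]
    rintro ⟨h1, -, -⟩
    have h2 : k + tau x j < m + 1 := h1
    omega

theorem Delta_cons_big (k : ℕ) (b : Bool) (x : ℕ → ℕ × Bool) (hx : ∀ i, 1 ≤ (x i).1) (hk : 1 ≤ k)
    (n : ℕ) (hnk : k < n) : Delta (cons764 ((k, b), x)) n = Delta x (n - k) := by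
  obtain ⟨m, rfl⟩ : ∃ m, n = m + 1 := ⟨n - 1, by omega⟩
  unfold Delta
  rw [Finset.sum_range_succ']
  have h0 : (if tau (cons764 ((k, b), x)) 0 < m + 1 ∧ m + 1 ≤ tau (cons764 ((k, b), x)) (0 + 1) ∧
      (cons764 ((k, b), x) 0).2 = true then (1 : ℝ) else 0) = 0 := by
    rw [if_neg]
    rintro ⟨-, h1, -⟩
    rw [tau_cons, tau_zero] at h1
    have h2 : m + 1 ≤ k + 0 := h1
    omega
  rw [h0, add_zero]
  have hsub : Finset.range (m + 1 - k) ⊆ Finset.range m := by
    intro i hi
    rw [Finset.mem_range] at hi ⊢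
    omega
  rw [← Finset.sum_subset hsub]
  · apply Finset.sum_congr rfl
    intro j hj
    rw [tau_cons, tau_cons]
    have e1 : (cons764 ((k, b), x) (j + 1)).2 = (x j).2 := rfl
    rw [e1]
    have e2 : ((k, b).1 + tau x j < m + 1 ∧ m + 1 ≤ (k, b).1 + tau x (j + 1) ∧ (x j).2 = true) ↔
        (tau x j < m + 1 - k ∧ m + 1 - k ≤ tau x (j + 1) ∧ (x j).2 = true) := by
      show (k + tau x j < m + 1 ∧ m + 1 ≤ k + tau x (j + 1) ∧ (x j).2 = true) ↔ _
      constructor
      · rintro ⟨h1, h2, h3⟩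
        exact ⟨by omega, by omega, h3⟩
      · rintro ⟨h1, h2, h3⟩
        exact ⟨by omega, by omega, h3⟩
    simp only [e2]
  · intro j _ hj
    rw [Finset.mem_range] at hj
    rw [tau_cons, if_neg]
    rintro ⟨h1, -, -⟩
    have h2 : k + tau x j < m + 1 := h1
    have h3 := tau_ge x hx j
    omega

theorem expo_small (w : ℕ → ℝ) (k : ℕ) (b : Bool) (x : ℕ → ℕ × Bool) (N : ℕ) (hkN : N ≤ k) :
    ∑ n ∈ Finset.Icc 1 N, Delta (cons764 ((k, b), x)) n * w n
      = (if b = true then 1 else 0) * S w 0 N := by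
  unfold S
  rw [Finset.mul_sum]
  have e : Finset.Icc 1 N = Finset.Ioc 0 N := by
    ext i
    rw [Finset.mem_Icc, Finset.mem_Ioc]
    omega
  rw [e]
  apply Finset.sum_congr rfl
  intro n hn
  rw [Finset.mem_Ioc] at hn
  rw [Delta_cons_small k b x n (by omega) (by omega)]

theorem expo_big (w : ℕ → ℝ) (k : ℕ) (b : Bool) (x : ℕ → ℕ × Bool) (hx : ∀ i, 1 ≤ (x i).1)
    (hk : 1 ≤ k) (N : ℕ) (hkN : k ≤ N) :
    ∑ n ∈ Finset.Icc 1 N, Delta (cons764 ((k, b), x)) n * w n
      = (if b = true then 1 else 0) * S w 0 k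
        + ∑ n ∈ Finset.Icc 1 (N - k), Delta x n * w (n + k) := by
  have e : Finset.Icc 1 N = Finset.Ioc 0 N := by
    ext i
    rw [Finset.mem_Icc, Finset.mem_Ioc]
    omega
  rw [e, ← Finset.sum_Ioc_consecutive _ (Nat.zero_le k) hkN]
  congr 1
  · have e' : Finset.Icc 1 k = Finset.Ioc 0 k := by
      ext i
      rw [Finset.mem_Icc, Finset.mem_Ioc]
      omega
    rw [← expo_small w k b x k le_rfl, e']
  · refine Finset.sum_nbij' (fun n => n - k) (fun n => n + k) ?_ ?_ ?_ ?_ ?_
    · intro n hn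
      rw [Finset.mem_Ioc] at hn
      rw [Finset.mem_Icc]
      omega
    · intro n hn
      rw [Finset.mem_Icc] at hn
      rw [Finset.mem_Ioc]
      omega
    · intro n hn
      rw [Finset.mem_Ioc] at hn
      show n - k + k = n
      omega
    · intro n hn
      show n + k - k = n
      omega
    · intro n hn
      rw [Finset.mem_Ioc] at hn
      have e1 : n - k + k = n := by omega
      rw [Delta_cons_big k b x hx hk n hn.1]
      show _ = Delta x (n - k) * w (n - k + k)
      rw [e1]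

theorem tau_meas (j : ℕ) : Measurable (fun x : ℕ → ℕ × Bool => tau x j) := by
  unfold tau
  exact Finset.measurable_sum _ (fun i _ => measurable_fst.comp (measurable_pi_apply i))

theorem Delta_meas (n : ℕ) : Measurable (fun x : ℕ → ℕ × Bool => Delta x n) := by
  unfold Delta
  refine Finset.measurable_sum _ (fun j _ => Measurable.ite ?_ measurable_const measurable_const)
  exact (measurableSet_lt (tau_meas j) measurable_const).inter
    ((measurableSet_le measurable_const (tau_meas (j + 1))).inter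
      (measurableSet_eq_fun (measurable_snd.comp (measurable_pi_apply j)) measurable_const))

theorem Delta_bd (x : ℕ → ℕ × Bool) (n : ℕ) : |Delta x n| ≤ n := by
  unfold Delta
  calc |∑ j ∈ Finset.range n, if tau x j < n ∧ n ≤ tau x (j + 1) ∧ (x j).2 = true then (1 : ℝ) else 0|
      ≤ ∑ j ∈ Finset.range n,
        |if tau x j < n ∧ n ≤ tau x (j + 1) ∧ (x j).2 = true then (1 : ℝ) else 0| :=
        Finset.abs_sum_le_sum_abs _ _
    _ ≤ ∑ j ∈ Finset.range n, (1 : ℝ) := by
        apply Finset.sum_le_sum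
        intro j _
        split_ifs <;> simp
    _ = n := by simp

/-- the integrand -/
noncomputable def Ph (w : ℕ → ℝ) (N : ℕ) (x : ℕ → ℕ × Bool) : ℝ :=
  Real.exp (∑ n ∈ Finset.Icc 1 N, Delta x n * w n)

theorem Ph_meas (w : ℕ → ℝ) (N : ℕ) : Measurable (Ph w N) := by
  unfold Ph
  exact Real.measurable_exp.comp (Finset.measurable_sum _ (fun n _ => (Delta_meas n).mul_const _))

theorem Ph_bd (w : ℕ → ℝ) (N : ℕ) (x : ℕ → ℕ × Bool) :
    ‖Ph w N x‖ ≤ Real.exp (∑ n ∈ Finset.Icc 1 N, (n : ℝ) * |w n|) := by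
  unfold Ph
  rw [Real.norm_of_nonneg (Real.exp_pos _).le]
  apply Real.exp_le_exp.2
  apply Finset.sum_le_sum
  intro n _
  calc Delta x n * w n ≤ |Delta x n * w n| := le_abs_self _
    _ = |Delta x n| * |w n| := abs_mul _ _
    _ ≤ n * |w n| := mul_le_mul_of_nonneg_right (Delta_bd x n) (abs_nonneg _)

theorem ae_gap (κ : PMF ℕ) (h0 : κ 0 = 0) : ∀ᵐ x ∂(pathMeasure κ), ∀ i, 1 ≤ (x i).1 := by
  rw [ae_all_iff]
  intro i
  have h1 : ∀ᵐ k ∂κ.toMeasure, 1 ≤ k := by
    rw [ae_iff]
    have : {k : ℕ | ¬ 1 ≤ k} = {0} := by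
      ext k
      simp
    rw [this, PMF.toMeasure_apply_singleton _ _ (MeasurableSet.singleton _)]
    exact h0
  have h2 : ∀ᵐ p ∂(stepLaw κ), 1 ≤ p.1 := by
    unfold stepLaw
    exact Measure.quasiMeasurePreserving_fst.ae h1
  have h3 := (measurePreserving_eval_infinitePi (fun _ : ℕ => stepLaw κ) i).quasiMeasurePreserving.ae h2
  exact h3

theorem Zw_fubini (κ : PMF ℕ) (w : ℕ → ℝ) (N : ℕ) :
    Integrable (fun k => ∫ b, (∫ x, Ph w N (cons764 ((k, b), x)) ∂(pathMeasure κ))
      ∂(PMF.uniformOfFintype Bool).toMeasure) κ.toMeasure ∧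
    Zw κ w N = ∫ k, (∫ b, (∫ x, Ph w N (cons764 ((k, b), x)) ∂(pathMeasure κ))
      ∂(PMF.uniformOfFintype Bool).toMeasure) ∂κ.toMeasure := by
  have hmp : MeasurePreserving (cons764 : (ℕ × Bool) × (ℕ → (ℕ × Bool)) → ℕ → (ℕ × Bool))
      ((stepLaw κ).prod (pathMeasure κ)) (pathMeasure κ) := cons_mp (stepLaw κ)
  have hm : Measurable (fun q : (ℕ × Bool) × (ℕ → (ℕ × Bool)) => Ph w N (cons764 q)) :=
    (Ph_meas w N).comp hmp.measurable
  have hint : Integrable (fun q : (ℕ × Bool) × (ℕ → (ℕ × Bool)) => Ph w N (cons764 q))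
      ((stepLaw κ).prod (pathMeasure κ)) :=
    Integrable.of_bound hm.aestronglyMeasurable _ (Filter.Eventually.of_forall
      (fun q => Ph_bd w N (cons764 q)))
  have h1 : Zw κ w N = ∫ q, Ph w N (cons764 q) ∂((stepLaw κ).prod (pathMeasure κ)) := by
    have h2 : Zw κ w N = ∫ x, Ph w N x ∂(pathMeasure κ) := rfl
    rw [h2]
    conv_lhs => rw [← hmp.map_eq]
    rw [integral_map hmp.measurable.aemeasurable (Ph_meas w N).aestronglyMeasurable]
  have hint2 := hint.integral_prod_left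
  have hint3 : Integrable (fun p : ℕ × Bool => ∫ x, Ph w N (cons764 (p, x)) ∂(pathMeasure κ))
      (κ.toMeasure.prod (PMF.uniformOfFintype Bool).toMeasure) := hint2
  refine ⟨hint3.integral_prod_left, ?_⟩
  rw [h1, integral_prod _ hint]
  show ∫ p, (∫ x, Ph w N (cons764 (p, x)) ∂(pathMeasure κ))
    ∂(κ.toMeasure.prod (PMF.uniformOfFintype Bool).toMeasure) = _
  rw [integral_prod _ hint3]

theorem bool_int (f : Bool → ℝ) :
    ∫ b, f b ∂(PMF.uniformOfFintype Bool).toMeasure = (f false + f true) / 2 := by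
  rw [PMF.integral_eq_sum, Fintype.sum_bool]
  simp only [PMF.uniformOfFintype_apply, Fintype.card_bool, smul_eq_mul]
  rw [ENNReal.toReal_inv]
  push_cast
  simp only [ENNReal.toReal_ofNat]
  ring

theorem inner_big (κ : PMF ℕ) (h0 : κ 0 = 0) (w : ℕ → ℝ) (N k : ℕ) (hk : 1 ≤ k) (hkN : k ≤ N) :
    ∫ b, (∫ x, Ph w N (cons764 ((k, b), x)) ∂(pathMeasure κ))
      ∂(PMF.uniformOfFintype Bool).toMeasure = phi w 0 k * Zw κ (fun n => w (n + k)) (N - k) := by
  have h1 : ∀ b : Bool, ∫ x, Ph w N (cons764 ((k, b), x)) ∂(pathMeasure κ)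
      = Real.exp ((if b = true then 1 else 0) * S w 0 k) * Zw κ (fun n => w (n + k)) (N - k) := by
    intro b
    unfold Zw
    rw [← integral_const_mul]
    apply integral_congr_ae
    filter_upwards [ae_gap κ h0] with x hx
    unfold Ph
    rw [expo_big w k b x hx hk N hkN, Real.exp_add]
  rw [bool_int, h1, h1]
  unfold phi
  simp
  ring

theorem inner_small (κ : PMF ℕ) (w : ℕ → ℝ) (N k : ℕ) (hkN : N ≤ k) :
    ∫ b, (∫ x, Ph w N (cons764 ((k, b), x)) ∂(pathMeasure κ))
      ∂(PMF.uniformOfFintype Bool).toMeasure = phi w 0 N := by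
  have h1 : ∀ b : Bool, ∫ x, Ph w N (cons764 ((k, b), x)) ∂(pathMeasure κ)
      = Real.exp ((if b = true then 1 else 0) * S w 0 N) := by
    intro b
    have : ∀ x, Ph w N (cons764 ((k, b), x)) = Real.exp ((if b = true then 1 else 0) * S w 0 N) := by
      intro x
      unfold Ph
      rw [expo_small w k b x N hkN]
    simp only [this]
    rw [integral_const]
    simp
  rw [bool_int, h1, h1]
  unfold phi
  simp


theorem J_rec : St_rec := by
  intro κ h0 w N
  obtain ⟨hint, hZ⟩ := Zw_fubini κ w N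
  rw [hZ, PMF.integral_eq_tsum κ _ hint]
  obtain ⟨Gf, hGf⟩ : ∃ Gf : ℕ → ℝ, ∀ k, Gf k = ∫ b, (∫ x, Ph w N (cons764 ((k, b), x)) ∂(pathMeasure κ))
      ∂(PMF.uniformOfFintype Bool).toMeasure := ⟨_, fun _ => rfl⟩
  simp only [← hGf, smul_eq_mul]
  have hs : Summable (fun k => (κ k).toReal) := ENNReal.summable_toReal κ.tsum_coe_ne_top
  have hs1 : ∑' k, (κ k).toReal = 1 := by
    rw [← ENNReal.tsum_toReal_eq (fun k => κ.apply_ne_top k), κ.tsum_coe, ENNReal.toReal_one]
  have hz : ∀ k ∉ Finset.Icc 1 N, (κ k).toReal * (Gf k - phi w 0 N) = 0 := by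
    intro k hk
    rw [Finset.mem_Icc, not_and_or] at hk
    by_cases hk0 : k = 0
    · rw [hk0, h0]
      simp
    · have hkN : N ≤ k := by omega
      rw [hGf, inner_small κ w N k hkN, sub_self, mul_zero]
  have hs2 : Summable (fun k => (κ k).toReal * (Gf k - phi w 0 N)) :=
    summable_of_ne_finset_zero hz
  have e1 : ∀ k, (κ k).toReal * Gf k = (κ k).toReal * phi w 0 N + (κ k).toReal * (Gf k - phi w 0 N) := by
    intro k
    ring
  rw [tsum_congr e1, Summable.tsum_add (hs.mul_right _) hs2, tsum_mul_right, hs1, one_mul,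
    tsum_eq_sum hz]
  have e2 : ∑ k ∈ Finset.Icc 1 N, (κ k).toReal * (Gf k - phi w 0 N)
      = ∑ k ∈ Finset.Icc 1 N, (κ k).toReal * phi w 0 k * Zw κ (fun n => w (n + k)) (N - k)
        - (∑ k ∈ Finset.Icc 1 N, (κ k).toReal) * phi w 0 N := by
    rw [Finset.sum_mul, ← Finset.sum_sub_distrib]
    apply Finset.sum_congr rfl
    intro k hk
    rw [Finset.mem_Icc] at hk
    rw [hGf, inner_big κ h0 w N k hk.1 hk.2]
    ring
  rw [e2]
  ring


end M_rec
end Cop764
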