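import Pool.Agent.Helper764.CopDefs
import Pool.Agent.Helper764.Cop_rec
import Pool.Agent.Helper764.Cop_loc
import Pool.Agent.Helper764.Cop_G

set_option autoImplicit false
set_option maxHeartbeats 4000000
open MeasureTheory ProbabilityTheory Filter Topology
open scoped ENNReal NNReal

namespace Cop764
namespace M_Z

theorem given_rec : St_rec := M_rec.J_rec
theorem given_loc : St_loc := M_loc.J_loc
theorem given_G : St_G := M_G.J_G




theorem J_Z_Knn (κ : PMF ℕ) (n : ℕ) : 0 ≤ (κ n).toReal := ENNReal.toReal_nonneg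

theorem J_Z_Ksum (κ : PMF ℕ) (s : Finset ℕ) : ∑ k ∈ s, (κ k).toReal ≤ 1 := by
  rw [← ENNReal.toReal_sum (fun a _ => κ.apply_ne_top a)]
  have h : ∑ a ∈ s, κ a ≤ 1 := by
    rw [← κ.tsum_coe]
    exact ENNReal.sum_le_tsum s
  exact ENNReal.toReal_le_of_le_ofReal zero_le_one (by simpa using h)

theorem J_Z_phi_pos (w : ℕ → ℝ) (i j : ℕ) : 0 < phi w i j := by
  unfold phi; positivity

theorem J_Z_phi_self (w : ℕ → ℝ) (i : ℕ) : phi w i i = 1 := by
  simp [phi, S]

theorem J_Z_phi_shift (w : ℕ → ℝ) (k i j : ℕ) :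
    phi (fun n => w (n + k)) i j = phi w (i + k) (j + k) := by
  unfold phi
  rw [given_loc.2.2.1]

/-- auxiliary partition function with free endpoint -/
noncomputable def J_Z_U (K : ℕ → ℝ) (w : ℕ → ℝ) (i N : ℕ) : ℝ :=
  ∑ k ∈ Finset.Icc i N, G K w i k * phi w k N

theorem J_Z_U_shift (K w : ℕ → ℝ) (l N : ℕ) (h : l ≤ N) :
    J_Z_U K (fun n => w (n + l)) 0 (N - l) = J_Z_U K w l N := by
  unfold J_Z_U
  refine Finset.sum_nbij' (fun k => k + l) (fun k => k - l) ?_ ?_ ?_ ?_ ?_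
  · intro k hk
    simp only [Finset.mem_Icc] at hk ⊢
    omega
  · intro k hk
    simp only [Finset.mem_Icc] at hk ⊢
    omega
  · intro k _
    simp
  · intro k hk
    simp only [Finset.mem_Icc] at hk
    show k - l + l = k
    omega
  · intro k _
    rw [given_loc.1, J_Z_phi_shift, Nat.sub_add_cancel h, Nat.zero_add]

theorem J_Z_Icc (N : ℕ) : Finset.Ioc 0 N = Finset.Icc 1 N := by
  ext k
  simp only [Finset.mem_Ioc, Finset.mem_Icc]
  omega

theorem J_Z_U_rec (K w : ℕ → ℝ) (N : ℕ) :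
    J_Z_U K w 0 N = phi w 0 N + ∑ l ∈ Finset.Icc 1 N, K l * phi w 0 l * J_Z_U K w l N := by
  unfold J_Z_U
  have h0 : Finset.Icc 0 N = insert 0 (Finset.Icc 1 N) := by
    ext k
    simp only [Finset.mem_insert, Finset.mem_Icc]
    omega
  rw [h0, Finset.sum_insert (by simp)]
  congr 1
  · rw [G_eq, if_pos rfl, one_mul]
  · have h1 : ∀ k ∈ Finset.Icc 1 N, G K w 0 k * phi w k N
        = ∑ l ∈ Finset.Icc 1 k, K l * phi w 0 l * (G K w l k * phi w k N) := by
      intro k hk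
      rw [Finset.mem_Icc] at hk
      rw [G_eq, if_neg (by omega), J_Z_Icc, Finset.sum_mul]
      apply Finset.sum_congr rfl
      intro l _
      rw [Nat.sub_zero]
      ring
    rw [Finset.sum_congr rfl h1]
    have h2 : ∀ l ∈ Finset.Icc 1 N, K l * phi w 0 l * ∑ k ∈ Finset.Icc l N, G K w l k * phi w k N
        = ∑ k ∈ Finset.Icc l N, K l * phi w 0 l * (G K w l k * phi w k N) := by
      intro l _
      rw [Finset.mul_sum]
    rw [Finset.sum_congr rfl h2]
    apply Finset.sum_comm'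
    intro k l
    simp only [Finset.mem_Icc]
    omega

theorem J_Z_lower (κ : PMF ℕ) (h0 : κ 0 = 0) (N : ℕ) : ∀ w : ℕ → ℝ,
    G (fun n => (κ n).toReal) w 0 N ≤ Zw κ w N := by
  induction N using Nat.strong_induction_on with
  | _ N ih =>
    intro w
    rw [given_rec κ h0 w N]
    have hrem : 0 ≤ (1 - ∑ k ∈ Finset.Icc 1 N, (κ k).toReal) * phi w 0 N :=
      mul_nonneg (sub_nonneg.2 (J_Z_Ksum κ _)) (J_Z_phi_pos w 0 N).le
    rcases Nat.eq_zero_or_pos N with hN | hN
    · subst hN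
      rw [G_eq, if_pos rfl]
      simp [J_Z_phi_self]
    · rw [G_eq, if_neg (by omega), J_Z_Icc]
      refine le_trans ?_ (le_add_of_nonneg_right hrem)
      apply Finset.sum_le_sum
      intro k hk
      rw [Finset.mem_Icc] at hk
      rw [Nat.sub_zero]
      apply mul_le_mul_of_nonneg_left _
        (mul_nonneg (J_Z_Knn κ k) (J_Z_phi_pos w 0 k).le)
      have := ih (N - k) (by omega) (fun n => w (n + k))
      rwa [given_loc.1, Nat.zero_add, Nat.sub_add_cancel hk.2] at this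

theorem J_Z_upper (κ : PMF ℕ) (h0 : κ 0 = 0) (N : ℕ) : ∀ w : ℕ → ℝ,
    Zw κ w N ≤ J_Z_U (fun n => (κ n).toReal) w 0 N := by
  induction N using Nat.strong_induction_on with
  | _ N ih =>
    intro w
    rw [given_rec κ h0 w N, J_Z_U_rec, add_comm (phi w 0 N)]
    apply add_le_add
    · apply Finset.sum_le_sum
      intro k hk
      rw [Finset.mem_Icc] at hk
      apply mul_le_mul_of_nonneg_left _
        (mul_nonneg (J_Z_Knn κ k) (J_Z_phi_pos w 0 k).le)
      have := ih (N - k) (by omega) (fun n => w (n + k))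
      rwa [J_Z_U_shift _ _ _ _ hk.2] at this
    · have h1 : 0 ≤ ∑ k ∈ Finset.Icc 1 N, (κ k).toReal :=
        Finset.sum_nonneg (fun k _ => J_Z_Knn κ k)
      have h2 := (J_Z_phi_pos w 0 N).le
      nlinarith

theorem J_Z_U_le (K w : ℕ → ℝ) (hK : ∀ n, 0 ≤ K n) (N : ℕ) : J_Z_U K w 0 N ≤ F K w 0 N := by
  unfold F
  have hG := given_G K w hK
  have h1 : (∑ k ∈ Finset.Icc 0 N, phi w 0 0 * G K w 0 k * phi w k N) = J_Z_U K w 0 N := by
    unfold J_Z_U
    apply Finset.sum_congr rfl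
    intro k _
    rw [J_Z_phi_self, one_mul]
  rw [← h1]
  apply Finset.single_le_sum (f := fun i => ∑ k ∈ Finset.Icc i N, phi w 0 i * G K w i k * phi w k N)
    _ (by simp : 0 ∈ Finset.Icc 0 N)
  intro i _
  apply Finset.sum_nonneg
  intro k _
  exact mul_nonneg (mul_nonneg (J_Z_phi_pos w 0 i).le (hG.2.1 i k)) (J_Z_phi_pos w k N).le


theorem J_Z : St_Z := by
  intro D h ω N
  have hZ : Z D.κ D.lam h N ω = Zw D.κ (D.w h ω) N := by
    unfold Z Zw Data.w
    congr 1
    funext x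
    congr 1
    rw [Finset.mul_sum]
    apply Finset.sum_congr rfl
    intro n _
    ring
  rw [hZ]
  have hK : D.K = fun n => (D.κ n).toReal := rfl
  rw [hK]
  exact ⟨J_Z_lower D.κ D.κ0 N _, (J_Z_upper D.κ D.κ0 N _).trans
    (J_Z_U_le _ _ (fun n => J_Z_Knn D.κ n) N)⟩



end M_Z
end Cop764
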