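import Pool.Agent.Helper764.CopDefs

set_option autoImplicit false
set_option maxHeartbeats 4000000
open MeasureTheory ProbabilityTheory Filter Topology
open scoped ENNReal NNReal

namespace Cop764
namespace M_Zmeas





theorem J_Zmeas_tau (j : ℕ) : Measurable (fun x : ℕ → ℕ × Bool => tau x j) := by
  unfold tau
  refine Finset.measurable_sum _ fun i _ => ?_
  exact measurable_fst.comp (measurable_pi_apply i)

theorem J_Zmeas_Delta (n : ℕ) : Measurable (fun x : ℕ → ℕ × Bool => Delta x n) := by
  unfold Delta
  refine Finset.measurable_sum _ fun j _ => ?_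
  refine Measurable.ite ?_ measurable_const measurable_const
  have h1 : MeasurableSet {x : ℕ → ℕ × Bool | tau x j < n} :=
    (J_Zmeas_tau j) (MeasurableSet.of_discrete (s := {k : ℕ | k < n}))
  have h2 : MeasurableSet {x : ℕ → ℕ × Bool | n ≤ tau x (j + 1)} :=
    (J_Zmeas_tau (j + 1)) (MeasurableSet.of_discrete (s := {k : ℕ | n ≤ k}))
  have h3 : MeasurableSet {x : ℕ → ℕ × Bool | (x j).2 = true} :=
    (measurable_snd.comp (measurable_pi_apply j))
      (MeasurableSet.of_discrete (s := {b : Bool | b = true}))
  exact h1.inter (h2.inter h3)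


theorem J_Zmeas : St_Zmeas := by
  intro κ lam h N
  have h1 : Measurable (fun p : (ℕ → ℝ) × (ℕ → ℕ × Bool) =>
      Real.exp (-2 * lam * ∑ n ∈ Finset.Icc 1 N, Delta p.2 n * (p.1 n + h))) := by
    refine Real.measurable_exp.comp (Measurable.const_mul ?_ _)
    refine Finset.measurable_sum _ fun n _ => ?_
    refine ((J_Zmeas_Delta n).comp measurable_snd).mul ?_
    have h3 : Measurable (fun p : (ℕ → ℝ) × (ℕ → ℕ × Bool) => p.1 n) :=
      (measurable_pi_apply n).comp measurable_fst
    exact h3.add_const h
  have h2 := (h1.stronglyMeasurable).integral_prod_right' (ν := pathMeasure κ)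
  exact h2.measurable


end M_Zmeas
end Cop764
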