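import Pool.Agent.Helper764.CopDefs
import Pool.Agent.Helper764.Cop_Fbd
import Pool.Agent.Helper764.Cop_G
import Pool.Agent.Helper764.Cop_meas
import Pool.Agent.Helper764.Cop_Z
import Pool.Agent.Helper764.Cop_Zmeas
import Pool.Agent.Helper764.Cop_K

set_option autoImplicit false
set_option maxHeartbeats 4000000
open MeasureTheory ProbabilityTheory Filter Topology
open scoped ENNReal NNReal

namespace Cop764
namespace M_int

theorem given_Fbd : St_Fbd := M_Fbd.J_Fbd
theorem given_G : St_G := M_G.J_G
theorem given_meas : St_meas := M_meas.J_meas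
theorem given_Z : St_Z := M_Z.J_Z
theorem given_Zmeas : St_Zmeas := M_Zmeas.J_Zmeas
theorem given_K : St_K := M_K.J_K





theorem J_int : St_int := by
  intro D c0 n0 hK h hh
  have hlam := D.hlam
  -- integrability of one coordinate
  have hν : Integrable (fun x : ℝ => |x|) D.ν := by
    have h1 : Integrable (fun x : ℝ => Real.exp (1 * x) + Real.exp (-1 * x)) D.ν :=
      (D.expm 1).add (D.expm (-1))
    refine h1.mono' (by fun_prop) (Filter.Eventually.of_forall fun x => ?_)
    rw [Real.norm_eq_abs, abs_abs]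
    have e1 := Real.add_one_le_exp (1 * x)
    have e2 := Real.add_one_le_exp (-1 * x)
    have e3 := Real.exp_pos (1 * x)
    have e4 := Real.exp_pos (-1 * x)
    rw [abs_le]
    constructor <;> linarith
  have hcoord : ∀ n : ℕ, Integrable (fun ω : ℕ → ℝ => |ω n|) D.P := by
    intro n
    have hmp : MeasurePreserving (Function.eval n : (ℕ → ℝ) → ℝ) D.P D.ν := by
      unfold Data.P disorder
      exact measurePreserving_eval_infinitePi (fun _ : ℕ => D.ν) n
    exact (hmp.integrable_comp_of_integrable hν)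
  have hM : ∀ a b : ℕ, Integrable (fun ω : ℕ → ℝ => S (fun n => 2 * D.lam * |ω n|) a b) D.P := by
    intro a b
    unfold S
    exact integrable_finsetSum _ fun n _ => (hcoord n).const_mul _
  have hM0 : ∀ (a b : ℕ) (ω : ℕ → ℝ), 0 ≤ S (fun n => 2 * D.lam * |ω n|) a b := by
    intro a b ω
    unfold S
    exact Finset.sum_nonneg fun n _ => by positivity
  have hphi : ∀ (w : ℕ → ℝ) (a b : ℕ), 1 / 2 ≤ phi w a b := by
    intro w a b
    unfold phi
    have := Real.exp_pos (S w a b)
    linarith
  have hbd := fun (ω : ℕ → ℝ) (a b : ℕ) (hab : a ≤ b) =>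
    given_Fbd D.K (D.w h ω) D.α c0 n0 hK a b hab
  have hwe : ∀ (ω : ℕ → ℝ) (n : ℕ), D.w h ω n ≤ 2 * D.lam * |ω n| := by
    intro ω n
    unfold Data.w
    have h1 : -ω n ≤ |ω n| := neg_le_abs _
    have h2 : 0 ≤ D.lam * h := by positivity
    have h3 : D.lam * (-ω n) ≤ D.lam * |ω n| := mul_le_mul_of_nonneg_left h1 hlam.le
    nlinarith
  have hep : ∀ (ω : ℕ → ℝ) (n : ℕ), 0 ≤ 2 * D.lam * |ω n| := fun ω n => by positivity
  -- part 1
  have P1 : ∀ a b, a ≤ b → Integrable (D.lF h a b) D.P := by
    intro a b hab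
    have hcast : (1 : ℝ) ≤ (b : ℝ) - a + 1 := by
      have : (a : ℝ) ≤ b := by exact_mod_cast hab
      linarith
    have hint : Integrable (fun ω : ℕ → ℝ => (Real.log 2 + 2 * Real.log ((b : ℝ) - a + 1)) +
        S (fun n => 2 * D.lam * |ω n|) a b) D.P := (integrable_const _).add (hM a b)
    refine hint.mono' ?_ (Filter.Eventually.of_forall fun ω => ?_)
    · exact (Real.measurable_log.comp (given_meas D h a b).2.1).aestronglyMeasurable
    · have hF1 : 1 / 2 ≤ F D.K (D.w h ω) a b := (hphi _ a b).trans (hbd ω a b hab).1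
      have hF2 := ((hbd ω a b hab).2 (fun n => 2 * D.lam * |ω n|) (hep ω) (hwe ω)).2
      have hF0 : 0 < F D.K (D.w h ω) a b := by linarith
      have hl : -Real.log 2 ≤ D.lF h a b ω := by
        unfold Data.lF
        have : Real.log (1 / 2) ≤ Real.log (F D.K (D.w h ω) a b) :=
          Real.log_le_log (by norm_num) hF1
        rw [Real.log_div one_ne_zero two_ne_zero, Real.log_one] at this
        linarith
      have hu : D.lF h a b ω ≤ 2 * Real.log ((b : ℝ) - a + 1) +
          S (fun n => 2 * D.lam * |ω n|) a b := by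
        unfold Data.lF
        have := Real.log_le_log hF0 hF2
        rw [Real.log_mul (by positivity) (Real.exp_pos _).ne', Real.log_pow, Real.log_exp] at this
        push_cast at this
        exact this
      have hl2 : 0 ≤ Real.log 2 := Real.log_nonneg (by norm_num)
      have hl3 : 0 ≤ Real.log ((b : ℝ) - a + 1) := Real.log_nonneg hcast
      have := hM0 a b ω
      rw [Real.norm_eq_abs, abs_le]
      constructor <;> linarith
  have P2 : ∀ a b, a + n0 ≤ b → Integrable (D.lG h a b) D.P ∧
      ∀ ω, 0 < G D.K (D.w h ω) a b := by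
    intro a b hab
    have hn0 := hK.n0_pos
    have hlt : a < b := by omega
    have hba : n0 ≤ b - a := by omega
    have hKpos : 0 < D.K (b - a) := by
      have h1 := hK.lower (b - a) hba
      have h2 : 0 < c0 * ((b - a : ℕ) : ℝ) ^ (-(1 + D.α)) := by
        have : (0 : ℝ) < ((b - a : ℕ) : ℝ) := by
          have : 0 < b - a := by omega
          exact_mod_cast this
        exact mul_pos hK.c0_pos (Real.rpow_pos_of_pos this _)
      linarith
    have hGl : ∀ ω, D.K (b - a) / 2 ≤ G D.K (D.w h ω) a b := by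
      intro ω
      have h1 := (given_G D.K (D.w h ω) hK.nonneg).2.2.1 a b hlt
      have h2 : D.K (b - a) * (1 / 2) ≤ D.K (b - a) * phi (D.w h ω) a b :=
        mul_le_mul_of_nonneg_left (hphi _ a b) hKpos.le
      linarith
    refine ⟨?_, fun ω => lt_of_lt_of_le (by positivity) (hGl ω)⟩
    have hint : Integrable (fun ω : ℕ → ℝ => |Real.log (D.K (b - a) / 2)| +
        S (fun n => 2 * D.lam * |ω n|) a b) D.P := (integrable_const _).add (hM a b)
    refine hint.mono' ?_ (Filter.Eventually.of_forall fun ω => ?_)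
    · exact (Real.measurable_log.comp (given_meas D h a b).1).aestronglyMeasurable
    · have hG0 : 0 < G D.K (D.w h ω) a b := lt_of_lt_of_le (by positivity) (hGl ω)
      have hG2 := ((hbd ω a b hlt.le).2 (fun n => 2 * D.lam * |ω n|) (hep ω) (hwe ω)).1
      have hl : Real.log (D.K (b - a) / 2) ≤ D.lG h a b ω := by
        unfold Data.lG
        exact Real.log_le_log (by positivity) (hGl ω)
      have hu : D.lG h a b ω ≤ S (fun n => 2 * D.lam * |ω n|) a b := by
        unfold Data.lG
        have := Real.log_le_log hG0 hG2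
        rwa [Real.log_exp] at this
      have h3 := neg_abs_le (Real.log (D.K (b - a) / 2))
      have h4 := abs_nonneg (Real.log (D.K (b - a) / 2))
      have := hM0 a b ω
      rw [Real.norm_eq_abs, abs_le]
      constructor <;> linarith
  refine ⟨P1, fun a b hab => (P2 a b hab).1, ?_⟩
  intro N hN
  have hG := P2 0 N (by omega)
  have hF := P1 0 N (Nat.zero_le _)
  have hint : Integrable (fun ω : ℕ → ℝ => |D.lG h 0 N ω| + |D.lF h 0 N ω|) D.P :=
    hG.1.abs.add hF.abs
  refine hint.mono' ?_ (Filter.Eventually.of_forall fun ω => ?_)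
  · exact (Real.measurable_log.comp (given_Zmeas D.κ D.lam h N)).aestronglyMeasurable
  · obtain ⟨hz1, hz2⟩ := given_Z D h ω N
    have hG0 := hG.2 ω
    have hZ0 : 0 < Z D.κ D.lam h N ω := lt_of_lt_of_le hG0 hz1
    have h1 : D.lG h 0 N ω ≤ Real.log (Z D.κ D.lam h N ω) := Real.log_le_log hG0 hz1
    have h2 : Real.log (Z D.κ D.lam h N ω) ≤ D.lF h 0 N ω := Real.log_le_log hZ0 hz2
    have h3 := neg_abs_le (D.lG h 0 N ω)
    have h4 := le_abs_self (D.lF h 0 N ω)
    have h5 := abs_nonneg (D.lG h 0 N ω)
    have h6 := abs_nonneg (D.lF h 0 N ω)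
    rw [Real.norm_eq_abs, abs_le]
    constructor <;> linarith


end M_int
end Cop764
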