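import Pool.Agent.Helper764.CopDefs
import Pool.Agent.Helper764.Cop_Fsub
import Pool.Agent.Helper764.Cop_FG
import Pool.Agent.Helper764.Cop_G
import Pool.Agent.Helper764.Cop_Z
import Pool.Agent.Helper764.Cop_Zmeas
import Pool.Agent.Helper764.Cop_int
import Pool.Agent.Helper764.Cop_stat
import Pool.Agent.Helper764.Cop_loc
import Pool.Agent.Helper764.Cop_meas
import Pool.Agent.Helper764.Cop_K
import Pool.Agent.Helper764.Cop_Fbd

set_option autoImplicit false
set_option maxHeartbeats 4000000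
open MeasureTheory ProbabilityTheory Filter Topology
open scoped ENNReal NNReal

namespace Cop764
namespace M_fe

theorem given_Fsub : St_Fsub := M_Fsub.J_Fsub
theorem given_FG : St_FG := M_FG.J_FG
theorem given_G : St_G := M_G.J_G
theorem given_Z : St_Z := M_Z.J_Z
theorem given_Zmeas : St_Zmeas := M_Zmeas.J_Zmeas
theorem given_int : St_int := M_int.J_int
theorem given_stat : St_stat := M_stat.J_stat
theorem given_loc : St_loc := M_loc.J_loc
theorem given_meas : St_meas := M_meas.J_meas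
theorem given_K : St_K := M_K.J_K
theorem given_Fbd : St_Fbd := M_Fbd.J_Fbd




theorem fe833_id (D : Data) : Integrable (fun x : ℝ => x) D.ν := by
  have h1 := (D.expm 1).add (D.expm (-1))
  refine h1.mono' measurable_id.aestronglyMeasurable (Filter.Eventually.of_forall fun x => ?_)
  rw [Real.norm_eq_abs, abs_le]
  have e1 := Real.add_one_le_exp x
  have e2 := Real.add_one_le_exp (-x)
  have e3 := Real.exp_pos x
  have e4 := Real.exp_pos (-x)
  simp only [Pi.add_apply, one_mul, neg_mul]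
  constructor <;> linarith

theorem fe833_coord (D : Data) (n : ℕ) : Integrable (fun ω : ℕ → ℝ => ω n) D.P := by
  have h1 : MeasurePreserving (Function.eval n) (Measure.infinitePi (fun _ : ℕ => D.ν)) D.ν :=
    measurePreserving_eval_infinitePi (fun _ : ℕ => D.ν) n
  have h2 := h1.integrable_comp_of_integrable (fe833_id D)
  exact h2

theorem fe833_S (D : Data) (h : ℝ) (a b : ℕ) : Integrable (fun ω => |S (D.w h ω) a b|) D.P := by
  apply Integrable.abs
  unfold S Data.w
  apply integrable_finsetSum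
  intro n _
  exact ((fe833_coord D n).add (integrable_const h)).const_mul (-2 * D.lam)

theorem fe833_shift (D : Data) (k : ℕ) (g : (ℕ → ℝ) → ℝ) (hg : Measurable g) :
    ∫ ω, g (fun n => ω (n + k)) ∂D.P = ∫ ω, g ω ∂D.P := by
  have h1 := given_stat D.ν k
  have h2 : Measure.map (fun (ω : ℕ → ℝ) (n : ℕ) => ω (n + k)) D.P = D.P := h1.map_eq
  have h3 := integral_map (μ := D.P) (f := g) h1.measurable.aemeasurable
    (hg.aestronglyMeasurable)
  rw [h2] at h3
  exact h3.symm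

theorem fe833_lFmeas (D : Data) (h : ℝ) (a b : ℕ) : Measurable (D.lF h a b) :=
  Real.measurable_log.comp (given_meas D h a b).2.1

theorem fe833_lFshift (D : Data) (h : ℝ) (i j k : ℕ) :
    ∫ ω, D.lF h (i + k) (j + k) ω ∂D.P = ∫ ω, D.lF h i j ω ∂D.P := by
  rw [← fe833_shift D k (D.lF h i j) (fe833_lFmeas D h i j)]
  apply integral_congr_ae
  refine Filter.Eventually.of_forall fun ω => ?_
  show Real.log (F D.K (D.w h ω) (i + k) (j + k))
    = Real.log (F D.K (fun n => D.w h ω (n + k)) i j)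
  rw [given_loc.2.1]

theorem fe833_Sshift (D : Data) (h : ℝ) (i j k : ℕ) :
    ∫ ω, |S (D.w h ω) (i + k) (j + k)| ∂D.P = ∫ ω, |S (D.w h ω) i j| ∂D.P := by
  rw [← fe833_shift D k (fun ω => |S (D.w h ω) i j|) (given_meas D h i j).2.2.abs]
  apply integral_congr_ae
  refine Filter.Eventually.of_forall fun ω => ?_
  show |S (D.w h ω) (i + k) (j + k)| = |S (fun n => D.w h ω (n + k)) i j|
  rw [given_loc.2.2.1]

theorem fe833_add3 (D : Data) (c : ℝ) (f g : (ℕ → ℝ) → ℝ) (hf : Integrable f D.P)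
    (hg : Integrable g D.P) :
    ∫ ω, (c + (f ω + g ω)) ∂D.P = c + (∫ ω, f ω ∂D.P + ∫ ω, g ω ∂D.P) := by
  rw [integral_add (f := fun _ => c) (g := fun ω => f ω + g ω) (integrable_const c) (hf.add hg),
    integral_add hf hg, integral_const]
  simp

theorem fe833_add4 (D : Data) (c : ℝ) (f g k : (ℕ → ℝ) → ℝ) (hf : Integrable f D.P)
    (hg : Integrable g D.P) (hk : Integrable k D.P) :
    ∫ ω, (c + ((f ω + g ω) + k ω)) ∂D.P
      = c + ((∫ ω, f ω ∂D.P + ∫ ω, g ω ∂D.P) + ∫ ω, k ω ∂D.P) := by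
  rw [fe833_add3 D c (fun ω => f ω + g ω) k (hf.add hg) hk, integral_add hf hg]

theorem fe833_lin (f c x1 x2 n s g z a : ℝ)
    (h4 : f ≤ 2 * c + 2 * x1 + 2 * (1 + a) * x2 + s + g) (h5 : g ≤ z) (h6 : x1 ≤ n)
    (h8 : 2 * (1 + a) * x2 ≤ 2 * (1 + a) * n) :
    f ≤ (2 * c + (2 + 2 * (1 + a)) * n) + (s + z) := by
  linarith

theorem fe833_half (w : ℕ → ℝ) (a b : ℕ) : (1 : ℝ) / 2 ≤ phi w a b := by
  unfold phi
  have := Real.exp_pos (S w a b)
  linarith


theorem J_fe : St_fe := by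
  intro D h hh
  obtain ⟨c0, n0, hK⟩ := given_K D
  obtain ⟨intF, intG, intZ⟩ := given_int D c0 n0 hK h hh
  have hn0 := hK.n0_pos
  have hFhalf : ∀ (w : ℕ → ℝ) (a b : ℕ), a ≤ b → (1 : ℝ) / 2 ≤ F D.K w a b := fun w a b hab =>
    (fe833_half w a b).trans (given_Fbd D.K w D.α c0 n0 hK a b hab).1
  have hFpos : ∀ (w : ℕ → ℝ) (a b : ℕ), a ≤ b → 0 < F D.K w a b := fun w a b hab =>
    lt_of_lt_of_le (by norm_num) (hFhalf w a b hab)
  have hGpos : ∀ (w : ℕ → ℝ) (N : ℕ), n0 ≤ N → 0 < G D.K w 0 N := by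
    intro w N hN
    have h1 := (given_G D.K w hK.nonneg).2.2.1 0 N (by omega)
    refine lt_of_lt_of_le (mul_pos ?_ ?_) h1
    · rw [Nat.sub_zero]
      refine lt_of_lt_of_le ?_ (hK.lower N hN)
      apply mul_pos hK.c0_pos
      apply Real.rpow_pos_of_pos
      have : 0 < N := by omega
      exact_mod_cast this
    · exact lt_of_lt_of_le (by norm_num) (fe833_half w 0 N)
  have hlog6 : 0 ≤ Real.log 6 := Real.log_nonneg (by norm_num)
  obtain ⟨u, hu⟩ : ∃ u : ℕ → ℝ, u = fun ℓ => ∫ ω, D.lF h 0 ℓ ω ∂D.P + Real.log 6 := ⟨_, rfl⟩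
  have huval : ∀ ℓ, u ℓ = ∫ ω, D.lF h 0 ℓ ω ∂D.P + Real.log 6 := fun ℓ => by rw [hu]
  have hsub : Subadditive u := by
    intro m n
    rw [huval, huval, huval]
    have h1 : ∫ ω, D.lF h 0 (m + n) ω ∂D.P
        ≤ ∫ ω, (Real.log 6 + (D.lF h 0 m ω + D.lF h (0 + m) (n + m) ω)) ∂D.P := by
      apply integral_mono (intF 0 (m + n) (Nat.zero_le _))
      · exact (integrable_const _).add ((intF 0 m (Nat.zero_le _)).add
          (intF (0 + m) (n + m) (by omega)))
      · intro ω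
        have h2 := given_Fsub D.K (D.w h ω) D.α c0 n0 hK 0 m (m + n) (Nat.zero_le _) (by omega)
        have e1 := hFpos (D.w h ω) 0 m (Nat.zero_le _)
        have e2 := hFpos (D.w h ω) m (m + n) (by omega)
        have e3 := hFpos (D.w h ω) 0 (m + n) (by omega)
        have h3 := Real.log_le_log e3 h2
        rw [Real.log_mul (by norm_num) (mul_pos e1 e2).ne', Real.log_mul e1.ne' e2.ne'] at h3
        have e4 : D.lF h (0 + m) (n + m) ω = Real.log (F D.K (D.w h ω) m (m + n)) := by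
          unfold Data.lF
          rw [zero_add, add_comm n m]
        show Real.log (F D.K (D.w h ω) 0 (m + n)) ≤
          Real.log 6 + (Real.log (F D.K (D.w h ω) 0 m) + D.lF h (0 + m) (n + m) ω)
        rw [e4]
        exact h3
    rw [fe833_add3 D (Real.log 6) _ _ (intF 0 m (Nat.zero_le _)) (intF (0 + m) (n + m) (by omega)),
      fe833_lFshift] at h1
    linarith
  have hu0 : ∀ n, 0 ≤ u n := by
    intro n
    rw [huval]
    have h1 : ∫ ω, (Real.log (1 / 2) : ℝ) ∂D.P ≤ ∫ ω, D.lF h 0 n ω ∂D.P := by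
      apply integral_mono (integrable_const _) (intF 0 n (Nat.zero_le _))
      intro ω
      exact Real.log_le_log (by norm_num) (hFhalf _ 0 n (Nat.zero_le _))
    rw [integral_const] at h1
    simp only [probReal_univ, smul_eq_mul, one_mul] at h1
    have h2 : 0 ≤ Real.log (1 / 2) + Real.log 6 := by
      rw [← Real.log_mul (by norm_num) (by norm_num)]
      apply Real.log_nonneg
      norm_num
    linarith
  have hbdd : BddBelow (Set.range fun n => u n / n) := by
    refine ⟨0, ?_⟩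
    rintro _ ⟨n, rfl⟩
    exact div_nonneg (hu0 n) (Nat.cast_nonneg n)
  have hlim := hsub.tendsto_lim hbdd
  obtain ⟨L, hL⟩ : ∃ L, L = hsub.lim := ⟨_, rfl⟩
  rw [← hL] at hlim
  -- the lower bound constants
  obtain ⟨A, hA⟩ : ∃ A, A = ∫ ω, |S (D.w h ω) 0 n0| ∂D.P := ⟨_, rfl⟩
  obtain ⟨C1, hC1⟩ : ∃ C1 : ℝ, C1 = u (2 * n0) + Real.log 6 + 2 * Real.log c0⁻¹ + 2 * A :=
    ⟨_, rfl⟩
  obtain ⟨C2, hC2⟩ : ∃ C2 : ℝ, C2 = 2 + 2 * (1 + D.α) := ⟨_, rfl⟩
  have hα := D.hα
  have hZub : ∀ N : ℕ, n0 ≤ N → ∫ ω, Real.log (Z D.κ D.lam h N ω) ∂D.P ≤ u N := by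
    intro N hN
    rw [huval]
    have h1 : ∫ ω, Real.log (Z D.κ D.lam h N ω) ∂D.P ≤ ∫ ω, D.lF h 0 N ω ∂D.P := by
      apply integral_mono (intZ N hN) (intF 0 N (Nat.zero_le _))
      intro ω
      obtain ⟨h2, h3⟩ := given_Z D h ω N
      exact Real.log_le_log (lt_of_lt_of_le (hGpos _ N hN) h2) h3
    linarith
  have hZlb : ∀ N : ℕ, 2 * n0 + 1 ≤ N →
      u N - C1 - C2 * Real.log N ≤ ∫ ω, Real.log (Z D.κ D.lam h N ω) ∂D.P := by
    intro N hN
    obtain ⟨ℓ, hℓ⟩ : ∃ ℓ, N = ℓ + 2 * n0 := ⟨N - 2 * n0, by omega⟩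
    have hℓ1 : 1 ≤ ℓ := by omega
    have hNpos : (0 : ℝ) < N := by
      have : 0 < N := by omega
      exact_mod_cast this
    -- pointwise
    have hpt : ∀ ω, D.lF h (0 + n0) (ℓ + n0) ω ≤ (2 * Real.log c0⁻¹ + C2 * Real.log N) +
        ((|S (D.w h ω) 0 (0 + n0)| + |S (D.w h ω) (ℓ + n0) (ℓ + 2 * n0)|) +
          Real.log (Z D.κ D.lam h N ω)) := by
      intro ω
      have h1 := given_FG D.K (D.w h ω) D.α c0 n0 hK n0 0 ℓ le_rfl (Nat.zero_le _)
      obtain ⟨h2, h3⟩ := given_Z D h ω N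
      have hG := hGpos (D.w h ω) N (by omega)
      rw [← hℓ] at h1
      have e1 := hFpos (D.w h ω) (0 + n0) (ℓ + n0) (by omega)
      have hc : 0 < c0⁻¹ := inv_pos.2 hK.c0_pos
      have p1 : (0 : ℝ) < (ℓ : ℝ) - (0 : ℕ) + 1 := by
        rw [Nat.cast_zero, sub_zero]; positivity
      have p2 : (0 : ℝ) < (ℓ : ℝ) - (0 : ℕ) + n0 := by
        rw [Nat.cast_zero, sub_zero]; positivity
      have h4 := Real.log_le_log e1 h1
      rw [Real.log_mul (by positivity) hG.ne', Real.log_mul (by positivity) (Real.exp_pos _).ne',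
        Real.log_exp, Real.log_mul (by positivity) (by positivity),
        Real.log_mul (by positivity) (by positivity), Real.log_pow, Real.log_pow,
        Real.log_rpow p2] at h4
      have h5 : Real.log (G D.K (D.w h ω) 0 N) ≤ Real.log (Z D.κ D.lam h N ω) :=
        Real.log_le_log hG h2
      have h6 : Real.log ((ℓ : ℝ) - (0 : ℕ) + 1) ≤ Real.log N := by
        apply Real.log_le_log p1
        rw [Nat.cast_zero, sub_zero]
        have : ℓ + 1 ≤ N := by omega
        exact_mod_cast this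
      have h7 : Real.log ((ℓ : ℝ) - (0 : ℕ) + n0) ≤ Real.log N := by
        apply Real.log_le_log p2
        rw [Nat.cast_zero, sub_zero]
        have : ℓ + n0 ≤ N := by omega
        exact_mod_cast this
      have h8 : 2 * (1 + D.α) * Real.log ((ℓ : ℝ) - (0 : ℕ) + n0)
          ≤ 2 * (1 + D.α) * Real.log N := mul_le_mul_of_nonneg_left h7 (by positivity)
      have hcast : ((2 : ℕ) : ℝ) = 2 := by norm_num
      rw [hcast] at h4
      show Real.log (F D.K (D.w h ω) (0 + n0) (ℓ + n0)) ≤ _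
      rw [hC2]
      rw [← hℓ]
      exact fe833_lin _ _ _ _ _ _ _ _ _ h4 h5 h6 h8
    have iS1 := fe833_S D h 0 (0 + n0)
    have iS2 := fe833_S D h (ℓ + n0) (ℓ + 2 * n0)
    have iZ := intZ N (by omega)
    have h1 : ∫ ω, D.lF h (0 + n0) (ℓ + n0) ω ∂D.P ≤
        ∫ ω, ((2 * Real.log c0⁻¹ + C2 * Real.log N) +
        ((|S (D.w h ω) 0 (0 + n0)| + |S (D.w h ω) (ℓ + n0) (ℓ + 2 * n0)|) +
          Real.log (Z D.κ D.lam h N ω))) ∂D.P :=
      integral_mono (intF (0 + n0) (ℓ + n0) (by omega))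
      ((integrable_const _).add ((iS1.add iS2).add iZ)) hpt
    rw [fe833_add4 D _ _ _ _ iS1 iS2 iZ, fe833_lFshift] at h1
    have h2 : ∫ ω, |S (D.w h ω) 0 (0 + n0)| ∂D.P = A := by rw [hA, zero_add]
    have h3 : ∫ ω, |S (D.w h ω) (ℓ + n0) (ℓ + 2 * n0)| ∂D.P = A := by
      have h4 := fe833_Sshift D h 0 n0 (ℓ + n0)
      have e1 : 0 + (ℓ + n0) = ℓ + n0 := by omega
      have e2 : n0 + (ℓ + n0) = ℓ + 2 * n0 := by omega
      rw [e1, e2] at h4
      rw [h4, hA]
    rw [h2, h3] at h1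
    have h5 : u N ≤ u ℓ + u (2 * n0) := by
      rw [hℓ]
      exact hsub ℓ (2 * n0)
    have h6 := huval ℓ
    rw [hC1]
    linarith
  -- convergence
  have hconv : Tendsto (feN D.κ D.ν D.lam h) atTop (𝓝 L) := by
    have hlogN : Tendsto (fun N : ℕ => Real.log N / (N : ℝ)) atTop (𝓝 0) := by
      have h1 := Real.tendsto_pow_log_div_mul_add_atTop 1 0 1 one_ne_zero
      have h2 := h1.comp tendsto_natCast_atTop_atTop
      refine h2.congr (fun N => ?_)
      simp
    have hinvN : Tendsto (fun N : ℕ => C1 / (N : ℝ)) atTop (𝓝 0) :=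
      tendsto_const_div_atTop_nhds_zero_nat C1
    have hlow : Tendsto (fun N : ℕ => u N / (N : ℝ) - C1 / (N : ℝ) - C2 * (Real.log N / (N : ℝ)))
        atTop (𝓝 L) := by
      have h1 := (hlim.sub hinvN).sub (hlogN.const_mul C2)
      simpa using h1
    refine tendsto_of_tendsto_of_tendsto_of_le_of_le' hlow hlim ?_ ?_
    · filter_upwards [eventually_ge_atTop (2 * n0 + 1)] with N hN
      have hNpos : (0 : ℝ) < N := by
        have : 0 < N := by omega
        exact_mod_cast this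
      have h1 := hZlb N hN
      have h2 : feN D.κ D.ν D.lam h N = (∫ ω, Real.log (Z D.κ D.lam h N ω) ∂D.P) / N := by
        unfold feN Data.P
        rw [div_eq_inv_mul]
      rw [h2]
      have h3 : u N / (N : ℝ) - C1 / (N : ℝ) - C2 * (Real.log N / (N : ℝ))
          = (u N - C1 - C2 * Real.log N) / N := by ring
      rw [h3]
      exact div_le_div_of_nonneg_right h1 hNpos.le
    · filter_upwards [eventually_ge_atTop n0] with N hN
      have hNpos : (0 : ℝ) < N := by
        have : 0 < N := by omega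
        exact_mod_cast this
      have h2 : feN D.κ D.ν D.lam h N = (∫ ω, Real.log (Z D.κ D.lam h N ω) ∂D.P) / N := by
        unfold feN Data.P
        rw [div_eq_inv_mul]
      rw [h2]
      exact div_le_div_of_nonneg_right (hZub N hN) hNpos.le
  have hfL : D.f h = L := hconv.limUnder_eq
  refine ⟨by rw [hfL]; exact hconv, ?_⟩
  intro ℓ hℓ
  rw [hfL, hL, ← huval]
  have h1 := hsub.lim_le_div hbdd (n := ℓ) (by omega)
  have hℓpos : (0 : ℝ) < ℓ := by
    have : 0 < ℓ := by omega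
    exact_mod_cast this
  rw [le_div_iff₀ hℓpos] at h1
  linarith


end M_fe
end Cop764
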