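import Pool.Agent.Helper764.CopDefs
import Pool.Agent.Helper764.Cop_fe
import Pool.Agent.Helper764.Cop_Z
import Pool.Agent.Helper764.Cop_G
import Pool.Agent.Helper764.Cop_K
import Pool.Agent.Helper764.Cop_int

set_option autoImplicit false
set_option maxHeartbeats 4000000
open MeasureTheory ProbabilityTheory Filter Topology
open scoped ENNReal NNReal

namespace Cop764
namespace M_fnn

theorem given_fe : St_fe := M_fe.J_fe
theorem given_Z : St_Z := M_Z.J_Z
theorem given_G : St_G := M_G.J_G
theorem given_K : St_K := M_K.J_K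
theorem given_int : St_int := M_int.J_int





theorem J_fnn : St_fnn := by
  intro D h hh
  obtain ⟨c0, n0, hK⟩ := given_K D
  obtain ⟨hfe, -⟩ := given_fe D h hh
  obtain ⟨-, -, hint⟩ := given_int D c0 n0 hK h hh
  have hb : Tendsto (fun N : ℕ => (N : ℝ)⁻¹ * (Real.log (c0 / 2) - (1 + D.α) * Real.log N)) atTop
      (𝓝 0) := by
    have h1 : Tendsto (fun N : ℕ => (N : ℝ)⁻¹ * Real.log (c0 / 2)) atTop (𝓝 0) := by
      have := (tendsto_inv_atTop_nhds_zero_nat (𝕜 := ℝ)).mul_const (Real.log (c0 / 2))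
      simpa using this
    have h2 : Tendsto (fun N : ℕ => (1 + D.α) * (Real.log (N : ℝ) / N)) atTop (𝓝 0) := by
      have h3 := (Real.tendsto_pow_log_div_mul_add_atTop 1 0 1 one_ne_zero).comp
        (tendsto_natCast_atTop_atTop (R := ℝ))
      have h4 := h3.const_mul (1 + D.α)
      simpa [Function.comp_def] using h4
    have h5 := h1.sub h2
    rw [sub_zero] at h5
    refine h5.congr fun N => ?_
    rw [div_eq_inv_mul]
    ring
  refine le_of_tendsto_of_tendsto hb hfe ?_
  filter_upwards [eventually_ge_atTop n0] with N hN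
  have hN1 : 1 ≤ N := le_trans hK.n0_pos hN
  have hNpos : (0 : ℝ) < N := by exact_mod_cast hN1
  unfold feN
  refine mul_le_mul_of_nonneg_left ?_ (by positivity)
  have hlow : ∀ ω : ℕ → ℝ, Real.log (c0 / 2) - (1 + D.α) * Real.log N ≤
      Real.log (Z D.κ D.lam h N ω) := by
    intro ω
    have hz := (given_Z D h ω N).1
    have hg := (given_G D.K (D.w h ω) hK.nonneg).2.2.1 0 N (by omega)
    have hk := hK.lower N hN
    have hp : (1 : ℝ) / 2 ≤ phi (D.w h ω) 0 N := by
      unfold phi
      have := Real.exp_pos (S (D.w h ω) 0 N)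
      linarith
    have hc : 0 < c0 := hK.c0_pos
    have hr : 0 < (N : ℝ) ^ (-(1 + D.α)) := Real.rpow_pos_of_pos hNpos _
    have h1 : c0 / 2 * (N : ℝ) ^ (-(1 + D.α)) ≤ Z D.κ D.lam h N ω := by
      refine le_trans ?_ hz
      refine le_trans ?_ hg
      rw [Nat.sub_zero]
      calc c0 / 2 * (N : ℝ) ^ (-(1 + D.α)) = (c0 * (N : ℝ) ^ (-(1 + D.α))) * (1 / 2) := by ring
        _ ≤ D.K N * phi (D.w h ω) 0 N := by
          refine mul_le_mul hk hp (by norm_num) (hK.nonneg N)
    have h2 : Real.log (c0 / 2) - (1 + D.α) * Real.log N =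
        Real.log (c0 / 2 * (N : ℝ) ^ (-(1 + D.α))) := by
      rw [Real.log_mul (by positivity) hr.ne', Real.log_rpow hNpos]
      ring
    rw [h2]
    exact Real.log_le_log (by positivity) h1
  have h3 : Real.log (c0 / 2) - (1 + D.α) * Real.log N =
      ∫ _ω : ℕ → ℝ, (Real.log (c0 / 2) - (1 + D.α) * Real.log N) ∂D.P := by
    rw [integral_const]
    simp
  rw [h3]
  exact integral_mono (integrable_const _) (hint N hN) hlow



end M_fnn
end Cop764
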