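import Pool.Agent.Helper764.CopDefs
import Pool.Agent.Helper764.Cop_strat
import Pool.Agent.Helper764.Cop_G
import Pool.Agent.Helper764.Cop_fe
import Pool.Agent.Helper764.Cop_Z
import Pool.Agent.Helper764.Cop_int
import Pool.Agent.Helper764.Cop_stat
import Pool.Agent.Helper764.Cop_loc
import Pool.Agent.Helper764.Cop_meas
import Pool.Agent.Helper764.Cop_K

set_option autoImplicit false
set_option maxHeartbeats 4000000
open MeasureTheory ProbabilityTheory Filter Topology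
open scoped ENNReal NNReal

namespace Cop764
namespace M_strE

theorem given_strat : St_strat := M_strat.J_strat
theorem given_G : St_G := M_G.J_G
theorem given_fe : St_fe := M_fe.J_fe
theorem given_Z : St_Z := M_Z.J_Z
theorem given_int : St_int := M_int.J_int
theorem given_stat : St_stat := M_stat.J_stat
theorem given_loc : St_loc := M_loc.J_loc
theorem given_meas : St_meas := M_meas.J_meas
theorem given_K : St_K := M_K.J_K




theorem jE_phi_ge (w : ℕ → ℝ) (i j : ℕ) : 1 / 2 ≤ phi w i j := by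
  unfold phi
  have := Real.exp_pos (S w i j)
  linarith

theorem jE_Glow (D : Data) (c0 : ℝ) (n0 : ℕ) (hK : KHyp D.K D.α c0 n0) (w : ℕ → ℝ) (ℓ : ℕ)
    (hℓ : n0 ≤ ℓ) (i j : ℕ) (hij : i < j) :
    c0 / 2 * (((j - i : ℕ) : ℝ) * ℓ) ^ (-(1 + D.α)) ≤ G D.K w (i * ℓ) (j * ℓ) ∧
    0 < G D.K w (i * ℓ) (j * ℓ) := by
  have hn0 := hK.n0_pos
  have hℓ1 : 1 ≤ ℓ := hn0.trans hℓ
  have hd : 1 ≤ j - i := by omega
  have h1 : i * ℓ < j * ℓ := Nat.mul_lt_mul_of_pos_right hij (by omega)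
  have h2 := (given_G D.K w hK.nonneg).2.2.1 (i * ℓ) (j * ℓ) h1
  have h3 : j * ℓ - i * ℓ = (j - i) * ℓ := (Nat.sub_mul _ _ _).symm
  rw [h3] at h2
  have h4 : n0 ≤ (j - i) * ℓ := hℓ.trans (Nat.le_mul_of_pos_left _ hd)
  have h5 := hK.lower _ h4
  have h6 := jE_phi_ge w (i * ℓ) (j * ℓ)
  have hc0 := hK.c0_pos
  have hp : (0 : ℝ) < (((j - i) * ℓ : ℕ) : ℝ) := by
    exact_mod_cast Nat.mul_pos (by omega) (by omega)
  have h7 : 0 < (((j - i) * ℓ : ℕ) : ℝ) ^ (-(1 + D.α)) := Real.rpow_pos_of_pos hp _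
  have h8 : c0 / 2 * (((j - i : ℕ) : ℝ) * ℓ) ^ (-(1 + D.α)) ≤ G D.K w (i * ℓ) (j * ℓ) := by
    refine le_trans ?_ h2
    have e : (((j - i : ℕ) : ℝ) * ℓ) = (((j - i) * ℓ : ℕ) : ℝ) := by push_cast; ring
    rw [e]
    calc c0 / 2 * (((j - i) * ℓ : ℕ) : ℝ) ^ (-(1 + D.α))
        = (c0 * (((j - i) * ℓ : ℕ) : ℝ) ^ (-(1 + D.α))) * (1 / 2) := by ring
      _ ≤ D.K ((j - i) * ℓ) * phi w (i * ℓ) (j * ℓ) :=
        mul_le_mul h5 h6 (by norm_num) (hK.nonneg _)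
  refine ⟨h8, lt_of_lt_of_le ?_ h8⟩
  have e : (((j - i : ℕ) : ℝ) * ℓ) = (((j - i) * ℓ : ℕ) : ℝ) := by push_cast; ring
  rw [e]
  positivity

theorem jE_point (D : Data) (c0 : ℝ) (n0 : ℕ) (hK : KHyp D.K D.α c0 n0) (h : ℝ) (ω : ℕ → ℝ)
    (ℓ : ℕ) (hℓ : n0 ≤ ℓ) (q : ℝ) (hq : 0 < q) (hq1 : q ≤ 1) (b : ℝ)
    (hb : b = Real.log (2 / c0) + (1 + D.α) * (Real.log ℓ + Real.log q⁻¹)) (Q : ℕ) (hQ : 1 ≤ Q) :
    ∑ i ∈ Finset.range Q, max (D.lG h (i * ℓ) ((i + 1) * ℓ) ω - b) 0 - b - (1 + D.α) * q * Q ≤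
      Real.log (Z D.κ D.lam h (Q * ℓ) ω) := by
  have hn0 := hK.n0_pos
  have hℓ1 : 1 ≤ ℓ := hn0.trans hℓ
  have hℓr : (1 : ℝ) ≤ ℓ := by exact_mod_cast hℓ1
  have hc0 := hK.c0_pos
  have hc1 := hK.c0_le
  have hα := hK.alpha_pos
  have hlog1 : 0 ≤ Real.log (2 / c0) := by
    apply Real.log_nonneg
    rw [le_div_iff₀ hc0]
    linarith
  have hlog2 : 0 ≤ Real.log ℓ := Real.log_nonneg hℓr
  have hlog3 : 0 ≤ Real.log q⁻¹ := Real.log_nonneg ((one_le_inv₀ hq).2 hq1)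
  have hb0 : 0 ≤ b := by rw [hb]; positivity
  have hcc : 0 ≤ (1 + D.α) * q := by positivity
  obtain ⟨g1, g2, g3, g4⟩ := given_G D.K (D.w h ω) hK.nonneg
  have hsuper : ∀ i j k : ℕ, i ≤ j → j ≤ k →
      (fun i j : ℕ => Real.log (G D.K (D.w h ω) (i * ℓ) (j * ℓ))) i j +
      (fun i j : ℕ => Real.log (G D.K (D.w h ω) (i * ℓ) (j * ℓ))) j k ≤
      (fun i j : ℕ => Real.log (G D.K (D.w h ω) (i * ℓ) (j * ℓ))) i k := by
    intro i j k hij hjk
    simp only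
    rcases hij.eq_or_lt with rfl | hij'
    · rw [g1, Real.log_one, zero_add]
    rcases hjk.eq_or_lt with rfl | hjk'
    · rw [g1 (j * ℓ), Real.log_one, add_zero]
    have p1 := (jE_Glow D c0 n0 hK (D.w h ω) ℓ hℓ i j hij').2
    have p2 := (jE_Glow D c0 n0 hK (D.w h ω) ℓ hℓ j k hjk').2
    rw [← Real.log_mul p1.ne' p2.ne']
    apply Real.log_le_log (mul_pos p1 p2)
    exact g4 _ _ _ (Nat.mul_le_mul_right _ hij) (Nat.mul_le_mul_right _ hjk)
  have hlow : ∀ i j : ℕ, i ≤ j → -(b + (1 + D.α) * q * ((j : ℝ) - i)) ≤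
      (fun i j : ℕ => Real.log (G D.K (D.w h ω) (i * ℓ) (j * ℓ))) i j := by
    intro i j hij
    simp only
    rcases hij.eq_or_lt with rfl | hij'
    · rw [g1, Real.log_one]
      simp only [sub_self, mul_zero, add_zero]
      linarith
    obtain ⟨p1, p2⟩ := jE_Glow D c0 n0 hK (D.w h ω) ℓ hℓ i j hij'
    have hr1 : (1 : ℝ) ≤ ((j - i : ℕ) : ℝ) := by exact_mod_cast (by omega : 1 ≤ j - i)
    have hrc : ((j - i : ℕ) : ℝ) = (j : ℝ) - i := Nat.cast_sub hij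
    set r : ℝ := ((j - i : ℕ) : ℝ) with hr
    rw [← hrc]
    have hr0 : 0 < r := by linarith
    have hℓ0 : (0 : ℝ) < ℓ := by linarith
    have p3 : Real.log (c0 / 2 * (r * ℓ) ^ (-(1 + D.α))) ≤
        Real.log (G D.K (D.w h ω) (i * ℓ) (j * ℓ)) := by
      apply Real.log_le_log _ p1
      positivity
    have p4 : Real.log (c0 / 2 * (r * ℓ) ^ (-(1 + D.α))) =
        -(Real.log (2 / c0) + (1 + D.α) * (Real.log ℓ + Real.log r)) := by
      rw [Real.log_mul (by positivity) (by positivity), Real.log_rpow (by positivity),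
        Real.log_mul hr0.ne' hℓ0.ne']
      have : Real.log (c0 / 2) = - Real.log (2 / c0) := by
        rw [← Real.log_inv, inv_div]
      rw [this]
      ring
    rw [p4] at p3
    refine le_trans ?_ p3
    have p5 : Real.log r ≤ Real.log q⁻¹ + q * r := by
      have h1 := Real.log_le_sub_one_of_pos (mul_pos hq hr0)
      rw [Real.log_mul hq.ne' hr0.ne'] at h1
      rw [Real.log_inv]
      linarith
    have p6 := mul_le_mul_of_nonneg_left p5 (by linarith : 0 ≤ 1 + D.α)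
    rw [hb]
    nlinarith
  have hst := given_strat (fun i j : ℕ => Real.log (G D.K (D.w h ω) (i * ℓ) (j * ℓ))) b
    ((1 + D.α) * q) hb0 hcc hsuper hlow Q
  refine le_trans ?_ (hst.trans ?_)
  · exact le_refl _
  · simp only [Nat.zero_mul, zero_mul]
    have p2 := (jE_Glow D c0 n0 hK (D.w h ω) ℓ hℓ 0 Q (by omega)).2
    rw [Nat.zero_mul] at p2
    exact Real.log_le_log p2 (given_Z D h ω (Q * ℓ)).1

theorem jE_meas (D : Data) (h : ℝ) (a b : ℕ) : Measurable (D.lG h a b) :=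
  Real.measurable_log.comp (given_meas D h a b).1

theorem jE_shift (D : Data) (h : ℝ) (k ℓ : ℕ) (b : ℝ) :
    ∫ ω, max (D.lG h k (k + ℓ) ω - b) 0 ∂D.P = ∫ ω, max (D.lG h 0 ℓ ω - b) 0 ∂D.P := by
  have hmp := given_stat D.ν k
  have hm : Measurable (fun ω : ℕ → ℝ => max (D.lG h 0 ℓ ω - b) 0) :=
    ((jE_meas D h 0 ℓ).sub_const b).max measurable_const
  have h1 : ∀ ω : ℕ → ℝ, D.lG h 0 ℓ (fun n => ω (n + k)) = D.lG h k (k + ℓ) ω := by
    intro ω
    unfold Data.lG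
    have := given_loc.1 D.K (D.w h ω) k 0 ℓ
    rw [Nat.zero_add, Nat.add_comm ℓ k] at this
    rw [← this]
    rfl
  have h2 : ∫ ω, max (D.lG h 0 ℓ ω - b) 0 ∂(disorder D.ν) =
      ∫ ω, max (D.lG h 0 ℓ (fun n => ω (n + k)) - b) 0 ∂(disorder D.ν) := by
    conv_lhs => rw [← hmp.map_eq]
    rw [integral_map hmp.measurable.aemeasurable hm.aestronglyMeasurable]
  unfold Data.P
  rw [h2]
  simp only [h1]


theorem J_strE : St_strE := by
  intro D c0 n0 hK h hh ℓ hℓ q hq hq1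
  obtain ⟨b, hb⟩ : ∃ b, b = Real.log (2 / c0) + (1 + D.α) * (Real.log ℓ + Real.log q⁻¹) :=
    ⟨_, rfl⟩
  rw [← hb]
  have hn0 := hK.n0_pos
  have hℓ1 : 1 ≤ ℓ := hn0.trans hℓ
  have hℓr : (1 : ℝ) ≤ ℓ := by exact_mod_cast hℓ1
  obtain ⟨E, hE⟩ : ∃ E, E = ∫ ω, max (D.lG h 0 ℓ ω - b) 0 ∂D.P := ⟨_, rfl⟩
  rw [← hE]
  have hint : ∀ i : ℕ, Integrable (fun ω => max (D.lG h (i * ℓ) ((i + 1) * ℓ) ω - b) 0) D.P := by
    intro i
    have h1 : i * ℓ + n0 ≤ (i + 1) * ℓ := by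
      rw [Nat.add_mul, Nat.one_mul]; omega
    have h2 := (given_int D c0 n0 hK h hh).2.1 (i * ℓ) ((i + 1) * ℓ) h1
    exact (h2.sub (integrable_const b)).sup (integrable_const 0)
  have hblock : ∀ i : ℕ, ∫ ω, max (D.lG h (i * ℓ) ((i + 1) * ℓ) ω - b) 0 ∂D.P = E := by
    intro i
    have e : (i + 1) * ℓ = i * ℓ + ℓ := by ring
    rw [hE, e]
    exact jE_shift D h (i * ℓ) ℓ b
  have key : ∀ Q : ℕ, 1 ≤ Q →
      E - b / Q - (1 + D.α) * q ≤ ℓ * feN D.κ D.ν D.lam h (Q * ℓ) := by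
    intro Q hQ
    have hQr : (0 : ℝ) < Q := by exact_mod_cast hQ
    have hQℓ : n0 ≤ Q * ℓ := hℓ.trans (Nat.le_mul_of_pos_left _ hQ)
    have hZint := (given_int D c0 n0 hK h hh).2.2 (Q * ℓ) hQℓ
    have hsumint : Integrable (fun ω => ∑ i ∈ Finset.range Q,
        max (D.lG h (i * ℓ) ((i + 1) * ℓ) ω - b) 0) D.P :=
      integrable_finsetSum _ (fun i _ => hint i)
    have hmono : ∫ ω, (∑ i ∈ Finset.range Q, max (D.lG h (i * ℓ) ((i + 1) * ℓ) ω - b) 0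
        - b - (1 + D.α) * q * Q) ∂D.P ≤ ∫ ω, Real.log (Z D.κ D.lam h (Q * ℓ) ω) ∂D.P := by
      apply integral_mono _ hZint
      · intro ω
        exact jE_point D c0 n0 hK h ω ℓ hℓ q hq hq1 b hb Q hQ
      · exact (hsumint.sub (integrable_const b)).sub (integrable_const _)
    have hcomp : ∫ ω, (∑ i ∈ Finset.range Q, max (D.lG h (i * ℓ) ((i + 1) * ℓ) ω - b) 0
        - b - (1 + D.α) * q * Q) ∂D.P = Q * E - b - (1 + D.α) * q * Q := by
      have hs2 : Integrable (fun ω => ∑ i ∈ Finset.range Q,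
        max (D.lG h (i * ℓ) ((i + 1) * ℓ) ω - b) 0 - b) D.P := hsumint.sub (integrable_const b)
      rw [integral_sub hs2 (integrable_const _),
        integral_sub hsumint (integrable_const b), integral_finsetSum _ (fun i _ => hint i)]
      simp [hblock]
    rw [hcomp] at hmono
    have hfe : ∫ ω, Real.log (Z D.κ D.lam h (Q * ℓ) ω) ∂D.P =
        Q * (ℓ * feN D.κ D.ν D.lam h (Q * ℓ)) := by
      unfold feN Data.P
      push_cast
      field_simp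
    rw [hfe] at hmono
    have e1 : E - b / Q - (1 + D.α) * q = (Q * E - b - (1 + D.α) * q * Q) / Q := by
      field_simp
    rw [e1, div_le_iff₀ hQr]
    linarith
  have hlim1 : Tendsto (fun Q : ℕ => E - b / Q - (1 + D.α) * q) atTop
      (𝓝 (E - 0 - (1 + D.α) * q)) :=
    (tendsto_const_nhds.sub (tendsto_const_div_atTop_nhds_zero_nat b)).sub tendsto_const_nhds
  have hlim2 : Tendsto (fun Q : ℕ => ℓ * feN D.κ D.ν D.lam h (Q * ℓ)) atTop
      (𝓝 (ℓ * D.f h)) := by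
    have h1 : Tendsto (fun Q : ℕ => Q * ℓ) atTop atTop :=
      tendsto_id.atTop_mul_const' (by omega)
    exact ((given_fe D h hh).1.comp h1).const_mul _
  have := le_of_tendsto_of_tendsto hlim1 hlim2 (by
    filter_upwards [eventually_ge_atTop 1] with Q hQ
    exact key Q hQ)
  linarith


end M_strE
end Cop764
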