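import Pool.Agent.Helper764.CopDefs
import Pool.Agent.Helper764.Cop_strE
import Pool.Agent.Helper764.Cop_FG
import Pool.Agent.Helper764.Cop_G
import Pool.Agent.Helper764.Cop_fnn
import Pool.Agent.Helper764.Cop_indep
import Pool.Agent.Helper764.Cop_stat
import Pool.Agent.Helper764.Cop_int
import Pool.Agent.Helper764.Cop_loc
import Pool.Agent.Helper764.Cop_meas
import Pool.Agent.Helper764.Cop_K
import Pool.Agent.Helper764.Cop_Fbd

set_option autoImplicit false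
set_option maxHeartbeats 4000000
open MeasureTheory ProbabilityTheory Filter Topology
open scoped ENNReal NNReal

namespace Cop764
namespace M_T4

theorem given_strE : St_strE := M_strE.J_strE
theorem given_FG : St_FG := M_FG.J_FG
theorem given_G : St_G := M_G.J_G
theorem given_fnn : St_fnn := M_fnn.J_fnn
theorem given_indep : St_indep := M_indep.J_indep
theorem given_stat : St_stat := M_stat.J_stat
theorem given_int : St_int := M_int.J_int
theorem given_loc : St_loc := M_loc.J_loc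
theorem given_meas : St_meas := M_meas.J_meas
theorem given_K : St_K := M_K.J_K
theorem given_Fbd : St_Fbd := M_Fbd.J_Fbd




theorem t4_phi_pos (w : ℕ → ℝ) (i j : ℕ) : 0 < phi w i j := by unfold phi; positivity

theorem t4_G_pos {K : ℕ → ℝ} {α c0 : ℝ} {n0 : ℕ} (hK : KHyp K α c0 n0) (w : ℕ → ℝ) (j : ℕ)
    (hj : n0 ≤ j) : 0 < G K w 0 j := by
  have hn0 := hK.n0_pos
  have h1 := (given_G K w hK.nonneg).2.2.1 0 j (by omega)
  have h2 := hK.lower j hj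
  have h3 : 0 < K j := by
    refine lt_of_lt_of_le ?_ h2
    have : (0:ℝ) < j := by exact_mod_cast (by omega : 0 < j)
    have := hK.c0_pos
    positivity
  have h4 := t4_phi_pos w 0 j
  rw [Nat.sub_zero] at h1
  exact lt_of_lt_of_le (mul_pos h3 h4) h1

theorem t4_F_pos {K : ℕ → ℝ} {α c0 : ℝ} {n0 : ℕ} (hK : KHyp K α c0 n0) (w : ℕ → ℝ) (a b : ℕ)
    (hab : a ≤ b) : 0 < F K w a b :=
  lt_of_lt_of_le (t4_phi_pos w a b) (given_Fbd K w α c0 n0 hK a b hab).1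

theorem t4_det (D : Data) {c0 : ℝ} {n0 : ℕ} (hK : KHyp D.K D.α c0 n0) (h : ℝ) (ℓ : ℕ)
    (hℓ : 1 ≤ ℓ) (ω : ℕ → ℝ) :
    D.lF h n0 (ℓ + n0) ω ≤ 2 * Real.log c0⁻¹ + 2 * Real.log ((ℓ:ℝ) + 1) +
      2 * (1 + D.α) * Real.log ((ℓ:ℝ) + n0) +
      (|S (D.w h ω) 0 n0| + |S (D.w h ω) (ℓ + n0) (ℓ + 2 * n0)|) + D.lG h 0 (ℓ + 2 * n0) ω := by
  have h1 := given_FG D.K (D.w h ω) D.α c0 n0 hK n0 0 ℓ le_rfl (Nat.zero_le _)
  rw [Nat.zero_add, Nat.cast_zero, sub_zero] at h1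
  have hF := t4_F_pos hK (D.w h ω) n0 (ℓ + n0) (by omega)
  have hG := t4_G_pos hK (D.w h ω) (ℓ + 2 * n0) (by omega)
  have h2 := Real.log_le_log hF h1
  have hc : 0 < c0⁻¹ := inv_pos.2 hK.c0_pos
  have hl1 : (0:ℝ) < (ℓ:ℝ) + 1 := by positivity
  have hl2 : (0:ℝ) < (ℓ:ℝ) + n0 := by
    have : (0:ℝ) < ℓ := by exact_mod_cast (by omega : 0 < ℓ)
    positivity
  rw [Real.log_mul (by positivity) hG.ne', Real.log_mul (by positivity) (by positivity),
    Real.log_mul (by positivity) (by positivity), Real.log_mul (by positivity) (by positivity),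
    Real.log_pow, Real.log_pow, Real.log_rpow hl2, Real.log_exp] at h2
  unfold Data.lF Data.lG
  push_cast at h2
  linarith

theorem t4_R (D : Data) (m : ℕ) : ∃ R : ℝ, 0 ≤ R ∧
    1 / 2 ≤ (D.ν.real (Set.Icc (-R) R)) ^ m := by
  have h1 : Monotone (fun n : ℕ => Set.Icc (-(n:ℝ)) (n:ℝ)) := by
    intro a b hab
    have : (a:ℝ) ≤ b := by exact_mod_cast hab
    exact Set.Icc_subset_Icc (by linarith) this
  have h2 := tendsto_measure_iUnion_atTop (μ := D.ν) h1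
  have h3 : (⋃ n : ℕ, Set.Icc (-(n:ℝ)) (n:ℝ)) = Set.univ := by
    ext x
    simp only [Set.mem_iUnion, Set.mem_univ, iff_true]
    obtain ⟨n, hn⟩ := exists_nat_ge |x|
    exact ⟨n, abs_le.1 hn⟩
  rw [h3, measure_univ] at h2
  have h4 : Tendsto (fun n : ℕ => (D.ν.real (Set.Icc (-(n:ℝ)) (n:ℝ))) ^ m) atTop (𝓝 (1 ^ m)) := by
    refine Tendsto.pow ?_ m
    have h5 := (ENNReal.tendsto_toReal ENNReal.one_ne_top).comp h2
    rw [ENNReal.toReal_one] at h5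
    exact h5
  rw [one_pow] at h4
  obtain ⟨n, hn⟩ := (h4.eventually (lt_mem_nhds (by norm_num : (1:ℝ)/2 < 1))).exists
  exact ⟨n, by positivity, hn.le⟩

theorem t4_B (D : Data) (R : ℝ) (s : Finset ℕ) (m : ℕ) (hs : s.card ≤ m)
    (hR : 1 / 2 ≤ (D.ν.real (Set.Icc (-R) R)) ^ m) :
    1 / 2 ≤ D.P.real (Set.pi (s : Set ℕ) (fun _ => Set.Icc (-R) R)) := by
  have h1 : D.P (Set.pi (s : Set ℕ) (fun _ => Set.Icc (-R) R)) =
      ∏ i ∈ s, D.ν (Set.Icc (-R) R) := by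
    unfold Data.P disorder
    exact Measure.infinitePi_pi (fun _ : ℕ => D.ν) (fun _ _ => measurableSet_Icc)
  rw [measureReal_def, h1, Finset.prod_const, ENNReal.toReal_pow]
  refine hR.trans ?_
  exact pow_le_pow_of_le_one measureReal_nonneg measureReal_le_one hs

theorem t4_S (D : Data) (h H R : ℝ) (h0 : 0 ≤ h) (hH : h ≤ H) (hR : 0 ≤ R) (a m : ℕ) (ω : ℕ → ℝ)
    (hω : ∀ n ∈ Finset.Ioc a (a + m), |ω n| ≤ R) :
    |S (D.w h ω) a (a + m)| ≤ m * (2 * D.lam * (R + H)) := by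
  unfold S
  refine (Finset.abs_sum_le_sum_abs _ _).trans ?_
  have h1 : ∀ n ∈ Finset.Ioc a (a + m), |D.w h ω n| ≤ 2 * D.lam * (R + H) := by
    intro n hn
    unfold Data.w
    have hl := D.hlam
    rw [abs_mul, abs_mul, abs_of_pos hl]
    have h2 : |(-2:ℝ)| = 2 := by norm_num
    rw [h2]
    have h3 : |ω n + h| ≤ R + H := by
      refine (abs_add_le _ _).trans ?_
      rw [abs_of_nonneg h0]
      linarith [hω n hn]
    exact mul_le_mul_of_nonneg_left h3 (by positivity)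
  refine (Finset.sum_le_sum h1).trans ?_
  rw [Finset.sum_const, Nat.card_Ioc, nsmul_eq_mul]
  have : a + m - a = m := by omega
  rw [this]

theorem t4_main (D : Data) {c0 : ℝ} {n0 : ℕ} (hK : KHyp D.K D.α c0 n0) (H R : ℝ) (hR0 : 0 ≤ R)
    (hR : 1 / 2 ≤ (D.ν.real (Set.Icc (-R) R)) ^ (2 * n0)) (h : ℝ) (h0 : 0 ≤ h) (hH : h ≤ H)
    (ℓ : ℕ) (hℓ : 1 ≤ ℓ) (q : ℝ) (hq : 0 < q) (hq1 : q ≤ 1) (c b : ℝ)
    (hb : b = Real.log (2 / c0) + (1 + D.α) * (Real.log ((ℓ + 2 * n0 : ℕ) : ℝ) + Real.log q⁻¹))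
    (hc : c = 2 * Real.log c0⁻¹ + 2 * Real.log ((ℓ:ℝ) + 1) +
      2 * (1 + D.α) * Real.log ((ℓ:ℝ) + n0) + 2 * (n0 * (2 * D.lam * (R + H))) + b) :
    ∫ ω, max (D.lF h 0 ℓ ω - c) 0 ∂D.P ≤
      2 * (((ℓ + 2 * n0 : ℕ) : ℝ) * D.f h + (1 + D.α) * q) := by
  have hstr := given_strE D c0 n0 hK h h0 (ℓ + 2 * n0) (by omega) q hq hq1
  rw [← hb] at hstr
  have hint := given_int D c0 n0 hK h h0
  obtain ⟨s, hs⟩ : ∃ s : Finset ℕ, s = Finset.Ioc 0 n0 ∪ Finset.Ioc (ℓ + n0) (ℓ + 2 * n0) :=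
    ⟨_, rfl⟩
  have hcard : s.card ≤ 2 * n0 := by
    rw [hs]
    refine (Finset.card_union_le _ _).trans ?_
    rw [Nat.card_Ioc, Nat.card_Ioc]; omega
  obtain ⟨B, hB⟩ : ∃ B : Set (ℕ → ℝ), B = Set.pi (s : Set ℕ) (fun _ => Set.Icc (-R) R) := ⟨_, rfl⟩
  have hPB : 1 / 2 ≤ D.P.real B := by rw [hB]; exact t4_B D R s (2 * n0) hcard hR
  have hBm : MeasurableSet B := by
    rw [hB]
    exact MeasurableSet.pi (Finset.countable_toSet s) (fun _ _ => measurableSet_Icc)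
  have hlFm : ∀ a b, Measurable (D.lF h a b) := fun a b =>
    Real.measurable_log.comp (given_meas D h a b).2.1
  obtain ⟨g, hg⟩ : ∃ g : (ℕ → ℝ) → ℝ, g = Set.indicator B (fun _ => (1:ℝ)) := ⟨_, rfl⟩
  have hgm : Measurable g := by rw [hg]; exact measurable_const.indicator hBm
  obtain ⟨f2, hf2⟩ : ∃ f2 : (ℕ → ℝ) → ℝ, f2 = fun ω => max (D.lF h n0 (ℓ + n0) ω - c) 0 :=
    ⟨_, rfl⟩
  have hf2m : Measurable f2 := by
    rw [hf2]
    exact ((hlFm n0 (ℓ + n0)).sub_const c).max measurable_const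
  have hdisj : Disjoint s (Finset.Ioc n0 (ℓ + n0)) := by
    rw [hs, Finset.disjoint_left]
    intro x hx hx2
    rw [Finset.mem_union, Finset.mem_Ioc, Finset.mem_Ioc] at hx
    rw [Finset.mem_Ioc] at hx2
    omega
  have hgdep : ∀ ω ω' : ℕ → ℝ, (∀ n ∈ s, ω n = ω' n) → g ω = g ω' := by
    intro ω ω' hh
    have h1 : ω ∈ B ↔ ω' ∈ B := by
      rw [hB, Set.mem_pi, Set.mem_pi]
      constructor
      · intro h2 i hi
        rw [← hh i hi]; exact h2 i hi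
      · intro h2 i hi
        rw [hh i hi]; exact h2 i hi
    rw [hg]
    by_cases h2 : ω ∈ B
    · rw [Set.indicator_of_mem h2, Set.indicator_of_mem (h1.1 h2)]
    · rw [Set.indicator_of_notMem h2, Set.indicator_of_notMem (fun h3 => h2 (h1.2 h3))]
  have hf2dep : ∀ ω ω' : ℕ → ℝ, (∀ n ∈ Finset.Ioc n0 (ℓ + n0), ω n = ω' n) → f2 ω = f2 ω' := by
    intro ω ω' hh
    have h1 := (given_loc.2.2.2 D.K (D.w h ω) (D.w h ω') n0 (ℓ + n0) (by
      intro n hn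
      unfold Data.w
      rw [hh n hn])).2.1
    rw [hf2]
    simp only [Data.lF, h1]
  have hindep : IndepFun g f2 D.P :=
    given_indep D.ν s (Finset.Ioc n0 (ℓ + n0)) hdisj g f2 hgm hf2m hgdep hf2dep
  have hprod : ∫ ω, g ω * f2 ω ∂D.P = (∫ ω, g ω ∂D.P) * ∫ ω, f2 ω ∂D.P :=
    hindep.integral_fun_mul_eq_mul_integral hgm.aestronglyMeasurable hf2m.aestronglyMeasurable
  have hgint : ∫ ω, g ω ∂D.P = D.P.real B := by
    rw [hg, integral_indicator hBm]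
    simp
  have hf2nn : ∀ ω, 0 ≤ f2 ω := by intro ω; rw [hf2]; exact le_max_right _ _
  have hgnn : ∀ ω, 0 ≤ g ω := by
    intro ω; rw [hg]; exact Set.indicator_nonneg (fun _ _ => zero_le_one) ω
  have hint1 : Integrable (fun ω => max (D.lG h 0 (ℓ + 2 * n0) ω - b) 0) D.P :=
    ((hint.2.1 0 (ℓ + 2 * n0) (by omega)).sub (integrable_const b)).pos_part
  have hptw : ∀ ω, g ω * f2 ω ≤ max (D.lG h 0 (ℓ + 2 * n0) ω - b) 0 := by
    intro ω
    by_cases h2 : ω ∈ B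
    · rw [hg, Set.indicator_of_mem h2, one_mul, hf2]
      apply max_le_max _ le_rfl
      have h3 := t4_det D hK h ℓ hℓ ω
      have h4 : ∀ n ∈ s, |ω n| ≤ R := by
        intro n hn
        rw [hB, Set.mem_pi] at h2
        exact abs_le.2 (h2 n hn)
      have h5 := t4_S D h H R h0 hH hR0 0 n0 ω (by
        intro n hn
        rw [Nat.zero_add] at hn
        apply h4
        rw [hs]; exact Finset.mem_union_left _ hn)
      have h6 := t4_S D h H R h0 hH hR0 (ℓ + n0) n0 ω (by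
        intro n hn
        apply h4
        rw [hs]
        apply Finset.mem_union_right
        have : ℓ + n0 + n0 = ℓ + 2 * n0 := by omega
        rwa [this] at hn)
      have h7 : ℓ + n0 + n0 = ℓ + 2 * n0 := by omega
      rw [h7] at h6
      rw [Nat.zero_add] at h5
      rw [hc]
      linarith
    · rw [hg, Set.indicator_of_notMem h2, zero_mul]
      exact le_max_right _ _
  have hle : ∫ ω, g ω * f2 ω ∂D.P ≤ ∫ ω, max (D.lG h 0 (ℓ + 2 * n0) ω - b) 0 ∂D.P := by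
    refine integral_mono_of_nonneg ?_ hint1 ?_
    · exact Filter.Eventually.of_forall (fun ω => mul_nonneg (hgnn ω) (hf2nn ω))
    · exact Filter.Eventually.of_forall hptw
  have hf2int : 0 ≤ ∫ ω, f2 ω ∂D.P := integral_nonneg hf2nn
  have hhalf : (1 / 2) * ∫ ω, f2 ω ∂D.P ≤ ((ℓ + 2 * n0 : ℕ) : ℝ) * D.f h + (1 + D.α) * q := by
    have h1 : (1 / 2) * ∫ ω, f2 ω ∂D.P ≤ D.P.real B * ∫ ω, f2 ω ∂D.P :=
      mul_le_mul_of_nonneg_right hPB hf2int
    rw [hprod, hgint] at hle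
    exact (h1.trans hle).trans hstr
  -- stationarity
  have hshift : ∫ ω, f2 ω ∂D.P = ∫ ω, max (D.lF h 0 ℓ ω - c) 0 ∂D.P := by
    have hst := given_stat D.ν n0
    have h1 : ∫ ω, max (D.lF h 0 ℓ ω - c) 0 ∂D.P =
        ∫ ω, max (D.lF h 0 ℓ (fun n => ω (n + n0)) - c) 0 ∂D.P := by
      have h2 := integral_map (μ := disorder D.ν) (φ := fun (ω : ℕ → ℝ) (n : ℕ) => ω (n + n0))
        hst.measurable.aemeasurable (f := fun ω => max (D.lF h 0 ℓ ω - c) 0)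
        (((hlFm 0 ℓ).sub_const c).max measurable_const).aestronglyMeasurable
      rw [hst.map_eq] at h2
      exact h2
    rw [h1, hf2]
    congr 1
    funext ω
    have h3 := given_loc.2.1 D.K (D.w h ω) n0 0 ℓ
    rw [Nat.zero_add] at h3
    have h4 : D.lF h 0 ℓ (fun n => ω (n + n0)) = D.lF h n0 (ℓ + n0) ω := by
      unfold Data.lF
      rw [← h3]
      rfl
    rw [h4]
  rw [← hshift]
  linarith


theorem J_T4 : St_T4 := by
  intro D H
  obtain ⟨c0, n0, hK⟩ := given_K D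
  obtain ⟨R, hR0, hR⟩ := t4_R D (2 * n0)
  have hα := D.hα
  have hl := D.hlam
  have hc0 := hK.c0_pos
  have hc01 := hK.c0_le
  have hn0 := hK.n0_pos
  have hl1 : 0 ≤ Real.log c0⁻¹ := Real.log_nonneg (by
    rw [le_inv_comm₀ one_pos hc0]; simpa using hc01)
  have hl2 : 0 ≤ Real.log (2 / c0) := Real.log_nonneg (by
    rw [le_div_iff₀ hc0]; linarith)
  have hl3 : 0 ≤ Real.log 2 := Real.log_nonneg (by norm_num)
  have hn0r : (0:ℝ) ≤ n0 := by positivity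
  have hl4 : 0 ≤ Real.log (1 + (n0:ℝ)) := Real.log_nonneg (by linarith)
  have hl5 : 0 ≤ Real.log (1 + 2 * (n0:ℝ)) := Real.log_nonneg (by linarith)
  have hlH : 0 ≤ n0 * (2 * D.lam * (R + |H|)) := by positivity
  have hp1 : 0 ≤ (1 + D.α) * Real.log (1 + (n0:ℝ)) := by positivity
  have hp2 : 0 ≤ (1 + D.α) * Real.log (1 + 2 * (n0:ℝ)) := by positivity
  obtain ⟨T1, hT1⟩ : ∃ T1, T1 = 2 * Real.log c0⁻¹ + 2 * Real.log 2 +
      2 * ((1 + D.α) * Real.log (1 + (n0:ℝ))) + 2 * (n0 * (2 * D.lam * (R + |H|))) +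
      Real.log (2 / c0) + (1 + D.α) * Real.log (1 + 2 * (n0:ℝ)) := ⟨_, rfl⟩
  have hT1nn : 0 ≤ T1 := by rw [hT1]; linarith
  obtain ⟨C5, hC5⟩ : ∃ C5, C5 = T1 + (2 + 3 * (1 + D.α)) + 2 * (1 + 2 * (n0:ℝ)) := ⟨_, rfl⟩
  refine ⟨C5, by rw [hC5]; linarith, ?_⟩
  intro h h0 hH ℓ hℓ q hq hq1
  have hm := t4_main D hK |H| R hR0 hR h h0 (hH.trans (le_abs_self H)) ℓ hℓ q hq hq1 _ _ rfl rfl
  have hℓr : (1:ℝ) ≤ ℓ := by exact_mod_cast hℓ
  have hlogℓ : 0 ≤ Real.log ℓ := Real.log_nonneg hℓr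
  have hlogq : 0 ≤ Real.log q⁻¹ := Real.log_nonneg (by
    rw [le_inv_comm₀ one_pos hq]; simpa using hq1)
  have e1 : Real.log ((ℓ:ℝ) + 1) ≤ Real.log ℓ + Real.log 2 := by
    rw [← Real.log_mul (by positivity) (by norm_num)]
    exact Real.log_le_log (by positivity) (by linarith)
  have e2 : Real.log ((ℓ:ℝ) + n0) ≤ Real.log ℓ + Real.log (1 + (n0:ℝ)) := by
    rw [← Real.log_mul (by positivity) (by positivity)]
    exact Real.log_le_log (by positivity) (by nlinarith)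
  have e3 : Real.log ((ℓ + 2 * n0 : ℕ) : ℝ) ≤ Real.log ℓ + Real.log (1 + 2 * (n0:ℝ)) := by
    rw [← Real.log_mul (by positivity) (by positivity)]
    push_cast
    exact Real.log_le_log (by positivity) (by nlinarith)
  have hα1 : 0 ≤ 1 + D.α := by linarith
  have e2' := mul_le_mul_of_nonneg_left e2 hα1
  have e3' := mul_le_mul_of_nonneg_left e3 hα1
  obtain ⟨c, hc⟩ : ∃ c, c = 2 * Real.log c0⁻¹ + 2 * Real.log ((ℓ:ℝ) + 1) +
      2 * (1 + D.α) * Real.log ((ℓ:ℝ) + n0) + 2 * (n0 * (2 * D.lam * (R + |H|))) +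
      (Real.log (2 / c0) + (1 + D.α) * (Real.log ((ℓ + 2 * n0 : ℕ) : ℝ) + Real.log q⁻¹)) := ⟨_, rfl⟩
  rw [← hc] at hm
  have hcle : c ≤ C5 * (1 + Real.log ℓ + Real.log q⁻¹) := by
    have f1 : c ≤ T1 + (2 + 3 * (1 + D.α)) * Real.log ℓ + (1 + D.α) * Real.log q⁻¹ := by
      rw [hc, hT1]
      nlinarith
    have f2 : 0 ≤ T1 * Real.log ℓ := by positivity
    have f3 : 0 ≤ T1 * Real.log q⁻¹ := by positivity
    have f4 : 0 ≤ (n0:ℝ) * Real.log ℓ := by positivity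
    have f5 : 0 ≤ (n0:ℝ) * Real.log q⁻¹ := by positivity
    have f6 : 0 ≤ D.α * Real.log q⁻¹ := by positivity
    rw [hC5]
    nlinarith
  have hint := given_int D c0 n0 hK h h0
  have hi1 : Integrable (fun ω => max (D.lF h 0 ℓ ω - c) 0) D.P :=
    ((hint.1 0 ℓ (Nat.zero_le _)).sub (integrable_const c)).pos_part
  have hi2 : Integrable (fun ω => max (D.lF h 0 ℓ ω - C5 * (1 + Real.log ℓ + Real.log q⁻¹)) 0) D.P :=
    ((hint.1 0 ℓ (Nat.zero_le _)).sub (integrable_const _)).pos_part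
  have hmono : ∫ ω, max (D.lF h 0 ℓ ω - C5 * (1 + Real.log ℓ + Real.log q⁻¹)) 0 ∂D.P ≤
      ∫ ω, max (D.lF h 0 ℓ ω - c) 0 ∂D.P := by
    refine integral_mono hi2 hi1 fun ω => ?_
    exact max_le_max (by linarith) le_rfl
  have hf := given_fnn D h h0
  refine (hmono.trans hm).trans ?_
  push_cast
  have g1 : 0 ≤ ((ℓ:ℝ) - 1) * (n0 * D.f h) := by
    have : 0 ≤ (ℓ:ℝ) - 1 := by linarith
    positivity
  have g2 : 0 ≤ T1 * ((ℓ:ℝ) * D.f h) := by positivity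
  have g3 : 0 ≤ D.α * ((ℓ:ℝ) * D.f h) := by positivity
  have g4 : 0 ≤ (ℓ:ℝ) * D.f h := by positivity
  have g5 : 0 ≤ T1 * q := by positivity
  have g6 : 0 ≤ D.α * q := by positivity
  have g7 : 0 ≤ (n0:ℝ) * q := by positivity
  rw [hC5]
  nlinarith


end M_T4
end Cop764
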