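import Pool.Agent.Helper764.CopDefs

set_option autoImplicit false
set_option maxHeartbeats 4000000
open MeasureTheory ProbabilityTheory Filter Topology
open scoped ENNReal NNReal

namespace Cop764
namespace M_Zmono





theorem zmono_tau_mono (x : ℕ → ℕ × Bool) : Monotone (tau x) := by
  apply monotone_nat_of_le_succ
  intro n
  unfold tau
  rw [Finset.sum_range_succ]
  exact Nat.le_add_right _ _

theorem zmono_Delta_nonneg (x : ℕ → ℕ × Bool) (n : ℕ) : 0 ≤ Delta x n := by
  unfold Delta
  refine Finset.sum_nonneg fun j _ => ?_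
  split_ifs <;> norm_num

theorem zmono_Delta_le (x : ℕ → ℕ × Bool) (n : ℕ) : Delta x n ≤ 1 := by
  unfold Delta
  rw [Finset.sum_boole]
  have h : ((Finset.range n).filter
      (fun j => tau x j < n ∧ n ≤ tau x (j + 1) ∧ (x j).2 = true)).card ≤ 1 := by
    rw [Finset.card_le_one]
    intro a ha b hb
    obtain ⟨_, ha1, ha2, _⟩ := Finset.mem_filter.1 ha
    obtain ⟨_, hb1, hb2, _⟩ := Finset.mem_filter.1 hb
    rcases lt_trichotomy a b with h | h | h
    · have := zmono_tau_mono x (show a + 1 ≤ b from h)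
      omega
    · exact h
    · have := zmono_tau_mono x (show b + 1 ≤ a from h)
      omega
  exact_mod_cast h

theorem zmono_meas_tau (j : ℕ) : Measurable (fun x : ℕ → ℕ × Bool => tau x j) := by
  unfold tau
  exact Finset.measurable_sum _ (fun i _ => measurable_fst.comp (measurable_pi_apply i))

theorem zmono_meas_Delta (n : ℕ) : Measurable (fun x : ℕ → ℕ × Bool => Delta x n) := by
  unfold Delta
  refine Finset.measurable_sum _ (fun j _ => ?_)
  refine Measurable.ite ?_ measurable_const measurable_const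
  have h1 : MeasurableSet {x : ℕ → ℕ × Bool | tau x j < n} :=
    (zmono_meas_tau j) (MeasurableSet.of_discrete (s := {k | k < n}))
  have h2 : MeasurableSet {x : ℕ → ℕ × Bool | n ≤ tau x (j + 1)} :=
    (zmono_meas_tau (j + 1)) (MeasurableSet.of_discrete (s := {k | n ≤ k}))
  have h3 : MeasurableSet {x : ℕ → ℕ × Bool | (x j).2 = true} :=
    (measurable_snd.comp (measurable_pi_apply j)) (MeasurableSet.of_discrete (s := {b | b = true}))
  exact h1.inter (h2.inter h3)

theorem zmono_int (κ : PMF ℕ) (lam : ℝ) (hl : 0 ≤ lam) (ω : ℕ → ℝ) (N : ℕ) (h : ℝ) :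
    Integrable (fun x => Real.exp (-2 * lam * ∑ n ∈ Finset.Icc 1 N, Delta x n * (ω n + h)))
      (pathMeasure κ) := by
  refine Integrable.of_bound (C := Real.exp (2 * lam * ∑ n ∈ Finset.Icc 1 N, |ω n + h|)) ?_ ?_
  · refine Measurable.aestronglyMeasurable ?_
    refine Real.measurable_exp.comp (Measurable.const_mul ?_ _)
    exact Finset.measurable_sum _ (fun n _ => (zmono_meas_Delta n).mul_const _)
  · refine Filter.Eventually.of_forall fun x => ?_
    rw [Real.norm_eq_abs, abs_of_pos (Real.exp_pos _)]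
    apply Real.exp_le_exp.2
    have h1 : -∑ n ∈ Finset.Icc 1 N, Delta x n * (ω n + h) ≤
        ∑ n ∈ Finset.Icc 1 N, |ω n + h| := by
      rw [← Finset.sum_neg_distrib]
      refine Finset.sum_le_sum fun n _ => ?_
      have h2 := zmono_Delta_nonneg x n
      have h3 := zmono_Delta_le x n
      have h4 := neg_abs_le (ω n + h)
      have h5 := abs_nonneg (ω n + h)
      nlinarith
    nlinarith


theorem J_Zmono : St_Zmono := by
  intro κ lam hl ω N h h' hh
  have i1 := zmono_int κ lam hl ω N h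
  have i2 := zmono_int κ lam hl ω N h'
  have hsum : ∀ x : ℕ → ℕ × Bool, ∑ n ∈ Finset.Icc 1 N, Delta x n * (ω n + h') -
      ∑ n ∈ Finset.Icc 1 N, Delta x n * (ω n + h) =
      (h' - h) * ∑ n ∈ Finset.Icc 1 N, Delta x n := by
    intro x
    rw [← Finset.sum_sub_distrib, Finset.mul_sum]
    refine Finset.sum_congr rfl fun n _ => ?_
    ring
  have hD0 : ∀ x : ℕ → ℕ × Bool, 0 ≤ ∑ n ∈ Finset.Icc 1 N, Delta x n := fun x =>
    Finset.sum_nonneg fun n _ => zmono_Delta_nonneg x n
  have hD1 : ∀ x : ℕ → ℕ × Bool, ∑ n ∈ Finset.Icc 1 N, Delta x n ≤ N := by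
    intro x
    refine (Finset.sum_le_sum fun n _ => zmono_Delta_le x n).trans ?_
    simp
  refine ⟨?_, ?_, ?_⟩
  · unfold Z
    exact integral_exp_pos i2
  · unfold Z
    refine integral_mono i2 i1 fun x => ?_
    apply Real.exp_le_exp.2
    have h1 := hsum x
    have h2 := hD0 x
    have h3 : 0 ≤ (h' - h) * ∑ n ∈ Finset.Icc 1 N, Delta x n :=
      mul_nonneg (by linarith) h2
    nlinarith
  · unfold Z
    rw [← integral_const_mul]
    refine integral_mono i1 (i2.const_mul _) fun x => ?_
    show Real.exp (-2 * lam * ∑ n ∈ Finset.Icc 1 N, Delta x n * (ω n + h)) ≤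
      Real.exp (2 * lam * (h' - h) * N) *
        Real.exp (-2 * lam * ∑ n ∈ Finset.Icc 1 N, Delta x n * (ω n + h'))
    rw [← Real.exp_add]
    apply Real.exp_le_exp.2
    have h1 := hsum x
    have h2 := hD1 x
    have h3 : (h' - h) * ∑ n ∈ Finset.Icc 1 N, Delta x n ≤ (h' - h) * N :=
      mul_le_mul_of_nonneg_left h2 (by linarith)
    have h4 : lam * (∑ n ∈ Finset.Icc 1 N, Delta x n * (ω n + h') -
      ∑ n ∈ Finset.Icc 1 N, Delta x n * (ω n + h)) ≤ lam * ((h' - h) * N) := by
      rw [h1]
      exact mul_le_mul_of_nonneg_left h3 hl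
    linarith


end M_Zmono
end Cop764
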