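import Pool.Agent.Helper764.CopDefs

set_option autoImplicit false
set_option maxHeartbeats 4000000
open MeasureTheory ProbabilityTheory Filter Topology
open scoped ENNReal NNReal

namespace Cop764
namespace M_absS





theorem J_absS_iind (D : Data) : iIndepFun (fun (i : ℕ) (ω : ℕ → ℝ) => ω i) D.P := by
  unfold Data.P disorder
  exact iIndepFun_infinitePi (P := fun _ : ℕ => D.ν) (X := fun _ (x : ℝ) => x)
    (fun i => measurable_id)

theorem J_absS_map (D : Data) (i : ℕ) :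
    Measure.map (fun ω : ℕ → ℝ => ω i) D.P = D.ν := by
  unfold Data.P disorder
  exact Measure.infinitePi_map_eval (fun _ : ℕ => D.ν) i

theorem J_absS_int1 (D : Data) (i : ℕ) (f : ℝ → ℝ) (hf : Measurable f) :
    ∫ ω : ℕ → ℝ, f (ω i) ∂D.P = ∫ x, f x ∂D.ν := by
  rw [← J_absS_map D i]
  exact (integral_map (measurable_pi_apply i).aemeasurable hf.aestronglyMeasurable).symm

theorem J_absS_int2 (D : Data) (i : ℕ) (f : ℝ → ℝ) (hf : Integrable f D.ν) :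
    Integrable (fun ω : ℕ → ℝ => f (ω i)) D.P := by
  rw [← J_absS_map D i] at hf
  exact hf.comp_measurable (measurable_pi_apply i)

theorem J_absS_powx (D : Data) (k : ℕ) : Integrable (fun x : ℝ => x ^ k) D.ν :=
  integrable_pow_of_integrable_exp_mul (X := fun x : ℝ => x) (t := 1) one_ne_zero
    (D.expm 1) (D.expm (-1)) k

theorem J_absS_expT (D : Data) (n : ℕ) (t : ℝ) :
    Integrable (fun ω : ℕ → ℝ => Real.exp (t * ∑ i ∈ Finset.Ioc 0 n, ω i)) D.P := by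
  have h := (J_absS_iind D).integrable_exp_mul_sum (t := t) (s := Finset.Ioc 0 n)
    (fun i => measurable_pi_apply i)
    (fun i _ => J_absS_int2 D i (fun x => Real.exp (t * x)) (D.expm t))
  simpa [Finset.sum_apply] using h

theorem J_absS_powT (D : Data) (n k : ℕ) :
    Integrable (fun ω : ℕ → ℝ => (∑ i ∈ Finset.Ioc 0 n, ω i) ^ k) D.P :=
  integrable_pow_of_integrable_exp_mul (X := fun ω : ℕ → ℝ => ∑ i ∈ Finset.Ioc 0 n, ω i)
    (t := 1) one_ne_zero (J_absS_expT D n 1) (J_absS_expT D n (-1)) k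

theorem J_absS_ind (D : Data) (n k m : ℕ) :
    IndepFun (fun ω : ℕ → ℝ => (∑ i ∈ Finset.Ioc 0 n, ω i) ^ k)
      (fun ω : ℕ → ℝ => (ω (n+1)) ^ m) D.P := by
  have h := (J_absS_iind D).indepFun_finsetSum_of_notMem (s := Finset.Ioc 0 n) (i := n+1)
    (fun i => measurable_pi_apply i) (by simp)
  have h2 := h.comp (φ := fun x : ℝ => x ^ k) (ψ := fun x : ℝ => x ^ m)
    (by fun_prop) (by fun_prop)
  convert! h2 using 1
  funext ω
  simp [Finset.sum_apply]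

theorem J_absS_mulint (D : Data) (n k m : ℕ) :
    Integrable (fun ω : ℕ → ℝ => (∑ i ∈ Finset.Ioc 0 n, ω i) ^ k * (ω (n+1)) ^ m) D.P :=
  (J_absS_ind D n k m).integrable_mul (J_absS_powT D n k)
    (J_absS_int2 D (n+1) (fun x => x ^ m) (J_absS_powx D m))

theorem J_absS_muleq (D : Data) (n k m : ℕ) :
    ∫ ω : ℕ → ℝ, (∑ i ∈ Finset.Ioc 0 n, ω i) ^ k * (ω (n+1)) ^ m ∂D.P =
      (∫ ω : ℕ → ℝ, (∑ i ∈ Finset.Ioc 0 n, ω i) ^ k ∂D.P) * ∫ x, x ^ m ∂D.ν := by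
  rw [(J_absS_ind D n k m).integral_fun_mul_eq_mul_integral
    (J_absS_powT D n k).aestronglyMeasurable
    (J_absS_int2 D (n+1) (fun x => x ^ m) (J_absS_powx D m)).aestronglyMeasurable]
  rw [J_absS_int1 D (n+1) (fun x => x ^ m) (by fun_prop)]

theorem J_absS_T1 (D : Data) (n : ℕ) :
    ∫ ω : ℕ → ℝ, (∑ i ∈ Finset.Ioc 0 n, ω i) ∂D.P = 0 := by
  rw [integral_finsetSum]
  · apply Finset.sum_eq_zero
    intro i _
    rw [J_absS_int1 D i (fun x => x) measurable_id]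
    exact D.mean
  · intro i _
    have := J_absS_int2 D i (fun x => x ^ 1) (J_absS_powx D 1)
    simpa using this

theorem J_absS_int3 {α : Type*} [MeasurableSpace α] {μ : Measure α} {f1 f2 f3 : α → ℝ}
    (h1 : Integrable f1 μ) (h2 : Integrable f2 μ) (h3 : Integrable f3 μ) :
    ∫ x, (f1 x + (f2 x + f3 x)) ∂μ = ∫ x, f1 x ∂μ + (∫ x, f2 x ∂μ + ∫ x, f3 x ∂μ) := by
  rw [← integral_add h2 h3]
  exact integral_add h1 (h2.add h3)

theorem J_absS_int5 {α : Type*} [MeasurableSpace α] {μ : Measure α} {f1 f2 f3 f4 f5 : α → ℝ}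
    (h1 : Integrable f1 μ) (h2 : Integrable f2 μ) (h3 : Integrable f3 μ) (h4 : Integrable f4 μ)
    (h5 : Integrable f5 μ) :
    ∫ x, (f1 x + (f2 x + (f3 x + (f4 x + f5 x)))) ∂μ =
      ∫ x, f1 x ∂μ + (∫ x, f2 x ∂μ + (∫ x, f3 x ∂μ + (∫ x, f4 x ∂μ + ∫ x, f5 x ∂μ))) := by
  rw [← J_absS_int3 h3 h4 h5]
  exact J_absS_int3 h1 h2 (h3.add (h4.add h5))

theorem J_absS_T2 (D : Data) (n : ℕ) :
    ∫ ω : ℕ → ℝ, (∑ i ∈ Finset.Ioc 0 n, ω i) ^ 2 ∂D.P = n := by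
  induction n with
  | zero => simp
  | succ n ih =>
    have h1 : ∀ ω : ℕ → ℝ, (∑ i ∈ Finset.Ioc 0 (n+1), ω i) ^ 2 =
        (∑ i ∈ Finset.Ioc 0 n, ω i) ^ 2 * (ω (n+1)) ^ 0 +
        (2 * ((∑ i ∈ Finset.Ioc 0 n, ω i) ^ 1 * (ω (n+1)) ^ 1) +
        (∑ i ∈ Finset.Ioc 0 n, ω i) ^ 0 * (ω (n+1)) ^ 2) := by
      intro ω
      rw [Finset.sum_Ioc_succ_top (Nat.zero_le n)]
      ring
    simp_rw [h1]
    rw [J_absS_int3 (J_absS_mulint D n 2 0) ((J_absS_mulint D n 1 1).const_mul 2)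
      (J_absS_mulint D n 0 2), integral_const_mul, J_absS_muleq, J_absS_muleq, J_absS_muleq, ih]
    simp [D.mean, D.var]

theorem J_absS_T4 (D : Data) (n : ℕ) :
    ∫ ω : ℕ → ℝ, (∑ i ∈ Finset.Ioc 0 n, ω i) ^ 4 ∂D.P ≤ (∫ x, x ^ 4 ∂D.ν + 3) * (n:ℝ) ^ 2 := by
  have hM : 0 ≤ ∫ x, x ^ 4 ∂D.ν := integral_nonneg fun x => by positivity
  induction n with
  | zero => simp
  | succ n ih =>
    have h1 : ∀ ω : ℕ → ℝ, (∑ i ∈ Finset.Ioc 0 (n+1), ω i) ^ 4 =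
        (∑ i ∈ Finset.Ioc 0 n, ω i) ^ 4 * (ω (n+1)) ^ 0 +
        (4 * ((∑ i ∈ Finset.Ioc 0 n, ω i) ^ 3 * (ω (n+1)) ^ 1) +
        (6 * ((∑ i ∈ Finset.Ioc 0 n, ω i) ^ 2 * (ω (n+1)) ^ 2) +
        (4 * ((∑ i ∈ Finset.Ioc 0 n, ω i) ^ 1 * (ω (n+1)) ^ 3) +
        (∑ i ∈ Finset.Ioc 0 n, ω i) ^ 0 * (ω (n+1)) ^ 4))) := by
      intro ω
      rw [Finset.sum_Ioc_succ_top (Nat.zero_le n)]
      ring
    simp_rw [h1]
    have i1 := J_absS_mulint D n 4 0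
    have i2 := (J_absS_mulint D n 3 1).const_mul 4
    have i3 := (J_absS_mulint D n 2 2).const_mul 6
    have i4 := (J_absS_mulint D n 1 3).const_mul 4
    have i5 := J_absS_mulint D n 0 4
    rw [J_absS_int5 i1 i2 i3 i4 i5,
      integral_const_mul, integral_const_mul, integral_const_mul,
      J_absS_muleq, J_absS_muleq, J_absS_muleq, J_absS_muleq, J_absS_muleq, J_absS_T2]
    have hT1 := J_absS_T1 D n
    simp only [pow_zero, pow_one, D.mean, D.var, hT1, integral_const, probReal_univ, smul_eq_mul,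
      mul_one, mul_zero, zero_mul, zero_add, one_mul]
    push_cast
    nlinarith [ih, hM, (Nat.cast_nonneg n : (0:ℝ) ≤ n), mul_nonneg hM (Nat.cast_nonneg n : (0:ℝ) ≤ n)]

theorem J_absS_elem (x t : ℝ) (ht : 0 < t) : x ^ 2 / t - x ^ 4 / t ^ 3 ≤ |x| := by
  have h1 : ∀ u : ℝ, 0 ≤ u → u ^ 2 ≤ u + u ^ 4 := by
    intro u hu
    nlinarith [mul_nonneg hu (mul_nonneg hu (sq_nonneg (u - 1))), mul_nonneg hu (sq_nonneg (2*u-1))]
  have h2 := h1 (|x| / t) (by positivity)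
  have h3 : x ^ 2 = |x| ^ 2 := (sq_abs x).symm
  have h4 : x ^ 4 = |x| ^ 4 := by rw [show (4:ℕ) = 2 * 2 from rfl, pow_mul, pow_mul, sq_abs]
  rw [h3, h4]
  have h5 : t * (|x| / t) ^ 2 ≤ t * (|x| / t + (|x| / t) ^ 4) := mul_le_mul_of_nonneg_left h2 ht.le
  have h6 : t * (|x| / t) ^ 2 = |x| ^ 2 / t := by field_simp
  have h7 : t * (|x| / t + (|x| / t) ^ 4) = |x| + |x| ^ 4 / t ^ 3 := by field_simp
  rw [h6, h7] at h5
  linarith

theorem J_absS_absT (D : Data) (n : ℕ) (hn : 1 ≤ n) :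
    (1 / (2 * Real.sqrt (2 * (∫ x, x ^ 4 ∂D.ν + 3)))) * Real.sqrt n ≤
      ∫ ω : ℕ → ℝ, |∑ i ∈ Finset.Ioc 0 n, ω i| ∂D.P := by
  have hM : 0 ≤ ∫ x, x ^ 4 ∂D.ν := integral_nonneg fun x => by positivity
  obtain ⟨B, hB⟩ : ∃ B, B = ∫ x, x ^ 4 ∂D.ν + 3 := ⟨_, rfl⟩
  have hB0 : 0 < B := by rw [hB]; positivity
  rw [← hB]
  obtain ⟨s, hs⟩ : ∃ s, s = Real.sqrt (2 * B) := ⟨_, rfl⟩
  have hs0 : 0 < s := by rw [hs]; positivity
  have hs2 : s ^ 2 = 2 * B := by rw [hs]; exact Real.sq_sqrt (by positivity)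
  rw [← hs]
  have hn0 : (0:ℝ) < n := by exact_mod_cast hn
  obtain ⟨r, hr⟩ : ∃ r, r = Real.sqrt n := ⟨_, rfl⟩
  have hr0 : 0 < r := by rw [hr]; positivity
  have hr2 : r ^ 2 = n := by rw [hr]; exact Real.sq_sqrt hn0.le
  rw [← hr]
  have ht : 0 < s * r := by positivity
  have hI : ∫ ω : ℕ → ℝ, ((∑ i ∈ Finset.Ioc 0 n, ω i) ^ 2 / (s * r)
      - (∑ i ∈ Finset.Ioc 0 n, ω i) ^ 4 / (s * r) ^ 3) ∂D.P ≤
      ∫ ω : ℕ → ℝ, |∑ i ∈ Finset.Ioc 0 n, ω i| ∂D.P := by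
    apply integral_mono
    · exact ((J_absS_powT D n 2).div_const _).sub ((J_absS_powT D n 4).div_const _)
    · have := (J_absS_powT D n 1).abs
      simpa using this
    · intro ω
      exact J_absS_elem _ _ ht
  rw [integral_sub ((J_absS_powT D n 2).div_const _) ((J_absS_powT D n 4).div_const _),
    integral_div, integral_div, J_absS_T2] at hI
  have hT4 := J_absS_T4 D n
  rw [← hB] at hT4
  have h1 : (∫ ω : ℕ → ℝ, (∑ i ∈ Finset.Ioc 0 n, ω i) ^ 4 ∂D.P) / (s * r) ^ 3 ≤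
      (B * (n:ℝ) ^ 2) / (s * r) ^ 3 := by
    apply div_le_div_of_nonneg_right hT4 (by positivity)
  refine le_trans ?_ hI
  have h2 : 1 / (2 * s) * r = (n:ℝ) / (s * r) - (B * (n:ℝ) ^ 2) / (s * r) ^ 3 := by
    rw [← hr2]
    have hBs : B = s ^ 2 / 2 := by linarith
    rw [hBs]
    field_simp
    ring
  rw [h2]
  linarith


theorem J_absS : St_absS := by
  intro D
  have hM : 0 ≤ ∫ x, x ^ 4 ∂D.ν := integral_nonneg fun x => by positivity
  have hl := D.hlam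
  refine ⟨D.lam * (1 / (2 * Real.sqrt (2 * (∫ x, x ^ 4 ∂D.ν + 3)))), by positivity, ?_⟩
  intro n hn
  have hS : ∀ ω : ℕ → ℝ, S (D.w 0 ω) 0 n = (-2 * D.lam) * ∑ i ∈ Finset.Ioc 0 n, ω i := by
    intro ω
    unfold S Data.w
    rw [Finset.mul_sum]
    apply Finset.sum_congr rfl
    intro i _
    ring
  have hT : Integrable (fun ω : ℕ → ℝ => ∑ i ∈ Finset.Ioc 0 n, ω i) D.P := by
    have := J_absS_powT D n 1
    simpa using this
  simp_rw [hS]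
  refine ⟨hT.const_mul _, ?_⟩
  have hmax : ∀ ω : ℕ → ℝ, max ((-2 * D.lam) * ∑ i ∈ Finset.Ioc 0 n, ω i) 0 =
      (-D.lam) * (∑ i ∈ Finset.Ioc 0 n, ω i) + D.lam * |∑ i ∈ Finset.Ioc 0 n, ω i| := by
    intro ω
    rcases le_total 0 (∑ i ∈ Finset.Ioc 0 n, ω i) with h | h
    · rw [abs_of_nonneg h, max_eq_right (by nlinarith [mul_nonneg hl.le h])]
      ring
    · rw [abs_of_nonpos h, max_eq_left (by nlinarith [mul_nonneg hl.le (neg_nonneg.mpr h)])]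
      ring
  simp_rw [hmax]
  rw [integral_add (hT.const_mul _) (hT.abs.const_mul _), integral_const_mul, integral_const_mul,
    J_absS_T1, mul_zero, zero_add, mul_assoc]
  exact mul_le_mul_of_nonneg_left (J_absS_absT D n hn) hl.le


end M_absS
end Cop764
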