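import Pool.Agent.Helper764.CopDefs
import Pool.Agent.Helper764.Cop_FG
import Pool.Agent.Helper764.Cop_G
import Pool.Agent.Helper764.Cop_indep
import Pool.Agent.Helper764.Cop_stat
import Pool.Agent.Helper764.Cop_loc
import Pool.Agent.Helper764.Cop_meas
import Pool.Agent.Helper764.Cop_R
import Pool.Agent.Helper764.Cop_K

set_option autoImplicit false
set_option maxHeartbeats 4000000
open MeasureTheory ProbabilityTheory Filter Topology
open scoped ENNReal NNReal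

namespace Cop764
namespace M_blockR

theorem given_FG : St_FG := M_FG.J_FG
theorem given_G : St_G := M_G.J_G
theorem given_indep : St_indep := M_indep.J_indep
theorem given_stat : St_stat := M_stat.J_stat
theorem given_loc : St_loc := M_loc.J_loc
theorem given_meas : St_meas := M_meas.J_meas
theorem given_R : St_R := M_R.J_R
theorem given_K : St_K := M_K.J_K




lemma aux_phi_pos (w : ℕ → ℝ) (i j : ℕ) : 0 < phi w i j := by unfold phi; positivity

lemma aux_expset (D : Data) : integrableExpSet (fun x : ℝ => x) D.ν = Set.univ := by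
  ext t; simp [integrableExpSet, D.expm]

lemma aux_int (D : Data) : Integrable (fun x : ℝ => x) D.ν :=
  integrable_of_mem_interior_integrableExpSet (by rw [aux_expset]; simp)

lemma aux_theta (D : Data) (h1 : ℝ) (hh : 0 < h1) : ∃ θ : ℝ, 0 < θ ∧
    mgf (fun x : ℝ => x) D.ν (-2 * D.lam * θ) * Real.exp (-2 * D.lam * θ * h1) ≤ 1 := by
  have hd := hasDerivAt_mgf (X := fun x : ℝ => x) (μ := D.ν) (t := 0)
    (by rw [aux_expset]; simp)
  have hm : ∫ x, x * Real.exp (0 * x) ∂D.ν = 0 := by simpa using D.mean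
  rw [hm] at hd
  have h2 : HasDerivAt (fun θ : ℝ => -2 * D.lam * θ) (-2 * D.lam) 0 := by
    simpa using (hasDerivAt_id (0:ℝ)).const_mul (-2 * D.lam)
  have h3 : HasDerivAt (fun θ : ℝ => mgf (fun x : ℝ => x) D.ν (-2 * D.lam * θ))
      (0 * (-2 * D.lam)) 0 := by
    have hd' : HasDerivAt (mgf (fun x : ℝ => x) D.ν) 0 (-2 * D.lam * 0) := by
      simpa using hd
    exact HasDerivAt.comp (0:ℝ) hd' h2
  have h4 : HasDerivAt (fun θ : ℝ => Real.exp (-2 * D.lam * θ * h1))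
      (Real.exp (-2 * D.lam * 0 * h1) * (-2 * D.lam * h1)) 0 :=
    (h2.mul_const h1).exp
  have h5 := h3.mul h4
  have h6 := h5.tendsto_slope_zero_right
  have hlam := D.hlam
  have hneg : (0 * (-2 * D.lam) * Real.exp (-2 * D.lam * 0 * h1) +
      mgf (fun x : ℝ => x) D.ν (-2 * D.lam * 0) *
        (Real.exp (-2 * D.lam * 0 * h1) * (-2 * D.lam * h1))) < 0 := by
    simp only [mul_zero, zero_mul, Real.exp_zero, mgf_zero, one_mul, zero_add]
    nlinarith [mul_pos hlam hh]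
  have h7 := h6.eventually (gt_mem_nhds hneg)
  have h8 : ∀ᶠ t : ℝ in 𝓝[>] 0, 0 < t := self_mem_nhdsWithin
  obtain ⟨t, ht1, ht2⟩ := (h7.and h8).exists
  refine ⟨t, ht2, ?_⟩
  have h9 : t⁻¹ • (mgf (fun x : ℝ => x) D.ν (-2 * D.lam * (0 + t)) *
      Real.exp (-2 * D.lam * (0 + t) * h1) -
      mgf (fun x : ℝ => x) D.ν (-2 * D.lam * 0) * Real.exp (-2 * D.lam * 0 * h1)) < 0 := ht1
  rw [smul_eq_mul] at h9
  simp only [zero_add, mul_zero, zero_mul, Real.exp_zero, mgf_zero, mul_one] at h9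
  by_contra hc
  push Not at hc
  have : 0 ≤ t⁻¹ * (mgf (fun x : ℝ => x) D.ν (-2 * D.lam * t) *
      Real.exp (-2 * D.lam * t * h1) - 1) :=
    mul_nonneg (inv_nonneg.mpr ht2.le) (by linarith)
  linarith

lemma aux_eval (D : Data) (n : ℕ) : MeasurePreserving (Function.eval n) D.P D.ν :=
  measurePreserving_eval_infinitePi (fun _ : ℕ => D.ν) n

lemma aux_integral (D : Data) (n : ℕ) (f : ℝ → ℝ) (hf : Integrable f D.ν) :
    ∫ ω : ℕ → ℝ, f (ω n) ∂D.P = ∫ x, f x ∂D.ν := by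
  have e := integral_map (μ := D.P) (φ := Function.eval n) (f := f)
    (aux_eval D n).measurable.aemeasurable
    (by rw [(aux_eval D n).map_eq]; exact hf.aestronglyMeasurable)
  rw [(aux_eval D n).map_eq] at e
  exact e.symm

lemma aux_tail (D : Data) (h1 θ : ℝ) (hθ : 0 < θ)
    (hθ1 : mgf (fun x : ℝ => x) D.ν (-2 * D.lam * θ) * Real.exp (-2 * D.lam * θ * h1) ≤ 1)
    (h : ℝ) (hh : h1 ≤ h) (L : ℕ) (x : ℝ) :
    D.P.real {ω | x ≤ S (D.w h ω) 0 L} ≤ Real.exp (-(θ * x)) := by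
  let Y : ℕ → (ℕ → ℝ) → ℝ := fun n ω => -2 * D.lam * (ω n + h)
  have hY : ∀ n, Measurable (Y n) := fun n => by fun_prop
  have hind : iIndepFun Y D.P :=
    iIndepFun_infinitePi (P := fun _ : ℕ => D.ν) (X := fun _ x => -2 * D.lam * (x + h))
      (fun _ => by fun_prop)
  have hXY : (fun ω => S (D.w h ω) 0 L) = ∑ n ∈ Finset.Ioc 0 L, Y n := by
    funext ω
    simp [S, Data.w, Y]
  have hexp : ∀ x : ℝ, Real.exp (θ * (-2 * D.lam * (x + h)))
      = Real.exp ((-2 * D.lam * θ) * x) * Real.exp (-2 * D.lam * θ * h) := by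
    intro x
    rw [← Real.exp_add]; congr 1; ring
  have hint1 : Integrable (fun x : ℝ => Real.exp (θ * (-2 * D.lam * (x + h)))) D.ν := by
    simp_rw [hexp]
    exact (D.expm _).mul_const _
  have hint : ∀ n, Integrable (fun ω => Real.exp (θ * Y n ω)) D.P := fun n =>
    (aux_eval D n).integrable_comp_of_integrable hint1
  have hmgf : ∀ n, mgf (Y n) D.P θ ≤ 1 := by
    intro n
    have e1 : mgf (Y n) D.P θ = ∫ x, Real.exp (θ * (-2 * D.lam * (x + h))) ∂D.ν :=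
      aux_integral D n _ hint1
    rw [e1]
    simp_rw [hexp]
    rw [integral_mul_const]
    refine le_trans ?_ hθ1
    have hp : 0 ≤ mgf (fun x : ℝ => x) D.ν (-2 * D.lam * θ) := mgf_nonneg
    have hlam := D.hlam
    refine mul_le_mul_of_nonneg_left ?_ hp
    apply Real.exp_le_exp.mpr
    nlinarith [mul_pos hlam hθ]
  have hI : Integrable (fun ω => Real.exp (θ * (fun ω => S (D.w h ω) 0 L) ω)) D.P := by
    rw [hXY]
    exact hind.integrable_exp_mul_sum hY (fun i _ => hint i)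
  refine (measure_ge_le_exp_mul_mgf x hθ.le hI).trans ?_
  rw [hXY, hind.mgf_sum hY, neg_mul]
  have : ∏ i ∈ Finset.Ioc 0 L, mgf (Y i) D.P θ ≤ 1 :=
    Finset.prod_le_one (fun i _ => mgf_nonneg) (fun i _ => hmgf i)
  calc Real.exp (-(θ * x)) * ∏ i ∈ Finset.Ioc 0 L, mgf (Y i) D.P θ
      ≤ Real.exp (-(θ * x)) * 1 := mul_le_mul_of_nonneg_left this (Real.exp_pos _).le
    _ = _ := mul_one _

lemma aux_buf (D : Data) (n0 : ℕ) (H : ℝ) : ∃ C4 : ℝ, 0 < C4 ∧ ∀ h, 0 ≤ h → h ≤ H → ∀ k j : ℕ,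
    j = k + n0 → D.P.real {ω | C4 < |S (D.w h ω) k j|} ≤ 1 / 4 := by
  set m1 := ∫ x, |x| ∂D.ν with hm1
  have hm1' : 0 ≤ m1 := integral_nonneg fun x => abs_nonneg x
  have hlam := D.hlam
  set Bd : ℝ := n0 * (2 * D.lam * (m1 + |H|)) with hBd
  have hBd0 : 0 ≤ Bd := by positivity
  refine ⟨4 * Bd + 1, by linarith, ?_⟩
  intro h hh hH k j hj
  have hi1 : Integrable (fun x : ℝ => |-2 * D.lam * (x + h)|) D.ν :=
    (((aux_int D).add (integrable_const h)).const_mul (-2 * D.lam)).abs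
  have hi2 : ∀ n, Integrable (fun ω : ℕ → ℝ => |-2 * D.lam * (ω n + h)|) D.P := fun n =>
    (aux_eval D n).integrable_comp_of_integrable hi1
  have hi3 : ∀ n, ∫ ω : ℕ → ℝ, |-2 * D.lam * (ω n + h)| ∂D.P ≤ 2 * D.lam * (m1 + |H|) := by
    intro n
    have e1 : ∫ ω : ℕ → ℝ, |-2 * D.lam * (ω n + h)| ∂D.P
        = ∫ x, |-2 * D.lam * (x + h)| ∂D.ν :=
      aux_integral D n _ hi1
    rw [e1]
    have e2 : ∫ x, |-2 * D.lam * (x + h)| ∂D.ν ≤ ∫ x, 2 * D.lam * (|x| + |H|) ∂D.ν := by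
      refine integral_mono hi1 (((aux_int D).abs.add (integrable_const _)).const_mul _) ?_
      intro x
      have e3 : |-2 * D.lam * (x + h)| = 2 * D.lam * |x + h| := by
        rw [abs_mul, abs_mul, abs_neg, abs_of_pos hlam]; norm_num
      show |-2 * D.lam * (x + h)| ≤ 2 * D.lam * (|x| + |H|)
      rw [e3]
      refine mul_le_mul_of_nonneg_left ?_ (by positivity)
      refine (abs_add_le _ _).trans ?_
      rw [abs_of_nonneg hh]
      linarith [le_abs_self H]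
    refine e2.trans (le_of_eq ?_)
    rw [integral_const_mul, integral_add (aux_int D).abs (integrable_const _)]
    simp [hm1]
  have hmeasS : Measurable (fun ω => S (D.w h ω) k j) := (given_meas D h k j).2.2
  have hb : ∀ ω, |S (D.w h ω) k j| ≤ ∑ n ∈ Finset.Ioc k j, |-2 * D.lam * (ω n + h)| := by
    intro ω
    exact Finset.abs_sum_le_sum_abs _ _
  have hsum : Integrable (fun ω : ℕ → ℝ => ∑ n ∈ Finset.Ioc k j, |-2 * D.lam * (ω n + h)|) D.P :=
    integrable_finsetSum _ fun n _ => hi2 n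
  have hSi : Integrable (fun ω => |S (D.w h ω) k j|) D.P := by
    refine hsum.mono' hmeasS.abs.aestronglyMeasurable (Filter.Eventually.of_forall fun ω => ?_)
    rw [Real.norm_eq_abs, abs_abs]
    exact hb ω
  have hle : ∫ ω, |S (D.w h ω) k j| ∂D.P ≤ Bd := by
    refine (integral_mono hSi hsum hb).trans ?_
    rw [integral_finsetSum _ fun n _ => hi2 n]
    refine (Finset.sum_le_sum fun n _ => hi3 n).trans (le_of_eq ?_)
    rw [Finset.sum_const, Nat.card_Ioc, hj, Nat.add_sub_cancel_left, nsmul_eq_mul]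
  have hM := mul_meas_ge_le_integral_of_nonneg (μ := D.P)
    (f := fun ω => |S (D.w h ω) k j|) (Filter.Eventually.of_forall fun ω => abs_nonneg _) hSi
    (4 * Bd + 1)
  have hsub : D.P.real {ω | 4 * Bd + 1 < |S (D.w h ω) k j|}
      ≤ D.P.real {ω | 4 * Bd + 1 ≤ |S (D.w h ω) k j|} :=
    measureReal_mono (fun ω (hω : 4 * Bd + 1 < |S (D.w h ω) k j|) => hω.le)
  refine hsub.trans ?_
  have h0 : 0 ≤ D.P.real {ω | 4 * Bd + 1 ≤ |S (D.w h ω) k j|} := measureReal_nonneg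
  by_contra hc
  push Not at hc
  nlinarith

lemma aux_det (D : Data) (c0 : ℝ) (n0 : ℕ) (hK : KHyp D.K D.α c0 n0) : ∃ C6 : ℝ, 0 < C6 ∧
    ∀ (h : ℝ) (ω : ℕ → ℝ) (ℓ : ℕ), 1 ≤ ℓ →
      D.lF h n0 (ℓ + n0) ω - C6 * (1 + Real.log ℓ) - |S (D.w h ω) 0 n0|
        - |S (D.w h ω) (ℓ + n0) (ℓ + 2 * n0)| - max (S (D.w h ω) 0 (ℓ + 2 * n0)) 0
        ≤ -Real.log (D.R h 0 (ℓ + 2 * n0) ω) := by
  have hα := D.hα
  have hc0 := hK.c0_pos
  refine ⟨|Real.log (c0⁻¹ ^ 2)| + 2 * Real.log 2 + 2 * (1 + D.α) * Real.log (1 + n0)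
    + 2 + 2 * (1 + D.α) + Real.log 2, ?_, ?_⟩
  · have e1 : 0 < Real.log 2 := Real.log_pos (by norm_num)
    have e2 : 0 ≤ Real.log (1 + (n0:ℝ)) := Real.log_nonneg (by
      have : (0:ℝ) ≤ n0 := Nat.cast_nonneg _
      linarith)
    positivity
  intro h ω ℓ hℓ
  set w := D.w h ω with hw
  have hl1 : (1:ℝ) ≤ ℓ := by exact_mod_cast hℓ
  have hn0 : (1:ℝ) ≤ n0 := by exact_mod_cast hK.n0_pos
  obtain ⟨hG1, hG2, hG3, hG4⟩ := given_G D.K w hK.nonneg
  -- positivity of G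
  have hGpos : 0 < G D.K w 0 (ℓ + 2 * n0) := by
    have h3 := hG3 0 (ℓ + 2 * n0) (by omega)
    refine lt_of_lt_of_le ?_ h3
    refine mul_pos ?_ (aux_phi_pos _ _ _)
    refine lt_of_lt_of_le ?_ (hK.lower (ℓ + 2 * n0 - 0) (by omega))
    have : (0:ℝ) < ((ℓ + 2 * n0 - 0 : ℕ) : ℝ) := by
      have : 0 < ℓ + 2 * n0 - 0 := by omega
      exact_mod_cast this
    positivity
  -- positivity of F
  have hFpos : 0 < F D.K w n0 (ℓ + n0) := by
    unfold F
    have ht : ∀ i k, 0 ≤ phi w n0 i * G D.K w i k * phi w k (ℓ + n0) := fun i k =>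
      mul_nonneg (mul_nonneg (aux_phi_pos _ _ _).le (hG2 _ _)) (aux_phi_pos _ _ _).le
    refine Finset.sum_pos' (fun i _ => Finset.sum_nonneg fun k _ => ht i k)
      ⟨n0, Finset.mem_Icc.mpr ⟨le_refl _, by omega⟩, ?_⟩
    refine Finset.sum_pos' (fun k _ => ht n0 k)
      ⟨n0, Finset.mem_Icc.mpr ⟨le_refl _, by omega⟩, ?_⟩
    rw [hG1]
    exact mul_pos (mul_pos (aux_phi_pos _ _ _) one_pos) (aux_phi_pos _ _ _)
  have hFG := given_FG D.K w D.α c0 n0 hK n0 0 ℓ (le_refl _) (by omega)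
  simp only [zero_add, Nat.cast_zero, sub_zero] at hFG
  have hlog := Real.log_le_log hFpos hFG
  have hlm : (0:ℝ) < ℓ + n0 := by linarith
  rw [Real.log_mul (by positivity) hGpos.ne', Real.log_mul (by positivity) (Real.exp_pos _).ne',
    Real.log_mul (by positivity) (by positivity), Real.log_mul (by positivity) (by positivity),
    Real.log_exp, Real.log_rpow hlm] at hlog
  have hR : -Real.log (D.R h 0 (ℓ + 2 * n0) ω)
      = Real.log (G D.K w 0 (ℓ + 2 * n0)) - Real.log (1 + Real.exp (S w 0 (ℓ + 2 * n0))) := by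
    unfold Data.R
    rw [Real.log_div (by positivity) hGpos.ne']
    ring
  rw [hR]
  have hS : Real.log (1 + Real.exp (S w 0 (ℓ + 2 * n0)))
      ≤ Real.log 2 + max (S w 0 (ℓ + 2 * n0)) 0 := by
    rw [← Real.log_exp (max (S w 0 (ℓ + 2 * n0)) 0), ← Real.log_mul (by norm_num)
      (Real.exp_pos _).ne']
    apply Real.log_le_log (by positivity)
    have e1 : Real.exp (S w 0 (ℓ + 2 * n0)) ≤ Real.exp (max (S w 0 (ℓ + 2 * n0)) 0) :=
      Real.exp_le_exp.mpr (le_max_left _ _)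
    have e2 : 1 ≤ Real.exp (max (S w 0 (ℓ + 2 * n0)) 0) :=
      Real.one_le_exp (le_max_right _ _)
    linarith
  have hlogl : 0 ≤ Real.log ℓ := Real.log_nonneg hl1
  have ha : Real.log ((ℓ:ℝ) + 1) ≤ Real.log 2 + Real.log ℓ := by
    rw [← Real.log_mul (by norm_num) (by linarith)]
    exact Real.log_le_log (by linarith) (by linarith)
  have hb : Real.log ((ℓ:ℝ) + n0) ≤ Real.log (1 + n0) + Real.log ℓ := by
    rw [← Real.log_mul (by linarith) (by linarith)]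
    refine Real.log_le_log hlm ?_
    nlinarith
  have hlF : D.lF h n0 (ℓ + n0) ω = Real.log (F D.K w n0 (ℓ + n0)) := rfl
  rw [hlF]
  have e1 : 0 < Real.log 2 := Real.log_pos (by norm_num)
  have e2 : 0 ≤ Real.log (1 + (n0:ℝ)) := Real.log_nonneg (by linarith)
  have e3 := le_abs_self (Real.log (c0⁻¹ ^ 2))
  have e3' := abs_nonneg (Real.log (c0⁻¹ ^ 2))
  have e4 : 2 * (1 + D.α) * Real.log ((ℓ:ℝ) + n0)
      ≤ 2 * (1 + D.α) * (Real.log (1 + n0) + Real.log ℓ) :=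
    mul_le_mul_of_nonneg_left hb (by positivity)
  have e5 : (|Real.log (c0⁻¹ ^ 2)| + 2 * Real.log 2 + 2 * (1 + D.α) * Real.log (1 + n0)
    + 2 + 2 * (1 + D.α) + Real.log 2) * (1 + Real.log ℓ)
      ≥ |Real.log (c0⁻¹ ^ 2)| + 2 * Real.log 2 + 2 * (1 + D.α) * Real.log (1 + n0)
        + Real.log 2 + (2 + 2 * (1 + D.α)) * Real.log ℓ := by
    have p1 : 0 ≤ (|Real.log (c0⁻¹ ^ 2)| + 2 * Real.log 2
      + 2 * (1 + D.α) * Real.log (1 + n0) + Real.log 2) * Real.log ℓ := by positivity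
    have p2 : 0 ≤ 2 + 2 * (1 + D.α) := by positivity
    nlinarith
  have e6 : Real.log (((ℓ:ℝ) + 1) ^ 2) ≤ 2 * (Real.log 2 + Real.log ℓ) := by
    rw [Real.log_pow]
    push_cast
    linarith
  linarith



theorem J_blockR : St_blockR := by
  intro D c0 n0 hK h1 H hh1
  obtain ⟨θ, hθ, hθ1⟩ := aux_theta D h1 hh1
  obtain ⟨C4, hC4, hbuf⟩ := aux_buf D n0 H
  obtain ⟨C6, hC6, hdet⟩ := aux_det D c0 n0 hK
  refine ⟨C6 + 2 * C4, θ, by linarith, hθ, ?_⟩
  intro h hh hhH ℓ hℓ y x hx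
  set c := y + (C6 + 2 * C4) * (1 + Real.log ℓ) + x with hc
  have hl1 : (1:ℝ) ≤ ℓ := by exact_mod_cast hℓ
  have hlogl : 0 ≤ Real.log ℓ := Real.log_nonneg hl1
  -- stationarity
  have hst : D.P.real {ω | c ≤ D.lF h n0 (ℓ + n0) ω} = D.P.real {ω | c ≤ D.lF h 0 ℓ ω} := by
    have hmp : MeasurePreserving (fun (ω : ℕ → ℝ) (n : ℕ) => ω (n + n0)) D.P D.P :=
      given_stat D.ν n0
    have hms : MeasurableSet {ω | c ≤ D.lF h 0 ℓ ω} :=
      measurableSet_le measurable_const (Real.measurable_log.comp (given_meas D h 0 ℓ).2.1)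
    rw [← hmp.measureReal_preimage hms.nullMeasurableSet]
    congr 1
    ext ω
    show c ≤ D.lF h n0 (ℓ + n0) ω ↔ c ≤ D.lF h 0 ℓ (fun n => ω (n + n0))
    have : D.lF h 0 ℓ (fun n => ω (n + n0)) = D.lF h n0 (ℓ + n0) ω := by
      unfold Data.lF
      have := given_loc.2.1 D.K (D.w h ω) n0 0 ℓ
      rw [zero_add] at this
      rw [← this]
      rfl
    rw [this]
  -- independence
  have hf : Measurable (D.lF h n0 (ℓ + n0)) :=
    Real.measurable_log.comp (given_meas D h n0 (ℓ + n0)).2.1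
  let g : (ℕ → ℝ) → ℝ := fun ω =>
    max |S (D.w h ω) 0 n0| |S (D.w h ω) (ℓ + n0) (ℓ + 2 * n0)|
  have hg : Measurable g :=
    ((given_meas D h 0 n0).2.2.abs).max ((given_meas D h (ℓ + n0) (ℓ + 2 * n0)).2.2.abs)
  have hind : IndepFun (D.lF h n0 (ℓ + n0)) g D.P := by
    refine given_indep D.ν (Finset.Ioc n0 (ℓ + n0))
      (Finset.Ioc 0 n0 ∪ Finset.Ioc (ℓ + n0) (ℓ + 2 * n0)) ?_ _ _ hf hg ?_ ?_
    · rw [Finset.disjoint_left]
      intro a ha hb
      simp only [Finset.mem_union, Finset.mem_Ioc] at ha hb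
      omega
    · intro ω ω' hω
      unfold Data.lF
      rw [(given_loc.2.2.2 D.K (D.w h ω) (D.w h ω') n0 (ℓ + n0) (fun n hn => by
        unfold Data.w; rw [hω n hn])).2.1]
    · intro ω ω' hω
      have e1 : S (D.w h ω) 0 n0 = S (D.w h ω') 0 n0 := Finset.sum_congr rfl fun n hn => by
        unfold Data.w; rw [hω n (Finset.mem_union_left _ hn)]
      have e2 : S (D.w h ω) (ℓ + n0) (ℓ + 2 * n0) = S (D.w h ω') (ℓ + n0) (ℓ + 2 * n0) :=
        Finset.sum_congr rfl fun n hn => by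
          unfold Data.w; rw [hω n (Finset.mem_union_right _ hn)]
      show max _ _ = max _ _
      rw [e1, e2]
  have hprod : D.P.real ({ω | c ≤ D.lF h n0 (ℓ + n0) ω} ∩ {ω | g ω ≤ C4})
      = D.P.real {ω | c ≤ D.lF h n0 (ℓ + n0) ω} * D.P.real {ω | g ω ≤ C4} := by
    have := hind.measure_inter_preimage_eq_mul (Set.Ici c) (Set.Iic C4) measurableSet_Ici
      measurableSet_Iic
    have e := congrArg ENNReal.toReal this
    rw [ENNReal.toReal_mul] at e
    exact e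
  -- the buffers are good with probability at least 1/2
  have hB : 1 / 2 ≤ D.P.real {ω | g ω ≤ C4} := by
    have hcov : (Set.univ : Set (ℕ → ℝ)) ⊆ {ω | g ω ≤ C4} ∪
        ({ω | C4 < |S (D.w h ω) 0 n0|} ∪ {ω | C4 < |S (D.w h ω) (ℓ + n0) (ℓ + 2 * n0)|}) := by
      intro ω _
      by_cases hω : g ω ≤ C4
      · exact Or.inl hω
      · right
        have : C4 < g ω := not_le.mp hω
        rcases lt_max_iff.mp this with h3 | h3
        · exact Or.inl h3
        · exact Or.inr h3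
    have h2 := (measureReal_mono (μ := D.P) hcov).trans (measureReal_union_le _ _)
    have h3 := measureReal_union_le (μ := D.P) {ω | C4 < |S (D.w h ω) 0 n0|}
      {ω | C4 < |S (D.w h ω) (ℓ + n0) (ℓ + 2 * n0)|}
    have h4 := hbuf h (hh1.le.trans hh) hhH 0 n0 (by omega)
    have h5 := hbuf h (hh1.le.trans hh) hhH (ℓ + n0) (ℓ + 2 * n0) (by omega)
    have h6 : D.P.real (Set.univ : Set (ℕ → ℝ)) = 1 := by
      simp
    rw [h6] at h2
    linarith
  -- inclusion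
  have hinc : ({ω | c ≤ D.lF h n0 (ℓ + n0) ω} ∩ {ω | g ω ≤ C4}) ⊆
      {ω | y ≤ -Real.log (D.R h 0 (ℓ + 2 * n0) ω)} ∪ {ω | x ≤ S (D.w h ω) 0 (ℓ + 2 * n0)} := by
    rintro ω ⟨hω1, hω2⟩
    by_cases hx2 : x ≤ S (D.w h ω) 0 (ℓ + 2 * n0)
    · exact Or.inr hx2
    · left
      have hω1' : c ≤ D.lF h n0 (ℓ + n0) ω := hω1
      have hω2' : g ω ≤ C4 := hω2
      have h3 := hdet h ω ℓ hℓ
      have h4 : |S (D.w h ω) 0 n0| ≤ C4 := (le_max_left _ _).trans hω2'
      have h5 : |S (D.w h ω) (ℓ + n0) (ℓ + 2 * n0)| ≤ C4 := (le_max_right _ _).trans hω2'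
      have h6 : max (S (D.w h ω) 0 (ℓ + 2 * n0)) 0 ≤ x := max_le (not_le.mp hx2).le hx
      have h7 : 0 ≤ C4 * Real.log ℓ := mul_nonneg hC4.le hlogl
      show y ≤ -Real.log (D.R h 0 (ℓ + 2 * n0) ω)
      rw [hc] at hω1'
      nlinarith
  have h8 := (measureReal_mono (μ := D.P) hinc).trans (measureReal_union_le _ _)
  have h9 := aux_tail D h1 θ hθ hθ1 h hh (ℓ + 2 * n0) x
  rw [hprod, hst] at h8
  have h10 : 0 ≤ D.P.real {ω | c ≤ D.lF h 0 ℓ ω} := measureReal_nonneg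
  have h11 : (1 / 2) * D.P.real {ω | c ≤ D.lF h 0 ℓ ω}
      ≤ D.P.real {ω | c ≤ D.lF h 0 ℓ ω} * D.P.real {ω | g ω ≤ C4} := by
    nlinarith
  linarith


end M_blockR
end Cop764
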