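import Pool.Agent.Helper764.CopDefs
import Pool.Agent.Helper764.Cop_strE
import Pool.Agent.Helper764.Cop_absS
import Pool.Agent.Helper764.Cop_G
import Pool.Agent.Helper764.Cop_K
import Pool.Agent.Helper764.Cop_int
import Pool.Agent.Helper764.Cop_meas

set_option autoImplicit false
set_option maxHeartbeats 4000000
open MeasureTheory ProbabilityTheory Filter Topology
open scoped ENNReal NNReal

namespace Cop764
namespace M_f0

theorem given_strE : St_strE := M_strE.J_strE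
theorem given_absS : St_absS := M_absS.J_absS
theorem given_G : St_G := M_G.J_G
theorem given_K : St_K := M_K.J_K
theorem given_int : St_int := M_int.J_int
theorem given_meas : St_meas := M_meas.J_meas





theorem J_f0 : St_f0 := by
  intro D
  obtain ⟨c0, n0, hK⟩ := given_K D
  obtain ⟨c, hc, habs⟩ := given_absS D
  have hα := D.hα
  have hc0 := hK.c0_pos
  obtain ⟨A, hA⟩ : ∃ A, A = 1 + D.α := ⟨_, rfl⟩
  have hA0 : 0 < A := by rw [hA]; linarith
  obtain ⟨L2, hL2⟩ : ∃ L2, L2 = Real.log (2 / c0) := ⟨_, rfl⟩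
  have hL20 : 0 ≤ L2 := by
    rw [hL2]
    apply Real.log_nonneg
    rw [le_div_iff₀ hc0]
    linarith [hK.c0_le]
  have hev : ∀ᶠ ℓ : ℕ in atTop, 2 * L2 + 2 * A * Real.log ℓ + A < c / 2 * Real.sqrt ℓ := by
    have h1 : ∀ᶠ x : ℝ in atTop, ‖Real.log x‖ ≤ c / (8 * A) * ‖x ^ (1 / 2 : ℝ)‖ :=
      (isLittleO_log_rpow_atTop (r := 1 / 2) (by norm_num)).def (by positivity)
    have h2 : ∀ᶠ x : ℝ in atTop, (2 * L2 + A) / (c / 4) < Real.sqrt x :=
      Real.tendsto_sqrt_atTop.eventually_gt_atTop _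
    have h4 := (tendsto_natCast_atTop_atTop (R := ℝ)).eventually (h1.and h2)
    filter_upwards [h4] with ℓ hℓ
    obtain ⟨a1, a2⟩ := hℓ
    rw [← Real.sqrt_eq_rpow, Real.norm_of_nonneg (Real.sqrt_nonneg _)] at a1
    have a3 : Real.log ℓ ≤ c / (8 * A) * Real.sqrt ℓ := (le_abs_self _).trans a1
    have a4 : 2 * A * Real.log ℓ ≤ c / 4 * Real.sqrt ℓ := by
      calc 2 * A * Real.log ℓ ≤ 2 * A * (c / (8 * A) * Real.sqrt ℓ) :=
            mul_le_mul_of_nonneg_left a3 (by positivity)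
        _ = c / 4 * Real.sqrt ℓ := by field_simp; ring
    rw [div_lt_iff₀ (by positivity)] at a2
    linarith
  obtain ⟨ℓ, hℓ1, hℓ2⟩ := (hev.and (eventually_ge_atTop n0)).exists
  have hℓ0 : 1 ≤ ℓ := hK.n0_pos.trans hℓ2
  have hℓR : (1 : ℝ) ≤ ℓ := by exact_mod_cast hℓ0
  have hℓpos : (0 : ℝ) < ℓ := by linarith
  have hlog0 : 0 ≤ Real.log ℓ := Real.log_nonneg hℓR
  obtain ⟨hSint, hSlow⟩ := habs ℓ hℓ0
  -- pointwise bound
  have hpt : ∀ ω, S (D.w 0 ω) 0 ℓ - L2 - A * Real.log ℓ ≤ D.lG 0 0 ℓ ω := by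
    intro ω
    obtain ⟨-, -, hG, -⟩ := given_G D.K (D.w 0 ω) hK.nonneg
    have h1 := hG 0 ℓ (by omega)
    rw [Nat.sub_zero] at h1
    have h2 := hK.lower ℓ hℓ2
    have h3 : Real.exp (S (D.w 0 ω) 0 ℓ) / 2 ≤ phi (D.w 0 ω) 0 ℓ := by
      unfold phi
      linarith
    have h4 : c0 * (ℓ : ℝ) ^ (-(1 + D.α)) * (Real.exp (S (D.w 0 ω) 0 ℓ) / 2) ≤
        G D.K (D.w 0 ω) 0 ℓ := by
      refine le_trans ?_ h1
      exact mul_le_mul h2 h3 (by positivity) (hK.nonneg _)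
    have h5 : 0 < c0 * (ℓ : ℝ) ^ (-(1 + D.α)) * (Real.exp (S (D.w 0 ω) 0 ℓ) / 2) := by positivity
    have h6 := Real.log_le_log h5 h4
    have h7 : Real.log (c0 * (ℓ : ℝ) ^ (-(1 + D.α)) * (Real.exp (S (D.w 0 ω) 0 ℓ) / 2)) =
        S (D.w 0 ω) 0 ℓ - L2 - A * Real.log ℓ := by
      rw [Real.log_mul (by positivity) (by positivity), Real.log_mul (by positivity) (by positivity),
        Real.log_rpow hℓpos, Real.log_div (by positivity) (by norm_num), Real.log_exp, hL2, hA,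
        Real.log_div (by norm_num) (by positivity)]
      ring
    rw [h7] at h6
    exact h6
  -- parameters
  obtain ⟨r, hr⟩ : ∃ r, r = c / (2 * A) := ⟨_, rfl⟩
  have hr0 : 0 < r := by rw [hr]; positivity
  have hAr : A * r = c / 2 := by rw [hr]; field_simp
  have hq1 : Real.exp (-(r * Real.sqrt ℓ)) ≤ 1 := by
    rw [Real.exp_le_one_iff]
    have : 0 ≤ r * Real.sqrt ℓ := by positivity
    linarith
  have hstr := given_strE D c0 n0 hK 0 le_rfl ℓ hℓ2 (Real.exp (-(r * Real.sqrt ℓ)))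
    (Real.exp_pos _) hq1
  rw [← hL2, ← hA, ← Real.exp_neg, Real.log_exp, neg_neg] at hstr
  obtain ⟨b, hb⟩ : ∃ b, b = L2 + A * (Real.log ℓ + r * Real.sqrt ℓ) := ⟨_, rfl⟩
  rw [← hb] at hstr
  have hb0 : 0 ≤ b := by rw [hb]; positivity
  have hGint : Integrable (D.lG 0 0 ℓ) D.P := (given_int D c0 n0 hK 0 le_rfl).2.1 0 ℓ (by omega)
  have hI1 : Integrable (fun ω => max (D.lG 0 0 ℓ ω - b) 0) D.P :=
    (hGint.sub (integrable_const b)).pos_part
  have hI2 : Integrable (fun ω => max (S (D.w 0 ω) 0 ℓ) 0) D.P := hSint.pos_part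
  have hI3 : Integrable (fun ω => max (S (D.w 0 ω) 0 ℓ) 0 - (L2 + A * Real.log ℓ + b)) D.P :=
    hI2.sub (integrable_const _)
  have hmono : ∫ ω, (max (S (D.w 0 ω) 0 ℓ) 0 - (L2 + A * Real.log ℓ + b)) ∂D.P ≤
      ∫ ω, max (D.lG 0 0 ℓ ω - b) 0 ∂D.P := by
    refine integral_mono hI3 hI1 fun ω => ?_
    have h1 := hpt ω
    have h2 : 0 ≤ L2 + A * Real.log ℓ + b := by positivity
    show max (S (D.w 0 ω) 0 ℓ) 0 - (L2 + A * Real.log ℓ + b) ≤ max (D.lG 0 0 ℓ ω - b) 0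
    rcases le_total (S (D.w 0 ω) 0 ℓ) 0 with h3 | h3
    · rw [max_eq_right h3]
      exact le_trans (by linarith) (le_max_right _ _)
    · rw [max_eq_left h3]
      exact le_trans (by linarith) (le_max_left _ _)
  rw [integral_sub hI2 (integrable_const _), integral_const] at hmono
  simp only [probReal_univ, smul_eq_mul, one_mul] at hmono
  have hAq : A * Real.exp (-(r * Real.sqrt ℓ)) ≤ A := by
    have := mul_le_mul_of_nonneg_left hq1 hA0.le
    rwa [mul_one] at this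
  have hfin : 0 < ℓ * D.f 0 := by
    have h1 : b = L2 + A * Real.log ℓ + c / 2 * Real.sqrt ℓ := by
      rw [hb, ← hAr]; ring
    linarith
  exact (mul_pos_iff_of_pos_left hℓpos).1 hfin


end M_f0
end Cop764
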