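import Pool.Agent.Helper764.CopDefs
import Pool.Agent.Helper764.Cop_fe
import Pool.Agent.Helper764.Cop_Fbd
import Pool.Agent.Helper764.Cop_G
import Pool.Agent.Helper764.Cop_Z
import Pool.Agent.Helper764.Cop_K
import Pool.Agent.Helper764.Cop_int
import Pool.Agent.Helper764.Cop_meas
import Pool.Agent.Helper764.Cop_indep
import Pool.Agent.Helper764.Cop_stat
import Pool.Agent.Helper764.Cop_loc

set_option autoImplicit false
set_option maxHeartbeats 4000000
open MeasureTheory ProbabilityTheory Filter Topology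
open scoped ENNReal NNReal

namespace Cop764
namespace M_fH

theorem given_fe : St_fe := M_fe.J_fe
theorem given_Fbd : St_Fbd := M_Fbd.J_Fbd
theorem given_G : St_G := M_G.J_G
theorem given_Z : St_Z := M_Z.J_Z
theorem given_K : St_K := M_K.J_K
theorem given_int : St_int := M_int.J_int
theorem given_meas : St_meas := M_meas.J_meas
theorem given_indep : St_indep := M_indep.J_indep
theorem given_stat : St_stat := M_stat.J_stat
theorem given_loc : St_loc := M_loc.J_loc




/-- a nonnegative function of the coordinates in `(a,b]` with mean at most one -/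
structure LL (D : Data) (a b : ℕ) (f : (ℕ → ℝ) → ℝ) : Prop where
  meas : Measurable f
  nn : ∀ ω, 0 ≤ f ω
  loc : ∀ ω ω' : ℕ → ℝ, (∀ n ∈ Finset.Ioc a b, ω n = ω' n) → f ω = f ω'
  le : ∫⁻ ω, ENNReal.ofReal (f ω) ∂D.P ≤ 1

theorem LL.mul {D : Data} {a b c : ℕ} {f g : (ℕ → ℝ) → ℝ} (hf : LL D a b f) (hg : LL D b c g)
    (hab : a ≤ b) (hbc : b ≤ c) : LL D a c (fun ω => f ω * g ω) := by
  refine ⟨hf.meas.mul hg.meas, fun ω => mul_nonneg (hf.nn ω) (hg.nn ω), ?_, ?_⟩
  · intro ω ω' h
    rw [hf.loc ω ω' fun n hn => h n ?_, hg.loc ω ω' fun n hn => h n ?_]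
    · rw [Finset.mem_Ioc] at hn ⊢; omega
    · rw [Finset.mem_Ioc] at hn ⊢; omega
  · have hd : Disjoint (Finset.Ioc a b) (Finset.Ioc b c) := by
      rw [Finset.disjoint_left]
      intro n h1 h2
      rw [Finset.mem_Ioc] at h1 h2; omega
    have hi := given_indep D.ν (Finset.Ioc a b) (Finset.Ioc b c) hd f g hf.meas hg.meas hf.loc hg.loc
    have hi2 : IndepFun (fun ω => ENNReal.ofReal (f ω)) (fun ω => ENNReal.ofReal (g ω)) D.P :=
      hi.comp ENNReal.measurable_ofReal ENNReal.measurable_ofReal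
    have h1 : ∀ ω, ENNReal.ofReal (f ω * g ω) = ENNReal.ofReal (f ω) * ENNReal.ofReal (g ω) :=
      fun ω => ENNReal.ofReal_mul (hf.nn ω)
    simp only [h1]
    have h2 := lintegral_mul_eq_lintegral_mul_lintegral_of_indepFun hf.meas.ennreal_ofReal
      hg.meas.ennreal_ofReal hi2
    simp only [Pi.mul_apply] at h2
    rw [h2]
    calc _ ≤ (1 : ℝ≥0∞) * 1 := mul_le_mul' hf.le hg.le
      _ = 1 := one_mul 1

theorem LL.one {D : Data} {a : ℕ} : LL D a a (fun _ => 1) :=
  ⟨measurable_const, fun _ => zero_le_one, fun _ _ _ => rfl, by simp⟩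

theorem LL_w (D : Data) (H : ℝ) (hM : (∫ x, Real.exp (-2 * D.lam * x) ∂D.ν) *
    Real.exp (-(2 * D.lam * H)) ≤ 1) (n : ℕ) :
    LL D n (n + 1) (fun ω => Real.exp (D.w H ω (n + 1))) := by
  refine ⟨?_, fun ω => (Real.exp_pos _).le, ?_, ?_⟩
  · unfold Data.w
    fun_prop
  · intro ω ω' h
    have := h (n + 1) (by rw [Finset.mem_Ioc]; omega)
    simp only [Data.w, this]
  · have h1 : MeasurePreserving (fun ω : ℕ → ℝ => ω (n + 1)) D.P D.ν :=
      ⟨measurable_pi_apply _, Measure.infinitePi_map_eval (fun _ : ℕ => D.ν) (n + 1)⟩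
    have hm : Measurable fun x : ℝ => ENNReal.ofReal (Real.exp (-2 * D.lam * (x + H))) := by
      fun_prop
    have h2 : ∫⁻ ω, ENNReal.ofReal (Real.exp (D.w H ω (n + 1))) ∂D.P
        = ∫⁻ x, ENNReal.ofReal (Real.exp (-2 * D.lam * (x + H))) ∂D.ν :=
      h1.lintegral_comp hm
    rw [h2]
    have h3 : ∀ x : ℝ, Real.exp (-2 * D.lam * (x + H))
        = Real.exp (-2 * D.lam * x) * Real.exp (-(2 * D.lam * H)) := by
      intro x; rw [← Real.exp_add]; congr 1; ring
    simp only [h3]
    rw [← ofReal_integral_eq_lintegral_ofReal ((D.expm (-2 * D.lam)).mul_const _)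
      (Filter.Eventually.of_forall fun x => by positivity), integral_mul_const]
    exact ENNReal.ofReal_le_one.2 hM

theorem LL_S (D : Data) (H : ℝ) (hM : (∫ x, Real.exp (-2 * D.lam * x) ∂D.ν) *
    Real.exp (-(2 * D.lam * H)) ≤ 1) (i j : ℕ) (hij : i ≤ j) :
    LL D i j (fun ω => Real.exp (S (D.w H ω) i j)) := by
  induction j, hij using Nat.le_induction with
  | base =>
    have : (fun ω : ℕ → ℝ => Real.exp (S (D.w H ω) i i)) = fun _ => 1 := by
      funext ω; simp [S]
    rw [this]; exact LL.one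
  | succ j hij ih =>
    have : (fun ω : ℕ → ℝ => Real.exp (S (D.w H ω) i (j + 1)))
        = fun ω => Real.exp (S (D.w H ω) i j) * Real.exp (D.w H ω (j + 1)) := by
      funext ω
      rw [← Real.exp_add]
      congr 1
      unfold S
      rw [Finset.sum_Ioc_succ_top (by omega)]
    rw [this]
    exact ih.mul (LL_w D H hM j) hij (Nat.le_succ j)

theorem LL_phi (D : Data) (H : ℝ) (hM : (∫ x, Real.exp (-2 * D.lam * x) ∂D.ν) *
    Real.exp (-(2 * D.lam * H)) ≤ 1) (i j : ℕ) (hij : i ≤ j) :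
    LL D i j (fun ω => phi (D.w H ω) i j) := by
  have h := LL_S D H hM i j hij
  refine ⟨?_, ?_, ?_, ?_⟩
  · unfold phi; exact (measurable_const.add h.meas).div_const _
  · intro ω; unfold phi; positivity
  · intro ω ω' h1
    have := h.loc ω ω' h1
    simp only [phi, this]
  · have h1 : ∀ ω, ENNReal.ofReal (phi (D.w H ω) i j)
        = ENNReal.ofReal (1/2) + ENNReal.ofReal (1/2) * ENNReal.ofReal (Real.exp (S (D.w H ω) i j)) := by
      intro ω
      rw [← ENNReal.ofReal_mul (by norm_num), ← ENNReal.ofReal_add (by norm_num) (by positivity)]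
      congr 1
      unfold phi; ring
    simp only [h1]
    rw [lintegral_add_left measurable_const, lintegral_const_mul _ h.meas.ennreal_ofReal]
    simp only [lintegral_const, measure_univ, mul_one]
    calc _ ≤ ENNReal.ofReal (1/2) + ENNReal.ofReal (1/2) * 1 := by
          gcongr; exact h.le
      _ = 1 := by
          rw [mul_one, ← ENNReal.ofReal_add (by norm_num) (by norm_num)]; norm_num

theorem LL_G (D : Data) (c0 : ℝ) (n0 : ℕ) (hK : KHyp D.K D.α c0 n0) (H : ℝ)
    (hM : (∫ x, Real.exp (-2 * D.lam * x) ∂D.ν) * Real.exp (-(2 * D.lam * H)) ≤ 1) :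
    ∀ m i j : ℕ, i ≤ j → j - i ≤ m → LL D i j (fun ω => G D.K (D.w H ω) i j) := by
  have hmeas : ∀ i j, Measurable fun ω : ℕ → ℝ => G D.K (D.w H ω) i j := fun i j =>
    (given_meas D H i j).1
  have hnn : ∀ i j ω, 0 ≤ G D.K (D.w H ω) i j := fun i j ω =>
    (given_G D.K (D.w H ω) hK.nonneg).2.1 i j
  have hloc : ∀ i j, ∀ ω ω' : ℕ → ℝ, (∀ n ∈ Finset.Ioc i j, ω n = ω' n) →
      G D.K (D.w H ω) i j = G D.K (D.w H ω') i j := by
    intro i j ω ω' h
    refine (given_loc.2.2.2 D.K (D.w H ω) (D.w H ω') i j fun n hn => ?_).1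
    simp only [Data.w, h n hn]
  intro m
  induction m with
  | zero =>
    intro i j hij hm
    have : i = j := by omega
    subst this
    refine ⟨hmeas _ _, hnn _ _, hloc _ _, ?_⟩
    simp only [(given_G D.K _ hK.nonneg).1 i]
    simp
  | succ m ih =>
    intro i j hij hm
    rcases Nat.eq_or_lt_of_le hij with h | h
    · subst h
      exact ih i i le_rfl (by omega)
    · refine ⟨hmeas _ _, hnn _ _, hloc _ _, ?_⟩
      have h1 : ∀ ω, G D.K (D.w H ω) i j
          = ∑ k ∈ Finset.Ioc i j, D.K (k - i) * (phi (D.w H ω) i k * G D.K (D.w H ω) k j) := by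
        intro ω
        rw [G_eq, if_neg (by omega)]
        exact Finset.sum_congr rfl fun k _ => mul_assoc _ _ _
      have h2 : ∀ ω, ENNReal.ofReal (G D.K (D.w H ω) i j)
          = ∑ k ∈ Finset.Ioc i j, ENNReal.ofReal (D.K (k - i)) *
            ENNReal.ofReal (phi (D.w H ω) i k * G D.K (D.w H ω) k j) := by
        intro ω
        rw [h1, ENNReal.ofReal_sum_of_nonneg]
        · exact Finset.sum_congr rfl fun k _ => ENNReal.ofReal_mul (hK.nonneg _)
        · intro k _
          refine mul_nonneg (hK.nonneg _) (mul_nonneg ?_ (hnn _ _ _))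
          unfold phi; positivity
      have hLL : ∀ k ∈ Finset.Ioc i j,
          LL D i j (fun ω => phi (D.w H ω) i k * G D.K (D.w H ω) k j) := by
        intro k hk
        rw [Finset.mem_Ioc] at hk
        exact (LL_phi D H hM i k hk.1.le).mul (ih k j hk.2 (by omega)) hk.1.le hk.2
      simp only [h2]
      rw [lintegral_finsetSum']
      · calc _ = ∑ k ∈ Finset.Ioc i j, ENNReal.ofReal (D.K (k - i)) *
              ∫⁻ ω, ENNReal.ofReal (phi (D.w H ω) i k * G D.K (D.w H ω) k j) ∂D.P := by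
              refine Finset.sum_congr rfl fun k hk => ?_
              exact lintegral_const_mul _ (hLL k hk).meas.ennreal_ofReal
          _ ≤ ∑ k ∈ Finset.Ioc i j, ENNReal.ofReal (D.K (k - i)) * 1 :=
              Finset.sum_le_sum fun k hk => mul_le_mul_right (hLL k hk).le _
          _ = ENNReal.ofReal (∑ k ∈ Finset.Ioc i j, D.K (k - i)) := by
              rw [ENNReal.ofReal_sum_of_nonneg fun k _ => hK.nonneg _]
              exact Finset.sum_congr rfl fun k _ => mul_one _
          _ ≤ 1 := by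
              refine ENNReal.ofReal_le_one.2 ?_
              have h3 : ∑ k ∈ Finset.Ioc i j, D.K (k - i) = ∑ k ∈ Finset.Icc 1 (j - i), D.K k := by
                refine Finset.sum_nbij' (fun k => k - i) (fun k => k + i) ?_ ?_ ?_ ?_ ?_
                · intro k hk; simp only [Finset.mem_Ioc, Finset.mem_Icc] at hk ⊢; omega
                · intro k hk; simp only [Finset.mem_Ioc, Finset.mem_Icc] at hk ⊢; omega
                · intro k hk; simp only [Finset.mem_Ioc] at hk; show k - i + i = k; omega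
                · intro k hk; show k + i - i = k; omega
                · intro k _; rfl
              rw [h3]
              exact hK.sum_le _
      · intro k hk
        exact ((hLL k hk).meas.ennreal_ofReal.const_mul _).aemeasurable


theorem J_fH : St_fH := by
  intro D
  obtain ⟨c0, n0, hK⟩ := given_K D
  set M : ℝ := ∫ x, Real.exp (-2 * D.lam * x) ∂D.ν with hMdef
  have hlam := D.hlam
  set H : ℝ := max 1 (M / (2 * D.lam)) with hH
  have hHpos : 0 < H := lt_of_lt_of_le one_pos (le_max_left _ _)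
  have hM : M * Real.exp (-(2 * D.lam * H)) ≤ 1 := by
    have h1 : M ≤ 2 * D.lam * H := by
      have h2 : M / (2 * D.lam) ≤ H := le_max_right _ _
      rw [div_le_iff₀ (by positivity)] at h2
      linarith
    have h3 : M ≤ Real.exp (2 * D.lam * H) := by
      have := Real.add_one_le_exp (2 * D.lam * H); linarith
    rw [Real.exp_neg, ← div_eq_mul_inv, div_le_one (Real.exp_pos _)]
    exact h3
  have hG : ∀ i j : ℕ, i ≤ j → LL D i j (fun ω => G D.K (D.w H ω) i j) := fun i j hij =>
    LL_G D c0 n0 hK H hM (j - i) i j hij le_rfl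
  have hphi : ∀ i j : ℕ, i ≤ j → LL D i j (fun ω => phi (D.w H ω) i j) := LL_phi D H hM
  have hphipos : ∀ (w : ℕ → ℝ) i j, 0 < phi w i j := fun w i j => by unfold phi; positivity
  -- mean of F
  have hFm : ∀ N, Measurable fun ω : ℕ → ℝ => F D.K (D.w H ω) 0 N := fun N =>
    (given_meas D H 0 N).2.1
  have hFpos : ∀ N ω, 0 < F D.K (D.w H ω) 0 N := fun N ω =>
    lt_of_lt_of_le (hphipos _ _ _)
      (given_Fbd D.K (D.w H ω) D.α c0 n0 hK 0 N (Nat.zero_le _)).1
  have hFE : ∀ N : ℕ, ∫⁻ ω, ENNReal.ofReal (F D.K (D.w H ω) 0 N) ∂D.P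
      ≤ ENNReal.ofReal (((N : ℝ) + 1) ^ 2) := by
    intro N
    have hLL : ∀ i ∈ Finset.Icc 0 N, ∀ k ∈ Finset.Icc i N,
        LL D 0 N (fun ω => phi (D.w H ω) 0 i * G D.K (D.w H ω) i k * phi (D.w H ω) k N) := by
      intro i hi k hk
      rw [Finset.mem_Icc] at hi hk
      exact ((hphi 0 i hi.1).mul (hG i k hk.1) hi.1 hk.1).mul (hphi k N hk.2) (by omega) hk.2
    have h2 : ∀ ω, ENNReal.ofReal (F D.K (D.w H ω) 0 N)
        = ∑ i ∈ Finset.Icc 0 N, ∑ k ∈ Finset.Icc i N,
          ENNReal.ofReal (phi (D.w H ω) 0 i * G D.K (D.w H ω) i k * phi (D.w H ω) k N) := by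
      intro ω
      unfold F
      rw [ENNReal.ofReal_sum_of_nonneg]
      · refine Finset.sum_congr rfl fun i hi => ?_
        rw [ENNReal.ofReal_sum_of_nonneg]
        intro k hk
        exact (hLL i hi k hk).nn ω
      · intro i hi
        exact Finset.sum_nonneg fun k hk => (hLL i hi k hk).nn ω
    simp only [h2]
    rw [lintegral_finsetSum' _ fun i hi => Finset.aemeasurable_fun_sum _ fun k hk =>
      (hLL i hi k hk).meas.ennreal_ofReal.aemeasurable]
    calc _ ≤ ∑ i ∈ Finset.Icc 0 N, ∑ k ∈ Finset.Icc i N, (1 : ℝ≥0∞) := by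
          refine Finset.sum_le_sum fun i hi => ?_
          rw [lintegral_finsetSum' _ fun k hk =>
            (hLL i hi k hk).meas.ennreal_ofReal.aemeasurable]
          exact Finset.sum_le_sum fun k hk => (hLL i hi k hk).le
      _ ≤ ∑ i ∈ Finset.Icc 0 N, ((N : ℝ≥0∞) + 1) := by
          refine Finset.sum_le_sum fun i hi => ?_
          rw [Finset.sum_const, nsmul_eq_mul, mul_one, Nat.card_Icc]
          calc ((N + 1 - i : ℕ) : ℝ≥0∞) ≤ ((N + 1 : ℕ) : ℝ≥0∞) := by
                exact_mod_cast Nat.sub_le _ _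
            _ = _ := by push_cast; rfl
      _ = ENNReal.ofReal (((N : ℝ) + 1) ^ 2) := by
          rw [Finset.sum_const, nsmul_eq_mul, Nat.card_Icc]
          rw [ENNReal.ofReal_pow (by positivity), ENNReal.ofReal_add (by positivity) zero_le_one]
          simp only [ENNReal.ofReal_natCast, ENNReal.ofReal_one]
          push_cast
          simp [sq]
  have hFi : ∀ N, Integrable (fun ω => F D.K (D.w H ω) 0 N) D.P := by
    intro N
    refine ⟨(hFm N).aestronglyMeasurable, ?_⟩
    rw [hasFiniteIntegral_iff_ofReal (Filter.Eventually.of_forall fun ω => (hFpos N ω).le)]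
    exact lt_of_le_of_lt (hFE N) ENNReal.ofReal_lt_top
  have hFint : ∀ N : ℕ, ∫ ω, F D.K (D.w H ω) 0 N ∂D.P ≤ ((N : ℝ) + 1) ^ 2 := by
    intro N
    rw [integral_eq_lintegral_of_nonneg_ae (Filter.Eventually.of_forall fun ω => (hFpos N ω).le)
      (hFm N).aestronglyMeasurable]
    exact ENNReal.toReal_le_of_le_ofReal (by positivity) (hFE N)
  have hint := given_int D c0 n0 hK H hHpos.le
  have hlF : ∀ N : ℕ, ∫ ω, D.lF H 0 N ω ∂D.P ≤ 2 * Real.log ((N : ℝ) + 1) := by
    intro N
    set c : ℝ := ((N : ℝ) + 1) ^ 2 with hc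
    have hcpos : 0 < c := by positivity
    have hpt : ∀ ω, D.lF H 0 N ω ≤ F D.K (D.w H ω) 0 N / c + (Real.log c - 1) := by
      intro ω
      unfold Data.lF
      have h1 := Real.log_le_sub_one_of_pos (div_pos (hFpos N ω) hcpos)
      rw [Real.log_div (hFpos N ω).ne' hcpos.ne'] at h1
      linarith
    have h2 : ∫ ω, D.lF H 0 N ω ∂D.P
        ≤ ∫ ω, (F D.K (D.w H ω) 0 N / c + (Real.log c - 1)) ∂D.P :=
      integral_mono (hint.1 0 N (Nat.zero_le _))
        (((hFi N).div_const c).add (integrable_const _)) hpt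
    have h3 : ∫ ω, (F D.K (D.w H ω) 0 N / c + (Real.log c - 1)) ∂D.P
        = (∫ ω, F D.K (D.w H ω) 0 N ∂D.P) / c + (Real.log c - 1) := by
      rw [integral_add ((hFi N).div_const c) (integrable_const _), integral_div]
      simp
    have h4 : (∫ ω, F D.K (D.w H ω) 0 N ∂D.P) / c ≤ 1 := by
      rw [div_le_one hcpos]; exact hFint N
    have h5 : Real.log c = 2 * Real.log ((N : ℝ) + 1) := by
      rw [hc, Real.log_pow]; norm_num
    linarith
  have hKpos : ∀ N, n0 ≤ N → 0 < D.K N := by
    intro N hN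
    have h1 := hK.lower N hN
    have h2 : (0 : ℝ) < N := by
      have := hK.n0_pos
      exact_mod_cast (by omega : 0 < N)
    have h3 : 0 < c0 * (N : ℝ) ^ (-(1 + D.α)) := mul_pos hK.c0_pos (Real.rpow_pos_of_pos h2 _)
    linarith
  have hfeN : ∀ N, n0 ≤ N → feN D.κ D.ν D.lam H N ≤ (N : ℝ)⁻¹ * (2 * Real.log ((N : ℝ) + 1)) := by
    intro N hN
    have hn0 := hK.n0_pos
    have h1 : ∀ ω, Real.log (Z D.κ D.lam H N ω) ≤ D.lF H 0 N ω := by
      intro ω
      have hZ := given_Z D H ω N
      have hGp : 0 < G D.K (D.w H ω) 0 N :=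
        lt_of_lt_of_le (mul_pos (by simpa using hKpos N hN) (hphipos _ _ _))
          ((given_G D.K (D.w H ω) hK.nonneg).2.2.1 0 N (by omega))
      exact Real.log_le_log (lt_of_lt_of_le hGp hZ.1) hZ.2
    have h2 : ∫ ω, Real.log (Z D.κ D.lam H N ω) ∂(disorder D.ν) ≤ 2 * Real.log ((N : ℝ) + 1) :=
      (integral_mono (hint.2.2 N hN) (hint.1 0 N (Nat.zero_le _)) h1).trans (hlF N)
    unfold feN
    exact mul_le_mul_of_nonneg_left h2 (by positivity)
  refine ⟨H, hHpos, ?_⟩
  have hlim : Tendsto (fun N : ℕ => (N : ℝ)⁻¹ * (2 * Real.log ((N : ℝ) + 1))) atTop (𝓝 0) := by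
    have h1 : Tendsto (fun x : ℝ => Real.log x / x) atTop (𝓝 0) := by
      have := Real.isLittleO_log_id_atTop.tendsto_div_nhds_zero
      simpa using this
    have h2 : Tendsto (fun N : ℕ => ((N : ℝ) + 1)) atTop atTop :=
      tendsto_atTop_add_const_right _ _ tendsto_natCast_atTop_atTop
    have h3 := (h1.comp h2).const_mul 4
    rw [mul_zero] at h3
    refine squeeze_zero' (Filter.Eventually.of_forall fun N => ?_) ?_ h3
    · have : 0 ≤ Real.log ((N : ℝ) + 1) := Real.log_nonneg (by
        have : (0:ℝ) ≤ N := Nat.cast_nonneg N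
        linarith)
      positivity
    · filter_upwards [Filter.eventually_ge_atTop 1] with N hN
      have hN' : (1 : ℝ) ≤ N := by exact_mod_cast hN
      have hl : 0 ≤ Real.log ((N : ℝ) + 1) := Real.log_nonneg (by linarith)
      simp only [Function.comp]
      have h4 : (N : ℝ)⁻¹ ≤ 2 / ((N : ℝ) + 1) := by
        rw [inv_eq_one_div, div_le_div_iff₀ (by linarith) (by linarith)]
        linarith
      calc (N : ℝ)⁻¹ * (2 * Real.log ((N : ℝ) + 1))
          ≤ (2 / ((N : ℝ) + 1)) * (2 * Real.log ((N : ℝ) + 1)) :=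
            mul_le_mul_of_nonneg_right h4 (by linarith)
        _ = 4 * (Real.log ((N : ℝ) + 1) / ((N : ℝ) + 1)) := by ring
  refine le_of_tendsto_of_tendsto (given_fe D H hHpos.le).1 hlim ?_
  filter_upwards [Filter.eventually_ge_atTop n0] with N hN
  exact hfeN N hN


end M_fH
end Cop764
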