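import Pool.Agent.Helper764.CopDefs
import Pool.Agent.Helper764.Cop_Zmono
import Pool.Agent.Helper764.Cop_fe
import Pool.Agent.Helper764.Cop_int
import Pool.Agent.Helper764.Cop_K

set_option autoImplicit false
set_option maxHeartbeats 4000000
open MeasureTheory ProbabilityTheory Filter Topology
open scoped ENNReal NNReal

namespace Cop764
namespace M_fanti

theorem given_Zmono : St_Zmono := M_Zmono.J_Zmono
theorem given_fe : St_fe := M_fe.J_fe
theorem given_int : St_int := M_int.J_int
theorem given_K : St_K := M_K.J_K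





theorem J_fanti : St_fanti := by
  intro D h h' hh hhh
  obtain ⟨c0, n0, hK⟩ := given_K D
  have h0' : 0 ≤ h' := hh.trans hhh
  have hI : ∀ N : ℕ, n0 ≤ N → Integrable (fun ω => Real.log (Z D.κ D.lam h N ω))
      (disorder D.ν) := (given_int D c0 n0 hK h hh).2.2
  have hI' : ∀ N : ℕ, n0 ≤ N → Integrable (fun ω => Real.log (Z D.κ D.lam h' N ω))
      (disorder D.ν) := (given_int D c0 n0 hK h' h0').2.2
  have hT := (given_fe D h hh).1
  have hT' := (given_fe D h' h0').1
  have hm := given_Zmono D.κ D.lam D.hlam.le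
  have hpt : ∀ ω N, Real.log (Z D.κ D.lam h' N ω) ≤ Real.log (Z D.κ D.lam h N ω) ∧
      Real.log (Z D.κ D.lam h N ω) ≤
        Real.log (Z D.κ D.lam h' N ω) + 2 * D.lam * (h' - h) * N := by
    intro ω N
    obtain ⟨p, q, r⟩ := hm ω N h h' hhh
    refine ⟨Real.log_le_log p q, ?_⟩
    have := Real.log_le_log (lt_of_lt_of_le p q) r
    rw [Real.log_mul (Real.exp_pos _).ne' p.ne', Real.log_exp] at this
    linarith
  constructor
  · apply le_of_tendsto_of_tendsto hT' hT
    filter_upwards [eventually_ge_atTop n0] with N hN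
    unfold feN
    apply mul_le_mul_of_nonneg_left _ (by positivity)
    exact integral_mono (hI' N hN) (hI N hN) (fun ω => (hpt ω N).1)
  · apply le_of_tendsto_of_tendsto hT (hT'.add_const _)
    filter_upwards [eventually_ge_atTop n0] with N hN
    have hN1 : 1 ≤ N := hK.n0_pos.trans hN
    have hNpos : (0:ℝ) < N := by exact_mod_cast hN1
    have h2 : (∫ ω, Real.log (Z D.κ D.lam h N ω) ∂(disorder D.ν)) ≤
        (∫ ω, Real.log (Z D.κ D.lam h' N ω) ∂(disorder D.ν)) + 2 * D.lam * (h' - h) * N := by
      have h3 : (∫ ω, Real.log (Z D.κ D.lam h N ω) ∂(disorder D.ν)) ≤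
          ∫ ω, (Real.log (Z D.κ D.lam h' N ω) + 2 * D.lam * (h' - h) * N) ∂(disorder D.ν) :=
        integral_mono (hI N hN) ((hI' N hN).add (integrable_const _)) (fun ω => (hpt ω N).2)
      rw [integral_add (hI' N hN) (integrable_const _), integral_const] at h3
      simpa using h3
    unfold feN
    have h4 := mul_le_mul_of_nonneg_left h2 (inv_nonneg.mpr hNpos.le)
    refine h4.trans (le_of_eq ?_)
    rw [mul_add]
    congr 1
    field_simp


end M_fanti
end Cop764
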