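import Pool.Agent.Helper764.CopDefs
import Pool.Agent.Helper764.Cop_fanti
import Pool.Agent.Helper764.Cop_fnn
import Pool.Agent.Helper764.Cop_f0
import Pool.Agent.Helper764.Cop_fH

set_option autoImplicit false
set_option maxHeartbeats 4000000
open MeasureTheory ProbabilityTheory Filter Topology
open scoped ENNReal NNReal

namespace Cop764
namespace M_hc

theorem given_fanti : St_fanti := M_fanti.J_fanti
theorem given_fnn : St_fnn := M_fnn.J_fnn
theorem given_f0 : St_f0 := M_f0.J_f0
theorem given_fH : St_fH := M_fH.J_fH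





theorem J_hc : St_hc := by
  intro D
  have hanti := given_fanti D
  have hnn := given_fnn D
  have h0 := given_f0 D
  obtain ⟨H, hH, hfH⟩ := given_fH D
  have hlam := D.hlam
  obtain ⟨A, hA⟩ : ∃ A : Set ℝ, A = {h | 0 ≤ h ∧ 0 < D.f h} := ⟨_, rfl⟩
  have hA0 : (0:ℝ) ∈ A := by rw [hA]; exact ⟨le_rfl, h0⟩
  have hbdd : ∀ h ∈ A, h ≤ H := by
    rw [hA]
    rintro h ⟨h1, h2⟩
    by_contra hc
    push Not at hc
    have := (hanti H h hH.le hc.le).1
    linarith
  have hBA : BddAbove A := ⟨H, hbdd⟩
  obtain ⟨hc, hcdef⟩ : ∃ hc, hc = sSup A := ⟨_, rfl⟩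
  have hc0 : 0 ≤ hc := by rw [hcdef]; exact le_csSup hBA hA0
  have hbelow : ∀ h, 0 ≤ h → h < hc → 0 < D.f h := by
    intro h h1 h2
    rw [hcdef] at h2
    obtain ⟨h3, h4, h5⟩ := exists_lt_of_lt_csSup ⟨0, hA0⟩ h2
    have h6 := (hanti h h3 h1 h5.le).1
    rw [hA] at h4
    linarith [h4.2]
  have habove : ∀ h, hc < h → D.f h ≤ 0 := by
    intro h h1
    by_contra h2
    push Not at h2
    have : h ≤ hc := by
      rw [hcdef]
      exact le_csSup hBA (by rw [hA]; exact ⟨hc0.trans h1.le, h2⟩)
    linarith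
  have hfc : D.f hc = 0 := by
    refine le_antisymm ?_ (hnn hc hc0)
    by_contra h1
    push Not at h1
    have h2 : hc < hc + D.f hc / (4 * D.lam) := by
      have := div_pos h1 (by positivity : 0 < 4 * D.lam)
      linarith
    have h3 := habove _ h2
    have h4 := (hanti hc _ hc0 h2.le).2
    have h5 : 2 * D.lam * (hc + D.f hc / (4 * D.lam) - hc) = D.f hc / 2 := by
      field_simp
      ring
    rw [h5] at h4
    linarith
  have hcpos : 0 < hc := by
    rcases hc0.eq_or_lt with h | h
    · rw [← h] at hfc; linarith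
    · exact h
  refine ⟨hc, hcpos, ?_, ?_⟩
  · intro h h1
    constructor
    · intro h2
      by_contra h3
      push Not at h3
      have := (hanti hc h hc0 h3).1
      linarith
    · exact hbelow h h1
  · have hlim : Tendsto (fun h => 2 * D.lam * (hc - h)) (𝓝[<] hc) (𝓝 0) := by
      have h1 : Continuous (fun h : ℝ => 2 * D.lam * (hc - h)) := by fun_prop
      have h2 := (h1.tendsto hc).mono_left (nhdsWithin_le_nhds (s := Set.Iio hc))
      rw [sub_self, mul_zero] at h2
      exact h2
    refine tendsto_of_tendsto_of_tendsto_of_le_of_le' tendsto_const_nhds hlim ?_ ?_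
    · filter_upwards [Ioo_mem_nhdsLT hcpos] with h hh
      exact hnn h hh.1.le
    · filter_upwards [Ioo_mem_nhdsLT hcpos] with h hh
      have := (hanti h hc hh.1.le hh.2.le).2
      rw [hfc] at this
      linarith


end M_hc
end Cop764
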