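import Pool.Agent.Helper764.CopDefs
import Pool.Agent.Helper764.Cop_R
import Pool.Agent.Helper764.Cop_Z
import Pool.Agent.Helper764.Cop_Zmeas
import Pool.Agent.Helper764.Cop_FG
import Pool.Agent.Helper764.Cop_G
import Pool.Agent.Helper764.Cop_Fbd
import Pool.Agent.Helper764.Cop_indep
import Pool.Agent.Helper764.Cop_stat
import Pool.Agent.Helper764.Cop_loc
import Pool.Agent.Helper764.Cop_meas
import Pool.Agent.Helper764.Cop_K
import Pool.Agent.Helper764.Cop_int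
import Pool.Agent.Helper764.Cop_fe

set_option autoImplicit false
set_option maxHeartbeats 4000000
open MeasureTheory ProbabilityTheory Filter Topology
open scoped ENNReal NNReal

namespace Cop764
namespace M_mu

theorem given_R : St_R := M_R.J_R
theorem given_Z : St_Z := M_Z.J_Z
theorem given_Zmeas : St_Zmeas := M_Zmeas.J_Zmeas
theorem given_FG : St_FG := M_FG.J_FG
theorem given_G : St_G := M_G.J_G
theorem given_Fbd : St_Fbd := M_Fbd.J_Fbd
theorem given_indep : St_indep := M_indep.J_indep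
theorem given_stat : St_stat := M_stat.J_stat
theorem given_loc : St_loc := M_loc.J_loc
theorem given_meas : St_meas := M_meas.J_meas
theorem given_K : St_K := M_K.J_K
theorem given_int : St_int := M_int.J_int
theorem given_fe : St_fe := M_fe.J_fe




section muproof

theorem mu_indep_mul (D : Data) {s t : Finset ℕ} (hst : Disjoint s t) {f g : (ℕ → ℝ) → ℝ}
    (hf : Measurable f) (hg : Measurable g)
    (hfs : ∀ ω ω' : ℕ → ℝ, (∀ n ∈ s, ω n = ω' n) → f ω = f ω')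
    (hgt : ∀ ω ω' : ℕ → ℝ, (∀ n ∈ t, ω n = ω' n) → g ω = g ω') :
    ∫ ω, f ω * g ω ∂D.P = (∫ ω, f ω ∂D.P) * ∫ ω, g ω ∂D.P ∧
      (Integrable f D.P → Integrable g D.P → Integrable (fun ω => f ω * g ω) D.P) := by
  have h := given_indep D.ν s t hst f g hf hg hfs hgt
  have h' : IndepFun f g D.P := h
  exact ⟨h'.integral_fun_mul_eq_mul_integral hf.aestronglyMeasurable hg.aestronglyMeasurable,
    fun i1 i2 => h'.integrable_mul i1 i2⟩

theorem mu_shift_int (D : Data) {g : (ℕ → ℝ) → ℝ} (hg : Measurable g) (k : ℕ) :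
    ∫ ω, g (fun n => ω (n + k)) ∂D.P = ∫ ω, g ω ∂D.P := by
  have hm := given_stat D.ν k
  have h1 : ∫ ω, g ω ∂D.P = ∫ ω, g ω ∂(Measure.map (fun (ω : ℕ → ℝ) (n : ℕ) => ω (n + k)) D.P) := by
    unfold Data.P
    rw [hm.map_eq]
  rw [h1, integral_map hm.measurable.aemeasurable hg.aestronglyMeasurable]

theorem mu_shift_integrable (D : Data) {g : (ℕ → ℝ) → ℝ} (hg : Integrable g D.P) (k : ℕ) :
    Integrable (fun ω => g (fun n => ω (n + k))) D.P :=
  (given_stat D.ν k).integrable_comp_of_integrable hg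

theorem mu_shift_meas (g : (ℕ → ℝ) → ℝ) (hg : Measurable g) (k : ℕ) :
    Measurable (fun ω : ℕ → ℝ => g (fun n => ω (n + k))) :=
  hg.comp (measurable_pi_lambda _ fun n => measurable_pi_apply (n + k))

theorem mu_Rshift (D : Data) (h : ℝ) (i j k : ℕ) (ω : ℕ → ℝ) :
    D.R h i j (fun n => ω (n + k)) = D.R h (i + k) (j + k) ω := by
  unfold Data.R
  have e : D.w h (fun n => ω (n + k)) = fun n => D.w h ω (n + k) := rfl
  rw [e, given_loc.1, given_loc.2.2.1]

theorem mu_Rmeas (D : Data) (h : ℝ) (a b : ℕ) : Measurable (D.R h a b) := by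
  obtain ⟨h1, -, h3⟩ := given_meas D h a b
  unfold Data.R
  exact ((h3.exp).const_add 1).div h1

theorem mu_wdep (D : Data) (h : ℝ) {ω ω' : ℕ → ℝ} {a b : ℕ}
    (hω : ∀ n ∈ Finset.Ioc a b, ω n = ω' n) : ∀ n ∈ Finset.Ioc a b, D.w h ω n = D.w h ω' n := by
  intro n hn
  unfold Data.w
  rw [hω n hn]

theorem mu_Rdep (D : Data) (h : ℝ) (a b : ℕ) (ω ω' : ℕ → ℝ)
    (hω : ∀ n ∈ Finset.Ioc a b, ω n = ω' n) : D.R h a b ω = D.R h a b ω' := by
  obtain ⟨e1, e2, e3⟩ := given_loc.2.2.2 D.K (D.w h ω) (D.w h ω') a b (mu_wdep D h hω)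
  unfold Data.R
  rw [e1, e3]

theorem mu_Rbound (D : Data) {c0 : ℝ} {n0 : ℕ} (hK : KHyp D.K D.α c0 n0) (h : ℝ) (a b : ℕ)
    (hab : a = b ∨ a + n0 ≤ b) : ∃ B : ℝ, ∀ ω, 0 < D.R h a b ω ∧ D.R h a b ω ≤ B := by
  rcases hab with rfl | hab
  · refine ⟨2, fun ω => ?_⟩
    rw [(given_R D c0 n0 hK h ω).1 a]
    norm_num
  · exact ⟨2 / D.K (b - a), fun ω => (given_R D c0 n0 hK h ω).2.1 a b hab⟩

theorem mu_Rint (D : Data) {c0 : ℝ} {n0 : ℕ} (hK : KHyp D.K D.α c0 n0) (h : ℝ) (a b : ℕ)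
    (hab : a = b ∨ a + n0 ≤ b) : Integrable (D.R h a b) D.P := by
  obtain ⟨B, hB⟩ := mu_Rbound D hK h a b hab
  refine Integrable.of_bound (mu_Rmeas D h a b).aestronglyMeasurable B
    (Filter.Eventually.of_forall fun ω => ?_)
  rw [Real.norm_eq_abs, abs_of_pos (hB ω).1]
  exact (hB ω).2

/-- constrained moments -/
noncomputable def mrc (D : Data) (h : ℝ) (N : ℕ) : ℝ := ∫ ω, D.R h 0 N ω ∂D.P

theorem mrc_zero (D : Data) {c0 : ℝ} {n0 : ℕ} (hK : KHyp D.K D.α c0 n0) (h : ℝ) :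
    mrc D h 0 = 2 := by
  unfold mrc
  have : ∀ ω, D.R h 0 0 ω = 2 := fun ω => (given_R D c0 n0 hK h ω).1 0
  simp only [this]
  simp

theorem mrc_sub (D : Data) {c0 : ℝ} {n0 : ℕ} (hK : KHyp D.K D.α c0 n0) (h : ℝ) (a b : ℕ)
    (ha : a = 0 ∨ n0 ≤ a) (hb : b = 0 ∨ n0 ≤ b) : mrc D h (a + b) ≤ mrc D h a * mrc D h b := by
  have hab1 : (0 = a ∨ 0 + n0 ≤ a) := by omega
  have hab2 : (a = a + b ∨ a + n0 ≤ a + b) := by omega
  have hdisj : Disjoint (Finset.Ioc 0 a) (Finset.Ioc a (a + b)) := by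
    rw [Finset.disjoint_left]
    intro x hx hx'
    rw [Finset.mem_Ioc] at hx hx'
    omega
  have hmul := mu_indep_mul D hdisj (mu_Rmeas D h 0 a) (mu_Rmeas D h a (a + b))
    (mu_Rdep D h 0 a) (mu_Rdep D h a (a + b))
  have hi := hmul.2 (mu_Rint D hK h 0 a hab1) (mu_Rint D hK h a (a + b) hab2)
  have h2 : ∫ ω, D.R h a (a + b) ω ∂D.P = mrc D h b := by
    have := mu_shift_int D (mu_Rmeas D h 0 b) a
    unfold mrc
    rw [← this]
    refine integral_congr_ae (Filter.Eventually.of_forall fun ω => ?_)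
    simp only
    rw [mu_Rshift, zero_add, add_comm b a]
  calc mrc D h (a + b) ≤ ∫ ω, D.R h 0 a ω * D.R h a (a + b) ω ∂D.P := by
        unfold mrc
        refine integral_mono (mu_Rint D hK h 0 (a + b) (by omega)) hi fun ω => ?_
        exact (given_R D c0 n0 hK h ω).2.2 0 a (a + b) hab1 hab2
    _ = mrc D h a * mrc D h b := by rw [hmul.1, h2]; rfl



theorem mu_eval (D : Data) {g : ℝ → ℝ} (hg : Integrable g D.ν) (n : ℕ) :
    Integrable (fun ω : ℕ → ℝ => g (ω n)) D.P ∧ ∫ ω, g (ω n) ∂D.P = ∫ x, g x ∂D.ν := by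
  have hm : MeasurePreserving (Function.eval n) D.P D.ν :=
    measurePreserving_eval_infinitePi (fun _ : ℕ => D.ν) n
  refine ⟨hm.integrable_comp_of_integrable hg, ?_⟩
  have hg' := hg.aestronglyMeasurable
  rw [← hm.map_eq] at hg'
  have := integral_map hm.measurable.aemeasurable hg'
  rw [hm.map_eq] at this
  exact this.symm

theorem mu_expS_int (D : Data) (h t : ℝ) (m : ℕ) :
    Integrable (fun ω => Real.exp (t * S (D.w h ω) 0 m)) D.P := by
  induction m with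
  | zero =>
    have : ∀ ω, S (D.w h ω) 0 0 = 0 := by
      intro ω
      unfold S
      simp
    simp only [this, mul_zero, Real.exp_zero]
    exact integrable_const _
  | succ m ih =>
    have hS : ∀ ω, S (D.w h ω) 0 (m + 1) = S (D.w h ω) 0 m + D.w h ω (m + 1) := by
      intro ω
      unfold S
      rw [Finset.sum_Ioc_succ_top (Nat.zero_le m)]
    have hw : Integrable (fun ω : ℕ → ℝ => Real.exp (t * D.w h ω (m + 1))) D.P := by
      have h1 : Integrable (fun x : ℝ => Real.exp (t * (-2 * D.lam * h)) *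
          Real.exp ((t * (-2 * D.lam)) * x)) D.ν := (D.expm _).const_mul _
      have h2 := (mu_eval D h1 (m + 1)).1
      refine h2.congr (Filter.Eventually.of_forall fun ω => ?_)
      simp only
      rw [← Real.exp_add]
      congr 1
      unfold Data.w
      ring
    have hSm : Measurable (fun ω => S (D.w h ω) 0 m) := (given_meas D h 0 m).2.2
    have hwm : Measurable (fun ω : ℕ → ℝ => D.w h ω (m + 1)) := by
      unfold Data.w
      fun_prop
    have hdisj : Disjoint (Finset.Ioc 0 m) {m + 1} := by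
      rw [Finset.disjoint_left]
      intro x hx hx'
      rw [Finset.mem_Ioc] at hx
      rw [Finset.mem_singleton] at hx'
      omega
    have hmul := (mu_indep_mul D hdisj (f := fun ω => Real.exp (t * S (D.w h ω) 0 m))
      (g := fun ω => Real.exp (t * D.w h ω (m + 1)))
      ((hSm.const_mul t).exp) ((hwm.const_mul t).exp) (by
        intro ω ω' hω
        rw [(given_loc.2.2.2 D.K (D.w h ω) (D.w h ω') 0 m (mu_wdep D h hω)).2.2])
      (by
        intro ω ω' hω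
        unfold Data.w
        rw [hω (m + 1) (Finset.mem_singleton_self _)])).2 ih hw
    refine hmul.congr (Filter.Eventually.of_forall fun ω => ?_)
    simp only
    rw [hS, mul_add, Real.exp_add]

/-- `e^{2|S|}` -/
noncomputable def muX (D : Data) (h : ℝ) (m : ℕ) (ω : ℕ → ℝ) : ℝ :=
  Real.exp (2 * |S (D.w h ω) 0 m|)

theorem muX_meas (D : Data) (h : ℝ) (m : ℕ) : Measurable (muX D h m) := by
  unfold muX
  have hSm : Measurable (fun ω => S (D.w h ω) 0 m) := (given_meas D h 0 m).2.2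
  have habs : Measurable (fun ω => |S (D.w h ω) 0 m|) := by
    have := hSm.norm
    simpa [Real.norm_eq_abs] using this
  exact (habs.const_mul 2).exp

theorem muX_int (D : Data) (h : ℝ) (m : ℕ) : Integrable (muX D h m) D.P := by
  have h1 := (mu_expS_int D h 2 m).add (mu_expS_int D h (-2) m)
  refine h1.mono' (muX_meas D h m).aestronglyMeasurable (Filter.Eventually.of_forall fun ω => ?_)
  rw [Real.norm_eq_abs, abs_of_pos (by unfold muX; positivity)]
  simp only [Pi.add_apply]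
  unfold muX
  rcases le_total 0 (S (D.w h ω) 0 m) with h0 | h0
  · rw [abs_of_nonneg h0]
    have := Real.exp_pos (-2 * S (D.w h ω) 0 m)
    linarith
  · rw [abs_of_nonpos h0]
    have := Real.exp_pos (2 * S (D.w h ω) 0 m)
    have e : 2 * -S (D.w h ω) 0 m = -2 * S (D.w h ω) 0 m := by ring
    rw [e]
    linarith

theorem muX_shift (D : Data) (h : ℝ) (m k : ℕ) (ω : ℕ → ℝ) :
    muX D h m (fun n => ω (n + k)) = Real.exp (2 * |S (D.w h ω) k (m + k)|) := by
  unfold muX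
  have e : D.w h (fun n => ω (n + k)) = fun n => D.w h ω (n + k) := rfl
  rw [e, given_loc.2.2.1, zero_add]

/-- `(1+e^S)/F` -/
noncomputable def muR' (D : Data) (h : ℝ) (N : ℕ) (ω : ℕ → ℝ) : ℝ :=
  (1 + Real.exp (S (D.w h ω) 0 N)) / F D.K (D.w h ω) 0 N

theorem muR'_meas (D : Data) (h : ℝ) (N : ℕ) : Measurable (muR' D h N) := by
  obtain ⟨-, h2, h3⟩ := given_meas D h 0 N
  unfold muR'
  exact ((h3.exp).const_add 1).div h2

theorem mu_F_low (D : Data) {c0 : ℝ} {n0 : ℕ} (hK : KHyp D.K D.α c0 n0) (w : ℕ → ℝ)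
    (a b : ℕ) (hab : a ≤ b) : (1 + Real.exp (S w a b)) / 2 ≤ F D.K w a b :=
  (given_Fbd D.K w D.α c0 n0 hK a b hab).1

theorem mu_F_pos (D : Data) {c0 : ℝ} {n0 : ℕ} (hK : KHyp D.K D.α c0 n0) (w : ℕ → ℝ)
    (a b : ℕ) (hab : a ≤ b) : 0 < F D.K w a b := by
  have := mu_F_low D hK w a b hab
  have h2 := Real.exp_pos (S w a b)
  linarith

theorem muR'_bound (D : Data) {c0 : ℝ} {n0 : ℕ} (hK : KHyp D.K D.α c0 n0) (h : ℝ) (N : ℕ)
    (ω : ℕ → ℝ) : 0 < muR' D h N ω ∧ muR' D h N ω ≤ 2 := by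
  have h1 := mu_F_low D hK (D.w h ω) 0 N (Nat.zero_le _)
  have h2 := mu_F_pos D hK (D.w h ω) 0 N (Nat.zero_le _)
  have h3 := Real.exp_pos (S (D.w h ω) 0 N)
  unfold muR'
  constructor
  · positivity
  · rw [div_le_iff₀ h2]
    linarith

theorem muR'_int (D : Data) {c0 : ℝ} {n0 : ℕ} (hK : KHyp D.K D.α c0 n0) (h : ℝ) (N : ℕ) :
    Integrable (muR' D h N) D.P := by
  refine Integrable.of_bound (muR'_meas D h N).aestronglyMeasurable 2
    (Filter.Eventually.of_forall fun ω => ?_)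
  rw [Real.norm_eq_abs, abs_of_pos (muR'_bound D hK h N ω).1]
  exact (muR'_bound D hK h N ω).2

theorem muR'_dep (D : Data) (h : ℝ) (N : ℕ) (ω ω' : ℕ → ℝ)
    (hω : ∀ n ∈ Finset.Ioc 0 N, ω n = ω' n) : muR' D h N ω = muR' D h N ω' := by
  obtain ⟨e1, e2, e3⟩ := given_loc.2.2.2 D.K (D.w h ω) (D.w h ω') 0 N (mu_wdep D h hω)
  unfold muR'
  rw [e2, e3]

theorem muX_dep (D : Data) (h : ℝ) (N : ℕ) (ω ω' : ℕ → ℝ)
    (hω : ∀ n ∈ Finset.Ioc 0 N, ω n = ω' n) : muX D h N ω = muX D h N ω' := by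
  obtain ⟨e1, e2, e3⟩ := given_loc.2.2.2 D.K (D.w h ω) (D.w h ω') 0 N (mu_wdep D h hω)
  unfold muX
  rw [e3]

theorem mu_shift_dep {g : (ℕ → ℝ) → ℝ} {N : ℕ}
    (hg : ∀ ω ω' : ℕ → ℝ, (∀ n ∈ Finset.Ioc 0 N, ω n = ω' n) → g ω = g ω') (k : ℕ)
    (ω ω' : ℕ → ℝ) (hω : ∀ n ∈ Finset.Ioc k (N + k), ω n = ω' n) :
    g (fun n => ω (n + k)) = g (fun n => ω' (n + k)) := by
  apply hg
  intro n hn
  rw [Finset.mem_Ioc] at hn
  exact hω (n + k) (Finset.mem_Ioc.mpr (by omega))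

theorem muR'_shift (D : Data) (h : ℝ) (N k : ℕ) (ω : ℕ → ℝ) :
    muR' D h N (fun n => ω (n + k)) =
      (1 + Real.exp (S (D.w h ω) k (N + k))) / F D.K (D.w h ω) k (N + k) := by
  unfold muR'
  have e : D.w h (fun n => ω (n + k)) = fun n => D.w h ω (n + k) := rfl
  rw [e, given_loc.2.1, given_loc.2.2.1, zero_add]

theorem mu_G_pos (D : Data) {c0 : ℝ} {n0 : ℕ} (hK : KHyp D.K D.α c0 n0) (h : ℝ) (ω : ℕ → ℝ)
    (a b : ℕ) (hab : a + n0 ≤ b) : 0 < G D.K (D.w h ω) a b := by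
  have h1 := ((given_R D c0 n0 hK h ω).2.1 a b hab).1
  have h2 := (given_G D.K (D.w h ω) hK.nonneg).2.1 a b
  rcases h2.lt_or_eq with h3 | h3
  · exact h3
  · exfalso
    unfold Data.R at h1
    rw [← h3, div_zero] at h1
    exact lt_irrefl _ h1

/-- polynomial factor -/
noncomputable def mpol (D : Data) (c0 : ℝ) (n0 N : ℕ) : ℝ :=
  c0⁻¹ ^ 2 * ((N : ℝ) + 1) ^ 2 * ((N : ℝ) + n0) ^ (2 * (1 + D.α))

theorem mu_point (D : Data) {c0 : ℝ} {n0 : ℕ} (hK : KHyp D.K D.α c0 n0) (h : ℝ) (N : ℕ)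
    (ω : ℕ → ℝ) : D.R h 0 (N + 2 * n0) ω ≤ mpol D c0 n0 N * (muX D h n0 ω *
      (muR' D h N (fun n => ω (n + n0)) * muX D h n0 (fun n => ω (n + (N + n0))))) := by
  have hFG := given_FG D.K (D.w h ω) D.α c0 n0 hK n0 0 N le_rfl (Nat.zero_le _)
  have hGp := mu_G_pos D hK h ω 0 (N + 2 * n0) (by omega)
  have hFp := mu_F_pos D hK (D.w h ω) n0 (N + n0) (by omega)
  rw [muR'_shift, muX_shift]
  have e1 : n0 + (N + n0) = N + 2 * n0 := by ring
  rw [e1]
  have hS : S (D.w h ω) 0 (N + 2 * n0) = S (D.w h ω) 0 n0 + S (D.w h ω) n0 (N + n0) +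
      S (D.w h ω) (N + n0) (N + 2 * n0) := by
    unfold S
    rw [Finset.sum_Ioc_consecutive _ (Nat.zero_le _) (by omega),
      Finset.sum_Ioc_consecutive _ (Nat.zero_le _) (by omega)]
  unfold Data.R muX
  rw [hS]
  set x := S (D.w h ω) 0 n0 with hx
  set y := S (D.w h ω) n0 (N + n0) with hy
  set z := S (D.w h ω) (N + n0) (N + 2 * n0) with hz
  set G0 := G D.K (D.w h ω) 0 (N + 2 * n0) with hG0
  set F0 := F D.K (D.w h ω) n0 (N + n0) with hF0
  simp only [zero_add, Nat.cast_zero, sub_zero] at hFG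
  have hFG' : F0 ≤ mpol D c0 n0 N * Real.exp (|x| + |z|) * G0 := hFG
  have hexp : 1 + Real.exp (x + y + z) ≤ Real.exp (|x| + |z|) * (1 + Real.exp y) := by
    have h1 : 1 ≤ Real.exp (|x| + |z|) := Real.one_le_exp (by positivity)
    have h2 : Real.exp (x + y + z) ≤ Real.exp (|x| + |z|) * Real.exp y := by
      rw [← Real.exp_add]
      apply Real.exp_le_exp.mpr
      have := le_abs_self x
      have := le_abs_self z
      linarith
    nlinarith
  have hpol : 0 ≤ mpol D c0 n0 N := by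
    unfold mpol
    positivity
  rw [div_le_iff₀ hGp]
  have e2 : mpol D c0 n0 N * (Real.exp (2 * |x|) * ((1 + Real.exp y) / F0 *
      Real.exp (2 * |z|))) * G0 = (mpol D c0 n0 N * Real.exp (|x| + |z|) * G0) *
      (Real.exp (|x| + |z|) * (1 + Real.exp y)) / F0 := by
    have e3 : Real.exp (2 * |x|) * Real.exp (2 * |z|) =
        Real.exp (|x| + |z|) * Real.exp (|x| + |z|) := by
      rw [← Real.exp_add, ← Real.exp_add]
      congr 1
      ring
    calc mpol D c0 n0 N * (Real.exp (2 * |x|) * ((1 + Real.exp y) / F0 *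
      Real.exp (2 * |z|))) * G0 = mpol D c0 n0 N * (Real.exp (2 * |x|) * Real.exp (2 * |z|)) *
        ((1 + Real.exp y) / F0) * G0 := by ring
      _ = _ := by rw [e3]; ring
  rw [e2, le_div_iff₀ hFp]
  calc (1 + Real.exp (x + y + z)) * F0
      ≤ (Real.exp (|x| + |z|) * (1 + Real.exp y)) *
        (mpol D c0 n0 N * Real.exp (|x| + |z|) * G0) :=
        mul_le_mul hexp hFG' hFp.le (by positivity)
    _ = _ := by ring

theorem mu_compare (D : Data) {c0 : ℝ} {n0 : ℕ} (hK : KHyp D.K D.α c0 n0) (h : ℝ) (N : ℕ) :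
    mrc D h (N + 2 * n0) ≤ mpol D c0 n0 N * ((∫ ω, muX D h n0 ω ∂D.P) ^ 2 *
      ∫ ω, muR' D h N ω ∂D.P) := by
  have hXm := muX_meas D h n0
  have hR'm := muR'_meas D h N
  have hXi := muX_int D h n0
  have hR'i := muR'_int D hK h N
  have hd1 : Disjoint (Finset.Ioc n0 (N + n0)) (Finset.Ioc (N + n0) (n0 + (N + n0))) := by
    rw [Finset.disjoint_left]
    intro x hx hx'
    rw [Finset.mem_Ioc] at hx hx'
    omega
  have hm1 := mu_indep_mul D hd1 (mu_shift_meas _ hR'm n0) (mu_shift_meas _ hXm (N + n0))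
    (mu_shift_dep (muR'_dep D h N) n0) (mu_shift_dep (muX_dep D h n0) (N + n0))
  have hi1 := hm1.2 (mu_shift_integrable D hR'i n0) (mu_shift_integrable D hXi (N + n0))
  have hd2 : Disjoint (Finset.Ioc 0 n0) (Finset.Ioc n0 (n0 + (N + n0))) := by
    rw [Finset.disjoint_left]
    intro x hx hx'
    rw [Finset.mem_Ioc] at hx hx'
    omega
  have hm2 := mu_indep_mul D hd2 hXm
    (g := fun ω => muR' D h N (fun n => ω (n + n0)) * muX D h n0 (fun n => ω (n + (N + n0))))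
    ((mu_shift_meas _ hR'm n0).mul (mu_shift_meas _ hXm (N + n0)))
    (muX_dep D h n0) (by
      intro ω ω' hω
      rw [mu_shift_dep (muR'_dep D h N) n0 ω ω' (fun n hn => hω n (by
          rw [Finset.mem_Ioc] at hn ⊢; omega)),
        mu_shift_dep (muX_dep D h n0) (N + n0) ω ω' (fun n hn => hω n (by
          rw [Finset.mem_Ioc] at hn ⊢; omega))])
  have hi2 := hm2.2 hXi hi1
  have hval : ∫ ω, muX D h n0 ω * (muR' D h N (fun n => ω (n + n0)) *
      muX D h n0 (fun n => ω (n + (N + n0)))) ∂D.P = (∫ ω, muX D h n0 ω ∂D.P) ^ 2 *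
      ∫ ω, muR' D h N ω ∂D.P := by
    rw [hm2.1, hm1.1, mu_shift_int D hR'm n0, mu_shift_int D hXm (N + n0)]
    ring
  rw [← hval, ← integral_const_mul]
  unfold mrc
  exact integral_mono (mu_Rint D hK h 0 (N + 2 * n0) (by omega)) (hi2.const_mul _)
    fun ω => mu_point D hK h N ω



theorem mu_jensen {Ω : Type*} [MeasurableSpace Ω] (P : Measure Ω) [IsProbabilityMeasure P]
    {X g : Ω → ℝ} (hX : Integrable X P) (hg : Integrable g P)
    (hle : ∀ ω, Real.exp (-X ω) ≤ g ω) : Real.exp (-∫ ω, X ω ∂P) ≤ ∫ ω, g ω ∂P := by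
  set E := ∫ ω, X ω ∂P with hE
  have h1 : ∫ ω, Real.exp (-E) * (1 + E - X ω) ∂P = Real.exp (-E) := by
    rw [integral_const_mul, integral_sub (integrable_const _) hX, integral_const]
    simp only [probReal_univ, smul_eq_mul, one_mul]
    rw [← hE]
    ring
  rw [← h1]
  refine integral_mono (((integrable_const _).sub hX).const_mul _) hg fun ω => ?_
  refine le_trans ?_ (hle ω)
  simp only [Pi.sub_apply]
  have h2 : E - X ω + 1 ≤ Real.exp (E - X ω) := Real.add_one_le_exp _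
  have h3 : Real.exp (-X ω) = Real.exp (-E) * Real.exp (E - X ω) := by
    rw [← Real.exp_add]
    congr 1
    ring
  rw [h3]
  refine mul_le_mul_of_nonneg_left ?_ (Real.exp_pos _).le
  linarith

theorem mu_int_id (D : Data) : Integrable (fun x : ℝ => x) D.ν := by
  have h1 := (D.expm 1).add (D.expm (-1))
  refine h1.mono' measurable_id.aestronglyMeasurable (Filter.Eventually.of_forall fun x => ?_)
  simp only [Pi.add_apply, one_mul, neg_one_mul]
  rw [Real.norm_eq_abs, abs_le]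
  have h2 := Real.add_one_le_exp x
  have h3 := Real.add_one_le_exp (-x)
  have h4 := Real.exp_pos x
  have h5 := Real.exp_pos (-x)
  constructor <;> linarith

theorem mu_int_absw (D : Data) (h : ℝ) :
    Integrable (fun x : ℝ => |-2 * D.lam * (x + h)|) D.ν := by
  have h1 : Integrable (fun x : ℝ => -2 * D.lam * (x + h)) D.ν :=
    ((mu_int_id D).add (integrable_const h)).const_mul _
  exact h1.abs

theorem mrc_low (D : Data) {c0 : ℝ} {n0 : ℕ} (hK : KHyp D.K D.α c0 n0) (h : ℝ) :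
    ∃ c : ℝ, 0 ≤ c ∧ ∀ N : ℕ, n0 ≤ N → Real.exp (-(c * N)) ≤ mrc D h N := by
  refine ⟨∫ x, |-2 * D.lam * (x + h)| ∂D.ν, integral_nonneg fun x => abs_nonneg _, ?_⟩
  intro N hN
  have hi : ∀ n : ℕ, Integrable (fun ω : ℕ → ℝ => |D.w h ω n|) D.P ∧
      ∫ ω, |D.w h ω n| ∂D.P = ∫ x, |-2 * D.lam * (x + h)| ∂D.ν :=
    fun n => mu_eval D (mu_int_absw D h) n
  have hsi : Integrable (fun ω : ℕ → ℝ => ∑ n ∈ Finset.Ioc 0 N, |D.w h ω n|) D.P :=
    integrable_finsetSum _ fun n _ => (hi n).1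
  have hval : ∫ ω, ∑ n ∈ Finset.Ioc 0 N, |D.w h ω n| ∂D.P =
      (∫ x, |-2 * D.lam * (x + h)| ∂D.ν) * N := by
    rw [integral_finsetSum _ fun n _ => (hi n).1]
    rw [Finset.sum_congr rfl fun n _ => (hi n).2]
    simp
    ring
  rw [← hval]
  unfold mrc
  refine mu_jensen D.P hsi (mu_Rint D hK h 0 N (by omega)) fun ω => ?_
  have h1 := ((given_Fbd D.K (D.w h ω) D.α c0 n0 hK 0 N (Nat.zero_le _)).2
    (fun n => |D.w h ω n|) (fun n => abs_nonneg _) (fun n => le_abs_self _)).1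
  have h2 := mu_G_pos D hK h ω 0 N (by omega)
  unfold Data.R
  rw [le_div_iff₀ h2, Real.exp_neg]
  have h3 : S (fun n => |D.w h ω n|) 0 N = ∑ n ∈ Finset.Ioc 0 N, |D.w h ω n| := rfl
  rw [h3] at h1
  have h4 := Real.exp_pos (S (D.w h ω) 0 N)
  calc (Real.exp (∑ n ∈ Finset.Ioc 0 N, |D.w h ω n|))⁻¹ * G D.K (D.w h ω) 0 N
      ≤ (Real.exp (∑ n ∈ Finset.Ioc 0 N, |D.w h ω n|))⁻¹ *
        Real.exp (∑ n ∈ Finset.Ioc 0 N, |D.w h ω n|) :=
        mul_le_mul_of_nonneg_left h1 (by positivity)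
    _ = 1 := inv_mul_cancel₀ (Real.exp_pos _).ne'
    _ ≤ 1 + Real.exp (S (D.w h ω) 0 N) := by linarith

/-- the integrand of `muN` -/
noncomputable def mrint (D : Data) (h : ℝ) (N : ℕ) (ω : ℕ → ℝ) : ℝ :=
  (1 + Real.exp (-2 * D.lam * ∑ n ∈ Finset.Icc 1 N, (ω n + h))) * (Z D.κ D.lam h N ω)⁻¹

/-- the moment in `muN` -/
noncomputable def mrr (D : Data) (h : ℝ) (N : ℕ) : ℝ := ∫ ω, mrint D h N ω ∂D.P

theorem muN_eq (D : Data) (h : ℝ) (N : ℕ) :
    muN D.κ D.ν D.lam h N = -((N : ℝ)⁻¹ * Real.log (mrr D h N)) := rfl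

theorem mrint_eq (D : Data) (h : ℝ) (N : ℕ) (ω : ℕ → ℝ) :
    mrint D h N ω = (1 + Real.exp (S (D.w h ω) 0 N)) / Z D.κ D.lam h N ω := by
  unfold mrint
  rw [div_eq_mul_inv]
  congr 3
  unfold S Data.w
  rw [Finset.mul_sum]
  rfl

theorem mu_Z_pos (D : Data) {c0 : ℝ} {n0 : ℕ} (hK : KHyp D.K D.α c0 n0) (h : ℝ) (ω : ℕ → ℝ)
    (N : ℕ) (hN : n0 ≤ N) : 0 < Z D.κ D.lam h N ω :=
  lt_of_lt_of_le (mu_G_pos D hK h ω 0 N (by omega)) (given_Z D h ω N).1

theorem mrint_le (D : Data) {c0 : ℝ} {n0 : ℕ} (hK : KHyp D.K D.α c0 n0) (h : ℝ) (ω : ℕ → ℝ)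
    (N : ℕ) (hN : n0 ≤ N) : muR' D h N ω ≤ mrint D h N ω ∧ mrint D h N ω ≤ D.R h 0 N ω := by
  rw [mrint_eq]
  have hZ := mu_Z_pos D hK h ω N hN
  have hG := mu_G_pos D hK h ω 0 N (by omega)
  have h1 := Real.exp_pos (S (D.w h ω) 0 N)
  unfold muR' Data.R
  exact ⟨div_le_div_of_nonneg_left (by positivity) hZ (given_Z D h ω N).2,
    div_le_div_of_nonneg_left (by positivity) hG (given_Z D h ω N).1⟩

theorem mrint_int (D : Data) {c0 : ℝ} {n0 : ℕ} (hK : KHyp D.K D.α c0 n0) (h : ℝ)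
    (N : ℕ) (hN : n0 ≤ N) : Integrable (mrint D h N) D.P := by
  have hm : Measurable (mrint D h N) := by
    have e : mrint D h N = fun ω => (1 + Real.exp (S (D.w h ω) 0 N)) / Z D.κ D.lam h N ω :=
      funext fun ω => mrint_eq D h N ω
    rw [e]
    exact (((given_meas D h 0 N).2.2.exp).const_add 1).div (given_Zmeas D.κ D.lam h N)
  refine (mu_Rint D hK h 0 N (by omega)).mono' hm.aestronglyMeasurable
    (Filter.Eventually.of_forall fun ω => ?_)
  have h1 := mrint_le D hK h ω N hN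
  rw [Real.norm_eq_abs, abs_of_nonneg ((muR'_bound D hK h N ω).1.le.trans h1.1)]
  exact h1.2

theorem mrr_le (D : Data) {c0 : ℝ} {n0 : ℕ} (hK : KHyp D.K D.α c0 n0) (h : ℝ)
    (N : ℕ) (hN : n0 ≤ N) : mrr D h N ≤ mrc D h N :=
  integral_mono (mrint_int D hK h N hN) (mu_Rint D hK h 0 N (by omega))
    fun ω => (mrint_le D hK h ω N hN).2

theorem mrr_ge (D : Data) {c0 : ℝ} {n0 : ℕ} (hK : KHyp D.K D.α c0 n0) (h : ℝ)
    (N : ℕ) (hN : n0 ≤ N) : ∫ ω, muR' D h N ω ∂D.P ≤ mrr D h N :=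
  integral_mono (muR'_int D hK h N) (mrint_int D hK h N hN)
    fun ω => (mrint_le D hK h ω N hN).1

theorem mrr_exp (D : Data) {c0 : ℝ} {n0 : ℕ} (hK : KHyp D.K D.α c0 n0) (h : ℝ) (hh : 0 ≤ h)
    (N : ℕ) (hN : n0 ≤ N) :
    Real.exp (-∫ ω, Real.log (Z D.κ D.lam h N ω) ∂D.P) ≤ mrr D h N := by
  refine mu_jensen D.P ((given_int D c0 n0 hK h hh).2.2 N hN) (mrint_int D hK h N hN) fun ω => ?_
  have hZ := mu_Z_pos D hK h ω N hN
  rw [Real.exp_neg, Real.exp_log hZ]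
  unfold mrint
  have h1 := Real.exp_pos (-2 * D.lam * ∑ n ∈ Finset.Icc 1 N, (ω n + h))
  have h2 : 0 < (Z D.κ D.lam h N ω)⁻¹ := inv_pos.mpr hZ
  nlinarith

theorem mrr_pos (D : Data) {c0 : ℝ} {n0 : ℕ} (hK : KHyp D.K D.α c0 n0) (h : ℝ) (hh : 0 ≤ h)
    (N : ℕ) (hN : n0 ≤ N) : 0 < mrr D h N :=
  lt_of_lt_of_le (Real.exp_pos _) (mrr_exp D hK h hh N hN)

theorem mrc_pos (D : Data) {c0 : ℝ} {n0 : ℕ} (hK : KHyp D.K D.α c0 n0) (h : ℝ)
    (N : ℕ) (hN : N = 0 ∨ n0 ≤ N) : 0 < mrc D h N := by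
  rcases hN with rfl | hN
  · rw [mrc_zero D hK h]; norm_num
  · obtain ⟨c, -, hc⟩ := mrc_low D hK h
    exact lt_of_lt_of_le (Real.exp_pos _) (hc N hN)

/-- composition lemma -/
theorem mu_lim_comp (u : ℕ → ℝ) (L : ℝ) (hu : Tendsto (fun j : ℕ => u j / j) atTop (𝓝 L))
    (n0 : ℕ) (hn0 : 1 ≤ n0) (k : ℕ → ℕ) (hk : ∀ N, |(k N : ℝ) - (N : ℝ) / n0| ≤ 5) :
    Tendsto (fun N : ℕ => u (k N) / N) atTop (𝓝 (L / n0)) := by
  have hn0' : (0 : ℝ) < n0 := by exact_mod_cast hn0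
  have hktop : Tendsto k atTop atTop := by
    rw [← tendsto_natCast_atTop_iff (R := ℝ)]
    have h1 : Tendsto (fun N : ℕ => (N : ℝ) / n0 - 5) atTop atTop :=
      Filter.tendsto_atTop_add_const_right _ _
        (tendsto_natCast_atTop_atTop.atTop_div_const hn0')
    refine tendsto_atTop_mono (fun N => ?_) h1
    have := (abs_le.mp (hk N)).1
    linarith
  have hratio : Tendsto (fun N : ℕ => (k N : ℝ) / N) atTop (𝓝 (1 / n0)) := by
    have h0 : Tendsto (fun N : ℕ => (5 : ℝ) / N) atTop (𝓝 0) :=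
      tendsto_const_nhds.div_atTop tendsto_natCast_atTop_atTop
    have h1 : Tendsto (fun N : ℕ => ((k N : ℝ) - (N : ℝ) / n0) / N) atTop (𝓝 0) := by
      refine squeeze_zero_norm (fun N => ?_) h0
      rw [norm_div, Real.norm_eq_abs, Real.norm_natCast]
      exact div_le_div_of_nonneg_right (hk N) (Nat.cast_nonneg _)
    have h2 : Tendsto (fun N : ℕ => 1 / (n0 : ℝ) + ((k N : ℝ) - (N : ℝ) / n0) / N) atTop
        (𝓝 (1 / n0 + 0)) := tendsto_const_nhds.add h1
    rw [add_zero] at h2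
    refine h2.congr' ?_
    filter_upwards [eventually_gt_atTop 0] with N hN
    have hN' : (N : ℝ) ≠ 0 := by exact_mod_cast hN.ne'
    field_simp
    ring
  have h3 := (hu.comp hktop).mul hratio
  have e : L * (1 / n0) = L / n0 := by ring
  rw [e] at h3
  refine h3.congr' ?_
  filter_upwards [eventually_gt_atTop 0, hktop.eventually_gt_atTop 0] with N hN hkN
  have hN' : (N : ℝ) ≠ 0 := by exact_mod_cast hN.ne'
  have hkN' : (k N : ℝ) ≠ 0 := by exact_mod_cast hkN.ne'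
  simp only [Function.comp]
  field_simp



theorem mu_cast_bounds (n0 : ℕ) (hn0 : 1 ≤ n0) (N : ℕ) :
    ((N / n0 : ℕ) : ℝ) ≤ (N : ℝ) / n0 ∧ (N : ℝ) / n0 < ((N / n0 : ℕ) : ℝ) + 1 := by
  have hn0' : (0 : ℝ) < n0 := by exact_mod_cast hn0
  refine ⟨Nat.cast_div_le, ?_⟩
  rw [div_lt_iff₀ hn0']
  have h1 : N < (N / n0 + 1) * n0 := by
    have := Nat.lt_mul_div_succ N (show 0 < n0 by omega)
    rw [mul_comm]
    exact this
  exact_mod_cast h1

theorem mu_upper (D : Data) {c0 : ℝ} {n0 : ℕ} (hK : KHyp D.K D.α c0 n0) (h : ℝ) {A : ℝ}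
    (hA : ∀ s, n0 ≤ s → s ≤ 2 * n0 → mrc D h s ≤ A) (N : ℕ) (hN : n0 ≤ N) :
    mrr D h N ≤ mrc D h ((N / n0 - 1) * n0) * A := by
  have hn0 := hK.n0_pos
  have hq : 1 ≤ N / n0 := (Nat.one_le_div_iff (by omega)).mpr hN
  obtain ⟨q, hq'⟩ : ∃ q, N / n0 = q + 1 := ⟨N / n0 - 1, by omega⟩
  have hdm := Nat.div_add_mod N n0
  have hr := Nat.mod_lt N (show 0 < n0 by omega)
  set r := N % n0 with hrdef
  rw [hq'] at hdm ⊢
  have hN2 : N = q * n0 + (r + n0) := by
    rw [← hdm]; ring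
  have hq3 : q + 1 - 1 = q := by omega
  rw [hq3]
  have hqn : q * n0 = 0 ∨ n0 ≤ q * n0 := by
    rcases Nat.eq_zero_or_pos q with h0 | h0
    · left; rw [h0, zero_mul]
    · right; exact Nat.le_mul_of_pos_left n0 h0
  have h1 := mrc_sub D hK h (q * n0) (r + n0) hqn (Or.inr (by omega))
  rw [← hN2] at h1
  have h2 := hA (r + n0) (by omega) (by omega)
  have h3 := mrc_pos D hK h (q * n0) hqn
  exact (mrr_le D hK h N hN).trans (h1.trans (mul_le_mul_of_nonneg_left h2 h3.le))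

theorem mu_lower (D : Data) {c0 : ℝ} {n0 : ℕ} (hK : KHyp D.K D.α c0 n0) (h : ℝ) {A : ℝ}
    (hA : ∀ s, n0 ≤ s → s ≤ 2 * n0 → mrc D h s ≤ A) (hA0 : 0 ≤ A) (N : ℕ) (hN : n0 ≤ N) :
    mrc D h ((N / n0 + 4) * n0) ≤
      (mpol D c0 n0 N * ((∫ ω, muX D h n0 ω ∂D.P) ^ 2 * mrr D h N)) * A := by
  have hn0 := hK.n0_pos
  have hdm := Nat.div_add_mod N n0
  have hr := Nat.mod_lt N (show 0 < n0 by omega)
  set r := N % n0 with hrdef
  set q := N / n0 with hqdef
  obtain ⟨s, hs⟩ : ∃ s, r + s = 2 * n0 := ⟨2 * n0 - r, by omega⟩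
  have hN2 : (q + 4) * n0 = (N + 2 * n0) + s := by
    have e1 : (q + 4) * n0 = n0 * q + 4 * n0 := by ring
    rw [e1]
    omega
  rw [hN2]
  have h1 := mrc_sub D hK h (N + 2 * n0) s (Or.inr (by omega)) (Or.inr (by omega))
  have h2 := hA s (by omega) (by omega)
  have h3 := mrc_pos D hK h (N + 2 * n0) (Or.inr (by omega))
  have h4 := mu_compare D hK h N
  have h5 := mrr_ge D hK h N hN
  have hpol : 0 ≤ mpol D c0 n0 N := by
    unfold mpol
    positivity
  have h6 : mpol D c0 n0 N * ((∫ ω, muX D h n0 ω ∂D.P) ^ 2 * ∫ ω, muR' D h N ω ∂D.P) ≤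
      mpol D c0 n0 N * ((∫ ω, muX D h n0 ω ∂D.P) ^ 2 * mrr D h N) :=
    mul_le_mul_of_nonneg_left (mul_le_mul_of_nonneg_left h5 (sq_nonneg _)) hpol
  calc mrc D h (N + 2 * n0 + s) ≤ mrc D h (N + 2 * n0) * mrc D h s := h1
    _ ≤ mrc D h (N + 2 * n0) * A := mul_le_mul_of_nonneg_left h2 h3.le
    _ ≤ _ := mul_le_mul_of_nonneg_right (h4.trans h6) hA0

theorem mu_logpol (D : Data) {c0 : ℝ} {n0 : ℕ} (hK : KHyp D.K D.α c0 n0) (N : ℕ) (hN : n0 ≤ N) :
    0 < mpol D c0 n0 N ∧ Real.log (mpol D c0 n0 N) ≤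
      Real.log (c0⁻¹ ^ 2) + (2 + 2 * (1 + D.α)) * Real.log (2 * N) := by
  have hn0 := hK.n0_pos
  have hc0 := hK.c0_pos
  have hα := hK.alpha_pos
  have hN1 : (1 : ℝ) ≤ N := by exact_mod_cast hn0.trans hN
  have hnN : (n0 : ℝ) ≤ N := by exact_mod_cast hN
  have hn0' : (0 : ℝ) < n0 := by exact_mod_cast hn0
  have hpos : 0 < mpol D c0 n0 N := by
    unfold mpol
    positivity
  refine ⟨hpos, ?_⟩
  have hle : mpol D c0 n0 N ≤ c0⁻¹ ^ 2 * (2 * (N : ℝ)) ^ 2 * (2 * (N : ℝ)) ^ (2 * (1 + D.α)) := by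
    unfold mpol
    have h1 : ((N : ℝ) + 1) ^ 2 ≤ (2 * (N : ℝ)) ^ 2 :=
      pow_le_pow_left₀ (by positivity) (by linarith) 2
    have h2 : ((N : ℝ) + n0) ^ (2 * (1 + D.α)) ≤ (2 * (N : ℝ)) ^ (2 * (1 + D.α)) :=
      Real.rpow_le_rpow (by positivity) (by linarith) (by positivity)
    exact mul_le_mul (mul_le_mul_of_nonneg_left h1 (by positivity)) h2 (by positivity)
      (by positivity)
  refine (Real.log_le_log hpos hle).trans (le_of_eq ?_)
  have hl2 : Real.log ((2 * (N : ℝ)) ^ 2) = 2 * Real.log (2 * (N : ℝ)) := by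
    rw [Real.log_pow]
    norm_num
  rw [Real.log_mul (by positivity) (by positivity), Real.log_mul (by positivity) (by positivity),
    hl2, Real.log_rpow (by positivity)]
  ring

theorem mu_log2N : Tendsto (fun N : ℕ => Real.log (2 * N) / N) atTop (𝓝 0) := by
  have h1 := Real.isLittleO_log_id_atTop.tendsto_div_nhds_zero
  have h2 : Tendsto (fun N : ℕ => 2 * (N : ℝ)) atTop atTop :=
    tendsto_natCast_atTop_atTop.const_mul_atTop (by norm_num)
  have h3 := (h1.comp h2).const_mul 2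
  rw [mul_zero] at h3
  refine h3.congr' ?_
  filter_upwards [eventually_gt_atTop 0] with N hN
  have hN' : (N : ℝ) ≠ 0 := by exact_mod_cast hN.ne'
  simp only [Function.comp, id]
  field_simp

theorem mu_main (D : Data) {c0 : ℝ} {n0 : ℕ} (hK : KHyp D.K D.α c0 n0) (h : ℝ) (hh : 0 ≤ h) :
    ∃ L : ℝ, Tendsto (fun N : ℕ => Real.log (mrr D h N) / N) atTop (𝓝 L) := by
  have hn0 := hK.n0_pos
  have hn0' : (0 : ℝ) < n0 := by exact_mod_cast hn0
  set u : ℕ → ℝ := fun j => Real.log (mrc D h (j * n0)) with hu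
  have hcond : ∀ j, j * n0 = 0 ∨ n0 ≤ j * n0 := by
    intro j
    rcases Nat.eq_zero_or_pos j with h0 | h0
    · left; rw [h0, zero_mul]
    · right; exact Nat.le_mul_of_pos_left n0 h0
  have hpos : ∀ j, 0 < mrc D h (j * n0) := fun j => mrc_pos D hK h _ (hcond j)
  have hsub : Subadditive u := by
    intro i j
    rw [hu]
    simp only
    rw [← Real.log_mul (hpos i).ne' (hpos j).ne', add_mul]
    refine Real.log_le_log ?_ (mrc_sub D hK h _ _ (hcond i) (hcond j))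
    rw [← add_mul]
    exact hpos (i + j)
  obtain ⟨c, hc0, hc⟩ := mrc_low D hK h
  have hbdd : BddBelow (Set.range fun n : ℕ => u n / n) := by
    refine ⟨-(c * n0), ?_⟩
    rintro _ ⟨n, rfl⟩
    rcases Nat.eq_zero_or_pos n with h0 | h0
    · subst h0
      simp only [Nat.cast_zero, div_zero]
      have : 0 ≤ c * n0 := by positivity
      linarith
    · have hn' : (0 : ℝ) < n := by exact_mod_cast h0
      simp only
      rw [le_div_iff₀ hn']
      have h1 := hc (n * n0) (Nat.le_mul_of_pos_left n0 h0)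
      have h2 : -(c * ((n * n0 : ℕ) : ℝ)) ≤ u n := (Real.le_log_iff_exp_le (hpos n)).mpr h1
      push_cast at h2
      linarith
  have hlim := hsub.tendsto_lim hbdd
  set L := hsub.lim with hL
  obtain ⟨A, hA1, hA⟩ : ∃ A : ℝ, 1 ≤ A ∧ ∀ s, n0 ≤ s → s ≤ 2 * n0 → mrc D h s ≤ A := by
    have hnn : ∀ s ∈ Finset.Icc n0 (2 * n0), 0 ≤ mrc D h s := by
      intro s hs
      rw [Finset.mem_Icc] at hs
      exact (mrc_pos D hK h s (Or.inr hs.1)).le
    refine ⟨1 + ∑ s ∈ Finset.Icc n0 (2 * n0), mrc D h s, ?_, ?_⟩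
    · have := Finset.sum_nonneg hnn
      linarith
    · intro s h1 h2
      have := Finset.single_le_sum hnn (Finset.mem_Icc.mpr ⟨h1, h2⟩)
      linarith
  have hA0 : 0 < A := by linarith
  set B : ℝ := (∫ ω, muX D h n0 ω ∂D.P) ^ 2 + 1 with hB
  have hB0 : 0 < B := by positivity
  set Cst : ℝ := Real.log (A * B) + Real.log (c0⁻¹ ^ 2) with hCst
  have hk1 : Tendsto (fun N : ℕ => u (N / n0 - 1) / N) atTop (𝓝 (L / n0)) := by
    refine mu_lim_comp u L hlim n0 hn0 (fun N => N / n0 - 1) ?_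
    intro N
    obtain ⟨h1, h2⟩ := mu_cast_bounds n0 hn0 N
    have h3 : ((N / n0 : ℕ) : ℝ) - 1 ≤ ((N / n0 - 1 : ℕ) : ℝ) := by
      have : N / n0 ≤ (N / n0 - 1) + 1 := by omega
      have h4 : ((N / n0 : ℕ) : ℝ) ≤ ((N / n0 - 1 : ℕ) : ℝ) + 1 := by exact_mod_cast this
      linarith
    have h5 : ((N / n0 - 1 : ℕ) : ℝ) ≤ ((N / n0 : ℕ) : ℝ) := by
      exact_mod_cast Nat.sub_le _ _
    rw [abs_le]
    constructor <;> linarith
  have hk2 : Tendsto (fun N : ℕ => u (N / n0 + 4) / N) atTop (𝓝 (L / n0)) := by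
    refine mu_lim_comp u L hlim n0 hn0 (fun N => N / n0 + 4) ?_
    intro N
    obtain ⟨h1, h2⟩ := mu_cast_bounds n0 hn0 N
    rw [abs_le]
    push_cast
    constructor <;> linarith
  have hup : Tendsto (fun N : ℕ => u (N / n0 - 1) / N + Real.log A / N) atTop (𝓝 (L / n0)) := by
    have h1 : Tendsto (fun N : ℕ => Real.log A / (N : ℝ)) atTop (𝓝 0) :=
      tendsto_const_nhds.div_atTop tendsto_natCast_atTop_atTop
    simpa using hk1.add h1
  have hlo : Tendsto (fun N : ℕ => u (N / n0 + 4) / N - Cst / N -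
      (2 + 2 * (1 + D.α)) * (Real.log (2 * N) / N)) atTop (𝓝 (L / n0)) := by
    have h1 : Tendsto (fun N : ℕ => Cst / (N : ℝ)) atTop (𝓝 0) :=
      tendsto_const_nhds.div_atTop tendsto_natCast_atTop_atTop
    have h2 := mu_log2N.const_mul (2 + 2 * (1 + D.α))
    simpa using (hk2.sub h1).sub h2
  refine ⟨L / n0, tendsto_of_tendsto_of_tendsto_of_le_of_le' hlo hup ?_ ?_⟩
  · filter_upwards [eventually_ge_atTop n0] with N hN
    have hN' : (0 : ℝ) < N := by exact_mod_cast lt_of_lt_of_le (show 0 < n0 by omega) hN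
    have h1 := mu_lower D hK h hA hA0.le N hN
    obtain ⟨hp0, hp⟩ := mu_logpol D hK N hN
    have hr := mrr_pos D hK h hh N hN
    have h2 : mrc D h ((N / n0 + 4) * n0) ≤ (A * B) * mpol D c0 n0 N * mrr D h N := by
      refine h1.trans ?_
      have h3 : (∫ ω, muX D h n0 ω ∂D.P) ^ 2 * mrr D h N ≤ B * mrr D h N :=
        mul_le_mul_of_nonneg_right (by rw [hB]; linarith) hr.le
      have h4 := mul_le_mul_of_nonneg_right (mul_le_mul_of_nonneg_left h3 hp0.le) hA0.le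
      refine h4.trans (le_of_eq ?_)
      ring
    have h5 : u (N / n0 + 4) ≤ Real.log (A * B) + Real.log (mpol D c0 n0 N) +
        Real.log (mrr D h N) := by
      rw [← Real.log_mul (by positivity) hp0.ne', ← Real.log_mul (by positivity) hr.ne']
      exact Real.log_le_log (hpos _) h2
    have h6 : u (N / n0 + 4) - Cst - (2 + 2 * (1 + D.α)) * Real.log (2 * N) ≤
        Real.log (mrr D h N) := by
      rw [hCst]
      linarith
    have h7 := div_le_div_of_nonneg_right h6 hN'.le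
    refine le_trans (le_of_eq ?_) h7
    ring
  · filter_upwards [eventually_ge_atTop n0] with N hN
    have hN' : (0 : ℝ) < N := by exact_mod_cast lt_of_lt_of_le (show 0 < n0 by omega) hN
    have h1 := mu_upper D hK h hA N hN
    have hr := mrr_pos D hK h hh N hN
    have h2 := Real.log_le_log hr h1
    rw [Real.log_mul (hpos _).ne' hA0.ne'] at h2
    have h7 := div_le_div_of_nonneg_right h2 hN'.le
    rw [add_div] at h7
    exact h7

theorem mu_pow (D : Data) {c0 : ℝ} {n0 : ℕ} (hK : KHyp D.K D.α c0 n0) (h : ℝ) (N : ℕ)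
    (hN : n0 ≤ N) (hle : mrc D h N ≤ Real.exp (-1)) (j : ℕ) :
    mrc D h ((j + 1) * N) ≤ Real.exp (-((j : ℝ) + 1)) := by
  have hn0 := hK.n0_pos
  induction j with
  | zero =>
    simp only [zero_add, one_mul, Nat.cast_zero]
    exact hle
  | succ j ih =>
    have e : (j + 1 + 1) * N = (j + 1) * N + N := by ring
    rw [e]
    have h1 := mrc_sub D hK h ((j + 1) * N) N
      (Or.inr (hN.trans (Nat.le_mul_of_pos_left N (by omega)))) (Or.inr hN)
    have h2 := mrc_pos D hK h N (Or.inr hN)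
    have h3 : mrc D h ((j + 1) * N) * mrc D h N ≤
        Real.exp (-((j : ℝ) + 1)) * Real.exp (-1) :=
      mul_le_mul ih hle h2.le (Real.exp_pos _).le
    refine h1.trans (h3.trans (le_of_eq ?_))
    rw [← Real.exp_add]
    congr 1
    push_cast
    ring

end muproof


theorem J_mu : St_mu := by
  intro D c0 n0 hK h hh
  have hn0 := hK.n0_pos
  obtain ⟨L, hL⟩ := mu_main D hK h hh
  have hmuN : Tendsto (muN D.κ D.ν D.lam h) atTop (𝓝 (-L)) := by
    have h1 := hL.neg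
    refine h1.congr fun N => ?_
    rw [muN_eq]
    ring
  have hmu : D.mu h = -L := by
    unfold Data.mu Cop764.mu
    exact hmuN.limUnder_eq
  rw [← hmu] at hmuN
  refine ⟨hmuN, ?_, ?_⟩
  · refine le_of_tendsto_of_tendsto hmuN (given_fe D h hh).1 ?_
    filter_upwards [eventually_ge_atTop n0] with N hN
    have hr := mrr_pos D hK h hh N hN
    have h1 : -∫ ω, Real.log (Z D.κ D.lam h N ω) ∂D.P ≤ Real.log (mrr D h N) :=
      (Real.le_log_iff_exp_le hr).mpr (mrr_exp D hK h hh N hN)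
    rw [muN_eq]
    unfold feN
    have h2 : (0 : ℝ) ≤ (N : ℝ)⁻¹ := by positivity
    have h3 : -Real.log (mrr D h N) ≤ ∫ ω, Real.log (Z D.κ D.lam h N ω) ∂D.P := by linarith
    have h4 := mul_le_mul_of_nonneg_left h3 h2
    have h5 : -((N : ℝ)⁻¹ * Real.log (mrr D h N)) = (N : ℝ)⁻¹ * -Real.log (mrr D h N) := by ring
    rw [h5]
    exact h4
  · intro N hN hle
    have hN0 : 0 < N := by omega
    have hN' : (0 : ℝ) < N := by exact_mod_cast hN0
    have hk : Tendsto (fun j : ℕ => (j + 1) * N) atTop atTop := by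
      refine tendsto_atTop_mono (fun j => ?_) tendsto_id
      simp only [id]
      exact (Nat.le_succ j).trans (Nat.le_mul_of_pos_right (j + 1) hN0)
    refine ge_of_tendsto (hmuN.comp hk) (Filter.Eventually.of_forall fun j => ?_)
    simp only [Function.comp]
    have hNj : n0 ≤ (j + 1) * N := hN.trans (Nat.le_mul_of_pos_left N (by omega))
    have h1 := mu_pow D hK h N hN hle j
    have h2 := mrr_le D hK h ((j + 1) * N) hNj
    have hr := mrr_pos D hK h hh ((j + 1) * N) hNj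
    have h3 : Real.log (mrr D h ((j + 1) * N)) ≤ -((j : ℝ) + 1) := by
      rw [← Real.log_exp (-((j : ℝ) + 1))]
      exact Real.log_le_log hr (h2.trans h1)
    rw [muN_eq]
    push_cast
    have h4 : (0 : ℝ) < (j : ℝ) + 1 := by positivity
    have h5 : (0 : ℝ) ≤ (((j : ℝ) + 1) * N)⁻¹ := by positivity
    have h6 : (j : ℝ) + 1 ≤ -Real.log (mrr D h ((j + 1) * N)) := by linarith
    have h7 := mul_le_mul_of_nonneg_left h6 h5
    have h8 : (((j : ℝ) + 1) * N)⁻¹ * ((j : ℝ) + 1) = 1 / N := by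
      field_simp
    rw [h8] at h7
    refine h7.trans (le_of_eq ?_)
    ring


end M_mu
end Cop764
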