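import Pool.Agent.Helper764.CopDefs
import Pool.Agent.Helper764.Cop_EF
import Pool.Agent.Helper764.Cop_fe
import Pool.Agent.Helper764.Cop_meas
import Pool.Agent.Helper764.Cop_int
import Pool.Agent.Helper764.Cop_Fbd
import Pool.Agent.Helper764.Cop_K

set_option autoImplicit false
set_option maxHeartbeats 4000000
open MeasureTheory ProbabilityTheory Filter Topology
open scoped ENNReal NNReal

namespace Cop764
namespace M_mean

theorem given_EF : St_EF := M_EF.J_EF
theorem given_fe : St_fe := M_fe.J_fe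
theorem given_meas : St_meas := M_meas.J_meas
theorem given_int : St_int := M_int.J_int
theorem given_Fbd : St_Fbd := M_Fbd.J_Fbd
theorem given_K : St_K := M_K.J_K




theorem mean_aux (x : ℝ) (hx : 0 ≤ x) : x ≤ Real.exp (x / 2) := by
  have h1 : x / 4 + 1 ≤ Real.exp (x / 4) := Real.add_one_le_exp _
  have h2 : Real.exp (x / 2) = Real.exp (x / 4) ^ 2 := by
    rw [← Real.exp_nat_mul]; congr 1; push_cast; ring
  rw [h2]
  nlinarith [sq_nonneg (1 - x / 4), pow_le_pow_left₀ (by positivity) h1 2]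

theorem mean_pt (X a y c : ℝ) (ha : 0 ≤ a) (hay : a ≤ y) (hc : 0 ≤ c) :
    X ≤ a + y * (if a ≤ X then 1 else 0) + 2 * c * (if y ≤ X then 1 else 0) +
      Real.exp (-c) * Real.exp X := by
  have he : 0 < Real.exp (-c) * Real.exp X := by positivity
  by_cases h1 : a ≤ X
  · rw [if_pos h1]
    by_cases h2 : y ≤ X
    · rw [if_pos h2]
      by_cases h3 : X ≤ 2 * c
      · linarith
      · push Not at h3
        have h4 := mean_aux X (by linarith)
        have h5 : Real.exp (X / 2) ≤ Real.exp (-c) * Real.exp X := by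
          rw [← Real.exp_add]
          apply Real.exp_le_exp.2; linarith
        linarith
    · rw [if_neg h2]
      push Not at h2
      linarith
  · rw [if_neg h1]
    push Not at h1
    have h2 : ¬ y ≤ X := by intro h; linarith
    rw [if_neg h2]
    linarith


theorem J_mean : St_mean := by
  intro D
  obtain ⟨C1, hC1, hEF⟩ := given_EF D
  obtain ⟨c0, n0, hK⟩ := given_K D
  have hFpos : ∀ (h : ℝ) (ℓ : ℕ) (ω : ℕ → ℝ), 0 < F D.K (D.w h ω) 0 ℓ := by
    intro h ℓ ω
    have h1 := (given_Fbd D.K (D.w h ω) D.α c0 n0 hK 0 ℓ (Nat.zero_le _)).1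
    refine lt_of_lt_of_le ?_ h1
    unfold phi
    positivity
  have hexp : ∀ (h : ℝ) (ℓ : ℕ) (ω : ℕ → ℝ), Real.exp (D.lF h 0 ℓ ω) = F D.K (D.w h ω) 0 ℓ := by
    intro h ℓ ω
    exact Real.exp_log (hFpos h ℓ ω)
  have hmeas : ∀ (h : ℝ) (ℓ : ℕ), Measurable (D.lF h 0 ℓ) := by
    intro h ℓ
    exact Real.measurable_log.comp (given_meas D h 0 ℓ).2.1
  refine ⟨2 * C1, by positivity, ?_⟩
  intro h hh
  constructor
  · intro y
    obtain ⟨hI, hB⟩ := hEF h hh 0 1 le_rfl
    simp only [zero_add, Nat.cast_one, mul_one] at hI hB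
    have hM := mul_meas_ge_le_integral_of_nonneg (μ := D.P)
      (Filter.Eventually.of_forall fun ω => (hFpos h 1 ω).le) hI (Real.exp y)
    have hset : {ω | y ≤ D.lF h 0 1 ω} = {ω | Real.exp y ≤ F D.K (D.w h ω) 0 1} := by
      ext ω
      simp only [Set.mem_setOf_eq]
      rw [← hexp h 1 ω, Real.exp_le_exp]
    rw [hset]
    have h1 : Real.exp y * D.P.real {ω | Real.exp y ≤ F D.K (D.w h ω) 0 1} ≤ Real.exp C1 :=
      hM.trans hB
    have h2 : D.P.real {ω | Real.exp y ≤ F D.K (D.w h ω) 0 1} ≤ Real.exp (C1 - y) := by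
      rw [Real.exp_sub, le_div_iff₀ (Real.exp_pos y)]
      linarith
    refine h2.trans (Real.exp_le_exp.2 (by linarith))
  · intro ℓ hℓ a y ha hay
    obtain ⟨hI, hB⟩ := hEF h hh 0 ℓ hℓ
    simp only [zero_add] at hI hB
    have hfe := (given_fe D h hh).2 ℓ hℓ
    have hXint : Integrable (D.lF h 0 ℓ) D.P := (given_int D c0 n0 hK h hh).1 0 ℓ (Nat.zero_le _)
    have hc : 0 ≤ C1 * ℓ := by positivity
    have hS : ∀ z : ℝ, MeasurableSet {ω | z ≤ D.lF h 0 ℓ ω} := fun z =>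
      measurableSet_le measurable_const (hmeas h ℓ)
    have hind : ∀ z : ℝ, Integrable (fun ω => if z ≤ D.lF h 0 ℓ ω then (1 : ℝ) else 0) D.P := by
      intro z
      have : (fun ω => if z ≤ D.lF h 0 ℓ ω then (1 : ℝ) else 0) =
          Set.indicator {ω | z ≤ D.lF h 0 ℓ ω} (fun _ => (1 : ℝ)) := by
        funext ω; simp [Set.indicator]
      rw [this]
      exact (integrable_const _).indicator (hS z)
    have hindI : ∀ z : ℝ, ∫ ω, (if z ≤ D.lF h 0 ℓ ω then (1 : ℝ) else 0) ∂D.P =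
        D.P.real {ω | z ≤ D.lF h 0 ℓ ω} := by
      intro z
      have : (fun ω => if z ≤ D.lF h 0 ℓ ω then (1 : ℝ) else 0) =
          Set.indicator {ω | z ≤ D.lF h 0 ℓ ω} (fun _ => (1 : ℝ)) := by
        funext ω; simp [Set.indicator]
      rw [this, integral_indicator (hS z)]
      simp
    have i1 : Integrable (fun _ : ℕ → ℝ => a) D.P := integrable_const _
    have i2 := (hind a).const_mul y
    have i3 := (hind y).const_mul (2 * (C1 * ℓ))
    have i4 := hI.const_mul (Real.exp (-(C1 * ℓ)))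
    have hle : ∫ ω, D.lF h 0 ℓ ω ∂D.P ≤ ∫ ω, (a + y * (if a ≤ D.lF h 0 ℓ ω then (1 : ℝ) else 0) +
        2 * (C1 * ℓ) * (if y ≤ D.lF h 0 ℓ ω then (1 : ℝ) else 0) +
          Real.exp (-(C1 * ℓ)) * F D.K (D.w h ω) 0 ℓ) ∂D.P := by
      refine integral_mono hXint (((i1.add i2).add i3).add i4) fun ω => ?_
      have := mean_pt (D.lF h 0 ℓ ω) a y (C1 * ℓ) ha hay hc
      rw [hexp] at this
      exact this
    have hR : ∫ ω, (a + y * (if a ≤ D.lF h 0 ℓ ω then (1 : ℝ) else 0) +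
        2 * (C1 * ℓ) * (if y ≤ D.lF h 0 ℓ ω then (1 : ℝ) else 0) +
          Real.exp (-(C1 * ℓ)) * F D.K (D.w h ω) 0 ℓ) ∂D.P =
        a + y * D.P.real {ω | a ≤ D.lF h 0 ℓ ω} +
          2 * (C1 * ℓ) * D.P.real {ω | y ≤ D.lF h 0 ℓ ω} +
          Real.exp (-(C1 * ℓ)) * ∫ ω, F D.K (D.w h ω) 0 ℓ ∂D.P := by
      have i12 : Integrable (fun ω => a + y * (if a ≤ D.lF h 0 ℓ ω then (1 : ℝ) else 0)) D.P :=
        i1.add i2
      have i123 : Integrable (fun ω => a + y * (if a ≤ D.lF h 0 ℓ ω then (1 : ℝ) else 0) +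
        2 * (C1 * ℓ) * (if y ≤ D.lF h 0 ℓ ω then (1 : ℝ) else 0)) D.P := i12.add i3
      rw [integral_add i123 i4, integral_add i12 i3, integral_add i1 i2,
        integral_const_mul, integral_const_mul, integral_const_mul, hindI, hindI, integral_const]
      simp
    have h5 : Real.exp (-(C1 * ℓ)) * ∫ ω, F D.K (D.w h ω) 0 ℓ ∂D.P ≤ 1 := by
      calc _ ≤ Real.exp (-(C1 * ℓ)) * Real.exp (C1 * ℓ) :=
            mul_le_mul_of_nonneg_left hB (Real.exp_pos _).le
        _ = 1 := by rw [← Real.exp_add]; simp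
    rw [hR] at hle
    have h6 : 2 * C1 * ↑ℓ * D.P.real {ω | y ≤ D.lF h 0 ℓ ω} =
      2 * (C1 * ℓ) * D.P.real {ω | y ≤ D.lF h 0 ℓ ω} := by ring
    rw [h6]
    linarith


end M_mean
end Cop764
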