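import Pool.Agent.Helper764.CopDefs

set_option autoImplicit false
set_option maxHeartbeats 4000000
open MeasureTheory ProbabilityTheory Filter Topology
open scoped ENNReal NNReal

namespace Cop764
namespace M_num





theorem num_lin_le_exp (A c a : ℝ) (ha : 0 < a) :
    ∀ᶠ L : ℝ in atTop, A * L + c ≤ Real.exp (a * L) := by
  have h1 : (fun x : ℝ => x ^ 1) =o[atTop] fun x => Real.exp (a * x) :=
    isLittleO_pow_exp_pos_mul_atTop 1 ha
  have h0 : (fun x : ℝ => x ^ 0) =o[atTop] fun x => Real.exp (a * x) :=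
    isLittleO_pow_exp_pos_mul_atTop 0 ha
  have h2 : (fun x : ℝ => A * x ^ 1 + c * x ^ 0) =o[atTop] fun x => Real.exp (a * x) :=
    (h1.const_mul_left A).add (h0.const_mul_left c)
  have h3 := h2.def (c := 1) one_pos
  filter_upwards [h3] with L hL
  rw [Real.norm_eq_abs, Real.norm_eq_abs, abs_of_pos (Real.exp_pos _), one_mul, pow_one, pow_zero,
    mul_one] at hL
  exact le_trans (le_abs_self _) hL

theorem num_const_le_exp (c a : ℝ) (ha : 0 < a) :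
    ∀ᶠ L : ℝ in atTop, c ≤ Real.exp (a * L) := by
  filter_upwards [num_lin_le_exp 0 c a ha] with L hL
  linarith

theorem num_core (δ A C c : ℝ) (hδ : 0 < δ) (hδ1 : δ ≤ 1) (hA : 0 < A) (hC : 0 < C) (hc : 0 ≤ c)
    (K : ℕ) (hK1 : 1 ≤ K)
    (hKlo : 1 + δ / 2 ≤ δ / 16 * K) (hKhi : δ / 16 * K ≤ 1 + 9 * δ / 16)
    (L : ℝ) (hL : 0 < L)
    (ha : A * L + c ≤ Real.exp (δ / (16 * (K + 2)) * L))
    (hb : (2 : ℝ) ^ K ≤ Real.exp (7 * δ / 16 * L))
    (hcc : C * (K + 1) * Real.exp (4 * L + C - Real.exp (δ / (16 * (K + 2)) * L)) ≤ 1)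
    (hd : 2 * (c + A * L + 2) ≤ Real.exp (δ / 2 * L))
    (he : 2 * (8 + 8 * C) ^ (K + 1) ≤ Real.exp (7 * δ / 8 * L))
    (q : ℕ → ℝ → ℝ) (h1 : ∀ ℓ y, 0 ≤ q ℓ y) (h2 : ∀ y, q 1 y ≤ Real.exp (C - y))
    (h3 : ∀ N ℓ : ℕ, 1 ≤ N → 1 ≤ ℓ → (ℓ : ℝ) ≤ Real.exp (3 * L) → ∀ y y' : ℝ, 0 < y →
      q (N * ℓ) y' ≤ N * q ℓ y + Real.exp (-(y' - N * (A * L + c)) / y +
        2 * N * (C * ℓ * Real.exp (-L)) / y))
    (h4 : ∀ (ℓ : ℕ) (y : ℝ), 1 ≤ ℓ → A * L ≤ y →
      ℓ * Real.exp (-L) - c ≤ A * L + y * q ℓ (A * L) + C * ℓ * q ℓ y + 1) :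
    ∃ ℓ : ℕ, 1 ≤ ℓ ∧ (ℓ : ℝ) ≤ Real.exp ((1 + δ) * L) ∧ Real.exp (-(δ * L)) ≤ q ℓ (A * L) := by
  obtain ⟨X, hX⟩ : ∃ X, X = Real.exp (δ / (16 * (K + 2)) * L) := ⟨_, rfl⟩
  obtain ⟨E, hE⟩ : ∃ E, E = Real.exp (δ / 16 * L) := ⟨_, rfl⟩
  obtain ⟨f, hf⟩ : ∃ f, f = Real.exp (-L) := ⟨_, rfl⟩
  obtain ⟨M, hM⟩ : ∃ M : ℝ, M = 8 + 8 * C := ⟨_, rfl⟩
  rw [← hX] at ha hcc
  rw [← hM] at he
  rw [← hf] at h3 h4
  have hX1 : 1 ≤ X := by rw [hX]; exact Real.one_le_exp (by positivity)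
  have hE1 : 1 ≤ E := by rw [hE]; exact Real.one_le_exp (by positivity)
  have hf0 : 0 < f := by rw [hf]; exact Real.exp_pos _
  have hM1 : 1 ≤ M := by rw [hM]; linarith
  have hAL : 0 ≤ A * L + c := by positivity
  obtain ⟨N, hNdef⟩ : ∃ N : ℕ, N = ⌈E⌉₊ := ⟨_, rfl⟩
  have hN1 : E ≤ N := by rw [hNdef]; exact Nat.le_ceil E
  have hN2 : (N : ℝ) ≤ 2 * E := by
    rw [hNdef]
    have := Nat.ceil_lt_add_one (le_trans zero_le_one hE1)
    linarith
  have hN1' : (1 : ℝ) ≤ N := le_trans hE1 hN1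
  have hN : 1 ≤ N := by exact_mod_cast hN1'
  have hEK : E ^ K = Real.exp (δ / 16 * K * L) := by
    rw [hE, ← Real.exp_nat_mul]
    congr 1
    ring
  have hNKlo : Real.exp ((1 + δ / 2) * L) ≤ (N : ℝ) ^ K := by
    calc Real.exp ((1 + δ / 2) * L) ≤ Real.exp (δ / 16 * K * L) :=
          Real.exp_le_exp.2 (mul_le_mul_of_nonneg_right hKlo hL.le)
      _ = E ^ K := hEK.symm
      _ ≤ (N : ℝ) ^ K := pow_le_pow_left₀ (by linarith) hN1 K
  have hNKhi : (N : ℝ) ^ K ≤ Real.exp ((1 + δ) * L) := by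
    calc (N : ℝ) ^ K ≤ (2 * E) ^ K := pow_le_pow_left₀ (by linarith) hN2 K
      _ = 2 ^ K * Real.exp (δ / 16 * K * L) := by rw [mul_pow, hEK]
      _ ≤ Real.exp (7 * δ / 16 * L) * Real.exp ((1 + 9 * δ / 16) * L) :=
          mul_le_mul hb (Real.exp_le_exp.2 (mul_le_mul_of_nonneg_right hKhi hL.le))
            (Real.exp_pos _).le (Real.exp_pos _).le
      _ = Real.exp ((1 + δ) * L) := by
          rw [← Real.exp_add]
          congr 1
          ring
  have hNk : ∀ k ≤ K, (N : ℝ) ^ k ≤ (N : ℝ) ^ K := fun k hk => pow_le_pow_right₀ hN1' hk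
  have hNK2 : (N : ℝ) ^ K ≤ Real.exp (2 * L) :=
    le_trans hNKhi (Real.exp_le_exp.2 (mul_le_mul_of_nonneg_right (by linarith) hL.le))
  have hNk3 : ∀ k ≤ K, (N : ℝ) ^ k ≤ Real.exp (3 * L) := fun k hk =>
    le_trans (hNk k hk) (le_trans hNK2 (Real.exp_le_exp.2 (by linarith)))
  obtain ⟨y, hy0, hys⟩ : ∃ y : ℕ → ℝ, y 0 = X ∧ ∀ k, y (k + 1) =
      4 * X * y k + 8 * C * (N : ℝ) ^ (k + 1) * f + 2 * N * (A * L + c) :=
    ⟨fun k => Nat.rec X (fun k yk =>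
      4 * X * yk + 8 * C * (N : ℝ) ^ (k + 1) * f + 2 * N * (A * L + c)) k, rfl, fun _ => rfl⟩
  have hypos : ∀ k, 0 < y k := by
    intro k
    induction k with
    | zero => rw [hy0]; linarith
    | succ k ih =>
      rw [hys]
      have : 0 < X := by linarith
      positivity
  have hyB : ∀ k, y k ≤ M ^ (k + 1) * X ^ (k + 2) * E * max 1 ((N : ℝ) ^ k * f) := by
    intro k
    induction k with
    | zero =>
      rw [hy0]
      have e1 : 1 ≤ max 1 ((N : ℝ) ^ 0 * f) := le_max_left _ _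
      have e2 : (1 : ℝ) ≤ M ^ (0 + 1) := one_le_pow₀ hM1
      have e3 : X ≤ X ^ (0 + 2) := le_self_pow₀ hX1 (by norm_num)
      calc X = 1 * X * 1 * 1 := by ring
        _ ≤ M ^ (0 + 1) * X ^ (0 + 2) * E * max 1 ((N : ℝ) ^ 0 * f) := by gcongr
    | succ k ih =>
      rw [hys]
      obtain ⟨m, hm⟩ : ∃ m, m = max 1 ((N : ℝ) ^ (k + 1) * f) := ⟨_, rfl⟩
      have hm1 : 1 ≤ m := by rw [hm]; exact le_max_left _ _
      have hm2 : (N : ℝ) ^ (k + 1) * f ≤ m := by rw [hm]; exact le_max_right _ _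
      have hm3 : max 1 ((N : ℝ) ^ k * f) ≤ m := by
        rw [hm]
        apply max_le_max le_rfl
        apply mul_le_mul_of_nonneg_right _ hf0.le
        exact pow_le_pow_right₀ hN1' (Nat.le_succ k)
      rw [← hm]
      have hMk : (1 : ℝ) ≤ M ^ (k + 1) := one_le_pow₀ hM1
      have hXk : X ≤ X ^ (k + 3) := le_self_pow₀ hX1 (by omega)
      have hXk1 : (1 : ℝ) ≤ X ^ (k + 3) := one_le_pow₀ hX1
      have g1 : 4 * X * y k ≤ (4 * M ^ (k + 1)) * (X ^ (k + 3) * E * m) := by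
        calc 4 * X * y k ≤ 4 * X * (M ^ (k + 1) * X ^ (k + 2) * E * m) := by
              apply mul_le_mul_of_nonneg_left _ (by positivity)
              refine le_trans ih ?_
              gcongr
          _ = (4 * M ^ (k + 1)) * (X ^ (k + 3) * E * m) := by ring
      have g2 : 8 * C * (N : ℝ) ^ (k + 1) * f ≤ (8 * C * M ^ (k + 1)) * (X ^ (k + 3) * E * m) := by
        calc 8 * C * (N : ℝ) ^ (k + 1) * f = (8 * C * 1) * (1 * 1 * ((N : ℝ) ^ (k + 1) * f)) := by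
              ring
          _ ≤ (8 * C * M ^ (k + 1)) * (X ^ (k + 3) * E * m) := by gcongr
      have g3 : 2 * N * (A * L + c) ≤ (4 * M ^ (k + 1)) * (X ^ (k + 3) * E * m) := by
        calc 2 * N * (A * L + c) ≤ 2 * (2 * E) * X := by gcongr
          _ = (4 * 1) * (X * E * 1) := by ring
          _ ≤ (4 * M ^ (k + 1)) * (X ^ (k + 3) * E * m) := by gcongr
      calc 4 * X * y k + 8 * C * (N : ℝ) ^ (k + 1) * f + 2 * N * (A * L + c) ≤
            (4 * M ^ (k + 1)) * (X ^ (k + 3) * E * m) + (8 * C * M ^ (k + 1)) *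
              (X ^ (k + 3) * E * m) + (4 * M ^ (k + 1)) * (X ^ (k + 3) * E * m) := by
            linarith
        _ = M ^ (k + 1) * (8 + 8 * C) * (X ^ (k + 3) * E * m) := by ring
        _ = M ^ (k + 1 + 1) * X ^ (k + 1 + 2) * E * m := by
            rw [← hM]
            ring
  have hπ : ∀ k ≤ K, q (N ^ k) (y k) ≤ ((k : ℝ) + 1) * (N : ℝ) ^ k * Real.exp (C - X) := by
    intro k
    induction k with
    | zero =>
      intro _
      rw [hy0, pow_zero, pow_zero]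
      have := h2 X
      simpa using this
    | succ k ih =>
      intro hk
      have hk' : k ≤ K := by omega
      have g1 := h3 N (N ^ k) hN (Nat.one_le_pow _ _ hN) (by
        push_cast
        exact hNk3 k hk') (y k) (y (k + 1)) (hypos k)
      have g2 : -(y (k + 1) - N * (A * L + c)) / y k +
          2 * N * (C * ((N ^ k : ℕ) : ℝ) * f) / y k ≤ C - X := by
        rw [← add_div, div_le_iff₀ (hypos k), hys]
        push_cast
        have g3 : 0 ≤ C * (N : ℝ) ^ (k + 1) * f := by positivity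
        have g4 : 0 ≤ (N : ℝ) * (A * L + c) := by positivity
        have g5 : 0 < X * y k := mul_pos (by linarith) (hypos k)
        have g6 : 0 < C * y k := mul_pos hC (hypos k)
        have g7 : 2 * (N : ℝ) * (C * (N : ℝ) ^ k * f) = 2 * (C * (N : ℝ) ^ (k + 1) * f) := by
          ring
        rw [g7]
        nlinarith
      have g3 := Real.exp_le_exp.2 g2
      have g4 : q (N ^ (k + 1)) (y (k + 1)) ≤
          N * (((k : ℝ) + 1) * (N : ℝ) ^ k * Real.exp (C - X)) + 1 * Real.exp (C - X) := by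
        rw [pow_succ', one_mul]
        refine le_trans g1 (add_le_add (mul_le_mul_of_nonneg_left (ih hk') (by positivity)) g3)
      refine le_trans g4 ?_
      have g5 : (1 : ℝ) ≤ (N : ℝ) ^ (k + 1) := one_le_pow₀ hN1'
      have g6 : 0 < Real.exp (C - X) := Real.exp_pos _
      push_cast
      calc (N : ℝ) * (((k : ℝ) + 1) * (N : ℝ) ^ k * Real.exp (C - X)) + 1 * Real.exp (C - X) ≤
          (N : ℝ) * (((k : ℝ) + 1) * (N : ℝ) ^ k * Real.exp (C - X)) +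
            (N : ℝ) ^ (k + 1) * Real.exp (C - X) := by gcongr
        _ = ((k : ℝ) + 1 + 1) * (N : ℝ) ^ (k + 1) * Real.exp (C - X) := by ring
  have hALy : A * L ≤ y K := by
    obtain ⟨K', rfl⟩ : ∃ K', K = K' + 1 := ⟨K - 1, by omega⟩
    rw [hys]
    have g1 : 0 ≤ 4 * X * y K' := mul_nonneg (by linarith) (hypos K').le
    have g2 : 0 ≤ 8 * C * (N : ℝ) ^ (K' + 1) * f := by positivity
    have g3 : A * L + c ≤ 2 * N * (A * L + c) := by nlinarith
    linarith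
  have hfin := h4 (N ^ K) (y K) (Nat.one_le_pow _ _ hN) hALy
  have hπK := hπ K le_rfl
  push_cast at hfin
  have hsmall : C * (N : ℝ) ^ K * q (N ^ K) (y K) ≤ 1 := by
    calc C * (N : ℝ) ^ K * q (N ^ K) (y K) ≤
          C * Real.exp (2 * L) * (((K : ℝ) + 1) * Real.exp (2 * L) * Real.exp (C - X)) := by
          apply mul_le_mul (mul_le_mul_of_nonneg_left hNK2 hC.le) _ (h1 _ _) (by positivity)
          refine le_trans hπK ?_
          gcongr
      _ = C * (K + 1) * (Real.exp (2 * L) * Real.exp (2 * L) * Real.exp (C - X)) := by ring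
      _ = C * (K + 1) * Real.exp (4 * L + C - X) := by
          rw [← Real.exp_add, ← Real.exp_add]
          congr 2
          ring
      _ ≤ 1 := hcc
  have hgrow : Real.exp (δ / 2 * L) ≤ (N : ℝ) ^ K * f := by
    calc Real.exp (δ / 2 * L) = Real.exp ((1 + δ / 2) * L) * Real.exp (-L) := by
          rw [← Real.exp_add]
          congr 1
          ring
      _ ≤ (N : ℝ) ^ K * f := by
          rw [hf]
          exact mul_le_mul_of_nonneg_right hNKlo (Real.exp_pos _).le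
  have hg1 : 1 ≤ (N : ℝ) ^ K * f := le_trans (Real.one_le_exp (by positivity)) hgrow
  obtain ⟨Qv, hQv⟩ : ∃ Qv, Qv = q (N ^ K) (A * L) := ⟨_, rfl⟩
  obtain ⟨T, hT⟩ : ∃ T, T = (N : ℝ) ^ K * f := ⟨_, rfl⟩
  have hQ0 : 0 ≤ Qv := by rw [hQv]; exact h1 _ _
  have hyK := hyB K
  rw [← hT, max_eq_right (by rw [hT]; exact hg1)] at hyK
  rw [← hT] at hgrow hg1 hfin
  rw [← hQv] at hfin
  have hhalf : T / 2 ≤ y K * Qv := by linarith
  have hXK : X ^ (K + 2) = Real.exp (δ / 16 * L) := by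
    rw [hX, ← Real.exp_nat_mul]
    congr 1
    push_cast
    field_simp
  have hY : M ^ (K + 1) * X ^ (K + 2) * E = M ^ (K + 1) * Real.exp (δ / 8 * L) := by
    rw [hXK, hE, mul_assoc, ← Real.exp_add]
    congr 2
    ring
  rw [hY] at hyK
  have hfinal : 1 / 2 ≤ M ^ (K + 1) * Real.exp (δ / 8 * L) * Qv := by
    have g1 : T / 2 ≤ M ^ (K + 1) * Real.exp (δ / 8 * L) * T * Qv :=
      le_trans hhalf (mul_le_mul_of_nonneg_right hyK hQ0)
    have hTpos : 0 < T := by linarith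
    by_contra hcon
    push Not at hcon
    have g2 : M ^ (K + 1) * Real.exp (δ / 8 * L) * Qv * T < 1 / 2 * T :=
      mul_lt_mul_of_pos_right hcon hTpos
    linarith
  refine ⟨N ^ K, Nat.one_le_pow _ _ hN, by push_cast; exact hNKhi, ?_⟩
  rw [← hQv]
  by_contra hcon
  push Not at hcon
  have hMpos : 0 < M ^ (K + 1) := by positivity
  have g1 : M ^ (K + 1) * Real.exp (δ / 8 * L) * Qv <
      M ^ (K + 1) * Real.exp (δ / 8 * L) * Real.exp (-(δ * L)) :=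
    mul_lt_mul_of_pos_left hcon (by positivity)
  have g2 : M ^ (K + 1) * Real.exp (δ / 8 * L) * Real.exp (-(δ * L)) =
      M ^ (K + 1) * Real.exp (-(7 * δ / 8 * L)) := by
    rw [mul_assoc, ← Real.exp_add]
    congr 2
    ring
  have g3 : 2 * (M ^ (K + 1) * Real.exp (-(7 * δ / 8 * L))) ≤ 1 := by
    calc 2 * (M ^ (K + 1) * Real.exp (-(7 * δ / 8 * L))) =
          2 * M ^ (K + 1) * Real.exp (-(7 * δ / 8 * L)) := by ring
      _ ≤ Real.exp (7 * δ / 8 * L) * Real.exp (-(7 * δ / 8 * L)) :=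
          mul_le_mul_of_nonneg_right he (Real.exp_pos _).le
      _ = 1 := by rw [← Real.exp_add, add_neg_cancel, Real.exp_zero]
  linarith

theorem num_ev (δ A C c : ℝ) (hδ : 0 < δ) (hδ1 : δ ≤ 1) (hA : 0 < A) (hC : 0 < C) (hc : 0 ≤ c) :
    ∃ L0 : ℝ, 0 < L0 ∧ ∀ L : ℝ, L0 < L → ∀ (q : ℕ → ℝ → ℝ),
      (∀ ℓ y, 0 ≤ q ℓ y) → (∀ y, q 1 y ≤ Real.exp (C - y)) →
      (∀ N ℓ : ℕ, 1 ≤ N → 1 ≤ ℓ → (ℓ : ℝ) ≤ Real.exp (3 * L) → ∀ y y' : ℝ, 0 < y →
        q (N * ℓ) y' ≤ N * q ℓ y + Real.exp (-(y' - N * (A * L + c)) / y +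
          2 * N * (C * ℓ * Real.exp (-L)) / y)) →
      (∀ (ℓ : ℕ) (y : ℝ), 1 ≤ ℓ → A * L ≤ y →
        ℓ * Real.exp (-L) - c ≤ A * L + y * q ℓ (A * L) + C * ℓ * q ℓ y + 1) →
      ∃ ℓ : ℕ, 1 ≤ ℓ ∧ (ℓ : ℝ) ≤ Real.exp ((1 + δ) * L) ∧
        Real.exp (-(δ * L)) ≤ q ℓ (A * L) := by
  obtain ⟨K, hK⟩ : ∃ K : ℕ, K = ⌈(1 + δ / 2) / (δ / 16)⌉₊ := ⟨_, rfl⟩
  have hδ16 : 0 < δ / 16 := by positivity
  have hKlo : 1 + δ / 2 ≤ δ / 16 * K := by
    have := Nat.le_ceil ((1 + δ / 2) / (δ / 16))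
    rw [← hK, div_le_iff₀ hδ16] at this
    linarith
  have hKhi : δ / 16 * K ≤ 1 + 9 * δ / 16 := by
    have h1 : (K : ℝ) < (1 + δ / 2) / (δ / 16) + 1 := by
      rw [hK]
      exact Nat.ceil_lt_add_one (by positivity)
    have h2 : δ / 16 * K < δ / 16 * ((1 + δ / 2) / (δ / 16) + 1) :=
      mul_lt_mul_of_pos_left h1 hδ16
    have h3 : δ / 16 * ((1 + δ / 2) / (δ / 16) + 1) = 1 + δ / 2 + δ / 16 := by
      field_simp
    rw [h3] at h2
    linarith
  have hK1 : 1 ≤ K := by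
    rcases Nat.eq_zero_or_pos K with h | h
    · exfalso
      rw [h] at hKlo
      simp only [Nat.cast_zero, mul_zero] at hKlo
      linarith
    · exact h
  have ha' : 0 < δ / (16 * ((K : ℝ) + 2)) := by positivity
  have hev : ∀ᶠ L : ℝ in atTop, (A * L + c ≤ Real.exp (δ / (16 * (K + 2)) * L)) ∧
      ((2 : ℝ) ^ K ≤ Real.exp (7 * δ / 16 * L)) ∧
      (4 * L + (C + Real.log (C * (K + 1))) ≤ Real.exp (δ / (16 * (K + 2)) * L)) ∧
      (2 * A * L + 2 * (c + 2) ≤ Real.exp (δ / 2 * L)) ∧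
      (2 * (8 + 8 * C) ^ (K + 1) ≤ Real.exp (7 * δ / 8 * L)) := by
    filter_upwards [num_lin_le_exp A c _ ha', num_const_le_exp (2 ^ K) (7 * δ / 16) (by positivity),
      num_lin_le_exp 4 (C + Real.log (C * (K + 1))) _ ha',
      num_lin_le_exp (2 * A) (2 * (c + 2)) (δ / 2) (by positivity),
      num_const_le_exp (2 * (8 + 8 * C) ^ (K + 1)) (7 * δ / 8) (by positivity)]
      with L e1 e2 e3 e4 e5
    exact ⟨e1, e2, e3, e4, e5⟩
  obtain ⟨L0, hL0⟩ := eventually_atTop.1 hev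
  refine ⟨max L0 1, lt_of_lt_of_le one_pos (le_max_right _ _), ?_⟩
  intro L hL q h1 h2 h3 h4
  have hLpos : 0 < L := lt_trans (lt_of_lt_of_le one_pos (le_max_right L0 1)) hL
  obtain ⟨e1, e2, e3, e4, e5⟩ := hL0 L (le_trans (le_max_left _ _) hL.le)
  refine num_core δ A C c hδ hδ1 hA hC hc K hK1 hKlo hKhi L hLpos e1 e2 ?_ (by linarith) e5 q h1 h2
    h3 h4
  have hCK : 0 < C * ((K : ℝ) + 1) := by positivity
  calc C * (K + 1) * Real.exp (4 * L + C - Real.exp (δ / (16 * (K + 2)) * L)) ≤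
        C * (K + 1) * Real.exp (-Real.log (C * (K + 1))) := by
        apply mul_le_mul_of_nonneg_left _ hCK.le
        apply Real.exp_le_exp.2
        linarith
    _ = 1 := by
        rw [Real.exp_neg, Real.exp_log hCK, mul_inv_cancel₀ hCK.ne']


theorem J_num : St_num := by
  intro δ A C c hδ hA hC hc
  obtain ⟨L0, hL0, hmain⟩ := num_ev (min δ 1) A C c (lt_min hδ one_pos) (min_le_right _ _) hA hC hc
  refine ⟨Real.exp (-L0), Real.exp_pos _, ?_, ?_⟩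
  · rw [Real.exp_lt_one_iff]
    linarith
  intro f hf hff0 q h1 h2 h3 h4
  obtain ⟨L, hL⟩ : ∃ L, L = Real.log f⁻¹ := ⟨_, rfl⟩
  have hLneg : Real.log f = -L := by rw [hL, Real.log_inv, neg_neg]
  have hfL : f = Real.exp (-L) := by rw [← hLneg, Real.exp_log hf]
  have hLL0 : L0 < L := by
    rw [hfL, Real.exp_lt_exp] at hff0
    linarith
  have hpow : ∀ s : ℝ, f ^ s = Real.exp (-(s * L)) := by
    intro s
    rw [Real.rpow_def_of_pos hf, hLneg]
    congr 1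
    ring
  rw [← hL] at h3 h4 ⊢
  obtain ⟨ℓ, g1, g2, g3⟩ := hmain L hLL0 q h1 h2 (by
    intro N ℓ hN hℓ hℓ3 y y' hy
    have := h3 N ℓ hN hℓ (by
      rw [hpow]
      refine le_trans hℓ3 (Real.exp_le_exp.2 ?_)
      linarith) y y' hy
    rw [← hfL]
    exact this) (by
    intro ℓ y hℓ hy
    rw [← hfL]
    exact h4 ℓ y hℓ hy)
  have hLpos : 0 < L := lt_trans hL0 hLL0
  refine ⟨ℓ, g1, ?_, ?_⟩
  · rw [hpow]
    refine le_trans g2 (Real.exp_le_exp.2 ?_)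
    have := mul_le_mul_of_nonneg_right (min_le_left δ 1) hLpos.le
    linarith
  · rw [hpow]
    refine le_trans (Real.exp_le_exp.2 ?_) g3
    have := mul_le_mul_of_nonneg_right (min_le_left δ 1) hLpos.le
    linarith


end M_num
end Cop764
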