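import Pool.Agent.Helper764.CopDefs
import Pool.Agent.Helper764.Cop_block
import Pool.Agent.Helper764.Cop_Fsub
import Pool.Agent.Helper764.Cop_Fbd
import Pool.Agent.Helper764.Cop_K
import Pool.Agent.Helper764.Cop_loc
import Pool.Agent.Helper764.Cop_meas
import Pool.Agent.Helper764.Cop_int
import Pool.Agent.Helper764.Cop_stat

set_option autoImplicit false
set_option maxHeartbeats 4000000
open MeasureTheory ProbabilityTheory Filter Topology
open scoped ENNReal NNReal

namespace Cop764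
namespace M_step

theorem given_block : St_block := M_block.J_block
theorem given_Fsub : St_Fsub := M_Fsub.J_Fsub
theorem given_Fbd : St_Fbd := M_Fbd.J_Fbd
theorem given_K : St_K := M_K.J_K
theorem given_loc : St_loc := M_loc.J_loc
theorem given_meas : St_meas := M_meas.J_meas
theorem given_int : St_int := M_int.J_int
theorem given_stat : St_stat := M_stat.J_stat




/-- the shift -/
def step_sh (k : ℕ) (ω : ℕ → ℝ) : ℕ → ℝ := fun n => ω (n + k)

theorem step_shift (D : Data) (h : ℝ) (k ℓ : ℕ) (ω : ℕ → ℝ) :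
    D.lF h 0 ℓ (step_sh k ω) = D.lF h k (ℓ + k) ω := by
  unfold Data.lF
  have h1 : D.w h (step_sh k ω) = fun n => D.w h ω (n + k) := rfl
  rw [h1, given_loc.2.1, Nat.zero_add]

theorem step_Fpos (D : Data) (h : ℝ) (a b : ℕ) (hab : a ≤ b) (ω : ℕ → ℝ) :
    0 < F D.K (D.w h ω) a b := by
  obtain ⟨c0, n0, hK⟩ := given_K D
  have h1 := (given_Fbd D.K (D.w h ω) D.α c0 n0 hK a b hab).1
  have h2 : 0 < phi (D.w h ω) a b := by
    unfold phi
    positivity
  linarith

theorem step_sub (D : Data) (h : ℝ) (ℓ : ℕ) (ω : ℕ → ℝ) (N : ℕ) (hN : 1 ≤ N) :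
    D.lF h 0 (N * ℓ) ω ≤ ∑ i ∈ Finset.range N, D.lF h 0 ℓ (step_sh (i * ℓ) ω) +
      N * Real.log 6 := by
  obtain ⟨c0, n0, hK⟩ := given_K D
  have hlog6 : 0 ≤ Real.log 6 := Real.log_nonneg (by norm_num)
  induction N, hN using Nat.le_induction with
  | base =>
    rw [Finset.sum_range_one, step_shift]
    simp only [Nat.zero_mul, Nat.one_mul, Nat.add_zero, Nat.cast_one, one_mul]
    linarith
  | succ N hN ih =>
    rw [Finset.sum_range_succ, step_shift]
    have e : ℓ + N * ℓ = (N + 1) * ℓ := by ring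
    rw [e]
    have h1 := given_Fsub D.K (D.w h ω) D.α c0 n0 hK 0 (N * ℓ) ((N + 1) * ℓ) (Nat.zero_le _)
      (Nat.mul_le_mul_right ℓ (Nat.le_succ N))
    have p1 := step_Fpos D h 0 (N * ℓ) (Nat.zero_le _) ω
    have p2 := step_Fpos D h (N * ℓ) ((N + 1) * ℓ) (Nat.mul_le_mul_right ℓ (Nat.le_succ N)) ω
    have p3 := step_Fpos D h 0 ((N + 1) * ℓ) (Nat.zero_le _) ω
    have h2 := Real.log_le_log p3 h1
    rw [Real.log_mul (by norm_num) (mul_pos p1 p2).ne', Real.log_mul p1.ne' p2.ne'] at h2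
    unfold Data.lF at ih ⊢
    push_cast
    linarith


theorem J_step : St_step := by
  intro D h hh N ℓ hN hℓ a y y' ha hy
  obtain ⟨c0, n0, hK⟩ := given_K D
  set X : (ℕ → ℝ) → ℝ := fun ω => D.lF h 0 ℓ ω with hX
  have hXm : Measurable X := (given_meas D h 0 ℓ).2.1.log
  have hXi : Integrable X D.P := (given_int D c0 n0 hK h hh).1 0 ℓ (Nat.zero_le _)
  have hdep : ∀ ω ω' : ℕ → ℝ, (∀ n ∈ Finset.Ioc 0 ℓ, ω n = ω' n) → X ω = X ω' := by
    intro ω ω' hω
    have := (given_loc.2.2.2 D.K (D.w h ω) (D.w h ω') 0 ℓ (fun n hn => by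
      unfold Data.w; rw [hω n hn])).2.1
    show Real.log _ = Real.log _
    rw [this]
  let m : ℝ := ∫ ω, max (X ω - a) 0 ∂D.P
  have hmi : Integrable (fun ω => max (X ω - a) 0) D.P := (hXi.sub (integrable_const a)).pos_part
  let u : (ℕ → ℝ) → ℝ := fun ω => min (max (X ω - a) 0) y
  have hum : Measurable u := ((hXm.sub_const a).max measurable_const).min measurable_const
  have hu0 : ∀ ω, 0 ≤ u ω := fun ω => le_min (le_max_right _ _) hy.le
  have huy : ∀ ω, u ω ≤ y := fun ω => min_le_right _ _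
  have hum' : ∀ ω, u ω ≤ max (X ω - a) 0 := fun ω => min_le_left _ _
  have hshm : ∀ k, Measurable (step_sh k) := fun k => (given_stat D.ν k).measurable
  let U : (ℕ → ℝ) → ℝ := fun ω => ∑ i ∈ Finset.range N, u (step_sh (i * ℓ) ω)
  have hUm : Measurable U :=
    Finset.measurable_fun_sum _ fun i _ => hum.comp (hshm (i * ℓ))
  have hU0 : ∀ ω, 0 ≤ U ω := fun ω => Finset.sum_nonneg fun i _ => hu0 _
  have hUN : ∀ ω, U ω ≤ N * y := by
    intro ω
    refine (Finset.sum_le_sum fun i _ => huy _).trans ?_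
    rw [Finset.sum_const, Finset.card_range, nsmul_eq_mul]
  set c : ℝ := y' - N * (a + Real.log 6) with hc
  have hsub : {ω | y' ≤ D.lF h 0 (N * ℓ) ω} ⊆
      (⋃ i ∈ Finset.range N, {ω | y ≤ X (step_sh (i * ℓ) ω)}) ∪ {ω | c ≤ U ω} := by
    intro ω hω
    by_cases h1 : ω ∈ ⋃ i ∈ Finset.range N, {ω | y ≤ X (step_sh (i * ℓ) ω)}
    · exact Or.inl h1
    · right
      have h2 : ∀ i ∈ Finset.range N, X (step_sh (i * ℓ) ω) - a ≤ u (step_sh (i * ℓ) ω) := by
        intro i hi
        have h3 : X (step_sh (i * ℓ) ω) < y := by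
          by_contra h4
          exact h1 (Set.mem_iUnion₂.2 ⟨i, hi, not_lt.1 h4⟩)
        exact le_min (le_max_left _ _) (by linarith)
      have h5 := Finset.sum_le_sum h2
      rw [Finset.sum_sub_distrib, Finset.sum_const, Finset.card_range, nsmul_eq_mul] at h5
      have h6 := step_sub D h ℓ ω N hN
      have h7 : y' ≤ D.lF h 0 (N * ℓ) ω := hω
      show c ≤ U ω
      have h8 : U ω = ∑ i ∈ Finset.range N, u (step_sh (i * ℓ) ω) := rfl
      rw [h8, hc]
      have h9 : ∑ i ∈ Finset.range N, X (step_sh (i * ℓ) ω) =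
        ∑ i ∈ Finset.range N, D.lF h 0 ℓ (step_sh (i * ℓ) ω) := rfl
      rw [h9] at h5
      linarith
  have hP1 : D.P.real (⋃ i ∈ Finset.range N, {ω | y ≤ X (step_sh (i * ℓ) ω)}) ≤
      N * D.P.real {ω | y ≤ X ω} := by
    refine (measureReal_biUnion_finset_le _ _).trans ?_
    have e : ∀ i ∈ Finset.range N, D.P.real {ω | y ≤ X (step_sh (i * ℓ) ω)} =
        D.P.real {ω | y ≤ X ω} := by
      intro i _
      have hms : MeasurableSet {ω | y ≤ X ω} := measurableSet_le measurable_const hXm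
      have := (given_stat D.ν (i * ℓ)).measure_preimage hms.nullMeasurableSet
      unfold Measure.real
      congr 1
    rw [Finset.sum_congr rfl e, Finset.sum_const, Finset.card_range, nsmul_eq_mul]
  -- the exponential moment
  let g : (ℕ → ℝ) → ℝ := fun ω => Real.exp (y⁻¹ * u ω)
  have hgm : Measurable g := (hum.const_mul y⁻¹).exp
  have hy1 : 0 < y⁻¹ := inv_pos.2 hy
  have hgi : Integrable g D.P := by
    apply Integrable.of_bound hgm.aestronglyMeasurable (Real.exp 1)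
    refine Filter.Eventually.of_forall fun ω => ?_
    rw [Real.norm_eq_abs, abs_of_pos (Real.exp_pos _)]
    apply Real.exp_le_exp.2
    calc y⁻¹ * u ω ≤ y⁻¹ * y := mul_le_mul_of_nonneg_left (huy ω) hy1.le
      _ = 1 := inv_mul_cancel₀ hy.ne'
  have hg1 : ∫ ω, g ω ∂D.P ≤ Real.exp (2 * m / y) := by
    have h1 : ∀ ω, g ω ≤ 1 + 2 * y⁻¹ * max (X ω - a) 0 := by
      intro ω
      have h2 : 0 ≤ y⁻¹ * u ω := mul_nonneg hy1.le (hu0 ω)
      have h3 : y⁻¹ * u ω ≤ 1 := by
        calc y⁻¹ * u ω ≤ y⁻¹ * y := mul_le_mul_of_nonneg_left (huy ω) hy1.le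
          _ = 1 := inv_mul_cancel₀ hy.ne'
      have h4 := Real.abs_exp_sub_one_le (x := y⁻¹ * u ω) (by rw [abs_of_nonneg h2]; exact h3)
      rw [abs_of_nonneg h2] at h4
      have h5 := (abs_le.1 h4).2
      have h6 : y⁻¹ * u ω ≤ y⁻¹ * max (X ω - a) 0 := mul_le_mul_of_nonneg_left (hum' ω) hy1.le
      show Real.exp (y⁻¹ * u ω) ≤ _
      linarith
    have h2 : ∫ ω, g ω ∂D.P ≤ ∫ ω, (1 + 2 * y⁻¹ * max (X ω - a) 0) ∂D.P :=
      integral_mono hgi ((integrable_const 1).add (hmi.const_mul _)) h1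
    rw [integral_add (integrable_const 1) (hmi.const_mul _), integral_const_mul] at h2
    simp only [integral_const, probReal_univ, smul_eq_mul, mul_one] at h2
    have h3 := Real.add_one_le_exp (2 * m / y)
    have h4 : 2 * y⁻¹ * ∫ ω, max (X ω - a) 0 ∂D.P = 2 * m / y := by
      show 2 * y⁻¹ * m = 2 * m / y
      field_simp
    rw [h4] at h2
    linarith
  have hg0 : 0 ≤ ∫ ω, g ω ∂D.P := integral_nonneg fun ω => (Real.exp_pos _).le
  have hblock := given_block D ℓ g hgm (fun ω ω' hω => by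
    show Real.exp (y⁻¹ * min (max (X ω - a) 0) y) = Real.exp (y⁻¹ * min (max (X ω' - a) 0) y)
    rw [hdep ω ω' hω]) (fun ω => (Real.exp_pos _).le) N
  have hprod : ∀ ω : ℕ → ℝ, ∏ i ∈ Finset.range N, g (fun n => ω (n + i * ℓ)) =
      Real.exp (y⁻¹ * U ω) := by
    intro ω
    show ∏ i ∈ Finset.range N, Real.exp (y⁻¹ * u (step_sh (i * ℓ) ω)) = Real.exp (y⁻¹ * U ω)
    rw [← Real.exp_sum, ← Finset.mul_sum]
  have hmgf : mgf U D.P y⁻¹ = (∫ ω, g ω ∂D.P) ^ N := by
    rw [← hblock]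
    unfold mgf
    exact integral_congr_ae (Filter.Eventually.of_forall fun ω => (hprod ω).symm)
  have hint : Integrable (fun ω => Real.exp (y⁻¹ * U ω)) D.P := by
    apply Integrable.of_bound (hUm.const_mul y⁻¹).exp.aestronglyMeasurable (Real.exp N)
    refine Filter.Eventually.of_forall fun ω => ?_
    rw [Real.norm_eq_abs, abs_of_pos (Real.exp_pos _)]
    apply Real.exp_le_exp.2
    calc y⁻¹ * U ω ≤ y⁻¹ * (N * y) := mul_le_mul_of_nonneg_left (hUN ω) hy1.le
      _ = N := by field_simp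
  have hP2 : D.P.real {ω | c ≤ U ω} ≤ Real.exp (-c / y + 2 * N * m / y) := by
    have h1 := measure_ge_le_exp_mul_mgf c hy1.le hint
    rw [hmgf] at h1
    refine h1.trans ?_
    calc Real.exp (-y⁻¹ * c) * (∫ ω, g ω ∂D.P) ^ N
        ≤ Real.exp (-y⁻¹ * c) * (Real.exp (2 * m / y)) ^ N :=
          mul_le_mul_of_nonneg_left (pow_le_pow_left₀ hg0 hg1 N) (Real.exp_pos _).le
      _ = Real.exp (-c / y + 2 * N * m / y) := by
          rw [← Real.exp_nat_mul, ← Real.exp_add]
          congr 1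
          field_simp
  have hfin := (measureReal_mono (μ := D.P) hsub (measure_ne_top _ _)).trans (measureReal_union_le _ _)
  calc D.P.real {ω | y' ≤ D.lF h 0 (N * ℓ) ω} ≤ _ := hfin
    _ ≤ N * D.P.real {ω | y ≤ X ω} + Real.exp (-c / y + 2 * N * m / y) := add_le_add hP1 hP2
    _ = _ := rfl


end M_step
end Cop764
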