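import Pool.Agent.Helper764.CopDefs
import Pool.Agent.Helper764.Cop_T4
import Pool.Agent.Helper764.Cop_step
import Pool.Agent.Helper764.Cop_mean
import Pool.Agent.Helper764.Cop_num
import Pool.Agent.Helper764.Cop_fnn

set_option autoImplicit false
set_option maxHeartbeats 4000000
open MeasureTheory ProbabilityTheory Filter Topology
open scoped ENNReal NNReal

namespace Cop764
namespace M_star

theorem given_T4 : St_T4 := M_T4.J_T4
theorem given_step : St_step := M_step.J_step
theorem given_mean : St_mean := M_mean.J_mean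
theorem given_num : St_num := M_num.J_num
theorem given_fnn : St_fnn := M_fnn.J_fnn





theorem J_star : St_star := by
  intro D H A δ hA hδ
  obtain ⟨C5, hC5, hT4⟩ := given_T4 D H
  obtain ⟨C, hC, hmean⟩ := given_mean D
  set A' := max A (5 * C5) with hA'
  set Cm := max C (2 * C5) with hCm
  have hA'A : A ≤ A' := le_max_left _ _
  have hA'C : 5 * C5 ≤ A' := le_max_right _ _
  have hCmC : C ≤ Cm := le_max_left _ _
  have hCm5 : 2 * C5 ≤ Cm := le_max_right _ _
  have hA'0 : 0 < A' := hA.trans_le hA'A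
  have hCm0 : 0 < Cm := hC.trans_le hCmC
  have hlog6 : 0 ≤ Real.log 6 := Real.log_nonneg (by norm_num)
  obtain ⟨f1, hf1, hf11, hnum⟩ := given_num δ A' Cm (Real.log 6) hδ hA'0 hCm0 hlog6
  refine ⟨min f1 (Real.exp (-1)), lt_min hf1 (Real.exp_pos _),
    (min_le_left _ _).trans_lt hf11, ?_⟩
  intro h hh0 hhH hf0 hflt
  have hflt1 : D.f h < f1 := hflt.trans_le (min_le_left _ _)
  have hflte : D.f h < Real.exp (-1) := hflt.trans_le (min_le_right _ _)
  set f := D.f h with hfdef
  set L := Real.log f⁻¹ with hL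
  have hLlog : Real.log f = -L := by rw [hL, Real.log_inv, neg_neg]
  have hL1 : 1 ≤ L := by
    have h1 : Real.log f < -1 := by
      rw [← Real.log_exp (-1)]
      exact Real.log_lt_log hf0 hflte
    linarith
  have hfexp : f = Real.exp (-L) := by rw [← hLlog, Real.exp_log hf0]
  obtain ⟨ℓ, hℓ1, hℓ2, hℓ3⟩ := hnum f hf0 hflt1
    (fun ℓ y => D.P.real {ω | y ≤ D.lF h 0 ℓ ω})
    (fun ℓ y => measureReal_nonneg)
    (fun y => ((hmean h hh0).1 y).trans (Real.exp_le_exp.mpr (by linarith)))
    (by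
      intro N ℓ hN hℓ hℓf y y' hy
      have ha0 : 0 ≤ A' * L := by positivity
      have hst := given_step D h hh0 N ℓ hN hℓ (A' * L) y y' ha0 hy
      have hℓpos : (0 : ℝ) < ℓ := by exact_mod_cast hℓ
      have hℓ1' : (1 : ℝ) ≤ ℓ := by exact_mod_cast hℓ
      have hlogℓ : Real.log ℓ ≤ 3 * L := by
        have h1 := Real.log_le_log hℓpos hℓf
        rw [Real.log_rpow hf0, hLlog] at h1
        linarith
      -- the parameter q
      set q := Real.exp (-(A' * L / C5 - 1 - Real.log ℓ)) with hq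
      have hq0 : 0 < q := Real.exp_pos _
      have hAL : 5 * L ≤ A' * L / C5 := by
        rw [le_div_iff₀ hC5]
        nlinarith
      have hqf : q ≤ f := by
        rw [hq, hfexp]
        exact Real.exp_le_exp.mpr (by linarith)
      have hq1 : q ≤ 1 := by
        rw [hq]
        exact Real.exp_le_one_iff.mpr (by linarith)
      have hlogq : Real.log q⁻¹ = A' * L / C5 - 1 - Real.log ℓ := by
        rw [Real.log_inv, hq, Real.log_exp, neg_neg]
      have hthr : C5 * (1 + Real.log ℓ + Real.log q⁻¹) = A' * L := by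
        rw [hlogq]
        field_simp
        ring
      have hT := hT4 h hh0 hhH ℓ hℓ q hq0 hq1
      rw [hthr] at hT
      have hint : ∫ ω, max (D.lF h 0 ℓ ω - A' * L) 0 ∂D.P ≤ Cm * ℓ * f := by
        refine hT.trans ?_
        have h1 : q ≤ ℓ * f := hqf.trans (by nlinarith)
        have h2 : 0 ≤ (ℓ : ℝ) * f := by positivity
        calc C5 * (ℓ * D.f h + q) ≤ C5 * (ℓ * f + ℓ * f) := by
              refine mul_le_mul_of_nonneg_left ?_ hC5.le
              linarith
          _ = (2 * C5) * (ℓ * f) := by ring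
          _ ≤ Cm * (ℓ * f) := mul_le_mul_of_nonneg_right hCm5 h2
          _ = Cm * ℓ * f := by ring
      refine hst.trans ?_
      have hexp : Real.exp (-(y' - N * (A' * L + Real.log 6)) / y +
          2 * N * (∫ ω, max (D.lF h 0 ℓ ω - A' * L) 0 ∂D.P) / y) ≤
          Real.exp (-(y' - N * (A' * L + Real.log 6)) / y + 2 * N * (Cm * ℓ * f) / y) := by
        apply Real.exp_le_exp.mpr
        have h3 : 2 * (N : ℝ) * (∫ ω, max (D.lF h 0 ℓ ω - A' * L) 0 ∂D.P) / y ≤
            2 * N * (Cm * ℓ * f) / y := by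
          apply div_le_div_of_nonneg_right _ hy.le
          exact mul_le_mul_of_nonneg_left hint (by positivity)
        linarith
      linarith)
    (by
      intro ℓ y hℓ hay
      have ha0 : 0 ≤ A' * L := by positivity
      have hm := (hmean h hh0).2 ℓ hℓ (A' * L) y ha0 hay
      have h1 : C * ℓ * D.P.real {ω | y ≤ D.lF h 0 ℓ ω} ≤
          Cm * ℓ * D.P.real {ω | y ≤ D.lF h 0 ℓ ω} := by
        refine mul_le_mul_of_nonneg_right ?_ measureReal_nonneg
        exact mul_le_mul_of_nonneg_right hCmC (Nat.cast_nonneg _)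
      show (ℓ : ℝ) * f - Real.log 6 ≤ A' * L + y * D.P.real {ω | A' * L ≤ D.lF h 0 ℓ ω} +
        Cm * ℓ * D.P.real {ω | y ≤ D.lF h 0 ℓ ω} + 1
      linarith)
  refine ⟨ℓ, hℓ1, hℓ2, hℓ3.trans ?_⟩
  refine measureReal_mono ?_ (measure_ne_top _ _)
  intro ω hω
  have hω' : A' * L ≤ D.lF h 0 ℓ ω := hω
  show A * L ≤ D.lF h 0 ℓ ω
  have : A * L ≤ A' * L := mul_le_mul_of_nonneg_right hA'A (by linarith)
  linarith


end M_star
end Cop764
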