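import Pool.Agent.Helper764.CopDefs
import Pool.Agent.Helper764.Cop_star
import Pool.Agent.Helper764.Cop_blockR
import Pool.Agent.Helper764.Cop_ER
import Pool.Agent.Helper764.Cop_mu
import Pool.Agent.Helper764.Cop_K
import Pool.Agent.Helper764.Cop_R
import Pool.Agent.Helper764.Cop_fnn

set_option autoImplicit false
set_option maxHeartbeats 4000000
open MeasureTheory ProbabilityTheory Filter Topology
open scoped ENNReal NNReal

namespace Cop764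
namespace M_low

theorem given_star : St_star := M_star.J_star
theorem given_blockR : St_blockR := M_blockR.J_blockR
theorem given_ER : St_ER := M_ER.J_ER
theorem given_mu : St_mu := M_mu.J_mu
theorem given_K : St_K := M_K.J_K
theorem given_R : St_R := M_R.J_R
theorem given_fnn : St_fnn := M_fnn.J_fnn




theorem J_low_small (δ C c M : ℝ) (hδ : 0 < δ) :
    ∀ᶠ f in 𝓝[>] (0:ℝ), f < Real.exp (-1) ∧ f ^ δ ≤ 1 / 4 ∧
      C * (1 + Real.log f⁻¹) + c ≤ f ^ (-δ) / 2 ∧ M ≤ f ^ (-δ) := by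
  have hpos : ∀ᶠ f in 𝓝[>] (0:ℝ), 0 < f := self_mem_nhdsWithin
  have h1 : ∀ᶠ f in 𝓝[>] (0:ℝ), f < Real.exp (-1) :=
    mem_nhdsWithin_of_mem_nhds (Iio_mem_nhds (Real.exp_pos _))
  have ht : Tendsto (fun f : ℝ => f ^ δ) (𝓝[>] 0) (𝓝 0) := by
    have := (Real.continuousAt_rpow_const 0 δ (Or.inr hδ.le)).tendsto
    rw [Real.zero_rpow hδ.ne'] at this
    exact this.mono_left nhdsWithin_le_nhds
  have ht2 : Tendsto (fun f : ℝ => Real.log f * f ^ δ) (𝓝[>] 0) (𝓝 0) :=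
    tendsto_log_mul_rpow_nhdsGT_zero hδ
  have h2 : ∀ᶠ f in 𝓝[>] (0:ℝ), f ^ δ < 1 / 4 := ht.eventually (Iio_mem_nhds (by norm_num))
  have h3 : ∀ᶠ f in 𝓝[>] (0:ℝ), M * f ^ δ < 1 := by
    have := ht.const_mul M
    rw [mul_zero] at this
    exact this.eventually (Iio_mem_nhds (by norm_num))
  have h4 : ∀ᶠ f in 𝓝[>] (0:ℝ), (C + c) * f ^ δ + (-C) * (Real.log f * f ^ δ) < 1 / 2 := by
    have := (ht.const_mul (C + c)).add (ht2.const_mul (-C))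
    rw [mul_zero, mul_zero, add_zero] at this
    exact this.eventually (Iio_mem_nhds (by norm_num))
  filter_upwards [hpos, h1, h2, h3, h4] with f hf a1 a2 a3 a4
  have hfd : 0 < f ^ δ := Real.rpow_pos_of_pos hf δ
  have hinv : f ^ (-δ) = (f ^ δ)⁻¹ := Real.rpow_neg hf.le δ
  refine ⟨a1, a2.le, ?_, ?_⟩
  · rw [hinv, Real.log_inv]
    have : (C * (1 + -Real.log f) + c) * f ^ δ ≤ 1 / 2 := by nlinarith
    have e : (f ^ δ)⁻¹ / 2 = (1 / 2) / (f ^ δ) := by field_simp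
    rw [e, le_div_iff₀ hfd]
    exact this
  · rw [hinv, ← one_div, le_div_iff₀ hfd]
    exact a3.le


theorem J_low : St_low := by
  intro D h1 H ε hh1 hε
  obtain ⟨c0, n0, hK⟩ := given_K D
  obtain ⟨C7, θ, hC7, hθ, hR⟩ := given_blockR D c0 n0 hK h1 H hh1
  obtain ⟨δ, hδdef⟩ : ∃ δ, δ = min ε 1 / 8 := ⟨_, rfl⟩
  have hmin : 0 < min ε 1 := lt_min hε one_pos
  have hδ : 0 < δ := by rw [hδdef]; linarith
  have hδ8 : 8 * δ ≤ 1 := by
    have := min_le_right ε (1:ℝ)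
    rw [hδdef]; linarith
  have hδε : 8 * δ ≤ ε := by
    have := min_le_left ε (1:ℝ)
    rw [hδdef]; linarith
  have hα := hK.alpha_pos
  have hc0 := hK.c0_pos
  have hc01 := hK.c0_le
  have hn0 : (1:ℝ) ≤ n0 := by exact_mod_cast hK.n0_pos
  have hlogc : 0 ≤ Real.log (2 / c0) := by
    apply Real.log_nonneg
    rw [le_div_iff₀ hc0]; linarith
  have hlogm : 0 ≤ Real.log (1 + 2 * n0) := Real.log_nonneg (by linarith)
  have hlog2 : 0 ≤ Real.log 2 := Real.log_nonneg (by norm_num)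
  obtain ⟨C8, hC8⟩ : ∃ C8, C8 = Real.log (2 / c0) + (1 + D.α) * (Real.log (1 + 2 * n0) + Real.log 2 + 3) := ⟨_, rfl⟩
  have hC8p : 0 < C8 := by
    rw [hC8]
    have : 0 < (1 + D.α) * (Real.log (1 + 2 * n0) + Real.log 2 + 3) := by positivity
    linarith
  obtain ⟨A, hA⟩ : ∃ A, A = 2 * C8 + 1 + 3 * C7 + 1 / θ := ⟨_, rfl⟩
  have hAp : 0 < A := by rw [hA]; positivity
  obtain ⟨f1, hf1, hf1', hstar⟩ := given_star D H A δ hAp hδ
  have hsm := J_low_small δ C8 (2 + D.α) (2 * (1 + 2 * n0)) hδ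
  obtain ⟨u, hu, hsub⟩ := mem_nhdsGT_iff_exists_Ioo_subset.mp hsm
  refine ⟨min f1 u, lt_min hf1 hu, lt_of_le_of_lt (min_le_left _ _) hf1', ?_⟩
  intro h hh1' hhH hfpos hflt
  have hh0 : 0 ≤ h := hh1.le.trans hh1'
  obtain ⟨s1, s2, s3, s4⟩ := hsub ⟨hfpos, lt_of_lt_of_le hflt (min_le_right _ _)⟩
  obtain ⟨ℓ, hℓ1, hℓ2, hℓ3⟩ := hstar h hh0 hhH hfpos (lt_of_lt_of_le hflt (min_le_left _ _))
  obtain ⟨f, hf⟩ : ∃ f, f = D.f h := ⟨_, rfl⟩
  rw [← hf] at s1 s2 s3 s4 hℓ2 hℓ3 hfpos ⊢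
  have hf1le : f < 1 := by
    refine s1.trans ?_
    rw [Real.exp_lt_one_iff]; norm_num
  obtain ⟨L, hL⟩ : ∃ L, L = Real.log f⁻¹ := ⟨_, rfl⟩
  have hLlog : Real.log f = -L := by rw [hL, Real.log_inv, neg_neg]
  have hL1 : 1 ≤ L := by
    have : Real.log f ≤ -1 := by
      rw [Real.log_le_iff_le_exp hfpos]; exact s1.le
    linarith
  rw [← hL] at hℓ3 s3
  have hℓpos : (1:ℝ) ≤ ℓ := by exact_mod_cast hℓ1
  -- powers of f
  have hpw : ∀ s : ℝ, 0 < f ^ s := fun s => Real.rpow_pos_of_pos hfpos s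
  have hlogpw : ∀ s : ℝ, Real.log (f ^ s) = -(s * L) := by
    intro s; rw [Real.log_rpow hfpos, hLlog]; ring
  have hpadd : ∀ s t : ℝ, f ^ (s + t) = f ^ s * f ^ t := fun s t => Real.rpow_add hfpos s t
  -- ℓ'
  have hl' : ((ℓ + 2 * n0 : ℕ) : ℝ) ≤ (1 + 2 * n0) * f ^ (-(1 + δ)) := by
    push_cast
    have h1le : 1 ≤ f ^ (-(1 + δ)) := Real.one_le_rpow_of_pos_of_le_one_of_nonpos hfpos hf1le.le (by linarith)
    nlinarith
  have hl'pos : (1:ℝ) ≤ ((ℓ + 2 * n0 : ℕ) : ℝ) := by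
    push_cast; linarith
  have hlogl' : Real.log ((ℓ + 2 * n0 : ℕ) : ℝ) ≤ Real.log (1 + 2 * n0) + 2 * L := by
    calc Real.log ((ℓ + 2 * n0 : ℕ) : ℝ) ≤ Real.log ((1 + 2 * n0) * f ^ (-(1 + δ))) :=
          Real.log_le_log (by linarith) hl'
      _ = Real.log (1 + 2 * n0) + (1 + δ) * L := by
          rw [Real.log_mul (by linarith) (hpw _).ne', hlogpw]; ring
      _ ≤ _ := by nlinarith
  have hlogl : Real.log (ℓ : ℝ) ≤ 2 * L := by
    calc Real.log (ℓ : ℝ) ≤ Real.log (f ^ (-(1 + δ))) := Real.log_le_log (by linarith) hℓ2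
      _ = (1 + δ) * L := by rw [hlogpw]; ring
      _ ≤ _ := by nlinarith
  -- Q
  obtain ⟨Q, hQ⟩ : ∃ Q, Q = ⌈f ^ (-(3 * δ))⌉₊ := ⟨_, rfl⟩
  have hQge : f ^ (-(3 * δ)) ≤ Q := by rw [hQ]; exact Nat.le_ceil _
  have h3le : 1 ≤ f ^ (-(3 * δ)) := Real.one_le_rpow_of_pos_of_le_one_of_nonpos hfpos hf1le.le (by linarith)
  have hQle : (Q : ℝ) ≤ 2 * f ^ (-(3 * δ)) := by
    have : (Q : ℝ) < f ^ (-(3 * δ)) + 1 := by rw [hQ]; exact Nat.ceil_lt_add_one (by linarith)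
    linarith
  have hQ1 : 1 ≤ Q := by
    have : (1:ℝ) ≤ Q := h3le.trans hQge
    exact_mod_cast this
  have hlogQ : Real.log (Q : ℝ) ≤ Real.log 2 + L := by
    calc Real.log (Q : ℝ) ≤ Real.log (2 * f ^ (-(3 * δ))) :=
          Real.log_le_log (by linarith) hQle
      _ = Real.log 2 + 3 * δ * L := by
          rw [Real.log_mul (by norm_num) (hpw _).ne', hlogpw]; ring
      _ ≤ _ := by nlinarith
  -- b
  obtain ⟨b, hb⟩ : ∃ b, b = Real.log (2 / c0) + (1 + D.α) * (Real.log ((ℓ + 2 * n0 : ℕ) : ℝ) + Real.log (Q : ℝ)) :=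
    ⟨_, rfl⟩
  have hbC : b ≤ C8 * (1 + L) := by
    have h1 : (1 + D.α) * (Real.log ((ℓ + 2 * n0 : ℕ) : ℝ) + Real.log (Q : ℝ)) ≤
        (1 + D.α) * (Real.log (1 + 2 * n0) + Real.log 2 + 3 * L) :=
      mul_le_mul_of_nonneg_left (by linarith) (by linarith)
    have h2 : Real.log (2 / c0) * 1 ≤ Real.log (2 / c0) * (1 + L) :=
      mul_le_mul_of_nonneg_left (by linarith) hlogc
    have h3 : (1 + D.α) * (Real.log (1 + 2 * n0) + Real.log 2 + 3 * L) ≤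
        (1 + D.α) * ((Real.log (1 + 2 * n0) + Real.log 2 + 3) * (1 + L)) := by
      apply mul_le_mul_of_nonneg_left _ (by linarith)
      nlinarith
    rw [hb, hC8]
    calc _ ≤ Real.log (2 / c0) * (1 + L) + (1 + D.α) * ((Real.log (1 + 2 * n0) + Real.log 2 + 3) * (1 + L)) := by
          linarith
      _ = _ := by ring
  -- the event
  have hx : 0 ≤ L / θ := by positivity
  have hkey : b + 1 + C7 * (1 + Real.log (ℓ : ℝ)) + L / θ ≤ A * L := by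
    have h1 : C7 * (1 + Real.log (ℓ : ℝ)) ≤ C7 * (3 * L) :=
      mul_le_mul_of_nonneg_left (by linarith) hC7.le
    have h2 : C8 * (1 + L) ≤ C8 * (2 * L) := mul_le_mul_of_nonneg_left (by linarith) hC8p.le
    have h3 : L / θ = 1 / θ * L := by ring
    rw [hA, h3]
    nlinarith
  have hmono : D.P.real {ω | A * L ≤ D.lF h 0 ℓ ω} ≤
      D.P.real {ω | b + 1 + C7 * (1 + Real.log (ℓ : ℝ)) + L / θ ≤ D.lF h 0 ℓ ω} := by
    apply measureReal_mono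
    · intro ω hω
      exact hkey.trans hω
    · exact measure_ne_top _ _
  have hRb := hR h hh1' hhH ℓ hℓ1 (b + 1) (L / θ) hx
  have hexp : Real.exp (-(θ * (L / θ))) = f := by
    have : -(θ * (L / θ)) = Real.log f := by
      rw [hLlog]; field_simp
    rw [this, Real.exp_log hfpos]
  rw [hexp] at hRb
  have h2d : f ^ (2 * δ) = f ^ δ * f ^ δ := by rw [← hpadd]; congr 1; ring
  have hfled : f ≤ f ^ δ * f ^ δ := by
    rw [← h2d]
    calc f = f ^ (1:ℝ) := (Real.rpow_one f).symm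
      _ ≤ f ^ (2 * δ) := Real.rpow_le_rpow_of_exponent_ge hfpos hf1le.le (by linarith)
  have hp : f ^ (2 * δ) ≤ D.P.real {ω | b + 1 ≤ -Real.log (D.R h 0 (ℓ + 2 * n0) ω)} := by
    refine le_trans ?_ hRb
    rw [h2d]
    have : f ^ δ ≤ D.P.real {ω | b + 1 + C7 * (1 + Real.log (ℓ : ℝ)) + L / θ ≤ D.lF h 0 ℓ ω} :=
      hℓ3.trans hmono
    nlinarith [hpw δ]
  have hER := given_ER D c0 n0 hK h hh0 (ℓ + 2 * n0) (by omega) Q hQ1 b hb
  have hpQ : f ^ (-δ) ≤ D.P.real {ω | b + 1 ≤ -Real.log (D.R h 0 (ℓ + 2 * n0) ω)} * Q := by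
    have : f ^ (-δ) = f ^ (2 * δ) * f ^ (-(3 * δ)) := by rw [← hpadd]; congr 1; ring
    rw [this]
    exact mul_le_mul hp hQge (hpw _).le (le_trans (hpw _).le hp)
  have hER2 : ∫ ω, D.R h 0 (Q * (ℓ + 2 * n0)) ω ∂D.P ≤ Real.exp (-1) := by
    refine hER.trans (Real.exp_le_exp.mpr ?_)
    linarith
  obtain ⟨_, _, hmu⟩ := given_mu D c0 n0 hK h hh0
  have hN : n0 ≤ Q * (ℓ + 2 * n0) := by nlinarith
  have hmu2 := hmu (Q * (ℓ + 2 * n0)) hN hER2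
  refine le_trans ?_ hmu2
  have hQp : (0:ℝ) < Q := by linarith
  have hNpos : (0:ℝ) < ((Q * (ℓ + 2 * n0) : ℕ) : ℝ) := by
    rw [Nat.cast_mul]; exact mul_pos hQp (by linarith)
  rw [le_div_iff₀ hNpos, Nat.cast_mul]
  have hb1 : (Q : ℝ) * ((ℓ + 2 * n0 : ℕ) : ℝ) ≤ (2 * f ^ (-(3 * δ))) * ((1 + 2 * n0) * f ^ (-(1 + δ))) :=
    mul_le_mul hQle hl' (by linarith) (by positivity)
  have hb2 : (2 * f ^ (-(3 * δ))) * ((1 + 2 * n0) * f ^ (-(1 + δ))) ≤ f ^ (-(1 + 5 * δ)) := by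
    have e1 : f ^ (-(1 + 5 * δ)) = f ^ (-δ) * (f ^ (-(3 * δ)) * f ^ (-(1 + δ))) := by
      rw [← hpadd, ← hpadd]; congr 1; ring
    rw [e1]
    calc (2 * f ^ (-(3 * δ))) * ((1 + 2 * n0) * f ^ (-(1 + δ)))
        = (2 * (1 + 2 * n0)) * (f ^ (-(3 * δ)) * f ^ (-(1 + δ))) := by ring
      _ ≤ _ := mul_le_mul_of_nonneg_right s4 (by positivity)
  calc f ^ (1 + ε) * ((Q : ℝ) * ((ℓ + 2 * n0 : ℕ) : ℝ)) ≤ f ^ (1 + ε) * f ^ (-(1 + 5 * δ)) :=
        mul_le_mul_of_nonneg_left (hb1.trans hb2) (hpw _).le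
    _ = f ^ (ε - 5 * δ) := by rw [← hpadd]; congr 1; ring
    _ ≤ 1 := Real.rpow_le_one hfpos.le hf1le.le (by linarith)


end M_low
end Cop764
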