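import Pool.Agent.Helper764.CopDefs
import Pool.Agent.Helper764.Cop_fe
import Pool.Agent.Helper764.Cop_mu
import Pool.Agent.Helper764.Cop_hc
import Pool.Agent.Helper764.Cop_low
import Pool.Agent.Helper764.Cop_K

set_option autoImplicit false
set_option maxHeartbeats 4000000
open MeasureTheory ProbabilityTheory Filter Topology
open scoped ENNReal NNReal

namespace Cop764
namespace M_final

theorem given_fe : St_fe := M_fe.J_fe
theorem given_mu : St_mu := M_mu.J_mu
theorem given_hc : St_hc := M_hc.J_hc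
theorem given_low : St_low := M_low.J_low
theorem given_K : St_K := M_K.J_K





theorem J_final : St_final := by
  intro D
  obtain ⟨c0, n0, hK⟩ := given_K D
  obtain ⟨hc, hcpos, hiff, hlim⟩ := given_hc D
  have key : ∀ ε : ℝ, 0 < ε → ∀ᶠ h in 𝓝[<] hc, 0 < D.f h ∧ D.f h < 1 ∧
      D.f h ^ (1 + ε) ≤ D.mu h ∧ D.mu h ≤ D.f h := by
    intro ε hε
    obtain ⟨f0, hf0, hf01, hlow⟩ := given_low D (hc / 2) hc ε (by linarith) hε
    have h1 : ∀ᶠ h in 𝓝[<] hc, h ∈ Set.Ioo (hc / 2) hc :=
      Ioo_mem_nhdsLT (by linarith)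
    have h2 : ∀ᶠ h in 𝓝[<] hc, D.f h < f0 := (hlim.eventually (gt_mem_nhds hf0))
    filter_upwards [h1, h2] with h hh hf
    have hpos : 0 ≤ h := by linarith [hh.1]
    have hfp : 0 < D.f h := (hiff h hpos).2 hh.2
    refine ⟨hfp, hf.trans hf01, hlow h hh.1.le hh.2.le hfp hf, (given_mu D c0 n0 hK h hpos).2.1⟩
  refine ⟨fun h hh => (given_fe D h hh).1, fun h hh => (given_mu D c0 n0 hK h hh).1, hc, hcpos,
    hiff, ?_, ?_⟩
  · filter_upwards [key 1 one_pos] with h hh
    obtain ⟨h1, h2, h3, h4⟩ := hh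
    exact ⟨lt_of_lt_of_le (Real.rpow_pos_of_pos h1 _) h3, h4⟩
  · rw [Metric.tendsto_nhds]
    intro ε hε
    filter_upwards [key (ε / 2) (half_pos hε)] with h hh
    obtain ⟨h1, h2, h3, h4⟩ := hh
    have hmu : 0 < D.mu h := lt_of_lt_of_le (Real.rpow_pos_of_pos h1 _) h3
    have hlf : Real.log (D.f h) < 0 := Real.log_neg h1 h2
    have hle : Real.log (D.mu h) ≤ Real.log (D.f h) := Real.log_le_log hmu h4
    have hge : (1 + ε / 2) * Real.log (D.f h) ≤ Real.log (D.mu h) := by
      rw [← Real.log_rpow h1]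
      exact Real.log_le_log (Real.rpow_pos_of_pos h1 _) h3
    have r1 : 1 ≤ Real.log (D.mu h) / Real.log (D.f h) := by
      rw [le_div_iff_of_neg hlf]
      linarith
    have r2 : Real.log (D.mu h) / Real.log (D.f h) ≤ 1 + ε / 2 := by
      rw [div_le_iff_of_neg hlf]
      exact hge
    rw [Real.dist_eq, abs_lt]
    constructor <;> linarith


end M_final
end Cop764
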