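import Pool.Agent.Helper764.CvFell

set_option autoImplicit false
open MeasureTheory Filter Set
open scoped Topology

namespace Pool.Agent.Helper764.Cv

/-- the closure in `ℝ^d` of the configuration `η` of points of `D` -/
def closureSet {d : ℕ} (D : AddSubgroup (Sp d)) (η : D → Bool) : Cl d :=
  ⟨closure {x : Sp d | ∃ z : D, (z : Sp d) = x ∧ η z = true}, isClosed_closure⟩

lemma dset_eq {d : ℕ} (D : AddSubgroup (Sp d)) (η : D → Bool) {K : Set (Sp d)}
    (hK : IsCompact K) :
    (closureSet D η).set ∩ K = ∅ ↔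
      ∃ n : ℕ, ∀ z : D, (z : Sp d) ∈ Metric.thickening (1 / ((n : ℝ) + 1)) K → η z = false := by
  constructor
  · intro h
    have hsub : K ⊆ ((closureSet D η).set)ᶜ := by
      intro x hx hx'
      have : x ∈ (closureSet D η).set ∩ K := ⟨hx', hx⟩
      rw [h] at this; exact this
    obtain ⟨δ, hδ, hδ2⟩ := hK.exists_thickening_subset_open
      (isOpen_compl_iff.2 (closureSet D η).closed) hsub
    obtain ⟨n, hn⟩ := exists_nat_one_div_lt hδ
    refine ⟨n, fun z hz => ?_⟩
    have h2 := hδ2 (Metric.thickening_mono hn.le K hz)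
    by_contra hcon
    have h3 : η z = true := by simpa using hcon
    exact h2 (subset_closure ⟨z, rfl, h3⟩)
  · rintro ⟨n, hn⟩
    have hpos : (0 : ℝ) < 1 / ((n : ℝ) + 1) := by positivity
    have hdis : Disjoint (Metric.thickening (1 / ((n : ℝ) + 1)) K)
        {x : Sp d | ∃ z : D, (z : Sp d) = x ∧ η z = true} := by
      rw [Set.disjoint_left]
      rintro x hx ⟨z, hz, hz2⟩
      rw [← hz] at hx
      rw [hn z hx] at hz2
      exact Bool.false_ne_true hz2
    have h2 := hdis.closure_right Metric.isOpen_thickening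
    ext x
    simp only [Set.mem_inter_iff, Set.mem_empty_iff_false, iff_false, not_and]
    intro hx hxK
    exact (Set.disjoint_left.1 h2) (Metric.self_subset_thickening hpos K hxK) hx

lemma meas_miss {d : ℕ} (D : AddSubgroup (Sp d)) (hD : (D : Set (Sp d)).Countable)
    {K : Set (Sp d)} (hK : IsCompact K) :
    MeasurableSet {η : D → Bool | (closureSet D η).set ∩ K = ∅} := by
  have hc : Countable D := hD.to_subtype
  have h1 : {η : D → Bool | (closureSet D η).set ∩ K = ∅} =
      ⋃ n : ℕ, ⋂ z : D, {η : D → Bool | (z : Sp d) ∈ Metric.thickening (1 / ((n : ℝ) + 1)) K →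
        η z = false} := by
    ext η
    simp only [Set.mem_iUnion, Set.mem_iInter]
    exact dset_eq D η hK
  rw [h1]
  refine MeasurableSet.iUnion fun n => MeasurableSet.iInter fun z => ?_
  by_cases hz : (z : Sp d) ∈ Metric.thickening (1 / ((n : ℝ) + 1)) K
  · have h2 : {η : D → Bool | (z : Sp d) ∈ Metric.thickening (1 / ((n : ℝ) + 1)) K →
        η z = false} = {η : D → Bool | η z = false} := by
      ext η; exact ⟨fun h => h hz, fun h _ => h⟩
    rw [h2]
    exact measurableSet_eq_fun (measurable_pi_apply z) measurable_const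
  · have h2 : {η : D → Bool | (z : Sp d) ∈ Metric.thickening (1 / ((n : ℝ) + 1)) K →
        η z = false} = Set.univ := by
      ext η; exact ⟨fun _ => Set.mem_univ _, fun _ h => absurd h hz⟩
    rw [h2]; exact MeasurableSet.univ

/-- TARGET -/
theorem measurable_closureSet {d : ℕ} (D : AddSubgroup (Sp d)) (hD : (D : Set (Sp d)).Countable) :
    Measurable (closureSet D) :=
  measurable_of_miss _ fun _ hK => meas_miss D hD hK

/-- TARGET -/
theorem mem_iff_ae {d : ℕ} {m : ℝ → ℝ} (hm : Tendsto m (𝓝[>] 0) (𝓝 0))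
    (D : AddSubgroup (Sp d)) (hD : (D : Set (Sp d)).Countable)
    (μ : Measure (D → Bool)) [IsProbabilityMeasure μ]
    (h : ∀ x : D, ∀ r : ℝ, 0 < r →
        μ.real {η | η x = false ∧ ∃ y : D, η y = true ∧ dist (x : Sp d) (y : Sp d) < r} ≤ m r) :
    ∀ᵐ η ∂μ, ∀ x : D, (x : Sp d) ∈ (closureSet D η).set ↔ η x = true := by
  have hc : Countable D := hD.to_subtype
  rw [ae_all_iff]
  intro x
  have hbad : μ.real {η : D → Bool | η x = false ∧ (x : Sp d) ∈ (closureSet D η).set} ≤ 0 := by
    refine ge_of_tendsto hm ?_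
    filter_upwards [self_mem_nhdsWithin] with r hr
    refine le_trans (measureReal_mono ?_ (measure_ne_top _ _)) (h x r hr)
    rintro η ⟨h1, h2⟩
    refine ⟨h1, ?_⟩
    obtain ⟨y, ⟨z, hz, hz2⟩, hy⟩ := Metric.mem_closure_iff.1 h2 r hr
    exact ⟨z, hz2, by rw [hz]; exact hy⟩
  have hbad0 : μ {η : D → Bool | η x = false ∧ (x : Sp d) ∈ (closureSet D η).set} = 0 := by
    have h1 : μ.real {η : D → Bool | η x = false ∧ (x : Sp d) ∈ (closureSet D η).set} = 0 :=
      le_antisymm hbad measureReal_nonneg
    exact (measureReal_eq_zero_iff (measure_ne_top _ _)).1 h1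
  rw [ae_iff]
  refine measure_mono_null ?_ hbad0
  intro η hη
  simp only [Set.mem_ofPred_eq] at hη ⊢
  by_cases h1 : η x = true
  · exfalso
    apply hη
    exact ⟨fun _ => h1, fun _ => subset_closure ⟨x, rfl, h1⟩⟩
  · have h2 : η x = false := by simpa using h1
    refine ⟨h2, ?_⟩
    by_contra h3
    apply hη
    exact ⟨fun h4 => absurd h4 h3, fun h4 => absurd h4 h1⟩

lemma image_inter_empty {d : ℕ} (a : Sp d) (F K : Set (Sp d)) :
    ((fun x => x + a) '' F) ∩ K = ∅ ↔ F ∩ ((fun x => x + -a) '' K) = ∅ := by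
  simp only [Set.eq_empty_iff_forall_notMem, Set.mem_inter_iff, Set.mem_image, not_and]
  constructor
  · rintro h x hx ⟨y, hy, rfl⟩
    exact h y ⟨y + -a, hx, by abel⟩ hy
  · rintro h x ⟨y, hy, rfl⟩ hx
    exact h y hy ⟨y + a, hx, by abel⟩

lemma shift_eq {d : ℕ} (D : AddSubgroup (Sp d)) (η : D → Bool) (g : D) :
    (closureSet D (fun x => η (x + g))).set = (fun x => x + -(g : Sp d)) '' (closureSet D η).set := by
  have h1 : (fun x => x + -(g : Sp d)) '' (closureSet D η).set =
      closure ((fun x => x + -(g : Sp d)) '' {x : Sp d | ∃ z : D, (z : Sp d) = x ∧ η z = true}) :=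
    (Homeomorph.addRight (-(g : Sp d))).image_closure _
  rw [h1]
  show closure _ = closure _
  congr 1
  ext x
  simp only [Set.mem_ofPred_eq, Set.mem_image]
  constructor
  · rintro ⟨z, rfl, hz⟩
    refine ⟨((z + g : D) : Sp d), ⟨z + g, rfl, hz⟩, ?_⟩
    push_cast; abel
  · rintro ⟨y, ⟨z, rfl, hz⟩, rfl⟩
    refine ⟨z - g, ?_, ?_⟩
    · push_cast; abel
    · rw [sub_add_cancel]; exact hz

/-- TARGET -/
theorem stationary_closureSet {d : ℕ}
    (D : AddSubgroup (Sp d)) (hD : (D : Set (Sp d)).Countable) (hd : Dense (D : Set (Sp d)))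
    (μ : Measure (D → Bool)) [IsProbabilityMeasure μ]
    (hinv : ∀ g : D, μ.map (fun (η : D → Bool) (x : D) => η (x + g)) = μ) :
    IsStationaryRandomClosedSet μ (closureSet D) := by
  have hc : Countable D := hD.to_subtype
  have hX := measurable_closureSet D hD
  refine ⟨hX, fun a => ?_⟩
  set f : Set (Sp d) → ENNReal := fun K => μ {η : D → Bool | (closureSet D η).set ∩ K = ∅} with hf
  have hfanti : ∀ K K' : Set (Sp d), K ⊆ K' → f K' ≤ f K := by
    intro K K' h
    refine measure_mono fun η hη => ?_
    have h2 : (closureSet D η).set ∩ K' = ∅ := hη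
    exact Set.subset_eq_empty (Set.inter_subset_inter_right _ h) h2
  have hshift : ∀ (K : Set (Sp d)), IsCompact K → ∀ g : D,
      f ((fun x => x + (g : Sp d)) '' K) = f K := by
    intro K hK g
    have hmeas : Measurable (fun (η : D → Bool) (x : D) => η (x + g)) :=
      measurable_pi_lambda _ fun x => measurable_pi_apply _
    have h1 : f K = (μ.map (fun (η : D → Bool) (x : D) => η (x + g)))
        {η : D → Bool | (closureSet D η).set ∩ K = ∅} := by rw [hinv g]
    rw [h1, Measure.map_apply hmeas (meas_miss D hD hK)]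
    refine congrArg μ ?_
    ext η
    simp only [Set.mem_preimage, Set.mem_ofPred_eq]
    rw [shift_eq, image_inter_empty, neg_neg]
  have hle : ∀ (K : Set (Sp d)), IsCompact K → ∀ a : Sp d, f K ≤ f ((fun x => x + a) '' K) := by
    intro K hK a
    have hmono : Monotone fun n : ℕ => {η : D → Bool |
        (closureSet D η).set ∩ Metric.cthickening (1 / ((n : ℝ) + 1)) K = ∅} := by
      intro n m hnm η hη
      have h2 : (closureSet D η).set ∩ Metric.cthickening (1 / ((n : ℝ) + 1)) K = ∅ := hη
      refine Set.subset_eq_empty (Set.inter_subset_inter_right _ ?_) h2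
      refine Metric.cthickening_mono ?_ K
      apply one_div_le_one_div_of_le (by positivity)
      have : (n : ℝ) ≤ m := by exact_mod_cast hnm
      linarith
    have ht := tendsto_measure_iUnion_atTop (μ := μ) hmono
    have hU : (⋃ n : ℕ, {η : D → Bool |
        (closureSet D η).set ∩ Metric.cthickening (1 / ((n : ℝ) + 1)) K = ∅}) =
        {η : D → Bool | (closureSet D η).set ∩ K = ∅} := by
      ext η
      simp only [Set.mem_iUnion, Set.mem_ofPred_eq]
      constructor
      · rintro ⟨n, hn⟩
        exact Set.subset_eq_empty (Set.inter_subset_inter_right _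
          (Metric.self_subset_cthickening K)) hn
      · intro h
        have hsub : K ⊆ ((closureSet D η).set)ᶜ := by
          intro x hx hx'
          have : x ∈ (closureSet D η).set ∩ K := ⟨hx', hx⟩
          rw [h] at this; exact this
        obtain ⟨δ, hδ, hδ2⟩ := hK.exists_cthickening_subset_open
          (isOpen_compl_iff.2 (closureSet D η).closed) hsub
        obtain ⟨n, hn⟩ := exists_nat_one_div_lt hδ
        refine ⟨n, ?_⟩
        ext x
        simp only [Set.mem_inter_iff, Set.mem_empty_iff_false, iff_false, not_and]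
        intro hx hx'
        exact hδ2 (Metric.cthickening_mono hn.le K hx') hx
    rw [hU] at ht
    refine le_of_tendsto' ht fun n => ?_
    have hpos : (0 : ℝ) < 1 / ((n : ℝ) + 1) := by positivity
    obtain ⟨g, hg, hg2⟩ := hd.exists_dist_lt a hpos
    have h3 : (fun x => x + a) '' K ⊆
        (fun x => x + ((⟨g, hg⟩ : D) : Sp d)) '' (Metric.cthickening (1 / ((n : ℝ) + 1)) K) := by
      rintro y ⟨x, hx, rfl⟩
      refine ⟨x + a - g, ?_, by simp⟩
      refine Metric.mem_cthickening_of_dist_le _ x _ _ hx ?_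
      rw [dist_eq_norm]
      have : x + a - g - x = a - g := by abel
      rw [this, ← dist_eq_norm]
      exact hg2.le
    have h4 := hshift (Metric.cthickening (1 / ((n : ℝ) + 1)) K) hK.cthickening ⟨g, hg⟩
    calc μ {η : D → Bool | (closureSet D η).set ∩ Metric.cthickening (1 / ((n : ℝ) + 1)) K = ∅}
        = f (Metric.cthickening (1 / ((n : ℝ) + 1)) K) := rfl
      _ = f ((fun x => x + ((⟨g, hg⟩ : D) : Sp d)) ''
            (Metric.cthickening (1 / ((n : ℝ) + 1)) K)) := h4.symm
      _ ≤ f ((fun x => x + a) '' K) := hfanti _ _ h3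
  have heq : ∀ (K : Set (Sp d)), IsCompact K → ∀ a : Sp d, f ((fun x => x + a) '' K) = f K := by
    intro K hK a
    refine le_antisymm ?_ (hle K hK a)
    have h1 := hle ((fun x => x + a) '' K) (hK.image (continuous_add_const a)) (-a)
    have h2 : (fun x => x + -a) '' ((fun x => x + a) '' K) = K := by
      rw [Set.image_image]
      simp
    rwa [h2] at h1
  have hta : Measurable (fun η => translate a (closureSet D η)) := (measurable_translate a).comp hX
  have i1 : IsProbabilityMeasure (μ.map (fun η => translate a (closureSet D η))) :=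
    Measure.isProbabilityMeasure_map hta.aemeasurable
  have i2 : IsProbabilityMeasure (μ.map (closureSet D)) :=
    Measure.isProbabilityMeasure_map hX.aemeasurable
  refine law_ext _ _ fun K hK => ?_
  have hopen : MeasurableSet {F : Cl d | F.set ∩ K = ∅} := by
    have h1 : IsOpen {F : Cl d | F.set ∩ K = ∅} :=
      TopologicalSpace.isOpen_generateFrom_of_mem (Or.inl ⟨K, hK, rfl⟩)
    exact h1.measurableSet
  rw [Measure.map_apply hta hopen, Measure.map_apply hX hopen]
  have h1 : (fun η => translate a (closureSet D η)) ⁻¹' {F : Cl d | F.set ∩ K = ∅} =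
      {η : D → Bool | (closureSet D η).set ∩ ((fun x => x + -a) '' K) = ∅} := by
    ext η
    simp only [Set.mem_preimage, Set.mem_ofPred_eq]
    exact image_inter_empty a _ K
  rw [h1]
  exact heq K hK (-a)

end Pool.Agent.Helper764.Cv
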