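import Pool.Agent.Helper764.CvInv
import Pool.Agent.Helper764.CvClo

set_option autoImplicit false
open MeasureTheory Filter Set
open scoped Topology

namespace Pool.Agent.Helper764.Cv

/-- TARGET -/
theorem exists_countable_dense_subgroup (d : ℕ) :
    ∃ D : AddSubgroup (Sp d), (D : Set (Sp d)).Countable ∧ Dense (D : Set (Sp d)) := by
  let f : (Fin d → ℚ) →+ Sp d :=
    { toFun := fun v => WithLp.toLp 2 (fun i => ((v i : ℚ) : ℝ))
      map_zero' := by
        ext i
        simp
      map_add' := by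
        intro v w
        ext i
        simp }
  refine ⟨f.range, ?_, ?_⟩
  · rw [AddMonoidHom.coe_range]
    exact Set.countable_range _
  · rw [AddMonoidHom.coe_range]
    have h1 : DenseRange (fun (v : Fin d → ℚ) (i : Fin d) => ((v i : ℚ) : ℝ)) :=
      DenseRange.piMap (fun _ => Rat.denseRange_cast)
    have h2 : DenseRange ((EuclideanSpace.equiv (Fin d) ℝ).symm) :=
      (EuclideanSpace.equiv (Fin d) ℝ).symm.surjective.denseRange
    have h3 := h2.comp h1 (EuclideanSpace.equiv (Fin d) ℝ).symm.continuous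
    exact h3

theorem v1285_meas {d : ℕ} (x : Sp d) : MeasurableSet {F : Cl d | x ∈ F.set} := by
  have h : IsOpen {F : Cl d | F.set ∩ {x} = ∅} :=
    TopologicalSpace.isOpen_generateFrom_of_mem (Or.inl ⟨{x}, isCompact_singleton, rfl⟩)
  have h2 : {F : Cl d | x ∈ F.set} = {F : Cl d | F.set ∩ {x} = ∅}ᶜ := by
    ext F
    simp only [mem_ofPred_eq, mem_compl_iff,
      ← disjoint_iff_inter_eq_empty, disjoint_singleton_right, not_not]
  rw [h2]
  exact h.measurableSet.compl

theorem v1285_meas2 {d : ℕ} (x : Sp d) (r : ℝ) :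
    MeasurableSet {F : Cl d | x ∉ F.set ∧ (F.set ∩ Metric.ball x r).Nonempty} := by
  refine MeasurableSet.inter (v1285_meas x).compl ?_
  exact IsOpen.measurableSet
    (TopologicalSpace.isOpen_generateFrom_of_mem (Or.inr ⟨Metric.ball x r, Metric.isOpen_ball, rfl⟩))

theorem v1285_stat {d : ℕ} {Ω : Type} [MeasurableSpace Ω] {P : Measure Ω}
    {X : Ω → Cl d} (hX : IsStationaryRandomClosedSet P X) (a : Sp d) {B : Set (Cl d)}
    (hB : MeasurableSet B) : P {ω | translate a (X ω) ∈ B} = P {ω | X ω ∈ B} := by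
  have h := hX.stationary a
  have h1 : P.map (fun ω => translate a (X ω)) B = P {ω | translate a (X ω) ∈ B} :=
    Measure.map_apply ((measurable_translate a).comp hX.measurable) hB
  have h2 : P.map X B = P {ω | X ω ∈ B} := Measure.map_apply hX.measurable hB
  rw [← h1, ← h2, h]

theorem v1285_mem {d : ℕ} (a x : Sp d) (F : Cl d) :
    x ∈ (translate a F).set ↔ x - a ∈ F.set := by
  constructor
  · rintro ⟨y, hy, rfl⟩
    simpa using hy
  · intro h
    exact ⟨x - a, h, by simp⟩

/-- TARGET: the two-point function of a stationary random closed set is continuous and depends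
only on the difference. -/
theorem covariance_continuous {d : ℕ} {Ω : Type} [MeasurableSpace Ω] (P : Measure Ω)
    [IsProbabilityMeasure P] (X : Ω → Cl d) (hX : IsStationaryRandomClosedSet P X) :
    ∃ C : Sp d → ℝ, Continuous C ∧
      ∀ x y : Sp d, P.real {ω | x ∈ (X ω).set ∧ y ∈ (X ω).set} = C (x - y) := by
  refine ⟨fun h => P.real {ω | h ∈ (X ω).set ∧ (0 : Sp d) ∈ (X ω).set}, ?_, ?_⟩
  · -- continuity
    set q : ℕ → Set Ω := fun n =>
      {ω | (0 : Sp d) ∉ (X ω).set ∧ ((X ω).set ∩ Metric.ball (0 : Sp d) (1 / ((n : ℝ) + 1))).Nonempty}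
      with hq
    have hqz : ∀ (n : ℕ) (z : Sp d), P {ω | z ∉ (X ω).set ∧
        ((X ω).set ∩ Metric.ball z (1 / ((n : ℝ) + 1))).Nonempty} = P (q n) := by
      intro n z
      have h := v1285_stat hX (-z) (v1285_meas2 (0 : Sp d) (1 / ((n : ℝ) + 1)))
      have e1 : {ω | z ∉ (X ω).set ∧ ((X ω).set ∩ Metric.ball z (1 / ((n : ℝ) + 1))).Nonempty} =
          {ω | translate (-z) (X ω) ∈ {F : Cl d | (0 : Sp d) ∉ F.set ∧
            (F.set ∩ Metric.ball (0 : Sp d) (1 / ((n : ℝ) + 1))).Nonempty}} := by
        ext ω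
        simp only [mem_ofPred_eq, v1285_mem, zero_sub, neg_neg]
        refine and_congr_right fun _ => ?_
        constructor
        · rintro ⟨y, hy1, hy2⟩
          refine ⟨y - z, ?_, ?_⟩
          · rw [v1285_mem]
            simpa using hy1
          · rw [Metric.mem_ball, dist_eq_norm] at hy2 ⊢
            simpa using hy2
        · rintro ⟨y, hy1, hy2⟩
          rw [v1285_mem] at hy1
          refine ⟨y + z, ?_, ?_⟩
          · simpa using hy1
          · rw [Metric.mem_ball, dist_eq_norm] at hy2 ⊢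
            simpa using hy2
      rw [e1, h]
      rfl
    have hm : ∀ n, MeasurableSet (q n) := fun n => hX.measurable (v1285_meas2 _ _)
    have hanti : Antitone q := by
      intro a b hab ω hω
      refine ⟨hω.1, hω.2.mono (Set.inter_subset_inter_right _ (Metric.ball_subset_ball ?_))⟩
      apply one_div_le_one_div_of_le
      · positivity
      · have : (a : ℝ) ≤ b := by exact_mod_cast hab
        linarith
    have hlim : Tendsto (fun n => P (q n)) atTop (𝓝 (P (⋂ n, q n))) :=
      tendsto_measure_iInter_atTop (fun n => (hm n).nullMeasurableSet) hanti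
        ⟨0, measure_ne_top _ _⟩
    have hempty : (⋂ n, q n) = ∅ := by
      rw [Set.eq_empty_iff_forall_notMem]
      intro ω hω
      rw [Set.mem_iInter] at hω
      refine (hω 0).1 ?_
      rw [← (X ω).closed.closure_eq, Metric.mem_closure_iff]
      intro ε hε
      obtain ⟨n, hn⟩ := exists_nat_one_div_lt hε
      obtain ⟨y, hy1, hy2⟩ := (hω n).2
      exact ⟨y, hy1, by rw [dist_comm]; exact (Metric.mem_ball.1 hy2).trans hn⟩
    rw [hempty, measure_empty] at hlim
    have hlim' : Tendsto (fun n => P.real (q n)) atTop (𝓝 0) := by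
      have := (ENNReal.tendsto_toReal (by simp : (0 : ENNReal) ≠ ⊤)).comp hlim
      simpa [Function.comp_def, Measure.real] using this
    have key : ∀ (n : ℕ) (h h' : Sp d), dist h h' < 1 / ((n : ℝ) + 1) →
        P.real {ω | h ∈ (X ω).set ∧ (0 : Sp d) ∈ (X ω).set} ≤
          P.real {ω | h' ∈ (X ω).set ∧ (0 : Sp d) ∈ (X ω).set} + P.real (q n) := by
      intro n h h' hd
      have e2 : P.real (q n) = P.real {ω | h' ∉ (X ω).set ∧
          ((X ω).set ∩ Metric.ball h' (1 / ((n : ℝ) + 1))).Nonempty} := by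
        rw [Measure.real, Measure.real, hqz n h']
      rw [e2]
      refine le_trans (measureReal_mono ?_ (measure_ne_top _ _)) (measureReal_union_le _ _)
      intro ω hω
      by_cases hh : h' ∈ (X ω).set
      · exact Or.inl ⟨hh, hω.2⟩
      · exact Or.inr ⟨hh, ⟨h, hω.1, Metric.mem_ball.2 hd⟩⟩
    rw [Metric.continuous_iff]
    intro h ε hε
    obtain ⟨n, hn⟩ := ((tendsto_order.1 hlim').2 ε hε).exists
    refine ⟨1 / ((n : ℝ) + 1), by positivity, fun h' hd => ?_⟩
    have k1 := key n h' h hd
    have k2 := key n h h' (by rw [dist_comm]; exact hd)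
    rw [Real.dist_eq, abs_lt]
    constructor <;> linarith
  · intro x y
    have h := v1285_stat hX (-y) ((v1285_meas (x - y)).inter (v1285_meas (0 : Sp d)))
    have e1 : {ω | x ∈ (X ω).set ∧ y ∈ (X ω).set} =
        {ω | translate (-y) (X ω) ∈ {F : Cl d | x - y ∈ F.set} ∩ {F : Cl d | (0 : Sp d) ∈ F.set}} := by
      ext ω
      simp [v1285_mem]
    rw [Measure.real, e1, h]
    rfl

/-- TARGET -/
theorem isCovariance_of_finiteLaws {d : ℕ} {S : Sp d → ℝ} {m : ℝ → ℝ}
    (hm : Tendsto m (𝓝[>] 0) (𝓝 0)) (h : FiniteLaws d S m) : IsCovariance d S := by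
  obtain ⟨D, hDc, hDd⟩ := exists_countable_dense_subgroup d
  obtain ⟨μ, hμ, hinv, htwo, hmod⟩ := exists_invariant h D hDc
  have hst := stationary_closureSet D hDc hDd μ hinv
  obtain ⟨C, hC, hCe⟩ := covariance_continuous μ (closureSet D) hst
  have hSc := continuous_of_finiteLaws h hm
  have hae := mem_iff_ae hm D hDc μ hmod
  have hSD : ∀ x ∈ (D : Set (Sp d)), C x = S x := by
    intro x hx
    have h1 := htwo ⟨x, hx⟩ 0
    have h2 := hCe x 0
    have h3 : μ.real {η | x ∈ (closureSet D η).set ∧ (0 : Sp d) ∈ (closureSet D η).set} =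
        μ.real {η | η ⟨x, hx⟩ = true ∧ η 0 = true} := by
      apply measureReal_congr
      filter_upwards [hae] with η hη
      have e1 := hη ⟨x, hx⟩
      have e2 := hη 0
      have e3 : ((0 : D) : Sp d) = 0 := rfl
      rw [e3] at e2
      apply propext
      show (x ∈ (closureSet D η).set ∧ (0 : Sp d) ∈ (closureSet D η).set) ↔
        (η ⟨x, hx⟩ = true ∧ η 0 = true)
      rw [← e1, ← e2]
    rw [h3, h1] at h2
    simpa using h2.symm
  have hCS : C = S := Continuous.ext_on hDd hC hSc hSD
  refine ⟨D → Bool, inferInstance, μ, closureSet D, hμ, hst, ?_⟩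
  intro x y
  rw [hCe, hCS]

end Pool.Agent.Helper764.Cv
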