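import Pool.Agent.Helper764.CvG

set_option autoImplicit false
open MeasureTheory Filter Set
open scoped Topology

namespace Pool.Agent.Helper764.Cv

theorem j1426_cont (W B : Set ℝ) (hW : MeasurableSet W) (hB : MeasurableSet B)
    (hBf : (volume : Measure ℝ) B ≠ ⊤) :
    Continuous (fun h : ℝ => (volume : Measure ℝ).real ({t | h + t ∈ B} ∩ W)) := by
  have hfact : Fact ((1 : ENNReal) ≠ ⊤) := ⟨ENNReal.one_ne_top⟩
  have hF : Continuous (fun h : ℝ =>
      (DomAddAct.mk h) +ᵥ (indicatorConstLp (μ := (volume : Measure ℝ)) 1 hB hBf (1 : ℝ))) :=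
    DomAddAct.continuous_mk.vadd continuous_const
  have hI := (continuous_setIntegral (μ := (volume : Measure ℝ)) (E := ℝ) W).comp hF
  refine hI.congr ?_
  intro h
  simp only [Function.comp]
  rw [DomAddAct.mk_vadd_indicatorConstLp, setIntegral_indicatorConstLp hW]
  simp only [smul_eq_mul, mul_one]
  rfl

/-- TARGET -/
theorem continuous_G (A : Set ℝ) (hA : MeasurableSet A) : Continuous (G A) := by
  rw [continuous_iff_continuousAt]
  intro h0
  set B : Set ℝ := A ∩ Icc (h0 - 2) (h0 + 6) with hBdef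
  have hB : MeasurableSet B := hA.inter measurableSet_Icc
  have hBf : (volume : Measure ℝ) B ≠ ⊤ := by
    have h1 : (volume : Measure ℝ) B ≤ volume (Icc (h0 - 2) (h0 + 6)) :=
      measure_mono inter_subset_right
    exact (h1.trans_lt (by rw [Real.volume_Icc]; exact ENNReal.ofReal_lt_top)).ne
  have hc := (j1426_cont (Ico (0 : ℝ) 4 ∩ A) B (measurableSet_Ico.inter hA) hB hBf).continuousAt
    (x := h0)
  refine hc.congr ?_
  filter_upwards [Metric.ball_mem_nhds h0 one_pos] with h hh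
  rw [Metric.mem_ball, Real.dist_eq, abs_lt] at hh
  unfold G
  congr 1
  ext t
  simp only [mem_inter_iff, mem_ofPred_eq, mem_Ico, mem_Icc, hBdef]
  constructor
  · rintro ⟨⟨h1, h2⟩, h3, h4⟩
    exact ⟨h3, h4, by rwa [add_comm]⟩
  · rintro ⟨h3, h4, h1⟩
    exact ⟨⟨by rwa [add_comm], by linarith [h3.1], by linarith [h3.2]⟩, h3, h4⟩

open Classical in
theorem j1426_G_eq (A : Set ℝ) (hA : MeasurableSet A) (h : ℝ) :
    G A h = ∫ t in (0 : ℝ)..4, if t ∈ A ∧ t + h ∈ A then (1 : ℝ) else 0 := by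
  have hm : MeasurableSet {t : ℝ | t ∈ A ∧ t + h ∈ A} :=
    hA.inter ((measurable_add_const h) hA)
  have h1 : (fun t : ℝ => if t ∈ A ∧ t + h ∈ A then (1 : ℝ) else 0) =
      {t : ℝ | t ∈ A ∧ t + h ∈ A}.indicator 1 := by
    funext t
    simp [Set.indicator_apply]
  rw [intervalIntegral.integral_of_le (by norm_num), ← integral_Ico_eq_integral_Ioc, h1,
    integral_indicator_one hm]
  unfold G
  rw [measureReal_restrict_apply hm]
  congr 1
  ext t
  simp only [mem_ofPred_eq, mem_inter_iff]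
  tauto

open Classical in
theorem j1426_shift (A : Set ℝ) (hA : MeasurableSet A) (hper : ∀ t, t + 4 ∈ A ↔ t ∈ A)
    (x y : ℝ) :
    ∫ u in (0 : ℝ)..4, (if x + u ∈ A ∧ y + u ∈ A then (1 : ℝ) else 0) = G A (x - y) := by
  rw [j1426_G_eq A hA]
  set f : ℝ → ℝ := fun t => if t ∈ A ∧ t + (x - y) ∈ A then (1 : ℝ) else 0 with hf
  have hp : Function.Periodic f 4 := by
    intro t
    simp only [hf]
    have h1 := hper t
    have h2 := hper (t + (x - y))
    rw [show t + (x - y) + 4 = t + 4 + (x - y) by ring] at h2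
    simp only [h1, h2]
  have h1 : (fun u : ℝ => if x + u ∈ A ∧ y + u ∈ A then (1 : ℝ) else 0) = fun u => f (y + u) := by
    funext u
    simp only [hf]
    rw [show y + u + (x - y) = x + u by ring]
    simp only [and_comm]
  rw [h1, intervalIntegral.integral_comp_add_left]
  have h2 := hp.intervalIntegral_add_eq y 0
  rw [add_zero]
  rw [zero_add] at h2
  exact h2

open Classical in
/-- TARGET -/
theorem mcmillan_G {d : ℕ} (i : Fin d) (A : Set ℝ) (hA : MeasurableSet A)
    (hper : ∀ t, t + 4 ∈ A ↔ t ∈ A)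
    (T : Finset (Sp d)) (a : Sp d → Sp d → ℝ) (c : ℝ)
    (h : ∀ J : Finset (Sp d), J ⊆ T →
      0 ≤ c + ∑ x ∈ T, ∑ y ∈ T, a x y * (if x ∈ J ∧ y ∈ J then 1 else 0)) :
    0 ≤ c + ∑ x ∈ T, ∑ y ∈ T, a x y * (4⁻¹ * G A ((x - y) i)) := by
  have hint : ∀ x y : Sp d, IntervalIntegrable
      (fun u : ℝ => if x i + u ∈ A ∧ y i + u ∈ A then (1 : ℝ) else 0) volume 0 4 := by
    intro x y
    have hm : MeasurableSet {u : ℝ | x i + u ∈ A ∧ y i + u ∈ A} :=
      ((measurable_const_add (x i)) hA).inter ((measurable_const_add (y i)) hA)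
    have h1 : (fun u : ℝ => if x i + u ∈ A ∧ y i + u ∈ A then (1 : ℝ) else 0) =
        {u : ℝ | x i + u ∈ A ∧ y i + u ∈ A}.indicator 1 := by
      funext t
      simp [Set.indicator_apply]
    rw [h1]
    rw [intervalIntegrable_iff]
    refine Integrable.indicator ?_ hm
    have : IntegrableOn (fun _ : ℝ => (1 : ℝ)) (uIoc 0 4) volume :=
      (intervalIntegrable_iff.1 (intervalIntegrable_const (μ := volume) (a := (0 : ℝ)) (b := 4)
        (c := (1 : ℝ))))
    exact this
  have hpt : ∀ u : ℝ, 0 ≤ c + ∑ x ∈ T, ∑ y ∈ T, a x y *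
      (if x i + u ∈ A ∧ y i + u ∈ A then (1 : ℝ) else 0) := by
    intro u
    have h1 := h (T.filter (fun x => x i + u ∈ A)) (Finset.filter_subset _ _)
    have h2 : ∑ x ∈ T, ∑ y ∈ T, a x y * (if x ∈ T.filter (fun x => x i + u ∈ A) ∧
        y ∈ T.filter (fun x => x i + u ∈ A) then (1 : ℝ) else 0) =
        ∑ x ∈ T, ∑ y ∈ T, a x y * (if x i + u ∈ A ∧ y i + u ∈ A then (1 : ℝ) else 0) := by
      apply Finset.sum_congr rfl
      intro x hx
      apply Finset.sum_congr rfl
      intro y hy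
      simp only [Finset.mem_filter, hx, hy, true_and]
    rw [h2] at h1
    exact h1
  have hI : 0 ≤ ∫ u in (0 : ℝ)..4, (c + ∑ x ∈ T, ∑ y ∈ T, a x y *
      (if x i + u ∈ A ∧ y i + u ∈ A then (1 : ℝ) else 0)) :=
    intervalIntegral.integral_nonneg (by norm_num) fun u _ => hpt u
  have hii : ∀ x ∈ T, IntervalIntegrable (fun u : ℝ => ∑ y ∈ T, a x y *
      (if x i + u ∈ A ∧ y i + u ∈ A then (1 : ℝ) else 0)) volume 0 4 := by
    intro x _
    have := IntervalIntegrable.sum T (f := fun (y : Sp d) (u : ℝ) => a x y *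
      (if x i + u ∈ A ∧ y i + u ∈ A then (1 : ℝ) else 0)) (μ := volume) (a := (0 : ℝ)) (b := 4)
      (fun y _ => (hint x y).const_mul (a x y))
    simpa only [Finset.sum_fn] using this
  have hiii : IntervalIntegrable (fun u : ℝ => ∑ x ∈ T, ∑ y ∈ T, a x y *
      (if x i + u ∈ A ∧ y i + u ∈ A then (1 : ℝ) else 0)) volume 0 4 := by
    have := IntervalIntegrable.sum T (f := fun (x : Sp d) (u : ℝ) => ∑ y ∈ T, a x y *
      (if x i + u ∈ A ∧ y i + u ∈ A then (1 : ℝ) else 0)) (μ := volume) (a := (0 : ℝ)) (b := 4)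
      hii
    simpa only [Finset.sum_fn] using this
  rw [intervalIntegral.integral_add intervalIntegrable_const hiii,
    intervalIntegral.integral_finsetSum hii, intervalIntegral.integral_const] at hI
  have hI2 : ∑ x ∈ T, ∫ u in (0 : ℝ)..4, ∑ y ∈ T, a x y *
      (if x i + u ∈ A ∧ y i + u ∈ A then (1 : ℝ) else 0) =
      ∑ x ∈ T, ∑ y ∈ T, a x y * G A ((x - y) i) := by
    apply Finset.sum_congr rfl
    intro x hx
    rw [intervalIntegral.integral_finsetSum (fun y _ => (hint x y).const_mul (a x y))]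
    apply Finset.sum_congr rfl
    intro y hy
    rw [intervalIntegral.integral_const_mul, j1426_shift A hA hper (x i) (y i)]
    rfl
  rw [hI2] at hI
  have h4 : ∑ x ∈ T, ∑ y ∈ T, a x y * (4⁻¹ * G A ((x - y) i)) =
      4⁻¹ * ∑ x ∈ T, ∑ y ∈ T, a x y * G A ((x - y) i) := by
    rw [Finset.mul_sum]
    apply Finset.sum_congr rfl
    intro x _
    rw [Finset.mul_sum]
    apply Finset.sum_congr rfl
    intro y _
    ring
  rw [h4]
  simp only [sub_zero, smul_eq_mul] at hI
  linarith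

end Pool.Agent.Helper764.Cv
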