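import Mathlib

open MeasureTheory Filter Set
open scoped Topology

namespace Pool.Agent.Helper764.Cv

/-- The Euclidean space of dimension `d`. -/
abbrev Sp (d : ℕ) : Type := EuclideanSpace ℝ (Fin d)

/-- The closed subsets of `ℝ^d`. -/
@[ext] structure Cl (d : ℕ) : Type where
  /-- the underlying set -/
  set : Set (Sp d)
  /-- it is closed -/
  closed : IsClosed set

/-- The Fell (hit-or-miss) topology: generated by the families of closed sets missing a given
compact set and the families of closed sets hitting a given open set. -/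
instance fell (d : ℕ) : TopologicalSpace (Cl d) :=
  TopologicalSpace.generateFrom
    ({U | ∃ K : Set (Sp d), IsCompact K ∧ U = {F : Cl d | F.set ∩ K = ∅}} ∪
     {U | ∃ G : Set (Sp d), IsOpen G ∧ U = {F : Cl d | (F.set ∩ G).Nonempty}})

/-- The Borel sigma-algebra of the Fell topology. -/
instance fellBorel (d : ℕ) : MeasurableSpace (Cl d) := borel (Cl d)

instance fellBorelSpace (d : ℕ) : BorelSpace (Cl d) := ⟨rfl⟩

/-- The translate `F + a`. -/
def translate {d : ℕ} (a : Sp d) (F : Cl d) : Cl d :=
  ⟨(fun x => x + a) '' F.set, (Homeomorph.addRight a).isClosedMap _ F.closed⟩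

/-- `X` is a stationary random closed set in `ℝ^d`: a random element of the space of closed
sets, measurable for the Borel sigma-algebra of the Fell topology, such that `X + a` has the
same distribution as `X` for every `a`. -/
structure IsStationaryRandomClosedSet {d : ℕ} {Ω : Type} [MeasurableSpace Ω]
    (P : Measure Ω) (X : Ω → Cl d) : Prop where
  measurable : Measurable X
  stationary : ∀ a : Sp d, P.map (fun ω => translate a (X ω)) = P.map X

/-- `S` is the covariance of some stationary random closed set in `ℝ^d`. -/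
def IsCovariance (d : ℕ) (S : Sp d → ℝ) : Prop :=
  ∃ (Ω : Type) (_ : MeasurableSpace Ω) (P : Measure Ω) (X : Ω → Cl d),
    IsProbabilityMeasure P ∧ IsStationaryRandomClosedSet P X ∧
    ∀ x y : Sp d, P.real {ω | x ∈ (X ω).set ∧ y ∈ (X ω).set} = S (x - y)

/-- `g` is the variogram of some stationary random closed set in `ℝ^d`:
`g (x - y)` is one half of the probability that exactly one of `x`, `y` lies in `X`. -/
def IsVariogram (d : ℕ) (g : Sp d → ℝ) : Prop :=
  ∃ (Ω : Type) (_ : MeasurableSpace Ω) (P : Measure Ω) (X : Ω → Cl d),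
    IsProbabilityMeasure P ∧ IsStationaryRandomClosedSet P X ∧
    ∀ x y : Sp d, 2⁻¹ * P.real {ω | ¬ (x ∈ (X ω).set ↔ y ∈ (X ω).set)} = g (x - y)

open Classical in
/-- The family of linear inequalities, with closedness modulus `m`: for finitely many points
`x` in `T`, finitely many radii `r > 0` in `R`, real numbers `a x y`, `c` and nonnegative numbers
`b x r` such that, for every subset `J` of `T`,
`0 ≤ c + (sum of a x y over x, y in J) + (sum of b x r over x not in J having some point of J at
distance less than r)`, one has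
`0 ≤ c + (sum of a x y * S (x - y)) + (sum of b x r * m r)`. -/
def FiniteInequalities (d : ℕ) (S : Sp d → ℝ) (m : ℝ → ℝ) : Prop :=
  ∀ (T : Finset (Sp d)) (R : Finset ℝ) (a : Sp d → Sp d → ℝ) (b : Sp d → ℝ → ℝ) (c : ℝ),
    (∀ r ∈ R, 0 < r) → (∀ x r, 0 ≤ b x r) →
    (∀ J : Finset (Sp d), J ⊆ T →
      0 ≤ c + ∑ x ∈ T, ∑ y ∈ T, a x y * (if x ∈ J ∧ y ∈ J then 1 else 0)
        + ∑ x ∈ T, ∑ r ∈ R, b x r * (if x ∉ J ∧ ∃ y ∈ J, dist x y < r then 1 else 0)) →
    0 ≤ c + ∑ x ∈ T, ∑ y ∈ T, a x y * S (x - y) + ∑ x ∈ T, ∑ r ∈ R, b x r * m r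

open Classical in
/-- The McMillan inequalities: every linear inequality satisfied by the two-point indicators of
all subsets of a finite set of points is satisfied by `S`. -/
def McMillanInequalities (d : ℕ) (S : Sp d → ℝ) : Prop :=
  ∀ (T : Finset (Sp d)) (a : Sp d → Sp d → ℝ) (c : ℝ),
    (∀ J : Finset (Sp d), J ⊆ T →
      0 ≤ c + ∑ x ∈ T, ∑ y ∈ T, a x y * (if x ∈ J ∧ y ∈ J then 1 else 0)) →
    0 ≤ c + ∑ x ∈ T, ∑ y ∈ T, a x y * S (x - y)

end Pool.Agent.Helper764.Cv
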