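import Pool.Agent.Helper764.CvWin

set_option autoImplicit false
open MeasureTheory Filter Set
open scoped Topology

namespace Pool.Agent.Helper764.Cv

/-- the support of Lebesgue measure restricted to `Y` -/
def Ys (Y : Set ℝ) : Set ℝ := {x | ∀ ε > 0, 0 < volume (Y ∩ Ioo (x - ε) (x + ε))}

theorem Ys_closed (Y : Set ℝ) : IsClosed (Ys Y) := by
  rw [← isOpen_compl_iff, Metric.isOpen_iff]
  intro x hx
  simp only [Ys, mem_compl_iff, mem_ofPred_eq, not_forall, not_lt, nonpos_iff_eq_zero] at hx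
  obtain ⟨ε, hε, h0⟩ := hx
  refine ⟨ε / 2, by positivity, fun y hy => ?_⟩
  rw [Metric.mem_ball, Real.dist_eq, abs_lt] at hy
  simp only [Ys, mem_compl_iff, mem_ofPred_eq, not_forall, not_lt, nonpos_iff_eq_zero]
  refine ⟨ε / 2, by positivity, measure_mono_null ?_ h0⟩
  rintro z ⟨hz1, hz2⟩
  exact ⟨hz1, by linarith [hz2.1], by linarith [hz2.2]⟩

theorem Ys_null (Y : Set ℝ) : volume (Y \ Ys Y) = 0 := by
  apply measure_null_of_locally_null
  rintro x ⟨hxY, hx⟩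
  simp only [Ys, mem_ofPred_eq, not_forall, not_lt, nonpos_iff_eq_zero] at hx
  obtain ⟨ε, hε, h0⟩ := hx
  refine ⟨Y ∩ Ioo (x - ε) (x + ε), ?_, h0⟩
  rw [mem_nhdsWithin]
  refine ⟨Ioo (x - ε) (x + ε), isOpen_Ioo, ⟨by linarith, by linarith⟩, ?_⟩
  rintro z ⟨hz1, hz2⟩
  exact ⟨hz2.1, hz1⟩

theorem per_meas (Y : Set ℝ)
    (hper1 : volume {t | t ∈ Y ∧ t + 4 ∉ Y} = 0) (hper2 : volume {t | t ∉ Y ∧ t + 4 ∈ Y} = 0)
    (a b : ℝ) : volume (Y ∩ Ioo (a + 4) (b + 4)) = volume (Y ∩ Ioo a b) := by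
  rw [← measure_preimage_add_right volume 4 (Y ∩ Ioo (a + 4) (b + 4))]
  apply measure_congr
  have e1 : ∀ᵐ t : ℝ, ¬ (t ∈ Y ∧ t + 4 ∉ Y) := by
    rw [ae_iff]; simpa using hper1
  have e2 : ∀ᵐ t : ℝ, ¬ (t ∉ Y ∧ t + 4 ∈ Y) := by
    rw [ae_iff]; simpa using hper2
  filter_upwards [e1, e2] with t h1 h2
  apply propext
  show ((t + 4) ∈ Y ∧ (t + 4) ∈ Ioo (a + 4) (b + 4)) ↔ (t ∈ Y ∧ t ∈ Ioo a b)
  have h3 : (t + 4) ∈ Ioo (a + 4) (b + 4) ↔ t ∈ Ioo a b := by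
    simp
  rw [h3]
  tauto

theorem Ys_per (Y : Set ℝ)
    (hper1 : volume {t | t ∈ Y ∧ t + 4 ∉ Y} = 0) (hper2 : volume {t | t ∉ Y ∧ t + 4 ∈ Y} = 0)
    (x : ℝ) : x + 4 ∈ Ys Y ↔ x ∈ Ys Y := by
  have h : ∀ ε : ℝ, volume (Y ∩ Ioo (x + 4 - ε) (x + 4 + ε)) =
      volume (Y ∩ Ioo (x - ε) (x + ε)) := by
    intro ε
    rw [← per_meas Y hper1 hper2 (x - ε) (x + ε)]
    congr 3 <;> ring
  simp only [Ys, mem_ofPred_eq, h]

theorem fubini_pos (A B : Set ℝ) (hA : MeasurableSet A) (hB : MeasurableSet B)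
    (h0 : ∀ᵐ h : ℝ, volume {t | t ∈ A ∧ t + h ∈ B} = 0) : volume A * volume B = 0 := by
  have hmp := measurePreserving_prod_add_swap (volume : Measure ℝ) (volume : Measure ℝ)
  have h1 := hmp.measure_preimage (hA.prod hB).nullMeasurableSet
  rw [Measure.prod_prod] at h1
  rw [← h1, Measure.measure_prod_null (hmp.measurable (hA.prod hB))]
  filter_upwards [h0] with h hh
  exact hh

theorem Ys_gap (Y : Set ℝ) (hY : IsClosed Y)
    (hgap : ∀ᵐ h ∂(volume.restrict (Icc (1 : ℝ) 3)), volume {t | t ∈ Y ∧ t + h ∈ Y} = 0)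
    {x y : ℝ} (hx : x ∈ Ys Y) (hy : y ∈ Ys Y) : ¬ (1 < y - x ∧ y - x < 3) := by
  rintro ⟨h1, h3⟩
  obtain ⟨ε, hε, he1, he3⟩ : ∃ ε : ℝ, 0 < ε ∧ 1 ≤ y - x - 2 * ε ∧ y - x + 2 * ε ≤ 3 := by
    refine ⟨min ((y - x - 1) / 2) ((3 - (y - x)) / 2), lt_min (by linarith) (by linarith), ?_, ?_⟩
    · have := min_le_left ((y - x - 1) / 2) ((3 - (y - x)) / 2)
      linarith
    · have := min_le_right ((y - x - 1) / 2) ((3 - (y - x)) / 2)
      linarith
  have hA := hx ε hε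
  have hB := hy ε hε
  have hmul := fubini_pos (Y ∩ Ioo (x - ε) (x + ε)) (Y ∩ Ioo (y - ε) (y + ε))
    (hY.measurableSet.inter measurableSet_Ioo) (hY.measurableSet.inter measurableSet_Ioo) ?_
  · rw [mul_eq_zero] at hmul
    rcases hmul with h | h
    · exact hA.ne' h
    · exact hB.ne' h
  · rw [ae_restrict_iff' measurableSet_Icc] at hgap
    filter_upwards [hgap] with h hh
    by_cases hI : h ∈ Icc (1 : ℝ) 3
    · refine measure_mono_null ?_ (hh hI)
      rintro t ⟨ht1, ht2⟩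
      exact ⟨ht1.1, ht2.1⟩
    · have : {t | t ∈ Y ∩ Ioo (x - ε) (x + ε) ∧ t + h ∈ Y ∩ Ioo (y - ε) (y + ε)} = ∅ := by
        rw [eq_empty_iff_forall_notMem]
        rintro t ⟨⟨-, ht1⟩, ⟨-, ht2⟩⟩
        apply hI
        constructor
        · linarith [ht1.1, ht1.2, ht2.1, ht2.2]
        · linarith [ht1.1, ht1.2, ht2.1, ht2.2]
      rw [this]; exact measure_empty

theorem exists_marker (Y : Set ℝ) (hY : IsClosed Y)
    (hper1 : volume {t | t ∈ Y ∧ t + 4 ∉ Y} = 0) (hper2 : volume {t | t ∉ Y ∧ t + 4 ∈ Y} = 0)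
    (hgap : ∀ᵐ h ∂(volume.restrict (Icc (1 : ℝ) 3)), volume {t | t ∈ Y ∧ t + h ∈ Y} = 0)
    (hne : (Ys Y).Nonempty) : ∃ c : ℝ, volume (Y ∩ Ioo (c + 1) (c + 4)) = 0 := by
  obtain ⟨x0, hx0⟩ := hne
  have hK : IsCompact (Ys Y ∩ Icc (x0 - 1) x0) := isCompact_Icc.inter_left (Ys_closed Y)
  obtain ⟨c, ⟨hc, hc'⟩, hmin⟩ := hK.exists_isLeast ⟨x0, hx0, by linarith, le_refl _⟩
  refine ⟨c, measure_mono_null ?_ (Ys_null Y)⟩
  rintro z ⟨hz, hz1, hz2⟩
  refine ⟨hz, fun hzs => ?_⟩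
  have hy : z - 4 ∈ Ys Y := by
    rw [← Ys_per Y hper1 hper2]; simpa using hzs
  have g1 := Ys_gap Y hY hgap hy hc
  have g2 := Ys_gap Y hY hgap hy hx0
  by_cases h : x0 - 1 ≤ z - 4
  · have := hmin ⟨hy, h, by linarith [hc'.2]⟩
    linarith
  · push Not at h
    have g3 : c - (z - 4) ≤ 1 := by
      by_contra hcon
      push Not at hcon
      exact g1 ⟨hcon, by linarith⟩
    apply g2
    constructor
    · linarith
    · linarith [hc'.1]

/-- a closed set of full measure in an open interval contains the closed interval -/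
theorem full (Z : Set ℝ) (hZ : IsClosed Z) (a b : ℝ) (hab : a < b)
    (h : volume (Ioo a b \ Z) = 0) : Icc a b ⊆ Z := by
  have ho : IsOpen (Ioo a b \ Z) := isOpen_Ioo.sdiff hZ
  have he := (ho.measure_eq_zero_iff volume).1 h
  rw [sdiff_eq_empty] at he
  have := closure_mono he
  rwa [closure_Ioo hab.ne, hZ.closure_eq] at this

theorem real_Icc_le (Z : Set ℝ) (a b : ℝ) (hab : a ≤ b) :
    (volume : Measure ℝ).real (Z ∩ Icc a b) ≤ b - a := by
  have : (volume : Measure ℝ).real (Z ∩ Icc a b) ≤ (volume : Measure ℝ).real (Icc a b) :=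
    measureReal_mono inter_subset_right (by simp)
  rw [Real.volume_real_Icc_of_le hab] at this
  exact this

theorem full' (Z : Set ℝ) (hZ : IsClosed Z) (a b : ℝ) (hab : a < b)
    (h : b - a ≤ (volume : Measure ℝ).real (Z ∩ Icc a b)) : Icc a b ⊆ Z := by
  apply full Z hZ a b hab
  have h1 : (volume : Measure ℝ).real (Icc a b \ Z) = 0 := by
    have h2 := measureReal_inter_add_sdiff (μ := (volume : Measure ℝ)) (s := Icc a b)
      (t := Z) hZ.measurableSet (by simp)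
    rw [Real.volume_real_Icc_of_le hab.le, inter_comm] at h2
    have h3 : 0 ≤ (volume : Measure ℝ).real (Icc a b \ Z) := measureReal_nonneg
    linarith
  have h4 : volume (Icc a b \ Z) = 0 := by
    have hfin : volume (Icc a b \ Z) ≠ ⊤ :=
      ne_top_of_le_ne_top (by simp) (measure_mono (t := Icc a b) (fun t ht => ht.1))
    rwa [measureReal_eq_zero_iff hfin] at h1
  exact measure_mono_null (sdiff_subset_sdiff_left Ioo_subset_Icc_self) h4

theorem split (Z : Set ℝ) (hZ : MeasurableSet Z) (a b c : ℝ) (hab : a ≤ b) (hbc : b ≤ c) :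
    (volume : Measure ℝ).real (Z ∩ Icc a c) =
      (volume : Measure ℝ).real (Z ∩ Icc a b) + (volume : Measure ℝ).real (Z ∩ Icc b c) := by
  rw [← Icc_union_Icc_eq_Icc hab hbc, inter_union_distrib_left]
  apply measureReal_union₀
  · exact (hZ.inter measurableSet_Icc).nullMeasurableSet
  · refine measure_mono_null (t := {b}) ?_ (by simp)
    rintro t ⟨⟨-, h1⟩, ⟨-, h2⟩⟩
    exact le_antisymm h1.2 h2.1
  · exact ne_top_of_le_ne_top (by simp) (measure_mono inter_subset_right)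
  · exact ne_top_of_le_ne_top (by simp) (measure_mono inter_subset_right)

theorem G_le (Y : Set ℝ) (hY : IsClosed Y)
    (hper1 : volume {t | t ∈ Y ∧ t + 4 ∉ Y} = 0) (hper2 : volume {t | t ∉ Y ∧ t + 4 ∈ Y} = 0)
    (c : ℝ) (hc : volume (Y ∩ Ioo (c + 1) (c + 4)) = 0) :
    G Y (3 / 4) = (volume : Measure ℝ).real ({t | t ∈ Y ∧ t + 3 / 4 ∈ Y} ∩ Icc c (c + 1 / 4)) := by
  rw [window Y hY.measurableSet hper1 hper2 c]
  apply measureReal_congr
  have e1 : ∀ᵐ t : ℝ, t ∉ Y ∩ Ioo (c + 1) (c + 4) := measure_eq_zero_iff_ae_notMem.1 hc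
  have e2 : ∀ᵐ t : ℝ, t + 3 / 4 ∉ Y ∩ Ioo (c + 1) (c + 4) := by
    have := measure_preimage_add_right volume (3 / 4 : ℝ) (Y ∩ Ioo (c + 1) (c + 4))
    rw [hc] at this
    exact measure_eq_zero_iff_ae_notMem.1 this
  have e3 : ∀ᵐ t : ℝ, t ≠ c + 1 / 4 := by
    rw [ae_iff]; simp
  filter_upwards [e1, e2, e3] with t h1 h2 h3
  apply propext
  show (t ∈ Ico c (c + 4) ∧ t ∈ Y ∧ t + 3 / 4 ∈ Y) ↔ ((t ∈ Y ∧ t + 3 / 4 ∈ Y) ∧ t ∈ Icc c (c + 1 / 4))
  constructor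
  · rintro ⟨⟨ha, hb⟩, hy1, hy2⟩
    have g1 : t ≤ c + 1 := by
      by_contra hcon
      push Not at hcon
      exact h1 ⟨hy1, hcon, hb⟩
    have g2 : t + 3 / 4 ≤ c + 1 := by
      by_contra hcon
      push Not at hcon
      exact h2 ⟨hy2, hcon, by linarith⟩
    exact ⟨⟨hy1, hy2⟩, ha, by linarith⟩
  · rintro ⟨⟨hy1, hy2⟩, ha, hb⟩
    exact ⟨⟨ha, by linarith⟩, hy1, hy2⟩

/-- TARGET -/
theorem det_structure (Y : Set ℝ) (hY : IsClosed Y)
    (hper1 : volume {t | t ∈ Y ∧ t + 4 ∉ Y} = 0) (hper2 : volume {t | t ∉ Y ∧ t + 4 ∈ Y} = 0)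
    (hgap : ∀ᵐ h ∂(volume.restrict (Icc (1 : ℝ) 3)), volume {t | t ∈ Y ∧ t + h ∈ Y} = 0) :
    G Y (3 / 4) ≤ 1 / 4 ∧
    (G Y (3 / 4) = 1 / 4 →
      (∀ α β : ℝ, 0 ≤ α → α ≤ β → β ≤ 1 / 4 →
        G Y (3 / 4 - β) - G Y (3 / 4 - α) ≤ β - α) ∧
      ∀ V : Set ℝ, IsOpen V → V ⊆ Ioo 0 (1 / 4) → Ioo 0 (1 / 4) ⊆ closure V →
        (∀ α β : ℚ, α < β → Icc (α : ℝ) β ⊆ V →
          G Y (3 / 4 - β) - G Y (3 / 4 - α) = β - α) →
        G Y (1 / 2) = 1 / 2) := by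
  have hYm := hY.measurableSet
  rcases (Ys Y).eq_empty_or_nonempty with hemp | hne
  · have hY0 : volume Y = 0 := by
      have := Ys_null Y
      rwa [hemp, sdiff_empty] at this
    have hG : G Y (3 / 4) = 0 := by
      unfold G
      rw [measureReal_def, measure_mono_null (t := Y) (fun t ht => ht.2.1) hY0]
      rfl
    rw [hG]
    refine ⟨by norm_num, fun h => ?_⟩
    norm_num at h
  obtain ⟨c, hc⟩ := exists_marker Y hY hper1 hper2 hgap hne
  have hGc := G_le Y hY hper1 hper2 c hc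
  have hle : G Y (3 / 4) ≤ 1 / 4 := by
    rw [hGc]
    have := real_Icc_le {t | t ∈ Y ∧ t + 3 / 4 ∈ Y} c (c + 1 / 4) (by linarith)
    linarith
  refine ⟨hle, fun heq => ?_⟩
  have hZ : IsClosed {t | t ∈ Y ∧ t + 3 / 4 ∈ Y} :=
    hY.inter (hY.preimage (continuous_id.add continuous_const))
  have hfull : Icc c (c + 1 / 4) ⊆ {t | t ∈ Y ∧ t + 3 / 4 ∈ Y} := by
    apply full' _ hZ _ _ (by linarith)
    rw [← hGc, heq]; linarith
  have f1 : volume (Ioo c (c + 1 / 4) \ Y) = 0 := by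
    have : Ioo c (c + 1 / 4) \ Y = ∅ := by
      rw [sdiff_eq_empty]
      exact fun t ht => (hfull (Ioo_subset_Icc_self ht)).1
    rw [this]; exact measure_empty
  have f2 : volume (Ioo (c + 3 / 4) (c + 1) \ Y) = 0 := by
    have : Ioo (c + 3 / 4) (c + 1) \ Y = ∅ := by
      rw [sdiff_eq_empty]
      intro t ht
      have := (hfull (⟨by linarith [ht.1], by linarith [ht.2]⟩ :
        t - 3 / 4 ∈ Icc c (c + 1 / 4))).2
      simpa using this
    rw [this]; exact measure_empty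
  have mf := marker_formula Y hYm hper1 hper2 c hc f1 f2
  have key : ∀ α β : ℝ, 0 ≤ α → α ≤ β → β ≤ 1 / 4 →
      G Y (3 / 4 - β) - G Y (3 / 4 - α) = - (β - α) +
        (volume : Measure ℝ).real (Y ∩ Icc (c + 3 / 4 - β) (c + 3 / 4 - α)) +
        (volume : Measure ℝ).real (Y ∩ Icc (c + 1 / 4 + α) (c + 1 / 4 + β)) := by
    intro α β h0 h1 h2
    rw [mf β (by linarith) h2, mf α h0 (by linarith),
      split Y hYm (c + 3 / 4 - β) (c + 3 / 4 - α) (c + 3 / 4) (by linarith) (by linarith),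
      split Y hYm (c + 1 / 4) (c + 1 / 4 + α) (c + 1 / 4 + β) (by linarith) (by linarith)]
    ring
  refine ⟨fun α β h0 h1 h2 => ?_, fun V hVo hVs hVd hV => ?_⟩
  · rw [key α β h0 h1 h2]
    have g1 := real_Icc_le Y (c + 3 / 4 - β) (c + 3 / 4 - α) (by linarith)
    have g2 := real_Icc_le Y (c + 1 / 4 + α) (c + 1 / 4 + β) (by linarith)
    linarith
  · have hx : ∀ x ∈ V, c + 1 / 4 + x ∈ Y ∧ c + 3 / 4 - x ∈ Y := by
      intro x hx
      obtain ⟨δ, hδ, hδV⟩ := Metric.isOpen_iff.1 hVo x hx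
      obtain ⟨α, hα1, hα2⟩ := exists_rat_btwn (show x - δ < x by linarith)
      obtain ⟨β, hβ1, hβ2⟩ := exists_rat_btwn (show x < x + δ by linarith)
      have hab : α < β := by
        have : (α : ℝ) < β := by linarith
        exact_mod_cast this
      have hIV : Icc (α : ℝ) β ⊆ V := by
        intro z hz
        apply hδV
        rw [Metric.mem_ball, Real.dist_eq, abs_lt]
        exact ⟨by linarith [hz.1], by linarith [hz.2]⟩
      have hα3 := hVs (hIV ⟨le_refl _, by linarith⟩ : (α : ℝ) ∈ V)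
      have hβ3 := hVs (hIV ⟨by linarith, le_refl _⟩ : (β : ℝ) ∈ V)
      have h := hV α β hab hIV
      rw [key α β hα3.1.le (by linarith) hβ3.2.le] at h
      have g1 := real_Icc_le Y (c + 3 / 4 - β) (c + 3 / 4 - α) (by linarith)
      have g2 := real_Icc_le Y (c + 1 / 4 + α) (c + 1 / 4 + β) (by linarith)
      have k1 := full' Y hY (c + 3 / 4 - β) (c + 3 / 4 - α) (by linarith) (by linarith)
      have k2 := full' Y hY (c + 1 / 4 + α) (c + 1 / 4 + β) (by linarith) (by linarith)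
      exact ⟨k2 ⟨by linarith, by linarith⟩, k1 ⟨by linarith, by linarith⟩⟩
    have hcl : ∀ x ∈ Icc (0 : ℝ) (1 / 4), c + 1 / 4 + x ∈ Y ∧ c + 3 / 4 - x ∈ Y := by
      have hW : IsClosed {x : ℝ | c + 1 / 4 + x ∈ Y ∧ c + 3 / 4 - x ∈ Y} :=
        (hY.preimage (continuous_const.add continuous_id)).inter
          (hY.preimage (continuous_const.sub continuous_id))
      have h1 : closure V ⊆ {x : ℝ | c + 1 / 4 + x ∈ Y ∧ c + 3 / 4 - x ∈ Y} :=
        closure_minimal hx hW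
      have h2 := closure_minimal (hVd.trans h1) hW
      rw [closure_Ioo (by norm_num)] at h2
      exact h2
    have h4 := mf (1 / 4) (by norm_num) le_rfl
    have e1 : (3 / 4 - 1 / 4 : ℝ) = 1 / 2 := by norm_num
    have i1 : Y ∩ Icc (c + 3 / 4 - 1 / 4) (c + 3 / 4) = Icc (c + 3 / 4 - 1 / 4) (c + 3 / 4) := by
      rw [inter_eq_right]
      intro t ht
      have := (hcl (c + 3 / 4 - t) ⟨by linarith [ht.2], by linarith [ht.1]⟩).2
      have e : c + 3 / 4 - (c + 3 / 4 - t) = t := by ring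
      rwa [e] at this
    have i2 : Y ∩ Icc (c + 1 / 4) (c + 1 / 4 + 1 / 4) = Icc (c + 1 / 4) (c + 1 / 4 + 1 / 4) := by
      rw [inter_eq_right]
      intro t ht
      have := (hcl (t - (c + 1 / 4)) ⟨by linarith [ht.1], by linarith [ht.2]⟩).1
      have e : c + 1 / 4 + (t - (c + 1 / 4)) = t := by ring
      rwa [e] at this
    rw [e1, i1, i2, Real.volume_real_Icc_of_le (by linarith),
      Real.volume_real_Icc_of_le (by linarith)] at h4
    rw [h4]; ring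

end Pool.Agent.Helper764.Cv
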