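import Pool.Agent.Helper764.CvWin

set_option autoImplicit false
open MeasureTheory Filter Set
open scoped Topology

namespace Pool.Agent.Helper764.Cv

/-- TARGET -/
theorem exists_example : ∃ (A V : Set ℝ), IsOpen A ∧ (∀ t, t + 4 ∈ A ↔ t ∈ A) ∧
    IsOpen V ∧ V ⊆ Ioo 0 (1 / 4) ∧ Ioo 0 (1 / 4) ⊆ closure V ∧
    (∀ h ∈ Icc (1 : ℝ) 3, G A h = 0) ∧ G A (3 / 4) = 1 / 4 ∧
    (∀ α β : ℝ, α < β → Icc α β ⊆ V → G A (3 / 4 - β) - G A (3 / 4 - α) = β - α) ∧
    G A (1 / 2) < 1 / 2 := by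
  obtain ⟨U, hQU, hUo, hUv⟩ : ∃ U : Set ℝ, Set.range (Rat.cast : ℚ → ℝ) ⊆ U ∧ IsOpen U ∧
      volume U < ENNReal.ofReal (1 / 8) := by
    apply Set.exists_isOpen_lt_of_lt
    rw [(Set.countable_range (Rat.cast : ℚ → ℝ)).measure_zero]
    simp
  have hUd : Dense U := (Rat.denseRange_cast (𝕜 := ℝ)).mono hQU
  set V : Set ℝ := Ioo 0 (1 / 4) ∩ U with hV
  have hVo : IsOpen V := isOpen_Ioo.inter hUo
  have hVs : ∀ x ∈ V, 0 < x ∧ x < 1 / 4 := fun x hx => hx.1
  have hVsub : V ⊆ Ioo 0 (1 / 4) := fun x hx => hx.1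
  have hVm : MeasurableSet V := hVo.measurableSet
  -- the pattern
  set A0 : Set ℝ := Ioo 0 (1 / 4) ∪ (fun t : ℝ => t + (-(1 / 4))) ⁻¹' V ∪ (fun t : ℝ => 3 / 4 - t) ⁻¹' V ∪
    Ioo (3 / 4) 1 with hA0
  have hA0o : IsOpen A0 :=
    ((isOpen_Ioo.union (hVo.preimage (by fun_prop))).union (hVo.preimage (by fun_prop))).union isOpen_Ioo
  have hA0s : ∀ x ∈ A0, 0 < x ∧ x < 1 := by
    rintro x (((hx | hx) | hx) | hx)
    · exact ⟨hx.1, by linarith [hx.2]⟩
    · have := hVs _ hx; constructor <;> linarith [this.1, this.2]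
    · have := hVs _ hx; constructor <;> linarith [this.1, this.2]
    · exact ⟨by linarith [hx.1], hx.2⟩
  set A : Set ℝ := ⋃ k : ℤ, (fun t : ℝ => t - 4 * k) ⁻¹' A0 with hA
  have hAo : IsOpen A := isOpen_iUnion fun k => hA0o.preimage (by fun_prop)
  have hAmem : ∀ t, t ∈ A ↔ ∃ k : ℤ, t - 4 * k ∈ A0 := by
    intro t; rw [hA, mem_iUnion]; rfl
  have hper : ∀ t, t + 4 ∈ A ↔ t ∈ A := by
    intro t
    rw [hAmem, hAmem]
    constructor
    · rintro ⟨k, hk⟩
      refine ⟨k - 1, ?_⟩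
      convert hk using 1
      push_cast; ring
    · rintro ⟨k, hk⟩
      refine ⟨k + 1, ?_⟩
      convert hk using 1
      push_cast; ring
  have hloc : ∀ t, 0 ≤ t → t < 4 → (t ∈ A ↔ t ∈ A0) := by
    intro t h0 h4
    rw [hAmem]
    constructor
    · rintro ⟨k, hk⟩
      have := hA0s _ hk
      have h1 : (-1 : ℝ) < k := by linarith [this.2]
      have h2 : (k : ℝ) < 1 := by linarith [this.1]
      have h3 : k = 0 := by
        have h1' : (-1 : ℤ) < k := by exact_mod_cast h1
        have h2' : k < 1 := by exact_mod_cast h2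
        omega
      rw [h3] at hk
      simpa using hk
    · intro h
      exact ⟨0, by simpa using h⟩
  have hAm : MeasurableSet A := hAo.measurableSet
  have hper1 : volume {t | t ∈ A ∧ t + 4 ∉ A} = 0 := by
    have : {t | t ∈ A ∧ t + 4 ∉ A} = ∅ := by
      ext t; simp only [mem_setOf_eq, mem_empty_iff_false, iff_false, not_and, not_not]
      exact fun h => (hper t).2 h
    rw [this]; simp
  have hper2 : volume {t | t ∉ A ∧ t + 4 ∈ A} = 0 := by
    have : {t | t ∉ A ∧ t + 4 ∈ A} = ∅ := by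
      ext t; simp only [mem_setOf_eq, mem_empty_iff_false, iff_false, not_and]
      exact fun h h' => h ((hper t).1 h')
    rw [this]; simp
  have hm1 : volume (A ∩ Ioo ((0 : ℝ) + 1) (0 + 4)) = 0 := by
    have : A ∩ Ioo ((0 : ℝ) + 1) (0 + 4) = ∅ := by
      ext t
      simp only [mem_inter_iff, mem_Ioo, mem_empty_iff_false, iff_false, not_and, not_lt]
      intro h1 h2
      by_contra h3
      push Not at h3
      have := hA0s t ((hloc t (by linarith) (by linarith)).1 h1)
      linarith [this.2]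
    rw [this]; simp
  have hm2 : volume (Ioo (0 : ℝ) (0 + 1 / 4) \ A) = 0 := by
    have : Ioo (0 : ℝ) (0 + 1 / 4) \ A = ∅ := by
      rw [Set.diff_eq_empty]
      intro t ht
      rw [mem_Ioo] at ht
      rw [hloc t ht.1.le (by linarith [ht.2])]
      exact Or.inl (Or.inl (Or.inl ⟨ht.1, by linarith [ht.2]⟩))
    rw [this]; simp
  have hm3 : volume (Ioo ((0 : ℝ) + 3 / 4) (0 + 1) \ A) = 0 := by
    have : Ioo ((0 : ℝ) + 3 / 4) (0 + 1) \ A = ∅ := by
      rw [Set.diff_eq_empty]
      intro t ht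
      rw [mem_Ioo] at ht
      rw [hloc t (by linarith [ht.1]) (by linarith [ht.2])]
      exact Or.inr ⟨by linarith [ht.1], by linarith [ht.2]⟩
    rw [this]; simp
  -- the two pieces
  have hp1 : ∀ v, 0 ≤ v → v ≤ 1 / 4 → (volume : Measure ℝ).real (A ∩ Icc ((0 : ℝ) + 1 / 4) (0 + 1 / 4 + v)) =
      (volume : Measure ℝ).real (V ∩ Icc 0 v) := by
    intro v hv0 hv1
    have e : A ∩ Icc ((0 : ℝ) + 1 / 4) (0 + 1 / 4 + v) = (fun t : ℝ => t + (-(1 / 4))) ⁻¹' (V ∩ Icc 0 v) := by
      ext t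
      simp only [mem_inter_iff, mem_Icc, mem_preimage]
      constructor
      · rintro ⟨h1, h2, h3⟩
        refine ⟨?_, by linarith, by linarith⟩
        rcases (hloc t (by linarith) (by linarith)).1 h1 with ((h | h) | h) | h
        · exfalso; linarith [h.2]
        · exact h
        · exfalso; linarith [(hVs _ h).2]
        · exfalso; linarith [h.1]
      · rintro ⟨h1, h2, h3⟩
        refine ⟨?_, by linarith, by linarith⟩
        rw [hloc t (by linarith) (by linarith)]
        exact Or.inl (Or.inl (Or.inr h1))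
    rw [e]
    unfold Measure.real
    rw [measure_preimage_add_right]
  have hp2 : ∀ v, 0 ≤ v → v ≤ 1 / 4 → (volume : Measure ℝ).real (A ∩ Icc ((0 : ℝ) + 3 / 4 - v) (0 + 3 / 4)) =
      (volume : Measure ℝ).real (V ∩ Icc 0 v) := by
    intro v hv0 hv1
    have e : A ∩ Icc ((0 : ℝ) + 3 / 4 - v) (0 + 3 / 4) = (fun t : ℝ => 3 / 4 - t) ⁻¹' (V ∩ Icc 0 v) := by
      ext t
      simp only [mem_inter_iff, mem_Icc, mem_preimage]
      constructor
      · rintro ⟨h1, h2, h3⟩
        refine ⟨?_, by linarith, by linarith⟩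
        rcases (hloc t (by linarith) (by linarith)).1 h1 with ((h | h) | h) | h
        · exfalso; linarith [h.2]
        · exfalso; linarith [(hVs _ h).2]
        · exact h
        · exfalso; linarith [h.1]
      · rintro ⟨h1, h2, h3⟩
        refine ⟨?_, by linarith, by linarith⟩
        rw [hloc t (by linarith) (by linarith)]
        exact Or.inl (Or.inr h1)
    rw [e]
    unfold Measure.real
    rw [(Measure.measurePreserving_sub_left (volume : Measure ℝ) (3 / 4)).measure_preimage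
      (hVm.inter measurableSet_Icc).nullMeasurableSet]
  have hG : ∀ v, 0 ≤ v → v ≤ 1 / 4 → G A (3 / 4 - v) = 1 / 4 - v + 2 * (volume : Measure ℝ).real (V ∩ Icc 0 v) := by
    intro v hv0 hv1
    rw [marker_formula A hAm hper1 hper2 0 hm1 hm2 hm3 v hv0 hv1, hp1 v hv0 hv1, hp2 v hv0 hv1]
    ring
  have hVfin : volume V ≠ ⊤ := by
    have : volume V ≤ volume (Ioo (0 : ℝ) (1 / 4)) := measure_mono hVsub
    rw [Real.volume_Ioo] at this
    exact ne_top_of_le_ne_top ENNReal.ofReal_ne_top this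
  refine ⟨A, V, hAo, hper, hVo, hVsub, hUd.open_subset_closure_inter isOpen_Ioo, ?_, ?_, ?_, ?_⟩
  · intro h hh
    unfold G
    have : {t | t ∈ Ico (0 : ℝ) 4 ∧ t ∈ A ∧ t + h ∈ A} = ∅ := by
      ext t
      simp only [mem_setOf_eq, mem_empty_iff_false, iff_false, not_and]
      intro _ h1 h2
      rw [hAmem] at h1 h2
      obtain ⟨k, hk⟩ := h1
      obtain ⟨k', hk'⟩ := h2
      have g1 := hA0s _ hk
      have g2 := hA0s _ hk'
      have g3 : (0 : ℝ) < k' - k := by linarith [g1.1, g1.2, g2.1, g2.2, hh.1]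
      have g4 : (k' - k : ℝ) < 1 := by linarith [g1.1, g1.2, g2.1, g2.2, hh.2]
      have g3' : 0 < k' - k := by exact_mod_cast g3
      have g4' : k' - k < 1 := by exact_mod_cast g4
      omega
    rw [this]; simp
  · have := hG 0 le_rfl (by norm_num)
    rw [sub_zero, sub_zero] at this
    rw [this]
    have h0 : (volume : Measure ℝ).real (V ∩ Icc 0 0) = 0 := by
      unfold Measure.real
      have : volume (V ∩ Icc (0 : ℝ) 0) = 0 := by
        apply measure_mono_null Set.inter_subset_right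
        simp
      rw [this]; rfl
    rw [h0]; ring
  · intro α β hαβ hsub
    have hα := hVs α (hsub ⟨le_rfl, hαβ.le⟩)
    have hβ := hVs β (hsub ⟨hαβ.le, le_rfl⟩)
    rw [hG β hβ.1.le hβ.2.le, hG α hα.1.le hα.2.le]
    have e : V ∩ Icc 0 β = (V ∩ Icc 0 α) ∪ Ioc α β := by
      ext t
      simp only [mem_inter_iff, mem_Icc, mem_union, mem_Ioc]
      constructor
      · rintro ⟨h1, h2, h3⟩
        rcases le_or_gt t α with h | h
        · exact Or.inl ⟨h1, h2, h⟩
        · exact Or.inr ⟨h, h3⟩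
      · rintro (⟨h1, h2, h3⟩ | ⟨h1, h2⟩)
        · exact ⟨h1, h2, by linarith⟩
        · exact ⟨hsub ⟨h1.le, h2⟩, by linarith, h2⟩
    have hd : Disjoint (V ∩ Icc 0 α) (Ioc α β) := by
      rw [Set.disjoint_left]
      rintro t ⟨_, h2⟩ h3
      exact absurd h2.2 (not_le.2 h3.1)
    have hmeas : (volume : Measure ℝ).real (V ∩ Icc 0 β) =
        (volume : Measure ℝ).real (V ∩ Icc 0 α) + (β - α) := by
      rw [e]
      unfold Measure.real
      rw [measure_union hd measurableSet_Ioc, Real.volume_Ioc, ENNReal.toReal_add _ ENNReal.ofReal_ne_top,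
        ENNReal.toReal_ofReal (by linarith)]
      exact ne_top_of_le_ne_top hVfin (measure_mono Set.inter_subset_left)
    rw [hmeas]; ring
  · have := hG (1 / 4) (by norm_num) le_rfl
    rw [show (3 / 4 : ℝ) - 1 / 4 = 1 / 2 by norm_num] at this
    rw [this]
    have h1 : (volume : Measure ℝ).real (V ∩ Icc 0 (1 / 4)) ≤ 1 / 8 := by
      unfold Measure.real
      have h2 : volume (V ∩ Icc 0 (1 / 4)) ≤ ENNReal.ofReal (1 / 8) :=
        (measure_mono (fun x hx => hx.1.2)).trans hUv.le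
      exact ENNReal.toReal_le_of_le_ofReal (by norm_num) h2
    linarith

end Pool.Agent.Helper764.Cv
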