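import Pool.Agent.Helper764.CvDefs

set_option autoImplicit false
open MeasureTheory Filter Set
open scoped Topology

namespace Pool.Agent.Helper764.Cv

/-- the sets missing `K` -/
def miss {d : ℕ} (K : Set (Sp d)) : Set (Cl d) := {F | F.set ∩ K = ∅}

/-- the sets hitting `G` -/
def hit {d : ℕ} (G : Set (Sp d)) : Set (Cl d) := {F | (F.set ∩ G).Nonempty}

/-- small closed balls -/
noncomputable def cb (d : ℕ) (T : Finset (ℕ × ℕ)) : Set (Sp d) :=
  ⋃ p ∈ T, Metric.closedBall (TopologicalSpace.denseSeq (Sp d) p.1) (1 / (p.2 + 1 : ℝ))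

/-- small open balls -/
noncomputable def ob (d : ℕ) (p : ℕ × ℕ) : Set (Sp d) :=
  Metric.ball (TopologicalSpace.denseSeq (Sp d) p.1) (1 / (p.2 + 1 : ℝ))

/-- the countable subbasis -/
noncomputable def SS (d : ℕ) : Set (Set (Cl d)) :=
  Set.range (fun T => miss (cb d T)) ∪ Set.range (fun p => hit (ob d p))

theorem SS_countable (d : ℕ) : (SS d).Countable :=
  (Set.countable_range _).union (Set.countable_range _)

theorem cb_compact (d : ℕ) (T : Finset (ℕ × ℕ)) : IsCompact (cb d T) :=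
  T.isCompact_biUnion fun _ _ => isCompact_closedBall _ _

theorem isOpen_miss {d : ℕ} {K : Set (Sp d)} (hK : IsCompact K) : IsOpen (miss K) :=
  TopologicalSpace.isOpen_generateFrom_of_mem (Or.inl ⟨K, hK, rfl⟩)

theorem isOpen_hit {d : ℕ} {G : Set (Sp d)} (hG : IsOpen G) : IsOpen (hit G) :=
  TopologicalSpace.isOpen_generateFrom_of_mem (Or.inr ⟨G, hG, rfl⟩)

theorem exists_cover {d : ℕ} (K C : Set (Sp d)) (hK : IsCompact K) (hC : IsClosed C)
    (hd : C ∩ K = ∅) : ∃ T : Finset (ℕ × ℕ), K ⊆ cb d T ∧ C ∩ cb d T = ∅ := by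
  classical
  have h1 : K ⊆ Cᶜ := fun x hx hx' => by
    have : x ∈ C ∩ K := ⟨hx', hx⟩
    rw [hd] at this
    exact this
  obtain ⟨δ, hδ, hδ'⟩ := hK.exists_cthickening_subset_open hC.isOpen_compl h1
  obtain ⟨k, hk⟩ := exists_nat_one_div_lt (half_pos hδ)
  have hr : (0 : ℝ) < 1 / (k + 1 : ℝ) := by positivity
  have hcov : K ⊆ ⋃ i : ℕ, Metric.ball (TopologicalSpace.denseSeq (Sp d) i) (1 / (k + 1 : ℝ)) := by
    intro x _
    obtain ⟨i, hi⟩ := (TopologicalSpace.denseRange_denseSeq (Sp d)).exists_dist_lt x hr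
    exact Set.mem_iUnion.2 ⟨i, hi⟩
  obtain ⟨T0, hT0⟩ := hK.elim_finite_subcover _ (fun i => Metric.isOpen_ball) hcov
  let T1 : Finset ℕ := T0.filter fun i =>
    (Metric.ball (TopologicalSpace.denseSeq (Sp d) i) (1 / (k + 1 : ℝ)) ∩ K).Nonempty
  refine ⟨T1.image fun i => (i, k), ?_, ?_⟩
  · intro x hx
    obtain ⟨i, hi, hxi⟩ := Set.mem_iUnion₂.1 (hT0 hx)
    refine Set.mem_iUnion₂.2 ⟨(i, k), Finset.mem_image.2 ⟨i, Finset.mem_filter.2 ⟨hi, ⟨x, hxi, hx⟩⟩,
      rfl⟩, ?_⟩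
    exact Metric.ball_subset_closedBall hxi
  · rw [Set.eq_empty_iff_forall_notMem]
    rintro z ⟨hz, hz'⟩
    obtain ⟨p, hp, hzp⟩ := Set.mem_iUnion₂.1 hz'
    obtain ⟨i, hi, rfl⟩ := Finset.mem_image.1 hp
    obtain ⟨y, hy, hyK⟩ := (Finset.mem_filter.1 hi).2
    refine hδ' (Metric.mem_cthickening_of_dist_le z y δ K hyK ?_) hz
    have e1 : dist z (TopologicalSpace.denseSeq (Sp d) i) ≤ 1 / (k + 1 : ℝ) := hzp
    have e2 : dist y (TopologicalSpace.denseSeq (Sp d) i) < 1 / (k + 1 : ℝ) := hy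
    have e3 := dist_triangle_right z y (TopologicalSpace.denseSeq (Sp d) i)
    linarith

theorem exists_ball {d : ℕ} {G : Set (Sp d)} (hG : IsOpen G) {x : Sp d} (hx : x ∈ G) :
    ∃ p, x ∈ ob d p ∧ ob d p ⊆ G := by
  obtain ⟨δ, hδ, hδ'⟩ := Metric.isOpen_iff.1 hG x hx
  obtain ⟨k, hk⟩ := exists_nat_one_div_lt (half_pos hδ)
  have hr : (0 : ℝ) < 1 / (k + 1 : ℝ) := by positivity
  obtain ⟨i, hi⟩ := (TopologicalSpace.denseRange_denseSeq (Sp d)).exists_dist_lt x hr
  refine ⟨(i, k), hi, fun y hy => hδ' ?_⟩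
  have e1 : dist y (TopologicalSpace.denseSeq (Sp d) i) < 1 / (k + 1 : ℝ) := hy
  have e3 := dist_triangle_right y x (TopologicalSpace.denseSeq (Sp d) i)
  rw [Metric.mem_ball]
  linarith

theorem fell_eq (d : ℕ) : fell d = TopologicalSpace.generateFrom (SS d) := by
  apply le_antisymm
  · apply le_generateFrom
    rintro _ (⟨T, rfl⟩ | ⟨p, rfl⟩)
    · exact isOpen_miss (cb_compact d T)
    · exact isOpen_hit Metric.isOpen_ball
  · apply le_generateFrom
    rintro _ (⟨K, hK, rfl⟩ | ⟨G, hG, rfl⟩)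
    · have h1 : {F : Cl d | F.set ∩ K = ∅} = ⋃ T ∈ {T : Finset (ℕ × ℕ) | K ⊆ cb d T},
          miss (cb d T) := by
        ext F
        constructor
        · intro hF
          obtain ⟨T, hT, hT'⟩ := exists_cover K F.set hK F.closed hF
          exact Set.mem_iUnion₂.2 ⟨T, hT, hT'⟩
        · intro hF
          obtain ⟨T, hT, hT'⟩ := Set.mem_iUnion₂.1 hF
          have hT'' : F.set ∩ cb d T = ∅ := hT'
          show F.set ∩ K = ∅
          exact Set.subset_empty_iff.1 (hT'' ▸ Set.inter_subset_inter_right _ hT)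
      rw [h1]
      refine @isOpen_biUnion _ _ (TopologicalSpace.generateFrom (SS d)) _ _ fun T _ => ?_
      exact TopologicalSpace.isOpen_generateFrom_of_mem (Or.inl ⟨T, rfl⟩)
    · have h1 : {F : Cl d | (F.set ∩ G).Nonempty} = ⋃ p ∈ {p : ℕ × ℕ | ob d p ⊆ G},
          hit (ob d p) := by
        ext F
        constructor
        · rintro ⟨x, hx, hx'⟩
          obtain ⟨p, hp, hp'⟩ := exists_ball hG hx'
          exact Set.mem_iUnion₂.2 ⟨p, hp', ⟨x, hx, hp⟩⟩
        · intro hF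
          obtain ⟨p, hp, x, hx, hx'⟩ := Set.mem_iUnion₂.1 hF
          exact ⟨x, hx, hp hx'⟩
      rw [h1]
      refine @isOpen_biUnion _ _ (TopologicalSpace.generateFrom (SS d)) _ _ fun T _ => ?_
      exact TopologicalSpace.isOpen_generateFrom_of_mem (Or.inr ⟨T, rfl⟩)

theorem ob_eq (d : ℕ) (p : ℕ × ℕ) : ob d p = ⋃ n : ℕ,
    Metric.closedBall (TopologicalSpace.denseSeq (Sp d) p.1) (1 / (p.2 + 1 : ℝ) - 1 / (n + 1 : ℝ)) := by
  ext x
  constructor
  · intro hx
    have hx' : dist x (TopologicalSpace.denseSeq (Sp d) p.1) < 1 / (p.2 + 1 : ℝ) := hx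
    obtain ⟨n, hn⟩ := exists_nat_one_div_lt (sub_pos.2 hx')
    refine Set.mem_iUnion.2 ⟨n, ?_⟩
    rw [Metric.mem_closedBall]
    linarith
  · intro hx
    obtain ⟨n, hn⟩ := Set.mem_iUnion.1 hx
    rw [Metric.mem_closedBall] at hn
    have : (0 : ℝ) < 1 / (n + 1 : ℝ) := by positivity
    show dist x _ < _
    linarith

/-- TARGET -/
theorem borel_eq (d : ℕ) : (fellBorel d : MeasurableSpace (Cl d)) = MeasurableSpace.generateFrom
    {U | ∃ K : Set (Sp d), IsCompact K ∧ U = {F : Cl d | F.set ∩ K = ∅}} := by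
  apply le_antisymm
  · have hsc : SecondCountableTopology (Cl d) := ⟨⟨SS d, SS_countable d, fell_eq d⟩⟩
    have h1 : borel (Cl d) = MeasurableSpace.generateFrom (SS d) :=
      borel_eq_generateFrom_of_subbasis (fell_eq d)
    show borel (Cl d) ≤ _
    rw [h1]
    apply MeasurableSpace.generateFrom_le
    rintro _ (⟨T, rfl⟩ | ⟨p, rfl⟩)
    · exact MeasurableSpace.measurableSet_generateFrom ⟨cb d T, cb_compact d T, rfl⟩
    · have h2 : hit (ob d p) = ⋃ n : ℕ, (miss (Metric.closedBall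
          (TopologicalSpace.denseSeq (Sp d) p.1) (1 / (p.2 + 1 : ℝ) - 1 / (n + 1 : ℝ))))ᶜ := by
        ext F
        rw [Set.mem_iUnion]
        constructor
        · rintro ⟨x, hx, hx'⟩
          rw [ob_eq] at hx'
          obtain ⟨n, hn⟩ := Set.mem_iUnion.1 hx'
          refine ⟨n, fun h => ?_⟩
          have : x ∈ F.set ∩ _ := ⟨hx, hn⟩
          rw [show F.set ∩ _ = ∅ from h] at this
          exact this
        · rintro ⟨n, hn⟩
          have h3 : (F.set ∩ Metric.closedBall (TopologicalSpace.denseSeq (Sp d) p.1)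
              (1 / (p.2 + 1 : ℝ) - 1 / (n + 1 : ℝ))).Nonempty := by
            rw [Set.nonempty_iff_ne_empty]
            exact hn
          obtain ⟨x, hx, hx'⟩ := h3
          refine ⟨x, hx, ?_⟩
          rw [ob_eq]
          exact Set.mem_iUnion.2 ⟨n, hx'⟩
      show @MeasurableSet _ (MeasurableSpace.generateFrom
        {U | ∃ K : Set (Sp d), IsCompact K ∧ U = {F : Cl d | F.set ∩ K = ∅}}) (hit (ob d p))
      rw [h2]
      refine MeasurableSet.iUnion fun n => MeasurableSet.compl ?_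
      exact MeasurableSpace.measurableSet_generateFrom ⟨_, isCompact_closedBall _ _, rfl⟩
  · apply MeasurableSpace.generateFrom_le
    rintro _ ⟨K, hK, rfl⟩
    exact (isOpen_miss hK).measurableSet

/-- TARGET -/
theorem measurable_of_miss {d : ℕ} {Ω : Type} [MeasurableSpace Ω] (X : Ω → Cl d)
    (h : ∀ K : Set (Sp d), IsCompact K → MeasurableSet {ω | (X ω).set ∩ K = ∅}) :
    Measurable X := by
  rw [borel_eq d]
  apply measurable_generateFrom
  rintro _ ⟨K, hK, rfl⟩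
  exact h K hK

/-- TARGET -/
theorem measurable_translate {d : ℕ} (a : Sp d) : Measurable (translate a : Cl d → Cl d) := by
  apply measurable_of_miss
  intro K hK
  have h1 : {F : Cl d | (translate a F).set ∩ K = ∅} = miss ((fun x => x - a) '' K) := by
    ext F
    show (fun x => x + a) '' F.set ∩ K = ∅ ↔ F.set ∩ (fun x => x - a) '' K = ∅
    rw [Set.eq_empty_iff_forall_notMem, Set.eq_empty_iff_forall_notMem]
    constructor
    · rintro h y ⟨hy, x, hx, rfl⟩
      exact h x ⟨⟨x - a, hy, sub_add_cancel x a⟩, hx⟩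
    · rintro h y ⟨⟨x, hx, rfl⟩, hy⟩
      exact h x ⟨hx, ⟨x + a, hy, add_sub_cancel_right x a⟩⟩
  rw [h1]
  exact (isOpen_miss (hK.image (continuous_id.sub continuous_const))).measurableSet

/-- TARGET -/
theorem law_ext {d : ℕ} (μ ν : Measure (Cl d)) [IsProbabilityMeasure μ] [IsProbabilityMeasure ν]
    (h : ∀ K : Set (Sp d), IsCompact K → μ {F | F.set ∩ K = ∅} = ν {F | F.set ∩ K = ∅}) :
    μ = ν := by
  refine MeasureTheory.ext_of_generate_finite _ (borel_eq d) ?_ ?_ ?_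
  · rintro _ ⟨K, hK, rfl⟩ _ ⟨K', hK', rfl⟩ _
    refine ⟨K ∪ K', hK.union hK', ?_⟩
    ext F
    show F.set ∩ K = ∅ ∧ F.set ∩ K' = ∅ ↔ F.set ∩ (K ∪ K') = ∅
    rw [Set.inter_union_distrib_left, Set.union_empty_iff]
  · rintro _ ⟨K, hK, rfl⟩
    exact h K hK
  · rw [measure_univ, measure_univ]

end Pool.Agent.Helper764.Cv
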