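import Mathlib

set_option autoImplicit false

namespace Pool.Agent.Helper764.Cv

open Pointwise in
/-- TARGET: linear programming duality (Farkas). -/
theorem lp_duality {ι κ κ' : Type} [Fintype ι] [Fintype κ] [Fintype κ']
    (f : κ → ι → ℝ) (u : κ → ℝ) (g : κ' → ι → ℝ) (v : κ' → ℝ)
    (h : ∀ (a : κ → ℝ) (b : κ' → ℝ) (c : ℝ), (∀ l, 0 ≤ b l) →
      (∀ i, 0 ≤ c + ∑ k, a k * f k i + ∑ l, b l * g l i) →
      0 ≤ c + ∑ k, a k * u k + ∑ l, b l * v l) :
    ∃ p : ι → ℝ, (∀ i, 0 ≤ p i) ∧ ∑ i, p i = 1 ∧ (∀ k, ∑ i, p i * f k i = u k) ∧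
      (∀ l, ∑ i, p i * g l i ≤ v l) := by
  classical
  rcases isEmpty_or_nonempty ι with hι | ⟨⟨i0⟩⟩
  · exfalso
    have := h 0 0 (-1) (fun _ => le_rfl) (fun i => (hι.false i).elim)
    simp at this
    linarith
  set L : (ι → ℝ) → (κ → ℝ) × (κ' → ℝ) := fun p =>
    (fun k => ∑ i, p i * f k i, fun l => ∑ i, p i * g l i) with hL
  have hLc : Continuous L := by
    rw [hL]; fun_prop
  have hLadd : ∀ p q : ι → ℝ, ∀ a b : ℝ, L (a • p + b • q) = a • L p + b • L q := by
    intro p q a b
    simp only [hL]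
    apply Prod.ext
    · funext k
      simp only [Prod.fst_add, Prod.smul_fst, Pi.add_apply, Pi.smul_apply, smul_eq_mul,
        Finset.mul_sum, ← Finset.sum_add_distrib]
      exact Finset.sum_congr rfl (fun i _ => by ring)
    · funext k
      simp only [Prod.snd_add, Prod.smul_snd, Pi.add_apply, Pi.smul_apply, smul_eq_mul,
        Finset.mul_sum, ← Finset.sum_add_distrib]
      exact Finset.sum_congr rfl (fun i _ => by ring)
  set S := L '' stdSimplex ℝ ι with hS
  have hSc : IsCompact S := (isCompact_stdSimplex ℝ ι).image hLc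
  have hSconv : Convex ℝ S := by
    rintro _ ⟨p, hp, rfl⟩ _ ⟨q, hq, rfl⟩ a b ha hb hab
    exact ⟨a • p + b • q, convex_stdSimplex ℝ ι hp hq ha hb hab, hLadd p q a b⟩
  set C : Set ((κ → ℝ) × (κ' → ℝ)) := {z | z.1 = 0 ∧ 0 ≤ z.2} with hC
  have hCcl : IsClosed C :=
    (isClosed_eq continuous_fst continuous_const).inter (isClosed_le continuous_const continuous_snd)
  have hCconv : Convex ℝ C := by
    rintro ⟨x1, y1⟩ ⟨h1, h2⟩ ⟨x2, y2⟩ ⟨h3, h4⟩ a b ha hb hab
    simp only at h1 h2 h3 h4
    subst h1 h3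
    refine ⟨by simp, ?_⟩
    show 0 ≤ a • y1 + b • y2
    exact add_nonneg (smul_nonneg ha h2) (smul_nonneg hb h4)
  set A := S + C with hA
  have hAcl : IsClosed A := hCcl.add_left_of_isCompact hSc
  have hAconv : Convex ℝ A := hSconv.add hCconv
  by_cases huv : (u, v) ∈ A
  · obtain ⟨_, ⟨p, hp, rfl⟩, ⟨x, y⟩, ⟨hx, hy⟩, hxy⟩ := huv
    simp only at hx hy
    subst hx
    simp only [hL, Prod.mk_add_mk, Prod.mk.injEq, add_zero] at hxy
    refine ⟨p, hp.1, hp.2, fun k => congrFun hxy.1 k, fun l => ?_⟩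
    have h1 := congrFun hxy.2 l
    have h2 := hy l
    simp only [Pi.add_apply, Pi.zero_apply] at h1 h2
    linarith
  · exfalso
    obtain ⟨φ, t, hφ1, hφ2⟩ := geometric_hahn_banach_closed_point hAconv hAcl huv
    set α : κ → ℝ := fun k => φ ((fun j => if k = j then 1 else 0), 0) with hα
    set β : κ' → ℝ := fun l => φ (0, (fun j => if l = j then 1 else 0)) with hβ
    have hφ : ∀ x y, φ (x, y) = ∑ k, x k * α k + ∑ l, y l * β l := by
      intro x y
      have e : (x, y) = (x, (0 : κ' → ℝ)) + ((0 : κ → ℝ), y) := by simp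
      rw [e, map_add]
      have h1 := LinearMap.pi_apply_eq_sum_univ
        (φ.toLinearMap.comp (LinearMap.inl ℝ (κ → ℝ) (κ' → ℝ))) x
      have h2 := LinearMap.pi_apply_eq_sum_univ
        (φ.toLinearMap.comp (LinearMap.inr ℝ (κ → ℝ) (κ' → ℝ))) y
      simp only [LinearMap.comp_apply, LinearMap.inl_apply, LinearMap.inr_apply,
        ContinuousLinearMap.coe_coe, smul_eq_mul] at h1 h2
      rw [h1, h2]
    have hmem : ∀ i : ι, ∀ y : κ' → ℝ, 0 ≤ y →
        ((fun k => f k i), (fun l => g l i + y l)) ∈ A := by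
      intro i y hy
      refine ⟨L (Pi.single i 1), ⟨Pi.single i 1, single_mem_stdSimplex ℝ i, rfl⟩, (0, y),
        ⟨rfl, hy⟩, ?_⟩
      simp only [hL, Prod.mk_add_mk, add_zero, Prod.mk.injEq]
      constructor
      · funext k
        rw [Finset.sum_eq_single i]
        · simp
        · intro j _ hj
          simp [hj]
        · intro hi; exact absurd (Finset.mem_univ i) hi
      · funext l
        simp only [Pi.add_apply]
        rw [Finset.sum_eq_single i]
        · simp
        · intro j _ hj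
          simp [hj]
        · intro hi; exact absurd (Finset.mem_univ i) hi
    have hβ0 : ∀ l, β l ≤ 0 := by
      intro l
      by_contra hl
      push Not at hl
      have h0 := hφ1 _ (hmem i0 0 le_rfl)
      rw [hφ] at h0
      simp only [Pi.zero_apply, add_zero] at h0
      set s := (t - (∑ k, f k i0 * α k + ∑ l, g l i0 * β l)) / β l with hs
      have hs0 : 0 < s := by
        rw [hs]; apply div_pos _ hl; linarith
      have h1 := hφ1 _ (hmem i0 (fun j => if l = j then s else 0) (by
        intro j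
        simp only [Pi.zero_apply]
        split_ifs
        · exact hs0.le
        · exact le_rfl))
      rw [hφ] at h1
      have h2 : ∑ j, (g j i0 + if l = j then s else 0) * β j = ∑ j, g j i0 * β j + s * β l := by
        simp only [add_mul, Finset.sum_add_distrib, ite_mul, zero_mul]
        rw [Finset.sum_ite_eq]
        simp
      rw [h2, hs, div_mul_cancel₀ _ hl.ne'] at h1
      linarith
    have h3 := h (fun k => -α k) (fun l => -β l) t (fun l => by linarith [hβ0 l]) (fun i => by
      have h0 := hφ1 _ (hmem i 0 le_rfl)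
      rw [hφ] at h0
      simp only [Pi.zero_apply, add_zero] at h0
      have e1 : ∑ k, -α k * f k i = -∑ k, f k i * α k := by
        rw [← Finset.sum_neg_distrib]; exact Finset.sum_congr rfl (fun _ _ => by ring)
      have e2 : ∑ l, -β l * g l i = -∑ l, g l i * β l := by
        rw [← Finset.sum_neg_distrib]; exact Finset.sum_congr rfl (fun _ _ => by ring)
      rw [e1, e2]
      linarith)
    rw [hφ] at hφ2
    have e1 : ∑ k, -α k * u k = -∑ k, u k * α k := by
      rw [← Finset.sum_neg_distrib]; exact Finset.sum_congr rfl (fun _ _ => by ring)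
    have e2 : ∑ l, -β l * v l = -∑ l, v l * β l := by
      rw [← Finset.sum_neg_distrib]; exact Finset.sum_congr rfl (fun _ _ => by ring)
    rw [e1, e2] at h3
    linarith

end Pool.Agent.Helper764.Cv
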