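import Pool.Agent.Helper764.CvDefs
import Pool.Agent.Helper764.CvLP

set_option autoImplicit false
open MeasureTheory Filter Set
open scoped Topology

namespace Pool.Agent.Helper764.Cv

open Classical in
/-- the finite-dimensional laws -/
def FiniteLaws (d : ℕ) (S : Sp d → ℝ) (m : ℝ → ℝ) : Prop :=
  ∀ (T : Finset (Sp d)) (R : Finset ℝ), (∀ r ∈ R, 0 < r) →
    ∃ p : Finset (Sp d) → ℝ, (∀ J, 0 ≤ p J) ∧ ∑ J ∈ T.powerset, p J = 1 ∧
      (∀ x ∈ T, ∀ y ∈ T, ∑ J ∈ T.powerset, p J * (if x ∈ J ∧ y ∈ J then 1 else 0) = S (x - y)) ∧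
      (∀ x ∈ T, ∀ r ∈ R, ∑ J ∈ T.powerset,
        p J * (if x ∉ J ∧ ∃ y ∈ J, dist x y < r then 1 else 0) ≤ m r)

/-- TARGET -/
theorem finiteLaws_of_inequalities {d : ℕ} {S : Sp d → ℝ} {m : ℝ → ℝ}
    (h : FiniteInequalities d S m) : FiniteLaws d S m := by
  classical
  intro T R hR
  have key := lp_duality (ι := {J // J ∈ T.powerset}) (κ := T × T) (κ' := T × R)
    (fun k J => if (k.1 : Sp d) ∈ (J : Finset (Sp d)) ∧ (k.2 : Sp d) ∈ (J : Finset (Sp d)) then 1 else 0)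
    (fun k => S ((k.1 : Sp d) - k.2))
    (fun l J => if (l.1 : Sp d) ∉ (J : Finset (Sp d)) ∧ ∃ y ∈ (J : Finset (Sp d)), dist (l.1 : Sp d) y < (l.2 : ℝ) then 1 else 0)
    (fun l => m (l.2 : ℝ)) ?_
  · obtain ⟨q, hq0, hq1, hq2, hq3⟩ := key
    have hsum : ∀ (F : Finset (Sp d) → ℝ), 
        ∑ J ∈ T.powerset, (if hJ : J ∈ T.powerset then q ⟨J, hJ⟩ else 0) * F J = 
          ∑ J : {J // J ∈ T.powerset}, q J * F J := by
      intro F
      rw [← Finset.sum_coe_sort T.powerset]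
      refine Finset.sum_congr rfl (fun J _ => ?_)
      rw [dif_pos J.2]
    refine ⟨fun J => if hJ : J ∈ T.powerset then q ⟨J, hJ⟩ else 0, ?_, ?_, ?_, ?_⟩
    · intro J
      dsimp only
      split_ifs
      · exact hq0 _
      · exact le_rfl
    · have := hsum (fun _ => 1)
      simp only [mul_one] at this
      rw [this, hq1]
    · intro x hx y hy
      rw [hsum (fun J => if x ∈ J ∧ y ∈ J then 1 else 0)]
      exact hq2 (⟨x, hx⟩, ⟨y, hy⟩)
    · intro x hx r hr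
      rw [hsum (fun J => if x ∉ J ∧ ∃ y ∈ J, dist x y < r then 1 else 0)]
      exact hq3 (⟨x, hx⟩, ⟨r, hr⟩)
  · intro a b c hb hc
    have h1 := h T R (fun x y => if hx : x ∈ T then if hy : y ∈ T then a (⟨x, hx⟩, ⟨y, hy⟩) else 0 else 0)
      (fun x r => if hx : x ∈ T then if hr : r ∈ R then b (⟨x, hx⟩, ⟨r, hr⟩) else 0 else 0) c hR 
      (by
        intro x r
        split_ifs
        · exact hb _
        · exact le_rfl
        · exact le_rfl)
    have e1 : ∀ F : Sp d → Sp d → ℝ, 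
        ∑ x ∈ T, ∑ y ∈ T, (if hx : x ∈ T then if hy : y ∈ T then a (⟨x, hx⟩, ⟨y, hy⟩) else 0 else 0) * F x y = 
          ∑ k : T × T, a k * F k.1 k.2 := by
      intro F
      rw [Fintype.sum_prod_type, ← Finset.sum_coe_sort T]
      refine Finset.sum_congr rfl (fun x _ => ?_)
      rw [← Finset.sum_coe_sort T]
      refine Finset.sum_congr rfl (fun y _ => ?_)
      rw [dif_pos x.2, dif_pos y.2]
    have e2 : ∀ F : Sp d → ℝ → ℝ, 
        ∑ x ∈ T, ∑ r ∈ R, (if hx : x ∈ T then if hr : r ∈ R then b (⟨x, hx⟩, ⟨r, hr⟩) else 0 else 0) * F x r = 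
          ∑ l : T × R, b l * F l.1 l.2 := by
      intro F
      rw [Fintype.sum_prod_type, ← Finset.sum_coe_sort T]
      refine Finset.sum_congr rfl (fun x _ => ?_)
      rw [← Finset.sum_coe_sort R]
      refine Finset.sum_congr rfl (fun y _ => ?_)
      rw [dif_pos x.2, dif_pos y.2]
    have h2 := h1 (by
      intro J hJ
      rw [e1 (fun x y => if x ∈ J ∧ y ∈ J then 1 else 0), 
        e2 (fun x r => if x ∉ J ∧ ∃ y ∈ J, dist x y < r then 1 else 0)]
      exact hc ⟨J, Finset.mem_powerset.2 hJ⟩)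
    rw [e1 (fun x y => S (x - y)), e2 (fun x r => m r)] at h2
    exact h2

theorem diff_le {d : ℕ} {S : Sp d → ℝ} {m : ℝ → ℝ} (h : FiniteLaws d S m)
    (x y : Sp d) (r : ℝ) (hr : dist x y < r) : S x - S y ≤ m r := by
  classical
  have hr0 : 0 < r := lt_of_le_of_lt dist_nonneg hr
  obtain ⟨p, hp0, _, hp2, hp3⟩ := h {0, x, y} {r} (by simpa using hr0)
  have hx := hp2 x (by simp) 0 (by simp)
  have hy := hp2 y (by simp) 0 (by simp)
  have hm := hp3 y (by simp) r (by simp)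
  rw [sub_zero] at hx hy
  rw [← hx, ← hy, ← Finset.sum_sub_distrib]
  refine le_trans (Finset.sum_le_sum (fun J _ => ?_)) hm
  rw [← mul_sub]
  apply mul_le_mul_of_nonneg_left _ (hp0 J)
  by_cases h1 : x ∈ J ∧ (0 : Sp d) ∈ J
  · by_cases h2 : y ∈ J ∧ (0 : Sp d) ∈ J
    · rw [if_pos h1, if_pos h2]
      split_ifs <;> norm_num
    · rw [if_pos h1, if_neg h2]
      have h3 : y ∉ J ∧ ∃ z ∈ J, dist y z < r := by
        refine ⟨fun h4 => h2 ⟨h4, h1.2⟩, x, h1.1, by rwa [dist_comm]⟩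
      rw [if_pos h3]
      norm_num
  · rw [if_neg h1]
    split_ifs <;> norm_num

/-- TARGET: `S` is uniformly continuous with modulus. -/
theorem modulus_of_finiteLaws {d : ℕ} {S : Sp d → ℝ} {m : ℝ → ℝ} (h : FiniteLaws d S m)
    (x y : Sp d) (r : ℝ) (hr : dist x y < r) : |S x - S y| ≤ m r := by
  rw [abs_le]
  have h1 := diff_le h x y r hr
  have h2 := diff_le h y x r (by rwa [dist_comm])
  constructor <;> linarith

/-- TARGET -/
theorem continuous_of_finiteLaws {d : ℕ} {S : Sp d → ℝ} {m : ℝ → ℝ} (h : FiniteLaws d S m)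
    (hm : Tendsto m (𝓝[>] 0) (𝓝 0)) : Continuous S := by
  rw [Metric.continuous_iff]
  intro x ε hε
  have h1 : ∀ᶠ r in 𝓝[>] (0 : ℝ), m r < ε := hm.eventually_lt_const hε
  obtain ⟨r, hr1, hr2⟩ := (h1.and self_mem_nhdsWithin).exists
  refine ⟨r, hr2, fun y hy => ?_⟩
  rw [Real.dist_eq]
  exact lt_of_le_of_lt (modulus_of_finiteLaws h y x r hy) hr1

end Pool.Agent.Helper764.Cv
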