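import Pool.Agent.Helper764.CvDefs

set_option autoImplicit false
open MeasureTheory Filter Set
open scoped Topology

namespace Pool.Agent.Helper764.Cv

/-- one period of the covariogram of a set on the line -/
noncomputable def G (Y : Set ℝ) (h : ℝ) : ℝ :=
  (volume : Measure ℝ).real {t | t ∈ Ico (0 : ℝ) 4 ∧ t ∈ Y ∧ t + h ∈ Y}

end Pool.Agent.Helper764.Cv
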