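import Pool.Agent.Helper764.CvFin

set_option autoImplicit false
open MeasureTheory Filter Set
open scoped Topology

namespace Pool.Agent.Helper764.Cv

section j1282

variable {D : Type} [AddCommGroup D] [Countable D]

/-- the shift -/
def j1282sh (g : D) (η : D → Bool) : D → Bool := fun x => η (x + g)

theorem j1282sh_meas (g : D) : Measurable (j1282sh g) := by
  rw [measurable_pi_iff]
  intro x
  exact measurable_pi_apply (x + g)

theorem j1282sh_cont (g : D) : Continuous (j1282sh g) :=
  continuous_pi fun x => continuous_apply (x + g)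

theorem j1282sh_pre (g h : D) (A : Set (D → Bool)) :
    j1282sh h ⁻¹' (j1282sh g ⁻¹' A) = j1282sh (g + h) ⁻¹' A := by
  ext η
  have : j1282sh g (j1282sh h η) = j1282sh (g + h) η := by
    funext x
    simp [j1282sh, add_assoc]
  rw [Set.mem_preimage, Set.mem_preimage, Set.mem_preimage, this]

theorem j1282_limit {ι : Type} (F : Filter ι) [NeBot F] (μs : ι → ProbabilityMeasure (D → Bool)) :
    ∃ (μ : ProbabilityMeasure (D → Bool)) (U : Ultrafilter ι), (U : Filter ι) ≤ F ∧
      ∀ A : Set (D → Bool), IsClopen A →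
        Tendsto (fun i => (μs i : Measure (D → Bool)).real A) U
          (𝓝 ((μ : Measure (D → Bool)).real A)) := by
  obtain ⟨μ, -, hμ⟩ := isCompact_univ.ultrafilter_le_nhds ((Ultrafilter.of F).map μs) (by simp)
  have hμ' : Tendsto μs (Ultrafilter.of F : Filter ι) (𝓝 μ) := hμ
  refine ⟨μ, Ultrafilter.of F, Ultrafilter.of_le F, fun A hA => ?_⟩
  have h1 := ProbabilityMeasure.tendsto_measure_of_isClopen_of_tendsto hμ' hA
  have h2 := (NNReal.continuous_coe.tendsto _).comp h1
  exact h2

/-- one averaging step -/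
theorem j1282_avg (𝒢 : Set (Set (D → Bool) × ℝ)) (hclop : ∀ p ∈ 𝒢, IsClopen p.1)
    (hsh : ∀ p ∈ 𝒢, ∀ g : D, (j1282sh g ⁻¹' p.1, p.2) ∈ 𝒢)
    (ν : Measure (D → Bool)) [IsProbabilityMeasure ν] (hν : ∀ p ∈ 𝒢, ν.real p.1 ≤ p.2)
    (N : ℕ) (hN : 0 < N) (e : ℕ → D) (n : ℕ) :
    ∃ μ : Measure (D → Bool), IsProbabilityMeasure μ ∧ (∀ p ∈ 𝒢, μ.real p.1 ≤ p.2) ∧
      ∀ j < n, ∀ A : Set (D → Bool), MeasurableSet A →
        |μ.real (j1282sh (e j) ⁻¹' A) - μ.real A| ≤ 1 / N := by
  have hNr : (0 : ℝ) < N := by exact_mod_cast hN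
  induction n with
  | zero => exact ⟨ν, inferInstance, hν, fun j hj => absurd hj (by omega)⟩
  | succ n ih =>
    obtain ⟨μ, hμp, hμ𝒢, hμ⟩ := ih
    let μ' : Measure (D → Bool) :=
      ((N : ENNReal)⁻¹) • ∑ k ∈ Finset.range N, μ.map (j1282sh (k • e n))
    have hval : ∀ A : Set (D → Bool), MeasurableSet A →
        μ'.real A = (1 / N : ℝ) * ∑ k ∈ Finset.range N, μ.real (j1282sh (k • e n) ⁻¹' A) := by
      intro A hA
      unfold Measure.real
      rw [show μ' A = (N : ENNReal)⁻¹ * ∑ k ∈ Finset.range N, μ (j1282sh (k • e n) ⁻¹' A) by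
        simp only [μ', Measure.smul_apply, Measure.finsetSum_apply, smul_eq_mul]
        congr 1
        apply Finset.sum_congr rfl
        intro k _
        exact Measure.map_apply (j1282sh_meas _) hA]
      rw [ENNReal.toReal_mul, ENNReal.toReal_sum (fun _ _ => measure_ne_top _ _)]
      simp
    have hp' : IsProbabilityMeasure μ' := by
      constructor
      simp only [μ', Measure.smul_apply, Measure.finsetSum_apply, smul_eq_mul]
      have : ∀ k ∈ Finset.range N, μ.map (j1282sh (k • e n)) Set.univ = 1 := by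
        intro k _
        rw [Measure.map_apply (j1282sh_meas _) MeasurableSet.univ]
        simp
      rw [Finset.sum_congr rfl this]
      simp only [Finset.sum_const, Finset.card_range, nsmul_eq_mul, mul_one]
      exact ENNReal.inv_mul_cancel (by simpa using hN.ne') (ENNReal.natCast_ne_top N)
    refine ⟨μ', hp', ?_, ?_⟩
    · intro p hp
      rw [hval p.1 (hclop p hp).2.measurableSet]
      have h1 : ∑ k ∈ Finset.range N, μ.real (j1282sh (k • e n) ⁻¹' p.1) ≤
          ∑ _k ∈ Finset.range N, p.2 :=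
        Finset.sum_le_sum fun k _ => hμ𝒢 _ (hsh p hp (k • e n))
      simp only [Finset.sum_const, Finset.card_range, nsmul_eq_mul] at h1
      rw [one_div, inv_mul_le_iff₀ hNr]
      exact h1
    · intro j hj A hA
      have hA' : MeasurableSet (j1282sh (e j) ⁻¹' A) := j1282sh_meas _ hA
      rw [hval _ hA', hval _ hA, ← mul_sub, ← Finset.sum_sub_distrib, abs_mul,
        abs_of_pos (by positivity : (0 : ℝ) < 1 / N)]
      rcases Nat.lt_or_ge j n with hjn | hjn
      · have h1 : |∑ k ∈ Finset.range N, (μ.real (j1282sh (k • e n) ⁻¹' (j1282sh (e j) ⁻¹' A)) -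
            μ.real (j1282sh (k • e n) ⁻¹' A))| ≤ ∑ _k ∈ Finset.range N, (1 / N : ℝ) := by
          refine (Finset.abs_sum_le_sum_abs _ _).trans (Finset.sum_le_sum fun k _ => ?_)
          have h2 := hμ j hjn (j1282sh (k • e n) ⁻¹' A) (j1282sh_meas _ hA)
          rw [j1282sh_pre] at h2 ⊢
          rw [add_comm (e j)]
          exact h2
        simp only [Finset.sum_const, Finset.card_range, nsmul_eq_mul] at h1
        have h3 : (N : ℝ) * (1 / N) = 1 := by field_simp
        rw [h3] at h1
        calc (1 / N : ℝ) * _ ≤ (1 / N : ℝ) * 1 := mul_le_mul_of_nonneg_left h1 (by positivity)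
          _ = 1 / N := mul_one _
      · have hjn' : j = n := by omega
        subst hjn'
        have h1 : ∑ k ∈ Finset.range N, (μ.real (j1282sh (k • e j) ⁻¹' (j1282sh (e j) ⁻¹' A)) -
            μ.real (j1282sh (k • e j) ⁻¹' A)) =
            μ.real (j1282sh (N • e j) ⁻¹' A) - μ.real (j1282sh (0 • e j) ⁻¹' A) := by
          rw [← Finset.sum_range_sub (fun k => μ.real (j1282sh (k • e j) ⁻¹' A))]
          apply Finset.sum_congr rfl
          intro k _
          rw [j1282sh_pre, succ_nsmul, add_comm (e j)]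
        rw [h1]
        have h2 : |μ.real (j1282sh (N • e j) ⁻¹' A) - μ.real (j1282sh (0 • e j) ⁻¹' A)| ≤ 1 := by
          have a1 : μ.real (j1282sh (N • e j) ⁻¹' A) ≤ 1 := measureReal_le_one
          have a2 : μ.real (j1282sh (0 • e j) ⁻¹' A) ≤ 1 := measureReal_le_one
          have a3 : 0 ≤ μ.real (j1282sh (N • e j) ⁻¹' A) := measureReal_nonneg
          have a4 : 0 ≤ μ.real (j1282sh (0 • e j) ⁻¹' A) := measureReal_nonneg
          rw [abs_le]
          constructor <;> linarith
        calc (1 / N : ℝ) * _ ≤ (1 / N : ℝ) * 1 := mul_le_mul_of_nonneg_left h2 (by positivity)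
          _ = 1 / N := mul_one _

theorem j1282_clopen_cylinder (s : Finset D) (S : Set (s → Bool)) :
    IsClopen (cylinder (α := fun _ : D => Bool) s S) := by
  have hd : DiscreteTopology (s → Bool) := inferInstance
  have hc : IsClopen S := isClopen_discrete S
  exact hc.preimage (by
    apply continuous_pi
    intro i
    exact continuous_apply (i : D))

/-- existence of an invariant measure satisfying the constraints -/
theorem j1282_invariant (𝒢 : Set (Set (D → Bool) × ℝ)) (hclop : ∀ p ∈ 𝒢, IsClopen p.1)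
    (hsh : ∀ p ∈ 𝒢, ∀ g : D, (j1282sh g ⁻¹' p.1, p.2) ∈ 𝒢)
    (ν : Measure (D → Bool)) [IsProbabilityMeasure ν] (hν : ∀ p ∈ 𝒢, ν.real p.1 ≤ p.2) :
    ∃ μ : Measure (D → Bool), IsProbabilityMeasure μ ∧ (∀ p ∈ 𝒢, μ.real p.1 ≤ p.2) ∧
      ∀ g : D, μ.map (j1282sh g) = μ := by
  obtain ⟨e, he⟩ := exists_surjective_nat D
  have hex := fun n : ℕ => j1282_avg 𝒢 hclop hsh ν hν (n + 1) (by omega) e n
  choose μs hμp hμ𝒢 hμ using hex
  obtain ⟨μ, U, hU, hlim⟩ := j1282_limit (D := D) atTop
    (fun n => (⟨μs n, hμp n⟩ : ProbabilityMeasure (D → Bool)))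
  have hlim' : ∀ A : Set (D → Bool), IsClopen A →
      Tendsto (fun i => (μs i).real A) U (𝓝 ((μ : Measure (D → Bool)).real A)) := hlim
  refine ⟨μ, inferInstance, ?_, ?_⟩
  · intro p hp
    exact le_of_tendsto' (hlim' p.1 (hclop p hp)) (fun n => hμ𝒢 n p hp)
  · intro g
    obtain ⟨j, rfl⟩ := he g
    have hinv : ∀ A : Set (D → Bool), IsClopen A →
        (μ : Measure (D → Bool)).real (j1282sh (e j) ⁻¹' A) = (μ : Measure (D → Bool)).real A := by
      intro A hA
      have hA' : IsClopen (j1282sh (e j) ⁻¹' A) := hA.preimage (j1282sh_cont _)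
      have h1 := (hlim' _ hA').sub (hlim' _ hA)
      have h2 : Tendsto (fun n : ℕ => 1 / ((n : ℝ) + 1)) U (𝓝 0) :=
        tendsto_one_div_add_atTop_nhds_zero_nat.mono_left hU
      have h3 : Tendsto (fun n => (μs n).real (j1282sh (e j) ⁻¹' A) - (μs n).real A) U (𝓝 0) := by
        apply squeeze_zero_norm' _ h2
        have : ∀ᶠ n in (atTop : Filter ℕ), j < n := eventually_gt_atTop j
        filter_upwards [hU this] with n hn
        have := hμ n j hn A hA.2.measurableSet
        rw [Real.norm_eq_abs]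
        push_cast at this
        exact this
      have h4 := tendsto_nhds_unique h1 h3
      linarith
    have hp1 : IsProbabilityMeasure ((μ : Measure (D → Bool)).map (j1282sh (e j))) :=
      Measure.isProbabilityMeasure_map (j1282sh_meas _).aemeasurable
    apply ext_of_generate_finite (measurableCylinders (fun _ : D => Bool))
      generateFrom_measurableCylinders.symm isPiSystem_measurableCylinders
    · intro A hA
      rw [mem_measurableCylinders] at hA
      obtain ⟨s, S, -, rfl⟩ := hA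
      have hc := j1282_clopen_cylinder s S
      rw [Measure.map_apply (j1282sh_meas _) hc.2.measurableSet]
      have := hinv _ hc
      exact (measureReal_eq_measureReal_iff).1 this
    · simp

end j1282

open Classical in
/-- a measure from finitely many weights -/
theorem j1282_finite {d : ℕ} {S : Sp d → ℝ} {m : ℝ → ℝ} (h : FiniteLaws d S m)
    (D : AddSubgroup (Sp d)) (hDc : Countable D) (T : Finset D) (R : Finset {r : ℝ // 0 < r}) :
    ∃ ν : Measure (D → Bool), IsProbabilityMeasure ν ∧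
      (∀ x ∈ T, ∀ y ∈ T, ν.real {η | η x = true ∧ η y = true} = S ((x : Sp d) - y)) ∧
      (∀ x ∈ T, ∀ r ∈ R, ∀ Y : Finset D, Y ⊆ T →
        ν.real {η | η x = false ∧ ∃ y ∈ Y, η y = true ∧ dist (x : Sp d) (y : Sp d) < r} ≤ m r) := by
  obtain ⟨p, hp0, hp1, hp2, hp3⟩ := h (T.image (fun x : D => (x : Sp d)))
    (R.image (fun r : {r : ℝ // 0 < r} => (r : ℝ))) (by
      intro r hr
      rw [Finset.mem_image] at hr
      obtain ⟨r', -, rfl⟩ := hr
      exact r'.2)
  set T' := T.image (fun x : D => (x : Sp d)) with hT'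
  let ηJ : Finset (Sp d) → (D → Bool) := fun J x => decide ((x : Sp d) ∈ J)
  let ν : Measure (D → Bool) := ∑ J ∈ T'.powerset, ENNReal.ofReal (p J) • Measure.dirac (ηJ J)
  have hval : ∀ A : Set (D → Bool), MeasurableSet A →
      ν.real A = ∑ J ∈ T'.powerset, p J * (if ηJ J ∈ A then 1 else 0) := by
    intro A hA
    unfold Measure.real
    simp only [ν, Measure.finsetSum_apply, Measure.smul_apply, smul_eq_mul]
    rw [ENNReal.toReal_sum]
    · apply Finset.sum_congr rfl
      intro J _
      rw [ENNReal.toReal_mul, ENNReal.toReal_ofReal (hp0 J), Measure.dirac_apply' _ hA]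
      congr 1
      by_cases hJ : ηJ J ∈ A <;> simp [hJ]
    · intro J _
      apply ENNReal.mul_ne_top ENNReal.ofReal_ne_top (measure_ne_top _ _)
  have hprob : IsProbabilityMeasure ν := by
    constructor
    simp only [ν, Measure.finsetSum_apply, Measure.smul_apply, smul_eq_mul, measure_univ, mul_one]
    rw [← ENNReal.ofReal_sum_of_nonneg (fun J _ => hp0 J), hp1, ENNReal.ofReal_one]
  have hsm : ∀ (x : D) (b : Bool), MeasurableSet {η : D → Bool | η x = b} := by
    intro x b
    have h1 : Measurable (fun η : D → Bool => η x) := measurable_pi_apply x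
    exact h1 (measurableSet_singleton b)
  have hPmeas : ∀ x y : D, MeasurableSet {η : D → Bool | η x = true ∧ η y = true} := by
    intro x y
    exact (hsm x true).inter (hsm y true)
  refine ⟨ν, hprob, ?_, ?_⟩
  · intro x hx y hy
    rw [hval _ (hPmeas x y), ← hp2 x (Finset.mem_image_of_mem _ hx) y (Finset.mem_image_of_mem _ hy)]
    apply Finset.sum_congr rfl
    intro J _
    simp [ηJ]
  · intro x hx r hr Y hY
    have hQ : MeasurableSet {η : D → Bool | η x = false ∧
        ∃ y ∈ Y, η y = true ∧ dist (x : Sp d) (y : Sp d) < r} := by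
      have : {η : D → Bool | η x = false ∧
          ∃ y ∈ Y, η y = true ∧ dist (x : Sp d) (y : Sp d) < r} =
          {η : D → Bool | η x = false} ∩ ⋃ y ∈ Y, ⋃ _ : dist (x : Sp d) (y : Sp d) < r,
            {η : D → Bool | η y = true} := by
        ext η
        simp only [Set.mem_inter_iff, Set.mem_ofPred_eq, Set.mem_iUnion, exists_prop]
        constructor
        · rintro ⟨h1, y, h2, h3, h4⟩
          exact ⟨h1, y, h2, h4, h3⟩
        · rintro ⟨h1, y, h2, h4, h3⟩
          exact ⟨h1, y, h2, h3, h4⟩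
      rw [this]
      refine (hsm x false).inter ?_
      refine Finset.measurableSet_biUnion _ fun y _ => MeasurableSet.iUnion fun _ => ?_
      exact hsm y true
    rw [hval _ hQ]
    refine le_trans ?_ (hp3 x (Finset.mem_image_of_mem _ hx) r (Finset.mem_image_of_mem _ hr))
    apply Finset.sum_le_sum
    intro J _
    apply mul_le_mul_of_nonneg_left _ (hp0 J)
    by_cases h1 : ηJ J ∈ {η : D → Bool | η x = false ∧
        ∃ y ∈ Y, η y = true ∧ dist (x : Sp d) (y : Sp d) < r}
    · rw [if_pos h1, if_pos]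
      obtain ⟨h2, y, hy, h3, h4⟩ := h1
      refine ⟨?_, y, ?_, h4⟩
      · simpa [ηJ] using h2
      · simpa [ηJ] using h3
    · rw [if_neg h1]
      split_ifs <;> norm_num

/-- TARGET -/
theorem exists_invariant {d : ℕ} {S : Sp d → ℝ} {m : ℝ → ℝ} (h : FiniteLaws d S m)
    (D : AddSubgroup (Sp d)) (hD : (D : Set (Sp d)).Countable) :
    ∃ μ : Measure (D → Bool), IsProbabilityMeasure μ ∧
      (∀ g : D, μ.map (fun (η : D → Bool) (x : D) => η (x + g)) = μ) ∧
      (∀ x y : D, μ.real {η | η x = true ∧ η y = true} = S ((x : Sp d) - y)) ∧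
      (∀ x : D, ∀ r : ℝ, 0 < r →
        μ.real {η | η x = false ∧ ∃ y : D, η y = true ∧ dist (x : Sp d) (y : Sp d) < r} ≤ m r) := by
  classical
  have hDc : Countable D := hD.to_subtype
  let PP : D → D → Set (D → Bool) := fun x y => {η | η x = true ∧ η y = true}
  let QQ : D → ℝ → Finset D → Set (D → Bool) := fun x r Y =>
    {η | η x = false ∧ ∃ y ∈ Y, η y = true ∧ dist (x : Sp d) (y : Sp d) < r}
  have hsingle : ∀ (x : D) (b : Bool), IsClopen {η : D → Bool | η x = b} := by
    intro x b
    exact (isClopen_discrete ({b} : Set Bool)).preimage (continuous_apply x)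
  have hPc : ∀ x y, IsClopen (PP x y) := fun x y => (hsingle x true).inter (hsingle y true)
  have hQc : ∀ x r Y, IsClopen (QQ x r Y) := by
    intro x r Y
    have : QQ x r Y = {η : D → Bool | η x = false} ∩
        ⋃ y ∈ Y.filter (fun y : D => dist (x : Sp d) (y : Sp d) < r), {η : D → Bool | η y = true} := by
      ext η
      simp only [QQ, Set.mem_inter_iff, Set.mem_ofPred_eq, Set.mem_iUnion, exists_prop,
        Finset.mem_filter]
      constructor
      · rintro ⟨h1, y, h2, h3, h4⟩
        exact ⟨h1, y, ⟨h2, h4⟩, h3⟩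
      · rintro ⟨h1, y, ⟨h2, h4⟩, h3⟩
        exact ⟨h1, y, h2, h3, h4⟩
    rw [this]
    refine (hsingle x false).inter ?_
    exact isClopen_biUnion_finset fun y _ => hsingle y true
  let 𝒢 : Set (Set (D → Bool) × ℝ) :=
    {p | (∃ x y : D, p = (PP x y, S ((x : Sp d) - y))) ∨
      (∃ x y : D, p = ((PP x y)ᶜ, 1 - S ((x : Sp d) - y))) ∨
      (∃ (x : D) (r : ℝ) (Y : Finset D), 0 < r ∧ p = (QQ x r Y, m r))}
  have hclop : ∀ p ∈ 𝒢, IsClopen p.1 := by
    rintro p (⟨x, y, rfl⟩ | ⟨x, y, rfl⟩ | ⟨x, r, Y, -, rfl⟩)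
    · exact hPc x y
    · exact (hPc x y).compl
    · exact hQc x r Y
  have hPsh : ∀ x y g, j1282sh g ⁻¹' (PP x y) = PP (x + g) (y + g) := fun x y g => rfl
  have hQsh : ∀ x r Y g, j1282sh g ⁻¹' (QQ x r Y) = QQ (x + g) r (Y.image (· + g)) := by
    intro x r Y g
    ext η
    simp only [QQ, Set.mem_preimage, Set.mem_ofPred_eq, j1282sh, Finset.mem_image,
      exists_exists_and_eq_and, AddSubgroup.coe_add, dist_add_right]
  have hsh : ∀ p ∈ 𝒢, ∀ g : D, (j1282sh g ⁻¹' p.1, p.2) ∈ 𝒢 := by
    rintro p (⟨x, y, rfl⟩ | ⟨x, y, rfl⟩ | ⟨x, r, Y, hr, rfl⟩) g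
    · left
      refine ⟨x + g, y + g, ?_⟩
      simp only [hPsh, AddSubgroup.coe_add, add_sub_add_right_eq_sub]
    · right; left
      refine ⟨x + g, y + g, ?_⟩
      simp only [Set.preimage_compl, hPsh, AddSubgroup.coe_add, add_sub_add_right_eq_sub]
    · right; right
      refine ⟨x + g, r, Y.image (· + g), hr, ?_⟩
      simp only [hQsh]
  -- a measure satisfying the constraints
  have hfin := fun i : Finset D × Finset {r : ℝ // 0 < r} => j1282_finite h D hDc i.1 i.2
  choose νs hνp hν1 hν2 using hfin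
  obtain ⟨ν, U, hU, hlim⟩ := j1282_limit (D := D) atTop
    (fun i => (⟨νs i, hνp i⟩ : ProbabilityMeasure (D → Bool)))
  have hlim' : ∀ A : Set (D → Bool), IsClopen A →
      Tendsto (fun i => (νs i).real A) U (𝓝 ((ν : Measure (D → Bool)).real A)) := hlim
  have hν : ∀ p ∈ 𝒢, (ν : Measure (D → Bool)).real p.1 ≤ p.2 := by
    rintro p (⟨x, y, rfl⟩ | ⟨x, y, rfl⟩ | ⟨x, r, Y, hr, rfl⟩)
    · refine le_of_tendsto (hlim' _ (hPc x y)) ?_
      refine hU ?_
      filter_upwards [eventually_ge_atTop (({x, y} : Finset D), (∅ : Finset {r : ℝ // 0 < r}))]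
        with i hi
      exact (hν1 i x (hi.1 (by simp)) y (hi.1 (by simp))).le
    · refine le_of_tendsto (hlim' _ (hPc x y).compl) ?_
      refine hU ?_
      filter_upwards [eventually_ge_atTop (({x, y} : Finset D), (∅ : Finset {r : ℝ // 0 < r}))]
        with i hi
      have := hνp i
      rw [probReal_compl_eq_one_sub (hPc x y).2.measurableSet,
        hν1 i x (hi.1 (by simp)) y (hi.1 (by simp))]
    · refine le_of_tendsto (hlim' _ (hQc x r Y)) ?_
      refine hU ?_
      filter_upwards [eventually_ge_atTop ((insert x Y : Finset D),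
        ({⟨r, hr⟩} : Finset {r : ℝ // 0 < r}))] with i hi
      exact hν2 i x (hi.1 (by simp)) ⟨r, hr⟩ (hi.2 (by simp)) Y
        (fun y hy => hi.1 (Finset.mem_insert_of_mem hy))
  obtain ⟨μ, hμp, hμ𝒢, hμinv⟩ := j1282_invariant 𝒢 hclop hsh (ν : Measure (D → Bool)) hν
  refine ⟨μ, hμp, hμinv, ?_, ?_⟩
  · intro x y
    have h1 := hμ𝒢 _ (Or.inl ⟨x, y, rfl⟩)
    have h2 := hμ𝒢 _ (Or.inr (Or.inl ⟨x, y, rfl⟩))
    simp only at h1 h2
    rw [probReal_compl_eq_one_sub (hPc x y).2.measurableSet] at h2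
    exact le_antisymm h1 (by linarith)
  · intro x r hr
    obtain ⟨e, he⟩ := exists_surjective_nat D
    have hmono : Monotone (fun n : ℕ => QQ x r ((Finset.range n).image e)) := by
      intro a b hab η hη
      obtain ⟨h1, y, hy, h2⟩ := hη
      refine ⟨h1, y, ?_, h2⟩
      exact Finset.image_subset_image (Finset.range_mono hab) hy
    have hun : (⋃ n : ℕ, QQ x r ((Finset.range n).image e)) =
        {η : D → Bool | η x = false ∧ ∃ y : D, η y = true ∧ dist (x : Sp d) (y : Sp d) < r} := by
      ext η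
      simp only [Set.mem_iUnion]
      constructor
      · rintro ⟨n, h1, y, -, h2⟩
        exact ⟨h1, y, h2⟩
      · rintro ⟨h1, y, h2⟩
        obtain ⟨k, rfl⟩ := he y
        exact ⟨k + 1, h1, e k, Finset.mem_image_of_mem _ (by simp), h2⟩
    have ht := tendsto_measure_iUnion_atTop (μ := μ) hmono
    rw [hun] at ht
    have ht' : Tendsto (fun n : ℕ => μ.real (QQ x r ((Finset.range n).image e))) atTop
        (𝓝 (μ.real {η : D → Bool | η x = false ∧
          ∃ y : D, η y = true ∧ dist (x : Sp d) (y : Sp d) < r})) :=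
      (ENNReal.tendsto_toReal (measure_ne_top _ _)).comp ht
    exact le_of_tendsto' ht' (fun n => hμ𝒢 _ (Or.inr (Or.inr ⟨x, r, _, hr, rfl⟩)))

end Pool.Agent.Helper764.Cv
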