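import Pool.Agent.Helper764.CvFell

set_option autoImplicit false
open MeasureTheory Filter Set
open scoped Topology

namespace Pool.Agent.Helper764.Cv

theorem necessity_meas_pt {d : ℕ} (x : Sp d) : MeasurableSet {F : Cl d | x ∈ F.set} := by
  have h1 : IsOpen {F : Cl d | F.set ∩ {x} = ∅} :=
    TopologicalSpace.isOpen_generateFrom_of_mem (Or.inl ⟨{x}, isCompact_singleton, rfl⟩)
  have h2 : {F : Cl d | x ∈ F.set} = {F : Cl d | F.set ∩ {x} = ∅}ᶜ := by
    ext F
    simp only [mem_ofPred_eq, mem_compl_iff]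
    rw [← Ne, ← nonempty_iff_ne_empty, inter_singleton_nonempty]
  rw [h2]
  exact h1.measurableSet.compl

theorem necessity_meas_hit {d : ℕ} (G : Set (Sp d)) (hG : IsOpen G) :
    MeasurableSet {F : Cl d | (F.set ∩ G).Nonempty} := by
  have h1 : IsOpen {F : Cl d | (F.set ∩ G).Nonempty} :=
    TopologicalSpace.isOpen_generateFrom_of_mem (Or.inr ⟨G, hG, rfl⟩)
  exact h1.measurableSet

theorem necessity_meas_U {d : ℕ} (x : Sp d) (r : ℝ) :
    MeasurableSet {F : Cl d | x ∉ F.set ∧ (F.set ∩ Metric.ball x r).Nonempty} :=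
  (necessity_meas_pt x).compl.inter (necessity_meas_hit _ Metric.isOpen_ball)

theorem necessity_translate_U {d : ℕ} (x : Sp d) (r : ℝ) (F : Cl d) :
    (0 ∉ (translate (-x) F).set ∧ ((translate (-x) F).set ∩ Metric.ball 0 r).Nonempty) ↔
      (x ∉ F.set ∧ (F.set ∩ Metric.ball x r).Nonempty) := by
  unfold translate
  simp only
  constructor
  · rintro ⟨h1, y, ⟨z, hz, rfl⟩, hy⟩
    refine ⟨fun hx => h1 ⟨x, hx, by simp⟩, z, hz, ?_⟩
    rw [Metric.mem_ball, dist_zero_right] at hy
    rw [Metric.mem_ball, dist_eq_norm]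
    simpa [sub_eq_add_neg] using hy
  · rintro ⟨h1, z, hz, hb⟩
    refine ⟨?_, z + -x, ⟨z, hz, rfl⟩, ?_⟩
    · rintro ⟨w, hw, hw0⟩
      have : w = x := by
        have := hw0
        simpa [add_neg_eq_zero] using this
      rw [this] at hw
      exact h1 hw
    · rw [Metric.mem_ball, dist_eq_norm] at hb
      rw [Metric.mem_ball, dist_zero_right]
      simpa [sub_eq_add_neg] using hb

theorem necessity {d : ℕ} {S : Sp d → ℝ} (h : IsCovariance d S) :
    ∃ m : ℝ → ℝ, Tendsto m (𝓝[>] 0) (𝓝 0) ∧ FiniteInequalities d S m := by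
  classical
  obtain ⟨Ω, mΩ, P, X, hP, hX, hS⟩ := h
  have hXm := hX.measurable
  set U : Sp d → ℝ → Set (Cl d) :=
    fun x r => {F : Cl d | x ∉ F.set ∧ (F.set ∩ Metric.ball x r).Nonempty} with hU
  have hUm : ∀ x r, MeasurableSet (U x r) := fun x r => necessity_meas_U x r
  have hBm : ∀ x r, MeasurableSet (X ⁻¹' U x r) := fun x r => hXm (hUm x r)
  have hAm : ∀ x y, MeasurableSet {ω | x ∈ (X ω).set ∧ y ∈ (X ω).set} := fun x y =>
    (hXm (necessity_meas_pt x)).inter (hXm (necessity_meas_pt y))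
  refine ⟨fun r => P.real (X ⁻¹' U 0 r), ?_, ?_⟩
  · have h1 := tendsto_measure_biInter_gt (μ := P) (s := fun r => X ⁻¹' U 0 r) (a := (0 : ℝ))
      (fun r _ => (hBm 0 r).nullMeasurableSet)
      (fun i j _ hij ω hω => by
        obtain ⟨h0, y, hy, hyb⟩ := hω
        exact ⟨h0, y, hy, Metric.ball_subset_ball hij hyb⟩)
      ⟨1, one_pos, measure_ne_top _ _⟩
    have h2 : (⋂ r > (0 : ℝ), X ⁻¹' U 0 r) = ∅ := by
      rw [eq_empty_iff_forall_notMem]
      intro ω hω
      rw [mem_iInter₂] at hω
      have h0 : (0 : Sp d) ∉ (X ω).set := (hω 1 one_pos).1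
      have hop : IsOpen ((X ω).set)ᶜ := (X ω).closed.isOpen_compl
      obtain ⟨ε, hε, hball⟩ := Metric.isOpen_iff.1 hop 0 h0
      obtain ⟨-, y, hy, hyb⟩ := hω ε hε
      exact hball hyb hy
    rw [h2, measure_empty] at h1
    have h3 := (ENNReal.tendsto_toReal (a := 0) (by simp)).comp h1
    simpa [Function.comp_def, Measure.real] using h3
  · intro T R a b c hR hb hJ
    have hstat : ∀ x r, P.real (X ⁻¹' U x r) = P.real (X ⁻¹' U 0 r) := by
      intro x r
      have h1 := congrArg (fun μ : Measure (Cl d) => μ (U 0 r)) (hX.stationary (-x))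
      beta_reduce at h1
      have hmt : Measurable (fun ω => translate (-x) (X ω)) := (measurable_translate (-x)).comp hXm
      rw [Measure.map_apply hmt (hUm 0 r), Measure.map_apply hXm (hUm 0 r)] at h1
      have h2 : (fun ω => translate (-x) (X ω)) ⁻¹' U 0 r = X ⁻¹' U x r := by
        ext ω
        exact necessity_translate_U x r (X ω)
      rw [h2] at h1
      unfold Measure.real
      rw [h1]
    have hiA : ∀ x y, Integrable (({ω | x ∈ (X ω).set ∧ y ∈ (X ω).set} : Set Ω).indicator
        (fun _ => (1 : ℝ))) P := fun x y => (integrable_const (1 : ℝ)).indicator (hAm x y)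
    have hiB : ∀ x r, Integrable ((X ⁻¹' U x r).indicator (fun _ => (1 : ℝ))) P :=
      fun x r => (integrable_const (1 : ℝ)).indicator (hBm x r)
    have hint1 : Integrable (fun ω => ∑ x ∈ T, ∑ y ∈ T, a x y *
        ({ω | x ∈ (X ω).set ∧ y ∈ (X ω).set} : Set Ω).indicator (fun _ => (1 : ℝ)) ω) P :=
      integrable_finsetSum _ fun x _ => integrable_finsetSum _ fun y _ => (hiA x y).const_mul _
    have hint2 : Integrable (fun ω => ∑ x ∈ T, ∑ r ∈ R, b x r *
        (X ⁻¹' U x r).indicator (fun _ => (1 : ℝ)) ω) P :=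
      integrable_finsetSum _ fun x _ => integrable_finsetSum _ fun r _ => (hiB x r).const_mul _
    have hnn : 0 ≤ ∫ ω, (c + ∑ x ∈ T, ∑ y ∈ T, a x y *
        ({ω | x ∈ (X ω).set ∧ y ∈ (X ω).set} : Set Ω).indicator (fun _ => (1 : ℝ)) ω
        + ∑ x ∈ T, ∑ r ∈ R, b x r * (X ⁻¹' U x r).indicator (fun _ => (1 : ℝ)) ω) ∂P := by
      apply integral_nonneg
      intro ω
      have h1 := hJ (T.filter fun x => x ∈ (X ω).set) (Finset.filter_subset _ _)
      have e1 : ∑ x ∈ T, ∑ y ∈ T, a x y * (if x ∈ T.filter (fun x => x ∈ (X ω).set) ∧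
          y ∈ T.filter (fun x => x ∈ (X ω).set) then (1 : ℝ) else 0)
          = ∑ x ∈ T, ∑ y ∈ T, a x y *
        ({ω | x ∈ (X ω).set ∧ y ∈ (X ω).set} : Set Ω).indicator (fun _ => (1 : ℝ)) ω := by
        refine Finset.sum_congr rfl fun x hx => Finset.sum_congr rfl fun y hy => ?_
        congr 1
        simp only [Finset.mem_filter, hx, hy, true_and, indicator_apply, mem_ofPred_eq]
      have e2 : ∑ x ∈ T, ∑ r ∈ R, b x r * (if x ∉ T.filter (fun x => x ∈ (X ω).set) ∧
          ∃ y ∈ T.filter (fun x => x ∈ (X ω).set), dist x y < r then (1 : ℝ) else 0)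
          ≤ ∑ x ∈ T, ∑ r ∈ R, b x r * (X ⁻¹' U x r).indicator (fun _ => (1 : ℝ)) ω := by
        refine Finset.sum_le_sum fun x hx => Finset.sum_le_sum fun r hr => ?_
        apply mul_le_mul_of_nonneg_left _ (hb x r)
        rw [indicator_apply]
        split_ifs with h3 h4 h4
        · exact le_rfl
        · exfalso
          apply h4
          obtain ⟨h5, y, hy, hd⟩ := h3
          rw [Finset.mem_filter] at h5 hy
          refine ⟨fun h6 => h5 ⟨hx, h6⟩, y, hy.2, ?_⟩
          rw [Metric.mem_ball, dist_comm]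
          exact hd
        · exact zero_le_one
        · exact le_rfl
      simp only [Pi.zero_apply]
      rw [← e1]
      linarith
    have hval : ∫ ω, (c + ∑ x ∈ T, ∑ y ∈ T, a x y *
        ({ω | x ∈ (X ω).set ∧ y ∈ (X ω).set} : Set Ω).indicator (fun _ => (1 : ℝ)) ω
        + ∑ x ∈ T, ∑ r ∈ R, b x r * (X ⁻¹' U x r).indicator (fun _ => (1 : ℝ)) ω) ∂P
        = c + ∑ x ∈ T, ∑ y ∈ T, a x y * S (x - y)
          + ∑ x ∈ T, ∑ r ∈ R, b x r * P.real (X ⁻¹' U 0 r) := by
      have hint01 : Integrable (fun ω => c + ∑ x ∈ T, ∑ y ∈ T, a x y *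
        ({ω | x ∈ (X ω).set ∧ y ∈ (X ω).set} : Set Ω).indicator (fun _ => (1 : ℝ)) ω) P :=
        (integrable_const c).add hint1
      rw [integral_add hint01 hint2, integral_add (integrable_const c) hint1]
      congr 1
      · congr 1
        · simp
        · rw [integral_finsetSum _ fun x _ => integrable_finsetSum _ fun y _ =>
            (hiA x y).const_mul _]
          refine Finset.sum_congr rfl fun x _ => ?_
          rw [integral_finsetSum _ fun y _ => (hiA x y).const_mul _]
          refine Finset.sum_congr rfl fun y _ => ?_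
          rw [integral_const_mul, integral_indicator (hAm x y), ← hS x y]
          simp
      · rw [integral_finsetSum _ fun x _ => integrable_finsetSum _ fun r _ =>
            (hiB x r).const_mul _]
        refine Finset.sum_congr rfl fun x _ => ?_
        rw [integral_finsetSum _ fun r _ => (hiB x r).const_mul _]
        refine Finset.sum_congr rfl fun r _ => ?_
        rw [integral_const_mul, integral_indicator (hBm x r), ← hstat x r]
        simp
    rw [hval] at hnn
    exact hnn

end Pool.Agent.Helper764.Cv
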