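import Pool.Agent.Helper764.CvDet

set_option autoImplicit false
open MeasureTheory Filter Set
open scoped Topology

namespace Pool.Agent.Helper764.Cv

/-- TARGET -/
theorem measurable_mem_line {d : ℕ} {Ω : Type} [MeasurableSpace Ω] (X : Ω → Cl d)
    (hX : Measurable X) (e : Sp d) : MeasurableSet {p : Ω × ℝ | p.2 • e ∈ (X p.1).set} := by
  have hH : ∀ (x : Sp d) (r : ℝ), MeasurableSet {ω | ((X ω).set ∩ Metric.ball x r).Nonempty} := by
    intro x r
    have ho : IsOpen {F : Cl d | (F.set ∩ Metric.ball x r).Nonempty} := by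
      apply TopologicalSpace.isOpen_generateFrom_of_mem
      right
      exact ⟨Metric.ball x r, Metric.isOpen_ball, rfl⟩
    exact hX ho.measurableSet
  have heq : {p : Ω × ℝ | p.2 • e ∈ (X p.1).set} =
      ⋂ n : ℕ, ⋃ q : ℚ, {ω | ((X ω).set ∩ Metric.ball ((q : ℝ) • e) ((‖e‖ + 1) / (n + 1))).Nonempty} ×ˢ
        Metric.ball (q : ℝ) (1 / ((n : ℝ) + 1)) := by
    ext ⟨ω, t⟩
    simp only [mem_ofPred_eq, mem_iInter, mem_iUnion, mem_prod, Metric.mem_ball]
    constructor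
    · intro h n
      have hn : (0 : ℝ) < 1 / ((n : ℝ) + 1) := by positivity
      obtain ⟨q, hq1, hq2⟩ := exists_rat_btwn (show t - 1 / ((n : ℝ) + 1) < t by linarith)
      refine ⟨q, ⟨t • e, h, ?_⟩, ?_⟩
      · rw [Metric.mem_ball, dist_eq_norm, ← sub_smul, norm_smul, Real.norm_eq_abs,
          abs_of_pos (by linarith)]
        have h1 : (t - q) * ‖e‖ ≤ (1 / ((n : ℝ) + 1)) * ‖e‖ := by
          apply mul_le_mul_of_nonneg_right _ (norm_nonneg _)
          linarith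
        calc (t - q) * ‖e‖ ≤ (1 / ((n : ℝ) + 1)) * ‖e‖ := h1
          _ < (‖e‖ + 1) / (n + 1) := by
            rw [add_div]
            have : (1 / ((n : ℝ) + 1)) * ‖e‖ = ‖e‖ / (n + 1) := by ring
            linarith
      · rw [Real.dist_eq, abs_of_pos (by linarith)]
        linarith
    · intro h
      rw [← (X ω).closed.closure_eq, Metric.mem_closure_iff]
      intro ε hε
      obtain ⟨n, hn⟩ := exists_nat_gt ((2 * ‖e‖ + 1) / ε)
      have hn0 : (0 : ℝ) < (n : ℝ) + 1 := by positivity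
      have hn1 : (2 * ‖e‖ + 1) / ((n : ℝ) + 1) < ε := by
        rw [div_lt_iff₀ hn0]
        rw [div_lt_iff₀ hε] at hn
        nlinarith
      obtain ⟨q, ⟨b, hb, hb2⟩, hq⟩ := h n
      refine ⟨b, hb, ?_⟩
      rw [Metric.mem_ball] at hb2
      rw [Real.dist_eq] at hq
      calc dist (t • e) b ≤ dist (t • e) ((q:ℝ) • e) + dist ((q:ℝ) • e) b := dist_triangle _ _ _
        _ ≤ (1 / ((n : ℝ) + 1)) * ‖e‖ + (‖e‖ + 1) / (n + 1) := by
          apply add_le_add
          · rw [dist_eq_norm, ← sub_smul, norm_smul, Real.norm_eq_abs]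
            exact mul_le_mul_of_nonneg_right hq.le (norm_nonneg _)
          · rw [dist_comm]; exact hb2.le
        _ = (2 * ‖e‖ + 1) / ((n : ℝ) + 1) := by ring
        _ < ε := hn1
  rw [heq]
  refine MeasurableSet.iInter fun n => MeasurableSet.iUnion fun q => ?_
  exact (hH _ _).prod Metric.isOpen_ball.measurableSet

theorem ae_eq_of_le_mean {Ω : Type} [MeasurableSpace Ω] (P : Measure Ω) [IsProbabilityMeasure P]
    (f : Ω → ℝ) (c : ℝ) (hf : Integrable f P) (hle : ∀ᵐ ω ∂P, f ω ≤ c) (hm : ∫ ω, f ω ∂P = c) :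
    ∀ᵐ ω ∂P, f ω = c := by
  have h1 : ∫ ω, (c - f ω) ∂P = 0 := by
    rw [integral_sub (integrable_const c) hf, hm]
    simp
  have h2 : Integrable (fun ω => c - f ω) P := (integrable_const c).sub hf
  have h3 : 0 ≤ᵐ[P] fun ω => c - f ω := by
    filter_upwards [hle] with ω hω
    simp only [Pi.zero_apply]
    linarith
  have h4 := (integral_eq_zero_iff_of_nonneg_ae h3 h2).1 h1
  filter_upwards [h4] with ω hω
  simp only [Pi.zero_apply] at hω
  linarith

/-- TARGET -/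
theorem not_covariance {d : ℕ} (i : Fin d) (A V : Set ℝ) (hA : IsOpen A)
    (hper : ∀ t, t + 4 ∈ A ↔ t ∈ A) (hV : IsOpen V) (hV1 : V ⊆ Ioo 0 (1 / 4))
    (hV2 : Ioo 0 (1 / 4) ⊆ closure V) (h1 : ∀ h ∈ Icc (1 : ℝ) 3, G A h = 0)
    (h2 : G A (3 / 4) = 1 / 4)
    (h3 : ∀ α β : ℝ, α < β → Icc α β ⊆ V → G A (3 / 4 - β) - G A (3 / 4 - α) = β - α)
    (h4 : G A (1 / 2) < 1 / 2) :
    ¬ IsCovariance d (fun h => 4⁻¹ * G A (h i)) := by
  rintro ⟨Ω, mΩ, P, X, hP, hX, hcov⟩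
  set e : Sp d := EuclideanSpace.single i (1:ℝ) with he
  have hei : e i = 1 := by simp [he]
  set Y : Ω → Set ℝ := fun ω => {t : ℝ | t • e ∈ (X ω).set} with hYdef
  have hYcl : ∀ ω, IsClosed (Y ω) := by
    intro ω
    exact (X ω).closed.preimage (by fun_prop : Continuous fun t : ℝ => t • e)
  have hM : MeasurableSet {p : Ω × ℝ | p.2 ∈ Y p.1} := measurable_mem_line X hX.measurable e
  have hpr : ∀ t h : ℝ, P.real {ω | t ∈ Y ω ∧ t + h ∈ Y ω} = 4⁻¹ * G A h := by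
    intro t h
    have := hcov ((t + h) • e) (t • e)
    have hx : ((t + h) • e - t • e) i = h := by
      rw [← sub_smul]
      simp [hei]
    simp only [hx] at this
    rw [← this]
    congr 1
    ext ω
    simp only [hYdef, mem_ofPred_eq]
    exact and_comm
  have hY1 : ∀ t : ℝ, MeasurableSet {ω | t ∈ Y ω} := by
    intro t
    exact measurable_prodMk_right hM
  have hYY : ∀ t s : ℝ, MeasurableSet {ω | t ∈ Y ω ∧ s ∈ Y ω} := by
    intro t s
    exact (hY1 t).inter (hY1 s)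
  have hG40 : G A 4 = G A 0 := by
    unfold G
    congr 1
    ext t
    simp [hper]
  have hp1 : ∀ t : ℝ, P.real {ω | t ∈ Y ω} = 4⁻¹ * G A 0 := by
    intro t
    rw [← hpr t 0]
    congr 1
    ext ω
    simp
  -- R1
  have hR1a : ∀ᵐ ω ∂P, volume {t | t ∈ Y ω ∧ t + 4 ∉ Y ω} = 0 := by
    have hS : MeasurableSet {p : Ω × ℝ | p.2 ∈ Y p.1 ∧ p.2 + 4 ∉ Y p.1} := by
      apply hM.inter
      have : Measurable (fun p : Ω × ℝ => (p.1, p.2 + 4)) := by fun_prop
      exact (this hM).compl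
    have hz : (P.prod volume) {p : Ω × ℝ | p.2 ∈ Y p.1 ∧ p.2 + 4 ∉ Y p.1} = 0 := by
      rw [Measure.prod_apply_symm hS]
      have : ∀ t : ℝ, P ((fun x => (x, t)) ⁻¹' {p : Ω × ℝ | p.2 ∈ Y p.1 ∧ p.2 + 4 ∉ Y p.1}) = 0 := by
        intro t
        have h5 : (fun x => (x, t)) ⁻¹' {p : Ω × ℝ | p.2 ∈ Y p.1 ∧ p.2 + 4 ∉ Y p.1} =
          {ω | t ∈ Y ω} \ {ω | t ∈ Y ω ∧ t + 4 ∈ Y ω} := by
          ext ω
          simp only [mem_preimage, mem_ofPred_eq, Set.mem_sdiff, not_and]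
          tauto
        have h6 : P.real ({ω | t ∈ Y ω} \ {ω | t ∈ Y ω ∧ t + 4 ∈ Y ω}) = 0 := by
          have hsub : {ω | t ∈ Y ω ∧ t + 4 ∈ Y ω} ⊆ {ω | t ∈ Y ω} := fun ω h => h.1
          rw [measureReal_sdiff hsub (hYY t (t+4))]
          rw [hp1 t, hpr t 4, hG40]
          ring
        rw [h5]
        rwa [measureReal_eq_zero_iff] at h6
      rw [lintegral_congr this]
      simp
    exact (Measure.measure_prod_null hS).1 hz
  have hR1b : ∀ᵐ ω ∂P, volume {t | t ∉ Y ω ∧ t + 4 ∈ Y ω} = 0 := by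
    have hS : MeasurableSet {p : Ω × ℝ | p.2 ∉ Y p.1 ∧ p.2 + 4 ∈ Y p.1} := by
      apply hM.compl.inter
      have : Measurable (fun p : Ω × ℝ => (p.1, p.2 + 4)) := by fun_prop
      exact (this hM)
    have hz : (P.prod volume) {p : Ω × ℝ | p.2 ∉ Y p.1 ∧ p.2 + 4 ∈ Y p.1} = 0 := by
      rw [Measure.prod_apply_symm hS]
      have : ∀ t : ℝ, P ((fun x => (x, t)) ⁻¹' {p : Ω × ℝ | p.2 ∉ Y p.1 ∧ p.2 + 4 ∈ Y p.1}) = 0 := by
        intro t
        have h5 : (fun x => (x, t)) ⁻¹' {p : Ω × ℝ | p.2 ∉ Y p.1 ∧ p.2 + 4 ∈ Y p.1} =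
          {ω | t + 4 ∈ Y ω} \ {ω | t ∈ Y ω ∧ t + 4 ∈ Y ω} := by
          ext ω
          simp only [mem_preimage, mem_ofPred_eq, Set.mem_sdiff, not_and]
          tauto
        have h6 : P.real ({ω | t + 4 ∈ Y ω} \ {ω | t ∈ Y ω ∧ t + 4 ∈ Y ω}) = 0 := by
          have hsub : {ω | t ∈ Y ω ∧ t + 4 ∈ Y ω} ⊆ {ω | t + 4 ∈ Y ω} := fun ω h => h.2
          rw [measureReal_sdiff hsub (hYY t (t+4))]
          rw [hp1 (t+4), hpr t 4, hG40]
          ring
        rw [h5]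
        rwa [measureReal_eq_zero_iff] at h6
      rw [lintegral_congr this]
      simp
    exact (Measure.measure_prod_null hS).1 hz
  -- R2
  have hR2 : ∀ᵐ ω ∂P, ∀ᵐ h ∂(volume.restrict (Icc (1 : ℝ) 3)), volume {t | t ∈ Y ω ∧ t + h ∈ Y ω} = 0 := by
    have hS : MeasurableSet {p : Ω × (ℝ × ℝ) | p.2.2 ∈ Y p.1 ∧ p.2.2 + p.2.1 ∈ Y p.1} := by
      have m1 : Measurable (fun p : Ω × (ℝ × ℝ) => (p.1, p.2.2)) := by fun_prop
      have m2 : Measurable (fun p : Ω × (ℝ × ℝ) => (p.1, p.2.2 + p.2.1)) := by fun_prop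
      exact (m1 hM).inter (m2 hM)
    have hz : (P.prod ((volume.restrict (Icc (1 : ℝ) 3)).prod volume)) {p : Ω × (ℝ × ℝ) | p.2.2 ∈ Y p.1 ∧ p.2.2 + p.2.1 ∈ Y p.1} = 0 := by
      rw [Measure.prod_apply_symm hS]
      rw [lintegral_eq_zero_iff (measurable_measure_prodMk_right hS)]
      have hset : MeasurableSet {y : ℝ × ℝ | y.1 ∈ Icc (1:ℝ) 3} := measurable_fst measurableSet_Icc
      have hae : ∀ᵐ y ∂((volume.restrict (Icc (1 : ℝ) 3)).prod (volume : Measure ℝ)), y.1 ∈ Icc (1:ℝ) 3 := by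
        have : ∀ᵐ x ∂(volume.restrict (Icc (1 : ℝ) 3)), x ∈ Icc (1:ℝ) 3 := ae_restrict_mem measurableSet_Icc
        exact Measure.quasiMeasurePreserving_fst.ae this
      filter_upwards [hae] with y hy
      have h6 : P.real ((fun x => (x, y)) ⁻¹' {p : Ω × (ℝ × ℝ) | p.2.2 ∈ Y p.1 ∧ p.2.2 + p.2.1 ∈ Y p.1}) = 0 := by
        have := hpr y.2 y.1
        rw [h1 y.1 hy, mul_zero] at this
        exact this
      rwa [measureReal_eq_zero_iff] at h6
    have := (Measure.measure_prod_null hS).1 hz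
    filter_upwards [this] with ω hω
    have hS2 : MeasurableSet (Prod.mk ω ⁻¹' {p : Ω × (ℝ × ℝ) | p.2.2 ∈ Y p.1 ∧ p.2.2 + p.2.1 ∈ Y p.1}) :=
      measurable_prodMk_left hS
    exact (Measure.measure_prod_null hS2).1 hω
  have hdet : ∀ᵐ ω ∂P, G (Y ω) (3 / 4) ≤ 1 / 4 ∧
    (G (Y ω) (3 / 4) = 1 / 4 →
      (∀ α β : ℝ, 0 ≤ α → α ≤ β → β ≤ 1 / 4 →
        G (Y ω) (3 / 4 - β) - G (Y ω) (3 / 4 - α) ≤ β - α) ∧
      ∀ V : Set ℝ, IsOpen V → V ⊆ Ioo 0 (1 / 4) → Ioo 0 (1 / 4) ⊆ closure V →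
        (∀ α β : ℚ, α < β → Icc (α : ℝ) β ⊆ V →
          G (Y ω) (3 / 4 - β) - G (Y ω) (3 / 4 - α) = β - α) →
        G (Y ω) (1 / 2) = 1 / 2) := by
    filter_upwards [hR1a, hR1b, hR2] with ω ha hb hc
    exact det_structure (Y ω) (hYcl ω) ha hb hc
  -- R3
  have hR3 : ∀ h : ℝ, Integrable (fun ω => G (Y ω) h) P ∧ ∫ ω, G (Y ω) h ∂P = G A h := by
    intro h
    set S : Set (Ω × ℝ) := {p : Ω × ℝ | p.2 ∈ Ico (0:ℝ) 4 ∧ p.2 ∈ Y p.1 ∧ p.2 + h ∈ Y p.1} with hSdef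
    have hS : MeasurableSet S := by
      have m1 : Measurable (fun p : Ω × ℝ => (p.1, p.2 + h)) := by fun_prop
      exact (measurable_snd measurableSet_Ico).inter (hM.inter (m1 hM))
    have hGA : 0 ≤ 4⁻¹ * G A h := by
      rw [← hpr 0 h]; positivity
    have hSm : (P.prod volume) S = ENNReal.ofReal (G A h) := by
      rw [Measure.prod_apply_symm hS]
      have hfun : (fun t : ℝ => P ((fun x => (x, t)) ⁻¹' S)) = (Ico (0:ℝ) 4).indicator (fun _ => ENNReal.ofReal (4⁻¹ * G A h)) := by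
        ext t
        by_cases ht : t ∈ Ico (0:ℝ) 4
        · rw [indicator_of_mem ht, ← hpr t h, ofReal_measureReal]
          congr 1
          ext ω
          simp only [hSdef, mem_preimage, mem_ofPred_eq]
          tauto
        · rw [indicator_of_notMem ht]
          have : (fun x => (x, t)) ⁻¹' S = (∅ : Set Ω) := by
            ext ω
            simp only [hSdef, mem_preimage, mem_ofPred_eq, mem_empty_iff_false]
            tauto
          rw [this, measure_empty]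
      rw [hfun, lintegral_indicator measurableSet_Ico, lintegral_const]
      simp only [Measure.restrict_apply MeasurableSet.univ, univ_inter, Real.volume_Ico]
      rw [← ENNReal.ofReal_mul hGA]
      congr 1
      ring
    have hfin : (P.prod volume) S ≠ ⊤ := by rw [hSm]; exact ENNReal.ofReal_ne_top
    have hGeq : (fun ω => G (Y ω) h) = fun ω => (volume : Measure ℝ).real (Prod.mk ω ⁻¹' S) := rfl
    refine ⟨?_, ?_⟩
    · rw [hGeq]
      exact Measure.integrable_measure_prodMk_left hS hfin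
    · rw [hGeq]
      have h7 : ∀ᵐ ω ∂P, volume (Prod.mk ω ⁻¹' S) < ⊤ := Measure.ae_measure_lt_top hS hfin
      have h8 : Measurable (fun ω => volume (Prod.mk ω ⁻¹' S)) := measurable_measure_prodMk_left hS
      have h9 := integral_toReal h8.aemeasurable h7
      have h10 : (∫⁻ ω, volume (Prod.mk ω ⁻¹' S) ∂P) = ENNReal.ofReal (G A h) := by
        rw [← Measure.prod_apply hS, hSm]
      rw [h10, ENNReal.toReal_ofReal (by linarith)] at h9
      exact h9
  -- R4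
  have hR4 : ∀ᵐ ω ∂P, G (Y ω) (3 / 4) = 1 / 4 := by
    apply ae_eq_of_le_mean P _ _ (hR3 (3/4)).1
    · filter_upwards [hdet] with ω hω
      exact hω.1
    · rw [(hR3 (3/4)).2, h2]
  -- R5
  have hR5 : ∀ᵐ ω ∂P, ∀ α β : ℚ, α < β → Icc (α : ℝ) β ⊆ V →
          G (Y ω) (3 / 4 - β) - G (Y ω) (3 / 4 - α) = β - α := by
    rw [ae_all_iff]
    intro α
    rw [ae_all_iff]
    intro β
    by_cases hαβ : α < β
    · by_cases hI : Icc (α : ℝ) β ⊆ V
      · have hαβ' : (α:ℝ) < β := by exact_mod_cast hαβ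
        have ha := hV1 (hI ⟨le_rfl, hαβ'.le⟩)
        have hb := hV1 (hI ⟨hαβ'.le, le_rfl⟩)
        have hkey : ∀ᵐ ω ∂P, G (Y ω) (3 / 4 - β) - G (Y ω) (3 / 4 - α) = β - α := by
          apply ae_eq_of_le_mean P _ _ ((hR3 (3/4 - β)).1.sub (hR3 (3/4 - α)).1)
          · filter_upwards [hdet, hR4] with ω hω hω2
            exact (hω.2 hω2).1 α β ha.1.le hαβ'.le hb.2.le
          · simp only [Pi.sub_apply]
            rw [integral_sub (hR3 (3/4 - β)).1 (hR3 (3/4 - α)).1, (hR3 (3/4 - β)).2, (hR3 (3/4 - α)).2]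
            exact h3 α β hαβ' hI
        filter_upwards [hkey] with ω hω _ _
        exact hω
      · filter_upwards with ω _ h
        exact absurd h hI
    · filter_upwards with ω h
      exact absurd h hαβ
  have hR6 : ∀ᵐ ω ∂P, G (Y ω) (1 / 2) = 1 / 2 := by
    filter_upwards [hdet, hR4, hR5] with ω hω hω2 hω3
    exact (hω.2 hω2).2 V hV hV1 hV2 hω3
  have h5 : ∫ ω, G (Y ω) (1 / 2) ∂P = 1 / 2 := by
    rw [integral_congr_ae hR6]
    simp
  rw [(hR3 (1/2)).2] at h5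
  linarith

end Pool.Agent.Helper764.Cv
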