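import Pool.Agent.Helper764.CvG

set_option autoImplicit false
open MeasureTheory Filter Set
open scoped Topology

namespace Pool.Agent.Helper764.Cv

theorem zmeas (Y : Set ℝ) (hY : MeasurableSet Y) (h : ℝ) :
    MeasurableSet {t | t ∈ Y ∧ t + h ∈ Y} :=
  hY.inter ((measurable_id.add_const h) hY)

theorem wint (Z : Set ℝ) (hZ : MeasurableSet Z) (a : ℝ) (b : ℝ) (hab : a ≤ b) :
    (volume : Measure ℝ).real (Ico a b ∩ Z) = ∫ x in a..b, Z.indicator (fun _ => (1:ℝ)) x := by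
  rw [intervalIntegral.integral_of_le hab, ← integral_Ico_eq_integral_Ioc,
    integral_indicator hZ, Measure.restrict_restrict hZ]
  simp [Set.inter_comm]

theorem iint (Z : Set ℝ) (hZ : MeasurableSet Z) (a b : ℝ) :
    IntervalIntegrable (Z.indicator (fun _ => (1:ℝ))) volume a b := by
  rw [intervalIntegrable_iff]
  exact (integrableOn_const (by simp)).indicator hZ

theorem wint2 (Z : Set ℝ) (hZ : MeasurableSet Z) (a : ℝ) (b : ℝ) (hab : a ≤ b) :
    (volume : Measure ℝ).real (Z ∩ Icc a b) = ∫ x in a..b, Z.indicator (fun _ => (1:ℝ)) x := by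
  rw [intervalIntegral.integral_of_le hab, ← integral_Icc_eq_integral_Ioc,
    integral_indicator hZ, Measure.restrict_restrict hZ]
  simp

/-- TARGET: periodicity up to null sets allows to move the window -/
theorem window (Y : Set ℝ) (hY : MeasurableSet Y)
    (hper1 : volume {t | t ∈ Y ∧ t + 4 ∉ Y} = 0) (hper2 : volume {t | t ∉ Y ∧ t + 4 ∈ Y} = 0)
    (c h : ℝ) :
    G Y h = (volume : Measure ℝ).real {t | t ∈ Ico c (c + 4) ∧ t ∈ Y ∧ t + h ∈ Y} := by
  have hZ := zmeas Y hY h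
  set Z := {t | t ∈ Y ∧ t + h ∈ Y} with hZd
  have e0 : G Y h = ∫ x in (0:ℝ)..4, Z.indicator (fun _ => (1:ℝ)) x := by
    rw [← wint Z hZ 0 4 (by norm_num)]; rfl
  have e1 : (volume : Measure ℝ).real {t | t ∈ Ico c (c + 4) ∧ t ∈ Y ∧ t + h ∈ Y}
      = ∫ x in c..(c+4), Z.indicator (fun _ => (1:ℝ)) x := by
    rw [← wint Z hZ c (c+4) (by linarith)]; rfl
  rw [e0, e1]
  have hp : ∀ᵐ t : ℝ, (t + 4 ∈ Y ↔ t ∈ Y) := by
    have a1 : ∀ᵐ t : ℝ, ¬ (t ∈ Y ∧ t + 4 ∉ Y) := by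
      rw [ae_iff]; simpa using hper1
    have a2 : ∀ᵐ t : ℝ, ¬ (t ∉ Y ∧ t + 4 ∈ Y) := by
      rw [ae_iff]; simpa using hper2
    filter_upwards [a1, a2] with t h1 h2
    tauto
  have hp2 : ∀ᵐ t : ℝ, ((t + h) + 4 ∈ Y ↔ t + h ∈ Y) :=
    (measurePreserving_add_right volume h).quasiMeasurePreserving.ae hp
  have key : ∫ x in (0:ℝ)..c, Z.indicator (fun _ => (1:ℝ)) (x + 4)
      = ∫ x in (0:ℝ)..c, Z.indicator (fun _ => (1:ℝ)) x := by
    apply intervalIntegral.integral_congr_ae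
    filter_upwards [hp, hp2] with t h1 h2 _
    have : (t + 4 ∈ Z) ↔ t ∈ Z := by
      simp only [hZd, Set.mem_ofPred_eq]
      rw [h1, show t + 4 + h = t + h + 4 by ring, h2]
    by_cases ht : t ∈ Z
    · rw [Set.indicator_of_mem ht, Set.indicator_of_mem (this.2 ht)]
    · rw [Set.indicator_of_notMem ht, Set.indicator_of_notMem (fun h => ht (this.1 h))]
  rw [intervalIntegral.integral_comp_add_right (fun x => Z.indicator (fun _ => (1:ℝ)) x) 4,
    zero_add] at key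
  have s1 := intervalIntegral.integral_add_adjacent_intervals (iint Z hZ 0 c) (iint Z hZ c (c+4))
  have s2 := intervalIntegral.integral_add_adjacent_intervals (iint Z hZ 0 4) (iint Z hZ 4 (c+4))
  linarith

/-- TARGET -/
theorem marker_formula (Y : Set ℝ) (hY : MeasurableSet Y)
    (hper1 : volume {t | t ∈ Y ∧ t + 4 ∉ Y} = 0) (hper2 : volume {t | t ∉ Y ∧ t + 4 ∈ Y} = 0)
    (c : ℝ) (h1 : volume (Y ∩ Ioo (c + 1) (c + 4)) = 0)
    (h2 : volume (Ioo c (c + 1 / 4) \ Y) = 0) (h3 : volume (Ioo (c + 3 / 4) (c + 1) \ Y) = 0)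
    (v : ℝ) (hv0 : 0 ≤ v) (hv1 : v ≤ 1 / 4) :
    G Y (3 / 4 - v) = (1 / 4 - v) + (volume : Measure ℝ).real (Y ∩ Icc (c + 3 / 4 - v) (c + 3 / 4))
      + (volume : Measure ℝ).real (Y ∩ Icc (c + 1 / 4) (c + 1 / 4 + v)) := by
  rw [window Y hY hper1 hper2 c (3/4 - v)]
  have hZ := zmeas Y hY (3/4 - v)
  set Z := {t | t ∈ Y ∧ t + (3/4 - v) ∈ Y} with hZd
  have e1 : (volume : Measure ℝ).real {t | t ∈ Ico c (c + 4) ∧ t ∈ Y ∧ t + (3/4 - v) ∈ Y}
      = ∫ x in c..(c+4), Z.indicator (fun _ => (1:ℝ)) x := by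
    rw [← wint Z hZ c (c+4) (by linarith)]; rfl
  rw [e1, wint2 Y hY _ _ (by linarith : c + 3/4 - v ≤ c + 3/4),
    wint2 Y hY _ _ (by linarith : c + 1/4 ≤ c + 1/4 + v)]
  have q1 : ∀ᵐ t : ℝ, t ∈ Ioo (c+1) (c+4) → t ∉ Y := by
    rw [ae_iff]
    convert h1 using 2
    ext t; simp only [mem_ofPred_eq, mem_inter_iff]; tauto
  have q2 : ∀ᵐ t : ℝ, t ∈ Ioo c (c + 1/4) → t ∈ Y := by
    rw [ae_iff]
    convert h2 using 2
    ext t; simp only [mem_ofPred_eq, Set.mem_sdiff]; tauto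
  have q3 : ∀ᵐ t : ℝ, t ∈ Ioo (c + 3/4) (c + 1) → t ∈ Y := by
    rw [ae_iff]
    convert h3 using 2
    ext t; simp only [mem_ofPred_eq, Set.mem_sdiff]; tauto
  have q1' : ∀ᵐ t : ℝ, t + (3/4 - v) ∈ Ioo (c+1) (c+4) → t + (3/4-v) ∉ Y :=
    (measurePreserving_add_right volume (3/4-v)).quasiMeasurePreserving.ae q1
  have q3' : ∀ᵐ t : ℝ, t + (3/4 - v) ∈ Ioo (c+3/4) (c+1) → t + (3/4-v) ∈ Y :=
    (measurePreserving_add_right volume (3/4-v)).quasiMeasurePreserving.ae q3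
  have ne : ∀ p : ℝ, ∀ᵐ t : ℝ, t ≠ p := fun p => by
    rw [ae_iff]; simp
  have s1 := intervalIntegral.integral_add_adjacent_intervals (iint Z hZ c (c+v)) (iint Z hZ (c+v) (c+1/4))
  have s2 := intervalIntegral.integral_add_adjacent_intervals (iint Z hZ c (c+1/4)) (iint Z hZ (c+1/4) (c+1/4+v))
  have s3 := intervalIntegral.integral_add_adjacent_intervals (iint Z hZ c (c+1/4+v)) (iint Z hZ (c+1/4+v) (c+4))
  have i1 : ∫ x in c..(c+v), Z.indicator (fun _ => (1:ℝ)) x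
      = ∫ x in (c+3/4-v)..(c+3/4), Y.indicator (fun _ => (1:ℝ)) x := by
    have : ∫ x in c..(c+v), Z.indicator (fun _ => (1:ℝ)) x
      = ∫ x in c..(c+v), Y.indicator (fun _ => (1:ℝ)) (x + (3/4 - v)) := by
      apply intervalIntegral.integral_congr_ae
      filter_upwards [q2, ne (c+1/4)] with t a1 a2 a3
      rw [uIoc_of_le (by linarith)] at a3
      have ht : t ∈ Y := a1 ⟨a3.1, lt_of_le_of_ne (by linarith [a3.2]) a2⟩
      have : t ∈ Z ↔ t + (3/4 - v) ∈ Y := by simp [hZd, ht]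
      by_cases hz : t ∈ Z
      · rw [Set.indicator_of_mem hz, Set.indicator_of_mem (this.1 hz)]
      · rw [Set.indicator_of_notMem hz, Set.indicator_of_notMem (fun h => hz (this.2 h))]
    rw [this, intervalIntegral.integral_comp_add_right (fun x => Y.indicator (fun _ => (1:ℝ)) x) (3/4 - v)]
    congr 1 <;> ring
  have i2 : ∫ x in (c+v)..(c+1/4), Z.indicator (fun _ => (1:ℝ)) x = 1/4 - v := by
    have : ∫ x in (c+v)..(c+1/4), Z.indicator (fun _ => (1:ℝ)) x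
      = ∫ x in (c+v)..(c+1/4), (1:ℝ) := by
      apply intervalIntegral.integral_congr_ae
      filter_upwards [q2, q3', ne (c+1/4)] with t a1 a4 a2 a3
      rw [uIoc_of_le (by linarith)] at a3
      have hlt := lt_of_le_of_ne a3.2 a2
      have ht : t ∈ Y := a1 ⟨by linarith [a3.1], hlt⟩
      have ht2 : t + (3/4 - v) ∈ Y := a4 ⟨by linarith [a3.1], by linarith⟩
      have hz : t ∈ Z := ⟨ht, ht2⟩
      rw [Set.indicator_of_mem hz]
    rw [this]; simp
  have i3 : ∫ x in (c+1/4)..(c+1/4+v), Z.indicator (fun _ => (1:ℝ)) x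
      = ∫ x in (c+1/4)..(c+1/4+v), Y.indicator (fun _ => (1:ℝ)) x := by
    apply intervalIntegral.integral_congr_ae
    filter_upwards [q3', ne (c+1/4+v)] with t a1 a2 a3
    rw [uIoc_of_le (by linarith)] at a3
    have hlt := lt_of_le_of_ne a3.2 a2
    have ht : t + (3/4 - v) ∈ Y := a1 ⟨by linarith [a3.1], by linarith⟩
    have : t ∈ Z ↔ t ∈ Y := by simp [hZd, ht]
    by_cases hz : t ∈ Z
    · rw [Set.indicator_of_mem hz, Set.indicator_of_mem (this.1 hz)]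
    · rw [Set.indicator_of_notMem hz, Set.indicator_of_notMem (fun h => hz (this.2 h))]
  have i4 : ∫ x in (c+1/4+v)..(c+4), Z.indicator (fun _ => (1:ℝ)) x = 0 := by
    have : ∫ x in (c+1/4+v)..(c+4), Z.indicator (fun _ => (1:ℝ)) x
      = ∫ x in (c+1/4+v)..(c+4), (0:ℝ) := by
      apply intervalIntegral.integral_congr_ae
      filter_upwards [q1, q1', ne (c+4), ne (c+1)] with t a1 a4 a2 a5 a3
      rw [uIoc_of_le (by linarith)] at a3
      have hlt := lt_of_le_of_ne a3.2 a2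
      have hz : t ∉ Z := by
        rintro ⟨b1, b2⟩
        by_cases hc : c + 1 < t
        · exact a1 ⟨hc, hlt⟩ b1
        · have hc' : t < c + 1 := lt_of_le_of_ne (not_lt.1 hc) a5
          exact a4 ⟨by linarith [a3.1], by linarith⟩ b2
      rw [Set.indicator_of_notMem hz]
    rw [this]; simp
  rw [← s3, ← s2, ← s1, i1, i2, i3, i4]
  ring

end Pool.Agent.Helper764.Cv
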