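import Mathlib

set_option autoImplicit false
open MeasureTheory Filter Topology Set
open scoped ENNReal

namespace Pool.Agent.Helper764.EW

/-- Expectation of `f` under the binomial law with parameters `N`, `q`. -/
noncomputable def bin (N : ℕ) (q : ℝ) (f : ℕ → ℝ≥0∞) : ℝ≥0∞ :=
  ∑ k ∈ Finset.range (N + 1),
    ENNReal.ofReal ((N.choose k : ℝ) * q ^ k * (1 - q) ^ (N - k)) * f k

theorem bin_mono (N : ℕ) (q : ℝ) {f g : ℕ → ℝ≥0∞} (h : ∀ k ≤ N, f k ≤ g k) :
    bin N q f ≤ bin N q g := by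
  unfold bin
  refine Finset.sum_le_sum fun k hk => ?_
  have hk' : k ≤ N := Nat.lt_succ_iff.mp (Finset.mem_range.mp hk)
  gcongr
  exact h k hk'

theorem bin_add (N : ℕ) (q : ℝ) (f g : ℕ → ℝ≥0∞) :
    bin N q (fun k => f k + g k) = bin N q f + bin N q g := by
  unfold bin
  rw [← Finset.sum_add_distrib]
  exact Finset.sum_congr rfl fun k _ => mul_add _ _ _

theorem bin_const_mul (N : ℕ) (q : ℝ) (c : ℝ≥0∞) (f : ℕ → ℝ≥0∞) :
    bin N q (fun k => c * f k) = c * bin N q f := by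
  unfold bin
  rw [Finset.mul_sum]
  exact Finset.sum_congr rfl fun k _ => mul_left_comm _ _ _

theorem binw_nonneg (N k : ℕ) {q : ℝ} (h0 : 0 ≤ q) (h1 : q ≤ 1) :
    0 ≤ (N.choose k : ℝ) * q ^ k * (1 - q) ^ (N - k) := by
  have : 0 ≤ 1 - q := by linarith
  positivity

theorem binw_sum (N : ℕ) (q : ℝ) :
    ∑ k ∈ Finset.range (N + 1), (N.choose k : ℝ) * q ^ k * (1 - q) ^ (N - k) = 1 := by
  have h := (add_pow q (1 - q) N).symm
  rw [show q + (1 - q) = 1 by ring, one_pow] at h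
  exact Eq.trans (Finset.sum_congr rfl fun k _ => by ring) h

theorem bin_ofReal (N : ℕ) {q : ℝ} (h0 : 0 ≤ q) (h1 : q ≤ 1) (f : ℕ → ℝ)
    (hf : ∀ k ≤ N, 0 ≤ f k) :
    bin N q (fun k => ENNReal.ofReal (f k)) =
      ENNReal.ofReal (∑ k ∈ Finset.range (N + 1),
        (N.choose k : ℝ) * q ^ k * (1 - q) ^ (N - k) * f k) := by
  unfold bin
  rw [ENNReal.ofReal_sum_of_nonneg]
  · refine Finset.sum_congr rfl fun k _ => ?_
    rw [ENNReal.ofReal_mul (binw_nonneg N k h0 h1)]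
  · intro k hk
    exact mul_nonneg (binw_nonneg N k h0 h1) (hf k (Nat.lt_succ_iff.mp (Finset.mem_range.mp hk)))

theorem bin_one (N : ℕ) {q : ℝ} (hq : q ∈ Icc (0 : ℝ) 1) : bin N q (fun _ => 1) = 1 := by
  have h := bin_ofReal N hq.1 hq.2 (fun _ => 1) (fun _ _ => zero_le_one)
  simp only [ENNReal.ofReal_one, mul_one] at h
  rw [h, binw_sum, ENNReal.ofReal_one]

theorem bin_id (N : ℕ) {q : ℝ} (hq : q ∈ Icc (0 : ℝ) 1) :
    bin N q (fun k => (k : ℝ≥0∞)) = ENNReal.ofReal (q * N) := by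
  have h := bin_ofReal N hq.1 hq.2 (fun k => (k : ℝ)) (fun k _ => Nat.cast_nonneg k)
  simp only [ENNReal.ofReal_natCast] at h
  rw [h]
  congr 1
  cases N with
  | zero => simp
  | succ M =>
    rw [Finset.sum_range_succ']
    have e : ∀ k ∈ Finset.range (M + 1),
        ((M + 1).choose (k + 1) : ℝ) * q ^ (k + 1) * (1 - q) ^ (M + 1 - (k + 1)) * ((k + 1 : ℕ) : ℝ)
          = (q * ((M + 1 : ℕ) : ℝ)) * ((M.choose k : ℝ) * q ^ k * (1 - q) ^ (M - k)) := by
      intro k _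
      have h2 : ((M + 1 : ℕ) : ℝ) * (M.choose k : ℝ)
          = ((M + 1).choose (k + 1) : ℝ) * ((k + 1 : ℕ) : ℝ) := by
        exact_mod_cast Nat.add_one_mul_choose_eq M k
      rw [Nat.add_sub_add_right, pow_succ]
      calc _ = (((M + 1).choose (k + 1) : ℝ) * ((k + 1 : ℕ) : ℝ)) * (q ^ k * q * (1 - q) ^ (M - k)) := by
            ring
        _ = _ := by rw [← h2]; ring
    rw [Finset.sum_congr rfl e, ← Finset.mul_sum, binw_sum]
    simp

/-- `E 1/(X+1) ≤ 1/(q(N+1))`. -/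
theorem bin_inv_real (N : ℕ) {q : ℝ} (hq : q ∈ Ioc (0 : ℝ) 1) :
    ∑ k ∈ Finset.range (N + 1),
        (N.choose k : ℝ) * q ^ k * (1 - q) ^ (N - k) * (1 / ((k : ℝ) + 1)) ≤
      1 / (q * ((N : ℝ) + 1)) := by
  have hq0 : 0 < q := hq.1
  have e : ∀ k ∈ Finset.range (N + 1),
      (N.choose k : ℝ) * q ^ k * (1 - q) ^ (N - k) * (1 / ((k : ℝ) + 1))
        = (1 / (q * ((N : ℝ) + 1))) *
          (((N + 1).choose (k + 1) : ℝ) * q ^ (k + 1) * (1 - q) ^ (N + 1 - (k + 1))) := by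
    intro k _
    have h2 : ((N : ℝ) + 1) * (N.choose k : ℝ)
        = ((N + 1).choose (k + 1) : ℝ) * ((k : ℝ) + 1) := by
      exact_mod_cast Nat.add_one_mul_choose_eq N k
    have h3 : ((N + 1).choose (k + 1) : ℝ) = ((N : ℝ) + 1) * (N.choose k : ℝ) / ((k : ℝ) + 1) := by
      rw [h2]; field_simp
    rw [Nat.add_sub_add_right, pow_succ, h3]
    field_simp
  rw [Finset.sum_congr rfl e, ← Finset.mul_sum]
  have h1 := binw_sum (N + 1) q
  rw [Finset.sum_range_succ'] at h1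
  have h4 : 0 ≤ (((N + 1).choose 0 : ℕ) : ℝ) * q ^ 0 * (1 - q) ^ (N + 1 - 0) :=
    binw_nonneg (N + 1) 0 hq0.le hq.2
  have h5 : ∑ k ∈ Finset.range (N + 1),
      ((N + 1).choose (k + 1) : ℝ) * q ^ (k + 1) * (1 - q) ^ (N + 1 - (k + 1)) ≤ 1 := by
    linarith
  have h6 : 0 ≤ 1 / (q * ((N : ℝ) + 1)) := by positivity
  calc _ ≤ 1 / (q * ((N : ℝ) + 1)) * 1 := mul_le_mul_of_nonneg_left h5 h6
    _ = _ := mul_one _

/-- `E 1/(X+1) ≤ 1/(q(N+1))`. -/
theorem bin_inv (N : ℕ) {q : ℝ} (hq : q ∈ Ioc (0 : ℝ) 1) :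
    bin N q (fun k => ENNReal.ofReal (1 / ((k : ℝ) + 1))) ≤
      ENNReal.ofReal (1 / (q * ((N : ℝ) + 1))) := by
  rw [bin_ofReal N hq.1.le hq.2 (fun k => 1 / ((k : ℝ) + 1)) (fun k _ => by positivity)]
  exact ENNReal.ofReal_le_ofReal (bin_inv_real N hq)

/-- Jensen: `E (X+1)^(-a) ≤ (q(N+1))^(-a)` for `0 < a ≤ 1`. -/
theorem bin_rpow (N : ℕ) {q : ℝ} (hq : q ∈ Ioc (0 : ℝ) 1) {a : ℝ} (ha : 0 < a) (ha1 : a ≤ 1) :
    bin N q (fun k => ENNReal.ofReal (((k : ℝ) + 1) ^ (-a))) ≤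
      ENNReal.ofReal ((q * ((N : ℝ) + 1)) ^ (-a)) := by
  rw [bin_ofReal N hq.1.le hq.2 (fun k => ((k : ℝ) + 1) ^ (-a)) (fun k _ => by positivity)]
  apply ENNReal.ofReal_le_ofReal
  set S : ℝ := ∑ k ∈ Finset.range (N + 1),
    (N.choose k : ℝ) * q ^ k * (1 - q) ^ (N - k) * ((k : ℝ) + 1) ^ (-a) with hS
  have hS0 : 0 ≤ S := Finset.sum_nonneg fun k _ =>
    mul_nonneg (binw_nonneg N k hq.1.le hq.2) (by positivity)
  have hJ := Real.rpow_arith_mean_le_arith_mean_rpow (Finset.range (N + 1))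
    (fun k => (N.choose k : ℝ) * q ^ k * (1 - q) ^ (N - k)) (fun k => ((k : ℝ) + 1) ^ (-a))
    (fun k _ => binw_nonneg N k hq.1.le hq.2) (binw_sum N q) (fun k _ => by positivity)
    (p := 1 / a) (by rw [le_div_iff₀ ha]; linarith)
  have e : ∀ k ∈ Finset.range (N + 1),
      (N.choose k : ℝ) * q ^ k * (1 - q) ^ (N - k) * (((k : ℝ) + 1) ^ (-a)) ^ (1 / a) =
      (N.choose k : ℝ) * q ^ k * (1 - q) ^ (N - k) * (1 / ((k : ℝ) + 1)) := by
    intro k _
    have hk : (0 : ℝ) < (k : ℝ) + 1 := by positivity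
    rw [← Real.rpow_mul hk.le, show -a * (1 / a) = -1 by field_simp, Real.rpow_neg_one, one_div]
  rw [Finset.sum_congr rfl e] at hJ
  have h2 : S ^ (1 / a) ≤ 1 / (q * ((N : ℝ) + 1)) := hJ.trans (bin_inv_real N hq)
  have hpos : 0 < q * ((N : ℝ) + 1) := mul_pos hq.1 (by positivity)
  have h3 : (S ^ (1 / a)) ^ a ≤ (1 / (q * ((N : ℝ) + 1))) ^ a :=
    Real.rpow_le_rpow (Real.rpow_nonneg hS0 _) h2 ha.le
  rw [← Real.rpow_mul hS0, one_div_mul_cancel ha.ne', Real.rpow_one] at h3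
  rw [Real.rpow_neg hpos.le, ← Real.inv_rpow hpos.le, ← one_div]
  exact h3

/-- Symmetry `X ↦ N - X`. -/
theorem bin_symm (N : ℕ) (q : ℝ) (f : ℕ → ℝ≥0∞) :
    bin N (1 - q) (fun k => f (N - k)) = bin N q f := by
  unfold bin
  rw [← Finset.sum_flip (fun k => ENNReal.ofReal ((N.choose k : ℝ) * q ^ k * (1 - q) ^ (N - k)) * f k)]
  refine Finset.sum_congr rfl fun k hk => ?_
  have hk' : k ≤ N := Nat.lt_succ_iff.mp (Finset.mem_range.mp hk)
  rw [Nat.choose_symm hk', Nat.sub_sub_self hk', show 1 - (1 - q) = q by ring]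
  congr 2
  ring

theorem binw_exp (N : ℕ) (q s : ℝ) :
    ∑ k ∈ Finset.range (N + 1),
      (N.choose k : ℝ) * q ^ k * (1 - q) ^ (N - k) * Real.exp (s * ((k : ℝ) - q * N)) =
      (q * Real.exp (s * (1 - q)) + (1 - q) * Real.exp (-(s * q))) ^ N := by
  rw [add_pow]
  refine Finset.sum_congr rfl fun k hk => ?_
  have hk' : k ≤ N := Nat.lt_succ_iff.mp (Finset.mem_range.mp hk)
  rw [mul_pow, mul_pow, ← Real.exp_nat_mul, ← Real.exp_nat_mul]
  have : Real.exp (s * ((k : ℝ) - q * N)) =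
      Real.exp ((k : ℝ) * (s * (1 - q))) * Real.exp (((N - k : ℕ) : ℝ) * (-(s * q))) := by
    rw [← Real.exp_add]
    congr 1
    rw [Nat.cast_sub hk']
    ring
  rw [this]
  ring

theorem exp_le_quad {y : ℝ} (hy : |y| ≤ 1) : Real.exp y ≤ 1 + y + y ^ 2 := by
  have := Real.abs_exp_sub_one_sub_id_le hy
  have h2 := (abs_le.mp this).2
  linarith

theorem binw_exp_le (N : ℕ) (hN : 1 ≤ N) {q : ℝ} (h0 : 0 ≤ q) (h1 : q ≤ 1) {s : ℝ}
    (hs : s ^ 2 = 1 / N) :
    ∑ k ∈ Finset.range (N + 1),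
      (N.choose k : ℝ) * q ^ k * (1 - q) ^ (N - k) * Real.exp (s * ((k : ℝ) - q * N)) ≤
      Real.exp 1 := by
  rw [binw_exp]
  have hN' : (1 : ℝ) ≤ N := by exact_mod_cast hN
  have hNpos : (0 : ℝ) < N := by linarith
  have hs1 : s ^ 2 ≤ 1 := by
    rw [hs, div_le_one hNpos]; exact hN'
  have habs : |s| ≤ 1 := by
    rw [← Real.sqrt_sq_eq_abs]
    exact Real.sqrt_le_one.mpr hs1 |>.trans le_rfl
  have hq1 : 0 ≤ 1 - q := by linarith
  have ha : |s * (1 - q)| ≤ 1 := by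
    rw [abs_mul, abs_of_nonneg hq1]
    calc |s| * (1 - q) ≤ 1 * 1 := mul_le_mul habs (by linarith) hq1 zero_le_one
      _ = 1 := one_mul 1
  have hb : |-(s * q)| ≤ 1 := by
    rw [abs_neg, abs_mul, abs_of_nonneg h0]
    calc |s| * q ≤ 1 * 1 := mul_le_mul habs h1 h0 zero_le_one
      _ = 1 := one_mul 1
  have h2 := mul_le_mul_of_nonneg_left (exp_le_quad ha) h0
  have h3 := mul_le_mul_of_nonneg_left (exp_le_quad hb) hq1
  have h4 : q * Real.exp (s * (1 - q)) + (1 - q) * Real.exp (-(s * q)) ≤ 1 + s ^ 2 := by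
    have h5 : q * (1 + s * (1 - q) + (s * (1 - q)) ^ 2) + (1 - q) * (1 + -(s * q) + (-(s * q)) ^ 2)
        = 1 + s ^ 2 * (q * (1 - q)) := by ring
    have h6 : q * (1 - q) ≤ 1 := by nlinarith
    have h7 : s ^ 2 * (q * (1 - q)) ≤ s ^ 2 * 1 := mul_le_mul_of_nonneg_left h6 (sq_nonneg s)
    linarith
  have h5 : q * Real.exp (s * (1 - q)) + (1 - q) * Real.exp (-(s * q)) ≤ Real.exp (s ^ 2) := by
    have := Real.add_one_le_exp (s ^ 2)
    linarith
  have h6 : 0 ≤ q * Real.exp (s * (1 - q)) + (1 - q) * Real.exp (-(s * q)) := by positivity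
  calc _ ≤ (Real.exp (s ^ 2)) ^ N := pow_le_pow_left₀ h6 h5 N
    _ = Real.exp 1 := by
        rw [← Real.exp_nat_mul, hs]
        congr 1
        field_simp

theorem abs_rpow_le_exp {p : ℝ} (hp : 0 < p) (x : ℝ) :
    |x| ^ p ≤ (1 + (⌈p⌉₊.factorial : ℝ)) * (Real.exp x + Real.exp (-x)) := by
  set n := ⌈p⌉₊ with hn
  have h1 : |x| ^ p ≤ 1 + |x| ^ n := by
    rcases le_total (|x|) 1 with h | h
    · have : |x| ^ p ≤ 1 := Real.rpow_le_one (abs_nonneg x) h hp.le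
      have h2 : 0 ≤ |x| ^ n := by positivity
      linarith
    · have : |x| ^ p ≤ |x| ^ (n : ℝ) := Real.rpow_le_rpow_of_exponent_le h (Nat.le_ceil p)
      rw [Real.rpow_natCast] at this
      linarith
  have h2 : |x| ^ n ≤ n.factorial * Real.exp |x| := by
    have := Real.pow_div_factorial_le_exp |x| (abs_nonneg x) n
    rw [div_le_iff₀ (by positivity)] at this
    linarith
  have h3 : 1 ≤ Real.exp |x| := Real.one_le_exp (abs_nonneg x)
  have h4 : Real.exp |x| ≤ Real.exp x + Real.exp (-x) := by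
    rcases abs_cases x with ⟨h, _⟩ | ⟨h, _⟩
    · rw [h]; linarith [Real.exp_pos (-x)]
    · rw [h]; linarith [Real.exp_pos x]
  calc |x| ^ p ≤ 1 + |x| ^ n := h1
    _ ≤ Real.exp |x| + n.factorial * Real.exp |x| := by linarith
    _ = (1 + (n.factorial : ℝ)) * Real.exp |x| := by ring
    _ ≤ _ := mul_le_mul_of_nonneg_left h4 (by positivity)

/-- Central moments: `E |X/N - q|^p ≤ C N^(-p/2)`, uniformly in `q`. -/
theorem bin_moment (p : ℝ) (hp : 0 < p) :
    ∃ C : ℝ, 0 < C ∧ ∀ N : ℕ, 1 ≤ N → ∀ q ∈ Icc (0 : ℝ) 1,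
      bin N q (fun k => ENNReal.ofReal (|(k : ℝ) / N - q| ^ p)) ≤
        ENNReal.ofReal (C * (N : ℝ) ^ (-p / 2)) := by
  refine ⟨(1 + (⌈p⌉₊.factorial : ℝ)) * (2 * Real.exp 1), by positivity, fun N hN q hq => ?_⟩
  rw [bin_ofReal N hq.1 hq.2 (fun k => |(k : ℝ) / N - q| ^ p) (fun k _ => by positivity)]
  apply ENNReal.ofReal_le_ofReal
  have hN' : (1 : ℝ) ≤ N := by exact_mod_cast hN
  have hNpos : (0 : ℝ) < N := by linarith
  set s : ℝ := 1 / Real.sqrt N with hs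
  have hsq : 0 < Real.sqrt N := Real.sqrt_pos.mpr hNpos
  have hss : s ^ 2 = 1 / N := by
    rw [hs, div_pow, one_pow, Real.sq_sqrt hNpos.le]
  have hss' : (-s) ^ 2 = 1 / N := by rw [neg_sq]; exact hss
  have hE1 := binw_exp_le N hN hq.1 hq.2 hss
  have hE2 := binw_exp_le N hN hq.1 hq.2 hss'
  have key : ∀ k ∈ Finset.range (N + 1),
      (N.choose k : ℝ) * q ^ k * (1 - q) ^ (N - k) * |(k : ℝ) / N - q| ^ p ≤
      ((1 + (⌈p⌉₊.factorial : ℝ)) * (N : ℝ) ^ (-p / 2)) *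
        ((N.choose k : ℝ) * q ^ k * (1 - q) ^ (N - k) * Real.exp (s * ((k : ℝ) - q * N)) +
         (N.choose k : ℝ) * q ^ k * (1 - q) ^ (N - k) * Real.exp (-s * ((k : ℝ) - q * N))) := by
    intro k _
    have hw := binw_nonneg N k hq.1 hq.2
    have h1 := abs_rpow_le_exp hp (s * ((k : ℝ) - q * N))
    have h2 : |(k : ℝ) / N - q| = s * |s * ((k : ℝ) - q * N)| := by
      rw [abs_mul, abs_of_pos (by positivity : 0 < s), ← mul_assoc, ← sq, hss]
      rw [show (k : ℝ) / N - q = (1 / N) * ((k : ℝ) - q * N) by field_simp,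
        abs_mul, abs_of_pos (by positivity : (0 : ℝ) < 1 / N)]
    have h3 : |(k : ℝ) / N - q| ^ p = (N : ℝ) ^ (-p / 2) * |s * ((k : ℝ) - q * N)| ^ p := by
      rw [h2, Real.mul_rpow (by positivity) (abs_nonneg _)]
      congr 1
      rw [hs, Real.sqrt_eq_rpow, one_div, ← Real.rpow_neg hNpos.le, ← Real.rpow_mul hNpos.le]
      congr 1
      ring
    rw [h3]
    have h4 : -s * ((k : ℝ) - q * N) = -(s * ((k : ℝ) - q * N)) := by ring
    rw [h4]
    have h5 : 0 ≤ (N : ℝ) ^ (-p / 2) := by positivity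
    calc _ = ((N.choose k : ℝ) * q ^ k * (1 - q) ^ (N - k) * (N : ℝ) ^ (-p / 2)) *
            |s * ((k : ℝ) - q * N)| ^ p := by ring
      _ ≤ ((N.choose k : ℝ) * q ^ k * (1 - q) ^ (N - k) * (N : ℝ) ^ (-p / 2)) *
          ((1 + (⌈p⌉₊.factorial : ℝ)) * (Real.exp (s * ((k : ℝ) - q * N)) +
            Real.exp (-(s * ((k : ℝ) - q * N))))) :=
          mul_le_mul_of_nonneg_left h1 (mul_nonneg hw h5)
      _ = _ := by ring
  refine (Finset.sum_le_sum key).trans ?_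
  rw [← Finset.mul_sum, Finset.sum_add_distrib]
  have h5 : 0 ≤ (1 + (⌈p⌉₊.factorial : ℝ)) * (N : ℝ) ^ (-p / 2) := by positivity
  calc _ ≤ ((1 + (⌈p⌉₊.factorial : ℝ)) * (N : ℝ) ^ (-p / 2)) * (Real.exp 1 + Real.exp 1) :=
        mul_le_mul_of_nonneg_left (add_le_add hE1 hE2) h5
    _ = _ := by ring

theorem bin_succ (N : ℕ) {q : ℝ} (h0 : 0 ≤ q) (h1 : q ≤ 1) (f : ℕ → ℝ≥0∞) :
    bin (N + 1) q f = ENNReal.ofReal (1 - q) * bin N q f +
      ENNReal.ofReal q * bin N q (fun k => f (k + 1)) := by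
  have hq1 : 0 ≤ 1 - q := by linarith
  unfold bin
  have e1 : ∀ k ∈ Finset.range (N + 1),
      ENNReal.ofReal (((N + 1).choose (k + 1) : ℝ) * q ^ (k + 1) * (1 - q) ^ (N + 1 - (k + 1))) *
        f (k + 1) =
      ENNReal.ofReal q *
        (ENNReal.ofReal ((N.choose k : ℝ) * q ^ k * (1 - q) ^ (N - k)) * f (k + 1)) +
      ENNReal.ofReal ((N.choose (k + 1) : ℝ) * q ^ (k + 1) * (1 - q) ^ (N - k)) * f (k + 1) := by
    intro k _
    rw [← mul_assoc, ← ENNReal.ofReal_mul h0, ← add_mul, ← ENNReal.ofReal_add]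
    · congr 2
      rw [Nat.choose_succ_succ, Nat.add_sub_add_right]
      push_cast
      ring
    · exact mul_nonneg h0 (binw_nonneg N k h0 h1)
    · positivity
  rw [Finset.sum_range_succ', Finset.sum_congr rfl e1, Finset.sum_add_distrib, ← Finset.mul_sum]
  have e2 : ∑ k ∈ Finset.range (N + 1),
        ENNReal.ofReal ((N.choose (k + 1) : ℝ) * q ^ (k + 1) * (1 - q) ^ (N - k)) * f (k + 1) +
      ENNReal.ofReal (((N + 1).choose 0 : ℝ) * q ^ 0 * (1 - q) ^ (N + 1 - 0)) * f 0 =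
      ENNReal.ofReal (1 - q) * ∑ k ∈ Finset.range (N + 1),
        ENNReal.ofReal ((N.choose k : ℝ) * q ^ k * (1 - q) ^ (N - k)) * f k := by
    have e3 := Finset.sum_range_succ'
      (fun k => ENNReal.ofReal ((N.choose k : ℝ) * q ^ k * (1 - q) ^ (N + 1 - k)) * f k) (N + 1)
    have e4 := Finset.sum_range_succ
      (fun k => ENNReal.ofReal ((N.choose k : ℝ) * q ^ k * (1 - q) ^ (N + 1 - k)) * f k) (N + 1)
    simp only [Nat.add_sub_add_right] at e3
    simp only [Nat.choose_succ_self, Nat.cast_zero, zero_mul, ENNReal.ofReal_zero, add_zero] at e4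
    simp only [Nat.choose_zero_right] at e3 ⊢
    rw [← e3, e4, Finset.mul_sum]
    refine Finset.sum_congr rfl fun k hk => ?_
    have hk' : k ≤ N := Nat.lt_succ_iff.mp (Finset.mem_range.mp hk)
    rw [← mul_assoc, ← ENNReal.ofReal_mul hq1, Nat.succ_sub hk', pow_succ]
    congr 2
    ring
  rw [add_assoc, e2, add_comm]

/-- Labels: if `N` independent labels are drawn with law `q` on `ι`, the number of labels equal
to `k₀` is binomial. -/
theorem sum_labels {ι : Type} [Fintype ι] [DecidableEq ι] (q : ι → ℝ) (hq0 : ∀ k, 0 ≤ q k)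
    (hq1 : ∑ k, q k = 1) (N : ℕ) (k₀ : ι) (f : ℕ → ℝ≥0∞) :
    ∑ κ : Fin N → ι, ENNReal.ofReal (∏ i, q (κ i)) *
      f ((Finset.univ.filter fun i => κ i = k₀).card) = bin N (q k₀) f := by
  have hqk : q k₀ ≤ 1 := by
    rw [← hq1]; exact Finset.single_le_sum (fun k _ => hq0 k) (Finset.mem_univ k₀)
  induction N generalizing f with
  | zero => simp [bin]
  | succ N ih =>
    rw [bin_succ N (hq0 k₀) hqk]
    rw [← (Fin.consEquiv (fun _ : Fin (N + 1) => ι)).sum_comp, Fintype.sum_prod_type]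
    have hcard : ∀ (a : ι) (κ : Fin N → ι),
        (Finset.univ.filter fun i => (Fin.cons a κ : Fin (N + 1) → ι) i = k₀).card =
        (if a = k₀ then 1 else 0) + (Finset.univ.filter fun i => κ i = k₀).card := by
      intro a κ
      rw [Fin.card_filter_univ_succ]
      simp only [Fin.cons_zero, Fin.cons_succ]
      split_ifs <;> omega
    have hterm : ∀ a : ι, ∑ κ : Fin N → ι,
        ENNReal.ofReal (∏ i, q ((Fin.consEquiv (fun _ : Fin (N + 1) => ι)) (a, κ) i)) *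
          f ((Finset.univ.filter fun i =>
            (Fin.consEquiv (fun _ : Fin (N + 1) => ι)) (a, κ) i = k₀).card) =
        ENNReal.ofReal (q a) * bin N (q k₀) (fun k => f ((if a = k₀ then 1 else 0) + k)) := by
      intro a
      rw [← ih (fun k => f ((if a = k₀ then 1 else 0) + k)), Finset.mul_sum]
      refine Finset.sum_congr rfl fun κ _ => ?_
      simp only [Fin.consEquiv_apply]
      rw [hcard, Fin.prod_univ_succ, ENNReal.ofReal_mul (by simpa using hq0 _), mul_assoc]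
      simp
    rw [Finset.sum_congr rfl fun a _ => hterm a]
    rw [← Finset.add_sum_erase _ _ (Finset.mem_univ k₀), add_comm]
    congr 1
    · have : ∀ a ∈ Finset.univ.erase k₀,
          ENNReal.ofReal (q a) * bin N (q k₀) (fun k => f ((if a = k₀ then 1 else 0) + k)) =
          ENNReal.ofReal (q a) * bin N (q k₀) f := by
        intro a ha
        rw [if_neg (Finset.ne_of_mem_erase ha)]
        simp
      rw [Finset.sum_congr rfl this, ← Finset.sum_mul, ← ENNReal.ofReal_sum_of_nonneg (fun k _ => hq0 k)]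
      congr 2
      have := Finset.add_sum_erase Finset.univ q (Finset.mem_univ k₀)
      linarith
    · simp [add_comm]

end Pool.Agent.Helper764.EW
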