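import Pool.Agent.Helper764.EWTau

set_option autoImplicit false
open MeasureTheory Filter Topology Set
open scoped ENNReal

namespace Pool.Agent.Helper764.EW

lemma measurable_half {n : ℕ} (i : Fin n) (b : ℝ) : Measurable (half i b) := by
  unfold half
  exact measurable_update'.comp (measurable_id.prodMk (by fun_prop))

lemma measurable_tauAt {n : ℕ} (i : Fin n) (w : ℝ) : Measurable (tauAt i w) := by
  unfold tauAt
  exact measurable_update'.comp
    (measurable_id.prodMk ((measurable_tau w).comp (measurable_pi_apply i)))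

theorem G_crude {d n : ℕ} {p : ℝ} (hp : 1 ≤ p) (Ψ : (Fin n → ℝ) → E d) (hΨ : Measurable Ψ) (N : ℕ) :
    G p ((cube n).map Ψ) N ≤
      N * ∫⁻ z, ∫⁻ z', ENNReal.ofReal (‖Ψ z - Ψ z'‖ ^ p) ∂(cube n) ∂(cube n) := by
  rcases Nat.eq_zero_or_pos N with rfl | hN
  · simp [G_zero]
  have : NeZero N := ⟨hN.ne'⟩
  set ν := (cube n).map Ψ with hν
  have hνp : IsProbabilityMeasure ν := Measure.isProbabilityMeasure_map hΨ.aemeasurable
  set g : E d → ℝ≥0∞ := fun x => ∫⁻ y, ENNReal.ofReal (‖x - y‖ ^ p) ∂ν with hg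
  have hgm : Measurable g := Measurable.lintegral_prod_right' measurable_cost
  have h1 : ∀ x : Fin N → E d, Wpp p (emp x) ν ≤ (N : ℝ≥0∞)⁻¹ * ∑ i, g (x i) := by
    intro x
    refine (Wpp_prod (emp x) ν).trans (le_of_eq ?_)
    change ∫⁻ y, g y ∂(emp x) = _
    rw [emp, lintegral_smul_measure, lintegral_finsetSum_measure, Fintype.card_fin, smul_eq_mul]
    congr 1
    exact Finset.sum_congr rfl fun i _ => lintegral_dirac' _ hgm
  have h2 : ∫⁻ x, Wpp p (emp x) ν ∂(Measure.pi fun _ : Fin N => ν) ≤ ∫⁻ y, g y ∂ν := by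
    refine (lintegral_mono h1).trans (le_of_eq ?_)
    rw [lintegral_const_mul' _ _ (by simp [NeZero.ne N]),
      lintegral_finsetSum (f := fun (i : Fin N) (x : Fin N → E d) => g (x i)) _
        fun i _ => hgm.comp (measurable_pi_apply i)]
    have : ∀ i : Fin N, ∫⁻ x, g (x i) ∂(Measure.pi fun _ : Fin N => ν) = ∫⁻ y, g y ∂ν := by
      intro i
      exact (measurePreserving_eval (fun _ : Fin N => ν) i).lintegral_comp hgm
    simp only [this, Finset.sum_const, Finset.card_univ, Fintype.card_fin, nsmul_eq_mul]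
    rw [← mul_assoc, ENNReal.inv_mul_cancel (by simp [NeZero.ne N]) (by simp), one_mul]
  rw [G]
  gcongr
  refine h2.trans (le_of_eq ?_)
  rw [hν, lintegral_map hgm hΨ]
  refine lintegral_congr fun z => ?_
  rw [hg]
  simp only [hν]
  rw [lintegral_map (by fun_prop) hΨ]

/-- Binary splitting inequality. -/
theorem G_binary (p : ℝ) (hp : 1 ≤ p) : ∃ C₀ : ℝ, 0 < C₀ ∧ ∀ (d n : ℕ)
    (Ψ : (Fin n → ℝ) → E d), Measurable Ψ → ∀ (i : Fin n) (L : ℝ), 0 ≤ L →
    (∀ w ∈ Icc (0 : ℝ) 1, ∫⁻ z, ENNReal.ofReal (‖Ψ (tauAt i w z) - Ψ z‖ ^ p) ∂(cube n) ≤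
      ENNReal.ofReal (L * |w - 1 / 2| ^ p)) → ∀ (ε : ℝ), 0 < ε → ∀ N : ℕ,
    G p ((cube n).map Ψ) N ≤
      ENNReal.ofReal ((1 + ε) ^ (p - 1)) * bin N (1 / 2) (fun k =>
        G p ((cube n).map (Ψ ∘ half i 0)) k + G p ((cube n).map (Ψ ∘ half i 1)) k) +
      ENNReal.ofReal ((1 + 1 / ε) ^ (p - 1) * (C₀ * L * eta p N)) := by
  obtain ⟨C₀, hC₀, hmom⟩ := bin_moment p (by linarith)
  refine ⟨C₀, hC₀, fun d n Ψ hΨ i L hL hw ε hε N => ?_⟩
  rcases Nat.eq_zero_or_pos N with rfl | hN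
  · simp [G_zero]
  have hN0 : (N : ℝ) ≠ 0 := by positivity
  set ν : Bool → Measure (E d) := fun b => (cube n).map (Ψ ∘ half i (if b then 1 else 0)) with hν
  have hνp : ∀ b, IsProbabilityMeasure (ν b) := fun b =>
    Measure.isProbabilityMeasure_map (hΨ.comp (measurable_half i _)).aemeasurable
  have hρp : IsProbabilityMeasure ((cube n).map Ψ) :=
    Measure.isProbabilityMeasure_map hΨ.aemeasurable
  have hmm : ∀ b : ℝ, ((cube n).map (half i b)).map Ψ = (cube n).map (Ψ ∘ half i b) := fun b =>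
    Measure.map_map hΨ (measurable_half i b)
  have h2 : ENNReal.ofReal (1 / 2 : ℝ) = 2⁻¹ := by
    rw [one_div, ENNReal.ofReal_inv_of_pos (by norm_num), ENNReal.ofReal_ofNat]
  have hρ : (cube n).map Ψ = ∑ b, ENNReal.ofReal (1 / 2 : ℝ) • ν b := by
    conv_lhs => rw [cube_half i]
    rw [Measure.map_add _ _ hΨ, Measure.map_smul, Measure.map_smul, hmm, hmm, h2]
    simp [hν, add_comm]
  have hD : ∀ κ : Fin N → Bool, Wpp p (∑ b, ((cnt κ b : ℝ≥0∞) / N) • ν b) ((cube n).map Ψ) ≤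
      ENNReal.ofReal (L * |(cnt κ false : ℝ) / N - 1 / 2| ^ p) := by
    intro κ
    have hsum : cnt κ true + cnt κ false = N := by
      have := sum_cnt κ
      rwa [Fintype.sum_bool] at this
    set w : ℝ := (cnt κ false : ℝ) / N
    have hw0 : 0 ≤ w := by positivity
    have hw1 : w ≤ 1 := by
      rw [div_le_one (by positivity)]; exact_mod_cast by omega
    have e1 : ((cnt κ false : ℝ≥0∞) / N) = ENNReal.ofReal w := by
      rw [ENNReal.ofReal_div_of_pos (by positivity), ENNReal.ofReal_natCast, ENNReal.ofReal_natCast]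
    have e2 : ((cnt κ true : ℝ≥0∞) / N) = ENNReal.ofReal (1 - w) := by
      have : 1 - w = (cnt κ true : ℝ) / N := by
        simp only [w]
        have : (N : ℝ) = cnt κ true + cnt κ false := by exact_mod_cast hsum.symm
        rw [eq_div_iff hN0, sub_mul, div_mul_cancel₀ _ hN0]; linarith
      rw [this, ENNReal.ofReal_div_of_pos (by positivity), ENNReal.ofReal_natCast,
        ENNReal.ofReal_natCast]
    have e3 : (∑ b, ((cnt κ b : ℝ≥0∞) / N) • ν b) = (cube n).map (Ψ ∘ tauAt i w) := by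
      rw [← Measure.map_map hΨ (measurable_tauAt i w), cube_tau i ⟨hw0, hw1⟩,
        Measure.map_add _ _ hΨ, Measure.map_smul, Measure.map_smul, hmm, hmm, Fintype.sum_bool,
        e1, e2, add_comm]
      simp [hν]
    rw [e3]
    exact (Wpp_map_map _ (hΨ.comp (measurable_tauAt i w)) hΨ).trans (hw w ⟨hw0, hw1⟩)
  have hsp := G_split hp (fun _ => ENNReal.ofReal (1 / 2 : ℝ)) ν _ hρ N _ hD hε
  refine hsp.trans ?_
  have hprod : ∀ κ : Fin N → Bool, (∏ _i : Fin N, ENNReal.ofReal (1 / 2 : ℝ)) =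
      ENNReal.ofReal (∏ j, (fun _ : Bool => (1 / 2 : ℝ)) (κ j)) := by
    intro κ
    rw [ENNReal.ofReal_prod_of_nonneg (by intros; norm_num)]
  have hlab : ∀ (b : Bool) (f : ℕ → ℝ≥0∞),
      ∑ κ : Fin N → Bool, (∏ _i : Fin N, ENNReal.ofReal (1 / 2 : ℝ)) * f (cnt κ b) =
        bin N (1 / 2) f := by
    intro b f
    rw [← sum_labels (fun _ : Bool => (1 / 2 : ℝ)) (by intro; norm_num) (by simp) N b f]
    exact Finset.sum_congr rfl fun κ _ => by rw [hprod κ]; rfl
  refine add_le_add ?_ ?_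
  · gcongr
    simp only [Fintype.sum_bool, mul_add, Finset.sum_add_distrib]
    rw [hlab true, hlab false, bin_add, add_comm]
    simp [hν]
  · rw [ENNReal.ofReal_mul (by positivity)]
    gcongr
    rw [hlab false (fun k => N * ENNReal.ofReal (L * |(k : ℝ) / N - 1 / 2| ^ p))]
    have e1 : (fun k : ℕ => (N : ℝ≥0∞) * ENNReal.ofReal (L * |(k : ℝ) / N - 1 / 2| ^ p)) =
        fun k : ℕ => ((N : ℝ≥0∞) * ENNReal.ofReal L) * ENNReal.ofReal (|(k : ℝ) / N - 1 / 2| ^ p) := by
      funext k; rw [ENNReal.ofReal_mul hL, mul_assoc]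
    rw [e1, bin_const_mul]
    refine (mul_le_mul_right (hmom N hN (1/2) ⟨by norm_num, by norm_num⟩) _).trans ?_
    rw [show (N : ℝ≥0∞) = ENNReal.ofReal (N : ℝ) by simp, ← ENNReal.ofReal_mul (by positivity),
      ← ENNReal.ofReal_mul (by positivity)]
    apply ENNReal.ofReal_le_ofReal
    rw [eta, if_neg hN.ne', show (1 - p / 2 : ℝ) = 1 + (-p / 2) by ring,
      Real.rpow_add (by positivity), Real.rpow_one]
    apply le_of_eq; ring

end Pool.Agent.Helper764.EW
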