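import Pool.Agent.Helper764.EWDefs
set_option autoImplicit false
open MeasureTheory Filter Topology Set ProbabilityTheory
open scoped ENNReal
namespace Pool.Agent.Helper764.EW

/-- Gluing of two couplings along a common marginal. -/
lemma exists_glue {X Y Z : Type} [MeasurableSpace X] [MeasurableSpace Y] [MeasurableSpace Z]
    [StandardBorelSpace X] [StandardBorelSpace Z] [Nonempty X] [Nonempty Z]
    (π₁ : Measure (X × Y)) (π₂ : Measure (Y × Z)) [IsProbabilityMeasure π₁]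
    [IsProbabilityMeasure π₂] (h : π₁.map Prod.snd = π₂.map Prod.fst) :
    ∃ P : Measure (Y × (X × Z)), P.map (fun t => (t.2.1, t.1)) = π₁ ∧
      P.map (fun t => (t.1, t.2.2)) = π₂ := by
  set π₁' : Measure (Y × X) := π₁.map Prod.swap with hπ₁'
  have : IsProbabilityMeasure π₁' := Measure.isProbabilityMeasure_map measurable_swap.aemeasurable
  set κ₁ := π₁'.condKernel
  set κ₂ := π₂.condKernel
  have e1 : π₁'.fst ⊗ₘ κ₁ = π₁' := Measure.disintegrate _ _
  have e2 : π₂.fst ⊗ₘ κ₂ = π₂ := Measure.disintegrate _ _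
  have hf : π₁'.fst = π₂.fst := by
    rw [Measure.fst, Measure.fst, ← h, hπ₁', Measure.map_map measurable_fst measurable_swap]
    rfl
  have : IsProbabilityMeasure π₂.fst := Measure.isProbabilityMeasure_map measurable_fst.aemeasurable
  refine ⟨π₂.fst ⊗ₘ (κ₁ ×ₖ κ₂), ?_, ?_⟩
  · have : (fun t : Y × (X × Z) => (t.2.1, t.1)) = Prod.swap ∘ (Prod.map id Prod.fst) := rfl
    rw [this, ← Measure.map_map measurable_swap (measurable_id.prodMap measurable_fst),
      ← Measure.compProd_map measurable_fst, ← Kernel.fst_eq, Kernel.fst_prod, ← hf, e1, hπ₁',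
      Measure.map_map measurable_swap measurable_swap]
    simp
  · have : (fun t : Y × (X × Z) => (t.1, t.2.2)) = (Prod.map id Prod.snd) := rfl
    rw [this, ← Measure.compProd_map measurable_snd, ← Kernel.snd_eq, Kernel.snd_prod, e2]

lemma rpow_add_le {a b ε p : ℝ} (ha : 0 ≤ a) (hb : 0 ≤ b) (hε : 0 < ε) (hp : 1 ≤ p) :
    (a + b) ^ p ≤ (1 + ε) ^ (p - 1) * a ^ p + (1 + 1 / ε) ^ (p - 1) * b ^ p := by
  have h1 : 0 < 1 + ε := by linarith
  set s := 1 / (1 + ε)
  set t := ε / (1 + ε)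
  have hs : 0 < s := by positivity
  have ht : 0 < t := by positivity
  have hst : s + t = 1 := by simp only [s, t]; field_simp
  have hx : 0 ≤ a / s := by positivity
  have hy : 0 ≤ b / t := by positivity
  have hc := (convexOn_rpow hp).2 (Set.mem_Ici.2 hx) (Set.mem_Ici.2 hy) hs.le ht.le hst
  simp only [smul_eq_mul] at hc
  have e1 : s * (a / s) + t * (b / t) = a + b := by field_simp
  rw [e1] at hc
  refine hc.trans (le_of_eq ?_)
  rw [Real.div_rpow ha hs.le, Real.div_rpow hb ht.le]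
  have e2 : s * (a ^ p / s ^ p) = (1 + ε) ^ (p - 1) * a ^ p := by
    have : s ^ p = s * s ^ (p - 1) := by
      rw [Real.rpow_sub_one hs.ne']; field_simp
    rw [this]
    have h3 : (1 + ε) ^ (p - 1) = (s ^ (p - 1))⁻¹ := by
      rw [← Real.inv_rpow hs.le]; simp [s]
    rw [h3]
    have : s ^ (p - 1) ≠ 0 := (Real.rpow_pos_of_pos hs _).ne'
    field_simp
  have e3 : t * (b ^ p / t ^ p) = (1 + 1 / ε) ^ (p - 1) * b ^ p := by
    have : t ^ p = t * t ^ (p - 1) := by
      rw [Real.rpow_sub_one ht.ne']; field_simp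
    rw [this]
    have h3 : (1 + 1 / ε) ^ (p - 1) = (t ^ (p - 1))⁻¹ := by
      rw [← Real.inv_rpow ht.le]; congr 1; simp only [t]; field_simp; ring
    rw [h3]
    have : t ^ (p - 1) ≠ 0 := (Real.rpow_pos_of_pos ht _).ne'
    field_simp
  rw [e2, e3]

variable {d : ℕ} {p : ℝ}

lemma measurable_cost : Measurable fun z : E d × E d => ENNReal.ofReal (‖z.1 - z.2‖ ^ p) := by
  fun_prop

lemma cost_add_le (hp : 1 ≤ p) {ε : ℝ} (hε : 0 < ε) (a b c : E d) :
    ENNReal.ofReal (‖a - c‖ ^ p) ≤ ENNReal.ofReal ((1 + ε) ^ (p - 1)) * ENNReal.ofReal (‖a - b‖ ^ p)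
      + ENNReal.ofReal ((1 + 1 / ε) ^ (p - 1)) * ENNReal.ofReal (‖b - c‖ ^ p) := by
  rw [← ENNReal.ofReal_mul (by positivity), ← ENNReal.ofReal_mul (by positivity),
    ← ENNReal.ofReal_add (by positivity) (by positivity)]
  apply ENNReal.ofReal_le_ofReal
  refine le_trans ?_ (rpow_add_le (norm_nonneg _) (norm_nonneg _) hε hp)
  apply Real.rpow_le_rpow (norm_nonneg _) _ (by linarith)
  calc ‖a - c‖ = ‖(a - b) + (b - c)‖ := by congr 1; abel
    _ ≤ _ := norm_add_le _ _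

lemma coupling_prob {μ ν : Measure (E d)} [IsProbabilityMeasure μ] {π : Measure (E d × E d)}
    (h : π.map Prod.fst = μ ∧ π.map Prod.snd = ν) : IsProbabilityMeasure π := by
  constructor
  have : (π.map Prod.fst) univ = 1 := by rw [h.1]; simp
  rwa [Measure.map_apply measurable_fst MeasurableSet.univ, preimage_univ] at this

/-- Triangle inequality, linear form. -/
theorem Wpp_triangle (hp : 1 ≤ p) {ε : ℝ} (hε : 0 < ε) (μ ρ ν : Measure (E d))
    [IsProbabilityMeasure μ] [IsProbabilityMeasure ρ] :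
    Wpp p μ ν ≤ ENNReal.ofReal ((1 + ε) ^ (p - 1)) * Wpp p μ ρ +
      ENNReal.ofReal ((1 + 1 / ε) ^ (p - 1)) * Wpp p ρ ν := by
  set A := ENNReal.ofReal ((1 + ε) ^ (p - 1))
  set B := ENNReal.ofReal ((1 + 1 / ε) ^ (p - 1))
  have hA : A ≠ ⊤ := ENNReal.ofReal_ne_top
  have hB : B ≠ ⊤ := ENNReal.ofReal_ne_top
  have hA0 : A ≠ 0 := by
    simp only [A, ne_eq, ENNReal.ofReal_eq_zero, not_le]; positivity
  have hB0 : B ≠ 0 := by
    simp only [B, ne_eq, ENNReal.ofReal_eq_zero, not_le]; positivity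
  have key : ∀ π₁ : Measure (E d × E d), (π₁.map Prod.fst = μ ∧ π₁.map Prod.snd = ρ) →
      ∀ π₂ : Measure (E d × E d), (π₂.map Prod.fst = ρ ∧ π₂.map Prod.snd = ν) →
      Wpp p μ ν ≤ A * ∫⁻ z, ENNReal.ofReal (‖z.1 - z.2‖ ^ p) ∂π₁ +
        B * ∫⁻ z, ENNReal.ofReal (‖z.1 - z.2‖ ^ p) ∂π₂ := by
    intro π₁ h1 π₂ h2
    have := coupling_prob h1
    have := coupling_prob h2
    obtain ⟨P, hP1, hP2⟩ := exists_glue π₁ π₂ (by rw [h1.2, h2.1])
    have m1 : Measurable (fun t : E d × (E d × E d) => (t.2.1, t.1)) := by fun_prop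
    have m2 : Measurable (fun t : E d × (E d × E d) => (t.1, t.2.2)) := by fun_prop
    have hc : (P.map Prod.snd).map Prod.fst = μ ∧ (P.map Prod.snd).map Prod.snd = ν := by
      constructor
      · rw [← h1.1, ← hP1, Measure.map_map measurable_fst measurable_snd,
          Measure.map_map measurable_fst m1]; rfl
      · rw [← h2.2, ← hP2, Measure.map_map measurable_snd measurable_snd,
          Measure.map_map measurable_snd m2]; rfl
    refine (iInf₂_le (P.map Prod.snd) hc).trans ?_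
    rw [lintegral_map measurable_cost measurable_snd, ← hP1, ← hP2,
      lintegral_map measurable_cost m1, lintegral_map measurable_cost m2,
      ← lintegral_const_mul A (f := fun a : E d × E d × E d => ENNReal.ofReal (‖a.2.1 - a.1‖ ^ p))
        (by fun_prop),
      ← lintegral_const_mul B (f := fun a : E d × E d × E d => ENNReal.ofReal (‖a.1 - a.2.2‖ ^ p))
        (by fun_prop), ← lintegral_add_left (by fun_prop)]
    apply lintegral_mono
    intro t
    exact cost_add_le hp hε t.2.1 t.1 t.2.2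
  rw [show Wpp p μ ρ = ⨅ q : {π : Measure (E d × E d) // π.map Prod.fst = μ ∧ π.map Prod.snd = ρ},
      ∫⁻ z, ENNReal.ofReal (‖z.1 - z.2‖ ^ p) ∂q.1 from iInf_subtype',
    show Wpp p ρ ν = ⨅ q : {π : Measure (E d × E d) // π.map Prod.fst = ρ ∧ π.map Prod.snd = ν},
      ∫⁻ z, ENNReal.ofReal (‖z.1 - z.2‖ ^ p) ∂q.1 from iInf_subtype',
    ENNReal.mul_iInf_of_ne hA0 hA, ENNReal.mul_iInf_of_ne hB0 hB]
  exact ENNReal.le_iInf_add_iInf fun q₁ q₂ => key q₁.1 q₁.2 q₂.1 q₂.2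

lemma Wpp_le {μ ν : Measure (E d)} (π : Measure (E d × E d)) (h1 : π.map Prod.fst = μ)
    (h2 : π.map Prod.snd = ν) : Wpp p μ ν ≤ ∫⁻ z, ENNReal.ofReal (‖z.1 - z.2‖ ^ p) ∂π :=
  iInf₂_le π ⟨h1, h2⟩

theorem Wpp_map_map {Z : Type} [MeasurableSpace Z] (l : Measure Z) {f g : Z → E d}
    (hf : Measurable f) (hg : Measurable g) :
    Wpp p (l.map f) (l.map g) ≤ ∫⁻ z, ENNReal.ofReal (‖f z - g z‖ ^ p) ∂l := by
  refine (Wpp_le (l.map fun z => (f z, g z)) ?_ ?_).trans (le_of_eq ?_)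
  · rw [Measure.map_map measurable_fst (hf.prodMk hg)]; rfl
  · rw [Measure.map_map measurable_snd (hf.prodMk hg)]; rfl
  · rw [lintegral_map measurable_cost (hf.prodMk hg)]

theorem Wpp_prod (μ ν : Measure (E d)) [IsProbabilityMeasure μ] [IsProbabilityMeasure ν] :
    Wpp p μ ν ≤ ∫⁻ x, ∫⁻ y, ENNReal.ofReal (‖x - y‖ ^ p) ∂ν ∂μ := by
  refine (Wpp_le (μ.prod ν) ?_ ?_).trans (le_of_eq ?_)
  · exact Measure.fst_prod
  · exact Measure.snd_prod
  · rw [lintegral_prod _ measurable_cost.aemeasurable]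

lemma Wpp_add (μ₁ μ₂ ν₁ ν₂ : Measure (E d)) :
    Wpp p (μ₁ + μ₂) (ν₁ + ν₂) ≤ Wpp p μ₁ ν₁ + Wpp p μ₂ ν₂ := by
  rw [show Wpp p μ₁ ν₁ = ⨅ q : {π : Measure (E d × E d) // π.map Prod.fst = μ₁ ∧
      π.map Prod.snd = ν₁}, ∫⁻ z, ENNReal.ofReal (‖z.1 - z.2‖ ^ p) ∂q.1 from iInf_subtype',
    show Wpp p μ₂ ν₂ = ⨅ q : {π : Measure (E d × E d) // π.map Prod.fst = μ₂ ∧
      π.map Prod.snd = ν₂}, ∫⁻ z, ENNReal.ofReal (‖z.1 - z.2‖ ^ p) ∂q.1 from iInf_subtype']
  refine ENNReal.le_iInf_add_iInf fun q₁ q₂ => ?_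
  refine (Wpp_le (q₁.1 + q₂.1) ?_ ?_).trans (le_of_eq ?_)
  · rw [Measure.map_add _ _ measurable_fst, q₁.2.1, q₂.2.1]
  · rw [Measure.map_add _ _ measurable_snd, q₁.2.2, q₂.2.2]
  · rw [lintegral_add_measure]

lemma Wpp_zero : Wpp p (0 : Measure (E d)) 0 = 0 := by
  have := Wpp_le (d := d) (p := p) (μ := 0) (ν := 0) 0 (by simp) (by simp)
  simpa using this

lemma Wpp_smul (c : ℝ≥0∞) (hc : c ≠ ⊤) (μ ν : Measure (E d)) :
    Wpp p (c • μ) (c • ν) ≤ c * Wpp p μ ν := by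
  rcases eq_or_ne c 0 with rfl | h0
  · simp [Wpp_zero]
  rw [show Wpp p μ ν = ⨅ q : {π : Measure (E d × E d) // π.map Prod.fst = μ ∧
      π.map Prod.snd = ν}, ∫⁻ z, ENNReal.ofReal (‖z.1 - z.2‖ ^ p) ∂q.1 from iInf_subtype',
    ENNReal.mul_iInf_of_ne h0 hc]
  refine le_iInf fun q => ?_
  refine (Wpp_le (c • q.1) ?_ ?_).trans (le_of_eq ?_)
  · rw [Measure.map_smul, q.2.1]
  · rw [Measure.map_smul, q.2.2]
  · rw [lintegral_smul_measure]; rfl

theorem Wpp_sum {ι : Type} (s : Finset ι) (w : ι → ℝ≥0∞) (hw : ∀ k, w k ≠ ⊤)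
    (μ ν : ι → Measure (E d)) :
    Wpp p (∑ k ∈ s, w k • μ k) (∑ k ∈ s, w k • ν k) ≤ ∑ k ∈ s, w k * Wpp p (μ k) (ν k) := by
  classical
  induction s using Finset.induction_on with
  | empty => simp [Wpp_zero]
  | insert a s ha ih =>
    rw [Finset.sum_insert ha, Finset.sum_insert ha, Finset.sum_insert ha]
    exact (Wpp_add _ _ _ _).trans (add_le_add (Wpp_smul _ (hw a) _ _) ih)

instance emp_prob {I : Type} [Fintype I] [Nonempty I] (x : I → E d) :
    IsProbabilityMeasure (emp x) := by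
  constructor
  simp only [emp, Measure.smul_apply, Measure.finsetSum_apply, measure_univ, Finset.sum_const,
    Finset.card_univ, smul_eq_mul, nsmul_eq_mul, mul_one]
  exact ENNReal.inv_mul_cancel (by simp) (by simp)

lemma Wpp_emp_emp {I : Type} [Fintype I] [Nonempty I] (x y : I → E d) :
    Wpp p (emp x) (emp y) ≤ (Fintype.card I : ℝ≥0∞)⁻¹ * ∑ i, ENNReal.ofReal (‖x i - y i‖ ^ p) := by
  have hc : (Fintype.card I : ℝ≥0∞)⁻¹ ≠ ⊤ := by simp
  refine (Wpp_smul _ hc _ _).trans ?_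
  gcongr
  have := Wpp_sum (p := p) Finset.univ (fun _ : I => (1 : ℝ≥0∞)) (by simp)
    (fun i => Measure.dirac (x i)) (fun i => Measure.dirac (y i))
  simp only [one_smul, one_mul] at this
  refine this.trans ?_
  gcongr with i
  refine (Wpp_le (Measure.dirac (x i, y i)) ?_ ?_).trans (le_of_eq ?_)
  · exact Measure.map_dirac' measurable_fst _
  · exact Measure.map_dirac' measurable_snd _
  · rw [lintegral_dirac' _ measurable_cost]

theorem usc_Wpp_emp {I : Type} [Fintype I] [Nonempty I] (hp : 1 ≤ p) (ν : Measure (E d)) :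
    UpperSemicontinuous fun x : I → E d => Wpp p (emp x) ν := by
  intro x a hxa
  have hfin : Wpp p (emp x) ν ≠ ⊤ := (lt_of_lt_of_le hxa le_top).ne
  have hlim : ∀ᶠ ε : ℝ in 𝓝[>] 0, ENNReal.ofReal ((1 + ε) ^ (p - 1)) * Wpp p (emp x) ν < a := by
    have : Tendsto (fun ε : ℝ => ENNReal.ofReal ((1 + ε) ^ (p - 1)) * Wpp p (emp x) ν)
        (𝓝[>] 0) (𝓝 (ENNReal.ofReal ((1 + 0) ^ (p - 1)) * Wpp p (emp x) ν)) := by
      apply ENNReal.Tendsto.mul_const
      · apply ENNReal.tendsto_ofReal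
        have : ContinuousAt (fun ε : ℝ => (1 + ε) ^ (p - 1)) 0 := by
          apply ContinuousAt.rpow_const (by fun_prop)
          left; norm_num
        exact this.tendsto.mono_left nhdsWithin_le_nhds
      · right; exact hfin
    simp only [add_zero, Real.one_rpow, ENNReal.ofReal_one, one_mul] at this
    exact this.eventually_lt_const hxa
  obtain ⟨ε, hε, hε0⟩ := (hlim.and self_mem_nhdsWithin).exists
  replace hε0 : 0 < ε := hε0
  have hcont : Continuous fun y : I → E d => ENNReal.ofReal ((1 + ε) ^ (p - 1)) * Wpp p (emp x) ν +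
      ENNReal.ofReal ((1 + 1 / ε) ^ (p - 1)) * ((Fintype.card I : ℝ≥0∞)⁻¹ *
        ∑ i, ENNReal.ofReal (‖y i - x i‖ ^ p)) := by
    refine continuous_const.add ?_
    refine (ENNReal.continuous_const_mul ENNReal.ofReal_ne_top).comp ?_
    refine (ENNReal.continuous_const_mul (by simp)).comp ?_
    refine continuous_finsetSum _ fun i _ => ?_
    refine ENNReal.continuous_ofReal.comp ?_
    refine Continuous.rpow_const (by fun_prop) fun _ => Or.inr (by linarith)
  have hev : ∀ᶠ y in 𝓝 x, ENNReal.ofReal ((1 + ε) ^ (p - 1)) * Wpp p (emp x) ν +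
      ENNReal.ofReal ((1 + 1 / ε) ^ (p - 1)) * ((Fintype.card I : ℝ≥0∞)⁻¹ *
        ∑ i, ENNReal.ofReal (‖y i - x i‖ ^ p)) < a := by
    have := hcont.tendsto x
    have h0 : ENNReal.ofReal ((1 + ε) ^ (p - 1)) * Wpp p (emp x) ν +
      ENNReal.ofReal ((1 + 1 / ε) ^ (p - 1)) * ((Fintype.card I : ℝ≥0∞)⁻¹ *
        ∑ i, ENNReal.ofReal (‖x i - x i‖ ^ p)) = ENNReal.ofReal ((1 + ε) ^ (p - 1)) * Wpp p (emp x) ν := by
      simp [Real.zero_rpow (show p ≠ 0 by linarith)]
    rw [h0] at this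
    exact this.eventually_lt_const hε
  filter_upwards [hev] with y hy
  refine lt_of_le_of_lt ?_ hy
  have h := Wpp_triangle hp (ε := 1 / ε) (by positivity) (emp y) (emp x) ν
  rw [one_div_one_div, add_comm] at h
  refine h.trans ?_
  gcongr
  exact Wpp_emp_emp y x

theorem measurable_Wpp_emp {I : Type} [Fintype I] (hp : 1 ≤ p) (ν : Measure (E d)) :
    Measurable fun x : I → E d => Wpp p (emp x) ν := by
  cases isEmpty_or_nonempty I
  · exact Subsingleton.measurable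
  · exact (usc_Wpp_emp hp ν).measurable

end Pool.Agent.Helper764.EW
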