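import Pool.Agent.Helper764.EWSplit
import Pool.Agent.Helper764.EWBin

set_option autoImplicit false
open MeasureTheory Filter Topology Set
open scoped ENNReal

namespace Pool.Agent.Helper764.EW

/-- Uniform law on the open unit cube. -/
noncomputable def cube (n : ℕ) : Measure (Fin n → ℝ) :=
  Measure.pi fun _ : Fin n => (volume : Measure ℝ).restrict (Ioo 0 1)

/-- Points of the open unit cube. -/
def InCube {n : ℕ} (z : Fin n → ℝ) : Prop := ∀ i, z i ∈ Ioo (0 : ℝ) 1

/-- Piecewise linear map of `(0,1)` pushing the uniform law to the law with density `2w` on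
`(0,1/2)` and `2(1-w)` on `(1/2,1)`. -/
noncomputable def tau (w x : ℝ) : ℝ :=
  if x ≤ w then x / (2 * w) else 1 / 2 + (x - w) / (2 * (1 - w))

/-- The map `tau w` acting on coordinate `i`. -/
noncomputable def tauAt {n : ℕ} (i : Fin n) (w : ℝ) (z : Fin n → ℝ) : Fin n → ℝ :=
  Function.update z i (tau w (z i))

/-- Affine map onto the lower (`b = 0`) or upper (`b = 1`) half in coordinate `i`. -/
noncomputable def half {n : ℕ} (i : Fin n) (b : ℝ) (z : Fin n → ℝ) : Fin n → ℝ :=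
  Function.update z i ((z i + b) / 2)

/-- `N ↦ N^(1-p/2)`, and `0` at `0`. -/
noncomputable def eta (p : ℝ) (N : ℕ) : ℝ := if N = 0 then 0 else (N : ℝ) ^ (1 - p / 2)

/-- Lipschitz maps of the cube with constant `k i` in direction `i`. -/
def LipC {n d : ℕ} (k : Fin n → ℝ) (Ψ : (Fin n → ℝ) → E d) : Prop :=
  ∀ z z', InCube z → InCube z' → ‖Ψ z - Ψ z'‖ ≤ ∑ i, k i * |z i - z' i|

/-- Parametrisation of a column: coordinate `0` is the tail variable. -/
structure Good {m d : ℕ} (K : ℝ) (k : Fin m → ℝ) (Ψ : (Fin (m + 1) → ℝ) → E d) : Prop where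
  meas : Measurable Ψ
  V1 : ∀ z z', InCube z → InCube z' → z 0 = z' 0 →
    ‖Ψ z - Ψ z'‖ ≤ K * Real.sqrt (1 - Real.log (z 0)) * ∑ j : Fin m, k j * |z j.succ - z' j.succ|
  V2 : ∀ z z', InCube z → InCube z' → (∀ j : Fin m, z j.succ = z' j.succ) →
    ∀ l : ℕ, z 0 ≤ (2 : ℝ)⁻¹ ^ l → z' 0 ≤ (2 : ℝ)⁻¹ ^ l →
      ‖Ψ z - Ψ z'‖ ≤ K * (1 + (l : ℝ)) ^ (-(1 : ℝ) / 2) * |Real.log (z 0) - Real.log (z' 0)|

instance unif_prob : IsProbabilityMeasure ((volume : Measure ℝ).restrict (Ioo 0 1)) :=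
  ⟨by simp⟩

instance cube_prob (n : ℕ) : IsProbabilityMeasure (cube n) := by
  unfold cube; infer_instance

end Pool.Agent.Helper764.EW
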