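import Mathlib

set_option autoImplicit false
open MeasureTheory Filter Topology Set
open scoped ENNReal

namespace Pool.Agent.Helper764.EW

/-- Euclidean space `ℝ^d`. -/
abbrev E (d : ℕ) : Type := EuclideanSpace ℝ (Fin d)

/-- The standard Gaussian measure on `ℝ^d`. -/
noncomputable def gauss (d : ℕ) : Measure (E d) :=
  (volume : Measure (E d)).withDensity fun x =>
    ENNReal.ofReal ((2 * Real.pi) ^ (-(d : ℝ) / 2) * Real.exp (-‖x‖ ^ 2 / 2))

/-- The empirical measure of the points `x i`. -/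
noncomputable def emp {d : ℕ} {I : Type} [Fintype I] (x : I → E d) : Measure (E d) :=
  (Fintype.card I : ℝ≥0∞)⁻¹ • ∑ i, Measure.dirac (x i)

/-- `W_p^p(μ, ν)`: infimum over all couplings of the transport cost. -/
noncomputable def Wpp {d : ℕ} (p : ℝ) (μ ν : Measure (E d)) : ℝ≥0∞ :=
  ⨅ (π : Measure (E d × E d)) (_ : π.map Prod.fst = μ ∧ π.map Prod.snd = ν),
    ∫⁻ z, ENNReal.ofReal (‖z.1 - z.2‖ ^ p) ∂π

end Pool.Agent.Helper764.EW
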