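import Pool.Agent.Helper764.EWQuant

set_option autoImplicit false
open MeasureTheory Filter Topology Set
open scoped ENNReal

namespace Pool.Agent.Helper764.EW

namespace GaussK

noncomputable abbrev γ : Measure ℝ := ProbabilityTheory.gaussianReal 0 1

noncomputable def c0 : ℝ := (Real.sqrt (2 * Real.pi))⁻¹

theorem c0_pos : 0 < c0 := by unfold c0; positivity

noncomputable abbrev φ (x : ℝ) : ℝ := ProbabilityTheory.gaussianPDFReal 0 1 x

instance : NullSingletonClass γ := ProbabilityTheory.nullSingletonClass_gaussianReal (by norm_num)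

theorem tail_le {y : ℝ} (hy : 0 ≤ y) : c0 * γ.real (Ioi y) ≤ φ y := by
  have h1 : γ (Ioi y) ≤ ENNReal.ofReal (c0⁻¹ * φ y) := by
    rw [ProbabilityTheory.gaussianReal_apply 0 (by norm_num)]
    calc ∫⁻ x in Ioi y, ProbabilityTheory.gaussianPDF 0 1 x
        ≤ ∫⁻ x in Ioi y, ENNReal.ofReal (c0⁻¹ * φ y) * ProbabilityTheory.gaussianPDF y 1 x := by
          apply setLIntegral_mono
          · exact (ProbabilityTheory.measurable_gaussianPDF y 1).const_mul _
          · intro x hx
            have hx' : y < x := hx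
            rw [ProbabilityTheory.gaussianPDF, ProbabilityTheory.gaussianPDF, ← ENNReal.ofReal_mul (mul_nonneg (inv_nonneg.2 c0_pos.le) (ProbabilityTheory.gaussianPDFReal_nonneg _ _ _))]
            apply ENNReal.ofReal_le_ofReal
            simp only [φ, ProbabilityTheory.gaussianPDFReal, NNReal.coe_one, mul_one, sub_zero]
            have e1 : (Real.sqrt (2 * Real.pi))⁻¹ = c0 := rfl
            rw [e1]
            have : c0⁻¹ * (c0 * Real.exp (-y ^ 2 / 2)) * (c0 * Real.exp (-(x - y) ^ 2 / 2)) =
              c0 * Real.exp (-y ^ 2 / 2 + (-(x - y) ^ 2 / 2)) := by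
              rw [Real.exp_add]
              have := c0_pos.ne'
              field_simp
            rw [this]
            apply mul_le_mul_of_nonneg_left _ c0_pos.le
            apply Real.exp_le_exp.2
            nlinarith
      _ ≤ ∫⁻ x, ENNReal.ofReal (c0⁻¹ * φ y) * ProbabilityTheory.gaussianPDF y 1 x := setLIntegral_le_lintegral _ _
      _ = ENNReal.ofReal (c0⁻¹ * φ y) := by
          rw [lintegral_const_mul _ (ProbabilityTheory.measurable_gaussianPDF y 1),
            ProbabilityTheory.lintegral_gaussianPDF_eq_one _ (by norm_num), mul_one]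
  have h2 : γ.real (Ioi y) ≤ c0⁻¹ * φ y := by
    apply ENNReal.toReal_le_of_le_ofReal _ h1
    exact mul_nonneg (inv_nonneg.2 c0_pos.le) (ProbabilityTheory.gaussianPDFReal_nonneg _ _ _)
  calc c0 * γ.real (Ioi y) ≤ c0 * (c0⁻¹ * φ y) := by
        apply mul_le_mul_of_nonneg_left h2 c0_pos.le
    _ = φ y := by
      rw [← mul_assoc, mul_inv_cancel₀ c0_pos.ne', one_mul]

theorem gap_ge {x D : ℝ} (hx : 0 ≤ x) (hD : 0 ≤ D) : D * φ (x + D) ≤ γ.real (Ioc x (x + D)) := by
  have h1 : ENNReal.ofReal (D * φ (x + D)) ≤ γ (Ioc x (x + D)) := by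
    rw [ProbabilityTheory.gaussianReal_apply 0 (by norm_num)]
    calc ENNReal.ofReal (D * φ (x + D)) = ∫⁻ t in Ioc x (x + D), ENNReal.ofReal (φ (x + D)) := by
          rw [lintegral_const, Measure.restrict_apply_univ, Real.volume_Ioc, ENNReal.ofReal_mul hD, mul_comm]
          congr 2
          ring
      _ ≤ _ := by
          apply setLIntegral_mono (ProbabilityTheory.measurable_gaussianPDF 0 1)
          intro t ht
          rw [ProbabilityTheory.gaussianPDF]
          apply ENNReal.ofReal_le_ofReal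
          simp only [φ, ProbabilityTheory.gaussianPDFReal, NNReal.coe_one, mul_one, sub_zero]
          have e1 : (Real.sqrt (2 * Real.pi))⁻¹ = c0 := rfl
          rw [e1]
          apply mul_le_mul_of_nonneg_left _ c0_pos.le
          apply Real.exp_le_exp.2
          have := ht.1
          have := ht.2
          nlinarith
  rw [Measure.real]
  exact (ENNReal.ofReal_le_iff_le_toReal (measure_ne_top _ _)).1 h1

noncomputable def G (x : ℝ) : ℝ := γ.real (Ioi x)
noncomputable def F (x : ℝ) : ℝ := γ.real (Iic x)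

theorem F_add_G (x : ℝ) : F x + G x = 1 := by
  unfold F G
  have := measureReal_add_measureReal_compl (μ := γ) (measurableSet_Iic (a := x))
  rw [compl_Iic] at this
  simpa using this

theorem G_anti {x y : ℝ} (h : x ≤ y) : G y ≤ G x := measureReal_mono (Ioi_subset_Ioi h)
theorem F_mono {x y : ℝ} (h : x ≤ y) : F x ≤ F y := measureReal_mono (Iic_subset_Iic.2 h)

theorem G_pos (x : ℝ) : 0 < G x := by
  unfold G
  refine ENNReal.toReal_pos ?_ (measure_ne_top _ _)
  intro h
  have := ProbabilityTheory.gaussianReal_absolutelyContinuous' 0 (v := 1) (by norm_num) h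
  simp at this

theorem F_pos (x : ℝ) : 0 < F x := by
  unfold F
  refine ENNReal.toReal_pos ?_ (measure_ne_top _ _)
  intro h
  have := ProbabilityTheory.gaussianReal_absolutelyContinuous' 0 (v := 1) (by norm_num) h
  simp at this

theorem F_eq_G_neg (x : ℝ) : F x = G (-x) := by
  have h1 : γ.map (fun x => -x) = γ := by
    have := ProbabilityTheory.gaussianReal_map_neg (μ := 0) (v := 1)
    simpa using this
  have h2 : γ (Iic x) = γ (Ici (-x)) := by
    conv_lhs => rw [← h1]
    rw [Measure.map_apply measurable_neg measurableSet_Iic]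
    congr 1
    ext t
    simp only [mem_preimage, mem_Iic, mem_Ici]
    constructor <;> intro h <;> linarith
  have h3 : γ (Ici (-x)) = γ (Ioi (-x)) := (Ioi_ae_eq_Ici (μ := γ)).measure_eq.symm
  unfold F G Measure.real
  rw [h2, h3]

/-- key tail inequality -/
theorem G_key0 {x D : ℝ} (hx : 0 ≤ x) (hD : 0 ≤ D) : (1 + c0 * D) * G (x + D) ≤ G x := by
  have h1 := gap_ge hx hD
  have h2 := tail_le (y := x + D) (by linarith)
  have h3 : G x = γ.real (Ioc x (x + D)) + G (x + D) := by
    unfold G
    rw [← measureReal_union _ measurableSet_Ioi]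
    · rw [Ioc_union_Ioi_eq_Ioi (by linarith)]
    · rw [Set.disjoint_left]
      intro t ht ht2
      exact absurd ht.2 (not_le.2 ht2)
  have h4 : D * (c0 * G (x + D)) ≤ D * φ (x + D) := mul_le_mul_of_nonneg_left h2 hD
  rw [h3]
  nlinarith

theorem G_key {x u : ℝ} (hu : 0 ≤ u) (hx : 0 ≤ x + u) : (1 + c0 * u) * G (x + 2 * u) ≤ G x := by
  have hc := c0_pos
  by_cases h0 : 0 ≤ x
  · have h1 := G_key0 h0 (D := 2 * u) (by linarith)
    refine le_trans ?_ h1
    apply mul_le_mul_of_nonneg_right _ (G_pos _).le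
    nlinarith
  · push Not at h0
    have h1 := G_key0 (x := 0) (D := x + 2 * u) le_rfl (by linarith)
    rw [zero_add] at h1
    have h2 : G 0 ≤ G x := G_anti h0.le
    refine le_trans ?_ (h1.trans h2)
    apply mul_le_mul_of_nonneg_right _ (G_pos _).le
    nlinarith

theorem F_key {x u : ℝ} (hu : 0 ≤ u) (hx : x + u ≤ 0) : (1 + c0 * u) * F x ≤ F (x + u) := by
  have h := G_key0 (x := -(x + u)) (D := u) (by linarith) hu
  have e : -(x + u) + u = -x := by ring
  rw [e, ← F_eq_G_neg, ← F_eq_G_neg] at h
  exact h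

/-- one dimensional estimate -/
theorem one_dim (k : ℝ → ℝ≥0∞) (h1 : ∫⁻ t, k t ∂γ = 1) (e : ℝ) (he : 0 ≤ e) (he2 : e ≤ 1/2)
    (hk1 : ∀ t, ENNReal.ofReal (1 - e) ≤ k t) (hk2 : ∀ t, k t ≤ ENNReal.ofReal (1 + e))
    (x T : ℝ) (hT : ∀ t, (T ≤ t ↔ γ (Iic x) ≤ ∫⁻ τ in Iic t, k τ ∂γ)) :
    |T - x| ≤ 8 * e / c0 := by
  have hc := c0_pos
  set H : ℝ → ℝ := fun t => (∫⁻ τ in Iic t, k τ ∂γ).toReal with hH
  set L : ℝ → ℝ := fun t => (∫⁻ τ in Ioi t, k τ ∂γ).toReal with hL
  have hfin : ∀ s : Set ℝ, ∫⁻ τ in s, k τ ∂γ ≠ ⊤ := by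
    intro s
    have : ∫⁻ τ in s, k τ ∂γ ≤ 1 := by rw [← h1]; exact setLIntegral_le_lintegral _ _
    exact ne_top_of_le_ne_top ENNReal.one_ne_top this
  have hHL : ∀ t, H t + L t = 1 := by
    intro t
    rw [hH, hL]
    simp only
    rw [← ENNReal.toReal_add (hfin _) (hfin _), ← compl_Iic, lintegral_add_compl _ measurableSet_Iic, h1]
    simp
  have hup : ∀ s : Set ℝ, (∫⁻ τ in s, k τ ∂γ).toReal ≤ (1 + e) * γ.real s := by
    intro s
    have : ∫⁻ τ in s, k τ ∂γ ≤ ENNReal.ofReal (1 + e) * γ s := by
      calc ∫⁻ τ in s, k τ ∂γ ≤ ∫⁻ τ in s, ENNReal.ofReal (1 + e) ∂γ := lintegral_mono fun t => hk2 t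
        _ = _ := by rw [lintegral_const, Measure.restrict_apply_univ]
    have h2 := ENNReal.toReal_mono (ENNReal.mul_ne_top ENNReal.ofReal_ne_top (measure_ne_top _ _)) this
    rw [ENNReal.toReal_mul, ENNReal.toReal_ofReal (by linarith)] at h2
    exact h2
  have hlo : ∀ s : Set ℝ, (1 - e) * γ.real s ≤ (∫⁻ τ in s, k τ ∂γ).toReal := by
    intro s
    have : ENNReal.ofReal (1 - e) * γ s ≤ ∫⁻ τ in s, k τ ∂γ := by
      calc ENNReal.ofReal (1 - e) * γ s = ∫⁻ τ in s, ENNReal.ofReal (1 - e) ∂γ := by
            rw [lintegral_const, Measure.restrict_apply_univ]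
        _ ≤ _ := lintegral_mono fun t => hk1 t
    have h2 := ENNReal.toReal_mono (hfin s) this
    rw [ENNReal.toReal_mul, ENNReal.toReal_ofReal (by linarith)] at h2
    exact h2
  have hT' : ∀ t, (T ≤ t ↔ F x ≤ H t) := by
    intro t
    rw [hT t]
    unfold F Measure.real
    exact (ENNReal.toReal_le_toReal (measure_ne_top _ _) (hfin _)).symm
  rw [abs_le]
  constructor
  · -- lower bound
    by_contra hcon
    push Not at hcon
    -- T < x - D
    have h0 : T ≤ T := le_rfl
    rw [hT'] at h0
    obtain ⟨u, hu⟩ : ∃ u, u = (x - T) / 2 := ⟨_, rfl⟩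
    have hxT : x = T + 2 * u := by rw [hu]; ring
    have hcu : 4 * e < c0 * u := by
      have : 8 * e / c0 < x - T := by linarith
      rw [div_lt_iff₀ hc] at this
      rw [hu]; nlinarith
    have hu0 : 0 < u := by
      by_contra h
      push Not at h
      nlinarith
    by_cases hm : 0 ≤ T + u
    · have h2 := G_key hu0.le hm
      rw [← hxT] at h2
      have h3 := hlo (Ioi T)
      have h4 := hHL T
      have h5 := F_add_G x
      have h6 := G_pos x
      have h7 : (1 - e) * G T ≤ L T := h3
      have h8 : (1 - e) * ((1 + c0 * u) * G x) ≤ (1 - e) * G T := mul_le_mul_of_nonneg_left h2 (by linarith)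
      have h9 : 1 < (1 - e) * (1 + c0 * u) := by nlinarith
      have h10 : G x < (1 - e) * (1 + c0 * u) * G x := by nlinarith
      nlinarith
    · push Not at hm
      have h2 := F_key hu0.le hm.le
      have h3 : F (T + u) ≤ F x := F_mono (by linarith)
      have h4 : H T ≤ (1 + e) * F T := hup (Iic T)
      have h5 := F_pos T
      have h6 : (1 + e) * F T < (1 + c0 * u) * F T := by
        apply mul_lt_mul_of_pos_right _ h5
        linarith
      linarith
  · -- upper bound
    have : T ≤ x + 8 * e / c0 := by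
      rw [hT']
      obtain ⟨u, hu⟩ : ∃ u, u = 4 * e / c0 := ⟨_, rfl⟩
      have hu0 : 0 ≤ u := by rw [hu]; positivity
      have hcu : c0 * u = 4 * e := by rw [hu]; field_simp
      have hx2 : x + 8 * e / c0 = x + 2 * u := by rw [hu]; ring
      rw [hx2]
      by_cases hm : 0 ≤ x + u
      · have h2 := G_key hu0 hm
        have h3 : L (x + 2 * u) ≤ (1 + e) * G (x + 2 * u) := hup (Ioi (x + 2 * u))
        have h4 := hHL (x + 2 * u)
        have h5 := F_add_G x
        have h6 := G_pos (x + 2 * u)
        rw [hcu] at h2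
        nlinarith
      · push Not at hm
        have h2 := F_key hu0 hm.le
        have h3 : F (x + u) ≤ F (x + 2 * u) := F_mono (by linarith)
        have h4 : (1 - e) * F (x + 2 * u) ≤ H (x + 2 * u) := hlo (Iic (x + 2 * u))
        have h5 := F_pos x
        rw [hcu] at h2
        have h6 : (1 - e) * ((1 + 4 * e) * F x) ≤ (1 - e) * F (x + 2 * u) := mul_le_mul_of_nonneg_left (h2.trans h3) (by linarith)
        have h7 : F x ≤ (1 - e) * ((1 + 4 * e) * F x) := by
          have : 1 ≤ (1 - e) * (1 + 4 * e) := by nlinarith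
          nlinarith
        linarith
    linarith

end GaussK

open GaussK in
/-- Target. A density `h` close to `1` w.r.t. the Gaussian measure on `ℝ^d` is realised by a map
moving every point by `O(ε)`. -/
theorem gaussK (d : ℕ) : ∃ C : ℝ, 0 < C ∧ ∀ ε : ℝ, 0 ≤ ε → ε ≤ 1 / 8 →
    ∀ h : (Fin d → ℝ) → ℝ, Measurable h → (∀ x, |h x - 1| ≤ ε) →
      (∫⁻ x, ENNReal.ofReal (h x)
        ∂(Measure.pi fun _ : Fin d => ProbabilityTheory.gaussianReal 0 1) = 1) →
      ∃ T : (Fin d → ℝ) → (Fin d → ℝ), Measurable T ∧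
        (Measure.pi fun _ : Fin d => ProbabilityTheory.gaussianReal 0 1).map T =
          (Measure.pi fun _ : Fin d => ProbabilityTheory.gaussianReal 0 1).withDensity
            (fun x => ENNReal.ofReal (h x)) ∧
        ∀ x i, |T x i - x i| ≤ C * ε := by
  induction d with
  | zero =>
    refine ⟨1, one_pos, fun ε hε hε2 h hm hh hi => ⟨id, measurable_id, ?_, fun x i => i.elim0⟩⟩
    rw [Measure.map_id]
    have h0 : ∀ x : Fin 0 → ℝ, ENNReal.ofReal (h x) = 1 := by
      intro x
      have e1 : ∀ y : Fin 0 → ℝ, h y = h x := fun y => by rw [Subsingleton.elim y x]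
      simp only [e1] at hi
      rw [lintegral_const] at hi
      simpa using hi
    simp only [h0]
    exact (withDensity_one).symm
  | succ d ih =>
    obtain ⟨C, hC, IH⟩ := ih
    have hc := c0_pos
    refine ⟨max C (32 / c0), lt_max_of_lt_left hC, fun ε hε hε2 h hm hh hi => ?_⟩
    set πd : Measure (Fin d → ℝ) := Measure.pi fun _ : Fin d => ProbabilityTheory.gaussianReal 0 1 with hπd
    set πs : Measure (Fin (d + 1) → ℝ) := Measure.pi fun _ : Fin (d + 1) => ProbabilityTheory.gaussianReal 0 1 with hπs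
    let e : (Fin (d + 1) → ℝ) ≃ᵐ (Fin d → ℝ) × ℝ :=
      (MeasurableEquiv.piFinSuccAbove (fun _ : Fin (d + 1) => ℝ) 0).trans MeasurableEquiv.prodComm
    have he : MeasurePreserving e πs (πd.prod γ) := by
      have m1 := measurePreserving_piFinSuccAbove (fun _ : Fin (d + 1) => ProbabilityTheory.gaussianReal 0 1) 0
      have m2 : MeasurePreserving (MeasurableEquiv.prodComm : ℝ × (Fin d → ℝ) ≃ᵐ (Fin d → ℝ) × ℝ) (γ.prod πd) (πd.prod γ) :=
        Measure.measurePreserving_swap
      exact m2.comp m1
    have he' : MeasurePreserving e.symm (πd.prod γ) πs := he.symm e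
    -- coordinates of e
    have e0 : ∀ x, (e x).2 = x 0 := fun x => rfl
    have e1 : ∀ x (i : Fin d), (e x).1 i = x i.succ := fun x i => rfl
    set g : (Fin d → ℝ) × ℝ → ℝ≥0∞ := fun z => ENNReal.ofReal (h (e.symm z)) with hg
    have hgm : Measurable g := (hm.comp e.symm.measurable).ennreal_ofReal
    have hgint : ∫⁻ z, g z ∂(πd.prod γ) = 1 := by
      rw [← hi, ← he'.lintegral_comp hm.ennreal_ofReal]
    set g1 : (Fin d → ℝ) → ℝ≥0∞ := fun x => ∫⁻ y, g (x, y) ∂γ with hg1
    have hglo : ∀ z, ENNReal.ofReal (1 - ε) ≤ g z := fun z => ENNReal.ofReal_le_ofReal (by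
      have := abs_le.1 (hh (e.symm z)); linarith [this.1])
    have hgup : ∀ z, g z ≤ ENNReal.ofReal (1 + ε) := fun z => ENNReal.ofReal_le_ofReal (by
      have := abs_le.1 (hh (e.symm z)); linarith [this.2])
    have hg1lo : ∀ x, ENNReal.ofReal (1 - ε) ≤ g1 x := by
      intro x
      calc ENNReal.ofReal (1 - ε) = ∫⁻ y, ENNReal.ofReal (1 - ε) ∂γ := by simp
        _ ≤ _ := lintegral_mono fun y => hglo _
    have hg1up : ∀ x, g1 x ≤ ENNReal.ofReal (1 + ε) := by
      intro x
      calc g1 x ≤ ∫⁻ y, ENNReal.ofReal (1 + ε) ∂γ := lintegral_mono fun y => hgup _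
        _ = _ := by simp
    have hg1m : Measurable g1 := hgm.lintegral_prod_right'
    have hg1top : ∀ x, g1 x ≠ ⊤ := fun x => ne_top_of_le_ne_top ENNReal.ofReal_ne_top (hg1up x)
    have hg10 : ∀ x, g1 x ≠ 0 := fun x h0 => by
      have := hg1lo x
      rw [h0] at this
      simp at this
      linarith
    set h1 : (Fin d → ℝ) → ℝ := fun x => (g1 x).toReal with hh1
    have hh1lo : ∀ x, 1 - ε ≤ h1 x := fun x => (ENNReal.ofReal_le_iff_le_toReal (hg1top x)).1 (hg1lo x)
    have hh1up : ∀ x, h1 x ≤ 1 + ε := fun x => ENNReal.toReal_le_of_le_ofReal (by linarith) (hg1up x)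
    have hh1eq : ∀ x, ENNReal.ofReal (h1 x) = g1 x := fun x => ENNReal.ofReal_toReal (hg1top x)
    obtain ⟨T1, hT1m, hT1, hT1d⟩ := IH ε hε hε2 h1 hg1m.ennreal_toReal
      (fun x => by rw [abs_le]; constructor <;> linarith [hh1lo x, hh1up x])
      (by
        simp only [hh1eq]
        rw [← hgint, lintegral_prod _ hgm.aemeasurable])
    simp only [hh1eq] at hT1
    -- second map
    obtain ⟨T2, hT2m, hT2, hT2q⟩ := quantile_param (P := Fin d → ℝ) γ (fun x y => g (x, y) / g1 x)
      (by exact hgm.div (hg1m.comp measurable_fst))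
      (by
        intro x
        simp only [ENNReal.div_eq_inv_mul]
        rw [lintegral_const_mul _ (by fun_prop)]
        exact ENNReal.inv_mul_cancel (hg10 x) (hg1top x))
    have key := triangular πd γ g hgm g1 (fun x => rfl) hg10 hg1top T1 hT1m hT1 T2 hT2m hT2
    set Φ : (Fin d → ℝ) × ℝ → (Fin d → ℝ) × ℝ := fun z => (T1 z.1, T2 (T1 z.1) z.2) with hΦ
    have hΦm : Measurable Φ := by
      apply (hT1m.comp measurable_fst).prodMk
      exact hT2m.comp ((hT1m.comp measurable_fst).prodMk measurable_snd)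
    refine ⟨fun x => e.symm (Φ (e x)), e.symm.measurable.comp (hΦm.comp e.measurable), ?_, ?_⟩
    · have : πs.map (fun x => e.symm (Φ (e x))) = (((πs.map e).map Φ).map e.symm) := by
        rw [Measure.map_map hΦm e.measurable, Measure.map_map e.symm.measurable (hΦm.comp e.measurable)]
        rfl
      rw [this, he.map_eq, key]
      ext s hs
      rw [Measure.map_apply e.symm.measurable hs, withDensity_apply _ (e.symm.measurable hs), withDensity_apply _ hs]
      rw [← he'.setLIntegral_comp_preimage hs hm.ennreal_ofReal]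
    · intro x i
      have key2 : ∀ s y, |T2 s y - y| ≤ 32 / c0 * ε := by
        intro s y
        have ha : 0 < γ (Iic y) := by
          rw [pos_iff_ne_zero]
          intro h0
          have := F_pos y
          unfold F Measure.real at this
          rw [h0] at this
          simp at this
        have hb : γ (Iic y) < 1 := by
          have h1 := F_add_G y
          have h2 := G_pos y
          have h3 : F y < 1 := by linarith
          unfold F Measure.real at h3
          rw [← ENNReal.toReal_one] at h3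
          exact (ENNReal.toReal_lt_toReal (measure_ne_top _ _) ENNReal.one_ne_top).1 h3
        have hd : (1 - ε) / (1 + ε) ≥ 1 - 4 * ε := by
          rw [ge_iff_le, le_div_iff₀ (by linarith)]
          nlinarith
        have hd2 : (1 + ε) / (1 - ε) ≤ 1 + 4 * ε := by
          rw [div_le_iff₀ (by linarith)]
          nlinarith
        have := one_dim (fun y => g (s, y) / g1 s)
          (by
            simp only [ENNReal.div_eq_inv_mul]
            rw [lintegral_const_mul _ (by fun_prop)]
            exact ENNReal.inv_mul_cancel (hg10 s) (hg1top s)) (4 * ε) (by linarith) (by linarith)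
          (by
            intro t
            calc ENNReal.ofReal (1 - 4 * ε) ≤ ENNReal.ofReal ((1 - ε) / (1 + ε)) := ENNReal.ofReal_le_ofReal hd
              _ = ENNReal.ofReal (1 - ε) / ENNReal.ofReal (1 + ε) := ENNReal.ofReal_div_of_pos (by linarith)
              _ ≤ _ := ENNReal.div_le_div (hglo _) (hg1up _))
          (by
            intro t
            calc g (s, t) / g1 s ≤ ENNReal.ofReal (1 + ε) / ENNReal.ofReal (1 - ε) := ENNReal.div_le_div (hgup _) (hg1lo _)
              _ = ENNReal.ofReal ((1 + ε) / (1 - ε)) := (ENNReal.ofReal_div_of_pos (by linarith)).symm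
              _ ≤ _ := ENNReal.ofReal_le_ofReal hd2)
          y (T2 s y) (fun t => hT2q s y ha hb t)
        calc |T2 s y - y| ≤ _ := this
          _ = 32 / c0 * ε := by ring
      have hmax1 : C * ε ≤ max C (32 / c0) * ε := mul_le_mul_of_nonneg_right (le_max_left _ _) hε
      have hmax2 : 32 / c0 * ε ≤ max C (32 / c0) * ε := mul_le_mul_of_nonneg_right (le_max_right _ _) hε
      refine Fin.cases ?_ (fun j => ?_) i
      · have h1 : (e.symm (Φ (e x))) 0 = T2 (T1 (e x).1) (x 0) := by
          have h3 := e0 (e.symm (Φ (e x)))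
          rw [e.apply_symm_apply] at h3
          exact h3.symm
        simp only [h1]
        exact (key2 _ _).trans hmax2
      · have h1 : (e.symm (Φ (e x))) j.succ = T1 (e x).1 j := by
          have h3 := e1 (e.symm (Φ (e x))) j
          rw [e.apply_symm_apply] at h3
          exact h3.symm
        simp only [h1]
        have h2 := hT1d (e x).1 j
        rw [e1] at h2
        exact h2.trans hmax1

end Pool.Agent.Helper764.EW
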