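import Mathlib

set_option autoImplicit false
open MeasureTheory Filter Topology Set
open scoped ENNReal

namespace Pool.Agent.Helper764.EW

namespace Quant

theorem quantile_le_iff (c : StieltjesFunction ℝ) (h0 : Tendsto c atBot (𝓝 0))
    (h1 : Tendsto c atTop (𝓝 1)) (u : ℝ) (hu0 : 0 < u) (hu1 : u < 1) (t : ℝ) :
    sInf {t | u ≤ c t} ≤ t ↔ u ≤ c t := by
  have hne : {t | u ≤ c t}.Nonempty := by
    obtain ⟨t, ht⟩ := (h1.eventually (lt_mem_nhds hu1)).exists
    exact ⟨t, le_of_lt ht⟩
  have hbdd : BddBelow {t | u ≤ c t} := by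
    obtain ⟨a, ha⟩ := Filter.eventually_atBot.1 (h0.eventually (gt_mem_nhds hu0))
    refine ⟨a, fun t ht => ?_⟩
    by_contra h
    rw [not_le] at h
    exact absurd (ha t h.le) (not_lt.2 ht)
  constructor
  · intro h
    have hq : u ≤ c (sInf {t | u ≤ c t}) := by
      have hrc : Tendsto c (𝓝[>] (sInf {t | u ≤ c t})) (𝓝 (c (sInf {t | u ≤ c t}))) :=
        (c.right_continuous (sInf {t | u ≤ c t})).mono_left (nhdsWithin_mono _ Ioi_subset_Ici_self)
      refine ge_of_tendsto hrc ?_
      filter_upwards [self_mem_nhdsWithin] with x hx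
      obtain ⟨t', ht', hlt⟩ := exists_lt_of_csInf_lt hne hx
      exact le_trans ht' (c.mono hlt.le)
    exact hq.trans (c.mono h)
  · intro h
    exact csInf_le hbdd h

/-- probability integral transform -/
theorem pit (α : Measure ℝ) [IsProbabilityMeasure α] [NullSingletonClass α] (v : ℝ) (hv0 : 0 ≤ v)
    (hv1 : v ≤ 1) : α {x | ProbabilityTheory.cdf α x ≤ v} = ENNReal.ofReal v := by
  set c := ProbabilityTheory.cdf α with hc
  rcases eq_or_lt_of_le hv1 with h1 | h1
  · have : {x | c x ≤ v} = univ := by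
      ext x
      simp only [mem_ofPred_eq, mem_univ, iff_true]
      rw [h1]
      exact ProbabilityTheory.cdf_le_one α x
    rw [this, measure_univ, h1, ENNReal.ofReal_one]
  · by_cases hne : {x | c x ≤ v}.Nonempty
    · have hbdd : BddAbove {x | c x ≤ v} := by
        obtain ⟨a, ha⟩ := Filter.eventually_atTop.1
          ((ProbabilityTheory.tendsto_cdf_atTop α).eventually (lt_mem_nhds h1))
        refine ⟨a, fun t ht => ?_⟩
        by_contra h
        rw [not_le] at h
        exact absurd (ha t h.le) (not_lt.2 ht)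
      set b := sSup {x | c x ≤ v} with hb
      have hsub1 : Iio b ⊆ {x | c x ≤ v} := by
        intro x hx
        obtain ⟨t, ht, hlt⟩ := exists_lt_of_lt_csSup hne hx
        exact le_trans (c.mono hlt.le) ht
      have hsub2 : {x | c x ≤ v} ⊆ Iic b := fun x hx => le_csSup hbdd hx
      have hm : α (Iio b) = α (Iic b) := by
        rw [← Iio_union_right]
        refine le_antisymm (measure_mono subset_union_left) ?_
        refine (measure_union_le _ _).trans ?_
        simp
      have hA : α {x | c x ≤ v} = α (Iic b) :=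
        le_antisymm (measure_mono hsub2) (hm ▸ measure_mono hsub1)
      rw [hA, ← ProbabilityTheory.ofReal_cdf]
      congr 1
      refine le_antisymm ?_ ?_
      · have h2 : α {b} = ENNReal.ofReal (c b - Function.leftLim c b) := by
          conv_lhs => rw [← ProbabilityTheory.measure_cdf α]
          exact c.measure_singleton b
        rw [measure_singleton] at h2
        have h3 : c b ≤ Function.leftLim c b := by
          have := ENNReal.ofReal_eq_zero.1 h2.symm
          linarith
        refine h3.trans ?_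
        have h4 : Tendsto c (𝓝[<] b) (𝓝 (Function.leftLim c b)) := c.mono.tendsto_leftLim b
        refine le_of_tendsto h4 ?_
        filter_upwards [self_mem_nhdsWithin] with x hx
        exact hsub1 hx
      · have hrc : Tendsto c (𝓝[>] b) (𝓝 (c b)) :=
          (c.right_continuous b).mono_left (nhdsWithin_mono _ Ioi_subset_Ici_self)
        refine ge_of_tendsto hrc ?_
        filter_upwards [self_mem_nhdsWithin] with x hx
        by_contra h
        rw [not_le] at h
        exact absurd (mem_Iic.1 (hsub2 h.le)) (not_le.2 (mem_Ioi.1 hx))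
    · rw [Set.not_nonempty_iff_eq_empty] at hne
      rw [hne, measure_empty]
      symm
      rw [ENNReal.ofReal_eq_zero]
      refine ge_of_tendsto (ProbabilityTheory.tendsto_cdf_atBot α) ?_
      filter_upwards with x
      by_contra h
      rw [not_le] at h
      have : x ∈ {x | c x ≤ v} := h.le
      rw [hne] at this
      exact this

theorem bad_null (α : Measure ℝ) [IsProbabilityMeasure α] [NullSingletonClass α] :
    ∀ᵐ x ∂α, 0 < ProbabilityTheory.cdf α x ∧ ProbabilityTheory.cdf α x < 1 := by
  have hmeas : ∀ v : ℝ, MeasurableSet {x | ProbabilityTheory.cdf α x ≤ v} := fun v =>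
    measurableSet_le (ProbabilityTheory.monotone_cdf α).measurable measurable_const
  refine Filter.Eventually.and ?_ ?_
  · have h := pit α 0 le_rfl zero_le_one
    rw [ENNReal.ofReal_zero] at h
    rw [ae_iff]
    refine measure_mono_null ?_ h
    intro x hx
    simpa using hx
  · rw [ae_iff]
    have key : ∀ v : ℝ, 0 ≤ v → v < 1 → α {x | ¬ ProbabilityTheory.cdf α x < 1} ≤
        1 - ENNReal.ofReal v := by
      intro v hv0 hv1
      have h1 : α {x | ProbabilityTheory.cdf α x ≤ v}ᶜ = 1 - ENNReal.ofReal v := by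
        rw [measure_compl (hmeas v) (measure_ne_top _ _), measure_univ, pit α v hv0 hv1.le]
      rw [← h1]
      refine measure_mono ?_
      intro x hx
      simp only [mem_ofPred_eq, not_lt, mem_compl_iff, not_le] at hx ⊢
      linarith
    have hle : ∀ n : ℕ, α {x | ¬ ProbabilityTheory.cdf α x < 1} ≤
        ENNReal.ofReal (1 / ((n : ℝ) + 1)) := by
      intro n
      have hn : (0 : ℝ) < n + 1 := by positivity
      have h2 : 1 / ((n : ℝ) + 1) ≤ 1 := by
        rw [div_le_one hn]
        have : (0 : ℝ) ≤ n := Nat.cast_nonneg n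
        linarith
      have h3 : 0 < 1 / ((n : ℝ) + 1) := by positivity
      have := key (1 - 1 / ((n : ℝ) + 1)) (by linarith) (by linarith)
      refine this.trans (le_of_eq ?_)
      rw [← ENNReal.ofReal_one, ← ENNReal.ofReal_sub _ (by linarith)]
      congr 1
      ring
    have hlim : Tendsto (fun n : ℕ => ENNReal.ofReal (1 / ((n : ℝ) + 1))) atTop (𝓝 0) := by
      rw [← ENNReal.ofReal_zero]
      exact ENNReal.tendsto_ofReal tendsto_one_div_add_atTop_nhds_zero_nat
    exact le_antisymm (ge_of_tendsto' hlim hle) zero_le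

end Quant

/-- Parametric quantile transform. `α` is an atomless probability measure on `ℝ`, `k s` a
probability density w.r.t. `α` depending measurably on a parameter `s`; then there is a jointly
measurable `T` such that `T s` pushes `α` to `k s • α`, given by the quantile formula. -/
theorem quantile_param {P : Type} [MeasurableSpace P] (α : Measure ℝ) [IsProbabilityMeasure α]
    [NullSingletonClass α] (k : P → ℝ → ℝ≥0∞) (hk : Measurable (Function.uncurry k))
    (h1 : ∀ s, ∫⁻ t, k s t ∂α = 1) :
    ∃ T : P → ℝ → ℝ, Measurable (Function.uncurry T) ∧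
      (∀ s, α.map (T s) = α.withDensity (k s)) ∧
      ∀ s x, 0 < α (Iic x) → α (Iic x) < 1 →
        ∀ t, (T s x ≤ t ↔ α (Iic x) ≤ ∫⁻ τ in Iic t, k s τ ∂α) := by
  classical
  have hks : ∀ s, Measurable (k s) := fun s => hk.comp measurable_prodMk_left
  have hprob : ∀ s, IsProbabilityMeasure (α.withDensity (k s)) := by
    intro s
    refine ⟨?_⟩
    rw [withDensity_apply _ MeasurableSet.univ, setLIntegral_univ, h1 s]
  have hH : ∀ s t, ∫⁻ τ in Iic t, k s τ ∂α = (α.withDensity (k s)) (Iic t) := by
    intro s t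
    rw [withDensity_apply _ measurableSet_Iic]
  have hHm : ∀ t, Measurable fun s => ∫⁻ τ in Iic t, k s τ ∂α := by
    intro t
    exact Measurable.lintegral_prod_right (ν := α.restrict (Iic t)) hk
  have hFm : Measurable fun x : ℝ => α (Iic x) := by
    have : Monotone fun x : ℝ => α (Iic x) := fun x y hxy => measure_mono (Iic_subset_Iic.2 hxy)
    exact this.measurable
  set T : P → ℝ → ℝ := fun s x => if 0 < α (Iic x) ∧ α (Iic x) < 1 then
    sInf {t | ProbabilityTheory.cdf α x ≤ ProbabilityTheory.cdf (α.withDensity (k s)) t} else 0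
    with hT
  have hle : ∀ (s : P) (x t : ℝ), (α (Iic x) ≤ ∫⁻ τ in Iic t, k s τ ∂α) ↔
      ProbabilityTheory.cdf α x ≤ ProbabilityTheory.cdf (α.withDensity (k s)) t := by
    intro s x t
    have := hprob s
    rw [hH, ← ProbabilityTheory.ofReal_cdf α x, ← ProbabilityTheory.ofReal_cdf
      (α.withDensity (k s)) t]
    exact ENNReal.ofReal_le_ofReal_iff (ProbabilityTheory.cdf_nonneg _ _)
  have hspec : ∀ s x, 0 < α (Iic x) → α (Iic x) < 1 →
      ∀ t, (T s x ≤ t ↔ α (Iic x) ≤ ∫⁻ τ in Iic t, k s τ ∂α) := by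
    intro s x hx0 hx1 t
    have := hprob s
    have e : T s x = sInf {t | ProbabilityTheory.cdf α x ≤
        ProbabilityTheory.cdf (α.withDensity (k s)) t} := if_pos ⟨hx0, hx1⟩
    rw [e, hle]
    refine Quant.quantile_le_iff _ (ProbabilityTheory.tendsto_cdf_atBot _)
      (ProbabilityTheory.tendsto_cdf_atTop _) _ ?_ ?_ t
    · rw [← ProbabilityTheory.ofReal_cdf] at hx0
      exact ENNReal.ofReal_pos.1 hx0
    · rw [← ProbabilityTheory.ofReal_cdf, ← ENNReal.ofReal_one] at hx1
      exact (ENNReal.ofReal_lt_ofReal_iff one_pos).1 hx1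
  have hTm : Measurable (Function.uncurry T) := by
    refine measurable_of_Iic fun t => ?_
    have hgood : MeasurableSet {z : P × ℝ | 0 < α (Iic z.2) ∧ α (Iic z.2) < 1} :=
      (measurableSet_lt measurable_const (hFm.comp measurable_snd)).inter
        (measurableSet_lt (hFm.comp measurable_snd) measurable_const)
    have hset : MeasurableSet {z : P × ℝ | α (Iic z.2) ≤ ∫⁻ τ in Iic t, k z.1 τ ∂α} :=
      measurableSet_le (hFm.comp measurable_snd) ((hHm t).comp measurable_fst)
    have e : Function.uncurry T ⁻¹' Iic t =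
        ({z : P × ℝ | 0 < α (Iic z.2) ∧ α (Iic z.2) < 1} ∩
          {z : P × ℝ | α (Iic z.2) ≤ ∫⁻ τ in Iic t, k z.1 τ ∂α}) ∪
        ({z : P × ℝ | 0 < α (Iic z.2) ∧ α (Iic z.2) < 1}ᶜ ∩ {_z : P × ℝ | 0 ≤ t}) := by
      ext ⟨s, x⟩
      simp only [mem_preimage, Function.uncurry_apply_pair, mem_Iic, mem_union, mem_inter_iff,
        mem_ofPred_eq, mem_compl_iff]
      by_cases hg : 0 < α (Iic x) ∧ α (Iic x) < 1
      · rw [hspec s x hg.1 hg.2 t]
        simp [hg]
      · have e0 : T s x = 0 := if_neg hg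
        rw [e0]
        simp [hg]
    rw [e]
    exact (hgood.inter hset).union (hgood.compl.inter (MeasurableSet.const _))
  refine ⟨T, hTm, ?_, hspec⟩
  intro s
  have := hprob s
  have hTs : Measurable (T s) := hTm.comp measurable_prodMk_left
  have : IsProbabilityMeasure (α.map (T s)) := Measure.isProbabilityMeasure_map hTs.aemeasurable
  refine Measure.ext_of_Iic _ _ fun t => ?_
  rw [Measure.map_apply hTs measurableSet_Iic]
  have e1 : α (T s ⁻¹' Iic t) = α {x | ProbabilityTheory.cdf α x ≤
      ProbabilityTheory.cdf (α.withDensity (k s)) t} := by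
    refine measure_congr ?_
    filter_upwards [Quant.bad_null α] with x hx
    refine propext ?_
    change T s x ≤ t ↔ _
    rw [hspec s x, hle]
    · rfl
    · rw [← ProbabilityTheory.ofReal_cdf]
      exact ENNReal.ofReal_pos.2 hx.1
    · rw [← ProbabilityTheory.ofReal_cdf, ← ENNReal.ofReal_one]
      exact (ENNReal.ofReal_lt_ofReal_iff one_pos).2 hx.2
  rw [e1, Quant.pit α _ (ProbabilityTheory.cdf_nonneg _ _) (ProbabilityTheory.cdf_le_one _ _),
    ProbabilityTheory.ofReal_cdf]

/-- Triangular maps. -/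
theorem triangular {X Y : Type} [MeasurableSpace X] [MeasurableSpace Y]
    (α : Measure X) [IsProbabilityMeasure α] (β : Measure Y) [IsProbabilityMeasure β]
    (g : X × Y → ℝ≥0∞) (hg : Measurable g)
    (g1 : X → ℝ≥0∞) (hg1 : ∀ x, g1 x = ∫⁻ y, g (x, y) ∂β)
    (h0 : ∀ x, g1 x ≠ 0) (htop : ∀ x, g1 x ≠ ⊤)
    (T1 : X → X) (hT1 : Measurable T1) (hT1' : α.map T1 = α.withDensity g1)
    (T2 : X → Y → Y) (hT2 : Measurable (Function.uncurry T2))
    (hT2' : ∀ x, β.map (T2 x) = β.withDensity (fun y => g (x, y) / g1 x)) :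
    (α.prod β).map (fun z => (T1 z.1, T2 (T1 z.1) z.2)) = (α.prod β).withDensity g := by
  have hg1m : Measurable g1 := by
    have : g1 = fun x => ∫⁻ y, g (x, y) ∂β := funext hg1
    rw [this]
    exact hg.lintegral_prod_right'
  have hmap : Measurable (fun z : X × Y => (T1 z.1, T2 (T1 z.1) z.2)) := by
    refine (hT1.comp measurable_fst).prodMk ?_
    exact hT2.comp ((hT1.comp measurable_fst).prodMk measurable_snd)
  refine Measure.ext_of_lintegral _ fun φ hφ => ?_
  have hφc : Measurable fun z : X × Y => φ (T1 z.1, T2 (T1 z.1) z.2) := hφ.comp hmap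
  rw [lintegral_map hφ hmap, lintegral_prod _ hφc.aemeasurable,
    lintegral_withDensity_eq_lintegral_mul _ hg hφ, lintegral_prod _ (hg.mul hφ).aemeasurable]
  have hφx : ∀ x, Measurable fun y => φ (x, y) := fun x => hφ.comp measurable_prodMk_left
  have hgx : ∀ x, Measurable fun y => g (x, y) := fun x => hg.comp measurable_prodMk_left
  have hT2x : ∀ x, Measurable (T2 x) := fun x => hT2.comp measurable_prodMk_left
  have inner : ∀ x, ∫⁻ y, φ (x, T2 x y) ∂β = ∫⁻ y, g (x, y) / g1 x * φ (x, y) ∂β := by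
    intro x
    have h2 : ∫⁻ y, φ (x, T2 x y) ∂β = ∫⁻ y, φ (x, y) ∂(β.map (T2 x)) :=
      (lintegral_map (hφx x) (hT2x x)).symm
    rw [h2, hT2' x, lintegral_withDensity_eq_lintegral_mul _ ((hgx x).div_const _) (hφx x)]
    rfl
  have hΦm : Measurable fun x => ∫⁻ y, g (x, y) / g1 x * φ (x, y) ∂β := by
    refine Measurable.lintegral_prod_right' (f := fun z : X × Y => g z / g1 z.1 * φ z) ?_
    exact (hg.div (hg1m.comp measurable_fst)).mul hφ
  calc ∫⁻ x, ∫⁻ y, φ (T1 (x, y).1, T2 (T1 (x, y).1) (x, y).2) ∂β ∂α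
      = ∫⁻ x, (fun x => ∫⁻ y, g (x, y) / g1 x * φ (x, y) ∂β) (T1 x) ∂α :=
        lintegral_congr fun x => inner (T1 x)
    _ = ∫⁻ x, (∫⁻ y, g (x, y) / g1 x * φ (x, y) ∂β) ∂(α.map T1) :=
        (lintegral_map hΦm hT1).symm
    _ = ∫⁻ x, g1 x * (∫⁻ y, g (x, y) / g1 x * φ (x, y) ∂β) ∂α := by
        rw [hT1', lintegral_withDensity_eq_lintegral_mul _ hg1m hΦm]
        rfl
    _ = ∫⁻ x, ∫⁻ y, (g * φ) (x, y) ∂β ∂α := by
        refine lintegral_congr fun x => ?_
        have hm : Measurable fun y => g (x, y) / g1 x * φ (x, y) :=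
          ((hgx x).div_const _).mul (hφx x)
        rw [← lintegral_const_mul _ hm]
        refine lintegral_congr fun y => ?_
        rw [← mul_assoc, ENNReal.mul_div_cancel (h0 x) (htop x)]
        rfl

end Pool.Agent.Helper764.EW
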