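import Pool.Agent.Helper764.EWCube
import Pool.Agent.Helper764.EWQuant

set_option autoImplicit false
open MeasureTheory Filter Topology Set
open scoped ENNReal

namespace Pool.Agent.Helper764.EW

/-- Lebesgue measure on the open unit interval. -/
noncomputable def lam : Measure ℝ := (volume : Measure ℝ).restrict (Ioo 0 1)

instance : IsProbabilityMeasure lam := ⟨by simp [lam]⟩

instance : NullSingletonClass lam := by unfold lam; infer_instance

theorem lam_eq : lam = (volume : Measure ℝ).restrict (Ioc 0 1) :=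
  Measure.restrict_congr_set Ioo_ae_eq_Ioc

theorem lam_ae : ∀ᵐ t ∂lam, t ∈ Ioo (0 : ℝ) 1 := by
  unfold lam
  exact ae_restrict_mem measurableSet_Ioo

theorem lam_Iic (u : ℝ) (hu : u ∈ Ioo (0 : ℝ) 1) : lam (Iic u) = ENNReal.ofReal u := by
  have h : Iic u ∩ Ioo (0 : ℝ) 1 = Ioc 0 u := by
    ext t
    simp only [mem_inter_iff, mem_Iic, mem_Ioo, mem_Ioc]
    constructor
    · rintro ⟨h1, h2, h3⟩; exact ⟨h2, h1⟩
    · rintro ⟨h1, h2⟩; exact ⟨h2, h1, h2.trans_lt hu.2⟩
  unfold lam
  rw [Measure.restrict_apply measurableSet_Iic, h, Real.volume_Ioc, sub_zero]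

theorem lam_int (f : ℝ → ℝ) (t : ℝ) (h0 : 0 ≤ t) (h1 : t ≤ 1) :
    ∫ τ in Iic t, f τ ∂lam = ∫ τ in (0 : ℝ)..t, f τ := by
  have h : Iic t ∩ Ioc (0 : ℝ) 1 = Ioc 0 t := by
    ext τ
    simp only [mem_inter_iff, mem_Iic, mem_Ioc]
    constructor
    · rintro ⟨h1, h2, h3⟩; exact ⟨h2, h1⟩
    · rintro ⟨h1, h2⟩; exact ⟨h2, h1, by linarith⟩
  rw [lam_eq, Measure.restrict_restrict measurableSet_Iic, h, intervalIntegral.integral_of_le h0]

theorem int_of_bdd (f : ℝ → ℝ) (hf : Measurable f) (c M : ℝ) (hlo : ∀ t, c ≤ f t)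
    (hhi : ∀ t, f t ≤ M) (μ : Measure ℝ) [IsFiniteMeasure μ] : Integrable f μ := by
  refine Integrable.of_bound hf.aestronglyMeasurable (max |c| |M|) ?_
  refine Eventually.of_forall fun t => ?_
  rw [Real.norm_eq_abs, abs_le]
  constructor
  · have := hlo t
    have h2 := le_max_left |c| |M|
    have h3 := neg_abs_le c
    linarith
  · have := hhi t
    have h2 := le_max_right |c| |M|
    have h3 := le_abs_self M
    linarith

theorem quant_lip {P : Type} [MeasurableSpace P] (S : P → Prop) (k : P → ℝ → ℝ)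
    (hk : Measurable (Function.uncurry k)) (c2 M2 : ℝ) (hc2 : 0 < c2)
    (hlo : ∀ s t, c2 ≤ k s t) (hhi : ∀ s t, k s t ≤ M2)
    (hint : ∀ s, ∫ t, k s t ∂lam = 1) (D : P → P → ℝ)
    (hD : ∀ s s', S s → S s' → ∀ t ∈ Ioo (0 : ℝ) 1, |k s t - k s' t| ≤ D s s')
    (hDs : ∀ s s', D s s' = D s' s) :
    ∃ T : P → ℝ → ℝ, Measurable (Function.uncurry T) ∧
      (∀ s, lam.map (T s) = lam.withDensity (fun t => ENNReal.ofReal (k s t))) ∧
      (∀ s, ∀ u ∈ Ioo (0 : ℝ) 1, T s u ∈ Ioo (0 : ℝ) 1) ∧
      ∀ s s', S s → S s' → ∀ u ∈ Ioo (0 : ℝ) 1, ∀ u' ∈ Ioo (0 : ℝ) 1,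
        |T s u - T s' u'| ≤ (|u - u'| + D s s') / c2 := by
  have hks : ∀ s, Measurable (k s) := fun s => hk.comp (measurable_const.prodMk measurable_id)
  have hki : ∀ s (μ : Measure ℝ) [IsFiniteMeasure μ], Integrable (k s) μ :=
    fun s μ _ => int_of_bdd (k s) (hks s) c2 M2 (hlo s) (hhi s) μ
  have hkI : ∀ s (a b : ℝ), IntervalIntegrable (k s) volume a b := by
    intro s a b
    exact ⟨hki s _, hki s _⟩
  have hk0 : ∀ s t, 0 ≤ k s t := fun s t => hc2.le.trans (hlo s t)
  set H : P → ℝ → ℝ := fun s t => ∫ τ in Iic t, k s τ ∂lam with hH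
  have hH0 : ∀ s t, 0 ≤ H s t := fun s t => integral_nonneg (fun τ => hk0 s τ)
  have hl1 : ∀ s, ∫⁻ t, ENNReal.ofReal (k s t) ∂lam = 1 := by
    intro s
    rw [← ofReal_integral_eq_lintegral_ofReal (hki s _) (Eventually.of_forall (hk0 s)), hint,
      ENNReal.ofReal_one]
  obtain ⟨T, hT1, hT2, hT3⟩ := quantile_param lam (fun s t => ENNReal.ofReal (k s t))
    (ENNReal.measurable_ofReal.comp hk) hl1
  have key : ∀ s, ∀ u ∈ Ioo (0 : ℝ) 1, ∀ t, (T s u ≤ t ↔ u ≤ H s t) := by
    intro s u hu t
    have h1 := hT3 s u (by rw [lam_Iic u hu]; exact ENNReal.ofReal_pos.2 hu.1)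
      (by rw [lam_Iic u hu]; exact ENNReal.ofReal_lt_one.2 hu.2) t
    rw [lam_Iic u hu, ← ofReal_integral_eq_lintegral_ofReal (hki s _)
      (Eventually.of_forall (hk0 s)), ENNReal.ofReal_le_ofReal_iff (hH0 s t)] at h1
    exact h1
  have hHi : ∀ s t, 0 ≤ t → t ≤ 1 → H s t = ∫ τ in (0 : ℝ)..t, k s τ :=
    fun s t h0 h1 => lam_int (k s) t h0 h1
  have hHz : ∀ s, H s 0 = 0 := fun s => by rw [hHi s 0 le_rfl zero_le_one]; simp
  have hH1 : ∀ s, H s 1 = 1 := by
    intro s
    have h := hint s
    rw [lam_eq] at h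
    rw [hHi s 1 zero_le_one le_rfl, intervalIntegral.integral_of_le zero_le_one, h]
  have hinc : ∀ s t t', 0 ≤ t → t ≤ t' → t' ≤ 1 → c2 * (t' - t) ≤ H s t' - H s t := by
    intro s t t' h0 h1 h2
    rw [hHi s t' (h0.trans h1) h2, hHi s t h0 (h1.trans h2),
      intervalIntegral.integral_interval_sub_left (hkI s _ _) (hkI s _ _)]
    have h3 := intervalIntegral.integral_mono_on h1 (intervalIntegrable_const
      (c := c2)) (hkI s t t') (fun x _ => hlo s x)
    rw [intervalIntegral.integral_const, smul_eq_mul] at h3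
    linarith
  have hdec : ∀ s t, 0 ≤ t → t ≤ 1 → 1 - M2 * (1 - t) ≤ H s t := by
    intro s t h0 h1
    have h4 : H s 1 - H s t ≤ M2 * (1 - t) := by
      rw [hHi s 1 zero_le_one le_rfl, hHi s t h0 h1,
        intervalIntegral.integral_interval_sub_left (hkI s _ _) (hkI s _ _)]
      have h3 := intervalIntegral.integral_mono_on h1 (hkI s t 1)
        (intervalIntegrable_const (c := M2)) (fun x _ => hhi s x)
      rw [intervalIntegral.integral_const, smul_eq_mul] at h3
      linarith
    rw [hH1] at h4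
    linarith
  have hlipH : ∀ s s', S s → S s' → ∀ t ∈ Ioo (0 : ℝ) 1, |H s t - H s' t| ≤ D s s' := by
    intro s s' hs hs' t ht
    have hD0 : 0 ≤ D s s' := (abs_nonneg _).trans (hD s s' hs hs' t ht)
    rw [hHi s t ht.1.le ht.2.le, hHi s' t ht.1.le ht.2.le,
      ← intervalIntegral.integral_sub (hkI s _ _) (hkI s' _ _), ← Real.norm_eq_abs]
    have h1 := intervalIntegral.norm_integral_le_of_norm_le_const (a := 0) (b := t)
      (f := fun τ => k s τ - k s' τ) (C := D s s') (by
        intro x hx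
        rw [uIoc_of_le ht.1.le] at hx
        exact hD s s' hs hs' x ⟨hx.1, hx.2.trans_lt ht.2⟩)
    refine h1.trans ?_
    rw [sub_zero, abs_of_pos ht.1]
    nlinarith [ht.1, ht.2]
  have hmem : ∀ s, ∀ u ∈ Ioo (0 : ℝ) 1, T s u ∈ Ioo (0 : ℝ) 1 := by
    intro s u hu
    constructor
    · by_contra h
      have := (key s u hu 0).1 (not_lt.1 h)
      rw [hHz] at this
      linarith [hu.1]
    · have hM : 0 < max M2 1 := lt_max_of_lt_right one_pos
      set t : ℝ := 1 - (1 - u) / max M2 1 with ht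
      have h1 : 0 < (1 - u) / max M2 1 := div_pos (by linarith [hu.2]) hM
      have h2 : (1 - u) / max M2 1 ≤ 1 - u := div_le_self (by linarith [hu.2]) (le_max_right _ _)
      have h3 : u ≤ H s t := by
        have h4 := hdec s t (by rw [ht]; linarith [hu.1]) (by rw [ht]; linarith)
        have h5 : M2 * (1 - t) ≤ 1 - u := by
          rw [ht]
          have h6 : max M2 1 * ((1 - u) / max M2 1) = 1 - u := mul_div_cancel₀ _ hM.ne'
          have h7 : M2 * ((1 - u) / max M2 1) ≤ max M2 1 * ((1 - u) / max M2 1) :=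
            mul_le_mul_of_nonneg_right (le_max_left _ _) h1.le
          calc M2 * (1 - (1 - (1 - u) / max M2 1)) = M2 * ((1 - u) / max M2 1) := by ring
            _ ≤ _ := h7
            _ = _ := h6
        linarith
      have h8 := (key s u hu t).2 h3
      linarith
  have hone : ∀ s s', S s → S s' → ∀ u ∈ Ioo (0 : ℝ) 1, ∀ u' ∈ Ioo (0 : ℝ) 1,
        T s u ≤ T s' u' + (|u - u'| + D s s') / c2 := by
    intro s s' hs hs' u hu u' hu'
    set t' := T s' u' with ht'
    have hm := hmem s' u' hu'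
    rw [← ht'] at hm
    have hD0 : 0 ≤ D s s' := (abs_nonneg _).trans (hD s s' hs hs' t' hm)
    set E : ℝ := (|u - u'| + D s s') / c2 with hE
    have hE0 : 0 ≤ E := div_nonneg (add_nonneg (abs_nonneg _) hD0) hc2.le
    have hE1 : c2 * E = |u - u'| + D s s' := mul_div_cancel₀ _ hc2.ne'
    by_cases h : 1 ≤ t' + E
    · exact (hmem s u hu).2.le.trans h
    · have h := not_le.1 h
      rw [key s u hu]
      have h1 := hinc s t' (t' + E) hm.1.le (by linarith) h.le
      have h2 := abs_le.1 (hlipH s s' hs hs' t' hm)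
      have h3 : u' ≤ H s' t' := (key s' u' hu' t').1 le_rfl
      have h4 := le_abs_self (u - u')
      have h5 : c2 * (t' + E - t') = |u - u'| + D s s' := by rw [add_sub_cancel_left, hE1]
      linarith [h2.1]
  refine ⟨T, hT1, hT2, hmem, ?_⟩
  intro s s' hs hs' u hu u' hu'
  have h1 := hone s s' hs hs' u hu u' hu'
  have h2 := hone s' s hs' hs u' hu' u hu
  rw [abs_sub_comm u' u, hDs s' s] at h2
  rw [abs_le]
  constructor <;> linarith

instance (n : ℕ) : IsProbabilityMeasure (cube n) := by
  have h : cube n = Measure.pi fun _ : Fin n => lam := rfl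
  rw [h]
  infer_instance

theorem step_prod (n : ℕ) (c M L K1 : ℝ) (hc : 0 < c) (hL : 0 ≤ L) (IH : ∀ g : (Fin n → ℝ) → ℝ, Measurable g → (∀ x, InCube x → c ≤ g x) →
      (∀ x y, InCube x → InCube y → |g x - g y| ≤ L * ∑ i, |x i - y i|) →
      (∫⁻ x, ENNReal.ofReal (g x) ∂(cube n) = 1) →
      ∃ T : (Fin n → ℝ) → (Fin n → ℝ), Measurable T ∧ (∀ x, InCube x → InCube (T x)) ∧
        (cube n).map T = (cube n).withDensity (fun x => ENNReal.ofReal (g x)) ∧
        ∀ x y, InCube x → InCube y → ∀ i, |T x i - T y i| ≤ K1 * ∑ j, |x j - y j|)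
    (g : (Fin n → ℝ) × ℝ → ℝ) (hg : Measurable g) (hlo : ∀ z, c ≤ g z) (hhi : ∀ z, g z ≤ M)
    (hLip : ∀ x y : Fin n → ℝ, InCube x → InCube y → ∀ t ∈ Ioo (0 : ℝ) 1,
      |g (x, t) - g (y, t)| ≤ L * ∑ i, |x i - y i|)
    (hint : ∫⁻ z, ENNReal.ofReal (g z) ∂((cube n).prod lam) = 1) :
    ∃ T : (Fin n → ℝ) × ℝ → (Fin n → ℝ) × ℝ, Measurable T ∧
      (∀ x t, InCube x → t ∈ Ioo (0 : ℝ) 1 →
        InCube (T (x, t)).1 ∧ (T (x, t)).2 ∈ Ioo (0 : ℝ) 1) ∧
      ((cube n).prod lam).map T =
        ((cube n).prod lam).withDensity (fun z => ENNReal.ofReal (g z)) ∧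
      ∀ x y t t', InCube x → InCube y → t ∈ Ioo (0 : ℝ) 1 → t' ∈ Ioo (0 : ℝ) 1 →
        (∀ i, |(T (x, t)).1 i - (T (y, t')).1 i| ≤ K1 * ∑ i, |x i - y i|) ∧
        |(T (x, t)).2 - (T (y, t')).2| ≤
          (|t - t'| + (L / c + M * L / c ^ 2) * (n * (K1 * ∑ i, |x i - y i|))) / (c / M) := by
  have hM : 0 < M := hc.trans_le ((hlo (0, 0)).trans (hhi _))
  have hgx : ∀ x, Measurable fun t => g (x, t) := fun x => hg.comp (measurable_const.prodMk measurable_id)
  have hgi : ∀ x, Integrable (fun t => g (x, t)) lam :=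
    fun x => int_of_bdd _ (hgx x) c M (fun t => hlo _) (fun t => hhi _) lam
  set g1 : (Fin n → ℝ) → ℝ := fun x => ∫ t, g (x, t) ∂lam with hg1
  have hg1m : Measurable g1 := (hg.stronglyMeasurable.integral_prod_right').measurable
  have hg1lo : ∀ x, c ≤ g1 x := by
    intro x
    have := integral_mono (integrable_const c) (hgi x) (fun t => hlo (x, t))
    simpa using this
  have hg1hi : ∀ x, g1 x ≤ M := by
    intro x
    have := integral_mono (hgi x) (integrable_const M) (fun t => hhi (x, t))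
    simpa using this
  have hg1pos : ∀ x, 0 < g1 x := fun x => hc.trans_le (hg1lo x)
  have hg1lip : ∀ x y, InCube x → InCube y → |g1 x - g1 y| ≤ L * ∑ i, |x i - y i| := by
    intro x y hx hy
    rw [hg1]
    simp only
    rw [← integral_sub (hgi x) (hgi y), ← Real.norm_eq_abs]
    have h1 := norm_integral_le_of_norm_le_const (μ := lam) (f := fun t => g (x, t) - g (y, t))
      (C := L * ∑ i, |x i - y i|) (by
        filter_upwards [lam_ae] with t ht
        exact hLip x y hx hy t ht)
    simpa using h1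
  have hof : ∀ x, ENNReal.ofReal (g1 x) = ∫⁻ t, ENNReal.ofReal (g (x, t)) ∂lam := fun x =>
    ofReal_integral_eq_lintegral_ofReal (hgi x) (Eventually.of_forall fun t => hc.le.trans (hlo _))
  have hg1int : ∫⁻ x, ENNReal.ofReal (g1 x) ∂(cube n) = 1 := by
    rw [← hint, lintegral_prod (fun z => ENNReal.ofReal (g z))
      (ENNReal.measurable_ofReal.comp hg).aemeasurable]
    exact lintegral_congr fun x => hof x
  obtain ⟨T1, hT1m, hT1c, hT1, hT1l⟩ := IH g1 hg1m (fun x _ => hg1lo x) hg1lip hg1int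
  set k : (Fin n → ℝ) → ℝ → ℝ := fun s t => g (s, t) / g1 s with hk
  have hkm : Measurable (Function.uncurry k) := by
    have : Function.uncurry k = fun z : (Fin n → ℝ) × ℝ => g z / g1 z.1 := rfl
    rw [this]
    exact hg.div (hg1m.comp measurable_fst)
  have hklo : ∀ s t, c / M ≤ k s t := fun s t =>
    div_le_div₀ (hc.le.trans (hlo _)) (hlo _) (hg1pos s) (hg1hi s)
  have hkhi : ∀ s t, k s t ≤ M / c := fun s t =>
    div_le_div₀ hM.le (hhi _) hc (hg1lo s)
  have hkint : ∀ s, ∫ t, k s t ∂lam = 1 := by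
    intro s
    rw [hk]
    simp only
    rw [integral_div]
    exact div_self (hg1pos s).ne'
  set D : (Fin n → ℝ) → (Fin n → ℝ) → ℝ :=
    fun s s' => (L / c + M * L / c ^ 2) * ∑ i, |s i - s' i| with hD
  have hDs : ∀ s s', D s s' = D s' s := by
    intro s s'
    rw [hD]
    simp only
    congr 1
    exact Finset.sum_congr rfl fun i _ => abs_sub_comm _ _
  have hC0 : 0 ≤ L / c + M * L / c ^ 2 := by positivity
  have hkD : ∀ s s', InCube s → InCube s' → ∀ t ∈ Ioo (0 : ℝ) 1, |k s t - k s' t| ≤ D s s' := by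
    intro s s' hs hs' t ht
    have h1 := hLip s s' hs hs' t ht
    have h2 := hg1lip s s' hs hs'
    set Δ := ∑ i, |s i - s' i| with hΔ
    have hΔ0 : 0 ≤ Δ := Finset.sum_nonneg fun i _ => abs_nonneg _
    have e : k s t - k s' t = (g (s, t) - g (s', t)) / g1 s +
        g (s', t) * (g1 s' - g1 s) / (g1 s * g1 s') := by
      have a1 := (hg1pos s).ne'
      have a2 := (hg1pos s').ne'
      rw [hk]
      simp only
      field_simp
      ring
    rw [e]
    refine (abs_add_le _ _).trans ?_
    have b1 : |(g (s, t) - g (s', t)) / g1 s| ≤ L * Δ / c := by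
      rw [abs_div, abs_of_pos (hg1pos s)]
      exact div_le_div₀ (by positivity) h1 hc (hg1lo s)
    have b2 : |g (s', t) * (g1 s' - g1 s) / (g1 s * g1 s')| ≤ M * (L * Δ) / c ^ 2 := by
      rw [abs_div, abs_mul, abs_of_pos (mul_pos (hg1pos s) (hg1pos s')), abs_sub_comm (g1 s') (g1 s)]
      apply div_le_div₀ (by positivity) _ (by positivity)
      · rw [pow_two]
        exact mul_le_mul (hg1lo s) (hg1lo s') hc.le (hg1pos s).le
      · rw [abs_of_pos (hc.trans_le (hlo _))]
        exact mul_le_mul (hhi _) h2 (abs_nonneg _) hM.le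
    calc _ ≤ L * Δ / c + M * (L * Δ) / c ^ 2 := add_le_add b1 b2
      _ = D s s' := by rw [hD]; simp only; rw [← hΔ]; ring
  obtain ⟨T2, hT2m, hT2, hT2c, hT2l⟩ := quant_lip InCube k hkm (c / M) (M / c) (div_pos hc hM)
    hklo hkhi hkint D hkD hDs
  refine ⟨fun z => (T1 z.1, T2 (T1 z.1) z.2), ?_, ?_, ?_, ?_⟩
  · exact (hT1m.comp measurable_fst).prodMk
      (hT2m.comp ((hT1m.comp measurable_fst).prodMk measurable_snd))
  · intro x t hx ht
    exact ⟨hT1c x hx, hT2c _ t ht⟩
  · refine triangular (cube n) lam (fun z => ENNReal.ofReal (g z))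
      (ENNReal.measurable_ofReal.comp hg) (fun x => ENNReal.ofReal (g1 x)) hof ?_ ?_ T1 hT1m hT1
      T2 hT2m ?_
    · intro x
      exact (ENNReal.ofReal_pos.2 (hg1pos x)).ne'
    · intro x
      exact ENNReal.ofReal_ne_top
    · intro x
      rw [hT2 x]
      congr 1
      funext t
      rw [hk]
      simp only
      rw [ENNReal.ofReal_div_of_pos (hg1pos x)]
  · intro x y t t' hx hy ht ht'
    refine ⟨fun i => hT1l x y hx hy i, ?_⟩
    refine (hT2l (T1 x) (T1 y) (hT1c x hx) (hT1c y hy) t ht t' ht').trans ?_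
    apply div_le_div_of_nonneg_right _ (div_pos hc hM).le
    apply add_le_add le_rfl
    rw [hD]
    simp only
    apply mul_le_mul_of_nonneg_left _ hC0
    have h1 := Finset.sum_le_card_nsmul Finset.univ (fun i => |T1 x i - T1 y i|)
      (K1 * ∑ i, |x i - y i|) (fun i _ => hT1l x y hx hy i)
    rw [Finset.card_univ, Fintype.card_fin, nsmul_eq_mul] at h1
    exact h1

/-- splitting off the last coordinate -/
noncomputable def splitE (n : ℕ) : (Fin (n + 1) → ℝ) ≃ᵐ (Fin n → ℝ) × ℝ :=
  (MeasurableEquiv.piFinSuccAbove (fun _ => ℝ) (Fin.last n)).trans MeasurableEquiv.prodComm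

theorem splitE_fst (n : ℕ) (z : Fin (n + 1) → ℝ) (i : Fin n) :
    (splitE n z).1 i = z i.castSucc := by
  simp only [splitE, MeasurableEquiv.piFinSuccAbove, Fin.insertNthEquiv, MeasurableEquiv.trans_apply]
  change z ((Fin.last n).succAbove i) = z i.castSucc
  rw [Fin.succAbove_last]

theorem splitE_snd (n : ℕ) (z : Fin (n + 1) → ℝ) : (splitE n z).2 = z (Fin.last n) := by
  rfl

theorem splitE_mp (n : ℕ) : MeasurePreserving (splitE n) (cube (n + 1)) ((cube n).prod lam) := by
  have h1 := measurePreserving_piFinSuccAbove (fun _ : Fin (n + 1) => lam) (Fin.last n)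
  have h2 : MeasurePreserving Prod.swap (lam.prod (cube n)) ((cube n).prod lam) :=
    Measure.measurePreserving_swap
  exact h2.comp h1

theorem inCube_split (n : ℕ) (z : Fin (n + 1) → ℝ) :
    InCube z ↔ InCube (splitE n z).1 ∧ (splitE n z).2 ∈ Ioo (0 : ℝ) 1 := by
  constructor
  · intro h
    refine ⟨fun i => ?_, ?_⟩
    · rw [splitE_fst]; exact h _
    · rw [splitE_snd]; exact h _
  · rintro ⟨h1, h2⟩ i
    refine Fin.lastCases ?_ ?_ i
    · rw [splitE_snd] at h2; exact h2
    · intro j
      have := h1 j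
      rw [splitE_fst] at this; exact this

theorem sum_split (n : ℕ) (z w : Fin (n + 1) → ℝ) :
    ∑ i, |z i - w i| = ∑ i, |(splitE n z).1 i - (splitE n w).1 i| +
      |(splitE n z).2 - (splitE n w).2| := by
  rw [Fin.sum_univ_castSucc]
  simp only [splitE_fst, splitE_snd]

theorem measurableSet_inCube (n : ℕ) : MeasurableSet {z : Fin n → ℝ | InCube z} := by
  have h : {z : Fin n → ℝ | InCube z} = Set.pi univ (fun _ => Ioo (0 : ℝ) 1) := by
    ext z
    simp [InCube, Set.mem_pi]
  rw [h]
  exact MeasurableSet.univ_pi fun _ => measurableSet_Ioo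

theorem cube_ae (n : ℕ) : ∀ᵐ z ∂(cube n), InCube z := by
  unfold InCube
  rw [ae_all_iff]
  intro i
  have h := Measure.tendsto_eval_ae_ae (μ := fun _ : Fin n => lam) (i := i)
  exact h.eventually lam_ae

/-- Target. A Lipschitz density bounded below on the unit cube is the image of the uniform law
under a Lipschitz map (Knothe's map). -/
theorem knothe (n : ℕ) : ∀ (c L : ℝ), 0 < c → 0 ≤ L → ∃ K : ℝ, 0 ≤ K ∧
    ∀ g : (Fin n → ℝ) → ℝ, Measurable g → (∀ x, InCube x → c ≤ g x) →
      (∀ x y, InCube x → InCube y → |g x - g y| ≤ L * ∑ i, |x i - y i|) →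
      (∫⁻ x, ENNReal.ofReal (g x) ∂(cube n) = 1) →
      ∃ T : (Fin n → ℝ) → (Fin n → ℝ), Measurable T ∧ (∀ x, InCube x → InCube (T x)) ∧
        (cube n).map T = (cube n).withDensity (fun x => ENNReal.ofReal (g x)) ∧
        ∀ x y, InCube x → InCube y → ∀ i, |T x i - T y i| ≤ K * ∑ j, |x j - y j| := by
  induction n with
  | zero =>
    intro c L hc hL
    refine ⟨0, le_rfl, ?_⟩
    intro g hg _ _ hint
    refine ⟨id, measurable_id, fun x hx => hx, ?_, fun x y _ _ i => i.elim0⟩
    rw [Measure.map_id]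
    have h1 : (fun x : Fin 0 → ℝ => ENNReal.ofReal (g x)) = fun _ => ENNReal.ofReal (g 0) := by
      funext x
      rw [Subsingleton.elim x 0]
    rw [h1, lintegral_const, measure_univ, mul_one] at hint
    rw [h1, hint]
    exact (withDensity_one).symm
  | succ n ih =>
    intro c L hc hL
    obtain ⟨K1, hK1, IH⟩ := ih (min c 1) L (lt_min hc one_pos) hL
    set c' : ℝ := min c 1 with hc'
    have hc'0 : 0 < c' := lt_min hc one_pos
    set M : ℝ := 1 + L * (n + 1) with hM
    have hM1 : 1 ≤ M := by rw [hM]; nlinarith [mul_nonneg hL (by positivity : (0:ℝ) ≤ n + 1)]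
    have hM0 : 0 < M := one_pos.trans_le hM1
    have hC0 : 0 ≤ L / c' + M * L / c' ^ 2 := by positivity
    refine ⟨K1 + (1 + (L / c' + M * L / c' ^ 2) * (n * K1)) / (c' / M), by positivity, ?_⟩
    intro g hg hlo hLip hint
    classical
    set E := splitE n with hE
    set γ : (Fin n → ℝ) × ℝ → ℝ := fun z => if InCube (E.symm z) then g (E.symm z) else 1 with hγ
    have hγm : Measurable γ := by
      refine Measurable.ite ?_ (hg.comp E.symm.measurable) measurable_const
      exact E.symm.measurable (measurableSet_inCube (n + 1))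
    have hγE : ∀ x, InCube x → γ (E x) = g x := by
      intro x hx
      rw [hγ]
      simp only [MeasurableEquiv.symm_apply_apply]
      rw [if_pos hx]
    have hsumle : ∀ x y : Fin (n + 1) → ℝ, InCube x → InCube y → ∑ i, |x i - y i| ≤ n + 1 := by
      intro x y hx hy
      have h1 := Finset.sum_le_card_nsmul Finset.univ (fun i => |x i - y i|) 1 (fun i _ => by
        have h2 := hx i
        have h3 := hy i
        rw [abs_le]
        constructor <;> linarith [h2.1, h2.2, h3.1, h3.2])
      rw [Finset.card_univ, Fintype.card_fin, nsmul_eq_mul, mul_one] at h1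
      push_cast at h1
      exact h1
    have hghi : ∀ x, InCube x → g x ≤ M := by
      intro x hx
      by_contra h
      have h := not_le.1 h
      have h1 : 1 < g x - L * (n + 1) := by rw [hM] at h; linarith
      have h2 : ∀ᵐ y ∂(cube (n + 1)), ENNReal.ofReal (g x - L * (n + 1)) ≤
          ENNReal.ofReal (g y) := by
        filter_upwards [cube_ae (n + 1)] with y hy
        apply ENNReal.ofReal_le_ofReal
        have h3 := (abs_le.1 (hLip x y hx hy)).2
        have h4 := mul_le_mul_of_nonneg_left (hsumle x y hx hy) hL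
        linarith
      have h3 := lintegral_mono_ae h2
      rw [hint, lintegral_const, measure_univ, mul_one, ← ENNReal.ofReal_one,
        ENNReal.ofReal_le_ofReal_iff zero_le_one] at h3
      linarith
    have hγlo : ∀ z, c' ≤ γ z := by
      intro z
      rw [hγ]
      simp only
      split_ifs with h
      · exact (min_le_left _ _).trans (hlo _ h)
      · exact min_le_right _ _
    have hγhi : ∀ z, γ z ≤ M := by
      intro z
      rw [hγ]
      simp only
      split_ifs with h
      · exact hghi _ h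
      · exact hM1
    have hin : ∀ (x : Fin n → ℝ) (t : ℝ), InCube x → t ∈ Ioo (0 : ℝ) 1 →
        InCube (E.symm (x, t)) := by
      intro x t hx ht
      rw [inCube_split n, ← hE, MeasurableEquiv.apply_symm_apply]
      exact ⟨hx, ht⟩
    have hγL : ∀ x y : Fin n → ℝ, InCube x → InCube y → ∀ t ∈ Ioo (0 : ℝ) 1,
        |γ (x, t) - γ (y, t)| ≤ L * ∑ i, |x i - y i| := by
      intro x y hx hy t ht
      have h1 := hLip _ _ (hin x t hx ht) (hin y t hy ht)
      rw [sum_split n, ← hE, MeasurableEquiv.apply_symm_apply,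
        MeasurableEquiv.apply_symm_apply] at h1
      simp only [sub_self, abs_zero, add_zero] at h1
      rw [hγ]
      simp only
      rw [if_pos (hin x t hx ht), if_pos (hin y t hy ht)]
      exact h1
    have hmp : MeasurePreserving E (cube (n + 1)) ((cube n).prod lam) := splitE_mp n
    have hGm : Measurable fun z => ENNReal.ofReal (γ z) := ENNReal.measurable_ofReal.comp hγm
    have hGae : (fun x => ENNReal.ofReal (γ (E x))) =ᵐ[cube (n + 1)]
        fun x => ENNReal.ofReal (g x) := by
      filter_upwards [cube_ae (n + 1)] with x hx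
      rw [hγE x hx]
    have hγint : ∫⁻ z, ENNReal.ofReal (γ z) ∂((cube n).prod lam) = 1 := by
      rw [← hint, ← hmp.lintegral_comp hGm]
      exact lintegral_congr_ae hGae
    obtain ⟨T', hT'm, hT'c, hT', hT'l⟩ := step_prod n c' M L K1 hc'0 hL IH γ hγm hγlo hγhi
      hγL hγint
    refine ⟨fun z => E.symm (T' (E z)), E.symm.measurable.comp (hT'm.comp E.measurable), ?_, ?_, ?_⟩
    · intro x hx
      have h1 := (inCube_split n x).1 hx
      have h2 := hT'c (E x).1 (E x).2 h1.1 h1.2
      exact hin _ _ h2.1 h2.2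
    · have h1 : (cube (n + 1)).map (fun z => E.symm (T' (E z))) =
          (((cube (n + 1)).map E).map T').map E.symm := by
        rw [Measure.map_map hT'm E.measurable, Measure.map_map E.symm.measurable
          (hT'm.comp E.measurable)]
        rfl
      rw [h1, hmp.map_eq, hT']
      ext s hs
      rw [Measure.map_apply E.symm.measurable hs, withDensity_apply _ (E.symm.measurable hs),
        withDensity_apply _ hs, ← hmp.setLIntegral_comp_preimage (E.symm.measurable hs) hGm]
      have h2 : E ⁻¹' (E.symm ⁻¹' s) = s := by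
        ext x
        simp
      rw [h2]
      exact lintegral_congr_ae (ae_restrict_of_ae hGae)
    · intro x y hx hy i
      have hx1 := (inCube_split n x).1 hx
      have hy1 := (inCube_split n y).1 hy
      obtain ⟨h1, h2⟩ := hT'l (E x).1 (E y).1 (E x).2 (E y).2 hx1.1 hy1.1 hx1.2 hy1.2
      have hs := sum_split n x y
      rw [← hE] at hs
      set A := ∑ i, |(E x).1 i - (E y).1 i| with hA
      set B := |(E x).2 - (E y).2| with hB
      have hA0 : 0 ≤ A := Finset.sum_nonneg fun i _ => abs_nonneg _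
      have hB0 : 0 ≤ B := abs_nonneg _
      rw [hs]
      have hcM : 0 < c' / M := div_pos hc'0 hM0
      have hq0 : 0 ≤ (1 + (L / c' + M * L / c' ^ 2) * (n * K1)) / (c' / M) := by positivity
      refine Fin.lastCases ?_ ?_ i
      · have e1 : ∀ z, (E.symm z) (Fin.last n) = z.2 := by
          intro z
          have h := splitE_snd n (E.symm z)
          rw [← hE, MeasurableEquiv.apply_symm_apply] at h
          exact h.symm
        simp only [e1]
        refine h2.trans ?_
        have h3 : (B + (L / c' + M * L / c' ^ 2) * (n * (K1 * A))) / (c' / M) ≤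
            (1 + (L / c' + M * L / c' ^ 2) * (n * K1)) / (c' / M) * (A + B) := by
          rw [div_mul_eq_mul_div]
          apply div_le_div_of_nonneg_right _ hcM.le
          have h4 : 0 ≤ (L / c' + M * L / c' ^ 2) * (n * K1) * B := by positivity
          nlinarith
        refine h3.trans ?_
        apply mul_le_mul_of_nonneg_right _ (add_nonneg hA0 hB0)
        linarith
      · intro j
        have e1 : ∀ z, (E.symm z) j.castSucc = z.1 j := by
          intro z
          have h := splitE_fst n (E.symm z) j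
          rw [← hE, MeasurableEquiv.apply_symm_apply] at h
          exact h.symm
        simp only [e1]
        refine (h1 j).trans ?_
        have h3 : K1 * A ≤ K1 * (A + B) := mul_le_mul_of_nonneg_left (by linarith) hK1
        refine h3.trans ?_
        apply mul_le_mul_of_nonneg_right _ (add_nonneg hA0 hB0)
        linarith

end Pool.Agent.Helper764.EW
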