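import Pool.Agent.Helper764.EWDefs

set_option autoImplicit false
open MeasureTheory Filter Topology Set
open scoped ENNReal

namespace Pool.Agent.Helper764.EW

namespace LB175

theorem gauss_univ (d : ℕ) : gauss d univ = 1 := by
  rw [gauss, withDensity_apply _ MeasurableSet.univ, Measure.restrict_univ]
  have hint : Integrable (fun x : E d =>
      (2 * Real.pi) ^ (-(d : ℝ) / 2) * Real.exp (-‖x‖ ^ 2 / 2)) volume := by
    refine Integrable.const_mul ?_ _
    have h := GaussianFourier.integrable_cexp_neg_mul_sq_norm_add (V := E d) (b := (1/2 : ℂ))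
      (by norm_num) 0 0
    have h2 := h.norm
    refine h2.congr (Eventually.of_forall fun x => ?_)
    simp only [Complex.norm_exp]
    congr 1
    simp [← Complex.ofReal_pow]
    ring
  rw [← ofReal_integral_eq_lintegral_ofReal hint (Eventually.of_forall fun x => by positivity)]
  rw [integral_const_mul]
  have h1 := GaussianFourier.integral_rexp_neg_mul_sq_norm (V := E d) (b := 1 / 2) (by norm_num)
  have h2 : (fun x : E d => Real.exp (-‖x‖ ^ 2 / 2)) =
      fun x : E d => Real.exp (-(1 / 2) * ‖x‖ ^ 2) := by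
    funext x; congr 1; ring
  rw [h2, h1]
  have h3 : Module.finrank ℝ (E d) = d := by simp
  rw [h3]
  have h4 : Real.pi / (1 / 2) = 2 * Real.pi := by ring
  rw [h4, ← Real.rpow_add (by positivity)]
  rw [show -(d : ℝ) / 2 + (d : ℝ) / 2 = 0 by ring, Real.rpow_zero, ENNReal.ofReal_one]

instance gauss_prob (d : ℕ) : IsProbabilityMeasure (gauss d) := ⟨gauss_univ d⟩

/-- constant -/
noncomputable def c0 (d : ℕ) : ℝ := (2 * Real.pi) ^ (-(d : ℝ) / 2)

theorem c0_pos (d : ℕ) : 0 < c0 d := by unfold c0; positivity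

theorem gauss_ball_le {d : ℕ} {x : E (d + 1)} {r t : ℝ} (hr : 2 ≤ r) (hx : ‖x‖ = r)
    (ht0 : 0 ≤ t) (ht : t ≤ 2 / r) :
    gauss (d + 1) (Metric.ball x t) ≤
      ENNReal.ofReal (c0 (d + 1) * Real.exp 2 * Real.exp (-r ^ 2 / 2) * t ^ (d + 1)) *
        volume (Metric.ball (0 : E (d + 1)) 1) := by
  rw [gauss, withDensity_apply _ measurableSet_ball]
  have h1 : ∀ y ∈ Metric.ball x t, ENNReal.ofReal ((2 * Real.pi) ^ (-((d + 1 : ℕ) : ℝ) / 2) *
      Real.exp (-‖y‖ ^ 2 / 2)) ≤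
      ENNReal.ofReal (c0 (d + 1) * Real.exp 2 * Real.exp (-r ^ 2 / 2)) := by
    intro y hy
    apply ENNReal.ofReal_le_ofReal
    rw [← c0, mul_assoc (c0 (d + 1)), ← Real.exp_add]
    refine mul_le_mul_of_nonneg_left (Real.exp_le_exp.2 ?_) (c0_pos _).le
    rw [Metric.mem_ball, dist_eq_norm] at hy
    have h2 : r - 2 / r ≤ ‖y‖ := by
      have h3 : ‖x‖ ≤ ‖y‖ + ‖y - x‖ := by
        have := norm_sub_norm_le x y
        rw [norm_sub_rev] at this
        linarith
      rw [hx] at h3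
      linarith
    have h4 : 0 ≤ r - 2 / r := by
      have : 2 / r ≤ 1 := by rw [div_le_one (by linarith)]; exact hr
      linarith
    have h5 : (r - 2 / r) ^ 2 ≤ ‖y‖ ^ 2 := pow_le_pow_left₀ h4 h2 2
    have h6 : (r - 2 / r) ^ 2 = r ^ 2 - 4 + (2 / r) ^ 2 := by
      have : r * (2 / r) = 2 := by field_simp
      nlinarith
    have h7 : 0 ≤ (2 / r) ^ 2 := sq_nonneg _
    linarith
  calc ∫⁻ y in Metric.ball x t, ENNReal.ofReal ((2 * Real.pi) ^ (-((d + 1 : ℕ) : ℝ) / 2) *
      Real.exp (-‖y‖ ^ 2 / 2))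
      ≤ ∫⁻ y in Metric.ball x t, ENNReal.ofReal (c0 (d + 1) * Real.exp 2 * Real.exp (-r ^ 2 / 2)) :=
        setLIntegral_mono measurable_const h1
    _ = ENNReal.ofReal (c0 (d + 1) * Real.exp 2 * Real.exp (-r ^ 2 / 2)) *
        volume (Metric.ball x t) := by rw [setLIntegral_const]
    _ = _ := by
        rw [Measure.addHaar_ball _ _ ht0]
        have h3 : Module.finrank ℝ (E (d + 1)) = d + 1 := by simp
        rw [h3, ← mul_assoc, ← ENNReal.ofReal_mul (by have := c0_pos (d + 1); positivity)]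

theorem le_gauss_ball {d : ℕ} {x : E (d + 1)} {r t : ℝ} (hr : 2 ≤ r) (hx : ‖x‖ = r)
    (ht0 : 0 ≤ t) (ht : t ≤ 2 / r) :
      ENNReal.ofReal (c0 (d + 1) * Real.exp (-3) * Real.exp (-r ^ 2 / 2) * t ^ (d + 1)) *
        volume (Metric.ball (0 : E (d + 1)) 1) ≤ gauss (d + 1) (Metric.ball x t) := by
  rw [gauss, withDensity_apply _ measurableSet_ball]
  have h1 : ∀ y ∈ Metric.ball x t,
      ENNReal.ofReal (c0 (d + 1) * Real.exp (-3) * Real.exp (-r ^ 2 / 2)) ≤
      ENNReal.ofReal ((2 * Real.pi) ^ (-((d + 1 : ℕ) : ℝ) / 2) *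
      Real.exp (-‖y‖ ^ 2 / 2)) := by
    intro y hy
    apply ENNReal.ofReal_le_ofReal
    rw [← c0, mul_assoc (c0 (d + 1)), ← Real.exp_add]
    refine mul_le_mul_of_nonneg_left (Real.exp_le_exp.2 ?_) (c0_pos _).le
    rw [Metric.mem_ball, dist_eq_norm] at hy
    have h2 : ‖y‖ ≤ r + 2 / r := by
      have h3 : ‖y‖ ≤ ‖x‖ + ‖y - x‖ := by
        have := norm_sub_norm_le y x
        linarith
      rw [hx] at h3
      linarith
    have h5 : ‖y‖ ^ 2 ≤ (r + 2 / r) ^ 2 := pow_le_pow_left₀ (norm_nonneg _) h2 2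
    have h8 : 2 / r ≤ 1 := by rw [div_le_one (by linarith)]; exact hr
    have h9 : 0 ≤ 2 / r := by positivity
    have h6 : (r + 2 / r) ^ 2 = r ^ 2 + 4 + (2 / r) ^ 2 := by
      have : r * (2 / r) = 2 := by field_simp
      nlinarith
    have h7 : (2 / r) ^ 2 ≤ 1 := by nlinarith
    linarith
  calc ENNReal.ofReal (c0 (d + 1) * Real.exp (-3) * Real.exp (-r ^ 2 / 2) * t ^ (d + 1)) *
        volume (Metric.ball (0 : E (d + 1)) 1) =
      ENNReal.ofReal (c0 (d + 1) * Real.exp (-3) * Real.exp (-r ^ 2 / 2)) *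
        volume (Metric.ball x t) := by
        rw [Measure.addHaar_ball _ _ ht0]
        have h3 : Module.finrank ℝ (E (d + 1)) = d + 1 := by simp
        rw [h3, ← mul_assoc, ← ENNReal.ofReal_mul (by have := c0_pos (d + 1); positivity)]
    _ = ∫⁻ y in Metric.ball x t,
          ENNReal.ofReal (c0 (d + 1) * Real.exp (-3) * Real.exp (-r ^ 2 / 2)) := by
        rw [setLIntegral_const]
    _ ≤ _ := setLIntegral_mono' measurableSet_ball h1

/-- centres -/
theorem exists_centres (m : ℕ) {r : ℝ} (hr : 2 ≤ r) (K : ℕ)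
    (hK : (4 * (m + 1) : ℝ) * K ≤ r ^ 2) :
    ∃ x : (Fin m → Fin K) → E (m + 1), (∀ k, ‖x k‖ = r) ∧
      ∀ k l, k ≠ l → 4 / r ≤ dist (x k) (x l) := by
  have hr0 : 0 < r := by linarith
  set y : (Fin m → Fin K) → Fin m → ℝ := fun k i => 4 * (k i : ℕ) / r with hy
  have hsum : ∀ k, ∑ i, (y k i) ^ 2 ≤ r ^ 2 := by
    intro k
    have h1 : ∀ i, (y k i) ^ 2 ≤ (4 * K / r) ^ 2 := by
      intro i
      simp only [hy]
      have h2 : ((k i : ℕ) : ℝ) ≤ K := by exact_mod_cast (k i).2.le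
      gcongr
    calc ∑ i, (y k i) ^ 2 ≤ ∑ _i : Fin m, (4 * (K : ℝ) / r) ^ 2 := Finset.sum_le_sum fun i _ => h1 i
      _ = m * (4 * (K : ℝ) / r) ^ 2 := by simp
      _ ≤ r ^ 2 := by
        have hK0 : (0 : ℝ) ≤ K := Nat.cast_nonneg _
        have hm0 : (0 : ℝ) ≤ m := Nat.cast_nonneg _
        have h3 : 4 * (K : ℝ) * (m + 1) ≤ r ^ 2 := by linarith
        have h4 : (4 * (K : ℝ) * (m + 1)) ^ 2 ≤ (r ^ 2) ^ 2 := pow_le_pow_left₀ (by positivity) h3 2
        rw [div_pow, mul_div_assoc', div_le_iff₀ (by positivity)]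
        nlinarith [mul_nonneg hm0 (sq_nonneg (4 * (K : ℝ))), sq_nonneg (4 * (K : ℝ))]
  refine ⟨fun k => (WithLp.toLp 2 (Fin.cons (Real.sqrt (r ^ 2 - ∑ i, (y k i) ^ 2)) (y k)) :
    E (m + 1)), ?_, ?_⟩
  · intro k
    rw [EuclideanSpace.norm_eq, Fin.sum_univ_succ]
    simp only [Fin.cons_zero, Fin.cons_succ, Real.norm_eq_abs, sq_abs]
    rw [Real.sq_sqrt (by linarith [hsum k])]
    rw [sub_add_cancel, Real.sqrt_sq hr0.le]
  · intro k l hkl
    obtain ⟨i, hi⟩ : ∃ i, k i ≠ l i := by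
      by_contra hcon
      push Not at hcon
      exact hkl (funext hcon)
    rw [dist_eq_norm]
    refine le_trans ?_ (PiLp.norm_apply_le _ i.succ)
    simp only [PiLp.sub_apply, Fin.cons_succ, Real.norm_eq_abs, hy]
    rw [← sub_div, abs_div, abs_of_pos hr0, ← mul_sub, abs_mul]
    have h5 : (1 : ℝ) ≤ |((k i : ℕ) : ℝ) - ((l i : ℕ) : ℝ)| := by
      have h6 : ((k i : ℕ) : ℤ) - ((l i : ℕ) : ℤ) ≠ 0 := by
        intro h
        apply hi
        apply Fin.ext
        omega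
      have h7 := Int.one_le_abs h6
      exact_mod_cast h7
    rw [div_le_div_iff_of_pos_right hr0]
    rw [abs_of_pos (by norm_num : (0 : ℝ) < 4)]
    linarith

end LB175

namespace LB175

theorem emp_zero {d n : ℕ} (x : Fin n → E d) {B : Set (E d)} (hB : MeasurableSet B)
    (h : ∀ i, x i ∉ B) : emp x B = 0 := by
  rw [emp, Measure.smul_apply, Measure.finsetSum_apply]
  have : ∑ i, (Measure.dirac (x i)) B = 0 := by
    refine Finset.sum_eq_zero fun i _ => ?_
    rw [Measure.dirac_apply' _ hB, indicator_of_notMem (h i)]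
  rw [this, smul_zero]

open Classical in
theorem Wpp_ge {d n : ℕ} {p : ℝ} (hp : 0 < p) (x : Fin n → E d) {ι : Type} [Fintype ι]
    (c : ι → E d) {δ : ℝ} (hδ : 0 < δ) (hdist : ∀ k l, k ≠ l → 2 * δ ≤ dist (c k) (c l)) :
    ∑ k, (if ∀ i, x i ∉ Metric.ball (c k) (2 * δ) then
      ENNReal.ofReal (δ ^ p) * gauss d (Metric.ball (c k) δ) else 0) ≤
      Wpp p (emp x) (gauss d) := by
  unfold Wpp
  refine le_iInf₂ fun π hπ => ?_
  set A : ι → Set (E d × E d) := fun k => Prod.snd ⁻¹' Metric.ball (c k) δ with hA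
  have hAm : ∀ k, MeasurableSet (A k) := fun k => measurable_snd measurableSet_ball
  have hAd : Pairwise (Function.onFun Disjoint A) := by
    intro k l hkl
    refine Disjoint.preimage _ ?_
    refine Metric.ball_disjoint_ball ?_
    have := hdist k l hkl
    linarith
  calc ∑ k, (if ∀ i, x i ∉ Metric.ball (c k) (2 * δ) then
      ENNReal.ofReal (δ ^ p) * gauss d (Metric.ball (c k) δ) else 0)
      ≤ ∑ k, ∫⁻ z in A k, ENNReal.ofReal (‖z.1 - z.2‖ ^ p) ∂π := by
        refine Finset.sum_le_sum fun k _ => ?_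
        split_ifs with hgood
        · have h0 : π (Prod.fst ⁻¹' Metric.ball (c k) (2 * δ)) = 0 := by
            rw [← Measure.map_apply measurable_fst measurableSet_ball, hπ.1]
            exact emp_zero x measurableSet_ball hgood
          have h1 : gauss d (Metric.ball (c k) δ) = π (A k) := by
            rw [← hπ.2, Measure.map_apply measurable_snd measurableSet_ball]
          rw [h1, ← setLIntegral_const]
          refine lintegral_mono_ae ?_
          refine (ae_restrict_iff' (hAm k)).2 ?_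
          have h2 : ∀ᵐ z ∂π, z ∉ Prod.fst ⁻¹' Metric.ball (c k) (2 * δ) :=
            measure_eq_zero_iff_ae_notMem.1 h0
          filter_upwards [h2] with z hz hzA
          apply ENNReal.ofReal_le_ofReal
          refine Real.rpow_le_rpow hδ.le ?_ hp.le
          simp only [mem_preimage, Metric.mem_ball, not_lt] at hz
          have hzA' : dist z.2 (c k) < δ := hzA
          rw [← dist_eq_norm]
          have := dist_triangle z.1 z.2 (c k)
          linarith
        · exact zero_le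
    _ = ∫⁻ z in ⋃ k, A k, ENNReal.ofReal (‖z.1 - z.2‖ ^ p) ∂π := by
        rw [lintegral_iUnion hAm hAd, tsum_fintype]
    _ ≤ ∫⁻ z, ENNReal.ofReal (‖z.1 - z.2‖ ^ p) ∂π := setLIntegral_le_lintegral _ _

open Classical in
theorem lintegral_good {d n : ℕ} {ι : Type} [Fintype ι] (c : ι → E d) {δ : ℝ} 
    (w : ι → ℝ≥0∞) {q a : ℝ≥0∞} (hw : ∀ k, a ≤ w k)
    (hq : ∀ k, gauss d (Metric.ball (c k) (2 * δ)) ≤ q) :
    (Fintype.card ι : ℝ≥0∞) * (a * (1 - q) ^ n) ≤
    ∫⁻ x : Fin n → E d, ∑ k, (if ∀ i, x i ∉ Metric.ball (c k) (2 * δ) then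
      w k else 0) ∂(Measure.pi fun _ : Fin n => gauss d) := by
  have hm : ∀ k, MeasurableSet {x : Fin n → E d | ∀ i, x i ∉ Metric.ball (c k) (2 * δ)} := by
    intro k
    have : {x : Fin n → E d | ∀ i, x i ∉ Metric.ball (c k) (2 * δ)} =
        Set.pi univ (fun _ => (Metric.ball (c k) (2 * δ))ᶜ) := by
      ext x; simp
    rw [this]
    exact MeasurableSet.univ_pi fun i => measurableSet_ball.compl
  have hpi : ∀ k, (1 - q) ^ n ≤ (Measure.pi fun _ : Fin n => gauss d)
      {x : Fin n → E d | ∀ i, x i ∉ Metric.ball (c k) (2 * δ)} := by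
    intro k
    have : {x : Fin n → E d | ∀ i, x i ∉ Metric.ball (c k) (2 * δ)} =
        Set.pi univ (fun _ => (Metric.ball (c k) (2 * δ))ᶜ) := by
      ext x; simp
    rw [this, Measure.pi_pi]
    rw [Finset.prod_const, Finset.card_univ, Fintype.card_fin]
    refine pow_le_pow_left' ?_ n
    rw [prob_compl_eq_one_sub measurableSet_ball]
    exact tsub_le_tsub_left (hq k) 1
  rw [lintegral_finsetSum]
  · have hk : ∀ k ∈ (Finset.univ : Finset ι), a * (1 - q) ^ n ≤
        ∫⁻ x : Fin n → E d, (if ∀ i, x i ∉ Metric.ball (c k) (2 * δ) then w k else 0)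
          ∂(Measure.pi fun _ : Fin n => gauss d) := by
      intro k _
      have h1 : (fun x : Fin n → E d => if ∀ i, x i ∉ Metric.ball (c k) (2 * δ) then w k else 0) =
          indicator {x : Fin n → E d | ∀ i, x i ∉ Metric.ball (c k) (2 * δ)} (fun _ => w k) := by
        funext x
        simp only [indicator, mem_ofPred_eq]
      rw [h1, lintegral_indicator_const (hm k)]
      exact mul_le_mul' (hw k) (hpi k)
    calc (Fintype.card ι : ℝ≥0∞) * (a * (1 - q) ^ n) =
        ∑ _k : ι, a * (1 - q) ^ n := by simp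
      _ ≤ _ := Finset.sum_le_sum hk
  · intro k _
    exact Measurable.ite (hm k) measurable_const measurable_const

end LB175

namespace LB175

theorem exists_radius (m : ℕ) : ∀ᶠ n : ℕ in atTop, ∃ r : ℝ, 2 ≤ r ∧
    Real.exp (-r ^ 2 / 2) * (1 / r) ^ (m + 1) = 1 / n ∧ r ^ 2 ≤ 2 * Real.log n ∧
    Real.log n ≤ (m + 2) * r ^ 2 := by
  have hlog : Tendsto (fun n : ℕ => Real.log n) atTop atTop :=
    Real.tendsto_log_atTop.comp tendsto_natCast_atTop_atTop
  have h1 : ∀ᶠ n : ℕ in atTop, (2 : ℝ) ≤ Real.log n := hlog.eventually_ge_atTop 2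
  have h2 : ∀ᶠ n : ℕ in atTop, Real.exp 2 * 2 ^ (m + 1) ≤ (n : ℝ) :=
    tendsto_natCast_atTop_atTop.eventually_ge_atTop _
  filter_upwards [h1, h2] with n hn1 hn2
  set L := Real.log n with hL
  have hn0 : (0 : ℝ) < n := lt_of_lt_of_le (by positivity) hn2
  set Rr := Real.sqrt (2 * L) with hR
  have hR2 : Rr ^ 2 = 2 * L := Real.sq_sqrt (by linarith)
  have hRge : 2 ≤ Rr := by
    rw [hR]; apply Real.le_sqrt_of_sq_le; linarith
  set g : ℝ → ℝ := fun r => Real.exp (-r ^ 2 / 2) * (1 / r) ^ (m + 1) with hg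
  have hgc : ContinuousOn g (Icc 2 Rr) := by
    refine ContinuousOn.mul (by fun_prop) (ContinuousOn.pow ?_ _)
    refine ContinuousOn.div continuousOn_const continuousOn_id ?_
    intro x hx
    have hx1 : (2 : ℝ) ≤ x := hx.1
    show x ≠ 0
    linarith
  have hg2 : 1 / (n : ℝ) ≤ g 2 := by
    simp only [hg]
    have h3 : Real.exp (-(2 : ℝ) ^ 2 / 2) = (Real.exp 2)⁻¹ := by
      rw [← Real.exp_neg]; norm_num
    rw [h3, one_div_pow, ← one_div, one_div_mul_one_div]
    exact one_div_le_one_div_of_le (by positivity) hn2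
  have hgR : g Rr ≤ 1 / (n : ℝ) := by
    simp only [hg]
    have h3 : Real.exp (-Rr ^ 2 / 2) = 1 / n := by
      rw [hR2]
      rw [show -(2 * L) / 2 = -L by ring, Real.exp_neg, hL, Real.exp_log hn0, one_div]
    rw [h3]
    have h4 : (1 / Rr) ^ (m + 1) ≤ 1 := by
      apply pow_le_one₀ (by positivity)
      rw [div_le_one (by linarith)]; linarith
    have h5 : (0 : ℝ) ≤ 1 / n := by positivity
    nlinarith
  obtain ⟨r, hr, hgr⟩ := intermediate_value_Icc' hRge hgc ⟨hgR, hg2⟩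
  have hr0 : 0 < r := by linarith [hr.1]
  refine ⟨r, hr.1, hgr, ?_, ?_⟩
  · rw [← hR2]; exact pow_le_pow_left₀ hr0.le hr.2 2
  · have h6 : Real.log (g r) = -r ^ 2 / 2 - (m + 1) * Real.log r := by
      simp only [hg]
      rw [Real.log_mul (Real.exp_pos _).ne' (by positivity), Real.log_exp, Real.log_pow,
        one_div, Real.log_inv]
      push_cast; ring
    rw [hgr, one_div, Real.log_inv, ← hL] at h6
    have h7 : Real.log r ≤ r ^ 2 := by
      have := Real.log_le_sub_one_of_pos hr0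
      nlinarith [hr.1]
    have h8 : (0 : ℝ) ≤ m := Nat.cast_nonneg _
    have h9 : (m + 1 : ℝ) * Real.log r ≤ (m + 1) * r ^ 2 :=
      mul_le_mul_of_nonneg_left h7 (by linarith)
    nlinarith

end LB175

/-- Target of this job: the lower bound. -/
theorem lower_bound (m : ℕ) (p : ℝ) (hp : 0 < p) :
    ∃ c : ℝ, 0 < c ∧ ∀ᶠ n : ℕ in atTop,
      ENNReal.ofReal (c * (Real.log n) ^ ((m : ℝ) - p / 2) / n) ≤
        ∫⁻ x, Wpp p (emp x) (gauss (m + 1)) ∂(Measure.pi fun _ : Fin n => gauss (m + 1)) := by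
  classical
  set vol := volume (Metric.ball (0 : E (m + 1)) 1) with hvol
  have hvfin : vol ≠ ⊤ := measure_ball_lt_top.ne
  have hvpos : vol ≠ 0 := (Metric.measure_ball_pos volume _ one_pos).ne'
  set v := vol.toReal with hv
  have hv0 : 0 < v := ENNReal.toReal_pos hvpos hvfin
  have hvv : vol = ENNReal.ofReal v := (ENNReal.ofReal_toReal hvfin).symm
  have hc0 := LB175.c0_pos (m + 1)
  set C1 : ℝ := LB175.c0 (m + 1) * Real.exp 2 * 2 ^ (m + 1) * v with hC1
  set c1 : ℝ := LB175.c0 (m + 1) * Real.exp (-3) * v with hc1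
  have hC1pos : 0 < C1 := by positivity
  have hc1pos : 0 < c1 := by positivity
  set c2 : ℝ := Real.exp (-C1) / 2 with hc2
  have hc2pos : 0 < c2 := by positivity
  set κ : ℝ := 1 / (8 * (m + 1) * (m + 2)) with hκ
  have hκpos : 0 < κ := by positivity
  refine ⟨κ ^ m * 2 ^ (-(p / 2)) * c1 * c2, by positivity, ?_⟩
  have hlog : Tendsto (fun n : ℕ => Real.log n) atTop atTop :=
    Real.tendsto_log_atTop.comp tendsto_natCast_atTop_atTop
  have h1 : ∀ᶠ n : ℕ in atTop, (8 * (m + 1) * (m + 2) : ℝ) ≤ Real.log n :=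
    hlog.eventually_ge_atTop _
  have h2 : ∀ᶠ n : ℕ in atTop, c2 < (1 + -C1 / (n : ℝ)) ^ n := by
    refine (Real.tendsto_one_add_div_pow_exp (-C1)).eventually (lt_mem_nhds ?_)
    rw [hc2]
    linarith [Real.exp_pos (-C1)]
  have h3 : ∀ᶠ n : ℕ in atTop, C1 + 1 ≤ (n : ℝ) :=
    tendsto_natCast_atTop_atTop.eventually_ge_atTop _
  filter_upwards [LB175.exists_radius m, h1, h2, h3] with n hr hn1 hn2 hn3
  obtain ⟨r, hr2, hreq, hrL, hLr⟩ := hr
  set L := Real.log n with hL
  have hn0 : (0 : ℝ) < n := by linarith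
  have hr0 : 0 < r := by linarith
  have hm0 : (0 : ℝ) ≤ m := Nat.cast_nonneg _
  have hL0 : 0 < L := lt_of_lt_of_le (by positivity) hn1
  set δ : ℝ := 1 / r with hδ
  have hδ0 : 0 < δ := by positivity
  set K : ℕ := ⌊r ^ 2 / (4 * (m + 1))⌋₊ with hK
  have hKle : (4 * (m + 1) : ℝ) * K ≤ r ^ 2 := by
    have := Nat.floor_le (a := r ^ 2 / (4 * ((m : ℝ) + 1))) (by positivity)
    rw [le_div_iff₀ (by positivity)] at this
    linarith
  have hKge : κ * L ≤ K := by
    have h4 : r ^ 2 / (4 * ((m : ℝ) + 1)) < K + 1 := Nat.lt_floor_add_one _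
    have h5 : L / (m + 2) ≤ r ^ 2 := by
      rw [div_le_iff₀ (by positivity)]; linarith
    have h6 : 8 * ((m : ℝ) + 1) ≤ r ^ 2 := by
      refine le_trans ?_ h5
      rw [le_div_iff₀ (by positivity)]; exact hn1
    have h7 : r ^ 2 / (8 * ((m : ℝ) + 1)) ≤ K := by
      have h8 : r ^ 2 / (4 * ((m : ℝ) + 1)) = r ^ 2 / (8 * ((m : ℝ) + 1)) +
          r ^ 2 / (8 * ((m : ℝ) + 1)) := by field_simp; ring
      have h9 : 1 ≤ r ^ 2 / (8 * ((m : ℝ) + 1)) := by
        rw [le_div_iff₀ (by positivity)]; linarith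
      linarith
    refine le_trans ?_ h7
    rw [hκ, le_div_iff₀ (by positivity)]
    have h10 : 1 / (8 * ((m : ℝ) + 1) * (m + 2)) * L * (8 * (m + 1)) = L / (m + 2) := by
      field_simp
    rw [h10]; exact h5
  obtain ⟨x, hx1, hx2⟩ := LB175.exists_centres m hr2 K hKle
  have hdist : ∀ k l, k ≠ l → 2 * δ ≤ dist (x k) (x l) := by
    intro k l hkl
    have := hx2 k l hkl
    have h4 : 2 * δ ≤ 4 / r := by rw [hδ]; rw [mul_one_div]; gcongr; norm_num
    linarith
  have hδ1 : δ ≤ 2 / r := by rw [hδ]; gcongr; norm_num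
  have hδ2 : 2 * δ ≤ 2 / r := by rw [hδ, mul_one_div]
  have hpow : Real.exp (-r ^ 2 / 2) * δ ^ (m + 1) = 1 / n := hreq
  -- bounds for the Gaussian measure
  have hlow : ∀ k, ENNReal.ofReal (c1 / n) ≤ gauss (m + 1) (Metric.ball (x k) δ) := by
    intro k
    refine le_trans (le_of_eq ?_) (LB175.le_gauss_ball hr2 (hx1 k) hδ0.le hδ1)
    rw [← hvol, hvv, ← ENNReal.ofReal_mul (by positivity)]
    congr 1
    rw [mul_assoc (LB175.c0 (m + 1) * Real.exp (-3)), hpow, hc1]
    ring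
  have hup : ∀ k, gauss (m + 1) (Metric.ball (x k) (2 * δ)) ≤ ENNReal.ofReal (C1 / n) := by
    intro k
    refine le_trans (LB175.gauss_ball_le hr2 (hx1 k) (by positivity) hδ2) (le_of_eq ?_)
    rw [← hvol, hvv, ← ENNReal.ofReal_mul (by positivity)]
    congr 1
    rw [mul_pow]
    have : LB175.c0 (m + 1) * Real.exp 2 * Real.exp (-r ^ 2 / 2) * (2 ^ (m + 1) * δ ^ (m + 1)) * v =
      LB175.c0 (m + 1) * Real.exp 2 * 2 ^ (m + 1) * v *
        (Real.exp (-r ^ 2 / 2) * δ ^ (m + 1)) := by ring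
    rw [this, hpow, hC1]
    ring
  have hmain : ((K ^ m : ℕ) : ℝ≥0∞) * (ENNReal.ofReal (δ ^ p * (c1 / n)) *
      (1 - ENNReal.ofReal (C1 / n)) ^ n) ≤
      ∫⁻ x, Wpp p (emp x) (gauss (m + 1)) ∂(Measure.pi fun _ : Fin n => gauss (m + 1)) := by
    have h4 := LB175.lintegral_good (n := n) (c := x) (δ := δ)
      (w := fun k => ENNReal.ofReal (δ ^ p) * gauss (m + 1) (Metric.ball (x k) δ))
      (q := ENNReal.ofReal (C1 / n)) (a := ENNReal.ofReal (δ ^ p * (c1 / n)))
      (fun k => by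
        rw [ENNReal.ofReal_mul (by positivity)]
        exact mul_le_mul' le_rfl (hlow k)) hup
    have h5 : Fintype.card (Fin m → Fin K) = K ^ m := by simp
    rw [h5] at h4
    refine h4.trans (lintegral_mono fun y => ?_)
    exact LB175.Wpp_ge hp y x hδ0 hdist
  refine le_trans ?_ hmain
  have hq : (1 - ENNReal.ofReal (C1 / n)) ^ n = ENNReal.ofReal ((1 + -C1 / (n : ℝ)) ^ n) := by
    rw [← ENNReal.ofReal_one, ← ENNReal.ofReal_sub _ (by positivity), ENNReal.ofReal_pow]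
    · congr 2; ring
    · have : C1 / n ≤ 1 := by rw [div_le_one hn0]; linarith
      have h6 : 1 + -C1 / (n : ℝ) = 1 - C1 / n := by ring
      linarith
  rw [hq, ← ENNReal.ofReal_natCast, ← ENNReal.ofReal_mul (by positivity),
    ← ENNReal.ofReal_mul (by positivity)]
  apply ENNReal.ofReal_le_ofReal
  have hδp : (2 : ℝ) ^ (-(p / 2)) * L ^ (-(p / 2)) ≤ δ ^ p := by
    rw [← Real.mul_rpow (by norm_num) hL0.le, hδ, one_div, Real.inv_rpow hr0.le,
      Real.rpow_neg (by positivity)]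
    apply inv_anti₀ (by positivity)
    have h7 : r ^ p = (r ^ 2) ^ (p / 2) := by
      rw [← Real.rpow_natCast, ← Real.rpow_mul hr0.le]
      congr 1; push_cast; ring
    rw [h7]
    exact Real.rpow_le_rpow (by positivity) hrL (by positivity)
  have hLm : L ^ ((m : ℝ) - p / 2) = L ^ m * L ^ (-(p / 2)) := by
    rw [sub_eq_add_neg, Real.rpow_add hL0, Real.rpow_natCast]
  have hKm : (κ * L) ^ m ≤ (K : ℝ) ^ m := pow_le_pow_left₀ (by positivity) hKge m
  calc κ ^ m * 2 ^ (-(p / 2)) * c1 * c2 * L ^ ((m : ℝ) - p / 2) / n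
      = (κ * L) ^ m * ((2 ^ (-(p / 2)) * L ^ (-(p / 2))) * (c1 / n) * c2) := by
        rw [hLm, mul_pow]; ring
    _ ≤ (K : ℝ) ^ m * (δ ^ p * (c1 / n) * (1 + -C1 / (n : ℝ)) ^ n) := by
        gcongr
    _ = _ := by push_cast; ring

end Pool.Agent.Helper764.EW
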