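import Mathlib

set_option autoImplicit false
open MeasureTheory Filter Topology Set
open scoped ENNReal

namespace Pool.Agent.Helper764.EW

private lemma peak_summable (b s : ℝ) (hb : 0 < b) :
    Summable fun i : ℕ => (1 + (i : ℝ)) ^ s * (2 : ℝ) ^ (-(b * (i : ℝ))) := by
  have h1 : Summable fun i : ℕ => ((i : ℝ) ^ (⌈s⌉₊) : ℝ) * ((2 : ℝ) ^ (-b)) ^ i := by
    apply summable_pow_mul_geometric_of_norm_lt_one
    rw [Real.norm_of_nonneg (Real.rpow_nonneg (by norm_num) _)]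
    exact Real.rpow_lt_one_of_one_lt_of_neg (by norm_num) (by linarith)
  have h2 := (summable_nat_add_iff 1).2 h1
  have h3 := h2.mul_left (((2 : ℝ) ^ (-b))⁻¹)
  refine Summable.of_nonneg_of_le (fun i => by positivity) (fun i => ?_) h3
  have hp : (0 : ℝ) < (2 : ℝ) ^ (-b) := Real.rpow_pos_of_pos (by norm_num) _
  have e1 : (2 : ℝ) ^ (-(b * (i : ℝ))) = ((2 : ℝ) ^ (-b)) ^ i := by
    rw [← Real.rpow_natCast, ← Real.rpow_mul (by norm_num)]
    congr 1; ring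
  rw [e1]
  push_cast
  have e2 : ((2 : ℝ) ^ (-b))⁻¹ * (((i : ℝ) + 1) ^ ⌈s⌉₊ * ((2 : ℝ) ^ (-b)) ^ (i + 1)) =
      ((i : ℝ) + 1) ^ ⌈s⌉₊ * ((2 : ℝ) ^ (-b)) ^ i := by
    rw [pow_succ]; field_simp
  rw [e2]
  apply mul_le_mul_of_nonneg_right _ (by positivity)
  rw [add_comm, ← Real.rpow_natCast]
  apply Real.rpow_le_rpow_of_exponent_le
  · have : (0 : ℝ) ≤ i := Nat.cast_nonneg i
    linarith
  · exact Nat.le_ceil s

private lemma peak_fold (g : ℕ → ℝ) (hg : ∀ i, 0 ≤ g i) (hs : Summable g) (m L : ℕ) :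
    ∑ l ∈ Finset.range L, g (Int.natAbs ((l : ℤ) - m)) ≤ 2 * ∑' i, g i := by
  classical
  rw [← Finset.sum_filter_add_sum_filter_not (Finset.range L) (fun l => l ≤ m)]
  have key : ∀ A : Finset ℕ, Set.InjOn (fun l : ℕ => Int.natAbs ((l : ℤ) - m)) A →
      ∑ l ∈ A, g (Int.natAbs ((l : ℤ) - m)) ≤ ∑' i, g i := by
    intro A hA
    rw [← Finset.sum_image (f := g) hA]
    exact hs.sum_le_tsum _ (fun i _ => hg i)
  have h1 := key ((Finset.range L).filter (fun l => l ≤ m)) (by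
    intro x hx y hy hxy
    simp only [Finset.coe_filter, Finset.mem_range, Set.mem_ofPred_eq] at hx hy
    simp only at hxy
    omega)
  have h2 := key ((Finset.range L).filter (fun l => ¬ l ≤ m)) (by
    intro x hx y hy hxy
    simp only [Finset.coe_filter, Finset.mem_range, Set.mem_ofPred_eq] at hx hy
    simp only at hxy
    omega)
  linarith

private lemma natAbs_cast (l m : ℕ) : |(l : ℝ) - m| = ((Int.natAbs ((l : ℤ) - m) : ℕ) : ℝ) := by
  rw [Nat.cast_natAbs]; push_cast; rfl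

/-- Weighted sum around a peak. -/
theorem peak_sum (b s : ℝ) (hb : 0 < b) (hs : 0 ≤ s) : ∃ C : ℝ, 0 < C ∧ ∀ m L : ℕ,
    ∑ l ∈ Finset.range L, (1 + (l : ℝ)) ^ (-s) * (2 : ℝ) ^ (-(b * |(l : ℝ) - m|)) ≤
      C * (1 + (m : ℝ)) ^ (-s) := by
  have hsum := peak_summable b s hb
  set g : ℕ → ℝ := fun i => (1 + (i : ℝ)) ^ s * (2 : ℝ) ^ (-(b * (i : ℝ))) with hg
  have hg0 : ∀ i, 0 ≤ g i := fun i => by positivity
  have hT : 0 ≤ ∑' i, g i := tsum_nonneg hg0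
  refine ⟨2 * (∑' i, g i) + 1, by linarith, fun m L => ?_⟩
  have h1 : ∀ l ∈ Finset.range L, (1 + (l : ℝ)) ^ (-s) * (2 : ℝ) ^ (-(b * |(l : ℝ) - m|)) ≤
      (1 + (m : ℝ)) ^ (-s) * g (Int.natAbs ((l : ℤ) - m)) := by
    intro l _
    rw [natAbs_cast]
    set k := Int.natAbs ((l : ℤ) - m) with hk
    have hkm : (1 + (m : ℝ)) ≤ (1 + (l : ℝ)) * (1 + (k : ℝ)) := by
      have h3 : m ≤ l + k := by omega
      have h4 : (m : ℝ) ≤ l + k := by exact_mod_cast h3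
      have h5 : (0 : ℝ) ≤ (l : ℝ) * k := by positivity
      nlinarith
    have hl : (0 : ℝ) < 1 + l := by positivity
    have hm : (0 : ℝ) < 1 + m := by positivity
    have hk0 : (0 : ℝ) < 1 + k := by positivity
    have h6 : (1 + (l : ℝ)) ^ (-s) ≤ (1 + (m : ℝ)) ^ (-s) * (1 + (k : ℝ)) ^ s := by
      have h7 : (1 + (m : ℝ)) ^ s ≤ (1 + (l : ℝ)) ^ s * (1 + (k : ℝ)) ^ s := by
        rw [← Real.mul_rpow hl.le hk0.le]
        exact Real.rpow_le_rpow hm.le hkm hs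
      rw [Real.rpow_neg hl.le, Real.rpow_neg hm.le]
      have hls : (0 : ℝ) < (1 + (l : ℝ)) ^ s := by positivity
      have hms : (0 : ℝ) < (1 + (m : ℝ)) ^ s := by positivity
      rw [inv_mul_eq_div, inv_eq_one_div, div_le_div_iff₀ hls hms]
      linarith
    rw [hg]
    calc (1 + (l : ℝ)) ^ (-s) * (2 : ℝ) ^ (-(b * (k : ℝ)))
        ≤ ((1 + (m : ℝ)) ^ (-s) * (1 + (k : ℝ)) ^ s) * (2 : ℝ) ^ (-(b * (k : ℝ))) :=
          mul_le_mul_of_nonneg_right h6 (by positivity)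
      _ = _ := by ring
  refine (Finset.sum_le_sum h1).trans ?_
  rw [← Finset.mul_sum, mul_comm]
  apply mul_le_mul_of_nonneg_right _ (by positivity)
  have := peak_fold g hg0 hsum m L
  linarith

/-- Bounded products around a peak. -/
theorem peak_prod (b s : ℝ) (hb : 0 < b) (hs : 0 ≤ s) : ∃ C : ℝ, 1 ≤ C ∧ ∀ m L : ℕ,
    ∏ l ∈ Finset.range L, (1 + (2 : ℝ) ^ (-(b * |(l : ℝ) - m|))) ^ s ≤ C := by
  have hsum := peak_summable b 0 hb
  set g : ℕ → ℝ := fun i => (1 + (i : ℝ)) ^ (0 : ℝ) * (2 : ℝ) ^ (-(b * (i : ℝ))) with hg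
  have hg0 : ∀ i, 0 ≤ g i := fun i => by positivity
  have hT : 0 ≤ ∑' i, g i := tsum_nonneg hg0
  refine ⟨Real.exp (s * (2 * ∑' i, g i)), Real.one_le_exp (by positivity), fun m L => ?_⟩
  have h1 : ∀ l ∈ Finset.range L, (1 + (2 : ℝ) ^ (-(b * |(l : ℝ) - m|))) ^ s ≤
      Real.exp (s * g (Int.natAbs ((l : ℤ) - m))) := by
    intro l _
    rw [natAbs_cast]
    set k := Int.natAbs ((l : ℤ) - m) with hk
    have h2 : g k = (2 : ℝ) ^ (-(b * (k : ℝ))) := by rw [hg]; simp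
    rw [h2, mul_comm s, Real.exp_mul]
    apply Real.rpow_le_rpow (by positivity) _ hs
    have := Real.add_one_le_exp ((2 : ℝ) ^ (-(b * (k : ℝ))))
    linarith
  refine (Finset.prod_le_prod (fun l _ => by positivity) h1).trans ?_
  rw [← Real.exp_sum, ← Finset.mul_sum]
  apply Real.exp_le_exp.2
  exact mul_le_mul_of_nonneg_left (peak_fold g hg0 hsum m L) hs

end Pool.Agent.Helper764.EW
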