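import Mathlib

set_option autoImplicit false
open MeasureTheory Filter Topology Set
open scoped ENNReal

namespace Pool.Agent.Helper764.EW.R

namespace Radial

noncomputable def g (m : ℕ) (r : ℝ) : ℝ := r ^ m * Real.exp (-r ^ 2 / 2)

noncomputable def V (m : ℕ) (R : ℝ) : ℝ := ∫ r in Ioi R, g m r

lemma g_cont (m : ℕ) : Continuous (g m) := by unfold g; fun_prop

lemma g_int (m : ℕ) : Integrable (g m) := by
  have h := integrable_rpow_mul_exp_neg_mul_sq (b := 1/2) (by norm_num) (s := (m:ℝ))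
    (by have : (0:ℝ) ≤ m := Nat.cast_nonneg m
        linarith)
  refine h.congr (Eventually.of_forall fun x => ?_)
  simp only [g, Real.rpow_natCast]
  congr 2
  ring

lemma g_nonneg (m : ℕ) {r : ℝ} (hr : 0 ≤ r) : 0 ≤ g m r := by unfold g; positivity

lemma g_le (m : ℕ) {r : ℝ} (hr : 0 ≤ r) : g m r ≤ (m.factorial : ℝ) * Real.exp (1/2) := by
  unfold g
  have h1 : r ^ m ≤ (m.factorial : ℝ) * Real.exp r := by
    have := Real.pow_div_factorial_le_exp r hr m
    rw [div_le_iff₀ (by positivity)] at this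
    linarith
  calc r ^ m * Real.exp (-r ^ 2 / 2) ≤ ((m.factorial : ℝ) * Real.exp r) * Real.exp (-r ^ 2 / 2) := by
        gcongr
    _ = (m.factorial : ℝ) * Real.exp (r + -r ^ 2 / 2) := by rw [Real.exp_add]; ring
    _ ≤ _ := by
        gcongr
        nlinarith [sq_nonneg (r - 1)]

lemma V_sub (m : ℕ) (a b : ℝ) : V m a - V m b = ∫ x in a..b, g m x :=
  intervalIntegral.integral_Ioi_sub_Ioi' (g_int m).integrableOn (g_int m).integrableOn

lemma V_cont (m : ℕ) : Continuous (V m) := by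
  have : V m = fun b => V m 0 - ∫ x in (0:ℝ)..b, g m x := by
    funext b
    rw [← V_sub]; ring
  rw [this]
  exact continuous_const.sub ((g_int m).continuous_primitive 0)

lemma V_lip (m : ℕ) {a b : ℝ} (ha : 0 ≤ a) (hb : 0 ≤ b) :
    |V m a - V m b| ≤ ((m.factorial : ℝ) * Real.exp (1/2)) * |a - b| := by
  rw [V_sub, abs_sub_comm a b]
  have := intervalIntegral.norm_integral_le_of_norm_le_const (a := a) (b := b) (f := g m)
    (C := (m.factorial : ℝ) * Real.exp (1/2)) ?_
  · simpa [Real.norm_eq_abs] using this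
  · intro x hx
    have hx0 : 0 ≤ x := by
      rw [uIoc] at hx
      have := hx.1
      exact (lt_of_le_of_lt (le_min ha hb) this).le
    rw [Real.norm_eq_abs, abs_of_nonneg (g_nonneg m hx0)]
    exact g_le m hx0

/-- key decay -/
lemma V_decay (m : ℕ) {R R' : ℝ} (hR : (m:ℝ) + 1 ≤ R) (hRR : R ≤ R') :
    V m R' ≤ V m R * Real.exp (-(R' ^ 2 - R ^ 2) / 4) := by
  set δ := R' - R with hδ
  have hδ0 : 0 ≤ δ := by linarith
  have hm0 : (0:ℝ) ≤ m := Nat.cast_nonneg m
  have h1 : V m R' = ∫ r in Ioi R, g m (r + δ) := by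
    have hp := measurePreserving_add_right (volume : Measure ℝ) δ
    have := hp.setIntegral_preimage_emb (measurableEmbedding_addRight δ) (g m) (Ioi R')
    unfold V
    rw [← this]
    have : (fun x => x + δ) ⁻¹' Ioi R' = Ioi R := by
      ext x; simp only [mem_preimage, mem_Ioi, hδ]; constructor <;> intro h <;> linarith
    rw [this]
  rw [h1]
  unfold V
  rw [← integral_mul_const]
  apply setIntegral_mono_on
  · exact ((g_int m).comp_add_right δ).integrableOn
  · exact ((g_int m).mul_const _).integrableOn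
  · exact measurableSet_Ioi
  · intro r hr
    have hrR : R < r := hr
    have hr0 : 0 < r := by linarith
    unfold g
    have h2 : (r + δ) ^ m ≤ r ^ m * Real.exp (m * (δ / r)) := by
      have h3 : r + δ ≤ r * Real.exp (δ / r) := by
        have := Real.add_one_le_exp (δ / r)
        calc r + δ = r * (δ / r + 1) := by field_simp; ring
          _ ≤ _ := by gcongr
      calc (r + δ) ^ m ≤ (r * Real.exp (δ / r)) ^ m := by gcongr
        _ = r ^ m * Real.exp (m * (δ / r)) := by rw [mul_pow, ← Real.exp_nat_mul]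
    calc (r + δ) ^ m * Real.exp (-(r + δ) ^ 2 / 2)
        ≤ (r ^ m * Real.exp (m * (δ / r))) * Real.exp (-(r + δ) ^ 2 / 2) := by gcongr
      _ = r ^ m * Real.exp (m * (δ / r) + -(r + δ) ^ 2 / 2) := by rw [Real.exp_add]; ring
      _ ≤ r ^ m * Real.exp (-r ^ 2 / 2 + -(R' ^ 2 - R ^ 2) / 4) := by
          apply mul_le_mul_of_nonneg_left _ (by positivity)
          apply Real.exp_le_exp.mpr
          have h4 : (m:ℝ) / r ≤ r / 2 := by
            rw [div_le_div_iff₀ hr0 (by norm_num)]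
            nlinarith
          have h5 : (m:ℝ) * (δ / r) ≤ r / 2 * δ := by
            calc (m:ℝ) * (δ / r) = (m:ℝ) / r * δ := by ring
              _ ≤ _ := by gcongr
          have h6 : R' = R + δ := by rw [hδ]; ring
          rw [h6]
          nlinarith
      _ = _ := by rw [Real.exp_add]; ring

lemma V_lower (m : ℕ) {R : ℝ} (hR : (m:ℝ) + 1 ≤ R) : Real.exp (-1 - R ^ 2) ≤ V m R := by
  have hm0 : (0:ℝ) ≤ m := Nat.cast_nonneg m
  have h1 : ∫ r in Ioc R (R+1), g m r ≤ V m R := by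
    unfold V
    apply setIntegral_mono_set (g_int m).integrableOn
    · filter_upwards [ae_restrict_mem (measurableSet_Ioi (a := R))] with x hx
      have : R < x := hx
      exact g_nonneg m (by linarith)
    · exact Ioc_subset_Ioi_self.eventuallyLE
  refine le_trans ?_ h1
  have h2 : ∫ r in Ioc R (R+1), Real.exp (-1 - R ^ 2) ≤ ∫ r in Ioc R (R+1), g m r := by
    apply setIntegral_mono_on
    · simp
    · exact (g_int m).integrableOn
    · exact measurableSet_Ioc
    · intro r hr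
      have h3 : R < r := hr.1
      have h4 : r ≤ R + 1 := hr.2
      unfold g
      have h5 : (1:ℝ) ≤ r ^ m := one_le_pow₀ (by linarith)
      calc Real.exp (-1 - R ^ 2) ≤ Real.exp (-r ^ 2 / 2) := by
            apply Real.exp_le_exp.mpr
            nlinarith [sq_nonneg (R - 1)]
        _ = 1 * Real.exp (-r ^ 2 / 2) := by ring
        _ ≤ _ := by gcongr
  refine le_trans (le_of_eq ?_) h2
  simp

lemma V_pos (m : ℕ) {R : ℝ} (hR : (m:ℝ) + 1 ≤ R) : 0 < V m R :=
  lt_of_lt_of_le (Real.exp_pos _) (V_lower m hR)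

lemma V_log (m : ℕ) {R R' : ℝ} (hR : (m:ℝ) + 1 ≤ R) (hRR : R ≤ R') :
    (R / 2) * (R' - R) ≤ Real.log (V m R) - Real.log (V m R') := by
  have h := V_decay m hR hRR
  have hp := V_pos m hR
  have hp' := V_pos m (hR.trans hRR)
  have := Real.log_le_log hp' h
  rw [Real.log_mul hp.ne' (Real.exp_pos _).ne', Real.log_exp] at this
  nlinarith [sq_nonneg (R' - R)]

lemma V_strictAnti (m : ℕ) {R R' : ℝ} (hR : (m:ℝ) + 1 ≤ R) (hRR : R < R') : V m R' < V m R := by
  have hm0 : (0:ℝ) ≤ m := Nat.cast_nonneg m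
  have h := V_log m hR hRR.le
  have hp := V_pos m hR
  have hp' := V_pos m (hR.trans hRR.le)
  rw [← Real.log_lt_log_iff hp' hp]
  have : 0 < (R / 2) * (R' - R) := by
    apply mul_pos <;> linarith
  linarith

lemma V_le_iff (m : ℕ) {R R' : ℝ} (hR : (m:ℝ) + 1 ≤ R) (hR' : (m:ℝ) + 1 ≤ R') :
    V m R' ≤ V m R ↔ R ≤ R' := by
  constructor
  · intro h
    by_contra hlt
    push Not at hlt
    have := V_strictAnti m hR' hlt
    linarith
  · intro h
    rcases h.eq_or_lt with h | h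
    · rw [h]
    · exact (V_strictAnti m hR h).le


lemma V_tendsto_small (m : ℕ) {y : ℝ} (hy : 0 < y) : ∃ R, (m:ℝ) + 1 ≤ R ∧ V m R ≤ y := by
  have hm0 : (0:ℝ) ≤ m := Nat.cast_nonneg m
  set M : ℝ := (m:ℝ) + 1 with hM
  have hVM := V_pos m (le_refl M)
  -- choose R with V M exp(-(R^2-M^2)/4) ≤ y
  set t : ℝ := max 0 (Real.log (V m M) - Real.log y) with ht
  refine ⟨M + 4 * t, by have := le_max_left 0 (Real.log (V m M) - Real.log y); linarith, ?_⟩
  have ht0 : 0 ≤ t := le_max_left _ _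
  have ht1 : Real.log (V m M) - Real.log y ≤ t := le_max_right _ _
  have hR' : M ≤ M + 4 * t := by linarith
  have h := V_log m (le_refl M) hR'
  have hp' := V_pos m hR'
  rw [← Real.log_le_log_iff hp' hy]
  have : t ≤ (M / 2) * (M + 4 * t - M) := by nlinarith
  linarith

lemma exists_quantile (m : ℕ) {s₀ S : ℝ} (hs : (m:ℝ) + 1 ≤ s₀) (hS : S ∈ Ioo (0:ℝ) 1) :
    ∃ R, s₀ ≤ R ∧ V m R = S * V m s₀ := by
  have hVs := V_pos m hs
  have hy : 0 < S * V m s₀ := mul_pos hS.1 hVs
  obtain ⟨R1, hR1, hV1⟩ := V_tendsto_small m hy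
  have hle : s₀ ≤ R1 := by
    by_contra hlt
    push Not at hlt
    have := V_strictAnti m hR1 hlt
    nlinarith [hS.2]
  have hc : ContinuousOn (V m) (Icc s₀ R1) := (V_cont m).continuousOn
  have := intermediate_value_Icc' hle hc
  have hmem : S * V m s₀ ∈ Icc (V m R1) (V m s₀) := ⟨hV1, by nlinarith [hS.2]⟩
  obtain ⟨R, hR, hRV⟩ := this hmem
  exact ⟨R, hR.1, hRV⟩

open Classical in
noncomputable def Q (m : ℕ) (s₀ S : ℝ) : ℝ :=
  if h : (m:ℝ) + 1 ≤ s₀ ∧ S ∈ Ioo (0:ℝ) 1 then (exists_quantile m h.1 h.2).choose else 0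

lemma Q_spec (m : ℕ) {s₀ S : ℝ} (hs : (m:ℝ) + 1 ≤ s₀) (hS : S ∈ Ioo (0:ℝ) 1) :
    s₀ ≤ Q m s₀ S ∧ V m (Q m s₀ S) = S * V m s₀ := by
  unfold Q
  rw [dif_pos ⟨hs, hS⟩]
  exact (exists_quantile m hs hS).choose_spec

lemma Q_meas (m : ℕ) : Measurable (Function.uncurry (Q m)) := by
  have hm0 : (0:ℝ) ≤ m := Nat.cast_nonneg m
  apply measurable_of_Iic
  intro t
  set D : Set (ℝ × ℝ) := {p | (m:ℝ) + 1 ≤ p.1 ∧ p.2 ∈ Ioo (0:ℝ) 1} with hD
  have hDm : MeasurableSet D := by
    apply MeasurableSet.inter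
    · exact measurableSet_le measurable_const measurable_fst
    · exact measurableSet_Ioo.preimage measurable_snd
  have hE : MeasurableSet {p : ℝ × ℝ | V m t ≤ p.2 * V m p.1} := by
    apply measurableSet_le measurable_const
    exact measurable_snd.mul ((V_cont m).measurable.comp measurable_fst)
  by_cases ht : (m:ℝ) + 1 ≤ t
  · have : Function.uncurry (Q m) ⁻¹' Iic t = (D ∩ {p : ℝ × ℝ | V m t ≤ p.2 * V m p.1}) ∪ Dᶜ := by
      ext ⟨s, S⟩
      simp only [mem_preimage, Function.uncurry_apply_pair, mem_Iic, mem_union, mem_inter_iff,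
        mem_compl_iff, Set.mem_ofPred_eq]
      by_cases h : (s, S) ∈ D
      · obtain ⟨h1, h2⟩ := Q_spec m h.1 h.2
        have h3 : (m:ℝ) + 1 ≤ Q m s S := h.1.trans h1
        simp only [h, true_and, not_true_eq_false, or_false]
        rw [← h2, V_le_iff m h3 ht]
      · have hq : Q m s S = 0 := by
          unfold Q; rw [dif_neg]; exact h
        simp only [h, false_and, not_false_eq_true, or_true, iff_true, hq]
        linarith
    rw [this]
    exact (hDm.inter hE).union hDm.compl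
  · push Not at ht
    by_cases ht0 : 0 ≤ t
    · have : Function.uncurry (Q m) ⁻¹' Iic t = Dᶜ := by
        ext ⟨s, S⟩
        simp only [mem_preimage, Function.uncurry_apply_pair, mem_Iic, mem_compl_iff]
        by_cases h : (s, S) ∈ D
        · obtain ⟨h1, h2⟩ := Q_spec m h.1 h.2
          have h3 : (m:ℝ) + 1 ≤ Q m s S := h.1.trans h1
          simp only [h, not_true_eq_false, iff_false, not_le]
          linarith
        · have hq : Q m s S = 0 := by
            unfold Q; rw [dif_neg]; exact h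
          simp only [h, not_false_eq_true, iff_true, hq]
          exact ht0
      rw [this]
      exact hDm.compl
    · have : Function.uncurry (Q m) ⁻¹' Iic t = ∅ := by
        ext ⟨s, S⟩
        simp only [mem_preimage, Function.uncurry_apply_pair, mem_Iic, mem_empty_iff_false,
          iff_false, not_le]
        by_cases h : (s, S) ∈ D
        · obtain ⟨h1, h2⟩ := Q_spec m h.1 h.2
          have h3 : (m:ℝ) + 1 ≤ Q m s S := h.1.trans h1
          linarith
        · have hq : Q m s S = 0 := by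
            unfold Q; rw [dif_neg]; exact h
          rw [hq]; linarith
      rw [this]
      exact MeasurableSet.empty

lemma Q_change (m : ℕ) {s₀ : ℝ} (hs : (m:ℝ) + 1 ≤ s₀) (F : ℝ → ℝ≥0∞) (hF : Measurable F) :
    ∫⁻ r in Ioi s₀, ENNReal.ofReal (g m r) * F r =
        ENNReal.ofReal (V m s₀) * ∫⁻ S in Ioo (0 : ℝ) 1, F (Q m s₀ S) := by
  have hm0 : (0:ℝ) ≤ m := Nat.cast_nonneg m
  have hVs := V_pos m hs
  have hgm : Measurable fun r => ENNReal.ofReal (g m r) := (g_cont m).measurable.ennreal_ofReal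
  have hQm : Measurable (Q m s₀) := (Q_meas m).comp (measurable_const.prodMk measurable_id)
  set μ1 : Measure ℝ := (volume.restrict (Ioi s₀)).withDensity (fun r => ENNReal.ofReal (g m r))
  set μ2 : Measure ℝ := ENNReal.ofReal (V m s₀) • ((volume.restrict (Ioo (0:ℝ) 1)).map (Q m s₀))
  have hV : ∀ t, s₀ ≤ t → ∫⁻ r in Ioi t, ENNReal.ofReal (g m r) = ENNReal.ofReal (V m t) := by
    intro t ht
    unfold V
    rw [ofReal_integral_eq_lintegral_ofReal (g_int m).integrableOn]
    filter_upwards [ae_restrict_mem (measurableSet_Ioi (a := t))] with x hx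
    have : t < x := hx
    exact g_nonneg m (by linarith)
  have hfin : IsFiniteMeasure μ1 := by
    constructor
    rw [withDensity_apply _ MeasurableSet.univ, Measure.restrict_univ, hV s₀ le_rfl]
    exact ENNReal.ofReal_lt_top
  have heq : μ1 = μ2 := by
    apply Measure.ext_of_Ici
    intro t
    have e1 : μ1 (Ici t) = ENNReal.ofReal (V m (max s₀ t)) := by
      rw [withDensity_apply _ measurableSet_Ici, Measure.restrict_restrict measurableSet_Ici]
      rw [← hV _ (le_max_left _ _)]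
      apply setLIntegral_congr
      have : (Ici t ∩ Ioi s₀ : Set ℝ) =ᵐ[volume] (Ioi t ∩ Ioi s₀ : Set ℝ) :=
        Ioi_ae_eq_Ici.symm.inter (ae_eq_refl _)
      refine this.trans ?_
      rw [Ioi_inter_Ioi, sup_comm]
      try exact ae_eq_refl _
    have e2 : μ2 (Ici t) = ENNReal.ofReal (V m (max s₀ t)) := by
      simp only [μ2, Measure.smul_apply, smul_eq_mul]
      rw [Measure.map_apply hQm measurableSet_Ici, Measure.restrict_apply (hQm measurableSet_Ici)]
      have hset : Q m s₀ ⁻¹' Ici t ∩ Ioo (0:ℝ) 1 = Iic (V m (max s₀ t) / V m s₀) ∩ Ioo (0:ℝ) 1 := by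
        ext S
        simp only [mem_inter_iff, mem_preimage, mem_Ici, mem_Iic, and_congr_left_iff]
        intro hS
        obtain ⟨h1, h2⟩ := Q_spec m hs hS
        rw [le_div_iff₀ hVs, ← h2, V_le_iff m (hs.trans (le_max_left _ _)) (hs.trans h1), max_le_iff]
        exact ⟨fun h => ⟨h1, h⟩, fun h => h.2⟩
      rw [hset]
      have hratio : V m (max s₀ t) / V m s₀ ≤ 1 := by
        rw [div_le_one hVs, V_le_iff m hs (hs.trans (le_max_left _ _))]
        exact le_max_left _ _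
      have hratio0 : 0 < V m (max s₀ t) / V m s₀ :=
        div_pos (V_pos m (hs.trans (le_max_left _ _))) hVs
      have hae : (Iic (V m (max s₀ t) / V m s₀) ∩ Ioo (0:ℝ) 1 : Set ℝ) =ᵐ[volume]
          Ioc 0 (V m (max s₀ t) / V m s₀) := by
        have : (Iic (V m (max s₀ t) / V m s₀) ∩ Ioo (0:ℝ) 1 : Set ℝ) =ᵐ[volume]
          (Iic (V m (max s₀ t) / V m s₀) ∩ Ioc (0:ℝ) 1 : Set ℝ) :=
          (ae_eq_refl _).inter Ioo_ae_eq_Ioc
        refine this.trans (Eventually.of_forall fun x => ?_)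
        apply propext
        change (x ≤ _ ∧ 0 < x ∧ x ≤ 1) ↔ (0 < x ∧ x ≤ _)
        constructor
        · rintro ⟨h1, h2, h3⟩; exact ⟨h2, h1⟩
        · rintro ⟨h1, h2⟩; exact ⟨h2, h1, h2.trans hratio⟩
      rw [measure_congr hae, Real.volume_Ioc, sub_zero, ← ENNReal.ofReal_mul hVs.le]
      congr 1
      field_simp
    rw [e1, e2]
  calc ∫⁻ r in Ioi s₀, ENNReal.ofReal (g m r) * F r = ∫⁻ r, F r ∂μ1 := by
        rw [lintegral_withDensity_eq_lintegral_mul _ hgm hF]
        rfl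
    _ = ∫⁻ r, F r ∂μ2 := by rw [heq]
    _ = _ := by
        simp only [μ2]
        rw [lintegral_smul_measure, lintegral_map hF hQm, smul_eq_mul]

/-- two-sided comparison of quantiles -/
lemma Q_diff (m : ℕ) {R R' c : ℝ} (hR : (m:ℝ) + 1 ≤ R) (hR' : (m:ℝ) + 1 ≤ R') (hc : 0 < c)
    (hcR : c ≤ R) (hcR' : c ≤ R') :
    |R - R'| ≤ (2 / c) * |Real.log (V m R) - Real.log (V m R')| := by
  rcases le_total R R' with h | h
  · have h1 := V_log m hR h
    have h2 : (c / 2) * (R' - R) ≤ Real.log (V m R) - Real.log (V m R') := by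
      refine le_trans ?_ h1
      apply mul_le_mul_of_nonneg_right _ (by linarith)
      linarith
    rw [abs_sub_comm, abs_of_nonneg (by linarith : 0 ≤ R' - R)]
    calc R' - R = (2 / c) * ((c / 2) * (R' - R)) := by field_simp
      _ ≤ (2 / c) * (Real.log (V m R) - Real.log (V m R')) := by gcongr
      _ ≤ _ := by gcongr; exact le_abs_self _
  · have h1 := V_log m hR' h
    have h2 : (c / 2) * (R - R') ≤ Real.log (V m R') - Real.log (V m R) := by
      refine le_trans ?_ h1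
      apply mul_le_mul_of_nonneg_right _ (by linarith)
      linarith
    rw [abs_of_nonneg (by linarith : 0 ≤ R - R'), abs_sub_comm (Real.log (V m R))]
    calc R - R' = (2 / c) * ((c / 2) * (R - R')) := by field_simp
      _ ≤ (2 / c) * (Real.log (V m R') - Real.log (V m R)) := by gcongr
      _ ≤ _ := by gcongr; exact le_abs_self _

end Radial

set_option maxHeartbeats 4000000 in
/-- Target: radial quantile function of the Gaussian outside a ball, with Lipschitz bounds.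
`R s₀ S` is the point with `∫_R^∞ r^m e^{-r²/2} = S ∫_{s₀}^∞ r^m e^{-r²/2}`. -/
theorem radial (m : ℕ) : ∃ (K : ℝ) (R : ℝ → ℝ → ℝ) (V : ℝ → ℝ), 0 < K ∧
    Measurable (Function.uncurry R) ∧
    (∀ s₀ : ℝ, (m : ℝ) + 1 ≤ s₀ → 0 < V s₀) ∧
    (∀ s₀ : ℝ, (m : ℝ) + 1 ≤ s₀ → ∀ F : ℝ → ℝ≥0∞, Measurable F →
      ∫⁻ r in Ioi s₀, ENNReal.ofReal (r ^ m * Real.exp (-r ^ 2 / 2)) * F r =
        ENNReal.ofReal (V s₀) * ∫⁻ S in Ioo (0 : ℝ) 1, F (R s₀ S)) ∧
    (∀ s₀ s₁ : ℝ, (m : ℝ) + 1 ≤ s₀ → (m : ℝ) + 1 ≤ s₁ → |V s₀ - V s₁| ≤ K * |s₀ - s₁|) ∧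
    (∀ s₀ : ℝ, (m : ℝ) + 1 ≤ s₀ → s₀ ≤ ((m : ℝ) + 1) * Real.sqrt ((m : ℝ) + 1) →
      ∀ S ∈ Ioo (0 : ℝ) 1, 0 < R s₀ S ∧ R s₀ S ≤ K * Real.sqrt (1 - Real.log S)) ∧
    (∀ s₀ s₁ : ℝ, (m : ℝ) + 1 ≤ s₀ → s₀ ≤ ((m : ℝ) + 1) * Real.sqrt ((m : ℝ) + 1) →
      (m : ℝ) + 1 ≤ s₁ → s₁ ≤ ((m : ℝ) + 1) * Real.sqrt ((m : ℝ) + 1) →
      ∀ S ∈ Ioo (0 : ℝ) 1, |R s₀ S - R s₁ S| ≤ K * |s₀ - s₁|) ∧
    (∀ s₀ : ℝ, (m : ℝ) + 1 ≤ s₀ → s₀ ≤ ((m : ℝ) + 1) * Real.sqrt ((m : ℝ) + 1) →
      ∀ S ∈ Ioo (0 : ℝ) 1, ∀ S' ∈ Ioo (0 : ℝ) 1, ∀ l : ℕ, S ≤ (2 : ℝ)⁻¹ ^ l → S' ≤ (2 : ℝ)⁻¹ ^ l →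
        |R s₀ S - R s₀ S'| ≤ K * (1 + (l : ℝ)) ^ (-(1 : ℝ) / 2) * |Real.log S - Real.log S'|) := by
  have hm0 : (0:ℝ) ≤ m := Nat.cast_nonneg m
  set M : ℝ := (m:ℝ) + 1 with hM
  have hM1 : 1 ≤ M := by linarith
  set K1 : ℝ := (m.factorial : ℝ) * Real.exp (1/2) with hK1
  have hK1pos : 0 < K1 := by positivity
  set N : ℝ := M * Real.sqrt M with hN
  set v0 : ℝ := Real.exp (-1 - N ^ 2) with hv0
  have hv0pos : 0 < v0 := Real.exp_pos _
  set v1 : ℝ := Radial.V m M with hv1
  have hv1pos : 0 < v1 := Radial.V_pos m (le_refl M)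
  have hv_lower : ∀ s₀, M ≤ s₀ → s₀ ≤ N → v0 ≤ Radial.V m s₀ := by
    intro s h1 h2
    refine le_trans ?_ (Radial.V_lower m h1)
    apply Real.exp_le_exp.mpr
    have : s ^ 2 ≤ N ^ 2 := by
      apply pow_le_pow_left₀ (by linarith) h2
    linarith
  have hv_upper : ∀ s₀, M ≤ s₀ → Radial.V m s₀ ≤ v1 := by
    intro s h1
    exact (Radial.V_le_iff m (le_refl M) h1).mpr h1
  -- item 4 constant
  set C4 : ℝ := max 1 (Real.log v1 + M ^ 2 / 4 - Real.log v0) with hC4
  have hC4_1 : 1 ≤ C4 := le_max_left _ _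
  have hC4_2 : Real.log v1 + M ^ 2 / 4 - Real.log v0 ≤ C4 := le_max_right _ _
  -- item 6 constant
  set B : ℝ := max 0 (1 + Real.log v1) with hB
  have hB0 : 0 ≤ B := le_max_left _ _
  have hB1 : 1 + Real.log v1 ≤ B := le_max_right _ _
  have hlog2 : 0 < Real.log 2 := Real.log_pos (by norm_num)
  set c2 : ℝ := Real.log 2 / (1 + B + Real.log 2) with hc2
  have hc2pos : 0 < c2 := by positivity
  set c : ℝ := Real.sqrt c2 with hc
  have hcpos : 0 < c := Real.sqrt_pos.mpr hc2pos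
  set K : ℝ := K1 + 2 * Real.sqrt C4 + 2 * K1 / v0 + 2 / c with hK
  have hK_1 : K1 ≤ K := by
    have : 0 ≤ 2 * Real.sqrt C4 + 2 * K1 / v0 + 2 / c := by positivity
    linarith
  have hK_2 : 2 * Real.sqrt C4 ≤ K := by
    have : 0 ≤ K1 + 2 * K1 / v0 + 2 / c := by positivity
    linarith
  have hK_3 : 2 * K1 / v0 ≤ K := by
    have : 0 ≤ K1 + 2 * Real.sqrt C4 + 2 / c := by positivity
    linarith
  have hK_4 : 2 / c ≤ K := by
    have : 0 ≤ K1 + 2 * Real.sqrt C4 + 2 * K1 / v0 := by positivity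
    linarith
  refine ⟨K, Radial.Q m, Radial.V m, lt_of_lt_of_le hK1pos hK_1, Radial.Q_meas m,
    fun s hs => Radial.V_pos m hs, fun s hs F hF => Radial.Q_change m hs F hF, ?_, ?_, ?_, ?_⟩
  · intro s₀ s₁ h0 h1
    refine (Radial.V_lip m (by linarith) (by linarith)).trans ?_
    gcongr
  · intro s₀ h0 h0' S hS
    obtain ⟨h1, h2⟩ := Radial.Q_spec m h0 hS
    set R := Radial.Q m s₀ S with hR
    have hRM : M ≤ R := h0.trans h1
    refine ⟨by linarith, ?_⟩
    have hVs := Radial.V_pos m h0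
    have hlogR : Real.log (Radial.V m R) = Real.log S + Real.log (Radial.V m s₀) := by
      rw [h2, Real.log_mul hS.1.ne' hVs.ne']
    have hlogs : Real.log v0 ≤ Real.log (Radial.V m s₀) :=
      Real.log_le_log hv0pos (hv_lower s₀ h0 h0')
    have hdec := Radial.V_decay m (le_refl M) hRM
    have hlogd : Real.log (Radial.V m R) ≤ Real.log v1 - (R ^ 2 - M ^ 2) / 4 := by
      have := Real.log_le_log (Radial.V_pos m hRM) hdec
      rw [Real.log_mul hv1pos.ne' (Real.exp_pos _).ne', Real.log_exp] at this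
      linarith
    have hlS : Real.log S < 0 := Real.log_neg hS.1 hS.2
    have hR2 : R ^ 2 ≤ 4 * (C4 * (1 - Real.log S)) := by nlinarith
    have hRle : R ≤ Real.sqrt (4 * (C4 * (1 - Real.log S))) := Real.le_sqrt_of_sq_le hR2
    have e : Real.sqrt (4 * (C4 * (1 - Real.log S))) = 2 * Real.sqrt C4 * Real.sqrt (1 - Real.log S) := by
      rw [Real.sqrt_mul (by norm_num), Real.sqrt_mul (by linarith)]
      rw [show (4:ℝ) = 2 ^ 2 by norm_num, Real.sqrt_sq (by norm_num)]
      ring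
    rw [e] at hRle
    refine hRle.trans ?_
    gcongr
  · intro s₀ s₁ h0 h0' h1 h1' S hS
    obtain ⟨a1, a2⟩ := Radial.Q_spec m h0 hS
    obtain ⟨b1, b2⟩ := Radial.Q_spec m h1 hS
    have hV0 := Radial.V_pos m h0
    have hV1 := Radial.V_pos m h1
    have h := Radial.Q_diff m (h0.trans a1) (h1.trans b1) one_pos (by linarith) (by linarith)
    rw [a2, b2, Real.log_mul hS.1.ne' hV0.ne', Real.log_mul hS.1.ne' hV1.ne'] at h
    have e : Real.log S + Real.log (Radial.V m s₀) - (Real.log S + Real.log (Radial.V m s₁)) =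
      Real.log (Radial.V m s₀) - Real.log (Radial.V m s₁) := by ring
    rw [e] at h
    have hlog : |Real.log (Radial.V m s₀) - Real.log (Radial.V m s₁)| ≤
        (1 / v0) * |Radial.V m s₀ - Radial.V m s₁| := by
      have key : ∀ a b : ℝ, v0 ≤ a → a ≤ b → |Real.log a - Real.log b| ≤ (1 / v0) * |a - b| := by
        intro a b ha hab
        have ha0 : 0 < a := lt_of_lt_of_le hv0pos ha
        have hb0 : 0 < b := lt_of_lt_of_le ha0 hab
        have hl : Real.log b - Real.log a ≤ b / a - 1 := by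
          rw [← Real.log_div hb0.ne' ha0.ne']
          exact Real.log_le_sub_one_of_pos (div_pos hb0 ha0)
        rw [abs_sub_comm, abs_of_nonneg (by linarith [Real.log_le_log ha0 hab]),
          abs_sub_comm, abs_of_nonneg (by linarith)]
        refine hl.trans ?_
        have : b / a - 1 = (1 / a) * (b - a) := by field_simp
        rw [this]
        have : 0 ≤ b - a := by linarith
        gcongr
      rcases le_total (Radial.V m s₀) (Radial.V m s₁) with hle | hle
      · exact key _ _ (hv_lower s₀ h0 h0') hle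
      · rw [abs_sub_comm, abs_sub_comm (Radial.V m s₀)]
        exact key _ _ (hv_lower s₁ h1 h1') hle
    have hlip := Radial.V_lip m (a := s₀) (b := s₁) (by linarith) (by linarith)
    calc |Radial.Q m s₀ S - Radial.Q m s₁ S|
        ≤ (2 / 1) * |Real.log (Radial.V m s₀) - Real.log (Radial.V m s₁)| := h
      _ ≤ (2 / 1) * ((1 / v0) * |Radial.V m s₀ - Radial.V m s₁|) := by gcongr
      _ ≤ (2 / 1) * ((1 / v0) * (K1 * |s₀ - s₁|)) := by gcongr
      _ = (2 * K1 / v0) * |s₀ - s₁| := by ring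
      _ ≤ _ := by gcongr
  · intro s₀ h0 h0' S hS S' hS' l hl hl'
    obtain ⟨a1, a2⟩ := Radial.Q_spec m h0 hS
    obtain ⟨b1, b2⟩ := Radial.Q_spec m h0 hS'
    have hV0 := Radial.V_pos m h0
    have hl0 : (0:ℝ) ≤ l := Nat.cast_nonneg l
    -- lower bound for quantiles
    have hlow : ∀ T ∈ Ioo (0:ℝ) 1, T ≤ (2:ℝ)⁻¹ ^ l → c * Real.sqrt (1 + l) ≤ Radial.Q m s₀ T := by
      intro T hT hTl
      obtain ⟨c1, c2'⟩ := Radial.Q_spec m h0 hT
      obtain ⟨R, hR⟩ : ∃ R, R = Radial.Q m s₀ T := ⟨_, rfl⟩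
      rw [← hR] at c1 c2' ⊢
      have hRM : M ≤ R := h0.trans c1
      have hlo := Radial.V_lower m hRM
      have hlog : -1 - R ^ 2 ≤ Real.log T + Real.log (Radial.V m s₀) := by
        rw [← Real.log_mul hT.1.ne' hV0.ne', ← c2']
        rw [Real.le_log_iff_exp_le (Radial.V_pos m hRM)]
        exact hlo
      have hlogT : Real.log T ≤ -(l * Real.log 2) := by
        have := Real.log_le_log hT.1 hTl
        rw [Real.log_pow, Real.log_inv] at this
        linarith
      have hlogV : Real.log (Radial.V m s₀) ≤ Real.log v1 := Real.log_le_log hV0 (hv_upper s₀ h0)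
      have h1 : l * Real.log 2 - B ≤ R ^ 2 := by linarith
      have h2 : 1 ≤ R ^ 2 := by nlinarith
      have h3 : c2 * (1 + l) ≤ R ^ 2 := by
        rw [hc2, div_mul_eq_mul_div, div_le_iff₀ (by positivity)]
        nlinarith [mul_le_mul_of_nonneg_right h2 hB0, mul_le_mul_of_nonneg_right h2 hlog2.le]
      rw [hc, ← Real.sqrt_mul hc2pos.le]
      exact Real.sqrt_le_iff.mpr ⟨by linarith, h3⟩
    have hsq : 0 < Real.sqrt (1 + (l:ℝ)) := Real.sqrt_pos.mpr (by linarith)
    have h := Radial.Q_diff m (h0.trans a1) (h0.trans b1) (mul_pos hcpos hsq)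
      (hlow S hS hl) (hlow S' hS' hl')
    rw [a2, b2, Real.log_mul hS.1.ne' hV0.ne', Real.log_mul hS'.1.ne' hV0.ne'] at h
    have e : Real.log S + Real.log (Radial.V m s₀) - (Real.log S' + Real.log (Radial.V m s₀)) =
      Real.log S - Real.log S' := by ring
    rw [e] at h
    have e2 : (1 + (l : ℝ)) ^ (-(1 : ℝ) / 2) = 1 / Real.sqrt (1 + l) := by
      rw [Real.sqrt_eq_rpow, neg_div, Real.rpow_neg (by linarith)]
      simp only [one_div]
    rw [e2]
    refine h.trans ?_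
    have e3 : 2 / (c * Real.sqrt (1 + (l:ℝ))) = (2 / c) * (1 / Real.sqrt (1 + l)) := by
      field_simp
    rw [e3]
    gcongr

end Pool.Agent.Helper764.EW.R
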