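import Pool.Agent.Helper764.EWDefs

set_option autoImplicit false
open MeasureTheory Filter Topology Set
open scoped ENNReal

namespace Pool.Agent.Helper764.EW

/-- `ρ(y) = √(1+|y|²)`. -/
noncomputable def rho {m : ℕ} (y : Fin m → ℝ) : ℝ := Real.sqrt (1 + ∑ j, y j ^ 2)

/-- the unit vector `(1,y)/ρ(y)` scaled by `r`. -/
noncomputable def ray {m : ℕ} (r : ℝ) (y : Fin m → ℝ) : E (m + 1) :=
  WithLp.toLp 2 (Fin.cons (r / rho y) fun j => r / rho y * y j)

/-- The outer sector around the first coordinate axis. -/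
def sector (m : ℕ) (M : ℝ) : Set (E (m + 1)) := {x | M < x 0 ∧ ∀ j : Fin m, |x j.succ| < x 0}

theorem rho_pos {m : ℕ} (y : Fin m → ℝ) : 0 < rho y := by
  unfold rho
  apply Real.sqrt_pos.2
  have : 0 ≤ ∑ j, y j ^ 2 := Finset.sum_nonneg fun j _ => sq_nonneg _
  linarith

theorem rho_sq {m : ℕ} (y : Fin m → ℝ) : rho y ^ 2 = 1 + ∑ j, y j ^ 2 := by
  unfold rho
  apply Real.sq_sqrt
  have : 0 ≤ ∑ j, y j ^ 2 := Finset.sum_nonneg fun j _ => sq_nonneg _
  linarith

theorem norm_ray_sq {m : ℕ} (r : ℝ) (y : Fin m → ℝ) : ‖ray r y‖ ^ 2 = r ^ 2 := by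
  rw [EuclideanSpace.norm_sq_eq, Fin.sum_univ_succ]
  simp only [ray, Fin.cons_zero, Fin.cons_succ, Real.norm_eq_abs, sq_abs]
  have h := rho_sq y
  have hp := rho_pos y
  have : ∑ i : Fin m, (r / rho y * y i) ^ 2 = (r / rho y) ^ 2 * ∑ i, y i ^ 2 := by
    rw [Finset.mul_sum]
    exact Finset.sum_congr rfl fun i _ => by ring
  rw [this]
  have h2 : (r / rho y) ^ 2 + (r / rho y) ^ 2 * ∑ i, y i ^ 2 = (r / rho y) ^ 2 * rho y ^ 2 := by
    rw [h]; ring
  rw [h2, ← mul_pow, div_mul_cancel₀ _ hp.ne']

/-- Homothety in the variable `x ∈ ℝ^m`. -/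
theorem lintegral_smul_pi {m : ℕ} (s : ℝ) (hs : 0 < s) (h : (Fin m → ℝ) → ℝ≥0∞)
    (hh : Measurable h) :
    ∫⁻ x, h x = ENNReal.ofReal (s ^ m) * ∫⁻ y, h (s • y) := by
  have h1 := MeasureTheory.Measure.map_addHaar_smul (volume : Measure (Fin m → ℝ)) hs.ne'
  have h2 : ∫⁻ y, h (s • y) = ∫⁻ x, h x ∂(Measure.map (s • ·) (volume : Measure (Fin m → ℝ))) := by
    rw [lintegral_map hh (measurable_const_smul s)]
  rw [h2, h1, lintegral_smul_measure, smul_eq_mul, ← mul_assoc]
  simp only [Module.finrank_fintype_fun_eq_card, Fintype.card_fin]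
  rw [abs_of_pos (by positivity), ← ENNReal.ofReal_mul (by positivity),
    mul_inv_cancel₀ (by positivity), ENNReal.ofReal_one, one_mul]

theorem lintegral_div_real (ρ : ℝ) (hρ : 0 < ρ) (h : ℝ → ℝ≥0∞) (hh : Measurable h) :
    ∫⁻ s, h s = ENNReal.ofReal (ρ⁻¹) * ∫⁻ r, h (r / ρ) := by
  have h1 := Real.smul_map_volume_mul_left (inv_ne_zero hρ.ne')
  have h2 : ∫⁻ r, h (r / ρ) = ∫⁻ x, h x ∂(Measure.map (ρ⁻¹ * ·) (volume : Measure ℝ)) := by
    rw [lintegral_map hh (measurable_const_mul _)]
    exact lintegral_congr fun r => by rw [div_eq_inv_mul]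
  rw [h2, ← smul_eq_mul, ← lintegral_smul_measure]
  rw [abs_of_pos (inv_pos.2 hρ)] at h1
  rw [h1]

theorem measurable_cons (m : ℕ) :
    Measurable (fun p : ℝ × (Fin m → ℝ) => (WithLp.toLp 2 (Fin.cons p.1 p.2) : E (m + 1))) := by
  have h1 : Measurable (fun p : ℝ × (Fin m → ℝ) => (Fin.cons p.1 p.2 : Fin (m+1) → ℝ)) := by
    refine measurable_pi_lambda _ fun i => ?_
    refine Fin.cases ?_ (fun j => ?_) i
    · simpa using measurable_fst
    · have : Measurable (fun c : ℝ × (Fin m → ℝ) => c.2 j) :=
        (measurable_pi_apply j).comp measurable_snd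
      simpa using this
  exact (PiLp.volume_preserving_toLp (Fin (m+1))).measurable.comp h1

theorem lintegral_split (m : ℕ) (g : E (m + 1) → ℝ≥0∞) (hg : Measurable g) :
    ∫⁻ x, g x = ∫⁻ s : ℝ, ∫⁻ x : Fin m → ℝ, g (WithLp.toLp 2 (Fin.cons s x)) := by
  rw [← (PiLp.volume_preserving_toLp (Fin (m+1))).lintegral_comp hg]
  have h2 := (volume_preserving_piFinSuccAbove (fun _ : Fin (m + 1) => ℝ) 0).symm
  rw [← h2.lintegral_comp_emb (MeasurableEquiv.measurableEmbedding _)]
  rw [Measure.volume_eq_prod, lintegral_prod]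
  · refine lintegral_congr fun s => lintegral_congr fun x => ?_
    congr 2
    ext i
    refine Fin.cases ?_ (fun j => ?_) i
    · simp [MeasurableEquiv.piFinSuccAbove_symm_apply]
    · simp [MeasurableEquiv.piFinSuccAbove_symm_apply]
  · refine Measurable.aemeasurable ?_
    exact (hg.comp (PiLp.volume_preserving_toLp (Fin (m+1))).measurable).comp
      (MeasurableEquiv.measurable _)

/-- Target 1: change of variables. -/
theorem sector_integral (m : ℕ) (M : ℝ) (hM : 0 < M) (f : E (m + 1) → ℝ≥0∞) (hf : Measurable f) :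
    ∫⁻ x in sector m M, f x ∂(gauss (m + 1)) =
      ∫⁻ y in (Set.univ.pi fun _ : Fin m => Ioo (-1 : ℝ) 1),
        ∫⁻ r in Ioi (M * rho y),
          ENNReal.ofReal ((2 * Real.pi) ^ (-((m + 1 : ℕ) : ℝ) / 2) * (rho y ^ (m + 1))⁻¹ *
            (r ^ m * Real.exp (-r ^ 2 / 2))) * f (ray r y) := by
  set c : ℝ := (2 * Real.pi) ^ (-((m + 1 : ℕ) : ℝ) / 2) with hc
  have hc0 : 0 ≤ c := by positivity
  have hsec : MeasurableSet (sector m M) := by
    have : sector m M = {x | M < x 0} ∩ ⋂ j : Fin m, {x | |x j.succ| < x 0} := by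
      ext x; simp [sector]
    rw [this]
    refine MeasurableSet.inter ?_ (MeasurableSet.iInter fun j => ?_)
    · exact measurableSet_lt measurable_const (by fun_prop)
    · exact measurableSet_lt (by fun_prop) (by fun_prop)
  have hdens : Measurable (fun x : E (m + 1) =>
      ENNReal.ofReal (c * Real.exp (-‖x‖ ^ 2 / 2))) := by fun_prop
  set g : E (m + 1) → ℝ≥0∞ := fun x => ENNReal.ofReal (c * Real.exp (-‖x‖ ^ 2 / 2)) * f x with hg
  have hgm : Measurable g := hdens.mul hf
  have step1 : ∫⁻ x in sector m M, f x ∂(gauss (m + 1)) =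
      ∫⁻ x, (sector m M).indicator g x := by
    rw [gauss, restrict_withDensity hsec, lintegral_withDensity_eq_lintegral_mul _ hdens hf,
      lintegral_indicator hsec]
    rfl
  have hind : Measurable ((sector m M).indicator g) := hgm.indicator hsec
  rw [step1, lintegral_split m _ hind]
  -- scale
  have step2 : ∀ s : ℝ, ∫⁻ x : Fin m → ℝ, (sector m M).indicator g (WithLp.toLp 2 (Fin.cons s x))
      = ∫⁻ y : Fin m → ℝ, ENNReal.ofReal (s ^ m) *
        (sector m M).indicator g (WithLp.toLp 2 (Fin.cons s (s • y))) := by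
    intro s
    have hms : Measurable (fun x : Fin m → ℝ =>
        (sector m M).indicator g (WithLp.toLp 2 (Fin.cons s x))) :=
      hind.comp ((measurable_cons m).comp (measurable_prodMk_left (x := s)))
    by_cases hs : 0 < s
    · rw [lintegral_smul_pi s hs _ hms, ← lintegral_const_mul]
      exact hms.comp (measurable_const_smul s)
    · have h0 : ∀ x : Fin m → ℝ,
          (sector m M).indicator g (WithLp.toLp 2 (Fin.cons s x)) = 0 := by
        intro x
        apply indicator_of_notMem
        intro hx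
        have : M < s := by simpa using hx.1
        linarith
      simp [h0]
  simp_rw [step2]
  have hF : Measurable (fun p : ℝ × (Fin m → ℝ) => ENNReal.ofReal (p.1 ^ m) *
        (sector m M).indicator g (WithLp.toLp 2 (Fin.cons p.1 (p.1 • p.2)))) := by
    refine Measurable.mul (by fun_prop) ?_
    exact hind.comp ((measurable_cons m).comp
      (measurable_fst.prodMk (measurable_fst.smul measurable_snd)))
  rw [lintegral_lintegral_swap hF.aemeasurable]
  have hcube : MeasurableSet (Set.univ.pi fun _ : Fin m => Ioo (-1 : ℝ) 1) :=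
    MeasurableSet.univ_pi fun _ => measurableSet_Ioo
  rw [← lintegral_indicator hcube]
  refine lintegral_congr fun y => ?_
  have hρ := rho_pos y
  rw [lintegral_div_real (rho y) hρ (fun x => ENNReal.ofReal (x ^ m) *
        (sector m M).indicator g (WithLp.toLp 2 (Fin.cons x (x • y))))
        (hF.comp (measurable_prodMk_right (y := y)))]
  by_cases hy : y ∈ (Set.univ.pi fun _ : Fin m => Ioo (-1 : ℝ) 1)
  · rw [indicator_of_mem hy, ← lintegral_indicator measurableSet_Ioi,
      ← lintegral_const_mul' _ _ ENNReal.ofReal_ne_top]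
    refine lintegral_congr fun r => ?_
    have hpt : (WithLp.toLp 2 (Fin.cons (r / rho y) ((r / rho y) • y)) : E (m + 1)) = ray r y := by
      rfl
    rw [hpt]
    by_cases hr : r ∈ Ioi (M * rho y)
    · have hr1 : M * rho y < r := hr
      have hr0 : 0 < r := lt_trans (by positivity) hr1
      have hmem : ray r y ∈ sector m M := by
        refine ⟨?_, fun j => ?_⟩
        · simp only [ray, Fin.cons_zero]
          rwa [lt_div_iff₀ hρ]
        · simp only [ray, Fin.cons_zero, Fin.cons_succ]
          have := hy j (mem_univ _)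
          rw [abs_mul, abs_of_pos (div_pos hr0 hρ)]
          have h3 : |y j| < 1 := abs_lt.2 this
          have := div_pos hr0 hρ
          nlinarith
      rw [indicator_of_mem hmem, indicator_of_mem hr, hg]
      simp only []
      rw [norm_ray_sq, ← mul_assoc, ← mul_assoc, ← ENNReal.ofReal_mul (by positivity),
        ← ENNReal.ofReal_mul (by positivity)]
      congr 2
      rw [div_pow]
      field_simp
      ring
    · have hnm : ray r y ∉ sector m M := by
        intro hx
        apply hr
        have := hx.1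
        simp only [ray, Fin.cons_zero] at this
        rwa [lt_div_iff₀ hρ] at this
      rw [indicator_of_notMem hnm, indicator_of_notMem hr]
      simp
  · rw [indicator_of_notMem hy]
    have h0 : ∀ s : ℝ, (sector m M).indicator g (WithLp.toLp 2 (Fin.cons s (s • y))) = 0 := by
      intro s
      apply indicator_of_notMem
      intro hx
      apply hy
      intro j _
      have h1 : M < s := by simpa using hx.1
      have hs : 0 < s := hM.trans h1
      have h2 : |s * y j| < s := by simpa using hx.2 j
      rw [abs_mul, abs_of_pos hs] at h2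
      have : |y j| < 1 := by
        by_contra hcon
        push Not at hcon
        nlinarith
      exact abs_lt.1 this
    simp [h0]

theorem lintegral_pi_prod {d : ℕ} (g : Fin d → ℝ → ℝ≥0∞) (hg : ∀ i, Measurable (g i)) :
    ∫⁻ x : Fin d → ℝ, ∏ i, g i (x i) = ∏ i, ∫⁻ x, g i x := by
  induction d with
  | zero => simp [volume_pi]
  | succ n ih =>
    have h2 := (volume_preserving_piFinSuccAbove (fun _ : Fin (n + 1) => ℝ) 0).symm
    rw [← h2.lintegral_comp_emb (MeasurableEquiv.measurableEmbedding _)]
    rw [Measure.volume_eq_prod]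
    have h3 : ∀ p : ℝ × (Fin n → ℝ), ∏ i, g i
        ((MeasurableEquiv.piFinSuccAbove (fun _ : Fin (n + 1) => ℝ) 0).symm p i)
        = g 0 p.1 * ∏ i : Fin n, g i.succ (p.2 i) := by
      intro p
      rw [Fin.prod_univ_succ]
      rfl
    simp_rw [h3]
    have h4 : Measurable (fun x : Fin n → ℝ => ∏ i : Fin n, g i.succ (x i)) :=
      Finset.measurable_prod _ fun i _ => (hg _).comp (measurable_pi_apply i)
    rw [lintegral_prod_mul (f := g 0) (g := fun x : Fin n → ℝ => ∏ i : Fin n, g i.succ (x i))
      (hg 0).aemeasurable h4.aemeasurable, ih (fun i => g i.succ) (fun i => hg _),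
      Fin.prod_univ_succ]

/-- Target 2: the Gaussian measure is the product of one-dimensional ones. -/
theorem gauss_eq_map (d : ℕ) :
    gauss d = (Measure.pi fun _ : Fin d => ProbabilityTheory.gaussianReal 0 1).map
      (fun x => (WithLp.toLp 2 x : E d)) := by
  set F : (Fin d → ℝ) → ℝ≥0∞ := fun x => ∏ i, ProbabilityTheory.gaussianPDF 0 1 (x i) with hFdef
  have hFm : Measurable F :=
    Finset.measurable_prod _ fun i _ =>
      (ProbabilityTheory.measurable_gaussianPDF 0 1).comp (measurable_pi_apply i)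
  have h1 : (Measure.pi fun _ : Fin d => ProbabilityTheory.gaussianReal 0 1) =
      (volume : Measure (Fin d → ℝ)).withDensity F := by
    apply Measure.pi_eq
    intro s hs
    rw [withDensity_apply _ (MeasurableSet.univ_pi hs), ← lintegral_indicator
      (MeasurableSet.univ_pi hs)]
    have h2 : ∀ x : Fin d → ℝ, (univ.pi s).indicator F x =
        ∏ i, (s i).indicator (ProbabilityTheory.gaussianPDF 0 1) (x i) := by
      intro x
      by_cases hx : x ∈ univ.pi s
      · rw [indicator_of_mem hx]
        refine Finset.prod_congr rfl fun i _ => ?_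
        rw [indicator_of_mem (hx i (mem_univ _))]
      · rw [indicator_of_notMem hx]
        have : ∃ i, x i ∉ s i := by
          by_contra hcon
          push Not at hcon
          exact hx fun i _ => hcon i
        obtain ⟨i, hi⟩ := this
        symm
        exact Finset.prod_eq_zero (Finset.mem_univ i) (indicator_of_notMem hi _)
    simp_rw [h2]
    rw [lintegral_pi_prod _ fun i =>
      (ProbabilityTheory.measurable_gaussianPDF 0 1).indicator (hs i)]
    refine Finset.prod_congr rfl fun i _ => ?_
    rw [lintegral_indicator (hs i), ProbabilityTheory.gaussianReal_of_var_ne_zero _ one_ne_zero,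
      withDensity_apply _ (hs i)]
  rw [h1]
  have hmp := PiLp.volume_preserving_toLp (Fin d)
  ext A hA
  rw [Measure.map_apply hmp.measurable hA, gauss, withDensity_apply _ hA,
    withDensity_apply _ (hmp.measurable hA)]
  rw [← hmp.setLIntegral_comp_preimage hA (by fun_prop)]
  refine lintegral_congr fun x => ?_
  rw [hFdef]
  simp only [ProbabilityTheory.gaussianPDF, ProbabilityTheory.gaussianPDFReal]
  rw [← ENNReal.ofReal_prod_of_nonneg (fun i _ => by positivity)]
  congr 1
  rw [Finset.prod_mul_distrib, ← Real.exp_sum, Finset.prod_const, Finset.card_univ,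
    Fintype.card_fin]
  congr 1
  · simp only [NNReal.coe_one, mul_one]
    rw [Real.sqrt_eq_rpow, ← Real.rpow_neg (by positivity), ← Real.rpow_natCast,
      ← Real.rpow_mul (by positivity)]
    congr 1
    ring
  · congr 1
    rw [EuclideanSpace.norm_sq_eq]
    simp only [Real.norm_eq_abs, sq_abs, sub_zero, NNReal.coe_one, mul_one]
    rw [← Finset.sum_div, Finset.sum_neg_distrib]

end Pool.Agent.Helper764.EW
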