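import Pool.Agent.Helper764.EWCube
import Pool.Agent.Helper764.EWSector
import Pool.Agent.Helper764.EWKnothe
import Pool.Agent.Helper764.EWRadial

set_option autoImplicit false
open MeasureTheory Filter Topology Set
open scoped ENNReal

namespace Pool.Agent.Helper764.EW.P

open R (radial)



/-! ## Helper lemmas -/

namespace J234

theorem cube_eq (n : ℕ) : cube n = (volume : Measure (Fin n → ℝ)).restrict
    (Set.univ.pi fun _ : Fin n => Ioo (0 : ℝ) 1) := by
  unfold cube
  rw [volume_pi, Measure.restrict_pi_pi]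

instance cube_prob (n : ℕ) : IsProbabilityMeasure (cube n) := by
  unfold cube
  have : IsProbabilityMeasure ((volume : Measure ℝ).restrict (Ioo 0 1)) := ⟨by simp⟩
  infer_instance

theorem meas_univ_pi (n : ℕ) : MeasurableSet (Set.univ.pi fun _ : Fin n => Ioo (0 : ℝ) 1) :=
  MeasurableSet.univ_pi fun _ => measurableSet_Ioo

theorem inCube_ae (n : ℕ) : ∀ᵐ z ∂(cube n), InCube z := by
  rw [cube_eq]
  filter_upwards [ae_restrict_mem (meas_univ_pi n)] with z hz i
  exact hz i (Set.mem_univ i)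

/-- Scaling. -/
theorem scaling (d : ℕ) (M : ℝ) (hM : 0 < M) (F : (Fin d → ℝ) → ℝ≥0∞) :
    ∫⁻ y in (Set.univ.pi fun _ : Fin d => Ioo (-M) M), F y =
      ENNReal.ofReal ((2 * M) ^ d) * ∫⁻ u, F (fun i => M * (2 * u i - 1)) ∂(cube d) := by
  have himg : (fun u : Fin d → ℝ => (fun i => M * (2 * u i - 1) : Fin d → ℝ)) ''
      (Set.univ.pi fun _ : Fin d => Ioo (0 : ℝ) 1) = Set.univ.pi fun _ : Fin d => Ioo (-M) M := by
    ext y
    constructor
    · rintro ⟨u, hu, rfl⟩ i hi
      have := hu i hi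
      constructor
      · have := this.1
        show -M < M * (2 * u i - 1)
        nlinarith
      · have := this.2
        show M * (2 * u i - 1) < M
        nlinarith
    · intro hy
      refine ⟨fun i => (y i / M + 1) / 2, ?_, ?_⟩
      · intro i hi
        have h1 := (hy i hi).1
        have h2 := (hy i hi).2
        have h3 : -1 < y i / M := by rw [lt_div_iff₀ hM]; linarith
        have h4 : y i / M < 1 := by rw [div_lt_iff₀ hM]; linarith
        constructor
        · show 0 < (y i / M + 1) / 2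
          linarith
        · show (y i / M + 1) / 2 < 1
          linarith
      · funext i
        show M * (2 * ((y i / M + 1) / 2) - 1) = y i
        field_simp
        ring
  have hder : ∀ u ∈ (Set.univ.pi fun _ : Fin d => Ioo (0 : ℝ) 1),
      HasFDerivWithinAt (fun u : Fin d → ℝ => (fun i => M * (2 * u i - 1) : Fin d → ℝ))
        ((2 * M) • ContinuousLinearMap.id ℝ (Fin d → ℝ))
        (Set.univ.pi fun _ : Fin d => Ioo (0 : ℝ) 1) u := by
    intro u _
    apply HasFDerivAt.hasFDerivWithinAt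
    have h1 : (fun u : Fin d → ℝ => (fun i => M * (2 * u i - 1) : Fin d → ℝ)) =
        fun u => (2 * M) • u - fun _ => M := by
      funext u i
      simp
      ring
    rw [h1]
    exact ((hasFDerivAt_id u).const_smul (2 * M)).sub_const _
  have hinj : InjOn (fun u : Fin d → ℝ => (fun i => M * (2 * u i - 1) : Fin d → ℝ))
      (Set.univ.pi fun _ : Fin d => Ioo (0 : ℝ) 1) := by
    intro u _ v _ h
    funext i
    have := congrFun h i
    have h2 : M * (2 * u i - 1) = M * (2 * v i - 1) := this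
    have h3 := mul_left_cancel₀ hM.ne' h2
    linarith
  have := lintegral_image_eq_lintegral_abs_det_fderiv_mul (volume : Measure (Fin d → ℝ))
    (meas_univ_pi d) hder hinj F
  rw [himg] at this
  rw [this, cube_eq]
  have hdet : ((2 * M) • ContinuousLinearMap.id ℝ (Fin d → ℝ)).det = (2 * M) ^ d := by
    rw [ContinuousLinearMap.det]
    simp
  simp_rw [hdet]
  rw [abs_of_pos (by positivity)]
  rw [lintegral_const_mul' _ _ ENNReal.ofReal_ne_top]

/-- lintegral over the cube of `F ∘ T`. -/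
theorem lintegral_T {n : ℕ} (g : (Fin n → ℝ) → ℝ) (hg : Measurable g)
    (T : (Fin n → ℝ) → (Fin n → ℝ)) (hT : Measurable T)
    (h : (cube n).map T = (cube n).withDensity (fun x => ENNReal.ofReal (g x)))
    (F : (Fin n → ℝ) → ℝ≥0∞) (hF : Measurable F) :
    ∫⁻ z, F (T z) ∂(cube n) = ∫⁻ u, ENNReal.ofReal (g u) * F u ∂(cube n) := by
  rw [← lintegral_map hF hT, h, lintegral_withDensity_eq_lintegral_mul _ hg.ennreal_ofReal hF]
  rfl

theorem l1_bound {n : ℕ} (x : E n) : ‖x‖ ≤ ∑ i, |x i| := by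
  rw [EuclideanSpace.norm_eq]
  apply Real.sqrt_le_iff.2
  refine ⟨Finset.sum_nonneg fun i _ => abs_nonneg _, ?_⟩
  have : ∀ i, ‖x i‖ ^ 2 = |x i| ^ 2 := fun i => by rw [Real.norm_eq_abs]
  simp_rw [this]
  exact Finset.sum_sq_le_sq_sum_of_nonneg fun i _ => abs_nonneg _


theorem abs_exp_neg_sub {a b : ℝ} (ha : 0 ≤ a) (hb : 0 ≤ b) :
    |Real.exp (-a) - Real.exp (-b)| ≤ |a - b| := by
  wlog h : a ≤ b generalizing a b
  · rw [abs_sub_comm, abs_sub_comm a b]
    exact this hb ha (le_of_not_ge h)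
  have h1 : Real.exp (-b) ≤ Real.exp (-a) := Real.exp_le_exp.2 (by linarith)
  rw [abs_of_nonneg (by linarith), abs_sub_comm, abs_of_nonneg (by linarith)]
  have h2 : Real.exp (-b) = Real.exp (-a) * Real.exp (-(b - a)) := by
    rw [← Real.exp_add]; ring_nf
  have h3 : 1 - (b - a) ≤ Real.exp (-(b - a)) := by
    have := Real.add_one_le_exp (-(b - a))
    linarith
  have h4 : Real.exp (-a) ≤ 1 := Real.exp_le_one_iff.2 (by linarith)
  have h5 : 0 < Real.exp (-a) := Real.exp_pos _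
  rw [h2]
  nlinarith

theorem norm_toLp_sq {n : ℕ} (y : Fin n → ℝ) : ‖(WithLp.toLp 2 y : E n)‖ ^ 2 = ∑ i, y i ^ 2 := by
  rw [EuclideanSpace.norm_sq_eq]
  simp

end J234

open J234

/-- The Gaussian measure on a centred cube is a Lipschitz image of the uniform law. -/
theorem central_param (d : ℕ) (M : ℝ) (hM : 0 < M) :
    ∃ (K : ℝ) (q : ℝ≥0∞) (Ψ : (Fin d → ℝ) → E d),
      0 < K ∧ Measurable Ψ ∧ LipC (fun _ => K) Ψ ∧
      (gauss d).restrict {x : E d | ∀ i, |x i| ≤ M} = q • (cube d).map Ψ := by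
  classical
  set A : (Fin d → ℝ) → ℝ := fun u => ∑ i, (M * (2 * u i - 1)) ^ 2 / 2 with hA
  have hAmeas : Measurable A := by
    apply Finset.measurable_sum
    intro i _
    fun_prop
  have hA0 : ∀ u, 0 ≤ A u := fun u => Finset.sum_nonneg fun i _ => by positivity
  have hA1 : ∀ u, InCube u → A u ≤ d * M ^ 2 / 2 := by
    intro u hu
    have : ∀ i ∈ (Finset.univ : Finset (Fin d)), (M * (2 * u i - 1)) ^ 2 / 2 ≤ M ^ 2 / 2 := by
      intro i _
      have h1 := (hu i).1
      have h2 := (hu i).2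
      have h3 : (2 * u i - 1) ^ 2 ≤ 1 := by nlinarith
      have h4 : 0 ≤ M ^ 2 := by positivity
      nlinarith
    refine (Finset.sum_le_sum this).trans (le_of_eq ?_)
    simp
    ring
  have hA2 : ∀ u v, InCube u → InCube v → |A u - A v| ≤ 2 * M ^ 2 * ∑ i, |u i - v i| := by
    intro u v hu hv
    rw [hA]
    simp only
    rw [← Finset.sum_sub_distrib, Finset.mul_sum]
    refine (Finset.abs_sum_le_sum_abs _ _).trans (Finset.sum_le_sum fun i _ => ?_)
    have e1 : (M * (2 * u i - 1)) ^ 2 / 2 - (M * (2 * v i - 1)) ^ 2 / 2 =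
      (2 * M ^ 2) * ((u i + v i - 1) * (u i - v i)) := by ring
    rw [e1, abs_mul, abs_of_nonneg (by positivity : 0 ≤ 2 * M ^ 2), abs_mul]
    apply mul_le_mul_of_nonneg_left _ (by positivity)
    have h3 : |u i + v i - 1| ≤ 1 := by
      rw [abs_le]
      constructor
      · linarith [(hu i).1, (hv i).1]
      · linarith [(hu i).2, (hv i).2]
    nlinarith [abs_nonneg (u i - v i)]
  set c' : ℝ≥0∞ := ∫⁻ u, ENNReal.ofReal (Real.exp (-A u)) ∂(cube d) with hc'
  have hc1 : c' ≤ 1 := by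
    rw [hc']
    calc ∫⁻ u, ENNReal.ofReal (Real.exp (-A u)) ∂(cube d) ≤ ∫⁻ u, 1 ∂(cube d) := by
          apply lintegral_mono
          intro u
          show ENNReal.ofReal (Real.exp (-A u)) ≤ 1
          rw [← ENNReal.ofReal_one]
          exact ENNReal.ofReal_le_ofReal (Real.exp_le_one_iff.2 (by linarith [hA0 u]))
      _ = 1 := by simp
  set e₀ : ℝ := Real.exp (-(d * M ^ 2 / 2)) with he₀
  have he0 : 0 < e₀ := Real.exp_pos _
  have hc0 : ENNReal.ofReal e₀ ≤ c' := by
    rw [hc']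
    calc ENNReal.ofReal e₀ = ∫⁻ u, ENNReal.ofReal e₀ ∂(cube d) := by simp
      _ ≤ _ := by
          apply lintegral_mono_ae
          filter_upwards [inCube_ae d] with u hu
          exact ENNReal.ofReal_le_ofReal (Real.exp_le_exp.2 (by linarith [hA1 u hu]))
  have hctop : c' ≠ ⊤ := ne_top_of_le_ne_top ENNReal.one_ne_top hc1
  set c : ℝ := c'.toReal with hc
  have hcc : ENNReal.ofReal c = c' := ENNReal.ofReal_toReal hctop
  have hcle : c ≤ 1 := by
    rw [hc]
    exact ENNReal.toReal_le_of_le_ofReal zero_le_one (by simpa using hc1)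
  have hcge : e₀ ≤ c := by
    rw [hc]
    exact (ENNReal.ofReal_le_iff_le_toReal hctop).1 hc0
  have hcpos : 0 < c := lt_of_lt_of_le he0 hcge
  set g : (Fin d → ℝ) → ℝ := fun u => c⁻¹ * Real.exp (-A u) with hg
  have hgm : Measurable g := by
    apply Measurable.const_mul
    exact Real.measurable_exp.comp hAmeas.neg
  obtain ⟨KT, hKT0, hkn⟩ := knothe d e₀ (e₀⁻¹ * (2 * M ^ 2)) he0 (by positivity)
  obtain ⟨T, hTm, hTc, hTmap, hTL⟩ := hkn g hgm
    (by
      intro x hx
      show e₀ ≤ c⁻¹ * Real.exp (-A x)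
      have h1 : e₀ ≤ Real.exp (-A x) := Real.exp_le_exp.2 (by linarith [hA1 x hx])
      have h2 : 1 ≤ c⁻¹ := (one_le_inv₀ hcpos).2 hcle
      nlinarith)
    (by
      intro x y hx hy
      show |c⁻¹ * Real.exp (-A x) - c⁻¹ * Real.exp (-A y)| ≤ _
      rw [← mul_sub, abs_mul, abs_of_pos (inv_pos.2 hcpos)]
      have h1 : |Real.exp (-A x) - Real.exp (-A y)| ≤ 2 * M ^ 2 * ∑ i, |x i - y i| :=
        (abs_exp_neg_sub (hA0 x) (hA0 y)).trans (hA2 x y hx hy)
      have h2 : c⁻¹ ≤ e₀⁻¹ := inv_anti₀ he0 hcge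
      calc c⁻¹ * |Real.exp (-A x) - Real.exp (-A y)| ≤ e₀⁻¹ * (2 * M ^ 2 * ∑ i, |x i - y i|) :=
            mul_le_mul h2 h1 (abs_nonneg _) (by positivity)
        _ = _ := by ring)
    (by
      show ∫⁻ x, ENNReal.ofReal (c⁻¹ * Real.exp (-A x)) ∂(cube d) = 1
      have h1 : ∀ x, ENNReal.ofReal (c⁻¹ * Real.exp (-A x)) =
          ENNReal.ofReal c⁻¹ * ENNReal.ofReal (Real.exp (-A x)) := fun x =>
        ENNReal.ofReal_mul (by positivity)
      simp_rw [h1]
      rw [lintegral_const_mul' _ _ ENNReal.ofReal_ne_top, ← hc', ← hcc,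
        ← ENNReal.ofReal_mul (by positivity), inv_mul_cancel₀ hcpos.ne', ENNReal.ofReal_one])
  set S : (Fin d → ℝ) → E d := fun u => WithLp.toLp 2 (fun i => M * (2 * u i - 1)) with hS
  have hSm : Measurable S := by
    apply (MeasurableEquiv.toLp 2 (Fin d → ℝ)).measurable.comp
    exact measurable_pi_lambda _ fun i => by fun_prop
  set C : ℝ := (2 * Real.pi) ^ (-(d : ℝ) / 2) with hC
  have hCpos : 0 < C := Real.rpow_pos_of_pos (by positivity) _
  refine ⟨2 * M * (KT * d) + 1, ENNReal.ofReal C * ENNReal.ofReal ((2 * M) ^ d) * c',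
    fun z => S (T z), by positivity, hSm.comp hTm, ?_, ?_⟩
  · intro z z' hz hz'
    show ‖S (T z) - S (T z')‖ ≤ _
    refine (l1_bound _).trans ?_
    have h1 : ∀ i, |(S (T z) - S (T z')) i| ≤ 2 * M * (KT * ∑ j, |z j - z' j|) := by
      intro i
      have : (S (T z) - S (T z')) i = 2 * M * (T z i - T z' i) := by
        show M * (2 * T z i - 1) - M * (2 * T z' i - 1) = _
        ring
      rw [this, abs_mul, abs_of_pos (by positivity)]
      exact mul_le_mul_of_nonneg_left (hTL z z' hz hz' i) (by positivity)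
    refine (Finset.sum_le_sum fun i _ => h1 i).trans ?_
    rw [Finset.sum_const, ← Finset.mul_sum]
    simp only [Finset.card_univ, Fintype.card_fin, nsmul_eq_mul]
    have h2 : 0 ≤ ∑ j, |z j - z' j| := Finset.sum_nonneg fun j _ => abs_nonneg _
    nlinarith
  · set dens : E d → ℝ≥0∞ := fun x =>
      ENNReal.ofReal ((2 * Real.pi) ^ (-(d : ℝ) / 2) * Real.exp (-‖x‖ ^ 2 / 2)) with hdens
    have hdm : Measurable dens := by
      apply Measurable.ennreal_ofReal
      fun_prop
    have hBm : MeasurableSet {x : E d | ∀ i, |x i| ≤ M} := by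
      have : {x : E d | ∀ i, |x i| ≤ M} = ⋂ i, {x : E d | |x i| ≤ M} := by
        ext x; simp
      rw [this]
      apply MeasurableSet.iInter
      intro i
      apply measurableSet_le _ measurable_const
      fun_prop
    apply Measure.ext_of_lintegral
    intro f hf
    have hSTm : Measurable fun z => S (T z) := hSm.comp hTm
    rw [lintegral_smul_measure, lintegral_map hf hSTm]
    have e1 : ∫⁻ x, f x ∂((gauss d).restrict {x : E d | ∀ i, |x i| ≤ M}) =
        ∫⁻ x in {x : E d | ∀ i, |x i| ≤ M}, dens x * f x := by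
      unfold gauss
      rw [restrict_withDensity hBm]
      rw [lintegral_withDensity_eq_lintegral_mul _ hdm hf]
      rfl
    have e2 : ∫⁻ x in {x : E d | ∀ i, |x i| ≤ M}, dens x * f x =
        ∫⁻ y in (WithLp.toLp 2 : (Fin d → ℝ) → E d) ⁻¹' {x : E d | ∀ i, |x i| ≤ M},
          dens (WithLp.toLp 2 y) * f (WithLp.toLp 2 y) :=
      ((PiLp.volume_preserving_toLp (Fin d)).setLIntegral_comp_preimage hBm (hdm.mul hf)).symm
    have e3 : (Set.univ.pi fun _ : Fin d => Ioo (-M) M) =ᵐ[(volume : Measure (Fin d → ℝ))]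
        ((WithLp.toLp 2 : (Fin d → ℝ) → E d) ⁻¹' {x : E d | ∀ i, |x i| ≤ M} : Set (Fin d → ℝ)) := by
      have h1 : ((WithLp.toLp 2 : (Fin d → ℝ) → E d) ⁻¹' {x : E d | ∀ i, |x i| ≤ M} :
          Set (Fin d → ℝ)) = Icc (fun _ => -M) (fun _ => M) := by
        ext y
        constructor
        · intro h
          exact ⟨fun i => (abs_le.1 (h i)).1, fun i => (abs_le.1 (h i)).2⟩
        · intro h i
          exact abs_le.2 ⟨h.1 i, h.2 i⟩
      rw [h1]
      exact Measure.univ_pi_Ioo_ae_eq_Icc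
    rw [e1, e2, ← setLIntegral_congr e3, scaling d M hM]
    have hSf : Measurable fun u => f (S u) := hf.comp hSm
    have e4 : ∫⁻ z, f (S (T z)) ∂(cube d) = ∫⁻ u, ENNReal.ofReal (g u) * f (S u) ∂(cube d) :=
      lintegral_T g hgm T hTm hTmap _ hSf
    show _ = _ • ∫⁻ z, f (S (T z)) ∂(cube d)
    rw [e4, smul_eq_mul]
    have e5 : ∀ u : Fin d → ℝ, dens (WithLp.toLp 2 fun i => M * (2 * u i - 1)) *
        f (WithLp.toLp 2 fun i => M * (2 * u i - 1)) =
        (ENNReal.ofReal C * c') * (ENNReal.ofReal (g u) * f (S u)) := by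
      intro u
      rw [← mul_assoc]
      congr 1
      rw [hdens]
      simp only
      rw [norm_toLp_sq]
      have h1 : Real.exp (-(∑ i, (M * (2 * u i - 1)) ^ 2) / 2) = Real.exp (-A u) := by
        congr 1
        rw [hA]
        simp only
        rw [← Finset.sum_div]
        ring
      rw [h1, ← hcc, ← ENNReal.ofReal_mul hCpos.le, ← ENNReal.ofReal_mul (by positivity)]
      congr 1
      show C * Real.exp (-A u) = C * c * (c⁻¹ * Real.exp (-A u))
      have h2 : c * c⁻¹ = 1 := mul_inv_cancel₀ hcpos.ne'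
      calc C * Real.exp (-A u) = C * (c * c⁻¹) * Real.exp (-A u) := by rw [h2]; ring
        _ = _ := by ring
    simp_rw [e5]
    rw [lintegral_const_mul _ (by fun_prop)]
    ring

namespace J234

variable {m : ℕ}

/-- The vector `(1,y)`. -/
noncomputable def vec1 (y : Fin m → ℝ) : E (m + 1) := WithLp.toLp 2 (Fin.cons 1 y)

theorem norm_vec1 (y : Fin m → ℝ) : ‖vec1 y‖ = rho y := by
  have h : ‖vec1 y‖ ^ 2 = 1 + ∑ j, y j ^ 2 := by
    unfold vec1
    rw [norm_toLp_sq, Fin.sum_univ_succ]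
    simp
  unfold rho
  rw [← h, Real.sqrt_sq (norm_nonneg _)]

theorem one_le_rho (y : Fin m → ℝ) : 1 ≤ rho y := by
  unfold rho
  apply Real.one_le_sqrt.2
  have : 0 ≤ ∑ j, y j ^ 2 := Finset.sum_nonneg fun j _ => sq_nonneg _
  linarith

theorem rho_pos (y : Fin m → ℝ) : 0 < rho y := lt_of_lt_of_le one_pos (one_le_rho y)

theorem rho_le (y : Fin m → ℝ) (hy : ∀ j, |y j| ≤ 1) : rho y ≤ Real.sqrt ((m : ℝ) + 1) := by
  unfold rho
  apply Real.sqrt_le_sqrt
  have : ∑ j, y j ^ 2 ≤ ∑ _j : Fin m, (1 : ℝ) := by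
    apply Finset.sum_le_sum
    intro j _
    have := hy j
    rw [← sq_abs]
    have h0 := abs_nonneg (y j)
    nlinarith
  simp at this
  linarith

theorem vec1_sub (y y' : Fin m → ℝ) : ‖vec1 y - vec1 y'‖ ≤ ∑ j, |y j - y' j| := by
  refine (l1_bound _).trans (le_of_eq ?_)
  rw [Fin.sum_univ_succ]
  have h0 : (vec1 y - vec1 y') 0 = 0 := by
    show (Fin.cons 1 y : Fin (m + 1) → ℝ) 0 - (Fin.cons 1 y' : Fin (m + 1) → ℝ) 0 = 0
    simp
  rw [h0, abs_zero, zero_add]
  rfl

theorem rho_lip (y y' : Fin m → ℝ) : |rho y - rho y'| ≤ ∑ j, |y j - y' j| := by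
  rw [← norm_vec1, ← norm_vec1]
  exact (abs_norm_sub_norm_le _ _).trans (vec1_sub y y')

theorem ray_eq (r : ℝ) (y : Fin m → ℝ) : ray r y = (r / rho y) • vec1 y := by
  unfold ray vec1
  ext i
  refine Fin.cases ?_ (fun j => ?_) i
  · simp
  · simp

theorem norm_ray (r : ℝ) (y : Fin m → ℝ) : ‖ray r y‖ = |r| := by
  rw [ray_eq, norm_smul, norm_vec1, Real.norm_eq_abs, abs_div, abs_of_pos (rho_pos y),
    div_mul_cancel₀ _ (rho_pos y).ne']

theorem ray_sub_left (r r' : ℝ) (y : Fin m → ℝ) : ‖ray r y - ray r' y‖ = |r - r'| := by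
  have : ray r y - ray r' y = ray (r - r') y := by
    rw [ray_eq, ray_eq, ray_eq, ← sub_smul]
    congr 1
    ring
  rw [this, norm_ray]

theorem ray_sub_right (r : ℝ) (y y' : Fin m → ℝ) :
    ‖ray r y - ray r y'‖ ≤ |r| * (2 * ∑ j, |y j - y' j|) := by
  have h1 : ray r y - ray r y' = r • ((rho y)⁻¹ • (vec1 y - vec1 y') +
      ((rho y)⁻¹ - (rho y')⁻¹) • vec1 y') := by
    rw [ray_eq, ray_eq]
    simp only [smul_add, smul_sub, sub_smul, smul_smul, div_eq_mul_inv]
    abel
  rw [h1, norm_smul, Real.norm_eq_abs]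
  apply mul_le_mul_of_nonneg_left _ (abs_nonneg _)
  refine (norm_add_le _ _).trans ?_
  rw [norm_smul, norm_smul, norm_vec1, Real.norm_eq_abs, Real.norm_eq_abs]
  have hy := rho_pos y
  have hy' := rho_pos y'
  have h2 : |(rho y)⁻¹ - (rho y')⁻¹| * rho y' = |rho y - rho y'| / rho y := by
    have : (rho y)⁻¹ - (rho y')⁻¹ = (rho y' - rho y) / (rho y * rho y') := by field_simp
    rw [this, abs_div, abs_of_pos (mul_pos hy hy'), abs_sub_comm]
    field_simp
  rw [h2, abs_of_pos (inv_pos.2 hy)]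
  have h3 : (rho y)⁻¹ ≤ 1 := inv_le_one_of_one_le₀ (one_le_rho y)
  have h4 : |rho y - rho y'| / rho y ≤ |rho y - rho y'| := div_le_self (abs_nonneg _) (one_le_rho y)
  have h5 := rho_lip y y'
  have h6 := vec1_sub y y'
  have h7 : 0 ≤ ‖vec1 y - vec1 y'‖ := norm_nonneg _
  nlinarith

theorem measurable_rho : Measurable (rho : (Fin m → ℝ) → ℝ) := by
  unfold rho
  apply Real.continuous_sqrt.measurable.comp
  fun_prop

theorem continuous_rho : Continuous (rho : (Fin m → ℝ) → ℝ) := by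
  unfold rho
  apply Real.continuous_sqrt.comp
  fun_prop

theorem measurable_ray : Measurable fun p : ℝ × (Fin m → ℝ) => ray p.1 p.2 := by
  have : (fun p : ℝ × (Fin m → ℝ) => ray p.1 p.2) = fun p => (p.1 / rho p.2) • vec1 p.2 := by
    funext p
    rw [ray_eq]
  rw [this]
  have h1 : Measurable fun p : ℝ × (Fin m → ℝ) => vec1 p.2 := by
    apply (MeasurableEquiv.toLp 2 (Fin (m + 1) → ℝ)).measurable.comp
    apply measurable_pi_lambda
    intro i
    refine Fin.cases ?_ (fun j => ?_) i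
    · simp only [Fin.cons_zero]; exact measurable_const
    · simp only [Fin.cons_succ]; fun_prop
  exact (measurable_fst.div (measurable_rho.comp measurable_snd)).smul h1

theorem inv_pow_lip {s t : ℝ} (hs : 1 ≤ s) (ht : 1 ≤ t) (n : ℕ) :
    |(s ^ n)⁻¹ - (t ^ n)⁻¹| ≤ n * |s - t| := by
  rw [← inv_pow, ← inv_pow]
  refine (abs_pow_sub_pow_le _ _ _).trans ?_
  have hs0 : 0 < s := by linarith
  have ht0 : 0 < t := by linarith
  have h1 : s⁻¹ ≤ 1 := inv_le_one_of_one_le₀ hs
  have h2 : t⁻¹ ≤ 1 := inv_le_one_of_one_le₀ ht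
  have h3 : max |s⁻¹| |t⁻¹| ^ (n - 1) ≤ 1 := by
    apply pow_le_one₀ (le_max_of_le_left (abs_nonneg _))
    apply max_le
    · rw [abs_of_pos (inv_pos.2 hs0)]; exact h1
    · rw [abs_of_pos (inv_pos.2 ht0)]; exact h2
  have h4 : |s⁻¹ - t⁻¹| ≤ |s - t| := by
    have : s⁻¹ - t⁻¹ = (t - s) / (s * t) := by field_simp
    rw [this, abs_div, abs_of_pos (mul_pos hs0 ht0), abs_sub_comm]
    apply div_le_self (abs_nonneg _)
    nlinarith
  have h5 : (0 : ℝ) ≤ n := Nat.cast_nonneg n
  have h6 : 0 ≤ |s⁻¹ - t⁻¹| := abs_nonneg _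
  calc |s⁻¹ - t⁻¹| * n * max |s⁻¹| |t⁻¹| ^ (n - 1) ≤ |s⁻¹ - t⁻¹| * n * 1 :=
        mul_le_mul_of_nonneg_left h3 (by positivity)
    _ = n * |s⁻¹ - t⁻¹| := by ring
    _ ≤ n * |s - t| := mul_le_mul_of_nonneg_left h4 h5

end J234

/-- The Gaussian measure on the outer sector is the image of the uniform law on the cube under a
good parametrisation. -/
theorem sector_param (m : ℕ) : ∃ (K : ℝ) (q : ℝ≥0∞) (Ψ : (Fin (m + 1) → ℝ) → E (m + 1)),
    0 < K ∧ Good K (fun _ => 1) Ψ ∧
      (gauss (m + 1)).restrict (sector m ((m : ℝ) + 1)) = q • (cube (m + 1)).map Ψ := by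
  classical
  obtain ⟨K, R, V, hK, hRm, hVpos, hrad, hVlip, hRb, hRlip, hRlog⟩ := radial m
  set M : ℝ := (m : ℝ) + 1 with hM
  have hM0 : 0 < M := by positivity
  have hM1 : 1 ≤ M := by rw [hM]; linarith [(Nat.cast_nonneg m : (0 : ℝ) ≤ m)]
  set B : ℝ := M * Real.sqrt M with hB
  have hsq1 : 1 ≤ Real.sqrt M := Real.one_le_sqrt.2 hM1
  have hMB : M ≤ B := by rw [hB]; nlinarith
  -- range of `M ρ(y)`
  have hr1 : ∀ y : Fin m → ℝ, M ≤ M * rho y := fun y => by
    have := one_le_rho y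
    nlinarith
  have hr2 : ∀ y : Fin m → ℝ, (∀ j, |y j| ≤ 1) → M * rho y ≤ B := fun y hy =>
    mul_le_mul_of_nonneg_left (rho_le y hy) hM0.le
  have hVc : ContinuousOn V (Ici M) := by
    have : LipschitzOnWith (Real.toNNReal K) V (Ici M) := by
      apply LipschitzOnWith.of_dist_le_mul
      intro s hs t ht
      rw [Real.coe_toNNReal K hK.le, Real.dist_eq, Real.dist_eq]
      exact hVlip s t hs ht
    exact this.continuousOn
  set h : (Fin m → ℝ) → ℝ := fun y => (rho y ^ (m + 1))⁻¹ * V (M * rho y) with hh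
  have hVh : Continuous fun y : Fin m → ℝ => V (M * rho y) :=
    hVc.comp_continuous (continuous_const.mul continuous_rho) hr1
  have hhc : Continuous h := by
    apply Continuous.mul _ hVh
    apply Continuous.inv₀ (continuous_rho.pow _)
    intro y
    exact (pow_pos (rho_pos y) _).ne'
  have hhpos : ∀ y, 0 < h y := fun y =>
    mul_pos (inv_pos.2 (pow_pos (rho_pos y) _)) (hVpos _ (hr1 y))
  -- bounds of V
  obtain ⟨s₀, hs₀, hmin⟩ := (isCompact_Icc : IsCompact (Icc M B)).exists_isMinOn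
    ⟨M, left_mem_Icc.2 hMB⟩ (hVc.mono Icc_subset_Ici_self)
  have hv0 : 0 < V s₀ := hVpos s₀ hs₀.1
  set v₁ : ℝ := V M + K * (B - M) with hv₁
  have hv1 : ∀ s ∈ Icc M B, V s ≤ v₁ := by
    intro s hs
    have h1 := hVlip s M hs.1 le_rfl
    have h2 := (le_abs_self _).trans h1
    rw [abs_of_nonneg (by linarith [hs.1] : 0 ≤ s - M)] at h2
    have : K * (s - M) ≤ K * (B - M) := mul_le_mul_of_nonneg_left (by linarith [hs.2]) hK.le
    linarith
  have hv1pos : 0 < v₁ := lt_of_lt_of_le hv0 (hv1 s₀ hs₀)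
  set h₀ : ℝ := (Real.sqrt M ^ (m + 1))⁻¹ * V s₀ with hh₀
  have hh0 : 0 < h₀ := by
    apply mul_pos _ hv0
    apply inv_pos.2
    apply pow_pos
    linarith
  have hhlow : ∀ y : Fin m → ℝ, (∀ j, |y j| ≤ 1) → h₀ ≤ h y := by
    intro y hy
    rw [hh, hh₀]
    apply mul_le_mul _ _ hv0.le (inv_nonneg.2 (pow_nonneg (rho_pos y).le _))
    · apply inv_anti₀ (pow_pos (rho_pos y) _)
      exact pow_le_pow_left₀ (rho_pos y).le (rho_le y hy) _
    · exact hmin ⟨hr1 y, hr2 y hy⟩
  have hhup : ∀ y : Fin m → ℝ, (∀ j, |y j| ≤ 1) → h y ≤ v₁ := by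
    intro y hy
    rw [hh]
    have h1 : (rho y ^ (m + 1))⁻¹ ≤ 1 := inv_le_one_of_one_le₀ (one_le_pow₀ (one_le_rho y))
    have h2 := hv1 _ ⟨hr1 y, hr2 y hy⟩
    have h3 := hVpos _ (hr1 y)
    have h4 : 0 ≤ (rho y ^ (m + 1))⁻¹ := inv_nonneg.2 (pow_nonneg (rho_pos y).le _)
    show (rho y ^ (m + 1))⁻¹ * V (M * rho y) ≤ v₁
    nlinarith
  have hhlip : ∀ y y' : Fin m → ℝ, (∀ j, |y j| ≤ 1) → (∀ j, |y' j| ≤ 1) →
      |h y - h y'| ≤ (((m + 1 : ℕ) : ℝ) * v₁ + K * M) * ∑ j, |y j - y' j| := by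
    intro y y' hy hy'
    have e : h y - h y' = ((rho y ^ (m + 1))⁻¹ - (rho y' ^ (m + 1))⁻¹) * V (M * rho y) +
        (rho y' ^ (m + 1))⁻¹ * (V (M * rho y) - V (M * rho y')) := by
      rw [hh]
      ring
    rw [e]
    refine (abs_add_le _ _).trans ?_
    rw [abs_mul, abs_mul, abs_of_pos (hVpos _ (hr1 y)),
      abs_of_pos (inv_pos.2 (pow_pos (rho_pos y') (m + 1)))]
    have h1 := inv_pow_lip (one_le_rho y) (one_le_rho y') (m + 1)
    have h2 := rho_lip y y'
    have h3 := hv1 _ ⟨hr1 y, hr2 y hy⟩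
    have h4 := hVlip (M * rho y) (M * rho y') (hr1 y) (hr1 y')
    have h5 : |M * rho y - M * rho y'| = M * |rho y - rho y'| := by
      rw [← mul_sub, abs_mul, abs_of_pos hM0]
    rw [h5] at h4
    have h6 : (rho y' ^ (m + 1))⁻¹ ≤ 1 := inv_le_one_of_one_le₀ (one_le_pow₀ (one_le_rho y'))
    have hD : 0 ≤ ∑ j, |y j - y' j| := Finset.sum_nonneg fun j _ => abs_nonneg _
    have a1 : |(rho y ^ (m + 1))⁻¹ - (rho y' ^ (m + 1))⁻¹| * V (M * rho y) ≤
        (((m + 1 : ℕ) : ℝ) * ∑ j, |y j - y' j|) * v₁ := by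
      apply mul_le_mul _ h3 (hVpos _ (hr1 y)).le (by positivity)
      exact h1.trans (mul_le_mul_of_nonneg_left h2 (by positivity))
    have a2 : (rho y' ^ (m + 1))⁻¹ * |V (M * rho y) - V (M * rho y')| ≤
        1 * (K * (M * ∑ j, |y j - y' j|)) := by
      apply mul_le_mul h6 _ (abs_nonneg _) zero_le_one
      refine h4.trans (mul_le_mul_of_nonneg_left (mul_le_mul_of_nonneg_left h2 hM0.le) hK.le)
    calc _ ≤ (((m + 1 : ℕ) : ℝ) * ∑ j, |y j - y' j|) * v₁ + 1 * (K * (M * ∑ j, |y j - y' j|)) :=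
          add_le_add a1 a2
      _ = _ := by ring
  -- the change of variables `y = 2u-1`
  set Y : (Fin m → ℝ) → (Fin m → ℝ) := fun u j => 2 * u j - 1 with hY
  have hYm : Measurable Y := measurable_pi_lambda _ fun j => by fun_prop
  have hY1 : ∀ u, InCube u → ∀ j, |Y u j| ≤ 1 := by
    intro u hu j
    rw [abs_le]
    have h1 := (hu j).1
    have h2 := (hu j).2
    constructor
    · show -1 ≤ 2 * u j - 1
      linarith
    · show 2 * u j - 1 ≤ 1
      linarith
  have hYs : ∀ u v, ∑ j, |Y u j - Y v j| = 2 * ∑ j, |u j - v j| := by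
    intro u v
    rw [Finset.mul_sum]
    apply Finset.sum_congr rfl
    intro j _
    have : Y u j - Y v j = 2 * (u j - v j) := by
      show (2 * u j - 1) - (2 * v j - 1) = _
      ring
    rw [this, abs_mul, abs_of_pos (by norm_num : (0 : ℝ) < 2)]
  set c' : ℝ≥0∞ := ∫⁻ u, ENNReal.ofReal (h (Y u)) ∂(cube m) with hc'
  have hc1 : c' ≤ ENNReal.ofReal v₁ := by
    calc c' ≤ ∫⁻ u, ENNReal.ofReal v₁ ∂(cube m) := by
          apply lintegral_mono_ae
          filter_upwards [inCube_ae m] with u hu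
          exact ENNReal.ofReal_le_ofReal (hhup _ (hY1 u hu))
      _ = _ := by simp
  have hc0 : ENNReal.ofReal h₀ ≤ c' := by
    calc ENNReal.ofReal h₀ = ∫⁻ u, ENNReal.ofReal h₀ ∂(cube m) := by simp
      _ ≤ _ := by
          apply lintegral_mono_ae
          filter_upwards [inCube_ae m] with u hu
          exact ENNReal.ofReal_le_ofReal (hhlow _ (hY1 u hu))
  have hctop : c' ≠ ⊤ := ne_top_of_le_ne_top ENNReal.ofReal_ne_top hc1
  set c : ℝ := c'.toReal with hc
  have hcc : ENNReal.ofReal c = c' := ENNReal.ofReal_toReal hctop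
  have hcle : c ≤ v₁ := ENNReal.toReal_le_of_le_ofReal hv1pos.le hc1
  have hcge : h₀ ≤ c := (ENNReal.ofReal_le_iff_le_toReal hctop).1 hc0
  have hcpos : 0 < c := lt_of_lt_of_le hh0 hcge
  set g : (Fin m → ℝ) → ℝ := fun u => c⁻¹ * h (Y u) with hg
  have hgm : Measurable g := (hhc.measurable.comp hYm).const_mul _
  set L : ℝ := h₀⁻¹ * ((((m + 1 : ℕ) : ℝ) * v₁ + K * M) * 2) with hL
  have hL0 : 0 ≤ L := by positivity
  obtain ⟨KT, hKT0, hkn⟩ := knothe m (v₁⁻¹ * h₀) L (by positivity) hL0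
  obtain ⟨T, hTm, hTc, hTmap, hTL⟩ := hkn g hgm
    (by
      intro x hx
      show v₁⁻¹ * h₀ ≤ c⁻¹ * h (Y x)
      apply mul_le_mul (inv_anti₀ hcpos hcle) (hhlow _ (hY1 x hx)) hh0.le (by positivity))
    (by
      intro x y hx hy
      show |c⁻¹ * h (Y x) - c⁻¹ * h (Y y)| ≤ _
      rw [← mul_sub, abs_mul, abs_of_pos (inv_pos.2 hcpos)]
      have h1 := hhlip (Y x) (Y y) (hY1 x hx) (hY1 y hy)
      rw [hYs] at h1
      calc c⁻¹ * |h (Y x) - h (Y y)| ≤
            h₀⁻¹ * ((((m + 1 : ℕ) : ℝ) * v₁ + K * M) * (2 * ∑ i, |x i - y i|)) :=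
            mul_le_mul (inv_anti₀ hh0 hcge) h1 (abs_nonneg _) (by positivity)
        _ = _ := by rw [hL]; ring)
    (by
      show ∫⁻ x, ENNReal.ofReal (c⁻¹ * h (Y x)) ∂(cube m) = 1
      have h1 : ∀ x, ENNReal.ofReal (c⁻¹ * h (Y x)) =
          ENNReal.ofReal c⁻¹ * ENNReal.ofReal (h (Y x)) := fun x =>
        ENNReal.ofReal_mul (by positivity)
      simp_rw [h1]
      rw [lintegral_const_mul' _ _ ENNReal.ofReal_ne_top, ← hc', ← hcc,
        ← ENNReal.ofReal_mul (by positivity), inv_mul_cancel₀ hcpos.ne', ENNReal.ofReal_one])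
  set C : ℝ := (2 * Real.pi) ^ (-((m + 1 : ℕ) : ℝ) / 2) with hC
  have hCpos : 0 < C := Real.rpow_pos_of_pos (by positivity) _
  set G : ℝ × (Fin m → ℝ) → E (m + 1) := fun p => ray (R (M * rho p.2) p.1) p.2 with hG
  have hGm : Measurable G := by
    have h1 : Measurable fun p : ℝ × (Fin m → ℝ) => R (M * rho p.2) p.1 := by
      have h2 : Measurable fun p : ℝ × (Fin m → ℝ) => (M * rho p.2, p.1) :=
        ((measurable_rho.comp measurable_snd).const_mul M).prodMk measurable_fst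
      exact hRm.comp h2
    exact measurable_ray.comp (h1.prodMk measurable_snd)
  set Ψ : (Fin (m + 1) → ℝ) → E (m + 1) :=
    fun z => G (z 0, Y (T fun j => z j.succ)) with hΨ
  have hΨm : Measurable Ψ := by
    apply hGm.comp
    apply (measurable_pi_apply 0).prodMk
    apply hYm.comp
    apply hTm.comp
    exact measurable_pi_lambda _ fun j => measurable_pi_apply _
  set K₂ : ℝ := (2 * K + K * M) * (2 * (KT * m)) + K with hK₂
  have hK2K : K ≤ K₂ := by
    rw [hK₂]
    have : 0 ≤ (2 * K + K * M) * (2 * (KT * m)) := by positivity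
    linarith
  have htail : ∀ z : Fin (m + 1) → ℝ, InCube z → InCube (fun j : Fin m => z j.succ) :=
    fun z hz j => hz j.succ
  refine ⟨K₂, ENNReal.ofReal C * ENNReal.ofReal ((2 * 1) ^ m) * c', Ψ, by linarith, ⟨hΨm, ?_, ?_⟩, ?_⟩
  · -- V1
    intro z z' hz hz' h0
    set v := (fun j : Fin m => z j.succ) with hv
    set v' := (fun j : Fin m => z' j.succ) with hv'
    set y := Y (T v) with hy
    set y' := Y (T v') with hy'
    have hv_in : InCube v := htail z hz
    have hv'_in : InCube v' := htail z' hz'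
    have hyb : ∀ j, |y j| ≤ 1 := hY1 _ (hTc _ hv_in)
    have hyb' : ∀ j, |y' j| ≤ 1 := hY1 _ (hTc _ hv'_in)
    have hS := hz 0
    set S := z 0 with hSdef
    set D := ∑ j : Fin m, |v j - v' j| with hDdef
    have hD0 : 0 ≤ D := Finset.sum_nonneg fun j _ => abs_nonneg _
    have hyy : ∑ j, |y j - y' j| ≤ 2 * (KT * m) * D := by
      rw [hYs]
      have : ∑ j, |T v j - T v' j| ≤ ∑ _j : Fin m, KT * D :=
        Finset.sum_le_sum fun j _ => hTL v v' hv_in hv'_in j
      simp only [Finset.sum_const, Finset.card_univ, Fintype.card_fin, nsmul_eq_mul] at this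
      nlinarith
    have hyy0 : 0 ≤ ∑ j, |y j - y' j| := Finset.sum_nonneg fun j _ => abs_nonneg _
    set w := Real.sqrt (1 - Real.log S) with hw
    have hw1 : 1 ≤ w := by
      apply Real.one_le_sqrt.2
      have := Real.log_neg hS.1 hS.2
      linarith
    have eq1 : Ψ z = ray (R (M * rho y) S) y := rfl
    have eq2 : Ψ z' = ray (R (M * rho y') S) y' := by
      rw [h0]
    have b1 := hRb (M * rho y) (hr1 y) (hr2 y hyb) S hS
    have b2 := hRlip (M * rho y) (M * rho y') (hr1 y) (hr2 y hyb) (hr1 y') (hr2 y' hyb') S hS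
    have h5 : |M * rho y - M * rho y'| = M * |rho y - rho y'| := by
      rw [← mul_sub, abs_mul, abs_of_pos hM0]
    rw [h5] at b2
    have b3 := rho_lip y y'
    rw [eq1, eq2]
    have t1 : ‖ray (R (M * rho y) S) y - ray (R (M * rho y') S) y'‖ ≤
        ‖ray (R (M * rho y) S) y - ray (R (M * rho y) S) y'‖ +
        ‖ray (R (M * rho y) S) y' - ray (R (M * rho y') S) y'‖ := norm_sub_le_norm_sub_add_norm_sub _ _ _
    have t2 := ray_sub_right (R (M * rho y) S) y y'
    have t3 := ray_sub_left (R (M * rho y) S) (R (M * rho y') S) y'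
    rw [abs_of_pos b1.1] at t2
    have t4 : R (M * rho y) S * (2 * ∑ j, |y j - y' j|) ≤ (K * w) * (2 * ∑ j, |y j - y' j|) :=
      mul_le_mul_of_nonneg_right b1.2 (by positivity)
    have t5 : |R (M * rho y) S - R (M * rho y') S| ≤ K * (M * ∑ j, |y j - y' j|) :=
      b2.trans (mul_le_mul_of_nonneg_left (mul_le_mul_of_nonneg_left b3 hM0.le) hK.le)
    have t6 : K * (M * ∑ j, |y j - y' j|) ≤ K * M * w * ∑ j, |y j - y' j| := by
      have : 0 ≤ K * M * ∑ j, |y j - y' j| := by positivity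
      nlinarith
    have t7 : ‖ray (R (M * rho y) S) y - ray (R (M * rho y') S) y'‖ ≤
        (2 * K + K * M) * w * ∑ j, |y j - y' j| := by
      rw [t3] at t1
      nlinarith
    have t8 : (2 * K + K * M) * w * ∑ j, |y j - y' j| ≤
        (2 * K + K * M) * w * (2 * (KT * m) * D) :=
      mul_le_mul_of_nonneg_left hyy (by positivity)
    have t9 : 0 ≤ K * w * D := by positivity
    have t10 : ∑ j : Fin m, (1 : ℝ) * |z j.succ - z' j.succ| = D := by
      simp [hDdef, hv, hv']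
    show _ ≤ K₂ * w * ∑ j : Fin m, (1 : ℝ) * |z j.succ - z' j.succ|
    rw [t10, hK₂]
    nlinarith
  · -- V2
    intro z z' hz hz' ht l hl hl'
    set v := (fun j : Fin m => z j.succ) with hv
    have hv_in : InCube v := htail z hz
    set y := Y (T v) with hy
    have hyb : ∀ j, |y j| ≤ 1 := hY1 _ (hTc _ hv_in)
    have eq1 : Ψ z = ray (R (M * rho y) (z 0)) y := rfl
    have eq2 : Ψ z' = ray (R (M * rho y) (z' 0)) y := by
      have : (fun j : Fin m => z' j.succ) = v := by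
        funext j
        exact (ht j).symm
      rw [hΨ]
      simp only
      rw [this]
    rw [eq1, eq2, ray_sub_left]
    refine (hRlog (M * rho y) (hr1 y) (hr2 y hyb) (z 0) (hz 0) (z' 0) (hz' 0) l hl hl').trans ?_
    apply mul_le_mul_of_nonneg_right _ (abs_nonneg _)
    apply mul_le_mul_of_nonneg_right hK2K
    positivity
  · -- measure identity
    apply Measure.ext_of_lintegral
    intro f hf
    rw [lintegral_smul_measure, lintegral_map hf hΨm]
    rw [sector_integral m M hM0 f hf]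
    -- the inner integral
    set Φ : (Fin m → ℝ) → ℝ≥0∞ := fun y => ∫⁻ S in Ioo (0 : ℝ) 1, f (G (S, y)) with hΦ
    have hΦm : Measurable Φ := by
      have h1 : Measurable fun p : (Fin m → ℝ) × ℝ => f (G (p.2, p.1)) :=
        hf.comp (hGm.comp (measurable_snd.prodMk measurable_fst))
      exact h1.lintegral_prod_right'
    have e1 : ∀ y : Fin m → ℝ, (∫⁻ r in Ioi (M * rho y),
          ENNReal.ofReal ((2 * Real.pi) ^ (-((m + 1 : ℕ) : ℝ) / 2) * (rho y ^ (m + 1))⁻¹ *
            (r ^ m * Real.exp (-r ^ 2 / 2))) * f (ray r y)) =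
        ENNReal.ofReal C * (ENNReal.ofReal (h y) * Φ y) := by
      intro y
      have hp : 0 ≤ (rho y ^ (m + 1))⁻¹ := inv_nonneg.2 (pow_nonneg (rho_pos y).le _)
      have h1 : ∀ r : ℝ, ENNReal.ofReal ((2 * Real.pi) ^ (-((m + 1 : ℕ) : ℝ) / 2) *
            (rho y ^ (m + 1))⁻¹ * (r ^ m * Real.exp (-r ^ 2 / 2))) * f (ray r y) =
          ENNReal.ofReal (C * (rho y ^ (m + 1))⁻¹) *
            (ENNReal.ofReal (r ^ m * Real.exp (-r ^ 2 / 2)) * f (ray r y)) := by
        intro r
        rw [ENNReal.ofReal_mul (by positivity), mul_assoc]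
      simp_rw [h1]
      have hF : Measurable fun r : ℝ => f (ray r y) :=
        hf.comp (measurable_ray.comp (measurable_id.prodMk measurable_const))
      rw [lintegral_const_mul' _ _ ENNReal.ofReal_ne_top, hrad (M * rho y) (hr1 y) _ hF]
      rw [hh]
      simp only
      rw [ENNReal.ofReal_mul hCpos.le, ENNReal.ofReal_mul hp]
      simp only [mul_assoc]
      rfl
    simp_rw [e1]
    have e2 := scaling m 1 one_pos fun y => ENNReal.ofReal C * (ENNReal.ofReal (h y) * Φ y)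
    rw [e2]
    have e3 : ∀ u : Fin m → ℝ, (fun i => (1 : ℝ) * (2 * u i - 1)) = Y u := by
      intro u
      funext i
      show (1 : ℝ) * (2 * u i - 1) = 2 * u i - 1
      ring
    simp_rw [e3]
    have e4 : ∀ u : Fin m → ℝ, ENNReal.ofReal C * (ENNReal.ofReal (h (Y u)) * Φ (Y u)) =
        (ENNReal.ofReal C * c') * (ENNReal.ofReal (g u) * Φ (Y u)) := by
      intro u
      rw [← mul_assoc, ← mul_assoc]
      congr 1
      rw [← hcc, ← ENNReal.ofReal_mul hCpos.le, ← ENNReal.ofReal_mul hCpos.le,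
        ← ENNReal.ofReal_mul (by positivity)]
      congr 1
      show C * h (Y u) = C * c * (c⁻¹ * h (Y u))
      have h2 : c * c⁻¹ = 1 := mul_inv_cancel₀ hcpos.ne'
      calc C * h (Y u) = C * (c * c⁻¹) * h (Y u) := by rw [h2]; ring
        _ = _ := by ring
    simp_rw [e4]
    have hΦY : Measurable fun u => Φ (Y u) := hΦm.comp hYm
    rw [lintegral_const_mul' _ _ (ENNReal.mul_ne_top ENNReal.ofReal_ne_top hctop)]
    rw [← lintegral_T g hgm T hTm hTmap (fun u => Φ (Y u)) hΦY]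
    -- splitting the cube
    have e5 : ∫⁻ z, f (Ψ z) ∂(cube (m + 1)) = ∫⁻ v, Φ (Y (T v)) ∂(cube m) := by
      have hmp := measurePreserving_piFinSuccAbove
        (fun _ : Fin (m + 1) => (volume : Measure ℝ).restrict (Ioo (0 : ℝ) 1)) 0
      have h1 : Measurable fun p : ℝ × (Fin m → ℝ) => f (G (p.1, Y (T p.2))) :=
        hf.comp (hGm.comp (measurable_fst.prodMk (hYm.comp (hTm.comp measurable_snd))))
      have h2 := hmp.lintegral_comp h1
      have h3 : ∫⁻ z, f (Ψ z) ∂(cube (m + 1)) =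
          ∫⁻ p : ℝ × (Fin m → ℝ), f (G (p.1, Y (T p.2)))
            ∂(((volume : Measure ℝ).restrict (Ioo (0 : ℝ) 1)).prod (cube m)) := h2
      rw [h3, lintegral_prod_symm' _ h1]
    rw [e5, smul_eq_mul]
    ring

end Pool.Agent.Helper764.EW.P
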