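import Pool.Agent.Helper764.EWCalc
import Pool.Agent.Helper764.EWGaussK
import Pool.Agent.Helper764.EWSector

set_option autoImplicit false
open MeasureTheory Filter Topology Set
open scoped ENNReal

namespace Pool.Agent.Helper764.EW





theorem gauss_std (d : ℕ) : gauss d = ProbabilityTheory.stdGaussian (E d) := by
  rw [gauss_eq_map]
  exact ProbabilityTheory.map_pi_eq_stdGaussian

theorem gauss_prob (d : ℕ) : IsProbabilityMeasure (gauss d) := by
  rw [gauss_std]
  infer_instance

theorem gauss_moment (d : ℕ) (p : ℝ) (hp : 1 ≤ p) :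
    ∫⁻ x, ENNReal.ofReal (‖x‖ ^ p) ∂(gauss d) < ⊤ := by
  rw [gauss_std]
  have h1 : MemLp id (ENNReal.ofReal p) (ProbabilityTheory.stdGaussian (E d)) :=
    ProbabilityTheory.IsGaussian.memLp_id _ _ ENNReal.ofReal_ne_top
  have h2 := h1.integrable_norm_rpow (by simp; linarith) ENNReal.ofReal_ne_top
  rw [ENNReal.toReal_ofReal (by linarith)] at h2
  exact h2.lintegral_lt_top

theorem gauss_double (d : ℕ) (p : ℝ) (hp : 1 ≤ p) :
    ∫⁻ x, ∫⁻ y, ENNReal.ofReal (‖x - y‖ ^ p) ∂(gauss d) ∂(gauss d) < ⊤ := by
  have hprob := gauss_prob d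
  set m := ∫⁻ x, ENNReal.ofReal (‖x‖ ^ p) ∂(gauss d) with hm
  have hm' : m < ⊤ := gauss_moment d p hp
  have hpt : ∀ x y : E d, ENNReal.ofReal (‖x - y‖ ^ p) ≤
      ENNReal.ofReal (2 ^ p) * (ENNReal.ofReal (‖x‖ ^ p) + ENNReal.ofReal (‖y‖ ^ p)) := by
    intro x y
    rw [← ENNReal.ofReal_add (by positivity) (by positivity), ← ENNReal.ofReal_mul (by positivity)]
    apply ENNReal.ofReal_le_ofReal
    have h1 : ‖x - y‖ ≤ 2 * max ‖x‖ ‖y‖ := by
      have := norm_sub_le x y
      have h2 := le_max_left ‖x‖ ‖y‖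
      have h3 := le_max_right ‖x‖ ‖y‖
      linarith
    have h2 : ‖x - y‖ ^ p ≤ (2 * max ‖x‖ ‖y‖) ^ p :=
      Real.rpow_le_rpow (norm_nonneg _) h1 (by linarith)
    rw [Real.mul_rpow (by norm_num) (by positivity)] at h2
    refine h2.trans (mul_le_mul_of_nonneg_left ?_ (by positivity))
    rcases le_total ‖x‖ ‖y‖ with h | h
    · rw [max_eq_right h]
      have : 0 ≤ ‖x‖ ^ p := by positivity
      linarith
    · rw [max_eq_left h]
      have : 0 ≤ ‖y‖ ^ p := by positivity
      linarith
  have hmeas : Measurable fun x : E d => ENNReal.ofReal (‖x‖ ^ p) := by fun_prop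
  calc ∫⁻ x, ∫⁻ y, ENNReal.ofReal (‖x - y‖ ^ p) ∂(gauss d) ∂(gauss d)
      ≤ ∫⁻ x, ∫⁻ y, ENNReal.ofReal (2 ^ p) * (ENNReal.ofReal (‖x‖ ^ p) +
          ENNReal.ofReal (‖y‖ ^ p)) ∂(gauss d) ∂(gauss d) :=
        lintegral_mono fun x => lintegral_mono fun y => hpt x y
    _ = ∫⁻ x, ENNReal.ofReal (2 ^ p) * (ENNReal.ofReal (‖x‖ ^ p) + m) ∂(gauss d) := by
        refine lintegral_congr fun x => ?_
        rw [lintegral_const_mul _ (by fun_prop), lintegral_add_left (by fun_prop),
          lintegral_const, measure_univ, mul_one]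
    _ = ENNReal.ofReal (2 ^ p) * (m + m) := by
        rw [lintegral_const_mul _ (by fun_prop), lintegral_add_left hmeas,
          lintegral_const, measure_univ, mul_one]
    _ < ⊤ := ENNReal.mul_lt_top ENNReal.ofReal_lt_top (ENNReal.add_lt_top.2 ⟨hm', hm'⟩)

theorem sum_rpow_bound {ι : Type} [Fintype ι] [Nonempty ι] (a : ι → ℝ) (ha : ∀ k, 0 ≤ a k) (p : ℝ)
    (hp : 1 ≤ p) : (∑ k, a k) ^ p ≤ (Fintype.card ι : ℝ) ^ p * ∑ k, a k ^ p := by
  obtain ⟨k0, _, hk0⟩ := Finset.exists_max_image Finset.univ a Finset.univ_nonempty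
  have h1 : ∑ k, a k ≤ Fintype.card ι * a k0 := by
    calc ∑ k, a k ≤ ∑ k : ι, a k0 := Finset.sum_le_sum fun k hk => hk0 k hk
      _ = Fintype.card ι * a k0 := by simp
  have h2 : (∑ k, a k) ^ p ≤ (Fintype.card ι * a k0) ^ p :=
    Real.rpow_le_rpow (Finset.sum_nonneg fun k _ => ha k) h1 (by linarith)
  rw [Real.mul_rpow (by positivity) (ha _)] at h2
  refine h2.trans (mul_le_mul_of_nonneg_left ?_ (by positivity))
  exact Finset.single_le_sum (f := fun k => a k ^ p) (fun k _ => by
    have := ha k
    positivity) (Finset.mem_univ k0)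

/-- Transport cost between the Gaussian measure and a reweighting of its cells. -/
theorem root_W (d : ℕ) (p : ℝ) (hp : 1 ≤ p) {ι : Type} [Fintype ι] [DecidableEq ι]
    (A : ι → Set (E d)) (hA : ∀ k, MeasurableSet (A k)) (hdisj : Pairwise (Function.onFun Disjoint A))
    (hcov : gauss d (⋃ k, A k)ᶜ = 0) (hpos : ∀ k, gauss d (A k) ≠ 0) :
    ∃ C : ℝ, 0 < C ∧ ∀ w : ι → ℝ, (∀ k, 0 ≤ w k) → ∑ k, w k = 1 →
      Wpp p (∑ k, ENNReal.ofReal (w k) • ((gauss d (A k))⁻¹ • (gauss d).restrict (A k))) (gauss d) ≤
        ENNReal.ofReal (C * ∑ k, |w k - (gauss d (A k)).toReal| ^ p) := by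
  classical
  have hprob := gauss_prob d
  set μ := gauss d with hμ
  set q : ι → ℝ := fun k => (μ (A k)).toReal with hq
  have hqtop : ∀ k, μ (A k) ≠ ⊤ := fun k => measure_ne_top _ _
  have hqpos : ∀ k, 0 < q k := fun k => ENNReal.toReal_pos (hpos k) (hqtop k)
  have hqe : ∀ k, ENNReal.ofReal (q k) = μ (A k) := fun k => ENNReal.ofReal_toReal (hqtop k)
  have hsumq : ∑ k, μ (A k) = 1 := by
    have h1 : μ (⋃ k, A k) = 1 := by
      have := prob_add_prob_compl (μ := μ) (MeasurableSet.iUnion hA)
      rw [hcov, add_zero] at this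
      exact this
    rw [measure_iUnion hdisj hA, tsum_fintype] at h1
    exact h1
  have hne : Nonempty ι := by
    by_contra hcon
    rw [not_nonempty_iff] at hcon
    rw [Finset.univ_eq_empty, Finset.sum_empty] at hsumq
    exact zero_ne_one hsumq
  obtain ⟨C0, hC0, hK⟩ := gaussK d
  obtain ⟨k0, _, hk0⟩ := Finset.exists_min_image Finset.univ q Finset.univ_nonempty
  set q0 := q k0 with hq0
  have hq0pos : 0 < q0 := hqpos k0
  have hq0le : ∀ k, q0 ≤ q k := fun k => hk0 k (Finset.mem_univ k)
  set N : ℝ := (Fintype.card ι : ℝ) with hN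
  have hNpos : 0 < N := by
    have := Fintype.card_pos (α := ι)
    rw [hN]; exact_mod_cast this
  set I2 := (∫⁻ x, ∫⁻ y, ENNReal.ofReal (‖x - y‖ ^ p) ∂μ ∂μ).toReal with hI2
  have hI2' : ENNReal.ofReal I2 = ∫⁻ x, ∫⁻ y, ENNReal.ofReal (‖x - y‖ ^ p) ∂μ ∂μ :=
    ENNReal.ofReal_toReal (gauss_double d p hp).ne
  have hI2nn : 0 ≤ I2 := ENNReal.toReal_nonneg
  set C1 : ℝ := (Real.sqrt d * C0) ^ p * (N / q0) ^ p with hC1
  set C2 : ℝ := (I2 / q0) * ((8 * N / q0) ^ p) with hC2
  have hC1nn : 0 ≤ C1 := by positivity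
  have hC2nn : 0 ≤ C2 := by positivity
  refine ⟨C1 + C2 + 1, by positivity, ?_⟩
  intro w hw hw1
  set Sg : ℝ := ∑ k, |w k - q k| ^ p with hSg
  have hSgnn : 0 ≤ Sg := Finset.sum_nonneg fun k _ => by positivity
  set e : ℝ := ∑ k, |w k / q k - 1| with he
  have henn : 0 ≤ e := Finset.sum_nonneg fun k _ => abs_nonneg _
  have hediv : ∀ k, |w k / q k - 1| = |w k - q k| / q k := by
    intro k
    have h1 : w k / q k - 1 = (w k - q k) / q k := by
      have := (hqpos k).ne'
      field_simp
    rw [h1, abs_div, abs_of_pos (hqpos k)]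
  have heSg : e ^ p ≤ (N / q0) ^ p * Sg := by
    have h1 : e ≤ (∑ k, |w k - q k|) / q0 := by
      rw [he, Finset.sum_div]
      refine Finset.sum_le_sum fun k _ => ?_
      rw [hediv]
      exact div_le_div_of_nonneg_left (abs_nonneg _) hq0pos (hq0le k)
    have h2 : e ^ p ≤ ((∑ k, |w k - q k|) / q0) ^ p := Real.rpow_le_rpow henn h1 (by linarith)
    rw [Real.div_rpow (Finset.sum_nonneg fun k _ => abs_nonneg _) hq0pos.le] at h2
    refine h2.trans ?_
    rw [Real.div_rpow hNpos.le hq0pos.le, div_mul_eq_mul_div]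
    apply div_le_div_of_nonneg_right _ (by positivity)
    exact sum_rpow_bound (fun k => |w k - q k|) (fun k => abs_nonneg _) p hp
  -- the density
  let h : E d → ℝ := fun x => (∑ k, (A k).indicator (fun _ => w k / q k) x) +
    ((⋃ k, A k)ᶜ).indicator (fun _ => (1 : ℝ)) x
  have hmeas : Measurable h := by
    apply Measurable.add
    · exact Finset.measurable_sum _ fun k _ => measurable_const.indicator (hA k)
    · exact measurable_const.indicator (MeasurableSet.iUnion hA).compl
  have hval : ∀ k, ∀ x ∈ A k, h x = w k / q k := by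
    intro k x hx
    have h1 : ((⋃ k, A k)ᶜ).indicator (fun _ => (1 : ℝ)) x = 0 := by
      apply Set.indicator_of_notMem
      intro hcon
      exact hcon (Set.mem_iUnion.2 ⟨k, hx⟩)
    have h2 : ∑ j, (A j).indicator (fun _ => w j / q j) x = w k / q k := by
      rw [Finset.sum_eq_single k]
      · exact Set.indicator_of_mem hx _
      · intro j _ hj
        apply Set.indicator_of_notMem
        intro hxj
        exact Set.disjoint_left.1 (hdisj hj) hxj hx
      · intro hk; exact absurd (Finset.mem_univ k) hk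
    simp only [h]
    rw [h1, h2, add_zero]
  have hval' : ∀ x, x ∉ ⋃ k, A k → h x = 1 := by
    intro x hx
    have h1 : ((⋃ k, A k)ᶜ).indicator (fun _ => (1 : ℝ)) x = 1 := Set.indicator_of_mem hx _
    have h2 : ∑ j, (A j).indicator (fun _ => w j / q j) x = 0 := by
      apply Finset.sum_eq_zero
      intro j _
      apply Set.indicator_of_notMem
      intro hxj
      exact hx (Set.mem_iUnion.2 ⟨j, hxj⟩)
    simp only [h]
    rw [h1, h2, zero_add]
  have hnn : ∀ x, 0 ≤ h x := by
    intro x
    by_cases hx : x ∈ ⋃ k, A k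
    · obtain ⟨k, hk⟩ := Set.mem_iUnion.1 hx
      rw [hval k x hk]
      exact div_nonneg (hw k) (hqpos k).le
    · rw [hval' x hx]; norm_num
  have hle : ∀ x, |h x - 1| ≤ e := by
    intro x
    by_cases hx : x ∈ ⋃ k, A k
    · obtain ⟨k, hk⟩ := Set.mem_iUnion.1 hx
      rw [hval k x hk]
      exact Finset.single_le_sum (f := fun k => |w k / q k - 1|) (fun k _ => abs_nonneg _)
        (Finset.mem_univ k)
    · rw [hval' x hx]; simpa using henn
  have hup : ∀ x, h x ≤ 1 / q0 := by
    have hwle : ∀ k, w k ≤ 1 := by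
      intro k
      rw [← hw1]
      exact Finset.single_le_sum (f := w) (fun k _ => hw k) (Finset.mem_univ k)
    have hq0le1 : q0 ≤ 1 := by
      have h1 : μ (A k0) ≤ 1 := prob_le_one
      have := ENNReal.toReal_mono ENNReal.one_ne_top h1
      simpa [hq0, hq] using this
    intro x
    by_cases hx : x ∈ ⋃ k, A k
    · obtain ⟨k, hk⟩ := Set.mem_iUnion.1 hx
      rw [hval k x hk]
      exact div_le_div₀ (by norm_num) (hwle k) hq0pos (hq0le k)
    · rw [hval' x hx, le_div_iff₀ hq0pos]; linarith
  -- the reweighted measure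
  set ν := ∑ k, ENNReal.ofReal (w k) • ((μ (A k))⁻¹ • μ.restrict (A k)) with hν
  have hνh : ν = μ.withDensity fun x => ENNReal.ofReal (h x) := by
    have h1 : μ = ∑ k, μ.restrict (A k) := by
      have h2 : μ.restrict (⋃ k, A k) = μ := by
        apply Measure.restrict_eq_self_of_ae_mem
        rw [ae_iff]
        exact hcov
      conv_lhs => rw [← h2]
      rw [Measure.restrict_iUnion hdisj hA, Measure.sum_fintype]
    have h3 : μ.withDensity (fun x => ENNReal.ofReal (h x)) =
        ∑ k, (μ.restrict (A k)).withDensity (fun x => ENNReal.ofReal (h x)) := by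
      conv_lhs => rw [h1]
      rw [← Measure.sum_fintype, withDensity_sum, Measure.sum_fintype]
    rw [h3, hν]
    refine Finset.sum_congr rfl fun k _ => ?_
    rw [smul_smul, ← withDensity_const]
    apply withDensity_congr_ae
    rw [Filter.EventuallyEq, ae_restrict_iff' (hA k)]
    apply Eventually.of_forall
    intro x hx
    rw [hval k x hx, ENNReal.ofReal_div_of_pos (hqpos k), hqe, ENNReal.div_eq_inv_mul, mul_comm]
  have hνprob : IsProbabilityMeasure ν := by
    constructor
    rw [hν, Measure.finsetSum_apply]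
    simp only [Measure.smul_apply, Measure.restrict_apply_univ, smul_eq_mul]
    have : ∀ k, ENNReal.ofReal (w k) * ((μ (A k))⁻¹ * μ (A k)) = ENNReal.ofReal (w k) := by
      intro k
      rw [ENNReal.inv_mul_cancel (hpos k) (hqtop k), mul_one]
    rw [Finset.sum_congr rfl fun k _ => this k, ← ENNReal.ofReal_sum_of_nonneg fun k _ => hw k, hw1,
      ENNReal.ofReal_one]
  by_cases hcase : e ≤ 1 / 8
  · -- small perturbation
    set pi : Measure (Fin d → ℝ) := Measure.pi fun _ : Fin d => ProbabilityTheory.gaussianReal 0 1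
      with hpi
    have hμpi : μ = pi.map (fun x => (WithLp.toLp 2 x : E d)) := gauss_eq_map d
    have hto : Measurable (fun x : Fin d → ℝ => (WithLp.toLp 2 x : E d)) := by fun_prop
    obtain ⟨T, hT, hTm, hTe⟩ := hK e henn hcase (fun x => h (WithLp.toLp 2 x))
      (hmeas.comp hto) (fun x => hle _) (by
        have h1 : ν Set.univ = 1 := measure_univ
        rw [hνh, withDensity_apply _ MeasurableSet.univ, Measure.restrict_univ, hμpi,
          lintegral_map (by fun_prop) hto] at h1
        exact h1)
    have hνT : ν = pi.map (fun x => (WithLp.toLp 2 (T x) : E d)) := by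
      rw [hνh, hμpi]
      have h1 : (fun x => (WithLp.toLp 2 (T x) : E d)) =
        (fun x => (WithLp.toLp 2 x : E d)) ∘ T := rfl
      rw [h1, ← Measure.map_map hto hT, hTm]
      ext s hs
      rw [withDensity_apply _ hs, Measure.map_apply hto hs, withDensity_apply _ (hto hs),
        setLIntegral_map hs (by fun_prop) hto]
    have hbound : Wpp p ν μ ≤ ENNReal.ofReal ((Real.sqrt d * (C0 * e)) ^ p) := by
      rw [hνT]
      conv_lhs => rw [hμpi]
      refine (Wpp_map_map pi (hto.comp hT) hto).trans ?_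
      calc ∫⁻ z, ENNReal.ofReal (‖(WithLp.toLp 2 (T z) : E d) - WithLp.toLp 2 z‖ ^ p) ∂pi
          ≤ ∫⁻ z, ENNReal.ofReal ((Real.sqrt d * (C0 * e)) ^ p) ∂pi := by
            refine lintegral_mono fun z => ?_
            apply ENNReal.ofReal_le_ofReal
            apply Real.rpow_le_rpow (norm_nonneg _) _ (by linarith)
            rw [EuclideanSpace.norm_eq]
            have h1 : ∑ i, ‖((WithLp.toLp 2 (T z) : E d) - WithLp.toLp 2 z) i‖ ^ 2 ≤
                d * (C0 * e) ^ 2 := by
              calc ∑ i, ‖((WithLp.toLp 2 (T z) : E d) - WithLp.toLp 2 z) i‖ ^ 2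
                  ≤ ∑ i : Fin d, (C0 * e) ^ 2 := by
                    refine Finset.sum_le_sum fun i _ => ?_
                    have h2 : ‖((WithLp.toLp 2 (T z) : E d) - WithLp.toLp 2 z) i‖ = |T z i - z i| :=
                      rfl
                    rw [h2]
                    exact pow_le_pow_left₀ (abs_nonneg _) (hTe z i) 2
                _ = d * (C0 * e) ^ 2 := by simp
            calc Real.sqrt (∑ i, ‖((WithLp.toLp 2 (T z) : E d) - WithLp.toLp 2 z) i‖ ^ 2)
                ≤ Real.sqrt (d * (C0 * e) ^ 2) := Real.sqrt_le_sqrt h1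
              _ = Real.sqrt d * (C0 * e) := by
                rw [Real.sqrt_mul (by positivity), Real.sqrt_sq (by positivity)]
        _ = ENNReal.ofReal ((Real.sqrt d * (C0 * e)) ^ p) := by
            rw [lintegral_const, measure_univ, mul_one]
    refine hbound.trans (ENNReal.ofReal_le_ofReal ?_)
    have h1 : (Real.sqrt d * (C0 * e)) ^ p = (Real.sqrt d * C0) ^ p * e ^ p := by
      rw [← mul_assoc, Real.mul_rpow (by positivity) henn]
    rw [h1]
    calc (Real.sqrt d * C0) ^ p * e ^ p ≤ (Real.sqrt d * C0) ^ p * ((N / q0) ^ p * Sg) :=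
          mul_le_mul_of_nonneg_left heSg (by positivity)
      _ = C1 * Sg := by rw [hC1]; ring
      _ ≤ (C1 + C2 + 1) * Sg := by nlinarith
  · -- large perturbation
    push Not at hcase
    have hbound : Wpp p ν μ ≤ ENNReal.ofReal (I2 / q0) := by
      refine (Wpp_prod ν μ).trans ?_
      rw [hνh, lintegral_withDensity_eq_lintegral_mul _ (by fun_prop)]
      · calc ∫⁻ x, ((fun x => ENNReal.ofReal (h x)) *
              fun x => ∫⁻ y, ENNReal.ofReal (‖x - y‖ ^ p) ∂μ) x ∂μ
            ≤ ∫⁻ x, ENNReal.ofReal (1 / q0) * ∫⁻ y, ENNReal.ofReal (‖x - y‖ ^ p) ∂μ ∂μ := by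
              refine lintegral_mono fun x => ?_
              rw [Pi.mul_apply]
              exact mul_le_mul_left (ENNReal.ofReal_le_ofReal (hup x)) _
          _ = ENNReal.ofReal (1 / q0) * ENNReal.ofReal I2 := by
              rw [lintegral_const_mul', hI2']
              exact ENNReal.ofReal_ne_top
          _ = ENNReal.ofReal (I2 / q0) := by
              rw [← ENNReal.ofReal_mul (by positivity)]
              congr 1
              field_simp
      · apply Measurable.lintegral_prod_right'
          (f := fun z : E d × E d => ENNReal.ofReal (‖z.1 - z.2‖ ^ p))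
        fun_prop
    refine hbound.trans (ENNReal.ofReal_le_ofReal ?_)
    have h1 : 1 ≤ (8 * N / q0) ^ p * Sg := by
      have h2 : (1 / 8 : ℝ) ^ p ≤ e ^ p := Real.rpow_le_rpow (by norm_num) hcase.le (by linarith)
      have h3 := h2.trans heSg
      have h4 : (8 : ℝ) ^ p * (1 / 8 : ℝ) ^ p = 1 := by
        rw [← Real.mul_rpow (by norm_num) (by norm_num)]
        norm_num
      calc (1 : ℝ) = 8 ^ p * (1 / 8 : ℝ) ^ p := h4.symm
        _ ≤ 8 ^ p * ((N / q0) ^ p * Sg) := mul_le_mul_of_nonneg_left h3 (by positivity)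
        _ = (8 * N / q0) ^ p * Sg := by
          have h5 : 8 * N / q0 = 8 * (N / q0) := by ring
          rw [h5, ← mul_assoc, ← Real.mul_rpow (by norm_num) (by positivity)]
    calc I2 / q0 = (I2 / q0) * 1 := by ring
      _ ≤ (I2 / q0) * ((8 * N / q0) ^ p * Sg) := mul_le_mul_of_nonneg_left h1 (by positivity)
      _ = C2 * Sg := by rw [hC2]; ring
      _ ≤ (C1 + C2 + 1) * Sg := by nlinarith


theorem gauss_ac (d : ℕ) : gauss d ≪ (volume : Measure (E d)) := withDensity_absolutelyContinuous _ _

theorem gauss_ac' (d : ℕ) : (volume : Measure (E d)) ≪ gauss d := by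
  apply withDensity_absolutelyContinuous'
  · fun_prop
  · apply Eventually.of_forall
    intro x
    have : 0 < (2 * Real.pi) ^ (-(d : ℝ) / 2) * Real.exp (-‖x‖ ^ 2 / 2) := by positivity
    simpa using this

theorem gauss_pos (d : ℕ) {U A : Set (E d)} (hU : IsOpen U) (hne : U.Nonempty) (hUA : U ⊆ A) :
    gauss d A ≠ 0 := by
  intro h
  have h1 : (volume : Measure (E d)) A = 0 := gauss_ac' d h
  have h2 : (volume : Measure (E d)) U = 0 := measure_mono_null hUA h1
  exact (hU.measure_pos volume hne).ne' h2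

theorem vol_eq (m : ℕ) (i j : Fin (m + 1)) (hij : i ≠ j) (c : ℝ) :
    (volume : Measure (E (m + 1))) {x | x i = c * x j} = 0 := by
  let φ : E (m + 1) →ₗ[ℝ] ℝ :=
    { toFun := fun x => x i - c * x j
      map_add' := by intro x y; simp only [PiLp.add_apply]; ring
      map_smul' := by intro r x; simp only [PiLp.smul_apply, smul_eq_mul, RingHom.id_apply]; ring }
  have h1 : {x : E (m + 1) | x i = c * x j} = (LinearMap.ker φ : Set (E (m + 1))) := by
    ext x
    simp [φ, sub_eq_zero]
  rw [h1]
  apply Measure.addHaar_submodule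
  intro htop
  have h2 : EuclideanSpace.single i (1 : ℝ) ∈ LinearMap.ker φ := by rw [htop]; trivial
  rw [LinearMap.mem_ker] at h2
  simp [φ, hij.symm] at h2

/-- the sign -/
def sg (b : Bool) : ℝ := if b then 1 else -1

/-- the cells -/
def AA (m : ℕ) (M : ℝ) : Option (Fin (m + 1) × Bool) → Set (E (m + 1))
  | none => {x | ∀ i, |x i| ≤ M}
  | some k => {x | M < sg k.2 * x k.1 ∧ ∀ j, j ≠ k.1 → |x j| < sg k.2 * x k.1}

theorem sg_le (b : Bool) (r : ℝ) : sg b * r ≤ |r| := by
  unfold sg
  split_ifs
  · rw [one_mul]; exact le_abs_self r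
  · rw [neg_one_mul]; exact neg_le_abs r

theorem exists_iso (m : ℕ) (f : Fin (m + 1)) (b : Bool) : ∃ g : E (m + 1) ≃ₗᵢ[ℝ] E (m + 1),
    ∀ x j, g x j = sg b * x (Equiv.swap 0 f j) := by
  let L : E (m + 1) ≃ₗᵢ[ℝ] E (m + 1) :=
    LinearIsometryEquiv.piLpCongrLeft 2 ℝ ℝ (Equiv.swap 0 f)
  have hL : ∀ x j, L x j = x (Equiv.swap 0 f j) := by
    intro x j
    simp [L, LinearIsometryEquiv.piLpCongrLeft_apply, Equiv.piCongrLeft']
  cases b
  · refine ⟨L.trans (LinearIsometryEquiv.neg ℝ), fun x j => ?_⟩
    simp [sg, hL]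
  · refine ⟨L, fun x j => ?_⟩
    simp [sg, hL]

/-- Decomposition of the space into a centred cube and isometric copies of the outer sector. -/
theorem cells (m : ℕ) (M : ℝ) (hM : 0 < M) :
    ∃ A : Option (Fin (m + 1) × Bool) → Set (E (m + 1)),
      A none = {x | ∀ i, |x i| ≤ M} ∧ (∀ k, MeasurableSet (A k)) ∧
      Pairwise (Function.onFun Disjoint A) ∧ gauss (m + 1) (⋃ k, A k)ᶜ = 0 ∧
      (∀ k, gauss (m + 1) (A k) ≠ 0) ∧
      ∀ k, ∃ g : E (m + 1) → E (m + 1), Measurable g ∧ (∀ x y, ‖g x - g y‖ = ‖x - y‖) ∧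
        (gauss (m + 1)).restrict (A (some k)) = ((gauss (m + 1)).restrict (sector m M)).map g := by
  have hcoord : ∀ i : Fin (m + 1), Continuous fun x : E (m + 1) => x i := by
    intro i
    fun_prop
  have hopen : ∀ k : Fin (m + 1) × Bool, IsOpen (AA m M (some k)) := by
    intro k
    have h1 : AA m M (some k) = {x | M < sg k.2 * x k.1} ∩
        ⋂ j, {x : E (m + 1) | j ≠ k.1 → |x j| < sg k.2 * x k.1} := by
      ext x
      simp [AA]
    rw [h1]
    refine (isOpen_lt continuous_const ((hcoord _).const_mul _)).inter ?_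
    refine isOpen_iInter_of_finite fun j => ?_
    by_cases hj : j = k.1
    · simp [hj]
    · simp only [ne_eq, hj, not_false_eq_true, forall_const]
      exact isOpen_lt (hcoord _).abs ((hcoord _).const_mul _)
  have hmeas : ∀ k, MeasurableSet (AA m M k) := by
    intro k
    cases k with
    | none =>
      have h1 : AA m M none = ⋂ i, {x : E (m + 1) | |x i| ≤ M} := by
        ext x
        simp [AA]
      rw [h1]
      exact (isClosed_iInter fun i => isClosed_le (hcoord i).abs continuous_const).measurableSet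
    | some k => exact (hopen k).measurableSet
  refine ⟨AA m M, rfl, hmeas, ?_, ?_, ?_, ?_⟩
  · -- disjointness
    have h0 : ∀ k, Disjoint (AA m M none) (AA m M (some k)) := by
      intro k
      rw [Set.disjoint_left]
      intro x hx hx'
      have h1 : |x k.1| ≤ M := hx k.1
      have h2 := sg_le k.2 (x k.1)
      linarith [hx'.1]
    intro k k' hkk
    change Disjoint (AA m M k) (AA m M k')
    cases k with
    | none =>
      cases k' with
      | none => exact absurd rfl hkk
      | some k' => exact h0 k'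
    | some k =>
      cases k' with
      | none => exact (h0 k).symm
      | some k' =>
        rw [Set.disjoint_left]
        intro x hx hx'
        obtain ⟨f, b⟩ := k
        obtain ⟨f', b'⟩ := k'
        by_cases hf : f = f'
        · subst hf
          have h1 : M < sg b * x f := hx.1
          have h2 : M < sg b' * x f := hx'.1
          cases b <;> cases b' <;> simp [sg] at h1 h2 hkk <;> linarith
        · have h1 := hx.2 f' (fun h => hf h.symm)
          have h2 := hx'.2 f hf
          have h3 := sg_le b (x f)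
          have h4 := sg_le b' (x f')
          simp only at h1 h2
          linarith
  · -- covering
    apply gauss_ac
    have hsub : (⋃ k, AA m M k)ᶜ ⊆ ⋃ p : {p : Fin (m + 1) × Fin (m + 1) // p.1 ≠ p.2},
        ({x : E (m + 1) | x p.1.1 = 1 * x p.1.2} ∪ {x : E (m + 1) | x p.1.1 = (-1) * x p.1.2}) := by
      intro x hx
      rw [Set.mem_compl_iff, Set.mem_iUnion, not_exists] at hx
      obtain ⟨f, _, hf⟩ := Finset.exists_max_image Finset.univ (fun i => |x i|)
        Finset.univ_nonempty
      have hfM : M < |x f| := by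
        have h1 := hx none
        by_contra hcon
        push Not at hcon
        apply h1
        intro i
        exact (hf i (Finset.mem_univ i)).trans hcon
      obtain ⟨b, hb⟩ : ∃ b, sg b * x f = |x f| := by
        rcases le_total 0 (x f) with h | h
        · exact ⟨true, by simp [sg, abs_of_nonneg h]⟩
        · exact ⟨false, by simp [sg, abs_of_nonpos h]⟩
      have h1 := hx (some (f, b))
      have h2 : ∃ j, j ≠ f ∧ ¬ |x j| < |x f| := by
        by_contra hcon
        push Not at hcon
        apply h1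
        refine ⟨?_, ?_⟩
        · change M < sg b * x f
          rw [hb]; exact hfM
        · intro j hj
          change |x j| < sg b * x f
          rw [hb]; exact hcon j hj
      obtain ⟨j, hj, hj'⟩ := h2
      have h3 : |x j| = |x f| := le_antisymm (hf j (Finset.mem_univ j)) (not_lt.1 hj')
      rw [Set.mem_iUnion]
      refine ⟨⟨(j, f), hj⟩, ?_⟩
      rcases abs_eq_abs.1 h3 with h4 | h4
      · left; simp [h4]
      · right; simp [h4]
    refine measure_mono_null hsub ?_
    rw [measure_iUnion_null_iff]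
    rintro ⟨⟨i, j⟩, hij⟩
    exact measure_union_null (vol_eq m i j hij 1) (vol_eq m i j hij (-1))
  · -- positivity
    intro k
    cases k with
    | none =>
      have h1 : IsOpen (⋂ i, {x : E (m + 1) | |x i| < M}) :=
        isOpen_iInter_of_finite fun i => isOpen_lt (hcoord i).abs continuous_const
      refine gauss_pos (m + 1) h1 ⟨0, ?_⟩ ?_
      · simp [hM]
      · intro x hx i
        exact (Set.mem_iInter.1 hx i).le
    | some k =>
      refine gauss_pos (m + 1) (hopen k) ⟨EuclideanSpace.single k.1 (sg k.2 * (M + 1)), ?_⟩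
        subset_rfl
      have hs : sg k.2 * (sg k.2 * (M + 1)) = M + 1 := by
        unfold sg
        split_ifs <;> ring
      refine ⟨?_, fun j hj => ?_⟩
      · simp only [EuclideanSpace.single_apply, if_true]
        rw [hs]; linarith
      · simp only [EuclideanSpace.single_apply, if_true, hj, if_false, abs_zero]
        rw [hs]; linarith
  · intro k
    obtain ⟨f, b⟩ := k
    obtain ⟨g, hg⟩ := exists_iso m f b
    refine ⟨g, g.continuous.measurable, fun x y => ?_, ?_⟩
    · rw [← map_sub, LinearIsometryEquiv.norm_map]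
    have hpre : g ⁻¹' (AA m M (some (f, b))) = sector m M := by
      ext x
      have hs : ∀ r, sg b * (sg b * r) = r := by
        intro r
        unfold sg
        split_ifs <;> ring
      have habs : ∀ r, |sg b * r| = |r| := by
        intro r
        unfold sg
        split_ifs
        · rw [one_mul]
        · rw [neg_one_mul, abs_neg]
      simp only [AA, sector, Set.mem_preimage, Set.mem_ofPred_eq, hg, hs, habs,
        Equiv.swap_apply_right]
      refine and_congr_right fun _ => ?_
      constructor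
      · intro h j
        have h1 := h (Equiv.swap 0 f j.succ) (by
          intro h2
          have h3 := congrArg (Equiv.swap 0 f) h2
          rw [Equiv.swap_apply_self, Equiv.swap_apply_right] at h3
          exact absurd h3 (Fin.succ_ne_zero j))
        rwa [Equiv.swap_apply_self] at h1
      · intro h j hj
        obtain ⟨i, hi⟩ : ∃ i : Fin m, Equiv.swap 0 f j = i.succ := by
          apply Fin.exists_succ_eq.2 _ |>.imp fun i hi => hi.symm
          intro h2
          apply hj
          have h3 := congrArg (Equiv.swap 0 f) h2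
          rwa [Equiv.swap_apply_self, Equiv.swap_apply_left] at h3
        rw [hi]
        exact h i
    have hmap : (gauss (m + 1)).map g = gauss (m + 1) := by
      rw [gauss_std]
      exact ProbabilityTheory.stdGaussian_map g
    rw [← hpre, ← Measure.restrict_map g.continuous.measurable (hmeas _), hmap]

end Pool.Agent.Helper764.EW
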