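import Pool.Agent.Helper764.EWCalc
set_option autoImplicit false
open MeasureTheory Filter Topology Set ProbabilityTheory
open scoped ENNReal
namespace Pool.Agent.Helper764.EW

variable {d : ℕ} {p : ℝ}

/-- Total (unnormalised) expected matching cost for a sample of size `N` from `ν`. -/
noncomputable def G (p : ℝ) {d : ℕ} (ν : Measure (E d)) (N : ℕ) : ℝ≥0∞ :=
  N * ∫⁻ x, Wpp p (emp x) ν ∂(Measure.pi fun _ : Fin N => ν)

lemma G_zero (ν : Measure (E d)) : G p ν 0 = 0 := by simp [G]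

/-- Number of labels equal to `k`. -/
def cnt {ι : Type} [DecidableEq ι] {N : ℕ} (κ : Fin N → ι) (k : ι) : ℕ :=
  (Finset.univ.filter fun i => κ i = k).card

lemma pi_mixture {ι : Type} [Fintype ι] [DecidableEq ι] {N : ℕ} (q : ι → ℝ≥0∞)
    (ν : ι → Measure (E d)) [∀ k, IsProbabilityMeasure (ν k)] (ρ : Measure (E d))
    [IsProbabilityMeasure ρ] (hρ : ρ = ∑ k, q k • ν k) :
    (Measure.pi fun _ : Fin N => ρ) =
      ∑ κ : Fin N → ι, (∏ i, q (κ i)) • Measure.pi fun i => ν (κ i) := by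
  refine Measure.pi_eq fun s hs => ?_
  rw [Measure.finsetSum_apply]
  simp only [Measure.smul_apply, Measure.pi_pi, smul_eq_mul, hρ, Measure.finsetSum_apply]
  rw [Finset.prod_univ_sum]
  simp only [Fintype.piFinset_univ, Finset.prod_mul_distrib]

lemma lintegral_marginal {ι : Type} [DecidableEq ι] {N : ℕ} (κ : Fin N → ι)
    (ν : ι → Measure (E d)) [∀ k, IsProbabilityMeasure (ν k)] (k : ι) (hp : 1 ≤ p) :
    ∫⁻ x, Wpp p (emp fun i : {i // κ i = k} => x i.1) (ν k) ∂(Measure.pi fun i => ν (κ i)) =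
      ∫⁻ y, Wpp p (emp y) (ν k) ∂(Measure.pi fun _ : Fin (cnt κ k) => ν k) := by
  classical
  have hm := measurable_Wpp_emp (I := {i // κ i = k}) hp (ν k)
  have h1 := measurePreserving_piEquivPiSubtypeProd (fun i => ν (κ i)) (fun i => κ i = k)
  have h2 := (measurePreserving_fst (μ := Measure.pi fun i : {i // κ i = k} => ν (κ i.1))
    (ν := Measure.pi fun i : {i // ¬ κ i = k} => ν (κ i.1))).comp h1
  have e1 : ∫⁻ x, Wpp p (emp fun i : {i // κ i = k} => x i.1) (ν k)
      ∂(Measure.pi fun i => ν (κ i)) =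
      ∫⁻ y, Wpp p (emp y) (ν k) ∂(Measure.pi fun i : {i // κ i = k} => ν (κ i.1)) := by
    rw [← h2.lintegral_comp hm]
    rfl
  rw [e1]
  have e2 : (Measure.pi fun i : {i // κ i = k} => ν (κ i.1)) =
      Measure.pi fun _ : {i // κ i = k} => ν k := by
    congr 1; funext i; rw [i.2]
  rw [e2]
  have hcard : Fintype.card {i // κ i = k} = cnt κ k := by
    rw [cnt, Fintype.card_subtype]
  let e : {i // κ i = k} ≃ Fin (cnt κ k) := Fintype.equivFinOfCardEq hcard
  have h3 := measurePreserving_arrowCongr' (fun _ : {i // κ i = k} => ν k)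
    (fun _ : Fin (cnt κ k) => ν k) e (MeasurableEquiv.refl (E d))
    (fun _ => MeasurePreserving.id _)
  rw [← h3.lintegral_comp (measurable_Wpp_emp hp (ν k))]
  refine lintegral_congr fun x => ?_
  congr 1
  simp only [emp, hcard, Fintype.card_fin]
  congr 1
  refine Fintype.sum_equiv e _ _ fun i => ?_
  change Measure.dirac (x i) = Measure.dirac (x (e.symm (e i)))
  simp

lemma emp_decomp {ι : Type} [Fintype ι] [DecidableEq ι] {N : ℕ} (κ : Fin N → ι)
    (x : Fin N → E d) :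
    emp x = ∑ k, ((cnt κ k : ℝ≥0∞) / N) • emp (fun i : {i // κ i = k} => x i.1) := by
  have hcard : ∀ k, Fintype.card {i // κ i = k} = cnt κ k := fun k => by
    rw [cnt, Fintype.card_subtype]
  have h1 : ∀ k, ((cnt κ k : ℝ≥0∞) / N) • emp (fun i : {i // κ i = k} => x i.1) =
      (N : ℝ≥0∞)⁻¹ • ∑ i : {i // κ i = k}, Measure.dirac (x i.1) := by
    intro k
    rw [emp, smul_smul, hcard]
    rcases Nat.eq_zero_or_pos (cnt κ k) with h0 | h0
    · have : IsEmpty {i // κ i = k} := by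
        rw [← Fintype.card_eq_zero_iff, hcard, h0]
      simp
    · congr 1
      rw [ENNReal.div_eq_inv_mul, mul_assoc, ENNReal.mul_inv_cancel (by positivity) (by simp),
        mul_one]
  simp_rw [h1]
  rw [← Finset.smul_sum, emp, Fintype.card_fin]
  congr 1
  rw [← Fintype.sum_fiberwise κ]

lemma sum_cnt {ι : Type} [Fintype ι] [DecidableEq ι] {N : ℕ} (κ : Fin N → ι) :
    ∑ k, cnt κ k = N := by
  have := Finset.card_eq_sum_card_fiberwise (f := κ) (s := Finset.univ) (t := Finset.univ)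
    (fun _ _ => by simp)
  simpa [cnt] using this.symm

lemma mix_prob {ι : Type} [Fintype ι] [DecidableEq ι] {N : ℕ} [NeZero N] (κ : Fin N → ι)
    (ν : ι → Measure (E d)) [∀ k, IsProbabilityMeasure (ν k)] :
    IsProbabilityMeasure (∑ k, ((cnt κ k : ℝ≥0∞) / N) • ν k) := by
  constructor
  simp only [Measure.finsetSum_apply, Measure.smul_apply, measure_univ, smul_eq_mul, mul_one]
  simp only [div_eq_mul_inv]
  rw [← Finset.sum_mul, ← Nat.cast_sum, sum_cnt]
  exact ENNReal.mul_inv_cancel (by simp [NeZero.ne N]) (by simp)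

theorem G_split (hp : 1 ≤ p) {ι : Type} [Fintype ι] [DecidableEq ι] (q : ι → ℝ≥0∞)
    (ν : ι → Measure (E d)) [∀ k, IsProbabilityMeasure (ν k)] (ρ : Measure (E d))
    [IsProbabilityMeasure ρ] (hρ : ρ = ∑ k, q k • ν k) (N : ℕ) (D : (Fin N → ι) → ℝ≥0∞)
    (hD : ∀ κ, Wpp p (∑ k, ((cnt κ k : ℝ≥0∞) / N) • ν k) ρ ≤ D κ) {ε : ℝ} (hε : 0 < ε) :
    G p ρ N ≤
      ENNReal.ofReal ((1 + ε) ^ (p - 1)) *
        ∑ κ : Fin N → ι, (∏ i, q (κ i)) * ∑ k, G p (ν k) (cnt κ k) +
      ENNReal.ofReal ((1 + 1 / ε) ^ (p - 1)) *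
        ∑ κ : Fin N → ι, (∏ i, q (κ i)) * (N * D κ) := by
  rcases Nat.eq_zero_or_pos N with rfl | hN
  · simp [G_zero]
  have : NeZero N := ⟨hN.ne'⟩
  set A := ENNReal.ofReal ((1 + ε) ^ (p - 1))
  set B := ENNReal.ofReal ((1 + 1 / ε) ^ (p - 1))
  have hA : A ≠ ⊤ := ENNReal.ofReal_ne_top
  have key : ∀ κ : Fin N → ι, N * ∫⁻ x, Wpp p (emp x) ρ ∂(Measure.pi fun i => ν (κ i)) ≤
      A * ∑ k, G p (ν k) (cnt κ k) + B * (N * D κ) := by
    intro κ
    have := mix_prob κ ν
    have h1 : ∀ x : Fin N → E d, Wpp p (emp x) ρ ≤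
        A * ∑ k, ((cnt κ k : ℝ≥0∞) / N) * Wpp p (emp fun i : {i // κ i = k} => x i.1) (ν k)
          + B * D κ := by
      intro x
      refine (Wpp_triangle hp hε (emp x) (∑ k, ((cnt κ k : ℝ≥0∞) / N) • ν k) ρ).trans ?_
      gcongr
      · rw [emp_decomp κ x]
        exact Wpp_sum _ _ (fun k => ENNReal.div_ne_top (by simp) (by simp [NeZero.ne N])) _ _
      · exact hD κ
    have hmeas : ∀ k, Measurable fun x : Fin N → E d =>
        ((cnt κ k : ℝ≥0∞) / N) * Wpp p (emp fun i : {i // κ i = k} => x i.1) (ν k) := by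
      intro k
      refine Measurable.const_mul ?_ _
      exact (measurable_Wpp_emp hp (ν k)).comp (measurable_pi_lambda _ fun i =>
        measurable_pi_apply _)
    have h2 : ∫⁻ x, Wpp p (emp x) ρ ∂(Measure.pi fun i => ν (κ i)) ≤
        A * ∑ k, ((cnt κ k : ℝ≥0∞) / N) *
          ∫⁻ y, Wpp p (emp y) (ν k) ∂(Measure.pi fun _ : Fin (cnt κ k) => ν k) + B * D κ := by
      refine (lintegral_mono h1).trans (le_of_eq ?_)
      rw [lintegral_add_right _ measurable_const, lintegral_const, measure_univ, mul_one,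
        lintegral_const_mul' _ _ hA, lintegral_finsetSum _ fun k _ => hmeas k]
      congr 2
      refine Finset.sum_congr rfl fun k _ => ?_
      rw [lintegral_const_mul' _ _ (ENNReal.div_ne_top (by simp) (by simp [NeZero.ne N])),
        lintegral_marginal κ ν k hp]
    calc N * ∫⁻ x, Wpp p (emp x) ρ ∂(Measure.pi fun i => ν (κ i))
        ≤ N * (A * ∑ k, ((cnt κ k : ℝ≥0∞) / N) *
          ∫⁻ y, Wpp p (emp y) (ν k) ∂(Measure.pi fun _ : Fin (cnt κ k) => ν k) + B * D κ) := by
          gcongr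
      _ = A * ∑ k, G p (ν k) (cnt κ k) + B * (N * D κ) := by
          rw [mul_add]
          congr 1
          · rw [mul_left_comm, Finset.mul_sum]
            congr 1
            refine Finset.sum_congr rfl fun k _ => ?_
            rw [G, ← mul_assoc, ENNReal.mul_div_cancel (by simp [NeZero.ne N]) (by simp)]
          · ring
  rw [G, pi_mixture q ν ρ hρ, lintegral_finsetSum_measure, Finset.mul_sum, Finset.mul_sum,
    Finset.mul_sum, ← Finset.sum_add_distrib]
  refine Finset.sum_le_sum fun κ _ => ?_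
  rw [lintegral_smul_measure, smul_eq_mul, mul_left_comm]
  calc _ ≤ (∏ i, q (κ i)) * (A * ∑ k, G p (ν k) (cnt κ k) + B * (N * D κ)) := by
        gcongr; exact key κ
    _ = _ := by ring

end Pool.Agent.Helper764.EW
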