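import Pool.Agent.Helper764.EWStageC
import Pool.Agent.Helper764.EWNum

set_option autoImplicit false
open MeasureTheory Filter Topology Set
open scoped ENNReal

namespace Pool.Agent.Helper764.EW.B




namespace StageBAux

/-- one binomial averaging step -/
noncomputable def TT (f : ℕ → ℝ≥0∞) : ℕ → ℝ≥0∞ := fun N => bin N (1 / 2) f

lemma half_mem : (1 / 2 : ℝ) ∈ Icc (0 : ℝ) 1 := by constructor <;> norm_num

lemma half_mem' : (1 / 2 : ℝ) ∈ Ioc (0 : ℝ) 1 := by constructor <;> norm_num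

lemma TT_mono {f g : ℕ → ℝ≥0∞} (h : ∀ k, f k ≤ g k) : ∀ k, TT f k ≤ TT g k :=
  fun k => bin_mono k _ (fun j _ => h j)

lemma TTi_mono (l : ℕ) {f g : ℕ → ℝ≥0∞} (h : ∀ k, f k ≤ g k) :
    ∀ k, TT^[l] f k ≤ TT^[l] g k := by
  induction l generalizing f g with
  | zero => exact h
  | succ l ih =>
    intro k
    rw [Function.iterate_succ_apply, Function.iterate_succ_apply]
    exact ih (TT_mono h) k

lemma TTi_add (l : ℕ) (f g : ℕ → ℝ≥0∞) :
    TT^[l] (fun k => f k + g k) = fun k => TT^[l] f k + TT^[l] g k := by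
  induction l generalizing f g with
  | zero => rfl
  | succ l ih =>
    rw [Function.iterate_succ_apply]
    have : TT (fun k => f k + g k) = fun k => TT f k + TT g k := by
      funext k
      exact bin_add k _ f g
    rw [this, ih]
    rfl

lemma TTi_mul (l : ℕ) (c : ℝ≥0∞) (f : ℕ → ℝ≥0∞) :
    TT^[l] (fun k => c * f k) = fun k => c * TT^[l] f k := by
  induction l generalizing f with
  | zero => rfl
  | succ l ih =>
    rw [Function.iterate_succ_apply]
    have : TT (fun k => c * f k) = fun k => c * TT f k := by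
      funext k
      exact bin_const_mul k _ c f
    rw [this, ih]
    rfl

lemma TTi_id (l : ℕ) (N : ℕ) :
    TT^[l] (fun k => (k : ℝ≥0∞)) N = ENNReal.ofReal ((1 / 2) ^ l * N) := by
  have h1 : TT (fun k => (k : ℝ≥0∞)) = fun k : ℕ => ENNReal.ofReal (1 / 2) * (k : ℝ≥0∞) := by
    funext k
    show bin k (1 / 2) _ = _
    rw [bin_id k half_mem, ENNReal.ofReal_mul (by norm_num), ENNReal.ofReal_natCast]
  induction l with
  | zero => simp
  | succ l ih =>
    rw [Function.iterate_succ_apply, h1, TTi_mul]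
    show ENNReal.ofReal (1 / 2) * TT^[l] (fun k => (k : ℝ≥0∞)) N = _
    rw [ih, ← ENNReal.ofReal_mul (by norm_num)]
    congr 1
    ring

lemma TTi_rpow (l : ℕ) (N : ℕ) {a : ℝ} (ha : 0 < a) (ha1 : a ≤ 1) :
    TT^[l] (fun k => ENNReal.ofReal (((k : ℝ) + 1) ^ (-a))) N ≤
      ENNReal.ofReal ((((1 / 2 : ℝ)) ^ (-a)) ^ l * ((N : ℝ) + 1) ^ (-a)) := by
  induction l generalizing N with
  | zero => simp
  | succ l ih =>
    rw [Function.iterate_succ_apply']
    have h1 : ∀ k, TT^[l] (fun k => ENNReal.ofReal (((k : ℝ) + 1) ^ (-a))) k ≤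
        ENNReal.ofReal (((1 / 2 : ℝ) ^ (-a)) ^ l) * ENNReal.ofReal (((k : ℝ) + 1) ^ (-a)) := by
      intro k
      rw [← ENNReal.ofReal_mul (by positivity)]
      exact ih k
    refine le_trans (TT_mono h1 N) ?_
    show bin N (1 / 2) _ ≤ _
    rw [bin_const_mul]
    refine le_trans (mul_le_mul' le_rfl (bin_rpow N half_mem' ha ha1)) ?_
    rw [← ENNReal.ofReal_mul (by positivity)]
    apply ENNReal.ofReal_le_ofReal
    rw [Real.mul_rpow (by norm_num) (by positivity), pow_succ]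
    apply le_of_eq
    ring

/-- substitution in coordinate `0` -/
noncomputable def sub0 {m : ℕ} (φ : ℝ → ℝ) (z : Fin (m + 1) → ℝ) : Fin (m + 1) → ℝ :=
  Function.update z 0 (φ (z 0))

@[simp] lemma sub0_zero {m : ℕ} (φ : ℝ → ℝ) (z : Fin (m + 1) → ℝ) : sub0 φ z 0 = φ (z 0) := by
  simp [sub0]

@[simp] lemma sub0_succ {m : ℕ} (φ : ℝ → ℝ) (z : Fin (m + 1) → ℝ) (j : Fin m) :
    sub0 φ z j.succ = z j.succ := by
  simp [sub0]

lemma measurable_sub0 {m : ℕ} {φ : ℝ → ℝ} (hφ : Measurable φ) :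
    Measurable (sub0 (m := m) φ) := by
  apply measurable_pi_lambda
  intro i
  refine Fin.cases ?_ (fun j => ?_) i
  · simp only [sub0_zero]
    exact hφ.comp (measurable_pi_apply 0)
  · simp only [sub0_succ]
    exact measurable_pi_apply _

lemma sub0_sub0 {m : ℕ} (φ χ : ℝ → ℝ) (z : Fin (m + 1) → ℝ) :
    sub0 φ (sub0 χ z) = sub0 (φ ∘ χ) z := by
  funext i
  refine Fin.cases ?_ (fun j => ?_) i <;> simp

lemma inCube_sub0 {m : ℕ} {φ : ℝ → ℝ} {z : Fin (m + 1) → ℝ} (hz : InCube z)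
    (h : φ (z 0) ∈ Ioo (0 : ℝ) 1) : InCube (sub0 φ z) := by
  intro i
  refine Fin.cases ?_ (fun j => ?_) i
  · rw [sub0_zero]; exact h
  · rw [sub0_succ]; exact hz _

/-- `Ψ` restricted to the `l`-th dyadic tail -/
noncomputable def psi {m d : ℕ} (Ψ : (Fin (m + 1) → ℝ) → E d) (l : ℕ) :
    (Fin (m + 1) → ℝ) → E d := Ψ ∘ sub0 (fun x => x / 2 ^ l)

lemma psi_zero {m d : ℕ} (Ψ : (Fin (m + 1) → ℝ) → E d) : psi Ψ 0 = Ψ := by
  funext z
  show Ψ (sub0 (fun x => x / 2 ^ 0) z) = Ψ z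
  congr 1
  funext i
  refine Fin.cases ?_ (fun j => ?_) i <;> simp

lemma psi_half {m d : ℕ} (Ψ : (Fin (m + 1) → ℝ) → E d) (l : ℕ) :
    psi Ψ l ∘ half 0 0 = psi Ψ (l + 1) := by
  funext z
  show Ψ (sub0 (fun x => x / 2 ^ l) (sub0 (fun x => (x + 0) / 2) z)) =
    Ψ (sub0 (fun x => x / 2 ^ (l + 1)) z)
  rw [sub0_sub0]
  congr 2
  funext x
  simp only [Function.comp, add_zero]
  rw [div_div, pow_succ]
  congr 1
  ring

lemma measurable_psi {m d : ℕ} {Ψ : (Fin (m + 1) → ℝ) → E d} (h : Measurable Ψ) (l : ℕ) :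
    Measurable (psi Ψ l) := h.comp (measurable_sub0 (by fun_prop))

lemma good_bound {m d : ℕ} {K : ℝ} {k : Fin m → ℝ} {Ψ : (Fin (m + 1) → ℝ) → E d}
    (hG : Good K k Ψ) {u u' : Fin (m + 1) → ℝ} (hu : InCube u) (hu' : InCube u') (l : ℕ)
    (h1 : u 0 ≤ (2 : ℝ)⁻¹ ^ l) (h2 : u' 0 ≤ (2 : ℝ)⁻¹ ^ l) :
    ‖Ψ u - Ψ u'‖ ≤ K * (1 + (l : ℝ)) ^ (-(1 : ℝ) / 2) * |Real.log (u 0) - Real.log (u' 0)| +
      K * Real.sqrt (1 - Real.log (u' 0)) * ∑ j : Fin m, k j * |u j.succ - u' j.succ| := by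
  have hw : InCube (sub0 (fun _ => u' 0) u) := inCube_sub0 hu (hu' 0)
  refine le_trans (norm_sub_le_norm_sub_add_norm_sub (Ψ u) (Ψ (sub0 (fun _ => u' 0) u)) (Ψ u')) ?_
  apply add_le_add
  · have := hG.V2 u (sub0 (fun _ => u' 0) u) hu hw (fun j => by simp) l h1 (by simpa using h2)
    simpa using this
  · have := hG.V1 (sub0 (fun _ => u' 0) u) u' hw hu' (by simp)
    simpa using this

instance probU : IsProbabilityMeasure ((volume : Measure ℝ).restrict (Ioo (0 : ℝ) 1)) :=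
  ⟨by simp⟩

instance probCube (n : ℕ) : IsProbabilityMeasure (cube n) := by
  unfold cube
  infer_instance

lemma ae_inCube (n : ℕ) : ∀ᵐ z ∂(cube n), InCube z := by
  unfold InCube
  rw [ae_all_iff]
  intro i
  have h1 : ∀ᵐ x ∂((volume : Measure ℝ).restrict (Ioo (0 : ℝ) 1)), x ∈ Ioo (0 : ℝ) 1 :=
    ae_restrict_mem measurableSet_Ioo
  exact (measurePreserving_eval (fun _ : Fin n => (volume : Measure ℝ).restrict (Ioo 0 1)) i
    ).quasiMeasurePreserving.ae h1

lemma lintegral_eval {m : ℕ} {f : ℝ → ℝ≥0∞} (hf : Measurable f) :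
    ∫⁻ z, f (z 0) ∂(cube (m + 1)) = ∫⁻ x in Ioo (0 : ℝ) 1, f x :=
  (measurePreserving_eval (fun _ : Fin (m + 1) => (volume : Measure ℝ).restrict (Ioo 0 1)) 0
    ).lintegral_comp hf

lemma lintegral_const_eval {m : ℕ} (c : ℝ≥0∞) {f : ℝ → ℝ≥0∞} (hf : Measurable f) :
    ∫⁻ z, c * f (z 0) ∂(cube (m + 1)) = c * ∫⁻ x in Ioo (0 : ℝ) 1, f x := by
  have h : Measurable (fun z : Fin (m + 1) → ℝ => f (z 0)) := hf.comp (measurable_pi_apply 0)
  rw [lintegral_const_mul _ h, lintegral_eval hf]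

lemma div_pow_le {x : ℝ} (hx : x ∈ Ioo (0 : ℝ) 1) (l : ℕ) :
    x / 2 ^ l ∈ Ioo (0 : ℝ) 1 ∧ x / 2 ^ l ≤ (2 : ℝ)⁻¹ ^ l := by
  have h2 : (1 : ℝ) ≤ 2 ^ l := one_le_pow₀ (by norm_num)
  have h0 : (0 : ℝ) < 2 ^ l := by positivity
  refine ⟨⟨div_pos hx.1 h0, ?_⟩, ?_⟩
  · rw [div_lt_one h0]
    linarith [hx.2]
  · rw [inv_pow, div_le_iff₀ h0, inv_mul_cancel₀ h0.ne']
    exact hx.2.le

lemma log_div_pow {x : ℝ} (hx : 0 < x) (l : ℕ) :
    Real.log (x / 2 ^ l) = Real.log x - l * Real.log 2 := by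
  rw [Real.log_div hx.ne' (by positivity), Real.log_pow]

lemma tau_bound (p : ℝ) (hp : 1 ≤ p) : ∃ C : ℝ, 0 < C ∧ ∀ (m d : ℕ) (K : ℝ) (k : Fin m → ℝ)
    (Ψ : (Fin (m + 1) → ℝ) → E d), 0 < K → Good K k Ψ → ∀ (l : ℕ) (w : ℝ), w ∈ Icc (0 : ℝ) 1 →
      ∫⁻ z, ENNReal.ofReal (‖psi Ψ l (tauAt 0 w z) - psi Ψ l z‖ ^ p) ∂(cube (m + 1)) ≤
        ENNReal.ofReal (C * K ^ p * (1 + (l : ℝ)) ^ (-(p / 2)) * |w - 1 / 2| ^ p) := by
  obtain ⟨C, hC, hτ⟩ := tau_log p hp
  refine ⟨C, hC, fun m d K k Ψ hK hG l w hw => ?_⟩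
  have hmeas : Measurable (fun x : ℝ =>
      ENNReal.ofReal (|Real.log (tau w x) - Real.log x| ^ p)) := by
    have := measurable_tau w
    fun_prop
  have h1 : ∫⁻ z, ENNReal.ofReal (‖psi Ψ l (tauAt 0 w z) - psi Ψ l z‖ ^ p) ∂(cube (m + 1)) ≤
      ∫⁻ z, ENNReal.ofReal (K ^ p * (1 + (l : ℝ)) ^ (-(p / 2))) *
        ENNReal.ofReal (|Real.log (tau w (z 0)) - Real.log (z 0)| ^ p) ∂(cube (m + 1)) := by
    apply lintegral_mono_ae
    filter_upwards [ae_inCube (m + 1)] with z hz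
    rw [← ENNReal.ofReal_mul (by positivity)]
    apply ENNReal.ofReal_le_ofReal
    have hz0 := hz 0
    have ht := tau_mem hw hz0
    obtain ⟨a1, a2⟩ := div_pow_le ht l
    obtain ⟨b1, b2⟩ := div_pow_le hz0 l
    have key := good_bound hG (u := sub0 (fun x => x / 2 ^ l) (sub0 (tau w) z))
      (u' := sub0 (fun x => x / 2 ^ l) z)
      (inCube_sub0 (inCube_sub0 hz ht) (by simpa using a1)) (inCube_sub0 hz b1) l
      (by simpa using a2) (by simpa using b2)
    simp only [sub0_zero, sub0_succ, sub_self, abs_zero, mul_zero, Finset.sum_const_zero,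
      add_zero] at key
    rw [log_div_pow ht.1, log_div_pow hz0.1, sub_sub_sub_cancel_right] at key
    have h2 : ‖psi Ψ l (tauAt 0 w z) - psi Ψ l z‖ ≤
        K * (1 + (l : ℝ)) ^ (-(1 : ℝ) / 2) * |Real.log (tau w (z 0)) - Real.log (z 0)| := key
    calc ‖psi Ψ l (tauAt 0 w z) - psi Ψ l z‖ ^ p
        ≤ (K * (1 + (l : ℝ)) ^ (-(1 : ℝ) / 2) *
          |Real.log (tau w (z 0)) - Real.log (z 0)|) ^ p :=
          Real.rpow_le_rpow (norm_nonneg _) h2 (by linarith)
      _ = K ^ p * (1 + (l : ℝ)) ^ (-(p / 2)) *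
          |Real.log (tau w (z 0)) - Real.log (z 0)| ^ p := by
          rw [Real.mul_rpow (by positivity) (abs_nonneg _), Real.mul_rpow hK.le (by positivity),
            ← Real.rpow_mul (by positivity)]
          congr 3
          ring
  refine le_trans h1 ?_
  refine le_trans (le_of_eq (lintegral_const_eval _ hmeas)) ?_
  refine le_trans (mul_le_mul' le_rfl (hτ w hw)) ?_
  rw [← ENNReal.ofReal_mul (by positivity)]
  apply ENNReal.ofReal_le_ofReal
  apply le_of_eq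
  ring

lemma lip_half {m d : ℕ} {K : ℝ} {k : Fin m → ℝ} {Ψ : (Fin (m + 1) → ℝ) → E d} (hK : 0 < K)
    (hG : Good K k Ψ) {Λ : ℕ} (hk : ∀ j, 0 ≤ k j ∧ k j ≤ 1 / (1 + (Λ : ℝ))) {l : ℕ} (hl : l ≤ Λ) :
    LipC (fun _ => 2 * K * (1 + (l : ℝ)) ^ (-(1 : ℝ) / 2)) (psi Ψ l ∘ half 0 1) := by
  intro z z' hz hz'
  have hz0 := hz 0
  have hz0' := hz' 0
  have e1 : (z 0 + 1) / 2 ∈ Ioo (0 : ℝ) 1 := ⟨by linarith [hz0.1], by linarith [hz0.2]⟩
  have e2 : (z' 0 + 1) / 2 ∈ Ioo (0 : ℝ) 1 := ⟨by linarith [hz0'.1], by linarith [hz0'.2]⟩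
  obtain ⟨a1, a2⟩ := div_pow_le e1 l
  obtain ⟨b1, b2⟩ := div_pow_le e2 l
  have key := good_bound hG (u := sub0 (fun x => x / 2 ^ l) (sub0 (fun x => (x + 1) / 2) z))
    (u' := sub0 (fun x => x / 2 ^ l) (sub0 (fun x => (x + 1) / 2) z'))
    (inCube_sub0 (inCube_sub0 hz e1) (by simpa using a1))
    (inCube_sub0 (inCube_sub0 hz' e2) (by simpa using b1)) l
    (by simpa using a2) (by simpa using b2)
  simp only [sub0_zero, sub0_succ] at key
  rw [log_div_pow e1.1, log_div_pow e2.1, sub_sub_sub_cancel_right] at key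
  have hl0 : (0 : ℝ) < 1 + (l : ℝ) := by positivity
  have hlΛ : (1 : ℝ) + l ≤ 1 + Λ := by
    have : (l : ℝ) ≤ Λ := by exact_mod_cast hl
    linarith
  -- the logarithmic difference
  have hlog : |Real.log ((z 0 + 1) / 2) - Real.log ((z' 0 + 1) / 2)| ≤ |z 0 - z' 0| := by
    have aux : ∀ x y : ℝ, 0 < x → 0 < y → Real.log ((x + 1) / 2) - Real.log ((y + 1) / 2) ≤
        |x - y| := by
      intro x y hx hy
      rw [← Real.log_div (by positivity) (by positivity)]
      refine le_trans (Real.log_le_sub_one_of_pos (by positivity)) ?_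
      have hy1 : (0 : ℝ) < y + 1 := by positivity
      have : (x + 1) / 2 / ((y + 1) / 2) - 1 = (x - y) / (y + 1) := by
        field_simp
        ring
      rw [this]
      calc (x - y) / (y + 1) ≤ |x - y| / (y + 1) := by gcongr; exact le_abs_self _
        _ ≤ |x - y| / 1 := by
          apply div_le_div_of_nonneg_left (abs_nonneg _) one_pos
          linarith
        _ = |x - y| := div_one _
    rw [abs_le]
    constructor
    · have := aux (z' 0) (z 0) hz0'.1 hz0.1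
      rw [abs_sub_comm] at this
      linarith
    · exact aux _ _ hz0.1 hz0'.1
  -- the square root factor
  have hsqrt : Real.sqrt (1 - (Real.log ((z' 0 + 1) / 2) - l * Real.log 2)) ≤
      2 * (1 + (l : ℝ)) ^ ((1 : ℝ) / 2) := by
    have h1 : Real.log ((z' 0 + 1) / 2) ≥ - Real.log 2 := by
      rw [← Real.log_inv]
      apply Real.log_le_log (by norm_num)
      linarith [hz0'.1]
    have h2 : Real.log 2 ≤ 1 := by
      have := Real.log_two_lt_d9
      linarith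
    have h3 : 0 ≤ Real.log 2 := Real.log_nonneg (by norm_num)
    have h4 : 1 - (Real.log ((z' 0 + 1) / 2) - l * Real.log 2) ≤ 4 * (1 + (l : ℝ)) := by
      have : (l : ℝ) * Real.log 2 ≤ l * 1 := mul_le_mul_of_nonneg_left h2 (by positivity)
      have hl' : (0 : ℝ) ≤ l := by positivity
      linarith
    refine le_trans (Real.sqrt_le_sqrt h4) ?_
    rw [Real.sqrt_mul (by norm_num), Real.sqrt_eq_rpow (1 + (l : ℝ))]
    apply le_of_eq
    congr 1
    rw [show (4 : ℝ) = 2 ^ 2 by norm_num]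
    exact Real.sqrt_sq (by norm_num)
  have hkk : ∀ j : Fin m, k j ≤ 1 / (1 + (l : ℝ)) := fun j =>
    le_trans (hk j).2 (one_div_le_one_div_of_le hl0 hlΛ)
  have hexp : (1 + (l : ℝ)) ^ ((1 : ℝ) / 2) * (1 / (1 + (l : ℝ))) =
      (1 + (l : ℝ)) ^ (-(1 : ℝ) / 2) := by
    rw [one_div (1 + (l : ℝ)), ← Real.rpow_neg_one (1 + (l : ℝ)), ← Real.rpow_add hl0]
    congr 1
    norm_num
  have hsum : K * Real.sqrt (1 - (Real.log ((z' 0 + 1) / 2) - l * Real.log 2)) *
      ∑ j : Fin m, k j * |z j.succ - z' j.succ| ≤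
      ∑ j : Fin m, 2 * K * (1 + (l : ℝ)) ^ (-(1 : ℝ) / 2) * |z j.succ - z' j.succ| := by
    rw [Finset.mul_sum]
    apply Finset.sum_le_sum
    intro j _
    rw [← mul_assoc]
    apply mul_le_mul_of_nonneg_right _ (abs_nonneg _)
    calc K * Real.sqrt (1 - (Real.log ((z' 0 + 1) / 2) - l * Real.log 2)) * k j
        ≤ K * (2 * (1 + (l : ℝ)) ^ ((1 : ℝ) / 2)) * (1 / (1 + (l : ℝ))) := by
          apply mul_le_mul _ (hkk j) (hk j).1 (by positivity)
          exact mul_le_mul_of_nonneg_left hsqrt hK.le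
      _ = 2 * K * ((1 + (l : ℝ)) ^ ((1 : ℝ) / 2) * (1 / (1 + (l : ℝ)))) := by ring
      _ = 2 * K * (1 + (l : ℝ)) ^ (-(1 : ℝ) / 2) := by rw [hexp]
  show ‖Ψ _ - Ψ _‖ ≤ _
  refine le_trans key ?_
  rw [Fin.sum_univ_succ]
  apply add_le_add _ hsum
  calc K * (1 + (l : ℝ)) ^ (-(1 : ℝ) / 2) *
        |Real.log ((z 0 + 1) / 2) - Real.log ((z' 0 + 1) / 2)|
      ≤ K * (1 + (l : ℝ)) ^ (-(1 : ℝ) / 2) * |z 0 - z' 0| := by
        apply mul_le_mul_of_nonneg_left hlog (by positivity)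
    _ ≤ 2 * K * (1 + (l : ℝ)) ^ (-(1 : ℝ) / 2) * |z 0 - z' 0| := by
        have : 0 ≤ K * (1 + (l : ℝ)) ^ (-(1 : ℝ) / 2) * |z 0 - z' 0| := by positivity
        linarith

lemma one_add_rpow_le (p : ℝ) (hp : 1 ≤ p) : ∃ C : ℝ, 0 < C ∧ ∀ s : ℝ, 0 ≤ s →
    (1 + s) ^ p ≤ C * Real.exp (s / 2) := by
  refine ⟨Real.exp (1 / 2 + p * Real.log (2 * p)), Real.exp_pos _, fun s hs => ?_⟩
  have h1 : (0 : ℝ) < 1 + s := by linarith
  have hp0 : 0 < p := by linarith
  rw [Real.rpow_def_of_pos h1, ← Real.exp_add]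
  apply Real.exp_le_exp.mpr
  have h2 := Real.log_le_sub_one_of_pos (show 0 < (1 + s) / (2 * p) by positivity)
  rw [Real.log_div h1.ne' (by positivity)] at h2
  have h3 : p * Real.log (1 + s) ≤ p * ((1 + s) / (2 * p) - 1 + Real.log (2 * p)) :=
    mul_le_mul_of_nonneg_left (by linarith) hp0.le
  have h4 : p * ((1 + s) / (2 * p) - 1 + Real.log (2 * p)) =
      (1 + s) / 2 - p + p * Real.log (2 * p) := by
    field_simp
  rw [h4] at h3
  rw [mul_comm]
  linarith

lemma crude_bound (m : ℕ) (p : ℝ) (hp : 1 ≤ p) : ∃ C : ℝ, 0 < C ∧ ∀ (d : ℕ) (K : ℝ) (Λ : ℕ)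
    (k : Fin m → ℝ) (Ψ : (Fin (m + 1) → ℝ) → E d), 0 < K →
      (∀ j, 0 ≤ k j ∧ k j ≤ 1 / (1 + (Λ : ℝ))) → Good K k Ψ → ∀ N : ℕ,
        G p ((cube (m + 1)).map (psi Ψ Λ)) N ≤ ENNReal.ofReal (C * K ^ p) * N := by
  obtain ⟨C₁, hC₁, hpow⟩ := one_add_rpow_le p hp
  set J : ℝ≥0∞ := ∫⁻ x in Ioo (0 : ℝ) 1, ENNReal.ofReal (x ^ (-(1 / 2) : ℝ)) with hJ
  have hJtop : J < ⊤ := by
    have h1 : IntervalIntegrable (fun x : ℝ => x ^ (-(1 / 2) : ℝ)) volume 0 1 :=
      intervalIntegral.intervalIntegrable_rpow' (by norm_num)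
    rw [intervalIntegrable_iff_integrableOn_Ioo_of_le (by norm_num)] at h1
    exact h1.lintegral_lt_top
  set C : ℝ := ((m : ℝ) + 1) ^ p * C₁ * J.toReal * J.toReal + 1 with hC
  have hJ0 : 0 ≤ J.toReal := ENNReal.toReal_nonneg
  refine ⟨C, by positivity, fun d K Λ k Ψ hK hk hG N => ?_⟩
  refine le_trans (G_crude hp (psi Ψ Λ) (measurable_psi hG.meas Λ) N) ?_
  rw [mul_comm]
  apply mul_le_mul' _ le_rfl
  have hΛ : (0 : ℝ) < 1 + (Λ : ℝ) := by positivity
  have hpt : ∀ z z' : Fin (m + 1) → ℝ, InCube z → InCube z' →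
      ‖psi Ψ Λ z - psi Ψ Λ z'‖ ^ p ≤
        (K ^ p * ((m : ℝ) + 1) ^ p * C₁) * ((z 0) ^ (-(1 / 2) : ℝ) * (z' 0) ^ (-(1 / 2) : ℝ)) := by
    intro z z' hz hz'
    have hz0 := hz 0
    have hz0' := hz' 0
    obtain ⟨a1, a2⟩ := div_pow_le hz0 Λ
    obtain ⟨b1, b2⟩ := div_pow_le hz0' Λ
    have key := good_bound hG (u := sub0 (fun x => x / 2 ^ Λ) z)
      (u' := sub0 (fun x => x / 2 ^ Λ) z') (inCube_sub0 hz a1) (inCube_sub0 hz' b1) Λ
      (by simpa using a2) (by simpa using b2)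
    simp only [sub0_zero, sub0_succ] at key
    rw [log_div_pow hz0.1, log_div_pow hz0'.1, sub_sub_sub_cancel_right] at key
    have hl1 : Real.log (z 0) ≤ 0 := Real.log_nonpos hz0.1.le hz0.2.le
    have hl2 : Real.log (z' 0) ≤ 0 := Real.log_nonpos hz0'.1.le hz0'.2.le
    set s := -Real.log (z 0) with hs
    set s' := -Real.log (z' 0) with hs'
    have hs0 : 0 ≤ s := by linarith
    have hs0' : 0 ≤ s' := by linarith
    have hab : |Real.log (z 0) - Real.log (z' 0)| ≤ s + s' := by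
      rw [abs_le]; constructor <;> linarith
    have hΛ1 : (1 + (Λ : ℝ)) ^ (-(1 : ℝ) / 2) ≤ 1 := by
      apply Real.rpow_le_one_of_one_le_of_nonpos
      · have : (0 : ℝ) ≤ Λ := by positivity
        linarith
      · norm_num
    have t1 : K * (1 + (Λ : ℝ)) ^ (-(1 : ℝ) / 2) * |Real.log (z 0) - Real.log (z' 0)| ≤
        K * (1 + s + s') := by
      calc K * (1 + (Λ : ℝ)) ^ (-(1 : ℝ) / 2) * |Real.log (z 0) - Real.log (z' 0)|
          ≤ K * 1 * (s + s') := by
            apply mul_le_mul _ hab (abs_nonneg _) (by positivity)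
            exact mul_le_mul_of_nonneg_left hΛ1 hK.le
        _ ≤ K * (1 + s + s') := by nlinarith
    have t2 : Real.sqrt (1 - (Real.log (z' 0) - Λ * Real.log 2)) ≤
        (1 + (Λ : ℝ)) * (1 + s + s') := by
      have h2 : Real.log 2 ≤ 1 := by
        have := Real.log_two_lt_d9
        linarith
      have h3 : 0 ≤ Real.log 2 := Real.log_nonneg (by norm_num)
      have hΛ0 : (0 : ℝ) ≤ Λ := by positivity
      have h4 : 0 ≤ (Λ : ℝ) * Real.log 2 := mul_nonneg hΛ0 h3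
      have h5 : (Λ : ℝ) * Real.log 2 ≤ Λ := by
        calc (Λ : ℝ) * Real.log 2 ≤ Λ * 1 := mul_le_mul_of_nonneg_left h2 hΛ0
          _ = Λ := mul_one _
      have h6 : 1 ≤ 1 - (Real.log (z' 0) - Λ * Real.log 2) := by linarith
      have h7 : Real.sqrt (1 - (Real.log (z' 0) - Λ * Real.log 2)) ≤
          1 - (Real.log (z' 0) - Λ * Real.log 2) := by
        rw [Real.sqrt_le_left (by linarith)]
        nlinarith
      refine le_trans h7 ?_
      have h8 : 1 - (Real.log (z' 0) - Λ * Real.log 2) ≤ 1 + Λ + s' := by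
        simp only [hs']
        linarith
      nlinarith [mul_nonneg hΛ0 hs0, mul_nonneg hΛ0 hs0']
    have t3 : ∑ j : Fin m, k j * |z j.succ - z' j.succ| ≤ m * (1 / (1 + (Λ : ℝ))) := by
      calc ∑ j : Fin m, k j * |z j.succ - z' j.succ|
          ≤ ∑ j : Fin m, (1 / (1 + (Λ : ℝ))) := by
            apply Finset.sum_le_sum
            intro j _
            have hj : |z j.succ - z' j.succ| ≤ 1 := by
              have a := hz j.succ
              have b := hz' j.succ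
              rw [abs_le]; constructor <;> linarith [a.1, a.2, b.1, b.2]
            calc k j * |z j.succ - z' j.succ| ≤ (1 / (1 + (Λ : ℝ))) * 1 :=
                  mul_le_mul (hk j).2 hj (abs_nonneg _) (by positivity)
              _ = 1 / (1 + (Λ : ℝ)) := mul_one _
        _ = m * (1 / (1 + (Λ : ℝ))) := by
            rw [Finset.sum_const, Finset.card_univ, Fintype.card_fin, nsmul_eq_mul]
    have t3' : 0 ≤ ∑ j : Fin m, k j * |z j.succ - z' j.succ| :=
      Finset.sum_nonneg (fun j _ => mul_nonneg (hk j).1 (abs_nonneg _))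
    have t4 : K * Real.sqrt (1 - (Real.log (z' 0) - Λ * Real.log 2)) *
        ∑ j : Fin m, k j * |z j.succ - z' j.succ| ≤ K * m * (1 + s + s') := by
      calc K * Real.sqrt (1 - (Real.log (z' 0) - Λ * Real.log 2)) *
          ∑ j : Fin m, k j * |z j.succ - z' j.succ|
          ≤ (K * ((1 + (Λ : ℝ)) * (1 + s + s'))) * (m * (1 / (1 + (Λ : ℝ)))) := by
            apply mul_le_mul _ t3 t3' (by positivity)
            exact mul_le_mul_of_nonneg_left t2 hK.le
        _ = K * m * (1 + s + s') := by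
            field_simp
    have hnorm : ‖psi Ψ Λ z - psi Ψ Λ z'‖ ≤ K * ((m : ℝ) + 1) * (1 + (s + s')) := by
      refine le_trans key ?_
      refine le_trans (add_le_add t1 t4) ?_
      apply le_of_eq
      ring
    calc ‖psi Ψ Λ z - psi Ψ Λ z'‖ ^ p ≤ (K * ((m : ℝ) + 1) * (1 + (s + s'))) ^ p :=
          Real.rpow_le_rpow (norm_nonneg _) hnorm (by linarith)
      _ = K ^ p * ((m : ℝ) + 1) ^ p * (1 + (s + s')) ^ p := by
          rw [Real.mul_rpow (by positivity) (by positivity), Real.mul_rpow hK.le (by positivity)]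
      _ ≤ K ^ p * ((m : ℝ) + 1) ^ p * (C₁ * Real.exp ((s + s') / 2)) := by
          apply mul_le_mul_of_nonneg_left (hpow _ (by positivity)) (by positivity)
      _ = (K ^ p * ((m : ℝ) + 1) ^ p * C₁) *
          ((z 0) ^ (-(1 / 2) : ℝ) * (z' 0) ^ (-(1 / 2) : ℝ)) := by
          rw [Real.rpow_def_of_pos hz0.1, Real.rpow_def_of_pos hz0'.1, ← Real.exp_add, mul_assoc,
            mul_assoc, mul_assoc]
          congr 4
          simp only [hs, hs']
          ring
  have hmeas : Measurable (fun x : ℝ => ENNReal.ofReal (x ^ (-(1 / 2) : ℝ))) := by fun_prop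
  calc ∫⁻ z, ∫⁻ z', ENNReal.ofReal (‖psi Ψ Λ z - psi Ψ Λ z'‖ ^ p) ∂(cube (m + 1)) ∂(cube (m + 1))
      ≤ ∫⁻ z, ENNReal.ofReal (K ^ p * ((m : ℝ) + 1) ^ p * C₁) *
          ENNReal.ofReal ((z 0) ^ (-(1 / 2) : ℝ)) * J ∂(cube (m + 1)) := by
        apply lintegral_mono_ae
        filter_upwards [ae_inCube (m + 1)] with z hz
        calc ∫⁻ z', ENNReal.ofReal (‖psi Ψ Λ z - psi Ψ Λ z'‖ ^ p) ∂(cube (m + 1))
            ≤ ∫⁻ z', ENNReal.ofReal (K ^ p * ((m : ℝ) + 1) ^ p * C₁) *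
              ENNReal.ofReal ((z 0) ^ (-(1 / 2) : ℝ)) *
              ENNReal.ofReal ((z' 0) ^ (-(1 / 2) : ℝ)) ∂(cube (m + 1)) := by
              apply lintegral_mono_ae
              filter_upwards [ae_inCube (m + 1)] with z' hz'
              have hz0 := (hz 0).1
              rw [mul_assoc, ← ENNReal.ofReal_mul (by positivity),
                ← ENNReal.ofReal_mul (by positivity)]
              exact ENNReal.ofReal_le_ofReal (hpt z z' hz hz')
          _ = ENNReal.ofReal (K ^ p * ((m : ℝ) + 1) ^ p * C₁) *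
              ENNReal.ofReal ((z 0) ^ (-(1 / 2) : ℝ)) * J := by
              exact lintegral_const_eval _ hmeas
    _ = ENNReal.ofReal (K ^ p * ((m : ℝ) + 1) ^ p * C₁) * J * J := by
        have : ∀ z : Fin (m + 1) → ℝ, ENNReal.ofReal (K ^ p * ((m : ℝ) + 1) ^ p * C₁) *
            ENNReal.ofReal ((z 0) ^ (-(1 / 2) : ℝ)) * J =
            (ENNReal.ofReal (K ^ p * ((m : ℝ) + 1) ^ p * C₁) * J) *
            ENNReal.ofReal ((z 0) ^ (-(1 / 2) : ℝ)) := fun z => by ring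
        simp only [this]
        exact lintegral_const_eval _ hmeas
    _ = ENNReal.ofReal (K ^ p * ((m : ℝ) + 1) ^ p * C₁ * J.toReal * J.toReal) := by
        rw [ENNReal.ofReal_mul (p := K ^ p * ((m : ℝ) + 1) ^ p * C₁ * J.toReal) (by positivity),
          ENNReal.ofReal_mul (p := K ^ p * ((m : ℝ) + 1) ^ p * C₁) (by positivity),
          ENNReal.ofReal_toReal hJtop.ne]
    _ ≤ ENNReal.ofReal (C * K ^ p) := by
        apply ENNReal.ofReal_le_ofReal
        rw [hC]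
        have : 0 < K ^ p := by positivity
        nlinarith

/-- the comparison function `1_{N ≥ 1} (N + 1)^(-a)` -/
noncomputable def theta (a : ℝ) (N : ℕ) : ℝ≥0∞ :=
  if N = 0 then 0 else ENNReal.ofReal (((N : ℝ) + 1) ^ (-a))

lemma unroll (g h : ℕ → ℕ → ℝ≥0∞) (A : ℕ → ℝ≥0∞) (Λ : ℕ)
    (hrec : ∀ l < Λ, ∀ N, g l N ≤ A l * TT (g (l + 1)) N + h l N) :
    ∀ L ≤ Λ, ∀ N, g 0 N ≤ (∏ l ∈ Finset.range L, A l) * TT^[L] (g L) N +
      ∑ l ∈ Finset.range L, (∏ j ∈ Finset.range l, A j) * TT^[l] (h l) N := by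
  intro L
  induction L with
  | zero => intro _ N; simp
  | succ L ih =>
    intro hL N
    refine le_trans (ih (by omega) N) ?_
    have h1 : TT^[L] (g L) N ≤ A L * TT^[L + 1] (g (L + 1)) N + TT^[L] (h L) N := by
      refine le_trans (TTi_mono L (hrec L (by omega)) N) ?_
      rw [TTi_add L (fun N => A L * TT (g (L + 1)) N) (h L), TTi_mul]
      rfl
    rw [Finset.prod_range_succ, Finset.sum_range_succ]
    calc (∏ l ∈ Finset.range L, A l) * TT^[L] (g L) N +
          ∑ l ∈ Finset.range L, (∏ j ∈ Finset.range l, A j) * TT^[l] (h l) N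
        ≤ (∏ l ∈ Finset.range L, A l) * (A L * TT^[L + 1] (g (L + 1)) N + TT^[L] (h L) N) +
          ∑ l ∈ Finset.range L, (∏ j ∈ Finset.range l, A j) * TT^[l] (h l) N := by
          gcongr
      _ = _ := by ring

lemma theta_bound {a : ℝ} (ha : 0 < a) (ha1 : a ≤ 1) (l N : ℕ) :
    TT^[l] (theta a) N ≤
      ENNReal.ofReal (2 * (2 : ℝ) ^ (-(a * |(l : ℝ) - (Nat.log 2 (N + 1) : ℕ)|))) := by
  set M := Nat.log 2 (N + 1) with hM
  have hM1 : 2 ^ M ≤ N + 1 := Nat.pow_log_le_self 2 (by omega)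
  have hM2 : N + 1 < 2 ^ (M + 1) := Nat.lt_pow_succ_log_self (by norm_num) _
  have hM1' : (2 : ℝ) ^ M ≤ (N : ℝ) + 1 := by exact_mod_cast hM1
  have hM2' : (N : ℝ) + 1 < 2 ^ (M + 1) := by exact_mod_cast hM2
  rcases le_or_gt l M with hl | hl
  · have h1 : ∀ k, theta a k ≤ ENNReal.ofReal (((k : ℝ) + 1) ^ (-a)) := by
      intro k
      unfold theta
      split_ifs
      · exact zero_le
      · exact le_rfl
    refine le_trans (TTi_mono l h1 N) (le_trans (TTi_rpow l N ha ha1) ?_)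
    apply ENNReal.ofReal_le_ofReal
    have hl' : (l : ℝ) ≤ M := by exact_mod_cast hl
    rw [abs_of_nonpos (by linarith)]
    have e1 : ((1 / 2 : ℝ) ^ (-a)) ^ l = (2 : ℝ) ^ (a * l) := by
      rw [one_div, Real.inv_rpow (by norm_num), Real.rpow_neg (by norm_num), inv_inv,
        Real.rpow_mul (by norm_num), Real.rpow_natCast]
    have e2 : ((N : ℝ) + 1) ^ (-a) ≤ (2 : ℝ) ^ (-(a * M)) := by
      calc ((N : ℝ) + 1) ^ (-a) ≤ ((2 : ℝ) ^ M) ^ (-a) :=
            Real.rpow_le_rpow_of_nonpos (by positivity) hM1' (by linarith)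
        _ = (2 : ℝ) ^ (-(a * M)) := by
            rw [← Real.rpow_natCast, ← Real.rpow_mul (by norm_num)]
            congr 1
            ring
    rw [e1]
    calc (2 : ℝ) ^ (a * l) * ((N : ℝ) + 1) ^ (-a) ≤ (2 : ℝ) ^ (a * l) * (2 : ℝ) ^ (-(a * M)) :=
          mul_le_mul_of_nonneg_left e2 (by positivity)
      _ = (2 : ℝ) ^ (-(a * -((l : ℝ) - M))) := by
          rw [← Real.rpow_add (by norm_num)]
          congr 1
          ring
      _ ≤ 2 * (2 : ℝ) ^ (-(a * -((l : ℝ) - M))) := by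
          have : 0 < (2 : ℝ) ^ (-(a * -((l : ℝ) - M))) := by positivity
          linarith
  · have h1 : ∀ k, theta a k ≤ (k : ℝ≥0∞) := by
      intro k
      unfold theta
      split_ifs with hk
      · exact zero_le
      · calc ENNReal.ofReal (((k : ℝ) + 1) ^ (-a)) ≤ ENNReal.ofReal 1 := by
              apply ENNReal.ofReal_le_ofReal
              apply Real.rpow_le_one_of_one_le_of_nonpos
              · have : (0 : ℝ) ≤ k := by positivity
                linarith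
              · linarith
          _ = ((1 : ℕ) : ℝ≥0∞) := by simp
          _ ≤ (k : ℝ≥0∞) := by
              exact_mod_cast Nat.one_le_iff_ne_zero.mpr hk
    refine le_trans (TTi_mono l h1 N) (le_trans (le_of_eq (TTi_id l N)) ?_)
    apply ENNReal.ofReal_le_ofReal
    have hl' : (M : ℝ) < l := by exact_mod_cast hl
    rw [abs_of_pos (by linarith)]
    calc (1 / 2 : ℝ) ^ l * (N : ℝ) ≤ (1 / 2 : ℝ) ^ l * 2 ^ (M + 1) := by
          apply mul_le_mul_of_nonneg_left _ (by positivity)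
          linarith
      _ = 2 * (2 : ℝ) ^ (-((l : ℝ) - M)) := by
          rw [one_div, inv_pow, ← Real.rpow_natCast, ← Real.rpow_natCast,
            ← Real.rpow_neg (by norm_num), ← Real.rpow_add (by norm_num)]
          have : (-(l : ℝ) + ((M + 1 : ℕ) : ℝ)) = 1 + (-((l : ℝ) - M)) := by
            push_cast
            ring
          rw [this, Real.rpow_add (by norm_num), Real.rpow_one]
      _ ≤ 2 * (2 : ℝ) ^ (-(a * ((l : ℝ) - M))) := by
          apply mul_le_mul_of_nonneg_left _ (by norm_num)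
          apply Real.rpow_le_rpow_of_exponent_le (by norm_num)
          have : a * ((l : ℝ) - M) ≤ 1 * ((l : ℝ) - M) :=
            mul_le_mul_of_nonneg_right ha1 (by linarith)
          linarith

lemma theta_bound' {a : ℝ} (ha : 0 < a) (ha1 : a ≤ 1) (l N : ℕ) :
    TT^[l + 1] (theta a) N ≤
      ENNReal.ofReal (2 * 2 ^ a *
        (2 : ℝ) ^ (-(a * |(l : ℝ) - (Nat.log 2 (N + 1) : ℕ)|))) := by
  refine le_trans (theta_bound ha ha1 (l + 1) N) ?_
  apply ENNReal.ofReal_le_ofReal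
  rw [mul_assoc, ← Real.rpow_add (by norm_num)]
  apply mul_le_mul_of_nonneg_left _ (by norm_num)
  apply Real.rpow_le_rpow_of_exponent_le (by norm_num)
  set M : ℝ := ((Nat.log 2 (N + 1) : ℕ) : ℝ)
  have h : |(l : ℝ) - M| ≤ |((l + 1 : ℕ) : ℝ) - M| + 1 := by
    have := abs_add_le (((l + 1 : ℕ) : ℝ) - M) (-1)
    have e : ((l + 1 : ℕ) : ℝ) - M + -1 = (l : ℝ) - M := by push_cast; ring
    rw [e] at this
    simpa using this
  have := mul_le_mul_of_nonneg_left h ha.le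
  linarith

lemma eta_le {a p : ℝ} (ha : 0 < a) (ha2 : a ≤ p / 2 - 1) {c : ℝ} (hc : 0 ≤ c) (N : ℕ) :
    ENNReal.ofReal (c * eta p N) ≤ ENNReal.ofReal (c * 2 ^ a) * theta a N := by
  unfold eta theta
  split_ifs with hN
  · simp
  · rw [← ENNReal.ofReal_mul (by positivity)]
    apply ENNReal.ofReal_le_ofReal
    rw [mul_assoc]
    apply mul_le_mul_of_nonneg_left _ hc
    have hN1 : (1 : ℝ) ≤ N := by exact_mod_cast Nat.one_le_iff_ne_zero.mpr hN
    calc (N : ℝ) ^ (1 - p / 2) ≤ (N : ℝ) ^ (-a) :=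
          Real.rpow_le_rpow_of_exponent_le hN1 (by linarith)
      _ ≤ (((N : ℝ) + 1) / 2) ^ (-a) := by
          apply Real.rpow_le_rpow_of_nonpos (by positivity) (by linarith) (by linarith)
      _ = 2 ^ a * ((N : ℝ) + 1) ^ (-a) := by
          rw [Real.div_rpow (by positivity) (by norm_num), Real.rpow_neg (by norm_num : (0:ℝ) ≤ 2),
            div_inv_eq_mul, mul_comm]

end StageBAux

open StageBAux in
theorem stageB (m : ℕ) (p : ℝ) (hp : ((m + 1 : ℕ) : ℝ) < p) (h2 : 2 < p) :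
    ∃ C : ℝ, 0 < C ∧ ∀ (d : ℕ) (K : ℝ) (Λ : ℕ) (k : Fin m → ℝ) (Ψ : (Fin (m + 1) → ℝ) → E d),
      0 < K → (∀ j, 0 ≤ k j ∧ k j ≤ 1 / (1 + (Λ : ℝ))) → Good K k Ψ → ∀ N : ℕ,
        G p ((cube (m + 1)).map Ψ) N ≤ ENNReal.ofReal (C * K ^ p *
          ((1 + Real.log ((N : ℝ) + 1)) ^ (-p / 2) + N * (2 : ℝ)⁻¹ ^ Λ)) := by
  obtain ⟨a, Cc, ha, ha1, ha2, hCc, hstage⟩ := stageC (m + 1) (by omega) p hp h2
  have hp1 : 1 ≤ p := by linarith
  have hp0 : 0 < p := by linarith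
  obtain ⟨C0, hC0, hbin⟩ := G_binary p hp1
  obtain ⟨Ct, hCt, htau⟩ := tau_bound p hp1
  obtain ⟨Cg, hCg, hcr⟩ := crude_bound m p hp1
  set dl : ℝ := a / (2 * (p - 1)) with hdl
  have hp1' : 0 < p - 1 := by linarith
  have hdlpos : 0 < dl := by positivity
  obtain ⟨Cs, hCs, hpsum⟩ := peak_sum (a / 2) (p / 2) (by positivity) (by positivity)
  obtain ⟨P, hP, hpprod⟩ := peak_prod dl (p - 1) hdlpos hp1'.le
  have hP0 : 0 < P := by linarith
  set c1 : ℝ := Cc * 2 ^ p with hc1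
  set c2 : ℝ := C0 * Ct * 2 ^ a with hc2
  have hc1p : 0 < c1 := by positivity
  have hc2p : 0 < c2 := by positivity
  set c3 : ℝ := 2 ^ (p - 1) * c1 * (2 * 2 ^ a) + 2 ^ (p - 1) * c2 * 2 with hc3
  have hc3p : 0 < c3 := by positivity
  refine ⟨P * c3 * Cs * 2 ^ (p / 2) + P * Cg, by positivity, ?_⟩
  intro d K Λ k Ψ hK hk hG N
  set M := Nat.log 2 (N + 1) with hM
  set g : ℕ → ℕ → ℝ≥0∞ := fun l N' => G p ((cube (m + 1)).map (psi Ψ l)) N' with hg
  set e : ℕ → ℝ := fun l => K ^ p * (1 + (l : ℝ)) ^ (-(p / 2)) with he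
  have hepos : ∀ l, 0 < e l := fun l => by simp only [he]; positivity
  set ε : ℕ → ℝ := fun l => (2 : ℝ) ^ (-(dl * |(l : ℝ) - M|)) with hε
  have hεpos : ∀ l, 0 < ε l := fun l => by simp only [hε]; positivity
  have hεle : ∀ l, ε l ≤ 1 := fun l => by
    simp only [hε]
    apply Real.rpow_le_one_of_one_le_of_nonpos (by norm_num)
    have : 0 ≤ dl * |(l : ℝ) - M| := by positivity
    linarith
  set A : ℕ → ℝ≥0∞ := fun l => ENNReal.ofReal ((1 + ε l) ^ (p - 1)) with hA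
  set h : ℕ → ℕ → ℝ≥0∞ := fun l N' => A l * (ENNReal.ofReal (c1 * e l) * TT (theta a) N') +
    ENNReal.ofReal ((1 + 1 / ε l) ^ (p - 1) * (c2 * e l)) * theta a N' with hh
  -- cost of the dyadic pieces
  have hD : ∀ l ≤ Λ, ∀ N', G p ((cube (m + 1)).map (psi Ψ l ∘ half 0 1)) N' ≤
      ENNReal.ofReal (c1 * e l) * theta a N' := by
    intro l hl N'
    by_cases hN' : N' = 0
    · subst hN'
      rw [G_zero]
      exact zero_le
    · have hm : Measurable (psi Ψ l ∘ half 0 1) :=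
        (measurable_psi hG.meas l).comp (measurable_sub0 (φ := fun x => (x + 1) / 2) (by fun_prop))
      refine le_trans (hstage d (2 * K * (1 + (l : ℝ)) ^ (-(1 : ℝ) / 2)) _ (by positivity) hm
        (lip_half hK hG hk hl) N') ?_
      unfold theta
      rw [if_neg hN', ← ENNReal.ofReal_mul (by have := hepos l; positivity)]
      apply ENNReal.ofReal_le_ofReal
      apply le_of_eq
      rw [Real.mul_rpow (by positivity) (by positivity), Real.mul_rpow (by norm_num) hK.le,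
        ← Real.rpow_mul (by positivity)]
      simp only [he, hc1]
      have : -(1 : ℝ) / 2 * p = -(p / 2) := by ring
      rw [this]
      ring
  -- the recursion
  have hrec : ∀ l < Λ, ∀ N', g l N' ≤ A l * TT (g (l + 1)) N' + h l N' := by
    intro l hl N'
    have h1 := hbin d (m + 1) (psi Ψ l) (measurable_psi hG.meas l) 0
      (Ct * K ^ p * (1 + (l : ℝ)) ^ (-(p / 2))) (by positivity)
      (fun w hw => htau m d K k Ψ hK hG l w hw) (ε l) (hεpos l) N'
    refine le_trans h1 ?_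
    rw [psi_half]
    have h2 : bin N' (1 / 2) (fun k => G p ((cube (m + 1)).map (psi Ψ (l + 1))) k +
        G p ((cube (m + 1)).map (psi Ψ l ∘ half 0 1)) k) ≤
        TT (g (l + 1)) N' + ENNReal.ofReal (c1 * e l) * TT (theta a) N' := by
      have h3 : bin N' (1 / 2) (fun k => G p ((cube (m + 1)).map (psi Ψ (l + 1))) k +
        G p ((cube (m + 1)).map (psi Ψ l ∘ half 0 1)) k) ≤
        bin N' (1 / 2) (fun k => g (l + 1) k + ENNReal.ofReal (c1 * e l) * theta a k) :=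
        bin_mono _ _ (fun k _ => add_le_add le_rfl (hD l hl.le k))
      refine le_trans h3 ?_
      rw [bin_add, bin_const_mul]
      rfl
    have h4 : ENNReal.ofReal ((1 + 1 / ε l) ^ (p - 1) *
        (C0 * (Ct * K ^ p * (1 + (l : ℝ)) ^ (-(p / 2))) * eta p N')) ≤
        ENNReal.ofReal ((1 + 1 / ε l) ^ (p - 1) * (c2 * e l)) * theta a N' := by
      have h5 := eta_le (p := p) ha ha2 (c := (1 + 1 / ε l) ^ (p - 1) *
        (C0 * (Ct * K ^ p * (1 + (l : ℝ)) ^ (-(p / 2)))))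
        (by have := hεpos l; positivity) N'
      rw [mul_assoc] at h5
      refine le_trans h5 (le_of_eq ?_)
      congr 2
      simp only [hc2, he]
      ring
    calc ENNReal.ofReal ((1 + ε l) ^ (p - 1)) *
          bin N' (1 / 2) (fun k => G p ((cube (m + 1)).map (psi Ψ (l + 1))) k +
            G p ((cube (m + 1)).map (psi Ψ l ∘ half 0 1)) k) +
          ENNReal.ofReal ((1 + 1 / ε l) ^ (p - 1) *
            (C0 * (Ct * K ^ p * (1 + (l : ℝ)) ^ (-(p / 2))) * eta p N'))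
        ≤ A l * (TT (g (l + 1)) N' + ENNReal.ofReal (c1 * e l) * TT (theta a) N') +
          ENNReal.ofReal ((1 + 1 / ε l) ^ (p - 1) * (c2 * e l)) * theta a N' :=
          add_le_add (mul_le_mul' le_rfl h2) h4
      _ = A l * TT (g (l + 1)) N' + h l N' := by
          simp only [hh]
          ring
  have hun := unroll g h A Λ hrec Λ le_rfl N
  have hg0 : G p ((cube (m + 1)).map Ψ) N = g 0 N := by
    simp only [hg, psi_zero]
  rw [hg0]
  -- products
  have hQ : ∀ L, ∏ l ∈ Finset.range L, A l ≤ ENNReal.ofReal P := by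
    intro L
    simp only [hA]
    rw [← ENNReal.ofReal_prod_of_nonneg (fun l _ => by have := hεpos l; positivity)]
    exact ENNReal.ofReal_le_ofReal (hpprod M L)
  -- source terms
  have hA2 : ∀ l, A l ≤ ENNReal.ofReal (2 ^ (p - 1)) := by
    intro l
    apply ENNReal.ofReal_le_ofReal
    apply Real.rpow_le_rpow (by have := hεpos l; positivity) _ hp1'.le
    linarith [hεle l]
  have hB2 : ∀ l, (1 + 1 / ε l) ^ (p - 1) ≤ 2 ^ (p - 1) * (2 : ℝ) ^ (a / 2 * |(l : ℝ) - M|) := by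
    intro l
    have hle : 1 + 1 / ε l ≤ 2 * (2 : ℝ) ^ (dl * |(l : ℝ) - M|) := by
      have h1 : 1 / ε l = (2 : ℝ) ^ (dl * |(l : ℝ) - M|) := by
        simp only [hε]
        rw [Real.rpow_neg (by norm_num), one_div, inv_inv]
      rw [h1]
      have h2 : (1 : ℝ) ≤ (2 : ℝ) ^ (dl * |(l : ℝ) - M|) :=
        Real.one_le_rpow (by norm_num) (by positivity)
      linarith
    calc (1 + 1 / ε l) ^ (p - 1) ≤ (2 * (2 : ℝ) ^ (dl * |(l : ℝ) - M|)) ^ (p - 1) :=
          Real.rpow_le_rpow (by have := hεpos l; positivity) hle hp1'.le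
      _ = 2 ^ (p - 1) * (2 : ℝ) ^ (a / 2 * |(l : ℝ) - M|) := by
          rw [Real.mul_rpow (by norm_num) (by positivity), ← Real.rpow_mul (by norm_num)]
          congr 2
          rw [hdl]
          field_simp
  have hsrc : ∀ l, TT^[l] (h l) N ≤
      ENNReal.ofReal (c3 * e l * (2 : ℝ) ^ (-(a / 2 * |(l : ℝ) - M|))) := by
    intro l
    have hel := hepos l
    have e1 : TT^[l] (h l) N = A l * (ENNReal.ofReal (c1 * e l) * TT^[l + 1] (theta a) N) +
        ENNReal.ofReal ((1 + 1 / ε l) ^ (p - 1) * (c2 * e l)) * TT^[l] (theta a) N := by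
      simp only [hh]
      rw [TTi_add l (fun N' => A l * (ENNReal.ofReal (c1 * e l) * TT (theta a) N'))
        (fun N' => ENNReal.ofReal ((1 + 1 / ε l) ^ (p - 1) * (c2 * e l)) * theta a N'),
        TTi_mul l (A l) (fun N' => ENNReal.ofReal (c1 * e l) * TT (theta a) N'),
        TTi_mul l (ENNReal.ofReal (c1 * e l)) (TT (theta a)), TTi_mul l]
      rfl
    rw [e1]
    set Y : ℝ := (2 : ℝ) ^ (-(a / 2 * |(l : ℝ) - M|)) with hY
    have hYpos : 0 < Y := by positivity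
    have hYY : (2 : ℝ) ^ (-(a * |(l : ℝ) - M|)) = Y * Y := by
      rw [hY, ← Real.rpow_add (by norm_num)]
      congr 1
      ring
    have hY1 : Y ≤ 1 := by
      rw [hY]
      apply Real.rpow_le_one_of_one_le_of_nonpos (by norm_num)
      have : 0 ≤ a / 2 * |(l : ℝ) - M| := by positivity
      linarith
    have hYinv : (2 : ℝ) ^ (a / 2 * |(l : ℝ) - M|) * Y = 1 := by
      rw [hY, ← Real.rpow_add (by norm_num)]
      simp
    have t1 : A l * (ENNReal.ofReal (c1 * e l) * TT^[l + 1] (theta a) N) ≤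
        ENNReal.ofReal (2 ^ (p - 1) * (c1 * e l * (2 * 2 ^ a * Y))) := by
      rw [ENNReal.ofReal_mul (p := 2 ^ (p - 1)) (by positivity),
        ENNReal.ofReal_mul (p := c1 * e l) (by positivity)]
      apply mul_le_mul' (hA2 l)
      apply mul_le_mul' le_rfl
      refine le_trans (theta_bound' ha ha1 l N) ?_
      apply ENNReal.ofReal_le_ofReal
      rw [← hM, hYY]
      apply mul_le_mul_of_nonneg_left _ (by positivity)
      nlinarith
    have t2 : ENNReal.ofReal ((1 + 1 / ε l) ^ (p - 1) * (c2 * e l)) * TT^[l] (theta a) N ≤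
        ENNReal.ofReal (2 ^ (p - 1) * c2 * 2 * e l * Y) := by
      refine le_trans (mul_le_mul' le_rfl (theta_bound ha ha1 l N)) ?_
      rw [← hM, hYY, ← ENNReal.ofReal_mul (by have := hεpos l; positivity)]
      apply ENNReal.ofReal_le_ofReal
      calc (1 + 1 / ε l) ^ (p - 1) * (c2 * e l) * (2 * (Y * Y))
          ≤ 2 ^ (p - 1) * (2 : ℝ) ^ (a / 2 * |(l : ℝ) - M|) * (c2 * e l) * (2 * (Y * Y)) := by
            apply mul_le_mul_of_nonneg_right _ (by positivity)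
            apply mul_le_mul_of_nonneg_right (hB2 l) (by positivity)
        _ = 2 ^ (p - 1) * c2 * 2 * e l * Y * ((2 : ℝ) ^ (a / 2 * |(l : ℝ) - M|) * Y) := by ring
        _ = 2 ^ (p - 1) * c2 * 2 * e l * Y := by rw [hYinv, mul_one]
    refine le_trans (add_le_add t1 t2) ?_
    rw [← ENNReal.ofReal_add (by positivity) (by positivity)]
    apply ENNReal.ofReal_le_ofReal
    apply le_of_eq
    rw [hc3]
    ring
  have hsum : ∑ l ∈ Finset.range Λ, (∏ j ∈ Finset.range l, A j) * TT^[l] (h l) N ≤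
      ENNReal.ofReal (P * c3 * K ^ p * (Cs * (1 + (M : ℝ)) ^ (-(p / 2)))) := by
    calc ∑ l ∈ Finset.range Λ, (∏ j ∈ Finset.range l, A j) * TT^[l] (h l) N
        ≤ ∑ l ∈ Finset.range Λ, ENNReal.ofReal
          (P * (c3 * e l * (2 : ℝ) ^ (-(a / 2 * |(l : ℝ) - M|)))) := by
          apply Finset.sum_le_sum
          intro l _
          rw [ENNReal.ofReal_mul hP0.le]
          exact mul_le_mul' (hQ l) (hsrc l)
      _ = ENNReal.ofReal (∑ l ∈ Finset.range Λ,
          (P * (c3 * e l * (2 : ℝ) ^ (-(a / 2 * |(l : ℝ) - M|))))) := by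
          rw [ENNReal.ofReal_sum_of_nonneg]
          intro l _
          have := hepos l
          positivity
      _ ≤ _ := by
          apply ENNReal.ofReal_le_ofReal
          have e1 : ∑ l ∈ Finset.range Λ,
              (P * (c3 * e l * (2 : ℝ) ^ (-(a / 2 * |(l : ℝ) - M|)))) =
              P * c3 * K ^ p * ∑ l ∈ Finset.range Λ,
                (1 + (l : ℝ)) ^ (-(p / 2)) * (2 : ℝ) ^ (-(a / 2 * |(l : ℝ) - M|)) := by
            rw [Finset.mul_sum]
            apply Finset.sum_congr rfl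
            intro l _
            simp only [he]
            ring
          rw [e1]
          apply mul_le_mul_of_nonneg_left (hpsum M Λ) (by positivity)
  have hfirst : (∏ l ∈ Finset.range Λ, A l) * TT^[Λ] (g Λ) N ≤
      ENNReal.ofReal (P * (Cg * K ^ p * ((1 / 2) ^ Λ * N))) := by
    rw [ENNReal.ofReal_mul hP0.le]
    apply mul_le_mul' (hQ Λ)
    have h1 : ∀ N', g Λ N' ≤ ENNReal.ofReal (Cg * K ^ p) * (N' : ℝ≥0∞) :=
      fun N' => hcr d K Λ k Ψ hK hk hG N'
    refine le_trans (TTi_mono Λ h1 N) ?_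
    rw [TTi_mul Λ (ENNReal.ofReal (Cg * K ^ p)) (fun N' => (N' : ℝ≥0∞)),
      ENNReal.ofReal_mul (p := Cg * K ^ p) (by positivity)]
    exact mul_le_mul' le_rfl (le_of_eq (TTi_id Λ N))
  refine le_trans hun (le_trans (add_le_add hfirst hsum) ?_)
  rw [← ENNReal.ofReal_add (by positivity) (by positivity)]
  apply ENNReal.ofReal_le_ofReal
  -- `(1 + M)^(-p/2)` against the logarithm
  have hM2 : N + 1 < 2 ^ (M + 1) := Nat.lt_pow_succ_log_self (by norm_num) _
  have hM2' : (N : ℝ) + 1 < 2 ^ (M + 1) := by exact_mod_cast hM2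
  have hN1 : (1 : ℝ) ≤ (N : ℝ) + 1 := by
    have : (0 : ℝ) ≤ N := by positivity
    linarith
  have hlog0 : 0 ≤ Real.log ((N : ℝ) + 1) := Real.log_nonneg hN1
  have hlog : Real.log ((N : ℝ) + 1) ≤ (M + 1 : ℕ) * 1 := by
    calc Real.log ((N : ℝ) + 1) ≤ Real.log (2 ^ (M + 1)) :=
          Real.log_le_log (by linarith) hM2'.le
      _ = (M + 1 : ℕ) * Real.log 2 := by rw [Real.log_pow]
      _ ≤ (M + 1 : ℕ) * 1 := by
          apply mul_le_mul_of_nonneg_left _ (by positivity)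
          have := Real.log_two_lt_d9
          linarith
  have hMlog : (1 + (M : ℝ)) ^ (-(p / 2)) ≤
      2 ^ (p / 2) * (1 + Real.log ((N : ℝ) + 1)) ^ (-p / 2) := by
    push_cast at hlog
    have h1 : (1 + Real.log ((N : ℝ) + 1)) / 2 ≤ 1 + (M : ℝ) := by
      have : (0 : ℝ) ≤ M := by positivity
      linarith
    calc (1 + (M : ℝ)) ^ (-(p / 2)) ≤ ((1 + Real.log ((N : ℝ) + 1)) / 2) ^ (-(p / 2)) :=
          Real.rpow_le_rpow_of_nonpos (by positivity) h1 (by linarith)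
      _ = 2 ^ (p / 2) * (1 + Real.log ((N : ℝ) + 1)) ^ (-p / 2) := by
          rw [Real.div_rpow (by positivity) (by norm_num), Real.rpow_neg (by norm_num : (0:ℝ) ≤ 2),
            div_inv_eq_mul, mul_comm, neg_div]
  have hK' : 0 < K ^ p := by positivity
  set X : ℝ := (1 + Real.log ((N : ℝ) + 1)) ^ (-p / 2) with hX
  have hXpos : 0 < X := by positivity
  have hinv : (2 : ℝ)⁻¹ ^ Λ = (1 / 2) ^ Λ := by rw [one_div]
  rw [hinv]
  have hNN : 0 ≤ (N : ℝ) * (1 / 2) ^ Λ := by positivity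
  have f1 : P * c3 * K ^ p * (Cs * (1 + (M : ℝ)) ^ (-(p / 2))) ≤
      P * c3 * K ^ p * (Cs * (2 ^ (p / 2) * X)) := by
    apply mul_le_mul_of_nonneg_left _ (by positivity)
    exact mul_le_mul_of_nonneg_left hMlog hCs.le
  have f2 : 0 ≤ P * Cg * K ^ p * X := by positivity
  have f3 : 0 ≤ P * c3 * Cs * 2 ^ (p / 2) * K ^ p * ((N : ℝ) * (1 / 2) ^ Λ) := by positivity
  nlinarith [f1, f2, f3]

end Pool.Agent.Helper764.EW.B
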