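import Pool.Agent.Helper764.EWBinary

set_option autoImplicit false
open MeasureTheory Filter Topology Set
open scoped ENNReal

namespace Pool.Agent.Helper764.EW



set_option maxHeartbeats 4000000

/-! auxiliary lemmas -/

theorem c_isProb (n : ℕ) : (cube n) Set.univ = 1 := by
  unfold cube
  rw [Measure.pi_univ]
  simp

theorem c_aeInCube (n : ℕ) : ∀ᵐ z ∂(cube n), InCube z := by
  have : ∀ i : Fin n, ∀ᵐ z ∂(cube n), z i ∈ Ioo (0 : ℝ) 1 := by
    intro i
    unfold cube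
    exact (Measure.tendsto_eval_ae_ae (μ := fun _ : Fin n => (volume : Measure ℝ).restrict (Ioo 0 1))
      (i := i)).eventually (ae_restrict_mem measurableSet_Ioo)
  filter_upwards [ae_all_iff.mpr this] with z hz
  exact hz

theorem c_lintegral_const (n : ℕ) (c : ℝ≥0∞) : ∫⁻ _, c ∂(cube n) = c := by
  rw [lintegral_const, c_isProb, mul_one]

theorem c_half_mem {n : ℕ} (i : Fin n) {b : ℝ} (hb : b = 0 ∨ b = 1) {z : Fin n → ℝ}
    (hz : InCube z) : InCube (half i b z) := by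
  intro j
  unfold half
  by_cases hj : j = i
  · subst hj
    rw [Function.update_self]
    have := hz j
    rcases hb with rfl | rfl
    · exact ⟨by linarith [this.1], by linarith [this.2]⟩
    · exact ⟨by linarith [this.1], by linarith [this.2]⟩
  · rw [Function.update_of_ne hj]; exact hz j

theorem c_tauAt_mem {n : ℕ} (i : Fin n) {w : ℝ} (hw : w ∈ Icc (0 : ℝ) 1) {z : Fin n → ℝ}
    (hz : InCube z) : InCube (tauAt i w z) := by
  intro j
  unfold tauAt
  by_cases hj : j = i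
  · subst hj
    rw [Function.update_self]
    exact tau_mem hw (hz j)
  · rw [Function.update_of_ne hj]; exact hz j

theorem c_measurable_half {n : ℕ} (i : Fin n) (b : ℝ) : Measurable (half i b) := by
  unfold half
  rw [measurable_pi_iff]
  intro j
  by_cases hj : j = i
  · subst hj
    simp only [Function.update_self]
    have : Measurable fun z : Fin n → ℝ => z j := measurable_pi_apply j
    exact (this.add_const b).div_const 2
  · simp only [Function.update_of_ne hj]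
    exact measurable_pi_apply j

theorem c_LipC_half {n d : ℕ} (i : Fin n) {b : ℝ} (hb : b = 0 ∨ b = 1) (k : Fin n → ℝ)
    (Ψ : (Fin n → ℝ) → E d) (h : LipC k Ψ) : LipC (Function.update k i (k i / 2)) (Ψ ∘ half i b) := by
  intro z z' hz hz'
  refine (h _ _ (c_half_mem i hb hz) (c_half_mem i hb hz')).trans (le_of_eq ?_)
  refine Finset.sum_congr rfl fun j _ => ?_
  unfold half
  by_cases hj : j = i
  · subst hj
    rw [Function.update_self, Function.update_self, Function.update_self]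
    have : (z j + b) / 2 - (z' j + b) / 2 = (z j - z' j) / 2 := by ring
    rw [this, abs_div, abs_of_pos (by norm_num : (0 : ℝ) < 2)]; ring
  · rw [Function.update_of_ne hj, Function.update_of_ne hj, Function.update_of_ne hj]

theorem c_disp {n d : ℕ} (i : Fin n) (k : Fin n → ℝ) (hk : ∀ j, 0 < k j) {p : ℝ} (hp : 0 < p)
    (Ψ : (Fin n → ℝ) → E d) (h : LipC k Ψ) (w : ℝ) (hw : w ∈ Icc (0 : ℝ) 1) :
    ∫⁻ z, ENNReal.ofReal (‖Ψ (tauAt i w z) - Ψ z‖ ^ p) ∂(cube n) ≤
      ENNReal.ofReal ((k i) ^ p * |w - 1 / 2| ^ p) := by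
  have h1 : ∫⁻ z, ENNReal.ofReal (‖Ψ (tauAt i w z) - Ψ z‖ ^ p) ∂(cube n) ≤
      ∫⁻ _, ENNReal.ofReal ((k i) ^ p * |w - 1 / 2| ^ p) ∂(cube n) := by
    apply lintegral_mono_ae
    filter_upwards [c_aeInCube n] with z hz
    apply ENNReal.ofReal_le_ofReal
    rw [← Real.mul_rpow (hk i).le (abs_nonneg _)]
    apply Real.rpow_le_rpow (norm_nonneg _) _ hp.le
    refine (h _ _ (c_tauAt_mem i hw hz) hz).trans ?_
    rw [Finset.sum_eq_single i]
    · unfold tauAt
      rw [Function.update_self]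
      exact mul_le_mul_of_nonneg_left (tau_sub_le hw (hz i)) (hk i).le
    · intro j _ hj
      unfold tauAt
      rw [Function.update_of_ne hj]; simp
    · intro hi; exact absurd (Finset.mem_univ i) hi
  rwa [c_lintegral_const] at h1

/-- the product functional -/
noncomputable def PP {n : ℕ} (p : ℝ) (k : Fin n → ℝ) : ℝ := (∏ i, k i) ^ (p / n)

theorem c_PP_pos {n : ℕ} (p : ℝ) (k : Fin n → ℝ) (hk : ∀ j, 0 < k j) : 0 < PP p k := by
  unfold PP
  exact Real.rpow_pos_of_pos (Finset.prod_pos fun j _ => hk j) _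

theorem c_PP_update {n : ℕ} (p : ℝ) (k : Fin n → ℝ) (hk : ∀ j, 0 < k j) (i : Fin n) :
    PP p (Function.update k i (k i / 2)) = 2 ^ (-(p / n)) * PP p k := by
  unfold PP
  have h1 : ∏ x, Function.update k i (k i / 2) x = (1 / 2) * ∏ x, k x := by
    rw [Finset.prod_update_of_mem (Finset.mem_univ i),
      Finset.prod_eq_mul_prod_sdiff_singleton_of_mem (Finset.mem_univ i) k]
    ring
  rw [h1, Real.mul_rpow (by norm_num) (Finset.prod_nonneg fun j _ => (hk j).le), one_div,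
    Real.inv_rpow (by norm_num), ← Real.rpow_neg (by norm_num)]

theorem c_kip {n : ℕ} (hn : 1 ≤ n) {p : ℝ} (hp : 0 < p) (k : Fin n → ℝ) (hk : ∀ j, 0 < k j)
    (i : Fin n) (hb : ∀ j, k i ≤ 2 * k j) : (k i) ^ p ≤ 2 ^ p * PP p k := by
  have hn' : (0 : ℝ) < n := by exact_mod_cast hn
  have h1 : (k i) ^ n ≤ 2 ^ n * ∏ j, k j := by
    calc (k i) ^ n = ∏ _j : Fin n, k i := by simp
      _ ≤ ∏ j : Fin n, (2 * k j) := Finset.prod_le_prod (fun _ _ => (hk i).le) fun j _ => hb j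
      _ = 2 ^ n * ∏ j, k j := by rw [Finset.prod_mul_distrib]; simp
  have h2 : (k i) ^ p = ((k i) ^ n) ^ (p / n) := by
    rw [← Real.rpow_natCast, ← Real.rpow_mul (hk i).le]
    congr 1; field_simp
  have h3 : (2 : ℝ) ^ p = ((2 : ℝ) ^ n) ^ (p / n) := by
    rw [← Real.rpow_natCast, ← Real.rpow_mul (by norm_num)]
    congr 1; field_simp
  unfold PP
  rw [h2, h3, ← Real.mul_rpow (by positivity) (Finset.prod_nonneg fun j _ => (hk j).le)]
  exact Real.rpow_le_rpow (pow_nonneg (hk i).le n) h1 (by positivity)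

theorem c_eta_le {p a : ℝ} (ha : 0 < a) (hap : a ≤ p / 2 - 1) (N : ℕ) :
    eta p N ≤ 2 ^ a * ((N : ℝ) + 1) ^ (-a) := by
  unfold eta
  split_ifs with h
  · positivity
  · have hN : (1 : ℝ) ≤ N := by exact_mod_cast Nat.one_le_iff_ne_zero.mpr h
    have h1 : (N : ℝ) ^ (1 - p / 2) ≤ (N : ℝ) ^ (-a) :=
      Real.rpow_le_rpow_of_exponent_le hN (by linarith)
    have h2 : (2 : ℝ) ^ a * ((N : ℝ) + 1) ^ (-a) = (((N : ℝ) + 1) / 2) ^ (-a) := by
      rw [Real.div_rpow (by positivity) (by norm_num), Real.rpow_neg (by norm_num : (0:ℝ) ≤ 2) a,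
        div_inv_eq_mul, mul_comm]
    rw [h2]
    refine h1.trans ?_
    exact Real.rpow_le_rpow_of_nonpos (by positivity) (by linarith) (by linarith)

theorem c_base {n d : ℕ} (hn : 1 ≤ n) {p : ℝ} (hp : 1 ≤ p) (k : Fin n → ℝ) (hk : ∀ j, 0 < k j)
    (hb : ∀ i j, k i ≤ 2 * k j) (Ψ : (Fin n → ℝ) → E d) (hΨ : Measurable Ψ) (hL : LipC k Ψ)
    (N : ℕ) : G p ((cube n).map Ψ) N ≤ ENNReal.ofReal (PP p k * ((4 * n) ^ p * N)) := by
  have hn' : (0 : ℝ) < n := by exact_mod_cast hn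
  set i0 : Fin n := ⟨0, hn⟩
  have hk0 := hk i0
  have hsum : ∀ z z', InCube z → InCube z' → ‖Ψ z - Ψ z'‖ ≤ n * (2 * k i0) := by
    intro z z' hz hz'
    refine (hL z z' hz hz').trans ?_
    have : ∀ j ∈ (Finset.univ : Finset (Fin n)), k j * |z j - z' j| ≤ 2 * k i0 := by
      intro j _
      have h1 : |z j - z' j| ≤ 1 := by
        have := hz j; have := hz' j
        rw [abs_le]; constructor <;> linarith [this.1, this.2, (hz j).1, (hz j).2]
      calc k j * |z j - z' j| ≤ k j * 1 := mul_le_mul_of_nonneg_left h1 (hk j).le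
        _ ≤ 2 * k i0 := by rw [mul_one]; exact hb j i0
    refine (Finset.sum_le_sum this).trans ?_
    simp
  have hint : ∫⁻ z, ∫⁻ z', ENNReal.ofReal (‖Ψ z - Ψ z'‖ ^ p) ∂(cube n) ∂(cube n) ≤
      ENNReal.ofReal ((n * (2 * k i0)) ^ p) := by
    have : ∫⁻ z, ∫⁻ z', ENNReal.ofReal (‖Ψ z - Ψ z'‖ ^ p) ∂(cube n) ∂(cube n) ≤
        ∫⁻ _, ENNReal.ofReal ((n * (2 * k i0)) ^ p) ∂(cube n) := by
      apply lintegral_mono_ae
      filter_upwards [c_aeInCube n] with z hz
      have h2 : ∫⁻ z', ENNReal.ofReal (‖Ψ z - Ψ z'‖ ^ p) ∂(cube n) ≤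
          ∫⁻ _, ENNReal.ofReal ((n * (2 * k i0)) ^ p) ∂(cube n) := by
        apply lintegral_mono_ae
        filter_upwards [c_aeInCube n] with z' hz'
        exact ENNReal.ofReal_le_ofReal
          (Real.rpow_le_rpow (norm_nonneg _) (hsum z z' hz hz') (by linarith))
      rwa [c_lintegral_const] at h2
    rwa [c_lintegral_const] at this
  refine (G_crude hp Ψ hΨ N).trans ((mul_le_mul_right hint _).trans ?_)
  rw [← ENNReal.ofReal_natCast, ← ENNReal.ofReal_mul (by positivity)]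
  apply ENNReal.ofReal_le_ofReal
  have hki : (k i0) ^ p ≤ 2 ^ p * PP p k := c_kip hn (by linarith) k hk i0 (hb i0)
  have h4 : ((n : ℝ) * (2 * k i0)) ^ p = (2 * n) ^ p * (k i0) ^ p := by
    rw [← Real.mul_rpow (by positivity) hk0.le]; congr 1; ring
  have h5 : ((4 : ℝ) * n) ^ p = (2 * n) ^ p * 2 ^ p := by
    rw [← Real.mul_rpow (by positivity) (by norm_num)]; congr 1; ring
  rw [h4, h5]
  have h6 : (2 * (n : ℝ)) ^ p * (k i0) ^ p ≤ (2 * n) ^ p * (2 ^ p * PP p k) :=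
    mul_le_mul_of_nonneg_left hki (by positivity)
  calc (N : ℝ) * ((2 * n) ^ p * (k i0) ^ p) ≤ N * ((2 * n) ^ p * (2 ^ p * PP p k)) :=
        mul_le_mul_of_nonneg_left h6 (by positivity)
    _ = PP p k * ((2 * n) ^ p * 2 ^ p * N) := by ring

theorem c_claim {n : ℕ} (hn : 1 ≤ n) {p : ℝ} (hp : 1 ≤ p) {a ε C₀ Γ C₁ : ℝ} (ha : 0 < a) (ha1 : a ≤ 1)
    (hap : a ≤ p / 2 - 1) (hε : 0 < ε) (hC₀ : 0 < C₀) (hC₁ : C₁ = (4 * n) ^ p)
    (hθ : (1 + ε) ^ (p - 1) * 2 * 2 ^ (-(p / n)) * 2 ^ a < 1)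
    (hΓ : Γ = (1 + 1 / ε) ^ (p - 1) * C₀ * 2 ^ p * 2 ^ a /
      (1 - (1 + ε) ^ (p - 1) * 2 * 2 ^ (-(p / n)) * 2 ^ a))
    (hG : ∀ (d n : ℕ)
    (Ψ : (Fin n → ℝ) → E d), Measurable Ψ → ∀ (i : Fin n) (L : ℝ), 0 ≤ L →
    (∀ w ∈ Icc (0 : ℝ) 1, ∫⁻ z, ENNReal.ofReal (‖Ψ (tauAt i w z) - Ψ z‖ ^ p) ∂(cube n) ≤
      ENNReal.ofReal (L * |w - 1 / 2| ^ p)) → ∀ (ε : ℝ), 0 < ε → ∀ N : ℕ,
    G p ((cube n).map Ψ) N ≤
      ENNReal.ofReal ((1 + ε) ^ (p - 1)) * bin N (1 / 2) (fun k =>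
        G p ((cube n).map (Ψ ∘ half i 0)) k + G p ((cube n).map (Ψ ∘ half i 1)) k) +
      ENNReal.ofReal ((1 + 1 / ε) ^ (p - 1) * (C₀ * L * eta p N))) (J : ℕ) :
    ∀ (d : ℕ) (k : Fin n → ℝ), (∀ j, 0 < k j) → (∀ i j, k i ≤ 2 * k j) →
      ∀ (Ψ : (Fin n → ℝ) → E d), Measurable Ψ → LipC k Ψ → ∀ N : ℕ,
      G p ((cube n).map Ψ) N ≤ ENNReal.ofReal (PP p k * (Γ * ((N : ℝ) + 1) ^ (-a) +
        C₁ * ((1 + ε) ^ (p - 1) * 2 ^ (-(p / n))) ^ J * N)) := by
  set A := (1 + ε) ^ (p - 1) with hA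
  set B := (1 + 1 / ε) ^ (p - 1) with hB
  have hA0 : 0 < A := Real.rpow_pos_of_pos (by linarith) _
  have hB0 : 0 < B := Real.rpow_pos_of_pos (by positivity) _
  have hn' : (0 : ℝ) < n := by exact_mod_cast hn
  set D : ℝ := 2 ^ (-(p / n)) with hD
  have hD0 : 0 < D := Real.rpow_pos_of_pos (by norm_num) _
  have hC10 : 0 < C₁ := by rw [hC₁]; positivity
  have h1θ : 0 < 1 - A * 2 * D * 2 ^ a := by linarith
  have hΓ0 : 0 < Γ := by rw [hΓ]; positivity
  have hΓeq : A * 2 * D * 2 ^ a * Γ + B * C₀ * 2 ^ p * 2 ^ a = Γ := by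
    rw [hΓ]; field_simp; ring
  induction J with
  | zero =>
    intro d k hk hb Ψ hΨ hL N
    refine (c_base hn hp k hk hb Ψ hΨ hL N).trans ?_
    apply ENNReal.ofReal_le_ofReal
    apply mul_le_mul_of_nonneg_left _ (c_PP_pos p k hk).le
    rw [pow_zero, mul_one, hC₁]
    have : 0 ≤ Γ * ((N : ℝ) + 1) ^ (-a) := by positivity
    linarith
  | succ J ih =>
    intro d k hk hb Ψ hΨ hL N
    -- the largest side
    obtain ⟨i, -, hi⟩ := Finset.exists_max_image (Finset.univ : Finset (Fin n)) k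
      ⟨⟨0, hn⟩, Finset.mem_univ _⟩
    have hk' : ∀ j, 0 < Function.update k i (k i / 2) j := by
      intro j
      by_cases hj : j = i
      · subst hj; rw [Function.update_self]; exact half_pos (hk j)
      · rw [Function.update_of_ne hj]; exact hk j
    have hb' : ∀ u v, Function.update k i (k i / 2) u ≤ 2 * Function.update k i (k i / 2) v := by
      intro u v
      by_cases hu : u = i
      · subst hu
        by_cases hv : v = u
        · subst hv; rw [Function.update_self]; linarith [hk v]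
        · rw [Function.update_self, Function.update_of_ne hv]
          linarith [hb u v, hk u, hk v]
      · by_cases hv : v = i
        · subst hv
          rw [Function.update_self, Function.update_of_ne hu]
          linarith [hi u (Finset.mem_univ _)]
        · rw [Function.update_of_ne hu, Function.update_of_ne hv]; exact hb u v
    have hki : (k i) ^ p ≤ 2 ^ p * PP p k := c_kip hn (by linarith) k hk i (hb i)
    have hP0 := c_PP_pos p k hk
    have hstep := hG d n Ψ hΨ i ((k i) ^ p) (Real.rpow_nonneg (hk i).le _)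
      (fun w hw => c_disp i k hk (by linarith) Ψ hL w hw) ε hε N
    have hchild : ∀ b : ℝ, (b = 0 ∨ b = 1) → ∀ x : ℕ, G p ((cube n).map (Ψ ∘ half i b)) x ≤
        ENNReal.ofReal (D * PP p k * (Γ * ((x : ℝ) + 1) ^ (-a) + C₁ * (A * D) ^ J * x)) := by
      intro b hb2 x
      have := ih d _ hk' hb' (Ψ ∘ half i b) (hΨ.comp (c_measurable_half i b))
        (c_LipC_half i hb2 k Ψ hL) x
      rwa [c_PP_update p k hk i] at this
    have hbin : bin N (1 / 2) (fun k =>
        G p ((cube n).map (Ψ ∘ half i 0)) k + G p ((cube n).map (Ψ ∘ half i 1)) k) ≤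
        ENNReal.ofReal (2 * (D * PP p k) * Γ) * ENNReal.ofReal (2 ^ a * ((N : ℝ) + 1) ^ (-a)) +
        ENNReal.ofReal (2 * (D * PP p k) * (C₁ * (A * D) ^ J)) * ENNReal.ofReal (1 / 2 * N) := by
      have e1 : ∀ x ≤ N, G p ((cube n).map (Ψ ∘ half i 0)) x + G p ((cube n).map (Ψ ∘ half i 1)) x ≤
          ENNReal.ofReal (2 * (D * PP p k) * Γ) * ENNReal.ofReal (((x : ℝ) + 1) ^ (-a)) +
          ENNReal.ofReal (2 * (D * PP p k) * (C₁ * (A * D) ^ J)) * (x : ℝ≥0∞) := by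
        intro x _
        refine (add_le_add (hchild 0 (Or.inl rfl) x) (hchild 1 (Or.inr rfl) x)).trans ?_
        rw [← ENNReal.ofReal_natCast, ← ENNReal.ofReal_mul (by positivity),
          ← ENNReal.ofReal_mul (by positivity), ← ENNReal.ofReal_add (by positivity) (by positivity),
          ← ENNReal.ofReal_add (by positivity) (by positivity)]
        apply ENNReal.ofReal_le_ofReal
        apply le_of_eq; ring
      refine (bin_mono N (1 / 2) e1).trans ?_
      rw [bin_add, bin_const_mul, bin_const_mul, bin_id N (by constructor <;> norm_num)]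
      refine add_le_add_left (mul_le_mul_right ?_ _) _
      refine (bin_rpow N (by constructor <;> norm_num) ha ha1).trans (le_of_eq ?_)
      rw [Real.mul_rpow (by norm_num) (by positivity), one_div, Real.inv_rpow (by norm_num),
        Real.rpow_neg (by norm_num : (0:ℝ) ≤ 2), inv_inv]
    refine hstep.trans ((add_le_add_left (mul_le_mul_right hbin _) _).trans ?_)
    rw [← ENNReal.ofReal_mul (by positivity), ← ENNReal.ofReal_mul (by positivity),
      ← ENNReal.ofReal_add (by positivity) (by positivity), ← ENNReal.ofReal_mul (by positivity)]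
    have heta0 : 0 ≤ eta p N := by unfold eta; split_ifs <;> positivity
    rw [← ENNReal.ofReal_add (by positivity) (by have := hk i; positivity)]
    apply ENNReal.ofReal_le_ofReal
    have heta := c_eta_le ha hap N
    have h7 : B * (C₀ * (k i) ^ p * eta p N) ≤
        B * (C₀ * (2 ^ p * PP p k) * (2 ^ a * ((N : ℝ) + 1) ^ (-a))) := by
      apply mul_le_mul_of_nonneg_left _ hB0.le
      apply mul_le_mul _ heta heta0 (by positivity)
      exact mul_le_mul_of_nonneg_left hki hC₀.le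
    have h8 : PP p k * (Γ * ((N : ℝ) + 1) ^ (-a) + C₁ * (A * D) ^ (J + 1) * N) =
        A * (2 * (D * PP p k) * Γ * (2 ^ a * ((N : ℝ) + 1) ^ (-a)) +
          2 * (D * PP p k) * (C₁ * (A * D) ^ J) * (1 / 2 * N)) +
        B * (C₀ * (2 ^ p * PP p k) * (2 ^ a * ((N : ℝ) + 1) ^ (-a))) := by
      rw [pow_succ]
      linear_combination (-(PP p k * ((N : ℝ) + 1) ^ (-a))) * hΓeq
    rw [h8]
    linarith

theorem stageC (n : ℕ) (hn : 1 ≤ n) (p : ℝ) (hp : (n : ℝ) < p) (h2 : 2 < p) :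
    ∃ a C : ℝ, 0 < a ∧ a ≤ 1 ∧ a ≤ p / 2 - 1 ∧ 0 < C ∧
      ∀ (d : ℕ) (K : ℝ) (Ψ : (Fin n → ℝ) → E d), 0 < K → Measurable Ψ →
        LipC (fun _ => K) Ψ → ∀ N : ℕ,
          G p ((cube n).map Ψ) N ≤ ENNReal.ofReal (C * K ^ p * ((N : ℝ) + 1) ^ (-a)) := by
  obtain ⟨C₀, hC₀, hG⟩ := G_binary p (by linarith)
  have hn' : (0 : ℝ) < n := by exact_mod_cast hn
  set β : ℝ := p / n - 1 with hβ
  have hβ0 : 0 < β := by
    rw [hβ, sub_pos, one_lt_div hn']; exact hp
  set a : ℝ := min 1 (min (p / 2 - 1) (β / 2)) with ha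
  have ha0 : 0 < a := by
    rw [ha]; exact lt_min one_pos (lt_min (by linarith) (by linarith))
  have ha1 : a ≤ 1 := min_le_left _ _
  have ha2 : a ≤ p / 2 - 1 := (min_le_right _ _).trans (min_le_left _ _)
  have ha3 : a ≤ β / 2 := (min_le_right _ _).trans (min_le_right _ _)
  set ε : ℝ := 2 ^ (β / (4 * (p - 1))) - 1 with hε
  have hp1 : 0 < p - 1 := by linarith
  have hε0 : 0 < ε := by
    rw [hε, sub_pos]
    exact Real.one_lt_rpow (by norm_num) (by positivity)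
  have hA : (1 + ε) ^ (p - 1) = 2 ^ (β / 4) := by
    rw [hε, add_sub_cancel, ← Real.rpow_mul (by norm_num)]
    congr 1; field_simp
  have hθ : (1 + ε) ^ (p - 1) * 2 * 2 ^ (-(p / n)) * 2 ^ a < 1 := by
    rw [hA]
    have : (2 : ℝ) ^ (β / 4) * 2 * 2 ^ (-(p / n)) * 2 ^ a = 2 ^ (β / 4 + 1 + (-(p / n)) + a) := by
      rw [Real.rpow_add (by norm_num), Real.rpow_add (by norm_num), Real.rpow_add (by norm_num),
        Real.rpow_one]
    rw [this]
    apply Real.rpow_lt_one_of_one_lt_of_neg (by norm_num)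
    have : p / n = β + 1 := by rw [hβ]; ring
    rw [this]; linarith
  have h1θ : 0 < 1 - (1 + ε) ^ (p - 1) * 2 * 2 ^ (-(p / n)) * 2 ^ a := by linarith
  set Γ : ℝ := (1 + 1 / ε) ^ (p - 1) * C₀ * 2 ^ p * 2 ^ a /
      (1 - (1 + ε) ^ (p - 1) * 2 * 2 ^ (-(p / n)) * 2 ^ a) with hΓ
  have hΓ0 : 0 < Γ := by
    rw [hΓ]
    have : 0 < (1 + 1 / ε) ^ (p - 1) := Real.rpow_pos_of_pos (by positivity) _
    positivity
  refine ⟨a, Γ, ha0, ha1, ha2, hΓ0, ?_⟩
  intro d K Ψ hK hΨ hL N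
  have hcl : ∀ J : ℕ, G p ((cube n).map Ψ) N ≤ ENNReal.ofReal (PP p (fun _ : Fin n => K) *
      (Γ * ((N : ℝ) + 1) ^ (-a) + (4 * n) ^ p * ((1 + ε) ^ (p - 1) * 2 ^ (-(p / n))) ^ J * N)) :=
    fun J => c_claim hn (by linarith) ha0 ha1 ha2 hε0 hC₀ rfl hθ hΓ hG J d (fun _ => K)
      (fun _ => hK) (fun _ _ => by linarith) Ψ hΨ hL N
  have hPP : PP p (fun _ : Fin n => K) = K ^ p := by
    unfold PP
    rw [Finset.prod_const, Finset.card_univ, Fintype.card_fin, ← Real.rpow_natCast,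
      ← Real.rpow_mul hK.le]
    congr 1; field_simp
  rw [hPP] at hcl
  have hδ0 : 0 ≤ (1 + ε) ^ (p - 1) * 2 ^ (-(p / n)) := by
    have : 0 < (1 + ε) ^ (p - 1) := Real.rpow_pos_of_pos (by positivity) _
    positivity
  have hδ1 : (1 + ε) ^ (p - 1) * 2 ^ (-(p / n)) < 1 := by
    have h1 : (1 : ℝ) ≤ 2 ^ a := Real.one_le_rpow (by norm_num) ha0.le
    nlinarith
  have hlim : Tendsto (fun J : ℕ => ENNReal.ofReal (K ^ p *
      (Γ * ((N : ℝ) + 1) ^ (-a) + (4 * n) ^ p * ((1 + ε) ^ (p - 1) * 2 ^ (-(p / n))) ^ J * N)))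
      atTop (𝓝 (ENNReal.ofReal (K ^ p * (Γ * ((N : ℝ) + 1) ^ (-a) + (4 * n) ^ p * 0 * N)))) := by
    apply ENNReal.tendsto_ofReal
    apply Tendsto.const_mul
    apply Tendsto.const_add
    apply Tendsto.mul_const
    apply Tendsto.const_mul
    exact tendsto_pow_atTop_nhds_zero_of_lt_one hδ0 hδ1
  have := ge_of_tendsto' hlim hcl
  refine this.trans (le_of_eq ?_)
  congr 1; ring

end Pool.Agent.Helper764.EW
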