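import Pool.Agent.Helper764.EWBinary

set_option autoImplicit false
open MeasureTheory Filter Topology Set
open scoped ENNReal

namespace Pool.Agent.Helper764.EW.V



/-! ## Proof -/

instance prob01 : IsProbabilityMeasure ((volume : Measure ℝ).restrict (Ioo 0 1)) := ⟨by simp⟩

lemma mp_eval {n : ℕ} (i : Fin n) :
    MeasurePreserving (Function.eval i) (cube n) ((volume : Measure ℝ).restrict (Ioo 0 1)) := by
  unfold cube
  exact measurePreserving_eval (fun _ : Fin n => (volume : Measure ℝ).restrict (Ioo 0 1)) i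

lemma ae_inCube (n : ℕ) : ∀ᵐ z ∂(cube n), InCube z := by
  unfold InCube
  rw [ae_all_iff]
  intro i
  exact (mp_eval i).quasiMeasurePreserving.ae (ae_restrict_mem measurableSet_Ioo)

lemma I_bound (p : ℝ) (hp : 2 < p) : ∃ I : ℝ, 0 < I ∧
    ∫⁻ x in Ioo (0 : ℝ) 1, ENNReal.ofReal ((1 - Real.log x) ^ (p / 2)) ≤ ENNReal.ofReal I := by
  have hint : IntegrableOn (fun x : ℝ => (1 + p) ^ (p / 2) * x ^ (-(1:ℝ)/2)) (Ioo 0 1) := by
    apply Integrable.const_mul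
    have := (intervalIntegral.integrableOn_Ioo_rpow_iff (s := -(1:ℝ)/2) (t := 1) one_pos).mpr (by norm_num)
    exact this
  have hfin := hint.lintegral_lt_top
  refine ⟨(∫⁻ x in Ioo (0:ℝ) 1, ENNReal.ofReal ((1 + p) ^ (p / 2) * x ^ (-(1:ℝ)/2))).toReal + 1, by positivity, ?_⟩
  have h1 : ∫⁻ x in Ioo (0 : ℝ) 1, ENNReal.ofReal ((1 - Real.log x) ^ (p / 2)) ≤
      ∫⁻ x in Ioo (0:ℝ) 1, ENNReal.ofReal ((1 + p) ^ (p / 2) * x ^ (-(1:ℝ)/2)) := by
    apply setLIntegral_mono_ae' measurableSet_Ioo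
    filter_upwards with x hx
    apply ENNReal.ofReal_le_ofReal
    have hx0 : 0 < x := hx.1
    have hlog : Real.log x ≤ 0 := Real.log_nonpos hx.1.le hx.2.le
    have h2 : -Real.log x ≤ (x⁻¹) ^ (1 / p) / (1 / p) := by
      rw [← Real.log_inv]
      exact Real.log_le_rpow_div (by positivity) (by positivity)
    have h3 : 1 ≤ (x⁻¹) ^ (1 / p) := by
      apply Real.one_le_rpow _ (by positivity)
      rw [one_le_inv₀ hx0]; exact hx.2.le
    have h4 : 1 - Real.log x ≤ (1 + p) * (x⁻¹) ^ (1 / p) := by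
      have : (x⁻¹) ^ (1 / p) / (1 / p) = p * (x⁻¹) ^ (1 / p) := by field_simp
      rw [this] at h2
      linarith
    calc (1 - Real.log x) ^ (p / 2) ≤ ((1 + p) * (x⁻¹) ^ (1 / p)) ^ (p / 2) :=
          Real.rpow_le_rpow (by linarith) h4 (by positivity)
      _ = (1 + p) ^ (p / 2) * ((x⁻¹) ^ (1 / p)) ^ (p / 2) := by
          rw [Real.mul_rpow (by positivity) (by positivity)]
      _ = (1 + p) ^ (p / 2) * x ^ (-(1:ℝ)/2) := by
          congr 1
          rw [← Real.rpow_mul (by positivity), Real.inv_rpow hx0.le, ← Real.rpow_neg hx0.le]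
          congr 1
          field_simp
  refine h1.trans ?_
  rw [ENNReal.ofReal_add ENNReal.toReal_nonneg one_pos.le, ENNReal.ofReal_toReal hfin.ne]
  exact le_self_add

lemma half_inCube {n : ℕ} {i : Fin n} {b : ℝ} (hb : b = 0 ∨ b = 1) {z : Fin n → ℝ} (hz : InCube z) :
    InCube (half i b z) := by
  intro j
  unfold half
  by_cases h : j = i
  · subst h
    rw [Function.update_self]
    have := hz j
    rcases hb with rfl | rfl
    · constructor <;> [linarith [this.1]; linarith [this.2]]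
    · constructor <;> [linarith [this.1]; linarith [this.2]]
  · rw [Function.update_of_ne h]
    exact hz j

lemma half_zero {m : ℕ} {j : Fin m} {b : ℝ} (z : Fin (m+1) → ℝ) : half j.succ b z 0 = z 0 := by
  unfold half
  rw [Function.update_of_ne]
  exact (Fin.succ_ne_zero j).symm

lemma half_succ {m : ℕ} {j : Fin m} {b : ℝ} (z : Fin (m+1) → ℝ) (i : Fin m) :
    half j.succ b z i.succ = if i = j then (z j.succ + b) / 2 else z i.succ := by
  unfold half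
  split_ifs with h
  · subst h; rw [Function.update_self]
  · rw [Function.update_of_ne]
    intro h'
    exact h (Fin.succ_injective _ h')

lemma good_half {m d : ℕ} {K : ℝ} {k : Fin m → ℝ} {Ψ : (Fin (m + 1) → ℝ) → E d} (h : Good K k Ψ)
    (j : Fin m) {b : ℝ} (hb : b = 0 ∨ b = 1) : Good K (Function.update k j (k j / 2)) (Ψ ∘ half j.succ b) := by
  refine ⟨?_, ?_, ?_⟩
  · apply h.meas.comp
    unfold half
    rw [measurable_pi_iff]
    intro i
    by_cases hi : i = j.succ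
    · subst hi
      simp only [Function.update_self]
      fun_prop
    · simp only [Function.update_of_ne hi]
      fun_prop
  · intro z z' hz hz' h0
    have h1 := h.V1 (half j.succ b z) (half j.succ b z') (half_inCube hb hz) (half_inCube hb hz')
      (by rw [half_zero, half_zero, h0])
    rw [half_zero] at h1
    refine h1.trans (le_of_eq ?_)
    congr 1
    apply Finset.sum_congr rfl
    intro i _
    rw [half_succ, half_succ]
    split_ifs with hi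
    · subst hi
      rw [Function.update_self]
      have : (z i.succ + b) / 2 - (z' i.succ + b) / 2 = (z i.succ - z' i.succ) / 2 := by ring
      rw [this, abs_div, abs_two]; ring
    · rw [Function.update_of_ne hi]
  · intro z z' hz hz' hs l hl hl'
    have h1 := h.V2 (half j.succ b z) (half j.succ b z') (half_inCube hb hz) (half_inCube hb hz')
      (fun i => by rw [half_succ, half_succ, hs, hs]) l (by rwa [half_zero]) (by rwa [half_zero])
    rw [half_zero, half_zero] at h1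
    exact h1

lemma displ {m d : ℕ} {p : ℝ} (hp : 2 < p) {I : ℝ}
    (hI : ∫⁻ x in Ioo (0 : ℝ) 1, ENNReal.ofReal ((1 - Real.log x) ^ (p / 2)) ≤ ENNReal.ofReal I)
    {K : ℝ} (hK : 0 < K) {k : Fin m → ℝ} (hk : ∀ j, 0 < k j ∧ k j ≤ 1)
    {Ψ : (Fin (m + 1) → ℝ) → E d} (h : Good K k Ψ) (j : Fin m) (w : ℝ) (hw : w ∈ Icc (0:ℝ) 1) :
    ∫⁻ z, ENNReal.ofReal (‖Ψ (tauAt j.succ w z) - Ψ z‖ ^ p) ∂(cube (m + 1)) ≤
      ENNReal.ofReal ((K ^ p * I) * |w - 1 / 2| ^ p) := by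
  have h1 : ∀ᵐ z ∂(cube (m + 1)), ENNReal.ofReal (‖Ψ (tauAt j.succ w z) - Ψ z‖ ^ p) ≤
      ENNReal.ofReal (K ^ p * |w - 1/2| ^ p) * ENNReal.ofReal ((1 - Real.log (z 0)) ^ (p / 2)) := by
    filter_upwards [ae_inCube (m + 1)] with z hz
    have hz0 := hz 0
    have hlog : Real.log (z 0) ≤ 0 := Real.log_nonpos hz0.1.le hz0.2.le
    rw [← ENNReal.ofReal_mul (by positivity)]
    apply ENNReal.ofReal_le_ofReal
    have hcube : InCube (tauAt j.succ w z) := by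
      intro i
      unfold tauAt
      by_cases hi : i = j.succ
      · subst hi
        rw [Function.update_self]
        exact tau_mem hw (hz _)
      · rw [Function.update_of_ne hi]; exact hz i
    have e0 : tauAt j.succ w z 0 = z 0 := by
      unfold tauAt
      rw [Function.update_of_ne (Fin.succ_ne_zero j).symm]
    have h2 := h.V1 (tauAt j.succ w z) z hcube hz e0
    rw [e0] at h2
    have h3 : ∑ i : Fin m, k i * |tauAt j.succ w z i.succ - z i.succ| ≤ |w - 1/2| := by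
      rw [Finset.sum_eq_single j]
      · unfold tauAt
        rw [Function.update_self]
        have h4 := tau_sub_le hw (hz j.succ)
        have h5 := hk j
        calc k j * |tau w (z j.succ) - z j.succ| ≤ 1 * |w - 1/2| := by gcongr; exact h5.2
          _ = _ := one_mul _
      · intro i _ hi
        unfold tauAt
        rw [Function.update_of_ne (fun h' => hi (Fin.succ_injective _ h')), sub_self, abs_zero, mul_zero]
      · intro h'; exact absurd (Finset.mem_univ j) h'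
    have h4 : ‖Ψ (tauAt j.succ w z) - Ψ z‖ ≤ K * Real.sqrt (1 - Real.log (z 0)) * |w - 1/2| :=
      h2.trans (mul_le_mul_of_nonneg_left h3 (by positivity))
    have hpos : 0 ≤ 1 - Real.log (z 0) := by linarith
    calc ‖Ψ (tauAt j.succ w z) - Ψ z‖ ^ p ≤ (K * Real.sqrt (1 - Real.log (z 0)) * |w - 1/2|) ^ p :=
          Real.rpow_le_rpow (norm_nonneg _) h4 (by linarith)
      _ = K ^ p * |w - 1/2| ^ p * (1 - Real.log (z 0)) ^ (p / 2) := by
          rw [Real.mul_rpow (by positivity) (abs_nonneg _), Real.mul_rpow hK.le (Real.sqrt_nonneg _),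
            Real.sqrt_eq_rpow, ← Real.rpow_mul hpos]
          have : (1:ℝ)/2 * p = p / 2 := by ring
          rw [this]; ring
  refine (lintegral_mono_ae h1).trans ?_
  rw [lintegral_const_mul']
  · have h2 : ∫⁻ z, ENNReal.ofReal ((1 - Real.log (z 0)) ^ (p / 2)) ∂(cube (m + 1)) =
        ∫⁻ x in Ioo (0 : ℝ) 1, ENNReal.ofReal ((1 - Real.log x) ^ (p / 2)) := by
      exact (mp_eval (0 : Fin (m+1))).lintegral_comp (f := fun x => ENNReal.ofReal ((1 - Real.log x) ^ (p / 2)))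
        (by fun_prop)
    rw [h2]
    refine (mul_le_mul_right hI _).trans ?_
    rw [← ENNReal.ofReal_mul (by positivity)]
    apply le_of_eq
    congr 1
    ring
  · exact ENNReal.ofReal_ne_top

lemma eta_le {p a : ℝ} (ha : 0 < a) (ha1 : a ≤ 1) (hap : a ≤ p / 2 - 1) (N : ℕ) :
    eta p N ≤ 2 * ((N:ℝ) + 1) ^ (-a) := by
  unfold eta
  split_ifs with h
  · positivity
  · have hN : (1:ℝ) ≤ N := by exact_mod_cast Nat.one_le_iff_ne_zero.mpr h
    have h1 : (N:ℝ) ^ (1 - p/2) ≤ (N:ℝ) ^ (-a) := Real.rpow_le_rpow_of_exponent_le hN (by linarith)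
    have h2 : (N:ℝ) ^ (-a) ≤ (((N:ℝ) + 1) / 2) ^ (-a) :=
      Real.rpow_le_rpow_of_nonpos (by positivity) (by linarith) (by linarith)
    have h3 : (((N:ℝ) + 1) / 2) ^ (-a) = 2 ^ a * ((N:ℝ) + 1) ^ (-a) := by
      rw [Real.div_rpow (by positivity) (by norm_num), Real.rpow_neg (by norm_num : (0:ℝ) ≤ 2)]
      field_simp
    have h4 : (2:ℝ) ^ a ≤ 2 := by
      calc (2:ℝ) ^ a ≤ 2 ^ (1:ℝ) := Real.rpow_le_rpow_of_exponent_le (by norm_num) ha1
        _ = 2 := Real.rpow_one 2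
    have h5 : 0 ≤ ((N:ℝ) + 1) ^ (-a) := by positivity
    nlinarith

/-- one splitting step for functions of the size -/
lemma step_bin {a : ℝ} (ha : 0 < a) (ha1 : a ≤ 1) {x y g u : ℝ} (hx : 0 ≤ x) (hy : 0 ≤ y) (hg : 0 ≤ g) (hu : 0 ≤ u)
    {f0 f1 : ℕ → ℝ≥0∞}
    (h0 : ∀ N : ℕ, f0 N ≤ ENNReal.ofReal (x + y / ((N:ℝ) + 1) + g * N + u * ((N:ℝ) + 1) ^ (-a)))
    (h1 : ∀ N : ℕ, f1 N ≤ ENNReal.ofReal (x + y / ((N:ℝ) + 1) + g * N + u * ((N:ℝ) + 1) ^ (-a))) (N : ℕ) :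
    bin N (1/2) (fun k => f0 k + f1 k) ≤
      ENNReal.ofReal (2 * x + 4 * y / ((N:ℝ) + 1) + g * N + 4 * u * ((N:ℝ) + 1) ^ (-a)) := by
  have e1 : ∀ k : ℕ, f0 k + f1 k ≤ ENNReal.ofReal (2 * x) * 1 + ENNReal.ofReal (2 * y) * ENNReal.ofReal (1 / ((k:ℝ) + 1)) +
      ENNReal.ofReal (2 * g) * (k : ℝ≥0∞) + ENNReal.ofReal (2 * u) * ENNReal.ofReal (((k:ℝ) + 1) ^ (-a)) := by
    intro k
    refine (add_le_add (h0 k) (h1 k)).trans ?_
    have hk : (k : ℝ≥0∞) = ENNReal.ofReal (k:ℝ) := (ENNReal.ofReal_natCast k).symm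
    rw [hk, mul_one, ← ENNReal.ofReal_mul (by positivity), ← ENNReal.ofReal_mul (by positivity),
      ← ENNReal.ofReal_mul (by positivity), ← ENNReal.ofReal_add (by positivity) (by positivity),
      ← ENNReal.ofReal_add (by positivity) (by positivity), ← ENNReal.ofReal_add (by positivity) (by positivity),
      ← ENNReal.ofReal_add (by positivity) (by positivity)]
    apply ENNReal.ofReal_le_ofReal
    apply le_of_eq
    ring
  have hh : ((1:ℝ)/2) ∈ Icc (0:ℝ) 1 := ⟨by norm_num, by norm_num⟩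
  have hh' : ((1:ℝ)/2) ∈ Ioc (0:ℝ) 1 := ⟨by norm_num, by norm_num⟩
  refine (bin_mono N (1/2) (fun k _ => e1 k)).trans ?_
  rw [bin_add, bin_add, bin_add, bin_const_mul, bin_const_mul, bin_const_mul, bin_const_mul, bin_one N hh, bin_id N hh]
  have b2 := bin_inv N hh'
  have b4 := bin_rpow N hh' ha ha1
  have q4 : (1 / 2 * ((N:ℝ) + 1)) ^ (-a) ≤ 2 * ((N:ℝ) + 1) ^ (-a) := by
    rw [Real.mul_rpow (by norm_num) (by positivity)]
    have h3 : ((1:ℝ)/2) ^ (-a) = 2 ^ a := by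
      rw [one_div, Real.inv_rpow (by norm_num), Real.rpow_neg (by norm_num), inv_inv]
    have h4 : (2:ℝ) ^ a ≤ 2 := by
      calc (2:ℝ) ^ a ≤ 2 ^ (1:ℝ) := Real.rpow_le_rpow_of_exponent_le (by norm_num) ha1
        _ = 2 := Real.rpow_one 2
    rw [h3]
    gcongr
  have b4' := b4.trans (ENNReal.ofReal_le_ofReal q4)
  calc _ ≤ ENNReal.ofReal (2 * x) * 1 + ENNReal.ofReal (2 * y) * ENNReal.ofReal (1 / (1 / 2 * ((N:ℝ) + 1))) +
      ENNReal.ofReal (2 * g) * ENNReal.ofReal (1 / 2 * (N:ℝ)) + ENNReal.ofReal (2 * u) * ENNReal.ofReal (2 * ((N:ℝ) + 1) ^ (-a)) := by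
        gcongr
    _ = _ := by
        rw [mul_one, ← ENNReal.ofReal_mul (by positivity), ← ENNReal.ofReal_mul (by positivity),
          ← ENNReal.ofReal_mul (by positivity), ← ENNReal.ofReal_add (by positivity) (by positivity),
          ← ENNReal.ofReal_add (by positivity) (by positivity), ← ENNReal.ofReal_add (by positivity) (by positivity)]
        congr 1
        field_simp
        ring

lemma claim {m : ℕ} (hm : 1 ≤ m) {p : ℝ} (hp : 2 < p) {C₀ : ℝ} (hC₀ : 0 < C₀)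
    (hG : ∀ (d n : ℕ)
    (Ψ : (Fin n → ℝ) → E d), Measurable Ψ → ∀ (i : Fin n) (L : ℝ), 0 ≤ L →
    (∀ w ∈ Icc (0 : ℝ) 1, ∫⁻ z, ENNReal.ofReal (‖Ψ (tauAt i w z) - Ψ z‖ ^ p) ∂(cube n) ≤
      ENNReal.ofReal (L * |w - 1 / 2| ^ p)) → ∀ (ε : ℝ), 0 < ε → ∀ N : ℕ,
    G p ((cube n).map Ψ) N ≤
      ENNReal.ofReal ((1 + ε) ^ (p - 1)) * bin N (1 / 2) (fun k =>
        G p ((cube n).map (Ψ ∘ half i 0)) k + G p ((cube n).map (Ψ ∘ half i 1)) k) +
      ENNReal.ofReal ((1 + 1 / ε) ^ (p - 1) * (C₀ * L * eta p N)))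
    {I : ℝ} (hI0 : 0 < I) (hI : ∫⁻ x in Ioo (0 : ℝ) 1, ENNReal.ofReal ((1 - Real.log x) ^ (p / 2)) ≤ ENNReal.ofReal I)
    {a : ℝ} (ha : 0 < a) (ha1 : a ≤ 1) (hap : a ≤ p / 2 - 1) {d : ℕ} {K : ℝ} (hK : 0 < K) {κ : ℝ} (hκ : 0 < κ)
    {α β γ : ℝ} (hα : 0 ≤ α) (hβ : 0 ≤ β) (hγ : 0 ≤ γ) {ε : ℝ} (hε : 0 < ε)
    (hbase : ∀ (k : Fin m → ℝ) (Ψ : (Fin (m + 1) → ℝ) → E d), (∀ j, 0 < k j ∧ k j ≤ κ) →
        Good K k Ψ → ∀ N : ℕ,
          G p ((cube (m + 1)).map Ψ) N ≤ ENNReal.ofReal (α + β / ((N : ℝ) + 1) + γ * N)) (J : ℕ) :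
    ∀ (k : Fin m → ℝ) (Ψ : (Fin (m + 1) → ℝ) → E d), (∀ j, 0 < k j ∧ k j ≤ 1) → (∀ i j, k i ≤ 2 * k j) →
      (∏ j, k j ≤ 2 ^ J * (κ / 2) ^ m) → Good K k Ψ → ∀ N : ℕ,
      G p ((cube (m + 1)).map Ψ) N ≤ ENNReal.ofReal
        (((1 + ε) ^ (p - 1)) ^ J * 2 ^ J * α + ((1 + ε) ^ (p - 1)) ^ J * 4 ^ J * β / ((N:ℝ) + 1) +
          ((1 + ε) ^ (p - 1)) ^ J * γ * N +
          (2 * (1 + 1/ε) ^ (p - 1) * C₀ * (K ^ p * I) * ((4 * (1 + ε) ^ (p - 1)) ^ J - 1)) * ((N:ℝ) + 1) ^ (-a)) := by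
  set A : ℝ := (1 + ε) ^ (p - 1) with hA
  have hA1 : 1 ≤ A := Real.one_le_rpow (by linarith) (by linarith)
  set B : ℝ := (1 + 1/ε) ^ (p - 1) with hB
  have hB0 : 0 < B := by positivity
  have hKp : 0 < K ^ p := by positivity
  induction J with
  | zero =>
    intro k Ψ hk hbal hprod hgood N
    have hkk : ∀ j, 0 < k j ∧ k j ≤ κ := by
      intro j
      refine ⟨(hk j).1, ?_⟩
      by_contra hlt
      push Not at hlt
      have h1 : (κ/2) ^ m < ∏ i, k i := by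
        have h2 : ∏ _i : Fin m, (κ/2) < ∏ i, k i := by
          apply Finset.prod_lt_prod_of_nonempty
          · intro i _; positivity
          · intro i _
            have := hbal j i
            linarith
          · exact ⟨j, Finset.mem_univ _⟩
        rw [Finset.prod_const, Finset.card_univ, Fintype.card_fin] at h2
        exact h2
      rw [pow_zero, one_mul] at hprod
      linarith
    have := hbase k Ψ hkk hgood N
    simpa using this
  | succ J ih =>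
    intro k Ψ hk hbal hprod hgood N
    have : Nonempty (Fin m) := ⟨⟨0, hm⟩⟩
    obtain ⟨j, hj⟩ := Finite.exists_max k
    set k' : Fin m → ℝ := Function.update k j (k j / 2) with hk'
    have hk'j : k' j = k j / 2 := Function.update_self _ _ _
    have hk'i : ∀ i, i ≠ j → k' i = k i := fun i hi => Function.update_of_ne hi _ _
    have c1 : ∀ i, 0 < k' i ∧ k' i ≤ 1 := by
      intro i
      by_cases hi : i = j
      · rw [hi, hk'j]
        have := hk j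
        constructor <;> linarith
      · rw [hk'i i hi]; exact hk i
    have c2 : ∀ i l, k' i ≤ 2 * k' l := by
      intro i l
      by_cases hi : i = j <;> by_cases hl : l = j
      · rw [hi, hl]; linarith [(c1 j).1]
      · rw [hi, hk'j, hk'i l hl]
        have := hbal j l
        linarith [(hk j).1, (hk l).1]
      · rw [hl, hk'j, hk'i i hi]
        have := hj i
        linarith
      · rw [hk'i i hi, hk'i l hl]; exact hbal i l
    have c3 : ∏ i, k' i ≤ 2 ^ J * (κ / 2) ^ m := by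
      have h1 : ∏ i, k' i = (∏ i, k i) / 2 := by
        rw [hk', Finset.prod_update_of_mem (Finset.mem_univ j), ← Finset.mul_prod_erase Finset.univ k (Finset.mem_univ j)]
        rw [Finset.sdiff_singleton_eq_erase]
        ring
      rw [h1, div_le_iff₀ (by norm_num)]
      refine hprod.trans (le_of_eq ?_)
      rw [pow_succ]; ring
    have g0 := ih k' (Ψ ∘ half j.succ 0) c1 c2 c3 (good_half hgood j (Or.inl rfl))
    have g1 := ih k' (Ψ ∘ half j.succ 1) c1 c2 c3 (good_half hgood j (Or.inr rfl))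
    have hU : 0 ≤ 2 * B * C₀ * (K ^ p * I) * ((4 * A) ^ J - 1) := by
      have : 1 ≤ (4 * A) ^ J := one_le_pow₀ (by linarith)
      have : 0 ≤ (4 * A) ^ J - 1 := by linarith
      positivity
    have hA0 : 0 < A := by linarith
    have s1 := step_bin ha ha1 (x := A ^ J * 2 ^ J * α) (y := A ^ J * 4 ^ J * β) (g := A ^ J * γ)
      (u := 2 * B * C₀ * (K ^ p * I) * ((4 * A) ^ J - 1)) (by positivity) (by positivity) (by positivity) hU g0 g1 N
    have s2 := hG d (m+1) Ψ hgood.meas j.succ (K ^ p * I) (by positivity)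
      (fun w hw => displ hp hI hK hk hgood j w hw) ε hε N
    refine s2.trans ?_
    have he := eta_le (p := p) ha ha1 hap N
    have hNa : 0 ≤ ((N:ℝ) + 1) ^ (-a) := by positivity
    have heta : 0 ≤ eta p N := by unfold eta; split_ifs <;> positivity
    calc ENNReal.ofReal A * bin N (1 / 2) (fun k =>
        G p ((cube (m+1)).map (Ψ ∘ half j.succ 0)) k + G p ((cube (m+1)).map (Ψ ∘ half j.succ 1)) k) +
      ENNReal.ofReal (B * (C₀ * (K ^ p * I) * eta p N))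
        ≤ ENNReal.ofReal A * ENNReal.ofReal (2 * (A ^ J * 2 ^ J * α) + 4 * (A ^ J * 4 ^ J * β) / ((N:ℝ) + 1) +
            (A ^ J * γ) * N + 4 * (2 * B * C₀ * (K ^ p * I) * ((4 * A) ^ J - 1)) * ((N:ℝ) + 1) ^ (-a)) +
          ENNReal.ofReal (B * (C₀ * (K ^ p * I) * (2 * ((N:ℝ) + 1) ^ (-a)))) := by gcongr
      _ ≤ _ := by
        rw [← ENNReal.ofReal_mul hA0.le, ← ENNReal.ofReal_add (by positivity) (by positivity)]
        apply ENNReal.ofReal_le_ofReal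
        have key : A * (4 * (2 * B * C₀ * (K ^ p * I) * ((4 * A) ^ J - 1))) + B * (C₀ * (K ^ p * I) * 2) ≤
            2 * B * C₀ * (K ^ p * I) * ((4 * A) ^ (J + 1) - 1) := by
          have h5 : 0 ≤ B * C₀ * (K ^ p * I) := by positivity
          rw [pow_succ]
          nlinarith
        have key2 := mul_le_mul_of_nonneg_right key hNa
        have e1 : A ^ (J+1) * 2 ^ (J+1) * α = A * (2 * (A ^ J * 2 ^ J * α)) := by rw [pow_succ, pow_succ]; ring
        have e2 : A ^ (J+1) * 4 ^ (J+1) * β / ((N:ℝ) + 1) = A * (4 * (A ^ J * 4 ^ J * β) / ((N:ℝ) + 1)) := by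
          rw [pow_succ, pow_succ]; ring
        have e3 : A ^ (J+1) * γ * N = A * ((A ^ J * γ) * N) := by rw [pow_succ]; ring
        rw [e1, e2, e3]
        nlinarith [key2]


theorem stageV (m : ℕ) (hm : 1 ≤ m) (p : ℝ) (hp : 2 < p) :
    ∃ C c : ℝ, 0 < C ∧ 0 < c ∧ ∀ (a : ℝ), 0 < a → a ≤ 1 → a ≤ p / 2 - 1 →
      ∀ (d : ℕ) (K : ℝ) (Λ : ℕ) (α β γ : ℝ), 0 < K → 0 ≤ α → 0 ≤ β → 0 ≤ γ →
      (∀ (k : Fin m → ℝ) (Ψ : (Fin (m + 1) → ℝ) → E d), (∀ j, 0 < k j ∧ k j ≤ 1 / (1 + (Λ : ℝ))) →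
        Good K k Ψ → ∀ N : ℕ,
          G p ((cube (m + 1)).map Ψ) N ≤ ENNReal.ofReal (α + β / ((N : ℝ) + 1) + γ * N)) →
      ∀ Ψ : (Fin (m + 1) → ℝ) → E d, Good K (fun _ => 1) Ψ → ∀ N : ℕ,
        G p ((cube (m + 1)).map Ψ) N ≤ ENNReal.ofReal (C * ((1 + (Λ : ℝ)) ^ m * α +
          (1 + (Λ : ℝ)) ^ (2 * m) * β / ((N : ℝ) + 1) + γ * N +
          K ^ p * (1 + (Λ : ℝ)) ^ c * ((N : ℝ) + 1) ^ (-a))) := by
  obtain ⟨C₀, hC₀, hG⟩ := G_binary p (by linarith)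
  obtain ⟨I, hI0, hI⟩ := I_bound p hp
  have hm0 : (0:ℝ) < m := by exact_mod_cast hm
  refine ⟨Real.exp (p - 1) * 4 ^ (m + 1) * (1 + 2 * 2 ^ ((m + 1 : ℝ) * (p - 1)) * C₀ * I),
    m * (p - 1) + 2 * m, by positivity, by nlinarith, ?_⟩
  intro a ha ha1 hap d K Λ α β γ hK hα hβ hγ hbase Ψ hΨ N
  -- number of splits
  set Q : ℕ := (2 * (1 + Λ)) ^ m with hQ
  have hQ2 : 2 ≤ Q := by
    calc 2 = 2 ^ 1 := rfl
      _ ≤ (2 * (1 + Λ)) ^ 1 := by gcongr; omega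
      _ ≤ Q := Nat.pow_le_pow_right (by omega) hm
  set J := Nat.clog 2 Q with hJ
  have hJ1 : 1 ≤ J := Nat.clog_pos (by norm_num) hQ2
  have hJup : Q ≤ 2 ^ J := Nat.le_pow_clog (by norm_num) Q
  have hJlow : 2 ^ J ≤ 2 * Q := by
    have := Nat.pow_pred_clog_lt_self (b := 2) (by norm_num) (x := Q) (by omega)
    have h2 : 2 ^ J = 2 * 2 ^ (J - 1) := by
      rw [← pow_succ']; congr 1; omega
    rw [h2]
    have h3 : 2 ^ (J - 1) < Q := this
    omega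
  have hΛ0 : (0:ℝ) < 1 + (Λ:ℝ) := by positivity
  have hΛ1 : (1:ℝ) ≤ 1 + (Λ:ℝ) := by have : (0:ℝ) ≤ Λ := Nat.cast_nonneg _; linarith
  have hJ0 : (0:ℝ) < J := by exact_mod_cast hJ1
  have hQr : (Q:ℝ) = 2 ^ m * (1 + (Λ:ℝ)) ^ m := by rw [hQ]; push_cast; rw [mul_pow]
  have hJupr : (2:ℝ) ^ m * (1 + (Λ:ℝ)) ^ m ≤ 2 ^ J := by rw [← hQr]; exact_mod_cast hJup
  have hJlowr : (2:ℝ) ^ J ≤ 2 ^ (m+1) * (1 + (Λ:ℝ)) ^ m := by
    have : (2:ℝ) ^ J ≤ 2 * (Q:ℝ) := by exact_mod_cast hJlow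
    rw [hQr] at this
    rw [pow_succ]; linarith
  have hcl := claim hm hp hC₀ hG hI0 hI ha ha1 hap (d := d) hK (κ := 1 / (1 + (Λ:ℝ))) (by positivity) hα hβ hγ
    (ε := 1 / J) (by positivity) hbase J (fun _ => 1) Ψ (fun _ => ⟨one_pos, le_rfl⟩) (fun _ _ => by norm_num)
    (by
      simp only [Finset.prod_const_one]
      rw [div_div, one_div, inv_pow, ← div_eq_mul_inv, one_le_div (by positivity), mul_pow]
      linarith) hΨ N
  refine hcl.trans (ENNReal.ofReal_le_ofReal ?_)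
  set A : ℝ := (1 + 1 / (J:ℝ)) ^ (p - 1) with hA
  have hA1 : 1 ≤ A := Real.one_le_rpow (by have : 0 < 1 / (J:ℝ) := by positivity
                                           linarith) (by linarith)
  have hAJ : A ^ J ≤ Real.exp (p - 1) := by
    rw [hA, ← Real.rpow_natCast, ← Real.rpow_mul (by positivity), mul_comm (p-1) (J:ℝ), Real.rpow_mul (by positivity)]
    have h1 : (1 + 1 / (J:ℝ)) ^ (J:ℝ) ≤ Real.exp 1 := by
      calc (1 + 1 / (J:ℝ)) ^ (J:ℝ) ≤ (Real.exp (1 / (J:ℝ))) ^ (J:ℝ) := by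
            apply Real.rpow_le_rpow (by positivity) _ (by positivity)
            have := Real.add_one_le_exp (1 / (J:ℝ))
            linarith
        _ = Real.exp 1 := by
            rw [← Real.exp_mul]; congr 1; field_simp
    calc ((1 + 1 / (J:ℝ)) ^ (J:ℝ)) ^ (p - 1) ≤ (Real.exp 1) ^ (p - 1) :=
          Real.rpow_le_rpow (by positivity) h1 (by linarith)
      _ = Real.exp (p - 1) := by rw [← Real.exp_mul, one_mul]
  have hB : (1 + 1 / (1 / (J:ℝ))) ^ (p - 1) ≤ 2 ^ ((m + 1 : ℝ) * (p - 1)) * (1 + (Λ:ℝ)) ^ ((m:ℝ) * (p - 1)) := by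
    have h1 : 1 + 1 / (1 / (J:ℝ)) ≤ 2 ^ (m+1) * (1 + (Λ:ℝ)) ^ m := by
      refine le_trans ?_ hJlowr
      rw [one_div_one_div]
      have : J + 1 ≤ 2 ^ J := Nat.lt_two_pow_self
      have : ((J + 1 : ℕ) : ℝ) ≤ ((2 ^ J : ℕ) : ℝ) := by exact_mod_cast this
      push_cast at this
      linarith
    calc (1 + 1 / (1 / (J:ℝ))) ^ (p - 1) ≤ (2 ^ (m+1) * (1 + (Λ:ℝ)) ^ m) ^ (p - 1) :=
          Real.rpow_le_rpow (by positivity) h1 (by linarith)
      _ = _ := by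
          rw [Real.mul_rpow (by positivity) (by positivity), ← Real.rpow_natCast, ← Real.rpow_mul (by norm_num),
            ← Real.rpow_natCast, ← Real.rpow_mul (by positivity)]
          push_cast
          rfl
  have h4J : (4:ℝ) ^ J ≤ 4 ^ (m+1) * (1 + (Λ:ℝ)) ^ (2 * m) := by
    have e : (4:ℝ) ^ J = (2 ^ J) ^ 2 := by rw [← pow_mul, mul_comm, pow_mul]; norm_num
    have e2 : (4:ℝ) ^ (m+1) * (1 + (Λ:ℝ)) ^ (2 * m) = (2 ^ (m+1) * (1 + (Λ:ℝ)) ^ m) ^ 2 := by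
      rw [mul_pow, ← pow_mul, ← pow_mul, mul_comm (m+1) 2, pow_mul 2 2 (m+1), mul_comm m 2]; norm_num
    rw [e, e2]
    gcongr
  have h2J : (2:ℝ) ^ J ≤ 4 ^ (m+1) * (1 + (Λ:ℝ)) ^ m := by
    refine hJlowr.trans ?_
    have : (2:ℝ) ^ (m+1) ≤ 4 ^ (m+1) := by gcongr; norm_num
    gcongr
  set W : ℝ := 1 + 2 * 2 ^ ((m + 1 : ℝ) * (p - 1)) * C₀ * I with hW
  have hW1 : 1 ≤ W := by
    have : 0 ≤ 2 * 2 ^ ((m + 1 : ℝ) * (p - 1)) * C₀ * I := by positivity
    linarith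
  have hA0 : 0 ≤ A := by linarith
  have hexp : 0 < Real.exp (p - 1) := Real.exp_pos _
  have h4 : (1:ℝ) ≤ 4 ^ (m+1) := one_le_pow₀ (by norm_num)
  have t1 : A ^ J * 2 ^ J * α ≤ (Real.exp (p - 1) * 4 ^ (m + 1) * W) * ((1 + (Λ:ℝ)) ^ m * α) := by
    calc A ^ J * 2 ^ J * α ≤ Real.exp (p - 1) * (4 ^ (m+1) * (1 + (Λ:ℝ)) ^ m) * α := by gcongr
      _ = (Real.exp (p - 1) * 4 ^ (m + 1)) * ((1 + (Λ:ℝ)) ^ m * α) * 1 := by ring
      _ ≤ (Real.exp (p - 1) * 4 ^ (m + 1)) * ((1 + (Λ:ℝ)) ^ m * α) * W := by gcongr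
      _ = _ := by ring
  have hN0 : (0:ℝ) < (N:ℝ) + 1 := by positivity
  have t2 : A ^ J * 4 ^ J * β / ((N:ℝ) + 1) ≤
      (Real.exp (p - 1) * 4 ^ (m + 1) * W) * ((1 + (Λ:ℝ)) ^ (2 * m) * β / ((N:ℝ) + 1)) := by
    calc A ^ J * 4 ^ J * β / ((N:ℝ) + 1) ≤ Real.exp (p - 1) * (4 ^ (m+1) * (1 + (Λ:ℝ)) ^ (2 * m)) * β / ((N:ℝ) + 1) := by gcongr
      _ = (Real.exp (p - 1) * 4 ^ (m + 1)) * ((1 + (Λ:ℝ)) ^ (2 * m) * β / ((N:ℝ) + 1)) * 1 := by ring
      _ ≤ (Real.exp (p - 1) * 4 ^ (m + 1)) * ((1 + (Λ:ℝ)) ^ (2 * m) * β / ((N:ℝ) + 1)) * W := by gcongr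
      _ = _ := by ring
  have t3 : A ^ J * γ * N ≤ (Real.exp (p - 1) * 4 ^ (m + 1) * W) * (γ * N) := by
    calc A ^ J * γ * N ≤ Real.exp (p - 1) * γ * N := by gcongr
      _ = (Real.exp (p - 1) * 1 * 1) * (γ * N) := by ring
      _ ≤ (Real.exp (p - 1) * 4 ^ (m + 1) * W) * (γ * N) := by gcongr
  have t4 : 2 * (1 + 1 / (1 / (J:ℝ))) ^ (p - 1) * C₀ * (K ^ p * I) * ((4 * A) ^ J - 1) ≤
      (Real.exp (p - 1) * 4 ^ (m + 1) * W) * (K ^ p * (1 + (Λ:ℝ)) ^ ((m:ℝ) * (p - 1) + 2 * m)) := by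
    have hKp : 0 < K ^ p := by positivity
    have e1 : (4 * A) ^ J - 1 ≤ 4 ^ (m+1) * (1 + (Λ:ℝ)) ^ (2 * m) * Real.exp (p - 1) := by
      rw [mul_pow]
      have : 4 ^ J * A ^ J ≤ 4 ^ (m+1) * (1 + (Λ:ℝ)) ^ (2 * m) * Real.exp (p - 1) := by gcongr
      linarith
    have e2 : (0:ℝ) ≤ (4 * A) ^ J - 1 := by
      have : 1 ≤ (4 * A) ^ J := one_le_pow₀ (by linarith)
      linarith
    have e3 : (1 + (Λ:ℝ)) ^ ((m:ℝ) * (p - 1) + 2 * m) = (1 + (Λ:ℝ)) ^ ((m:ℝ) * (p - 1)) * (1 + (Λ:ℝ)) ^ (2 * m) := by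
      rw [Real.rpow_add hΛ0]
      congr 1
      rw [← Real.rpow_natCast]; push_cast; rfl
    calc 2 * (1 + 1 / (1 / (J:ℝ))) ^ (p - 1) * C₀ * (K ^ p * I) * ((4 * A) ^ J - 1)
        ≤ 2 * (2 ^ ((m + 1 : ℝ) * (p - 1)) * (1 + (Λ:ℝ)) ^ ((m:ℝ) * (p - 1))) * C₀ * (K ^ p * I) *
          (4 ^ (m+1) * (1 + (Λ:ℝ)) ^ (2 * m) * Real.exp (p - 1)) := by gcongr
      _ = (Real.exp (p - 1) * 4 ^ (m + 1) * (2 * 2 ^ ((m + 1 : ℝ) * (p - 1)) * C₀ * I)) *
          (K ^ p * ((1 + (Λ:ℝ)) ^ ((m:ℝ) * (p - 1)) * (1 + (Λ:ℝ)) ^ (2 * m))) := by ring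
      _ ≤ _ := by
          rw [e3]
          gcongr
          rw [hW]; linarith
  have hNa : 0 ≤ ((N:ℝ) + 1) ^ (-a) := by positivity
  have t5 := mul_le_mul_of_nonneg_right t4 hNa
  rw [mul_add, mul_add, mul_add]
  have e5 : (Real.exp (p - 1) * 4 ^ (m + 1) * W) * (K ^ p * (1 + (Λ:ℝ)) ^ ((m:ℝ) * (p - 1) + 2 * m) * ((N:ℝ) + 1) ^ (-a)) =
    (Real.exp (p - 1) * 4 ^ (m + 1) * W) * (K ^ p * (1 + (Λ:ℝ)) ^ ((m:ℝ) * (p - 1) + 2 * m)) * ((N:ℝ) + 1) ^ (-a) := by ring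
  rw [e5]
  linarith

end Pool.Agent.Helper764.EW.V
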