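import Pool.Agent.Helper764.EWCube

set_option autoImplicit false
open MeasureTheory Filter Topology Set
open scoped ENNReal

namespace Pool.Agent.Helper764.EW

theorem tau_le {w x : ℝ} (h : x ≤ w) : tau w x = x / (2 * w) := if_pos h

theorem tau_gt {w x : ℝ} (h : w < x) : tau w x = 1 / 2 + (x - w) / (2 * (1 - w)) :=
  if_neg (not_le.mpr h)

theorem tau_mem_low {w x : ℝ} (hx : x ∈ Ioo (0 : ℝ) 1) (h : x ≤ w) :
    0 < tau w x ∧ tau w x ≤ 1 / 2 := by
  have hw : 0 < w := lt_of_lt_of_le hx.1 h
  rw [tau_le h]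
  refine ⟨div_pos hx.1 (by linarith), ?_⟩
  rw [div_le_div_iff₀ (by linarith) (by norm_num)]
  linarith

theorem tau_mem_high {w x : ℝ} (hx : x ∈ Ioo (0 : ℝ) 1) (h : w < x) :
    1 / 2 < tau w x ∧ tau w x < 1 := by
  have hw : 0 < 1 - w := by linarith [hx.2]
  rw [tau_gt h]
  refine ⟨?_, ?_⟩
  · have : 0 < (x - w) / (2 * (1 - w)) := div_pos (by linarith) (by linarith)
    linarith
  · have : (x - w) / (2 * (1 - w)) < 1 / 2 := by
      rw [div_lt_div_iff₀ (by linarith) (by norm_num)]
      linarith [hx.2]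
    linarith

theorem tau_mem {w x : ℝ} (hw : w ∈ Icc (0 : ℝ) 1) (hx : x ∈ Ioo (0 : ℝ) 1) :
    tau w x ∈ Ioo (0 : ℝ) 1 := by
  rcases le_or_gt x w with h | h
  · have := tau_mem_low hx h
    exact ⟨this.1, by linarith [this.2]⟩
  · have := tau_mem_high hx h
    exact ⟨by linarith [this.1], this.2⟩

theorem tau_sub_le {w x : ℝ} (hw : w ∈ Icc (0 : ℝ) 1) (hx : x ∈ Ioo (0 : ℝ) 1) :
    |tau w x - x| ≤ |w - 1 / 2| := by
  rcases le_or_gt x w with h | h
  · have hw' : 0 < w := lt_of_lt_of_le hx.1 h
    have e : tau w x - x = (x / w) * (1 / 2 - w) := by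
      rw [tau_le h]; field_simp
    have h1 : 0 ≤ x / w := (div_pos hx.1 hw').le
    have h2 : x / w ≤ 1 := by rw [div_le_one hw']; exact h
    rw [e, abs_mul, abs_of_nonneg h1, abs_sub_comm (1 / 2) w]
    exact mul_le_of_le_one_left (abs_nonneg _) h2
  · have hw' : 0 < 1 - w := by linarith [hx.2]
    have e : tau w x - x = (1 - (x - w) / (1 - w)) * (1 / 2 - w) := by
      rw [tau_gt h]; field_simp; ring
    have h1 : 0 ≤ 1 - (x - w) / (1 - w) := by
      have : (x - w) / (1 - w) ≤ 1 := by rw [div_le_one hw']; linarith [hx.2]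
      linarith
    have h2 : 1 - (x - w) / (1 - w) ≤ 1 := by
      have : 0 ≤ (x - w) / (1 - w) := div_nonneg (by linarith) hw'.le
      linarith
    rw [e, abs_mul, abs_of_nonneg h1, abs_sub_comm (1 / 2) w]
    exact mul_le_of_le_one_left (abs_nonneg _) h2

theorem measurable_tau (w : ℝ) : Measurable (tau w) := by
  unfold tau
  refine Measurable.ite measurableSet_Iic ?_ ?_
  · fun_prop
  · fun_prop

theorem abs_log_sub_le {m a b : ℝ} (hm : 0 < m) (ha : m ≤ a) (hb : m ≤ b) :
    |Real.log a - Real.log b| ≤ |a - b| / m := by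
  wlog hab : b ≤ a generalizing a b with H
  · rw [abs_sub_comm, abs_sub_comm a b]
    exact H hb ha (le_of_lt (not_le.mp hab))
  have ha0 : 0 < a := by linarith
  have hb0 : 0 < b := by linarith
  rw [← Real.log_div ha0.ne' hb0.ne']
  have h1 : 0 ≤ Real.log (a / b) := Real.log_nonneg (by rw [one_le_div hb0]; exact hab)
  rw [abs_of_nonneg h1, abs_of_nonneg (by linarith : 0 ≤ a - b)]
  have h2 : Real.log (a / b) ≤ a / b - 1 := Real.log_le_sub_one_of_pos (by positivity)
  have h3 : a / b - 1 = (a - b) / b := by field_simp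
  rw [h3] at h2
  refine h2.trans ?_
  exact div_le_div_of_nonneg_left (by linarith) hm hb

theorem lint_log_fin (p : ℝ) (hp : 1 ≤ p) :
    ∫⁻ x in Ioo (0 : ℝ) 1, ENNReal.ofReal ((1 + |Real.log x|) ^ p) < ∞ := by
  have hint : IntegrableOn (fun x : ℝ => x ^ (-(1 / 2) : ℝ)) (Ioo (0 : ℝ) 1) :=
    (intervalIntegral.integrableOn_Ioo_rpow_iff zero_lt_one).2 (by norm_num)
  have hp0 : 0 < p := by linarith
  have hint2 : IntegrableOn (fun x : ℝ => (1 + 2 * p) ^ p * x ^ (-(1 / 2) : ℝ)) (Ioo (0 : ℝ) 1) :=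
    hint.const_mul _
  refine lt_of_le_of_lt (b := ∫⁻ x in Ioo (0 : ℝ) 1,
    ENNReal.ofReal ((1 + 2 * p) ^ p * x ^ (-(1 / 2) : ℝ))) ?_ ?_
  · refine setLIntegral_mono' measurableSet_Ioo ?_
    intro x hx
    refine ENNReal.ofReal_le_ofReal ?_
    have hx0 := hx.1
    have hx1 := hx.2
    have ht : (0 : ℝ) < 1 / (2 * p) := by positivity
    have h1 := Real.abs_log_mul_self_rpow_lt x (1 / (2 * p)) hx0 hx1.le ht
    have h2 : 0 < x ^ (1 / (2 * p)) := Real.rpow_pos_of_pos hx0 _
    have h3 : |Real.log x| ≤ 2 * p * x ^ (-(1 / (2 * p))) := by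
      rw [abs_mul, abs_of_pos h2] at h1
      rw [Real.rpow_neg hx0.le]
      have h4 : 1 / (1 / (2 * p)) = 2 * p := by field_simp
      rw [h4] at h1
      rw [← div_eq_mul_inv, le_div_iff₀ h2]
      exact h1.le
    have h5 : 1 ≤ x ^ (-(1 / (2 * p))) :=
      Real.one_le_rpow_of_pos_of_le_one_of_nonpos hx0 hx1.le (by linarith)
    have h6 : 1 + |Real.log x| ≤ (1 + 2 * p) * x ^ (-(1 / (2 * p))) := by
      nlinarith
    calc (1 + |Real.log x|) ^ p ≤ ((1 + 2 * p) * x ^ (-(1 / (2 * p)))) ^ p :=
          Real.rpow_le_rpow (by positivity) h6 hp0.le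
      _ = (1 + 2 * p) ^ p * x ^ (-(1 / 2) : ℝ) := by
          rw [Real.mul_rpow (by positivity) (by positivity), ← Real.rpow_mul hx0.le]
          congr 2
          field_simp
  · exact hint2.lintegral_lt_top

theorem tau_log (p : ℝ) (hp : 1 ≤ p) : ∃ C : ℝ, 0 < C ∧ ∀ w ∈ Icc (0 : ℝ) 1,
    ∫⁻ x in Ioo (0 : ℝ) 1, ENNReal.ofReal (|Real.log (tau w x) - Real.log x| ^ p) ≤
      ENNReal.ofReal (C * |w - 1 / 2| ^ p) := by
  have hp0 : 0 < p := by linarith
  set M : ℝ := (∫⁻ x in Ioo (0 : ℝ) 1, ENNReal.ofReal ((1 + |Real.log x|) ^ p)).toReal with hM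
  have hM0 : 0 ≤ M := ENNReal.toReal_nonneg
  refine ⟨4 ^ p * (M + 1), by positivity, ?_⟩
  intro w hw
  rcases le_or_gt (1 / 4) w with h4 | h4
  · have hb : ∀ x ∈ Ioo (0 : ℝ) 1, |Real.log (tau w x) - Real.log x| ≤ 4 * |w - 1 / 2| := by
      intro x hx
      rcases le_or_gt x w with h | h
      · have hw0 : 0 < w := by linarith
        rw [tau_le h, Real.log_div hx.1.ne' (by positivity)]
        have e : Real.log x - Real.log (2 * w) - Real.log x = Real.log 1 - Real.log (2 * w) := by
          rw [Real.log_one]; ring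
        rw [e]
        refine (abs_log_sub_le (m := 1 / 2) (by norm_num) (by norm_num) (by linarith)).trans ?_
        have e2 : (1 : ℝ) - 2 * w = (-2) * (w - 1 / 2) := by ring
        rw [e2, abs_mul]
        norm_num
        linarith
      · have h1 := tau_mem_high hx h
        refine (abs_log_sub_le (m := 1 / 4) (by norm_num) (by linarith [h1.1]) (by linarith)).trans ?_
        have := tau_sub_le hw hx
        rw [div_le_iff₀ (by norm_num)]
        linarith
    calc ∫⁻ x in Ioo (0 : ℝ) 1, ENNReal.ofReal (|Real.log (tau w x) - Real.log x| ^ p)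
        ≤ ∫⁻ x in Ioo (0 : ℝ) 1, ENNReal.ofReal ((4 * |w - 1 / 2|) ^ p) := by
          refine setLIntegral_mono' measurableSet_Ioo ?_
          intro x hx
          exact ENNReal.ofReal_le_ofReal (Real.rpow_le_rpow (abs_nonneg _) (hb x hx) hp0.le)
      _ = ENNReal.ofReal ((4 * |w - 1 / 2|) ^ p) := by
          rw [lintegral_const, Measure.restrict_apply MeasurableSet.univ, univ_inter,
            Real.volume_Ioo]
          simp
      _ ≤ ENNReal.ofReal (4 ^ p * (M + 1) * |w - 1 / 2| ^ p) := by
          refine ENNReal.ofReal_le_ofReal ?_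
          rw [Real.mul_rpow (by norm_num) (abs_nonneg _)]
          refine mul_le_mul_of_nonneg_right ?_ (by positivity)
          have : (0 : ℝ) < 4 ^ p := by positivity
          nlinarith
  · have hb : ∀ x ∈ Ioo (0 : ℝ) 1, |Real.log (tau w x) - Real.log x| ≤ 1 + |Real.log x| := by
      intro x hx
      rcases le_or_gt x w with h | h
      · have hw0 : 0 < w := lt_of_lt_of_le hx.1 h
        rw [tau_le h, Real.log_div hx.1.ne' (by positivity)]
        have e : Real.log x - Real.log (2 * w) - Real.log x = - Real.log (2 * w) := by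
          ring
        rw [e, abs_neg]
        have h1 : Real.log (2 * w) ≤ 0 := Real.log_nonpos (by positivity) (by linarith)
        have h2 : Real.log x ≤ Real.log (2 * w) := Real.log_le_log hx.1 (by linarith)
        rw [abs_of_nonpos h1, abs_of_nonpos (h2.trans h1)]
        linarith
      · have h1 := tau_mem_high hx h
        have h2 : |Real.log (tau w x)| ≤ 1 := by
          have h3 : Real.log (tau w x) ≤ 0 := Real.log_nonpos (by linarith [h1.1]) h1.2.le
          have h4 : Real.log (1 / 2) ≤ Real.log (tau w x) := Real.log_le_log (by norm_num) h1.1.le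
          have h5 : Real.log (1 / 2) = - Real.log 2 := by
            rw [one_div, Real.log_inv]
          have h6 := Real.log_two_lt_d9
          rw [abs_of_nonpos h3]
          linarith
        calc |Real.log (tau w x) - Real.log x| ≤ |Real.log (tau w x)| + |Real.log x| := abs_sub _ _
          _ ≤ 1 + |Real.log x| := by linarith
    have hfin := lint_log_fin p hp
    calc ∫⁻ x in Ioo (0 : ℝ) 1, ENNReal.ofReal (|Real.log (tau w x) - Real.log x| ^ p)
        ≤ ∫⁻ x in Ioo (0 : ℝ) 1, ENNReal.ofReal ((1 + |Real.log x|) ^ p) := by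
          refine setLIntegral_mono' measurableSet_Ioo ?_
          intro x hx
          exact ENNReal.ofReal_le_ofReal (Real.rpow_le_rpow (abs_nonneg _) (hb x hx) hp0.le)
      _ = ENNReal.ofReal M := by
          rw [hM, ENNReal.ofReal_toReal hfin.ne]
      _ ≤ ENNReal.ofReal (4 ^ p * (M + 1) * |w - 1 / 2| ^ p) := by
          refine ENNReal.ofReal_le_ofReal ?_
          have h1 : (1 / 4 : ℝ) ≤ |w - 1 / 2| := by
            rw [abs_of_neg (by linarith)]; linarith
          have h2 : (1 / 4 : ℝ) ^ p ≤ |w - 1 / 2| ^ p := Real.rpow_le_rpow (by norm_num) h1 hp0.le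
          have h3 : (4 : ℝ) ^ p * (1 / 4 : ℝ) ^ p = 1 := by
            rw [← Real.mul_rpow (by norm_num) (by norm_num)]; norm_num
          have h5 : 1 ≤ (4 : ℝ) ^ p * |w - 1 / 2| ^ p :=
            h3.symm.le.trans (mul_le_mul_of_nonneg_left h2 (by positivity))
          nlinarith


theorem map_affine (c d : ℝ) (hc : 0 < c) {s t : Set ℝ} (hs : MeasurableSet s)
    (ht : (fun x : ℝ => c * x + d) ⁻¹' s = t) :
    ((volume : Measure ℝ).restrict t).map (fun x : ℝ => c * x + d) =
      ENNReal.ofReal c⁻¹ • (volume : Measure ℝ).restrict s := by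
  have hm : Measurable (fun x : ℝ => c * x + d) := by fun_prop
  rw [← ht, ← Measure.restrict_map hm hs]
  have : (volume : Measure ℝ).map (fun x : ℝ => c * x + d) = ENNReal.ofReal c⁻¹ • volume := by
    have e : (fun x : ℝ => c * x + d) = (fun x : ℝ => x + d) ∘ (fun x : ℝ => c * x) := rfl
    rw [e, ← Measure.map_map (by fun_prop) (by fun_prop), Real.map_volume_mul_left hc.ne',
      Measure.map_smul, map_add_right_eq_self, abs_of_pos (inv_pos.mpr hc)]
  rw [this, Measure.restrict_smul]

theorem U_low : ((volume : Measure ℝ).restrict (Ioo 0 1)).map (fun x : ℝ => (x + 0) / 2) =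
    (2 : ℝ≥0∞) • (volume : Measure ℝ).restrict (Ioo 0 (1 / 2)) := by
  have h := map_affine (1 / 2) 0 (by norm_num) (s := Ioo 0 (1 / 2)) (t := Ioo 0 1)
    measurableSet_Ioo (by ext x; simp only [mem_preimage, mem_Ioo]; constructor <;> rintro ⟨h1, h2⟩ <;> constructor <;> linarith)
  have e : (fun x : ℝ => (x + 0) / 2) = (fun x : ℝ => 1 / 2 * x + 0) := by ext x; ring
  rw [e, h]
  norm_num

theorem U_high : ((volume : Measure ℝ).restrict (Ioo 0 1)).map (fun x : ℝ => (x + 1) / 2) =
    (2 : ℝ≥0∞) • (volume : Measure ℝ).restrict (Ioo (1 / 2) 1) := by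
  have h := map_affine (1 / 2) (1 / 2) (by norm_num) (s := Ioo (1 / 2) 1) (t := Ioo 0 1)
    measurableSet_Ioo (by ext x; simp only [mem_preimage, mem_Ioo]; constructor <;> rintro ⟨h1, h2⟩ <;> constructor <;> linarith)
  have e : (fun x : ℝ => (x + 1) / 2) = (fun x : ℝ => 1 / 2 * x + 1 / 2) := by ext x; ring
  rw [e, h]
  norm_num

theorem U_split {w : ℝ} (hw : w ∈ Icc (0 : ℝ) 1) : (volume : Measure ℝ).restrict (Ioo 0 1) =
    (volume : Measure ℝ).restrict (Ioo 0 w) + (volume : Measure ℝ).restrict (Ioo w 1) := by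
  rw [← Measure.restrict_union (by
    rw [Set.disjoint_left]; intro x h1 h2; exact absurd h1.2 (not_lt.mpr h2.1.le)) measurableSet_Ioo]
  refine Measure.restrict_congr_set ?_
  have : ∀ᵐ x ∂(volume : Measure ℝ), x ≠ w := by
    rw [ae_iff]; simp
  filter_upwards [this] with x hx
  refine propext ?_
  show x ∈ Ioo 0 1 ↔ x ∈ Ioo 0 w ∪ Ioo w 1
  simp only [mem_Ioo, mem_union]
  constructor
  · rintro ⟨h1, h2⟩
    rcases lt_or_gt_of_ne hx with h | h
    · left; exact ⟨h1, h⟩
    · right; exact ⟨h, h2⟩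
  · rintro (⟨h1, h2⟩ | ⟨h1, h2⟩)
    · exact ⟨h1, by linarith [hw.2]⟩
    · exact ⟨by linarith [hw.1], h2⟩

theorem U_tau {w : ℝ} (hw : w ∈ Icc (0 : ℝ) 1) :
    ((volume : Measure ℝ).restrict (Ioo 0 1)).map (tau w) =
      ENNReal.ofReal w • ((volume : Measure ℝ).restrict (Ioo 0 1)).map (fun x : ℝ => (x + 0) / 2) +
      ENNReal.ofReal (1 - w) • ((volume : Measure ℝ).restrict (Ioo 0 1)).map (fun x : ℝ => (x + 1) / 2) := by
  conv_lhs => rw [U_split hw]
  rw [Measure.map_add _ _ (measurable_tau w), U_low, U_high, smul_smul, smul_smul]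
  congr 1
  · rcases eq_or_lt_of_le hw.1 with h0 | h0
    · subst h0
      simp
    · have e : ((volume : Measure ℝ).restrict (Ioo 0 w)).map (tau w) =
          ((volume : Measure ℝ).restrict (Ioo 0 w)).map (fun x : ℝ => (1 / (2 * w)) * x + 0) := by
        refine Measure.map_congr ?_
        filter_upwards [ae_restrict_mem measurableSet_Ioo] with x hx
        rw [tau_le hx.2.le]; field_simp; ring
      rw [e, map_affine (1 / (2 * w)) 0 (by positivity) (s := Ioo 0 (1 / 2)) (t := Ioo 0 w)
        measurableSet_Ioo ?_]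
      · congr 1
        rw [one_div, inv_inv, mul_comm 2 w, ENNReal.ofReal_mul h0.le]
        simp
      · ext x
        simp only [mem_preimage, mem_Ioo, add_zero]
        have h1 : 1 / (2 * w) * x = x / (2 * w) := by ring
        rw [h1, div_lt_div_iff₀ (by positivity) (by norm_num)]
        constructor
        · rintro ⟨h2, h3⟩
          refine ⟨?_, by linarith⟩
          by_contra h4
          exact absurd h2 (not_lt.mpr (div_nonpos_of_nonpos_of_nonneg (not_lt.mp h4) (by positivity)))
        · rintro ⟨h2, h3⟩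
          exact ⟨by positivity, by linarith⟩
  · rcases eq_or_lt_of_le hw.2 with h0 | h0
    · subst h0
      simp
    · have h0' : 0 < 1 - w := by linarith
      have e : ((volume : Measure ℝ).restrict (Ioo w 1)).map (tau w) =
          ((volume : Measure ℝ).restrict (Ioo w 1)).map
            (fun x : ℝ => (1 / (2 * (1 - w))) * x + (1 / 2 - w / (2 * (1 - w)))) := by
        refine Measure.map_congr ?_
        filter_upwards [ae_restrict_mem measurableSet_Ioo] with x hx
        rw [tau_gt hx.1]; field_simp; ring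
      rw [e, map_affine (1 / (2 * (1 - w))) (1 / 2 - w / (2 * (1 - w))) (by positivity)
        (s := Ioo (1 / 2) 1) (t := Ioo w 1) measurableSet_Ioo ?_]
      · congr 1
        rw [one_div, inv_inv, mul_comm 2 (1 - w), ENNReal.ofReal_mul h0'.le]
        simp
      · ext x
        simp only [mem_preimage, mem_Ioo]
        have h1 : 1 / (2 * (1 - w)) * x + (1 / 2 - w / (2 * (1 - w))) =
            1 / 2 + (x - w) / (2 * (1 - w)) := by ring
        rw [h1]
        have h2 : 1 / 2 < 1 / 2 + (x - w) / (2 * (1 - w)) ↔ w < x := by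
          rw [lt_add_iff_pos_right, div_pos_iff_of_pos_right (by positivity)]
          exact sub_pos
        have h3 : 1 / 2 + (x - w) / (2 * (1 - w)) < 1 ↔ x < 1 := by
          have : 1 / 2 + (x - w) / (2 * (1 - w)) < 1 ↔ (x - w) / (2 * (1 - w)) < 1 / 2 := by
            constructor <;> intro h <;> linarith
          rw [this, div_lt_div_iff₀ (by positivity) (by norm_num)]
          constructor <;> intro h <;> linarith
        rw [h2, h3]

theorem cube_map_update {n : ℕ} (i : Fin n) (f : ℝ → ℝ) (hf : Measurable f) :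
    (cube n).map (fun z => Function.update z i (f (z i))) =
      Measure.pi (fun j : Fin n => if j = i then
        ((volume : Measure ℝ).restrict (Ioo 0 1)).map f else (volume : Measure ℝ).restrict (Ioo 0 1)) := by
  have e : (fun z : Fin n → ℝ => Function.update z i (f (z i))) =
      fun z j => (fun k : Fin n => if k = i then f else id) j (z j) := by
    ext z j
    by_cases h : j = i
    · subst h; simp
    · simp [Function.update_of_ne h, h]
  have hm : ∀ j : Fin n, Measurable ((fun k : Fin n => if k = i then f else id) j) := by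
    intro j
    by_cases h : j = i
    · simp [h, hf]
    · simp only [h, if_false]; exact measurable_id
  unfold cube
  haveI : ∀ j : Fin n, SigmaFinite (((volume : Measure ℝ).restrict (Ioo 0 1)).map
      ((fun k : Fin n => if k = i then f else id) j)) := by
    intro j
    infer_instance
  rw [e, Measure.pi_map_pi (fun j => (hm j).aemeasurable)]
  congr 1
  ext j : 1
  by_cases h : j = i
  · simp [h]
  · simp [h, Measure.map_id]

theorem pi_lin {n : ℕ} (i : Fin n) (U ν ν₁ ν₂ : Measure ℝ) [IsFiniteMeasure U] [IsFiniteMeasure ν]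
    [IsFiniteMeasure ν₁] [IsFiniteMeasure ν₂] (a b : ℝ≥0∞) (h : ν = a • ν₁ + b • ν₂) :
    Measure.pi (fun j : Fin n => if j = i then ν else U) =
      a • Measure.pi (fun j : Fin n => if j = i then ν₁ else U) +
      b • Measure.pi (fun j : Fin n => if j = i then ν₂ else U) := by
  have inst : ∀ (ν' : Measure ℝ) [IsFiniteMeasure ν'] (j : Fin n),
      SigmaFinite (if j = i then ν' else U) := by
    intro ν' _ j
    split_ifs <;> infer_instance
  haveI := inst ν
  haveI := inst ν₁
  haveI := inst ν₂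
  refine Measure.pi_eq ?_
  intro s hs
  have key : ∀ ν' : Measure ℝ, ∏ j, (if j = i then ν' else U) (s j) =
      ν' (s i) * ∏ j ∈ Finset.univ.erase i, U (s j) := by
    intro ν'
    rw [← Finset.mul_prod_erase Finset.univ _ (Finset.mem_univ i)]
    congr 1
    · simp
    · refine Finset.prod_congr rfl ?_
      intro j hj
      rw [if_neg (Finset.ne_of_mem_erase hj)]
  rw [Measure.add_apply, Measure.smul_apply, Measure.smul_apply, Measure.pi_pi, Measure.pi_pi,
    key, key, key, h, Measure.add_apply, Measure.smul_apply, Measure.smul_apply]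
  simp only [smul_eq_mul]
  ring

theorem cube_tau {n : ℕ} (i : Fin n) {w : ℝ} (hw : w ∈ Icc (0 : ℝ) 1) :
    (cube n).map (tauAt i w) =
      ENNReal.ofReal w • (cube n).map (half i 0) + ENNReal.ofReal (1 - w) • (cube n).map (half i 1) := by
  have h1 : (cube n).map (tauAt i w) = _ := cube_map_update i (tau w) (measurable_tau w)
  have h2 : (cube n).map (half i 0) = _ :=
    cube_map_update i (fun x : ℝ => (x + 0) / 2) (by fun_prop)
  have h3 : (cube n).map (half i 1) = _ :=
    cube_map_update i (fun x : ℝ => (x + 1) / 2) (by fun_prop)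
  rw [h1, h2, h3]
  exact pi_lin i _ _ _ _ _ _ (U_tau hw)

theorem cube_half {n : ℕ} (i : Fin n) :
    cube n = (2 : ℝ≥0∞)⁻¹ • (cube n).map (half i 0) + (2 : ℝ≥0∞)⁻¹ • (cube n).map (half i 1) := by
  have h := cube_tau (n := n) i (w := 1 / 2) (by constructor <;> norm_num)
  have h0 : (cube n).map (tauAt i (1 / 2)) = cube n := by
    have e : ∀ x : ℝ, tau (1 / 2) x = x := by
      intro x
      unfold tau
      split_ifs
      · ring
      · ring
    have e2 : tauAt (n := n) i (1 / 2) = id := by
      ext z j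
      unfold tauAt
      rw [e, Function.update_eq_self]
      rfl
    rw [e2, Measure.map_id]
  rw [h0] at h
  have e3 : ENNReal.ofReal (1 / 2) = (2 : ℝ≥0∞)⁻¹ := by
    rw [one_div, ENNReal.ofReal_inv_of_pos (by norm_num)]
    simp
  have e4 : ENNReal.ofReal (1 - 1 / 2) = (2 : ℝ≥0∞)⁻¹ := by
    rw [← e3]; norm_num
  rw [e3, e4] at h
  exact h

end Pool.Agent.Helper764.EW
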