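import Pool.Agent.Helper764.EWStageB
import Pool.Agent.Helper764.EWStageV
import Pool.Agent.Helper764.EWRoot
import Pool.Agent.Helper764.EWParam
import Pool.Agent.Helper764.EWLower

set_option autoImplicit false
open MeasureTheory Filter Topology Set
open scoped ENNReal

namespace Pool.Agent.Helper764.EW

open V (stageV)
open P (sector_param central_param)
open B (stageB)


lemma Good.comp_isometry {m d : ℕ} {K : ℝ} {k : Fin m → ℝ} {Ψ : (Fin (m + 1) → ℝ) → E d}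
    (h : Good K k Ψ) {g : E d → E d} (hg : Measurable g) (hiso : ∀ x y, ‖g x - g y‖ = ‖x - y‖) :
    Good K k (g ∘ Ψ) where
  meas := hg.comp h.meas
  V1 z z' hz hz' h0 := by simpa [hiso] using h.V1 z z' hz hz' h0
  V2 z z' hz hz' h0 l h1 h2 := by simpa [hiso] using h.V2 z z' hz hz' h0 l h1 h2

lemma bin_four (N : ℕ) {q : ℝ} (hq : q ∈ Ioc (0 : ℝ) 1) {a : ℝ} (ha : 0 < a) (ha1 : a ≤ 1)
    {b₀ b₁ b₂ b₃ : ℝ} (h0 : 0 ≤ b₀) (h1 : 0 ≤ b₁) (h2 : 0 ≤ b₂) (h3 : 0 ≤ b₃) :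
    bin N q (fun k => ENNReal.ofReal (b₀ + b₁ * (1 / ((k : ℝ) + 1)) + b₂ * k +
      b₃ * ((k : ℝ) + 1) ^ (-a))) ≤
      ENNReal.ofReal (b₀ + b₁ * (1 / (q * ((N : ℝ) + 1))) + b₂ * (q * N) +
        b₃ * (q * ((N : ℝ) + 1)) ^ (-a)) := by
  have hq0 : 0 < q := hq.1
  have e : (fun k : ℕ => ENNReal.ofReal (b₀ + b₁ * (1 / ((k : ℝ) + 1)) + b₂ * k +
      b₃ * ((k : ℝ) + 1) ^ (-a))) = fun k : ℕ => (ENNReal.ofReal b₀ * 1 +
        ENNReal.ofReal b₁ * ENNReal.ofReal (1 / ((k : ℝ) + 1)) + ENNReal.ofReal b₂ * (k : ℝ≥0∞)) +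
        ENNReal.ofReal b₃ * ENNReal.ofReal (((k : ℝ) + 1) ^ (-a)) := by
    funext k
    rw [ENNReal.ofReal_add (by positivity) (by positivity),
      ENNReal.ofReal_add (by positivity) (by positivity),
      ENNReal.ofReal_add (by positivity) (by positivity),
      ENNReal.ofReal_mul h1, ENNReal.ofReal_mul h2, ENNReal.ofReal_mul h3, ENNReal.ofReal_natCast,
      mul_one]
  rw [e, bin_add, bin_add, bin_add, bin_const_mul, bin_const_mul, bin_const_mul, bin_const_mul,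
    bin_one N ⟨hq.1.le, hq.2⟩, bin_id N ⟨hq.1.le, hq.2⟩,
    ENNReal.ofReal_add (by positivity) (by positivity),
    ENNReal.ofReal_add (by positivity) (by positivity),
    ENNReal.ofReal_add (by positivity) (by positivity),
    ENNReal.ofReal_mul h1, ENNReal.ofReal_mul h2, ENNReal.ofReal_mul h3, mul_one]
  gcongr
  · exact bin_inv N hq
  · exact bin_rpow N hq ha ha1

lemma ev_log (s r a : ℝ) (ha : 0 < a) :
    ∀ᶠ n : ℕ in atTop, (Real.log n) ^ s * (n : ℝ) ^ (-a) ≤ (Real.log n) ^ r := by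
  have h1 := (isLittleO_log_rpow_rpow_atTop (s - r) ha).bound (show (0 : ℝ) < 1 by norm_num)
  have h2 := tendsto_natCast_atTop_atTop (R := ℝ) |>.eventually h1
  filter_upwards [h2, eventually_ge_atTop 3] with n hn h3
  have hn3 : (3 : ℝ) ≤ n := by exact_mod_cast h3
  have hL : 0 < Real.log n := Real.log_pos (by linarith)
  have hn0 : (0 : ℝ) < n := by linarith
  rw [one_mul, Real.norm_of_nonneg (Real.rpow_nonneg hL.le _),
    Real.norm_of_nonneg (Real.rpow_nonneg hn0.le _), Real.rpow_sub hL] at hn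
  rw [Real.rpow_neg hn0.le]
  have hr : 0 < Real.log n ^ r := Real.rpow_pos_of_pos hL r
  have hna : 0 < (n : ℝ) ^ a := Real.rpow_pos_of_pos hn0 a
  rw [div_le_iff₀ hr] at hn
  rw [← div_eq_mul_inv, div_le_iff₀ hna]
  linarith

/-- Uniform bound for sector cells. -/
theorem sector_bound (m : ℕ) (hm : 1 ≤ m) (p : ℝ) (hp : ((m + 1 : ℕ) : ℝ) < p) (h2 : 2 < p)
    (K : ℝ) (hK : 0 < K) (d : ℕ) (q : ℝ) (hq : q ∈ Ioc (0 : ℝ) 1) :
    ∃ C : ℝ, 0 < C ∧ ∀ᶠ n : ℕ in atTop, ∀ Ψ : (Fin (m + 1) → ℝ) → E d, Good K (fun _ => 1) Ψ →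
      bin n q (fun N => G p ((cube (m + 1)).map Ψ) N) ≤
        ENNReal.ofReal (C * (Real.log n) ^ ((m : ℝ) - p / 2)) := by
  obtain ⟨CB, hCB, hB⟩ := stageB m p hp h2
  obtain ⟨CV, c, hCV, hc, hV⟩ := stageV m hm p h2
  set a : ℝ := min 1 (p / 2 - 1) with ha_def
  have ha : 0 < a := lt_min one_pos (by linarith)
  have ha1 : a ≤ 1 := min_le_left _ _
  have ha2 : a ≤ p / 2 - 1 := min_le_right _ _
  have hq0 : 0 < q := hq.1
  have hKp : 0 < K ^ p := Real.rpow_pos_of_pos hK p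
  -- the N-level bound for every n ≥ 1
  have hN : ∀ n : ℕ, 1 ≤ n → ∀ Ψ : (Fin (m + 1) → ℝ) → E d, Good K (fun _ => 1) Ψ →
      ∀ N : ℕ, G p ((cube (m + 1)).map Ψ) N ≤ ENNReal.ofReal (
        (CV * (1 + (⌈4 * Real.log n⌉₊ : ℝ)) ^ m * (CB * K ^ p * (1 + Real.log (Real.sqrt n)) ^ (-p / 2))) +
        (CV * (1 + (⌈4 * Real.log n⌉₊ : ℝ)) ^ (2 * m) * (CB * K ^ p * Real.sqrt n)) * (1 / ((N : ℝ) + 1)) +
        (CV * (CB * K ^ p * (2 : ℝ)⁻¹ ^ ⌈4 * Real.log n⌉₊)) * N +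
        (CV * (K ^ p * (1 + (⌈4 * Real.log n⌉₊ : ℝ)) ^ c)) * ((N : ℝ) + 1) ^ (-a)) := by
    intro n hn Ψ hΨ N
    have hs1 : 1 ≤ Real.sqrt n := by
      rw [Real.one_le_sqrt]; exact_mod_cast hn
    have hls : 0 ≤ Real.log (Real.sqrt n) := Real.log_nonneg hs1
    have h := hV a ha ha1 ha2 d K ⌈4 * Real.log n⌉₊
      (CB * K ^ p * (1 + Real.log (Real.sqrt n)) ^ (-p / 2))
      (CB * K ^ p * Real.sqrt n) (CB * K ^ p * (2 : ℝ)⁻¹ ^ ⌈4 * Real.log n⌉₊) hK
      (by positivity) (by positivity) (by positivity) ?_ Ψ hΨ N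
    · refine h.trans (le_of_eq ?_)
      congr 1
      ring
    · intro k Ψ' hk hΨ' N'
      refine (hB d K _ k Ψ' hK (fun j => ⟨(hk j).1.le, (hk j).2⟩) hΨ' N').trans ?_
      apply ENNReal.ofReal_le_ofReal
      have key : (1 + Real.log ((N' : ℝ) + 1)) ^ (-p / 2) ≤
          (1 + Real.log (Real.sqrt n)) ^ (-p / 2) + Real.sqrt n / ((N' : ℝ) + 1) := by
        by_cases hcase : Real.sqrt n ≤ (N' : ℝ) + 1
        · have h1 : (1 + Real.log ((N' : ℝ) + 1)) ^ (-p / 2) ≤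
              (1 + Real.log (Real.sqrt n)) ^ (-p / 2) := by
            apply Real.rpow_le_rpow_of_nonpos (by positivity) _ (by linarith)
            have := Real.log_le_log (by positivity) hcase
            linarith
          have h2 : 0 ≤ Real.sqrt n / ((N' : ℝ) + 1) := by positivity
          linarith
        · push Not at hcase
          have h1 : (1 + Real.log ((N' : ℝ) + 1)) ^ (-p / 2) ≤ 1 := by
            apply Real.rpow_le_one_of_one_le_of_nonpos _ (by linarith)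
            have : 0 ≤ Real.log ((N' : ℝ) + 1) := Real.log_nonneg (by
              have : (0 : ℝ) ≤ N' := by positivity
              linarith)
            linarith
          have h2 : 1 ≤ Real.sqrt n / ((N' : ℝ) + 1) := by
            rw [one_le_div (by positivity)]; exact hcase.le
          have h3 : 0 ≤ (1 + Real.log (Real.sqrt n)) ^ (-p / 2) := by positivity
          linarith
      calc CB * K ^ p * ((1 + Real.log ((N' : ℝ) + 1)) ^ (-p / 2) +
            N' * (2 : ℝ)⁻¹ ^ ⌈4 * Real.log n⌉₊)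
          ≤ CB * K ^ p * (((1 + Real.log (Real.sqrt n)) ^ (-p / 2) +
            Real.sqrt n / ((N' : ℝ) + 1)) + N' * (2 : ℝ)⁻¹ ^ ⌈4 * Real.log n⌉₊) := by gcongr
        _ = _ := by ring
  set r : ℝ := (m : ℝ) - p / 2 with hr_def
  set C : ℝ := CV * CB * K ^ p * 6 ^ m * 2 ^ (p / 2) + CV * CB * K ^ p * 6 ^ (2 * m) / q +
    CV * CB * K ^ p + CV * K ^ p * 6 ^ c * q ^ (-a) with hC_def
  refine ⟨C, by positivity, ?_⟩
  filter_upwards [eventually_ge_atTop 3, ev_log (2 * m) r (1 / 2) (by norm_num),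
    ev_log 0 r 1 one_pos, ev_log c r a ha] with n hn3 hev1 hev2 hev3 Ψ hΨ
  have hn1 : 1 ≤ n := by omega
  have hn3' : (3 : ℝ) ≤ n := by exact_mod_cast hn3
  have hn0 : (0 : ℝ) < n := by linarith
  set L : ℝ := Real.log n with hL_def
  have hL1 : 1 ≤ L := by
    rw [hL_def, Real.le_log_iff_exp_le hn0]
    have := Real.exp_one_lt_d9
    linarith
  have hL0 : 0 < L := by linarith
  set Λ : ℕ := ⌈4 * L⌉₊ with hΛ
  have hΛ1 : 4 * L ≤ Λ := Nat.le_ceil _
  have hΛ2 : (Λ : ℝ) < 4 * L + 1 := Nat.ceil_lt_add_one (by positivity)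
  have hΛ3 : 1 + (Λ : ℝ) ≤ 6 * L := by linarith
  have hls : Real.log (Real.sqrt n) = L / 2 := by
    rw [Real.log_sqrt hn0.le]
  set b₀ : ℝ := CV * (1 + (Λ : ℝ)) ^ m * (CB * K ^ p * (1 + Real.log (Real.sqrt n)) ^ (-p / 2)) with hb0
  set b₁ : ℝ := CV * (1 + (Λ : ℝ)) ^ (2 * m) * (CB * K ^ p * Real.sqrt n) with hb1
  set b₂ : ℝ := CV * (CB * K ^ p * (2 : ℝ)⁻¹ ^ Λ) with hb2
  set b₃ : ℝ := CV * (K ^ p * (1 + (Λ : ℝ)) ^ c) with hb3
  have hb0' : 0 ≤ b₀ := by rw [hb0, hls]; positivity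
  have hb1' : 0 ≤ b₁ := by positivity
  have hb2' : 0 ≤ b₂ := by positivity
  have hb3' : 0 ≤ b₃ := by positivity
  refine (bin_mono n q fun N _ => hN n hn1 Ψ hΨ N).trans ?_
  refine (bin_four n hq ha ha1 hb0' hb1' hb2' hb3').trans ?_
  apply ENNReal.ofReal_le_ofReal
  have hLr : 0 < L ^ r := Real.rpow_pos_of_pos hL0 r
  -- term 0
  have t0 : b₀ ≤ CV * CB * K ^ p * 6 ^ m * 2 ^ (p / 2) * L ^ r := by
    have e1 : (1 + (Λ : ℝ)) ^ m ≤ (6 * L) ^ m := by gcongr
    have e2 : (1 + Real.log (Real.sqrt n)) ^ (-p / 2) ≤ 2 ^ (p / 2) * L ^ (-p / 2) := by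
      rw [hls]
      have : (1 + L / 2) ^ (-p / 2) ≤ (L / 2) ^ (-p / 2) := by
        apply Real.rpow_le_rpow_of_nonpos (by positivity) (by linarith) (by linarith)
      refine this.trans (le_of_eq ?_)
      rw [Real.div_rpow hL0.le (by norm_num), show (-p / 2 : ℝ) = -(p / 2) by ring,
        Real.rpow_neg (by norm_num : (0:ℝ) ≤ 2)]
      field_simp
    have e3 : L ^ m * L ^ (-p / 2) = L ^ r := by
      rw [← Real.rpow_natCast L m, ← Real.rpow_add hL0, hr_def]; congr 1; ring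
    calc b₀ = CV * (CB * K ^ p) * ((1 + (Λ : ℝ)) ^ m * (1 + Real.log (Real.sqrt n)) ^ (-p / 2)) := by
          rw [hb0]; ring
      _ ≤ CV * (CB * K ^ p) * ((6 * L) ^ m * (2 ^ (p / 2) * L ^ (-p / 2))) := by
          gcongr
          rw [hls]; positivity
      _ = CV * CB * K ^ p * 6 ^ m * 2 ^ (p / 2) * (L ^ m * L ^ (-p / 2)) := by
          rw [mul_pow]; ring
      _ = _ := by rw [e3]
  have t1 : b₁ * (1 / (q * ((n : ℝ) + 1))) ≤ CV * CB * K ^ p * 6 ^ (2 * m) / q * L ^ r := by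
    have e1 : (1 + (Λ : ℝ)) ^ (2 * m) ≤ (6 * L) ^ (2 * m) := by gcongr
    have e2 : Real.sqrt n * (1 / (q * ((n : ℝ) + 1))) ≤ (1 / q) * (n : ℝ) ^ (-(1 / 2 : ℝ)) := by
      have : Real.sqrt n * (1 / (q * ((n : ℝ) + 1))) ≤ Real.sqrt n * (1 / (q * (n : ℝ))) := by
        gcongr
        linarith
      refine this.trans (le_of_eq ?_)
      rw [Real.rpow_neg hn0.le, ← Real.sqrt_eq_rpow]
      have hs : Real.sqrt n ≠ 0 := (Real.sqrt_pos.2 hn0).ne'
      have hs2 : Real.sqrt n * Real.sqrt n = n := Real.mul_self_sqrt hn0.le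
      field_simp
      nlinarith [hs2]
    have e3 : L ^ (2 * m) * (n : ℝ) ^ (-(1 / 2 : ℝ)) ≤ L ^ r := by
      have := hev1
      rwa [show ((2 : ℝ) * m) = ((2 * m : ℕ) : ℝ) by push_cast; ring, Real.rpow_natCast] at this
    calc b₁ * (1 / (q * ((n : ℝ) + 1)))
        = CV * (CB * K ^ p) * ((1 + (Λ : ℝ)) ^ (2 * m) * (Real.sqrt n * (1 / (q * ((n : ℝ) + 1))))) := by
          rw [hb1]; ring
      _ ≤ CV * (CB * K ^ p) * ((6 * L) ^ (2 * m) * ((1 / q) * (n : ℝ) ^ (-(1 / 2 : ℝ)))) := by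
          gcongr
      _ = CV * CB * K ^ p * 6 ^ (2 * m) / q * (L ^ (2 * m) * (n : ℝ) ^ (-(1 / 2 : ℝ))) := by
          rw [mul_pow]; ring
      _ ≤ _ := by gcongr
  have t2 : b₂ * (q * n) ≤ CV * CB * K ^ p * L ^ r := by
    have e1 : (2 : ℝ)⁻¹ ^ Λ ≤ (n : ℝ) ^ (-(2 : ℝ)) := by
      rw [← Real.rpow_natCast, Real.rpow_def_of_pos (by norm_num), Real.rpow_def_of_pos hn0,
        Real.exp_le_exp, Real.log_inv, ← hL_def]
      have := Real.log_two_gt_d9
      nlinarith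
    have e2 : (2 : ℝ)⁻¹ ^ Λ * (q * n) ≤ (n : ℝ) ^ (-(1 : ℝ)) := by
      calc (2 : ℝ)⁻¹ ^ Λ * (q * n) ≤ (n : ℝ) ^ (-(2 : ℝ)) * (1 * n) := by
            gcongr
            exact hq.2
        _ = (n : ℝ) ^ (-(1 : ℝ)) := by
            rw [one_mul, ← Real.rpow_add_one hn0.ne']; norm_num
    have e3 : (n : ℝ) ^ (-(1 : ℝ)) ≤ L ^ r := by simpa using hev2
    calc b₂ * (q * n) = CV * (CB * K ^ p) * ((2 : ℝ)⁻¹ ^ Λ * (q * n)) := by rw [hb2]; ring
      _ ≤ CV * (CB * K ^ p) * L ^ r := by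
          gcongr
          exact e2.trans e3
      _ = _ := by ring
  have t3 : b₃ * (q * ((n : ℝ) + 1)) ^ (-a) ≤ CV * K ^ p * 6 ^ c * q ^ (-a) * L ^ r := by
    have e1 : (1 + (Λ : ℝ)) ^ c ≤ (6 * L) ^ c := by gcongr
    have e2 : (q * ((n : ℝ) + 1)) ^ (-a) ≤ q ^ (-a) * (n : ℝ) ^ (-a) := by
      rw [← Real.mul_rpow hq0.le hn0.le]
      apply Real.rpow_le_rpow_of_nonpos (by positivity) _ (by linarith)
      gcongr; linarith
    calc b₃ * (q * ((n : ℝ) + 1)) ^ (-a) ≤ (CV * (K ^ p * (6 * L) ^ c)) * (q ^ (-a) * (n : ℝ) ^ (-a)) := by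
          rw [hb3]; gcongr
      _ = CV * K ^ p * 6 ^ c * q ^ (-a) * (L ^ c * (n : ℝ) ^ (-a)) := by
          rw [Real.mul_rpow (by norm_num) hL0.le]; ring
      _ ≤ _ := by gcongr
  calc b₀ + b₁ * (1 / (q * ((n : ℝ) + 1))) + b₂ * (q * n) + b₃ * (q * ((n : ℝ) + 1)) ^ (-a)
      ≤ CV * CB * K ^ p * 6 ^ m * 2 ^ (p / 2) * L ^ r + CV * CB * K ^ p * 6 ^ (2 * m) / q * L ^ r +
        CV * CB * K ^ p * L ^ r + CV * K ^ p * 6 ^ c * q ^ (-a) * L ^ r := by
        gcongr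
    _ = C * L ^ r := by rw [hC_def]; ring


/-- Bound for Lipschitz cells. -/
theorem central_bound (n₀ : ℕ) (hn₀ : 1 ≤ n₀) (p : ℝ) (hp : (n₀ : ℝ) < p) (h2 : 2 < p)
    (K : ℝ) (hK : 0 < K) (d : ℕ) (q r : ℝ) (hq : q ∈ Ioc (0 : ℝ) 1) :
    ∃ C : ℝ, 0 < C ∧ ∀ᶠ n : ℕ in atTop, ∀ Ψ : (Fin n₀ → ℝ) → E d, Measurable Ψ →
      LipC (fun _ => K) Ψ →
      bin n q (fun N => G p ((cube n₀).map Ψ) N) ≤ ENNReal.ofReal (C * (Real.log n) ^ r) := by
  obtain ⟨a, CC, ha, ha1, ha2, hCC, hC⟩ := stageC n₀ hn₀ p hp h2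
  have hq0 : 0 < q := hq.1
  refine ⟨CC * K ^ p * q ^ (-a), by positivity, ?_⟩
  filter_upwards [eventually_ge_atTop 3, ev_log 0 r a ha] with n hn3 hev Ψ hΨ hL
  have hn0 : (0 : ℝ) < n := by
    have : (3 : ℝ) ≤ n := by exact_mod_cast hn3
    linarith
  refine (bin_mono n q fun N _ => hC d K Ψ hK hΨ hL N).trans ?_
  have h4 := bin_four n hq ha ha1 (b₀ := 0) (b₁ := 0) (b₂ := 0) (b₃ := CC * K ^ p) le_rfl le_rfl
    le_rfl (by positivity)
  simp only [zero_mul, add_zero, zero_add] at h4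
  refine h4.trans ?_
  apply ENNReal.ofReal_le_ofReal
  have e2 : (q * ((n : ℝ) + 1)) ^ (-a) ≤ q ^ (-a) * (n : ℝ) ^ (-a) := by
    rw [← Real.mul_rpow hq0.le hn0.le]
    apply Real.rpow_le_rpow_of_nonpos (by positivity) _ (by linarith)
    gcongr; linarith
  rw [Real.rpow_zero, one_mul] at hev
  calc CC * K ^ p * (q * ((n : ℝ) + 1)) ^ (-a) ≤ CC * K ^ p * (q ^ (-a) * (n : ℝ) ^ (-a)) := by
        gcongr
    _ ≤ CC * K ^ p * (q ^ (-a) * Real.log n ^ r) := by gcongr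
    _ = _ := by ring

lemma smul_map_prob {d n : ℕ} {ν : Measure (E d)} {q : ℝ≥0∞} {Ψ : (Fin n → ℝ) → E d}
    (hΨ : Measurable Ψ) (h : ν = q • (cube n).map Ψ) (h0 : ν univ ≠ 0) (ht : ν univ ≠ ⊤) :
    (ν univ)⁻¹ • ν = (cube n).map Ψ := by
  have hp : IsProbabilityMeasure ((cube n).map Ψ) :=
    Measure.isProbabilityMeasure_map hΨ.aemeasurable
  have hq : ν univ = q := by
    rw [h, Measure.smul_apply, measure_univ, smul_eq_mul, mul_one]
  rw [hq] at h0 ht ⊢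
  rw [h, smul_smul, ENNReal.inv_mul_cancel h0 ht, one_smul]

/-- Upper bound. -/
theorem upper_G (m : ℕ) (hm : 1 ≤ m) (p : ℝ) (hp : ((m + 1 : ℕ) : ℝ) < p) :
    ∃ C : ℝ, 0 < C ∧ ∀ᶠ n : ℕ in atTop,
      G p (gauss (m + 1)) n ≤ ENNReal.ofReal (C * (Real.log n) ^ ((m : ℝ) - p / 2)) := by
  have hm1 : (1 : ℝ) ≤ m := by exact_mod_cast hm
  have h2 : 2 < p := by push_cast at hp; linarith
  have h1 : 1 ≤ p := by linarith
  have hγ := gauss_prob (m + 1)
  obtain ⟨A, hA0, hAm, hAd, hAc, hAp, hAg⟩ := cells m ((m : ℝ) + 1) (by positivity)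
  obtain ⟨CW, hCW, hW⟩ := root_W (m + 1) p h1 A hAm hAd hAc hAp
  obtain ⟨K₁, q₁, Ψ₁, hK₁, hΨ₁, hq₁⟩ := sector_param m
  obtain ⟨K₀, q₀, Ψ₀, hK₀, hΨ₀m, hΨ₀, hq₀⟩ := central_param (m + 1) ((m : ℝ) + 1) (by positivity)
  set γ := gauss (m + 1) with hγdef
  set ν : Option (Fin (m + 1) × Bool) → Measure (E (m + 1)) :=
    fun k => (γ (A k))⁻¹ • γ.restrict (A k) with hν
  have hAt : ∀ k, γ (A k) ≠ ⊤ := fun k => measure_ne_top _ _
  have hνp : ∀ k, IsProbabilityMeasure (ν k) := fun k => by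
    constructor
    simp only [hν, Measure.smul_apply, Measure.restrict_apply_univ, smul_eq_mul]
    exact ENNReal.inv_mul_cancel (hAp k) (hAt k)
  set q : Option (Fin (m + 1) × Bool) → ℝ := fun k => (γ (A k)).toReal with hq
  have hq0 : ∀ k, 0 < q k := fun k => ENNReal.toReal_pos (hAp k) (hAt k)
  have hqq : ∀ k, ENNReal.ofReal (q k) = γ (A k) := fun k => ENNReal.ofReal_toReal (hAt k)
  -- mixture identity
  have hmix : γ = ∑ k, ENNReal.ofReal (q k) • ν k := by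
    have e1 : ∀ k, ENNReal.ofReal (q k) • ν k = γ.restrict (A k) := by
      intro k
      rw [hqq, hν]
      simp only
      rw [smul_smul, ENNReal.mul_inv_cancel (hAp k) (hAt k), one_smul]
    simp only [e1]
    have hae : (⋃ k, A k) =ᵐ[γ] (univ : Set (E (m + 1))) := ae_eq_univ.2 hAc
    have e2 : γ = γ.restrict (⋃ k, A k) := by
      rw [Measure.restrict_congr_set hae, Measure.restrict_univ]
    conv_lhs => rw [e2, Measure.restrict_iUnion hAd hAm, Measure.sum_fintype]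
  have hqsum : ∑ k, q k = 1 := by
    have := congrArg (fun μ : Measure (E (m + 1)) => μ univ) hmix
    simp only [Measure.finsetSum_apply, Measure.smul_apply, measure_univ, smul_eq_mul, mul_one] at this
    rw [← ENNReal.ofReal_sum_of_nonneg (fun k _ => (hq0 k).le)] at this
    have h3 := congrArg ENNReal.toReal this
    rw [ENNReal.toReal_ofReal (Finset.sum_nonneg fun k _ => (hq0 k).le)] at h3
    simpa using h3.symm
  have hq1 : ∀ k, q k ∈ Ioc (0 : ℝ) 1 := fun k => ⟨hq0 k, by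
    rw [← hqsum]
    exact Finset.single_le_sum (f := q) (fun j _ => (hq0 j).le) (Finset.mem_univ k)⟩
  -- parametrisation of cells
  have hpar : ∀ k, ∃ C : ℝ, 0 < C ∧ ∀ᶠ n : ℕ in atTop,
      bin n (q k) (fun N => G p (ν k) N) ≤ ENNReal.ofReal (C * (Real.log n) ^ ((m : ℝ) - p / 2)) := by
    intro k
    rcases k with _ | k
    · obtain ⟨C, hC, hev⟩ := central_bound (m + 1) (by omega) p hp h2 K₀ hK₀ (m + 1) (q none)
        ((m : ℝ) - p / 2) (hq1 none)
      refine ⟨C, hC, ?_⟩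
      filter_upwards [hev] with n hn
      have hνe : ν none = (cube (m + 1)).map Ψ₀ := by
        have := smul_map_prob (ν := γ.restrict (A none)) hΨ₀m (by rw [hA0]; exact hq₀)
          (by rw [Measure.restrict_apply_univ]; exact hAp none)
          (by rw [Measure.restrict_apply_univ]; exact hAt none)
        rw [Measure.restrict_apply_univ] at this
        exact this
      rw [hνe]
      exact hn Ψ₀ hΨ₀m hΨ₀
    · obtain ⟨C, hC, hev⟩ := sector_bound m hm p hp h2 K₁ hK₁ (m + 1) (q (some k)) (hq1 (some k))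
      refine ⟨C, hC, ?_⟩
      obtain ⟨g, hgm, hgi, hgr⟩ := hAg k
      filter_upwards [hev] with n hn
      have hνe : ν (some k) = (cube (m + 1)).map (g ∘ Ψ₁) := by
        have e : γ.restrict (A (some k)) = q₁ • (cube (m + 1)).map (g ∘ Ψ₁) := by
          rw [hgr, hq₁, Measure.map_smul, Measure.map_map hgm hΨ₁.meas]
        have := smul_map_prob (ν := γ.restrict (A (some k))) (hgm.comp hΨ₁.meas) e
          (by rw [Measure.restrict_apply_univ]; exact hAp _)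
          (by rw [Measure.restrict_apply_univ]; exact hAt _)
        rw [Measure.restrict_apply_univ] at this
        exact this
      rw [hνe]
      exact hn _ (hΨ₁.comp_isometry hgm hgi)
  choose Cc hCc hCev using hpar
  obtain ⟨CM, hCM, hmom⟩ := bin_moment p (by linarith)
  set card : ℝ := (Fintype.card (Option (Fin (m + 1) × Bool)) : ℝ) with hcard
  set C : ℝ := 2 ^ (p - 1) * ∑ k, Cc k + 2 ^ (p - 1) * (CW * (card * CM)) with hCdef
  have hCpos : 0 < C := by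
    have : 0 < ∑ k, Cc k := Finset.sum_pos (fun k _ => hCc k) ⟨none, Finset.mem_univ _⟩
    have hcard0 : 0 ≤ card := by positivity
    positivity
  refine ⟨C, hCpos, ?_⟩
  have hall : ∀ᶠ n : ℕ in atTop, ∀ k, bin n (q k) (fun N => G p (ν k) N) ≤
      ENNReal.ofReal (Cc k * (Real.log n) ^ ((m : ℝ) - p / 2)) := eventually_all.2 hCev
  filter_upwards [hall, eventually_ge_atTop 3, ev_log 0 ((m : ℝ) - p / 2) (p / 2 - 1) (by linarith)]
    with n hn hn3 hev
  have hn0 : (0 : ℝ) < n := by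
    have : (3 : ℝ) ≤ n := by exact_mod_cast hn3
    linarith
  have hn0' : (n : ℝ) ≠ 0 := hn0.ne'
  have hLr : 0 < Real.log n ^ ((m : ℝ) - p / 2) := by
    apply Real.rpow_pos_of_pos
    apply Real.log_pos
    have : (3 : ℝ) ≤ n := by exact_mod_cast hn3
    linarith
  have hD : ∀ κ : Fin n → Option (Fin (m + 1) × Bool),
      Wpp p (∑ k, ((cnt κ k : ℝ≥0∞) / n) • ν k) γ ≤
        ENNReal.ofReal CW * ∑ k, ENNReal.ofReal (|(cnt κ k : ℝ) / n - q k| ^ p) := by
    intro κ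
    have e1 : ∀ k, ((cnt κ k : ℝ≥0∞) / n) = ENNReal.ofReal ((cnt κ k : ℝ) / n) := by
      intro k
      rw [ENNReal.ofReal_div_of_pos hn0, ENNReal.ofReal_natCast, ENNReal.ofReal_natCast]
    simp only [e1]
    refine (hW (fun k => (cnt κ k : ℝ) / n) (fun k => by positivity) ?_).trans (le_of_eq ?_)
    · rw [← Finset.sum_div, div_eq_one_iff_eq hn0', ← Nat.cast_sum, sum_cnt]
    · rw [ENNReal.ofReal_mul hCW.le, ENNReal.ofReal_sum_of_nonneg (fun k _ => by positivity)]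
  have hsp := G_split h1 (fun k => ENNReal.ofReal (q k)) ν γ hmix n _ hD (ε := 1) one_pos
  refine hsp.trans ?_
  have hlab : ∀ (k : Option (Fin (m + 1) × Bool)) (f : ℕ → ℝ≥0∞),
      ∑ κ : Fin n → Option (Fin (m + 1) × Bool), (∏ i, ENNReal.ofReal (q (κ i))) * f (cnt κ k) =
        bin n (q k) f := by
    intro k f
    rw [← sum_labels q (fun k => (hq0 k).le) hqsum n k f]
    refine Finset.sum_congr rfl fun κ _ => ?_
    rw [ENNReal.ofReal_prod_of_nonneg fun i _ => (hq0 _).le]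
    rfl
  have T1 : ∑ κ : Fin n → Option (Fin (m + 1) × Bool), (∏ i, ENNReal.ofReal (q (κ i))) *
      ∑ k, G p (ν k) (cnt κ k) ≤
        ENNReal.ofReal ((∑ k, Cc k) * (Real.log n) ^ ((m : ℝ) - p / 2)) := by
    have : ∑ κ : Fin n → Option (Fin (m + 1) × Bool), (∏ i, ENNReal.ofReal (q (κ i))) *
      ∑ k, G p (ν k) (cnt κ k) = ∑ k, bin n (q k) (fun N => G p (ν k) N) := by
      simp only [Finset.mul_sum]
      rw [Finset.sum_comm]
      exact Finset.sum_congr rfl fun k _ => hlab k _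
    rw [this, Finset.sum_mul, ENNReal.ofReal_sum_of_nonneg
      (fun k _ => mul_nonneg (hCc k).le hLr.le)]
    exact Finset.sum_le_sum fun k _ => hn k
  have T2 : ∑ κ : Fin n → Option (Fin (m + 1) × Bool), (∏ i, ENNReal.ofReal (q (κ i))) *
      (n * (ENNReal.ofReal CW * ∑ k, ENNReal.ofReal (|(cnt κ k : ℝ) / n - q k| ^ p))) ≤
        ENNReal.ofReal (CW * (card * CM) * (Real.log n) ^ ((m : ℝ) - p / 2)) := by
    have e : ∑ κ : Fin n → Option (Fin (m + 1) × Bool), (∏ i, ENNReal.ofReal (q (κ i))) *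
      (n * (ENNReal.ofReal CW * ∑ k, ENNReal.ofReal (|(cnt κ k : ℝ) / n - q k| ^ p))) =
        (n * ENNReal.ofReal CW) * ∑ k, bin n (q k) (fun N => ENNReal.ofReal (|(N : ℝ) / n - q k| ^ p)) := by
      have : ∀ κ : Fin n → Option (Fin (m + 1) × Bool), (∏ i, ENNReal.ofReal (q (κ i))) *
        (n * (ENNReal.ofReal CW * ∑ k, ENNReal.ofReal (|(cnt κ k : ℝ) / n - q k| ^ p))) =
          (n * ENNReal.ofReal CW) * ∑ k, (∏ i, ENNReal.ofReal (q (κ i))) *
            ENNReal.ofReal (|(cnt κ k : ℝ) / n - q k| ^ p) := by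
        intro κ
        rw [← Finset.mul_sum]; ring
      simp only [this]
      rw [← Finset.mul_sum, Finset.sum_comm]
      congr 1
      exact Finset.sum_congr rfl fun k _ =>
        hlab k (fun N => ENNReal.ofReal (|(N : ℝ) / n - q k| ^ p))
    rw [e]
    have hk : ∀ k, bin n (q k) (fun N => ENNReal.ofReal (|(N : ℝ) / n - q k| ^ p)) ≤
        ENNReal.ofReal (CM * (n : ℝ) ^ (-p / 2)) := fun k =>
      hmom n (by omega) (q k) ⟨(hq1 k).1.le, (hq1 k).2⟩
    calc (n * ENNReal.ofReal CW) * ∑ k, bin n (q k) (fun N => ENNReal.ofReal (|(N : ℝ) / n - q k| ^ p))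
        ≤ (n * ENNReal.ofReal CW) * ∑ _k : Option (Fin (m + 1) × Bool),
            ENNReal.ofReal (CM * (n : ℝ) ^ (-p / 2)) := by
          gcongr with k
          exact hk k
      _ = ENNReal.ofReal (n * CW * (card * (CM * (n : ℝ) ^ (-p / 2)))) := by
          rw [Finset.sum_const, Finset.card_univ, nsmul_eq_mul]
          generalize CM * (n : ℝ) ^ (-p / 2) = X
          rw [ENNReal.ofReal_mul (p := (n : ℝ) * CW) (by positivity),
            ENNReal.ofReal_mul (p := (n : ℝ)) hn0.le, ENNReal.ofReal_natCast, hcard,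
            ENNReal.ofReal_mul (p := (Fintype.card (Option (Fin (m + 1) × Bool)) : ℝ))
              (Nat.cast_nonneg _), ENNReal.ofReal_natCast]
      _ ≤ _ := by
          apply ENNReal.ofReal_le_ofReal
          have hcard0 : 0 ≤ card := by positivity
          have e3 : (n : ℝ) * (n : ℝ) ^ (-p / 2) ≤ (Real.log n) ^ ((m : ℝ) - p / 2) := by
            rw [Real.rpow_zero, one_mul] at hev
            refine le_trans (le_of_eq ?_) hev
            rw [show -(p / 2 - 1) = 1 + (-p / 2) by ring, Real.rpow_add hn0, Real.rpow_one]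
          calc (n : ℝ) * CW * (card * (CM * (n : ℝ) ^ (-p / 2)))
              = CW * (card * CM) * ((n : ℝ) * (n : ℝ) ^ (-p / 2)) := by ring
            _ ≤ _ := by gcongr
  rw [show (1 + 1 : ℝ) = 2 by norm_num, show (1 + 1 / 1 : ℝ) = 2 by norm_num]
  calc _ ≤ ENNReal.ofReal (2 ^ (p - 1)) *
        ENNReal.ofReal ((∑ k, Cc k) * (Real.log n) ^ ((m : ℝ) - p / 2)) +
        ENNReal.ofReal (2 ^ (p - 1)) *
        ENNReal.ofReal (CW * (card * CM) * (Real.log n) ^ ((m : ℝ) - p / 2)) := by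
        gcongr
    _ = _ := by
        have hcard0 : 0 ≤ card := by positivity
        have hs : 0 ≤ ∑ k, Cc k := Finset.sum_nonneg fun k _ => (hCc k).le
        rw [← ENNReal.ofReal_mul (by positivity), ← ENNReal.ofReal_mul (by positivity),
          ← ENNReal.ofReal_add (by positivity) (by positivity)]
        congr 1
        rw [hCdef]; ring

end Pool.Agent.Helper764.EW
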