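import Mathlib

set_option autoImplicit false
set_option maxHeartbeats 4000000
open Finset Filter

namespace Jump764

/-- all transversal `s`-tuples through the parts `A (I 0), ..., A (I (s-1))` have the same colour -/
def ClassMono {V C : Type} {j m s : ℕ} (g : (Fin s → V) → C) (A : Fin j → Fin m → V)
    (I : Fin s ↪o Fin j) : Prop :=
  ∀ k k' : Fin s → Fin m, g (fun l => A (I l) (k l)) = g (fun l => A (I l) (k' l))

/-- all classes are monochromatic -/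
def Good {V C : Type} {j m s : ℕ} (g : (Fin s → V) → C) (A : Fin j → Fin m → V) : Prop :=
  ∀ I : Fin s ↪o Fin j, ClassMono g A I

/-- the colouring `χ` of the `t`-subsets of `Fin n` is `α`-balanced above `f` -/
def Balanced (t n : ℕ) (α : ℝ) (f : ℕ) (χ : Finset (Fin n) → Bool) : Prop :=
  ∀ X : Finset (Fin n), f ≤ X.card → ∀ c : Bool,
    α * (X.card.choose t : ℝ) < (((X.powersetCard t).filter (fun e => χ e = c)).card : ℝ)

/-- the least `f` such that some 2-colouring of the `t`-subsets of an `n`-set is `α`-balanced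
above `f` -/
noncomputable def F (t n : ℕ) (α : ℝ) : ℕ :=
  sInf {f : ℕ | ∃ χ : Finset (Fin n) → Bool, Balanced t n α f χ}

/-- pigeonhole with powers -/
def St_fiber : Prop := ∀ (V P : Type) [Fintype V] [Fintype P] [Nonempty P] (X : Set V) (g : V → P)
    (m : ℕ), X.ncard ^ m ≤
      (Fintype.card P) ^ m * {a : Fin m → V | (∀ k, a k ∈ X) ∧ ∀ k k', g (a k) = g (a k')}.ncard

/-- one class -/
def St_class : Prop := ∀ (V : Type) [Fintype V] (q j m s : ℕ), 0 < q →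
    ∀ (R : (Fin j → V) → Prop) (I : Fin s ↪o Fin j) (g : (Fin s → V) → Fin q),
    {A : Fin j → Fin m → V | ∀ k : Fin j → Fin m, R (fun i => A i (k i))}.ncard ≤
      q ^ (s * m ^ s) * {A : Fin j → Fin m → V |
        (∀ k : Fin j → Fin m, R (fun i => A i (k i))) ∧ ClassMono g A I}.ncard

/-- several classes -/
def St_classes : Prop := ∀ (V : Type) [Fintype V] (q j m s : ℕ), 0 < q →
    ∀ (R : (Fin j → V) → Prop) (S : Finset (Fin s ↪o Fin j)) (g : (Fin s → V) → Fin q),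
    {A : Fin j → Fin m → V | ∀ k : Fin j → Fin m, R (fun i => A i (k i))}.ncard ≤
      q ^ (S.card * (s * m ^ s)) * {A : Fin j → Fin m → V |
        (∀ k : Fin j → Fin m, R (fun i => A i (k i))) ∧ ∀ I ∈ S, ClassMono g A I}.ncard

/-- good structures that are good with respect to `x` -/
def St_x : Prop := ∀ (V : Type) [Fintype V] (q j m s : ℕ), 0 < q → 0 < m →
    ∀ (χ : (Fin (s + 1) → V) → Fin q) (x : V),
    {A : Fin j → Fin m → V | Good χ A}.ncard ≤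
      q ^ (j ^ s * (s * m ^ s)) * {A : Fin j → Fin m → V |
        Good χ A ∧ Good (fun v : Fin s → V => χ (Fin.snoc v x : Fin (s + 1) → V)) A}.ncard

/-- from `j` to `j + 1` parts -/
def St_step : Prop := ∀ (V : Type) [Fintype V] (q j m s : ℕ), 0 < q → 0 < m →
    ∀ (χ : (Fin (s + 1) → V) → Fin q),
    {A : Fin j → Fin m → V | Good χ A}.ncard * (Fintype.card V) ^ m ≤
      q ^ (j ^ s * (s + 1) * m ^ (s + 1)) * {A : Fin (j + 1) → Fin m → V | Good χ A}.ncard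

/-- number of good structures with `D` parts -/
def St_count : Prop := ∀ (V : Type) [Fintype V] (q D m s : ℕ), 0 < q → 0 < m →
    ∀ (χ : (Fin (s + 1) → V) → Fin q),
    (Fintype.card V) ^ (D * m) ≤
      q ^ (D ^ (s + 1) * (s + 1) * m ^ (s + 1)) * {A : Fin D → Fin m → V | Good χ A}.ncard

/-- a good structure whose parts have many distinct elements -/
def St_nondeg : Prop := ∀ (V : Type) [Fintype V] [DecidableEq V] (q D n s : ℕ),
    0 < q → 0 < n → 0 < D → ∀ (χ : (Fin (s + 1) → V) → Fin q),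
    q ^ (D ^ (s + 1) * (s + 1) * (2 * n) ^ (s + 1)) * D * n ^ (2 * n) < (Fintype.card V) ^ n →
    ∃ A : Fin D → Fin (2 * n) → V, Good χ A ∧ ∀ i, n ≤ (univ.image (A i)).card

/-- disjoint sets all of whose classes are monochromatic -/
def St_sets : Prop := ∀ (V : Type) [Fintype V] [DecidableEq V] (q D n s : ℕ),
    0 < q → 1 ≤ s → s + 1 ≤ n → s + 1 ≤ D → ∀ (χ : Finset V → Fin q),
    (q + 1) ^ (D ^ (s + 1) * (s + 1) * (2 * n) ^ (s + 1)) * D * n ^ (2 * n) <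
      (Fintype.card V) ^ n →
    ∃ B : Fin D → Finset V, (∀ i, (B i).card = n) ∧ (∀ i i', i ≠ i' → Disjoint (B i) (B i')) ∧
      ∀ I : Fin (s + 1) ↪o Fin D, ∃ θ : Fin q, ∀ v : Fin (s + 1) → V,
        (∀ l, v l ∈ B (I l)) → χ (univ.image v) = θ

/-- finite Ramsey theorem for `t`-subsets -/
def St_ramsey : Prop := ∀ t q d : ℕ, 0 < q → ∃ D₀ : ℕ, ∀ D ≥ D₀, ∀ c : Finset (Fin D) → Fin q,
    ∃ J : Finset (Fin D), J.card = d ∧ ∃ θ : Fin q, ∀ e ⊆ J, e.card = t → c e = θ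

/-- Ramsey numbers of complete `d`-partite `(s+1)`-uniform hypergraphs -/
def St_blowup : Prop := ∀ s q d : ℕ, 1 ≤ s → 0 < q → ∃ C : ℕ, ∀ n : ℕ, s + 1 ≤ n →
    ∀ (V : Type) [Fintype V] [DecidableEq V], 2 ^ (C * n ^ s) ≤ Fintype.card V →
    ∀ χ : Finset V → Fin q, ∃ B : Fin d → Finset V, (∀ i, (B i).card = n) ∧
      (∀ i i', i ≠ i' → Disjoint (B i) (B i')) ∧
      ∃ θ : Fin q, ∀ e ⊆ univ.biUnion B, e.card = s + 1 → (∀ i, (e ∩ B i).card ≤ 1) → χ e = θ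

/-- large almost monochromatic sets -/
def St_almost : Prop := ∀ t : ℕ, 2 ≤ t → ∀ α : ℝ, 0 < α → ∃ C : ℕ, 0 < C ∧ ∀ n : ℕ, t ≤ n →
    ∀ N : ℕ, 2 ^ (C * n ^ (t - 1)) ≤ N → ∀ χ : Finset (Fin N) → Bool,
    ∃ X : Finset (Fin N), n ≤ X.card ∧ ∃ c : Bool,
      (((X.powersetCard t).filter (fun e => χ e = c)).card : ℝ) ≤ α * (X.card.choose t : ℝ)

/-- lower bound for `F` -/
def St_lower : Prop := ∀ t : ℕ, 2 ≤ t → ∀ α : ℝ, 0 < α → ∃ c : ℝ, 0 < c ∧
    ∀ᶠ n : ℕ in atTop, c * (Real.log n) ^ (1 / ((t : ℝ) - 1)) ≤ (F t n α : ℝ)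

/-- upper bound for `F` (random colouring) -/
def St_upper : Prop := ∀ t : ℕ, 2 ≤ t → ∀ α : ℝ, α < 1 / 2 → ∃ C : ℝ, 0 < C ∧
    ∀ᶠ n : ℕ in atTop, (F t n α : ℝ) ≤ C * (Real.log n) ^ (1 / ((t : ℝ) - 1))

/-- stepping up from triples to quadruples -/
def St_stepup : Prop := ∀ M f : ℕ,
    (∃ χ : Finset (Fin M) → Bool, ∀ X : Finset (Fin M), f ≤ X.card → ∀ c : Bool,
      ∃ e ∈ X.powersetCard 3, χ e = c) →
    ∃ χ : Finset (Fin (2 ^ M)) → Bool, ∀ X : Finset (Fin (2 ^ M)), 2 * f ≤ X.card → ∀ c : Bool,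
      ∃ e ∈ X.powersetCard 4, χ e = c

/-- lifting from 4-subsets to `t`-subsets -/
def St_lift : Prop := ∀ t : ℕ, 4 ≤ t → ∀ n f : ℕ,
    (∃ χ : Finset (Fin n) → Bool, ∀ X : Finset (Fin n), f ≤ X.card → ∀ c : Bool,
      ∃ e ∈ X.powersetCard 4, χ e = c) →
    ∃ χ : Finset (Fin n) → Bool, ∀ X : Finset (Fin n), f + (t - 4) ≤ X.card → ∀ c : Bool,
      ∃ e ∈ X.powersetCard t, χ e = c

/-- the value at `0` is much smaller for `t ≥ 4` -/
def St_zero : Prop := ∀ t : ℕ, 4 ≤ t → ∃ C : ℝ, 0 < C ∧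
    ∀ᶠ n : ℕ in atTop, (F t n 0 : ℝ) ≤ C * Real.log (Real.log n)

end Jump764
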