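import Pool.Agent.Helper764.JumpDefs

set_option autoImplicit false
set_option maxHeartbeats 4000000
open Finset Filter

namespace Jump764
namespace M_ramsey




theorem ram_zero (q : ℕ) (d : ℕ) : ∃ M : ℕ, ∀ X : Finset ℕ, M ≤ X.card →
    ∀ c : Finset ℕ → Fin q, ∃ J ⊆ X, J.card = d ∧ ∃ θ : Fin q, ∀ e ⊆ J, e.card = 0 → c e = θ := by
  refine ⟨d, fun X hX c => ?_⟩
  obtain ⟨J, hJ, hJc⟩ := Finset.exists_subset_card_eq hX
  refine ⟨J, hJ, hJc, c ∅, fun e _ he => ?_⟩
  rw [Finset.card_eq_zero.mp he]

theorem ram_mid (q t : ℕ) (hq : 0 < q)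
    (IH : ∀ d : ℕ, ∃ M : ℕ, ∀ X : Finset ℕ, M ≤ X.card →
      ∀ c : Finset ℕ → Fin q, ∃ J ⊆ X, J.card = d ∧ ∃ θ : Fin q, ∀ e ⊆ J, e.card = t → c e = θ)
    (k : ℕ) : ∃ M : ℕ, ∀ X : Finset ℕ, M ≤ X.card →
      ∀ c : Finset ℕ → Fin q, ∃ J ⊆ X, J.card = k ∧ ∃ g : ℕ → Fin q, ∀ x ∈ J, ∀ e ⊆ J,
        e.card = t → (∀ y ∈ e, x < y) → c (insert x e) = g x := by
  induction k with
  | zero =>
    refine ⟨0, fun X _ c => ⟨∅, Finset.empty_subset _, rfl, fun _ => ⟨0, hq⟩, ?_⟩⟩
    intro x hx
    exact absurd hx (Finset.notMem_empty x)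
  | succ k ih =>
    obtain ⟨Mk, hMk⟩ := ih
    obtain ⟨M', hM'⟩ := IH Mk
    refine ⟨M' + 1, fun X hX c => ?_⟩
    have hne : X.Nonempty := by
      rw [← Finset.card_pos]
      omega
    have hxX : X.min' hne ∈ X := Finset.min'_mem X hne
    have hmin : ∀ y ∈ X, X.min' hne ≤ y := fun y hy => Finset.min'_le X y hy
    generalize X.min' hne = x at hxX hmin
    have hcard : M' ≤ (X.erase x).card := by
      rw [Finset.card_erase_of_mem hxX]
      omega
    obtain ⟨Y, hYX, hYc, θ, hθ⟩ := hM' (X.erase x) hcard (fun e => c (insert x e))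
    obtain ⟨J, hJY, hJc, g, hg⟩ := hMk Y hYc.ge c
    have hJX : J ⊆ X.erase x := hJY.trans hYX
    have hxJ : x ∉ J := fun h => (Finset.mem_erase.mp (hJX h)).1 rfl
    refine ⟨insert x J, ?_, ?_, Function.update g x θ, ?_⟩
    · intro y hy
      rcases Finset.mem_insert.mp hy with h | h
      · rw [h]
        exact hxX
      · exact Finset.mem_of_mem_erase (hJX h)
    · rw [Finset.card_insert_of_notMem hxJ, hJc]
    · intro x' hx' e he hec hlt
      have hxle : x ≤ x' := by
        rcases Finset.mem_insert.mp hx' with h | h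
        · exact h.ge
        · exact hmin _ (Finset.mem_of_mem_erase (hJX h))
      have hxe : x ∉ e := fun h => absurd (hlt x h) (not_lt.mpr hxle)
      have heJ : e ⊆ J := by
        intro y hy
        rcases Finset.mem_insert.mp (he hy) with h | h
        · rw [h] at hy
          exact absurd hy hxe
        · exact h
      by_cases hxx : x' = x
      · subst hxx
        rw [Function.update_self]
        exact hθ e (heJ.trans hJY) hec
      · rw [Function.update_of_ne hxx]
        rcases Finset.mem_insert.mp hx' with h | h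
        · exact absurd h hxx
        · exact hg x' h e heJ hec hlt

theorem ram_all (q : ℕ) (hq : 0 < q) (t : ℕ) : ∀ d : ℕ, ∃ M : ℕ, ∀ X : Finset ℕ, M ≤ X.card →
      ∀ c : Finset ℕ → Fin q, ∃ J ⊆ X, J.card = d ∧ ∃ θ : Fin q, ∀ e ⊆ J, e.card = t → c e = θ := by
  induction t with
  | zero => exact ram_zero q
  | succ t IH =>
    intro d
    obtain ⟨M, hM⟩ := ram_mid q t hq IH (q * d)
    refine ⟨M, fun X hX c => ?_⟩
    obtain ⟨J, hJX, hJc, g, hg⟩ := hM X hX c
    haveI : Nonempty (Fin q) := ⟨⟨0, hq⟩⟩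
    obtain ⟨θ, _, hθ⟩ := Finset.exists_le_card_fiber_of_mul_le_card_of_maps_to
      (s := J) (t := (Finset.univ : Finset (Fin q))) (f := g) (n := d)
      (fun a _ => Finset.mem_univ _) Finset.univ_nonempty
      (by rw [Finset.card_univ, Fintype.card_fin, hJc])
    obtain ⟨K, hK, hKc⟩ := Finset.exists_subset_card_eq hθ
    refine ⟨K, ?_, hKc, θ, ?_⟩
    · exact (hK.trans (Finset.filter_subset _ _)).trans hJX
    · intro e he hec
      have hne : e.Nonempty := by
        rw [← Finset.card_pos]
        omega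
      have hxe : e.min' hne ∈ e := Finset.min'_mem e hne
      have hlt : ∀ y ∈ e.erase (e.min' hne), e.min' hne < y := by
        intro y hy
        exact Finset.min'_lt_of_mem_erase_min' e hne hy
      generalize e.min' hne = x at hxe hlt
      have hKJ : K ⊆ J := hK.trans (Finset.filter_subset _ _)
      have h1 : c (insert x (e.erase x)) = g x := by
        refine hg x (hKJ (he hxe)) (e.erase x)
          (((Finset.erase_subset _ _).trans he).trans hKJ) ?_ hlt
        rw [Finset.card_erase_of_mem hxe, hec]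
        rfl
      rw [Finset.insert_erase hxe] at h1
      rw [h1]
      exact (Finset.mem_filter.mp (hK (he hxe))).2


theorem J_ramsey : St_ramsey := by
  intro t q d hq
  obtain ⟨M, hM⟩ := ram_all q hq t d
  refine ⟨M, fun D hD c => ?_⟩
  obtain ⟨J, hJX, hJc, θ, hθ⟩ := hM (Finset.range D) (by rw [Finset.card_range]; exact hD)
    (fun e => c (Finset.univ.filter (fun i : Fin D => (i : ℕ) ∈ e)))
  have hmap : (Finset.univ.filter (fun i : Fin D => (i : ℕ) ∈ J)).map Fin.valEmbedding = J := by
    ext y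
    rw [Finset.mem_map]
    constructor
    · rintro ⟨i, hi, rfl⟩
      exact (Finset.mem_filter.mp hi).2
    · intro hy
      have hyD : y < D := Finset.mem_range.mp (hJX hy)
      exact ⟨⟨y, hyD⟩, Finset.mem_filter.mpr ⟨Finset.mem_univ _, hy⟩, rfl⟩
  refine ⟨Finset.univ.filter (fun i : Fin D => (i : ℕ) ∈ J), ?_, θ, ?_⟩
  · rw [← hJc]
    conv_rhs => rw [← hmap]
    rw [Finset.card_map]
  · intro e he hec
    have h1 := hθ (e.map Fin.valEmbedding) ?_ (by rw [Finset.card_map, hec])
    · have h2 : (Finset.univ.filter (fun i : Fin D => (i : ℕ) ∈ e.map Fin.valEmbedding)) = e := by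
        ext i
        rw [Finset.mem_filter, Finset.mem_map]
        constructor
        · rintro ⟨_, j, hj, hji⟩
          have : j = i := Fin.ext hji
          rw [← this]
          exact hj
        · intro hi
          exact ⟨Finset.mem_univ _, i, hi, rfl⟩
      beta_reduce at h1
      rw [h2] at h1
      exact h1
    · intro y hy
      rw [Finset.mem_map] at hy
      obtain ⟨i, hi, rfl⟩ := hy
      exact (Finset.mem_filter.mp (he hi)).2


end M_ramsey
end Jump764
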