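import Pool.Agent.Helper764.JumpDefs

set_option autoImplicit false
set_option maxHeartbeats 4000000
open Finset Filter

namespace Jump764
namespace M_fiber






theorem J_fiber : St_fiber := by
  classical
  intro V P _ _ _ X g m
  set S : Finset V := Finset.univ.filter (fun v => v ∈ X) with hS
  have hXS : X = (S : Set V) := by
    ext v
    simp [hS]
  obtain ⟨p, _, hp⟩ := Finset.exists_max_image (Finset.univ : Finset P)
    (fun p => (S.filter (fun v => g v = p)).card) Finset.univ_nonempty
  have h1 : X.ncard ≤ Fintype.card P * (S.filter (fun v => g v = p)).card := by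
    rw [hXS, Set.ncard_coe_finset]
    rw [Finset.card_eq_sum_card_fiberwise (f := g) (t := (Finset.univ : Finset P))
      (fun x _ => Finset.mem_coe.2 (Finset.mem_univ _))]
    calc ∑ b : P, (S.filter (fun v => g v = b)).card
        ≤ ∑ _b : P, (S.filter (fun v => g v = p)).card :=
          Finset.sum_le_sum fun b hb => hp b hb
      _ = _ := by rw [Finset.sum_const, Finset.card_univ, smul_eq_mul]
  have h2 : (S.filter (fun v => g v = p)).card ^ m ≤
      {a : Fin m → V | (∀ k, a k ∈ X) ∧ ∀ k k', g (a k) = g (a k')}.ncard := by
    have h3 : (S.filter (fun v => g v = p)).card ^ m =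
        ((Fintype.piFinset (fun _ : Fin m => S.filter (fun v => g v = p)) :
          Finset (Fin m → V)) : Set (Fin m → V)).ncard := by
      rw [Set.ncard_coe_finset, Fintype.card_piFinset, Finset.prod_const, Finset.card_univ,
        Fintype.card_fin]
    rw [h3]
    apply Set.ncard_le_ncard _ (Set.toFinite _)
    intro a ha
    rw [Finset.mem_coe, Fintype.mem_piFinset] at ha
    refine ⟨fun k => ?_, fun k k' => ?_⟩
    · have := (Finset.mem_filter.1 (ha k)).1
      rw [hXS]
      exact this
    · rw [(Finset.mem_filter.1 (ha k)).2, (Finset.mem_filter.1 (ha k')).2]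
  calc X.ncard ^ m ≤ (Fintype.card P * (S.filter (fun v => g v = p)).card) ^ m :=
        Nat.pow_le_pow_left h1 m
    _ = Fintype.card P ^ m * (S.filter (fun v => g v = p)).card ^ m := by rw [mul_pow]
    _ ≤ _ := Nat.mul_le_mul_left _ h2


end M_fiber
end Jump764
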