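import Pool.Agent.Helper764.JumpDefs
import Pool.Agent.Helper764.Jump_fiber

set_option autoImplicit false
set_option maxHeartbeats 4000000
open Finset Filter

namespace Jump764
namespace M_class

theorem given_fiber : St_fiber := M_fiber.J_fiber

/-- independence of the coordinates in `T` -/
def Ind {V : Type} {q j m s : ℕ} (g : (Fin s → V) → Fin q) (A : Fin j → Fin m → V)
    (I : Fin s ↪o Fin j) (T : Finset (Fin s)) : Prop :=
  ∀ k k' : Fin s → Fin m, (∀ l, l ∉ T → k l = k' l) →
    g (fun l => A (I l) (k l)) = g (fun l => A (I l) (k' l))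

theorem step764 (V : Type) [Fintype V] (q j m s : ℕ) (hq : 0 < q) (hm : 0 < m)
    (R : (Fin j → V) → Prop) (I : Fin s ↪o Fin j) (g : (Fin s → V) → Fin q)
    (T : Finset (Fin s)) (u : Fin s) (hu : u ∉ T) :
    {A : Fin j → Fin m → V | (∀ k : Fin j → Fin m, R (fun i => A i (k i))) ∧ Ind g A I T}.ncard ≤
      q ^ (m ^ s) * {A : Fin j → Fin m → V |
        (∀ k : Fin j → Fin m, R (fun i => A i (k i))) ∧ Ind g A I (insert u T)}.ncard := by
  classical
  have hs : 0 < s := lt_of_le_of_lt (Nat.zero_le _) u.2
  set i0 := I u with hi0
  have hne : ∀ l : Fin s, l ≠ u → I l ≠ i0 := fun l hl h => hl (I.injective h)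
  let P := ({l : Fin s // l ≠ u} → Fin m) → Fin q
  haveI : Nonempty (Fin q) := ⟨⟨0, hq⟩⟩
  have hP : Fintype.card P = q ^ (m ^ (s - 1)) := by
    simp only [P, Fintype.card_fun, Fintype.card_fin]
    congr 2
    rw [Fintype.card_subtype_compl, Fintype.card_fin]
    simp
  let e := Equiv.funSplitAt i0 (Fin m → V)
  let asm : (Fin m → V) → ({i // i ≠ i0} → Fin m → V) → (Fin j → Fin m → V) := fun a r => e.symm (a, r)
  have asm0 : ∀ a r, asm a r i0 = a := fun a r => by simp [asm, e]
  have asm1 : ∀ a r i (h : i ≠ i0), asm a r i = r ⟨i, h⟩ := fun a r i h => by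
    simp [asm, e, h]
  let W : Finset (Fin s) → Set (Fin j → Fin m → V) := fun T =>
    {A | (∀ k : Fin j → Fin m, R (fun i => A i (k i))) ∧ Ind g A I T}
  let X : ({i // i ≠ i0} → Fin m → V) → Set V := fun r => {v | asm (fun _ => v) r ∈ W T}
  have hX : ∀ a r, asm a r ∈ W T ↔ ∀ k, a k ∈ X r := by
    intro a r
    constructor
    · rintro ⟨h1, h2⟩ κ
      refine ⟨fun k => ?_, fun k k' hk => ?_⟩
      · have := h1 (Function.update k i0 κ)
        convert this using 2 with i
        by_cases h : i = i0
        · subst h; simp [asm0]
        · simp [asm1 _ _ _ h, h]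
      · have := h2 (Function.update k u κ) (Function.update k' u κ) (by
          intro l hl
          by_cases h : l = u
          · subst h; simp
          · simp [h, hk l hl])
        have key : ∀ k : Fin s → Fin m, (fun l => asm (fun _ => a κ) r (I l) (k l)) =
            (fun l => asm a r (I l) (Function.update k u κ l)) := by
          intro k
          funext l
          by_cases h : l = u
          · subst h
            have : I l = i0 := rfl
            rw [this, asm0, asm0]; simp
          · rw [asm1 _ _ _ (hne l h), asm1 _ _ _ (hne l h)]; simp [h]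
        rw [key, key]
        exact this
    · intro h
      refine ⟨fun k => ?_, fun k k' hk => ?_⟩
      · have := (h (k i0)).1 k
        convert this using 2 with i
        by_cases hh : i = i0
        · subst hh; simp [asm0]
        · simp [asm1 _ _ _ hh]
      · have h3 := (h (k u)).2 k k' hk
        have key : ∀ k' : Fin s → Fin m, k' u = k u → (fun l => asm (fun _ => a (k u)) r (I l) (k' l)) =
            (fun l => asm a r (I l) (k' l)) := by
          intro k' hk'
          funext l
          by_cases h : l = u
          · subst h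
            have : I l = i0 := rfl
            rw [this, asm0, asm0, hk']
          · rw [asm1 _ _ _ (hne l h), asm1 _ _ _ (hne l h)]
        rw [key k rfl, key k' (hk u hu).symm] at h3
        exact h3
  let gg : ({i // i ≠ i0} → Fin m → V) → V → P := fun r v κ =>
    g (fun l => if h : l = u then v else r ⟨I l, hne l h⟩ (κ ⟨l, h⟩))
  have hgg : ∀ a r (k : Fin s → Fin m), g (fun l => asm a r (I l) (k l)) =
      gg r (a (k u)) (fun l => k l.1) := by
    intro a r k
    simp only [gg]
    congr 1
    funext l
    by_cases h : l = u
    · subst h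
      have h9 : asm a r (I l) (k l) = a (k l) := by
        show asm a r i0 (k l) = _
        rw [asm0]
      rw [h9]; simp
    · rw [asm1 _ _ _ (hne l h)]; simp [h]
  have hins : ∀ a r, asm a r ∈ W T → (∀ k k', gg r (a k) = gg r (a k')) → asm a r ∈ W (insert u T) := by
    rintro a r ⟨h1, h2⟩ h3
    refine ⟨h1, fun k k' hk => ?_⟩
    have h4 : g (fun l => asm a r (I l) (k l)) =
        g (fun l => asm a r (I l) (Function.update k u (k' u) l)) := by
      have h9 : (fun l : {l : Fin s // l ≠ u} => k l.1) =
          (fun l => Function.update k u (k' u) l.1) := by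
        funext l; simp [l.2]
      rw [hgg, hgg, h3 (k u) (Function.update k u (k' u) u), h9]
    rw [h4]
    refine h2 _ _ ?_
    intro l hl
    by_cases h : l = u
    · subst h; simp
    · simp [h]
      exact hk l (by simp [h, hl])
  -- counting
  have hcount : ∀ S : Set (Fin j → Fin m → V), S.ncard =
      ∑ r : ({i // i ≠ i0} → Fin m → V), {a : Fin m → V | asm a r ∈ S}.ncard := by
    intro S
    have h1 : S.ncard = Nat.card S := rfl
    have h2 : Nat.card S = Nat.card (Σ r : ({i // i ≠ i0} → Fin m → V), {a : Fin m → V | asm a r ∈ S}) := by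
      refine Nat.card_congr ?_
      refine
        { toFun := fun A => ⟨(e A.1).2, ⟨(e A.1).1, by
            show e.symm ((e A.1).1, (e A.1).2) ∈ S
            simp⟩⟩
          invFun := fun x => ⟨asm x.2.1 x.1, x.2.2⟩
          left_inv := fun A => by
            apply Subtype.ext
            show e.symm ((e A.1).1, (e A.1).2) = A.1
            simp
          right_inv := fun x => by
            obtain ⟨r, a, ha⟩ := x
            have h5 : e (asm a r) = (a, r) := by simp [asm]
            apply Sigma.ext
            · show (e (asm a r)).2 = r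
              rw [h5]
            · simp only
              have h6 : (e (asm a r)).2 = r := by rw [h5]
              have h7 : (e (asm a r)).1 = a := by rw [h5]
              congr! }
    rw [h1, h2, Nat.card_sigma]
    rfl
  have hmain : (W T).ncard ≤ q ^ (m ^ s) * (W (insert u T)).ncard := by
    rw [hcount (W T), hcount (W (insert u T)), Finset.mul_sum]
    refine Finset.sum_le_sum fun r _ => ?_
    have h1 : {a : Fin m → V | asm a r ∈ W T} = {a : Fin m → V | ∀ k, a k ∈ X r} := by
      ext a; exact hX a r
    have h2 : {a : Fin m → V | ∀ k, a k ∈ X r}.ncard = (X r).ncard ^ m := by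
      have : {a : Fin m → V | ∀ k, a k ∈ X r} = Set.pi Set.univ (fun _ => X r) := by
        ext a; simp
      rw [this]
      have h8 : (Set.pi Set.univ (fun _ : Fin m => X r)).ncard = Nat.card (Fin m → X r) :=
        Nat.card_congr (Equiv.Set.univPi (fun _ : Fin m => X r))
      rw [h8, Nat.card_fun, Nat.card_fin]
      rfl
    rw [h1, h2]
    refine le_trans (given_fiber V P (X r) (gg r) m) ?_
    rw [hP, ← pow_mul]
    have h3 : m ^ (s - 1) * m = m ^ s := by
      rw [← pow_succ]; congr 1; omega
    rw [h3]
    refine Nat.mul_le_mul_left _ ?_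
    refine Set.ncard_le_ncard ?_ (Set.toFinite _)
    rintro a ⟨ha1, ha2⟩
    exact hins a r ((hX a r).2 ha1) ha2
  exact hmain

theorem J_class : St_class := by
  intro V _ q j m s hq R I g
  classical
  rcases Nat.eq_zero_or_pos m with hm | hm
  · subst hm
    have h1 : {A : Fin j → Fin 0 → V | ∀ k : Fin j → Fin 0, R (fun i => A i (k i))} ⊆
        {A : Fin j → Fin 0 → V | (∀ k : Fin j → Fin 0, R (fun i => A i (k i))) ∧ ClassMono g A I} := by
      intro A hA
      refine ⟨hA, fun k k' => ?_⟩
      have : k = k' := Subsingleton.elim _ _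
      rw [this]
    calc _ ≤ _ := Set.ncard_le_ncard h1 (Set.toFinite _)
      _ ≤ _ := Nat.le_mul_of_pos_left _ (pow_pos hq _)
  · have h : ∀ T : Finset (Fin s),
        {A : Fin j → Fin m → V | ∀ k : Fin j → Fin m, R (fun i => A i (k i))}.ncard ≤
        (q ^ (m ^ s)) ^ T.card * {A : Fin j → Fin m → V |
          (∀ k : Fin j → Fin m, R (fun i => A i (k i))) ∧ Ind g A I T}.ncard := by
      intro T
      induction T using Finset.induction_on with
      | empty =>
        have : {A : Fin j → Fin m → V | ∀ k : Fin j → Fin m, R (fun i => A i (k i))} ⊆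
            {A : Fin j → Fin m → V |
          (∀ k : Fin j → Fin m, R (fun i => A i (k i))) ∧ Ind g A I ∅} := by
          intro A hA
          refine ⟨hA, fun k k' hk => ?_⟩
          have : k = k' := funext fun l => hk l (by simp)
          rw [this]
        simpa using Set.ncard_le_ncard this (Set.toFinite _)
      | insert u T hu ih =>
        rw [Finset.card_insert_of_notMem hu]
        calc _ ≤ _ := ih
          _ ≤ (q ^ (m ^ s)) ^ T.card * (q ^ (m ^ s) * _) :=
            Nat.mul_le_mul_left _ (step764 V q j m s hq hm R I g T u hu)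
          _ = _ := by rw [← mul_assoc, ← pow_succ]
    have h2 := h univ
    rw [Finset.card_univ, Fintype.card_fin, ← pow_mul, mul_comm (m ^ s) s] at h2
    refine le_trans h2 (Nat.mul_le_mul_left _ (Set.ncard_le_ncard ?_ (Set.toFinite _)))
    rintro A ⟨h3, h4⟩
    exact ⟨h3, fun k k' => h4 k k' (fun l hl => absurd (Finset.mem_univ l) hl)⟩

end M_class
end Jump764
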