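import Pool.Agent.Helper764.JumpDefs
import Pool.Agent.Helper764.Jump_class

set_option autoImplicit false
set_option maxHeartbeats 4000000
open Finset Filter

namespace Jump764
namespace M_classes

theorem given_class : St_class := M_class.J_class




theorem J_classes : St_classes := by
  classical
  have hfib : ∀ (α : Type) [Fintype α] (q : ℕ) (p : α → Prop) (f : α → Fin q),
      {a | p a}.ncard = ∑ c : Fin q, {a | p a ∧ f a = c}.ncard := by
    intro α _ q p f
    have h1 : ∀ r : α → Prop, {a | r a}.ncard = (Finset.univ.filter r).card := by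
      intro r
      rw [← Set.ncard_coe_finset]
      congr 1
      ext a
      simp
    rw [h1 p, Finset.card_eq_sum_card_fiberwise (f := f) (t := Finset.univ)
      (fun x _ => Finset.mem_coe.2 (Finset.mem_univ _))]
    refine Finset.sum_congr rfl (fun c _ => ?_)
    rw [h1 (fun a => p a ∧ f a = c), Finset.filter_filter]
    congr 1
    ext a
    simp
  intro V _ q j m s hq R S g
  induction S using Finset.induction_on generalizing R with
  | empty => simp
  | insert I S hI ih =>
    have h0 := given_class V q j m s hq R I g
    rcases Nat.eq_zero_or_pos m with hm | hm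
    · subst hm
      have hcl : ∀ (A : Fin j → Fin 0 → V) (I' : Fin s ↪o Fin j), ClassMono g A I' := by
        intro A I' k k'
        congr 1
        funext l
        exact (k l).elim0
      have hset : {A : Fin j → Fin 0 → V |
          (∀ k : Fin j → Fin 0, R (fun i => A i (k i))) ∧ ∀ I' ∈ insert I S, ClassMono g A I'} =
          {A : Fin j → Fin 0 → V | ∀ k : Fin j → Fin 0, R (fun i => A i (k i))} := by
        ext A
        exact ⟨fun h => h.1, fun h => ⟨h, fun I' _ => hcl A I'⟩⟩
      rw [hset]
      exact Nat.le_mul_of_pos_left _ (pow_pos hq _)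
    · let k0 : Fin m := ⟨0, hm⟩
      let col : (Fin j → Fin m → V) → Fin q := fun A => g (fun l => A (I l) k0)
      let Rc : Fin q → (Fin j → V) → Prop := fun c v => R v ∧ g (fun l => v (I l)) = c
      have hfinA : ∀ X : Set (Fin j → Fin m → V), X.Finite := fun X => Set.toFinite X
      have step1 : {A : Fin j → Fin m → V |
          (∀ k : Fin j → Fin m, R (fun i => A i (k i))) ∧ ClassMono g A I}.ncard ≤
          ∑ c : Fin q, {A : Fin j → Fin m → V |
            ∀ k : Fin j → Fin m, Rc c (fun i => A i (k i))}.ncard := by
        rw [hfib (Fin j → Fin m → V) q _ col]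
        refine Finset.sum_le_sum (fun c _ => Set.ncard_le_ncard ?_ (hfinA _))
        rintro A ⟨⟨hR, hC⟩, hc⟩ k
        refine ⟨hR k, ?_⟩
        rw [← hc]
        exact hC (fun l => k (I l)) (fun _ => k0)
      have step3 : ∑ c : Fin q, {A : Fin j → Fin m → V |
            (∀ k : Fin j → Fin m, Rc c (fun i => A i (k i))) ∧
              ∀ I' ∈ S, ClassMono g A I'}.ncard ≤
          {A : Fin j → Fin m → V | (∀ k : Fin j → Fin m, R (fun i => A i (k i))) ∧
            ∀ I' ∈ insert I S, ClassMono g A I'}.ncard := by
        rw [hfib (Fin j → Fin m → V) q (fun A => (∀ k : Fin j → Fin m, R (fun i => A i (k i))) ∧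
            ∀ I' ∈ insert I S, ClassMono g A I') col]
        refine Finset.sum_le_sum (fun c _ => Set.ncard_le_ncard ?_ (hfinA _))
        rintro A ⟨hRc, hS⟩
        have hall : ∀ k : Fin s → Fin m, g (fun l => A (I l) (k l)) = c := by
          intro k
          have h := (hRc (Function.extend I k (fun _ => k0))).2
          have he : ∀ l, Function.extend I k (fun _ => k0) (I l) = k l :=
            fun l => I.injective.extend_apply _ _ l
          simp only [he] at h
          exact h
        refine ⟨⟨fun k => (hRc k).1, ?_⟩, ?_⟩
        · intro I' hI'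
          rcases Finset.mem_insert.1 hI' with h | h
          · subst h
            intro k k'
            rw [hall k, hall k']
          · exact hS I' h
        · exact (hRc (fun _ => k0)).2
      have step2 : ∀ c : Fin q, {A : Fin j → Fin m → V |
            ∀ k : Fin j → Fin m, Rc c (fun i => A i (k i))}.ncard ≤
          q ^ (S.card * (s * m ^ s)) * {A : Fin j → Fin m → V |
            (∀ k : Fin j → Fin m, Rc c (fun i => A i (k i))) ∧
              ∀ I' ∈ S, ClassMono g A I'}.ncard := fun c => ih (Rc c)
      calc {A : Fin j → Fin m → V | ∀ k : Fin j → Fin m, R (fun i => A i (k i))}.ncard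
          ≤ q ^ (s * m ^ s) * {A : Fin j → Fin m → V |
            (∀ k : Fin j → Fin m, R (fun i => A i (k i))) ∧ ClassMono g A I}.ncard := h0
        _ ≤ q ^ (s * m ^ s) * ∑ c : Fin q, {A : Fin j → Fin m → V |
            ∀ k : Fin j → Fin m, Rc c (fun i => A i (k i))}.ncard :=
            Nat.mul_le_mul_left _ step1
        _ ≤ q ^ (s * m ^ s) * ∑ c : Fin q, (q ^ (S.card * (s * m ^ s)) *
            {A : Fin j → Fin m → V | (∀ k : Fin j → Fin m, Rc c (fun i => A i (k i))) ∧
              ∀ I' ∈ S, ClassMono g A I'}.ncard) :=
            Nat.mul_le_mul_left _ (Finset.sum_le_sum (fun c _ => step2 c))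
        _ = q ^ (s * m ^ s) * (q ^ (S.card * (s * m ^ s)) * ∑ c : Fin q,
            {A : Fin j → Fin m → V | (∀ k : Fin j → Fin m, Rc c (fun i => A i (k i))) ∧
              ∀ I' ∈ S, ClassMono g A I'}.ncard) := by
            congr 1
            exact (Finset.mul_sum _ _ _).symm
        _ ≤ q ^ (s * m ^ s) * (q ^ (S.card * (s * m ^ s)) *
            {A : Fin j → Fin m → V | (∀ k : Fin j → Fin m, R (fun i => A i (k i))) ∧
            ∀ I' ∈ insert I S, ClassMono g A I'}.ncard) :=
            Nat.mul_le_mul_left _ (Nat.mul_le_mul_left _ step3)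
        _ = q ^ ((insert I S).card * (s * m ^ s)) *
            {A : Fin j → Fin m → V | (∀ k : Fin j → Fin m, R (fun i => A i (k i))) ∧
            ∀ I' ∈ insert I S, ClassMono g A I'}.ncard := by
            rw [Finset.card_insert_of_notMem hI, ← mul_assoc, ← pow_add]
            congr 2
            ring


end M_classes
end Jump764
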