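import Pool.Agent.Helper764.JumpDefs
import Pool.Agent.Helper764.Jump_classes

set_option autoImplicit false
set_option maxHeartbeats 4000000
open Finset Filter

namespace Jump764
namespace M_x

theorem given_classes : St_classes := M_classes.J_classes



/-- the pattern set -/
theorem x_pattern {V : Type} {q j m s : ℕ} (hm : 0 < m) (χ : (Fin (s + 1) → V) → Fin q)
    (θ : (Fin (s + 1) ↪o Fin j) → Fin q) (A : Fin j → Fin m → V) :
    (∀ k : Fin j → Fin m, ∀ I : Fin (s + 1) ↪o Fin j,
      χ (fun l => (fun i => A i (k i)) (I l)) = θ I) ↔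
    (Good χ A ∧ (fun I : Fin (s + 1) ↪o Fin j => χ (fun l => A (I l) ⟨0, hm⟩)) = θ) := by
  constructor
  · intro h
    have key : ∀ (I : Fin (s + 1) ↪o Fin j) (k : Fin (s + 1) → Fin m),
        χ (fun l => A (I l) (k l)) = θ I := by
      intro I k
      have h1 := h (Function.extend I k (fun _ => ⟨0, hm⟩)) I
      have h2 : (fun l => (fun i => A i ((Function.extend I k (fun _ => ⟨0, hm⟩)) i)) (I l)) =
          fun l => A (I l) (k l) := by
        funext l
        show A (I l) (Function.extend I k (fun _ => ⟨0, hm⟩) (I l)) = _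
        rw [I.injective.extend_apply]
      rw [h2] at h1
      exact h1
    refine ⟨fun I k k' => ?_, ?_⟩
    · rw [key I k, key I k']
    · funext I
      exact key I (fun _ => ⟨0, hm⟩)
  · rintro ⟨h1, h2⟩ k I
    rw [← h2]
    exact h1 I (fun l => k (I l)) (fun _ => ⟨0, hm⟩)


theorem J_x : St_x := by
  classical
  intro V _ q j m s hq hm χ x
  letI F1 : Fintype (Fin (s + 1) ↪o Fin j) :=
    Fintype.ofInjective (fun I : Fin (s + 1) ↪o Fin j => (I : Fin (s + 1) → Fin j))
      DFunLike.coe_injective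
  letI F2 : Fintype (Fin s ↪o Fin j) :=
    Fintype.ofInjective (fun I : Fin s ↪o Fin j => (I : Fin s → Fin j))
      DFunLike.coe_injective
  have hcard : (univ : Finset (Fin s ↪o Fin j)).card ≤ j ^ s := by
    have h1 := Fintype.card_le_of_injective
      (fun I : Fin s ↪o Fin j => (I : Fin s → Fin j)) DFunLike.coe_injective
    rw [Fintype.card_fun, Fintype.card_fin, Fintype.card_fin] at h1
    rw [Finset.card_univ]
    exact h1
  let g : (Fin s → V) → Fin q := fun v => χ (Fin.snoc v x : Fin (s + 1) → V)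
  let Θ : (Fin j → Fin m → V) → ((Fin (s + 1) ↪o Fin j) → Fin q) := fun A I =>
    χ (fun l => A (I l) ⟨0, hm⟩)
  let X : Finset (Fin j → Fin m → V) := univ.filter (fun A => Good χ A)
  let Y : Finset (Fin j → Fin m → V) := univ.filter (fun A => Good χ A ∧ Good g A)
  have hX : {A : Fin j → Fin m → V | Good χ A}.ncard = X.card := by
    rw [← Set.ncard_coe_finset]
    congr 1
    ext A
    simp [X]
  have hY : {A : Fin j → Fin m → V | Good χ A ∧
      Good (fun v : Fin s → V => χ (Fin.snoc v x : Fin (s + 1) → V)) A}.ncard = Y.card := by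
    rw [← Set.ncard_coe_finset]
    congr 1
    ext A
    simp [Y, g]
  rw [hX, hY]
  have eX : X.card = ∑ θ : (Fin (s + 1) ↪o Fin j) → Fin q, (X.filter (fun A => Θ A = θ)).card :=
    Finset.card_eq_sum_card_fiberwise (fun _ _ => Finset.mem_coe.mpr (Finset.mem_univ _))
  have eY : Y.card = ∑ θ : (Fin (s + 1) ↪o Fin j) → Fin q, (Y.filter (fun A => Θ A = θ)).card :=
    Finset.card_eq_sum_card_fiberwise (fun _ _ => Finset.mem_coe.mpr (Finset.mem_univ _))
  rw [eX, eY, Finset.mul_sum]
  refine Finset.sum_le_sum (fun θ _ => ?_)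
  have h := given_classes V q j m s hq
    (fun v => ∀ I : Fin (s + 1) ↪o Fin j, χ (fun l => v (I l)) = θ I) univ g
  have h1 : {A : Fin j → Fin m → V | ∀ k : Fin j → Fin m,
      (fun v : Fin j → V => ∀ I : Fin (s + 1) ↪o Fin j, χ (fun l => v (I l)) = θ I)
        (fun i => A i (k i))}.ncard = (X.filter (fun A => Θ A = θ)).card := by
    rw [← Set.ncard_coe_finset]
    congr 1
    ext A
    have := x_pattern hm χ θ A
    simp only [Set.mem_setOf_eq, X, Finset.coe_filter, Finset.mem_filter, Finset.mem_univ,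
      true_and]
    exact this
  have h2 : {A : Fin j → Fin m → V | (∀ k : Fin j → Fin m,
      (fun v : Fin j → V => ∀ I : Fin (s + 1) ↪o Fin j, χ (fun l => v (I l)) = θ I)
        (fun i => A i (k i))) ∧ ∀ I ∈ (univ : Finset (Fin s ↪o Fin j)), ClassMono g A I}.ncard =
      (Y.filter (fun A => Θ A = θ)).card := by
    rw [← Set.ncard_coe_finset]
    congr 1
    ext A
    have := x_pattern hm χ θ A
    simp only [Set.mem_setOf_eq, Y, Finset.coe_filter, Finset.mem_filter, Finset.mem_univ,
      true_and, true_implies]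
    constructor
    · rintro ⟨a, b⟩
      have a' := this.mp a
      exact ⟨⟨a'.1, b⟩, a'.2⟩
    · rintro ⟨⟨a, b⟩, c⟩
      exact ⟨this.mpr ⟨a, c⟩, b⟩
  rw [h1, h2] at h
  refine h.trans (Nat.mul_le_mul_right _ ?_)
  exact Nat.pow_le_pow_right hq (Nat.mul_le_mul_right _ hcard)


end M_x
end Jump764
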