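import Pool.Agent.Helper764.JumpDefs
import Pool.Agent.Helper764.Jump_x

set_option autoImplicit false
set_option maxHeartbeats 4000000
open Finset Filter

namespace Jump764
namespace M_step

theorem given_x : St_x := M_x.J_x



theorem J_step_ncard {α : Type} [Fintype α] (p : α → Prop) [DecidablePred p] :
    {a | p a}.ncard = (univ.filter p).card := by
  rw [← Set.ncard_coe_finset]
  congr 1
  ext a
  simp

open Classical in
/-- pigeonhole with powers -/
theorem J_step_fiber (V P : Type) [Fintype V] [Fintype P] [Nonempty P] (X : Finset V) (g : V → P)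
    (m : ℕ) : X.card ^ m ≤ (Fintype.card P) ^ m *
      (univ.filter (fun a : Fin m → V => (∀ k, a k ∈ X) ∧ ∀ k k', g (a k) = g (a k'))).card := by
  obtain ⟨p, -, hp⟩ := Finset.exists_max_image univ (fun p => (X.filter (fun x => g x = p)).card)
    (univ_nonempty (α := P))
  have h1 : X.card ≤ Fintype.card P * (X.filter (fun x => g x = p)).card := by
    rw [Finset.card_eq_sum_card_fiberwise (f := g) (t := univ) (fun x _ => mem_univ _)]
    refine (Finset.sum_le_card_nsmul _ _ _ (fun p' hp' => hp p' hp')).trans ?_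
    rw [smul_eq_mul, card_univ]
  have h2 : (X.filter (fun x => g x = p)).card ^ m ≤
      (univ.filter (fun a : Fin m → V => (∀ k, a k ∈ X) ∧ ∀ k k', g (a k) = g (a k'))).card := by
    have h3 := Fintype.card_piFinset_const (X.filter (fun x => g x = p)) m
    rw [← h3]
    apply Finset.card_le_card
    intro a ha
    rw [Fintype.mem_piFinset] at ha
    rw [mem_filter]
    refine ⟨mem_univ _, fun k => (mem_filter.mp (ha k)).1, fun k k' => ?_⟩
    rw [(mem_filter.mp (ha k)).2, (mem_filter.mp (ha k')).2]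
  calc X.card ^ m ≤ (Fintype.card P * (X.filter (fun x => g x = p)).card) ^ m :=
        Nat.pow_le_pow_left h1 m
    _ = (Fintype.card P) ^ m * (X.filter (fun x => g x = p)).card ^ m := mul_pow _ _ _
    _ ≤ _ := Nat.mul_le_mul_left _ h2

/-- order embeddings whose values avoid the last index -/
theorem J_step_lower {r j : ℕ} (f : Fin r → Fin (j + 1)) (hf : StrictMono f)
    (hlt : ∀ l, f l < Fin.last j) : ∃ I : Fin r ↪o Fin j, ∀ l, f l = Fin.castSucc (I l) := by
  let g : Fin r → Fin j := fun l => ⟨(f l).val, Fin.lt_def.mp (hlt l)⟩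
  have hg : StrictMono g := fun a b hab => by
    rw [Fin.lt_def]
    exact Fin.lt_def.mp (hf hab)
  exact ⟨OrderEmbedding.ofStrictMono g hg, fun l => Fin.ext rfl⟩

/-- extending a good structure -/
theorem J_step_ext {V : Type} {q j m s : ℕ} (hm : 0 < m) (χ : (Fin (s + 1) → V) → Fin q)
    (A : Fin j → Fin m → V) (b : Fin m → V) (hA : Good χ A)
    (hb : ∀ k, Good (fun v : Fin s → V => χ (Fin.snoc v (b k) : Fin (s + 1) → V)) A)
    (hpat : ∀ k k', (fun I : Fin s ↪o Fin j =>
        χ (Fin.snoc (fun l => A (I l) ⟨0, hm⟩) (b k) : Fin (s + 1) → V)) =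
      (fun I : Fin s ↪o Fin j =>
        χ (Fin.snoc (fun l => A (I l) ⟨0, hm⟩) (b k') : Fin (s + 1) → V))) :
    Good χ (Fin.snoc A b : Fin (j + 1) → Fin m → V) := by
  intro I k k'
  rcases (Fin.le_last (I (Fin.last s))).lt_or_eq with h | h
  · obtain ⟨I', hI'⟩ := J_step_lower (fun l => I l) I.strictMono (fun l =>
      lt_of_le_of_lt (I.monotone (Fin.le_last l)) h)
    have e : ∀ kk : Fin (s + 1) → Fin m,
        (fun l => (Fin.snoc A b : Fin (j + 1) → Fin m → V) (I l) (kk l))
          = fun l => A (I' l) (kk l) := by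
      intro kk
      funext l
      rw [hI' l, Fin.snoc_castSucc]
    rw [e, e]
    exact hA I' k k'
  · obtain ⟨I', hI'⟩ := J_step_lower (fun l : Fin s => I (Fin.castSucc l))
      (fun a b hab => I.strictMono (Fin.castSucc_lt_castSucc_iff.mpr hab)) (fun l => by
        rw [← h]
        exact I.strictMono (Fin.castSucc_lt_last l))
    have e : ∀ kk : Fin (s + 1) → Fin m,
        (fun l => (Fin.snoc A b : Fin (j + 1) → Fin m → V) (I l) (kk l))
          = Fin.snoc (fun l : Fin s => A (I' l) (kk (Fin.castSucc l))) (b (kk (Fin.last s))) := by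
      intro kk
      funext l
      refine Fin.lastCases ?_ (fun l => ?_) l
      · rw [h, Fin.snoc_last, Fin.snoc_last]
      · rw [Fin.snoc_castSucc, hI' l, Fin.snoc_castSucc]
    have key : ∀ kk : Fin (s + 1) → Fin m,
        χ (fun l => (Fin.snoc A b : Fin (j + 1) → Fin m → V) (I l) (kk l))
          = χ (Fin.snoc (fun l => A (I' l) ⟨0, hm⟩) (b ⟨0, hm⟩) : Fin (s + 1) → V) := by
      intro kk
      rw [e kk]
      have h1 := hb (kk (Fin.last s)) I' (fun l => kk (Fin.castSucc l)) (fun _ => ⟨0, hm⟩)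
      have h2 := congrFun (hpat (kk (Fin.last s)) ⟨0, hm⟩) I'
      exact h1.trans h2
    rw [key k, key k']

theorem J_step_snoc_inj {V : Type} {j m : ℕ} (A A' : Fin j → Fin m → V) (b b' : Fin m → V)
    (h : (Fin.snoc A b : Fin (j + 1) → Fin m → V) = Fin.snoc A' b') : A = A' ∧ b = b' := by
  constructor
  · funext i
    have := congrFun h (Fin.castSucc i)
    rwa [Fin.snoc_castSucc, Fin.snoc_castSucc] at this
  · have := congrFun h (Fin.last j)
    rwa [Fin.snoc_last, Fin.snoc_last] at this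


theorem J_step : St_step := by
  classical
  intro V _ q j m s hq hm χ
  obtain ⟨m', rfl⟩ : ∃ m', m = m' + 1 := ⟨m - 1, by omega⟩
  haveI : NeZero q := ⟨hq.ne'⟩
  rw [J_step_ncard, J_step_ncard]
  let G : Finset (Fin j → Fin (m' + 1) → V) := univ.filter (fun A => Good χ A)
  let G' : Finset (Fin (j + 1) → Fin (m' + 1) → V) := univ.filter (fun A => Good χ A)
  change G.card * Fintype.card V ^ (m' + 1) ≤ q ^ (j ^ s * (s + 1) * (m' + 1) ^ (s + 1)) * G'.card
  let r : (Fin j → Fin (m' + 1) → V) → V → Prop := fun A x =>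
    Good (fun v : Fin s → V => χ (Fin.snoc v x : Fin (s + 1) → V)) A
  let ρ : ℕ := q ^ (j ^ s * (s * (m' + 1) ^ s))
  let T : (Fin j → Fin (m' + 1) → V) → Finset V := fun A => univ.bipartiteAbove r A
  have hmemT : ∀ A x, x ∈ T A ↔ r A x := by
    intro A x
    rw [Finset.mem_bipartiteAbove]
    exact ⟨fun h => h.2, fun h => ⟨mem_univ _, h⟩⟩
  -- double counting
  have hdc : Fintype.card V * G.card ≤ ρ * ∑ A ∈ G, (T A).card := by
    rw [Finset.sum_card_bipartiteAbove_eq_sum_card_bipartiteBelow, Finset.mul_sum]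
    have h1 : Fintype.card V * G.card = ∑ _x : V, G.card := by
      rw [Finset.sum_const, card_univ, smul_eq_mul]
    rw [h1]
    apply Finset.sum_le_sum
    intro x _
    have h2 := given_x V q j (m' + 1) s hq hm χ x
    rw [J_step_ncard, J_step_ncard] at h2
    refine h2.trans (Nat.mul_le_mul_left _ (Finset.card_le_card ?_))
    intro A hA
    rw [mem_filter] at hA
    rw [Finset.mem_bipartiteBelow]
    exact ⟨mem_filter.mpr ⟨mem_univ _, hA.2.1⟩, hA.2.2⟩
  -- power mean
  have hpm : G.card * Fintype.card V ^ (m' + 1) ≤ ρ ^ (m' + 1) * ∑ A ∈ G, (T A).card ^ (m' + 1) := by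
    rcases Nat.eq_zero_or_pos G.card with h0 | h0
    · rw [h0, zero_mul]
      exact Nat.zero_le _
    · have h1 : (Fintype.card V * G.card) ^ (m' + 1)
          ≤ ρ ^ (m' + 1) * (G.card ^ m' * ∑ A ∈ G, (T A).card ^ (m' + 1)) := by
        refine (Nat.pow_le_pow_left hdc _).trans ?_
        rw [mul_pow]
        apply Nat.mul_le_mul_left
        have := pow_sum_le_card_mul_sum_pow (s := G) (f := fun A => (T A).card)
          (fun _ _ => Nat.zero_le _) m'
        simpa using this
      have h2 : G.card ^ m' * (G.card * Fintype.card V ^ (m' + 1))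
          ≤ G.card ^ m' * (ρ ^ (m' + 1) * ∑ A ∈ G, (T A).card ^ (m' + 1)) := by
        calc G.card ^ m' * (G.card * Fintype.card V ^ (m' + 1))
            = (Fintype.card V * G.card) ^ (m' + 1) := by
              rw [mul_pow, pow_succ G.card]
              ring
          _ ≤ _ := h1
          _ = _ := by ring
      exact Nat.le_of_mul_le_mul_left h2 (pow_pos h0 _)
  -- patterns
  let π : (Fin j → Fin (m' + 1) → V) → V → ((Fin s ↪o Fin j) → Fin q) := fun A x I =>
    χ (Fin.snoc (fun l => A (I l) ⟨0, hm⟩) x : Fin (s + 1) → V)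
  let B : (Fin j → Fin (m' + 1) → V) → Finset (Fin (m' + 1) → V) := fun A =>
    univ.filter (fun b => (∀ k, b k ∈ T A) ∧ ∀ k k', π A (b k) = π A (b k'))
  have hP : Fintype.card ((Fin s ↪o Fin j) → Fin q) ≤ q ^ (j ^ s) := by
    rw [Fintype.card_fun, Fintype.card_fin]
    apply Nat.pow_le_pow_right hq
    have h1 : Fintype.card (Fin s ↪o Fin j) ≤ Fintype.card (Fin s → Fin j) :=
      Fintype.card_le_of_injective (fun I => (I : Fin s → Fin j)) DFunLike.coe_injective
    rwa [Fintype.card_fun, Fintype.card_fin, Fintype.card_fin] at h1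
  have hfib : ∀ A, (T A).card ^ (m' + 1) ≤ (q ^ (j ^ s)) ^ (m' + 1) * (B A).card := by
    intro A
    have h1 := J_step_fiber V ((Fin s ↪o Fin j) → Fin q) (T A) (π A) (m' + 1)
    refine h1.trans ?_
    refine le_trans (le_of_eq ?_)
      (Nat.mul_le_mul_right (B A).card (Nat.pow_le_pow_left hP (m' + 1)))
    congr
  have hinj : ∑ A ∈ G, (B A).card ≤ G'.card := by
    rw [← Finset.card_sigma]
    apply Finset.card_le_card_of_injOn
      (fun p : (Σ _ : (Fin j → Fin (m' + 1) → V), (Fin (m' + 1) → V)) =>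
        (Fin.snoc p.1 p.2 : Fin (j + 1) → Fin (m' + 1) → V))
    · rintro ⟨A, b⟩ hp
      rw [Finset.mem_coe, Finset.mem_sigma] at hp
      obtain ⟨hA, hb⟩ := hp
      have hA' := (mem_filter.mp hA).2
      have hb' := (mem_filter.mp hb).2
      exact mem_filter.mpr ⟨mem_univ _, J_step_ext hm χ A b hA' (fun k => (hmemT A _).mp (hb'.1 k))
        (fun k k' => hb'.2 k k')⟩
    · rintro ⟨A, b⟩ _ ⟨A', b'⟩ _ h
      obtain ⟨h1, h2⟩ := J_step_snoc_inj A A' b b' h
      subst h1
      subst h2
      rfl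
  calc G.card * Fintype.card V ^ (m' + 1)
      ≤ ρ ^ (m' + 1) * ∑ A ∈ G, (T A).card ^ (m' + 1) := hpm
    _ ≤ ρ ^ (m' + 1) * ∑ A ∈ G, (q ^ (j ^ s)) ^ (m' + 1) * (B A).card :=
        Nat.mul_le_mul_left _ (Finset.sum_le_sum fun A _ => hfib A)
    _ = (ρ ^ (m' + 1) * (q ^ (j ^ s)) ^ (m' + 1)) * ∑ A ∈ G, (B A).card := by
        rw [← Finset.mul_sum, mul_assoc]
    _ ≤ (ρ ^ (m' + 1) * (q ^ (j ^ s)) ^ (m' + 1)) * G'.card := Nat.mul_le_mul_left _ hinj
    _ ≤ q ^ (j ^ s * (s + 1) * (m' + 1) ^ (s + 1)) * G'.card := by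
        apply Nat.mul_le_mul_right
        change (q ^ (j ^ s * (s * (m' + 1) ^ s))) ^ (m' + 1) * (q ^ (j ^ s)) ^ (m' + 1) ≤ _
        rw [← pow_mul, ← pow_mul, ← pow_add]
        apply Nat.pow_le_pow_right hq
        have h1 : m' + 1 ≤ (m' + 1) ^ (s + 1) := Nat.le_self_pow (by omega) _
        have h2 : j ^ s * (m' + 1) ≤ j ^ s * (m' + 1) ^ (s + 1) := Nat.mul_le_mul_left _ h1
        calc j ^ s * (s * (m' + 1) ^ s) * (m' + 1) + j ^ s * (m' + 1)
            ≤ j ^ s * (s * (m' + 1) ^ s) * (m' + 1) + j ^ s * (m' + 1) ^ (s + 1) :=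
              Nat.add_le_add_left h2 _
          _ = j ^ s * (s + 1) * (m' + 1) ^ (s + 1) := by ring


end M_step
end Jump764
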