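import Pool.Agent.Helper764.JumpDefs
import Pool.Agent.Helper764.Jump_step

set_option autoImplicit false
set_option maxHeartbeats 4000000
open Finset Filter

namespace Jump764
namespace M_count

theorem given_step : St_step := M_step.J_step




theorem J_count : St_count := by
  intro V _ q D m s hq hm χ
  induction D with
  | zero =>
    have h0 : (0 : ℕ) ^ (s + 1) = 0 := by simp
    rw [h0]
    simp only [Nat.zero_mul, pow_zero, Nat.one_mul]
    rw [Nat.one_le_iff_ne_zero, ← Nat.pos_iff_ne_zero, Set.ncard_pos (Set.toFinite _)]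
    exact ⟨fun i => i.elim0, fun I => (I 0).elim0⟩
  | succ D ih =>
    have h1 := given_step V q D m s hq hm χ
    set G := {A : Fin D → Fin m → V | Good χ A}.ncard with hG
    set G' := {A : Fin (D + 1) → Fin m → V | Good χ A}.ncard with hG'
    have e1 : (Fintype.card V) ^ ((D + 1) * m)
        = (Fintype.card V) ^ (D * m) * (Fintype.card V) ^ m := by
      rw [← pow_add]
      congr 1
      ring
    rw [e1]
    calc (Fintype.card V) ^ (D * m) * (Fintype.card V) ^ m
        ≤ (q ^ (D ^ (s + 1) * (s + 1) * m ^ (s + 1)) * G) * (Fintype.card V) ^ m :=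
          Nat.mul_le_mul_right _ ih
      _ = q ^ (D ^ (s + 1) * (s + 1) * m ^ (s + 1)) * (G * (Fintype.card V) ^ m) := by ring
      _ ≤ q ^ (D ^ (s + 1) * (s + 1) * m ^ (s + 1)) *
          (q ^ (D ^ s * (s + 1) * m ^ (s + 1)) * G') := Nat.mul_le_mul_left _ h1
      _ = q ^ (D ^ (s + 1) * (s + 1) * m ^ (s + 1) + D ^ s * (s + 1) * m ^ (s + 1)) * G' := by
          rw [pow_add]
          ring
      _ ≤ q ^ ((D + 1) ^ (s + 1) * (s + 1) * m ^ (s + 1)) * G' := by
          apply Nat.mul_le_mul_right
          apply Nat.pow_le_pow_right hq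
          have h2 : D ^ s ≤ (D + 1) ^ s := Nat.pow_le_pow_left (Nat.le_succ D) s
          have h3 : D ^ (s + 1) + D ^ s ≤ (D + 1) ^ (s + 1) := by
            calc D ^ (s + 1) + D ^ s = D ^ s * (D + 1) := by ring
              _ ≤ (D + 1) ^ s * (D + 1) := Nat.mul_le_mul_right _ h2
              _ = (D + 1) ^ (s + 1) := by ring
          calc D ^ (s + 1) * (s + 1) * m ^ (s + 1) + D ^ s * (s + 1) * m ^ (s + 1)
              = (D ^ (s + 1) + D ^ s) * ((s + 1) * m ^ (s + 1)) := by ring
            _ ≤ (D + 1) ^ (s + 1) * ((s + 1) * m ^ (s + 1)) := Nat.mul_le_mul_right _ h3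
            _ = (D + 1) ^ (s + 1) * (s + 1) * m ^ (s + 1) := by ring


end M_count
end Jump764
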