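import Pool.Agent.Helper764.JumpDefs
import Pool.Agent.Helper764.Jump_count

set_option autoImplicit false
set_option maxHeartbeats 4000000
open Finset Filter

namespace Jump764
namespace M_nondeg

theorem given_count : St_count := M_count.J_count




theorem bad_card370 (V : Type) [Fintype V] [DecidableEq V] (n : ℕ) (hn : 0 < n) :
    ((univ : Finset (Fin (2 * n) → V)).filter (fun a => (univ.image a).card < n)).card ≤
      (Fintype.card V) ^ n * n ^ (2 * n) := by
  classical
  have h1 : (univ : Finset (Fin (2 * n) → V)).filter (fun a => (univ.image a).card < n) ⊆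
      (univ : Finset ((Fin n → V) × (Fin (2 * n) → Fin n))).image (fun p => p.1 ∘ p.2) := by
    intro a ha
    have ha' := (mem_filter.1 ha).2
    have hmem : ∀ k, a k ∈ univ.image a := fun k => mem_image_of_mem a (mem_univ k)
    let S := univ.image a
    let f : Fin (2 * n) → Fin n := fun k => Fin.castLE ha'.le (S.equivFin ⟨a k, hmem k⟩)
    let e : Fin n → V := fun l => if h : l.1 < S.card then (S.equivFin.symm ⟨l.1, h⟩ : V)
      else a ⟨0, by omega⟩
    refine mem_image.2 ⟨(e, f), mem_univ _, ?_⟩
    funext k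
    show e (f k) = a k
    have hlt : (f k).1 < S.card := (S.equivFin ⟨a k, hmem k⟩).2
    have h2 : e (f k) = (S.equivFin.symm ⟨(f k).1, hlt⟩ : V) := dif_pos hlt
    rw [h2]
    have h3 : (⟨(f k).1, hlt⟩ : Fin S.card) = S.equivFin ⟨a k, hmem k⟩ := rfl
    rw [h3, Equiv.symm_apply_apply]
  refine (card_le_card h1).trans (card_image_le.trans ?_)
  simp [Fintype.card_prod, Fintype.card_fun]

theorem slice_card370 (β : Type) [Fintype β] [DecidableEq β] (D : ℕ) (i : Fin D) (p : β → Prop)
    [DecidablePred p] :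
    ((univ : Finset (Fin D → β)).filter (fun A => p (A i))).card =
      ((univ : Finset β).filter p).card * (Fintype.card β) ^ (D - 1) := by
  classical
  have h1 : ((univ : Finset (Fin D → β)).filter (fun A => p (A i))).card =
      (((univ : Finset β).filter p) ×ˢ (univ : Finset ({j // j ≠ i} → β))).card := by
    refine card_bij' (fun A _ => Equiv.funSplitAt i β A) (fun q _ => (Equiv.funSplitAt i β).symm q)
      ?_ ?_ ?_ ?_
    · intro A hA
      exact mem_product.2 ⟨mem_filter.2 ⟨mem_univ _, (mem_filter.1 hA).2⟩, mem_univ _⟩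
    · intro q hq
      refine mem_filter.2 ⟨mem_univ _, ?_⟩
      have := (mem_filter.1 (mem_product.1 hq).1).2
      simpa using this
    · intro A _
      exact Equiv.symm_apply_apply _ _
    · intro q _
      exact Equiv.apply_symm_apply _ _
  rw [h1, card_product]
  congr 1
  rw [card_univ, Fintype.card_fun]
  congr 1
  rw [Fintype.card_subtype_compl, Fintype.card_fin, Fintype.card_subtype_eq]

theorem J_nondeg : St_nondeg := by
  classical
  intro V _ _ q D n s hq hn hD χ hlt
  by_contra hcon
  push_neg at hcon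
  set N := Fintype.card V with hN
  set E := D ^ (s + 1) * (s + 1) * (2 * n) ^ (s + 1) with hE
  have hcount := given_count V q D (2 * n) s hq (by omega) χ
  rw [← hN, ← hE] at hcount
  have hset : {A : Fin D → Fin (2 * n) → V | Good χ A}.ncard =
      ((univ : Finset (Fin D → Fin (2 * n) → V)).filter (fun A => Good χ A)).card := by
    rw [← Set.ncard_coe_finset]
    congr 1
    ext A
    simp
  rw [hset] at hcount
  have hle : ((univ : Finset (Fin D → Fin (2 * n) → V)).filter (fun A => Good χ A)).card ≤
      D * ((N ^ n * n ^ (2 * n)) * (N ^ (2 * n)) ^ (D - 1)) := by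
    have hsub : (univ : Finset (Fin D → Fin (2 * n) → V)).filter (fun A => Good χ A) ⊆
        (univ : Finset (Fin D)).biUnion (fun i =>
          (univ : Finset (Fin D → Fin (2 * n) → V)).filter
            (fun A => (univ.image (A i)).card < n)) := by
      intro A hA
      obtain ⟨i, hi⟩ := hcon A (mem_filter.1 hA).2
      exact mem_biUnion.2 ⟨i, mem_univ _, mem_filter.2 ⟨mem_univ _, hi⟩⟩
    refine (card_le_card hsub).trans (card_biUnion_le.trans ?_)
    calc ∑ i : Fin D, ((univ : Finset (Fin D → Fin (2 * n) → V)).filter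
            (fun A => (univ.image (A i)).card < n)).card
        ≤ ∑ i : Fin D, ((N ^ n * n ^ (2 * n)) * (N ^ (2 * n)) ^ (D - 1)) := by
          refine sum_le_sum fun i _ => ?_
          rw [slice_card370 (Fin (2 * n) → V) D i (fun a => (univ.image a).card < n)]
          refine Nat.mul_le_mul (bad_card370 V n hn) ?_
          rw [Fintype.card_fun, Fintype.card_fin]
      _ = D * ((N ^ n * n ^ (2 * n)) * (N ^ (2 * n)) ^ (D - 1)) := by
          rw [sum_const, card_univ, Fintype.card_fin, smul_eq_mul]
  have hNpos : 0 < N := by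
    rcases Nat.eq_zero_or_pos N with h | h
    · rw [h, zero_pow (by omega)] at hlt
      exact absurd hlt (Nat.not_lt_zero _)
    · exact h
  obtain ⟨D', rfl⟩ : ∃ D', D = D' + 1 := ⟨D - 1, by omega⟩
  have h1 : N ^ ((D' + 1) * (2 * n)) = N ^ n * (N ^ n * (N ^ (2 * n)) ^ D') := by
    rw [← pow_mul, ← pow_add, ← pow_add]
    congr 1
    ring
  have h2 : N ^ ((D' + 1) * (2 * n)) ≤
      (q ^ E * (D' + 1) * n ^ (2 * n)) * (N ^ n * (N ^ (2 * n)) ^ D') := by
    calc N ^ ((D' + 1) * (2 * n)) ≤ q ^ E * ((D' + 1) * ((N ^ n * n ^ (2 * n)) *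
          (N ^ (2 * n)) ^ (D' + 1 - 1))) := hcount.trans (Nat.mul_le_mul_left _ hle)
      _ = (q ^ E * (D' + 1) * n ^ (2 * n)) * (N ^ n * (N ^ (2 * n)) ^ D') := by
          rw [Nat.add_sub_cancel]; ring
  have hpos : 0 < N ^ n * (N ^ (2 * n)) ^ D' := by positivity
  have h3 : (q ^ E * (D' + 1) * n ^ (2 * n)) * (N ^ n * (N ^ (2 * n)) ^ D') <
      N ^ n * (N ^ n * (N ^ (2 * n)) ^ D') := Nat.mul_lt_mul_of_pos_right hlt hpos
  rw [h1] at h2
  exact absurd h2 (not_le.2 h3)


end M_nondeg
end Jump764
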