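import Pool.Agent.Helper764.JumpDefs
import Pool.Agent.Helper764.Jump_nondeg

set_option autoImplicit false
set_option maxHeartbeats 4000000
open Finset Filter

namespace Jump764
namespace M_sets

theorem given_nondeg : St_nondeg := M_nondeg.J_nondeg




theorem J_sets : St_sets := by
  classical
  intro V _ _ q D n s hq hs hsn hsD χ hbound
  set χ' : (Fin (s + 1) → V) → Fin (q + 1) := fun v =>
    if Function.Injective v then (χ (univ.image v)).castSucc else Fin.last q with hχ'
  obtain ⟨A, hA, hcard⟩ := given_nondeg V (q + 1) D n s (by omega) (by omega) (by omega) χ' hbound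
  have hB : ∀ i, ∃ B : Finset V, B ⊆ univ.image (A i) ∧ B.card = n := fun i =>
    Finset.exists_subset_card_eq (hcard i)
  choose B hBsub hBcard using hB
  -- an injective transversal of every class
  have hinj : ∀ I : Fin (s + 1) ↪o Fin D, ∃ k : Fin (s + 1) → Fin (2 * n),
      Function.Injective (fun l => A (I l) (k l)) := by
    intro I
    have hhall : ∃ f : Fin (s + 1) → V, Function.Injective f ∧
        ∀ x, f x ∈ (fun l => univ.image (A (I l))) x := by
      rw [← Finset.all_card_le_biUnion_card_iff_exists_injective]
      intro S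
      rcases S.eq_empty_or_nonempty with rfl | ⟨l, hl⟩
      · simp
      · have h1 : S.card ≤ s + 1 := by
          have := Finset.card_le_univ S
          simpa using this
        have h2 : (univ.image (A (I l))).card ≤ (S.biUnion fun l => univ.image (A (I l))).card :=
          Finset.card_le_card (Finset.subset_biUnion_of_mem (fun l => univ.image (A (I l))) hl)
        have h3 := hcard (I l)
        omega
    obtain ⟨f, hf, hmem⟩ := hhall
    have hk : ∀ l, ∃ k, A (I l) k = f l := by
      intro l
      have := hmem l
      simpa using this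
    choose k hk using hk
    refine ⟨k, ?_⟩
    have : (fun l => A (I l) (k l)) = f := funext hk
    rw [this]; exact hf
  -- all transversals of every class are injective and have one colour
  have hclass : ∀ I : Fin (s + 1) ↪o Fin D, ∃ θ : Fin q, ∀ k : Fin (s + 1) → Fin (2 * n),
      Function.Injective (fun l => A (I l) (k l)) ∧
        χ (univ.image fun l => A (I l) (k l)) = θ := by
    intro I
    obtain ⟨k0, hk0⟩ := hinj I
    refine ⟨χ (univ.image fun l => A (I l) (k0 l)), fun k => ?_⟩
    have h1 := hA I k k0
    have h2 : χ' (fun l => A (I l) (k0 l)) = (χ (univ.image fun l => A (I l) (k0 l))).castSucc := by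
      simp only [hχ']
      rw [if_pos hk0]
    rw [h2] at h1
    by_cases hk : Function.Injective (fun l => A (I l) (k l))
    · refine ⟨hk, ?_⟩
      simp only [hχ'] at h1
      rw [if_pos hk] at h1
      exact Fin.castSucc_injective _ h1
    · exfalso
      simp only [hχ'] at h1
      rw [if_neg hk] at h1
      exact absurd h1.symm (Fin.castSucc_lt_last _).ne
  have hBA : ∀ i, ∀ x ∈ B i, ∃ k, A i k = x := by
    intro i x hx
    have := hBsub i hx
    simpa using this
  refine ⟨B, hBcard, ?_, ?_⟩
  · intro i i' hii'
    rw [Finset.disjoint_left]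
    intro x hx hx'
    obtain ⟨a, ha⟩ := hBA i x hx
    obtain ⟨a', ha'⟩ := hBA i' x hx'
    obtain ⟨T, hT, hTc⟩ : ∃ T : Finset (Fin D), {i, i'} ⊆ T ∧ T.card = s + 1 := by
      have h2 : ({i, i'} : Finset (Fin D)).card ≤ s + 1 := by
        rw [Finset.card_pair hii']; omega
      obtain ⟨T, h3, -, h4⟩ := Finset.exists_subsuperset_card_eq
        (Finset.subset_univ ({i, i'} : Finset (Fin D))) h2 (by simpa using hsD)
      exact ⟨T, h3, h4⟩
    have hrange : ∀ y ∈ T, ∃ l, T.orderEmbOfFin hTc l = y := by
      intro y hy
      have : y ∈ Set.range (T.orderEmbOfFin hTc) := by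
        rw [Finset.range_orderEmbOfFin]; exact hy
      exact this
    obtain ⟨l, hl⟩ := hrange i (hT (by simp))
    obtain ⟨l', hl'⟩ := hrange i' (hT (by simp))
    have hll' : l ≠ l' := by
      rintro rfl
      exact hii' (hl.symm.trans hl')
    obtain ⟨θ, hθ⟩ := hclass (T.orderEmbOfFin hTc)
    have hpos : 0 < 2 * n := by omega
    have h5 := (hθ (fun j => if j = l then a else if j = l' then a' else ⟨0, hpos⟩)).1
    have h6 : (fun j => A (T.orderEmbOfFin hTc j)
        ((fun j => if j = l then a else if j = l' then a' else ⟨0, hpos⟩ :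
          Fin (s + 1) → Fin (2 * n)) j)) l = (fun j => A (T.orderEmbOfFin hTc j)
        ((fun j => if j = l then a else if j = l' then a' else ⟨0, hpos⟩ :
          Fin (s + 1) → Fin (2 * n)) j)) l' := by
      simp only [if_true]
      rw [if_neg hll'.symm, hl, hl', ha, ha']
    exact hll' (h5 h6)
  · intro I
    obtain ⟨θ, hθ⟩ := hclass I
    refine ⟨θ, fun v hv => ?_⟩
    have hk : ∀ l, ∃ k, A (I l) k = v l := fun l => hBA (I l) (v l) (hv l)
    choose k hk using hk
    have h1 := (hθ k).2
    have h2 : (fun l => A (I l) (k l)) = v := funext hk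
    rw [h2] at h1
    exact h1


end M_sets
end Jump764
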