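import Pool.Agent.Helper764.JumpDefs
import Pool.Agent.Helper764.Jump_sets
import Pool.Agent.Helper764.Jump_ramsey

set_option autoImplicit false
set_option maxHeartbeats 4000000
open Finset Filter

namespace Jump764
namespace M_blowup

theorem given_sets : St_sets := M_sets.J_sets
theorem given_ramsey : St_ramsey := M_ramsey.J_ramsey



theorem blowup_arith (s q D n N : ℕ) (hs : 1 ≤ s) (hn : 1 ≤ n)
    (hN : 2 ^ ((q * (D ^ (s + 1) * (s + 1) * 2 ^ (s + 1)) + D + 2) * n ^ s) ≤ N) :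
    (q + 1) ^ (D ^ (s + 1) * (s + 1) * (2 * n) ^ (s + 1)) * D * n ^ (2 * n) < N ^ n := by
  obtain ⟨E, hE⟩ : ∃ E, E = D ^ (s + 1) * (s + 1) * 2 ^ (s + 1) := ⟨_, rfl⟩
  rw [← hE] at hN
  have e1 : D ^ (s + 1) * (s + 1) * (2 * n) ^ (s + 1) = E * n ^ (s + 1) := by
    rw [hE, mul_pow]
    ring
  rw [e1]
  have h1 : (q + 1) ^ (E * n ^ (s + 1)) ≤ 2 ^ (q * E * n ^ (s + 1)) := by
    calc (q + 1) ^ (E * n ^ (s + 1)) ≤ (2 ^ q) ^ (E * n ^ (s + 1)) :=
          Nat.pow_le_pow_left (Nat.lt_two_pow_self) _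
      _ = 2 ^ (q * E * n ^ (s + 1)) := by rw [← pow_mul, mul_assoc]
  have h2 : D < 2 ^ D := Nat.lt_two_pow_self
  have hns : n ^ 2 ≤ n ^ (s + 1) := Nat.pow_le_pow_right hn (by omega)
  have h3 : n ^ (2 * n) ≤ 2 ^ (2 * n ^ (s + 1)) := by
    calc n ^ (2 * n) ≤ (2 ^ n) ^ (2 * n) := Nat.pow_le_pow_left (Nat.lt_two_pow_self).le _
      _ = 2 ^ (2 * n ^ 2) := by rw [← pow_mul]; ring_nf
      _ ≤ 2 ^ (2 * n ^ (s + 1)) := Nat.pow_le_pow_right (by norm_num) (by omega)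
  have h4 : 2 ^ ((q * E + D + 2) * n ^ (s + 1)) ≤ N ^ n := by
    calc 2 ^ ((q * E + D + 2) * n ^ (s + 1)) = (2 ^ ((q * E + D + 2) * n ^ s)) ^ n := by
          rw [← pow_mul, pow_succ, mul_assoc]
      _ ≤ N ^ n := Nat.pow_le_pow_left hN _
  have hn1 : 1 ≤ n ^ (s + 1) := Nat.one_le_pow _ _ hn
  calc (q + 1) ^ (E * n ^ (s + 1)) * D * n ^ (2 * n)
      < (q + 1) ^ (E * n ^ (s + 1)) * 2 ^ D * n ^ (2 * n) := by
        apply Nat.mul_lt_mul_of_pos_right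
        · exact Nat.mul_lt_mul_of_pos_left h2 (by positivity)
        · exact Nat.pow_pos hn
    _ ≤ 2 ^ (q * E * n ^ (s + 1)) * 2 ^ D * 2 ^ (2 * n ^ (s + 1)) := by gcongr
    _ = 2 ^ (q * E * n ^ (s + 1) + D + 2 * n ^ (s + 1)) := by
        rw [pow_add 2 (q * E * n ^ (s + 1) + D) _, pow_add 2 (q * E * n ^ (s + 1)) D]
    _ ≤ 2 ^ ((q * E + D + 2) * n ^ (s + 1)) := by
        apply Nat.pow_le_pow_right (by norm_num)
        nlinarith [Nat.mul_le_mul_left D hn1]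
    _ ≤ N ^ n := h4


theorem J_blowup : St_blowup := by
  intro s q d hs hq
  obtain ⟨D₀, hD₀⟩ := given_ramsey (s + 1) q d hq
  obtain ⟨D, hD, hDs⟩ : ∃ D, D₀ ≤ D ∧ s + 1 ≤ D :=
    ⟨max D₀ (s + 1), le_max_left _ _, le_max_right _ _⟩
  refine ⟨q * (D ^ (s + 1) * (s + 1) * 2 ^ (s + 1)) + D + 2, ?_⟩
  intro n hn V _ _ hV χ
  have hlt := blowup_arith s q D n (Fintype.card V) hs (by omega) hV
  obtain ⟨B, hBc, hBd, hBI⟩ := given_sets V q D n s hq hs hn hDs χ hlt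
  choose Θ hΘ using hBI
  obtain ⟨J, hJ, θ, hθ⟩ := hD₀ D hD
    (fun e => if h : e.card = s + 1 then Θ (e.orderEmbOfFin h) else ⟨0, hq⟩)
  refine ⟨fun i => B (J.orderEmbOfFin hJ i), fun i => hBc _,
    fun i i' h => hBd _ _ (fun h' => h ((J.orderEmbOfFin hJ).injective h')), θ, ?_⟩
  intro e he hec hei
  have hex : ∀ v ∈ e, ∃ j : Fin D, (∃ i : Fin d, J.orderEmbOfFin hJ i = j) ∧ v ∈ B j := by
    intro v hv
    have h := he hv
    simp only [mem_biUnion, mem_univ, true_and] at h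
    obtain ⟨i, hi⟩ := h
    exact ⟨_, ⟨i, rfl⟩, hi⟩
  have : Nonempty (Fin D) := ⟨⟨0, by omega⟩⟩
  choose! ι hι using hex
  have hinj : Set.InjOn ι (e : Set V) := by
    intro v hv v' hv' hvv
    obtain ⟨⟨i, hi⟩, hvB⟩ := hι v hv
    have hvB' := (hι v' hv').2
    rw [← hvv, ← hi] at hvB'
    rw [← hi] at hvB
    exact card_le_one.1 (hei i) v (mem_inter.2 ⟨hv, hvB⟩) v' (mem_inter.2 ⟨hv', hvB'⟩)
  have hKc : (e.image ι).card = s + 1 := by rw [card_image_of_injOn hinj, hec]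
  have hKJ : e.image ι ⊆ J := by
    intro j hj
    obtain ⟨v, hv, rfl⟩ := mem_image.1 hj
    obtain ⟨⟨i, hi⟩, -⟩ := hι v hv
    rw [← hi]
    exact J.orderEmbOfFin_mem hJ i
  have h1 := hθ (e.image ι) hKJ hKc
  rw [dif_pos hKc] at h1
  have hmem : ∀ l : Fin (s + 1), ∃ v ∈ e, ι v = (e.image ι).orderEmbOfFin hKc l := by
    intro l
    exact mem_image.1 ((e.image ι).orderEmbOfFin_mem hKc l)
  choose v hve hvι using hmem
  have h2 := hΘ ((e.image ι).orderEmbOfFin hKc) v (fun l => by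
    rw [← hvι l]
    exact (hι _ (hve l)).2)
  have hvinj : Function.Injective v := by
    intro l l' h
    apply ((e.image ι).orderEmbOfFin hKc).injective
    rw [← hvι l, ← hvι l', h]
  have h3 : univ.image v = e := by
    apply Finset.eq_of_subset_of_card_le
    · intro w hw
      obtain ⟨l, _, rfl⟩ := mem_image.1 hw
      exact hve l
    · rw [card_image_of_injective _ hvinj, card_univ, Fintype.card_fin, hec]
  rw [h3] at h2
  rw [h2, h1]


end M_blowup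
end Jump764
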