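import Pool.Agent.Helper764.JumpDefs
import Pool.Agent.Helper764.Jump_blowup

set_option autoImplicit false
set_option maxHeartbeats 4000000
open Finset Filter

namespace Jump764
namespace M_almost

theorem given_blowup : St_blowup := M_blowup.J_blowup



theorem al_cnt1 {V : Type} [DecidableEq V] (X p : Finset V) (t : ℕ) (hp : p ⊆ X) (hpc : p.card = 2) :
    ((X.powersetCard t).filter (fun e => p ⊆ e)).card ≤ (X.card - 2).choose (t - 2) := by
  have h1 : ((X \ p).powersetCard (t - 2)).card = (X.card - 2).choose (t - 2) := by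
    rw [card_powersetCard, card_sdiff_of_subset hp, hpc]
  rw [← h1]
  refine card_le_card_of_injOn (fun e => e \ p) ?_ ?_
  · intro e he
    have he' : e ∈ (X.powersetCard t).filter (fun e => p ⊆ e) := he
    rw [mem_filter, mem_powersetCard] at he'
    have h2 : e \ p ∈ (X \ p).powersetCard (t - 2) := by
      rw [mem_powersetCard]
      refine ⟨sdiff_subset_sdiff he'.1.1 (le_refl _), ?_⟩
      rw [card_sdiff_of_subset he'.2, hpc, he'.1.2]
    exact h2
  · intro e he e' he' hee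
    have he1 : e ∈ (X.powersetCard t).filter (fun e => p ⊆ e) := he
    have he1' : e' ∈ (X.powersetCard t).filter (fun e => p ⊆ e) := he'
    rw [mem_filter] at he1 he1'
    have hee' : e \ p = e' \ p := hee
    rw [← sdiff_union_of_subset he1.2, ← sdiff_union_of_subset he1'.2, hee']

theorem al_cnt2 {V : Type} [DecidableEq V] (X B : Finset V) (t : ℕ) (hB : B ⊆ X) :
    ((X.powersetCard t).filter (fun e => 2 ≤ (e ∩ B).card)).card ≤
      B.card.choose 2 * (X.card - 2).choose (t - 2) := by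
  have hsub : (X.powersetCard t).filter (fun e => 2 ≤ (e ∩ B).card) ⊆
      (B.powersetCard 2).biUnion (fun p => (X.powersetCard t).filter (fun e => p ⊆ e)) := by
    intro e he
    rw [mem_filter] at he
    obtain ⟨p, hp1, hp2⟩ := exists_subset_card_eq he.2
    rw [mem_biUnion]
    refine ⟨p, ?_, ?_⟩
    · rw [mem_powersetCard]
      exact ⟨hp1.trans inter_subset_right, hp2⟩
    · rw [mem_filter]
      exact ⟨he.1, hp1.trans inter_subset_left⟩
  refine (card_le_card hsub).trans ?_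
  have h2 := card_biUnion_le_card_mul (B.powersetCard 2)
    (fun p => (X.powersetCard t).filter (fun e => p ⊆ e)) ((X.card - 2).choose (t - 2)) (by
      intro p hp
      rw [mem_powersetCard] at hp
      exact al_cnt1 X p t (hp.1.trans hB) hp.2)
  rwa [card_powersetCard] at h2

theorem al_cnt3 {V : Type} [DecidableEq V] (d n t : ℕ) (B : Fin d → Finset V)
    (hB : ∀ i, (B i).card = n) (bad : Finset (Finset V))
    (hbad : ∀ e ∈ bad, e ∈ (univ.biUnion B).powersetCard t ∧ ∃ i, 2 ≤ (e ∩ B i).card) :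
    bad.card ≤ d * (n.choose 2 * ((univ.biUnion B).card - 2).choose (t - 2)) := by
  have hsub : bad ⊆ (univ : Finset (Fin d)).biUnion
      (fun i => ((univ.biUnion B).powersetCard t).filter (fun e => 2 ≤ (e ∩ B i).card)) := by
    intro e he
    obtain ⟨h1, i, hi⟩ := hbad e he
    rw [mem_biUnion]
    exact ⟨i, mem_univ i, mem_filter.2 ⟨h1, hi⟩⟩
  refine (card_le_card hsub).trans ?_
  have h2 := card_biUnion_le_card_mul (univ : Finset (Fin d))
    (fun i => ((univ.biUnion B).powersetCard t).filter (fun e => 2 ≤ (e ∩ B i).card))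
    (n.choose 2 * ((univ.biUnion B).card - 2).choose (t - 2)) (by
      intro i _
      have h3 := al_cnt2 (univ.biUnion B) (B i) t (subset_biUnion_of_mem B (mem_univ i))
      rwa [hB i] at h3)
  simpa using h2

theorem al_ineq (d n t : ℕ) (α : ℝ) (hα : 0 < α) (hd1 : 1 ≤ d) (hd : (t:ℝ) ^ 2 ≤ α * d) (ht : 2 ≤ t)
    (hn : t ≤ n) :
    ((d * (n.choose 2 * (d * n - 2).choose (t - 2)) : ℕ) : ℝ) ≤ α * ((d * n).choose t : ℝ) := by
  have hdn : t ≤ d * n := hn.trans (Nat.le_mul_of_pos_left n hd1)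
  have h1 := Nat.choose_mul (n := d * n) ht
  have h2 : 0 < (d * n).choose 2 := Nat.choose_pos (ht.trans hdn)
  have h1' : ((d * n).choose t : ℝ) * (t.choose 2 : ℝ) =
      ((d * n).choose 2 : ℝ) * ((d * n - 2).choose (t - 2) : ℝ) := by exact_mod_cast h1
  have h2' : (0:ℝ) < ((d * n).choose 2 : ℝ) := by exact_mod_cast h2
  -- d * C(n,2) * d ≤ C(dn,2)
  have h3 : (d:ℝ) * (n.choose 2 : ℝ) * d ≤ ((d * n).choose 2 : ℝ) := by
    rw [Nat.cast_choose_two, Nat.cast_choose_two]
    push_cast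
    have hd1' : (1:ℝ) ≤ d := by exact_mod_cast hd1
    have hn0 : (0:ℝ) ≤ n := by positivity
    have h5 : (0:ℝ) ≤ (d:ℝ) * n * (d - 1) := by
      have : (0:ℝ) ≤ (d:ℝ) - 1 := by linarith
      positivity
    nlinarith [h5]
  have h4 : (t.choose 2 : ℝ) ≤ (t:ℝ) ^ 2 := by
    have := Nat.choose_le_pow t 2
    exact_mod_cast this
  have h6 : (t.choose 2 : ℝ) ≤ α * d := h4.trans hd
  have hd0 : (0:ℝ) < d := by exact_mod_cast hd1
  have h7 : (d:ℝ) * (n.choose 2 : ℝ) * (t.choose 2 : ℝ) ≤ α * ((d * n).choose 2 : ℝ) := by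
    calc (d:ℝ) * (n.choose 2 : ℝ) * (t.choose 2 : ℝ) ≤ (d:ℝ) * (n.choose 2 : ℝ) * (α * d) := by
          gcongr
      _ = α * ((d:ℝ) * (n.choose 2 : ℝ) * d) := by ring
      _ ≤ α * ((d * n).choose 2 : ℝ) := by gcongr
  have h8 : (((d * (n.choose 2 * (d * n - 2).choose (t - 2)) : ℕ) : ℝ)) * ((d * n).choose 2 : ℝ)
      ≤ (α * ((d * n).choose t : ℝ)) * ((d * n).choose 2 : ℝ) := by
    have h9 : (((d * (n.choose 2 * (d * n - 2).choose (t - 2)) : ℕ) : ℝ)) * ((d * n).choose 2 : ℝ)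
        = ((d:ℝ) * (n.choose 2 : ℝ) * (t.choose 2 : ℝ)) * ((d * n).choose t : ℝ) := by
      push_cast
      calc (d:ℝ) * ((n.choose 2 : ℝ) * ((d * n - 2).choose (t - 2) : ℝ)) * ((d * n).choose 2 : ℝ)
          = (d:ℝ) * (n.choose 2 : ℝ) *
            (((d * n).choose 2 : ℝ) * ((d * n - 2).choose (t - 2) : ℝ)) := by ring
        _ = (d:ℝ) * (n.choose 2 : ℝ) * (((d * n).choose t : ℝ) * (t.choose 2 : ℝ)) := by rw [h1']
        _ = _ := by ring
    rw [h9]
    calc ((d:ℝ) * (n.choose 2 : ℝ) * (t.choose 2 : ℝ)) * ((d * n).choose t : ℝ)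
        ≤ (α * ((d * n).choose 2 : ℝ)) * ((d * n).choose t : ℝ) := by gcongr
      _ = _ := by ring
  exact le_of_mul_le_mul_right h8 h2'


theorem J_almost : St_almost := by
  intro t ht α hα
  obtain ⟨d0, hd0⟩ := exists_nat_ge ((t:ℝ) ^ 2 / α)
  obtain ⟨d, hdd⟩ : ∃ d, d = d0 + 1 := ⟨_, rfl⟩
  have hd1 : 1 ≤ d := by omega
  have hd : (t:ℝ) ^ 2 ≤ α * d := by
    have h1 : (t:ℝ) ^ 2 ≤ d0 * α := (div_le_iff₀ hα).1 hd0
    have h2 : (d:ℝ) = d0 + 1 := by rw [hdd]; push_cast; ring
    rw [h2]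
    nlinarith
  obtain ⟨s, hs⟩ : ∃ s, t = s + 1 := ⟨t - 1, by omega⟩
  have hs1 : 1 ≤ s := by omega
  obtain ⟨C, hC⟩ := given_blowup s 2 d hs1 (by norm_num)
  refine ⟨C + 1, by omega, ?_⟩
  intro n hn N hN χ
  have hts : t - 1 = s := by omega
  rw [hts] at hN
  have hN' : 2 ^ (C * n ^ s) ≤ Fintype.card (Fin N) := by
    rw [Fintype.card_fin]
    refine le_trans ?_ hN
    apply Nat.pow_le_pow_right (by norm_num)
    apply Nat.mul_le_mul_right
    omega
  obtain ⟨B, hB1, hB2, θ, hθ⟩ := hC n (by omega) (Fin N) hN' (fun e => if χ e = true then 1 else 0)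
  have hXc : (univ.biUnion B).card = d * n := by
    rw [card_biUnion (fun i _ i' _ h => hB2 i i' h)]
    simp [hB1]
  have hnX : n ≤ (univ.biUnion B).card := by
    rw [hXc]
    exact Nat.le_mul_of_pos_left n hd1
  obtain ⟨c, hc⟩ : ∃ c : Bool, ∀ e : Finset (Fin N), χ e = c →
      (if χ e = true then (1 : Fin 2) else 0) ≠ θ := by
    by_cases hθ1 : θ = 1
    · refine ⟨false, ?_⟩
      intro e he
      rw [he, hθ1]
      simp
    · refine ⟨true, ?_⟩
      intro e he
      rw [he, if_pos rfl]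
      exact fun h => hθ1 h.symm
  refine ⟨univ.biUnion B, hnX, c, ?_⟩
  have hbad := al_cnt3 d n t B hB1
    (((univ.biUnion B).powersetCard t).filter (fun e => χ e = c)) (by
      intro e he
      rw [mem_filter] at he
      refine ⟨he.1, ?_⟩
      by_contra hcon
      push Not at hcon
      rw [mem_powersetCard] at he
      exact hc e he.2 (hθ e he.1.1 (by rw [he.1.2, hs]) (fun i => by
        have := hcon i
        omega)))
  rw [hXc] at hbad
  have hbad' : ((((univ.biUnion B).powersetCard t).filter (fun e => χ e = c)).card : ℝ) ≤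
      ((d * (n.choose 2 * (d * n - 2).choose (t - 2)) : ℕ) : ℝ) := by exact_mod_cast hbad
  refine hbad'.trans ?_
  rw [hXc]
  exact al_ineq d n t α hα hd1 hd ht hn


end M_almost
end Jump764
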