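import Pool.Agent.Helper764.JumpDefs

set_option autoImplicit false
set_option maxHeartbeats 4000000
open Finset Filter

namespace Jump764
namespace M_lift




/-- the `m` largest elements -/
theorem J_lift_top {n : ℕ} (X : Finset (Fin n)) : ∀ m : ℕ, m ≤ X.card →
    ∃ Z ⊆ X, Z.card = m ∧ ∀ y ∈ X \ Z, ∀ z ∈ Z, y < z := by
  intro m
  induction m with
  | zero =>
    intro _
    exact ⟨∅, Finset.empty_subset _, rfl, fun y _ z hz => absurd hz (Finset.notMem_empty _)⟩
  | succ m ih =>
    intro hm
    obtain ⟨Z, hZ, hc, hlt⟩ := ih (by omega)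
    have hne : (X \ Z).Nonempty := by
      rw [← Finset.card_pos, Finset.card_sdiff_of_subset hZ]
      omega
    obtain ⟨y0, hy0, hmax⟩ := Finset.exists_max_image (X \ Z) id hne
    have hy0' := Finset.mem_sdiff.1 hy0
    refine ⟨insert y0 Z, Finset.insert_subset hy0'.1 hZ, ?_, ?_⟩
    · rw [Finset.card_insert_of_notMem hy0'.2, hc]
    · intro y hy z hz
      rw [Finset.mem_sdiff, Finset.mem_insert, not_or] at hy
      obtain ⟨hyX, hne0, hyZ⟩ := hy
      have hyXZ : y ∈ X \ Z := Finset.mem_sdiff.2 ⟨hyX, hyZ⟩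
      rcases Finset.mem_insert.1 hz with rfl | hz
      · exact lt_of_le_of_ne (hmax y hyXZ) hne0
      · exact hlt y hyXZ z hz


theorem J_lift : St_lift := by
  intro t ht n f hex
  obtain ⟨χ, hχ⟩ := hex
  refine ⟨fun e => χ (e.filter (fun x => (e.filter (fun y => y < x)).card < 4)), ?_⟩
  intro X hX c
  obtain ⟨Z, hZ, hZc, hlt⟩ := J_lift_top X (t - 4) (by omega)
  have hY : f ≤ (X \ Z).card := by
    rw [Finset.card_sdiff_of_subset hZ]
    omega
  obtain ⟨e0, he0, hce⟩ := hχ (X \ Z) hY c
  obtain ⟨hsub, h4⟩ := Finset.mem_powersetCard.1 he0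
  have hdis : Disjoint e0 Z := by
    rw [Finset.disjoint_left]
    intro x hx hxZ
    exact (Finset.mem_sdiff.1 (hsub hx)).2 hxZ
  refine ⟨e0 ∪ Z, ?_, ?_⟩
  · rw [Finset.mem_powersetCard]
    refine ⟨Finset.union_subset (hsub.trans Finset.sdiff_subset) hZ, ?_⟩
    rw [Finset.card_union_of_disjoint hdis, h4, hZc]
    omega
  · have hlow : (e0 ∪ Z).filter (fun x => ((e0 ∪ Z).filter (fun y => y < x)).card < 4) = e0 := by
      ext x
      rw [Finset.mem_filter, Finset.mem_union]
      constructor
      · rintro ⟨hx | hx, hcard⟩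
        · exact hx
        · exfalso
          have h5 : e0 ⊆ (e0 ∪ Z).filter (fun y => y < x) := by
            intro y hy
            rw [Finset.mem_filter, Finset.mem_union]
            exact ⟨Or.inl hy, hlt y (hsub hy) x hx⟩
          have := Finset.card_le_card h5
          omega
      · intro hx
        refine ⟨Or.inl hx, ?_⟩
        have h5 : (e0 ∪ Z).filter (fun y => y < x) ⊆ e0.erase x := by
          intro y hy
          rw [Finset.mem_filter, Finset.mem_union] at hy
          obtain ⟨hy1 | hy1, hyx⟩ := hy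
          · exact Finset.mem_erase.2 ⟨hyx.ne, hy1⟩
          · exact absurd (hlt x (hsub hx) y hy1) (not_lt.2 hyx.le)
        have h6 := Finset.card_le_card h5
        rw [Finset.card_erase_of_mem hx, h4] at h6
        omega
    dsimp only
    rw [hlow]
    exact hce


end M_lift
end Jump764
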