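import Pool.Agent.Helper764.JumpDefs
import Pool.Agent.Helper764.Jump_almost

set_option autoImplicit false
set_option maxHeartbeats 4000000
open Finset Filter

namespace Jump764
namespace M_lower

theorem given_almost : St_almost := M_almost.J_almost



theorem lo_key (t : ℕ) (α : ℝ) (C : ℕ) (hC : ∀ n : ℕ, t ≤ n → ∀ N : ℕ,
    2 ^ (C * n ^ (t - 1)) ≤ N → ∀ χ : Finset (Fin N) → Bool,
    ∃ X : Finset (Fin N), n ≤ X.card ∧ ∃ c : Bool,
      (((X.powersetCard t).filter (fun e => χ e = c)).card : ℝ) ≤ α * (X.card.choose t : ℝ))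
    (n N : ℕ) (hn : t ≤ n) (hN : 2 ^ (C * n ^ (t - 1)) ≤ N) : n < F t N α := by
  have hne : {f : ℕ | ∃ χ : Finset (Fin N) → Bool, Balanced t N α f χ}.Nonempty := by
    refine ⟨N + 1, fun _ => true, ?_⟩
    intro X hX
    have h1 := X.card_le_univ
    rw [Fintype.card_fin] at h1
    omega
  obtain ⟨χ, hχ⟩ := Nat.sInf_mem hne
  by_contra hlt
  push Not at hlt
  obtain ⟨X, hX, c, hc⟩ := hC n hn N hN χ
  have h2 := hχ X (le_trans hlt hX) c
  linarith


theorem J_lower : St_lower := by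
  intro t ht α hα
  obtain ⟨C, hC0, hC⟩ := given_almost t ht α hα
  have hlog2 : 0 < Real.log 2 := Real.log_pos (by norm_num)
  have hCr : (0:ℝ) < C := by exact_mod_cast hC0
  obtain ⟨p, hp⟩ : ∃ p : ℝ, p = 1 / ((t:ℝ) - 1) := ⟨_, rfl⟩
  have ht1 : (0:ℝ) < (t:ℝ) - 1 := by
    have h : (2:ℝ) ≤ t := by exact_mod_cast ht
    linarith
  have hp0 : 0 < p := by rw [hp]; positivity
  refine ⟨(1 / (C * Real.log 2)) ^ p, by positivity, ?_⟩
  rw [← hp]
  have htend : Tendsto (fun n : ℕ => (Real.log n / (C * Real.log 2)) ^ p) atTop atTop := by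
    refine (tendsto_rpow_atTop hp0).comp ?_
    refine Tendsto.atTop_div_const (by positivity) ?_
    exact Real.tendsto_log_atTop.comp tendsto_natCast_atTop_atTop
  filter_upwards [htend.eventually_ge_atTop (t:ℝ), eventually_ge_atTop 1] with N hN hN1
  obtain ⟨x, hx⟩ : ∃ x : ℝ, x = (Real.log N / (C * Real.log 2)) ^ p := ⟨_, rfl⟩
  rw [← hx] at hN
  have hlogN : 0 ≤ Real.log N := Real.log_natCast_nonneg N
  have hx0 : 0 ≤ x := by rw [hx]; positivity
  have hkt : t ≤ ⌊x⌋₊ := Nat.le_floor hN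
  have hk1 : (⌊x⌋₊ : ℝ) ≤ x := Nat.floor_le hx0
  have hpow : ((⌊x⌋₊ : ℝ)) ^ (t - 1) ≤ Real.log N / (C * Real.log 2) := by
    calc ((⌊x⌋₊ : ℝ)) ^ (t - 1) ≤ x ^ (t - 1) := pow_le_pow_left₀ (by positivity) hk1 _
      _ = Real.log N / (C * Real.log 2) := by
        rw [hx, ← Real.rpow_natCast, ← Real.rpow_mul (by positivity)]
        have h : p * ((t - 1 : ℕ) : ℝ) = 1 := by
          rw [hp, Nat.cast_sub (by omega), Nat.cast_one]
          field_simp
        rw [h, Real.rpow_one]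
  have hN2 : 2 ^ (C * ⌊x⌋₊ ^ (t - 1)) ≤ N := by
    have h1 : ((C * ⌊x⌋₊ ^ (t - 1) : ℕ) : ℝ) * Real.log 2 ≤ Real.log N := by
      push_cast
      rw [le_div_iff₀ (by positivity)] at hpow
      linarith
    have h2 : Real.log ((2:ℝ) ^ (C * ⌊x⌋₊ ^ (t - 1))) ≤ Real.log N := by
      rw [Real.log_pow]
      exact h1
    have hN1' : (0:ℝ) < N := by exact_mod_cast hN1
    have h3 : (2:ℝ) ^ (C * ⌊x⌋₊ ^ (t - 1)) ≤ N :=
      (Real.log_le_log_iff (by positivity) hN1').mp h2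
    exact_mod_cast h3
  have hlt := lo_key t α C hC _ N hkt hN2
  have h4 : ((⌊x⌋₊ : ℝ)) + 1 ≤ (F t N α : ℝ) := by exact_mod_cast hlt
  have h5 := Nat.lt_floor_add_one x
  have h6 : (1 / (C * Real.log 2)) ^ p * Real.log N ^ p = x := by
    rw [hx, ← Real.mul_rpow (by positivity) hlogN]
    congr 1
    ring
  rw [h6]
  linarith


end M_lower
end Jump764
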