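import Pool.Agent.Helper764.JumpDefs

set_option autoImplicit false
set_option maxHeartbeats 4000000
open Finset Filter

namespace Jump764
namespace M_stepup




/-- the largest digit where two numbers differ -/
noncomputable def suD (a b : ℕ) : ℕ := sInf {k | a / 2 ^ (k + 1) = b / 2 ^ (k + 1)}

theorem suD_le_iff (a b k : ℕ) : suD a b ≤ k ↔ a / 2 ^ (k + 1) = b / 2 ^ (k + 1) := by
  have hne : {k | a / 2 ^ (k + 1) = b / 2 ^ (k + 1)}.Nonempty := by
    refine ⟨max a b, ?_⟩
    have h0 : max a b + 1 < 2 ^ (max a b + 1) := Nat.lt_two_pow_self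
    have h1 : a < 2 ^ (max a b + 1) := by
      have := le_max_left a b
      omega
    have h2 : b < 2 ^ (max a b + 1) := by
      have := le_max_right a b
      omega
    change a / _ = b / _
    rw [Nat.div_eq_of_lt h1, Nat.div_eq_of_lt h2]
  constructor
  · intro h
    have h1 : a / 2 ^ (suD a b + 1) = b / 2 ^ (suD a b + 1) := Nat.sInf_mem hne
    obtain ⟨j, hj⟩ := Nat.exists_eq_add_of_le h
    have e : 2 ^ (k + 1) = 2 ^ (suD a b + 1) * 2 ^ j := by rw [hj]; ring
    rw [e, ← Nat.div_div_eq_div_mul, ← Nat.div_div_eq_div_mul, h1]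
  · intro h
    exact Nat.sInf_le h

theorem suD_lt {a b M : ℕ} (ha : a < 2 ^ M) (hb : b < 2 ^ M) (hab : a < b) : suD a b < M := by
  rcases M with _ | m
  · rw [pow_zero] at hb
    omega
  · refine Nat.lt_succ_of_le ((suD_le_iff a b m).2 ?_)
    rw [Nat.div_eq_of_lt ha, Nat.div_eq_of_lt hb]

theorem suD_max {a b c : ℕ} (hab : a < b) (hbc : b < c) :
    suD a c = max (suD a b) (suD b c) := by
  refine eq_of_forall_ge_iff fun k => ?_
  rw [max_le_iff, suD_le_iff, suD_le_iff, suD_le_iff]
  have h1 : a / 2 ^ (k + 1) ≤ b / 2 ^ (k + 1) := Nat.div_le_div_right hab.le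
  have h2 : b / 2 ^ (k + 1) ≤ c / 2 ^ (k + 1) := Nat.div_le_div_right hbc.le
  omega

theorem suD_low {a b : ℕ} (hab : a < b) : a / 2 ^ (suD a b) ≠ b / 2 ^ (suD a b) := by
  intro h
  rcases h0 : suD a b with _ | j
  · rw [h0, pow_zero, Nat.div_one, Nat.div_one] at h
    omega
  · rw [h0] at h
    have := (suD_le_iff a b j).2 h
    omega

theorem suD_ne {a b c : ℕ} (hab : a < b) (hbc : b < c) : suD a b ≠ suD b c := by
  intro h
  have h1 := (suD_le_iff a b (suD a b)).1 le_rfl
  have h2 := (suD_le_iff b c (suD b c)).1 le_rfl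
  have h3 := suD_low hab
  have h4 := suD_low hbc
  rw [← h] at h2 h4
  have h5 : a / 2 ^ (suD a b) ≤ b / 2 ^ (suD a b) := Nat.div_le_div_right hab.le
  have h6 : b / 2 ^ (suD a b) ≤ c / 2 ^ (suD a b) := Nat.div_le_div_right hbc.le
  rw [pow_succ, ← Nat.div_div_eq_div_mul, ← Nat.div_div_eq_div_mul] at h1 h2
  omega

open Classical in
/-- the colour of a quadruple -/
noncomputable def suCol (χ : Finset ℕ → Bool) (a b c d : ℕ) : Bool :=
  if (suD a b < suD b c ∧ suD b c < suD c d) ∨ (suD b c < suD a b ∧ suD c d < suD b c) then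
    χ {suD a b, suD b c, suD c d}
  else decide (suD a b < suD b c)

theorem su_chain {r : ℕ → ℕ → Prop} (hr : ∀ a b c, r a b → r b c → r a c) (δ : ℕ → ℕ) (s t : ℕ)
    (h : ∀ i, s ≤ i → i + 1 < t → r (δ i) (δ (i + 1))) :
    ∀ i j, s ≤ i → i < j → j < t → r (δ i) (δ j) := by
  intro i j hi hij
  induction j, hij using Nat.le_induction with
  | base => intro hj; exact h i hi hj
  | succ j hij ih =>
    intro hj
    exact hr _ _ _ (ih (by omega)) (h j (by omega) hj)

theorem su_inc (n : ℕ) (y : ℕ → ℕ) (hy : ∀ i j, i < j → j < n → y i < y j) (i : ℕ) :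
    ∀ k, i < k → k < n → (∀ l, i ≤ l → l + 1 < k →
      suD (y l) (y (l + 1)) < suD (y (l + 1)) (y (l + 2))) →
      suD (y i) (y k) = suD (y (k - 1)) (y k) := by
  intro k hk
  induction k, hk using Nat.le_induction with
  | base => intro _ _; rfl
  | succ k hk ih =>
    intro hkn h
    have h1 := ih (by omega) (fun l hl hlk => h l hl (by omega))
    have h2 := suD_max (hy i k (by omega) (by omega)) (hy k (k + 1) (by omega) hkn)
    have h3 := h (k - 1) (by omega) (by omega)
    have e1 : k - 1 + 1 = k := by omega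
    have e2 : k - 1 + 2 = k + 1 := by omega
    rw [e1, e2] at h3
    rw [h2, h1, Nat.add_sub_cancel]
    exact max_eq_right h3.le

theorem su_dec (n : ℕ) (y : ℕ → ℕ) (hy : ∀ i j, i < j → j < n → y i < y j) (i : ℕ) :
    ∀ k, i < k → k < n → (∀ l, i ≤ l → l + 1 < k →
      suD (y (l + 1)) (y (l + 2)) < suD (y l) (y (l + 1))) →
      suD (y i) (y k) = suD (y i) (y (i + 1)) := by
  intro k hk
  induction k, hk using Nat.le_induction with
  | base => intro _ _; rfl
  | succ k hk ih =>
    intro hkn h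
    have h1 := ih (by omega) (fun l hl hlk => h l hl (by omega))
    have h2 := suD_max (hy i k (by omega) (by omega)) (hy k (k + 1) (by omega) hkn)
    have h3 := su_chain (r := fun a b => b < a) (fun a b c h1 h2 => lt_trans h2 h1)
      (fun l => suD (y l) (y (l + 1))) i (k + 1) h i k le_rfl (by omega) (by omega)
    rw [h2, h1]
    exact max_eq_left (le_of_lt h3)

theorem su_run (f : ℕ) (hf : 1 ≤ f) (Q : ℕ → Prop) (h : ∀ i, i + 3 < 2 * f → Q i → Q (i + 1)) :
    ∃ s, s + f + 1 ≤ 2 * f ∧ ((∀ i, s ≤ i → i + 1 < s + f → Q i) ∨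
      (∀ i, s ≤ i → i + 1 < s + f → ¬ Q i)) := by
  have hp : ∀ i j, i ≤ j → j + 2 < 2 * f → Q i → Q j := by
    intro i j hij
    induction j, hij using Nat.le_induction with
    | base => intro _ h; exact h
    | succ j hij ih =>
      intro hj hQ
      exact h j (by omega) (ih (by omega) hQ)
  by_cases hQ : Q (f - 2)
  · exact ⟨f - 2, by omega, Or.inl fun i hi hi2 => hp (f - 2) i hi (by omega) hQ⟩
  · exact ⟨0, by omega, Or.inr fun i _ hi2 hQi => hQ (hp i (f - 2) (by omega) (by omega) hQi)⟩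

theorem su_three (J : Finset ℕ) (hJ : J.card = 3) : ∃ a b c, a < b ∧ b < c ∧ J = {a, b, c} := by
  refine ⟨J.orderEmbOfFin hJ 0, J.orderEmbOfFin hJ 1, J.orderEmbOfFin hJ 2, ?_, ?_, ?_⟩
  · exact (J.orderEmbOfFin hJ).strictMono (by decide)
  · exact (J.orderEmbOfFin hJ).strictMono (by decide)
  · have h1 := Finset.image_orderEmbOfFin_univ J hJ
    have h2 : image (J.orderEmbOfFin hJ) univ = {J.orderEmbOfFin hJ 0, J.orderEmbOfFin hJ 1,
        J.orderEmbOfFin hJ 2} := by
      ext x
      simp only [mem_image, mem_univ, true_and, mem_insert, mem_singleton]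
      constructor
      · rintro ⟨i, rfl⟩
        fin_cases i
        · left; rfl
        · right; left; rfl
        · right; right; rfl
      · rintro (h | h | h)
        · exact ⟨0, h.symm⟩
        · exact ⟨1, h.symm⟩
        · exact ⟨2, h.symm⟩
    exact h1.symm.trans h2

theorem su_main (M f : ℕ) (χ : Finset ℕ → Bool)
    (hχ : ∀ Y : Finset ℕ, (∀ y ∈ Y, y < M) → f ≤ Y.card → ∀ c, ∃ e ⊆ Y, e.card = 3 ∧ χ e = c)
    (y : ℕ → ℕ) (hy : ∀ i j, i < j → j < 2 * f → y i < y j) (hyM : ∀ i, i < 2 * f → y i < 2 ^ M)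
    (c : Bool) : ∃ i j k l, i < j ∧ j < k ∧ k < l ∧ l < 2 * f ∧
      suCol χ (y i) (y j) (y k) (y l) = c := by
  by_contra hcon
  push Not at hcon
  have hf : 1 ≤ f := by
    by_contra h0
    obtain ⟨e, he, he3, -⟩ := hχ ∅ (by simp) (by omega) true
    rw [Finset.subset_empty.1 he] at he3
    simp at he3
  obtain ⟨δ, hδ⟩ : ∃ δ : ℕ → ℕ, ∀ i, δ i = suD (y i) (y (i + 1)) := ⟨_, fun _ => rfl⟩
  have hne : ∀ i, i + 2 < 2 * f → δ i ≠ δ (i + 1) := by
    intro i hi
    rw [hδ, hδ]
    exact suD_ne (hy i (i + 1) (by omega) (by omega)) (hy (i + 1) (i + 2) (by omega) hi)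
  have hstep : ∀ i, i + 3 < 2 * f → ((c = true → δ i < δ (i + 1) → δ (i + 1) < δ (i + 2)) ∧
      (c = false → ¬ δ i < δ (i + 1) → ¬ δ (i + 1) < δ (i + 2))) := by
    intro i hi
    have h1 := hne i (by omega)
    have h2 := hne (i + 1) (by omega)
    have h3 := hcon i (i + 1) (i + 2) (i + 3) (by omega) (by omega) (by omega) hi
    constructor
    · intro hc h4
      by_contra h5
      apply h3
      unfold suCol
      have e1 := hδ i
      have e2 := hδ (i + 1)
      have e3 := hδ (i + 2)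
      rw [← e1]
      rw [show suD (y (i + 1)) (y (i + 2)) = δ (i + 1) from e2.symm,
        show suD (y (i + 2)) (y (i + 3)) = δ (i + 2) from e3.symm]
      rw [if_neg (by omega), hc]
      exact decide_eq_true h4
    · intro hc h4 h5
      apply h3
      unfold suCol
      have e1 := hδ i
      have e2 := hδ (i + 1)
      have e3 := hδ (i + 2)
      rw [← e1]
      rw [show suD (y (i + 1)) (y (i + 2)) = δ (i + 1) from e2.symm,
        show suD (y (i + 2)) (y (i + 3)) = δ (i + 2) from e3.symm]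
      rw [if_neg (by omega), hc]
      exact decide_eq_false h4
  have hrun : ∃ s, s + f + 1 ≤ 2 * f ∧ ((∀ i, s ≤ i → i + 1 < s + f → δ i < δ (i + 1)) ∨
      (∀ i, s ≤ i → i + 1 < s + f → ¬ δ i < δ (i + 1))) := by
    rcases hc : c with _ | _
    · obtain ⟨s, hs, h | h⟩ := su_run f hf (fun i => ¬ δ i < δ (i + 1))
        (fun i hi => (hstep i hi).2 hc)
      · exact ⟨s, hs, Or.inr h⟩
      · exact ⟨s, hs, Or.inl fun i hi hi2 => not_not.1 (h i hi hi2)⟩
    · exact su_run f hf (fun i => δ i < δ (i + 1)) (fun i hi => (hstep i hi).1 hc)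
  obtain ⟨s, hs, hrun⟩ := hrun
  -- the set of values
  obtain ⟨Y, hY⟩ : ∃ Y : Finset ℕ, Y = (Ico s (s + f)).image δ := ⟨_, rfl⟩
  have hYM : ∀ v ∈ Y, v < M := by
    intro v hv
    rw [hY, mem_image] at hv
    obtain ⟨i, hi, rfl⟩ := hv
    rw [mem_Ico] at hi
    rw [hδ]
    exact suD_lt (hyM i (by omega)) (hyM (i + 1) (by omega)) (hy i (i + 1) (by omega) (by omega))
  rcases hrun with hrun | hrun
  · -- increasing
    have hmono := su_chain (r := fun a b => a < b) (fun a b c h1 h2 => lt_trans h1 h2) δ s (s + f)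
      hrun
    have hinj : Set.InjOn δ (Ico s (s + f) : Finset ℕ) := by
      intro i hi j hj hij
      rw [Finset.mem_coe, mem_Ico] at hi hj
      rcases lt_trichotomy i j with h | h | h
      · exact absurd hij (hmono i j hi.1 h hj.2).ne
      · exact h
      · exact absurd hij (hmono j i hj.1 h hi.2).ne'
    have hYc : Y.card = f := by
      rw [hY, Finset.card_image_of_injOn hinj, Nat.card_Ico]
      omega
    obtain ⟨e, heY, he3, hec⟩ := hχ Y hYM hYc.ge c
    rw [hY, Finset.subset_image_iff] at heY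
    obtain ⟨J, hJ, rfl⟩ := heY
    have hJ3 : J.card = 3 := by
      rw [Finset.card_image_of_injOn (hinj.mono hJ)] at he3
      exact he3
    obtain ⟨j1, j2, j3, h12, h23, rfl⟩ := su_three J hJ3
    have m1 := Finset.mem_Ico.1 (hJ (mem_insert_self _ _))
    have m3 : s ≤ j3 ∧ j3 < s + f := Finset.mem_Ico.1 (hJ (by simp))
    have hsub : ∀ l, s ≤ l → l + 1 < s + f →
        suD (y l) (y (l + 1)) < suD (y (l + 1)) (y (l + 2)) := by
      intro l hl hl2
      have := hrun l hl hl2
      rwa [hδ, hδ] at this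
    have e2 : suD (y (j1 + 1)) (y (j2 + 1)) = δ j2 := by
      rw [hδ]
      exact su_inc (2 * f) y hy (j1 + 1) (j2 + 1) (by omega) (by omega)
        (fun l hl hl2 => hsub l (by omega) (by omega))
    have e3 : suD (y (j2 + 1)) (y (j3 + 1)) = δ j3 := by
      rw [hδ]
      exact su_inc (2 * f) y hy (j2 + 1) (j3 + 1) (by omega) (by omega)
        (fun l hl hl2 => hsub l (by omega) (by omega))
    have e1 := hδ j1
    apply hcon j1 (j1 + 1) (j2 + 1) (j3 + 1) (by omega) (by omega) (by omega) (by omega)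
    unfold suCol
    rw [← e1, e2, e3, if_pos (Or.inl ⟨hmono j1 j2 m1.1 h12 (by omega),
      hmono j2 j3 (by omega) h23 m3.2⟩)]
    rw [← hec]
    congr 1
    simp only [Finset.image_insert, Finset.image_singleton]
  · -- decreasing
    have hrun' : ∀ i, s ≤ i → i + 1 < s + f → δ (i + 1) < δ i := by
      intro i hi hi2
      have h1 := hrun i hi hi2
      have h2 := hne i (by omega)
      omega
    have hmono := su_chain (r := fun a b => b < a) (fun a b c h1 h2 => lt_trans h2 h1) δ s (s + f)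
      hrun'
    have hinj : Set.InjOn δ (Ico s (s + f) : Finset ℕ) := by
      intro i hi j hj hij
      rw [Finset.mem_coe, mem_Ico] at hi hj
      rcases lt_trichotomy i j with h | h | h
      · exact absurd hij (ne_of_gt (hmono i j hi.1 h hj.2))
      · exact h
      · exact absurd hij (ne_of_lt (hmono j i hj.1 h hi.2))
    have hYc : Y.card = f := by
      rw [hY, Finset.card_image_of_injOn hinj, Nat.card_Ico]
      omega
    obtain ⟨e, heY, he3, hec⟩ := hχ Y hYM hYc.ge c
    rw [hY, Finset.subset_image_iff] at heY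
    obtain ⟨J, hJ, rfl⟩ := heY
    have hJ3 : J.card = 3 := by
      rw [Finset.card_image_of_injOn (hinj.mono hJ)] at he3
      exact he3
    obtain ⟨j1, j2, j3, h12, h23, rfl⟩ := su_three J hJ3
    have m1 := Finset.mem_Ico.1 (hJ (mem_insert_self _ _))
    have m3 : s ≤ j3 ∧ j3 < s + f := Finset.mem_Ico.1 (hJ (by simp))
    have hsub : ∀ l, s ≤ l → l + 1 < s + f →
        suD (y (l + 1)) (y (l + 2)) < suD (y l) (y (l + 1)) := by
      intro l hl hl2
      have := hrun' l hl hl2
      rwa [hδ, hδ] at this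
    have e1 : suD (y j1) (y j2) = δ j1 := by
      rw [hδ]
      exact su_dec (2 * f) y hy j1 j2 (by omega) (by omega)
        (fun l hl hl2 => hsub l (by omega) (by omega))
    have e2 : suD (y j2) (y j3) = δ j2 := by
      rw [hδ]
      exact su_dec (2 * f) y hy j2 j3 (by omega) (by omega)
        (fun l hl hl2 => hsub l (by omega) (by omega))
    have e3 := hδ j3
    apply hcon j1 j2 j3 (j3 + 1) (by omega) (by omega) (by omega) (by omega)
    unfold suCol
    rw [e1, e2, ← e3, if_pos (Or.inr ⟨hmono j1 j2 m1.1 h12 (by omega),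
      hmono j2 j3 (by omega) h23 m3.2⟩)]
    rw [← hec]
    congr 1
    simp only [Finset.image_insert, Finset.image_singleton]

/-- the colouring of the quadruples -/
noncomputable def suχ {n : ℕ} (χ : Finset ℕ → Bool) (e : Finset (Fin n)) : Bool :=
  match e.sort (· ≤ ·) with
  | [a, b, c, d] => suCol χ a b c d
  | _ => false

theorem suχ_eq {n : ℕ} (χ : Finset ℕ → Bool) (a b c d : Fin n) (hab : a < b) (hbc : b < c)
    (hcd : c < d) : suχ χ {a, b, c, d} = suCol χ a b c d := by
  have h1 : ({a, b, c, d} : Finset (Fin n)) = [a, b, c, d].toFinset := by simp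
  have hac := hab.trans hbc
  have had := hac.trans hcd
  have hbd := hbc.trans hcd
  have h2 : ({a, b, c, d} : Finset (Fin n)).sort (· ≤ ·) = [a, b, c, d] := by
    rw [h1]
    refine (List.toFinset_sort (· ≤ ·) ?_).2 ?_
    · simp [hab.ne, hac.ne, had.ne, hbc.ne, hbd.ne, hcd.ne]
    · simp [hab.le, hac.le, had.le, hbc.le, hbd.le, hcd.le]
  unfold suχ
  rw [h2]


theorem J_stepup : St_stepup := by
  rintro M f ⟨χ, hχ⟩
  obtain ⟨χN, hχN⟩ : ∃ χN : Finset ℕ → Bool, ∀ t, χN t =
    χ (univ.filter (fun i : Fin M => (i : ℕ) ∈ t)) := ⟨_, fun _ => rfl⟩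
  have hN : ∀ Y : Finset ℕ, (∀ y ∈ Y, y < M) → f ≤ Y.card → ∀ c, ∃ e ⊆ Y, e.card = 3 ∧
      χN e = c := by
    intro Y hY hf c
    have h1 : (univ.filter (fun i : Fin M => (i : ℕ) ∈ Y)).map Fin.valEmbedding = Y := by
      ext v
      simp only [Finset.mem_map, mem_filter, mem_univ, true_and, Fin.valEmbedding_apply]
      constructor
      · rintro ⟨i, hi, rfl⟩
        exact hi
      · intro hv
        exact ⟨⟨v, hY v hv⟩, hv, rfl⟩
    have h2 : f ≤ (univ.filter (fun i : Fin M => (i : ℕ) ∈ Y)).card := by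
      rw [← Finset.card_map Fin.valEmbedding, h1]
      exact hf
    obtain ⟨e, he, hec⟩ := hχ _ h2 c
    rw [mem_powersetCard] at he
    refine ⟨e.map Fin.valEmbedding, ?_, ?_, ?_⟩
    · rw [← h1]
      exact Finset.map_subset_map.2 he.1
    · rw [Finset.card_map, he.2]
    · rw [hχN, ← hec]
      congr 1
      ext i
      simp only [Finset.mem_map, mem_filter, mem_univ, true_and, Fin.valEmbedding_apply]
      constructor
      · rintro ⟨j, hj, hji⟩
        rwa [← Fin.ext hji]
      · intro hi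
        exact ⟨i, hi, rfl⟩
  refine ⟨suχ χN, fun X hX c => ?_⟩
  obtain ⟨φ, hφm, hφX⟩ : ∃ φ : Fin X.card → Fin (2 ^ M), StrictMono φ ∧ ∀ i, φ i ∈ X :=
    ⟨X.orderEmbOfFin rfl, (X.orderEmbOfFin rfl).strictMono, fun i => orderEmbOfFin_mem X rfl i⟩
  obtain ⟨y, hy⟩ : ∃ y : ℕ → ℕ, ∀ i (hi : i < X.card), y i = φ ⟨i, hi⟩ :=
    ⟨fun i => if h : i < X.card then (φ ⟨i, h⟩ : ℕ) else 0, fun i hi => dif_pos hi⟩
  obtain ⟨i, j, k, l, hij, hjk, hkl, hl, hcol⟩ := su_main M f χN hN y
    (fun i j hij hj => by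
      rw [hy i (by omega), hy j (by omega)]
      exact hφm (by simpa using hij))
    (fun i hi => by
      rw [hy i (by omega)]
      exact (φ _).2) c
  rw [hy i (by omega), hy j (by omega), hy k (by omega), hy l (by omega)] at hcol
  have a1 : φ ⟨i, by omega⟩ < φ ⟨j, by omega⟩ := hφm (by simpa using hij)
  have a2 : φ ⟨j, by omega⟩ < φ ⟨k, by omega⟩ := hφm (by simpa using hjk)
  have a3 : φ ⟨k, by omega⟩ < φ ⟨l, by omega⟩ := hφm (by simpa using hkl)
  refine ⟨{φ ⟨i, by omega⟩, φ ⟨j, by omega⟩, φ ⟨k, by omega⟩, φ ⟨l, by omega⟩}, ?_, ?_⟩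
  · rw [mem_powersetCard]
    constructor
    · intro v hv
      simp only [mem_insert, mem_singleton] at hv
      rcases hv with rfl | rfl | rfl | rfl <;> exact hφX _
    · have b1 := a1.trans a2
      have b2 := b1.trans a3
      have b3 := a2.trans a3
      rw [card_insert_of_notMem, card_insert_of_notMem, card_insert_of_notMem, card_singleton]
      · simp [a3.ne]
      · simp [a2.ne, b3.ne]
      · simp [a1.ne, b1.ne, b2.ne]
  · rw [suχ_eq χN _ _ _ _ a1 a2 a3]
    exact hcol


end M_stepup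
end Jump764
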