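import Pool.Agent.Helper764.JumpDefs

set_option autoImplicit false
set_option maxHeartbeats 4000000
open Finset Filter

namespace Jump764
namespace M_upper




theorem J_upper_superset {n : ℕ} (X e : Finset (Fin n)) (he : e ⊆ X) (f : ℕ) (hf : e.card ≤ f) :
    ((X.powersetCard f).filter (fun Y => e ⊆ Y)).card =
      (X.card - e.card).choose (f - e.card) := by
  have h1 : ((X.powersetCard f).filter (fun Y => e ⊆ Y)) =
      ((X \ e).powersetCard (f - e.card)).image (fun Z => e ∪ Z) := by
    ext Y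
    simp only [mem_filter, mem_powersetCard, mem_image]
    constructor
    · rintro ⟨⟨h1, h2⟩, h3⟩
      exact ⟨Y \ e, ⟨sdiff_subset_sdiff h1 (Subset.refl _), by
        rw [card_sdiff_of_subset h3, h2]⟩, union_sdiff_of_subset h3⟩
    · rintro ⟨Z, ⟨h1, h2⟩, rfl⟩
      have hdis : Disjoint e Z := disjoint_sdiff.mono_right h1
      refine ⟨⟨union_subset he (h1.trans sdiff_subset), ?_⟩, subset_union_left⟩
      rw [card_union_of_disjoint hdis, h2]
      omega
  rw [h1, card_image_of_injOn, card_powersetCard, card_sdiff_of_subset he]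
  intro Z hZ Z' hZ' h
  have hZ1 := (mem_powersetCard.1 hZ).1
  have hZ1' := (mem_powersetCard.1 hZ').1
  have hd : Disjoint e Z := disjoint_sdiff.mono_right hZ1
  have hd' : Disjoint e Z' := disjoint_sdiff.mono_right hZ1'
  have h2 : e ∪ Z = e ∪ Z' := h
  have h3 : (e ∪ Z) \ e = Z := union_sdiff_cancel_left hd
  have h4 : (e ∪ Z') \ e = Z' := union_sdiff_cancel_left hd'
  rw [← h3, h2, h4]

theorem J_upper_avg {n t f : ℕ} (χ : Finset (Fin n) → Bool) (c : Bool) (β : ℝ) (htf : t ≤ f)
    (h : ∀ Y : Finset (Fin n), Y.card = f →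
      β * (f.choose t : ℝ) < (((Y.powersetCard t).filter (fun e => χ e = c)).card : ℝ))
    (X : Finset (Fin n)) (hX : f ≤ X.card) :
    β * (X.card.choose t : ℝ) < (((X.powersetCard t).filter (fun e => χ e = c)).card : ℝ) := by
  have h1 : ∑ Y ∈ X.powersetCard f, ((Y.powersetCard t).filter (fun e => χ e = c)).card =
      ((X.powersetCard t).filter (fun e => χ e = c)).card * (X.card - t).choose (f - t) := by
    have h2 : ∀ Y ∈ X.powersetCard f, ((Y.powersetCard t).filter (fun e => χ e = c)).card =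
        ∑ e ∈ (X.powersetCard t).filter (fun e => χ e = c), if e ⊆ Y then 1 else 0 := by
      intro Y hY
      rw [← card_filter, filter_filter]
      congr 1
      ext e
      simp only [mem_filter, mem_powersetCard]
      rw [mem_powersetCard] at hY
      constructor
      · rintro ⟨⟨a, b⟩, d⟩
        exact ⟨⟨a.trans hY.1, b⟩, d, a⟩
      · rintro ⟨⟨_, b⟩, d, a⟩
        exact ⟨⟨a, b⟩, d⟩
    rw [sum_congr rfl h2, sum_comm, card_eq_sum_ones, sum_mul]
    apply sum_congr rfl
    intro e he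
    rw [mem_filter, mem_powersetCard] at he
    rw [← card_filter, J_upper_superset X e he.1.1 f (by rw [he.1.2]; exact htf), he.1.2, one_mul]
  have h3 : ∑ Y ∈ X.powersetCard f, β * (f.choose t : ℝ) <
      ∑ Y ∈ X.powersetCard f, (((Y.powersetCard t).filter (fun e => χ e = c)).card : ℝ) := by
    apply sum_lt_sum_of_nonempty
    · rw [powersetCard_nonempty]
      exact hX
    · intro Y hY
      exact h Y (mem_powersetCard.1 hY).2
  rw [sum_const, card_powersetCard, nsmul_eq_mul, ← Nat.cast_sum, h1] at h3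
  have h4 : (X.card.choose f : ℝ) * (f.choose t : ℝ) =
      (X.card.choose t : ℝ) * ((X.card - t).choose (f - t) : ℝ) := by
    exact_mod_cast Nat.choose_mul (n := X.card) htf
  have h5 : (0 : ℝ) < ((X.card - t).choose (f - t) : ℝ) := by
    exact_mod_cast Nat.choose_pos (by omega)
  push_cast at h3
  by_contra hcon
  push Not at hcon
  have h6 := mul_le_mul_of_nonneg_right hcon h5.le
  have h7 : (X.card.choose f : ℝ) * (β * (f.choose t : ℝ)) =
      β * (X.card.choose t : ℝ) * ((X.card - t).choose (f - t) : ℝ) := by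
    calc (X.card.choose f : ℝ) * (β * (f.choose t : ℝ))
        = β * ((X.card.choose f : ℝ) * (f.choose t : ℝ)) := by ring
      _ = _ := by rw [h4]; ring
  rw [h7] at h3
  linarith

theorem J_upper_prob (n : ℕ) (A : Finset (Finset (Fin n))) (c : Bool) (y : ℝ) :
    ∑ χ : Finset (Fin n) → Bool, y ^ ((A.filter (fun e => χ e = c)).card) =
      2 ^ (Fintype.card (Finset (Fin n))) * ((1 + y) / 2) ^ A.card := by
  have h1 : ∀ χ : Finset (Fin n) → Bool, y ^ ((A.filter (fun e => χ e = c)).card) =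
      ∏ e : Finset (Fin n), (if e ∈ A then (if χ e = c then y else 1) else 1) := by
    intro χ
    rw [prod_ite_mem, univ_inter, prod_ite, prod_const, prod_const_one, mul_one]
  have h2 := Finset.prod_univ_sum (fun _ : Finset (Fin n) => (univ : Finset Bool))
    (fun e b => (if e ∈ A then (if b = c then y else (1 : ℝ)) else 1))
  rw [Fintype.piFinset_univ] at h2
  rw [sum_congr rfl (fun χ _ => h1 χ), ← h2]
  have h3 : ∀ e : Finset (Fin n), ∑ b : Bool, (if e ∈ A then (if b = c then y else (1 : ℝ)) else 1)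
      = 2 * (if e ∈ A then (1 + y) / 2 else 1) := by
    intro e
    by_cases he : e ∈ A
    · simp only [he, if_true, Fintype.sum_bool]
      cases c
      · simp
        ring
      · simp
        ring
    · simp only [he, if_false, Fintype.sum_bool]
      norm_num
  rw [prod_congr rfl (fun e _ => h3 e), prod_mul_distrib, prod_const, card_univ,
    prod_ite_mem, univ_inter, prod_const]

theorem J_upper_exists (n t f : ℕ) (β s : ℝ) (hs : s = 1 - 2 * β) (hs0 : 0 < s)
    (hbig : 2 * (n : ℝ) ^ f < Real.exp (s ^ 2 * (f.choose t : ℝ) / 2)) :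
    ∃ χ : Finset (Fin n) → Bool, ∀ Y : Finset (Fin n), Y.card = f → ∀ c : Bool,
      β * (f.choose t : ℝ) < (((Y.powersetCard t).filter (fun e => χ e = c)).card : ℝ) := by
  set y : ℝ := Real.exp (-(2 * s)) with hy
  have hy0 : 0 < y := Real.exp_pos _
  set M : ℕ := f.choose t with hM
  set A : ℝ := 2 * (n.choose f : ℝ) * ((1 + y) / 2) ^ M with hA
  obtain ⟨χ, _, hχ⟩ : ∃ χ ∈ (univ : Finset (Finset (Fin n) → Bool)),
      (∑ Y ∈ (univ : Finset (Fin n)).powersetCard f, ∑ c : Bool,
        y ^ (((Y.powersetCard t).filter (fun e => χ e = c)).card)) ≤ A := by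
    apply exists_le_of_sum_le univ_nonempty
    rw [sum_comm]
    have h1 : ∀ Y ∈ (univ : Finset (Fin n)).powersetCard f,
        ∑ χ : Finset (Fin n) → Bool, ∑ c : Bool,
          y ^ (((Y.powersetCard t).filter (fun e => χ e = c)).card) =
        2 * (2 ^ (Fintype.card (Finset (Fin n))) * ((1 + y) / 2) ^ M) := by
      intro Y hY
      rw [sum_comm]
      have h2 : ∀ c ∈ (univ : Finset Bool), ∑ χ : Finset (Fin n) → Bool,
          y ^ (((Y.powersetCard t).filter (fun e => χ e = c)).card) =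
          2 ^ (Fintype.card (Finset (Fin n))) * ((1 + y) / 2) ^ M := by
        intro c _
        rw [J_upper_prob, card_powersetCard, (mem_powersetCard.1 hY).2]
      rw [sum_congr rfl h2, sum_const, card_univ, Fintype.card_bool, nsmul_eq_mul]
      norm_num
    rw [sum_congr rfl h1, sum_const, sum_const, card_powersetCard, card_univ, card_univ,
      Fintype.card_fin, Fintype.card_fun, Fintype.card_bool, nsmul_eq_mul, nsmul_eq_mul, hA]
    push_cast
    apply le_of_eq
    ring
  refine ⟨χ, ?_⟩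
  intro Y hY c
  have h1 : y ^ (((Y.powersetCard t).filter (fun e => χ e = c)).card) ≤ A := by
    refine le_trans ?_ hχ
    refine le_trans ?_ (single_le_sum (f := fun Y : Finset (Fin n) => ∑ c : Bool,
      y ^ (((Y.powersetCard t).filter (fun e => χ e = c)).card)) (fun Z _ => sum_nonneg
        (fun _ _ => by positivity)) (mem_powersetCard.2 ⟨subset_univ Y, hY⟩))
    exact single_le_sum (f := fun c : Bool =>
      y ^ (((Y.powersetCard t).filter (fun e => χ e = c)).card)) (fun _ _ => by positivity)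
        (mem_univ c)
  have h2 : (1 + y) / 2 ≤ Real.exp (-s + s ^ 2 / 2) := by
    have h3 : (1 + y) / 2 = Real.exp (-s) * Real.cosh s := by
      rw [Real.cosh_eq, hy, show -(2 * s) = -s + -s by ring, Real.exp_add]
      have : Real.exp (-s) * Real.exp s = 1 := by rw [← Real.exp_add]; simp
      linear_combination (-(1 : ℝ) / 2) * this
    rw [h3, Real.exp_add]
    exact mul_le_mul_of_nonneg_left (Real.cosh_le_exp_half_sq s) (Real.exp_pos _).le
  have h4 : A < Real.exp (-(2 * s) * (β * (M : ℝ))) := by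
    have h5 : (n.choose f : ℝ) ≤ (n : ℝ) ^ f := by
      exact_mod_cast Nat.choose_le_pow n f
    calc A ≤ 2 * (n : ℝ) ^ f * ((1 + y) / 2) ^ M := by
          rw [hA]
          apply mul_le_mul_of_nonneg_right _ (by positivity)
          linarith
      _ < Real.exp (s ^ 2 * (M : ℝ) / 2) * ((1 + y) / 2) ^ M :=
          mul_lt_mul_of_pos_right hbig (by positivity)
      _ ≤ Real.exp (s ^ 2 * (M : ℝ) / 2) * (Real.exp (-s + s ^ 2 / 2)) ^ M := by
          apply mul_le_mul_of_nonneg_left _ (Real.exp_pos _).le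
          exact pow_le_pow_left₀ (by positivity) h2 M
      _ = Real.exp (-(2 * s) * (β * (M : ℝ))) := by
          rw [← Real.exp_nat_mul, ← Real.exp_add]
          congr 1
          have hβ : 2 * β = 1 - s := by linarith
          linear_combination ((M : ℝ) * s) * hβ
  have h6 : y ^ (((Y.powersetCard t).filter (fun e => χ e = c)).card) =
      Real.exp (-(2 * s) * (((Y.powersetCard t).filter (fun e => χ e = c)).card : ℝ)) := by
    rw [hy, ← Real.exp_nat_mul]
    congr 1
    ring
  rw [h6] at h1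
  have h7 := Real.exp_lt_exp.1 (lt_of_le_of_lt h1 h4)
  nlinarith


theorem J_upper : St_upper := by
  intro t ht α hα
  set β : ℝ := max α (1 / 4) with hβ
  have hβ1 : β < 1 / 2 := max_lt hα (by norm_num)
  have hβα : α ≤ β := le_max_left _ _
  set s : ℝ := 1 - 2 * β with hs
  have hs0 : 0 < s := by linarith
  set K : ℝ := 2 * (t : ℝ) + 2 ^ (t + 2) * (t.factorial : ℝ) / s ^ 2 with hK
  have ht0 : (2 : ℝ) ≤ (t : ℝ) := by exact_mod_cast ht
  have hfac : (0 : ℝ) < (t.factorial : ℝ) := by exact_mod_cast Nat.factorial_pos t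
  have hK1 : 2 * (t : ℝ) ≤ K := by
    have : 0 ≤ 2 ^ (t + 2) * (t.factorial : ℝ) / s ^ 2 := by positivity
    linarith
  have hK2 : 2 ^ (t + 2) * (t.factorial : ℝ) ≤ K * s ^ 2 := by
    have h1 : 2 ^ (t + 2) * (t.factorial : ℝ) / s ^ 2 ≤ K := by linarith
    rwa [div_le_iff₀ (by positivity)] at h1
  have hK3 : 1 ≤ K := by linarith
  refine ⟨2 * K, by linarith, ?_⟩
  have hev : ∀ᶠ n : ℕ in atTop, 1 ≤ Real.log (n : ℝ) :=
    (Real.tendsto_log_atTop.comp tendsto_natCast_atTop_atTop).eventually_ge_atTop 1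
  filter_upwards [hev] with n hn
  set L : ℝ := Real.log (n : ℝ) with hL
  set p : ℝ := 1 / ((t : ℝ) - 1) with hp
  have hp0 : 0 < p := by
    rw [hp]
    apply one_div_pos.2
    linarith
  set R : ℝ := L ^ p with hR
  have hR1 : 1 ≤ R := Real.one_le_rpow hn hp0.le
  have hRt : R ^ (t - 1) = L := by
    rw [hR, ← Real.rpow_natCast, ← Real.rpow_mul (by linarith), hp, Nat.cast_sub (by omega),
      Nat.cast_one, one_div, inv_mul_cancel₀ (by linarith), Real.rpow_one]
  set f : ℕ := ⌈K * R⌉₊ with hf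
  have hf1 : K * R ≤ (f : ℝ) := Nat.le_ceil _
  have hf2 : (f : ℝ) < K * R + 1 := Nat.ceil_lt_add_one (by positivity)
  have hKR : K ≤ K * R := le_mul_of_one_le_right (by linarith) hR1
  have hf3 : 2 * (t : ℝ) ≤ (f : ℝ) := by linarith
  have hf4 : 2 * t ≤ f := by exact_mod_cast hf3
  have hf5 : K * L ≤ (f : ℝ) ^ (t - 1) := by
    calc K * L ≤ K ^ (t - 1) * R ^ (t - 1) := by
          rw [hRt]
          apply mul_le_mul_of_nonneg_right _ (by linarith)
          exact le_self_pow₀ hK3 (by omega)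
      _ = (K * R) ^ (t - 1) := by rw [mul_pow]
      _ ≤ (f : ℝ) ^ (t - 1) := pow_le_pow_left₀ (by positivity) hf1 _
  have hM : (f : ℝ) * (K * L) ≤ 2 ^ t * ((t.factorial : ℝ) * (f.choose t : ℝ)) := by
    have h1 : (((f + 1 - t : ℕ) : ℝ)) ^ t ≤ (t.factorial : ℝ) * (f.choose t : ℝ) := by
      have h0 := Nat.pow_le_choose (α := ℝ) t f
      rw [div_le_iff₀ hfac] at h0
      push_cast at h0
      linarith
    have h2 : (f : ℝ) / 2 ≤ ((f + 1 - t : ℕ) : ℝ) := by
      rw [Nat.cast_sub (by omega)]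
      push_cast
      linarith
    have h3 : ((f : ℝ) / 2) ^ t ≤ (((f + 1 - t : ℕ) : ℝ)) ^ t :=
      pow_le_pow_left₀ (by positivity) h2 t
    have h4 : (f : ℝ) ^ t ≤ 2 ^ t * ((t.factorial : ℝ) * (f.choose t : ℝ)) := by
      have h5 : ((f : ℝ) / 2) ^ t ≤ (t.factorial : ℝ) * (f.choose t : ℝ) := h3.trans h1
      rw [div_pow, div_le_iff₀ (by positivity)] at h5
      linarith
    calc (f : ℝ) * (K * L) ≤ (f : ℝ) * (f : ℝ) ^ (t - 1) :=
          mul_le_mul_of_nonneg_left hf5 (by positivity)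
      _ = (f : ℝ) ^ t := by
          rw [← pow_succ']
          congr 1
          omega
      _ ≤ _ := h4
  have hfpos : (1 : ℝ) ≤ (f : ℝ) := by linarith
  have hfL : 1 ≤ (f : ℝ) * L := by nlinarith
  have hexp : 2 * ((f : ℝ) * L) ≤ s ^ 2 * (f.choose t : ℝ) / 2 := by
    have h1 : (2 : ℝ) ^ (t + 2) * (t.factorial : ℝ) * ((f : ℝ) * L) ≤
        K * s ^ 2 * ((f : ℝ) * L) := mul_le_mul_of_nonneg_right hK2 (by linarith)
    have h2 : s ^ 2 * ((f : ℝ) * (K * L)) ≤
        s ^ 2 * (2 ^ t * ((t.factorial : ℝ) * (f.choose t : ℝ))) :=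
      mul_le_mul_of_nonneg_left hM (by positivity)
    have h3 : (2 : ℝ) ^ t * (t.factorial : ℝ) * (4 * ((f : ℝ) * L)) ≤
        (2 : ℝ) ^ t * (t.factorial : ℝ) * (s ^ 2 * (f.choose t : ℝ)) := by
      have h4 : (2 : ℝ) ^ (t + 2) = 4 * 2 ^ t := by rw [pow_add]; ring
      rw [h4] at h1
      linarith
    have h5 : 4 * ((f : ℝ) * L) ≤ s ^ 2 * (f.choose t : ℝ) :=
      le_of_mul_le_mul_left h3 (by positivity)
    linarith
  have hn0 : (0 : ℝ) < (n : ℝ) := by
    by_contra hcon
    have h0 : (n : ℝ) = 0 := le_antisymm (not_lt.1 hcon) (Nat.cast_nonneg n)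
    rw [hL, h0, Real.log_zero] at hn
    linarith
  have hnf : (n : ℝ) ^ f = Real.exp ((f : ℝ) * L) := by
    rw [Real.exp_nat_mul, hL, Real.exp_log hn0]
  have hbig : 2 * (n : ℝ) ^ f < Real.exp (s ^ 2 * (f.choose t : ℝ) / 2) := by
    have h1 : (2 : ℝ) < Real.exp ((f : ℝ) * L) := by
      have h2 := Real.exp_one_gt_d9
      have h3 : Real.exp 1 ≤ Real.exp ((f : ℝ) * L) := Real.exp_le_exp.2 hfL
      linarith
    calc 2 * (n : ℝ) ^ f < Real.exp ((f : ℝ) * L) * Real.exp ((f : ℝ) * L) := by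
          rw [hnf]
          exact mul_lt_mul_of_pos_right h1 (Real.exp_pos _)
      _ = Real.exp (2 * ((f : ℝ) * L)) := by
          rw [← Real.exp_add]
          congr 1
          ring
      _ ≤ _ := Real.exp_le_exp.2 hexp
  obtain ⟨χ, hχ⟩ := J_upper_exists n t f β s hs hs0 hbig
  have hbal : Balanced t n α f χ := by
    intro X hX c
    have h1 := J_upper_avg χ c β (by omega) (fun Y hY => hχ Y hY c) X hX
    have h2 : α * (X.card.choose t : ℝ) ≤ β * (X.card.choose t : ℝ) :=
      mul_le_mul_of_nonneg_right hβα (by positivity)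
    linarith
  have hF : F t n α ≤ f := Nat.sInf_le ⟨χ, hbal⟩
  have hF' : (F t n α : ℝ) ≤ (f : ℝ) := by exact_mod_cast hF
  have : (f : ℝ) ≤ 2 * K * R := by nlinarith
  linarith


end M_upper
end Jump764
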