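import Pool.Agent.Helper764.JumpDefs
import Pool.Agent.Helper764.Jump_upper
import Pool.Agent.Helper764.Jump_stepup
import Pool.Agent.Helper764.Jump_lift

set_option autoImplicit false
set_option maxHeartbeats 4000000
open Finset Filter

namespace Jump764
namespace M_zero

theorem given_upper : St_upper := M_upper.J_upper
theorem given_stepup : St_stepup := M_stepup.J_stepup
theorem given_lift : St_lift := M_lift.J_lift




theorem J_zero : St_zero := by
  classical
  intro t ht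
  obtain ⟨C, hC, hup⟩ := given_upper 3 (by norm_num) 0 (by norm_num)
  have hlog : Tendsto (fun n : ℕ => Real.log (n : ℝ)) atTop atTop :=
    Real.tendsto_log_atTop.comp tendsto_natCast_atTop_atTop
  have hloglog : Tendsto (fun n : ℕ => Real.log (Real.log (n : ℝ))) atTop atTop :=
    Real.tendsto_log_atTop.comp hlog
  have hMt : Tendsto (fun n : ℕ => ⌈2 * Real.log (n : ℝ)⌉₊) atTop atTop :=
    tendsto_nat_ceil_atTop.comp (hlog.const_mul_atTop (by norm_num : (0:ℝ) < 2))
  have e1 := hMt.eventually hup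
  have e2 := (hlog.comp hMt).eventually (eventually_ge_atTop (1:ℝ))
  have e3 := hlog.eventually (eventually_ge_atTop (1:ℝ))
  have e4 := hloglog.eventually (eventually_ge_atTop (1:ℝ))
  refine ⟨6 * C + t, by positivity, ?_⟩
  filter_upwards [e1, e2, e3, e4, eventually_ge_atTop 1] with n h1 h2 h3 h4 hn1
  simp only [Function.comp] at h2
  set M : ℕ := ⌈2 * Real.log (n : ℝ)⌉₊ with hM
  -- the coloring
  have hne : {f : ℕ | ∃ χ : Finset (Fin M) → Bool, Balanced 3 M 0 f χ}.Nonempty := by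
    refine ⟨M + 1, fun _ => true, ?_⟩
    intro X hX
    have := Finset.card_le_univ X
    rw [Fintype.card_fin] at this
    omega
  obtain ⟨χ, hχ⟩ := Nat.sInf_mem hne
  have hχ' : ∀ X : Finset (Fin M), F 3 M 0 ≤ X.card → ∀ c : Bool,
      ∃ e ∈ X.powersetCard 3, χ e = c := by
    intro X hX c
    have h := hχ X hX c
    rw [zero_mul, Nat.cast_pos, Finset.card_pos] at h
    obtain ⟨e, he⟩ := h
    rw [Finset.mem_filter] at he
    exact ⟨e, he.1, he.2⟩
  obtain ⟨χ2, hχ2⟩ := given_stepup M (F 3 M 0) ⟨χ, hχ'⟩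
  have hnM : n ≤ 2 ^ M := by
    have hn0 : (0:ℝ) < n := by exact_mod_cast hn1
    have h5 : (n : ℝ) ≤ ((2 ^ M : ℕ) : ℝ) := by
      push_cast
      rw [← Real.log_le_log_iff hn0 (by positivity), Real.log_pow]
      have h6 : 2 * Real.log (n : ℝ) ≤ M := Nat.le_ceil _
      have h7 := Real.log_two_gt_d9
      nlinarith
    exact_mod_cast h5
  have hχ3 : ∃ χ3 : Finset (Fin n) → Bool, ∀ X : Finset (Fin n), 2 * F 3 M 0 ≤ X.card → ∀ c : Bool,
      ∃ e ∈ X.powersetCard 4, χ3 e = c := by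
    refine ⟨fun e => χ2 (e.map (Fin.castLEEmb hnM)), ?_⟩
    intro X hX c
    obtain ⟨e, he, hec⟩ := hχ2 (X.map (Fin.castLEEmb hnM)) (by rw [Finset.card_map]; exact hX) c
    rw [Finset.mem_powersetCard] at he
    obtain ⟨u, hu, rfl⟩ := Finset.subset_map_iff.mp he.1
    refine ⟨u, ?_, hec⟩
    rw [Finset.mem_powersetCard]
    exact ⟨hu, by rw [← he.2, Finset.card_map]⟩
  obtain ⟨χ4, hχ4⟩ := given_lift t ht n (2 * F 3 M 0) hχ3
  have hF : F t n 0 ≤ 2 * F 3 M 0 + (t - 4) := by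
    refine Nat.sInf_le ⟨χ4, ?_⟩
    intro X hX c
    obtain ⟨e, he, hec⟩ := hχ4 X hX c
    rw [zero_mul, Nat.cast_pos, Finset.card_pos]
    exact ⟨e, Finset.mem_filter.mpr ⟨he, hec⟩⟩
  have hF' : (F t n 0 : ℝ) ≤ 2 * (F 3 M 0 : ℝ) + t := by
    have h5 : F t n 0 ≤ 2 * F 3 M 0 + t := hF.trans (by omega)
    exact_mod_cast h5
  have h5 : (Real.log M) ^ (1 / (((3:ℕ) : ℝ) - 1)) ≤ Real.log M := by
    have h6 := Real.rpow_le_rpow_of_exponent_le h2 (by norm_num : (1 / (((3:ℕ) : ℝ) - 1)) ≤ 1)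
    rwa [Real.rpow_one] at h6
  have h6 : (F 3 M 0 : ℝ) ≤ C * Real.log M := h1.trans (mul_le_mul_of_nonneg_left h5 hC.le)
  have h7 : (M : ℝ) ≤ 3 * Real.log n := by
    have h8 := Nat.ceil_lt_add_one (show 0 ≤ 2 * Real.log (n : ℝ) by linarith)
    linarith
  have hM0 : (0:ℝ) < M := by
    rcases Nat.eq_zero_or_pos M with h0 | h0
    · rw [h0] at h2; simp at h2; linarith
    · exact_mod_cast h0
  have h8 : Real.log M ≤ 3 * Real.log (Real.log n) := by
    have h9 := Real.log_le_log hM0 h7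
    rw [Real.log_mul (by norm_num) (by linarith)] at h9
    have h10 := Real.log_le_sub_one_of_pos (show (0:ℝ) < 3 by norm_num)
    linarith
  have h9 : (F 3 M 0 : ℝ) ≤ C * (3 * Real.log (Real.log n)) :=
    h6.trans (mul_le_mul_of_nonneg_left h8 hC.le)
  have h10 : (t : ℝ) ≤ t * Real.log (Real.log n) := by
    have : (0:ℝ) ≤ t := Nat.cast_nonneg t
    nlinarith
  calc (F t n 0 : ℝ) ≤ 2 * (F 3 M 0 : ℝ) + t := hF'
    _ ≤ 2 * (C * (3 * Real.log (Real.log n))) + t * Real.log (Real.log n) := by linarith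
    _ = (6 * C + t) * Real.log (Real.log n) := by ring



end M_zero
end Jump764
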