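import Pool.Agent.Helper764.KacDefs

set_option autoImplicit false
set_option maxHeartbeats 4000000
open MeasureTheory ProbabilityTheory Filter Topology Set
open scoped ENNReal NNReal

namespace Kac764
namespace G1

theorem x_int1 (μ : Measure ℝ) (hμ : Std μ) : Integrable (fun x : ℝ => x) μ := by
  haveI := hμ.prob
  refine ((integrable_const (1:ℝ)).add hμ.int2).mono' aestronglyMeasurable_id ?_
  filter_upwards with x
  simp only [Pi.add_apply, Real.norm_eq_abs]
  nlinarith [sq_abs x, abs_nonneg x, sq_nonneg (|x| - 1)]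

theorem x_pos_right (μ : Measure ℝ) (hμ : Std μ) : μ (Ioi 0) ≠ 0 := by
  haveI := hμ.prob
  intro h
  have h1 : ∀ᵐ x ∂μ, x ≤ 0 := by
    rw [ae_iff]
    have : {a : ℝ | ¬ a ≤ 0} = Ioi 0 := by ext x; simp
    rw [this]; exact h
  have h2 : (fun x : ℝ => -x) =ᵐ[μ] 0 := by
    refine (integral_eq_zero_iff_of_nonneg_ae (f := fun x : ℝ => -x) ?_ (x_int1 μ hμ).neg).mp ?_
    · filter_upwards [h1] with x hx
      simpa using hx
    · rw [integral_neg, hμ.mean, neg_zero]
  have h3 : ∫ x, x ^ 2 ∂μ = 0 := by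
    rw [integral_congr_ae (g := fun _ => (0:ℝ))]
    · simp
    · filter_upwards [h2] with x hx
      have : x = 0 := neg_eq_zero.mp hx
      simp [this]
  rw [hμ.var] at h3; exact one_ne_zero h3

theorem x_pos_left (μ : Measure ℝ) (hμ : Std μ) : μ (Iio 0) ≠ 0 := by
  haveI := hμ.prob
  intro h
  have h1 : ∀ᵐ x ∂μ, 0 ≤ x := by
    rw [ae_iff]
    have : {a : ℝ | ¬ 0 ≤ a} = Iio 0 := by ext x; simp
    rw [this]; exact h
  have h2 : (fun x : ℝ => x) =ᵐ[μ] 0 := by
    refine (integral_eq_zero_iff_of_nonneg_ae (f := fun x : ℝ => x) ?_ (x_int1 μ hμ)).mp ?_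
    · filter_upwards [h1] with x hx
      simpa using hx
    · exact hμ.mean
  have h3 : ∫ x, x ^ 2 ∂μ = 0 := by
    rw [integral_congr_ae (g := fun _ => (0:ℝ))]
    · simp
    · filter_upwards [h2] with x hx
      have : x = 0 := hx
      simp [this]
  rw [hμ.var] at h3; exact one_ne_zero h3

theorem x_meas_upd (n : ℕ) : Measurable (fun p : (ℕ → ℝ) × ℝ => Function.update p.1 n p.2) := by
  rw [measurable_pi_iff]
  intro i
  by_cases h : i = n
  · subst h
    simp only [Function.update_self]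
    exact measurable_snd
  · simp only [Function.update_of_ne h]
    exact (measurable_pi_apply i).comp measurable_fst

theorem x_map_upd (μ : Measure ℝ) [IsProbabilityMeasure μ] (n : ℕ) :
    ((PP μ).prod μ).map (fun p : (ℕ → ℝ) × ℝ => Function.update p.1 n p.2) = PP μ := by
  refine Measure.eq_infinitePi _ (fun s t ht => ?_)
  rw [Measure.map_apply (x_meas_upd n) (MeasurableSet.pi s.countable_toSet (fun i _ => ht i))]
  have hpre : (fun p : (ℕ → ℝ) × ℝ => Function.update p.1 n p.2) ⁻¹' ((s : Set ℕ).pi t) =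
      (((s.erase n : Finset ℕ) : Set ℕ).pi t) ×ˢ (if n ∈ s then t n else Set.univ) := by
    ext ⟨w, y⟩
    simp only [mem_preimage, Set.mem_pi, mem_prod]
    constructor
    · intro h
      refine ⟨fun i hi => ?_, ?_⟩
      · have hi' := Finset.mem_erase.mp (Finset.mem_coe.mp hi)
        have := h i (Finset.mem_coe.mpr hi'.2)
        rwa [Function.update_of_ne hi'.1] at this
      · by_cases hn : n ∈ s
        · rw [if_pos hn]
          have := h n (Finset.mem_coe.mpr hn)
          rwa [Function.update_self] at this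
        · rw [if_neg hn]; trivial
    · rintro ⟨h1, h2⟩ i hi
      by_cases hin : i = n
      · subst hin
        rw [if_pos (Finset.mem_coe.mp hi)] at h2
        rw [Function.update_self]; exact h2
      · rw [Function.update_of_ne hin]
        exact h1 i (Finset.mem_coe.mpr (Finset.mem_erase.mpr ⟨hin, Finset.mem_coe.mp hi⟩))
  rw [hpre, Measure.prod_prod, Measure.infinitePi_pi _ (fun i _ => ht i)]
  by_cases hn : n ∈ s
  · rw [if_pos hn, Finset.prod_erase_mul _ _ hn]
  · rw [if_neg hn, measure_univ, mul_one, Finset.erase_eq_of_notMem hn]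

theorem x_lint_upd (μ : Measure ℝ) [IsProbabilityMeasure μ] (n : ℕ) {H : (ℕ → ℝ) → ℝ≥0∞} (hH : Measurable H) :
    ∫⁻ w, ∫⁻ z, H (Function.update w n z) ∂μ ∂(PP μ) = ∫⁻ w, H w ∂(PP μ) := by
  conv_rhs => rw [← x_map_upd μ n]
  rw [lintegral_map hH (x_meas_upd n)]
  exact (lintegral_prod (fun p : (ℕ → ℝ) × ℝ => H (Function.update p.1 n p.2)) (hH.comp (x_meas_upd n)).aemeasurable).symm

theorem x_exch (μ : Measure ℝ) [IsProbabilityMeasure μ] (n : ℕ) {A : Set (ℕ → ℝ)} (hA : MeasurableSet A) (D : ℝ) :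
    ∫⁻ w, μ {y | w ∈ A ∧ w n ≠ y ∧ |w n - y| ≤ D} ∂(PP μ) =
    ∫⁻ w, μ {y | Function.update w n y ∈ A ∧ w n ≠ y ∧ |w n - y| ≤ D} ∂(PP μ) := by
  have hC : MeasurableSet {p : ℝ × ℝ | p.1 ≠ p.2 ∧ |p.1 - p.2| ≤ D} := by
    refine MeasurableSet.inter ?_ ?_
    · exact (measurableSet_eq_fun measurable_fst measurable_snd).compl
    · exact measurableSet_le (measurable_fst.sub measurable_snd).abs measurable_const
  have hM1 : MeasurableSet {p : (ℕ → ℝ) × ℝ | p.1 ∈ A ∧ p.1 n ≠ p.2 ∧ |p.1 n - p.2| ≤ D} := by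
    refine MeasurableSet.inter (measurable_fst hA) ?_
    have : Measurable (fun p : (ℕ → ℝ) × ℝ => (p.1 n, p.2)) :=
      ((measurable_pi_apply n).comp measurable_fst).prodMk measurable_snd
    exact this hC
  have hM2 : MeasurableSet {p : (ℕ → ℝ) × ℝ | Function.update p.1 n p.2 ∈ A ∧ p.1 n ≠ p.2 ∧ |p.1 n - p.2| ≤ D} := by
    refine MeasurableSet.inter (x_meas_upd n hA) ?_
    have : Measurable (fun p : (ℕ → ℝ) × ℝ => (p.1 n, p.2)) :=
      ((measurable_pi_apply n).comp measurable_fst).prodMk measurable_snd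
    exact this hC
  have hH1 : Measurable (fun w : ℕ → ℝ => μ {y | w ∈ A ∧ w n ≠ y ∧ |w n - y| ≤ D}) :=
    measurable_measure_prodMk_left hM1
  have hH2 : Measurable (fun w : ℕ → ℝ => μ {y | Function.update w n y ∈ A ∧ w n ≠ y ∧ |w n - y| ≤ D}) :=
    measurable_measure_prodMk_left hM2
  rw [← x_lint_upd μ n hH1, ← x_lint_upd μ n hH2]
  apply lintegral_congr
  intro w
  simp only [Function.update_self, Function.update_idem]
  have hup : Measurable (fun z : ℝ => Function.update w n z) := by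
    exact (x_meas_upd n).comp (measurable_const.prodMk measurable_id)
  have hT1 : MeasurableSet {p : ℝ × ℝ | Function.update w n p.1 ∈ A ∧ p.1 ≠ p.2 ∧ |p.1 - p.2| ≤ D} :=
    MeasurableSet.inter ((hup.comp measurable_fst) hA) hC
  have hT2 : MeasurableSet {p : ℝ × ℝ | Function.update w n p.2 ∈ A ∧ p.1 ≠ p.2 ∧ |p.1 - p.2| ≤ D} :=
    MeasurableSet.inter ((hup.comp measurable_snd) hA) hC
  have e1 := Measure.prod_apply (μ := μ) (ν := μ) hT1
  have e2 := Measure.prod_apply (μ := μ) (ν := μ) hT2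
  have e3 : (μ.prod μ) {p : ℝ × ℝ | Function.update w n p.1 ∈ A ∧ p.1 ≠ p.2 ∧ |p.1 - p.2| ≤ D}
      = (μ.prod μ) {p : ℝ × ℝ | Function.update w n p.2 ∈ A ∧ p.1 ≠ p.2 ∧ |p.1 - p.2| ≤ D} := by
    conv_lhs => rw [← Measure.prod_swap]
    rw [Measure.map_apply measurable_swap hT1]
    congr 1
    ext ⟨a, b⟩
    simp only [mem_preimage, Prod.swap_prod_mk, mem_setOf_eq]
    rw [abs_sub_comm b a, ne_comm]
  rw [e1, e2] at e3
  exact e3

/-- Resampling lemma: if changing one far-out coefficient always destroys the property `A`, then `A`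
has probability `0`. -/
theorem resample (μ : Measure ℝ) (hμ : Std μ) (A : Set (ℕ → ℝ)) (hA : MeasurableSet A)
    (h : ∀ D > 0, ∀ᵐ ω ∂(PP μ), ∀ᶠ n in atTop, ∀ d : ℝ, d ≠ 0 → |d| ≤ D →
      Function.update ω n (ω n + d) ∉ A) : (PP μ) A = 0 := by
  haveI := hμ.prob
  by_contra hpos
  -- choose K
  obtain ⟨K1, hK1⟩ : ∃ K : ℕ, μ (Ioc 0 (K:ℝ)) ≠ 0 := by
    by_contra hcon
    push Not at hcon
    apply x_pos_right μ hμ
    have : Ioi (0:ℝ) = ⋃ K : ℕ, Ioc 0 (K:ℝ) := by
      ext x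
      simp only [mem_Ioi, mem_iUnion, mem_Ioc]
      constructor
      · intro hx
        obtain ⟨K, hK⟩ := exists_nat_ge x
        exact ⟨K, hx, hK⟩
      · rintro ⟨K, hx, _⟩
        exact hx
    rw [this]
    exact measure_iUnion_null hcon
  obtain ⟨K2, hK2⟩ : ∃ K : ℕ, μ (Ico (-(K:ℝ)) 0) ≠ 0 := by
    by_contra hcon
    push Not at hcon
    apply x_pos_left μ hμ
    have : Iio (0:ℝ) = ⋃ K : ℕ, Ico (-(K:ℝ)) 0 := by
      ext x
      simp only [mem_Iio, mem_iUnion, mem_Ico]
      constructor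
      · intro hx
        obtain ⟨K, hK⟩ := exists_nat_ge (-x)
        exact ⟨K, by linarith, hx⟩
      · rintro ⟨K, _, hx⟩
        exact hx
    rw [this]
    exact measure_iUnion_null hcon
  obtain ⟨K3, hK3⟩ : ∃ K : ℕ, μ {y : ℝ | (K:ℝ) < |y|} ≤ (PP μ) A / 2 := by
    have ht : Tendsto (μ ∘ (fun K : ℕ => {y : ℝ | (K:ℝ) < |y|})) atTop (𝓝 (μ (⋂ K : ℕ, {y : ℝ | (K:ℝ) < |y|}))) := by
      refine tendsto_measure_iInter_atTop (fun K => ?_) ?_ ⟨0, measure_ne_top _ _⟩
      · exact (measurableSet_lt measurable_const (by fun_prop)).nullMeasurableSet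
      · intro a b hab y hy
        simp only [mem_setOf_eq] at hy ⊢
        exact lt_of_le_of_lt (by exact_mod_cast hab) hy
    have he : (⋂ K : ℕ, {y : ℝ | (K:ℝ) < |y|}) = ∅ := by
      ext y
      simp only [mem_iInter, mem_setOf_eq, mem_empty_iff_false, iff_false, not_forall, not_lt]
      exact exists_nat_ge _
    rw [he, measure_empty] at ht
    have hp : 0 < (PP μ) A / 2 := ENNReal.half_pos hpos
    have := (ht.eventually (gt_mem_nhds hp)).exists
    obtain ⟨K, hK⟩ := this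
    exact ⟨K, hK.le⟩
  obtain ⟨K, hKK1, hKK2, hKK3⟩ : ∃ K : ℕ, K1 ≤ K ∧ K2 ≤ K ∧ K3 ≤ K :=
    ⟨max K1 (max K2 K3), le_max_left _ _, (le_max_left _ _).trans (le_max_right _ _),
      (le_max_right _ _).trans (le_max_right _ _)⟩
  have hKR1 : (K1:ℝ) ≤ K := by exact_mod_cast hKK1
  have hKR2 : (K2:ℝ) ≤ K := by exact_mod_cast hKK2
  have hKR3 : (K3:ℝ) ≤ K := by exact_mod_cast hKK3
  have hK0 : (0:ℝ) ≤ K := Nat.cast_nonneg K
  set h0 : ℝ≥0∞ := min (μ (Ioc 0 (K1:ℝ))) (μ (Ico (-(K2:ℝ)) 0)) with hh0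
  have h0pos : h0 ≠ 0 := by
    rw [hh0]
    exact (lt_min (pos_iff_ne_zero.mpr hK1) (pos_iff_ne_zero.mpr hK2)).ne'
  set D : ℝ := 2 * (K:ℝ) + 1 with hD
  have hDpos : 0 < D := by rw [hD]; linarith
  -- the lower bound
  have hlow : ∀ n : ℕ, h0 * ((PP μ) A / 2) ≤
      ∫⁻ w, μ {y | Function.update w n y ∈ A ∧ w n ≠ y ∧ |w n - y| ≤ D} ∂(PP μ) := by
    intro n
    rw [← x_exch μ n hA D]
    have hB : MeasurableSet {w : ℕ → ℝ | |w n| ≤ K} :=
      measurableSet_le (by fun_prop) measurable_const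
    have h1 : (PP μ) A ≤ (PP μ) (A ∩ {w : ℕ → ℝ | |w n| ≤ K}) + (PP μ) A / 2 := by
      calc (PP μ) A ≤ (PP μ) ((A ∩ {w : ℕ → ℝ | |w n| ≤ K}) ∪ {w : ℕ → ℝ | (K:ℝ) < |w n|}) := by
            apply measure_mono
            intro w hw
            by_cases hwn : |w n| ≤ K
            · exact Or.inl ⟨hw, hwn⟩
            · exact Or.inr (not_le.mp hwn)
        _ ≤ (PP μ) (A ∩ {w : ℕ → ℝ | |w n| ≤ K}) + (PP μ) {w : ℕ → ℝ | (K:ℝ) < |w n|} := measure_union_le _ _
        _ ≤ (PP μ) (A ∩ {w : ℕ → ℝ | |w n| ≤ K}) + (PP μ) A / 2 := by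
            gcongr
            have hmp := measurePreserving_eval_infinitePi (fun _ : ℕ => μ) n
            have hms : MeasurableSet {y : ℝ | (K:ℝ) < |y|} := measurableSet_lt measurable_const (by fun_prop)
            have := hmp.measure_preimage hms.nullMeasurableSet
            have e : (PP μ) {w : ℕ → ℝ | (K:ℝ) < |w n|} = μ {y : ℝ | (K:ℝ) < |y|} := this
            rw [e]
            refine le_trans (measure_mono ?_) hK3
            intro y hy
            exact lt_of_le_of_lt hKR3 hy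
    have h2 : (PP μ) A / 2 ≤ (PP μ) (A ∩ {w : ℕ → ℝ | |w n| ≤ K}) := by
      have h3 : (PP μ) A / 2 + (PP μ) A / 2 ≤ (PP μ) (A ∩ {w : ℕ → ℝ | |w n| ≤ K}) + (PP μ) A / 2 := by
        rw [ENNReal.add_halves]; exact h1
      exact (ENNReal.add_le_add_iff_right (ENNReal.div_ne_top (measure_ne_top _ _) (by norm_num))).mp h3
    calc h0 * ((PP μ) A / 2) ≤ h0 * (PP μ) (A ∩ {w : ℕ → ℝ | |w n| ≤ K}) := by gcongr
      _ = ∫⁻ w in (A ∩ {w : ℕ → ℝ | |w n| ≤ K}), h0 ∂(PP μ) := by rw [setLIntegral_const]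
      _ ≤ ∫⁻ w in (A ∩ {w : ℕ → ℝ | |w n| ≤ K}), μ {y | w ∈ A ∧ w n ≠ y ∧ |w n - y| ≤ D} ∂(PP μ) := by
          refine setLIntegral_mono' (hA.inter hB) (fun w hw => ?_)
          have hwA := hw.1
          have hwK : |w n| ≤ K := hw.2
          rw [abs_le] at hwK
          by_cases hs : w n ≤ 0
          · refine le_trans (min_le_left _ _) (measure_mono ?_)
            intro y hy
            refine ⟨hwA, ?_, ?_⟩
            · exact (lt_of_le_of_lt hs hy.1).ne
            · rw [abs_le]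
              have := hy.1; have := hy.2
              constructor <;> linarith
          · refine le_trans (min_le_right _ _) (measure_mono ?_)
            push Not at hs
            intro y hy
            refine ⟨hwA, ?_, ?_⟩
            · exact (hy.2.trans hs).ne'
            · rw [abs_le]
              have := hy.1; have := hy.2
              constructor <;> linarith
      _ ≤ _ := setLIntegral_le_lintegral _ _
  have hlim : Tendsto (fun n : ℕ => ∫⁻ w, μ {y | Function.update w n y ∈ A ∧ w n ≠ y ∧ |w n - y| ≤ D} ∂(PP μ))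
      atTop (𝓝 (∫⁻ w, (0:ℝ≥0∞) ∂(PP μ))) := by
    refine tendsto_lintegral_of_dominated_convergence (fun _ => 1) (fun n => ?_) (fun n => ?_) ?_ ?_
    · have hC : MeasurableSet {p : ℝ × ℝ | p.1 ≠ p.2 ∧ |p.1 - p.2| ≤ D} := by
        refine MeasurableSet.inter ?_ ?_
        · exact (measurableSet_eq_fun measurable_fst measurable_snd).compl
        · exact measurableSet_le (measurable_fst.sub measurable_snd).abs measurable_const
      have hM2 : MeasurableSet {p : (ℕ → ℝ) × ℝ | Function.update p.1 n p.2 ∈ A ∧ p.1 n ≠ p.2 ∧ |p.1 n - p.2| ≤ D} := by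
        refine MeasurableSet.inter (x_meas_upd n hA) ?_
        have : Measurable (fun p : (ℕ → ℝ) × ℝ => (p.1 n, p.2)) :=
          ((measurable_pi_apply n).comp measurable_fst).prodMk measurable_snd
        exact this hC
      exact measurable_measure_prodMk_left hM2
    · filter_upwards with w
      exact prob_le_one
    · simp
    · filter_upwards [h D hDpos] with w hw
      refine tendsto_const_nhds.congr' ?_
      filter_upwards [hw] with n hn
      symm
      have : {y | Function.update w n y ∈ A ∧ w n ≠ y ∧ |w n - y| ≤ D} = ∅ := by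
        ext y
        simp only [mem_setOf_eq, mem_empty_iff_false, iff_false]
        rintro ⟨h1, h2, h3⟩
        have := hn (y - w n) (sub_ne_zero.mpr (Ne.symm h2)) (by rw [abs_sub_comm]; exact h3)
        rw [add_sub_cancel] at this
        exact this h1
      rw [this, measure_empty]
  rw [lintegral_zero] at hlim
  have hfin := ge_of_tendsto' hlim hlow
  have hz : h0 * ((PP μ) A / 2) = 0 := le_antisymm hfin zero_le
  rw [mul_eq_zero] at hz
  rcases hz with hz | hz
  · exact h0pos hz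
  · exact (ENNReal.half_pos hpos).ne' hz


theorem ae_sumOK (μ : Measure ℝ) (hμ : Std μ) : ∀ᵐ ω ∂(PP μ), SumOK ω := by
  haveI := hμ.prob
  have hint := x_int1 μ hμ
  have key : ∀ k : ℕ, ∀ᵐ ω ∂(PP μ), Summable fun j : ℕ => |ω j| * (1 - 1 / ((k:ℝ) + 1)) ^ j := by
    intro k
    have hk1 : (0:ℝ) < (k:ℝ) + 1 := by positivity
    have hr0 : (0:ℝ) ≤ 1 - 1 / ((k:ℝ) + 1) := by
      rw [sub_nonneg, div_le_one hk1]
      have : (0:ℝ) ≤ k := Nat.cast_nonneg k
      linarith
    have hr1 : 1 - 1 / ((k:ℝ) + 1) < 1 := by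
      have : 0 < 1 / ((k:ℝ) + 1) := by positivity
      linarith
    generalize hr : 1 - 1 / ((k:ℝ) + 1) = r at hr0 hr1 ⊢
    have hmeas : ∀ j : ℕ, Measurable (fun ω : ℕ → ℝ => ENNReal.ofReal (|ω j| * r ^ j)) := by
      intro j
      fun_prop
    have h1 : ∫⁻ ω, ∑' j, ENNReal.ofReal (|ω j| * r ^ j) ∂(PP μ) ≠ ∞ := by
      rw [lintegral_tsum (fun j => (hmeas j).aemeasurable)]
      have hj : ∀ j : ℕ, ∫⁻ ω, ENNReal.ofReal (|ω j| * r ^ j) ∂(PP μ)
          = (∫⁻ x, ENNReal.ofReal |x| ∂μ) * ENNReal.ofReal (r ^ j) := by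
        intro j
        have hmp := measurePreserving_eval_infinitePi (fun _ : ℕ => μ) j
        have e1 : ∫⁻ ω, ENNReal.ofReal (|ω j| * r ^ j) ∂(PP μ) = ∫⁻ x, ENNReal.ofReal (|x| * r ^ j) ∂μ := by
          have := hmp.lintegral_comp (f := fun x : ℝ => ENNReal.ofReal (|x| * r ^ j)) (by fun_prop)
          exact this
        rw [e1]
        have e2 : ∀ x : ℝ, ENNReal.ofReal (|x| * r ^ j) = ENNReal.ofReal |x| * ENNReal.ofReal (r ^ j) :=
          fun x => ENNReal.ofReal_mul (abs_nonneg x)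
        simp only [e2]
        rw [lintegral_mul_const _ (by fun_prop)]
      simp only [hj]
      rw [ENNReal.tsum_mul_left]
      refine ENNReal.mul_ne_top ?_ ?_
      · have := hint.abs.lintegral_lt_top
        exact this.ne
      · exact (summable_geometric_of_lt_one hr0 hr1).tsum_ofReal_ne_top
    have h2 := ae_lt_top (Measurable.ennreal_tsum hmeas) h1
    filter_upwards [h2] with ω hω
    have := ENNReal.summable_toReal hω.ne
    refine this.congr (fun j => ?_)
    rw [ENNReal.toReal_ofReal (by positivity)]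
  rw [← ae_all_iff] at key
  filter_upwards [key] with ω hω r hr0 hr1
  obtain ⟨k, hk⟩ : ∃ k : ℕ, r ≤ 1 - 1/((k:ℝ)+1) := by
    obtain ⟨k, hk⟩ := exists_nat_one_div_lt (sub_pos.mpr hr1)
    exact ⟨k, by linarith⟩
  refine Summable.of_nonneg_of_le (fun j => by positivity) (fun j => ?_) (hω k)
  gcongr


theorem ae_exists_ne (μ : Measure ℝ) (hμ : Std μ) : ∀ᵐ ω ∂(PP μ), ∃ j, ω j ≠ 0 := by
  haveI := hμ.prob
  have h0 : μ {0} < 1 := by
    by_contra hcon
    push Not at hcon
    have h1 : μ {0} = 1 := le_antisymm prob_le_one hcon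
    have h2 : μ ({0}ᶜ) = 0 := (prob_compl_eq_zero_iff (measurableSet_singleton 0)).mpr h1
    apply x_pos_right μ hμ
    refine measure_mono_null ?_ h2
    intro x hx
    simp only [mem_compl_iff, mem_singleton_iff]
    exact (mem_Ioi.mp hx).ne'
  rw [ae_iff]
  have hN : ∀ N : ℕ, (PP μ) {ω | ¬ ∃ j, ω j ≠ 0} ≤ (μ {0}) ^ N := by
    intro N
    calc (PP μ) {ω | ¬ ∃ j, ω j ≠ 0} ≤ (PP μ) (Set.pi ((Finset.range N : Finset ℕ) : Set ℕ) (fun _ => ({0} : Set ℝ))) := by
          apply measure_mono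
          intro ω hω i _
          simp only [mem_setOf_eq, not_exists, not_not] at hω
          exact hω i
      _ = ∏ i ∈ Finset.range N, μ {0} := Measure.infinitePi_pi _ (fun i _ => measurableSet_singleton 0)
      _ = (μ {0}) ^ N := by simp
  have ht : Tendsto (fun N : ℕ => μ {0} ^ N) atTop (𝓝 0) := ENNReal.tendsto_pow_atTop_nhds_zero_of_lt_one h0
  exact le_antisymm (ge_of_tendsto' ht hN) zero_le



end G1
end Kac764
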