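import Pool.Agent.Helper764.KacDefs

set_option autoImplicit false
set_option maxHeartbeats 4000000
open MeasureTheory ProbabilityTheory Filter Topology Set
open scoped ENNReal NNReal

namespace Kac764
namespace G2

theorem kg_summable (ω : ℕ → ℝ) (hω : SumOK ω) (r : ℝ) (hr0 : 0 ≤ r) (hr : r < 1) :
    Summable fun n : ℕ => |ω n| * ((n : ℝ) * r ^ (n - 1)) := by
  -- reduce to positive r
  set r1 : ℝ := (r + 1) / 2 with hr1
  have hr1r : r < r1 := by rw [hr1]; linarith
  have hr1pos : 0 < r1 := by rw [hr1]; linarith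
  have hr1lt : r1 < 1 := by rw [hr1]; linarith
  set r2 : ℝ := (r1 + 1) / 2 with hr2
  have hr2r : r1 < r2 := by rw [hr2]; linarith
  have hr2pos : 0 < r2 := by linarith
  have hr2lt : r2 < 1 := by rw [hr2]; linarith
  set q := r1 / r2 with hq
  have hq0 : 0 < q := div_pos hr1pos hr2pos
  have hq1 : q < 1 := (div_lt_one hr2pos).2 hr2r
  have ht := tendsto_self_mul_const_pow_of_lt_one hq0.le hq1
  obtain ⟨M, hM⟩ := ht.bddAbove_range
  have hM' : ∀ n : ℕ, (n : ℝ) * q ^ n ≤ M := fun n => hM ⟨n, rfl⟩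
  have hs := (hω r2 hr2pos.le hr2lt).mul_left (M / r1)
  apply Summable.of_nonneg_of_le _ _ hs
  · intro n
    positivity
  · intro n
    rcases Nat.eq_zero_or_pos n with h | h
    · subst h
      have h0 : 0 ≤ M := by
        have := hM' 0
        simpa using this
      simp only [Nat.cast_zero, zero_mul, mul_zero, pow_zero, mul_one]
      positivity
    · have h1 : r ^ (n - 1) ≤ r1 ^ (n - 1) := pow_le_pow_left₀ hr0 hr1r.le _
      have h2 : r1 ^ n = q ^ n * r2 ^ n := by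
        rw [← mul_pow]
        congr 1
        rw [hq, div_mul_cancel₀ _ hr2pos.ne']
      have h3 : r1 ^ (n - 1) = r1 ^ n / r1 := by
        rw [eq_div_iff hr1pos.ne', ← pow_succ]
        congr 1
        omega
      calc |ω n| * ((n : ℝ) * r ^ (n - 1)) ≤ |ω n| * ((n : ℝ) * r1 ^ (n - 1)) := by gcongr
        _ = ((n : ℝ) * q ^ n) / r1 * (|ω n| * r2 ^ n) := by
            rw [h3, h2]; ring
        _ ≤ M / r1 * (|ω n| * r2 ^ n) := by
            apply mul_le_mul_of_nonneg_right _ (by positivity)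
            exact div_le_div_of_nonneg_right (hM' n) hr1pos.le

theorem kg_hasDerivAt (ω : ℕ → ℝ) (hω : SumOK ω) (x : ℝ) (hx : |x| < 1) :
    HasDerivAt (F0 ω) (F1 ω x) x := by
  set r : ℝ := (|x| + 1) / 2 with hr
  have hr1 : |x| < r := by rw [hr]; linarith
  have hr2 : r < 1 := by rw [hr]; linarith
  have hr0 : 0 < r := lt_of_le_of_lt (abs_nonneg x) hr1
  apply hasDerivAt_tsum_of_isPreconnected (g := fun (j : ℕ) (x : ℝ) => ω j * x ^ j)
    (g' := fun (j : ℕ) (x : ℝ) => ω j * ((j : ℝ) * x ^ (j - 1)))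
    (kg_summable ω hω r hr0.le hr2) isOpen_Ioo
    (isPreconnected_Ioo (a := -r) (b := r)) (y₀ := 0)
  · intro n y _
    exact (hasDerivAt_pow n y).const_mul (ω n)
  · intro n y hy
    rw [norm_mul, norm_mul, Real.norm_eq_abs, norm_pow, Real.norm_eq_abs, Real.norm_eq_abs, Nat.abs_cast]
    have : |y| ≤ r := (abs_lt.2 hy).le
    gcongr
  · exact ⟨by linarith, hr0⟩
  · have := hω 0 le_rfl one_pos
    apply Summable.of_norm
    refine this.congr ?_
    intro n
    rw [norm_mul, norm_pow, Real.norm_eq_abs, norm_zero]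
  · exact abs_lt.1 hr1

theorem kg_unif (ω : ℕ → ℝ) (hω : SumOK ω) (r : ℝ) (hr0 : 0 ≤ r) (hr : r < 1) (ε : ℝ) (hε : 0 < ε) :
    ∀ᶠ n : ℕ in atTop, ∀ x : ℝ, |x| ≤ r → |D0 n ω x - F0 ω x| < ε ∧ |D1 n ω x - F1 ω x| < ε := by
  have general : ∀ (g : ℕ → ℝ → ℝ) (u : ℕ → ℝ), Summable u → (∀ n x, |x| ≤ r → |g n x| ≤ u n) →
      ∀ᶠ n : ℕ in atTop, ∀ x : ℝ, |x| ≤ r →
        |∑ j ∈ Finset.range (n + 1), g j x - ∑' j, g j x| < ε := by
    intro g u hu hg
    have ht := (tendsto_sum_nat_add u).comp (tendsto_add_atTop_nat 1)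
    have hev := ht.eventually (gt_mem_nhds hε)
    filter_upwards [hev] with n hn x hx
    have hs : Summable fun j => g j x := Summable.of_norm_bounded hu fun j => hg j x hx
    have h1 := hs.sum_add_tsum_nat_add (n + 1)
    have h2 : ∑ j ∈ Finset.range (n + 1), g j x - ∑' j, g j x = -∑' j, g (j + (n + 1)) x := by
      rw [← h1]; ring
    rw [h2, abs_neg]
    have hs2 : Summable fun j => u (j + (n + 1)) := (summable_nat_add_iff (n + 1)).2 hu
    have h3 : ‖∑' j, g (j + (n + 1)) x‖ ≤ ∑' j, u (j + (n + 1)) :=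
      tsum_of_norm_bounded hs2.hasSum fun j => hg _ x hx
    exact lt_of_le_of_lt h3 hn
  have e0 := general (fun j x => ω j * x ^ j) (fun j => |ω j| * r ^ j) (hω r hr0 hr) (by
    intro n x hx
    rw [abs_mul, abs_pow]
    gcongr)
  have e1 := general (fun j x => ω j * ((j : ℝ) * x ^ (j - 1))) (fun j => |ω j| * ((j : ℝ) * r ^ (j - 1)))
    (kg_summable ω hω r hr0 hr) (by
    intro n x hx
    rw [abs_mul, abs_mul, abs_pow, Nat.abs_cast]
    gcongr)
  filter_upwards [e0, e1] with n h0 h1 x hx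
  exact ⟨h0 x hx, h1 x hx⟩

theorem kg_F1_cont (ω : ℕ → ℝ) (hω : SumOK ω) : ContinuousOn (F1 ω) (Ioo (-1) 1) := by
  intro x hx
  have hx' : |x| < 1 := abs_lt.2 hx
  set r : ℝ := (|x| + 1) / 2 with hr
  have hr1 : |x| < r := by rw [hr]; linarith
  have hr2 : r < 1 := by rw [hr]; linarith
  have hr0 : 0 < r := lt_of_le_of_lt (abs_nonneg x) hr1
  have h : ContinuousOn (F1 ω) (Ioo (-r) r) := by
    apply continuousOn_tsum (u := fun n : ℕ => |ω n| * ((n : ℝ) * r ^ (n - 1))) _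
      (kg_summable ω hω r hr0.le hr2)
    · intro n y hy
      rw [norm_mul, norm_mul, Real.norm_eq_abs, norm_pow, Real.norm_eq_abs, Real.norm_eq_abs, Nat.abs_cast]
      have : |y| ≤ r := (abs_lt.2 hy).le
      gcongr
    · intro n
      fun_prop
  exact (h.continuousAt (Ioo_mem_nhds (abs_lt.1 hr1).1 (abs_lt.1 hr1).2)).continuousWithinAt

theorem kg_analytic (ω : ℕ → ℝ) (hω : SumOK ω) :
    ∃ R : ℝ≥0∞, 1 ≤ R ∧ HasFPowerSeriesOnBall (F0 ω) (FormalMultilinearSeries.ofScalars ℝ ω) 0 R := by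
  set p := FormalMultilinearSeries.ofScalars ℝ ω with hp
  have hpn : ∀ n, ‖p n‖ = |ω n| := by
    intro n
    rw [hp, FormalMultilinearSeries.ofScalars_norm, Real.norm_eq_abs]
  have hrad : 1 ≤ p.radius := by
    apply ENNReal.le_of_forall_nnreal_lt
    intro r hr
    apply p.le_radius_of_summable
    simp_rw [hpn]
    apply hω r r.2
    exact_mod_cast hr
  refine ⟨p.radius, hrad, ?_⟩
  have h := p.hasFPowerSeriesOnBall (lt_of_lt_of_le one_pos hrad)
  have hsum : p.sum = F0 ω := by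
    funext x
    unfold FormalMultilinearSeries.sum F0
    apply tsum_congr
    intro n
    rw [hp, FormalMultilinearSeries.ofScalars_apply_eq, smul_eq_mul]
  rw [hsum] at h
  exact h

theorem kg_local_zero (ω : ℕ → ℝ) (hω : SumOK ω) (hne : ∃ j, ω j ≠ 0) (z : ℝ) (hz : |z| < 1) :
    AnalyticAt ℝ (F0 ω) z ∧ ¬ ∀ᶠ y in 𝓝 z, F0 ω y = 0 := by
  obtain ⟨R, hR, hF⟩ := kg_analytic ω hω
  have hball : ∀ y : ℝ, |y| < 1 → AnalyticAt ℝ (F0 ω) y := by
    intro y hy
    apply hF.analyticAt_of_mem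
    rw [Metric.mem_eball, edist_zero_right]
    refine lt_of_lt_of_le ?_ hR
    rw [Real.enorm_eq_ofReal_abs, ← ENNReal.ofReal_one]
    exact (ENNReal.ofReal_lt_ofReal_iff one_pos).2 hy
  refine ⟨hball z hz, ?_⟩
  intro hev
  have hA : AnalyticOnNhd ℝ (F0 ω) (Ioo (-1) 1) := fun y hy => hball y (abs_lt.2 hy)
  have h0 := hA.eqOn_zero_of_preconnected_of_eventuallyEq_zero isPreconnected_Ioo (abs_lt.1 hz) hev
  have h1 : F0 ω =ᶠ[𝓝 0] 0 := by
    filter_upwards [Ioo_mem_nhds (show (-1 : ℝ) < 0 by norm_num) (show (0 : ℝ) < 1 by norm_num)] with y hy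
    exact h0 hy
  have h2 := hF.hasFPowerSeriesAt.eq_zero_of_eventually h1
  obtain ⟨j, hj⟩ := hne
  apply hj
  have h3 : (FormalMultilinearSeries.ofScalars ℝ ω).coeff j = ω j := FormalMultilinearSeries.coeff_ofScalars
  rw [h2] at h3
  rw [← h3]
  rfl

/-- the local statement -/
theorem kg_local (ω : ℕ → ℝ) (hω : SumOK ω) (hne : ∃ j, ω j ≠ 0) (a b : ℝ)
    (hab : a < b) (hsub : ∀ x ∈ Icc a b, 0 < |x| ∧ |x| < 1) (D : ℝ) (hD : 0 < D) (z : ℝ)
    (hz : z ∈ Icc a b) :
    ∃ V ∈ 𝓝 z, ∀ᶠ n : ℕ in atTop, ∀ y ∈ V, y ∈ Icc a b → ∀ d : ℝ, d ≠ 0 → |d| ≤ D →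
      F0 ω y + d * y ^ n = 0 → F1 ω y + d * ((n : ℝ) * y ^ (n - 1)) ≠ 0 := by
  obtain ⟨hz0, hz1⟩ := hsub z hz
  obtain ⟨hana, hnz⟩ := kg_local_zero ω hω hne z hz1
  set ρ := max |a| |b| with hρ
  have hρ1 : ρ < 1 := max_lt (hsub a ⟨le_rfl, hab.le⟩).2 (hsub b ⟨hab.le, le_rfl⟩).2
  have hρ0 : 0 ≤ ρ := (abs_nonneg a).trans (le_max_left _ _)
  have hyρ : ∀ y ∈ Icc a b, |y| ≤ ρ := by
    intro y hy
    exact abs_le_max_abs_abs hy.1 hy.2
  by_cases hfz : F0 ω z = 0
  · obtain ⟨r, h, hh, hhz, hfac⟩ := hana.exists_eventuallyEq_pow_smul_nonzero_iff.2 hnz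
    have hr : 1 ≤ r := by
      rcases Nat.eq_zero_or_pos r with h0 | h0
      · exfalso
        have := hfac.self_of_nhds
        rw [h0, hfz, pow_zero, one_smul] at this
        exact hhz this.symm
      · exact h0
    set ch := |h z| / 2 with hch
    have hch0 : 0 < ch := by
      have : 0 < |h z| := abs_pos.2 hhz
      rw [hch]; linarith
    set Ch := |h z| + 1 with hCh
    have hCh0 : 0 < Ch := by positivity
    set C' := |deriv h z| + 1 with hC'
    have hC'0 : 0 < C' := by positivity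
    have hcont : ContinuousAt h z := hh.continuousAt
    have hcont' : ContinuousAt (deriv h) z := hh.deriv.continuousAt
    have ev1 : ∀ᶠ y in 𝓝 z, ch < |h y| :=
      (continuous_abs.continuousAt.comp hcont).eventually_const_lt (by
        show ch < |h z|
        rw [hch]
        have : 0 < |h z| := abs_pos.2 hhz
        linarith)
    have ev2 : ∀ᶠ y in 𝓝 z, |h y| < Ch :=
      (continuous_abs.continuousAt.comp hcont).eventually_lt_const (by
        show |h z| < Ch
        rw [hCh]; linarith)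
    have ev3 : ∀ᶠ y in 𝓝 z, |deriv h y| < C' :=
      (continuous_abs.continuousAt.comp hcont').eventually_lt_const (by
        show |deriv h z| < C'
        rw [hC']; linarith)
    have ev4 : ∀ᶠ y in 𝓝 z, |y - z| < ch / (2 * C') := by
      have : ContinuousAt (fun y : ℝ => |y - z|) z := by fun_prop
      apply this.eventually_lt_const
      simp only [sub_self, abs_zero]
      positivity
    have ev5 : ∀ᶠ y in 𝓝 z, |z| / 2 < |y| := by
      have : ContinuousAt (fun y : ℝ => |y|) z := by fun_prop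
      apply this.eventually_const_lt
      simp only
      linarith
    have ev6 : ∀ᶠ y in 𝓝 z, ∀ᶠ y' in 𝓝 y, F0 ω y' = (y' - z) ^ r • h y' := hfac.eventually_nhds
    have ev7 : ∀ᶠ y in 𝓝 z, AnalyticAt ℝ h y := hh.eventually_analyticAt
    set c1 := |z| / 2 * (ch / 2) / Ch with hc1
    have hc10 : 0 < c1 := by positivity
    have hlim : Tendsto (fun n : ℕ => (n : ℝ) ^ r * ρ ^ n) atTop (𝓝 0) :=
      tendsto_pow_const_mul_const_pow_of_abs_lt_one r (by rwa [abs_of_nonneg hρ0])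
    have hev : ∀ᶠ n : ℕ in atTop, (n : ℝ) ^ r * ρ ^ n < ch * c1 ^ r / D :=
      hlim.eventually (gt_mem_nhds (by positivity))
    refine ⟨_, (ev1.and (ev2.and (ev3.and (ev4.and (ev5.and (ev6.and ev7)))))), ?_⟩
    filter_upwards [hev, eventually_ge_atTop 1] with n hn hn1 y hy hyab d hd hdD he0 he1
    obtain ⟨h1, h2, h3, h4, h5, h6, h7⟩ := hy
    obtain ⟨hy0, hy1⟩ := hsub y hyab
    have hy0' : y ≠ 0 := abs_pos.1 hy0
    have hnpos : (0 : ℝ) < n := by exact_mod_cast hn1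
    set u := y - z with hu
    have hfy : F0 ω y = u ^ r * h y := h6.self_of_nhds
    have hfy2 : F0 ω y = -(d * y ^ n) := by linarith
    have hfy0 : F0 ω y ≠ 0 := by
      rw [hfy2]
      exact neg_ne_zero.2 (mul_ne_zero hd (pow_ne_zero _ hy0'))
    have hu0 : u ≠ 0 := by
      intro h0
      apply hfy0
      rw [hfy, h0, zero_pow (by omega), zero_mul]
    have hder1 : HasDerivAt (F0 ω) (F1 ω y) y := kg_hasDerivAt ω hω y hy1
    have hder2 : HasDerivAt (fun y' : ℝ => (y' - z) ^ r * h y')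
        ((r : ℝ) * (y - z) ^ (r - 1) * 1 * h y + (y - z) ^ r * deriv h y) y :=
      (((hasDerivAt_id y).sub_const z).pow r).mul h7.differentiableAt.hasDerivAt
    have hder3 := hder2.congr_of_eventuallyEq (show F0 ω =ᶠ[𝓝 y] fun y' : ℝ => (y' - z) ^ r * h y' from h6)
    have hF1 : F1 ω y = (r : ℝ) * u ^ (r - 1) * 1 * h y + u ^ r * deriv h y := hder1.unique hder3
    -- y * F1 = n * F0
    have hyn : y * y ^ (n - 1) = y ^ n := by
      rw [← pow_succ']
      congr 1
      omega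
    have hrel : y * F1 ω y = n * F0 ω y := by
      have e : F1 ω y = -(d * ((n : ℝ) * y ^ (n - 1))) := by linarith
      rw [e, hfy2, ← hyn]
      ring
    have hur : u ^ r = u * u ^ (r - 1) := by
      rw [← pow_succ']
      congr 1
      omega
    rw [hF1, hfy, hur] at hrel
    have hrel2 : y * (r * h y + u * deriv h y) = n * u * h y := by
      have hup : u ^ (r - 1) ≠ 0 := pow_ne_zero _ hu0
      apply mul_left_cancel₀ hup
      linarith
    have hlow : |z| / 2 * (ch / 2) ≤ |y * (r * h y + u * deriv h y)| := by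
      rw [abs_mul]
      apply mul_le_mul h5.le _ (by positivity) (abs_nonneg _)
      have e1 : |u * deriv h y| ≤ ch / 2 := by
        rw [abs_mul]
        calc |u| * |deriv h y| ≤ (ch / (2 * C')) * C' :=
              mul_le_mul h4.le h3.le (abs_nonneg _) (by positivity)
          _ = ch / 2 := by field_simp
      have e2 : ch ≤ |r * h y| := by
        rw [abs_mul, Nat.abs_cast]
        have : (1 : ℝ) ≤ r := by exact_mod_cast hr
        nlinarith [abs_nonneg (h y)]
      have e3 : |r * h y| - |u * deriv h y| ≤ |r * h y + u * deriv h y| := by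
        have := abs_sub_abs_le_abs_sub (r * h y) (-(u * deriv h y))
        rw [abs_neg, sub_neg_eq_add] at this
        exact this
      linarith
    have hup : |z| / 2 * (ch / 2) ≤ n * |u| * Ch := by
      refine hlow.trans ?_
      rw [hrel2, abs_mul, abs_mul, Nat.abs_cast]
      exact mul_le_mul_of_nonneg_left h2.le (by positivity)
    have hub : c1 ≤ n * |u| := by
      rw [hc1, div_le_iff₀ hCh0]
      exact hup
    have hub2 : c1 ^ r ≤ (n : ℝ) ^ r * |u| ^ r := by
      rw [← mul_pow]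
      exact pow_le_pow_left₀ hc10.le hub r
    have hf1 : |F0 ω y| ≤ D * ρ ^ n := by
      rw [hfy2, abs_neg, abs_mul, abs_pow]
      exact mul_le_mul hdD (pow_le_pow_left₀ (abs_nonneg _) (hyρ y hyab) n) (by positivity) hD.le
    have hf2 : |u| ^ r * ch ≤ |F0 ω y| := by
      rw [hfy, abs_mul, abs_pow]
      exact mul_le_mul_of_nonneg_left h1.le (by positivity)
    have hfin : ch * c1 ^ r ≤ D * ((n : ℝ) ^ r * ρ ^ n) := by
      calc ch * c1 ^ r ≤ ch * ((n : ℝ) ^ r * |u| ^ r) := mul_le_mul_of_nonneg_left hub2 hch0.le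
        _ = (n : ℝ) ^ r * (|u| ^ r * ch) := by ring
        _ ≤ (n : ℝ) ^ r * (D * ρ ^ n) := mul_le_mul_of_nonneg_left (hf2.trans hf1) (by positivity)
        _ = D * ((n : ℝ) ^ r * ρ ^ n) := by ring
    rw [lt_div_iff₀ hD] at hn
    linarith
  · have hm : 0 < |F0 ω z| / 2 := by
      have := abs_pos.2 hfz
      linarith
    have hcont : ContinuousAt (fun y => |F0 ω y|) z :=
      continuous_abs.continuousAt.comp (kg_hasDerivAt ω hω z hz1).continuousAt
    have ev1 : ∀ᶠ y in 𝓝 z, |F0 ω z| / 2 < |F0 ω y| := by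
      apply hcont.eventually_const_lt
      simp only
      linarith
    have hlim : Tendsto (fun n : ℕ => ρ ^ n) atTop (𝓝 0) :=
      tendsto_pow_atTop_nhds_zero_of_lt_one hρ0 hρ1
    have hev : ∀ᶠ n : ℕ in atTop, ρ ^ n < |F0 ω z| / 2 / D :=
      hlim.eventually (gt_mem_nhds (by positivity))
    refine ⟨_, ev1, ?_⟩
    filter_upwards [hev] with n hn y hy hyab d hd hdD he0
    exfalso
    have hfy2 : F0 ω y = -(d * y ^ n) := by linarith
    have hf1 : |F0 ω y| ≤ D * ρ ^ n := by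
      rw [hfy2, abs_neg, abs_mul, abs_pow]
      exact mul_le_mul hdD (pow_le_pow_left₀ (abs_nonneg _) (hyρ y hyab) n) (by positivity) hD.le
    rw [lt_div_iff₀ hD] at hn
    have hy' : |F0 ω z| / 2 < |F0 ω y| := hy
    linarith

/-- Deterministic: adding `d x^n` with `n` large to a nonzero power series kills all multiple zeros
in a compact interval inside `(-1,1) \ {0}`. -/
theorem no_double_after_perturb (ω : ℕ → ℝ) (hω : SumOK ω) (hne : ∃ j, ω j ≠ 0) (a b : ℝ)
    (hab : a < b) (hsub : ∀ x ∈ Icc a b, 0 < |x| ∧ |x| < 1) (D : ℝ) (hD : 0 < D) :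
    ∀ᶠ n : ℕ in atTop, ∀ d : ℝ, d ≠ 0 → |d| ≤ D → ∀ y ∈ Icc a b,
      F0 ω y + d * y ^ n = 0 → F1 ω y + d * ((n : ℝ) * y ^ (n - 1)) ≠ 0 := by
  have key : ∀ᶠ n : ℕ in atTop, ∀ y ∈ Icc a b, ∀ d : ℝ, d ≠ 0 → |d| ≤ D →
      F0 ω y + d * y ^ n = 0 → F1 ω y + d * ((n : ℝ) * y ^ (n - 1)) ≠ 0 := by
    apply (isCompact_Icc (a := a) (b := b)).induction_on
      (p := fun S => ∀ᶠ n : ℕ in atTop, ∀ y ∈ S, ∀ d : ℝ, d ≠ 0 → |d| ≤ D →
      F0 ω y + d * y ^ n = 0 → F1 ω y + d * ((n : ℝ) * y ^ (n - 1)) ≠ 0)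
    · exact Filter.Eventually.of_forall fun n y hy => absurd hy (Set.notMem_empty y)
    · intro s t hst ht
      filter_upwards [ht] with n hn y hy
      exact hn y (hst hy)
    · intro s t hs ht
      filter_upwards [hs, ht] with n hn1 hn2 y hy
      rcases hy with hy | hy
      · exact hn1 y hy
      · exact hn2 y hy
    · intro z hz
      obtain ⟨V, hV, hn⟩ := kg_local ω hω hne a b hab hsub D hD z hz
      refine ⟨V ∩ Icc a b, Filter.inter_mem (mem_nhdsWithin_of_mem_nhds hV) self_mem_nhdsWithin, ?_⟩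
      filter_upwards [hn] with n hn y hy
      exact hn y hy.1 hy.2
  filter_upwards [key] with n hn d hd hdD y hy
  exact hn y hy d hd hdD

theorem F0_hasDerivAt (ω : ℕ → ℝ) (hω : SumOK ω) (x : ℝ) (hx : |x| < 1) :
    HasDerivAt (F0 ω) (F1 ω x) x := kg_hasDerivAt ω hω x hx

/-- Uniform convergence of the partial sums and of their derivatives. -/
theorem D0_D1_unif (ω : ℕ → ℝ) (hω : SumOK ω) (r : ℝ) (hr0 : 0 ≤ r) (hr : r < 1) (ε : ℝ) (hε : 0 < ε) :
    ∀ᶠ n : ℕ in atTop, ∀ x : ℝ, |x| ≤ r → |D0 n ω x - F0 ω x| < ε ∧ |D1 n ω x - F1 ω x| < ε :=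
  kg_unif ω hω r hr0 hr ε hε

theorem F1_continuousOn (ω : ℕ → ℝ) (hω : SumOK ω) : ContinuousOn (F1 ω) (Ioo (-1) 1) :=
  kg_F1_cont ω hω


end G2
end Kac764
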