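import Pool.Agent.Helper764.KacDefs

set_option autoImplicit false
set_option maxHeartbeats 4000000
open MeasureTheory ProbabilityTheory Filter Topology Set
open scoped ENNReal NNReal

namespace Kac764
namespace G3

def Resample (μ : Measure ℝ) : Prop := ∀ (A : Set (ℕ → ℝ)), MeasurableSet A →
    (∀ D > 0, ∀ᵐ ω ∂(PP μ), ∀ᶠ n in atTop, ∀ d : ℝ, d ≠ 0 → |d| ≤ D →
      Function.update ω n (ω n + d) ∉ A) → (PP μ) A = 0

def NoDouble : Prop := ∀ (ω : ℕ → ℝ), SumOK ω → (∃ j, ω j ≠ 0) → ∀ (a b : ℝ), a < b →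
    (∀ x ∈ Icc a b, 0 < |x| ∧ |x| < 1) → ∀ (D : ℝ), 0 < D →
    ∀ᶠ n : ℕ in atTop, ∀ d : ℝ, d ≠ 0 → |d| ≤ D → ∀ y ∈ Icc a b,
      F0 ω y + d * y ^ n = 0 → F1 ω y + d * ((n : ℝ) * y ^ (n - 1)) ≠ 0

theorem G3_sum0 {ω : ℕ → ℝ} (h : SumOK ω) {x : ℝ} (hx : |x| < 1) :
    Summable fun j : ℕ => ω j * x ^ j := by
  refine Summable.of_norm_bounded (h |x| (abs_nonneg _) hx) fun j => ?_
  rw [Real.norm_eq_abs, abs_mul, abs_pow]

theorem G3_sum1 {ω : ℕ → ℝ} (h : SumOK ω) {r : ℝ} (hr0 : 0 ≤ r) (hr : r < 1) :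
    Summable fun j : ℕ => |ω j| * ((j : ℝ) * r ^ (j - 1)) := by
  set r' := max r (1 / 2) with hr'
  have h1 : 0 < r' := lt_of_lt_of_le (by norm_num) (le_max_right _ _)
  have h2 : r' < 1 := max_lt hr (by norm_num)
  have h3 : r ≤ r' := le_max_left _ _
  set s := (r' + 1) / 2 with hs
  have hs0 : 0 < s := by rw [hs]; linarith
  have hs1 : s < 1 := by rw [hs]; linarith
  have hrs : r' < s := by rw [hs]; linarith
  have hS := h s hs0.le hs1
  have ht : Summable (fun j : ℕ => (j : ℝ) ^ 1 * (r' / s) ^ j) := by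
    apply summable_pow_mul_geometric_of_norm_lt_one
    rw [Real.norm_eq_abs, abs_of_pos (by positivity), div_lt_one hs0]
    exact hrs
  set B := ∑' j : ℕ, (j : ℝ) ^ 1 * (r' / s) ^ j with hB'
  have hB : ∀ j : ℕ, (j : ℝ) ^ 1 * (r' / s) ^ j ≤ B := fun j =>
    ht.le_tsum j (fun i _ => by positivity)
  have hB0 : 0 ≤ B := le_trans (by positivity) (hB 0)
  refine Summable.of_nonneg_of_le (fun j => by positivity) (fun j => ?_) (hS.mul_left (B / r'))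
  rcases j with _ | j
  · simp; positivity
  · have h4 : r ^ j ≤ r' ^ j := pow_le_pow_left₀ hr0 h3 j
    have h5 := hB (j + 1)
    rw [pow_one, div_pow, mul_div_assoc', div_le_iff₀ (by positivity)] at h5
    have h6 : ((j + 1 : ℕ) : ℝ) * r' ^ j ≤ B / r' * s ^ (j + 1) := by
      rw [div_mul_eq_mul_div, le_div_iff₀ h1]
      calc ((j + 1 : ℕ) : ℝ) * r' ^ j * r' = ((j + 1 : ℕ) : ℝ) * r' ^ (j + 1) := by ring
        _ ≤ _ := h5
    have h7 : ((j + 1 : ℕ) : ℝ) * r ^ j ≤ ((j + 1 : ℕ) : ℝ) * r' ^ j :=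
      mul_le_mul_of_nonneg_left h4 (by positivity)
    calc |ω (j + 1)| * (((j + 1 : ℕ) : ℝ) * r ^ (j + 1 - 1)) ≤
        |ω (j + 1)| * (B / r' * s ^ (j + 1)) :=
          mul_le_mul_of_nonneg_left (h7.trans h6) (abs_nonneg _)
      _ = _ := by ring

theorem G3_sum1' {ω : ℕ → ℝ} (h : SumOK ω) {x : ℝ} (hx : |x| < 1) :
    Summable fun j : ℕ => ω j * ((j : ℝ) * x ^ (j - 1)) := by
  refine Summable.of_norm_bounded (G3_sum1 h (abs_nonneg _) hx) fun j => ?_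
  rw [Real.norm_eq_abs, abs_mul, abs_mul, abs_pow, Nat.abs_cast]

theorem G3_D0_lim {ω : ℕ → ℝ} (h : SumOK ω) {x : ℝ} (hx : |x| < 1) :
    Tendsto (fun n => D0 n ω x) atTop (𝓝 (F0 ω x)) :=
  (tendsto_add_atTop_iff_nat 1).2 (G3_sum0 h hx).hasSum.tendsto_sum_nat

theorem G3_D1_lim {ω : ℕ → ℝ} (h : SumOK ω) {x : ℝ} (hx : |x| < 1) :
    Tendsto (fun n => D1 n ω x) atTop (𝓝 (F1 ω x)) :=
  (tendsto_add_atTop_iff_nat 1).2 (G3_sum1' h hx).hasSum.tendsto_sum_nat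

theorem G3_F0_upd {ω : ℕ → ℝ} (h : SumOK ω) {x : ℝ} (hx : |x| < 1) (n : ℕ) (d : ℝ) :
    F0 (Function.update ω n (ω n + d)) x = F0 ω x + d * x ^ n := by
  unfold F0
  have h1 : (fun j => Function.update ω n (ω n + d) j * x ^ j) =
      fun j => ω j * x ^ j + (if j = n then d * x ^ n else 0) := by
    funext j
    by_cases hj : j = n
    · subst hj; rw [Function.update_self, if_pos rfl]; ring
    · rw [Function.update_of_ne hj, if_neg hj, add_zero]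
  rw [h1, (G3_sum0 h hx).tsum_add (by
    exact (hasSum_ite_eq n (d * x ^ n)).summable), tsum_ite_eq]

theorem G3_F1_upd {ω : ℕ → ℝ} (h : SumOK ω) {x : ℝ} (hx : |x| < 1) (n : ℕ) (d : ℝ) :
    F1 (Function.update ω n (ω n + d)) x = F1 ω x + d * ((n : ℝ) * x ^ (n - 1)) := by
  unfold F1
  have h1 : (fun j : ℕ => Function.update ω n (ω n + d) j * ((j : ℝ) * x ^ (j - 1))) =
      fun j : ℕ => ω j * ((j : ℝ) * x ^ (j - 1)) +
        (if j = n then d * ((n : ℝ) * x ^ (n - 1)) else 0) := by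
    funext j
    by_cases hj : j = n
    · subst hj; rw [Function.update_self, if_pos rfl]; ring
    · rw [Function.update_of_ne hj, if_neg hj, add_zero]
  rw [h1, (G3_sum1' h hx).tsum_add (by
    exact (hasSum_ite_eq n (d * ((n : ℝ) * x ^ (n - 1)))).summable), tsum_ite_eq]

theorem G3_SumOK_upd {ω : ℕ → ℝ} (h : SumOK ω) (n : ℕ) (d : ℝ) :
    SumOK (Function.update ω n (ω n + d)) := by
  intro r hr0 hr
  have h1 := (h r hr0 hr).add (hasSum_ite_eq n (|ω n + d| * r ^ n)).summable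
  refine Summable.of_nonneg_of_le (fun j => by positivity) (fun j => ?_) h1
  by_cases hj : j = n
  · subst hj
    rw [Function.update_self]
    simp only [if_true]
    have : 0 ≤ |ω j| * r ^ j := by positivity
    linarith
  · rw [Function.update_of_ne hj]
    simp only [if_neg hj, add_zero]
    exact le_rfl

theorem G3_D0_meas (n : ℕ) (x : ℝ) : Measurable fun ω : ℕ → ℝ => D0 n ω x := by
  unfold D0
  exact Finset.measurable_sum _ fun j _ => (measurable_pi_apply j).mul_const _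

theorem G3_D1_meas (n : ℕ) (x : ℝ) : Measurable fun ω : ℕ → ℝ => D1 n ω x := by
  unfold D1
  exact Finset.measurable_sum _ fun j _ => (measurable_pi_apply j).mul_const _

theorem G3_SumOK_meas : MeasurableSet {ω : ℕ → ℝ | SumOK ω} := by
  have h1 : {ω : ℕ → ℝ | SumOK ω} = ⋂ k : ℕ, {ω : ℕ → ℝ |
      (∑' j, ((Real.toNNReal (|ω j| * (1 - 1 / ((k : ℝ) + 1)) ^ j) : ℝ≥0) : ℝ≥0∞)) ≠ ⊤} := by
    ext ω
    simp only [Set.mem_setOf_eq, Set.mem_iInter]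
    have hk : ∀ k : ℕ, 0 ≤ 1 - 1 / ((k : ℝ) + 1) ∧ 1 - 1 / ((k : ℝ) + 1) < 1 := by
      intro k
      have h2 : (0 : ℝ) < (k : ℝ) + 1 := by positivity
      constructor
      · rw [sub_nonneg, div_le_one h2]; linarith [Nat.cast_nonneg (α := ℝ) k]
      · have : 0 < 1 / ((k : ℝ) + 1) := by positivity
        linarith
    constructor
    · intro h k
      rw [ENNReal.tsum_coe_ne_top_iff_summable, ← NNReal.summable_coe]
      have h3 := h _ (hk k).1 (hk k).2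
      refine h3.congr fun j => ?_
      rw [Real.coe_toNNReal _ (by have := (hk k).1; positivity)]
    · intro h r hr0 hr
      obtain ⟨k, hkr⟩ := exists_nat_gt (1 / (1 - r))
      have h4 : r ≤ 1 - 1 / ((k : ℝ) + 1) := by
        have h5 : 0 < 1 - r := by linarith
        rw [div_lt_iff₀ h5] at hkr
        have h6 : (0 : ℝ) < (k : ℝ) + 1 := by positivity
        have h7 : 1 / ((k : ℝ) + 1) ≤ 1 - r := by
          rw [div_le_iff₀ h6]
          nlinarith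
        linarith
      have h3 := h k
      rw [ENNReal.tsum_coe_ne_top_iff_summable, ← NNReal.summable_coe] at h3
      refine Summable.of_nonneg_of_le (fun j => by positivity) (fun j => ?_) h3
      rw [Real.coe_toNNReal _ (by have := (hk k).1; positivity)]
      exact mul_le_mul_of_nonneg_left (pow_le_pow_left₀ hr0 h4 j) (abs_nonneg _)
  rw [h1]
  refine MeasurableSet.iInter fun k => ?_
  have h2 : Measurable fun ω : ℕ → ℝ =>
      (∑' j, ((Real.toNNReal (|ω j| * (1 - 1 / ((k : ℝ) + 1)) ^ j) : ℝ≥0) : ℝ≥0∞)) := by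
    refine Measurable.ennreal_tsum fun j => ?_
    refine Measurable.coe_nnreal_ennreal ?_
    refine Measurable.real_toNNReal ?_
    exact ((measurable_pi_apply j).norm).mul_const _
  exact (h2 (measurableSet_singleton ⊤)).compl

theorem G3_F0_cont {ω : ℕ → ℝ} (h : SumOK ω) {a b : ℝ} (ha : |a| < 1) (hb : |b| < 1) :
    ContinuousOn (F0 ω) (Icc a b) := by
  unfold F0
  refine continuousOn_tsum (u := fun j => |ω j| * (max |a| |b|) ^ j) (fun j => by fun_prop)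
    (h _ (le_max_of_le_left (abs_nonneg _)) (max_lt ha hb)) fun j x hx => ?_
  rw [Real.norm_eq_abs, abs_mul, abs_pow]
  exact mul_le_mul_of_nonneg_left (pow_le_pow_left₀ (abs_nonneg _)
    (abs_le_max_abs_abs hx.1 hx.2) j) (abs_nonneg _)

theorem G3_F1_cont {ω : ℕ → ℝ} (h : SumOK ω) {a b : ℝ} (ha : |a| < 1) (hb : |b| < 1) :
    ContinuousOn (F1 ω) (Icc a b) := by
  unfold F1
  refine continuousOn_tsum (u := fun j : ℕ => |ω j| * ((j : ℝ) * (max |a| |b|) ^ (j - 1)))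
    (fun j => by fun_prop)
    (G3_sum1 h (le_max_of_le_left (abs_nonneg _)) (max_lt ha hb)) fun j x hx => ?_
  rw [Real.norm_eq_abs, abs_mul, abs_mul, abs_pow, Nat.abs_cast]
  exact mul_le_mul_of_nonneg_left (mul_le_mul_of_nonneg_left (pow_le_pow_left₀ (abs_nonneg _)
    (abs_le_max_abs_abs hx.1 hx.2) _) (Nat.cast_nonneg _)) (abs_nonneg _)

/-- the bad event -/
def G3_A (a b : ℝ) : Set (ℕ → ℝ) :=
  {ω | SumOK ω} ∩ ⋂ k : ℕ, ⋃ q : ℚ, {ω | (q : ℝ) ∈ Icc a b ∧ ∃ N : ℕ, ∀ n ≥ N,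
    |D0 n ω q| < 1 / ((k : ℝ) + 1) ∧ |D1 n ω q| < 1 / ((k : ℝ) + 1)}

theorem G3_A_meas (a b : ℝ) : MeasurableSet (G3_A a b) := by
  refine G3_SumOK_meas.inter (MeasurableSet.iInter fun k => MeasurableSet.iUnion fun q => ?_)
  by_cases hq : (q : ℝ) ∈ Icc a b
  · have h1 : {ω : ℕ → ℝ | (q : ℝ) ∈ Icc a b ∧ ∃ N : ℕ, ∀ n ≥ N,
        |D0 n ω q| < 1 / ((k : ℝ) + 1) ∧ |D1 n ω q| < 1 / ((k : ℝ) + 1)} =
        ⋃ N : ℕ, ⋂ n : ℕ, {ω : ℕ → ℝ | N ≤ n → |D0 n ω q| < 1 / ((k : ℝ) + 1) ∧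
          |D1 n ω q| < 1 / ((k : ℝ) + 1)} := by
      ext ω
      simp only [Set.mem_setOf_eq, Set.mem_iUnion, Set.mem_iInter, hq, true_and, ge_iff_le]
    rw [h1]
    refine MeasurableSet.iUnion fun N => MeasurableSet.iInter fun n => ?_
    by_cases hn : N ≤ n
    · simp only [hn, true_imp_iff]
      exact (measurableSet_lt (G3_D0_meas n q).norm measurable_const).inter
        (measurableSet_lt (G3_D1_meas n q).norm measurable_const)
    · simp only [hn, false_imp_iff]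
      exact MeasurableSet.univ
  · have h1 : {ω : ℕ → ℝ | (q : ℝ) ∈ Icc a b ∧ ∃ N : ℕ, ∀ n ≥ N,
        |D0 n ω q| < 1 / ((k : ℝ) + 1) ∧ |D1 n ω q| < 1 / ((k : ℝ) + 1)} = ∅ := by
      ext ω
      simp only [Set.mem_setOf_eq, Set.mem_empty_iff_false, hq, false_and]
    rw [h1]
    exact MeasurableSet.empty

theorem G3_A_zero {a b : ℝ} (hab : a < b) (ha : |a| < 1) (hb : |b| < 1) {ω : ℕ → ℝ}
    (hω : ω ∈ G3_A a b) : ∃ y ∈ Icc a b, F0 ω y = 0 ∧ F1 ω y = 0 := by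
  obtain ⟨h, hA⟩ := hω
  have hS : SumOK ω := h
  have hc : ContinuousOn (fun y => |F0 ω y| + |F1 ω y|) (Icc a b) :=
    (G3_F0_cont hS ha hb).abs.add (G3_F1_cont hS ha hb).abs
  obtain ⟨y, hy, hmin⟩ := isCompact_Icc.exists_isMinOn (nonempty_Icc.2 hab.le) hc
  have h0 : ∀ k : ℕ, |F0 ω y| + |F1 ω y| ≤ 2 * (1 / ((k : ℝ) + 1)) := by
    intro k
    obtain ⟨q, hq⟩ := Set.mem_iUnion.1 (Set.mem_iInter.1 hA k)
    obtain ⟨hq1, N, hN⟩ := hq
    have hqa : |(q : ℝ)| < 1 := lt_of_le_of_lt (abs_le_max_abs_abs hq1.1 hq1.2) (max_lt ha hb)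
    have l0 : |F0 ω q| ≤ 1 / ((k : ℝ) + 1) :=
      le_of_tendsto (G3_D0_lim hS hqa).abs (eventually_atTop.2 ⟨N, fun n hn => (hN n hn).1.le⟩)
    have l1 : |F1 ω q| ≤ 1 / ((k : ℝ) + 1) :=
      le_of_tendsto (G3_D1_lim hS hqa).abs (eventually_atTop.2 ⟨N, fun n hn => (hN n hn).2.le⟩)
    have l2 : |F0 ω y| + |F1 ω y| ≤ |F0 ω q| + |F1 ω q| := hmin hq1
    linarith
  have h1 : |F0 ω y| + |F1 ω y| ≤ 0 := by
    have h2 : Tendsto (fun k : ℕ => 2 * (1 / ((k : ℝ) + 1))) atTop (𝓝 (2 * 0)) :=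
      tendsto_one_div_add_atTop_nhds_zero_nat.const_mul 2
    rw [mul_zero] at h2
    exact ge_of_tendsto' h2 h0
  have h2 := abs_nonneg (F0 ω y)
  have h3 := abs_nonneg (F1 ω y)
  exact ⟨y, hy, abs_eq_zero.1 (by linarith), abs_eq_zero.1 (by linarith)⟩

theorem G3_zero_A {a b : ℝ} (hab : a < b) (ha : |a| < 1) (hb : |b| < 1) {ω : ℕ → ℝ}
    (hS : SumOK ω) {y : ℝ} (hy : y ∈ Icc a b) (h0 : F0 ω y = 0) (h1 : F1 ω y = 0) :
    ω ∈ G3_A a b := by
  refine ⟨hS, Set.mem_iInter.2 fun k => ?_⟩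
  have hε : (0 : ℝ) < 1 / ((k : ℝ) + 1) := by positivity
  have hc : ContinuousOn (fun y => |F0 ω y| + |F1 ω y|) (Icc a b) :=
    (G3_F0_cont hS ha hb).abs.add (G3_F1_cont hS ha hb).abs
  have hcw := hc y hy
  have hev : ∀ᶠ z in 𝓝[Icc a b] y, |F0 ω z| + |F1 ω z| < 1 / ((k : ℝ) + 1) := by
    refine hcw.eventually_lt_const ?_
    simp only [h0, h1, abs_zero, add_zero]; exact hε
  have hev' : ∀ᶠ z in 𝓝[Ioo a b] y, |F0 ω z| + |F1 ω z| < 1 / ((k : ℝ) + 1) :=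
    hev.filter_mono (nhdsWithin_mono _ Ioo_subset_Icc_self)
  rw [eventually_nhdsWithin_iff, eventually_nhds_iff] at hev'
  obtain ⟨V, hV, hVo, hyV⟩ := hev'
  have hne : (V ∩ Ioo a b).Nonempty := by
    have : y ∈ closure (Ioo a b) := by rw [closure_Ioo hab.ne]; exact hy
    exact mem_closure_iff.1 this V hVo hyV
  obtain ⟨q, hqV, hq⟩ := Rat.denseRange_cast.exists_mem_open (hVo.inter isOpen_Ioo) hne |>.imp
    fun q hq => hq
  have hlt := hV _ hqV hq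
  have hq1 : (q : ℝ) ∈ Icc a b := Ioo_subset_Icc_self hq
  have hqa : |(q : ℝ)| < 1 := lt_of_le_of_lt (abs_le_max_abs_abs hq1.1 hq1.2) (max_lt ha hb)
  refine Set.mem_iUnion.2 ⟨q, hq1, ?_⟩
  have e0 : ∀ᶠ n in atTop, |D0 n ω q| < 1 / ((k : ℝ) + 1) :=
    (G3_D0_lim hS hqa).abs.eventually_lt_const (by
      have := abs_nonneg (F1 ω q); linarith)
  have e1 : ∀ᶠ n in atTop, |D1 n ω q| < 1 / ((k : ℝ) + 1) :=
    (G3_D1_lim hS hqa).abs.eventually_lt_const (by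
      have := abs_nonneg (F0 ω q); linarith)
  exact eventually_atTop.1 (e0.and e1)

theorem G3_A_null (μ : Measure ℝ) (hR : Resample μ) (hN : NoDouble)
    (hS : ∀ᵐ ω ∂(PP μ), SumOK ω) (hE : ∀ᵐ ω ∂(PP μ), ∃ j, ω j ≠ 0) {a b : ℝ} (hab : a < b)
    (hI : ∀ x ∈ Icc a b, 0 < |x| ∧ |x| < 1) : (PP μ) (G3_A a b) = 0 := by
  have ha : |a| < 1 := (hI a (left_mem_Icc.2 hab.le)).2
  have hb : |b| < 1 := (hI b (right_mem_Icc.2 hab.le)).2
  refine hR _ (G3_A_meas a b) fun D hD => ?_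
  filter_upwards [hS, hE] with ω h1 h2
  filter_upwards [hN ω h1 h2 a b hab hI D hD] with n hn d hd0 hd hmem
  obtain ⟨y, hy, hy0, hy1⟩ := G3_A_zero hab ha hb hmem
  rw [G3_F0_upd h1 (hI y hy).2] at hy0
  rw [G3_F1_upd h1 (hI y hy).2] at hy1
  exact hn d hd0 hd y hy hy0 hy1

theorem ae_ne_zero_at (μ : Measure ℝ) (hμ : Std μ) (hR : Resample μ)
    (hS : ∀ᵐ ω ∂(PP μ), SumOK ω) (x : ℝ) (hx0 : x ≠ 0) (hx : |x| < 1) :
    ∀ᵐ ω ∂(PP μ), F0 ω x ≠ 0 := by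
  set A : Set (ℕ → ℝ) := {ω | Tendsto (fun n => D0 n ω x) atTop (𝓝 0)} with hA
  have hAm : MeasurableSet A := measurableSet_tendsto (𝓝 (0 : ℝ)) fun n => G3_D0_meas n x
  have h0 : (PP μ) A = 0 := by
    refine hR A hAm fun D hD => ?_
    filter_upwards [hS] with ω hω
    have hkey : ∀ n d, Function.update ω n (ω n + d) ∈ A → F0 ω x + d * x ^ n = 0 := by
      intro n d hmem
      have h1 := G3_D0_lim (G3_SumOK_upd hω n d) hx
      rw [G3_F0_upd hω hx] at h1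
      exact tendsto_nhds_unique h1 hmem
    by_cases hF : F0 ω x = 0
    · refine Filter.Eventually.of_forall fun n d hd0 hd hmem => ?_
      have := hkey n d hmem
      rw [hF, zero_add] at this
      exact (mul_ne_zero hd0 (pow_ne_zero _ hx0)) this
    · have h2 : Tendsto (fun n : ℕ => D * |x| ^ n) atTop (𝓝 (D * 0)) :=
        (tendsto_pow_atTop_nhds_zero_of_lt_one (abs_nonneg _) hx).const_mul D
      rw [mul_zero] at h2
      filter_upwards [h2.eventually_lt_const (abs_pos.2 hF)] with n hn d hd0 hd hmem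
      have h3 := hkey n d hmem
      have h4 : |F0 ω x| = |d| * |x| ^ n := by
        have : F0 ω x = -(d * x ^ n) := by linarith
        rw [this, abs_neg, abs_mul, abs_pow]
      have h5 : |d| * |x| ^ n ≤ D * |x| ^ n := mul_le_mul_of_nonneg_right hd (by positivity)
      linarith
  have h1 : ∀ᵐ ω ∂(PP μ), ω ∉ A := measure_eq_zero_iff_ae_notMem.1 h0
  filter_upwards [hS, h1] with ω hω hωA hF
  apply hωA
  have := G3_D0_lim hω hx
  rw [hF] at this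
  exact this

theorem ae_no_double (μ : Measure ℝ) (hμ : Std μ) (hR : Resample μ) (hN : NoDouble)
    (hS : ∀ᵐ ω ∂(PP μ), SumOK ω) (hE : ∀ᵐ ω ∂(PP μ), ∃ j, ω j ≠ 0) :
    ∀ᵐ ω ∂(PP μ), ∀ x : ℝ, x ≠ 0 → |x| < 1 → F0 ω x = 0 → F1 ω x ≠ 0 := by
  have h1 : ∀ᵐ ω ∂(PP μ), ∀ p : ℚ × ℚ, (p.1 : ℝ) < p.2 →
      (∀ x ∈ Icc (p.1 : ℝ) p.2, 0 < |x| ∧ |x| < 1) → ω ∉ G3_A (p.1 : ℝ) p.2 := by
    rw [ae_all_iff]
    intro p
    by_cases hp : (p.1 : ℝ) < p.2 ∧ ∀ x ∈ Icc (p.1 : ℝ) p.2, 0 < |x| ∧ |x| < 1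
    · have h2 := measure_eq_zero_iff_ae_notMem.1 (G3_A_null μ hR hN hS hE hp.1 hp.2)
      filter_upwards [h2] with ω hω _ _
      exact hω
    · refine Filter.Eventually.of_forall fun ω h3 h4 => ?_
      exact absurd ⟨h3, h4⟩ hp
  filter_upwards [hS, h1] with ω hω hA x hx0 hx hF0 hF1
  rw [abs_lt] at hx
  rcases lt_or_gt_of_ne hx0 with hneg | hpos
  · obtain ⟨p, hp1, hp2⟩ := exists_rat_btwn hx.1
    obtain ⟨q, hq1, hq2⟩ := exists_rat_btwn hneg
    have hI : ∀ z ∈ Icc (p : ℝ) q, 0 < |z| ∧ |z| < 1 := by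
      intro z hz
      rw [abs_of_neg (by linarith [hz.2])]
      constructor <;> linarith [hz.1, hz.2]
    have hpq : (p : ℝ) < q := hp2.trans hq1
    exact hA (p, q) hpq hI (G3_zero_A hpq (hI _ (left_mem_Icc.2 hpq.le)).2
      (hI _ (right_mem_Icc.2 hpq.le)).2 hω ⟨hp2.le, hq1.le⟩ hF0 hF1)
  · obtain ⟨p, hp1, hp2⟩ := exists_rat_btwn hpos
    obtain ⟨q, hq1, hq2⟩ := exists_rat_btwn hx.2
    have hI : ∀ z ∈ Icc (p : ℝ) q, 0 < |z| ∧ |z| < 1 := by
      intro z hz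
      rw [abs_of_pos (by linarith [hz.1])]
      constructor <;> linarith [hz.1, hz.2]
    have hpq : (p : ℝ) < q := hp2.trans hq1
    exact hA (p, q) hpq hI (G3_zero_A hpq (hI _ (left_mem_Icc.2 hpq.le)).2
      (hI _ (right_mem_Icc.2 hpq.le)).2 hω ⟨hp2.le, hq1.le⟩ hF0 hF1)


end G3
end Kac764
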