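import Pool.Agent.Helper764.KacDefs

set_option autoImplicit false
set_option maxHeartbeats 4000000
open MeasureTheory ProbabilityTheory Filter Topology Set
open scoped ENNReal NNReal

namespace Kac764
namespace G4

/-- C¹-stability (proved elsewhere) -/
def C1Stable : Prop := ∀ (f f' : ℝ → ℝ) (a b : ℝ), a < b →
    (∀ x ∈ Icc a b, HasDerivAt f (f' x) x) → ContinuousOn f' (Icc a b) →
    f a ≠ 0 → f b ≠ 0 → (∀ x ∈ Icc a b, f x = 0 → f' x ≠ 0) →
    {x ∈ Ioo a b | f x = 0}.Finite ∧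
    ∃ ε > 0, ∀ g g' : ℝ → ℝ, (∀ x ∈ Icc a b, HasDerivAt g (g' x) x) →
      (∀ x ∈ Icc a b, |g x - f x| < ε) → (∀ x ∈ Icc a b, |g' x - f' x| < ε) →
      {x ∈ Ioo a b | g x = 0}.Finite ∧
      {x ∈ Ioo a b | g x = 0}.ncard = {x ∈ Ioo a b | f x = 0}.ncard

/-- facts on power series (proved elsewhere) -/
def PSFacts : Prop := (∀ (ω : ℕ → ℝ), SumOK ω → ∀ x : ℝ, |x| < 1 → HasDerivAt (F0 ω) (F1 ω x) x) ∧
  (∀ (ω : ℕ → ℝ), SumOK ω → ∀ (r : ℝ), 0 ≤ r → r < 1 → ∀ (ε : ℝ), 0 < ε →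
    ∀ᶠ n : ℕ in atTop, ∀ x : ℝ, |x| ≤ r → |D0 n ω x - F0 ω x| < ε ∧ |D1 n ω x - F1 ω x| < ε) ∧
  (∀ (ω : ℕ → ℝ), SumOK ω → ContinuousOn (F1 ω) (Ioo (-1) 1))

theorem G4_eval (n : ℕ) (ω : ℕ → ℝ) (x : ℝ) : (kac n ω).eval x = D0 n ω x := by
  simp [kac, D0, Polynomial.eval_finsetSum]

theorem G4_kac_ne (n J : ℕ) (ω : ℕ → ℝ) (hJ : ω J ≠ 0) (h : J ≤ n) : kac n ω ≠ 0 := by
  intro h0
  have h1 : (kac n ω).coeff J = ω J := by
    unfold kac
    rw [Polynomial.finsetSum_coeff]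
    simp only [Polynomial.coeff_C_mul_X_pow]
    rw [Finset.sum_ite_eq]
    simp only [Finset.mem_range]
    rw [if_pos (by omega)]
  rw [h0] at h1
  simp at h1
  exact hJ h1.symm

theorem G4_deriv (n : ℕ) (ω : ℕ → ℝ) (x : ℝ) : HasDerivAt (D0 n ω) (D1 n ω x) x := by
  unfold D1
  have : D0 n ω = fun x => ∑ j ∈ Finset.range (n + 1), ω j * x ^ j := rfl
  rw [this]
  refine HasDerivAt.fun_sum fun j _ => ?_
  exact (hasDerivAt_pow j x).const_mul _

theorem G4_base (hC : C1Stable) (hP : PSFacts) (ω : ℕ → ℝ) (hω : SumOK ω) (a b : ℝ)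
    (hab : a < b) (ha : -1 < a) (hb : b < 1) (hza : F0 ω a ≠ 0) (hzb : F0 ω b ≠ 0)
    (hd : ∀ x ∈ Icc a b, F0 ω x = 0 → F1 ω x ≠ 0) :
    ∀ᶠ n : ℕ in atTop,
      {x | x ∈ Ioo a b ∧ D0 n ω x = 0}.ncard = {x | x ∈ Ioo a b ∧ F0 ω x = 0}.ncard := by
  have hlt : ∀ x ∈ Icc a b, |x| < 1 := fun x hx => abs_lt.2 ⟨by linarith [hx.1], by linarith [hx.2]⟩
  have hle : ∀ x ∈ Icc a b, |x| ≤ max |a| |b| := fun x hx => abs_le_max_abs_abs hx.1 hx.2
  have hr : max |a| |b| < 1 :=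
    max_lt (hlt a ⟨le_rfl, hab.le⟩) (hlt b ⟨hab.le, le_rfl⟩)
  obtain ⟨-, ε, hε, h⟩ := hC (F0 ω) (F1 ω) a b hab (fun x hx => hP.1 ω hω x (hlt x hx))
    ((hP.2.2 ω hω).mono fun x hx => ⟨by linarith [hx.1], by linarith [hx.2]⟩) hza hzb hd
  have hev := hP.2.1 ω hω (max |a| |b|) (le_max_of_le_left (abs_nonneg a)) hr ε hε
  filter_upwards [hev] with n hn
  exact (h (D0 n ω) (D1 n ω) (fun x _ => G4_deriv n ω x) (fun x hx => (hn x (hle x hx)).1)
    (fun x hx => (hn x (hle x hx)).2)).2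

theorem G4_near (hP : PSFacts) (ω : ℕ → ℝ) (hω : SumOK ω) (hne : ∃ j, ω j ≠ 0) :
    ∃ e : ℝ, 0 < e ∧ e < 1 ∧ ∃ n0 : ℕ, ∀ x : ℝ, x ≠ 0 → |x| ≤ e →
      F0 ω x ≠ 0 ∧ ∀ n, n0 ≤ n → D0 n ω x ≠ 0 := by
  classical
  obtain ⟨J, hJ, hJmin⟩ : ∃ J, ω J ≠ 0 ∧ ∀ j < J, ω j = 0 :=
    ⟨Nat.find hne, Nat.find_spec hne, fun j hj => not_not.1 (Nat.find_min hne hj)⟩
  have hs := hω (1/2) (by norm_num) (by norm_num)
  set M := ∑' j, |ω j| * (1/2 : ℝ)^j with hMdef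
  have hM : 0 ≤ M := tsum_nonneg fun j => by positivity
  have key : ∀ x : ℝ, |x| ≤ 1/2 → ∀ n, J ≤ n →
      |x|^J * (|ω J| - 2^(J+1) * M * |x|) ≤ |D0 n ω x| := by
    intro x hx n hn
    have hmem : J ∈ Finset.range (n+1) := by
      simp only [Finset.mem_range]; omega
    unfold D0
    rw [← Finset.add_sum_erase _ _ hmem]
    have h2 : |∑ j ∈ (Finset.range (n+1)).erase J, ω j * x^j| ≤ (2*|x|)^(J+1) * M := by
      refine (Finset.abs_sum_le_sum_abs _ _).trans ?_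
      calc ∑ j ∈ (Finset.range (n+1)).erase J, |ω j * x^j|
          ≤ ∑ j ∈ (Finset.range (n+1)).erase J, (2*|x|)^(J+1) * (|ω j| * (1/2)^j) := by
            refine Finset.sum_le_sum fun j hj => ?_
            rcases lt_trichotomy j J with h | h | h
            · rw [hJmin j h]; simp
            · exact absurd h (Finset.ne_of_mem_erase hj)
            · rw [abs_mul, abs_pow]
              have h1 : |x|^j = (2*|x|)^j * (1/2)^j := by
                rw [← mul_pow]; congr 1; ring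
              rw [h1]
              have h3 : (2*|x|)^j ≤ (2*|x|)^(J+1) :=
                pow_le_pow_of_le_one (by positivity) (by linarith) (by omega)
              calc |ω j| * ((2*|x|)^j * (1/2)^j) = (2*|x|)^j * (|ω j| * (1/2)^j) := by ring
                _ ≤ (2*|x|)^(J+1) * (|ω j| * (1/2)^j) :=
                  mul_le_mul_of_nonneg_right h3 (by positivity)
        _ = (2*|x|)^(J+1) * ∑ j ∈ (Finset.range (n+1)).erase J, (|ω j| * (1/2)^j) := by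
            rw [Finset.mul_sum]
        _ ≤ (2*|x|)^(J+1) * M :=
            mul_le_mul_of_nonneg_left (hs.sum_le_tsum _ (fun _ _ => by positivity)) (by positivity)
    have h4 : |ω J * x^J| = |ω J| * |x|^J := by rw [abs_mul, abs_pow]
    have h5 := abs_add_le (ω J * x ^ J + ∑ j ∈ (Finset.range (n+1)).erase J, ω j * x^j)
      (-∑ j ∈ (Finset.range (n+1)).erase J, ω j * x^j)
    rw [add_neg_cancel_right, abs_neg] at h5
    have h6 : (2*|x|)^(J+1) * M = |x|^J * (2^(J+1) * M * |x|) := by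
      rw [mul_pow, pow_succ |x| J]; ring
    rw [h6] at h2
    rw [h4] at h5
    have h7 : |x|^J * (|ω J| - 2^(J+1) * M * |x|) = |ω J| * |x|^J - |x|^J * (2^(J+1) * M * |x|) := by
      ring
    rw [h7]
    linarith
  have hJp : 0 < |ω J| := abs_pos.2 hJ
  have hden : (0:ℝ) < 2 * (2^(J+1) * M + 1) := by positivity
  refine ⟨min (1/4) (|ω J| / (2 * (2^(J+1) * M + 1))), lt_min (by norm_num) (div_pos hJp hden),
    (min_le_left _ _).trans_lt (by norm_num), J, fun x hx0 hxe => ?_⟩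
  have hx1 : |x| ≤ 1/2 := (hxe.trans (min_le_left _ _)).trans (by norm_num)
  have hx2 : |x| ≤ |ω J| / (2 * (2^(J+1) * M + 1)) := hxe.trans (min_le_right _ _)
  rw [le_div_iff₀ hden] at hx2
  have hxp : 0 < |x| := abs_pos.2 hx0
  have hc1 : 0 < |ω J| - 2^(J+1) * M * |x| := by nlinarith
  have hc : 0 < |x|^J * (|ω J| - 2^(J+1) * M * |x|) := mul_pos (pow_pos hxp J) hc1
  refine ⟨?_, fun n hn h0 => ?_⟩
  · intro hF
    have hev := hP.2.1 ω hω (1/2) (by norm_num) (by norm_num) _ hc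
    obtain ⟨n, hn1, hn2⟩ := (hev.and (eventually_ge_atTop J)).exists
    have h1 := (hn1 x hx1).1
    rw [hF, sub_zero] at h1
    exact absurd (key x hx1 n hn2) (not_le.2 h1)
  · have := key x hx1 n hn
    rw [h0, abs_zero] at this
    exact absurd this (not_le.2 hc)

theorem nz_eventually (hC : C1Stable) (hP : PSFacts) (ω : ℕ → ℝ) (hω : SumOK ω)
    (hne : ∃ j, ω j ≠ 0) (a b : ℝ)
    (hab : a < b) (ha : -1 < a) (hb : b < 1) (h0 : (0 : ℝ) ∉ Ioo a b)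
    (hza : a ≠ 0 → F0 ω a ≠ 0) (hzb : b ≠ 0 → F0 ω b ≠ 0)
    (hd : ∀ x : ℝ, x ≠ 0 → |x| < 1 → F0 ω x = 0 → F1 ω x ≠ 0) :
    ∀ᶠ n : ℕ in atTop, nz (kac n ω) (Ioo a b) = Ninf ω (Ioo a b) := by
  obtain ⟨J, hJ⟩ := hne
  obtain ⟨e, he0, he1, n0, hnear⟩ := G4_near hP ω hω ⟨J, hJ⟩
  have main : ∀ᶠ n : ℕ in atTop,
      {x | x ∈ Ioo a b ∧ D0 n ω x = 0}.ncard = {x | x ∈ Ioo a b ∧ F0 ω x = 0}.ncard := by
    rcases lt_or_ge 0 a with h1 | h1
    · exact G4_base hC hP ω hω a b hab ha hb (hza h1.ne') (hzb (h1.trans hab).ne')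
        fun x hx => hd x (h1.trans_le hx.1).ne' (abs_lt.2 ⟨by linarith [hx.1], by linarith [hx.2]⟩)
    rcases lt_or_ge b 0 with h2 | h2
    · exact G4_base hC hP ω hω a b hab ha hb (hza (hab.trans h2).ne) (hzb h2.ne)
        fun x hx => hd x (lt_of_le_of_lt hx.2 h2).ne
          (abs_lt.2 ⟨by linarith [hx.1], by linarith [hx.2]⟩)
    rcases eq_or_lt_of_le h1 with h3 | h3
    · -- a = 0
      subst h3
      set e' := min e (b / 2) with he'
      have hb0 : 0 < b := hab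
      have he'0 : 0 < e' := lt_min he0 (half_pos hb0)
      have he'b : e' < b := (min_le_right _ _).trans_lt (half_lt_self hb0)
      have he'e : e' ≤ e := min_le_left _ _
      have hbase := G4_base hC hP ω hω e' b he'b (by linarith) hb
        (hnear e' he'0.ne' (by rw [abs_of_pos he'0]; exact he'e)).1 (hzb hb0.ne')
        fun x hx => hd x (he'0.trans_le hx.1).ne'
          (abs_lt.2 ⟨by linarith [hx.1], by linarith [hx.2]⟩)
      filter_upwards [hbase, eventually_ge_atTop n0] with n hn hn0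
      have e1 : {x | x ∈ Ioo 0 b ∧ D0 n ω x = 0} = {x | x ∈ Ioo e' b ∧ D0 n ω x = 0} := by
        ext x
        constructor
        · rintro ⟨⟨p1, p2⟩, p3⟩
          refine ⟨⟨?_, p2⟩, p3⟩
          by_contra hcon
          rw [not_lt] at hcon
          exact (hnear x p1.ne' (by rw [abs_of_pos p1]; exact hcon.trans he'e)).2 n hn0 p3
        · rintro ⟨⟨p1, p2⟩, p3⟩
          exact ⟨⟨he'0.trans p1, p2⟩, p3⟩
      have e2 : {x | x ∈ Ioo 0 b ∧ F0 ω x = 0} = {x | x ∈ Ioo e' b ∧ F0 ω x = 0} := by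
        ext x
        constructor
        · rintro ⟨⟨p1, p2⟩, p3⟩
          refine ⟨⟨?_, p2⟩, p3⟩
          by_contra hcon
          rw [not_lt] at hcon
          exact (hnear x p1.ne' (by rw [abs_of_pos p1]; exact hcon.trans he'e)).1 p3
        · rintro ⟨⟨p1, p2⟩, p3⟩
          exact ⟨⟨he'0.trans p1, p2⟩, p3⟩
      rw [e1, e2, hn]
    · -- a < 0, hence b = 0
      have hb0 : b = 0 := by
        by_contra hcon
        exact h0 ⟨h3, lt_of_le_of_ne h2 (Ne.symm hcon)⟩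
      subst hb0
      set e' := min e (-a / 2) with he'
      have ha0 : 0 < -a := by linarith
      have he'0 : 0 < e' := lt_min he0 (half_pos ha0)
      have he'a : e' < -a := (min_le_right _ _).trans_lt (half_lt_self ha0)
      have he'e : e' ≤ e := min_le_left _ _
      have hbase := G4_base hC hP ω hω a (-e') (by linarith) ha (by linarith)
        (hza h3.ne)
        (hnear (-e') (by linarith [he'0] : -e' < 0).ne (by rw [abs_neg, abs_of_pos he'0]; exact he'e)).1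
        fun x hx => hd x (lt_of_le_of_lt hx.2 (by linarith)).ne
          (abs_lt.2 ⟨by linarith [hx.1], by linarith [hx.2]⟩)
      filter_upwards [hbase, eventually_ge_atTop n0] with n hn hn0
      have e1 : {x | x ∈ Ioo a 0 ∧ D0 n ω x = 0} = {x | x ∈ Ioo a (-e') ∧ D0 n ω x = 0} := by
        ext x
        constructor
        · rintro ⟨⟨p1, p2⟩, p3⟩
          refine ⟨⟨p1, ?_⟩, p3⟩
          by_contra hcon
          rw [not_lt] at hcon
          exact (hnear x p2.ne (by rw [abs_of_neg p2]; linarith)).2 n hn0 p3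
        · rintro ⟨⟨p1, p2⟩, p3⟩
          exact ⟨⟨p1, by linarith⟩, p3⟩
      have e2 : {x | x ∈ Ioo a 0 ∧ F0 ω x = 0} = {x | x ∈ Ioo a (-e') ∧ F0 ω x = 0} := by
        ext x
        constructor
        · rintro ⟨⟨p1, p2⟩, p3⟩
          refine ⟨⟨p1, ?_⟩, p3⟩
          by_contra hcon
          rw [not_lt] at hcon
          exact (hnear x p2.ne (by rw [abs_of_neg p2]; linarith)).1 p3
        · rintro ⟨⟨p1, p2⟩, p3⟩
          exact ⟨⟨p1, by linarith⟩, p3⟩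
      rw [e1, e2, hn]
  filter_upwards [main, eventually_ge_atTop J] with n hn hnJ
  unfold nz Ninf
  have e1 : {x : ℝ | x ∈ Ioo a b ∧ kac n ω ≠ 0 ∧ (kac n ω).eval x = 0} =
      {x | x ∈ Ioo a b ∧ D0 n ω x = 0} := by
    ext x
    constructor
    · rintro ⟨p1, -, p3⟩
      rw [G4_eval] at p3
      exact ⟨p1, p3⟩
    · rintro ⟨p1, p3⟩
      refine ⟨p1, G4_kac_ne n J ω hJ hnJ, ?_⟩
      rw [G4_eval]
      exact p3
  rw [e1, hn]

theorem G4_abstract {Ω : Type*} [MeasurableSpace Ω] (P : Measure Ω) [IsProbabilityMeasure P]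
    (f : ℕ → Ω → ℕ) (hf : ∀ n, Measurable (f n)) (g : Ω → ℕ)
    (hev : ∀ᵐ ω ∂P, ∀ᶠ n : ℕ in atTop, f n ω = g ω) (K : ℝ) (_hK : 0 ≤ K)
    (hb : ∀ n, ∫⁻ ω, (f n ω : ℝ≥0∞) ^ 8 ∂P ≤ ENNReal.ofReal K) :
    Integrable (fun ω => (g ω : ℝ)) P ∧
    Tendsto (fun n : ℕ => ∫ ω, (f n ω : ℝ) ∂P) atTop (𝓝 (∫ ω, (g ω : ℝ) ∂P)) := by
  have hcast : Measurable (fun k : ℕ => (k : ℝ)) := measurable_from_top
  have hcastE : Measurable (fun k : ℕ => (k : ℝ≥0∞)) := measurable_from_top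
  have hF : ∀ n, Measurable fun ω => (f n ω : ℝ) := fun n => hcast.comp (hf n)
  have hFE : ∀ n, Measurable fun ω => (f n ω : ℝ≥0∞) := fun n => hcastE.comp (hf n)
  have hlim : ∀ᵐ ω ∂P, Tendsto (fun n => (f n ω : ℝ)) atTop (𝓝 (g ω : ℝ)) := by
    filter_upwards [hev] with ω hω
    refine tendsto_const_nhds.congr' ?_
    filter_upwards [hω] with n hn
    rw [hn]
  have hgm : AEMeasurable (fun ω => (g ω : ℝ)) P :=
    aemeasurable_of_tendsto_metrizable_ae atTop (fun n => (hF n).aemeasurable) hlim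
  have hsmall : ∀ k : ℕ, (k : ℝ≥0∞) ≤ (k : ℝ≥0∞) ^ 8 := by
    intro k
    have : k ≤ k ^ 8 := Nat.le_self_pow (by norm_num) k
    exact_mod_cast this
  have hen : ∀ k : ℕ, ‖(k : ℝ)‖ₑ = (k : ℝ≥0∞) := by
    intro k
    rw [← ofReal_norm, Real.norm_natCast, ENNReal.ofReal_natCast]
  have hfat : ∫⁻ ω, (g ω : ℝ≥0∞) ^ 8 ∂P ≤ ENNReal.ofReal K := by
    have h1 : ∫⁻ ω, (g ω : ℝ≥0∞) ^ 8 ∂P =
        ∫⁻ ω, liminf (fun n => (f n ω : ℝ≥0∞) ^ 8) atTop ∂P := by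
      refine lintegral_congr_ae ?_
      filter_upwards [hev] with ω hω
      have : Tendsto (fun n => (f n ω : ℝ≥0∞) ^ 8) atTop (𝓝 ((g ω : ℝ≥0∞) ^ 8)) := by
        refine tendsto_const_nhds.congr' ?_
        filter_upwards [hω] with n hn
        rw [hn]
      exact this.liminf_eq.symm
    rw [h1]
    refine (lintegral_liminf_le fun n => (hFE n).pow_const 8).trans ?_
    refine (liminf_le_limsup).trans ?_
    exact limsup_le_of_le (by isBoundedDefault) (Eventually.of_forall hb)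
  have hgi : Integrable (fun ω => (g ω : ℝ)) P := by
    refine ⟨hgm.aestronglyMeasurable, ?_⟩
    unfold HasFiniteIntegral
    simp_rw [hen]
    exact ((lintegral_mono fun ω => hsmall (g ω)).trans hfat).trans_lt ENNReal.ofReal_lt_top
  refine ⟨hgi, ?_⟩
  have hfi : ∀ n, Integrable (fun ω => (f n ω : ℝ)) P := by
    intro n
    refine ⟨(hF n).aestronglyMeasurable, ?_⟩
    unfold HasFiniteIntegral
    simp_rw [hen]
    exact ((lintegral_mono fun ω => hsmall (f n ω)).trans (hb n)).trans_lt ENNReal.ofReal_lt_top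
  have hui : UnifIntegrable (fun n ω => (f n ω : ℝ)) 1 P := by
    refine unifIntegrable_of le_rfl ENNReal.one_ne_top
      (fun n => (hF n).aestronglyMeasurable) fun ε hε => ?_
    obtain ⟨N, hN⟩ := exists_nat_gt (K / ε)
    refine ⟨((N + 1 : ℕ) : ℝ≥0), fun n => ?_⟩
    rw [eLpNorm_one_eq_lintegral_enorm]
    have hpt : ∀ ω, ‖({ω | ((N + 1 : ℕ) : ℝ≥0) ≤ ‖(f n ω : ℝ)‖₊}.indicator
        (fun ω => (f n ω : ℝ))) ω‖ₑ ≤ (f n ω : ℝ≥0∞) ^ 8 * ((N + 1 : ℕ) : ℝ≥0∞)⁻¹ := by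
      intro ω
      by_cases hω : ω ∈ {ω | ((N + 1 : ℕ) : ℝ≥0) ≤ ‖(f n ω : ℝ)‖₊}
      · rw [indicator_of_mem hω, hen]
        have h1 : N + 1 ≤ f n ω := by
          have h2 : ((N + 1 : ℕ) : ℝ≥0) ≤ ‖(f n ω : ℝ)‖₊ := hω
          rw [← NNReal.coe_le_coe, coe_nnnorm, Real.norm_natCast] at h2
          exact_mod_cast h2
        rw [← div_eq_mul_inv, ENNReal.le_div_iff_mul_le (Or.inl (by simp)) (Or.inl (by simp))]
        have h3 : f n ω * (N + 1) ≤ f n ω ^ 8 := by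
          calc f n ω * (N + 1) ≤ f n ω * f n ω := Nat.mul_le_mul_left _ h1
            _ = f n ω ^ 2 := by ring
            _ ≤ f n ω ^ 8 := Nat.pow_le_pow_right (by omega) (by norm_num)
        exact_mod_cast h3
      · rw [indicator_of_notMem hω]
        simp
    calc ∫⁻ ω, ‖({ω | ((N + 1 : ℕ) : ℝ≥0) ≤ ‖(f n ω : ℝ)‖₊}.indicator
        (fun ω => (f n ω : ℝ))) ω‖ₑ ∂P
        ≤ ∫⁻ ω, (f n ω : ℝ≥0∞) ^ 8 * ((N + 1 : ℕ) : ℝ≥0∞)⁻¹ ∂P := lintegral_mono hpt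
      _ = (∫⁻ ω, (f n ω : ℝ≥0∞) ^ 8 ∂P) * ((N + 1 : ℕ) : ℝ≥0∞)⁻¹ :=
          lintegral_mul_const _ ((hFE n).pow_const 8)
      _ ≤ ENNReal.ofReal K * ((N + 1 : ℕ) : ℝ≥0∞)⁻¹ := mul_le_mul_left (hb n) _
      _ ≤ ENNReal.ofReal ε := by
          rw [← div_eq_mul_inv]
          refine ENNReal.div_le_of_le_mul ?_
          rw [← ENNReal.ofReal_natCast, ← ENNReal.ofReal_mul hε.le]
          refine ENNReal.ofReal_le_ofReal ?_
          rw [div_lt_iff₀ hε] at hN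
          push_cast
          nlinarith
  have hL := tendsto_Lp_finite_of_tendsto_ae le_rfl ENNReal.one_ne_top
    (fun n => (hF n).aestronglyMeasurable) (memLp_one_iff_integrable.2 hgi) hui hlim
  exact tendsto_integral_of_L1' _ hgi.1 (Eventually.of_forall hfi) hL

theorem G4_nz_mono (p : Polynomial ℝ) (S T : Set ℝ) (h : S ⊆ T) : nz p S ≤ nz p T := by
  unfold nz
  refine ncard_le_ncard (fun x hx => ⟨h hx.1, hx.2⟩) ?_
  by_cases hp : p = 0
  · have : {x : ℝ | x ∈ T ∧ p ≠ 0 ∧ p.eval x = 0} = ∅ := by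
      ext x
      simp [hp]
    rw [this]
    exact finite_empty
  · refine (p.roots.toFinset.finite_toSet).subset ?_
    rintro x ⟨-, h1, h2⟩
    simp [h1, h2, Polynomial.IsRoot.def]

theorem G4_pow8 (z : ℕ) : (1 + z) ^ 8 ≤ 256 * (1 + z ^ 8) := by
  rcases Nat.eq_zero_or_pos z with h | h
  · subst h; norm_num
  · calc (1 + z) ^ 8 ≤ (2 * z) ^ 8 := Nat.pow_le_pow_left (by omega) 8
      _ = 256 * z ^ 8 := by ring
      _ ≤ 256 * (1 + z ^ 8) := by omega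

/-- convergence of the expected number of zeros for fixed interval -/
theorem tendsto_nz (μ : Measure ℝ) (hμ : Std μ) (hCr : Crude μ)
    (hR : ∀ (p : Polynomial ℝ) (S : Set ℝ), S.OrdConnected → nz p S ≤ 1 + nz p.derivative S)
    (hmeas : ∀ (n : ℕ) (a b : ℝ), Measurable (fun ω : ℕ → ℝ => nz (kac n ω) (Ioo a b)))
    (a b : ℝ) (hab : a < b) (ha : -1 < a) (hb : b < 1)
    (hev : ∀ᵐ ω ∂(PP μ), ∀ᶠ n : ℕ in atTop, nz (kac n ω) (Ioo a b) = Ninf ω (Ioo a b)) :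
    Integrable (fun ω => (Ninf ω (Ioo a b) : ℝ)) (PP μ) ∧
    Tendsto (fun n : ℕ => ∫ ω, (nz (kac n ω) (Ioo a b) : ℝ) ∂(PP μ)) atTop
      (𝓝 (∫ ω, (Ninf ω (Ioo a b) : ℝ) ∂(PP μ))) := by
  have := hμ.prob
  have hPr : IsProbabilityMeasure (PP μ) := by unfold PP; infer_instance
  obtain ⟨C, hC, hCr⟩ := hCr
  have hrr : max |a| |b| < 1 :=
    max_lt (abs_lt.2 ⟨ha, by linarith⟩) (abs_lt.2 ⟨by linarith, hb⟩)
  obtain ⟨N, hN⟩ := exists_nat_one_div_lt (sub_pos.2 hrr)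
  set m : ℕ := N + 1 with hm
  have hm1 : 1 ≤ m := by omega
  have hmr : (0 : ℝ) < m := by exact_mod_cast hm1
  have hr : max |a| |b| ≤ 1 - 1 / (2 * (m : ℝ)) := by
    have h1 : (1 : ℝ) / (2 * (m : ℝ)) ≤ 1 / (m : ℝ) :=
      one_div_le_one_div_of_le hmr (by linarith)
    have h2 : ((N : ℝ) + 1) = (m : ℝ) := by rw [hm]; push_cast; rfl
    rw [h2] at hN
    linarith
  have hsub : Ioo a b ⊆ Icc (-(1 - 1 / (2 * (m : ℝ)))) (1 - 1 / (2 * (m : ℝ))) := by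
    rintro x ⟨h1, h2⟩
    have h3 : |x| ≤ max |a| |b| := abs_le_max_abs_abs h1.le h2.le
    exact abs_le.1 (h3.trans hr)
  set K0 : ℝ := 256 * (1 + C * (m : ℝ) ^ 9) with hK0
  have hK0p : 0 ≤ K0 := by positivity
  refine G4_abstract (PP μ) (fun n ω => nz (kac n ω) (Ioo a b)) (fun n => hmeas n a b)
    (fun ω => Ninf ω (Ioo a b)) hev K0 hK0p fun n => ?_
  have hpt : ∀ ω : ℕ → ℝ, ((nz (kac n ω) (Ioo a b) : ℕ) : ℝ≥0∞) ^ 8 ≤ 256 * (1 +
      (nz (kac n ω).derivative (Icc (-(1 - 1 / (2 * (m : ℝ)))) (1 - 1 / (2 * (m : ℝ)))) : ℝ≥0∞) ^ 8) := by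
    intro ω
    have h1 : nz (kac n ω) (Ioo a b) ≤ 1 +
        nz (kac n ω).derivative (Icc (-(1 - 1 / (2 * (m : ℝ)))) (1 - 1 / (2 * (m : ℝ)))) :=
      (hR _ _ ordConnected_Ioo).trans (Nat.add_le_add_left (G4_nz_mono _ _ _ hsub) 1)
    have h2 := (Nat.pow_le_pow_left h1 8).trans (G4_pow8 _)
    exact_mod_cast h2
  calc ∫⁻ ω, ((nz (kac n ω) (Ioo a b) : ℕ) : ℝ≥0∞) ^ 8 ∂(PP μ)
      ≤ ∫⁻ ω, 256 * (1 + (nz (kac n ω).derivative
        (Icc (-(1 - 1 / (2 * (m : ℝ)))) (1 - 1 / (2 * (m : ℝ)))) : ℝ≥0∞) ^ 8) ∂(PP μ) :=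
        lintegral_mono hpt
    _ = 256 * (1 + ∫⁻ ω, (nz (kac n ω).derivative
        (Icc (-(1 - 1 / (2 * (m : ℝ)))) (1 - 1 / (2 * (m : ℝ)))) : ℝ≥0∞) ^ 8 ∂(PP μ)) := by
        rw [lintegral_const_mul' _ _ (by simp), lintegral_add_left measurable_const]
        simp
    _ ≤ 256 * (1 + ENNReal.ofReal (C * (m : ℝ) ^ 9)) :=
        mul_le_mul_right (add_le_add le_rfl (hCr n m hm1)) _
    _ = ENNReal.ofReal K0 := by
        rw [hK0, ENNReal.ofReal_mul (show (0:ℝ) ≤ 256 by norm_num),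
          ENNReal.ofReal_add (show (0:ℝ) ≤ 1 by norm_num)
            (show (0:ℝ) ≤ C * (m : ℝ) ^ 9 by positivity)]
        norm_num


end G4
end Kac764
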