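import Pool.Agent.Helper764.KacDefs

set_option autoImplicit false
set_option maxHeartbeats 4000000
open MeasureTheory ProbabilityTheory Filter Topology Set
open scoped ENNReal NNReal

namespace Kac764
namespace J2

theorem local_zero (g g' : ℝ → ℝ) (z δ : ℝ) (hδ : 0 < δ) (s : ℝ)
    (hder : ∀ x ∈ Icc (z - δ) (z + δ), HasDerivAt g (g' x) x)
    (hpos : ∀ x ∈ Icc (z - δ) (z + δ), 0 < s * g' x) (h1 : s * g (z - δ) < 0)
    (h2 : 0 < s * g (z + δ)) :
    ∃ w ∈ Ioo (z - δ) (z + δ), g w = 0 ∧ ∀ w' ∈ Ioo (z - δ) (z + δ), g w' = 0 → w' = w := by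
  have hc : ContinuousOn g (Icc (z - δ) (z + δ)) := fun x hx =>
    (hder x hx).continuousAt.continuousWithinAt
  have hcs : ContinuousOn (fun x => s * g x) (Icc (z - δ) (z + δ)) := continuousOn_const.mul hc
  obtain ⟨w, hw, hw0⟩ := intermediate_value_Ioo (by linarith) hcs ⟨h1, h2⟩
  have hs : s ≠ 0 := by
    rintro rfl
    simp at h1
  have hw0' : s * g w = 0 := hw0
  have hgw : g w = 0 := (mul_eq_zero.1 hw0').resolve_left hs
  have huniq : ∀ u v : ℝ, u ∈ Ioo (z - δ) (z + δ) → v ∈ Ioo (z - δ) (z + δ) → u < v → g u = 0 →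
      g v = 0 → False := by
    intro u v hu hv huv hgu hgv
    obtain ⟨c, hc', hc0⟩ := exists_hasDerivAt_eq_zero huv
      (hc.mono (Icc_subset_Icc hu.1.le hv.2.le)) (by rw [hgu, hgv])
      (fun x hx => hder x ⟨(hu.1.trans hx.1).le, (hx.2.trans hv.2).le⟩)
    have := hpos c ⟨(hu.1.trans hc'.1).le, (hc'.2.trans hv.2).le⟩
    rw [hc0, mul_zero] at this
    exact lt_irrefl _ this
  refine ⟨w, hw, hgw, fun w' hw' hgw' => ?_⟩
  rcases lt_trichotomy w' w with h | h | h
  · exact (huniq _ _ hw' hw h hgw' hgw).elim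
  · exact h
  · exact (huniq _ _ hw hw' h hgw hgw').elim

theorem finite_of_sep (Z : Set ℝ) (a b δ : ℝ) (hδ : 0 < δ) (hZ : Z ⊆ Icc a b)
    (hsep : ∀ x ∈ Z, ∀ y ∈ Z, |x - y| < δ → x = y) : Z.Finite := by
  refine Set.Finite.of_injOn (f := fun z : ℝ => ⌊z / δ⌋) (t := Icc ⌊a / δ⌋ ⌊b / δ⌋) ?_ ?_
    (Set.finite_Icc _ _)
  · intro z hz
    have := hZ hz
    exact ⟨Int.floor_le_floor (div_le_div_of_nonneg_right this.1 hδ.le),
      Int.floor_le_floor (div_le_div_of_nonneg_right this.2 hδ.le)⟩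
  · intro x hx y hy hxy
    have h1 := Int.abs_sub_lt_one_of_floor_eq_floor hxy
    refine hsep x hx y hy ?_
    rw [← sub_div, abs_div, abs_of_pos hδ, div_lt_one hδ] at h1
    exact h1

/-- C¹-stability of the number of zeros in an open interval when all zeros are simple and the
end points are not zeros. -/
theorem c1_stable (f f' : ℝ → ℝ) (a b : ℝ) (hab : a < b)
    (hf : ∀ x ∈ Icc a b, HasDerivAt f (f' x) x) (hf' : ContinuousOn f' (Icc a b))
    (ha : f a ≠ 0) (hb : f b ≠ 0) (hs : ∀ x ∈ Icc a b, f x = 0 → f' x ≠ 0) :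
    {x ∈ Ioo a b | f x = 0}.Finite ∧
    ∃ ε > 0, ∀ g g' : ℝ → ℝ, (∀ x ∈ Icc a b, HasDerivAt g (g' x) x) →
      (∀ x ∈ Icc a b, |g x - f x| < ε) → (∀ x ∈ Icc a b, |g' x - f' x| < ε) →
      {x ∈ Ioo a b | g x = 0}.Finite ∧
      {x ∈ Ioo a b | g x = 0}.ncard = {x ∈ Ioo a b | f x = 0}.ncard := by
  have hfc : ContinuousOn f (Icc a b) := fun x hx => (hf x hx).continuousAt.continuousWithinAt
  have hne : (Icc a b).Nonempty := nonempty_Icc.2 hab.le
  have ha' : a ∈ Icc a b := left_mem_Icc.2 hab.le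
  have hb' : b ∈ Icc a b := right_mem_Icc.2 hab.le
  -- the lower bound of max |f| |f'|
  obtain ⟨m, hm, hmf⟩ : ∃ m > 0, ∀ x ∈ Icc a b, m ≤ max |f x| |f' x| := by
    have hmc : ContinuousOn (fun x => max |f x| |f' x|) (Icc a b) := hfc.abs.sup hf'.abs
    obtain ⟨x0, hx0, hmin⟩ := isCompact_Icc.exists_isMinOn hne hmc
    refine ⟨max |f x0| |f' x0|, ?_, fun x hx => hmin hx⟩
    by_cases h : f x0 = 0
    · exact lt_max_of_lt_right (abs_pos.2 (hs x0 hx0 h))
    · exact lt_max_of_lt_left (abs_pos.2 h)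
  obtain ⟨δ0, hδ0, hu⟩ := Metric.uniformContinuousOn_iff.1
    (isCompact_Icc.uniformContinuousOn_of_continuous hf') (m / 2) (by positivity)
  obtain ⟨δ1, hδ1, hz1⟩ := Metric.eventually_nhds_iff.1 ((hf a ha').continuousAt.eventually_ne ha)
  obtain ⟨δ2, hδ2, hz2⟩ := Metric.eventually_nhds_iff.1 ((hf b hb').continuousAt.eventually_ne hb)
  -- zeros of f
  have hfz : ∀ z ∈ Icc a b, f z = 0 → m ≤ |f' z| := by
    intro z hz h0
    have := hmf z hz
    rw [h0, abs_zero] at this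
    rwa [max_eq_right (abs_nonneg _)] at this
  have hsep : ∀ x ∈ {x ∈ Ioo a b | f x = 0}, ∀ y ∈ {x ∈ Ioo a b | f x = 0},
      |x - y| < δ0 → x = y := by
    have key : ∀ x ∈ {x ∈ Ioo a b | f x = 0}, ∀ y ∈ {x ∈ Ioo a b | f x = 0},
      |x - y| < δ0 → x < y → False := by
      rintro x ⟨hx, hx0⟩ y ⟨hy, hy0⟩ hxy hlt
      obtain ⟨c, hc, hc0⟩ := exists_hasDerivAt_eq_zero hlt
        (hfc.mono (Icc_subset_Icc hx.1.le hy.2.le)) (by rw [hx0, hy0])
        (fun t ht => hf t ⟨(hx.1.trans ht.1).le, (ht.2.trans hy.2).le⟩)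
      have hcm : c ∈ Icc a b := ⟨(hx.1.trans hc.1).le, (hc.2.trans hy.2).le⟩
      have h1 := hu x (Ioo_subset_Icc_self hx) c hcm (by
        rw [Real.dist_eq, abs_sub_comm, abs_of_pos (by linarith [hc.1])]
        rw [abs_sub_comm, abs_of_pos (by linarith)] at hxy
        linarith [hc.2])
      rw [Real.dist_eq, hc0, sub_zero] at h1
      have := hfz x (Ioo_subset_Icc_self hx) hx0
      linarith
    intro x hx y hy hxy
    rcases lt_trichotomy x y with h | h | h
    · exact (key x hx y hy hxy h).elim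
    · exact h
    · rw [abs_sub_comm] at hxy
      exact (key y hy x hx hxy h).elim
  have hfin : {x ∈ Ioo a b | f x = 0}.Finite :=
    finite_of_sep _ a b δ0 hδ0 (fun x hx => Ioo_subset_Icc_self hx.1) hsep
  refine ⟨hfin, ?_⟩
  obtain ⟨δ, hδ, hδa, hδb, hδc⟩ : ∃ δ > 0, 3 * δ ≤ δ0 ∧ 2 * δ ≤ δ1 ∧ 2 * δ ≤ δ2 := by
    refine ⟨min (δ0 / 3) (min (δ1 / 2) (δ2 / 2)), by positivity, ?_, ?_, ?_⟩
    · have := min_le_left (δ0 / 3) (min (δ1 / 2) (δ2 / 2))
      linarith
    · have := (min_le_right (δ0 / 3) (min (δ1 / 2) (δ2 / 2))).trans (min_le_left _ _)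
      linarith
    · have := (min_le_right (δ0 / 3) (min (δ1 / 2) (δ2 / 2))).trans (min_le_right _ _)
      linarith
  have hends : ∀ z ∈ {x ∈ Ioo a b | f x = 0}, a < z - δ ∧ z + δ < b := by
    rintro z ⟨hz, hz0⟩
    constructor
    · by_contra hcon
      push Not at hcon
      refine hz1 (y := z) ?_ hz0
      rw [Real.dist_eq, abs_of_pos (by linarith [hz.1])]
      linarith
    · by_contra hcon
      push Not at hcon
      refine hz2 (y := z) ?_ hz0
      rw [Real.dist_eq, abs_sub_comm, abs_of_pos (by linarith [hz.2])]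
      linarith
  -- lower bound off the intervals
  obtain ⟨η, hη, hoff⟩ : ∃ η > 0, ∀ x ∈ Icc a b,
      (∀ z ∈ {x ∈ Ioo a b | f x = 0}, x ∉ Ioo (z - δ) (z + δ)) → η ≤ |f x| := by
    let U : Set ℝ := ⋃ z ∈ {x ∈ Ioo a b | f x = 0}, Ioo (z - δ) (z + δ)
    have hU : IsOpen U := isOpen_biUnion fun z _ => isOpen_Ioo
    have hC : IsCompact (Icc a b \ U) := isCompact_Icc.diff hU
    have hmemU : ∀ x ∈ Icc a b, (∀ z ∈ {x ∈ Ioo a b | f x = 0}, x ∉ Ioo (z - δ) (z + δ)) →
        x ∈ Icc a b \ U := by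
      intro x hx h
      refine ⟨hx, fun hxU => ?_⟩
      obtain ⟨z, hz, hxz⟩ := Set.mem_iUnion₂.1 hxU
      exact h z hz hxz
    by_cases hCne : (Icc a b \ U).Nonempty
    · obtain ⟨x0, hx0, hmin⟩ := hC.exists_isMinOn hCne (hfc.abs.mono sdiff_subset)
      refine ⟨|f x0|, ?_, fun x hx h => hmin (hmemU x hx h)⟩
      rw [gt_iff_lt, abs_pos]
      intro h0
      have hx0a : x0 ≠ a := fun h => ha (h ▸ h0)
      have hx0b : x0 ≠ b := fun h => hb (h ▸ h0)
      have hx0' : x0 ∈ Ioo a b := ⟨lt_of_le_of_ne hx0.1.1 (Ne.symm hx0a),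
        lt_of_le_of_ne hx0.1.2 hx0b⟩
      exact hx0.2 (Set.mem_iUnion₂.2 ⟨x0, ⟨hx0', h0⟩, by constructor <;> linarith⟩)
    · exact ⟨1, one_pos, fun x hx h => (hCne ⟨x, hmemU x hx h⟩).elim⟩
  obtain ⟨ε, hε, hεm, hεδ, hεη⟩ : ∃ ε > 0, ε ≤ m / 2 ∧ ε ≤ m / 2 * δ ∧ ε ≤ η :=
    ⟨min (m / 2) (min (m / 2 * δ) η), by positivity, min_le_left _ _,
      (min_le_right _ _).trans (min_le_left _ _), (min_le_right _ _).trans (min_le_right _ _)⟩
  refine ⟨ε, hε, fun g g' hg hgf hgf' => ?_⟩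
  have hloc : ∀ z ∈ {x ∈ Ioo a b | f x = 0}, ∃ w ∈ Ioo (z - δ) (z + δ), g w = 0 ∧
      ∀ w' ∈ Ioo (z - δ) (z + δ), g w' = 0 → w' = w := by
    intro z hz
    obtain ⟨he1, he2⟩ := hends z hz
    have hzI : z ∈ Icc a b := Ioo_subset_Icc_self hz.1
    have hsub : ∀ x ∈ Icc (z - δ) (z + δ), x ∈ Icc a b := fun x hx =>
      ⟨by linarith [hx.1], by linarith [hx.2]⟩
    have hm1 := hfz z hzI hz.2
    obtain ⟨s, hs1, hs2⟩ : ∃ s : ℝ, |s| = 1 ∧ s * f' z = |f' z| := by
      rcases le_total 0 (f' z) with h | h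
      · exact ⟨1, abs_one, by rw [abs_of_nonneg h, one_mul]⟩
      · exact ⟨-1, by simp, by rw [abs_of_nonpos h]; ring⟩
    have hsab : ∀ u v : ℝ, |u - v| < ε → s * v - ε < s * u ∧ s * u < s * v + ε := by
      intro u v h
      have h1 : |s * u - s * v| < ε := by rw [← mul_sub, abs_mul, hs1, one_mul]; exact h
      have := abs_lt.1 h1
      constructor <;> linarith [this.1, this.2]
    have hf'pos : ∀ x ∈ Icc (z - δ) (z + δ), m / 2 < s * f' x := by
      intro x hx
      have h1 := hu x (hsub x hx) z hzI (by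
        rw [Real.dist_eq]
        have : |x - z| ≤ δ := abs_le.2 ⟨by linarith [hx.1], by linarith [hx.2]⟩
        linarith)
      rw [Real.dist_eq] at h1
      have h2 : |s * f' x - s * f' z| < m / 2 := by rw [← mul_sub, abs_mul, hs1, one_mul]; exact h1
      have := abs_lt.1 h2
      linarith [this.1]
    have hright : m / 2 * δ < s * f (z + δ) := by
      obtain ⟨c, hc, hc0⟩ := exists_hasDerivAt_eq_slope f f' (show z < z + δ by linarith)
        (hfc.mono (Icc_subset_Icc hzI.1 he2.le))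
        (fun x hx => hf x (hsub x ⟨by linarith [hx.1], by linarith [hx.2]⟩))
      rw [hz.2, sub_zero, add_sub_cancel_left, eq_div_iff hδ.ne'] at hc0
      rw [← hc0, ← mul_assoc]
      exact mul_lt_mul_of_pos_right (hf'pos c ⟨by linarith [hc.1], by linarith [hc.2]⟩) hδ
    have hleft : s * f (z - δ) < - (m / 2 * δ) := by
      obtain ⟨c, hc, hc0⟩ := exists_hasDerivAt_eq_slope f f' (show z - δ < z by linarith)
        (hfc.mono (Icc_subset_Icc he1.le hzI.2))
        (fun x hx => hf x (hsub x ⟨by linarith [hx.1], by linarith [hx.2]⟩))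
      rw [hz.2, zero_sub, sub_sub_cancel, eq_div_iff hδ.ne'] at hc0
      have h1 : m / 2 * δ < s * (f' c * δ) := by
        rw [← mul_assoc]
        exact mul_lt_mul_of_pos_right (hf'pos c ⟨by linarith [hc.1], by linarith [hc.2]⟩) hδ
      rw [hc0] at h1
      linarith
    refine local_zero g g' z δ hδ s (fun x hx => hg x (hsub x hx)) ?_ ?_ ?_
    · intro x hx
      have h1 := hsab _ _ (hgf' x (hsub x hx))
      have h2 := hf'pos x hx
      linarith [h1.1]
    · have h1 := hsab _ _ (hgf (z - δ) (hsub _ ⟨le_rfl, by linarith⟩))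
      linarith [h1.2]
    · have h1 := hsab _ _ (hgf (z + δ) (hsub _ ⟨by linarith, le_rfl⟩))
      linarith [h1.1]
  choose F hF1 hF2 hF3 using hloc
  have hsurj : ∀ w ∈ {x ∈ Ioo a b | g x = 0}, ∃ z, ∃ hz : z ∈ {x ∈ Ioo a b | f x = 0},
      F z hz = w := by
    rintro w ⟨hw, hw0⟩
    have hwI : w ∈ Icc a b := Ioo_subset_Icc_self hw
    by_contra hcon
    push Not at hcon
    have h1 := hoff w hwI (fun z hz hwz => hcon z hz (hF3 z hz w hwz hw0).symm)
    have h2 := hgf w hwI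
    rw [hw0, zero_sub, abs_neg] at h2
    linarith
  have hcard : {x ∈ Ioo a b | f x = 0}.ncard = {x ∈ Ioo a b | g x = 0}.ncard := by
    refine Set.ncard_congr F ?_ ?_ hsurj
    · intro z hz
      have h1 := hF1 z hz
      have h2 := hends z hz
      exact ⟨⟨by linarith [h1.1, h2.1], by linarith [h1.2, h2.2]⟩, hF2 z hz⟩
    · intro z z' hz hz' h
      have h1 := hF1 z hz
      have h2 := hF1 z' hz'
      rw [← h] at h2
      refine hsep z hz z' hz' (abs_lt.2 ⟨?_, ?_⟩)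
      · linarith [h1.1, h1.2, h2.1, h2.2]
      · linarith [h1.1, h1.2, h2.1, h2.2]
  refine ⟨?_, hcard.symm⟩
  have hfin' : (Set.range (fun z : {x ∈ Ioo a b | f x = 0} => F z.1 z.2)).Finite := by
    have := hfin.to_subtype
    exact Set.finite_range _
  refine hfin'.subset fun w hw => ?_
  obtain ⟨z, hz, h⟩ := hsurj w hw
  exact ⟨⟨z, hz⟩, h⟩

/-- If no critical value of `p` on `[a,b]` and no end point value is in `[-τ,τ]`, the number of
zeros of `p + c` in `(a,b)` is the same for all `|c| ≤ τ`. -/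
theorem nz_shift (p : Polynomial ℝ) (a b τ : ℝ) (hab : a < b) (hτ : 0 < τ)
    (hcrit : ∀ x ∈ Icc a b, p.derivative.eval x = 0 → τ < |p.eval x|)
    (ha : τ < |p.eval a|) (hb : τ < |p.eval b|) (c : ℝ) (hc : |c| ≤ τ) :
    nz (p + Polynomial.C c) (Ioo a b) = nz p (Ioo a b) := by
  have hN : ∀ d : ℝ, |d| ≤ τ → nz (p + Polynomial.C d) (Ioo a b) =
      {x ∈ Ioo a b | p.eval x + d = 0}.ncard := by
    intro d hd
    have hne : p + Polynomial.C d ≠ 0 := by
      intro h0
      have h1 : (p + Polynomial.C d).eval a = 0 := by rw [h0, Polynomial.eval_zero]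
      rw [Polynomial.eval_add, Polynomial.eval_C] at h1
      have h2 : p.eval a = -d := by linarith
      rw [h2, abs_neg] at ha
      linarith
    unfold nz
    congr 1
    ext x
    constructor
    · rintro ⟨h1, -, h2⟩
      refine ⟨h1, ?_⟩
      rwa [Polynomial.eval_add, Polynomial.eval_C] at h2
    · rintro ⟨h1, h2⟩
      refine ⟨h1, hne, ?_⟩
      rwa [Polynomial.eval_add, Polynomial.eval_C]
  have hcont : ContinuousOn (fun d : ℝ => {x ∈ Ioo a b | p.eval x + d = 0}.ncard)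
      (Icc (-τ) τ) := by
    intro d hd
    have hd' : |d| ≤ τ := abs_le.2 hd
    have hne : ∀ t : ℝ, τ < |t| → t + d ≠ 0 := by
      intro t ht h0
      have h2 : t = -d := by linarith
      rw [h2, abs_neg] at ht
      linarith
    obtain ⟨-, ε, hε, h⟩ := c1_stable (fun x => p.eval x + d) (fun x => p.derivative.eval x) a b
      hab (fun x _ => (p.hasDerivAt x).add_const d) (by fun_prop) (hne _ ha) (hne _ hb)
      (fun x hx h0 h1 => hne _ (hcrit x hx h1) h0)
    refine ContinuousAt.continuousWithinAt ?_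
    refine (continuousAt_const (y := {x ∈ Ioo a b | p.eval x + d = 0}.ncard)).congr ?_
    filter_upwards [Metric.ball_mem_nhds d hε] with e he
    refine ((h (fun x => p.eval x + e) (fun x => p.derivative.eval x)
      (fun x _ => (p.hasDerivAt x).add_const e) ?_ ?_).2).symm
    · intro x _
      rw [add_sub_add_left_eq_sub]
      exact he
    · intro x _
      rw [sub_self, abs_zero]
      exact hε
  have h1 := isPreconnected_Icc.constant hcont (x := c) (y := 0) (abs_le.1 hc)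
    ⟨by linarith, hτ.le⟩
  have h2 := hN 0 (by rw [abs_zero]; exact hτ.le)
  rw [Polynomial.C_0, add_zero] at h2
  rw [hN c hc, h2]
  exact h1


end J2
end Kac764
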