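import Pool.Agent.Helper764.KacDefs

set_option autoImplicit false
set_option maxHeartbeats 4000000
open MeasureTheory ProbabilityTheory Filter Topology Set
open scoped ENNReal NNReal

namespace Kac764
namespace J4

open Classical in
theorem j10966_nz_eq (p : Polynomial ℝ) (S : Set ℝ) :
    nz p S = (p.roots.toFinset.filter (· ∈ S)).card := by
  rw [nz, ← Set.ncard_coe_finset]
  congr 1
  ext x
  simp only [Set.mem_ofPred_eq, Finset.coe_filter, Multiset.mem_toFinset]
  constructor
  · rintro ⟨h1, h2, h3⟩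
    exact ⟨(Polynomial.mem_roots h2).2 h3, h1⟩
  · rintro ⟨h1, h2⟩
    have hp : p ≠ 0 := by
      rintro rfl
      simp at h1
    exact ⟨h2, hp, (Polynomial.mem_roots hp).1 h1⟩

/-- Jensen-type bound: a polynomial with `N` zeros in `[x0-r, x0+r]` is small at `x0`. -/
theorem jensen_poly (f : Polynomial ℝ) (x0 r R : ℝ) (hr : 0 < r) (hrR : r < R) (N : ℕ)
    (hN : N ≤ nz f (Icc (x0 - r) (x0 + r))) :
    |f.eval x0| ≤ (r / R) ^ N * ∑ j ∈ Finset.range (f.natDegree + 1), |f.coeff j| * (|x0| + R) ^ j := by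
  classical
  have hR : 0 < R := hr.trans hrR
  by_cases hf : f = 0
  · subst hf
    simp
  obtain ⟨S, hS⟩ : ∃ S : Set ℝ, S = Icc (x0 - r) (x0 + r) := ⟨_, rfl⟩
  rw [← hS, j10966_nz_eq] at hN
  obtain ⟨Z, hZsub, hZcard⟩ := Finset.exists_subset_card_eq hN
  have hZroot : ∀ z ∈ Z, z ∈ f.roots := fun z hz => by
    have := hZsub hz
    have h2 := (Finset.mem_filter.1 this).1
    exact Multiset.mem_toFinset.1 h2
  have hZIcc : ∀ z ∈ Z, z ∈ Icc (x0 - r) (x0 + r) := fun z hz => by
    have := hZsub hz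
    rw [← hS]
    exact (Finset.mem_filter.1 this).2
  have hdvd : (Z.val.map (fun a => Polynomial.X - Polynomial.C a)).prod ∣ f := by
    rw [Multiset.prod_X_sub_C_dvd_iff_le_roots hf, Multiset.le_iff_subset Z.nodup]
    intro z hz
    exact hZroot z hz
  obtain ⟨q, hq⟩ := hdvd
  change f = (∏ z ∈ Z, (Polynomial.X - Polynomial.C z)) * q at hq
  set M : ℝ := ∑ j ∈ Finset.range (f.natDegree + 1), |f.coeff j| * (|x0| + R) ^ j with hM
  let Q : Polynomial ℂ := q.map (algebraMap ℝ ℂ)
  let G : ℂ → ℂ := fun w => Q.eval w * ∏ z ∈ Z, (((R:ℂ)^2 - ((z:ℂ) - x0) * (w - x0)) / R)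
  have hGd : Differentiable ℂ G := by
    intro w
    refine (Q.differentiable w).mul ?_
    have := DifferentiableAt.fun_finsetProd (𝕜 := ℂ) (u := Z)
      (f := fun z w => (((R:ℂ)^2 - ((z:ℂ) - x0) * (w - x0)) / R)) (x := w) (fun z _ => by fun_prop)
    exact this
  have hFe : ∀ w : ℂ, (f.map (algebraMap ℝ ℂ)).eval w = (∏ z ∈ Z, (w - z)) * Q.eval w := by
    intro w
    conv_lhs => rw [hq]
    rw [Polynomial.map_mul, Polynomial.eval_mul, Polynomial.map_prod, Polynomial.eval_prod]
    simp [Q]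
  have hFb : ∀ w : ℂ, ‖w - x0‖ = R → ‖(f.map (algebraMap ℝ ℂ)).eval w‖ ≤ M := by
    intro w hw
    have hw2 : ‖w‖ ≤ |x0| + R := by
      calc ‖w‖ = ‖(x0:ℂ) + (w - x0)‖ := by congr 1; ring
        _ ≤ ‖(x0:ℂ)‖ + ‖w - x0‖ := norm_add_le _ _
        _ = |x0| + R := by rw [hw, Complex.norm_real, Real.norm_eq_abs]
    rw [Polynomial.eval_map, Polynomial.eval₂_eq_sum_range]
    refine (norm_sum_le _ _).trans ?_
    refine Finset.sum_le_sum fun j _ => ?_
    rw [norm_mul, norm_pow]
    have : ‖(algebraMap ℝ ℂ) (f.coeff j)‖ = |f.coeff j| := by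
      simp
    rw [this]
    exact mul_le_mul_of_nonneg_left (pow_le_pow_left₀ (norm_nonneg _) hw2 j) (abs_nonneg _)
  have hGb : ∀ w : ℂ, ‖w - x0‖ = R → ‖G w‖ ≤ M := by
    intro w hw
    have key : ‖G w‖ = ‖(f.map (algebraMap ℝ ℂ)).eval w‖ := by
      rw [hFe]
      simp only [G]
      rw [norm_mul, norm_mul, mul_comm, norm_prod, norm_prod]
      congr 1
      refine Finset.prod_congr rfl fun z _ => ?_
      have hww : (R:ℂ)^2 = (w - x0) * (starRingEnd ℂ) (w - x0) := by
        rw [Complex.mul_conj, Complex.normSq_eq_norm_sq, hw]; push_cast; ring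
      have h1 : (R:ℂ)^2 - ((z:ℂ) - x0) * (w - x0) = (w - x0) * (starRingEnd ℂ) (w - z) := by
        rw [hww]
        simp only [map_sub, Complex.conj_ofReal]
        ring
      rw [h1, norm_div, norm_mul, hw, RCLike.norm_conj, Complex.norm_real, Real.norm_of_nonneg hR.le]
      field_simp
    rw [key]
    exact hFb w hw
  have hmax : ‖G x0‖ ≤ M := by
    refine Complex.norm_le_of_forall_mem_frontier_norm_le (U := Metric.ball (x0:ℂ) R)
      Metric.isBounded_ball hGd.diffContOnCl ?_ (subset_closure (Metric.mem_ball_self hR))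
    intro w hw
    rw [frontier_ball _ hR.ne'] at hw
    exact hGb w (by rw [← dist_eq_norm]; exact hw)
  have hGx : ‖G x0‖ = |q.eval x0| * R ^ N := by
    simp only [G]
    rw [norm_mul]
    have e1 : ‖Q.eval (x0:ℂ)‖ = |q.eval x0| := by
      have : Q.eval (x0:ℂ) = ((q.eval x0 : ℝ) : ℂ) := by
        simp only [Q]
        rw [Polynomial.eval_map]
        exact Polynomial.eval₂_at_apply (algebraMap ℝ ℂ) x0
      rw [this, Complex.norm_real, Real.norm_eq_abs]
    rw [e1]
    congr 1
    rw [← hZcard, norm_prod, ← Finset.prod_const]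
    refine Finset.prod_congr rfl fun z _ => ?_
    rw [sub_self, mul_zero, sub_zero, norm_div, norm_pow, Complex.norm_real, Real.norm_of_nonneg hR.le]
    field_simp
  have hfx : |f.eval x0| ≤ |q.eval x0| * r ^ N := by
    conv_lhs => rw [hq]
    rw [Polynomial.eval_mul, Polynomial.eval_prod, abs_mul, mul_comm]
    refine mul_le_mul_of_nonneg_left ?_ (abs_nonneg _)
    rw [Finset.abs_prod, ← hZcard, ← Finset.prod_const]
    refine Finset.prod_le_prod (fun _ _ => abs_nonneg _) fun z hz => ?_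
    have := hZIcc z hz
    rw [Polynomial.eval_sub, Polynomial.eval_X, Polynomial.eval_C, abs_le]
    constructor <;> linarith [this.1, this.2]
  rw [hGx] at hmax
  calc |f.eval x0| ≤ |q.eval x0| * r ^ N := hfx
    _ = (r / R) ^ N * (|q.eval x0| * R ^ N) := by
        rw [div_pow]; field_simp
    _ ≤ (r / R) ^ N * M := mul_le_mul_of_nonneg_left hmax (by positivity)

/-- Rolle: the number of zeros in an order-connected set. -/
theorem nz_rolle (p : Polynomial ℝ) (S : Set ℝ) (hS : S.OrdConnected) :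
    nz p S ≤ 1 + nz p.derivative S := by
  classical
  rw [j10966_nz_eq, j10966_nz_eq, add_comm]
  by_cases hp : p = 0
  · subst hp; simp
  by_cases hd : p.derivative = 0
  · have := Polynomial.derivative_eq_zero.1 hd
    rw [Polynomial.natDegree_eq_zero] at this
    obtain ⟨c, rfl⟩ := this
    simp
  apply Finset.card_le_of_interleaved
  intro x hx y hy hxy hxy'
  rw [Finset.mem_filter, Multiset.mem_toFinset, Polynomial.mem_roots hp, Polynomial.IsRoot.def] at hx hy
  obtain ⟨z, hz1, hz2⟩ := exists_deriv_eq_zero hxy p.continuousOn (hx.1.trans hy.1.symm)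
  refine ⟨z, ?_, hz1⟩
  rw [Finset.mem_filter, Multiset.mem_toFinset, Polynomial.mem_roots hd, Polynomial.IsRoot.def]
  exact ⟨by rw [← Polynomial.deriv]; exact hz2, hS.out hx.2 hy.2 ⟨hz1.1.le, hz1.2.le⟩⟩

theorem nz_rolle_iter (p : Polynomial ℝ) (S : Set ℝ) (hS : S.OrdConnected) (i : ℕ) :
    nz p S ≤ i + nz (Polynomial.derivative^[i] p) S := by
  induction i with
  | zero => simp
  | succ n ih =>
    rw [Function.iterate_succ_apply']
    have := nz_rolle (Polynomial.derivative^[n] p) S hS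
    omega

/-- trivial bound by the degree. -/
theorem nz_le_natDegree (p : Polynomial ℝ) (S : Set ℝ) : nz p S ≤ p.natDegree := by
  classical
  rw [j10966_nz_eq]
  calc (p.roots.toFinset.filter (· ∈ S)).card ≤ p.roots.toFinset.card := Finset.card_filter_le _ _
    _ ≤ Multiset.card p.roots := Multiset.toFinset_card_le _
    _ ≤ p.natDegree := p.card_roots'


end J4
end Kac764
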