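import Pool.Agent.Helper764.KacDefs

set_option autoImplicit false
set_option maxHeartbeats 4000000
open MeasureTheory ProbabilityTheory Filter Topology Set
open scoped ENNReal NNReal

namespace Kac764
namespace J6

theorem kac_eval_10967 (n : ℕ) (ω : ℕ → ℝ) (x : ℝ) :
    (kac n ω).eval x = ∑ j ∈ Finset.range (n + 1), ω j * x ^ j := by
  unfold kac
  rw [Polynomial.eval_finset_sum]
  simp

theorem meas_kac_zero_10967 (n : ℕ) : MeasurableSet {ω : ℕ → ℝ | kac n ω = 0} := by
  have h : {ω : ℕ → ℝ | kac n ω = 0} = ⋂ m : ℕ, {ω | (kac n ω).coeff m = 0} := by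
    ext ω
    simp only [Set.mem_setOf_eq, Set.mem_iInter]
    constructor
    · intro h m
      rw [h, Polynomial.coeff_zero]
    · intro h
      ext m
      rw [h m, Polynomial.coeff_zero]
  rw [h]
  apply MeasurableSet.iInter
  intro m
  have h2 : (fun ω : ℕ → ℝ => (kac n ω).coeff m) =
      fun ω => ∑ j ∈ Finset.range (n + 1), ω j * (if m = j then 1 else 0) := by
    funext ω
    unfold kac
    rw [Polynomial.finset_sum_coeff]
    apply Finset.sum_congr rfl
    intro j _
    rw [Polynomial.coeff_C_mul, Polynomial.coeff_X_pow]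
  have hm : Measurable (fun ω : ℕ → ℝ => (kac n ω).coeff m) := by
    rw [h2]
    apply Finset.measurable_sum
    intro j _
    exact (measurable_pi_apply j).mul_const _
  exact hm (measurableSet_singleton 0)

theorem closed_hit_10967 (n : ℕ) (p q : ℝ) :
    IsClosed {ω : ℕ → ℝ | ∃ x ∈ Icc p q, (kac n ω).eval x = 0} := by
  have h : {ω : ℕ → ℝ | ∃ x ∈ Icc p q, (kac n ω).eval x = 0} =
      Prod.fst '' {z : (ℕ → ℝ) × (Icc p q) | (kac n z.1).eval (z.2 : ℝ) = 0} := by
    ext ω
    constructor
    · rintro ⟨x, hx, h⟩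
      exact ⟨(ω, ⟨x, hx⟩), h, rfl⟩
    · rintro ⟨⟨ω', x⟩, h, rfl⟩
      exact ⟨x, x.2, h⟩
  rw [h]
  apply isClosedMap_fst_of_compactSpace
  have hc : Continuous (fun z : (ℕ → ℝ) × (Icc p q) => (kac n z.1).eval (z.2 : ℝ)) := by
    simp only [kac_eval_10967]
    apply continuous_finset_sum
    intro j _
    exact ((continuous_apply j).comp continuous_fst).mul
      ((continuous_subtype_val.comp continuous_snd).pow j)
  exact isClosed_singleton.preimage hc

theorem finite_zeros_10967 (p : Polynomial ℝ) (S : Set ℝ) :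
    {x : ℝ | x ∈ S ∧ p ≠ 0 ∧ p.eval x = 0}.Finite := by
  by_cases hp : p = 0
  · have : {x : ℝ | x ∈ S ∧ p ≠ 0 ∧ p.eval x = 0} = ∅ := by
      ext x
      simp [hp]
    rw [this]
    exact Set.finite_empty
  · apply (p.roots.toFinset.finite_toSet).subset
    rintro x ⟨-, -, hx⟩
    simp only [Finset.mem_coe, Multiset.mem_toFinset]
    exact (Polynomial.mem_roots hp).2 hx

/-- the countable description of `k ≤ nz` -/
def AA10967 (n k : ℕ) (a b : ℝ) : Set (ℕ → ℝ) :=
  {ω | kac n ω = 0}ᶜ ∩ ⋃ m : ℕ, ⋃ c : Fin k → ℚ,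
    {_ω : ℕ → ℝ | (∀ i, a < c i - 1 / ((m : ℝ) + 1) ∧ c i + 1 / ((m : ℝ) + 1) < b) ∧
      ∀ i j, i ≠ j → 2 / ((m : ℝ) + 1) < |(c i : ℝ) - c j|} ∩
    ⋂ i, {ω : ℕ → ℝ | ∃ x ∈ Icc ((c i : ℝ) - 1 / ((m : ℝ) + 1)) (c i + 1 / ((m : ℝ) + 1)),
      (kac n ω).eval x = 0}

theorem meas_AA_10967 (n k : ℕ) (a b : ℝ) : MeasurableSet (AA10967 n k a b) := by
  unfold AA10967
  apply (meas_kac_zero_10967 n).compl.inter
  apply MeasurableSet.iUnion
  intro m
  apply MeasurableSet.iUnion
  intro c
  apply (MeasurableSet.const _).inter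
  apply MeasurableSet.iInter
  intro i
  exact (closed_hit_10967 n _ _).measurableSet

theorem le_nz_iff_10967 (n k : ℕ) (hk : 1 ≤ k) (a b : ℝ) (ω : ℕ → ℝ) :
    k ≤ nz (kac n ω) (Ioo a b) ↔ ω ∈ AA10967 n k a b := by
  classical
  have hfin := finite_zeros_10967 (kac n ω) (Ioo a b)
  constructor
  · intro h
    have hne : kac n ω ≠ 0 := by
      intro h0
      unfold nz at h
      rw [h0] at h
      simp at h
      omega
    refine ⟨hne, ?_⟩
    -- distinct zeros
    obtain ⟨z, hz, hzinj⟩ : ∃ z : Fin k → ℝ, (∀ i, z i ∈ Ioo a b ∧ (kac n ω).eval (z i) = 0) ∧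
        Function.Injective z := by
      unfold nz at h
      rw [Set.ncard_eq_toFinset_card _ hfin] at h
      obtain ⟨T, hT, hTc⟩ := Finset.exists_subset_card_eq h
      refine ⟨T.orderEmbOfFin hTc, fun i => ?_, (T.orderEmbOfFin hTc).injective⟩
      have h1 := hT (Finset.orderEmbOfFin_mem T hTc i)
      rw [Set.Finite.mem_toFinset] at h1
      exact ⟨h1.1, h1.2.2⟩
    have hlim : Tendsto (fun m : ℕ => 1 / ((m : ℝ) + 1)) atTop (𝓝 0) :=
      tendsto_one_div_add_atTop_nhds_zero_nat
    have hev : ∀ᶠ m : ℕ in atTop, (∀ i, 1 / ((m : ℝ) + 1) < (z i - a) / 2 ∧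
        1 / ((m : ℝ) + 1) < (b - z i) / 2) ∧
        ∀ i j, i ≠ j → 1 / ((m : ℝ) + 1) < |z i - z j| / 4 := by
      refine Filter.Eventually.and ?_ ?_
      · rw [Filter.eventually_all]
        intro i
        have h1 := (hz i).1.1
        have h2 := (hz i).1.2
        exact (hlim.eventually (gt_mem_nhds (by linarith))).and
          (hlim.eventually (gt_mem_nhds (by linarith)))
      · rw [Filter.eventually_all]
        intro i
        rw [Filter.eventually_all]
        intro j
        by_cases hij : i = j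
        · exact Filter.Eventually.of_forall (fun m h => absurd hij h)
        · have h3 : 0 < |z i - z j| := abs_pos.2 (sub_ne_zero.2 (fun h => hij (hzinj h)))
          exact (hlim.eventually (gt_mem_nhds (by linarith))).mono (fun m hm _ => hm)
    obtain ⟨m, hm1, hm2⟩ := hev.exists
    have hm0 : 0 < 1 / ((m : ℝ) + 1) := by positivity
    have hc : ∀ i, ∃ c : ℚ, |z i - c| < 1 / ((m : ℝ) + 1) := fun i => exists_rat_near (z i) hm0
    choose c hc using hc
    rw [Set.mem_iUnion]
    refine ⟨m, ?_⟩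
    rw [Set.mem_iUnion]
    refine ⟨c, ⟨fun i => ?_, fun i j hij => ?_⟩, ?_⟩
    · have h1 := hm1 i
      have h2 := abs_lt.1 (hc i)
      constructor <;> linarith [h1.1, h1.2, h2.1, h2.2]
    · have h1 := hm2 i j hij
      have h4 : |z i - z j| ≤ |z i - c i| + |(c i : ℝ) - c j| + |z j - c j| := by
        have e : z i - z j = (z i - c i) + ((c i : ℝ) - c j) + -(z j - c j) := by ring
        rw [e]
        refine (abs_add_le _ _).trans ?_
        rw [abs_neg]
        have := abs_add_le (z i - c i) ((c i : ℝ) - c j)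
        linarith
      have h5 := hc i
      have h6 := hc j
      have h7 : 2 / ((m : ℝ) + 1) = 2 * (1 / ((m : ℝ) + 1)) := by ring
      rw [h7]
      linarith
    · rw [Set.mem_iInter]
      intro i
      have h2 := abs_lt.1 (hc i)
      exact ⟨z i, ⟨by linarith [h2.1, h2.2], by linarith [h2.1, h2.2]⟩, (hz i).2⟩
  · rintro ⟨hne, h⟩
    rw [Set.mem_iUnion] at h
    obtain ⟨m, h⟩ := h
    rw [Set.mem_iUnion] at h
    obtain ⟨c, ⟨h1, h2⟩, h3⟩ := h
    rw [Set.mem_iInter] at h3
    choose z hz hz0 using h3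
    unfold nz
    rw [Set.ncard_eq_toFinset_card _ hfin]
    have hmem : ∀ i, z i ∈ hfin.toFinset := by
      intro i
      rw [Set.Finite.mem_toFinset]
      refine ⟨⟨?_, ?_⟩, hne, hz0 i⟩
      · linarith [(h1 i).1, (hz i).1]
      · linarith [(h1 i).2, (hz i).2]
    have hinj : Function.Injective z := by
      intro i j hij
      by_contra hne'
      have h4 := h2 i j hne'
      have h5 := hz i
      have h6 := hz j
      rw [hij] at h5
      have h7 : 2 / ((m : ℝ) + 1) = 2 * (1 / ((m : ℝ) + 1)) := by ring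
      rw [h7] at h4
      have h8 : |(c i : ℝ) - c j| ≤ 2 * (1 / ((m : ℝ) + 1)) := by
        rw [abs_le]
        constructor <;> linarith [h5.1, h5.2, h6.1, h6.2]
      linarith
    have h9 := Finset.card_le_card_of_injOn (s := (Finset.univ : Finset (Fin k)))
      (t := hfin.toFinset) z (fun i _ => hmem i) (hinj.injOn)
    simpa using h9

/-- measurability of the number of zeros in an open interval, as a function of the coefficients. -/
theorem measurable_nz (n : ℕ) (a b : ℝ) :
    Measurable (fun ω : ℕ → ℝ => nz (kac n ω) (Ioo a b)) := by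
  apply measurable_of_Ici
  intro k
  rcases Nat.eq_zero_or_pos k with rfl | hk
  · have : (fun ω : ℕ → ℝ => nz (kac n ω) (Ioo a b)) ⁻¹' Ici 0 = univ := by
      ext ω
      simp
    rw [this]
    exact MeasurableSet.univ
  · have : (fun ω : ℕ → ℝ => nz (kac n ω) (Ioo a b)) ⁻¹' Ici k = AA10967 n k a b := by
      ext ω
      exact le_nz_iff_10967 n k hk a b ω
    rw [this]
    exact meas_AA_10967 n k a b

theorem measurable_nz_singleton (n : ℕ) (a : ℝ) :
    Measurable (fun ω : ℕ → ℝ => nz (kac n ω) {a}) := by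
  classical
  have h : (fun ω : ℕ → ℝ => nz (kac n ω) {a}) =
      fun ω => if (kac n ω ≠ 0 ∧ (kac n ω).eval a = 0) then 1 else 0 := by
    funext ω
    unfold nz
    split_ifs with h
    · have : {x : ℝ | x ∈ ({a} : Set ℝ) ∧ kac n ω ≠ 0 ∧ (kac n ω).eval x = 0} = {a} := by
        ext x
        simp only [Set.mem_setOf_eq, Set.mem_singleton_iff]
        constructor
        · exact fun h => h.1
        · rintro rfl
          exact ⟨rfl, h⟩
      rw [this, Set.ncard_singleton]
    · have : {x : ℝ | x ∈ ({a} : Set ℝ) ∧ kac n ω ≠ 0 ∧ (kac n ω).eval x = 0} = ∅ := by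
        ext x
        simp only [Set.mem_setOf_eq, Set.mem_singleton_iff, Set.mem_empty_iff_false, iff_false]
        rintro ⟨rfl, h2⟩
        exact h h2
      rw [this, Set.ncard_empty]
  rw [h]
  apply Measurable.ite _ measurable_const measurable_const
  have h2 : MeasurableSet {ω : ℕ → ℝ | (kac n ω).eval a = 0} := by
    have hc : Continuous (fun ω : ℕ → ℝ => (kac n ω).eval a) := by
      simp only [kac_eval_10967]
      apply continuous_finset_sum
      intro j _
      exact (continuous_apply j).mul continuous_const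
    exact (isClosed_singleton.preimage hc).measurableSet
  exact (meas_kac_zero_10967 n).compl.inter h2


end J6
end Kac764
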