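import Pool.Agent.Helper764.KacDefs

set_option autoImplicit false
set_option maxHeartbeats 4000000
open MeasureTheory ProbabilityTheory Filter Topology Set
open scoped ENNReal NNReal

namespace Kac764
namespace P8

/-- Jensen-type bound (proved elsewhere). -/
def JensenPoly : Prop := ∀ (f : Polynomial ℝ) (x0 r R : ℝ), 0 < r → r < R → ∀ (N : ℕ),
    N ≤ nz f (Icc (x0 - r) (x0 + r)) →
    |f.eval x0| ≤ (r / R) ^ N * ∑ j ∈ Finset.range (f.natDegree + 1), |f.coeff j| * (|x0| + R) ^ j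

/-- Rolle (proved elsewhere). -/
def NzRolle : Prop := ∀ (p : Polynomial ℝ) (S : Set ℝ), S.OrdConnected →
    nz p S ≤ 1 + nz p.derivative S


/-! ### helper lemmas for `crude_of` -/

theorem j11240_delta (μ : Measure ℝ) (hμ : Std μ) : ∃ δ : ℝ, 0 < δ ∧ δ ≤ 1 ∧ μ {x | |x| < δ} < 1 := by
  by_contra hc
  push Not at hc
  have := hμ.prob
  have h1 : ∀ n : ℕ, ∀ᵐ x ∂μ, |x| < 1 / ((n : ℝ) + 1) := by
    intro n
    have hpos : 0 < 1 / ((n : ℝ) + 1) := by positivity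
    have hle : 1 / ((n : ℝ) + 1) ≤ 1 := by
      rw [div_le_one (by positivity)]
      have : (0 : ℝ) ≤ n := Nat.cast_nonneg n
      linarith
    have h2 := hc _ hpos hle
    have hms : MeasurableSet {x : ℝ | |x| < 1 / ((n : ℝ) + 1)} :=
      measurableSet_lt measurable_norm measurable_const
    have h3 : μ {x : ℝ | |x| < 1 / ((n : ℝ) + 1)} = 1 := le_antisymm prob_le_one h2
    exact (prob_compl_eq_zero_iff hms).2 h3
  have h2 : ∀ᵐ x ∂μ, x ^ 2 = (0 : ℝ) := by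
    rw [← ae_all_iff] at h1
    filter_upwards [h1] with x hx
    have h3 : |x| ≤ 0 := by
      apply ge_of_tendsto' (tendsto_one_div_add_atTop_nhds_zero_nat (𝕜 := ℝ))
      exact fun n => (hx n).le
    have h4 : x = 0 := abs_nonpos_iff.1 h3
    simp [h4]
  have h3 : ∫ x, x ^ 2 ∂μ = 0 := by
    rw [integral_congr_ae h2]; simp
  rw [hμ.var] at h3
  exact one_ne_zero h3

noncomputable def j11240_u (δ : ℝ) (x : ℝ) : ℝ≥0∞ := {x : ℝ | |x| < δ}.indicator (fun _ => 1) x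

noncomputable def j11240_W (δ : ℝ) (k : ℕ) (w : ℕ → ℝ) : ℝ≥0∞ :=
  ∏ i ∈ Finset.Ico 1 (k + 1), j11240_u δ (w i)

theorem j11240_meas_u (δ : ℝ) : Measurable (j11240_u δ) :=
  measurable_const.indicator (measurableSet_lt measurable_norm measurable_const)

theorem j11240_meas_W (δ : ℝ) (k : ℕ) : Measurable (j11240_W δ k) := by
  unfold j11240_W
  exact Finset.measurable_prod _ fun i _ => (j11240_meas_u δ).comp (measurable_pi_apply i)

theorem j11240_prod (μ : Measure ℝ) [IsProbabilityMeasure μ] (f : ℕ → ℝ → ℝ≥0∞)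
    (hf : ∀ i, Measurable (f i)) (s : Finset ℕ) :
    ∫⁻ w, ∏ i ∈ s, f i (w i) ∂(PP μ) = ∏ i ∈ s, ∫⁻ x, f i x ∂μ := by
  have h1 := lintegral_prod_eq_prod_lintegral_of_indepFun s (fun i (w : ℕ → ℝ) => f i (w i))
    (iIndepFun_infinitePi (P := fun _ : ℕ => μ) (X := f) hf)
    (fun i => (hf i).comp (measurable_pi_apply i))
  rw [h1]
  apply Finset.prod_congr rfl
  intro i _
  exact (measurePreserving_eval_infinitePi (fun _ : ℕ => μ) i).lintegral_comp (hf i)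

theorem j11240_int_u (μ : Measure ℝ) (δ : ℝ) : ∫⁻ x, j11240_u δ x ∂μ = μ {x | |x| < δ} := by
  unfold j11240_u
  have hms : MeasurableSet {x : ℝ | |x| < δ} := measurableSet_lt measurable_norm measurable_const
  rw [lintegral_indicator hms]
  simp

theorem j11240_int_W (μ : Measure ℝ) [IsProbabilityMeasure μ] (δ : ℝ) (k : ℕ) :
    ∫⁻ w, j11240_W δ k w ∂(PP μ) = (μ {x | |x| < δ}) ^ k := by
  unfold j11240_W
  rw [j11240_prod μ (fun _ => j11240_u δ) (fun _ => j11240_meas_u δ)]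
  simp only [j11240_int_u, Finset.prod_const, Nat.card_Ico, Nat.add_sub_cancel]

theorem j11240_int_Wv (μ : Measure ℝ) [IsProbabilityMeasure μ] (δ : ℝ) (k j : ℕ) (hj : k + 1 ≤ j) :
    ∫⁻ w, j11240_W δ k w * ENNReal.ofReal |w j| ∂(PP μ) =
      (μ {x | |x| < δ}) ^ k * ∫⁻ x, ENNReal.ofReal |x| ∂μ := by
  have hnot : j ∉ Finset.Ico 1 (k + 1) := by
    rw [Finset.mem_Ico]; omega
  have hm : ∀ i, Measurable ((fun i => if i = j then (fun x : ℝ => ENNReal.ofReal |x|) else j11240_u δ) i) := by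
    intro i
    dsimp only
    split_ifs
    · exact ENNReal.measurable_ofReal.comp measurable_norm
    · exact j11240_meas_u δ
  have h1 := j11240_prod μ (fun i => if i = j then (fun x : ℝ => ENNReal.ofReal |x|) else j11240_u δ)
    hm (insert j (Finset.Ico 1 (k + 1)))
  simp only [Finset.prod_insert hnot, if_true] at h1
  have h2 : ∀ w : ℕ → ℝ, ∏ i ∈ Finset.Ico 1 (k + 1),
      (if i = j then (fun x : ℝ => ENNReal.ofReal |x|) else j11240_u δ) (w i) = j11240_W δ k w := by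
    intro w
    unfold j11240_W
    apply Finset.prod_congr rfl
    intro i hi
    have : i ≠ j := fun h => hnot (h ▸ hi)
    simp [this]
  have h3 : ∏ i ∈ Finset.Ico 1 (k + 1), ∫⁻ x,
      (if i = j then (fun x : ℝ => ENNReal.ofReal |x|) else j11240_u δ) x ∂μ =
      (μ {x | |x| < δ}) ^ k := by
    have : ∀ i ∈ Finset.Ico 1 (k + 1), ∫⁻ x,
      (if i = j then (fun x : ℝ => ENNReal.ofReal |x|) else j11240_u δ) x ∂μ = μ {x | |x| < δ} := by
      intro i hi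
      have : i ≠ j := fun h => hnot (h ▸ hi)
      simp only [this, if_false]
      exact j11240_int_u μ δ
    rw [Finset.prod_congr rfl this, Finset.prod_const, Nat.card_Ico, Nat.add_sub_cancel]
  simp only [h2] at h1
  rw [h3] at h1
  rw [mul_comm ((μ {x | |x| < δ}) ^ k), ← h1]
  apply lintegral_congr
  intro w
  exact mul_comm _ _

theorem j11240_abs (μ : Measure ℝ) (hμ : Std μ) : ∫⁻ x, ENNReal.ofReal |x| ∂μ ≤ 1 := by
  have := hμ.prob
  have h1 : ∫⁻ x, ENNReal.ofReal |x| ∂μ ≤ ∫⁻ x, ENNReal.ofReal ((1 + x ^ 2) / 2) ∂μ := by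
    apply lintegral_mono
    intro x
    apply ENNReal.ofReal_le_ofReal
    have h2 : |x| ^ 2 = x ^ 2 := sq_abs x
    nlinarith [sq_nonneg (|x| - 1)]
  have hi : Integrable (fun x : ℝ => (1 + x ^ 2) / 2) μ :=
    ((integrable_const (1 : ℝ)).add hμ.int2).div_const 2
  rw [← ofReal_integral_eq_lintegral_ofReal hi (Filter.Eventually.of_forall fun x => by positivity)] at h1
  have h3 : ∫ x, (1 + x ^ 2) / 2 ∂μ = 1 := by
    rw [integral_div, integral_add (integrable_const _) hμ.int2, hμ.var]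
    simp
  rw [h3] at h1
  simpa using h1

/-! deterministic part -/

theorem j11240_kac_coeff (n : ℕ) (w : ℕ → ℝ) (j : ℕ) :
    (kac n w).coeff j = if j ≤ n then w j else 0 := by
  unfold kac
  rw [Polynomial.finsetSum_coeff]
  simp only [Polynomial.coeff_C_mul, Polynomial.coeff_X_pow, mul_ite, mul_one, mul_zero]
  rw [Finset.sum_ite_eq]
  simp only [Finset.mem_range, Nat.lt_succ_iff]

theorem j11240_kac_deg (n : ℕ) (w : ℕ → ℝ) : (kac n w).natDegree ≤ n := by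
  rw [Polynomial.natDegree_le_iff_coeff_eq_zero]
  intro N hN
  rw [j11240_kac_coeff, if_neg (by omega)]

theorem j11240_rolle (hR : NzRolle) (p : Polynomial ℝ) (S : Set ℝ) (hS : S.OrdConnected) (k : ℕ) :
    nz p.derivative S ≤ k + nz (Polynomial.derivative^[k + 1] p) S := by
  induction k with
  | zero => simp
  | succ k ih =>
    have h1 := hR (Polynomial.derivative^[k + 1] p) S hS
    have h2 : Polynomial.derivative^[k + 1 + 1] p =
      Polynomial.derivative (Polynomial.derivative^[k + 1] p) := Function.iterate_succ_apply' _ _ _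
    rw [h2]
    omega

noncomputable def j11240_M (n k : ℕ) (R : ℝ) (w : ℕ → ℝ) : ℝ :=
  ∑ l ∈ Finset.range (n - k), ((l + (k + 1)).choose (k + 1) : ℝ) * R ^ l * |w (l + (k + 1))|

theorem j11240_det1 (hJ : JensenPoly) (n k : ℕ) (hk : k < n) (r R : ℝ) (hr : 0 < r) (hrR : r < R)
    (w : ℕ → ℝ) (δ : ℝ) (hδ : 0 < δ) (hw : δ ≤ |w (k + 1)|) :
    δ * (R / r) ^ (nz (Polynomial.derivative^[k + 1] (kac n w)) (Icc (-r) r)) ≤ j11240_M n k R w := by
  have hR0 : 0 < R := lt_trans hr hrR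
  obtain ⟨f, hf⟩ : ∃ f, f = Polynomial.derivative^[k + 1] (kac n w) := ⟨_, rfl⟩
  rw [← hf]
  have hcoef : ∀ l, f.coeff l = ((l + (k + 1)).descFactorial (k + 1) : ℝ) *
      (if l + (k + 1) ≤ n then w (l + (k + 1)) else 0) := by
    intro l
    rw [hf, Polynomial.coeff_iterate_derivative, j11240_kac_coeff, nsmul_eq_mul]
  have h0 : |f.eval 0| = ((k + 1).factorial : ℝ) * |w (k + 1)| := by
    rw [← Polynomial.coeff_zero_eq_eval_zero, hcoef 0]
    simp only [zero_add]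
    rw [if_pos (by omega), Nat.descFactorial_self, abs_mul, abs_of_nonneg (Nat.cast_nonneg _)]
  have hdeg : f.natDegree + 1 ≤ n - k := by
    have h1 := Polynomial.natDegree_iterate_derivative (kac n w) (k + 1)
    rw [← hf] at h1
    have h2 := j11240_kac_deg n w
    omega
  have hJ' := hJ f 0 r R hr hrR (nz f (Icc (-r) r)) (by rw [zero_sub, zero_add])
  have hsum : ∑ j ∈ Finset.range (f.natDegree + 1), |f.coeff j| * (|(0 : ℝ)| + R) ^ j ≤
      ((k + 1).factorial : ℝ) * j11240_M n k R w := by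
    calc ∑ j ∈ Finset.range (f.natDegree + 1), |f.coeff j| * (|(0 : ℝ)| + R) ^ j
        ≤ ∑ j ∈ Finset.range (n - k), |f.coeff j| * (|(0 : ℝ)| + R) ^ j := by
          apply Finset.sum_le_sum_of_subset_of_nonneg
          · exact Finset.range_mono hdeg
          · intro i _ _
            positivity
      _ = ((k + 1).factorial : ℝ) * j11240_M n k R w := by
          unfold j11240_M
          rw [Finset.mul_sum]
          apply Finset.sum_congr rfl
          intro l hl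
          rw [Finset.mem_range] at hl
          rw [hcoef l, if_pos (by omega), Nat.descFactorial_eq_factorial_mul_choose, abs_mul,
            abs_of_nonneg (Nat.cast_nonneg _), abs_zero, zero_add]
          push_cast
          ring
  obtain ⟨N, hN⟩ : ∃ N, N = nz f (Icc (-r) r) := ⟨_, rfl⟩
  rw [← hN] at hJ' ⊢
  rw [h0] at hJ'
  have hfac : (0 : ℝ) < ((k + 1).factorial : ℝ) := by exact_mod_cast Nat.factorial_pos _
  have hq : 0 < (r / R) ^ N := by positivity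
  have e1 : ((k + 1).factorial : ℝ) * δ ≤
      ((k + 1).factorial : ℝ) * ((r / R) ^ N * j11240_M n k R w) := by
    calc ((k + 1).factorial : ℝ) * δ ≤ ((k + 1).factorial : ℝ) * |w (k + 1)| :=
          mul_le_mul_of_nonneg_left hw hfac.le
      _ ≤ _ := hJ'
      _ ≤ (r / R) ^ N * (((k + 1).factorial : ℝ) * j11240_M n k R w) :=
          mul_le_mul_of_nonneg_left hsum hq.le
      _ = _ := by ring
  have e2 : δ ≤ (r / R) ^ N * j11240_M n k R w := le_of_mul_le_mul_left e1 hfac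
  calc δ * (R / r) ^ N ≤ ((r / R) ^ N * j11240_M n k R w) * (R / r) ^ N :=
        mul_le_mul_of_nonneg_right e2 (by positivity)
    _ = ((r / R) * (R / r)) ^ N * j11240_M n k R w := by rw [mul_pow]; ring
    _ = j11240_M n k R w := by
        have : (r / R) * (R / r) = 1 := by field_simp
        rw [this, one_pow, one_mul]

theorem j11240_pow8 (t : ℝ) (ht : 0 ≤ t) : t ^ 8 ≤ 40320 * Real.exp t := by
  have h := Real.pow_div_factorial_le_exp t ht 8
  have h8 : ((Nat.factorial 8 : ℕ) : ℝ) = 40320 := by norm_num [Nat.factorial]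
  rw [h8, div_le_iff₀ (by norm_num)] at h
  linarith

theorem j11240_logpow (y b : ℝ) (hy : 1 ≤ y) (hb : 1 ≤ b) :
    (Real.log y) ^ 8 ≤ 2 ^ 7 * ((Real.log b) ^ 8 + 40320 * (y / b)) := by
  have hb0 : 0 < b := by linarith
  have hy0 : 0 < y := by linarith
  have hlb : 0 ≤ Real.log b := Real.log_nonneg hb
  have hly : 0 ≤ Real.log y := Real.log_nonneg hy
  rcases le_or_gt y b with h | h
  · have h1 : Real.log y ≤ Real.log b := Real.log_le_log hy0 h
    have h2 : (Real.log y) ^ 8 ≤ (Real.log b) ^ 8 := pow_le_pow_left₀ hly h1 8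
    have h3 : 0 ≤ y / b := by positivity
    have h4 : 0 ≤ (Real.log b) ^ 8 := by positivity
    nlinarith
  · have ht : 0 ≤ Real.log (y / b) := Real.log_nonneg (by rw [le_div_iff₀ hb0]; linarith)
    have h1 : Real.log y = Real.log b + Real.log (y / b) := by
      rw [Real.log_div hy0.ne' hb0.ne']; ring
    have h2 := j11240_pow8 _ ht
    rw [Real.exp_log (by positivity)] at h2
    have h3 := add_pow_le hlb ht 8
    rw [h1]
    norm_num at h3 ⊢
    nlinarith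

theorem j11240_ratio (m : ℝ) (hm : 1 ≤ m) :
    1 / (8 * m) ≤ Real.log ((1 - 1 / (4 * m)) / (1 - 1 / (2 * m))) := by
  have h1 : 0 < 1 - 1 / (2 * m) := by
    rw [sub_pos, div_lt_one (by positivity)]; linarith
  have h2 : 0 < 1 - 1 / (4 * m) := by
    rw [sub_pos, div_lt_one (by positivity)]; linarith
  have h3 := Real.one_sub_inv_le_log_of_pos (x := (1 - 1 / (4 * m)) / (1 - 1 / (2 * m))) (by positivity)
  refine le_trans ?_ h3
  rw [inv_div]
  have h4 : 1 - (1 - 1 / (2 * m)) / (1 - 1 / (4 * m)) = (1 / (4 * m)) / (1 - 1 / (4 * m)) := by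
    rw [eq_div_iff h2.ne', sub_mul, div_mul_cancel₀ _ h2.ne']
    field_simp
    ring
  rw [h4, div_le_div_iff₀ (by positivity) h2]
  have h5 : 0 < 1 / (4 * m) := by positivity
  have h6 : 1 / (4 * m) * (8 * m) = 2 := by field_simp; norm_num
  nlinarith

/-- deterministic bound for the eighth power -/
theorem j11240_det2 (hJ : JensenPoly) (hR : NzRolle) (n k m : ℕ) (hk : k < n) (hm : 1 ≤ m)
    (w : ℕ → ℝ) (δ : ℝ) (hδ : 0 < δ) (hδ1 : δ ≤ 1) (hw : δ ≤ |w (k + 1)|) :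
    (nz (kac n w).derivative (Icc (-(1 - 1 / (2 * (m : ℝ)))) (1 - 1 / (2 * (m : ℝ)))) : ℝ) ^ 8 ≤
      ((k : ℝ) + 2) ^ 8 * ((2 ^ 7 + 2 ^ 14 * 8 ^ 8 * 40320 * (4 / δ)) * (m : ℝ) ^ 9) +
      (2 ^ 14 * 8 ^ 8 * 40320) * (m : ℝ) ^ 9 / (4 * (m : ℝ)) ^ (k + 2) *
        j11240_M n k (1 - 1 / (4 * (m : ℝ))) w := by
  have hm' : (1 : ℝ) ≤ m := by exact_mod_cast hm
  have h1 : 0 < 1 - 1 / (2 * (m : ℝ)) := by
    rw [sub_pos, div_lt_one (by positivity)]; linarith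
  have h2 : 1 - 1 / (2 * (m : ℝ)) < 1 - 1 / (4 * (m : ℝ)) := by
    have : 1 / (4 * (m : ℝ)) < 1 / (2 * (m : ℝ)) := by
      apply one_div_lt_one_div_of_lt (by positivity); linarith
    linarith
  have hd := j11240_det1 hJ n k hk _ _ h1 h2 w δ hδ hw
  have hrl := j11240_rolle hR (kac n w) (Icc (-(1 - 1 / (2 * (m : ℝ)))) (1 - 1 / (2 * (m : ℝ))))
    ordConnected_Icc k
  obtain ⟨N, hN⟩ : ∃ N, N = nz (Polynomial.derivative^[k + 1] (kac n w))
    (Icc (-(1 - 1 / (2 * (m : ℝ)))) (1 - 1 / (2 * (m : ℝ)))) := ⟨_, rfl⟩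
  obtain ⟨N', hN'⟩ : ∃ N', N' = nz (kac n w).derivative
    (Icc (-(1 - 1 / (2 * (m : ℝ)))) (1 - 1 / (2 * (m : ℝ)))) := ⟨_, rfl⟩
  rw [← hN] at hd hrl
  rw [← hN'] at hrl ⊢
  obtain ⟨M, hM⟩ : ∃ M, M = j11240_M n k (1 - 1 / (4 * (m : ℝ))) w := ⟨_, rfl⟩
  rw [← hM] at hd ⊢
  obtain ⟨ρ, hρ⟩ : ∃ ρ, ρ = (1 - 1 / (4 * (m : ℝ))) / (1 - 1 / (2 * (m : ℝ))) := ⟨_, rfl⟩
  have hlog := j11240_ratio (m : ℝ) hm'
  rw [← hρ] at hd hlog
  have hρ1 : 1 < ρ := by rw [hρ, lt_div_iff₀ h1]; linarith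
  have hy : ρ ^ N ≤ M / δ := by
    rw [le_div_iff₀ hδ]; linarith
  have hy1 : 1 ≤ M / δ := le_trans (one_le_pow₀ hρ1.le) hy
  have hNlog : (N : ℝ) ≤ 8 * m * Real.log (M / δ) := by
    have e1 : Real.log (ρ ^ N) ≤ Real.log (M / δ) := Real.log_le_log (by positivity) hy
    rw [Real.log_pow] at e1
    have e2 : (N : ℝ) * (1 / (8 * m)) ≤ N * Real.log ρ :=
      mul_le_mul_of_nonneg_left hlog (Nat.cast_nonneg _)
    have e3 : (N : ℝ) * (1 / (8 * m)) ≤ Real.log (M / δ) := le_trans e2 e1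
    calc (N : ℝ) = 8 * m * (N * (1 / (8 * m))) := by field_simp
      _ ≤ 8 * m * Real.log (M / δ) := mul_le_mul_of_nonneg_left e3 (by positivity)
  have hb : 1 ≤ (4 * (m : ℝ)) ^ (k + 2) / δ := by
    rw [le_div_iff₀ hδ, one_mul]
    exact le_trans hδ1 (one_le_pow₀ (by linarith))
  have hlp := j11240_logpow _ _ hy1 hb
  have hlogb : Real.log ((4 * (m : ℝ)) ^ (k + 2) / δ) ≤ ((k : ℝ) + 2) * Real.log (4 * m / δ) := by
    rw [Real.log_div (by positivity) hδ.ne', Real.log_pow, Real.log_div (by positivity) hδ.ne']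
    have e1 : Real.log δ ≤ 0 := Real.log_nonpos hδ.le hδ1
    have e2 : (0 : ℝ) ≤ k := Nat.cast_nonneg k
    push_cast
    nlinarith
  have hlogb0 : 0 ≤ Real.log ((4 * (m : ℝ)) ^ (k + 2) / δ) := Real.log_nonneg hb
  have hm4 : 1 ≤ 4 * (m : ℝ) / δ := by
    rw [le_div_iff₀ hδ]; linarith
  have hlog4 := j11240_pow8 _ (Real.log_nonneg hm4)
  rw [Real.exp_log (by positivity)] at hlog4
  have hlogb8 : (Real.log ((4 * (m : ℝ)) ^ (k + 2) / δ)) ^ 8 ≤
      ((k : ℝ) + 2) ^ 8 * (40320 * (4 * m / δ)) := by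
    calc _ ≤ (((k : ℝ) + 2) * Real.log (4 * m / δ)) ^ 8 := pow_le_pow_left₀ hlogb0 hlogb 8
      _ = ((k : ℝ) + 2) ^ 8 * (Real.log (4 * m / δ)) ^ 8 := by rw [mul_pow]
      _ ≤ _ := mul_le_mul_of_nonneg_left hlog4 (by positivity)
  have hratio : M / δ / ((4 * (m : ℝ)) ^ (k + 2) / δ) = M / (4 * (m : ℝ)) ^ (k + 2) := by
    field_simp
  rw [hratio] at hlp
  have hM0 : 0 ≤ M / (4 * (m : ℝ)) ^ (k + 2) := by
    have : 0 ≤ M := by
      have := le_trans zero_le_one hy1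
      rw [le_div_iff₀ hδ] at this
      linarith
    positivity
  have hN8 : (N : ℝ) ^ 8 ≤ (8 * m) ^ 8 * (2 ^ 7 * (((k : ℝ) + 2) ^ 8 * (40320 * (4 * m / δ)) +
      40320 * (M / (4 * (m : ℝ)) ^ (k + 2)))) := by
    calc (N : ℝ) ^ 8 ≤ (8 * m * Real.log (M / δ)) ^ 8 := pow_le_pow_left₀ (Nat.cast_nonneg _) hNlog 8
      _ = (8 * m) ^ 8 * (Real.log (M / δ)) ^ 8 := by rw [mul_pow]
      _ ≤ (8 * m) ^ 8 * (2 ^ 7 * (((k : ℝ) + 2) ^ 8 * (40320 * (4 * m / δ)) +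
      40320 * (M / (4 * (m : ℝ)) ^ (k + 2)))) := by
        apply mul_le_mul_of_nonneg_left _ (by positivity)
        refine le_trans hlp ?_
        gcongr
  have hN'8 : (N' : ℝ) ^ 8 ≤ 2 ^ 7 * ((k : ℝ) ^ 8 + (N : ℝ) ^ 8) := by
    have e1 : (N' : ℝ) ≤ (k : ℝ) + N := by exact_mod_cast hrl
    have e2 := pow_le_pow_left₀ (Nat.cast_nonneg N') e1 8
    have e3 := add_pow_le (Nat.cast_nonneg (α := ℝ) k) (Nat.cast_nonneg (α := ℝ) N) 8
    norm_num at e3 ⊢
    linarith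
  have hk8 : (k : ℝ) ^ 8 ≤ ((k : ℝ) + 2) ^ 8 * (m : ℝ) ^ 9 := by
    have e1 : (k : ℝ) ^ 8 ≤ ((k : ℝ) + 2) ^ 8 := pow_le_pow_left₀ (Nat.cast_nonneg k) (by linarith) 8
    have e2 : (1 : ℝ) ≤ (m : ℝ) ^ 9 := one_le_pow₀ hm'
    have e3 : (0 : ℝ) ≤ ((k : ℝ) + 2) ^ 8 := by positivity
    nlinarith
  have hm89 : (m : ℝ) ^ 8 * (M / (4 * (m : ℝ)) ^ (k + 2)) ≤
      (m : ℝ) ^ 9 * (M / (4 * (m : ℝ)) ^ (k + 2)) := by
    apply mul_le_mul_of_nonneg_right _ hM0
    exact pow_le_pow_right₀ hm' (by norm_num)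
  calc (N' : ℝ) ^ 8 ≤ 2 ^ 7 * ((k : ℝ) ^ 8 + (N : ℝ) ^ 8) := hN'8
    _ ≤ 2 ^ 7 * (((k : ℝ) + 2) ^ 8 * (m : ℝ) ^ 9 +
        (8 * m) ^ 8 * (2 ^ 7 * (((k : ℝ) + 2) ^ 8 * (40320 * (4 * m / δ)) +
      40320 * (M / (4 * (m : ℝ)) ^ (k + 2))))) := by
        apply mul_le_mul_of_nonneg_left _ (by norm_num)
        exact add_le_add hk8 hN8
    _ = ((k : ℝ) + 2) ^ 8 * ((2 ^ 7 + 2 ^ 14 * 8 ^ 8 * 40320 * (4 / δ)) * (m : ℝ) ^ 9) +
        (2 ^ 14 * 8 ^ 8 * 40320) * ((m : ℝ) ^ 8 * (M / (4 * (m : ℝ)) ^ (k + 2))) := by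
        rw [mul_pow]
        ring
    _ ≤ ((k : ℝ) + 2) ^ 8 * ((2 ^ 7 + 2 ^ 14 * 8 ^ 8 * 40320 * (4 / δ)) * (m : ℝ) ^ 9) +
        (2 ^ 14 * 8 ^ 8 * 40320) * ((m : ℝ) ^ 9 * (M / (4 * (m : ℝ)) ^ (k + 2))) := by
        apply add_le_add le_rfl
        exact mul_le_mul_of_nonneg_left hm89 (by norm_num)
    _ = _ := by ring

theorem j11240_nz_le (p : Polynomial ℝ) (S : Set ℝ) : nz p S ≤ p.natDegree := by
  unfold nz
  by_cases hp : p = 0
  · simp [hp]
  have hsub : {x : ℝ | x ∈ S ∧ p ≠ 0 ∧ p.eval x = 0} ⊆ (p.roots.toFinset : Set ℝ) := by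
    intro x hx
    rw [Finset.mem_coe, Multiset.mem_toFinset, Polynomial.mem_roots hp]
    exact hx.2.2
  calc _ ≤ (p.roots.toFinset : Set ℝ).ncard := Set.ncard_le_ncard hsub (Finset.finite_toSet _)
    _ = p.roots.toFinset.card := Set.ncard_coe_finset _
    _ ≤ p.roots.card := Multiset.toFinset_card_le _
    _ ≤ p.natDegree := Polynomial.card_roots' p

theorem j11240_W_one (δ : ℝ) (k : ℕ) (w : ℕ → ℝ) (h : ∀ i, 1 ≤ i → i ≤ k → |w i| < δ) :
    j11240_W δ k w = 1 := by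
  unfold j11240_W
  apply Finset.prod_eq_one
  intro i hi
  rw [Finset.mem_Ico] at hi
  unfold j11240_u
  exact indicator_of_mem (show w i ∈ {x : ℝ | |x| < δ} from h i hi.1 (by omega)) _

/-- the pointwise bound -/
theorem j11240_ptw (hJ : JensenPoly) (hR : NzRolle) (n m : ℕ) (hm : 1 ≤ m)
    (w : ℕ → ℝ) (δ : ℝ) (hδ : 0 < δ) (hδ1 : δ ≤ 1) :
    (nz (kac n w).derivative (Icc (-(1 - 1 / (2 * (m : ℝ)))) (1 - 1 / (2 * (m : ℝ)))) : ℝ≥0∞) ^ 8 ≤
      (∑ k ∈ Finset.range n, (j11240_W δ k w *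
        ENNReal.ofReal (((k : ℝ) + 2) ^ 8 * ((2 ^ 7 + 2 ^ 14 * 8 ^ 8 * 40320 * (4 / δ)) * (m : ℝ) ^ 9)) +
      j11240_W δ k w * (ENNReal.ofReal ((2 ^ 14 * 8 ^ 8 * 40320) * (m : ℝ) ^ 9 / (4 * (m : ℝ)) ^ (k + 2)) *
        ENNReal.ofReal (j11240_M n k (1 - 1 / (4 * (m : ℝ))) w)))) +
      j11240_W δ n w * ENNReal.ofReal ((n : ℝ) ^ 8) := by
  have hm' : (1 : ℝ) ≤ m := by exact_mod_cast hm
  have h8 : ∀ N : ℕ, (N : ℝ≥0∞) ^ 8 = ENNReal.ofReal ((N : ℝ) ^ 8) := by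
    intro N
    rw [ENNReal.ofReal_pow (Nat.cast_nonneg _), ENNReal.ofReal_natCast]
  have hR0 : 0 ≤ 1 - 1 / (4 * (m : ℝ)) := by
    rw [sub_nonneg, div_le_one (by positivity)]; linarith
  by_cases hex : ∃ k, k < n ∧ δ ≤ |w (k + 1)|
  · classical
    have hk := Nat.find_spec hex
    have hmin : ∀ j, j < Nat.find hex → ¬ (j < n ∧ δ ≤ |w (j + 1)|) := fun j hj => Nat.find_min hex hj
    obtain ⟨k, hkeq⟩ : ∃ k, k = Nat.find hex := ⟨_, rfl⟩
    rw [← hkeq] at hk hmin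
    have hW : j11240_W δ k w = 1 := by
      apply j11240_W_one
      intro i hi1 hi2
      by_contra hc
      apply hmin (i - 1) (by omega)
      refine ⟨by omega, ?_⟩
      rw [Nat.sub_add_cancel hi1]
      exact not_lt.1 hc
    have hd := j11240_det2 hJ hR n k m hk.1 hm w δ hδ hδ1 hk.2
    rw [h8]
    refine le_trans (ENNReal.ofReal_le_ofReal hd) ?_
    have hMnn : 0 ≤ j11240_M n k (1 - 1 / (4 * (m : ℝ))) w := by
      unfold j11240_M
      apply Finset.sum_nonneg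
      intro l _
      have := pow_nonneg hR0 l
      positivity
    rw [ENNReal.ofReal_add (by positivity) (by positivity),
      ENNReal.ofReal_mul (p := (2 ^ 14 * 8 ^ 8 * 40320) * (m : ℝ) ^ 9 / (4 * (m : ℝ)) ^ (k + 2))
        (by positivity)]
    refine le_trans ?_ (self_le_add_right _ _)
    refine le_trans ?_ (Finset.single_le_sum (fun i _ => zero_le) (Finset.mem_range.2 hk.1))
    rw [hW, one_mul, one_mul]
  · push Not at hex
    have hW : j11240_W δ n w = 1 := by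
      apply j11240_W_one
      intro i hi1 hi2
      have := hex (i - 1) (by omega)
      rwa [Nat.sub_add_cancel hi1] at this
    refine le_trans ?_ (self_le_add_left _ _)
    rw [hW, one_mul, h8]
    apply ENNReal.ofReal_le_ofReal
    apply pow_le_pow_left₀ (Nat.cast_nonneg _)
    have h1 := j11240_nz_le (kac n w).derivative
      (Icc (-(1 - 1 / (2 * (m : ℝ)))) (1 - 1 / (2 * (m : ℝ))))
    have h2 := Polynomial.natDegree_derivative_le (kac n w)
    have h3 := j11240_kac_deg n w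
    exact_mod_cast (by omega : nz (kac n w).derivative
      (Icc (-(1 - 1 / (2 * (m : ℝ)))) (1 - 1 / (2 * (m : ℝ)))) ≤ n)

theorem j11240_geom (m k L : ℕ) (hm : 1 ≤ m) :
    ∑ l ∈ Finset.range L, ((l + (k + 1)).choose (k + 1) : ℝ) * (1 - 1 / (4 * (m : ℝ))) ^ l ≤
      (4 * (m : ℝ)) ^ (k + 2) := by
  have hm' : (1 : ℝ) ≤ m := by exact_mod_cast hm
  have hR0 : 0 ≤ 1 - 1 / (4 * (m : ℝ)) := by
    rw [sub_nonneg, div_le_one (by positivity)]; linarith
  have hR1 : ‖1 - 1 / (4 * (m : ℝ))‖ < 1 := by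
    rw [Real.norm_eq_abs, abs_of_nonneg hR0]
    have : 0 < 1 / (4 * (m : ℝ)) := by positivity
    linarith
  have h1 := hasSum_choose_mul_geometric_of_norm_lt_one (k + 1) hR1
  have h2 := sum_le_hasSum (Finset.range L) (fun l _ => by
    have := pow_nonneg hR0 l
    positivity) h1
  refine le_trans h2 (le_of_eq ?_)
  have h3 : 1 - (1 - 1 / (4 * (m : ℝ))) = (4 * (m : ℝ))⁻¹ := by
    rw [one_div]; ring
  rw [h3, inv_pow, one_div, inv_inv]

/-- the integral of `W_k M_k` -/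
theorem j11240_int_WM (μ : Measure ℝ) (hμ : Std μ) (δ : ℝ) (n k m : ℕ) (hm : 1 ≤ m) :
    ∫⁻ w, j11240_W δ k w * ENNReal.ofReal (j11240_M n k (1 - 1 / (4 * (m : ℝ))) w) ∂(PP μ) ≤
      (μ {x | |x| < δ}) ^ k * ENNReal.ofReal ((4 * (m : ℝ)) ^ (k + 2)) := by
  have := hμ.prob
  have hm' : (1 : ℝ) ≤ m := by exact_mod_cast hm
  have hR0 : 0 ≤ 1 - 1 / (4 * (m : ℝ)) := by
    rw [sub_nonneg, div_le_one (by positivity)]; linarith
  have h1 : ∀ w : ℕ → ℝ, j11240_W δ k w * ENNReal.ofReal (j11240_M n k (1 - 1 / (4 * (m : ℝ))) w) =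
      ∑ l ∈ Finset.range (n - k), ENNReal.ofReal (((l + (k + 1)).choose (k + 1) : ℝ) *
        (1 - 1 / (4 * (m : ℝ))) ^ l) * (j11240_W δ k w * ENNReal.ofReal |w (l + (k + 1))|) := by
    intro w
    unfold j11240_M
    rw [ENNReal.ofReal_sum_of_nonneg (fun l _ => by
      have := pow_nonneg hR0 l
      positivity), Finset.mul_sum]
    apply Finset.sum_congr rfl
    intro l _
    rw [ENNReal.ofReal_mul (by have := pow_nonneg hR0 l; positivity)]
    ring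
  simp_rw [h1]
  have hmm : ∀ l ∈ Finset.range (n - k), Measurable (fun w : ℕ → ℝ =>
      ENNReal.ofReal (((l + (k + 1)).choose (k + 1) : ℝ) *
        (1 - 1 / (4 * (m : ℝ))) ^ l) * (j11240_W δ k w * ENNReal.ofReal |w (l + (k + 1))|)) :=
    fun l _ => Measurable.const_mul
    ((j11240_meas_W δ k).mul (ENNReal.measurable_ofReal.comp
      (measurable_norm.comp (measurable_pi_apply (l + (k + 1)))))) _
  rw [lintegral_finsetSum _ hmm]
  calc _ = ∑ l ∈ Finset.range (n - k), ENNReal.ofReal (((l + (k + 1)).choose (k + 1) : ℝ) *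
        (1 - 1 / (4 * (m : ℝ))) ^ l) * ((μ {x | |x| < δ}) ^ k * ∫⁻ x, ENNReal.ofReal |x| ∂μ) := by
        apply Finset.sum_congr rfl
        intro l _
        rw [lintegral_const_mul' _ _ ENNReal.ofReal_ne_top, j11240_int_Wv μ δ k _ (by omega)]
    _ ≤ ∑ l ∈ Finset.range (n - k), ENNReal.ofReal (((l + (k + 1)).choose (k + 1) : ℝ) *
        (1 - 1 / (4 * (m : ℝ))) ^ l) * ((μ {x | |x| < δ}) ^ k * 1) := by
        apply Finset.sum_le_sum
        intro l _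
        gcongr
        exact j11240_abs μ hμ
    _ = (μ {x | |x| < δ}) ^ k * ENNReal.ofReal (∑ l ∈ Finset.range (n - k),
          ((l + (k + 1)).choose (k + 1) : ℝ) * (1 - 1 / (4 * (m : ℝ))) ^ l) := by
        rw [ENNReal.ofReal_sum_of_nonneg (fun l _ => by
          have := pow_nonneg hR0 l
          positivity), Finset.mul_sum]
        apply Finset.sum_congr rfl
        intro l _
        ring
    _ ≤ _ := by
        gcongr
        exact j11240_geom m k (n - k) hm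

theorem crude_of (hJ : JensenPoly) (hR : NzRolle) (μ : Measure ℝ) (hμ : Std μ) : Crude μ := by
  have := hμ.prob
  obtain ⟨δ, hδ, hδ1, hq1⟩ := j11240_delta μ hμ
  obtain ⟨q, hq⟩ : ∃ q : ℝ, q = (μ {x | |x| < δ}).toReal := ⟨_, rfl⟩
  have hqE : μ {x | |x| < δ} = ENNReal.ofReal q := by
    rw [hq, ENNReal.ofReal_toReal (measure_ne_top _ _)]
  have hq0 : 0 ≤ q := by rw [hq]; exact ENNReal.toReal_nonneg
  have hq1' : q < 1 := by
    rw [hqE] at hq1
    rw [← ENNReal.ofReal_one] at hq1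
    exact (ENNReal.ofReal_lt_ofReal_iff one_pos).1 hq1
  -- summability
  have hsum0 : Summable (fun k : ℕ => ((k : ℝ)) ^ 8 * q ^ k) :=
    summable_pow_mul_geometric_of_norm_lt_one 8 (by rw [Real.norm_eq_abs, abs_of_nonneg hq0]; exact hq1')
  have hsum : Summable (fun k : ℕ => ((k : ℝ) + 2) ^ 8 * q ^ k) := by
    have h1 : Summable (fun k : ℕ => 2 ^ 7 * ((k : ℝ) ^ 8 * q ^ k) + 2 ^ 15 * q ^ k) :=
      (hsum0.mul_left _).add ((summable_geometric_of_lt_one hq0 hq1').mul_left _)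
    refine Summable.of_nonneg_of_le (fun k => by positivity) (fun k => ?_) h1
    have h2 := add_pow_le (Nat.cast_nonneg (α := ℝ) k) (by norm_num : (0 : ℝ) ≤ 2) 8
    have h3 : 0 ≤ q ^ k := by positivity
    norm_num at h2 ⊢
    nlinarith
  obtain ⟨K1, hK1⟩ : ∃ K : ℝ, K = 2 ^ 7 + 2 ^ 14 * 8 ^ 8 * 40320 * (4 / δ) := ⟨_, rfl⟩
  obtain ⟨K2, hK2⟩ : ∃ K : ℝ, K = 2 ^ 14 * 8 ^ 8 * 40320 := ⟨_, rfl⟩
  have hK1p : 1 ≤ K1 := by
    rw [hK1]
    have : 0 < 4 / δ := by positivity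
    nlinarith
  have hK2p : 0 < K2 := by rw [hK2]; norm_num
  refine ⟨(K1 + K2) * (∑' k : ℕ, ((k : ℝ) + 2) ^ 8 * q ^ k) + 1, ?_, ?_⟩
  · have : 0 ≤ ∑' k : ℕ, ((k : ℝ) + 2) ^ 8 * q ^ k := tsum_nonneg fun k => by positivity
    positivity
  intro n m hm
  have hm' : (1 : ℝ) ≤ m := by exact_mod_cast hm
  have hm9 : (1 : ℝ) ≤ (m : ℝ) ^ 9 := one_le_pow₀ hm'
  refine le_trans (lintegral_mono fun w => j11240_ptw hJ hR n m hm w δ hδ hδ1) ?_
  rw [← hK1, ← hK2]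
  have hmM : ∀ k, Measurable (fun w : ℕ → ℝ => ENNReal.ofReal (j11240_M n k (1 - 1 / (4 * (m : ℝ))) w)) := by
    intro k
    apply ENNReal.measurable_ofReal.comp
    unfold j11240_M
    apply Finset.measurable_sum
    intro l _
    exact (measurable_norm.comp (measurable_pi_apply (l + (k + 1)))).const_mul _
  have hm1 : ∀ k, Measurable (fun w : ℕ → ℝ => j11240_W δ k w *
      ENNReal.ofReal (((k : ℝ) + 2) ^ 8 * (K1 * (m : ℝ) ^ 9))) := fun k =>
    (j11240_meas_W δ k).mul_const _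
  have hm2 : ∀ k, Measurable (fun w : ℕ → ℝ => j11240_W δ k w *
      (ENNReal.ofReal (K2 * (m : ℝ) ^ 9 / (4 * (m : ℝ)) ^ (k + 2)) *
        ENNReal.ofReal (j11240_M n k (1 - 1 / (4 * (m : ℝ))) w))) := fun k =>
    (j11240_meas_W δ k).mul ((hmM k).const_mul _)
  have hm12 : ∀ k ∈ Finset.range n, Measurable (fun w : ℕ → ℝ => j11240_W δ k w *
      ENNReal.ofReal (((k : ℝ) + 2) ^ 8 * (K1 * (m : ℝ) ^ 9)) + j11240_W δ k w *
      (ENNReal.ofReal (K2 * (m : ℝ) ^ 9 / (4 * (m : ℝ)) ^ (k + 2)) *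
        ENNReal.ofReal (j11240_M n k (1 - 1 / (4 * (m : ℝ))) w))) := fun k _ => (hm1 k).add (hm2 k)
  rw [lintegral_add_right _ ((j11240_meas_W δ n).mul_const _),
    lintegral_finsetSum _ hm12,
    lintegral_mul_const' _ _ ENNReal.ofReal_ne_top, j11240_int_W, hqE]
  have hterm : ∀ k ∈ Finset.range n, ∫⁻ w, (j11240_W δ k w *
      ENNReal.ofReal (((k : ℝ) + 2) ^ 8 * (K1 * (m : ℝ) ^ 9)) + j11240_W δ k w *
      (ENNReal.ofReal (K2 * (m : ℝ) ^ 9 / (4 * (m : ℝ)) ^ (k + 2)) *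
        ENNReal.ofReal (j11240_M n k (1 - 1 / (4 * (m : ℝ))) w))) ∂(PP μ) ≤
      ENNReal.ofReal ((((k : ℝ) + 2) ^ 8 * q ^ k) * ((K1 + K2) * (m : ℝ) ^ 9)) := by
    intro k _
    rw [lintegral_add_right _ (hm2 k), lintegral_mul_const' _ _ ENNReal.ofReal_ne_top, j11240_int_W,
      hqE]
    have e1 : ∫⁻ w, j11240_W δ k w *
      (ENNReal.ofReal (K2 * (m : ℝ) ^ 9 / (4 * (m : ℝ)) ^ (k + 2)) *
        ENNReal.ofReal (j11240_M n k (1 - 1 / (4 * (m : ℝ))) w)) ∂(PP μ) ≤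
        ENNReal.ofReal (K2 * (m : ℝ) ^ 9 / (4 * (m : ℝ)) ^ (k + 2)) *
        (ENNReal.ofReal q ^ k * ENNReal.ofReal ((4 * (m : ℝ)) ^ (k + 2))) := by
      have e2 : ∀ w : ℕ → ℝ, j11240_W δ k w *
        (ENNReal.ofReal (K2 * (m : ℝ) ^ 9 / (4 * (m : ℝ)) ^ (k + 2)) *
        ENNReal.ofReal (j11240_M n k (1 - 1 / (4 * (m : ℝ))) w)) =
        ENNReal.ofReal (K2 * (m : ℝ) ^ 9 / (4 * (m : ℝ)) ^ (k + 2)) *
        (j11240_W δ k w * ENNReal.ofReal (j11240_M n k (1 - 1 / (4 * (m : ℝ))) w)) := by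
        intro w; ring
      simp_rw [e2]
      rw [lintegral_const_mul' _ _ ENNReal.ofReal_ne_top]
      gcongr
      have := j11240_int_WM μ hμ δ n k m hm
      rwa [hqE] at this
    refine le_trans (add_le_add le_rfl e1) ?_
    rw [← ENNReal.ofReal_pow hq0, ← ENNReal.ofReal_mul (by positivity),
      ← ENNReal.ofReal_mul (by positivity), ← ENNReal.ofReal_mul (by positivity),
      ← ENNReal.ofReal_add (by positivity) (by positivity)]
    apply ENNReal.ofReal_le_ofReal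
    have e3 : K2 * (m : ℝ) ^ 9 / (4 * (m : ℝ)) ^ (k + 2) * (q ^ k * (4 * (m : ℝ)) ^ (k + 2)) =
        K2 * (m : ℝ) ^ 9 * q ^ k := by
      field_simp
    rw [e3]
    have e4 : (1 : ℝ) ≤ ((k : ℝ) + 2) ^ 8 := one_le_pow₀ (by
      have : (0 : ℝ) ≤ k := Nat.cast_nonneg k
      linarith)
    have e5 : 0 ≤ K2 * (m : ℝ) ^ 9 * q ^ k := by positivity
    nlinarith
  have hlast : ENNReal.ofReal q ^ n * ENNReal.ofReal ((n : ℝ) ^ 8) ≤
      ENNReal.ofReal ((((n : ℝ) + 2) ^ 8 * q ^ n) * ((K1 + K2) * (m : ℝ) ^ 9)) := by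
    rw [← ENNReal.ofReal_pow hq0, ← ENNReal.ofReal_mul (by positivity)]
    apply ENNReal.ofReal_le_ofReal
    have e1 : (n : ℝ) ^ 8 ≤ ((n : ℝ) + 2) ^ 8 := pow_le_pow_left₀ (Nat.cast_nonneg n) (by linarith) 8
    have e2 : 1 ≤ (K1 + K2) * (m : ℝ) ^ 9 := by nlinarith
    have e3 : 0 ≤ q ^ n := by positivity
    calc q ^ n * (n : ℝ) ^ 8 ≤ q ^ n * ((n : ℝ) + 2) ^ 8 := mul_le_mul_of_nonneg_left e1 e3
      _ = (((n : ℝ) + 2) ^ 8 * q ^ n) * 1 := by ring
      _ ≤ _ := mul_le_mul_of_nonneg_left e2 (by positivity)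
  refine le_trans (add_le_add (Finset.sum_le_sum hterm) hlast) ?_
  rw [← Finset.sum_range_succ (fun k : ℕ => ENNReal.ofReal ((((k : ℝ) + 2) ^ 8 * q ^ k) *
    ((K1 + K2) * (m : ℝ) ^ 9))) n, ← ENNReal.ofReal_sum_of_nonneg (fun k _ => by positivity)]
  apply ENNReal.ofReal_le_ofReal
  rw [← Finset.sum_mul]
  have h1 := hsum.sum_le_tsum (Finset.range (n + 1)) (fun k _ => by positivity)
  have h2 : 0 ≤ (K1 + K2) * (m : ℝ) ^ 9 := by positivity
  calc _ ≤ (∑' k : ℕ, ((k : ℝ) + 2) ^ 8 * q ^ k) * ((K1 + K2) * (m : ℝ) ^ 9) :=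
        mul_le_mul_of_nonneg_right h1 h2
    _ ≤ _ := by nlinarith


end P8
end Kac764
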