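import Pool.Agent.Helper764.KacDefs
import Pool.Agent.Helper764.KacJ2
import Pool.Agent.Helper764.KacJ4
import Pool.Agent.Helper764.KacJ6
import Pool.Agent.Helper764.KacP8
import Pool.Agent.Helper764.KacG1
import Pool.Agent.Helper764.KacG2
import Pool.Agent.Helper764.KacG3
import Pool.Agent.Helper764.KacG4

set_option autoImplicit false
set_option maxHeartbeats 4000000
open MeasureTheory ProbabilityTheory Filter Topology Set
open scoped ENNReal NNReal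

namespace Kac764
namespace A1

theorem D0_D1_unif (ω : ℕ → ℝ) (hω : SumOK ω) (r : ℝ) (hr0 : 0 ≤ r) (hr : r < 1) (ε : ℝ) (hε : 0 < ε) :
    ∀ᶠ n : ℕ in atTop, ∀ x : ℝ, |x| ≤ r → |D0 n ω x - F0 ω x| < ε ∧ |D1 n ω x - F1 ω x| < ε :=
  G2.D0_D1_unif ω hω r hr0 hr ε hε

theorem F0_local_zero (ω : ℕ → ℝ) (hω : SumOK ω) (hne : ∃ j, ω j ≠ 0) (z : ℝ) (hz : |z| < 1) :
    AnalyticAt ℝ (F0 ω) z ∧ ¬ ∀ᶠ y in 𝓝 z, F0 ω y = 0 :=
  G2.kg_local_zero ω hω hne z hz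

theorem crude (μ : Measure ℝ) (hμ : Std μ) : Crude μ :=
  P8.crude_of J4.jensen_poly J4.nz_rolle μ hμ

theorem ae_ne_zero_at (μ : Measure ℝ) (hμ : Std μ) (x : ℝ) (hx0 : x ≠ 0) (hx : |x| < 1) :
    ∀ᵐ ω ∂(PP μ), F0 ω x ≠ 0 :=
  G3.ae_ne_zero_at μ hμ (fun A hA h => G1.resample μ hμ A hA h) (G1.ae_sumOK μ hμ) x hx0 hx

theorem ae_no_double (μ : Measure ℝ) (hμ : Std μ) :
    ∀ᵐ ω ∂(PP μ), ∀ x : ℝ, x ≠ 0 → |x| < 1 → F0 ω x = 0 → F1 ω x ≠ 0 :=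
  G3.ae_no_double μ hμ (fun A hA h => G1.resample μ hμ A hA h)
    (fun ω h1 h2 a b hab hsub D hD => G2.no_double_after_perturb ω h1 h2 a b hab hsub D hD)
    (G1.ae_sumOK μ hμ) (G1.ae_exists_ne μ hμ)

theorem ae_eventually (μ : Measure ℝ) (hμ : Std μ) (a b : ℝ) (hab : a < b) (ha : -1 < a) (hb : b < 1)
    (h0 : (0 : ℝ) ∉ Ioo a b) :
    ∀ᵐ ω ∂(PP μ), ∀ᶠ n : ℕ in atTop, nz (kac n ω) (Ioo a b) = Ninf ω (Ioo a b) := by
  have hza : ∀ᵐ ω ∂(PP μ), a ≠ 0 → F0 ω a ≠ 0 := by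
    by_cases h : a = 0
    · exact Eventually.of_forall fun ω h' => absurd h h'
    · have := ae_ne_zero_at μ hμ a h (abs_lt.2 ⟨ha, hab.trans hb⟩)
      filter_upwards [this] with ω hω _ using hω
  have hzb : ∀ᵐ ω ∂(PP μ), b ≠ 0 → F0 ω b ≠ 0 := by
    by_cases h : b = 0
    · exact Eventually.of_forall fun ω h' => absurd h h'
    · have := ae_ne_zero_at μ hμ b h (abs_lt.2 ⟨ha.trans hab, hb⟩)
      filter_upwards [this] with ω hω _ using hω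
  filter_upwards [G1.ae_sumOK μ hμ, G1.ae_exists_ne μ hμ, hza, hzb, ae_no_double μ hμ]
    with ω h1 h2 h3 h4 h5
  exact G4.nz_eventually (fun f f' a b hab hf hf' ha hb hs => J2.c1_stable f f' a b hab hf hf' ha hb hs)
    ⟨fun ω h x hx => G2.F0_hasDerivAt ω h x hx,
      fun ω h r hr0 hr ε hε => G2.D0_D1_unif ω h r hr0 hr ε hε,
      fun ω h => G2.F1_continuousOn ω h⟩ ω h1 h2 a b hab ha hb h0 h3 h4 h5

theorem tendsto_nz (μ : Measure ℝ) (hμ : Std μ) (a b : ℝ) (hab : a < b) (ha : -1 < a) (hb : b < 1)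
    (h0 : (0 : ℝ) ∉ Ioo a b) :
    Integrable (fun ω => (Ninf ω (Ioo a b) : ℝ)) (PP μ) ∧
    Tendsto (fun n : ℕ => ∫ ω, (nz (kac n ω) (Ioo a b) : ℝ) ∂(PP μ)) atTop
      (𝓝 (∫ ω, (Ninf ω (Ioo a b) : ℝ) ∂(PP μ))) :=
  G4.tendsto_nz μ hμ (crude μ hμ) (fun p S hS => J4.nz_rolle p S hS)
    (fun n a b => J6.measurable_nz n a b) a b hab ha hb (ae_eventually μ hμ a b hab ha hb h0)

end A1
end Kac764
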