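import Pool.Agent.Helper764.KacDefs

set_option autoImplicit false
set_option maxHeartbeats 4000000
open MeasureTheory ProbabilityTheory Filter Topology Set
open scoped ENNReal NNReal

namespace Kac764
namespace F1


/-! #### auxiliary lemmas for `oneVar` -/

theorem j11491_exp1 (y : ℝ) : ‖Complex.exp (y * Complex.I) - 1‖ ≤ |y| := by
  have h := Real.norm_exp_I_mul_ofReal_sub_one_le (x := y)
  rwa [mul_comm, Real.norm_eq_abs] at h

theorem j11491_dexp (y : ℝ) :
    HasDerivAt (fun y : ℝ => Complex.exp (y * Complex.I)) (Complex.I * Complex.exp (y * Complex.I)) y := by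
  have h1 : HasDerivAt (fun y : ℝ => (y : ℂ) * Complex.I) (1 * Complex.I) y :=
    (Complex.ofRealCLM.hasDerivAt (x := y)).mul_const Complex.I
  have h2 := h1.cexp
  convert h2 using 1
  ring

theorem j11491_exp2 (y : ℝ) : ‖Complex.exp (y * Complex.I) - 1 - y * Complex.I‖ ≤ y ^ 2 := by
  have hd : ∀ x ∈ Icc (-|y|) |y|, HasDerivWithinAt
      (fun y : ℝ => Complex.exp (y * Complex.I) - 1 - y * Complex.I)
      (Complex.I * Complex.exp (x * Complex.I) - Complex.I) (Icc (-|y|) |y|) x := by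
    intro x _
    have h1 : HasDerivAt (fun y : ℝ => (y : ℂ) * Complex.I) (1 * Complex.I) x :=
      (Complex.ofRealCLM.hasDerivAt (x := x)).mul_const Complex.I
    have h2 := ((j11491_dexp x).sub_const 1).sub h1
    rw [one_mul] at h2
    exact h2.hasDerivWithinAt
  have hb : ∀ x ∈ Icc (-|y|) |y|, ‖Complex.I * Complex.exp (x * Complex.I) - Complex.I‖ ≤ |y| := by
    intro x hx
    have : Complex.I * Complex.exp (x * Complex.I) - Complex.I =
      Complex.I * (Complex.exp (x * Complex.I) - 1) := by ring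
    rw [this, norm_mul, Complex.norm_I, one_mul]
    exact (j11491_exp1 x).trans (abs_le.2 hx)
  have := Convex.norm_image_sub_le_of_norm_hasDerivWithin_le hd hb (convex_Icc _ _)
    (x := 0) (y := y) ⟨by simp, by simp⟩ ⟨neg_abs_le y, le_abs_self y⟩
  simp only [Complex.ofReal_zero, zero_mul, Complex.exp_zero, sub_self, sub_zero] at this
  rw [Real.norm_eq_abs, ← sq, sq_abs] at this
  exact this

/-- Taylor remainder of order two -/
noncomputable def j11491_R (y : ℝ) : ℂ :=
  Complex.exp (y * Complex.I) - 1 - y * Complex.I + ((y ^ 2 / 2 : ℝ) : ℂ)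

theorem j11491_R_lip (a b M : ℝ) (ha : |a| ≤ M) (hb : |b| ≤ M) :
    ‖j11491_R a - j11491_R b‖ ≤ M ^ 2 * |a - b| := by
  have hd : ∀ x ∈ Icc (-M) M, HasDerivWithinAt j11491_R
      (Complex.I * (Complex.exp (x * Complex.I) - 1 - x * Complex.I)) (Icc (-M) M) x := by
    intro x _
    have h1 : HasDerivAt (fun y : ℝ => (y : ℂ) * Complex.I) (1 * Complex.I) x :=
      (Complex.ofRealCLM.hasDerivAt (x := x)).mul_const Complex.I
    have h3 : HasDerivAt (fun y : ℝ => ((y ^ 2 / 2 : ℝ) : ℂ)) ((x : ℝ) : ℂ) x := by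
      have h4 : HasDerivAt (fun y : ℝ => y ^ 2 / 2) x x :=
        ((hasDerivAt_pow 2 x).div_const 2).congr_deriv (by norm_num)
      exact h4.ofReal_comp
    have h2 := (((j11491_dexp x).sub_const 1).sub h1).add h3
    refine (h2.congr_deriv ?_).hasDerivWithinAt
    have : Complex.I * Complex.I = -1 := Complex.I_mul_I
    linear_combination (x : ℂ) * this
  have hb' : ∀ x ∈ Icc (-M) M,
      ‖Complex.I * (Complex.exp (x * Complex.I) - 1 - x * Complex.I)‖ ≤ M ^ 2 := by
    intro x hx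
    rw [norm_mul, Complex.norm_I, one_mul]
    refine (j11491_exp2 x).trans ?_
    rw [← sq_abs x]
    exact pow_le_pow_left₀ (abs_nonneg _) (abs_le.2 hx) 2
  have := Convex.norm_image_sub_le_of_norm_hasDerivWithin_le hd hb' (convex_Icc _ _)
    (x := b) (y := a) (abs_le.1 hb) (abs_le.1 ha)
  rwa [Real.norm_eq_abs] at this

theorem j11491_R_zero : j11491_R 0 = 0 := by simp [j11491_R]

theorem j11491_R_le (y : ℝ) : ‖j11491_R y‖ ≤ |y| ^ 3 := by
  have := j11491_R_lip y 0 |y| le_rfl (by simp)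
  rw [j11491_R_zero, sub_zero, sub_zero] at this
  calc _ ≤ _ := this
    _ = _ := by ring

theorem j11491_cos (y : ℝ) : |1 - Real.cos y - y ^ 2 / 2| ≤ |y| ^ 3 := by
  have h := j11491_R_le y
  have h2 : (j11491_R y).re = -(1 - Real.cos y - y ^ 2 / 2) := by
    unfold j11491_R
    rw [Complex.add_re, Complex.sub_re, Complex.sub_re, Complex.exp_ofReal_mul_I_re,
      Complex.ofReal_re, Complex.re_ofReal_mul, Complex.I_re, Complex.one_re]
    ring
  have h3 := Complex.abs_re_le_norm (j11491_R y)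
  rw [h2, abs_neg] at h3
  exact h3.trans h

/-- Taylor remainder of the Gaussian -/
noncomputable def j11491_T (σ θ : ℝ) : ℝ := Real.exp (-(σ * θ ^ 2 / 2)) - 1 + σ * θ ^ 2 / 2

noncomputable def j11491_T' (σ θ : ℝ) : ℝ := σ * θ * (1 - Real.exp (-(σ * θ ^ 2 / 2)))

theorem j11491_dT (σ θ : ℝ) : HasDerivAt (j11491_T σ) (j11491_T' σ θ) θ := by
  have h1 : HasDerivAt (fun θ : ℝ => σ * θ ^ 2 / 2) (σ * θ) θ := by
    refine (((hasDerivAt_pow 2 θ).const_mul σ).div_const 2).congr_deriv ?_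
    norm_num
    ring
  have h2 := ((h1.neg.exp).sub_const 1).add h1
  refine h2.congr_deriv ?_
  unfold j11491_T'
  simp only [Pi.neg_apply]
  ring

theorem j11491_exp_lip (u v : ℝ) (hu : 0 ≤ u) (hv : 0 ≤ v) :
    |Real.exp (-u) - Real.exp (-v)| ≤ |u - v| := by
  have key : ∀ u v : ℝ, 0 ≤ u → u ≤ v → |Real.exp (-u) - Real.exp (-v)| ≤ |u - v| := by
    intro u v hu huv
    have h1 : Real.exp (-v) = Real.exp (-u) * Real.exp (-(v - u)) := by
      rw [← Real.exp_add]; congr 1; ring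
    have h2 : 1 - (v - u) ≤ Real.exp (-(v - u)) := by
      have := Real.add_one_le_exp (-(v - u)); linarith
    have h3 : Real.exp (-(v - u)) ≤ 1 := Real.exp_le_one_iff.2 (by linarith)
    have h4 : Real.exp (-u) ≤ 1 := Real.exp_le_one_iff.2 (by linarith)
    have h5 : 0 < Real.exp (-u) := Real.exp_pos _
    rw [h1, abs_of_nonneg, abs_of_nonpos (by linarith)]
    · nlinarith
    · nlinarith
  rcases le_total u v with h | h
  · exact key u v hu h
  · rw [abs_sub_comm, abs_sub_comm u v]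
    exact key v u hv h

theorem j11491_T'_lip (σ : ℝ) (h0 : 0 ≤ σ) (h1 : σ ≤ 1) (a b M : ℝ) (ha : |a| ≤ M) (hb : |b| ≤ M) :
    |j11491_T' σ a - j11491_T' σ b| ≤ 2 * M ^ 2 * |a - b| := by
  have hM : 0 ≤ M := (abs_nonneg a).trans ha
  have e1 : j11491_T' σ a - j11491_T' σ b =
      σ * (a - b) * (Real.exp (-0) - Real.exp (-(σ * a ^ 2 / 2))) +
      σ * b * (Real.exp (-(σ * b ^ 2 / 2)) - Real.exp (-(σ * a ^ 2 / 2))) := by
    unfold j11491_T'
    rw [neg_zero, Real.exp_zero]
    ring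
  have hsa : 0 ≤ σ * a ^ 2 / 2 := by positivity
  have hsb : 0 ≤ σ * b ^ 2 / 2 := by positivity
  have h2 := j11491_exp_lip 0 (σ * a ^ 2 / 2) le_rfl hsa
  have h3 := j11491_exp_lip (σ * b ^ 2 / 2) (σ * a ^ 2 / 2) hsb hsa
  have ha2 : a ^ 2 ≤ M ^ 2 := by rw [← sq_abs]; exact pow_le_pow_left₀ (abs_nonneg _) ha 2
  have h4 : |0 - σ * a ^ 2 / 2| ≤ M ^ 2 := by
    rw [zero_sub, abs_neg, abs_of_nonneg hsa]
    nlinarith [sq_nonneg a]
  have h5 : |σ * b ^ 2 / 2 - σ * a ^ 2 / 2| ≤ M * |a - b| := by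
    have : σ * b ^ 2 / 2 - σ * a ^ 2 / 2 = -(σ * ((a + b) / 2)) * (a - b) := by ring
    rw [this, abs_mul, abs_neg, abs_mul, abs_of_nonneg h0]
    have h6 : |(a + b) / 2| ≤ M := by
      rw [abs_le] at *
      constructor <;> linarith
    have h7 : σ * |(a + b) / 2| ≤ M := by nlinarith [abs_nonneg ((a + b) / 2)]
    exact mul_le_mul_of_nonneg_right h7 (abs_nonneg _)
  rw [e1]
  refine (abs_add_le _ _).trans ?_
  rw [abs_mul, abs_mul, abs_mul, abs_mul, abs_of_nonneg h0]
  have h8 := h2.trans h4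
  have h9 := h3.trans h5
  have hab := abs_nonneg (a - b)
  have h10 : σ * |a - b| * |Real.exp (-0) - Real.exp (-(σ * a ^ 2 / 2))| ≤ 1 * |a - b| * M ^ 2 := by
    apply mul_le_mul _ h8 (abs_nonneg _) (by positivity)
    exact mul_le_mul_of_nonneg_right h1 hab
  have h11 : σ * |b| * |Real.exp (-(σ * b ^ 2 / 2)) - Real.exp (-(σ * a ^ 2 / 2))| ≤
      1 * M * (M * |a - b|) := by
    apply mul_le_mul _ h9 (abs_nonneg _) (by positivity)
    exact mul_le_mul h1 hb (abs_nonneg _) zero_le_one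
  nlinarith

theorem j11491_T'_zero (σ : ℝ) : j11491_T' σ 0 = 0 := by simp [j11491_T']

theorem j11491_T_lip (σ : ℝ) (h0 : 0 ≤ σ) (h1 : σ ≤ 1) (a b M : ℝ) (ha : |a| ≤ M) (hb : |b| ≤ M)
    (hM1 : M ≤ 1) : |j11491_T σ a - j11491_T σ b| ≤ 2 * M ^ 2 * |a - b| := by
  have hM : 0 ≤ M := (abs_nonneg a).trans ha
  have hd : ∀ x ∈ Icc (-M) M, HasDerivWithinAt (j11491_T σ) (j11491_T' σ x) (Icc (-M) M) x :=
    fun x _ => (j11491_dT σ x).hasDerivWithinAt
  have hb' : ∀ x ∈ Icc (-M) M, ‖j11491_T' σ x‖ ≤ 2 * M ^ 2 := by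
    intro x hx
    have := j11491_T'_lip σ h0 h1 x 0 M (abs_le.2 hx) (by simpa using hM)
    rw [j11491_T'_zero, sub_zero, sub_zero] at this
    rw [Real.norm_eq_abs]
    refine this.trans ?_
    have hx' := abs_le.2 hx
    have : 0 ≤ 2 * M ^ 2 := by positivity
    nlinarith
  have := Convex.norm_image_sub_le_of_norm_hasDerivWithin_le hd hb' (convex_Icc _ _)
    (x := b) (y := a) (abs_le.1 hb) (abs_le.1 ha)
  rwa [Real.norm_eq_abs] at this

theorem j11491_T_dd (σ : ℝ) (h0 : 0 ≤ σ) (h1 : σ ≤ 1) (p h : ℝ) (hM1 : |p| + |h| ≤ 1) :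
    |j11491_T σ p - (j11491_T σ (p + h) + j11491_T σ (p - h)) / 2| ≤
      2 * h ^ 2 * (|p| + |h|) := by
  set M := |p| + |h| with hM
  have hM0 : 0 ≤ M := by positivity
  have hd : ∀ s ∈ Icc (-|h|) |h|, HasDerivWithinAt
      (fun s => j11491_T σ (p + s) + j11491_T σ (p - s))
      (j11491_T' σ (p + s) - j11491_T' σ (p - s)) (Icc (-|h|) |h|) s := by
    intro s _
    have e1 : HasDerivAt (fun s => p + s) 1 s := (hasDerivAt_id s).const_add p
    have e2 : HasDerivAt (fun s => p - s) (-1) s := (hasDerivAt_id s).const_sub p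
    have := ((j11491_dT σ (p + s)).comp s e1).add ((j11491_dT σ (p - s)).comp s e2)
    exact (this.congr_deriv (by ring)).hasDerivWithinAt
  have hb' : ∀ s ∈ Icc (-|h|) |h|, ‖j11491_T' σ (p + s) - j11491_T' σ (p - s)‖ ≤
      4 * M ^ 2 * |h| := by
    intro s hs
    have hs' := abs_le.2 hs
    have := j11491_T'_lip σ h0 h1 (p + s) (p - s) M
      ((abs_add_le _ _).trans (by rw [hM]; linarith)) ((abs_sub _ _).trans (by rw [hM]; linarith))
    rw [Real.norm_eq_abs]
    refine this.trans ?_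
    have e : p + s - (p - s) = 2 * s := by ring
    rw [e, abs_mul, abs_two]
    have : 0 ≤ M ^ 2 := by positivity
    nlinarith
  have := Convex.norm_image_sub_le_of_norm_hasDerivWithin_le hd hb' (convex_Icc _ _)
    (x := 0) (y := h) ⟨by simp, by simp⟩ ⟨neg_abs_le h, le_abs_self h⟩
  rw [Real.norm_eq_abs, Real.norm_eq_abs] at this
  simp only [add_zero, sub_zero] at this
  have e : j11491_T σ p - (j11491_T σ (p + h) + j11491_T σ (p - h)) / 2 =
    -((j11491_T σ (p + h) + j11491_T σ (p - h) - (j11491_T σ p + j11491_T σ p)) / 2) := by ring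
  rw [e, abs_neg, abs_div, abs_two, div_le_iff₀ (by norm_num)]
  refine this.trans ?_
  rw [mul_assoc, ← sq, sq_abs]
  have : M ^ 2 ≤ M := by nlinarith
  have hh := sq_nonneg h
  nlinarith


theorem j11491_int1 {μ : Measure ℝ} (hμ : Std μ) : Integrable (fun x : ℝ => x) μ := by
  haveI := hμ.prob
  refine Integrable.mono' ((integrable_const (1 : ℝ)).add hμ.int2)
    measurable_id.aestronglyMeasurable ?_
  refine Filter.Eventually.of_forall (fun x => ?_)
  simp only [Pi.add_apply, Real.norm_eq_abs]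
  nlinarith [sq_nonneg (|x| - 1), sq_abs x, abs_nonneg x]

theorem j11491_ms (L : ℝ) : MeasurableSet {x : ℝ | |x| ≤ L} :=
  measurableSet_le (by fun_prop) (by fun_prop)

theorem j11491_compl (L : ℝ) : {x : ℝ | |x| ≤ L}ᶜ = {x : ℝ | L < |x|} := by
  ext x; simp

theorem j11491_int3 {μ : Measure ℝ} (hμ : Std μ) (L : ℝ) :
    IntegrableOn (fun x : ℝ => |x| ^ 3) {x : ℝ | |x| ≤ L} μ := by
  refine Integrable.mono' (hμ.int2.const_mul L).integrableOn (by fun_prop) ?_
  refine (ae_restrict_iff' (j11491_ms L)).2 (Eventually.of_forall fun x hx => ?_)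
  have hx' : |x| ≤ L := hx
  rw [Real.norm_eq_abs, abs_of_nonneg (by positivity), ← sq_abs x, pow_succ, mul_comm]
  exact mul_le_mul_of_nonneg_right hx' (by positivity)

theorem j11491_sig_nonneg (μ : Measure ℝ) (L : ℝ) : 0 ≤ sig2 μ L :=
  setIntegral_nonneg (j11491_ms L) (fun x _ => sq_nonneg x)

theorem j11491_sig_le {μ : Measure ℝ} (hμ : Std μ) (L : ℝ) : sig2 μ L ≤ 1 := by
  rw [← hμ.var]
  exact setIntegral_le_integral hμ.int2 (Eventually.of_forall (fun x => sq_nonneg x))

theorem j11491_rho_nonneg (μ : Measure ℝ) (L : ℝ) : 0 ≤ rho3 μ L :=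
  setIntegral_nonneg (j11491_ms L) (fun x _ => by positivity)

theorem j11491_lam_nonneg (μ : Measure ℝ) (L : ℝ) : 0 ≤ lam1 μ L := by
  unfold lam1
  rw [← j11491_compl]
  exact setIntegral_nonneg (j11491_ms L).compl (fun x _ => by positivity)

theorem j11491_gam (μ : Measure ℝ) (L θ : ℝ) :
    gam μ L θ = ((j11491_T (sig2 μ L) θ + 1 - sig2 μ L * θ ^ 2 / 2 : ℝ) : ℂ) := by
  unfold gam j11491_T
  rw [← Complex.ofReal_neg, ← Complex.ofReal_exp]
  congr 1
  ring

theorem j11491_split {μ : Measure ℝ} (S : Set ℝ) (hS : MeasurableSet S) (F G : ℝ → ℂ)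
    (B1 B2 : ℝ → ℝ) (hF : Integrable F μ) (hG : IntegrableOn G S μ) (hB1 : IntegrableOn B1 S μ)
    (hB2 : IntegrableOn B2 Sᶜ μ) (h1 : ∀ x ∈ S, ‖F x - G x‖ ≤ B1 x)
    (h2 : ∀ x ∈ Sᶜ, ‖F x‖ ≤ B2 x) :
    ‖∫ x, F x ∂μ - ∫ x in S, G x ∂μ‖ ≤ ∫ x in S, B1 x ∂μ + ∫ x in Sᶜ, B2 x ∂μ := by
  rw [← integral_add_compl hS hF]
  have : (∫ x in S, F x ∂μ) + (∫ x in Sᶜ, F x ∂μ) - ∫ x in S, G x ∂μ =
      ∫ x in S, (F x - G x) ∂μ + ∫ x in Sᶜ, F x ∂μ := by
    rw [integral_sub hF.integrableOn hG]; ring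
  rw [this]
  refine (norm_add_le _ _).trans (add_le_add ?_ ?_)
  · exact norm_integral_le_of_norm_le hB1
      ((ae_restrict_iff' hS).2 (Eventually.of_forall h1))
  · exact norm_integral_le_of_norm_le hB2
      ((ae_restrict_iff' hS.compl).2 (Eventually.of_forall h2))

theorem j11491_int_exp {μ : Measure ℝ} (hμ : Std μ) (θ : ℝ) :
    Integrable (fun x : ℝ => Complex.exp (θ * x * Complex.I)) μ := by
  haveI := hμ.prob
  refine Integrable.mono' (integrable_const (1 : ℝ)) (by fun_prop) ?_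
  refine Filter.Eventually.of_forall (fun x => ?_)
  have : Complex.exp (θ * x * Complex.I) = Complex.exp ((θ * x : ℝ) * Complex.I) := by
    push_cast; rfl
  rw [this, Complex.norm_exp_ofReal_mul_I]

theorem j11491_exp_cast (θ x : ℝ) :
    Complex.exp (θ * x * Complex.I) = Complex.exp ((θ * x : ℝ) * Complex.I) := by
  push_cast; rfl

theorem j11491_part2 {μ : Measure ℝ} (hμ : Std μ) (L : ℝ) (M θ θ' : ℝ) (h1 : |θ| ≤ M)
    (h2 : |θ'| ≤ M) (hM1 : M ≤ 1) :
    ‖dd μ L θ - dd μ L θ'‖ ≤ 2 * |θ - θ'| * ((rho3 μ L + 1) * M ^ 2 + lam1 μ L) := by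
  haveI := hμ.prob
  have hM : 0 ≤ M := (abs_nonneg θ).trans h1
  set S : Set ℝ := {x : ℝ | |x| ≤ L} with hS
  set σ := sig2 μ L with hσ
  let F : ℝ → ℂ := fun x => Complex.exp (θ * x * Complex.I) - Complex.exp (θ' * x * Complex.I)
    - ((((θ - θ') * x : ℝ)) : ℂ) * Complex.I
  let G : ℝ → ℂ := fun x => ((-(θ ^ 2 - θ' ^ 2) / 2 * x ^ 2 : ℝ) : ℂ)
  have hFi : Integrable F μ := by
    apply ((j11491_int_exp hμ θ).sub (j11491_int_exp hμ θ')).sub
    exact (((j11491_int1 hμ).const_mul (θ - θ')).ofReal).mul_const _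
  have hGi : IntegrableOn G S μ := ((hμ.int2.const_mul _).ofReal).integrableOn
  have hF : ∫ x, F x ∂μ = charFun μ θ - charFun μ θ' := by
    rw [charFun_apply_real, charFun_apply_real]
    have e1 : ∫ x : ℝ, ((((θ - θ') * x : ℝ)) : ℂ) * Complex.I ∂μ = 0 := by
      rw [integral_mul_const, integral_complex_ofReal, integral_const_mul, hμ.mean]
      simp
    have e2 : ∫ x, F x ∂μ = (∫ x : ℝ, (Complex.exp (θ * x * Complex.I) -
        Complex.exp (θ' * x * Complex.I)) ∂μ) -
        ∫ x : ℝ, ((((θ - θ') * x : ℝ)) : ℂ) * Complex.I ∂μ :=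
      integral_sub ((j11491_int_exp hμ θ).sub (j11491_int_exp hμ θ'))
        ((((j11491_int1 hμ).const_mul (θ - θ')).ofReal).mul_const _)
    rw [e2, e1, sub_zero, integral_sub (j11491_int_exp hμ θ) (j11491_int_exp hμ θ')]
  have hG : ∫ x in S, G x ∂μ = ((-(θ ^ 2 - θ' ^ 2) / 2 * σ : ℝ) : ℂ) := by
    simp only [G]
    rw [integral_complex_ofReal, integral_const_mul]
    rfl
  have key := j11491_split (μ := μ) S (j11491_ms L) F G
    (fun x => M ^ 2 * |θ - θ'| * |x| ^ 3) (fun x => 2 * |θ - θ'| * |x|) hFi hGi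
    ((j11491_int3 hμ L).const_mul _) (((j11491_int1 hμ).abs.const_mul _).integrableOn) ?_ ?_
  · rw [hF, hG, integral_const_mul, integral_const_mul] at key
    have e1 : dd μ L θ - dd μ L θ' = (charFun μ θ - charFun μ θ' -
        ((-(θ ^ 2 - θ' ^ 2) / 2 * σ : ℝ) : ℂ)) -
        ((j11491_T σ θ - j11491_T σ θ' : ℝ) : ℂ) := by
      unfold dd
      rw [j11491_gam, j11491_gam, ← hσ]
      push_cast
      ring
    rw [e1]
    refine (norm_sub_le _ _).trans ?_
    rw [Complex.norm_real, Real.norm_eq_abs]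
    have h3 := j11491_T_lip σ (j11491_sig_nonneg μ L) (j11491_sig_le hμ L) θ θ' M h1 h2 hM1
    have h4 : ∫ x in S, |x| ^ 3 ∂μ = rho3 μ L := rfl
    have h5 : ∫ x in Sᶜ, |x| ∂μ = lam1 μ L := by rw [hS, j11491_compl]; rfl
    rw [h4, h5] at key
    have h6 : 0 ≤ M ^ 2 * |θ - θ'| * rho3 μ L := by
      have := j11491_rho_nonneg μ L
      positivity
    nlinarith
  · intro x _
    have e : F x - G x = j11491_R (θ * x) - j11491_R (θ' * x) := by
      simp only [F, G, j11491_R, j11491_exp_cast]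
      push_cast
      ring
    rw [e]
    refine (j11491_R_lip (θ * x) (θ' * x) (M * |x|) ?_ ?_).trans ?_
    · rw [abs_mul]; exact mul_le_mul_of_nonneg_right h1 (abs_nonneg _)
    · rw [abs_mul]; exact mul_le_mul_of_nonneg_right h2 (abs_nonneg _)
    · rw [← sub_mul, abs_mul]
      apply le_of_eq; ring
  · intro x _
    simp only [F]
    refine (norm_sub_le _ _).trans ?_
    have e1 : Complex.exp (θ * x * Complex.I) - Complex.exp (θ' * x * Complex.I) =
        Complex.exp ((θ' * x : ℝ) * Complex.I) *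
          (Complex.exp (((θ - θ') * x : ℝ) * Complex.I) - 1) := by
      rw [mul_sub, ← Complex.exp_add, mul_one]
      congr 2
      · push_cast; ring
      · push_cast; ring
    rw [e1, norm_mul, Complex.norm_exp_ofReal_mul_I, one_mul, norm_mul, Complex.norm_I, mul_one,
      Complex.norm_real, Real.norm_eq_abs]
    have := j11491_exp1 ((θ - θ') * x)
    rw [abs_mul] at *
    linarith

theorem j11491_part3 {μ : Measure ℝ} (hμ : Std μ) (L : ℝ) (p h : ℝ) (hM1 : |p| + |h| ≤ 1) :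
    ‖dd μ L p - (dd μ L (p + h) + dd μ L (p - h)) / 2‖ ≤
      2 * h ^ 2 * (|p| + |h|) * (rho3 μ L + 1) +
        ∫ x in {x : ℝ | L < |x|}, (1 - Real.cos (h * x)) ∂μ := by
  haveI := hμ.prob
  set S : Set ℝ := {x : ℝ | |x| ≤ L} with hS
  set σ := sig2 μ L with hσ
  let F : ℝ → ℂ := fun x => Complex.exp (p * x * Complex.I) -
    (Complex.exp ((p + h : ℝ) * x * Complex.I) + Complex.exp ((p - h : ℝ) * x * Complex.I)) / 2
  let G : ℝ → ℂ := fun x => ((h ^ 2 / 2 * x ^ 2 : ℝ) : ℂ)
  have hFi : Integrable F μ := (j11491_int_exp hμ p).sub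
    (((j11491_int_exp hμ (p + h)).add (j11491_int_exp hμ (p - h))).div_const 2)
  have hGi : IntegrableOn G S μ := ((hμ.int2.const_mul _).ofReal).integrableOn
  have hF : ∫ x, F x ∂μ = charFun μ p - (charFun μ (p + h) + charFun μ (p - h)) / 2 := by
    rw [charFun_apply_real, charFun_apply_real, charFun_apply_real]
    rw [← integral_add (j11491_int_exp hμ (p + h)) (j11491_int_exp hμ (p - h)),
      ← integral_div]
    exact integral_sub (j11491_int_exp hμ p)
      (((j11491_int_exp hμ (p + h)).add (j11491_int_exp hμ (p - h))).div_const 2)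
  have hG : ∫ x in S, G x ∂μ = ((h ^ 2 / 2 * σ : ℝ) : ℂ) := by
    simp only [G]
    rw [integral_complex_ofReal, integral_const_mul]
    rfl
  have hFx : ∀ x, F x = Complex.exp ((p * x : ℝ) * Complex.I) *
      ((1 - Real.cos (h * x) : ℝ) : ℂ) := by
    intro x
    simp only [F]
    have e1 : Complex.exp ((p + h : ℝ) * x * Complex.I) =
        Complex.exp ((p * x : ℝ) * Complex.I) * Complex.exp ((h * x : ℝ) * Complex.I) := by
      rw [← Complex.exp_add]; congr 1; push_cast; ring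
    have e2 : Complex.exp ((p - h : ℝ) * x * Complex.I) =
        Complex.exp ((p * x : ℝ) * Complex.I) * Complex.exp (-(h * x : ℝ) * Complex.I) := by
      rw [← Complex.exp_add]; congr 1; push_cast; ring
    have e3 : ((1 - Real.cos (h * x) : ℝ) : ℂ) =
        1 - (Complex.exp ((h * x : ℝ) * Complex.I) + Complex.exp (-(h * x : ℝ) * Complex.I)) / 2 := by
      rw [Complex.ofReal_sub, Complex.ofReal_cos, Complex.cos, Complex.ofReal_one]
    rw [e1, e2, e3, j11491_exp_cast]
    ring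
  have hcosi : Integrable (fun x : ℝ => 1 - Real.cos (h * x)) μ := by
    refine Integrable.mono' (integrable_const (2 : ℝ)) (by fun_prop) ?_
    refine Filter.Eventually.of_forall (fun x => ?_)
    rw [Real.norm_eq_abs, abs_le]
    constructor <;> linarith [Real.cos_le_one (h * x), Real.neg_one_le_cos (h * x)]
  have key := j11491_split (μ := μ) S (j11491_ms L) F G
    (fun x => h ^ 2 * (|p| + |h|) * |x| ^ 3) (fun x => 1 - Real.cos (h * x)) hFi hGi
    ((j11491_int3 hμ L).const_mul _) hcosi.integrableOn ?_ ?_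
  · rw [hF, hG, integral_const_mul] at key
    have e1 : dd μ L p - (dd μ L (p + h) + dd μ L (p - h)) / 2 =
        (charFun μ p - (charFun μ (p + h) + charFun μ (p - h)) / 2 -
        ((h ^ 2 / 2 * σ : ℝ) : ℂ)) -
        ((j11491_T σ p - (j11491_T σ (p + h) + j11491_T σ (p - h)) / 2 : ℝ) : ℂ) := by
      unfold dd
      rw [j11491_gam, j11491_gam, j11491_gam, ← hσ]
      push_cast
      ring
    rw [e1]
    refine (norm_sub_le _ _).trans ?_
    rw [Complex.norm_real, Real.norm_eq_abs]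
    have h3 := j11491_T_dd σ (j11491_sig_nonneg μ L) (j11491_sig_le hμ L) p h hM1
    have h4 : ∫ x in S, |x| ^ 3 ∂μ = rho3 μ L := rfl
    rw [h4, hS, j11491_compl] at key
    have h6 : 0 ≤ h ^ 2 * (|p| + |h|) * rho3 μ L := by
      have := j11491_rho_nonneg μ L
      positivity
    nlinarith
  · intro x _
    have e : F x - G x = (Complex.exp ((p * x : ℝ) * Complex.I) - 1) *
        ((1 - Real.cos (h * x) : ℝ) : ℂ) + ((1 - Real.cos (h * x) - (h * x) ^ 2 / 2 : ℝ) : ℂ) := by
      rw [hFx]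
      simp only [G]
      push_cast
      ring
    rw [e]
    refine (norm_add_le _ _).trans ?_
    rw [norm_mul, Complex.norm_real, Complex.norm_real, Real.norm_eq_abs, Real.norm_eq_abs]
    have a1 := j11491_exp1 (p * x)
    have a2 : |1 - Real.cos (h * x)| ≤ (h * x) ^ 2 / 2 := by
      rw [abs_of_nonneg (by linarith [Real.cos_le_one (h * x)])]
      linarith [Real.one_sub_sq_div_two_le_cos (x := h * x)]
    have a3 := j11491_cos (h * x)
    have a4 : ‖Complex.exp ((p * x : ℝ) * Complex.I) - 1‖ * |1 - Real.cos (h * x)| ≤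
        |p * x| * ((h * x) ^ 2 / 2) := mul_le_mul a1 a2 (abs_nonneg _) (abs_nonneg _)
    refine (add_le_add a4 a3).trans ?_
    rw [abs_mul, abs_mul, mul_pow, mul_pow, ← sq_abs x]
    have e5 : |h| ^ 3 = |h| * h ^ 2 := by rw [← sq_abs h]; ring
    rw [e5]
    have : 0 ≤ |p| * h ^ 2 * |x| ^ 3 := by positivity
    nlinarith
  · intro x _
    rw [hFx, norm_mul, Complex.norm_exp_ofReal_mul_I, one_mul, Complex.norm_real, Real.norm_eq_abs,
      abs_of_nonneg]
    linarith [Real.cos_le_one (h * x)]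

theorem j11491_cst_int : Integrable (fun t : ℝ => (1 - Real.cos t) / t ^ 2) := by
  refine Integrable.mono' (integrable_inv_one_add_sq.const_mul 4)
    (by fun_prop : Measurable fun t : ℝ => (1 - Real.cos t) / t ^ 2).aestronglyMeasurable ?_
  refine Filter.Eventually.of_forall (fun t => ?_)
  have h0 : 0 ≤ 1 - Real.cos t := by linarith [Real.cos_le_one t]
  rw [Real.norm_eq_abs, abs_of_nonneg (by positivity)]
  rcases eq_or_ne t 0 with rfl | ht
  · simp
  · have ht2 : 0 < t ^ 2 := by positivity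
    rw [div_le_iff₀ ht2, ← div_eq_mul_inv, div_mul_eq_mul_div, le_div_iff₀ (by positivity)]
    have h1 : 1 - Real.cos t ≤ t ^ 2 / 2 := by linarith [Real.one_sub_sq_div_two_le_cos (x := t)]
    have h2 : 1 - Real.cos t ≤ 2 := by linarith [Real.neg_one_le_cos t]
    nlinarith

theorem j11491_cst_nonneg : 0 ≤ cst := by
  apply integral_nonneg
  intro t
  have h0 : 0 ≤ 1 - Real.cos t := by linarith [Real.cos_le_one t]
  positivity

theorem j11491_cst_scale (a : ℝ) :
    ∫⁻ t : ℝ, ENNReal.ofReal ((1 - Real.cos (t * a)) / t ^ 2) = ENNReal.ofReal (cst * |a|) := by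
  rcases eq_or_ne a 0 with rfl | ha
  · simp
  have e : ∀ t : ℝ, (1 - Real.cos (t * a)) / t ^ 2 = a ^ 2 * ((1 - Real.cos (t * a)) / (t * a) ^ 2) := by
    intro t
    rcases eq_or_ne t 0 with rfl | ht
    · simp
    · field_simp
  have hi := j11491_cst_int.comp_mul_right' ha
  simp_rw [e]
  rw [← ofReal_integral_eq_lintegral_ofReal (hi.const_mul _)]
  · congr 1
    rw [integral_const_mul, Measure.integral_comp_mul_right (fun t => (1 - Real.cos t) / t ^ 2)]
    rw [abs_inv, smul_eq_mul, ← sq_abs a]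
    have : |a| ≠ 0 := abs_ne_zero.2 ha
    unfold cst
    field_simp
  · refine Filter.Eventually.of_forall (fun t => ?_)
    have h0 : 0 ≤ 1 - Real.cos (t * a) := by linarith [Real.cos_le_one (t * a)]
    simp only [Pi.zero_apply]
    positivity

theorem j11491_part3int {μ : Measure ℝ} (hμ : Std μ) (L : ℝ) (p q e : ℝ) (he : 0 < e)
    (h1 : |p| + e * |q| ≤ 1) :
    ∫⁻ t in Icc (-e) e, ENNReal.ofReal
      (‖dd μ L p - (dd μ L (p + t * q) + dd μ L (p - t * q)) / 2‖ / t ^ 2)
      ≤ ENNReal.ofReal ((4 + cst) * (e * q ^ 2 * (rho3 μ L + 1) * (|p| + e * |q|) +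
        |q| * lam1 μ L)) := by
  haveI := hμ.prob
  have hrho := j11491_rho_nonneg μ L
  have hlam := j11491_lam_nonneg μ L
  have hcst := j11491_cst_nonneg
  set K : ℝ := 2 * q ^ 2 * (|p| + e * |q|) * (rho3 μ L + 1) with hK
  have hK0 : 0 ≤ K := by positivity
  have hpt : ∀ t ∈ Icc (-e) e, ENNReal.ofReal
      (‖dd μ L p - (dd μ L (p + t * q) + dd μ L (p - t * q)) / 2‖ / t ^ 2) ≤
      ENNReal.ofReal K +
        ∫⁻ x in {x : ℝ | L < |x|}, ENNReal.ofReal ((1 - Real.cos (t * (q * x))) / t ^ 2) ∂μ := by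
    intro t ht
    rcases eq_or_ne t 0 with rfl | ht0
    · simp
    have ht2 : 0 < t ^ 2 := by positivity
    have htq : |t * q| ≤ e * |q| := by
      rw [abs_mul]; exact mul_le_mul_of_nonneg_right (abs_le.2 ht) (abs_nonneg _)
    have h3 := j11491_part3 hμ L p (t * q) (by linarith)
    have hcosi : Integrable (fun x : ℝ => (1 - Real.cos (t * (q * x))) / t ^ 2)
        (μ.restrict {x : ℝ | L < |x|}) := by
      refine Integrable.mono' (integrable_const (2 / t ^ 2 : ℝ)) (by fun_prop) ?_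
      refine Filter.Eventually.of_forall (fun x => ?_)
      rw [Real.norm_eq_abs, abs_div, abs_of_pos ht2]
      apply div_le_div_of_nonneg_right _ ht2.le
      rw [abs_le]
      constructor <;>
        linarith [Real.cos_le_one (t * (q * x)), Real.neg_one_le_cos (t * (q * x))]
    rw [← ofReal_integral_eq_lintegral_ofReal hcosi, ← ENNReal.ofReal_add hK0]
    · apply ENNReal.ofReal_le_ofReal
      rw [integral_div, div_le_iff₀ ht2, add_mul, div_mul_cancel₀ _ ht2.ne']
      have e1 : ∀ x : ℝ, t * (q * x) = t * q * x := fun x => by ring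
      simp_rw [e1]
      refine h3.trans (add_le_add ?_ le_rfl)
      have : 2 * (t * q) ^ 2 * (|p| + |t * q|) * (rho3 μ L + 1) ≤
          2 * (t * q) ^ 2 * (|p| + e * |q|) * (rho3 μ L + 1) := by gcongr
      calc _ ≤ _ := this
        _ = K * t ^ 2 := by rw [hK]; ring
    · apply integral_nonneg
      intro x
      have h0 : 0 ≤ 1 - Real.cos (t * (q * x)) := by linarith [Real.cos_le_one (t * (q * x))]
      simp only [Pi.zero_apply]
      positivity
    · refine Filter.Eventually.of_forall (fun x => ?_)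
      have h0 : 0 ≤ 1 - Real.cos (t * (q * x)) := by linarith [Real.cos_le_one (t * (q * x))]
      simp only [Pi.zero_apply]
      positivity
  refine (setLIntegral_mono' measurableSet_Icc hpt).trans ?_
  rw [lintegral_add_left measurable_const]
  have hA : ∫⁻ _ in Icc (-e) e, ENNReal.ofReal K = ENNReal.ofReal (K * (2 * e)) := by
    rw [setLIntegral_const, Real.volume_Icc, ← ENNReal.ofReal_mul hK0]
    congr 1; ring
  have hB : ∫⁻ t in Icc (-e) e, ∫⁻ x in {x : ℝ | L < |x|},
      ENNReal.ofReal ((1 - Real.cos (t * (q * x))) / t ^ 2) ∂μ ≤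
      ENNReal.ofReal (cst * |q| * lam1 μ L) := by
    refine (setLIntegral_le_lintegral _ _).trans ?_
    rw [lintegral_lintegral_swap (by
      apply Measurable.aemeasurable
      unfold Function.uncurry
      fun_prop)]
    simp_rw [j11491_cst_scale]
    rw [← ofReal_integral_eq_lintegral_ofReal]
    · apply ENNReal.ofReal_le_ofReal
      simp_rw [abs_mul, ← mul_assoc]
      rw [integral_const_mul]
      rfl
    · simp_rw [abs_mul, ← mul_assoc]
      exact ((j11491_int1 hμ).abs.const_mul _).integrableOn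
    · refine Filter.Eventually.of_forall (fun x => ?_)
      simp only [Pi.zero_apply]
      positivity
  rw [hA]
  refine (add_le_add le_rfl hB).trans ?_
  rw [← ENNReal.ofReal_add (by positivity) (by positivity)]
  apply ENNReal.ofReal_le_ofReal
  have t1 : 0 ≤ e * q ^ 2 * (rho3 μ L + 1) * (|p| + e * |q|) := by positivity
  have t2 : 0 ≤ |q| * lam1 μ L := by positivity
  have t3 : K * (2 * e) = 4 * (e * q ^ 2 * (rho3 μ L + 1) * (|p| + e * |q|)) := by
    rw [hK]; ring
  rw [t3]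
  nlinarith [mul_nonneg hcst t1]

theorem oneVar (μ : Measure ℝ) (hμ : Std μ) : OneVar μ := by
  have hcst := j11491_cst_nonneg
  refine ⟨4 + cst, by linarith, fun L hL => ⟨?_, ?_, ?_⟩⟩
  · intro θ hθ
    have h := j11491_part2 hμ L |θ| θ 0 le_rfl (by simp) hθ
    have h0 : dd μ L 0 = 0 := by
      haveI := hμ.prob
      unfold dd gam
      simp
    rw [h0, sub_zero, sub_zero] at h
    refine h.trans ?_
    have hrho := j11491_rho_nonneg μ L
    have hlam := j11491_lam_nonneg μ L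
    have t1 : 0 ≤ (rho3 μ L + 1) * |θ| ^ 3 + lam1 μ L * |θ| := by positivity
    have t2 : 2 * |θ| * ((rho3 μ L + 1) * |θ| ^ 2 + lam1 μ L) =
      2 * ((rho3 μ L + 1) * |θ| ^ 3 + lam1 μ L * |θ|) := by ring
    rw [t2]
    exact mul_le_mul_of_nonneg_right (by linarith) t1
  · intro M θ θ' h1 h2 hM
    refine (j11491_part2 hμ L M θ θ' h1 h2 hM).trans ?_
    have hrho := j11491_rho_nonneg μ L
    have hlam := j11491_lam_nonneg μ L
    gcongr
    linarith
  · intro p q e he h1
    exact j11491_part3int hμ L p q e he h1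



end F1
end Kac764
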