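import Pool.Agent.Helper764.KacDefs

set_option autoImplicit false
set_option maxHeartbeats 4000000
open MeasureTheory ProbabilityTheory Filter Topology Set
open scoped ENNReal NNReal

namespace Kac764
namespace F2

def CharB (μ : Measure ℝ) : Prop :=
  ∃ c0 > 0, ∃ c > 0, ∀ θ : ℝ, |θ| ≤ c0 → ‖charFun μ θ‖ ≤ Real.exp (-c * θ ^ 2)

theorem hyb_of_pt1 (A B : ℝ) :
    ‖Complex.exp (A * Complex.I) - Complex.exp (B * Complex.I) - ((A : ℂ) - B) * Complex.I‖
      ≤ |A - B| * (|A| + |B|) := by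
  set M : ℝ := |A| + |B| with hM
  have hd : ∀ y ∈ Icc (-M) M, HasDerivWithinAt
      (fun y : ℝ => Complex.exp (y * Complex.I) - (y : ℂ) * Complex.I)
      (Complex.exp (y * Complex.I) * (1 * Complex.I) - 1 * Complex.I) (Icc (-M) M) y := by
    intro y _
    apply HasDerivAt.hasDerivWithinAt
    have h1 : HasDerivAt (fun y : ℝ => (y : ℂ) * Complex.I) (1 * Complex.I) y :=
      (Complex.ofRealCLM.hasDerivAt (x := y)).mul_const Complex.I
    exact h1.cexp.sub h1
  have hb : ∀ y ∈ Icc (-M) M, ‖Complex.exp (y * Complex.I) * (1 * Complex.I) - 1 * Complex.I‖ ≤ M := by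
    intro y hy
    have h1 : Complex.exp (y * Complex.I) * (1 * Complex.I) - 1 * Complex.I
        = (Complex.exp (Complex.I * y) - 1) * Complex.I := by
      rw [mul_comm (y : ℂ) Complex.I]; ring
    rw [h1, norm_mul, Complex.norm_I, mul_one]
    refine le_trans Real.norm_exp_I_mul_ofReal_sub_one_le ?_
    rw [Real.norm_eq_abs, abs_le]
    exact hy
  have hA : A ∈ Icc (-M) M := by
    rw [mem_Icc, ← abs_le, hM]; linarith [abs_nonneg B]
  have hB : B ∈ Icc (-M) M := by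
    rw [mem_Icc, ← abs_le, hM]; linarith [abs_nonneg A]
  have := Convex.norm_image_sub_le_of_norm_hasDerivWithin_le hd hb (convex_Icc _ _) hB hA
  rw [Real.norm_eq_abs] at this
  have h2 : Complex.exp (A * Complex.I) - Complex.exp (B * Complex.I) - ((A : ℂ) - B) * Complex.I
    = (Complex.exp (A * Complex.I) - (A : ℂ) * Complex.I) - (Complex.exp (B * Complex.I) - (B : ℂ) * Complex.I) := by
    ring
  rw [h2]
  linarith [this, mul_comm M |A - B|]

theorem hyb_of_pt2 (x θ d : ℝ) :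
    ‖Complex.exp (θ * x * Complex.I) - (Complex.exp (((θ + d : ℝ) : ℂ) * x * Complex.I)
      + Complex.exp (((θ - d : ℝ) : ℂ) * x * Complex.I)) / 2‖ ≤ d ^ 2 / 2 * x ^ 2 := by
  have h1 : Complex.exp (θ * x * Complex.I) - (Complex.exp (((θ + d : ℝ) : ℂ) * x * Complex.I)
      + Complex.exp (((θ - d : ℝ) : ℂ) * x * Complex.I)) / 2
      = Complex.exp (((θ * x : ℝ) : ℂ) * Complex.I) * (((1 - Real.cos (d * x) : ℝ)) : ℂ) := by
    have e1 : (((θ + d : ℝ) : ℂ) * x * Complex.I) = (θ * x : ℝ) * Complex.I + (d * x : ℝ) * Complex.I := by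
      push_cast; ring
    have e2 : (((θ - d : ℝ) : ℂ) * x * Complex.I) = (θ * x : ℝ) * Complex.I + -((d * x : ℝ) * Complex.I) := by
      push_cast; ring
    have e3 : ((θ : ℂ) * x * Complex.I) = (θ * x : ℝ) * Complex.I := by
      push_cast; ring
    rw [e1, e2, e3, Complex.exp_add, Complex.exp_add]
    have e4 : (((1 - Real.cos (d * x) : ℝ)) : ℂ) = 1 - Complex.cos ((d * x : ℝ) : ℂ) := by
      push_cast; ring
    rw [e4, Complex.cos]
    ring_nf
  rw [h1, norm_mul, Complex.norm_exp_ofReal_mul_I, one_mul, Complex.norm_real, Real.norm_eq_abs]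
  have h2 := Real.one_sub_sq_div_two_le_cos (x := d * x)
  have h3 := Real.cos_le_one (d * x)
  rw [abs_of_nonneg (by linarith)]
  nlinarith

theorem hyb_of_int (ν : Measure ℝ) [IsProbabilityMeasure ν] (t : ℝ) :
    Integrable (fun x : ℝ => Complex.exp (t * x * Complex.I)) ν := by
  refine (integrable_const (1 : ℝ)).mono' (by fun_prop) (Filter.Eventually.of_forall fun x => ?_)
  have : (t : ℂ) * x * Complex.I = ((t * x : ℝ) : ℂ) * Complex.I := by push_cast; ring
  rw [this, Complex.norm_exp_ofReal_mul_I]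

theorem hyb_of_int1 (ν : Measure ℝ) [IsProbabilityMeasure ν] (h2 : Integrable (fun x : ℝ => x ^ 2) ν) :
    Integrable (fun x : ℝ => x) ν := by
  refine ((integrable_const (1 : ℝ)).add h2).mono' (by fun_prop) (Filter.Eventually.of_forall fun x => ?_)
  simp only [Pi.add_apply, Real.norm_eq_abs]
  rw [abs_le]; constructor <;> nlinarith [sq_nonneg (x - 1), sq_nonneg (x + 1)]

theorem hyb_of_cf1 (ν : Measure ℝ) [IsProbabilityMeasure ν] (h2 : Integrable (fun x : ℝ => x ^ 2) ν)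
    (hm : ∫ x, x ∂ν = 0) (hv : ∫ x, x ^ 2 ∂ν ≤ 1) (θ θ' : ℝ) :
    ‖charFun ν θ - charFun ν θ'‖ ≤ |θ - θ'| * (|θ| + |θ'|) := by
  have hi1 := hyb_of_int1 ν h2
  have h0 : charFun ν θ - charFun ν θ'
      = ∫ x : ℝ, (Complex.exp (θ * x * Complex.I) - Complex.exp (θ' * x * Complex.I)
        - (((θ - θ') * x : ℝ) : ℂ) * Complex.I) ∂ν := by
    have i1 : Integrable (fun x : ℝ => Complex.exp (θ * x * Complex.I) - Complex.exp (θ' * x * Complex.I)) ν :=
      (hyb_of_int ν θ).sub (hyb_of_int ν θ')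
    have i2 : Integrable (fun x : ℝ => (((θ - θ') * x : ℝ) : ℂ) * Complex.I) ν := by
      have : Integrable (fun x : ℝ => (θ - θ') * x) ν := hi1.const_mul _
      exact (this.ofReal (𝕜 := ℂ)).mul_const _
    rw [integral_sub i1 i2, integral_sub (hyb_of_int ν θ) (hyb_of_int ν θ'),
      integral_mul_const, integral_complex_ofReal, integral_const_mul, hm, charFun_apply_real,
      charFun_apply_real]
    simp
  rw [h0]
  have h3 : ‖∫ x : ℝ, (Complex.exp (θ * x * Complex.I) - Complex.exp (θ' * x * Complex.I)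
        - (((θ - θ') * x : ℝ) : ℂ) * Complex.I) ∂ν‖ ≤ ∫ x : ℝ, |θ - θ'| * (|θ| + |θ'|) * x ^ 2 ∂ν := by
    apply norm_integral_le_of_norm_le (h2.const_mul _)
    refine Filter.Eventually.of_forall fun x => ?_
    have h4 := hyb_of_pt1 (θ * x) (θ' * x)
    have e : |θ * x - θ' * x| * (|θ * x| + |θ' * x|) = |θ - θ'| * (|θ| + |θ'|) * x ^ 2 := by
      rw [← sub_mul, abs_mul, abs_mul, abs_mul, ← sq_abs x]; ring
    rw [e] at h4
    refine le_trans (le_of_eq ?_) h4
    congr 1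
    push_cast; ring
  refine le_trans h3 ?_
  rw [integral_const_mul]
  have : 0 ≤ |θ - θ'| * (|θ| + |θ'|) := by positivity
  nlinarith

theorem hyb_of_cf2 (ν : Measure ℝ) [IsProbabilityMeasure ν] (h2 : Integrable (fun x : ℝ => x ^ 2) ν)
    (hv : ∫ x, x ^ 2 ∂ν ≤ 1) (θ d : ℝ) :
    ‖charFun ν θ - (charFun ν (θ + d) + charFun ν (θ - d)) / 2‖ ≤ d ^ 2 / 2 := by
  have h0 : charFun ν θ - (charFun ν (θ + d) + charFun ν (θ - d)) / 2
      = ∫ x : ℝ, (Complex.exp (θ * x * Complex.I) - (Complex.exp (((θ + d : ℝ) : ℂ) * x * Complex.I)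
      + Complex.exp (((θ - d : ℝ) : ℂ) * x * Complex.I)) / 2) ∂ν := by
    have i1 : Integrable (fun x : ℝ => (Complex.exp (((θ + d : ℝ) : ℂ) * x * Complex.I)
      + Complex.exp (((θ - d : ℝ) : ℂ) * x * Complex.I)) / 2) ν :=
      ((hyb_of_int ν (θ + d)).add (hyb_of_int ν (θ - d))).div_const 2
    rw [integral_sub (hyb_of_int ν θ) i1,
      integral_div, integral_add (hyb_of_int ν (θ + d)) (hyb_of_int ν (θ - d)), charFun_apply_real,
      charFun_apply_real, charFun_apply_real]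
  rw [h0]
  have h3 : ‖∫ x : ℝ, (Complex.exp (θ * x * Complex.I) - (Complex.exp (((θ + d : ℝ) : ℂ) * x * Complex.I)
      + Complex.exp (((θ - d : ℝ) : ℂ) * x * Complex.I)) / 2) ∂ν‖ ≤ ∫ x : ℝ, d ^ 2 / 2 * x ^ 2 ∂ν := by
    apply norm_integral_le_of_norm_le (h2.const_mul _)
    exact Filter.Eventually.of_forall fun x => hyb_of_pt2 x θ d
  refine le_trans h3 ?_
  rw [integral_const_mul]
  have : 0 ≤ d ^ 2 / 2 := by positivity
  nlinarith

/-- first-order telescoping -/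
theorem hyb_of_tel1 {ι : Type*} (S : Finset ι) (u p : ι → ℂ) (w δ : ι → ℝ) (hw : ∀ i ∈ S, 0 ≤ w i)
    (hδ : ∀ i ∈ S, 0 ≤ δ i)
    (hu : ∀ i ∈ S, ‖u i‖ ≤ w i) (hp : ∀ i ∈ S, ‖p i‖ ≤ w i) (h : ∀ i ∈ S, ‖u i - p i‖ ≤ w i * δ i) :
    ‖∏ i ∈ S, u i - ∏ i ∈ S, p i‖ ≤ (∏ i ∈ S, w i) * ∑ i ∈ S, δ i := by
  classical
  induction S using Finset.induction_on with
  | empty => simp
  | insert a S ha ih =>
    have ih' := ih (fun i hi => hw i (Finset.mem_insert_of_mem hi)) (fun i hi => hδ i (Finset.mem_insert_of_mem hi))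
      (fun i hi => hu i (Finset.mem_insert_of_mem hi))
      (fun i hi => hp i (Finset.mem_insert_of_mem hi)) (fun i hi => h i (Finset.mem_insert_of_mem hi))
    rw [Finset.prod_insert ha, Finset.prod_insert ha, Finset.prod_insert ha, Finset.sum_insert ha]
    have e : u a * ∏ i ∈ S, u i - p a * ∏ i ∈ S, p i
        = (u a - p a) * ∏ i ∈ S, u i + p a * (∏ i ∈ S, u i - ∏ i ∈ S, p i) := by ring
    rw [e]
    have hW : ‖∏ i ∈ S, u i‖ ≤ ∏ i ∈ S, w i := by
      rw [norm_prod]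
      exact Finset.prod_le_prod (fun i _ => norm_nonneg _) (fun i hi => hu i (Finset.mem_insert_of_mem hi))
    have ha' := Finset.mem_insert_self a S
    have hwa := hw a ha'
    have hWn : 0 ≤ ∏ i ∈ S, w i := Finset.prod_nonneg (fun i hi => hw i (Finset.mem_insert_of_mem hi))
    have hδa := hδ a ha'
    calc ‖(u a - p a) * ∏ i ∈ S, u i + p a * (∏ i ∈ S, u i - ∏ i ∈ S, p i)‖
        ≤ ‖(u a - p a) * ∏ i ∈ S, u i‖ + ‖p a * (∏ i ∈ S, u i - ∏ i ∈ S, p i)‖ := norm_add_le _ _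
      _ = ‖u a - p a‖ * ‖∏ i ∈ S, u i‖ + ‖p a‖ * ‖∏ i ∈ S, u i - ∏ i ∈ S, p i‖ := by
          rw [norm_mul, norm_mul]
      _ ≤ (w a * δ a) * (∏ i ∈ S, w i) + w a * ((∏ i ∈ S, w i) * ∑ i ∈ S, δ i) := by
          apply add_le_add
          · exact mul_le_mul (h a ha') hW (norm_nonneg _) (by positivity)
          · exact mul_le_mul (hp a ha') ih' (norm_nonneg _) hwa
      _ = _ := by ring

/-- second-order telescoping -/
theorem hyb_of_tel2 {ι : Type*} (S : Finset ι) (u p q : ι → ℂ) (w δ ε : ι → ℝ) (hw : ∀ i ∈ S, 0 ≤ w i)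
    (hδ : ∀ i ∈ S, 0 ≤ δ i) (hε : ∀ i ∈ S, 0 ≤ ε i)
    (hu : ∀ i ∈ S, ‖u i‖ ≤ w i) (hp : ∀ i ∈ S, ‖p i‖ ≤ w i) (hq : ∀ i ∈ S, ‖q i‖ ≤ w i)
    (h : ∀ i ∈ S, ‖u i - p i‖ ≤ w i * δ i) (h' : ∀ i ∈ S, ‖u i - q i‖ ≤ w i * δ i)
    (he : ∀ i ∈ S, ‖u i - (p i + q i) / 2‖ ≤ w i * ε i) :
    ‖∏ i ∈ S, u i - (∏ i ∈ S, p i + ∏ i ∈ S, q i) / 2‖
      ≤ (∏ i ∈ S, w i) * (∑ i ∈ S, ε i + (∑ i ∈ S, δ i) ^ 2) := by
  classical
  induction S using Finset.induction_on with
  | empty => simp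
  | insert a S ha ih =>
    have m : ∀ {i}, i ∈ S → i ∈ insert a S := fun hi => Finset.mem_insert_of_mem hi
    have ih' := ih (fun i hi => hw i (m hi)) (fun i hi => hδ i (m hi)) (fun i hi => hε i (m hi))
      (fun i hi => hu i (m hi)) (fun i hi => hp i (m hi)) (fun i hi => hq i (m hi))
      (fun i hi => h i (m hi)) (fun i hi => h' i (m hi)) (fun i hi => he i (m hi))
    have t1 := hyb_of_tel1 S u p w δ (fun i hi => hw i (m hi)) (fun i hi => hδ i (m hi))
      (fun i hi => hu i (m hi)) (fun i hi => hp i (m hi)) (fun i hi => h i (m hi))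
    have t2 := hyb_of_tel1 S u q w δ (fun i hi => hw i (m hi)) (fun i hi => hδ i (m hi))
      (fun i hi => hu i (m hi)) (fun i hi => hq i (m hi)) (fun i hi => h' i (m hi))
    have hW : ‖∏ i ∈ S, u i‖ ≤ ∏ i ∈ S, w i := by
      rw [norm_prod]
      exact Finset.prod_le_prod (fun i _ => norm_nonneg _) (fun i hi => hu i (m hi))
    rw [Finset.prod_insert ha, Finset.prod_insert ha, Finset.prod_insert ha, Finset.prod_insert ha,
      Finset.sum_insert ha, Finset.sum_insert ha]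
    have ha' := Finset.mem_insert_self a S
    have hwa := hw a ha'
    have hδa := hδ a ha'
    have hεa := hε a ha'
    have hWn : 0 ≤ ∏ i ∈ S, w i := Finset.prod_nonneg (fun i hi => hw i (m hi))
    have hDn : 0 ≤ ∑ i ∈ S, δ i := Finset.sum_nonneg (fun i hi => hδ i (m hi))
    have hEn : 0 ≤ ∑ i ∈ S, ε i := Finset.sum_nonneg (fun i hi => hε i (m hi))
    set U := ∏ i ∈ S, u i
    set P := ∏ i ∈ S, p i
    set Q := ∏ i ∈ S, q i
    set W := ∏ i ∈ S, w i
    set D := ∑ i ∈ S, δ i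
    set E := ∑ i ∈ S, ε i
    have e : u a * U - (p a * P + q a * Q) / 2
        = u a * (U - (P + Q) / 2) + U * (u a - (p a + q a) / 2)
          - ((U - P) * (u a - p a) + (U - Q) * (u a - q a)) / 2 := by ring
    rw [e]
    have n1 : ‖u a * (U - (P + Q) / 2)‖ ≤ w a * (W * (E + D ^ 2)) := by
      rw [norm_mul]; exact mul_le_mul (hu a ha') ih' (norm_nonneg _) hwa
    have n2 : ‖U * (u a - (p a + q a) / 2)‖ ≤ W * (w a * ε a) := by
      rw [norm_mul]; exact mul_le_mul hW (he a ha') (norm_nonneg _) hWn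
    have n3 : ‖(U - P) * (u a - p a)‖ ≤ (W * D) * (w a * δ a) := by
      rw [norm_mul]; exact mul_le_mul t1 (h a ha') (norm_nonneg _) (by positivity)
    have n4 : ‖(U - Q) * (u a - q a)‖ ≤ (W * D) * (w a * δ a) := by
      rw [norm_mul]; exact mul_le_mul t2 (h' a ha') (norm_nonneg _) (by positivity)
    have n5 : ‖((U - P) * (u a - p a) + (U - Q) * (u a - q a)) / 2‖ ≤ (W * D) * (w a * δ a) := by
      rw [norm_div, Complex.norm_ofNat]
      have := norm_add_le ((U - P) * (u a - p a)) ((U - Q) * (u a - q a))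
      linarith
    have n6 := norm_sub_le (u a * (U - (P + Q) / 2) + U * (u a - (p a + q a) / 2))
      (((U - P) * (u a - p a) + (U - Q) * (u a - q a)) / 2)
    have n7 := norm_add_le (u a * (U - (P + Q) / 2)) (U * (u a - (p a + q a) / 2))
    have n8 : w a * (W * (E + D ^ 2)) + W * (w a * ε a) + (W * D) * (w a * δ a)
        ≤ w a * W * (ε a + E + (δ a + D) ^ 2) := by
      have : 0 ≤ w a * W * (δ a ^ 2 + δ a * D) := by positivity
      nlinarith
    linarith

theorem hyb_of_sig (μ : Measure ℝ) (hμ : Std μ) :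
    (∀ L, 0 ≤ sig2 μ L ∧ sig2 μ L ≤ 1) ∧ ∃ m0 : ℕ, ∀ m : ℕ, m0 ≤ m → 1 / 2 ≤ sig2 μ (Real.sqrt m) := by
  have := hμ.prob
  constructor
  · intro L
    refine ⟨integral_nonneg (fun x => sq_nonneg x), ?_⟩
    rw [← hμ.var]
    exact setIntegral_le_integral hμ.int2 (Filter.Eventually.of_forall fun x => sq_nonneg x)
  · have hmono : Monotone (fun m : ℕ => {x : ℝ | |x| ≤ Real.sqrt m}) := by
      intro m n hmn x hx
      simp only [mem_setOf_eq] at hx ⊢
      exact le_trans hx (Real.sqrt_le_sqrt (by exact_mod_cast hmn))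
    have hU : (⋃ m : ℕ, {x : ℝ | |x| ≤ Real.sqrt m}) = univ := by
      rw [eq_univ_iff_forall]
      intro x
      obtain ⟨m, hm⟩ := exists_nat_ge (|x| ^ 2)
      rw [mem_iUnion]
      exact ⟨m, Real.le_sqrt_of_sq_le hm⟩
    have := tendsto_setIntegral_of_monotone (μ := μ) (f := fun x : ℝ => x ^ 2)
      (s := fun m : ℕ => {x : ℝ | |x| ≤ Real.sqrt m})
      (fun m => measurableSet_le (by fun_prop) (by fun_prop)) hmono (by
        rw [hU]; exact hμ.int2.integrableOn)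
    rw [hU, setIntegral_univ, hμ.var] at this
    have h1 := this.eventually (lt_mem_nhds (show (1 / 2 : ℝ) < 1 by norm_num))
    rw [Filter.eventually_atTop] at h1
    obtain ⟨m0, hm0⟩ := h1
    exact ⟨m0, fun m hm => (hm0 m hm).le⟩

theorem hyb_of_gam (μ : Measure ℝ) (L : ℝ) (h0 : 0 ≤ sig2 μ L) :
    ∃ ν : Measure ℝ, IsProbabilityMeasure ν ∧ Integrable (fun x : ℝ => x ^ 2) ν ∧ ∫ x, x ∂ν = 0 ∧
      ∫ x, x ^ 2 ∂ν = sig2 μ L ∧ ∀ θ, charFun ν θ = gam μ L θ := by
  refine ⟨gaussianReal 0 (Real.toNNReal (sig2 μ L)), inferInstance, ?_, ?_, ?_, ?_⟩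
  · have := (memLp_id_gaussianReal (μ := 0) (v := Real.toNNReal (sig2 μ L)) 2)
    exact MemLp.integrable_sq this
  · exact integral_id_gaussianReal
  · have h1 := variance_id_gaussianReal (μ := 0) (v := Real.toNNReal (sig2 μ L))
    rw [variance_of_integral_eq_zero (by fun_prop) (by simpa using integral_id_gaussianReal (μ := 0) (v := Real.toNNReal (sig2 μ L)))] at h1
    rw [Real.coe_toNNReal _ h0] at h1
    simpa using h1
  · intro θ
    rw [charFun_gaussianReal, gam, Real.coe_toNNReal _ h0]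
    congr 1
    push_cast
    ring

theorem hyb_of_n1 {x : ℝ} (h : |x| ≤ 1) : x ^ 2 ≤ 1 := by
  rw [← sq_abs]; nlinarith [abs_nonneg x]

theorem hyb_of_det (K κ c1 a : ℝ) (hK : 0 < K) (hκ : 0 < κ) (hc1 : 0 < c1) (hc1' : c1 ≤ 1 / 4) (c0 : ℝ)
    (hc0' : c0 ≤ 1) (ha : 0 < a) (haK : a * (1 + K) ≤ c0) (h : ℕ → ℝ → ℂ)
    (h1 : ∀ i θ, |θ| ≤ c0 → ‖h i θ‖ ≤ Real.exp (-c1 * θ ^ 2))
    (h2 : ∀ i θ θ', ‖h i θ - h i θ'‖ ≤ |θ - θ'| * (|θ| + |θ'|))
    (h3 : ∀ i θ d, ‖h i θ - (h i (θ + d) + h i (θ - d)) / 2‖ ≤ d ^ 2 / 2)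
    (n m : ℕ) (α β : ℕ → ℝ) (hW : Wts K κ n m α β) (j : ℕ) (hj : j ∈ Finset.range (n + 1)) (s t : ℝ)
    (hs : |s| ≤ a) (ht : |t| ≤ a / m) :
    ‖∏ i ∈ (Finset.range (n + 1)).erase j, h i (s * α i + t * β i)‖
      ≤ Real.exp c1 * Real.exp (-(c1 * κ / 4) * ((m : ℝ) * s ^ 2 + (m : ℝ) ^ 3 * t ^ 2)) ∧
    (|t| ≤ (m : ℝ) ^ (-(3 / 2) : ℝ) →
      ‖∏ i ∈ (Finset.range (n + 1)).erase j, h i (s * α i + t * β i)
          - ∏ i ∈ (Finset.range (n + 1)).erase j, h i (s * α i + 0 * β i)‖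
        ≤ (Real.exp (c1 / 2 + c1 * K ^ 2) * K ^ 2 * (2 / (c1 * κ / 4) + 4)) * |t| * (m : ℝ) ^ (3 / 2 : ℝ)
          * Real.exp (-(c1 * κ / 4) * ((m : ℝ) * s ^ 2)) ∧
      ‖∏ i ∈ (Finset.range (n + 1)).erase j, h i (s * α i + 0 * β i)
          - (∏ i ∈ (Finset.range (n + 1)).erase j, h i (s * α i + t * β i)
            + ∏ i ∈ (Finset.range (n + 1)).erase j, h i (s * α i + (-t) * β i)) / 2‖
        ≤ (Real.exp (c1 / 2 + c1 * K ^ 2) * (K ^ 2 + K ^ 4 * (32 / (c1 * κ / 4) + 8))) * t ^ 2 * (m : ℝ) ^ 3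
          * Real.exp (-(c1 * κ / 4) * ((m : ℝ) * s ^ 2))) := by
  obtain ⟨hm, hα, hβ, hsum, hgram⟩ := hW
  have hm0 : (0 : ℝ) < m := by
    have : 0 < m := by omega
    exact_mod_cast this
  have hc0 : 0 < c0 := lt_of_lt_of_le (by positivity) haK
  set c : ℝ := c1 * κ / 4 with hc
  have hcpos : 0 < c := by positivity
  have hαi : ∀ i ∈ Finset.range (n + 1), |s * α i| ≤ a := by
    intro i hi
    rw [abs_mul]
    have := mul_le_mul hs (hα i hi) (abs_nonneg _) ha.le
    linarith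
  have hβi : ∀ i ∈ Finset.range (n + 1), ∀ t' : ℝ, |t'| ≤ a / m → |t' * β i| ≤ a * K := by
    intro i hi t' ht'
    rw [abs_mul]
    have := mul_le_mul ht' (hβ i hi) (abs_nonneg _) (by positivity)
    have e : a / m * (K * m) = a * K := by field_simp
    linarith
  have hθ : ∀ i ∈ Finset.range (n + 1), ∀ t' : ℝ, |t'| ≤ a / m → |s * α i + t' * β i| ≤ c0 := by
    intro i hi t' ht'
    have := abs_add_le (s * α i) (t' * β i)
    have := hαi i hi
    have := hβi i hi t' ht'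
    linarith
  have ha1 : a ≤ 1 := by
    have := mul_pos ha hK
    linarith
  have hSsub : ∀ i ∈ (Finset.range (n + 1)).erase j, i ∈ Finset.range (n + 1) :=
    fun i hi => Finset.mem_of_mem_erase hi
  constructor
  · rw [norm_prod]
    have b1 : ∏ i ∈ (Finset.range (n + 1)).erase j, ‖h i (s * α i + t * β i)‖
        ≤ ∏ i ∈ (Finset.range (n + 1)).erase j, Real.exp (-c1 * (s * α i + t * β i) ^ 2) :=
      Finset.prod_le_prod (fun i _ => norm_nonneg _) (fun i hi => h1 i _ (hθ i (hSsub i hi) t ht))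
    refine le_trans b1 ?_
    rw [← Real.exp_sum, ← Real.exp_add, Real.exp_le_exp, ← Finset.mul_sum]
    have b2 := Finset.add_sum_erase (Finset.range (n + 1)) (fun i => (s * α i + t * β i) ^ 2) hj
    have b3 := hgram s t
    have b4 : (s * α j + t * β j) ^ 2 ≤ 1 := by
      exact hyb_of_n1 ((hθ j hj t ht).trans hc0')
    have b5 : 0 ≤ (m : ℝ) * s ^ 2 + (m : ℝ) ^ 3 * t ^ 2 := by positivity
    have b6 : κ * ((m : ℝ) * s ^ 2 + (m : ℝ) ^ 3 * t ^ 2) - 1
        ≤ ∑ i ∈ (Finset.range (n + 1)).erase j, (s * α i + t * β i) ^ 2 := by linarith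
    have b7 := mul_le_mul_of_nonneg_left b6 hc1.le
    have b8 : 0 ≤ c1 * κ * ((m : ℝ) * s ^ 2 + (m : ℝ) ^ 3 * t ^ 2) := by positivity
    rw [hc]
    linarith
  · intro htm
    -- the variables
    set T : ℝ := |t| * (m : ℝ) ^ (3 / 2 : ℝ) with hTdef
    set R : ℝ := Real.sqrt m * |s| with hRdef
    set Z : ℝ := (m : ℝ) * s ^ 2 with hZdef
    have hT0 : 0 ≤ T := by positivity
    have hR0 : 0 ≤ R := by positivity
    have hZ0 : 0 ≤ Z := by positivity
    have hm32 : (m : ℝ) ^ (3 / 2 : ℝ) * (m : ℝ) ^ (3 / 2 : ℝ) = (m : ℝ) ^ 3 := by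
      rw [← Real.rpow_add hm0]; norm_num
    have hT2 : T ^ 2 = t ^ 2 * (m : ℝ) ^ 3 := by
      rw [hTdef, mul_pow, sq_abs, sq ((m : ℝ) ^ (3 / 2 : ℝ)), hm32]
    have hT1 : T ≤ 1 := by
      have e1 : (m : ℝ) ^ (-(3 / 2) : ℝ) * (m : ℝ) ^ (3 / 2 : ℝ) = 1 := by
        rw [← Real.rpow_add hm0]; norm_num
      rw [hTdef, ← e1]
      exact mul_le_mul_of_nonneg_right htm (by positivity)
    have hR2 : R ^ 2 = Z := by
      rw [hRdef, mul_pow, sq_abs, Real.sq_sqrt hm0.le]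
    have hTR : T * R = |t| * |s| * (m : ℝ) ^ 2 := by
      have e1 : (m : ℝ) ^ (3 / 2 : ℝ) * Real.sqrt m = (m : ℝ) ^ 2 := by
        rw [Real.sqrt_eq_rpow, ← Real.rpow_add hm0]; norm_num
      rw [hTdef, hRdef, ← e1]; ring
    -- sums
    have sα : ∑ i ∈ Finset.range (n + 1), |α i| ≤ K * m := by
      refine le_trans (Finset.sum_le_sum fun i _ => ?_) hsum
      have : 0 ≤ |β i| / m := by positivity
      linarith
    have sβ : ∑ i ∈ Finset.range (n + 1), |β i| ≤ K * (m : ℝ) ^ 2 := by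
      have : ∑ i ∈ Finset.range (n + 1), |β i| / m ≤ K * m := by
        refine le_trans (Finset.sum_le_sum fun i _ => ?_) hsum
        linarith [abs_nonneg (α i)]
      rw [← Finset.sum_div, div_le_iff₀ hm0] at this
      linarith
    have sββ : ∑ i ∈ Finset.range (n + 1), (β i) ^ 2 ≤ K ^ 2 * (m : ℝ) ^ 3 := by
      calc ∑ i ∈ Finset.range (n + 1), (β i) ^ 2
          ≤ ∑ i ∈ Finset.range (n + 1), K * m * |β i| := by
            refine Finset.sum_le_sum fun i hi => ?_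
            rw [← sq_abs, sq]
            exact mul_le_mul_of_nonneg_right (hβ i hi) (abs_nonneg _)
        _ = K * m * ∑ i ∈ Finset.range (n + 1), |β i| := by rw [Finset.mul_sum]
        _ ≤ K * m * (K * (m : ℝ) ^ 2) := mul_le_mul_of_nonneg_left sβ (by positivity)
        _ = _ := by ring
    have sαβ : ∑ i ∈ Finset.range (n + 1), |α i| * |β i| ≤ K ^ 2 * (m : ℝ) ^ 2 := by
      calc ∑ i ∈ Finset.range (n + 1), |α i| * |β i|
          ≤ ∑ i ∈ Finset.range (n + 1), K * m * |α i| := by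
            refine Finset.sum_le_sum fun i hi => ?_
            rw [mul_comm]
            exact mul_le_mul_of_nonneg_right (hβ i hi) (abs_nonneg _)
        _ = K * m * ∑ i ∈ Finset.range (n + 1), |α i| := by rw [Finset.mul_sum]
        _ ≤ K * m * (K * (m : ℝ)) := mul_le_mul_of_nonneg_left sα (by positivity)
        _ = _ := by ring
    -- weights
    set S := (Finset.range (n + 1)).erase j with hS
    set w : ℕ → ℝ := fun i => Real.exp (-c1 * ((s * α i) ^ 2 / 2) + c1 * (t ^ 2 * (β i) ^ 2)) with hwdef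
    set δ : ℕ → ℝ := fun i => 2 * (|t * β i| * (2 * |s * α i| + |t * β i|)) with hδdef
    set ε : ℕ → ℝ := fun i => (t * β i) ^ 2 with hεdef
    have hw0 : ∀ i ∈ S, 0 ≤ w i := fun i _ => (Real.exp_pos _).le
    have hδ0 : ∀ i ∈ S, 0 ≤ δ i := fun i _ => by positivity
    have hε0 : ∀ i ∈ S, 0 ≤ ε i := fun i _ => by positivity
    have hw2 : ∀ i ∈ S, 1 ≤ 2 * w i := by
      intro i hi
      have e1 := Real.add_one_le_exp (-c1 * ((s * α i) ^ 2 / 2) + c1 * (t ^ 2 * (β i) ^ 2))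
      have e2 : (s * α i) ^ 2 ≤ 1 := hyb_of_n1 ((hαi i (hSsub i hi)).trans ha1)
      have e6 : 0 ≤ c1 * (t ^ 2 * (β i) ^ 2) := by positivity
      have e7 : c1 * ((s * α i) ^ 2 / 2) ≤ 1 / 8 := by
        have : c1 * ((s * α i) ^ 2 / 2) ≤ (1 / 4) * (1 / 2) :=
          mul_le_mul hc1' (by linarith) (by positivity) (by norm_num)
        linarith
      simp only [hwdef]
      linarith
    have hb : ∀ t' : ℝ, |t'| ≤ |t| → ∀ i ∈ S, ‖h i (s * α i + t' * β i)‖ ≤ w i := by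
      intro t' ht' i hi
      refine le_trans (h1 i _ (hθ i (hSsub i hi) t' (ht'.trans ht))) ?_
      simp only [hwdef]
      rw [Real.exp_le_exp]
      have e1 : t' ^ 2 ≤ t ^ 2 := sq_le_sq.mpr ht'
      have e2 : t' ^ 2 * (β i) ^ 2 ≤ t ^ 2 * (β i) ^ 2 := mul_le_mul_of_nonneg_right e1 (sq_nonneg _)
      have e3 : (s * α i) ^ 2 / 2 - t ^ 2 * (β i) ^ 2 ≤ (s * α i + t' * β i) ^ 2 := by
        linarith [sq_nonneg (s * α i + 2 * (t' * β i))]
      have e4 := mul_le_mul_of_nonneg_left e3 hc1.le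
      linarith
    have hfo : ∀ t' : ℝ, |t'| ≤ |t| → ∀ i ∈ S,
        ‖h i (s * α i + 0 * β i) - h i (s * α i + t' * β i)‖ ≤ w i * δ i := by
      intro t' ht' i hi
      refine le_trans (h2 i _ _) ?_
      have e0 : s * α i + 0 * β i - (s * α i + t' * β i) = -(t' * β i) := by ring
      have e0' : s * α i + 0 * β i = s * α i := by ring
      rw [e0, e0', abs_neg]
      have e1 : |t' * β i| ≤ |t * β i| := by
        rw [abs_mul, abs_mul]; exact mul_le_mul_of_nonneg_right ht' (abs_nonneg _)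
      have e2 := abs_add_le (s * α i) (t' * β i)
      have e3 : |t' * β i| * (|s * α i| + |s * α i + t' * β i|) ≤ |t * β i| * (2 * |s * α i| + |t * β i|) :=
        mul_le_mul e1 (by linarith) (by positivity) (abs_nonneg _)
      have e4 := hw2 i hi
      have e5 : 0 ≤ |t * β i| * (2 * |s * α i| + |t * β i|) := by positivity
      simp only [hδdef]
      have e6 := mul_le_mul_of_nonneg_right e4 e5
      linarith
    have hso : ∀ i ∈ S, ‖h i (s * α i + 0 * β i) - (h i (s * α i + t * β i) + h i (s * α i + (-t) * β i)) / 2‖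
        ≤ w i * ε i := by
      intro i hi
      have e1 := h3 i (s * α i) (t * β i)
      have e2 : s * α i + 0 * β i = s * α i := by ring
      have e3 : s * α i + (-t) * β i = s * α i - t * β i := by ring
      rw [e2, e3]
      refine le_trans e1 ?_
      have e4 := hw2 i hi
      simp only [hεdef]
      have e6 := mul_le_mul_of_nonneg_right e4 (sq_nonneg (t * β i))
      linarith
    have t0 : |(0 : ℝ)| ≤ |t| := by simp
    have tn : |(-t : ℝ)| ≤ |t| := by simp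
    have A1 := hyb_of_tel1 S (fun i => h i (s * α i + 0 * β i)) (fun i => h i (s * α i + t * β i)) w δ
      hw0 hδ0 (hb 0 t0) (hb t le_rfl) (hfo t le_rfl)
    have A2 := hyb_of_tel2 S (fun i => h i (s * α i + 0 * β i)) (fun i => h i (s * α i + t * β i))
      (fun i => h i (s * α i + (-t) * β i)) w δ ε
      hw0 hδ0 hε0 (hb 0 t0) (hb t le_rfl) (hb (-t) tn) (hfo t le_rfl) (hfo (-t) tn) hso
    -- the product of the weights
    have hSββ : ∑ i ∈ S, t ^ 2 * (β i) ^ 2 ≤ K ^ 2 * T ^ 2 := by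
      calc ∑ i ∈ S, t ^ 2 * (β i) ^ 2 ≤ ∑ i ∈ Finset.range (n + 1), t ^ 2 * (β i) ^ 2 :=
            Finset.sum_le_sum_of_subset_of_nonneg (Finset.erase_subset _ _) (fun i _ _ => by positivity)
        _ = t ^ 2 * ∑ i ∈ Finset.range (n + 1), (β i) ^ 2 := by rw [Finset.mul_sum]
        _ ≤ t ^ 2 * (K ^ 2 * (m : ℝ) ^ 3) := mul_le_mul_of_nonneg_left sββ (sq_nonneg _)
        _ = K ^ 2 * T ^ 2 := by rw [hT2]; ring
    have hT21 : T ^ 2 ≤ 1 := pow_le_one₀ hT0 hT1
    have hWp : ∏ i ∈ S, w i ≤ Real.exp (c1 / 2 + c1 * K ^ 2) * Real.exp (-c * Z) ^ 2 := by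
      simp only [hwdef]
      rw [← Real.exp_sum, ← Real.exp_nat_mul, ← Real.exp_add, Real.exp_le_exp, Finset.sum_add_distrib,
        ← Finset.mul_sum, ← Finset.mul_sum]
      have b2 := Finset.add_sum_erase (Finset.range (n + 1)) (fun i => (s * α i) ^ 2 / 2) hj
      have b3 := hgram s 0
      have b3' : ∑ i ∈ Finset.range (n + 1), (s * α i + 0 * β i) ^ 2 = 2 * ∑ i ∈ Finset.range (n + 1), (s * α i) ^ 2 / 2 := by
        rw [Finset.mul_sum]
        refine Finset.sum_congr rfl fun i _ => ?_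
        ring
      rw [b3'] at b3
      have b4 : (s * α j) ^ 2 ≤ 1 := hyb_of_n1 ((hαi j hj).trans ha1)
      have b5 : κ * Z / 2 - 1 / 2 ≤ ∑ i ∈ S, (s * α i) ^ 2 / 2 := by
        have : κ * ((m : ℝ) * s ^ 2 + (m : ℝ) ^ 3 * 0 ^ 2) = κ * Z := by rw [hZdef]; ring
        rw [this] at b3
        linarith
      have b6 := mul_le_mul_of_nonneg_left b5 hc1.le
      have b7 : ∑ i ∈ S, t ^ 2 * (β i) ^ 2 ≤ K ^ 2 := hSββ.trans (mul_le_of_le_one_right (sq_nonneg K) hT21)
      have b8 := mul_le_mul_of_nonneg_left b7 hc1.le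
      rw [hc]
      push_cast
      linarith
    have hWn : 0 ≤ ∏ i ∈ S, w i := Finset.prod_nonneg hw0
    have hδs : ∑ i ∈ S, δ i ≤ K ^ 2 * T * (4 * R + 2) := by
      calc ∑ i ∈ S, δ i ≤ ∑ i ∈ Finset.range (n + 1), δ i :=
            Finset.sum_le_sum_of_subset_of_nonneg (Finset.erase_subset _ _) (fun i _ _ => by positivity)
        _ = 4 * (|t| * |s|) * ∑ i ∈ Finset.range (n + 1), |α i| * |β i|
            + 2 * t ^ 2 * ∑ i ∈ Finset.range (n + 1), (β i) ^ 2 := by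
            rw [Finset.mul_sum, Finset.mul_sum, ← Finset.sum_add_distrib]
            refine Finset.sum_congr rfl fun i _ => ?_
            simp only [hδdef]
            rw [abs_mul, abs_mul, ← sq_abs t, ← sq_abs (β i)]; ring
        _ ≤ 4 * (|t| * |s|) * (K ^ 2 * (m : ℝ) ^ 2) + 2 * t ^ 2 * (K ^ 2 * (m : ℝ) ^ 3) := by
            apply add_le_add
            · exact mul_le_mul_of_nonneg_left sαβ (by positivity)
            · exact mul_le_mul_of_nonneg_left sββ (by positivity)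
        _ = 4 * K ^ 2 * (T * R) + 2 * K ^ 2 * T ^ 2 := by rw [hTR, hT2]; ring
        _ ≤ 4 * K ^ 2 * (T * R) + 2 * K ^ 2 * T := by
            have : T ^ 2 ≤ T := by
              have := mul_le_mul_of_nonneg_left hT1 hT0
              linarith
            have := mul_le_mul_of_nonneg_left this (show 0 ≤ 2 * K ^ 2 by positivity)
            linarith
        _ = _ := by ring
    have hδn : 0 ≤ ∑ i ∈ S, δ i := Finset.sum_nonneg hδ0
    have hεs : ∑ i ∈ S, ε i ≤ K ^ 2 * T ^ 2 := by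
      refine le_trans (le_of_eq ?_) hSββ
      refine Finset.sum_congr rfl fun i _ => ?_
      simp only [hεdef]; ring
    -- elementary inequalities
    set E1 : ℝ := Real.exp (-c * Z) with hE1
    have hE0 : 0 < E1 := Real.exp_pos _
    have hE1' : E1 ≤ 1 := by
      rw [hE1, Real.exp_le_one_iff]; linarith [mul_nonneg hcpos.le hZ0]
    have hEZ : E1 * Z ≤ 1 / c := by
      have e1 := Real.add_one_le_exp (c * Z)
      have e2 : E1 * Real.exp (c * Z) = 1 := by
        rw [hE1, ← Real.exp_add]; simp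
      rw [le_div_iff₀ hcpos]
      have e3 := mul_le_mul_of_nonneg_left e1 hE0.le
      linarith
    have hR1 : 4 * R + 2 ≤ 2 * Z + 4 := by linarith [sq_nonneg (R - 1)]
    set C2 : ℝ := Real.exp (c1 / 2 + c1 * K ^ 2) with hC2
    have hC20 : 0 < C2 := Real.exp_pos _
    have hER : E1 * (4 * R + 2) ≤ 2 / c + 4 := by
      have e1 := mul_le_mul_of_nonneg_left hR1 hE0.le
      have e2 : (2 : ℝ) / c = 2 * (1 / c) := by ring
      rw [e2]
      linarith
    have hER2 : E1 * (4 * R + 2) ^ 2 ≤ 32 / c + 8 := by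
      have e1 : (4 * R + 2) ^ 2 ≤ 32 * Z + 8 := by linarith [sq_nonneg (4 * R - 2)]
      have e2 := mul_le_mul_of_nonneg_left e1 hE0.le
      have e3 : (32 : ℝ) / c = 32 * (1 / c) := by ring
      rw [e3]
      linarith
    constructor
    · rw [norm_sub_rev]
      refine le_trans A1 ?_
      calc (∏ i ∈ S, w i) * ∑ i ∈ S, δ i ≤ (C2 * E1 ^ 2) * (K ^ 2 * T * (4 * R + 2)) :=
            mul_le_mul hWp hδs hδn (by positivity)
        _ = C2 * K ^ 2 * (E1 * (4 * R + 2)) * T * E1 := by ring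
        _ ≤ C2 * K ^ 2 * (2 / c + 4) * T * E1 := by
            apply mul_le_mul_of_nonneg_right _ hE0.le
            apply mul_le_mul_of_nonneg_right _ hT0
            exact mul_le_mul_of_nonneg_left hER (by positivity)
        _ = _ := by rw [hTdef]; ring
    · refine le_trans A2 ?_
      have q1 : (∑ i ∈ S, δ i) ^ 2 ≤ (K ^ 2 * T * (4 * R + 2)) ^ 2 := pow_le_pow_left₀ hδn hδs 2
      have q2 : 0 ≤ ∑ i ∈ S, ε i := Finset.sum_nonneg hε0
      calc (∏ i ∈ S, w i) * (∑ i ∈ S, ε i + (∑ i ∈ S, δ i) ^ 2)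
          ≤ (C2 * E1 ^ 2) * (K ^ 2 * T ^ 2 + (K ^ 2 * T * (4 * R + 2)) ^ 2) :=
            mul_le_mul hWp (by linarith) (by positivity) (by positivity)
        _ = C2 * (K ^ 2 * E1 + K ^ 4 * (E1 * (4 * R + 2) ^ 2)) * T ^ 2 * E1 := by ring
        _ ≤ C2 * (K ^ 2 * 1 + K ^ 4 * (32 / c + 8)) * T ^ 2 * E1 := by
            apply mul_le_mul_of_nonneg_right _ hE0.le
            apply mul_le_mul_of_nonneg_right _ (sq_nonneg _)
            apply mul_le_mul_of_nonneg_left _ hC20.le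
            apply add_le_add
            · exact mul_le_mul_of_nonneg_left hE1' (by positivity)
            · exact mul_le_mul_of_nonneg_left hER2 (by positivity)
        _ = _ := by rw [hT2]; ring

theorem hyb_of (μ : Measure ℝ) (hμ : Std μ) (hc : CharB μ) : Hyb μ := by
  intro K κ hK hκ
  obtain ⟨c0, hc0, cc, hcc, hchar⟩ := hc
  obtain ⟨hsig, m0, hm0⟩ := hyb_of_sig μ hμ
  have hprob := hμ.prob
  set c0' : ℝ := min c0 1 with hc0'
  have hc0'pos : 0 < c0' := lt_min hc0 one_pos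
  set c1 : ℝ := min cc (1 / 4) with hc1
  have hc1pos : 0 < c1 := lt_min hcc (by norm_num)
  have ha : 0 < c0' / (1 + K) := by positivity
  refine ⟨c0' / (1 + K), ha, Real.exp c1 + Real.exp (c1 / 2 + c1 * K ^ 2) * K ^ 2 * (2 / (c1 * κ / 4) + 4)
    + Real.exp (c1 / 2 + c1 * K ^ 2) * (K ^ 2 + K ^ 4 * (32 / (c1 * κ / 4) + 8)), by positivity,
    c1 * κ / 4, by positivity, m0, ?_⟩
  intro n m α β hm hW j hj s t hs ht
  -- the factors
  set h : ℕ → ℝ → ℂ := fun i θ => if i < j then charFun μ θ else gam μ (Real.sqrt m) θ with hh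
  obtain ⟨ν, hν, hν2, hν0, hνv, hνg⟩ := hyb_of_gam μ (Real.sqrt m) (hsig _).1
  have hνv1 : ∫ x, x ^ 2 ∂ν ≤ 1 := by rw [hνv]; exact (hsig _).2
  have h1 : ∀ i θ, |θ| ≤ c0' → ‖h i θ‖ ≤ Real.exp (-c1 * θ ^ 2) := by
    intro i θ hθ
    simp only [hh]
    split_ifs
    · refine le_trans (hchar θ (hθ.trans (min_le_left _ _))) ?_
      rw [Real.exp_le_exp]
      have : c1 ≤ cc := min_le_left _ _
      nlinarith [sq_nonneg θ]
    · rw [gam, Complex.norm_exp, Real.exp_le_exp]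
      rw [← Complex.ofReal_neg, Complex.ofReal_re]
      have e1 := hm0 m hm
      have e2 : c1 ≤ 1 / 4 := min_le_right _ _
      have e3 := mul_le_mul_of_nonneg_right e1 (sq_nonneg θ)
      have e4 := mul_le_mul_of_nonneg_right e2 (sq_nonneg θ)
      linarith
  have h2 : ∀ i θ θ', ‖h i θ - h i θ'‖ ≤ |θ - θ'| * (|θ| + |θ'|) := by
    intro i θ θ'
    simp only [hh]
    split_ifs
    · exact hyb_of_cf1 μ hμ.int2 hμ.mean hμ.var.le θ θ'
    · rw [← hνg, ← hνg]; exact hyb_of_cf1 ν hν2 hν0 hνv1 θ θ'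
  have h3 : ∀ i θ d, ‖h i θ - (h i (θ + d) + h i (θ - d)) / 2‖ ≤ d ^ 2 / 2 := by
    intro i θ d
    simp only [hh]
    split_ifs
    · exact hyb_of_cf2 μ hμ.int2 hμ.var.le θ d
    · rw [← hνg, ← hνg, ← hνg]; exact hyb_of_cf2 ν hν2 hνv1 θ d
  have hprod : ∀ s t : ℝ, hyb μ (Real.sqrt m) n α β j s t
      = ∏ i ∈ (Finset.range (n + 1)).erase j, h i (s * α i + t * β i) := by
    intro s t
    have hu : (Finset.range (n + 1)).erase j = Finset.range j ∪ Finset.Ioc j n := by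
      ext i
      simp only [Finset.mem_erase, Finset.mem_range, Finset.mem_union, Finset.mem_Ioc] at hj ⊢
      omega
    have hd : Disjoint (Finset.range j) (Finset.Ioc j n) := by
      rw [Finset.disjoint_left]
      intro i hi hi'
      simp only [Finset.mem_range, Finset.mem_Ioc] at hi hi'
      omega
    rw [hu, Finset.prod_union hd, hyb]
    congr 1
    · refine Finset.prod_congr rfl fun i hi => ?_
      simp only [hh, Finset.mem_range.mp hi, if_true]
    · refine Finset.prod_congr rfl fun i hi => ?_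
      have : ¬ (i < j) := by have := (Finset.mem_Ioc.mp hi).1; omega
      simp only [hh, this, if_false]
  have main := hyb_of_det K κ c1 (c0' / (1 + K)) hK hκ hc1pos (min_le_right _ _) c0' (min_le_right _ _) ha
    (by rw [div_mul_cancel₀ _ (by positivity)]) h h1 h2 h3 n m α β hW j hj s t hs ht
  rw [hprod s t, hprod s 0, hprod s (-t)]
  set X1 := Real.exp c1 with hX1
  set X2 := Real.exp (c1 / 2 + c1 * K ^ 2) * K ^ 2 * (2 / (c1 * κ / 4) + 4) with hX2
  set X3 := Real.exp (c1 / 2 + c1 * K ^ 2) * (K ^ 2 + K ^ 4 * (32 / (c1 * κ / 4) + 8)) with hX3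
  have p1 : 0 < X1 := by positivity
  have p2 : 0 < X2 := by positivity
  have p3 : 0 < X3 := by positivity
  refine ⟨le_trans main.1 ?_, fun htm => ⟨le_trans (main.2 htm).1 ?_, le_trans (main.2 htm).2 ?_⟩⟩
  · exact mul_le_mul_of_nonneg_right (by linarith) (Real.exp_pos _).le
  · apply mul_le_mul_of_nonneg_right _ (Real.exp_pos _).le
    apply mul_le_mul_of_nonneg_right _ (by positivity)
    apply mul_le_mul_of_nonneg_right _ (by positivity)
    linarith
  · apply mul_le_mul_of_nonneg_right _ (Real.exp_pos _).le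
    apply mul_le_mul_of_nonneg_right _ (by positivity)
    apply mul_le_mul_of_nonneg_right _ (by positivity)
    linarith


end F2
end Kac764
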