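import Pool.Agent.Helper764.KacDefs

set_option autoImplicit false
set_option maxHeartbeats 4000000
open MeasureTheory ProbabilityTheory Filter Topology Set
open scoped ENNReal NNReal

namespace Kac764
namespace F3

lemma tel_11493 (f g : ℕ → ℂ) (n : ℕ) :
    ∏ j ∈ Finset.range (n + 1), f j - ∏ j ∈ Finset.range (n + 1), g j =
    ∑ j ∈ Finset.range (n + 1),
      ((∏ i ∈ Finset.range j, f i) * ∏ i ∈ Finset.Ioc j n, g i) * (f j - g j) := by
  induction n with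
  | zero => simp
  | succ n ih =>
    rw [Finset.prod_range_succ, Finset.prod_range_succ (fun j => g j) (n + 1),
      Finset.sum_range_succ]
    have h1 : ∀ j ∈ Finset.range (n + 1),
        ((∏ i ∈ Finset.range j, f i) * ∏ i ∈ Finset.Ioc j (n + 1), g i) * (f j - g j) =
        (((∏ i ∈ Finset.range j, f i) * ∏ i ∈ Finset.Ioc j n, g i) * (f j - g j)) * g (n + 1) := by
      intro j hj
      have hj' : j ≤ n := by
        have := Finset.mem_range.mp hj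
        omega
      rw [Finset.prod_Ioc_succ_top hj']
      ring
    rw [Finset.sum_congr rfl h1, ← Finset.sum_mul, ← ih]
    simp only [Finset.Ioc_self, Finset.prod_empty]
    ring

lemma rho3_nonneg_11493 (μ : Measure ℝ) (L : ℝ) : 0 ≤ rho3 μ L :=
  integral_nonneg (fun x => by positivity)

lemma lam1_nonneg_11493 (μ : Measure ℝ) (L : ℝ) : 0 ≤ lam1 μ L :=
  integral_nonneg (fun x => by positivity)

lemma AA_11493 (μ : Measure ℝ) (hμ : Std μ) (m : ℕ) (hm : 1 ≤ m) :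
    AA μ m = rho3 μ (Real.sqrt m) / Real.sqrt m + Real.sqrt m * lam1 μ (Real.sqrt m) := by
  have hw : 1 ≤ Real.sqrt m := Real.one_le_sqrt.mpr (by exact_mod_cast hm)
  unfold AA rho3 lam1
  set w := Real.sqrt m
  have hw0 : 0 < w := by linarith
  have hA : MeasurableSet {x : ℝ | |x| ≤ w} := measurableSet_le (by fun_prop) measurable_const
  have hB : MeasurableSet {x : ℝ | w < |x|} := measurableSet_lt measurable_const (by fun_prop)
  have hI1 : Integrable (fun x => {x : ℝ | |x| ≤ w}.indicator (fun x => |x| ^ 3) x) μ := by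
    refine (hμ.int2.const_mul w).mono' ?_ (ae_of_all _ fun x => ?_)
    · exact (Measurable.indicator (by fun_prop) hA).aestronglyMeasurable
    · by_cases hx : x ∈ {x : ℝ | |x| ≤ w}
      · rw [indicator_of_mem hx, Real.norm_eq_abs, abs_of_nonneg (by positivity)]
        have h1 : |x| ^ 3 = |x| * x ^ 2 := by rw [← sq_abs x]; ring
        rw [h1]
        exact mul_le_mul_of_nonneg_right hx (sq_nonneg x)
      · rw [indicator_of_notMem hx, norm_zero]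
        positivity
  have hI2 : Integrable (fun x => {x : ℝ | w < |x|}.indicator (fun x => |x|) x) μ := by
    refine hμ.int2.mono' ?_ (ae_of_all _ fun x => ?_)
    · exact (Measurable.indicator (by fun_prop) hB).aestronglyMeasurable
    · by_cases hx : x ∈ {x : ℝ | w < |x|}
      · rw [indicator_of_mem hx, Real.norm_eq_abs, abs_abs, ← sq_abs x]
        have hx' : w < |x| := hx
        nlinarith
      · rw [indicator_of_notMem hx, norm_zero]
        positivity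
  rw [← integral_indicator hA, ← integral_indicator hB, ← integral_div, ← integral_const_mul,
    ← integral_add (hI1.div_const w) (hI2.const_mul w)]
  apply integral_congr_ae
  refine ae_of_all _ fun x => ?_
  simp only
  by_cases hx : |x| ≤ w
  · rw [indicator_of_mem (show x ∈ {x : ℝ | |x| ≤ w} from hx),
      indicator_of_notMem (show x ∉ {x : ℝ | w < |x|} from not_lt.mpr hx)]
    rcases eq_or_ne x 0 with rfl | hx0
    · simp
    · have hx1 : 0 < |x| := abs_pos.mpr hx0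
      have h1 : |x| / w ≤ w / |x| := by
        rw [div_le_div_iff₀ hw0 hx1]
        nlinarith
      rw [min_eq_left h1, ← sq_abs x]
      ring
  · have hx' : w < |x| := not_le.mp hx
    have hx1 : 0 < |x| := hw0.trans hx'
    rw [indicator_of_notMem (show x ∉ {x : ℝ | |x| ≤ w} from hx),
      indicator_of_mem (show x ∈ {x : ℝ | w < |x|} from hx')]
    have h1 : w / |x| ≤ |x| / w := by
      rw [div_le_div_iff₀ hx1 hw0]
      nlinarith
    rw [min_eq_right h1, ← sq_abs x]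
    field_simp
    ring

lemma pb_11493 (c : ℝ) (hc : 0 < c) (u : ℝ) (hu : 0 ≤ u) :
    (1 + u) ^ 3 * Real.exp (-c * u ^ 2) ≤ (8 + 64 / c ^ 2) * Real.exp (-(c / 2) * u ^ 2) := by
  have h1 : (1 + u) ^ 3 ≤ (8 + 64 / c ^ 2) * Real.exp (c / 2 * u ^ 2) := by
    have h2 := Real.quadratic_le_exp_of_nonneg (x := c / 2 * u ^ 2) (by positivity)
    have h3 : (1 + u) ^ 3 ≤ 8 * (1 + u ^ 4) := by
      rcases le_total u 1 with h | h
      · have h4 : (1 + u) ^ 3 ≤ 2 ^ 3 := pow_le_pow_left₀ (by linarith) (by linarith) 3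
        have h5 : 0 ≤ u ^ 4 := by positivity
        linarith
      · have h4 : (1 + u) ^ 3 ≤ (2 * u) ^ 3 := pow_le_pow_left₀ (by linarith) (by linarith) 3
        have h5 : u ^ 3 ≤ u ^ 4 := pow_le_pow_right₀ h (by norm_num)
        nlinarith
    have h6 : 1 ≤ Real.exp (c / 2 * u ^ 2) := Real.one_le_exp (by positivity)
    have h7 : u ^ 4 ≤ 8 / c ^ 2 * Real.exp (c / 2 * u ^ 2) := by
      have h8 : c ^ 2 / 8 * u ^ 4 ≤ Real.exp (c / 2 * u ^ 2) := by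
        have h9 : (c / 2 * u ^ 2) ^ 2 / 2 = c ^ 2 / 8 * u ^ 4 := by ring
        have h10 : 0 ≤ c / 2 * u ^ 2 := by positivity
        linarith
      have h11 : u ^ 4 = 8 / c ^ 2 * (c ^ 2 / 8 * u ^ 4) := by field_simp
      rw [h11]
      exact mul_le_mul_of_nonneg_left h8 (by positivity)
    have h12 : 64 / c ^ 2 = 8 * (8 / c ^ 2) := by ring
    rw [h12]
    nlinarith
  have h13 : Real.exp (-(c / 2) * u ^ 2) = Real.exp (c / 2 * u ^ 2) * Real.exp (-c * u ^ 2) := by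
    rw [← Real.exp_add]
    congr 1
    ring
  rw [h13, ← mul_assoc]
  exact mul_le_mul_of_nonneg_right h1 (Real.exp_pos _).le

lemma absB_11493 (A : Finset ℕ) (h d : ℕ → ℂ) (θ : ℕ → ℝ) (X C1 R l W S : ℝ) (hX : 0 ≤ X)
    (hC1 : 0 ≤ C1) (hR : 0 ≤ R) (hl : 0 ≤ l) (hh : ∀ j ∈ A, ‖h j‖ ≤ X)
    (hd : ∀ j ∈ A, ‖d j‖ ≤ C1 * (R * |θ j| ^ 3 + l * |θ j|)) (hθ : ∀ j ∈ A, |θ j| ≤ W)
    (hS : ∑ j ∈ A, |θ j| ≤ S) :
    ‖∑ j ∈ A, h j * d j‖ ≤ X * C1 * S * (R * W ^ 2 + l) := by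
  calc ‖∑ j ∈ A, h j * d j‖ ≤ ∑ j ∈ A, ‖h j * d j‖ := norm_sum_le _ _
    _ ≤ ∑ j ∈ A, X * C1 * (R * W ^ 2 + l) * |θ j| := by
      apply Finset.sum_le_sum
      intro j hj
      rw [norm_mul]
      have h1 : ‖d j‖ ≤ C1 * ((R * W ^ 2 + l) * |θ j|) := by
        refine (hd j hj).trans (mul_le_mul_of_nonneg_left ?_ hC1)
        have h2 : |θ j| ^ 2 ≤ W ^ 2 := pow_le_pow_left₀ (abs_nonneg _) (hθ j hj) 2
        have h3 := mul_le_mul_of_nonneg_left h2 (mul_nonneg hR (abs_nonneg (θ j)))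
        nlinarith
      calc ‖h j‖ * ‖d j‖ ≤ X * (C1 * ((R * W ^ 2 + l) * |θ j|)) :=
            mul_le_mul (hh j hj) h1 (norm_nonneg _) hX
        _ = X * C1 * (R * W ^ 2 + l) * |θ j| := by ring
    _ = X * C1 * (R * W ^ 2 + l) * ∑ j ∈ A, |θ j| := by rw [Finset.mul_sum]
    _ ≤ X * C1 * (R * W ^ 2 + l) * S := mul_le_mul_of_nonneg_left hS (by positivity)
    _ = X * C1 * S * (R * W ^ 2 + l) := by ring


lemma sumab_11493 {K κ : ℝ} {n m : ℕ} {α β : ℕ → ℝ} (hW : Wts K κ n m α β) :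
    ∑ j ∈ Finset.range (n + 1), |α j| ≤ K * m ∧
    ∑ j ∈ Finset.range (n + 1), |β j| ≤ K * (m : ℝ) ^ 2 := by
  have hm : (0 : ℝ) < m := by
    have := hW.hm
    have h2 : 0 < m := by omega
    exact_mod_cast h2
  have h1 := hW.hsum
  rw [Finset.sum_add_distrib, ← Finset.sum_div] at h1
  have h2 : 0 ≤ ∑ j ∈ Finset.range (n + 1), |α j| := Finset.sum_nonneg fun _ _ => abs_nonneg _
  have h3 : 0 ≤ ∑ j ∈ Finset.range (n + 1), |β j| := Finset.sum_nonneg fun _ _ => abs_nonneg _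
  have h4 : 0 ≤ (∑ j ∈ Finset.range (n + 1), |β j|) / m := by positivity
  refine ⟨by linarith, ?_⟩
  have h5 : (∑ j ∈ Finset.range (n + 1), |β j|) / m ≤ K * m := by linarith
  rw [div_le_iff₀ hm] at h5
  linarith

lemma PX_11493 (μ : Measure ℝ) (L : ℝ) (n : ℕ) (α β : ℕ → ℝ) (s t : ℝ) :
    PhiX μ n α β s t - PhiG μ L n α β s t =
    ∑ j ∈ Finset.range (n + 1), hyb μ L n α β j s t * dd μ L (s * α j + t * β j) := by
  unfold PhiX PhiG hyb dd
  exact tel_11493 _ _ n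

lemma Dst_11493 (μ : Measure ℝ) (K κ a aH CH c C1 w : ℝ) (n m : ℕ) (α β : ℕ → ℝ)
    (hW : Wts K κ n m α β) (hw : 0 < w) (hwm : (m : ℝ) = w ^ 2)
    (hK : 0 < K) (ha : 0 < a) (haH : a ≤ aH)
    (haK : a * (1 + K) ≤ 1) (hCH : 0 < CH) (hC1 : 0 < C1) (hc : 0 < c)
    (h1 : ∀ θ : ℝ, |θ| ≤ 1 →
      ‖dd μ w θ‖ ≤ C1 * ((rho3 μ w + 1) * |θ| ^ 3 + lam1 μ w * |θ|))
    (h2 : ∀ j ∈ Finset.range (n + 1), ∀ s t : ℝ, |s| ≤ aH → |t| ≤ aH / m →
      ‖hyb μ w n α β j s t‖ ≤ CH * Real.exp (-c * ((m : ℝ) * s ^ 2 + (m : ℝ) ^ 3 * t ^ 2)))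
    (s t : ℝ) (hs : |s| ≤ a) (ht : |t| ≤ a / m) :
    ‖PhiX μ n α β s t - PhiG μ w n α β s t‖ ≤
      CH * C1 * K * (1 + K) ^ 2 * (8 + 64 / c ^ 2) ^ 2 * Real.exp (-(c / 2) * (m * s ^ 2)) *
        ((rho3 μ w + 1) / w + lam1 μ w * w) := by
  have hm0 : (0 : ℝ) < m := by rw [hwm]; positivity
  set R := rho3 μ w + 1 with hR
  set l := lam1 μ w with hl
  have hR0 : 0 ≤ R := by
    have := rho3_nonneg_11493 μ w
    linarith
  have hl0 : 0 ≤ l := lam1_nonneg_11493 μ w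
  obtain ⟨hsa, hsb⟩ := sumab_11493 hW
  set σ := w * |s| with hσ
  set τ := w ^ 3 * |t| with hτ
  have hσ0 : 0 ≤ σ := by positivity
  have hτ0 : 0 ≤ τ := by positivity
  have hsw : |s| = σ / w := by rw [hσ]; field_simp
  have htw : |t| = τ / w ^ 3 := by rw [hτ]; field_simp
  have hmt : |t| * m ≤ a := by
    rw [le_div_iff₀ hm0] at ht
    exact ht
  have hθ1 : ∀ j ∈ Finset.range (n + 1), |s * α j + t * β j| ≤ |s| * |α j| + |t| * |β j| := by
    intro j _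
    refine (abs_add_le _ _).trans ?_
    rw [abs_mul, abs_mul]
  have hθW : ∀ j ∈ Finset.range (n + 1), |s * α j + t * β j| ≤ (1 + K) * (σ + τ) / w := by
    intro j hj
    refine (hθ1 j hj).trans ?_
    have e1 : |s| * |α j| ≤ |s| * 1 := mul_le_mul_of_nonneg_left (hW.ha j hj) (abs_nonneg _)
    have e2 : |t| * |β j| ≤ |t| * (K * m) := mul_le_mul_of_nonneg_left (hW.hb j hj) (abs_nonneg _)
    have e3 : |t| * (K * m) = K * τ / w := by
      rw [htw, hwm]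
      field_simp
    rw [e3] at e2
    rw [mul_one, hsw] at e1
    have e4 : (1 + K) * (σ + τ) / w = σ / w + K * τ / w + (K * σ / w + τ / w) := by ring
    have e5 : 0 ≤ K * σ / w + τ / w := by positivity
    rw [e4]
    rw [← hsw] at *
    linarith
  have hθone : ∀ j ∈ Finset.range (n + 1), |s * α j + t * β j| ≤ 1 := by
    intro j hj
    refine (hθ1 j hj).trans ?_
    have e1 : |s| * |α j| ≤ |s| * 1 := mul_le_mul_of_nonneg_left (hW.ha j hj) (abs_nonneg _)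
    have e2 : |t| * |β j| ≤ |t| * (K * m) := mul_le_mul_of_nonneg_left (hW.hb j hj) (abs_nonneg _)
    have e3 : |t| * (K * m) = K * (|t| * m) := by ring
    have e4 : K * (|t| * m) ≤ K * a := mul_le_mul_of_nonneg_left hmt hK.le
    nlinarith
  have hS : ∑ j ∈ Finset.range (n + 1), |s * α j + t * β j| ≤ K * w * (σ + τ) := by
    calc ∑ j ∈ Finset.range (n + 1), |s * α j + t * β j|
        ≤ ∑ j ∈ Finset.range (n + 1), (|s| * |α j| + |t| * |β j|) := Finset.sum_le_sum hθ1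
      _ = |s| * ∑ j ∈ Finset.range (n + 1), |α j| + |t| * ∑ j ∈ Finset.range (n + 1), |β j| := by
          rw [Finset.sum_add_distrib, Finset.mul_sum, Finset.mul_sum]
      _ ≤ |s| * (K * m) + |t| * (K * (m : ℝ) ^ 2) := by gcongr
      _ = K * w * (σ + τ) := by
          rw [hsw, htw, hwm]
          field_simp
  have hX : 0 ≤ CH * Real.exp (-c * (σ ^ 2 + τ ^ 2)) := by positivity
  have hexpo : (m : ℝ) * s ^ 2 + (m : ℝ) ^ 3 * t ^ 2 = σ ^ 2 + τ ^ 2 := by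
    rw [hσ, hτ, hwm, mul_pow, mul_pow, sq_abs, sq_abs]
    ring
  have hmain := absB_11493 (Finset.range (n + 1)) (fun j => hyb μ w n α β j s t)
    (fun j => dd μ w (s * α j + t * β j)) (fun j => s * α j + t * β j)
    (CH * Real.exp (-c * (σ ^ 2 + τ ^ 2))) C1 R l ((1 + K) * (σ + τ) / w) (K * w * (σ + τ)) hX
    hC1.le hR0 hl0
    (fun j hj => by
      have := h2 j hj s t (hs.trans haH) (ht.trans (by gcongr))
      rwa [hexpo] at this)
    (fun j hj => h1 _ (hθone j hj)) hθW hS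
  rw [PX_11493]
  refine hmain.trans ?_
  have hP1 : σ + τ ≤ (1 + σ) * (1 + τ) := by nlinarith [mul_nonneg hσ0 hτ0]
  have hP0 : 1 ≤ (1 + σ) * (1 + τ) := by nlinarith [mul_nonneg hσ0 hτ0]
  have hP3 : (σ + τ) ^ 3 ≤ ((1 + σ) * (1 + τ)) ^ 3 := pow_le_pow_left₀ (by positivity) hP1 3
  have hP4 : σ + τ ≤ ((1 + σ) * (1 + τ)) ^ 3 :=
    hP1.trans (le_self_pow₀ hP0 (by norm_num))
  have hK1 : 1 ≤ (1 + K) ^ 2 := by nlinarith
  have e1 : K * w * (σ + τ) * (R * ((1 + K) * (σ + τ) / w) ^ 2 + l) =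
      K * ((1 + K) ^ 2 * (R / w) * (σ + τ) ^ 3 + l * w * (σ + τ)) := by
    field_simp
  have e2 : K * ((1 + K) ^ 2 * (R / w) * (σ + τ) ^ 3 + l * w * (σ + τ)) ≤
      K * ((1 + K) ^ 2 * ((R / w + l * w) * ((1 + σ) * (1 + τ)) ^ 3)) := by
    apply mul_le_mul_of_nonneg_left _ hK.le
    have f1 : (1 + K) ^ 2 * (R / w) * (σ + τ) ^ 3 ≤
        (1 + K) ^ 2 * (R / w) * ((1 + σ) * (1 + τ)) ^ 3 :=
      mul_le_mul_of_nonneg_left hP3 (by positivity)
    have f2 : l * w * (σ + τ) ≤ l * w * ((1 + σ) * (1 + τ)) ^ 3 :=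
      mul_le_mul_of_nonneg_left hP4 (by positivity)
    have f3 : l * w * ((1 + σ) * (1 + τ)) ^ 3 ≤
        (1 + K) ^ 2 * (l * w * ((1 + σ) * (1 + τ)) ^ 3) := by
      have : 0 ≤ l * w * ((1 + σ) * (1 + τ)) ^ 3 := by positivity
      nlinarith
    nlinarith
  have hσe := pb_11493 c hc σ hσ0
  have hτe := pb_11493 c hc τ hτ0
  have hτe2 : (1 + τ) ^ 3 * Real.exp (-c * τ ^ 2) ≤ 8 + 64 / c ^ 2 := by
    refine hτe.trans ?_
    have : Real.exp (-(c / 2) * τ ^ 2) ≤ 1 := by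
      apply Real.exp_le_one_iff.mpr
      have : 0 ≤ c / 2 * τ ^ 2 := by positivity
      linarith
    have h0 : 0 ≤ 8 + 64 / c ^ 2 := by positivity
    nlinarith
  have hms : (m : ℝ) * s ^ 2 = σ ^ 2 := by
    rw [hσ, hwm, mul_pow, sq_abs]
  rw [hms]
  have e3 : Real.exp (-c * (σ ^ 2 + τ ^ 2)) = Real.exp (-c * σ ^ 2) * Real.exp (-c * τ ^ 2) := by
    rw [← Real.exp_add]
    congr 1
    ring
  have e4 : ((1 + σ) ^ 3 * Real.exp (-c * σ ^ 2)) * ((1 + τ) ^ 3 * Real.exp (-c * τ ^ 2)) ≤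
      ((8 + 64 / c ^ 2) * Real.exp (-(c / 2) * σ ^ 2)) * (8 + 64 / c ^ 2) :=
    mul_le_mul hσe hτe2 (by positivity) (by positivity)
  calc CH * Real.exp (-c * (σ ^ 2 + τ ^ 2)) * C1 * (K * w * (σ + τ)) *
        (R * ((1 + K) * (σ + τ) / w) ^ 2 + l)
      = CH * C1 * Real.exp (-c * (σ ^ 2 + τ ^ 2)) *
        (K * w * (σ + τ) * (R * ((1 + K) * (σ + τ) / w) ^ 2 + l)) := by ring
    _ = CH * C1 * Real.exp (-c * (σ ^ 2 + τ ^ 2)) *
        (K * ((1 + K) ^ 2 * (R / w) * (σ + τ) ^ 3 + l * w * (σ + τ))) := by rw [e1]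
    _ ≤ CH * C1 * Real.exp (-c * (σ ^ 2 + τ ^ 2)) *
        (K * ((1 + K) ^ 2 * ((R / w + l * w) * ((1 + σ) * (1 + τ)) ^ 3))) :=
        mul_le_mul_of_nonneg_left e2 (by positivity)
    _ = CH * C1 * K * (1 + K) ^ 2 * (R / w + l * w) *
        (((1 + σ) ^ 3 * Real.exp (-c * σ ^ 2)) * ((1 + τ) ^ 3 * Real.exp (-c * τ ^ 2))) := by
        rw [e3]
        ring
    _ ≤ CH * C1 * K * (1 + K) ^ 2 * (R / w + l * w) *
        (((8 + 64 / c ^ 2) * Real.exp (-(c / 2) * σ ^ 2)) * (8 + 64 / c ^ 2)) :=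
        mul_le_mul_of_nonneg_left e4 (by positivity)
    _ = _ := by ring


lemma tail_11493 (e : ℝ) (he : 0 < e) :
    ∫⁻ t : ℝ, ENNReal.ofReal ((1 + (t / e) ^ 2)⁻¹) = ENNReal.ofReal (e * Real.pi) := by
  have hI : Integrable (fun t : ℝ => (1 + (t / e) ^ 2)⁻¹) :=
    integrable_inv_one_add_sq.comp_div he.ne'
  rw [← ofReal_integral_eq_lintegral_ofReal hI (ae_of_all _ fun t => by positivity)]
  congr 1
  have h1 := MeasureTheory.Measure.integral_comp_div (fun x : ℝ => (1 + x ^ 2)⁻¹) e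
  rw [h1, integral_univ_inv_one_add_sq, abs_of_pos he, smul_eq_mul]

lemma regB_11493 (S : Set ℝ) (F : ℝ → ℝ) (DB e : ℝ) (he : 0 < e) (hDB : 0 ≤ DB)
    (hF : ∀ t ∈ S, e < |t| ∧ F t ≤ DB) :
    ∫⁻ t in S, ENNReal.ofReal (F t / t ^ 2) ≤ ENNReal.ofReal (2 * Real.pi * DB / e) := by
  have hmeas : Measurable (fun t : ℝ => ENNReal.ofReal (2 * DB / e ^ 2) *
      ENNReal.ofReal ((1 + (t / e) ^ 2)⁻¹)) := by fun_prop
  calc ∫⁻ t in S, ENNReal.ofReal (F t / t ^ 2)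
      ≤ ∫⁻ t in S, ENNReal.ofReal (2 * DB / e ^ 2) * ENNReal.ofReal ((1 + (t / e) ^ 2)⁻¹) := by
        apply setLIntegral_mono hmeas
        intro t ht
        obtain ⟨h1, h2⟩ := hF t ht
        rw [← ENNReal.ofReal_mul (by positivity)]
        apply ENNReal.ofReal_le_ofReal
        have ht2 : e ^ 2 < t ^ 2 := by
          rw [← sq_abs t]
          exact pow_lt_pow_left₀ h1 he.le (by norm_num)
        have ht0 : 0 < t ^ 2 := by
          have : 0 < e ^ 2 := by positivity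
          linarith
        have h3 : 2 * DB / e ^ 2 * (1 + (t / e) ^ 2)⁻¹ = 2 * DB / (e ^ 2 + t ^ 2) := by
          field_simp
        rw [h3, div_le_div_iff₀ ht0 (by positivity)]
        have h4 : F t * (e ^ 2 + t ^ 2) ≤ DB * (e ^ 2 + t ^ 2) :=
          mul_le_mul_of_nonneg_right h2 (by positivity)
        nlinarith
    _ ≤ ∫⁻ t, ENNReal.ofReal (2 * DB / e ^ 2) * ENNReal.ofReal ((1 + (t / e) ^ 2)⁻¹) :=
        setLIntegral_le_lintegral _ _
    _ = ENNReal.ofReal (2 * DB / e ^ 2) * ENNReal.ofReal (e * Real.pi) := by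
        rw [lintegral_const_mul _ (by fun_prop), tail_11493 e he]
    _ = ENNReal.ofReal (2 * Real.pi * DB / e) := by
        rw [← ENNReal.ofReal_mul (by positivity)]
        congr 1
        field_simp

lemma idA_11493 (h0 hp hm d0 dp dm : ℂ) :
    ‖h0 * d0 - (hp * dp + hm * dm) / 2‖ ≤ ‖h0‖ * ‖d0 - (dp + dm) / 2‖ +
      ‖d0‖ * ‖h0 - (hp + hm) / 2‖ + (‖hp - h0‖ * ‖dp - d0‖ + ‖hm - h0‖ * ‖dm - d0‖) / 2 := by
  have h1 : h0 * d0 - (hp * dp + hm * dm) / 2 = h0 * (d0 - (dp + dm) / 2) +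
      d0 * (h0 - (hp + hm) / 2) - ((hp - h0) * (dp - d0) + (hm - h0) * (dm - d0)) / 2 := by ring
  rw [h1]
  refine (norm_sub_le _ _).trans ?_
  refine add_le_add ((norm_add_le _ _).trans ?_) ?_
  · rw [norm_mul, norm_mul]
  · rw [norm_div, Complex.norm_ofNat]
    apply div_le_div_of_nonneg_right _ (by norm_num)
    refine (norm_add_le _ _).trans ?_
    rw [norm_mul, norm_mul]

lemma dd_meas_11493 (μ : Measure ℝ) [IsProbabilityMeasure μ] (L : ℝ) : Measurable (dd μ L) := by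
  unfold dd gam
  have h1 : Measurable (charFun μ) := measurable_charFun
  fun_prop


lemma ptA_11493 (μ : Measure ℝ) (K C1 CH E w s : ℝ) (n : ℕ) (α β : ℕ → ℝ)
    (j : ℕ) (hw : 0 < w) (hCH : 0 < CH) (hC1 : 0 < C1) (hE : 0 ≤ E)
    (haj : |α j| ≤ 1) (hbj : |β j| ≤ K * w ^ 2) (hM : |s| + K / w ≤ 1)
    (h1 : ∀ θ : ℝ, |θ| ≤ 1 →
      ‖dd μ w θ‖ ≤ C1 * ((rho3 μ w + 1) * |θ| ^ 3 + lam1 μ w * |θ|))
    (h1b : ∀ M θ θ' : ℝ, |θ| ≤ M → |θ'| ≤ M → M ≤ 1 →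
      ‖dd μ w θ - dd μ w θ'‖ ≤ C1 * |θ - θ'| * ((rho3 μ w + 1) * M ^ 2 + lam1 μ w))
    (hX0 : ‖hyb μ w n α β j s 0‖ ≤ CH * E)
    (hX1 : ∀ t : ℝ, |t| ≤ 1 / w ^ 3 →
      ‖hyb μ w n α β j s t - hyb μ w n α β j s 0‖ ≤ CH * |t| * w ^ 3 * E)
    (hX2 : ∀ t : ℝ, |t| ≤ 1 / w ^ 3 →
      ‖hyb μ w n α β j s 0 - (hyb μ w n α β j s t + hyb μ w n α β j s (-t)) / 2‖
        ≤ CH * t ^ 2 * w ^ 6 * E) (t : ℝ) (ht : |t| ≤ 1 / w ^ 3) :
    ‖hyb μ w n α β j s 0 * dd μ w (s * α j) - (hyb μ w n α β j s t * dd μ w (s * α j + t * β j)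
      + hyb μ w n α β j s (-t) * dd μ w (s * α j - t * β j)) / 2‖ / t ^ 2 ≤
      CH * E * (‖dd μ w (s * α j) - (dd μ w (s * α j + t * β j) + dd μ w (s * α j - t * β j)) / 2‖
        / t ^ 2) + C1 * CH * E * (w ^ 6 * ((rho3 μ w + 1) * (|s| ^ 3 * |α j|) + lam1 μ w * (|s| * |α j|))
        + w ^ 3 * |β j| * ((rho3 μ w + 1) * (|s| + K / w) ^ 2 + lam1 μ w)) := by
  set R := rho3 μ w + 1 with hR
  set l := lam1 μ w with hl
  have hR0 : 0 ≤ R := by
    have := rho3_nonneg_11493 μ w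
    linarith
  have hl0 : 0 ≤ l := lam1_nonneg_11493 μ w
  have hK0 : 0 ≤ K := by
    have h0 : 0 ≤ K * w ^ 2 := (abs_nonneg _).trans hbj
    by_contra hneg
    push Not at hneg
    have : K * w ^ 2 < 0 := mul_neg_of_neg_of_pos hneg (by positivity)
    linarith
  have hB0 : 0 ≤ C1 * CH * E * (w ^ 6 * (R * (|s| ^ 3 * |α j|) + l * (|s| * |α j|))
        + w ^ 3 * |β j| * (R * (|s| + K / w) ^ 2 + l)) := by positivity
  rcases eq_or_ne t 0 with rfl | ht0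
  · simp only [ne_eq, OfNat.ofNat_ne_zero, not_false_eq_true, zero_pow, div_zero, mul_zero, zero_add]
    exact hB0
  have ht2 : 0 < t ^ 2 := by positivity
  have hp : |s * α j| ≤ |s| * |α j| := (abs_mul _ _).le
  have hp1 : |s * α j| ≤ |s| := by
    refine hp.trans ?_
    have := mul_le_mul_of_nonneg_left haj (abs_nonneg s)
    linarith
  have hKw : 0 ≤ K / w := by positivity
  have htq : |t * β j| ≤ K / w := by
    rw [abs_mul]
    calc |t| * |β j| ≤ 1 / w ^ 3 * (K * w ^ 2) :=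
          mul_le_mul ht hbj (abs_nonneg _) (by positivity)
      _ = K / w := by field_simp
  have hM1 : |s * α j| ≤ |s| + K / w := by linarith
  have hM2 : |s * α j + t * β j| ≤ |s| + K / w := (abs_add_le _ _).trans (by linarith)
  have hM3 : |s * α j - t * β j| ≤ |s| + K / w := (abs_sub _ _).trans (by linarith)
  have hd1 := h1b _ _ _ hM2 hM1 hM
  have hd2 := h1b _ _ _ hM3 hM1 hM
  have e1 : s * α j + t * β j - s * α j = t * β j := by ring
  have e2 : s * α j - t * β j - s * α j = -(t * β j) := by ring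
  rw [e1, abs_mul] at hd1
  rw [e2, abs_neg, abs_mul] at hd2
  have hd0 : ‖dd μ w (s * α j)‖ ≤ C1 * (R * (|s| ^ 3 * |α j|) + l * (|s| * |α j|)) := by
    refine (h1 _ (hM1.trans hM)).trans (mul_le_mul_of_nonneg_left ?_ hC1.le)
    apply add_le_add
    · apply mul_le_mul_of_nonneg_left _ hR0
      rw [abs_mul, mul_pow]
      apply mul_le_mul_of_nonneg_left _ (by positivity)
      exact pow_le_of_le_one (abs_nonneg _) haj (by norm_num)
    · exact mul_le_mul_of_nonneg_left hp hl0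
  have hx1 := hX1 t ht
  have hx2 := hX1 (-t) (by rwa [abs_neg])
  rw [abs_neg] at hx2
  have hx3 := hX2 t ht
  have hid := idA_11493 (hyb μ w n α β j s 0) (hyb μ w n α β j s t) (hyb μ w n α β j s (-t))
    (dd μ w (s * α j)) (dd μ w (s * α j + t * β j)) (dd μ w (s * α j - t * β j))
  have g1 := mul_le_mul_of_nonneg_right hX0 (norm_nonneg
    (dd μ w (s * α j) - (dd μ w (s * α j + t * β j) + dd μ w (s * α j - t * β j)) / 2))
  have g2 := mul_le_mul hd0 hx3 (norm_nonneg _) (by positivity)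
  have g3 := mul_le_mul hx1 hd1 (norm_nonneg _) (by positivity)
  have g4 := mul_le_mul hx2 hd2 (norm_nonneg _) (by positivity)
  rw [div_le_iff₀ ht2]
  have habs : |t| * |t| = t ^ 2 := by rw [abs_mul_abs_self]; ring
  have e3 : CH * |t| * w ^ 3 * E * (C1 * (|t| * |β j|) * (R * (|s| + K / w) ^ 2 + l)) =
      C1 * CH * E * (w ^ 3 * |β j| * (R * (|s| + K / w) ^ 2 + l)) * t ^ 2 := by
    rw [← habs]; ring
  have e4 : (CH * E * (‖dd μ w (s * α j) - (dd μ w (s * α j + t * β j)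
        + dd μ w (s * α j - t * β j)) / 2‖ / t ^ 2) + C1 * CH * E * (w ^ 6 * (R * (|s| ^ 3 * |α j|) + l * (|s| * |α j|))
        + w ^ 3 * |β j| * (R * (|s| + K / w) ^ 2 + l))) * t ^ 2 =
      CH * E * ‖dd μ w (s * α j) - (dd μ w (s * α j + t * β j)
        + dd μ w (s * α j - t * β j)) / 2‖ +
      C1 * (R * (|s| ^ 3 * |α j|) + l * (|s| * |α j|)) * (CH * t ^ 2 * w ^ 6 * E) +
      C1 * CH * E * (w ^ 3 * |β j| * (R * (|s| + K / w) ^ 2 + l)) * t ^ 2 := by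
    field_simp
    ring
  rw [e4]
  rw [e3] at g3 g4
  linarith

lemma sumA_11493 (A : Finset ℕ) (x y : ℕ → ℝ) (K R l w s : ℝ) (hw : 0 < w) (hK : 0 ≤ K) (hR : 0 ≤ R)
    (hl : 0 ≤ l) (hx1 : ∀ j ∈ A, 0 ≤ x j ∧ x j ≤ 1) (hs : 0 ≤ s)
    (hy1 : ∀ j ∈ A, 0 ≤ y j ∧ y j ≤ K * w ^ 2) (hsx : ∑ j ∈ A, x j ≤ K * w ^ 2)
    (hsy : ∑ j ∈ A, y j ≤ K * w ^ 4) :
    ∑ j ∈ A, ((1 / w ^ 3 * (y j) ^ 2 * R * (s * x j + 1 / w ^ 3 * y j) + y j * l) +
      (2 / w ^ 3) * (w ^ 6 * (R * (s ^ 3 * x j) + l * (s * x j)) +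
        w ^ 3 * y j * (R * (s + K / w) ^ 2 + l))) ≤
    (K ^ 2 * (1 + K) + 2 * K * (1 + K) ^ 2 + 7 * K) * (1 + w * s) ^ 3 * (R * w ^ 2 + l * w ^ 4) := by
  have hterm : ∀ j ∈ A, ((1 / w ^ 3 * (y j) ^ 2 * R * (s * x j + 1 / w ^ 3 * y j) + y j * l) +
      (2 / w ^ 3) * (w ^ 6 * (R * (s ^ 3 * x j) + l * (s * x j)) +
        w ^ 3 * y j * (R * (s + K / w) ^ 2 + l))) ≤
      (K / w * R * (s + K / w) + l + 2 * (R * (s + K / w) ^ 2 + l)) * y j +
        2 * w ^ 3 * (R * s ^ 3 + l * s) * x j := by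
    intro j hj
    obtain ⟨hx0, hx1'⟩ := hx1 j hj
    obtain ⟨hy0, hy1'⟩ := hy1 j hj
    have f1 : s * x j + 1 / w ^ 3 * y j ≤ s + K / w := by
      have g1 : s * x j ≤ s := by nlinarith
      have g2 : 1 / w ^ 3 * y j ≤ 1 / w ^ 3 * (K * w ^ 2) :=
        mul_le_mul_of_nonneg_left hy1' (by positivity)
      have g3 : 1 / w ^ 3 * (K * w ^ 2) = K / w := by field_simp
      linarith
    have f2 : 1 / w ^ 3 * (y j) ^ 2 * R ≤ K / w * R * y j := by
      have g1 : (y j) ^ 2 ≤ K * w ^ 2 * y j := by nlinarith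
      have g2 : 1 / w ^ 3 * (y j) ^ 2 ≤ 1 / w ^ 3 * (K * w ^ 2 * y j) :=
        mul_le_mul_of_nonneg_left g1 (by positivity)
      have g3 : 1 / w ^ 3 * (K * w ^ 2 * y j) = K / w * y j := by field_simp
      rw [g3] at g2
      calc 1 / w ^ 3 * (y j) ^ 2 * R ≤ K / w * y j * R := mul_le_mul_of_nonneg_right g2 hR
        _ = K / w * R * y j := by ring
    have f3 : 1 / w ^ 3 * (y j) ^ 2 * R * (s * x j + 1 / w ^ 3 * y j) ≤
        K / w * R * y j * (s + K / w) :=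
      mul_le_mul f2 f1 (by positivity) (by positivity)
    have f4 : (2 / w ^ 3) * (w ^ 6 * (R * (s ^ 3 * x j) + l * (s * x j)) +
        w ^ 3 * y j * (R * (s + K / w) ^ 2 + l)) =
        2 * w ^ 3 * (R * s ^ 3 + l * s) * x j + 2 * (R * (s + K / w) ^ 2 + l) * y j := by
      field_simp
    rw [f4]
    linarith
  refine (Finset.sum_le_sum hterm).trans ?_
  rw [Finset.sum_add_distrib, ← Finset.mul_sum, ← Finset.mul_sum]
  have hb1 : (K / w * R * (s + K / w) + l + 2 * (R * (s + K / w) ^ 2 + l)) * ∑ j ∈ A, y j ≤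
      (K / w * R * (s + K / w) + l + 2 * (R * (s + K / w) ^ 2 + l)) * (K * w ^ 4) :=
    mul_le_mul_of_nonneg_left hsy (by positivity)
  have hb2 : 2 * w ^ 3 * (R * s ^ 3 + l * s) * ∑ j ∈ A, x j ≤
      2 * w ^ 3 * (R * s ^ 3 + l * s) * (K * w ^ 2) :=
    mul_le_mul_of_nonneg_left hsx (by positivity)
  refine (add_le_add hb1 hb2).trans ?_
  set σ := w * s with hσ
  have hσ0 : 0 ≤ σ := by positivity
  have hsσ : s = σ / w := by rw [hσ]; field_simp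
  rw [hsσ]
  have e1 : (K / w * R * (σ / w + K / w) + l + 2 * (R * (σ / w + K / w) ^ 2 + l)) * (K * w ^ 4) +
      2 * w ^ 3 * (R * (σ / w) ^ 3 + l * (σ / w)) * (K * w ^ 2) =
      (K ^ 2 * (σ + K) + 2 * K * (σ + K) ^ 2 + 2 * K * σ ^ 3) * (R * w ^ 2) +
      (3 * K + 2 * K * σ) * (l * w ^ 4) := by
    field_simp
    ring
  rw [e1]
  have p1 : 1 ≤ (1 + σ) ^ 3 := one_le_pow₀ (by linarith)
  have p2 : σ ≤ (1 + σ) ^ 3 := by nlinarith [pow_nonneg hσ0 2, pow_nonneg hσ0 3]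
  have p3 : σ ^ 3 ≤ (1 + σ) ^ 3 := pow_le_pow_left₀ hσ0 (by linarith) 3
  have p4 : (σ + K) ^ 2 ≤ (1 + K) ^ 2 * (1 + σ) ^ 3 := by
    have q1 : σ + K ≤ (1 + K) * (1 + σ) := by nlinarith [mul_nonneg hK hσ0]
    have q2 : (σ + K) ^ 2 ≤ ((1 + K) * (1 + σ)) ^ 2 := pow_le_pow_left₀ (by positivity) q1 2
    have q3 : (1 + σ) ^ 2 ≤ (1 + σ) ^ 3 := pow_le_pow_right₀ (by linarith) (by norm_num)
    have q4 : 0 ≤ (1 + K) ^ 2 := by positivity
    calc (σ + K) ^ 2 ≤ (1 + K) ^ 2 * (1 + σ) ^ 2 := by rw [← mul_pow]; exact q2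
      _ ≤ (1 + K) ^ 2 * (1 + σ) ^ 3 := mul_le_mul_of_nonneg_left q3 q4
  have p5 : σ + K ≤ (1 + K) * (1 + σ) ^ 3 := by nlinarith
  have r1 : K ^ 2 * (σ + K) ≤ K ^ 2 * ((1 + K) * (1 + σ) ^ 3) :=
    mul_le_mul_of_nonneg_left p5 (by positivity)
  have r2 : 2 * K * (σ + K) ^ 2 ≤ 2 * K * ((1 + K) ^ 2 * (1 + σ) ^ 3) :=
    mul_le_mul_of_nonneg_left p4 (by positivity)
  have r3 : 2 * K * σ ^ 3 ≤ 2 * K * (1 + σ) ^ 3 := mul_le_mul_of_nonneg_left p3 (by positivity)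
  have r4 : 3 * K ≤ 3 * K * (1 + σ) ^ 3 := le_mul_of_one_le_right (by positivity) p1
  have r5 : 2 * K * σ ≤ 2 * K * (1 + σ) ^ 3 := mul_le_mul_of_nonneg_left p2 (by positivity)
  have r0 : 0 ≤ (1 + σ) ^ 3 := by positivity
  have r6 : 0 ≤ K * (1 + σ) ^ 3 := by positivity
  have r7 : 0 ≤ K ^ 2 * ((1 + K) * (1 + σ) ^ 3) := by positivity
  have r8 : 0 ≤ 2 * K * ((1 + K) ^ 2 * (1 + σ) ^ 3) := by positivity
  have s1 : K ^ 2 * (σ + K) + 2 * K * (σ + K) ^ 2 + 2 * K * σ ^ 3 ≤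
      (K ^ 2 * (1 + K) + 2 * K * (1 + K) ^ 2 + 7 * K) * (1 + σ) ^ 3 := by linarith
  have s2 : 3 * K + 2 * K * σ ≤
      (K ^ 2 * (1 + K) + 2 * K * (1 + K) ^ 2 + 7 * K) * (1 + σ) ^ 3 := by linarith
  have t1 := mul_le_mul_of_nonneg_right s1 (show 0 ≤ R * w ^ 2 by positivity)
  have t2 := mul_le_mul_of_nonneg_right s2 (show 0 ≤ l * w ^ 4 by positivity)
  have e2 : w * (σ / w) = σ := by field_simp
  linarith


lemma regA_11493 (μ : Measure ℝ) [IsProbabilityMeasure μ] (K κ C1 CH c w s : ℝ) (n m : ℕ) (α β : ℕ → ℝ)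
    (hW : Wts K κ n m α β) (hwm : (m : ℝ) = w ^ 2) (hK : 0 < K) (hc : 0 < c)
    (hw : 0 < w) (hCH : 0 < CH) (hC1 : 0 < C1) (hM : |s| + K / w ≤ 1)
    (h1 : ∀ θ : ℝ, |θ| ≤ 1 →
      ‖dd μ w θ‖ ≤ C1 * ((rho3 μ w + 1) * |θ| ^ 3 + lam1 μ w * |θ|))
    (h1b : ∀ M θ θ' : ℝ, |θ| ≤ M → |θ'| ≤ M → M ≤ 1 →
      ‖dd μ w θ - dd μ w θ'‖ ≤ C1 * |θ - θ'| * ((rho3 μ w + 1) * M ^ 2 + lam1 μ w))
    (h1c : ∀ p q e : ℝ, 0 < e → |p| + e * |q| ≤ 1 →
      ∫⁻ t in Icc (-e) e, ENNReal.ofReal (‖dd μ w p - (dd μ w (p + t * q) + dd μ w (p - t * q)) / 2‖ / t ^ 2)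
        ≤ ENNReal.ofReal (C1 * (e * q ^ 2 * (rho3 μ w + 1) * (|p| + e * |q|) + |q| * lam1 μ w)))
    (hX0 : ∀ j ∈ Finset.range (n + 1), ‖hyb μ w n α β j s 0‖ ≤ CH * Real.exp (-c * (w * |s|) ^ 2))
    (hX1 : ∀ j ∈ Finset.range (n + 1), ∀ t : ℝ, |t| ≤ 1 / w ^ 3 →
      ‖hyb μ w n α β j s t - hyb μ w n α β j s 0‖ ≤ CH * |t| * w ^ 3 * Real.exp (-c * (w * |s|) ^ 2))
    (hX2 : ∀ j ∈ Finset.range (n + 1), ∀ t : ℝ, |t| ≤ 1 / w ^ 3 →
      ‖hyb μ w n α β j s 0 - (hyb μ w n α β j s t + hyb μ w n α β j s (-t)) / 2‖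
        ≤ CH * t ^ 2 * w ^ 6 * Real.exp (-c * (w * |s|) ^ 2)) :
    ∫⁻ t in Icc (-(1 / w ^ 3)) (1 / w ^ 3), ENNReal.ofReal
      (‖(PhiX μ n α β s 0 - (PhiX μ n α β s t + PhiX μ n α β s (-t)) / 2)
        - (PhiG μ w n α β s 0 - (PhiG μ w n α β s t + PhiG μ w n α β s (-t)) / 2)‖ / t ^ 2) ≤
    ENNReal.ofReal (C1 * CH * (K ^ 2 * (1 + K) + 2 * K * (1 + K) ^ 2 + 7 * K) * (8 + 64 / c ^ 2) *
      Real.exp (-(c / 2) * (m * s ^ 2)) * ((rho3 μ w + 1) * w ^ 2 + lam1 μ w * w ^ 4)) := by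
  obtain ⟨hsa, hsb⟩ := sumab_11493 hW
  have hR0 : 0 ≤ rho3 μ w + 1 := by
    have := rho3_nonneg_11493 μ w
    linarith
  have hl0 : 0 ≤ lam1 μ w := lam1_nonneg_11493 μ w
  set E := Real.exp (-c * (w * |s|) ^ 2) with hE
  have hE0 : 0 ≤ E := (Real.exp_pos _).le
  have he : 0 < 1 / w ^ 3 := by positivity
  have hbj : ∀ j ∈ Finset.range (n + 1), |β j| ≤ K * w ^ 2 := by
    intro j hj
    have := hW.hb j hj
    rwa [hwm] at this
  set B : ℕ → ℝ := fun j => C1 * CH * E * (w ^ 6 * ((rho3 μ w + 1) * (|s| ^ 3 * |α j|) +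
    lam1 μ w * (|s| * |α j|)) + w ^ 3 * |β j| * ((rho3 μ w + 1) * (|s| + K / w) ^ 2 + lam1 μ w)) with hB
  have hB0 : ∀ j, 0 ≤ B j := fun j => by
    simp only [hB]
    positivity
  set D : ℕ → ℝ → ℝ := fun j t => ‖dd μ w (s * α j) - (dd μ w (s * α j + t * β j)
    + dd μ w (s * α j - t * β j)) / 2‖ / t ^ 2 with hD
  have hD0 : ∀ j t, 0 ≤ D j t := fun j t => by
    simp only [hD]
    positivity
  have hdm := dd_meas_11493 μ w
  have hDm : ∀ j, Measurable (D j) := by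
    intro j
    simp only [hD]
    have m1 : Measurable (fun t : ℝ => dd μ w (s * α j + t * β j)) :=
      hdm.comp (by fun_prop)
    have m2 : Measurable (fun t : ℝ => dd μ w (s * α j - t * β j)) :=
      hdm.comp (by fun_prop)
    fun_prop
  -- pointwise bound
  have hpt : ∀ t ∈ Icc (-(1 / w ^ 3)) (1 / w ^ 3),
      ENNReal.ofReal (‖(PhiX μ n α β s 0 - (PhiX μ n α β s t + PhiX μ n α β s (-t)) / 2)
        - (PhiG μ w n α β s 0 - (PhiG μ w n α β s t + PhiG μ w n α β s (-t)) / 2)‖ / t ^ 2) ≤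
      ∑ j ∈ Finset.range (n + 1), (ENNReal.ofReal (CH * E) * ENNReal.ofReal (D j t) +
        ENNReal.ofReal (B j)) := by
    intro t ht
    have ht' : |t| ≤ 1 / w ^ 3 := abs_le.mpr ht
    have e1 : (PhiX μ n α β s 0 - (PhiX μ n α β s t + PhiX μ n α β s (-t)) / 2)
        - (PhiG μ w n α β s 0 - (PhiG μ w n α β s t + PhiG μ w n α β s (-t)) / 2) =
        ∑ j ∈ Finset.range (n + 1), (hyb μ w n α β j s 0 * dd μ w (s * α j) -
          (hyb μ w n α β j s t * dd μ w (s * α j + t * β j)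
            + hyb μ w n α β j s (-t) * dd μ w (s * α j - t * β j)) / 2) := by
      have q0 := PX_11493 μ w n α β s 0
      have q1 := PX_11493 μ w n α β s t
      have q2 := PX_11493 μ w n α β s (-t)
      have r0 : ∀ j, s * α j + 0 * β j = s * α j := fun j => by ring
      have r2 : ∀ j, s * α j + -t * β j = s * α j - t * β j := fun j => by ring
      simp only [r0] at q0
      simp only [r2] at q2
      rw [Finset.sum_sub_distrib, ← Finset.sum_div, Finset.sum_add_distrib, ← q0, ← q1, ← q2]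
      ring
    rw [e1]
    have e2 : ‖∑ j ∈ Finset.range (n + 1), (hyb μ w n α β j s 0 * dd μ w (s * α j) -
          (hyb μ w n α β j s t * dd μ w (s * α j + t * β j)
            + hyb μ w n α β j s (-t) * dd μ w (s * α j - t * β j)) / 2)‖ / t ^ 2 ≤
        ∑ j ∈ Finset.range (n + 1), (CH * E * D j t + B j) := by
      calc _ ≤ (∑ j ∈ Finset.range (n + 1), ‖hyb μ w n α β j s 0 * dd μ w (s * α j) -
          (hyb μ w n α β j s t * dd μ w (s * α j + t * β j)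
            + hyb μ w n α β j s (-t) * dd μ w (s * α j - t * β j)) / 2‖) / t ^ 2 := by
            apply div_le_div_of_nonneg_right _ (sq_nonneg t)
            exact norm_sum_le _ _
        _ = ∑ j ∈ Finset.range (n + 1), ‖hyb μ w n α β j s 0 * dd μ w (s * α j) -
          (hyb μ w n α β j s t * dd μ w (s * α j + t * β j)
            + hyb μ w n α β j s (-t) * dd μ w (s * α j - t * β j)) / 2‖ / t ^ 2 := by
            rw [Finset.sum_div]
        _ ≤ _ := by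
            apply Finset.sum_le_sum
            intro j hj
            exact ptA_11493 μ K C1 CH E w s n α β j hw hCH hC1 hE0 (hW.ha j hj) (hbj j hj) hM h1 h1b
              (hX0 j hj) (hX1 j hj) (hX2 j hj) t ht'
    refine (ENNReal.ofReal_le_ofReal e2).trans ?_
    rw [ENNReal.ofReal_sum_of_nonneg (fun j _ => add_nonneg
      (mul_nonneg (mul_nonneg hCH.le hE0) (hD0 j t)) (hB0 j))]
    apply Finset.sum_le_sum
    intro j _
    rw [ENNReal.ofReal_add (mul_nonneg (mul_nonneg hCH.le hE0) (hD0 j t)) (hB0 j),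
      ENNReal.ofReal_mul (mul_nonneg hCH.le hE0)]
  have hmeas : ∀ j, Measurable (fun t => ENNReal.ofReal (CH * E) * ENNReal.ofReal (D j t) +
        ENNReal.ofReal (B j)) := fun j =>
    ((hDm j).ennreal_ofReal.const_mul _).add_const _
  refine (setLIntegral_mono (Finset.measurable_fun_sum _ (fun j _ => hmeas j)) hpt).trans ?_
  rw [lintegral_finsetSum _ (fun j _ => hmeas j)]
  have hj : ∀ j ∈ Finset.range (n + 1), ∫⁻ t in Icc (-(1 / w ^ 3)) (1 / w ^ 3),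
      (ENNReal.ofReal (CH * E) * ENNReal.ofReal (D j t) + ENNReal.ofReal (B j)) ≤
      ENNReal.ofReal (C1 * CH * E * (((1 / w ^ 3 * (|β j|) ^ 2 * (rho3 μ w + 1) *
        (|s| * |α j| + 1 / w ^ 3 * |β j|) + |β j| * lam1 μ w) +
      (2 / w ^ 3) * (w ^ 6 * ((rho3 μ w + 1) * (|s| ^ 3 * |α j|) + lam1 μ w * (|s| * |α j|)) +
        w ^ 3 * |β j| * ((rho3 μ w + 1) * (|s| + K / w) ^ 2 + lam1 μ w))))) := by
    intro j hj
    rw [lintegral_add_right _ measurable_const, lintegral_const_mul _ (hDm j).ennreal_ofReal,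
      setLIntegral_const, Real.volume_Icc]
    have hpq : |s * α j| + 1 / w ^ 3 * |β j| ≤ 1 := by
      have g1 : |s * α j| ≤ |s| := by
        rw [abs_mul]
        exact mul_le_of_le_one_right (abs_nonneg _) (hW.ha j hj)
      have g2 : 1 / w ^ 3 * |β j| ≤ 1 / w ^ 3 * (K * w ^ 2) :=
        mul_le_mul_of_nonneg_left (hbj j hj) (by positivity)
      have g3 : 1 / w ^ 3 * (K * w ^ 2) = K / w := by field_simp
      linarith
    have hc1 := h1c (s * α j) (β j) (1 / w ^ 3) he hpq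
    have hle : ENNReal.ofReal (CH * E) * (∫⁻ t in Icc (-(1 / w ^ 3)) (1 / w ^ 3), ENNReal.ofReal (D j t)) +
        ENNReal.ofReal (B j) * ENNReal.ofReal (1 / w ^ 3 - -(1 / w ^ 3)) ≤
        ENNReal.ofReal (CH * E) * ENNReal.ofReal (C1 * (1 / w ^ 3 * (β j) ^ 2 * (rho3 μ w + 1) *
          (|s * α j| + 1 / w ^ 3 * |β j|) + |β j| * lam1 μ w)) +
        ENNReal.ofReal (B j) * ENNReal.ofReal (1 / w ^ 3 - -(1 / w ^ 3)) := by
      gcongr
    refine hle.trans ?_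
    rw [← ENNReal.ofReal_mul (mul_nonneg hCH.le hE0), ← ENNReal.ofReal_mul (hB0 j),
      ← ENNReal.ofReal_add (by positivity) (mul_nonneg (hB0 j) (by linarith))]
    apply le_of_eq
    congr 1
    simp only [hB]
    rw [abs_mul, sq_abs]
    ring
  refine (Finset.sum_le_sum hj).trans ?_
  rw [← ENNReal.ofReal_sum_of_nonneg (fun j _ => by positivity)]
  apply ENNReal.ofReal_le_ofReal
  rw [← Finset.mul_sum]
  have hsb' : ∑ j ∈ Finset.range (n + 1), |β j| ≤ K * w ^ 4 := by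
    rw [hwm] at hsb
    calc _ ≤ _ := hsb
      _ = K * w ^ 4 := by ring
  have hsa' : ∑ j ∈ Finset.range (n + 1), |α j| ≤ K * w ^ 2 := by
    rw [hwm] at hsa
    exact hsa
  have hfin := sumA_11493 (Finset.range (n + 1)) (fun j => |α j|) (fun j => |β j|) K
    (rho3 μ w + 1) (lam1 μ w) w |s| hw hK.le hR0 hl0 (fun j hj => ⟨abs_nonneg _, hW.ha j hj⟩)
    (abs_nonneg s) (fun j hj => ⟨abs_nonneg _, hbj j hj⟩) hsa' hsb'
  refine (mul_le_mul_of_nonneg_left hfin (by positivity)).trans ?_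
  have hpb := pb_11493 c hc (w * |s|) (by positivity)
  have hms : (m : ℝ) * s ^ 2 = (w * |s|) ^ 2 := by rw [hwm, mul_pow, sq_abs]
  rw [hms]
  calc C1 * CH * E * ((K ^ 2 * (1 + K) + 2 * K * (1 + K) ^ 2 + 7 * K) * (1 + w * |s|) ^ 3 *
        ((rho3 μ w + 1) * w ^ 2 + lam1 μ w * w ^ 4))
      = C1 * CH * (K ^ 2 * (1 + K) + 2 * K * (1 + K) ^ 2 + 7 * K) *
        ((rho3 μ w + 1) * w ^ 2 + lam1 μ w * w ^ 4) * ((1 + w * |s|) ^ 3 * E) := by ring
    _ ≤ C1 * CH * (K ^ 2 * (1 + K) + 2 * K * (1 + K) ^ 2 + 7 * K) *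
        ((rho3 μ w + 1) * w ^ 2 + lam1 μ w * w ^ 4) * ((8 + 64 / c ^ 2) *
          Real.exp (-(c / 2) * (w * |s|) ^ 2)) :=
        mul_le_mul_of_nonneg_left hpb (by positivity)
    _ = _ := by ring


lemma inn_11493 (μ : Measure ℝ) [IsProbabilityMeasure μ] (K κ a aH C1 CH c w s : ℝ) (n m : ℕ)
    (α β : ℕ → ℝ)
    (hW : Wts K κ n m α β) (hwm : (m : ℝ) = w ^ 2) (hK : 0 < K) (hc : 0 < c)
    (hw : 0 < w) (hCH : 0 < CH) (hC1 : 0 < C1) (ha : 0 < a) (haH : a ≤ aH)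
    (haK : a * (1 + K) ≤ 1) (hwa : 1 / w ≤ a)
    (h1 : ∀ θ : ℝ, |θ| ≤ 1 →
      ‖dd μ w θ‖ ≤ C1 * ((rho3 μ w + 1) * |θ| ^ 3 + lam1 μ w * |θ|))
    (h1b : ∀ M θ θ' : ℝ, |θ| ≤ M → |θ'| ≤ M → M ≤ 1 →
      ‖dd μ w θ - dd μ w θ'‖ ≤ C1 * |θ - θ'| * ((rho3 μ w + 1) * M ^ 2 + lam1 μ w))
    (h1c : ∀ p q e : ℝ, 0 < e → |p| + e * |q| ≤ 1 →
      ∫⁻ t in Icc (-e) e, ENNReal.ofReal (‖dd μ w p - (dd μ w (p + t * q) + dd μ w (p - t * q)) / 2‖ / t ^ 2)
        ≤ ENNReal.ofReal (C1 * (e * q ^ 2 * (rho3 μ w + 1) * (|p| + e * |q|) + |q| * lam1 μ w)))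
    (h2 : ∀ j ∈ Finset.range (n + 1), ∀ s t : ℝ, |s| ≤ aH → |t| ≤ aH / m →
      ‖hyb μ w n α β j s t‖ ≤ CH * Real.exp (-c * ((m : ℝ) * s ^ 2 + (m : ℝ) ^ 3 * t ^ 2)) ∧
      (|t| ≤ (m : ℝ) ^ (-(3 / 2) : ℝ) →
        ‖hyb μ w n α β j s t - hyb μ w n α β j s 0‖
          ≤ CH * |t| * (m : ℝ) ^ (3 / 2 : ℝ) * Real.exp (-c * ((m : ℝ) * s ^ 2)) ∧
        ‖hyb μ w n α β j s 0 - (hyb μ w n α β j s t
            + hyb μ w n α β j s (-t)) / 2‖
          ≤ CH * t ^ 2 * (m : ℝ) ^ 3 * Real.exp (-c * ((m : ℝ) * s ^ 2))))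
    (hs : |s| ≤ a) :
    ∫⁻ t in Icc (-(a / m)) (a / m), ENNReal.ofReal
      (‖(PhiX μ n α β s 0 - (PhiX μ n α β s t + PhiX μ n α β s (-t)) / 2)
        - (PhiG μ w n α β s 0 - (PhiG μ w n α β s t + PhiG μ w n α β s (-t)) / 2)‖ / t ^ 2) ≤
    ENNReal.ofReal ((C1 * CH * (K ^ 2 * (1 + K) + 2 * K * (1 + K) ^ 2 + 7 * K) * (8 + 64 / c ^ 2) +
      4 * Real.pi * (CH * C1 * K * (1 + K) ^ 2 * (8 + 64 / c ^ 2) ^ 2)) *
      ((rho3 μ w + 1) * w ^ 2 + lam1 μ w * w ^ 4) * Real.exp (-(c / 2 * m) * s ^ 2)) := by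
  have hm0 : (0 : ℝ) < m := by rw [hwm]; positivity
  have hR0 : 0 ≤ rho3 μ w + 1 := by
    have := rho3_nonneg_11493 μ w
    linarith
  have hl0 : 0 ≤ lam1 μ w := lam1_nonneg_11493 μ w
  have hpi := Real.pi_pos
  have hwm' : w = (m : ℝ) ^ (1 / 2 : ℝ) := by
    rw [← Real.sqrt_eq_rpow, hwm, Real.sqrt_sq hw.le]
  have hr1 : (m : ℝ) ^ (3 / 2 : ℝ) = w ^ 3 := by
    rw [hwm', ← Real.rpow_natCast, ← Real.rpow_mul hm0.le]
    norm_num
  have hr2 : (m : ℝ) ^ (-(3 / 2) : ℝ) = 1 / w ^ 3 := by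
    rw [Real.rpow_neg hm0.le, hr1, one_div]
  have hem : 1 / w ^ 3 ≤ a / m := by
    rw [hwm]
    have e1 : 1 / w ^ 3 = (1 / w) / w ^ 2 := by field_simp
    rw [e1]
    exact div_le_div_of_nonneg_right hwa (by positivity)
  have haH' : ∀ t : ℝ, |t| ≤ a / m → |t| ≤ aH / m := fun t ht => ht.trans (by gcongr)
  have hmm : (m : ℝ) * s ^ 2 = (w * |s|) ^ 2 := by rw [hwm, mul_pow, sq_abs]
  have hm3 : (m : ℝ) ^ 3 = w ^ 6 := by rw [hwm]; ring
  have hM : |s| + K / w ≤ 1 := by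
    have g1 : K / w = K * (1 / w) := by ring
    have g2 : K * (1 / w) ≤ K * a := mul_le_mul_of_nonneg_left hwa hK.le
    rw [g1]
    linarith
  have hsub : Icc (-(a / m)) (a / m) ⊆ Icc (-(1 / w ^ 3)) (1 / w ^ 3) ∪
      {t : ℝ | 1 / w ^ 3 < |t| ∧ |t| ≤ a / m} := by
    intro t ht
    have ht' : |t| ≤ a / m := abs_le.mpr ht
    rcases le_or_gt |t| (1 / w ^ 3) with h | h
    · exact Or.inl (abs_le.mp h)
    · exact Or.inr ⟨h, ht'⟩
  have hA := regA_11493 μ K κ C1 CH c w s n m α β hW hwm hK hc hw hCH hC1 hM h1 h1b h1c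
    (fun j hj => by
      have := (h2 j hj s 0 (hs.trans haH) (by rw [abs_zero]; exact div_nonneg (ha.le.trans haH) hm0.le)).1
      rw [hmm] at this
      simpa using this)
    (fun j hj t ht => by
      have := ((h2 j hj s t (hs.trans haH) (haH' t (ht.trans hem))).2 (by rwa [hr2])).1
      rwa [hmm, hr1] at this)
    (fun j hj t ht => by
      have := ((h2 j hj s t (hs.trans haH) (haH' t (ht.trans hem))).2 (by rwa [hr2])).2
      rwa [hmm, hm3] at this)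
  set DB0 := CH * C1 * K * (1 + K) ^ 2 * (8 + 64 / c ^ 2) ^ 2 * Real.exp (-(c / 2) * (m * s ^ 2)) *
        ((rho3 μ w + 1) / w + lam1 μ w * w) with hDB
  have hDB0 : 0 ≤ DB0 := by positivity
  have hD : ∀ t : ℝ, |t| ≤ a / m → ‖PhiX μ n α β s t - PhiG μ w n α β s t‖ ≤ DB0 := fun t ht =>
    Dst_11493 μ K κ a aH CH c C1 w n m α β hW hw hwm hK ha haH haK hCH hC1 hc h1
      (fun j hj s t hs ht => (h2 j hj s t hs ht).1) s t hs ht
  have hB := regB_11493 {t : ℝ | 1 / w ^ 3 < |t| ∧ |t| ≤ a / m}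
    (fun t => ‖(PhiX μ n α β s 0 - (PhiX μ n α β s t + PhiX μ n α β s (-t)) / 2)
        - (PhiG μ w n α β s 0 - (PhiG μ w n α β s t + PhiG μ w n α β s (-t)) / 2)‖) (2 * DB0)
    (1 / w ^ 3) (by positivity) (by positivity) (by
      rintro t ⟨ht1, ht2⟩
      refine ⟨ht1, ?_⟩
      have d0 := hD 0 (by rw [abs_zero]; positivity)
      have d1 := hD t ht2
      have d2 := hD (-t) (by rwa [abs_neg])
      have e1 : (PhiX μ n α β s 0 - (PhiX μ n α β s t + PhiX μ n α β s (-t)) / 2)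
        - (PhiG μ w n α β s 0 - (PhiG μ w n α β s t + PhiG μ w n α β s (-t)) / 2) =
        (PhiX μ n α β s 0 - PhiG μ w n α β s 0) - ((PhiX μ n α β s t - PhiG μ w n α β s t) +
          (PhiX μ n α β s (-t) - PhiG μ w n α β s (-t))) / 2 := by ring
      rw [e1]
      refine (norm_sub_le _ _).trans ?_
      rw [norm_div, Complex.norm_ofNat]
      have e2 := norm_add_le (PhiX μ n α β s t - PhiG μ w n α β s t)
          (PhiX μ n α β s (-t) - PhiG μ w n α β s (-t))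
      linarith)
  refine (lintegral_mono_set hsub).trans ((lintegral_union_le _ _ _).trans
    ((add_le_add hA hB).trans ?_))
  rw [← ENNReal.ofReal_add (by positivity) (by positivity)]
  apply ENNReal.ofReal_le_ofReal
  apply le_of_eq
  have e3 : -(c / 2 * (m : ℝ)) * s ^ 2 = -(c / 2) * (m * s ^ 2) := by ring
  rw [e3, hDB]
  field_simp
  ring

theorem fin_11493 (μ : Measure ℝ) (hμ : Std μ) (h1 : OneVar μ) (h2 : Hyb μ) : FComp μ := by
  have := hμ.prob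
  intro K κ hK hκ
  obtain ⟨aH, haH, CH, hCH, c, hc, m0, hH⟩ := h2 K κ hK hκ
  obtain ⟨C1, hC1, hO⟩ := h1
  have hK1 : 0 < 1 + K := by linarith
  refine ⟨min aH (1 / (1 + K)), lt_min haH (by positivity), ?_⟩
  intro a ha haa
  obtain ⟨N, hN⟩ := exists_nat_ge ((1 / a) ^ 2)
  have hpi := Real.pi_pos
  set CC := C1 * CH * (K ^ 2 * (1 + K) + 2 * K * (1 + K) ^ 2 + 7 * K) * (8 + 64 / c ^ 2) +
      4 * Real.pi * (CH * C1 * K * (1 + K) ^ 2 * (8 + 64 / c ^ 2) ^ 2) with hCC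
  have hCC0 : 0 < CC := by positivity
  refine ⟨CC * Real.sqrt (2 * Real.pi / c), by positivity, max m0 (max N 1), ?_⟩
  intro n m α β hm hW
  have hm1 : m0 ≤ m := (le_max_left _ _).trans hm
  have hm2 : N ≤ m := ((le_max_left _ _).trans (le_max_right _ _)).trans hm
  have hm3 : 1 ≤ m := ((le_max_right _ _).trans (le_max_right _ _)).trans hm
  have hm0 : (0 : ℝ) < m := by exact_mod_cast hm3
  set w := Real.sqrt m with hwdef
  have hw : 0 < w := Real.sqrt_pos.mpr hm0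
  have hwm : (m : ℝ) = w ^ 2 := (Real.sq_sqrt hm0.le).symm
  have hR0 : 0 ≤ rho3 μ w + 1 := by
    have := rho3_nonneg_11493 μ w
    linarith
  have hl0 : 0 ≤ lam1 μ w := lam1_nonneg_11493 μ w
  have haH2 : a ≤ aH := haa.trans (min_le_left _ _)
  have haK : a * (1 + K) ≤ 1 := by
    have g1 : a ≤ 1 / (1 + K) := haa.trans (min_le_right _ _)
    rwa [le_div_iff₀ hK1] at g1
  have hwa : 1 / w ≤ a := by
    have g1 : (1 / a) ^ 2 ≤ m := hN.trans (by exact_mod_cast hm2)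
    have g2 : 1 / a ≤ w := by
      rw [hwdef]
      exact Real.le_sqrt_of_sq_le g1
    rw [div_le_iff₀ hw]
    rw [div_le_iff₀ ha] at g2
    linarith
  have hin : ∀ s ∈ Icc (-a) a, ∫⁻ t in Icc (-(a / m)) (a / m), ENNReal.ofReal
      (‖(PhiX μ n α β s 0 - (PhiX μ n α β s t + PhiX μ n α β s (-t)) / 2)
        - (PhiG μ w n α β s 0 - (PhiG μ w n α β s t
            + PhiG μ w n α β s (-t)) / 2)‖ / t ^ 2) ≤
      ENNReal.ofReal (CC * ((rho3 μ w + 1) * w ^ 2 + lam1 μ w * w ^ 4) *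
        Real.exp (-(c / 2 * m) * s ^ 2)) := by
    intro s hs
    exact inn_11493 μ K κ a aH C1 CH c w s n m α β hW hwm hK hc hw hCH hC1 ha haH2 haK hwa
      (hO w hw.le).1 (hO w hw.le).2.1 (hO w hw.le).2.2 (hH n m α β hm1 hW) (abs_le.mpr hs)
  have hmeas : Measurable (fun s : ℝ => ENNReal.ofReal (CC * ((rho3 μ w + 1) * w ^ 2 + lam1 μ w * w ^ 4) *
        Real.exp (-(c / 2 * m) * s ^ 2))) := by fun_prop
  refine (setLIntegral_mono hmeas hin).trans ?_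
  refine (setLIntegral_le_lintegral _ _).trans ?_
  have hb : 0 < c / 2 * (m : ℝ) := by positivity
  have hI : Integrable (fun s : ℝ => CC * ((rho3 μ w + 1) * w ^ 2 + lam1 μ w * w ^ 4) *
        Real.exp (-(c / 2 * m) * s ^ 2)) := (integrable_exp_neg_mul_sq hb).const_mul _
  rw [← ofReal_integral_eq_lintegral_ofReal hI (ae_of_all _ fun s => by positivity),
    integral_const_mul, integral_gaussian]
  apply ENNReal.ofReal_le_ofReal
  apply le_of_eq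
  have e1 : Real.pi / (c / 2 * (m : ℝ)) = (2 * Real.pi / c) / m := by
    field_simp
  rw [e1, Real.sqrt_div' _ hm0.le, ← hwdef, AA_11493 μ hμ m hm3, ← hwdef]
  have e2 : (m : ℝ) ^ (-(1 / 2) : ℝ) = 1 / w := by
    rw [Real.rpow_neg hm0.le, ← Real.sqrt_eq_rpow, one_div]
  rw [e2, hwm]
  have hw' : w ≠ 0 := hw.ne'
  field_simp
  ring


theorem fComp_of (μ : Measure ℝ) (hμ : Std μ) (h1 : OneVar μ) (h2 : Hyb μ) : FComp μ := by
  exact fin_11493 μ hμ h1 h2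


end F3
end Kac764
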