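import Pool.Agent.Helper764.KacDefs

set_option autoImplicit false
set_option maxHeartbeats 4000000
open MeasureTheory ProbabilityTheory Filter Topology Set
open scoped ENNReal NNReal

namespace Kac764
namespace P1

/-- Gaussian-type decay of the characteristic function near `0`. -/
theorem char_bound (μ : Measure ℝ) [IsProbabilityMeasure μ] (h2 : Integrable (fun x : ℝ => x ^ 2) μ)
    (hm : ∫ x, x ∂μ = 0) (hv : ∫ x, x ^ 2 ∂μ = 1) :
    ∃ c0 > 0, ∃ c > 0, ∀ θ : ℝ, |θ| ≤ c0 → ‖charFun μ θ‖ ≤ Real.exp (-c * θ ^ 2) := by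
  have ht := taylor_charFun_two (P := μ) (X := fun x : ℝ => x) aemeasurable_id' (by simpa using hm)
    (by simpa [Pi.pow_apply] using hv)
  have hid : Measure.map (fun x : ℝ => x) μ = μ := Measure.map_id'
  rw [hid] at ht
  have h4 := ht.def (c := 1/4) (by norm_num)
  obtain ⟨ε, hε, hb⟩ := Metric.eventually_nhds_iff.1 h4
  refine ⟨min (ε / 2) 1, by positivity, 1/4, by norm_num, ?_⟩
  intro θ hθ
  have h1 : |θ| ≤ 1 := le_trans hθ (min_le_right _ _)
  have h2' : |θ| < ε := lt_of_le_of_lt (le_trans hθ (min_le_left _ _)) (by linarith)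
  have h3 := hb (y := θ) (by simpa [Real.dist_eq] using h2')
  have hsq : θ ^ 2 ≤ 1 := by
    rw [← sq_abs]; nlinarith [abs_nonneg θ]
  have hn : ‖(1 : ℂ) - (θ : ℂ) ^ 2 / 2‖ = 1 - θ ^ 2 / 2 := by
    have : (1 : ℂ) - (θ : ℂ) ^ 2 / 2 = ((1 - θ ^ 2 / 2 : ℝ) : ℂ) := by push_cast; ring
    rw [this, Complex.norm_real, Real.norm_eq_abs, abs_of_nonneg (by linarith)]
  have h5 : ‖charFun μ θ‖ ≤ 1 - θ ^ 2 / 4 := by
    have h6 : charFun μ θ = (charFun μ θ - (1 - (θ : ℂ) ^ 2 / 2)) + (1 - (θ : ℂ) ^ 2 / 2) := by ring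
    rw [h6]
    refine le_trans (norm_add_le _ _) ?_
    rw [hn]
    have h7 : ‖θ ^ 2‖ = θ ^ 2 := by rw [Real.norm_eq_abs, abs_of_nonneg (sq_nonneg _)]
    rw [h7] at h3
    linarith
  refine le_trans h5 ?_
  have := Real.add_one_le_exp (-(1/4) * θ ^ 2)
  linarith

/-- characteristic function of a finite linear combination of the coefficients. -/
theorem char_prod (μ : Measure ℝ) [IsProbabilityMeasure μ] (n : ℕ) (θ : ℕ → ℝ) :
    ∫ ω, Complex.exp (Complex.I * ((∑ j ∈ Finset.range (n + 1), θ j * ω j : ℝ) : ℂ)) ∂(PP μ)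
      = ∏ j ∈ Finset.range (n + 1), charFun μ (θ j) := by
  have h1 : ∀ ω : ℕ → ℝ, Complex.exp (Complex.I * ((∑ j ∈ Finset.range (n + 1), θ j * ω j : ℝ) : ℂ))
      = (fun y : (Π i : (Finset.range (n+1)), ℝ) => ∏ i : (Finset.range (n+1)), Complex.exp ((θ (i : ℕ) : ℂ) * (y i : ℂ) * Complex.I))
        ((Finset.range (n+1)).restrict ω) := by
    intro ω
    simp only [Finset.restrict]
    rw [← Complex.exp_sum]
    congr 1
    rw [← Finset.sum_coe_sort (Finset.range (n+1))]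
    push_cast
    rw [Finset.mul_sum]
    refine Finset.sum_congr rfl fun i _ => ?_
    ring
  rw [integral_congr_ae (ae_of_all _ h1)]
  rw [integral_restrict_infinitePi (μ := fun _ : ℕ => μ) (s := Finset.range (n+1))
    (f := (fun y : (Π i : (Finset.range (n+1)), ℝ) => ∏ i : (Finset.range (n+1)), Complex.exp ((θ (i : ℕ) : ℂ) * (y i : ℂ) * Complex.I)))]
  · rw [integral_fintype_prod_eq_prod (f := fun (i : (Finset.range (n+1))) (x : ℝ) => Complex.exp ((θ i : ℂ) * (x : ℂ) * Complex.I))]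
    rw [Finset.prod_coe_sort (Finset.range (n+1)) (fun i => ∫ x : ℝ, Complex.exp ((θ i : ℂ) * (x : ℂ) * Complex.I) ∂μ)]
    refine Finset.prod_congr rfl fun i _ => ?_
    rw [charFun_apply_real]
  · apply Measurable.aestronglyMeasurable
    fun_prop


end P1
end Kac764
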