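import Pool.Agent.Helper764.KacDefs

set_option autoImplicit false
set_option maxHeartbeats 4000000
open MeasureTheory ProbabilityTheory Filter Topology Set
open scoped ENNReal NNReal

namespace Kac764
namespace P3

theorem small_ball_char_prod (μ : Measure ℝ) [IsProbabilityMeasure μ] (N : ℕ) (θ : ℕ → ℝ) :
    ∫ ω, Complex.exp (((∑ j ∈ Finset.range N, ω j * θ j : ℝ) : ℂ) * Complex.I) ∂(PP μ)
      = ∏ j ∈ Finset.range N, charFun μ (θ j) := by
  have h1 : ∀ ω : ℕ → ℝ, Complex.exp (((∑ j ∈ Finset.range N, ω j * θ j : ℝ) : ℂ) * Complex.I)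
      = (fun y : (Finset.range N) → ℝ => ∏ j : Finset.range N,
          Complex.exp ((θ j : ℂ) * (y j : ℂ) * Complex.I)) ((Finset.range N).restrict ω) := by
    intro ω
    simp only [Finset.restrict]
    rw [Finset.prod_coe_sort (Finset.range N)
      (fun j => Complex.exp ((θ j : ℂ) * (ω j : ℂ) * Complex.I)), ← Complex.exp_sum]
    congr 1
    push_cast
    rw [Finset.sum_mul]
    apply Finset.sum_congr rfl
    intro j _
    ring
  have hF : AEStronglyMeasurable (fun y : (Finset.range N) → ℝ => ∏ j : Finset.range N,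
          Complex.exp ((θ j : ℂ) * (y j : ℂ) * Complex.I))
          (Measure.pi (fun i : Finset.range N => (fun _ : ℕ => μ) i)) := by
    apply Continuous.aestronglyMeasurable
    fun_prop
  have key := integral_restrict_infinitePi (μ := fun _ : ℕ => μ) (s := Finset.range N) hF
  rw [integral_congr_ae (Filter.Eventually.of_forall h1)]
  refine key.trans ?_
  rw [integral_fintype_prod_eq_prod (f := fun (j : Finset.range N) (x : ℝ) =>
      Complex.exp ((θ j : ℂ) * (x : ℂ) * Complex.I))]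
  rw [← Finset.prod_coe_sort (Finset.range N)]
  apply Finset.prod_congr rfl
  intro j _
  rw [charFun_apply_real]

theorem small_ball_char_bound (μ : Measure ℝ) [IsProbabilityMeasure μ] {c c0 : ℝ}
    (hμ : ∀ θ : ℝ, |θ| ≤ c0 → ‖charFun μ θ‖ ≤ Real.exp (-c * θ ^ 2)) (N : ℕ) (θ : ℕ → ℝ)
    (hθ : ∀ j ∈ Finset.range N, |θ j| ≤ c0) :
    ‖∫ ω, Complex.exp (((∑ j ∈ Finset.range N, ω j * θ j : ℝ) : ℂ) * Complex.I) ∂(PP μ)‖
      ≤ Real.exp (-c * ∑ j ∈ Finset.range N, θ j ^ 2) := by
  rw [small_ball_char_prod, norm_prod, Finset.mul_sum, Real.exp_sum]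
  apply Finset.prod_le_prod
  · intro j _
    exact norm_nonneg _
  · intro j hj
    exact hμ _ (hθ j hj)

theorem small_ball_gauss_integrable (d : ℕ) (c : ℝ) (hc : 0 < c) (l : Fin d → ℝ)
    (hl : ∀ i, 0 < l i) :
    Integrable (fun u : Fin d → ℝ => Real.exp (-c * ∑ i, (l i * u i) ^ 2)) := by
  have h : (fun u : Fin d → ℝ => Real.exp (-c * ∑ i, (l i * u i) ^ 2))
      = fun u : Fin d → ℝ => ∏ i, Real.exp (-(c * l i ^ 2) * (u i) ^ 2) := by
    funext u
    rw [Finset.mul_sum, Real.exp_sum]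
    apply Finset.prod_congr rfl
    intro i _
    congr 1
    ring
  rw [h]
  exact Integrable.fintype_prod (f := fun i (x : ℝ) => Real.exp (-(c * l i ^ 2) * x ^ 2))
    (fun i => integrable_exp_neg_mul_sq (mul_pos hc (pow_pos (hl i) 2)))

theorem small_ball_gauss (d : ℕ) (c : ℝ) (hc : 0 < c) (l : Fin d → ℝ)
    (hl : ∀ i, 0 < l i) :
    ∫ u : Fin d → ℝ, Real.exp (-c * ∑ i, (l i * u i) ^ 2) = ∏ i, (Real.sqrt (Real.pi / c) / l i) := by
  have h : ∀ u : Fin d → ℝ, Real.exp (-c * ∑ i, (l i * u i) ^ 2)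
      = ∏ i, Real.exp (-(c * l i ^ 2) * (u i) ^ 2) := by
    intro u
    rw [Finset.mul_sum, Real.exp_sum]
    apply Finset.prod_congr rfl
    intro i _
    congr 1
    ring
  simp_rw [h]
  rw [integral_fintype_prod_volume_eq_prod (f := fun i (x : ℝ) => Real.exp (-(c * l i ^ 2) * x ^ 2))]
  apply Finset.prod_congr rfl
  intro i _
  rw [integral_gaussian, ← div_div, Real.sqrt_div (by positivity), Real.sqrt_sq (hl i).le]

/-- `d`-dimensional small ball estimate from low frequencies only. -/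
theorem small_ball (d : ℕ) (c c0 : ℝ) (hc : 0 < c) (hc0 : 0 < c0) :
    ∃ C > 0, ∀ (μ : Measure ℝ) [IsProbabilityMeasure μ],
      (∀ θ : ℝ, |θ| ≤ c0 → ‖charFun μ θ‖ ≤ Real.exp (-c * θ ^ 2)) →
      ∀ (n : ℕ) (w : ℕ → Fin d → ℝ) (a l : Fin d → ℝ), (∀ i, 0 < a i) → (∀ i, 0 < l i) →
      (∀ s : Fin d → ℝ, (∀ i, |s i| ≤ a i) → ∀ j ∈ Finset.range (n + 1), |∑ i, s i * w j i| ≤ c0) →
      (∀ s : Fin d → ℝ, (∀ i, |s i| ≤ a i) →
        ∑ i, (l i * s i) ^ 2 ≤ ∑ j ∈ Finset.range (n + 1), (∑ i, s i * w j i) ^ 2) →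
      (PP μ).real {ω | ∀ i, |∑ j ∈ Finset.range (n + 1), ω j * w j i| ≤ 1 / a i}
        ≤ C * ∏ i, 1 / (a i * l i) := by
  refine ⟨4 * (((d : ℝ) + 1) * Real.sqrt (Real.pi / c)) ^ d, by positivity, ?_⟩
  intro μ _ hμ n w a l ha hl hw0 hwl
  set N := n + 1 with hN
  set X : (ℕ → ℝ) → Fin d → ℝ := fun ω i => ∑ j ∈ Finset.range N, ω j * w j i with hX
  set b : Fin d → ℝ := fun i => a i / (2 * ((d : ℝ) + 1)) with hb
  have hd1 : (0 : ℝ) < (d : ℝ) + 1 := by positivity
  have hbpos : ∀ i, 0 < b i := fun i => div_pos (ha i) (by positivity)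
  have hba : ∀ i, 2 * b i ≤ a i := by
    intro i
    simp only [hb]
    have : 2 * (a i / (2 * ((d : ℝ) + 1))) = a i / ((d : ℝ) + 1) := by
      field_simp
    rw [this]
    apply div_le_self (ha i).le
    have : (0 : ℝ) ≤ d := Nat.cast_nonneg d
    linarith
  set B : Set (Fin d → ℝ) := Icc (fun i => -b i) b with hB
  have hBmeas : MeasurableSet B := measurableSet_Icc
  set ν : Measure (Fin d → ℝ) := volume.restrict B with hν
  have hvol : (volume : Measure (Fin d → ℝ)).real B = ∏ i, (2 * b i) := by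
    rw [Measure.real, Real.volume_Icc_pi_toReal]
    · apply Finset.prod_congr rfl
      intro i _
      ring
    · intro i
      show -b i ≤ b i
      linarith [hbpos i]
  have hBfin : volume B < ⊤ := by
    rw [hB]
    exact isCompact_Icc.measure_lt_top
  haveI : IsFiniteMeasure ν := ⟨by rw [hν, Measure.restrict_apply_univ]; exact hBfin⟩
  set V : ℝ := ∏ i, (2 * b i) with hV
  have hVpos : 0 < V := Finset.prod_pos fun i _ => by linarith [hbpos i]
  have hνV : ν.real univ = V := by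
    rw [hν, Measure.real, Measure.restrict_apply_univ, ← hvol]
    rfl
  set φ : (Fin d → ℝ) → (ℕ → ℝ) → ℂ := fun s ω => Complex.exp (((∑ i, s i * X ω i : ℝ) : ℂ) * Complex.I)
    with hφ
  have hφnorm : ∀ s ω, ‖φ s ω‖ = 1 := fun s ω => Complex.norm_exp_ofReal_mul_I _
  have hφbound : ∀ u : Fin d → ℝ, (∀ i, |u i| ≤ a i) →
      ‖∫ ω, φ u ω ∂(PP μ)‖ ≤ Real.exp (-c * ∑ i, (l i * u i) ^ 2) := by
    intro u hu
    have h1 : ∀ ω, φ u ω = Complex.exp (((∑ j ∈ Finset.range N, ω j * (∑ i, u i * w j i) : ℝ) : ℂ)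
        * Complex.I) := by
      intro ω
      simp only [hφ, hX]
      congr 3
      simp only [Finset.mul_sum]
      rw [Finset.sum_comm]
      apply Finset.sum_congr rfl
      intro j _
      apply Finset.sum_congr rfl
      intro i _
      ring
    simp_rw [h1]
    refine (small_ball_char_bound μ hμ N (fun j => ∑ i, u i * w j i) (hw0 u hu)).trans ?_
    apply Real.exp_le_exp.2
    have := hwl u hu
    nlinarith
  set g : (ℕ → ℝ) → ℂ := fun ω => ∫ s, φ s ω ∂ν with hg
  have hcont : Continuous (fun p : (ℕ → ℝ) × ((Fin d → ℝ) × (Fin d → ℝ)) => φ (p.2.1 - p.2.2) p.1) := by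
    simp only [hφ, hX, Pi.sub_apply]
    fun_prop
  have hint : Integrable (fun p : (ℕ → ℝ) × ((Fin d → ℝ) × (Fin d → ℝ)) => φ (p.2.1 - p.2.2) p.1)
      ((PP μ).prod (ν.prod ν)) := by
    apply Integrable.of_bound hcont.aestronglyMeasurable 1
    exact Filter.Eventually.of_forall fun p => (hφnorm _ _).le
  have hgsq : ∀ ω, (((‖g ω‖ ^ 2 : ℝ)) : ℂ) = ∫ p : (Fin d → ℝ) × (Fin d → ℝ), φ (p.1 - p.2) ω ∂(ν.prod ν) := by
    intro ω
    have h1 : ∀ p : (Fin d → ℝ) × (Fin d → ℝ), φ (p.1 - p.2) ω = φ p.1 ω * (starRingEnd ℂ) (φ p.2 ω) := by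
      intro p
      simp only [hφ, Pi.sub_apply]
      rw [← Complex.exp_conj, ← Complex.exp_add]
      congr 1
      rw [map_mul, Complex.conj_I, Complex.conj_ofReal]
      have : ∑ i, (p.1 i - p.2 i) * X ω i = ∑ i, p.1 i * X ω i - ∑ i, p.2 i * X ω i := by
        rw [← Finset.sum_sub_distrib]
        apply Finset.sum_congr rfl
        intro i _
        ring
      rw [this]
      push_cast
      ring
    simp_rw [h1]
    rw [integral_prod_mul (fun s => φ s ω) (fun t => (starRingEnd ℂ) (φ t ω)), integral_conj,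
      Complex.mul_conj, Complex.normSq_eq_norm_sq]
  have hE : ∫ ω, ‖g ω‖ ^ 2 ∂(PP μ) ≤ V * ∏ i, (Real.sqrt (Real.pi / c) / l i) := by
    have h1 : ((∫ ω, ‖g ω‖ ^ 2 ∂(PP μ) : ℝ) : ℂ) = ∫ p : (Fin d → ℝ) × (Fin d → ℝ),
        (∫ ω, φ (p.1 - p.2) ω ∂(PP μ)) ∂(ν.prod ν) := by
      rw [← integral_complex_ofReal]
      simp_rw [hgsq]
      exact integral_integral_swap hint
    have h2 : ∫ ω, ‖g ω‖ ^ 2 ∂(PP μ) ≤ ‖∫ p : (Fin d → ℝ) × (Fin d → ℝ),
        (∫ ω, φ (p.1 - p.2) ω ∂(PP μ)) ∂(ν.prod ν)‖ := by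
      rw [← h1, Complex.norm_real]
      exact le_abs_self _
    have hcont2 : Continuous (fun p : (Fin d → ℝ) × (Fin d → ℝ) =>
        Real.exp (-c * ∑ i, (l i * (p.1 i - p.2 i)) ^ 2)) := by fun_prop
    have hint2 : Integrable (fun p : (Fin d → ℝ) × (Fin d → ℝ) =>
        Real.exp (-c * ∑ i, (l i * (p.1 i - p.2 i)) ^ 2)) (ν.prod ν) := by
      apply Integrable.of_bound hcont2.aestronglyMeasurable 1
      refine Filter.Eventually.of_forall fun p => ?_
      rw [Real.norm_eq_abs, abs_of_pos (Real.exp_pos _), Real.exp_le_one_iff]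
      have : 0 ≤ ∑ i, (l i * (p.1 i - p.2 i)) ^ 2 := Finset.sum_nonneg fun i _ => sq_nonneg _
      nlinarith
    have h3 : ‖∫ p : (Fin d → ℝ) × (Fin d → ℝ),
        (∫ ω, φ (p.1 - p.2) ω ∂(PP μ)) ∂(ν.prod ν)‖ ≤ ∫ p : (Fin d → ℝ) × (Fin d → ℝ),
        Real.exp (-c * ∑ i, (l i * (p.1 i - p.2 i)) ^ 2) ∂(ν.prod ν) := by
      apply norm_integral_le_of_norm_le hint2
      rw [hν, Measure.prod_restrict]
      apply (ae_restrict_iff' (hBmeas.prod hBmeas)).2
      refine Filter.Eventually.of_forall fun p hp => ?_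
      apply hφbound
      intro i
      have e1 := hp.1.1 i
      have e2 := hp.1.2 i
      have e3 := hp.2.1 i
      have e4 := hp.2.2 i
      have e5 := hba i
      simp only at e1 e3
      show |p.1 i - p.2 i| ≤ a i
      rw [abs_le]
      constructor <;> linarith
    have h4 : ∫ p : (Fin d → ℝ) × (Fin d → ℝ),
        Real.exp (-c * ∑ i, (l i * (p.1 i - p.2 i)) ^ 2) ∂(ν.prod ν)
        ≤ V * ∏ i, (Real.sqrt (Real.pi / c) / l i) := by
      rw [integral_prod_symm _ hint2]
      have h5 : ∀ t : Fin d → ℝ, ∫ s : Fin d → ℝ, Real.exp (-c * ∑ i, (l i * (s i - t i)) ^ 2) ∂ν ≤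
          ∏ i, (Real.sqrt (Real.pi / c) / l i) := by
        intro t
        have hi : Integrable (fun s : Fin d → ℝ => Real.exp (-c * ∑ i, (l i * (s i - t i)) ^ 2)) :=
          (small_ball_gauss_integrable d c hc l hl).comp_sub_right t
        calc ∫ s : Fin d → ℝ, Real.exp (-c * ∑ i, (l i * (s i - t i)) ^ 2) ∂ν
            ≤ ∫ s : Fin d → ℝ, Real.exp (-c * ∑ i, (l i * (s i - t i)) ^ 2) := by
              apply setIntegral_le_integral hi
              exact Filter.Eventually.of_forall fun s => (Real.exp_pos _).le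
          _ = ∫ s : Fin d → ℝ, Real.exp (-c * ∑ i, (l i * s i) ^ 2) :=
              integral_sub_right_eq_self (fun u : Fin d → ℝ => Real.exp (-c * ∑ i, (l i * u i) ^ 2)) t
          _ = _ := small_ball_gauss d c hc l hl
      calc ∫ t : Fin d → ℝ, ∫ s : Fin d → ℝ, Real.exp (-c * ∑ i, (l i * (s i - t i)) ^ 2) ∂ν ∂ν
          ≤ ∫ t, ∏ i, (Real.sqrt (Real.pi / c) / l i) ∂ν := by
            apply integral_mono_of_nonneg
            · exact Filter.Eventually.of_forall fun t => integral_nonneg fun s => (Real.exp_pos _).le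
            · exact integrable_const _
            · exact Filter.Eventually.of_forall h5
        _ = V * ∏ i, (Real.sqrt (Real.pi / c) / l i) := by
            rw [integral_const, hνV, smul_eq_mul]
    exact h2.trans (h3.trans h4)
  have hintg : Integrable (fun ω => ‖g ω‖ ^ 2) (PP μ) := by
    have h1 := hint.integral_prod_left
    have h2 : (fun ω => ‖g ω‖ ^ 2) = fun ω => (∫ p : (Fin d → ℝ) × (Fin d → ℝ), φ (p.1 - p.2) ω ∂(ν.prod ν)).re := by
      funext ω
      rw [← hgsq, Complex.ofReal_re]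
    rw [h2]
    exact h1.re
  set E0 : Set (ℕ → ℝ) := {ω | ∀ i, |∑ j ∈ Finset.range N, ω j * w j i| ≤ 1 / a i} with hE0
  have hE0m : MeasurableSet E0 := by
    have : E0 = ⋂ i, {ω | |∑ j ∈ Finset.range N, ω j * w j i| ≤ 1 / a i} := by
      ext ω; simp [hE0]
    rw [this]
    apply MeasurableSet.iInter
    intro i
    apply measurableSet_le
    · fun_prop
    · exact measurable_const
  have hlow : ∀ ω ∈ E0, V ^ 2 / 4 ≤ ‖g ω‖ ^ 2 := by
    intro ω hω
    have h1 : ∀ s ∈ B, (1 : ℝ) / 2 ≤ (φ s ω).re := by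
      intro s hs
      simp only [hφ]
      rw [Complex.exp_ofReal_mul_I_re]
      have h2 : |∑ i, s i * X ω i| ≤ 1 / 2 := by
        calc |∑ i, s i * X ω i| ≤ ∑ i, |s i * X ω i| := Finset.abs_sum_le_sum_abs _ _
          _ ≤ ∑ i : Fin d, 1 / (2 * ((d : ℝ) + 1)) := by
              apply Finset.sum_le_sum
              intro i _
              rw [abs_mul]
              have e1 : |s i| ≤ b i := abs_le.2 ⟨hs.1 i, hs.2 i⟩
              have e2 : |X ω i| ≤ 1 / a i := hω i
              calc |s i| * |X ω i| ≤ b i * (1 / a i) :=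
                    mul_le_mul e1 e2 (abs_nonneg _) (hbpos i).le
                _ = 1 / (2 * ((d : ℝ) + 1)) := by
                    simp only [hb]
                    have := (ha i).ne'
                    field_simp
          _ = d / (2 * ((d : ℝ) + 1)) := by
              rw [Finset.sum_const, Finset.card_univ, Fintype.card_fin, nsmul_eq_mul]
              ring
          _ ≤ 1 / 2 := by
              rw [div_le_div_iff₀ (by positivity) (by norm_num)]
              linarith
      have h3 := Real.one_sub_sq_div_two_le_cos (x := ∑ i, s i * X ω i)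
      have h4 : (∑ i, s i * X ω i) ^ 2 ≤ (1 / 2) ^ 2 := by
        rw [← sq_abs]
        exact pow_le_pow_left₀ (abs_nonneg _) h2 2
      linarith
    have hcs : Continuous (fun s => φ s ω) := by
      simp only [hφ]
      fun_prop
    have hi : Integrable (fun s => φ s ω) ν := by
      apply Integrable.of_bound hcs.aestronglyMeasurable 1
      exact Filter.Eventually.of_forall fun p => (hφnorm _ _).le
    have h2 : V / 2 ≤ (g ω).re := by
      have e1 : (g ω).re = ∫ s, (φ s ω).re ∂ν := by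
        simp only [hg]
        exact (integral_re hi).symm
      rw [e1]
      have e2 : V / 2 = ∫ s, (1 : ℝ) / 2 ∂ν := by
        rw [integral_const, hνV, smul_eq_mul]; ring
      rw [e2]
      apply integral_mono_ae (integrable_const _) hi.re
      rw [hν]
      exact (ae_restrict_iff' hBmeas).2 (Filter.Eventually.of_forall h1)
    have h3 : V / 2 ≤ ‖g ω‖ := h2.trans (Complex.re_le_norm _)
    calc V ^ 2 / 4 = (V / 2) ^ 2 := by ring
      _ ≤ ‖g ω‖ ^ 2 := pow_le_pow_left₀ (by positivity) h3 2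
  have hmain : (PP μ).real E0 * (V ^ 2 / 4) ≤ V * ∏ i, (Real.sqrt (Real.pi / c) / l i) := by
    calc (PP μ).real E0 * (V ^ 2 / 4) = ∫ ω, E0.indicator (fun _ => V ^ 2 / 4) ω ∂(PP μ) := by
          rw [integral_indicator_const _ hE0m, smul_eq_mul]
      _ ≤ ∫ ω, ‖g ω‖ ^ 2 ∂(PP μ) := by
          apply integral_mono ((integrable_const _).indicator hE0m) hintg
          intro ω
          by_cases h : ω ∈ E0
          · simp only [Set.indicator_of_mem h]
            exact hlow ω h
          · simp only [Set.indicator_of_notMem h]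
            positivity
      _ ≤ _ := hE
  have hfin : (PP μ).real E0 ≤ 4 / V * ∏ i, (Real.sqrt (Real.pi / c) / l i) := by
    have h1 : (PP μ).real E0 = ((PP μ).real E0 * (V ^ 2 / 4)) * (4 / V ^ 2) := by
      field_simp
    rw [h1]
    calc ((PP μ).real E0 * (V ^ 2 / 4)) * (4 / V ^ 2)
        ≤ (V * ∏ i, (Real.sqrt (Real.pi / c) / l i)) * (4 / V ^ 2) := by
          apply mul_le_mul_of_nonneg_right hmain
          positivity
      _ = _ := by field_simp
  refine hfin.trans (le_of_eq ?_)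
  have h1 : V = ∏ i, (a i / ((d : ℝ) + 1)) := by
    rw [hV]
    apply Finset.prod_congr rfl
    intro i _
    simp only [hb]
    field_simp
  rw [h1, mul_assoc]
  have h2 : (((d : ℝ) + 1) * Real.sqrt (Real.pi / c)) ^ d = ∏ i : Fin d, (((d : ℝ) + 1) * Real.sqrt (Real.pi / c)) := by
    rw [Finset.prod_const, Finset.card_univ, Fintype.card_fin]
  rw [h2, ← Finset.prod_mul_distrib, div_mul_eq_mul_div, mul_div_assoc, ← Finset.prod_div_distrib]
  congr 1
  apply Finset.prod_congr rfl
  intro i _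
  have e1 := (ha i).ne'
  have e2 := (hl i).ne'
  field_simp


end P3
end Kac764
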