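import Pool.Agent.Helper764.KacDefs

set_option autoImplicit false
set_option maxHeartbeats 4000000
open MeasureTheory ProbabilityTheory Filter Topology Set
open scoped ENNReal NNReal

namespace Kac764
namespace P4

theorem gram_exp2 : Real.exp 2 ≤ 8 := by
  have h1 := Real.exp_one_lt_d9
  have h0 := Real.exp_pos 1
  have h2 : Real.exp 2 = Real.exp 1 * Real.exp 1 := by
    rw [← Real.exp_add]; norm_num
  rw [h2]
  nlinarith

theorem gram_xpow (m : ℕ) (x : ℝ) (hm : 2 ≤ m) (hx : 1 - 1 / (m : ℝ) ≤ |x|) (k : ℕ)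
    (hk : k + 1 ≤ m) : 1 / 8 ≤ (x ^ k) ^ 2 := by
  have hmR : (2 : ℝ) ≤ m := by exact_mod_cast hm
  have hm1 : (0 : ℝ) < (m : ℝ) - 1 := by linarith
  have h1 : Real.exp (-(1 / ((m : ℝ) - 1))) ≤ |x| := by
    refine le_trans ?_ hx
    rw [Real.exp_neg]
    have h2 : 1 + 1 / ((m : ℝ) - 1) ≤ Real.exp (1 / ((m : ℝ) - 1)) := by
      have := Real.add_one_le_exp (1 / ((m : ℝ) - 1))
      linarith
    have h3 : (1 - 1 / (m : ℝ)) = (1 + 1 / ((m : ℝ) - 1))⁻¹ := by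
      field_simp
      ring
    rw [h3]
    exact inv_anti₀ (by positivity) h2
  have h4 : (x ^ k) ^ 2 = |x| ^ (2 * k) := by
    rw [← sq_abs (x ^ k), abs_pow, ← pow_mul, mul_comm k 2]
  rw [h4]
  have h5 : Real.exp (-(1 / ((m : ℝ) - 1))) ^ (2 * k) ≤ |x| ^ (2 * k) :=
    pow_le_pow_left₀ (Real.exp_pos _).le h1 _
  refine le_trans ?_ h5
  rw [← Real.exp_nat_mul]
  have hkR : (k : ℝ) ≤ (m : ℝ) - 1 := by
    have : (k : ℝ) + 1 ≤ m := by exact_mod_cast hk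
    linarith
  have h6 : (-2 : ℝ) ≤ ((2 * k : ℕ) : ℝ) * -(1 / ((m : ℝ) - 1)) := by
    push_cast
    have h7 : (k : ℝ) * (1 / ((m : ℝ) - 1)) ≤ 1 := by
      rw [mul_one_div, div_le_one hm1]
      exact hkR
    nlinarith
  refine le_trans ?_ (Real.exp_le_exp.mpr h6)
  rw [Real.exp_neg, one_div]
  exact inv_anti₀ (Real.exp_pos _) gram_exp2

theorem gram2_sum (A t : ℝ) (m : ℕ) : ∑ i ∈ Finset.range m, (A + t * ((i : ℝ) + 1)) ^ 2 =
    m * A ^ 2 + m * (m + 1) * A * t + m * (m + 1) * (2 * m + 1) / 6 * t ^ 2 := by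
  induction m with
  | zero => simp
  | succ m ih =>
    rw [Finset.sum_range_succ, ih]
    push_cast
    ring

theorem gram2 : ∃ c > 0, ∀ (n m : ℕ) (x : ℝ), 2 ≤ m → m ≤ n → 1 - 1 / (m : ℝ) ≤ |x| → |x| ≤ 2 →
    ∀ s t : ℝ, c * ((m : ℝ) * s ^ 2 + (m : ℝ) ^ 3 * t ^ 2)
      ≤ ∑ j ∈ Finset.range (n + 1), (s * x ^ j + t * ((j : ℝ) * x ^ (j - 1))) ^ 2 := by
  refine ⟨1 / 768, by norm_num, ?_⟩
  intro n m x hm hmn hx _ s t
  have hmR : (2 : ℝ) ≤ m := by exact_mod_cast hm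
  have hsub : ∑ j ∈ Finset.Ico 1 (m + 1), (s * x ^ j + t * ((j : ℝ) * x ^ (j - 1))) ^ 2 ≤
      ∑ j ∈ Finset.range (n + 1), (s * x ^ j + t * ((j : ℝ) * x ^ (j - 1))) ^ 2 := by
    refine Finset.sum_le_sum_of_subset_of_nonneg ?_ (fun j _ _ => sq_nonneg _)
    intro j hj
    rw [Finset.mem_Ico] at hj
    rw [Finset.mem_range]
    omega
  refine le_trans ?_ hsub
  rw [Finset.sum_Ico_eq_sum_range, Nat.add_sub_cancel]
  have hterm : ∑ i ∈ Finset.range m, 1 / 8 * (s * x + t * ((i : ℝ) + 1)) ^ 2 ≤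
      ∑ i ∈ Finset.range m, (s * x ^ (1 + i) + t * (((1 + i : ℕ) : ℝ) * x ^ (1 + i - 1))) ^ 2 := by
    refine Finset.sum_le_sum (fun i hi => ?_)
    rw [Finset.mem_range] at hi
    have h1 := gram_xpow m x hm hx i (by omega)
    have h2 : (s * x ^ (1 + i) + t * (((1 + i : ℕ) : ℝ) * x ^ (1 + i - 1))) ^ 2 =
        (x ^ i) ^ 2 * (s * x + t * ((i : ℝ) + 1)) ^ 2 := by
      rw [Nat.add_sub_cancel_left, pow_add]
      push_cast
      ring
    rw [h2]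
    exact mul_le_mul_of_nonneg_right h1 (sq_nonneg _)
  refine le_trans ?_ hterm
  rw [← Finset.mul_sum, gram2_sum]
  have hx2 : 1 / 4 ≤ x ^ 2 := by
    have h1 : (1 / 2 : ℝ) ≤ |x| := by
      refine le_trans ?_ hx
      have : 1 / (m : ℝ) ≤ 1 / 2 := one_div_le_one_div_of_le (by norm_num) hmR
      linarith
    rw [← sq_abs]
    nlinarith
  obtain ⟨A, hA⟩ : ∃ A, A = s * x := ⟨_, rfl⟩
  obtain ⟨M, hM⟩ : ∃ M : ℝ, M = (m : ℝ) := ⟨_, rfl⟩
  rw [← hA, ← hM]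
  rw [← hM] at hmR
  have hs : s ^ 2 ≤ 4 * A ^ 2 := by
    rw [hA, mul_pow]
    nlinarith [sq_nonneg s]
  have hM0 : 0 < M := by linarith
  obtain ⟨S, hS⟩ : ∃ S, S = M * A ^ 2 + M * (M + 1) * A * t +
      M * (M + 1) * (2 * M + 1) / 6 * t ^ 2 := ⟨_, rfl⟩
  rw [← hS]
  have e1 : S = M * (A + (M + 1) * t / 2) ^ 2 + M * (M ^ 2 - 1) / 12 * t ^ 2 := by
    rw [hS]; ring
  have h0 : 0 ≤ M * (A + (M + 1) * t / 2) ^ 2 := by positivity
  have ht0 : 0 ≤ M * t ^ 2 := by positivity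
  have h3 : M ^ 3 * t ^ 2 ≤ 16 * S := by
    have h4 : M ^ 3 * t ^ 2 / 16 ≤ M * (M ^ 2 - 1) / 12 * t ^ 2 := by
      have h5 : 0 ≤ (M ^ 2 - 4) * (M * t ^ 2) := mul_nonneg (by nlinarith) ht0
      nlinarith
    linarith
  have h6 : M * A ^ 2 ≤ 20 * S := by
    have h7 : M * A ^ 2 ≤ 2 * (M * (A + (M + 1) * t / 2) ^ 2) + M * (M + 1) ^ 2 * t ^ 2 / 2 := by
      have h8 : 0 ≤ M * (A + (M + 1) * t) ^ 2 := by positivity
      nlinarith
    have h9 : M * (M + 1) ^ 2 * t ^ 2 / 2 ≤ 9 / 8 * (M ^ 3 * t ^ 2) := by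
      have h10 : 0 ≤ (9 * M ^ 2 - 4 * (M + 1) ^ 2) * (M * t ^ 2) :=
        mul_nonneg (by nlinarith) ht0
      nlinarith
    have h11 : 0 ≤ M * (M ^ 2 - 1) / 12 * t ^ 2 := by
      have h12 : 0 ≤ (M ^ 2 - 1) * (M * t ^ 2) := mul_nonneg (by nlinarith) ht0
      nlinarith
    linarith
  have h13 : M * s ^ 2 ≤ 4 * (M * A ^ 2) := by
    have := mul_le_mul_of_nonneg_left hs hM0.le
    linarith
  linarith

/-- the abstract finite difference estimate -/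
theorem gram3_core (A B D M H S : ℝ) (hH : 0 < H) (hMH : M ≤ 11 * H) (hM0 : 0 < M)
    (hS0 : 0 ≤ S)
    (h1 : H ^ 5 * D ^ 2 * 4 ≤ 6 * S)
    (h2 : H ^ 3 * B ^ 2 ≤ 3 * S + 12 * (H ^ 3 * M ^ 2 * D ^ 2))
    (h3 : H * A ^ 2 ≤ 3 * S + 3 * (H * M ^ 2 * B ^ 2) + 3 * (H * M ^ 4 * D ^ 2)) :
    M * A ^ 2 * 16 + M ^ 3 * B ^ 2 * 4 + M ^ 5 * D ^ 2 ≤ 200000000 * S := by
  have hM2 : M ^ 2 ≤ 121 * H ^ 2 := by nlinarith
  have hM3 : M ^ 3 ≤ 1331 * H ^ 3 := by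
    calc M ^ 3 ≤ (11 * H) ^ 3 := pow_le_pow_left₀ hM0.le hMH 3
      _ = _ := by ring
  have hM4 : M ^ 4 ≤ 14641 * H ^ 4 := by
    calc M ^ 4 ≤ (11 * H) ^ 4 := pow_le_pow_left₀ hM0.le hMH 4
      _ = _ := by ring
  have hM5 : M ^ 5 ≤ 161051 * H ^ 5 := by
    calc M ^ 5 ≤ (11 * H) ^ 5 := pow_le_pow_left₀ hM0.le hMH 5
      _ = _ := by ring
  have a1 : H ^ 5 * D ^ 2 ≤ 3 / 2 * S := by linarith
  have a2 : H ^ 3 * M ^ 2 * D ^ 2 ≤ 363 / 2 * S := by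
    have : H ^ 3 * M ^ 2 * D ^ 2 ≤ 121 * (H ^ 5 * D ^ 2) := by
      have h := mul_le_mul_of_nonneg_left hM2 (show 0 ≤ H ^ 3 * D ^ 2 by positivity)
      nlinarith
    linarith
  have a3 : H ^ 3 * B ^ 2 ≤ 2181 * S := by linarith
  have a4 : H * M ^ 2 * B ^ 2 ≤ 263901 * S := by
    have : H * M ^ 2 * B ^ 2 ≤ 121 * (H ^ 3 * B ^ 2) := by
      have h := mul_le_mul_of_nonneg_left hM2 (show 0 ≤ H * B ^ 2 by positivity)
      nlinarith
    linarith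
  have a5 : H * M ^ 4 * D ^ 2 ≤ 43923 / 2 * S := by
    have : H * M ^ 4 * D ^ 2 ≤ 14641 * (H ^ 5 * D ^ 2) := by
      have h := mul_le_mul_of_nonneg_left hM4 (show 0 ≤ H * D ^ 2 by positivity)
      nlinarith
    linarith
  have a6 : H * A ^ 2 ≤ 857591 * S := by linarith
  have b1 : M * A ^ 2 ≤ 9433501 * S := by
    have : M * A ^ 2 ≤ 11 * (H * A ^ 2) := by
      have h := mul_le_mul_of_nonneg_left hMH (show 0 ≤ A ^ 2 by positivity)
      nlinarith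
    linarith
  have b2 : M ^ 3 * B ^ 2 ≤ 2902911 * S := by
    have : M ^ 3 * B ^ 2 ≤ 1331 * (H ^ 3 * B ^ 2) := by
      have h := mul_le_mul_of_nonneg_left hM3 (show 0 ≤ B ^ 2 by positivity)
      nlinarith
    linarith
  have b3 : M ^ 5 * D ^ 2 ≤ 241577 * S := by
    have : M ^ 5 * D ^ 2 ≤ 161051 * (H ^ 5 * D ^ 2) := by
      have h := mul_le_mul_of_nonneg_left hM5 (show 0 ≤ D ^ 2 by positivity)
      nlinarith
    linarith
  linarith

theorem gram3_q (A B D H M y X Y Z : ℝ) (hH : 0 < H) (hM : 3 ≤ M) (hy : 3 ≤ y)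
    (hyM : y + 2 * H ≤ M)
    (hX : X = A + B * (y - 1) + D * ((y - 1) * (y - 2)))
    (hY : Y = A + B * (y + H - 1) + D * ((y + H - 1) * (y + H - 2)))
    (hZ : Z = A + B * (y + 2 * H - 1) + D * ((y + 2 * H - 1) * (y + 2 * H - 2))) :
    H ^ 4 * D ^ 2 * 4 ≤ 6 * (X ^ 2 + Y ^ 2 + Z ^ 2) ∧
    H ^ 2 * B ^ 2 ≤ 3 * (X ^ 2 + Y ^ 2 + Z ^ 2) + 12 * (H ^ 2 * M ^ 2 * D ^ 2) ∧
    A ^ 2 ≤ 3 * (X ^ 2 + Y ^ 2 + Z ^ 2) + 3 * (M ^ 2 * B ^ 2) + 3 * (M ^ 4 * D ^ 2) := by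
  refine ⟨?_, ?_, ?_⟩
  · have h1 : X - 2 * Y + Z = 2 * D * H ^ 2 := by rw [hX, hY, hZ]; ring
    have h2 : (X - 2 * Y + Z) ^ 2 ≤ 6 * (X ^ 2 + Y ^ 2 + Z ^ 2) := by
      nlinarith [sq_nonneg (Y + 2 * X), sq_nonneg (Y + 2 * Z), sq_nonneg (X - Z)]
    rw [h1] at h2
    nlinarith
  · obtain ⟨W, hW⟩ : ∃ W, W = D * (H * (2 * y + H - 3)) := ⟨_, rfl⟩
    have h1 : H * B = Y - X - W := by rw [hX, hY, hW]; ring
    have h2 : (H * B) ^ 2 ≤ 3 * (X ^ 2 + Y ^ 2 + W ^ 2) := by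
      rw [h1]
      nlinarith [sq_nonneg (Y + X), sq_nonneg (Y + W), sq_nonneg (X - W)]
    have h3 : W ^ 2 ≤ 4 * (H ^ 2 * M ^ 2 * D ^ 2) := by
      have h4 : (2 * y + H - 3) ^ 2 ≤ (2 * M) ^ 2 := by
        apply pow_le_pow_left₀ <;> linarith
      have h5 := mul_le_mul_of_nonneg_left h4 (show 0 ≤ D ^ 2 * H ^ 2 by positivity)
      rw [hW]
      nlinarith
    have h6 : 0 ≤ Z ^ 2 := sq_nonneg _
    nlinarith
  · obtain ⟨W, hW⟩ : ∃ W, W = B * (y - 1) := ⟨_, rfl⟩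
    obtain ⟨V, hV⟩ : ∃ V, V = D * ((y - 1) * (y - 2)) := ⟨_, rfl⟩
    have h1 : A = X - W - V := by rw [hX, hW, hV]; ring
    have h2 : A ^ 2 ≤ 3 * (X ^ 2 + W ^ 2 + V ^ 2) := by
      rw [h1]
      nlinarith [sq_nonneg (X + W), sq_nonneg (X + V), sq_nonneg (W - V)]
    have h3 : W ^ 2 ≤ M ^ 2 * B ^ 2 := by
      have h4 : (y - 1) ^ 2 ≤ M ^ 2 := by
        apply pow_le_pow_left₀ <;> linarith
      have h5 := mul_le_mul_of_nonneg_left h4 (show 0 ≤ B ^ 2 by positivity)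
      rw [hW]
      nlinarith
    have h3' : V ^ 2 ≤ M ^ 4 * D ^ 2 := by
      have h4 : (y - 1) * (y - 2) ≤ M * M := by
        apply mul_le_mul <;> linarith
      have h4' : 0 ≤ (y - 1) * (y - 2) := by
        apply mul_nonneg <;> linarith
      have h4'' : ((y - 1) * (y - 2)) ^ 2 ≤ (M * M) ^ 2 := pow_le_pow_left₀ h4' h4 2
      have h5 := mul_le_mul_of_nonneg_left h4'' (show 0 ≤ D ^ 2 by positivity)
      rw [hV]
      nlinarith
    have h6 : 0 ≤ Z ^ 2 := sq_nonneg _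
    have h7 : 0 ≤ Y ^ 2 := sq_nonneg _
    nlinarith

theorem gram3 : ∃ c > 0, ∃ m0 : ℕ, ∀ (n m : ℕ) (x : ℝ), m0 ≤ m → m ≤ n →
    1 - 1 / (m : ℝ) ≤ |x| → |x| ≤ 2 →
    ∀ s t u : ℝ, c * ((m : ℝ) ^ 3 * s ^ 2 + (m : ℝ) ^ 5 * t ^ 2 + (m : ℝ) ^ 7 * u ^ 2)
      ≤ ∑ j ∈ Finset.range (n + 1), (s * ((j : ℝ) * x ^ (j - 1))
          + t * ((j : ℝ) * ((j : ℝ) - 1) * x ^ (j - 2))
          + u * ((j : ℝ) * ((j : ℝ) - 1) * ((j : ℝ) - 2) * x ^ (j - 3))) ^ 2 := by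
  refine ⟨1 / 6400000000, by norm_num, 100, ?_⟩
  intro n m x hm hmn hx _ s t u
  obtain ⟨T, hT⟩ : ∃ T : ℕ → ℝ, T = (fun j : ℕ => (s * ((j : ℝ) * x ^ (j - 1))
          + t * ((j : ℝ) * ((j : ℝ) - 1) * x ^ (j - 2))
          + u * ((j : ℝ) * ((j : ℝ) - 1) * ((j : ℝ) - 2) * x ^ (j - 3))) ^ (2 : ℕ)) :=
    ⟨fun j : ℕ => (s * ((j : ℝ) * x ^ (j - 1))
          + t * ((j : ℝ) * ((j : ℝ) - 1) * x ^ (j - 2))
          + u * ((j : ℝ) * ((j : ℝ) - 1) * ((j : ℝ) - 2) * x ^ (j - 3))) ^ (2 : ℕ), rfl⟩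
  have hgoal : ∑ j ∈ Finset.range (n + 1), T j = ∑ j ∈ Finset.range (n + 1),
      (s * ((j : ℝ) * x ^ (j - 1))
          + t * ((j : ℝ) * ((j : ℝ) - 1) * x ^ (j - 2))
          + u * ((j : ℝ) * ((j : ℝ) - 1) * ((j : ℝ) - 2) * x ^ (j - 3))) ^ 2 := by
    rw [hT]
  rw [← hgoal]
  have hT0 : ∀ j, 0 ≤ T j := by
    intro j
    rw [hT]
    exact sq_nonneg _
  obtain ⟨h, hh⟩ : ∃ h : ℕ, h = m / 10 := ⟨m / 10, rfl⟩
  obtain ⟨a, ha⟩ : ∃ a : ℕ, a = m - 3 * h := ⟨m - 3 * h, rfl⟩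
  have hh10 : 10 ≤ h := by omega
  have hm11 : m ≤ 11 * h := by omega
  have ham : a + 3 * h = m := by omega
  have ha3 : 3 ≤ a := by omega
  have ha2 : m ≤ 2 * a := by omega
  obtain ⟨A, hA⟩ : ∃ A, A = s * x ^ 2 := ⟨_, rfl⟩
  obtain ⟨B, hB⟩ : ∃ B, B = t * x := ⟨_, rfl⟩
  obtain ⟨q, hq⟩ : ∃ q : ℝ → ℝ, q = fun y => A + B * (y - 1) + u * ((y - 1) * (y - 2)) :=
    ⟨_, rfl⟩
  have hTq : ∀ j : ℕ, a ≤ j → j < m → (m : ℝ) ^ 2 / 32 * q (j : ℝ) ^ 2 ≤ T j := by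
    intro j hj1 hj2
    obtain ⟨k, rfl⟩ : ∃ k, j = k + 3 := ⟨j - 3, by omega⟩
    have h1 := gram_xpow m x (by omega) hx k (by omega)
    have e1 : T (k + 3) = ((k + 3 : ℕ) : ℝ) ^ 2 * (x ^ k) ^ 2 * q ((k + 3 : ℕ) : ℝ) ^ 2 := by
      rw [hT, hq, hA, hB]
      have f1 : k + 3 - 1 = k + 2 := by omega
      have f2 : k + 3 - 2 = k + 1 := by omega
      have f3 : k + 3 - 3 = k := by omega
      simp only [f1, f2, f3]
      push_cast
      ring
    rw [e1]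
    refine mul_le_mul_of_nonneg_right ?_ (sq_nonneg _)
    have h2 : (m : ℝ) ≤ 2 * ((k + 3 : ℕ) : ℝ) := by
      have : m ≤ 2 * (k + 3) := by omega
      exact_mod_cast this
    have h3 : (0 : ℝ) ≤ m := Nat.cast_nonneg m
    have h4 : (m : ℝ) ^ 2 ≤ 4 * ((k + 3 : ℕ) : ℝ) ^ 2 := by nlinarith
    have h5 : 0 ≤ ((k + 3 : ℕ) : ℝ) ^ 2 := sq_nonneg _
    nlinarith
  obtain ⟨S, hS⟩ : ∃ S, S = ∑ i ∈ Finset.range h, (q ((a + i : ℕ) : ℝ) ^ 2 +
      q ((a + i + h : ℕ) : ℝ) ^ 2 + q ((a + i + 2 * h : ℕ) : ℝ) ^ 2) := ⟨_, rfl⟩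
  have hS0 : 0 ≤ S := by
    rw [hS]
    exact Finset.sum_nonneg (fun i _ => by positivity)
  have hmain : (m : ℝ) ^ 2 / 32 * S ≤ ∑ j ∈ Finset.range (n + 1), T j := by
    have h1 : ∑ j ∈ Finset.Ico a (a + (h + (h + h))), T j ≤ ∑ j ∈ Finset.range (n + 1), T j := by
      refine Finset.sum_le_sum_of_subset_of_nonneg ?_ (fun j _ _ => hT0 j)
      intro j hj
      rw [Finset.mem_Ico] at hj
      rw [Finset.mem_range]
      omega
    refine le_trans ?_ h1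
    rw [Finset.sum_Ico_eq_sum_range, Nat.add_sub_cancel_left, Finset.sum_range_add,
      Finset.sum_range_add, hS, Finset.mul_sum, ← Finset.sum_add_distrib,
      ← Finset.sum_add_distrib]
    refine Finset.sum_le_sum (fun i hi => ?_)
    rw [Finset.mem_range] at hi
    have g1 := hTq (a + i) (by omega) (by omega)
    have g2 := hTq (a + i + h) (by omega) (by omega)
    have g3 := hTq (a + i + 2 * h) (by omega) (by omega)
    have k2 : a + (h + i) = a + i + h := by omega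
    have k3 : a + (h + (h + i)) = a + i + 2 * h := by omega
    rw [k2, k3]
    linarith
  have hmR : (100 : ℝ) ≤ m := by exact_mod_cast hm
  have hhR : (0 : ℝ) < h := by
    have : 0 < h := by omega
    exact_mod_cast this
  have hpt : ∀ i ∈ Finset.range h,
      ((h : ℝ) ^ 4 * u ^ 2 * 4 ≤ 6 * (q ((a + i : ℕ) : ℝ) ^ 2 +
        q ((a + i + h : ℕ) : ℝ) ^ 2 + q ((a + i + 2 * h : ℕ) : ℝ) ^ 2)) ∧
      ((h : ℝ) ^ 2 * B ^ 2 ≤ 3 * (q ((a + i : ℕ) : ℝ) ^ 2 +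
        q ((a + i + h : ℕ) : ℝ) ^ 2 + q ((a + i + 2 * h : ℕ) : ℝ) ^ 2) +
        12 * ((h : ℝ) ^ 2 * (m : ℝ) ^ 2 * u ^ 2)) ∧
      (A ^ 2 ≤ 3 * (q ((a + i : ℕ) : ℝ) ^ 2 +
        q ((a + i + h : ℕ) : ℝ) ^ 2 + q ((a + i + 2 * h : ℕ) : ℝ) ^ 2) +
        3 * ((m : ℝ) ^ 2 * B ^ 2) + 3 * ((m : ℝ) ^ 4 * u ^ 2)) := by
    intro i hi
    rw [Finset.mem_range] at hi
    refine gram3_q A B u (h : ℝ) (m : ℝ) ((a + i : ℕ) : ℝ) _ _ _ hhR (by linarith) ?_ ?_ ?_ ?_ ?_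
    · have : 3 ≤ a + i := by omega
      exact_mod_cast this
    · have : a + i + 2 * h ≤ m := by omega
      exact_mod_cast this
    · rw [hq]
    · rw [hq]
      push_cast
      ring
    · rw [hq]
      push_cast
      ring
  have c1 : (h : ℝ) ^ 5 * u ^ 2 * 4 ≤ 6 * S := by
    have := Finset.sum_le_sum (fun i hi => (hpt i hi).1)
    rw [Finset.sum_const, Finset.card_range, nsmul_eq_mul, ← Finset.mul_sum, ← hS] at this
    nlinarith
  have c2 : (h : ℝ) ^ 3 * B ^ 2 ≤ 3 * S + 12 * ((h : ℝ) ^ 3 * (m : ℝ) ^ 2 * u ^ 2) := by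
    have := Finset.sum_le_sum (fun i hi => (hpt i hi).2.1)
    rw [Finset.sum_const, Finset.card_range, nsmul_eq_mul, Finset.sum_add_distrib,
      ← Finset.mul_sum, ← hS, Finset.sum_const, Finset.card_range, nsmul_eq_mul] at this
    nlinarith
  have c3 : (h : ℝ) * A ^ 2 ≤ 3 * S + 3 * ((h : ℝ) * (m : ℝ) ^ 2 * B ^ 2) +
      3 * ((h : ℝ) * (m : ℝ) ^ 4 * u ^ 2) := by
    have := Finset.sum_le_sum (fun i hi => (hpt i hi).2.2)
    rw [Finset.sum_const, Finset.card_range, nsmul_eq_mul, Finset.sum_add_distrib,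
      Finset.sum_add_distrib,
      ← Finset.mul_sum, ← hS, Finset.sum_const, Finset.sum_const, Finset.card_range, nsmul_eq_mul,
      nsmul_eq_mul] at this
    nlinarith
  have hfin := gram3_core A B u (m : ℝ) (h : ℝ) S hhR (by exact_mod_cast hm11) (by linarith) hS0
    c1 c2 c3
  have hx1 : (1 / 2 : ℝ) ≤ |x| := by
    refine le_trans ?_ hx
    have : 1 / (m : ℝ) ≤ 1 / 2 := one_div_le_one_div_of_le (by norm_num) (by linarith)
    linarith
  have hx2 : 1 / 4 ≤ x ^ 2 := by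
    rw [← sq_abs]
    nlinarith
  have hx4 : 1 / 16 ≤ (x ^ 2) ^ 2 := by nlinarith
  have hsA : s ^ 2 ≤ 16 * A ^ 2 := by
    rw [hA, mul_pow]
    nlinarith [sq_nonneg s]
  have htB : t ^ 2 ≤ 4 * B ^ 2 := by
    rw [hB, mul_pow]
    nlinarith [sq_nonneg t]
  have hm0 : (0 : ℝ) < m := by linarith
  have hfin2 : (m : ℝ) * s ^ 2 + (m : ℝ) ^ 3 * t ^ 2 + (m : ℝ) ^ 5 * u ^ 2 ≤ 200000000 * S := by
    have g1 := mul_le_mul_of_nonneg_left hsA hm0.le
    have g2 := mul_le_mul_of_nonneg_left htB (show 0 ≤ (m : ℝ) ^ 3 by positivity)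
    linarith
  have hfin3 := mul_le_mul_of_nonneg_left hfin2 (show 0 ≤ (m : ℝ) ^ 2 by positivity)
  refine le_trans ?_ hmain
  nlinarith

/-- upper bounds for the weights -/
theorem weights (i : ℕ) : ∃ C > 0, ∀ (n m : ℕ) (x : ℝ), 1 ≤ m →
    (|x| ≤ 1 - 1 / (4 * (m : ℝ)) ∨ (n ≤ 2 * m ∧ |x| ≤ 1 + 1 / (m : ℝ))) →
    ∑ j ∈ Finset.range (n + 1), (j : ℝ) ^ i * |x| ^ j ≤ C * (m : ℝ) ^ (i + 1) ∧
    ∀ j ∈ Finset.range (n + 1), (j : ℝ) ^ i * |x| ^ j ≤ C * (m : ℝ) ^ i := by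
  refine ⟨16 * (i.factorial * 8 ^ i) + 24 * 2 ^ i, by positivity, ?_⟩
  intro n m x hm hcase
  have hmR : (1 : ℝ) ≤ m := by exact_mod_cast hm
  have hm0 : (0 : ℝ) < m := by linarith
  have hmi : (0 : ℝ) < (m : ℝ) ^ i := by positivity
  have hf : (0 : ℝ) < (i.factorial : ℝ) * 8 ^ i := by positivity
  have h2i : (0 : ℝ) < (2 : ℝ) ^ i := by positivity
  have hr0 : 0 ≤ |x| := abs_nonneg x
  rcases hcase with hx | ⟨hn, hx⟩
  · have hq : |x| ≤ Real.exp (-(1 / (8 * (m : ℝ)))) * Real.exp (-(1 / (8 * (m : ℝ)))) := by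
      rw [← Real.exp_add]
      have h1 := Real.add_one_le_exp (-(1 / (8 * (m : ℝ))) + -(1 / (8 * (m : ℝ))))
      have h2 : -(1 / (8 * (m : ℝ))) + -(1 / (8 * (m : ℝ))) = -(1 / (4 * (m : ℝ))) := by
        field_simp
        ring
      rw [h2] at h1 ⊢
      linarith
    obtain ⟨q, hqd⟩ : ∃ q, q = Real.exp (-(1 / (8 * (m : ℝ)))) := ⟨_, rfl⟩
    rw [← hqd] at hq
    have hq0 : 0 < q := by rw [hqd]; exact Real.exp_pos _
    have hq1 : q < 1 := by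
      rw [hqd]
      have : 0 < 1 / (8 * (m : ℝ)) := by positivity
      calc Real.exp (-(1 / (8 * (m : ℝ)))) < Real.exp 0 := Real.exp_lt_exp.mpr (by linarith)
        _ = 1 := Real.exp_zero
    have hterm : ∀ j : ℕ, (j : ℝ) ^ i * |x| ^ j ≤ (i.factorial * 8 ^ i) * (m : ℝ) ^ i * q ^ j := by
      intro j
      have h1 : |x| ^ j ≤ q ^ j * q ^ j := by
        rw [← mul_pow]
        exact pow_le_pow_left₀ hr0 hq j
      have h2 : (j : ℝ) ^ i * q ^ j ≤ (i.factorial * 8 ^ i) * (m : ℝ) ^ i := by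
        have h3 := Real.pow_div_factorial_le_exp (x := (j : ℝ) / (8 * (m : ℝ)))
          (by positivity) i
        have h4 : Real.exp ((j : ℝ) / (8 * (m : ℝ))) * q ^ j = 1 := by
          have h40 : (j : ℝ) / (8 * (m : ℝ)) + (j : ℝ) * -(1 / (8 * (m : ℝ))) = 0 := by
            field_simp
            ring
          rw [hqd, ← Real.exp_nat_mul, ← Real.exp_add, h40, Real.exp_zero]
        have h5 : (j : ℝ) ^ i = (8 * (m : ℝ)) ^ i * i.factorial *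
            (((j : ℝ) / (8 * (m : ℝ))) ^ i / i.factorial) := by
          have hfa : (i.factorial : ℝ) ≠ 0 := by positivity
          rw [div_pow]
          field_simp
        rw [h5]
        have h6 := mul_le_mul_of_nonneg_left h3
          (show 0 ≤ (8 * (m : ℝ)) ^ i * i.factorial by positivity)
        have h7 := mul_le_mul_of_nonneg_right h6 (show 0 ≤ q ^ j by positivity)
        refine h7.trans (le_of_eq ?_)
        rw [mul_assoc, h4, mul_pow]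
        ring
      have h8 : 0 ≤ (j : ℝ) ^ i := by positivity
      calc (j : ℝ) ^ i * |x| ^ j ≤ (j : ℝ) ^ i * (q ^ j * q ^ j) :=
            mul_le_mul_of_nonneg_left h1 h8
        _ = (j : ℝ) ^ i * q ^ j * q ^ j := by ring
        _ ≤ _ := mul_le_mul_of_nonneg_right h2 (by positivity)
    constructor
    · have hgeo : ∑ j ∈ Finset.range (n + 1), q ^ j ≤ 16 * m := by
        have h1 : ∑ j ∈ Finset.range (n + 1), q ^ j ≤ (1 - q)⁻¹ := by
          rw [← tsum_geometric_of_lt_one hq0.le hq1]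
          exact (summable_geometric_of_lt_one hq0.le hq1).sum_le_tsum _
            (fun j _ => by positivity)
        refine h1.trans ?_
        have h2 : 1 / (16 * (m : ℝ)) ≤ 1 - q := by
          have h3 : q ≤ (1 + 1 / (8 * (m : ℝ)))⁻¹ := by
            rw [hqd, Real.exp_neg]
            refine inv_anti₀ (by positivity) ?_
            have := Real.add_one_le_exp (1 / (8 * (m : ℝ)))
            linarith
          have h4 : (1 + 1 / (8 * (m : ℝ)))⁻¹ = 8 * m / (8 * m + 1) := by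
            field_simp
          rw [h4] at h3
          have h5 : 1 / (16 * (m : ℝ)) ≤ 1 - 8 * m / (8 * m + 1) := by
            have h6 : 1 - 8 * (m : ℝ) / (8 * m + 1) = 1 / (8 * m + 1) := by
              field_simp
              ring
            rw [h6]
            apply one_div_le_one_div_of_le (by positivity)
            linarith
          linarith
        have h7 := inv_anti₀ (by positivity) h2
        rwa [one_div, inv_inv] at h7
      calc ∑ j ∈ Finset.range (n + 1), (j : ℝ) ^ i * |x| ^ j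
          ≤ ∑ j ∈ Finset.range (n + 1), (i.factorial * 8 ^ i) * (m : ℝ) ^ i * q ^ j :=
            Finset.sum_le_sum (fun j _ => hterm j)
        _ = (i.factorial * 8 ^ i) * (m : ℝ) ^ i * ∑ j ∈ Finset.range (n + 1), q ^ j := by
            rw [Finset.mul_sum]
        _ ≤ (i.factorial * 8 ^ i) * (m : ℝ) ^ i * (16 * m) :=
            mul_le_mul_of_nonneg_left hgeo (by positivity)
        _ ≤ _ := by
            rw [pow_succ]
            have : 0 ≤ 24 * 2 ^ i * ((m : ℝ) ^ i * m) := by positivity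
            nlinarith
    · intro j _
      refine (hterm j).trans ?_
      have h1 : q ^ j ≤ 1 := pow_le_one₀ hq0.le hq1.le
      have h2 : (i.factorial * 8 ^ i) * (m : ℝ) ^ i * q ^ j ≤
          (i.factorial * 8 ^ i) * (m : ℝ) ^ i * 1 :=
        mul_le_mul_of_nonneg_left h1 (by positivity)
      have h3 : 0 ≤ (i.factorial : ℝ) * 8 ^ i * (m : ℝ) ^ i := by positivity
      have h4 : 0 ≤ 2 ^ i * (m : ℝ) ^ i := by positivity
      nlinarith
  · have hterm : ∀ j : ℕ, j ≤ 2 * m → (j : ℝ) ^ i * |x| ^ j ≤ 8 * 2 ^ i * (m : ℝ) ^ i := by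
      intro j hj
      have h1 : |x| ^ j ≤ 8 := by
        have h2 : |x| ^ j ≤ (1 + 1 / (m : ℝ)) ^ j := pow_le_pow_left₀ hr0 hx j
        have h3 : (1 + 1 / (m : ℝ)) ^ j ≤ (1 + 1 / (m : ℝ)) ^ (2 * m) := by
          apply pow_le_pow_right₀ _ hj
          have : 0 < 1 / (m : ℝ) := by positivity
          linarith
        have h4 : (1 + 1 / (m : ℝ)) ^ (2 * m) ≤ Real.exp (1 / (m : ℝ)) ^ (2 * m) := by
          apply pow_le_pow_left₀ (by positivity)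
          have := Real.add_one_le_exp (1 / (m : ℝ))
          linarith
        have h5 : Real.exp (1 / (m : ℝ)) ^ (2 * m) = Real.exp 2 := by
          rw [← Real.exp_nat_mul]
          congr 1
          push_cast
          field_simp
        rw [h5] at h4
        exact h2.trans (h3.trans (h4.trans gram_exp2))
      have h6 : (j : ℝ) ^ i ≤ 2 ^ i * (m : ℝ) ^ i := by
        rw [← mul_pow]
        apply pow_le_pow_left₀ (Nat.cast_nonneg j)
        exact_mod_cast hj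
      have h7 : 0 ≤ |x| ^ j := by positivity
      calc (j : ℝ) ^ i * |x| ^ j ≤ (2 ^ i * (m : ℝ) ^ i) * |x| ^ j :=
            mul_le_mul_of_nonneg_right h6 h7
        _ ≤ (2 ^ i * (m : ℝ) ^ i) * 8 := mul_le_mul_of_nonneg_left h1 (by positivity)
        _ = _ := by ring
    constructor
    · calc ∑ j ∈ Finset.range (n + 1), (j : ℝ) ^ i * |x| ^ j
          ≤ ∑ j ∈ Finset.range (n + 1), 8 * 2 ^ i * (m : ℝ) ^ i :=
            Finset.sum_le_sum (fun j hj => hterm j (by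
              rw [Finset.mem_range] at hj
              omega))
        _ = ((n : ℝ) + 1) * (8 * 2 ^ i * (m : ℝ) ^ i) := by
            rw [Finset.sum_const, Finset.card_range, nsmul_eq_mul]
            push_cast
            ring
        _ ≤ (3 * (m : ℝ)) * (8 * 2 ^ i * (m : ℝ) ^ i) := by
            refine mul_le_mul_of_nonneg_right ?_ (by positivity)
            have : (n : ℝ) ≤ 2 * m := by exact_mod_cast hn
            linarith
        _ ≤ _ := by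
            rw [pow_succ]
            have : 0 ≤ 16 * (i.factorial * 8 ^ i) * ((m : ℝ) ^ i * m) := by positivity
            nlinarith
    · intro j hj
      rw [Finset.mem_range] at hj
      refine (hterm j (by omega)).trans ?_
      have h3 : 0 ≤ (i.factorial : ℝ) * 8 ^ i * (m : ℝ) ^ i := by positivity
      have h4 : 0 ≤ 2 ^ i * (m : ℝ) ^ i := by positivity
      nlinarith


end P4
end Kac764
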