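import Pool.Agent.Helper764.KacDefs

set_option autoImplicit false
set_option maxHeartbeats 4000000
open MeasureTheory ProbabilityTheory Filter Topology Set
open scoped ENNReal NNReal

namespace Kac764
namespace P5

/-- The small-ball statement in dimension `d` (proved elsewhere). -/
def SmallBall : Prop := ∀ (d : ℕ) (c c0 : ℝ), 0 < c → 0 < c0 →
    ∃ C > 0, ∀ (μ : Measure ℝ) [IsProbabilityMeasure μ],
      (∀ θ : ℝ, |θ| ≤ c0 → ‖charFun μ θ‖ ≤ Real.exp (-c * θ ^ 2)) →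
      ∀ (n : ℕ) (w : ℕ → Fin d → ℝ) (a l : Fin d → ℝ), (∀ i, 0 < a i) → (∀ i, 0 < l i) →
      (∀ s : Fin d → ℝ, (∀ i, |s i| ≤ a i) → ∀ j ∈ Finset.range (n + 1), |∑ i, s i * w j i| ≤ c0) →
      (∀ s : Fin d → ℝ, (∀ i, |s i| ≤ a i) →
        ∑ i, (l i * s i) ^ 2 ≤ ∑ j ∈ Finset.range (n + 1), (∑ i, s i * w j i) ^ 2) →
      (PP μ).real {ω | ∀ i, |∑ j ∈ Finset.range (n + 1), ω j * w j i| ≤ 1 / a i}
        ≤ C * ∏ i, 1 / (a i * l i)

def Gram2 : Prop := ∃ c > 0, ∀ (n m : ℕ) (x : ℝ), 2 ≤ m → m ≤ n → 1 - 1 / (m : ℝ) ≤ |x| → |x| ≤ 2 →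
    ∀ s t : ℝ, c * ((m : ℝ) * s ^ 2 + (m : ℝ) ^ 3 * t ^ 2)
      ≤ ∑ j ∈ Finset.range (n + 1), (s * x ^ j + t * ((j : ℝ) * x ^ (j - 1))) ^ 2

def Gram3 : Prop := ∃ c > 0, ∃ m0 : ℕ, ∀ (n m : ℕ) (x : ℝ), m0 ≤ m → m ≤ n →
    1 - 1 / (m : ℝ) ≤ |x| → |x| ≤ 2 →
    ∀ s t u : ℝ, c * ((m : ℝ) ^ 3 * s ^ 2 + (m : ℝ) ^ 5 * t ^ 2 + (m : ℝ) ^ 7 * u ^ 2)
      ≤ ∑ j ∈ Finset.range (n + 1), (s * ((j : ℝ) * x ^ (j - 1))
          + t * ((j : ℝ) * ((j : ℝ) - 1) * x ^ (j - 2))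
          + u * ((j : ℝ) * ((j : ℝ) - 1) * ((j : ℝ) - 2) * x ^ (j - 3))) ^ 2

def Weights : Prop := ∀ (i : ℕ), ∃ C > 0, ∀ (n m : ℕ) (x : ℝ), 1 ≤ m →
    (|x| ≤ 1 - 1 / (4 * (m : ℝ)) ∨ (n ≤ 2 * m ∧ |x| ≤ 1 + 1 / (m : ℝ))) →
    ∑ j ∈ Finset.range (n + 1), (j : ℝ) ^ i * |x| ^ j ≤ C * (m : ℝ) ^ (i + 1) ∧
    ∀ j ∈ Finset.range (n + 1), (j : ℝ) ^ i * |x| ^ j ≤ C * (m : ℝ) ^ i

def CharB (μ : Measure ℝ) : Prop :=
  ∃ c0 > 0, ∃ c > 0, ∀ θ : ℝ, |θ| ≤ c0 → ‖charFun μ θ‖ ≤ Real.exp (-c * θ ^ 2)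

lemma adm_basic {n m : ℕ} {x : ℝ} (h : Adm n m x) :
    (2:ℝ) ≤ m ∧ 1 / 2 ≤ |x| ∧ |x| ≤ 1 ∧
      (|x| ≤ 1 - 1 / (4 * (m : ℝ)) ∨ (n ≤ 2 * m ∧ |x| ≤ 1 + 1 / (m : ℝ))) := by
  obtain ⟨h1, h2, h3, h4⟩ := h
  have hm : (2:ℝ) ≤ m := by exact_mod_cast h1
  have hm0 : (0:ℝ) < m := by linarith
  have h5 : 1 / (m:ℝ) ≤ 1 / 2 := by
    apply one_div_le_one_div_of_le <;> linarith
  have h6 : 1 / (4 * (m:ℝ)) ≤ 1 / (2 * (m:ℝ)) := by
    apply one_div_le_one_div_of_le <;> linarith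
  have h7 : 0 < 1 / (m:ℝ) := by positivity
  have h8 : 0 < 1 / (2 * (m:ℝ)) := by positivity
  refine ⟨hm, by linarith, ?_, ?_⟩
  · rcases h4 with h4 | h4
    · linarith
    · exact h4.2
  · rcases h4 with h4 | h4
    · left; linarith
    · right; exact ⟨h4.1, by linarith⟩

lemma pow_sub_le (x : ℝ) (h1 : 1 / 2 ≤ |x|) (i j : ℕ) :
    |x| ^ (j - i) ≤ 2 ^ i * |x| ^ j := by
  have h0 : 0 ≤ |x| := abs_nonneg x
  have h3 : ∀ k : ℕ, (1:ℝ) ≤ 2 ^ k * |x| ^ k := by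
    intro k
    rw [← mul_pow]
    apply one_le_pow₀
    linarith
  rcases le_total i j with h | h
  · obtain ⟨k, rfl⟩ := Nat.exists_eq_add_of_le h
    rw [Nat.add_sub_cancel_left, pow_add]
    have := h3 i
    have h4 : 0 ≤ |x| ^ k := by positivity
    nlinarith
  · rw [Nat.sub_eq_zero_of_le h, pow_zero]
    calc (1:ℝ) ≤ 2 ^ j * |x| ^ j := h3 j
      _ ≤ 2 ^ i * |x| ^ j := by
        gcongr
        norm_num

lemma wb (hW : Weights) (i : ℕ) : ∃ C > 0, ∀ (n m : ℕ) (x : ℝ), Adm n m x →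
    ∀ f : ℕ → ℝ, (∀ j, |f j| ≤ (j:ℝ) ^ i) →
      (∀ j ∈ Finset.range (n + 1), |f j * x ^ (j - i)| ≤ C * (m:ℝ) ^ i) ∧
      ∑ j ∈ Finset.range (n + 1), (f j * x ^ (j - i)) ^ 2 ≤ C * (m:ℝ) ^ (2 * i + 1) := by
  obtain ⟨C1, hC1, h1⟩ := hW i
  obtain ⟨C2, hC2, h2⟩ := hW (2 * i)
  refine ⟨2 ^ i * C1 + 4 ^ i * C2, by positivity, ?_⟩
  intro n m x hadm f hf
  obtain ⟨hm, hx1, hx2, hx3⟩ := adm_basic hadm
  have hm1 : 1 ≤ m := by
    have : (1:ℝ) ≤ m := by linarith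
    exact_mod_cast this
  have h1' := h1 n m x hm1 hx3
  have h2' := h2 n m x hm1 hx3
  have key : ∀ j, |f j * x ^ (j - i)| ≤ 2 ^ i * ((j:ℝ) ^ i * |x| ^ j) := by
    intro j
    rw [abs_mul, abs_pow]
    calc |f j| * |x| ^ (j - i) ≤ (j:ℝ) ^ i * (2 ^ i * |x| ^ j) := by
          apply mul_le_mul (hf j) (pow_sub_le x hx1 i j) (by positivity) (by positivity)
      _ = _ := by ring
  constructor
  · intro j hj
    calc |f j * x ^ (j - i)| ≤ 2 ^ i * ((j:ℝ) ^ i * |x| ^ j) := key j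
      _ ≤ 2 ^ i * (C1 * (m:ℝ) ^ i) :=
        mul_le_mul_of_nonneg_left (h1'.2 j hj) (by positivity)
      _ = (2 ^ i * C1) * (m:ℝ) ^ i := by ring
      _ ≤ _ := by
        gcongr
        have : (0:ℝ) ≤ 4 ^ i * C2 := by positivity
        linarith
  · calc ∑ j ∈ Finset.range (n + 1), (f j * x ^ (j - i)) ^ 2
        ≤ ∑ j ∈ Finset.range (n + 1), 4 ^ i * ((j:ℝ) ^ (2 * i) * |x| ^ j) := by
          apply Finset.sum_le_sum
          intro j _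
          have hk := key j
          rw [← sq_abs]
          calc |f j * x ^ (j - i)| ^ 2 ≤ (2 ^ i * ((j:ℝ) ^ i * |x| ^ j)) ^ 2 := by
                gcongr
            _ = 4 ^ i * ((j:ℝ) ^ (2 * i) * (|x| ^ j * |x| ^ j)) := by
                have : (4:ℝ) ^ i = 2 ^ i * 2 ^ i := by rw [← mul_pow]; norm_num
                rw [this]
                ring
            _ ≤ 4 ^ i * ((j:ℝ) ^ (2 * i) * |x| ^ j) := by
                gcongr
                have h5 : |x| ^ j ≤ 1 := pow_le_one₀ (abs_nonneg x) hx2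
                have h6 : 0 ≤ |x| ^ j := by positivity
                nlinarith
      _ = 4 ^ i * ∑ j ∈ Finset.range (n + 1), ((j:ℝ) ^ (2 * i) * |x| ^ j) := by
          rw [Finset.mul_sum]
      _ ≤ 4 ^ i * (C2 * (m:ℝ) ^ (2 * i + 1)) := by
          gcongr
          exact h2'.1
      _ = (4 ^ i * C2) * (m:ℝ) ^ (2 * i + 1) := by ring
      _ ≤ _ := by
        gcongr
        have : (0:ℝ) ≤ 2 ^ i * C1 := by positivity
        linarith

/-- coefficients -/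
lemma cf1 (j : ℕ) : |(j:ℝ)| ≤ (j:ℝ) ^ 1 := by simp

lemma cf2 (j : ℕ) : |(j:ℝ) * ((j:ℝ) - 1)| ≤ (j:ℝ) ^ 2 := by
  rcases Nat.eq_zero_or_pos j with rfl | hj
  · simp
  · have h1 : (1:ℝ) ≤ j := by exact_mod_cast hj
    rw [abs_of_nonneg (by nlinarith)]
    nlinarith

lemma cf3 (j : ℕ) : |(j:ℝ) * ((j:ℝ) - 1) * ((j:ℝ) - 2)| ≤ (j:ℝ) ^ 3 := by
  rcases Nat.lt_or_ge j 2 with hj | hj
  · interval_cases j <;> simp
  · have h1 : (2:ℝ) ≤ j := by exact_mod_cast hj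
    have h2 : 0 ≤ (j:ℝ) * ((j:ℝ) - 1) := by nlinarith
    rw [abs_of_nonneg (mul_nonneg h2 (by linarith))]
    have h3 : (j:ℝ) * ((j:ℝ) - 1) ≤ (j:ℝ) ^ 2 := by nlinarith
    calc (j:ℝ) * ((j:ℝ) - 1) * ((j:ℝ) - 2) ≤ (j:ℝ) ^ 2 * j := by
          apply mul_le_mul h3 (by linarith) (by linarith) (by positivity)
      _ = _ := by ring

lemma momL (μ : Measure ℝ) (hμ : Std μ) (n : ℕ) (w : ℕ → ℝ) :
    ∫ ω, |∑ j ∈ Finset.range (n + 1), ω j * w j| ∂(PP μ) ≤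
      Real.sqrt (∑ j ∈ Finset.range (n + 1), w j ^ 2) := by
  have := hμ.prob
  have hmp : ∀ j : ℕ, MeasurePreserving (fun ω : ℕ → ℝ => ω j) (PP μ) μ := fun j =>
    measurePreserving_eval_infinitePi _ j
  have hid : MemLp (fun x : ℝ => x) 2 μ :=
    (memLp_two_iff_integrable_sq (by fun_prop)).2 hμ.int2
  have hX0 : ∀ j : ℕ, MemLp (fun ω : ℕ → ℝ => ω j) 2 (PP μ) := fun j =>
    hid.comp_measurePreserving (hmp j)
  have hX : ∀ j : ℕ, MemLp (fun ω : ℕ → ℝ => ω j * w j) 2 (PP μ) := fun j =>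
    (hX0 j).mul_const (w j)
  have hind : iIndepFun (fun (i : ℕ) (ω : ℕ → ℝ) => ω i * w i) (PP μ) :=
    iIndepFun_infinitePi (P := fun _ : ℕ => μ) (X := fun i x => x * w i) (by fun_prop)
  have hsumL : MemLp (∑ j ∈ Finset.range (n + 1), fun ω : ℕ → ℝ => ω j * w j) 2 (PP μ) :=
    memLp_finsetSum' _ fun j _ => hX j
  have hsum_eq : (∑ j ∈ Finset.range (n + 1), fun ω : ℕ → ℝ => ω j * w j) =
      fun ω => ∑ j ∈ Finset.range (n + 1), ω j * w j := by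
    funext ω
    simp
  have hvar : variance (fun ω => ∑ j ∈ Finset.range (n + 1), ω j * w j) (PP μ) =
      ∑ j ∈ Finset.range (n + 1), w j ^ 2 := by
    rw [← hsum_eq, IndepFun.variance_sum (fun j _ => hX j)
      (fun i _ j _ hij => hind.indepFun hij)]
    refine Finset.sum_congr rfl fun j _ => ?_
    have h1 : variance (fun ω : ℕ → ℝ => ω j * w j) (PP μ) = variance (fun x : ℝ => x * w j) μ :=
      (hmp j).variance_fun_comp (f := fun x : ℝ => x * w j) (by fun_prop)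
    rw [h1, variance_mul_const]
    have h2 : variance (fun x : ℝ => x) μ = 1 := by
      rw [variance_of_integral_eq_zero (by fun_prop) hμ.mean]
      exact hμ.var
    rw [h2, one_mul]
  have hmean : ∫ ω, (∑ j ∈ Finset.range (n + 1), ω j * w j) ∂(PP μ) = 0 := by
    rw [integral_finsetSum _ (fun j _ => (hX j).integrable (by norm_num))]
    refine Finset.sum_eq_zero fun j _ => ?_
    rw [integral_mul_const]
    have : ∫ ω : ℕ → ℝ, ω j ∂(PP μ) = ∫ x, x ∂μ := by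
      have h := integral_map (μ := PP μ) (hmp j).measurable.aemeasurable
        (f := fun x : ℝ => x) (by fun_prop)
      rw [(hmp j).map_eq] at h
      exact h.symm
    rw [this, hμ.mean, zero_mul]
  rw [hsum_eq] at hsumL
  have hsq : ∫ ω, (∑ j ∈ Finset.range (n + 1), ω j * w j) ^ 2 ∂(PP μ) =
      ∑ j ∈ Finset.range (n + 1), w j ^ 2 := by
    rw [← hvar, variance_of_integral_eq_zero hsumL.aestronglyMeasurable.aemeasurable hmean]
  have habs : MemLp (fun ω : ℕ → ℝ => |∑ j ∈ Finset.range (n + 1), ω j * w j|) 2 (PP μ) :=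
    hsumL.abs
  have hv := variance_nonneg (fun ω : ℕ → ℝ => |∑ j ∈ Finset.range (n + 1), ω j * w j|) (PP μ)
  rw [variance_eq_sub habs] at hv
  apply Real.le_sqrt_of_sq_le
  rw [← hsq]
  have h3 : (∫ ω, ((fun ω : ℕ → ℝ => |∑ j ∈ Finset.range (n + 1), ω j * w j|) ^ 2) ω ∂(PP μ)) =
      ∫ ω, (∑ j ∈ Finset.range (n + 1), ω j * w j) ^ 2 ∂(PP μ) := by
    congr 1
    funext ω
    simp
  rw [h3] at hv
  linarith

theorem sb1_of (hS : SmallBall) (hG : Gram2) (hW : Weights) (μ : Measure ℝ) (hμ : Std μ)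
    (hc : CharB μ) : SB1 μ := by
  have := hμ.prob
  obtain ⟨c0, hc0, c, hcpos, hchar⟩ := hc
  obtain ⟨cG, hcG, hGram⟩ := hG
  obtain ⟨C, hC, hball⟩ := hS 1 c c0 hcpos hc0
  obtain ⟨c1, hc1, hc1a, hc1b⟩ : ∃ c1 : ℝ, 0 < c1 ∧ c1 ≤ c0 ∧ c1 ≤ 1 :=
    ⟨min c0 1, lt_min hc0 one_pos, min_le_left _ _, min_le_right _ _⟩
  refine ⟨C / (c1 * Real.sqrt cG), by positivity, ?_⟩
  intro n m x r hadm hr
  obtain ⟨hm, hx1, hx2, hx3⟩ := adm_basic hadm
  have hm0 : (0:ℝ) < m := by linarith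
  have hr0 : (0:ℝ) < r := by linarith
  have hb := hball μ hchar n (fun j _ => x ^ j) (fun _ => c1 / r) (fun _ => Real.sqrt (cG * m))
    (fun _ => by positivity) (fun _ => by positivity) ?_ ?_
  · have hsub : {ω : ℕ → ℝ | |D0 n ω x| ≤ r} ⊆
        {ω | ∀ i : Fin 1, |∑ j ∈ Finset.range (n + 1), ω j * (fun (j : ℕ) (_ : Fin 1) => x ^ j) j i|
          ≤ 1 / (fun _ : Fin 1 => c1 / r) i} := by
      intro ω hω _
      refine (show |D0 n ω x| ≤ r from hω).trans ?_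
      show r ≤ 1 / (c1 / r)
      rw [one_div_div, le_div_iff₀ hc1]
      nlinarith
    refine (measureReal_mono hsub).trans (hb.trans ?_)
    rw [Finset.prod_const, Finset.card_univ, Fintype.card_fin, pow_one,
      Real.sqrt_mul hcG.le, Real.rpow_neg hm0.le, ← Real.sqrt_eq_rpow]
    have h1 : 0 < Real.sqrt cG := Real.sqrt_pos.2 hcG
    have h2 : 0 < Real.sqrt (m:ℝ) := Real.sqrt_pos.2 hm0
    apply le_of_eq
    field_simp
  · intro s hs j _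
    simp only [Finset.univ_unique, Fin.default_eq_zero, Fin.isValue, Finset.sum_singleton]
    have h1 := hs 0
    rw [abs_mul, abs_pow]
    have h2 : |x| ^ j ≤ 1 := pow_le_one₀ (abs_nonneg x) hx2
    have h3 : c1 / r ≤ c1 := div_le_self hc1.le hr
    calc |s 0| * |x| ^ j ≤ (c1 / r) * 1 := by
          apply mul_le_mul h1 h2 (by positivity) (by positivity)
      _ ≤ c0 := by linarith
  · intro s _
    simp only [Finset.univ_unique, Fin.default_eq_zero, Fin.isValue, Finset.sum_singleton]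
    have h1 := hGram n m x hadm.1 hadm.2.1 hadm.2.2.1 (by linarith) (s 0) 0
    rw [mul_pow, Real.sq_sqrt (by positivity)]
    simp only [zero_mul, add_zero] at h1
    calc cG * m * s 0 ^ 2 = cG * (m * s 0 ^ 2 + m ^ 3 * 0 ^ 2) := by ring
      _ ≤ _ := h1

theorem sb2_of (hS : SmallBall) (hG : Gram2) (hW : Weights) (μ : Measure ℝ) (hμ : Std μ)
    (hc : CharB μ) : SB2 μ := by
  have := hμ.prob
  obtain ⟨c0, hc0, c, hcpos, hchar⟩ := hc
  obtain ⟨cG, hcG, hGram⟩ := hG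
  obtain ⟨C, hC, hball⟩ := hS 2 c c0 hcpos hc0
  obtain ⟨C1, hC1, hw1⟩ := wb hW 1
  obtain ⟨c1, hc1, hc1a, hc1b⟩ : ∃ c1 : ℝ, 0 < c1 ∧ c1 * (1 + C1) ≤ c0 ∧ c1 ≤ 1 := by
    refine ⟨min (c0 / (1 + C1)) 1, lt_min (by positivity) one_pos, ?_, min_le_right _ _⟩
    rw [← le_div_iff₀ (by positivity)]
    exact min_le_left _ _
  refine ⟨C / (c1 ^ 2 * cG), by positivity, ?_⟩
  intro n m x r1 r2 hadm hr1 hr2
  obtain ⟨hm, hx1, hx2, hx3⟩ := adm_basic hadm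
  have hm0 : (0:ℝ) < m := by linarith
  have hr10 : (0:ℝ) < r1 := by linarith
  have hr20 : (0:ℝ) < r2 := by linarith
  have hb := hball μ hchar n (fun j => ![x ^ j, (j:ℝ) * x ^ (j - 1)]) ![c1 / r1, c1 / r2]
    ![Real.sqrt (cG * m), Real.sqrt (cG * m ^ 3)] ?_ ?_ ?_ ?_
  · have hsub : {ω : ℕ → ℝ | |D0 n ω x| ≤ r1 ∧ |D1 n ω x| ≤ r2} ⊆
        {ω | ∀ i : Fin 2, |∑ j ∈ Finset.range (n + 1), ω j *
          (fun (j : ℕ) => ![x ^ j, (j:ℝ) * x ^ (j - 1)]) j i|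
          ≤ 1 / (![c1 / r1, c1 / r2] : Fin 2 → ℝ) i} := by
      rintro ω ⟨h1, h2⟩ i
      fin_cases i
      · refine (show |D0 n ω x| ≤ r1 from h1).trans ?_
        show r1 ≤ 1 / (c1 / r1)
        rw [one_div_div, le_div_iff₀ hc1]
        nlinarith
      · refine (show |D1 n ω x| ≤ r2 from h2).trans ?_
        show r2 ≤ 1 / (c1 / r2)
        rw [one_div_div, le_div_iff₀ hc1]
        nlinarith
    refine (measureReal_mono hsub).trans (hb.trans ?_)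
    rw [Fin.prod_univ_two]
    simp only [Matrix.cons_val_zero, Matrix.cons_val_one]
    have h1 : Real.sqrt (cG * m) * Real.sqrt (cG * m ^ 3) = cG * m ^ 2 := by
      rw [← Real.sqrt_mul (by positivity)]
      rw [show cG * (m:ℝ) * (cG * m ^ 3) = (cG * m ^ 2) ^ 2 by ring]
      exact Real.sqrt_sq (by positivity)
    have h2 : 0 < Real.sqrt (cG * m) := Real.sqrt_pos.2 (by positivity)
    have h3 : 0 < Real.sqrt (cG * m ^ 3) := Real.sqrt_pos.2 (by positivity)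
    have h4 : (m:ℝ) ^ (-2 : ℝ) = 1 / m ^ 2 := by
      rw [Real.rpow_neg hm0.le]
      norm_num
    rw [h4]
    apply le_of_eq
    calc C * (1 / (c1 / r1 * Real.sqrt (cG * m)) * (1 / (c1 / r2 * Real.sqrt (cG * m ^ 3))))
        = C * r1 * r2 / (c1 ^ 2 * (Real.sqrt (cG * m) * Real.sqrt (cG * m ^ 3))) := by
          field_simp
      _ = _ := by
          rw [h1]
          field_simp
  · intro i
    fin_cases i
    · show 0 < c1 / r1
      positivity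
    · show 0 < c1 / r2
      positivity
  · intro i
    fin_cases i
    · show 0 < Real.sqrt (cG * m)
      positivity
    · show 0 < Real.sqrt (cG * m ^ 3)
      positivity
  · intro s hs j hj
    rw [Fin.sum_univ_two]
    simp only [Matrix.cons_val_zero, Matrix.cons_val_one]
    have hs0 : |s 0| ≤ c1 / r1 := hs 0
    have hs1 : |s 1| ≤ c1 / r2 := hs 1
    have h2 : |x| ^ j ≤ 1 := pow_le_one₀ (abs_nonneg x) hx2
    have h3 : |(j:ℝ) * x ^ (j - 1)| ≤ C1 * m := by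
      have := (hw1 n m x hadm (fun j => (j:ℝ)) cf1).1 j hj
      simpa using this
    have h4 : |s 0 * x ^ j| ≤ c1 := by
      rw [abs_mul, abs_pow]
      calc |s 0| * |x| ^ j ≤ (c1 / r1) * 1 := by
            apply mul_le_mul hs0 h2 (by positivity) (by positivity)
        _ ≤ c1 := by rw [mul_one]; exact div_le_self hc1.le hr1
    have h5 : |s 1 * ((j:ℝ) * x ^ (j - 1))| ≤ c1 * C1 := by
      rw [abs_mul]
      calc |s 1| * |(j:ℝ) * x ^ (j - 1)| ≤ (c1 / r2) * (C1 * m) := by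
            apply mul_le_mul hs1 h3 (by positivity) (by positivity)
        _ ≤ (c1 / m) * (C1 * m) := by
            gcongr
        _ = c1 * C1 := by field_simp
    calc _ ≤ |s 0 * x ^ j| + |s 1 * ((j:ℝ) * x ^ (j - 1))| := abs_add_le _ _
      _ ≤ c1 + c1 * C1 := add_le_add h4 h5
      _ ≤ c0 := by linarith
  · intro s _
    rw [Fin.sum_univ_two]
    simp only [Fin.sum_univ_two, Matrix.cons_val_zero, Matrix.cons_val_one]
    have h1 := hGram n m x hadm.1 hadm.2.1 hadm.2.2.1 (by linarith) (s 0) (s 1)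
    rw [mul_pow, mul_pow, Real.sq_sqrt (by positivity), Real.sq_sqrt (by positivity)]
    calc cG * m * s 0 ^ 2 + cG * m ^ 3 * s 1 ^ 2 = cG * (m * s 0 ^ 2 + m ^ 3 * s 1 ^ 2) := by ring
      _ ≤ _ := h1

theorem sb3_of (hS : SmallBall) (hG : Gram3) (hW : Weights) (μ : Measure ℝ) (hμ : Std μ)
    (hc : CharB μ) : SB3 μ := by
  have := hμ.prob
  obtain ⟨c0, hc0, c, hcpos, hchar⟩ := hc
  obtain ⟨cG, hcG, m0, hGram⟩ := hG
  obtain ⟨C, hC, hball⟩ := hS 3 c c0 hcpos hc0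
  obtain ⟨C1, hC1, hw1⟩ := wb hW 1
  obtain ⟨C2, hC2, hw2⟩ := wb hW 2
  obtain ⟨C3, hC3, hw3⟩ := wb hW 3
  obtain ⟨c1, hc1, hc1a, hc1b⟩ : ∃ c1 : ℝ, 0 < c1 ∧ c1 * (C1 + C2 + C3) ≤ c0 ∧ c1 ≤ 1 := by
    refine ⟨min (c0 / (C1 + C2 + C3)) 1, lt_min (by positivity) one_pos, ?_, min_le_right _ _⟩
    rw [← le_div_iff₀ (by positivity)]
    exact min_le_left _ _
  refine ⟨C / (c1 ^ 3 * (Real.sqrt cG) ^ 3) + (m0:ℝ) ^ (3 / 2 : ℝ), by positivity, ?_⟩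
  intro n m x hadm
  obtain ⟨hm, hx1, hx2, hx3⟩ := adm_basic hadm
  have hm0 : (0:ℝ) < m := by linarith
  have hmr : (0:ℝ) < (m:ℝ) ^ (-(3 / 2) : ℝ) := Real.rpow_pos_of_pos hm0 _
  rcases Nat.lt_or_ge m m0 with hlt | hge
  · have h1 : (PP μ).real {ω | |D1 n ω x| ≤ m ∧ |D2 n ω x| ≤ (m : ℝ) ^ 2 ∧
        |D3 n ω x| ≤ (m : ℝ) ^ 3} ≤ 1 := measureReal_le_one
    refine h1.trans ?_
    have h2 : (m:ℝ) ^ (3 / 2 : ℝ) ≤ (m0:ℝ) ^ (3 / 2 : ℝ) := by
      apply Real.rpow_le_rpow hm0.le _ (by norm_num)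
      exact_mod_cast hlt.le
    have h3 : (m:ℝ) ^ (3 / 2 : ℝ) * (m:ℝ) ^ (-(3 / 2) : ℝ) = 1 := by
      rw [← Real.rpow_add hm0]
      norm_num
    have h4 : 0 < C / (c1 ^ 3 * (Real.sqrt cG) ^ 3) := by positivity
    calc (1:ℝ) = (m:ℝ) ^ (3 / 2 : ℝ) * (m:ℝ) ^ (-(3 / 2) : ℝ) := h3.symm
      _ ≤ _ := by
        gcongr
        linarith
  have hb := hball μ hchar n (fun j => ![(j:ℝ) * x ^ (j - 1),
      (j:ℝ) * ((j:ℝ) - 1) * x ^ (j - 2), (j:ℝ) * ((j:ℝ) - 1) * ((j:ℝ) - 2) * x ^ (j - 3)])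
    ![c1 / m, c1 / m ^ 2, c1 / m ^ 3]
    ![Real.sqrt cG * (m * Real.sqrt m), Real.sqrt cG * (m ^ 2 * Real.sqrt m),
      Real.sqrt cG * (m ^ 3 * Real.sqrt m)] ?_ ?_ ?_ ?_
  · have hsub : {ω : ℕ → ℝ | |D1 n ω x| ≤ m ∧ |D2 n ω x| ≤ (m : ℝ) ^ 2 ∧
        |D3 n ω x| ≤ (m : ℝ) ^ 3} ⊆
        {ω | ∀ i : Fin 3, |∑ j ∈ Finset.range (n + 1), ω j *
          (fun (j : ℕ) => ![(j:ℝ) * x ^ (j - 1), (j:ℝ) * ((j:ℝ) - 1) * x ^ (j - 2),
            (j:ℝ) * ((j:ℝ) - 1) * ((j:ℝ) - 2) * x ^ (j - 3)]) j i|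
          ≤ 1 / (![c1 / m, c1 / m ^ 2, c1 / m ^ 3] : Fin 3 → ℝ) i} := by
      rintro ω ⟨h1, h2, h3⟩ i
      fin_cases i
      · refine (show |D1 n ω x| ≤ m from h1).trans ?_
        show (m:ℝ) ≤ 1 / (c1 / m)
        rw [one_div_div, le_div_iff₀ hc1]
        nlinarith
      · refine (show |D2 n ω x| ≤ (m:ℝ) ^ 2 from h2).trans ?_
        show (m:ℝ) ^ 2 ≤ 1 / (c1 / m ^ 2)
        rw [one_div_div, le_div_iff₀ hc1]
        have : (0:ℝ) < (m:ℝ) ^ 2 := by positivity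
        nlinarith
      · refine (show |D3 n ω x| ≤ (m:ℝ) ^ 3 from h3).trans ?_
        show (m:ℝ) ^ 3 ≤ 1 / (c1 / m ^ 3)
        rw [one_div_div, le_div_iff₀ hc1]
        have : (0:ℝ) < (m:ℝ) ^ 3 := by positivity
        nlinarith
    refine (measureReal_mono hsub).trans (hb.trans ?_)
    rw [Fin.prod_univ_three]
    simp only [Matrix.cons_val_zero, Matrix.cons_val_one, Matrix.cons_val]
    have h2 : 0 < Real.sqrt cG := Real.sqrt_pos.2 hcG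
    have h3 : 0 < Real.sqrt (m:ℝ) := Real.sqrt_pos.2 hm0
    have h4 : (m:ℝ) ^ (-(3 / 2) : ℝ) = 1 / (Real.sqrt m) ^ 3 := by
      rw [Real.sqrt_eq_rpow, ← Real.rpow_natCast, ← Real.rpow_mul hm0.le, Real.rpow_neg hm0.le]
      norm_num
    have h5 : 0 ≤ (m0:ℝ) ^ (3 / 2 : ℝ) := by positivity
    calc C * (1 / (c1 / m * (Real.sqrt cG * (m * Real.sqrt m))) *
          (1 / (c1 / m ^ 2 * (Real.sqrt cG * (m ^ 2 * Real.sqrt m)))) *
          (1 / (c1 / m ^ 3 * (Real.sqrt cG * (m ^ 3 * Real.sqrt m)))))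
        = C / (c1 ^ 3 * (Real.sqrt cG) ^ 3) * (1 / (Real.sqrt m) ^ 3) := by
          field_simp
      _ ≤ _ := by
          rw [h4]
          gcongr
          linarith
  · intro i
    fin_cases i
    · show 0 < c1 / m
      positivity
    · show 0 < c1 / m ^ 2
      positivity
    · show 0 < c1 / m ^ 3
      positivity
  · intro i
    fin_cases i
    · show 0 < Real.sqrt cG * (m * Real.sqrt m)
      positivity
    · show 0 < Real.sqrt cG * (m ^ 2 * Real.sqrt m)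
      positivity
    · show 0 < Real.sqrt cG * (m ^ 3 * Real.sqrt m)
      positivity
  · intro s hs j hj
    rw [Fin.sum_univ_three]
    simp only [Matrix.cons_val_zero, Matrix.cons_val_one, Matrix.cons_val]
    have hs0 : |s 0| ≤ c1 / m := hs 0
    have hs1 : |s 1| ≤ c1 / m ^ 2 := hs 1
    have hs2 : |s 2| ≤ c1 / m ^ 3 := hs 2
    have e1 : |(j:ℝ) * x ^ (j - 1)| ≤ C1 * m := by
      have := (hw1 n m x hadm (fun j => (j:ℝ)) cf1).1 j hj
      simpa using this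
    have e2 := (hw2 n m x hadm (fun j => (j:ℝ) * ((j:ℝ) - 1)) cf2).1 j hj
    have e3 := (hw3 n m x hadm (fun j => (j:ℝ) * ((j:ℝ) - 1) * ((j:ℝ) - 2)) cf3).1 j hj
    have f1 : |s 0 * ((j:ℝ) * x ^ (j - 1))| ≤ c1 * C1 := by
      rw [abs_mul]
      calc _ ≤ (c1 / m) * (C1 * m) := by
            apply mul_le_mul hs0 e1 (by positivity) (by positivity)
        _ = c1 * C1 := by field_simp
    have f2 : |s 1 * ((j:ℝ) * ((j:ℝ) - 1) * x ^ (j - 2))| ≤ c1 * C2 := by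
      rw [abs_mul]
      calc _ ≤ (c1 / m ^ 2) * (C2 * m ^ 2) := by
            apply mul_le_mul hs1 e2 (by positivity) (by positivity)
        _ = c1 * C2 := by field_simp
    have f3 : |s 2 * ((j:ℝ) * ((j:ℝ) - 1) * ((j:ℝ) - 2) * x ^ (j - 3))| ≤ c1 * C3 := by
      rw [abs_mul]
      calc _ ≤ (c1 / m ^ 3) * (C3 * m ^ 3) := by
            apply mul_le_mul hs2 e3 (by positivity) (by positivity)
        _ = c1 * C3 := by field_simp
    calc _ ≤ |s 0 * ((j:ℝ) * x ^ (j - 1))| + |s 1 * ((j:ℝ) * ((j:ℝ) - 1) * x ^ (j - 2))| +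
          |s 2 * ((j:ℝ) * ((j:ℝ) - 1) * ((j:ℝ) - 2) * x ^ (j - 3))| := abs_add_three _ _ _
      _ ≤ c1 * C1 + c1 * C2 + c1 * C3 := by linarith
      _ ≤ c0 := by linarith
  · intro s _
    rw [Fin.sum_univ_three]
    simp only [Fin.sum_univ_three, Matrix.cons_val_zero, Matrix.cons_val_one, Matrix.cons_val]
    have h1 := hGram n m x hge hadm.2.1 hadm.2.2.1 (by linarith) (s 0) (s 1) (s 2)
    have h2 : Real.sqrt cG ^ 2 = cG := Real.sq_sqrt hcG.le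
    have h3 : Real.sqrt (m:ℝ) ^ 2 = m := Real.sq_sqrt hm0.le
    calc _ = Real.sqrt cG ^ 2 * (m ^ 2 * Real.sqrt m ^ 2 * s 0 ^ 2 +
          m ^ 4 * Real.sqrt m ^ 2 * s 1 ^ 2 + m ^ 6 * Real.sqrt m ^ 2 * s 2 ^ 2) := by ring
      _ = cG * (m ^ 3 * s 0 ^ 2 + m ^ 5 * s 1 ^ 2 + m ^ 7 * s 2 ^ 2) := by
          rw [h2, h3]; ring
      _ ≤ _ := h1

theorem mom_of (hW : Weights) (μ : Measure ℝ) (hμ : Std μ) : Mom μ := by
  have hp : ∀ (i m : ℕ), Real.sqrt ((m:ℝ) ^ (2 * i + 1)) = (m:ℝ) ^ ((i:ℝ) + 1 / 2) := by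
    intro i m
    rw [Real.sqrt_eq_rpow, ← Real.rpow_natCast, ← Real.rpow_mul (by positivity)]
    congr 1
    push_cast
    ring
  have gen : ∀ i : ℕ, ∃ C > 0, ∀ (n m : ℕ) (x : ℝ), Adm n m x →
      ∀ f : ℕ → ℝ, (∀ j, |f j| ≤ (j:ℝ) ^ i) →
      ∫ ω, |∑ j ∈ Finset.range (n + 1), ω j * (f j * x ^ (j - i))| ∂(PP μ) ≤
        C * (m : ℝ) ^ ((i:ℝ) + 1 / 2) := by
    intro i
    obtain ⟨C, hC, h⟩ := wb hW i
    refine ⟨Real.sqrt C, by positivity, ?_⟩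
    intro n m x hadm f hf
    refine (momL μ hμ n _).trans ?_
    refine (Real.sqrt_le_sqrt (h n m x hadm f hf).2).trans ?_
    rw [Real.sqrt_mul hC.le, hp]
  obtain ⟨C0, hC0, h0⟩ := gen 0
  obtain ⟨C1, hC1, h1⟩ := gen 1
  obtain ⟨C2, hC2, h2⟩ := gen 2
  obtain ⟨C3, hC3, h3⟩ := gen 3
  refine ⟨C0 + C1 + C2 + C3, by positivity, ?_⟩
  intro n m x hadm
  have hmp : ∀ r : ℝ, 0 ≤ (m:ℝ) ^ r := fun r => Real.rpow_nonneg (by positivity) r
  refine ⟨?_, ?_, ?_, ?_⟩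
  · have := h0 n m x hadm (fun _ => 1) (by simp)
    simp only [one_mul, Nat.sub_zero] at this
    norm_num at this
    refine this.trans ?_
    norm_num
    gcongr
    linarith
  · have := h1 n m x hadm (fun j => (j:ℝ)) cf1
    norm_num at this
    refine this.trans ?_
    norm_num
    gcongr
    linarith
  · have := h2 n m x hadm (fun j => (j:ℝ) * ((j:ℝ) - 1)) cf2
    norm_num at this
    refine this.trans ?_
    norm_num
    gcongr
    linarith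
  · have := h3 n m x hadm (fun j => (j:ℝ) * ((j:ℝ) - 1) * ((j:ℝ) - 2)) cf3
    norm_num at this
    refine this.trans ?_
    norm_num
    gcongr
    linarith


end P5
end Kac764
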