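import Pool.Agent.Helper764.KacDefs

set_option autoImplicit false
set_option maxHeartbeats 4000000
open MeasureTheory ProbabilityTheory Filter Topology Set
open scoped ENNReal NNReal

namespace Kac764
namespace P6

theorem kac_eval (n : ℕ) (ω : ℕ → ℝ) (x : ℝ) : (kac n ω).eval x = D0 n ω x := by
  unfold kac D0
  rw [Polynomial.eval_finset_sum]
  simp

theorem kac_deriv_eval (n : ℕ) (ω : ℕ → ℝ) (x : ℝ) : (kac n ω).derivative.eval x = D1 n ω x := by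
  unfold kac D1
  rw [Polynomial.derivative_sum, Polynomial.eval_finset_sum]
  refine Finset.sum_congr rfl fun j _ => ?_
  rw [Polynomial.derivative_mul, Polynomial.derivative_C, zero_mul, zero_add, Polynomial.derivative_X_pow]
  simp

theorem hasDerivAt_D0 (n : ℕ) (ω : ℕ → ℝ) (x : ℝ) : HasDerivAt (D0 n ω) (D1 n ω x) x := by
  have h := HasDerivAt.fun_sum (u := Finset.range (n + 1)) (A := fun j (x : ℝ) => ω j * x ^ j)
    (A' := fun j => ω j * ((j : ℝ) * x ^ (j - 1))) (x := x) (fun j _ => (hasDerivAt_pow j x).const_mul (ω j))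
  exact h

theorem hasDerivAt_D1 (n : ℕ) (ω : ℕ → ℝ) (x : ℝ) : HasDerivAt (D1 n ω) (D2 n ω x) x := by
  have h := HasDerivAt.fun_sum (u := Finset.range (n + 1)) (A := fun j (x : ℝ) => ω j * ((j : ℝ) * x ^ (j - 1)))
    (A' := fun j => ω j * ((j : ℝ) * ((j : ℝ) - 1) * x ^ (j - 2))) (x := x) (fun j _ => by
      have h1 := ((hasDerivAt_pow (j - 1) x).const_mul (j : ℝ)).const_mul (ω j)
      refine h1.congr_deriv ?_
      rcases j with _ | j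
      · simp
      · simp only [Nat.add_sub_cancel]
        have e : j + 1 - 2 = j - 1 := by omega
        rw [e]
        push_cast
        ring)
  exact h

theorem hasDerivAt_D2 (n : ℕ) (ω : ℕ → ℝ) (x : ℝ) : HasDerivAt (D2 n ω) (D3 n ω x) x := by
  have h := HasDerivAt.fun_sum (u := Finset.range (n + 1))
    (A := fun j (x : ℝ) => ω j * ((j : ℝ) * ((j : ℝ) - 1) * x ^ (j - 2)))
    (A' := fun j => ω j * ((j : ℝ) * ((j : ℝ) - 1) * ((j : ℝ) - 2) * x ^ (j - 3))) (x := x) (fun j _ => by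
      have h1 := ((hasDerivAt_pow (j - 2) x).const_mul ((j : ℝ) * ((j : ℝ) - 1))).const_mul (ω j)
      refine h1.congr_deriv ?_
      rcases j with _ | _ | j
      · simp
      · simp
      · have e : j + 1 + 1 - 2 = j := by omega
        have e' : j + 1 + 1 - 3 = j - 1 := by omega
        rw [e, e']
        push_cast
        ring)
  exact h

theorem h170_adm {n m : ℕ} {a b : ℝ} (h : Win n m a b) {x : ℝ} (hx : x ∈ Icc a b) : Adm n m x := by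
  refine ⟨h.hm, h.hmn, h.hlow x hx, ?_⟩
  rcases h.hup with h1 | h1
  · exact Or.inl (h1 x hx)
  · exact Or.inr ⟨h1.1, h1.2 x hx⟩

theorem h170_int_coord (μ : Measure ℝ) (hμ : Std μ) (j : ℕ) : Integrable (fun ω : ℕ → ℝ => ω j) (PP μ) := by
  have := hμ.prob
  have h1 : Integrable (fun x : ℝ => x) μ := by
    have h2 : MemLp (fun x : ℝ => x) 2 μ :=
      (memLp_two_iff_integrable_sq measurable_id.aestronglyMeasurable).2 hμ.int2
    exact h2.integrable (by norm_num)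
  have h2 : MeasurePreserving (fun ω : ℕ → ℝ => ω j) (PP μ) μ :=
    measurePreserving_eval_infinitePi (fun _ : ℕ => μ) j
  exact h2.integrable_comp_of_integrable h1

theorem h170_int_D2 (μ : Measure ℝ) (hμ : Std μ) (n : ℕ) (x : ℝ) : Integrable (fun ω => D2 n ω x) (PP μ) := by
  unfold D2
  exact integrable_finsetSum _ fun j _ => (h170_int_coord μ hμ j).mul_const _

theorem h170_int_D3 (μ : Measure ℝ) (hμ : Std μ) (n : ℕ) (x : ℝ) : Integrable (fun ω => D3 n ω x) (PP μ) := by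
  unfold D3
  exact integrable_finsetSum _ fun j _ => (h170_int_coord μ hμ j).mul_const _

theorem h170_meas_D3 (n : ℕ) : Measurable (fun p : (ℕ → ℝ) × ℝ => D3 n p.1 p.2) := by
  unfold D3
  refine Finset.measurable_sum _ fun j _ => ?_
  exact ((measurable_pi_apply j).comp measurable_fst).mul ((measurable_snd.pow_const _).const_mul _)

theorem h170_meas_D2 (n : ℕ) (x : ℝ) : Measurable (fun ω : ℕ → ℝ => D2 n ω x) := by
  unfold D2
  refine Finset.measurable_sum _ fun j _ => ?_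
  exact (measurable_pi_apply j).mul_const _

/-- the sup of the second derivative -/
theorem h170_sup (μ : Measure ℝ) (hμ : Std μ) (C : ℝ) (hC : 0 < C) (n m : ℕ) (a b : ℝ) (hw : Win n m a b)
    (h2 : ∀ x ∈ Icc a b, ∫ ω, |D2 n ω x| ∂(PP μ) ≤ C * (m : ℝ) ^ (5 / 2 : ℝ))
    (h3 : ∀ x ∈ Icc a b, ∫ ω, |D3 n ω x| ∂(PP μ) ≤ C * (m : ℝ) ^ (7 / 2 : ℝ)) :
    (PP μ) {ω | ∃ y ∈ Icc a b, (m : ℝ) ^ (51 / 20 : ℝ) < |D2 n ω y|} ≤
      ENNReal.ofReal (2 * C * (m : ℝ) ^ (-(1 / 20) : ℝ)) := by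
  have := hμ.prob
  have hm2 : (2 : ℝ) ≤ m := by exact_mod_cast hw.hm
  have hm0 : (0 : ℝ) < m := by linarith
  have hab := hw.hab
  set S : (ℕ → ℝ) → ℝ≥0∞ := fun ω => ‖D2 n ω a‖ₑ + ∫⁻ x in Icc a b, ‖D3 n ω x‖ₑ with hS
  have hSm : Measurable S := by
    refine (h170_meas_D2 n a).enorm.add ?_
    exact Measurable.lintegral_prod_right' (f := fun p : (ℕ → ℝ) × ℝ => ‖D3 n p.1 p.2‖ₑ) (h170_meas_D3 n).enorm
  have hint : ∀ {f : (ℕ → ℝ) → ℝ}, Integrable f (PP μ) → ∀ R : ℝ, ∫ ω, |f ω| ∂(PP μ) ≤ R →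
      ∫⁻ ω, ‖f ω‖ₑ ∂(PP μ) ≤ ENNReal.ofReal R := by
    intro f hf R hR
    rw [← ofReal_integral_norm_eq_lintegral_enorm hf]
    exact ENNReal.ofReal_le_ofReal hR
  have hSi : ∫⁻ ω, S ω ∂(PP μ) ≤ ENNReal.ofReal (2 * C * (m : ℝ) ^ (5 / 2 : ℝ)) := by
    rw [hS, lintegral_add_left (h170_meas_D2 n a).enorm]
    rw [lintegral_lintegral_swap (h170_meas_D3 n).enorm.aemeasurable]
    have e1 : ∫⁻ ω, ‖D2 n ω a‖ₑ ∂(PP μ) ≤ ENNReal.ofReal (C * (m : ℝ) ^ (5 / 2 : ℝ)) :=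
      hint (h170_int_D2 μ hμ n a) _ (h2 a ⟨le_rfl, hab.le⟩)
    have e2 : ∫⁻ x in Icc a b, ∫⁻ ω, ‖D3 n ω x‖ₑ ∂(PP μ) ≤ ENNReal.ofReal (C * (m : ℝ) ^ (5 / 2 : ℝ)) := by
      calc ∫⁻ x in Icc a b, ∫⁻ ω, ‖D3 n ω x‖ₑ ∂(PP μ)
          ≤ ∫⁻ x in Icc a b, ENNReal.ofReal (C * (m : ℝ) ^ (7 / 2 : ℝ)) := by
            refine setLIntegral_mono' measurableSet_Icc fun x hx => ?_
            exact hint (h170_int_D3 μ hμ n x) _ (h3 x hx)
        _ = ENNReal.ofReal (C * (m : ℝ) ^ (7 / 2 : ℝ)) * ENNReal.ofReal (b - a) := by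
            rw [setLIntegral_const, Real.volume_Icc]
        _ = ENNReal.ofReal (C * (m : ℝ) ^ (7 / 2 : ℝ) * (b - a)) := by
            exact (ENNReal.ofReal_mul (by positivity)).symm
        _ ≤ ENNReal.ofReal (C * (m : ℝ) ^ (5 / 2 : ℝ)) := by
            refine ENNReal.ofReal_le_ofReal ?_
            have h4 := hw.hlen
            have h5 : (m : ℝ) ^ (7 / 2 : ℝ) = (m : ℝ) ^ (5 / 2 : ℝ) * m := by
              rw [← Real.rpow_add_one hm0.ne']; norm_num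
            calc C * (m : ℝ) ^ (7 / 2 : ℝ) * (b - a) ≤ C * (m : ℝ) ^ (7 / 2 : ℝ) * (1 / m) :=
                  mul_le_mul_of_nonneg_left h4 (by positivity)
              _ = C * (m : ℝ) ^ (5 / 2 : ℝ) := by rw [h5]; field_simp
    calc _ ≤ ENNReal.ofReal (C * (m : ℝ) ^ (5 / 2 : ℝ)) + ENNReal.ofReal (C * (m : ℝ) ^ (5 / 2 : ℝ)) :=
          add_le_add e1 e2
      _ = ENNReal.ofReal (2 * C * (m : ℝ) ^ (5 / 2 : ℝ)) := by
          rw [← ENNReal.ofReal_add (by positivity) (by positivity)]; congr 1; ring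
  have hsub : {ω | ∃ y ∈ Icc a b, (m : ℝ) ^ (51 / 20 : ℝ) < |D2 n ω y|} ⊆
      {ω | ENNReal.ofReal ((m : ℝ) ^ (51 / 20 : ℝ)) ≤ S ω} := by
    rintro ω ⟨y, hy, hyω⟩
    show ENNReal.ofReal ((m : ℝ) ^ (51 / 20 : ℝ)) ≤ S ω
    have h4 : ENNReal.ofReal ((m : ℝ) ^ (51 / 20 : ℝ)) ≤ ‖D2 n ω y‖ₑ := by
      rw [← ofReal_norm]
      exact ENNReal.ofReal_le_ofReal hyω.le
    refine h4.trans ?_
    have hc3 : Continuous (fun x => D3 n ω x) := by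
      unfold D3
      fun_prop
    have h5 : ∫ x in a..y, D3 n ω x = D2 n ω y - D2 n ω a :=
      intervalIntegral.integral_eq_sub_of_hasDerivAt (fun x _ => hasDerivAt_D2 n ω x) (hc3.intervalIntegrable _ _)
    have h6 : D2 n ω y = D2 n ω a + ∫ x in a..y, D3 n ω x := by rw [h5]; ring
    rw [h6]
    refine (enorm_add_le _ _).trans ?_
    refine add_le_add le_rfl ?_
    rw [intervalIntegral.integral_of_le hy.1]
    refine (enorm_integral_le_lintegral_enorm _).trans ?_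
    exact lintegral_mono_set (fun x hx => ⟨hx.1.le, hx.2.trans hy.2⟩)
  refine (measure_mono hsub).trans ?_
  have hpos : ENNReal.ofReal ((m : ℝ) ^ (51 / 20 : ℝ)) ≠ 0 := by
    rw [Ne, ENNReal.ofReal_eq_zero, not_le]; positivity
  refine (meas_ge_le_lintegral_div hSm.aemeasurable hpos ENNReal.ofReal_ne_top).trans ?_
  refine (ENNReal.div_le_div_right hSi _).trans ?_
  rw [← ENNReal.ofReal_div_of_pos (by positivity)]
  refine ENNReal.ofReal_le_ofReal (le_of_eq ?_)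
  have h7 : (m : ℝ) ^ (-(1 / 20) : ℝ) = (m : ℝ) ^ (5 / 2 : ℝ) / (m : ℝ) ^ (51 / 20 : ℝ) := by
    rw [← Real.rpow_sub hm0]; norm_num
  rw [h7]
  ring

/-- deterministic part -/
theorem h170_det (n m : ℕ) (a b : ℝ) (hw : Win n m a b) (Lg : ℕ) (hL : (m : ℝ) ^ (1 / 10 : ℝ) ≤ Lg) (hL0 : 0 < Lg)
    (ω : ℕ → ℝ) (hD : ∀ y ∈ Icc a b, |D2 n ω y| ≤ (m : ℝ) ^ (51 / 20 : ℝ))
    (x : ℝ) (hx : x ∈ Icc a b) (hx1 : D1 n ω x = 0) (hx0 : |D0 n ω x| ≤ (m : ℝ) ^ (3 / 10 : ℝ)) :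
    ∃ i ∈ Finset.range (Lg + 1), a + i * ((b - a) / Lg) ∈ Icc a b ∧
      |D0 n ω (a + i * ((b - a) / Lg))| ≤ 2 * (m : ℝ) ^ (7 / 20 : ℝ) ∧
      |D1 n ω (a + i * ((b - a) / Lg))| ≤ (m : ℝ) ^ (29 / 20 : ℝ) := by
  have hm2 : (2 : ℝ) ≤ m := by exact_mod_cast hw.hm
  have hm0 : (0 : ℝ) < m := by linarith
  have hab := hw.hab
  have hLr : (0 : ℝ) < Lg := by exact_mod_cast hL0
  obtain ⟨h, hh⟩ : ∃ h : ℝ, h = (b - a) / Lg := ⟨_, rfl⟩
  rw [← hh]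
  have hh0 : 0 < h := by rw [hh]; exact div_pos (by linarith) hLr
  have hLh : Lg * h = b - a := by rw [hh]; field_simp
  have hhle : h ≤ (m : ℝ) ^ (-(11 / 10) : ℝ) := by
    have h1 : (m : ℝ) ^ (-(11 / 10) : ℝ) = (1 / m) / (m : ℝ) ^ (1 / 10 : ℝ) := by
      have h2 : (1 / (m : ℝ)) = (m : ℝ) ^ (-1 : ℝ) := by rw [Real.rpow_neg_one, one_div]
      rw [h2, ← Real.rpow_sub hm0]; norm_num
    rw [h1, hh]
    exact div_le_div₀ (by positivity) hw.hlen (by positivity) hL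
  obtain ⟨i, hi⟩ : ∃ i : ℕ, i = ⌊(x - a) / h⌋₊ := ⟨_, rfl⟩
  have hxa : 0 ≤ (x - a) / h := div_nonneg (by linarith [hx.1]) hh0.le
  have hi1 : (i : ℝ) ≤ (x - a) / h := by rw [hi]; exact Nat.floor_le hxa
  have hi2 : (x - a) / h < i + 1 := by rw [hi]; exact Nat.lt_floor_add_one _
  rw [le_div_iff₀ hh0] at hi1
  rw [div_lt_iff₀ hh0] at hi2
  have hiL : i ≤ Lg := by
    have h1 : (i : ℝ) * h ≤ Lg * h := by rw [hLh]; linarith [hx.2]
    have h2 : (i : ℝ) ≤ Lg := le_of_mul_le_mul_right h1 hh0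
    exact_mod_cast h2
  obtain ⟨y, hy⟩ : ∃ y : ℝ, y = a + i * h := ⟨_, rfl⟩
  have hyx : y ≤ x := by rw [hy]; linarith
  have hxy : x - y ≤ h := by rw [hy]; linarith
  have hya : a ≤ y := by
    rw [hy]
    have : 0 ≤ (i : ℝ) * h := by positivity
    linarith
  have hyI : y ∈ Icc a b := ⟨hya, hyx.trans hx.2⟩
  refine ⟨i, Finset.mem_range.2 (by omega), by rw [← hy]; exact hyI, ?_⟩
  rw [← hy]
  have hD1 : ∀ w ∈ Icc y x, |D1 n ω w| ≤ (m : ℝ) ^ (29 / 20 : ℝ) := by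
    intro w hw'
    have hwI : w ∈ Icc a b := ⟨hya.trans hw'.1, hw'.2.trans hx.2⟩
    have h1 := Convex.norm_image_sub_le_of_norm_hasDerivWithin_le (f := D1 n ω) (f' := D2 n ω) (s := Icc a b)
      (C := (m : ℝ) ^ (51 / 20 : ℝ)) (x := x) (y := w) (fun z _ => (hasDerivAt_D1 n ω z).hasDerivWithinAt)
      (fun z hz => hD z hz) (convex_Icc a b) hx hwI
    rw [hx1, sub_zero, Real.norm_eq_abs, Real.norm_eq_abs] at h1
    have h2 : |w - x| ≤ (m : ℝ) ^ (-(11 / 10) : ℝ) := by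
      rw [abs_sub_comm, abs_of_nonneg (by linarith [hw'.2])]
      linarith [hw'.1]
    calc |D1 n ω w| ≤ (m : ℝ) ^ (51 / 20 : ℝ) * |w - x| := h1
      _ ≤ (m : ℝ) ^ (51 / 20 : ℝ) * (m : ℝ) ^ (-(11 / 10) : ℝ) := mul_le_mul_of_nonneg_left h2 (by positivity)
      _ = (m : ℝ) ^ (29 / 20 : ℝ) := by rw [← Real.rpow_add hm0]; norm_num
  refine ⟨?_, hD1 y ⟨le_rfl, hyx⟩⟩
  have h1 := Convex.norm_image_sub_le_of_norm_hasDerivWithin_le (f := D0 n ω) (f' := D1 n ω) (s := Icc y x)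
    (C := (m : ℝ) ^ (29 / 20 : ℝ)) (x := x) (y := y) (fun z _ => (hasDerivAt_D0 n ω z).hasDerivWithinAt)
    (fun z hz => hD1 z hz) (convex_Icc y x) ⟨hyx, le_rfl⟩ ⟨le_rfl, hyx⟩
  rw [Real.norm_eq_abs, Real.norm_eq_abs] at h1
  have h2 : |y - x| ≤ (m : ℝ) ^ (-(11 / 10) : ℝ) := by
    rw [abs_sub_comm, abs_of_nonneg (by linarith)]
    linarith
  have h3 : |D0 n ω y - D0 n ω x| ≤ (m : ℝ) ^ (7 / 20 : ℝ) := by
    calc |D0 n ω y - D0 n ω x| ≤ (m : ℝ) ^ (29 / 20 : ℝ) * |y - x| := h1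
      _ ≤ (m : ℝ) ^ (29 / 20 : ℝ) * (m : ℝ) ^ (-(11 / 10) : ℝ) := mul_le_mul_of_nonneg_left h2 (by positivity)
      _ = (m : ℝ) ^ (7 / 20 : ℝ) := by rw [← Real.rpow_add hm0]; norm_num
  have h4 : (m : ℝ) ^ (3 / 10 : ℝ) ≤ (m : ℝ) ^ (7 / 20 : ℝ) :=
    Real.rpow_le_rpow_of_exponent_le (by linarith) (by norm_num)
  have h5 : D0 n ω y = (D0 n ω y - D0 n ω x) + D0 n ω x := by ring
  rw [h5]
  refine (abs_add_le _ _).trans ?_
  linarith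

/-- near-double zeros are unlikely. -/
theorem nearD_of (μ : Measure ℝ) (hμ : Std μ) (h1 : SB1 μ) (h2 : SB2 μ) (hM : Mom μ) : NearD μ := by
  have := hμ.prob
  obtain ⟨C1, hC1, hb1⟩ := h1
  obtain ⟨C2, hC2, hb2⟩ := h2
  obtain ⟨C3, hC3, hb3⟩ := hM
  refine ⟨2 * C3 + 6 * C2 + 2 * C1, by positivity, ?_⟩
  intro n m a b hw
  have hm2 : (2 : ℝ) ≤ m := by exact_mod_cast hw.hm
  have hm0 : (0 : ℝ) < m := by linarith
  have hm1 : (1 : ℝ) ≤ m := by linarith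
  have hab := hw.hab
  have hP : IsProbabilityMeasure (PP μ) := inferInstance
  have hreal : ∀ (s : Set (ℕ → ℝ)) (R : ℝ), (PP μ).real s ≤ R → (PP μ) s ≤ ENNReal.ofReal R := by
    intro s R h
    rw [← ofReal_measureReal]
    exact ENNReal.ofReal_le_ofReal h
  obtain ⟨Lg, hLg⟩ : ∃ Lg : ℕ, Lg = ⌈(m : ℝ) ^ (1 / 10 : ℝ)⌉₊ := ⟨_, rfl⟩
  have hm10 : (1 : ℝ) ≤ (m : ℝ) ^ (1 / 10 : ℝ) := Real.one_le_rpow hm1 (by norm_num)
  have hL1 : (m : ℝ) ^ (1 / 10 : ℝ) ≤ Lg := by rw [hLg]; exact Nat.le_ceil _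
  have hL2 : (Lg : ℝ) < (m : ℝ) ^ (1 / 10 : ℝ) + 1 := by rw [hLg]; exact Nat.ceil_lt_add_one (by positivity)
  have hL0 : 0 < Lg := by
    have : (0 : ℝ) < Lg := by linarith
    exact_mod_cast this
  set A0 : Set (ℕ → ℝ) := {ω | ∃ y ∈ Icc a b, (m : ℝ) ^ (51 / 20 : ℝ) < |D2 n ω y|} with hA0
  set Ai : ℕ → Set (ℕ → ℝ) := fun i => {ω | a + i * ((b - a) / Lg) ∈ Icc a b ∧
      |D0 n ω (a + i * ((b - a) / Lg))| ≤ 2 * (m : ℝ) ^ (7 / 20 : ℝ) ∧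
      |D1 n ω (a + i * ((b - a) / Lg))| ≤ (m : ℝ) ^ (29 / 20 : ℝ)} with hAi
  set Ba : Set (ℕ → ℝ) := {ω | |D0 n ω a| ≤ (m : ℝ) ^ (3 / 10 : ℝ)} with hBa
  set Bb : Set (ℕ → ℝ) := {ω | |D0 n ω b| ≤ (m : ℝ) ^ (3 / 10 : ℝ)} with hBb
  have hsub : {ω | (∃ x ∈ Icc a b, D1 n ω x = 0 ∧ |D0 n ω x| ≤ (m : ℝ) ^ (3 / 10 : ℝ)) ∨
      |D0 n ω a| ≤ (m : ℝ) ^ (3 / 10 : ℝ) ∨ |D0 n ω b| ≤ (m : ℝ) ^ (3 / 10 : ℝ)} ⊆
      (A0 ∪ ⋃ i ∈ Finset.range (Lg + 1), Ai i) ∪ (Ba ∪ Bb) := by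
    intro ω hω
    rcases hω with ⟨x, hx, hx1, hx0⟩ | hω | hω
    · left
      by_cases hA : ω ∈ A0
      · exact Or.inl hA
      · right
        have hD : ∀ y ∈ Icc a b, |D2 n ω y| ≤ (m : ℝ) ^ (51 / 20 : ℝ) := by
          intro y hy
          by_contra hcon
          exact hA ⟨y, hy, not_le.1 hcon⟩
        obtain ⟨i, hi, h3⟩ := h170_det n m a b hw Lg hL1 hL0 ω hD x hx hx1 hx0
        exact mem_iUnion₂.2 ⟨i, hi, h3⟩
    · right; left; exact hω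
    · right; right; exact hω
  have e20 : (m : ℝ) ^ (-(1 / 5) : ℝ) ≤ (m : ℝ) ^ (-(1 / 20) : ℝ) :=
    Real.rpow_le_rpow_of_exponent_le hm1 (by norm_num)
  have e10 : (m : ℝ) ^ (-(1 / 10) : ℝ) ≤ (m : ℝ) ^ (-(1 / 20) : ℝ) :=
    Real.rpow_le_rpow_of_exponent_le hm1 (by norm_num)
  have bA0 : (PP μ) A0 ≤ ENNReal.ofReal (2 * C3 * (m : ℝ) ^ (-(1 / 20) : ℝ)) :=
    h170_sup μ hμ C3 hC3 n m a b hw (fun x hx => (hb3 n m x (h170_adm hw hx)).2.2.1)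
      (fun x hx => (hb3 n m x (h170_adm hw hx)).2.2.2)
  have bAi : ∀ i, (PP μ) (Ai i) ≤ ENNReal.ofReal (2 * C2 * (m : ℝ) ^ (-(1 / 5) : ℝ)) := by
    intro i
    by_cases hin : a + i * ((b - a) / Lg) ∈ Icc a b
    · refine hreal _ _ ?_
      have h3 := hb2 n m _ (2 * (m : ℝ) ^ (7 / 20 : ℝ)) ((m : ℝ) ^ (29 / 20 : ℝ)) (h170_adm hw hin)
        (by have := Real.one_le_rpow hm1 (by norm_num : (0:ℝ) ≤ 7 / 20); linarith)
        (by
          have := Real.rpow_le_rpow_of_exponent_le hm1 (by norm_num : (1:ℝ) ≤ 29 / 20)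
          rwa [Real.rpow_one] at this)
      have h4 : Ai i ⊆ {ω | |D0 n ω (a + i * ((b - a) / Lg))| ≤ 2 * (m : ℝ) ^ (7 / 20 : ℝ) ∧
          |D1 n ω (a + i * ((b - a) / Lg))| ≤ (m : ℝ) ^ (29 / 20 : ℝ)} := fun ω hω => hω.2
      refine (measureReal_mono h4).trans (h3.trans (le_of_eq ?_))
      have h5 : (m : ℝ) ^ (-(1 / 5) : ℝ) = (m : ℝ) ^ (7 / 20 : ℝ) * (m : ℝ) ^ (29 / 20 : ℝ) * (m : ℝ) ^ (-2 : ℝ) := by
        rw [← Real.rpow_add hm0, ← Real.rpow_add hm0]; norm_num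
      rw [h5]
      ring
    · have : Ai i = ∅ := by
        ext ω
        simp only [mem_empty_iff_false, iff_false]
        exact fun hω => hin hω.1
      rw [this, measure_empty]
      simp
  have bU : (PP μ) (⋃ i ∈ Finset.range (Lg + 1), Ai i) ≤ ENNReal.ofReal (6 * C2 * (m : ℝ) ^ (-(1 / 20) : ℝ)) := by
    calc (PP μ) (⋃ i ∈ Finset.range (Lg + 1), Ai i) ≤ ∑ i ∈ Finset.range (Lg + 1), (PP μ) (Ai i) :=
          measure_biUnion_finset_le _ _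
      _ ≤ ∑ i ∈ Finset.range (Lg + 1), ENNReal.ofReal (2 * C2 * (m : ℝ) ^ (-(1 / 5) : ℝ)) :=
          Finset.sum_le_sum fun i _ => bAi i
      _ = ENNReal.ofReal ((Lg + 1) * (2 * C2 * (m : ℝ) ^ (-(1 / 5) : ℝ))) := by
          rw [Finset.sum_const, Finset.card_range, nsmul_eq_mul,
            ENNReal.ofReal_mul (p := (Lg : ℝ) + 1) (by positivity)]
          congr 1
          rw [← Nat.cast_add_one (R := ℝ), ENNReal.ofReal_natCast]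
      _ ≤ ENNReal.ofReal (6 * C2 * (m : ℝ) ^ (-(1 / 20) : ℝ)) := by
          refine ENNReal.ofReal_le_ofReal ?_
          have h3 : (Lg : ℝ) + 1 ≤ 3 * (m : ℝ) ^ (1 / 10 : ℝ) := by linarith
          have h4 : (m : ℝ) ^ (1 / 10 : ℝ) * (m : ℝ) ^ (-(1 / 5) : ℝ) = (m : ℝ) ^ (-(1 / 10) : ℝ) := by
            rw [← Real.rpow_add hm0]; norm_num
          calc ((Lg : ℝ) + 1) * (2 * C2 * (m : ℝ) ^ (-(1 / 5) : ℝ))
              ≤ (3 * (m : ℝ) ^ (1 / 10 : ℝ)) * (2 * C2 * (m : ℝ) ^ (-(1 / 5) : ℝ)) :=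
                mul_le_mul_of_nonneg_right h3 (by positivity)
            _ = 6 * C2 * ((m : ℝ) ^ (1 / 10 : ℝ) * (m : ℝ) ^ (-(1 / 5) : ℝ)) := by ring
            _ = 6 * C2 * (m : ℝ) ^ (-(1 / 10) : ℝ) := by rw [h4]
            _ ≤ 6 * C2 * (m : ℝ) ^ (-(1 / 20) : ℝ) := mul_le_mul_of_nonneg_left e10 (by positivity)
  have bB : ∀ y ∈ Icc a b, (PP μ) {ω | |D0 n ω y| ≤ (m : ℝ) ^ (3 / 10 : ℝ)} ≤
      ENNReal.ofReal (C1 * (m : ℝ) ^ (-(1 / 20) : ℝ)) := by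
    intro y hy
    refine hreal _ _ ?_
    have h3 := hb1 n m y ((m : ℝ) ^ (3 / 10 : ℝ)) (h170_adm hw hy) (Real.one_le_rpow hm1 (by norm_num))
    refine h3.trans ?_
    have h4 : C1 * (m : ℝ) ^ (3 / 10 : ℝ) * (m : ℝ) ^ (-(1 / 2) : ℝ) = C1 * (m : ℝ) ^ (-(1 / 5) : ℝ) := by
      rw [mul_assoc, ← Real.rpow_add hm0]; norm_num
    rw [h4]
    exact mul_le_mul_of_nonneg_left e20 hC1.le
  calc (PP μ) _ ≤ (PP μ) ((A0 ∪ ⋃ i ∈ Finset.range (Lg + 1), Ai i) ∪ (Ba ∪ Bb)) := measure_mono hsub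
    _ ≤ ((PP μ) A0 + (PP μ) (⋃ i ∈ Finset.range (Lg + 1), Ai i)) + ((PP μ) Ba + (PP μ) Bb) :=
        (measure_union_le _ _).trans (add_le_add (measure_union_le _ _) (measure_union_le _ _))
    _ ≤ (ENNReal.ofReal (2 * C3 * (m : ℝ) ^ (-(1 / 20) : ℝ)) + ENNReal.ofReal (6 * C2 * (m : ℝ) ^ (-(1 / 20) : ℝ))) +
        (ENNReal.ofReal (C1 * (m : ℝ) ^ (-(1 / 20) : ℝ)) + ENNReal.ofReal (C1 * (m : ℝ) ^ (-(1 / 20) : ℝ))) :=
        add_le_add (add_le_add bA0 bU) (add_le_add (bB a ⟨le_rfl, hab.le⟩) (bB b ⟨hab.le, le_rfl⟩))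
    _ = ENNReal.ofReal ((2 * C3 + 6 * C2 + 2 * C1) * (m : ℝ) ^ (-(1 / 20) : ℝ)) := by
        rw [← ENNReal.ofReal_add (by positivity) (by positivity), ← ENNReal.ofReal_add (by positivity) (by positivity),
          ← ENNReal.ofReal_add (by positivity) (by positivity)]
        congr 1
        ring


end P6
end Kac764
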