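import Pool.Agent.Helper764.KacDefs

set_option autoImplicit false
set_option maxHeartbeats 4000000
open MeasureTheory ProbabilityTheory Filter Topology Set
open scoped ENNReal NNReal

namespace Kac764
namespace P7

/-- Jensen-type bound (proved elsewhere). -/
def JensenPoly : Prop := ∀ (f : Polynomial ℝ) (x0 r R : ℝ), 0 < r → r < R → ∀ (N : ℕ),
    N ≤ nz f (Icc (x0 - r) (x0 + r)) →
    |f.eval x0| ≤ (r / R) ^ N * ∑ j ∈ Finset.range (f.natDegree + 1), |f.coeff j| * (|x0| + R) ^ j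

/-- Rolle (proved elsewhere). -/
def NzRolle : Prop := ∀ (p : Polynomial ℝ) (S : Set ℝ), S.OrdConnected →
    nz p S ≤ 1 + nz p.derivative S

def Weights : Prop := ∀ (i : ℕ), ∃ C > 0, ∀ (n m : ℕ) (x : ℝ), 1 ≤ m →
    (|x| ≤ 1 - 1 / (4 * (m : ℝ)) ∨ (n ≤ 2 * m ∧ |x| ≤ 1 + 1 / (m : ℝ))) →
    ∑ j ∈ Finset.range (n + 1), (j : ℝ) ^ i * |x| ^ j ≤ C * (m : ℝ) ^ (i + 1) ∧
    ∀ j ∈ Finset.range (n + 1), (j : ℝ) ^ i * |x| ^ j ≤ C * (m : ℝ) ^ i


lemma kac_coeff (n : ℕ) (ω : ℕ → ℝ) (l : ℕ) : (kac n ω).coeff l = if l ≤ n then ω l else 0 := by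
  unfold kac
  rw [Polynomial.finsetSum_coeff]
  simp only [Polynomial.coeff_C_mul, Polynomial.coeff_X_pow, mul_ite, mul_one, mul_zero]
  rw [Finset.sum_ite_eq]
  simp

lemma kac_natDegree (n : ℕ) (ω : ℕ → ℝ) : (kac n ω).natDegree ≤ n := by
  rw [Polynomial.natDegree_le_iff_coeff_eq_zero]
  intro N hN
  rw [kac_coeff, if_neg (by omega)]

/-- the dominating sum -/
noncomputable def SS (n i : ℕ) (y : ℝ) (ω : ℕ → ℝ) : ℝ :=
  ∑ j ∈ Finset.range (n + 1), 8 * ((j : ℝ) ^ i * y ^ j) * |ω j|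

lemma sum_coeff_bound (i : ℕ) (hi : i ≤ 3) (n : ℕ) (ω : ℕ → ℝ) (y : ℝ) (hy : 1 / 2 ≤ y) :
    ∑ l ∈ Finset.range ((Polynomial.derivative^[i] (kac n ω)).natDegree + 1),
      |(Polynomial.derivative^[i] (kac n ω)).coeff l| * y ^ l ≤ SS n i y ω := by
  have hy0 : 0 < y := by linarith
  have hdeg : (Polynomial.derivative^[i] (kac n ω)).natDegree ≤ n :=
    (Polynomial.natDegree_iterate_derivative _ _).trans ((Nat.sub_le _ _).trans (kac_natDegree n ω))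
  let G : ℕ → ℝ := fun j => 8 * ((j : ℝ) ^ i * y ^ j) * |ω j|
  have hG : ∀ j, 0 ≤ G j := fun j => by positivity
  have h1 : ∀ l, |(Polynomial.derivative^[i] (kac n ω)).coeff l| * y ^ l ≤ if l + i ≤ n then G (l + i) else 0 := by
    intro l
    rw [Polynomial.coeff_iterate_derivative, kac_coeff]
    split_ifs with hl
    · rw [nsmul_eq_mul, abs_mul, Nat.abs_cast]
      have h2 : (((l + i).descFactorial i : ℕ) : ℝ) ≤ ((l + i : ℕ) : ℝ) ^ i := by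
        exact_mod_cast Nat.descFactorial_le_pow (l + i) i
      have h3 : y ^ l ≤ 8 * y ^ (l + i) := by
        rw [pow_add]
        have h4 : (1 / 8 : ℝ) ≤ y ^ i := by
          calc (1 / 8 : ℝ) = (1 / 2) ^ 3 := by norm_num
            _ ≤ (1 / 2) ^ i := pow_le_pow_of_le_one (by norm_num) (by norm_num) hi
            _ ≤ y ^ i := by gcongr
        have h5 : 0 < y ^ l := by positivity
        nlinarith
      calc ((l + i).descFactorial i : ℝ) * |ω (l + i)| * y ^ l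
          ≤ ((l + i : ℕ) : ℝ) ^ i * |ω (l + i)| * (8 * y ^ (l + i)) := by gcongr
        _ = G (l + i) := by simp only [G]; ring
    · simp
  calc ∑ l ∈ Finset.range ((Polynomial.derivative^[i] (kac n ω)).natDegree + 1),
      |(Polynomial.derivative^[i] (kac n ω)).coeff l| * y ^ l
      ≤ ∑ l ∈ Finset.range (n + 1), |(Polynomial.derivative^[i] (kac n ω)).coeff l| * y ^ l := by
        apply Finset.sum_le_sum_of_subset_of_nonneg
        · intro l hl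
          rw [Finset.mem_range] at hl ⊢
          omega
        · intro l _ _
          positivity
    _ ≤ ∑ l ∈ Finset.range (n + 1), (if l + i ≤ n then G (l + i) else 0) :=
        Finset.sum_le_sum fun l _ => h1 l
    _ = ∑ l ∈ (Finset.range (n + 1)).filter (fun l => l + i ≤ n), G (l + i) := by
        rw [Finset.sum_filter]
    _ = ∑ j ∈ ((Finset.range (n + 1)).filter (fun l => l + i ≤ n)).image (fun l => l + i), G j := by
        rw [Finset.sum_image]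
        intro a _ b _ hab
        simpa using hab
    _ ≤ ∑ j ∈ Finset.range (n + 1), G j := by
        apply Finset.sum_le_sum_of_subset_of_nonneg
        · intro j hj
          simp only [Finset.mem_image, Finset.mem_filter, Finset.mem_range] at hj ⊢
          obtain ⟨l, ⟨h1, h2⟩, rfl⟩ := hj
          omega
        · intro j _ _
          exact hG j

lemma der1 (n : ℕ) (ω : ℕ → ℝ) : Polynomial.derivative (kac n ω) =
    ∑ j ∈ Finset.range (n + 1), Polynomial.C (ω j * (j : ℝ)) * Polynomial.X ^ (j - 1) := by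
  unfold kac
  rw [Polynomial.derivative_sum]
  refine Finset.sum_congr rfl fun j _ => ?_
  rw [Polynomial.derivative_C_mul_X_pow]

lemma der2 (n : ℕ) (ω : ℕ → ℝ) : Polynomial.derivative (Polynomial.derivative (kac n ω)) =
    ∑ j ∈ Finset.range (n + 1), Polynomial.C (ω j * (j : ℝ) * ((j - 1 : ℕ) : ℝ)) * Polynomial.X ^ (j - 1 - 1) := by
  rw [der1, Polynomial.derivative_sum]
  refine Finset.sum_congr rfl fun j _ => ?_
  rw [Polynomial.derivative_C_mul_X_pow]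

lemma der3 (n : ℕ) (ω : ℕ → ℝ) :
    Polynomial.derivative (Polynomial.derivative (Polynomial.derivative (kac n ω))) =
    ∑ j ∈ Finset.range (n + 1), Polynomial.C (ω j * (j : ℝ) * ((j - 1 : ℕ) : ℝ) * ((j - 1 - 1 : ℕ) : ℝ))
      * Polynomial.X ^ (j - 1 - 1 - 1) := by
  rw [der2, Polynomial.derivative_sum]
  refine Finset.sum_congr rfl fun j _ => ?_
  rw [Polynomial.derivative_C_mul_X_pow]

lemma eval1 (n : ℕ) (ω : ℕ → ℝ) (x : ℝ) : (Polynomial.derivative^[1] (kac n ω)).eval x = D1 n ω x := by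
  rw [Function.iterate_one, der1, Polynomial.eval_finsetSum]
  unfold D1
  refine Finset.sum_congr rfl fun j _ => ?_
  simp only [Polynomial.eval_mul, Polynomial.eval_C, Polynomial.eval_pow, Polynomial.eval_X]
  ring

lemma eval2 (n : ℕ) (ω : ℕ → ℝ) (x : ℝ) : (Polynomial.derivative^[2] (kac n ω)).eval x = D2 n ω x := by
  show (Polynomial.derivative (Polynomial.derivative (kac n ω))).eval x = _
  rw [der2, Polynomial.eval_finsetSum]
  unfold D2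
  refine Finset.sum_congr rfl fun j _ => ?_
  simp only [Polynomial.eval_mul, Polynomial.eval_C, Polynomial.eval_pow, Polynomial.eval_X]
  rw [Nat.sub_sub]
  rcases j with _ | j
  · simp
  · simp only [Nat.add_sub_cancel]
    push_cast
    ring_nf

lemma eval3 (n : ℕ) (ω : ℕ → ℝ) (x : ℝ) : (Polynomial.derivative^[3] (kac n ω)).eval x = D3 n ω x := by
  show (Polynomial.derivative (Polynomial.derivative (Polynomial.derivative (kac n ω)))).eval x = _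
  rw [der3, Polynomial.eval_finsetSum]
  unfold D3
  refine Finset.sum_congr rfl fun j _ => ?_
  simp only [Polynomial.eval_mul, Polynomial.eval_C, Polynomial.eval_pow, Polynomial.eval_X]
  rcases j with _ | _ | j
  · simp
  · simp
  · have e1 : j + 1 + 1 - 1 - 1 - 1 = j + 1 + 1 - 3 := by omega
    have e2 : j + 1 + 1 - 1 - 1 = j := by omega
    have e3 : j + 1 + 1 - 1 = j + 1 := by omega
    rw [e1, e2, e3]
    push_cast
    ring

lemma nz_finite (p : Polynomial ℝ) (S : Set ℝ) : {x : ℝ | x ∈ S ∧ p ≠ 0 ∧ p.eval x = 0}.Finite := by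
  by_cases hp : p = 0
  · simp [hp]
  · refine (p.roots.toFinset.finite_toSet).subset ?_
    intro x hx
    simp only [Finset.mem_coe, Multiset.mem_toFinset, Polynomial.mem_roots']
    exact ⟨hp, hx.2.2⟩

lemma nz_cover (p : Polynomial ℝ) (a b ρ : ℝ) (hρ : 0 < ρ) (_hab : a ≤ b) (h : b - a ≤ 64 * ρ) :
    nz p (Icc a b) ≤ ∑ k ∈ Finset.range 65,
      nz p (Icc (min b (a + k * ρ) - ρ) (min b (a + k * ρ) + ρ)) := by
  unfold nz
  have h1 : {x : ℝ | x ∈ Icc a b ∧ p ≠ 0 ∧ p.eval x = 0} ⊆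
      ⋃ k ∈ Finset.range 65, {x : ℝ | x ∈ Icc (min b (a + k * ρ) - ρ) (min b (a + k * ρ) + ρ) ∧ p ≠ 0 ∧ p.eval x = 0} := by
    rintro x ⟨⟨hx1, hx2⟩, hx3⟩
    have hq : 0 ≤ (x - a) / ρ := div_nonneg (by linarith) hρ.le
    have hk1 : (⌊(x - a) / ρ⌋₊ : ℝ) ≤ (x - a) / ρ := Nat.floor_le hq
    have hk2 : (x - a) / ρ < ⌊(x - a) / ρ⌋₊ + 1 := Nat.lt_floor_add_one _
    have hk3 : (⌊(x - a) / ρ⌋₊ : ℝ) * ρ ≤ x - a := by
      rwa [le_div_iff₀ hρ] at hk1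
    have hk4 : x - a < (⌊(x - a) / ρ⌋₊ + 1) * ρ := by
      rwa [div_lt_iff₀ hρ] at hk2
    have hk5 : ⌊(x - a) / ρ⌋₊ < 65 := by
      rw [Nat.floor_lt hq, div_lt_iff₀ hρ]
      push_cast
      linarith
    simp only [Set.mem_iUnion]
    refine ⟨⌊(x - a) / ρ⌋₊, Finset.mem_range.2 hk5, ?_, hx3⟩
    rw [min_eq_right (by linarith)]
    constructor <;> linarith
  refine (Set.ncard_le_ncard h1 ?_).trans (Finset.set_ncard_biUnion_le _ _)
  exact Set.Finite.biUnion (Finset.finite_toSet _) fun k _ => nz_finite p _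

lemma abs_le_one (μ : Measure ℝ) (hμ : Std μ) : ∫⁻ x, ENNReal.ofReal |x| ∂μ ≤ 1 := by
  have := hμ.prob
  have h1 : ∀ x : ℝ, |x| ≤ (1 + x ^ 2) / 2 := by
    intro x
    have := sq_nonneg (|x| - 1)
    rw [sub_sq, sq_abs] at this
    linarith
  calc ∫⁻ x, ENNReal.ofReal |x| ∂μ ≤ ∫⁻ x, ENNReal.ofReal ((1 + x ^ 2) / 2) ∂μ :=
        lintegral_mono fun x => ENNReal.ofReal_le_ofReal (h1 x)
    _ = ENNReal.ofReal (∫ x, (1 + x ^ 2) / 2 ∂μ) := by
        rw [ofReal_integral_eq_lintegral_ofReal]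
        · exact ((integrable_const 1).add hμ.int2).div_const 2
        · exact Eventually.of_forall fun x => by positivity
    _ = 1 := by
        rw [integral_div, integral_add (integrable_const 1) hμ.int2, hμ.var]
        simp

lemma SS_lint (μ : Measure ℝ) (hμ : Std μ) (n i : ℕ) (y : ℝ) (hy : 0 ≤ y) :
    ∫⁻ ω, ENNReal.ofReal (SS n i y ω) ∂(PP μ) ≤
      ENNReal.ofReal (8 * ∑ j ∈ Finset.range (n + 1), (j : ℝ) ^ i * y ^ j) := by
  have := hμ.prob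
  unfold SS
  have h1 : ∀ ω : ℕ → ℝ, ENNReal.ofReal (∑ j ∈ Finset.range (n + 1), 8 * ((j : ℝ) ^ i * y ^ j) * |ω j|)
      = ∑ j ∈ Finset.range (n + 1), ENNReal.ofReal (8 * ((j : ℝ) ^ i * y ^ j)) * ENNReal.ofReal |ω j| := by
    intro ω
    rw [ENNReal.ofReal_sum_of_nonneg (fun j _ => by positivity)]
    refine Finset.sum_congr rfl fun j _ => ?_
    rw [ENNReal.ofReal_mul (by positivity)]
  simp_rw [h1]
  rw [lintegral_finsetSum]
  · have h2 : ∀ j : ℕ, ∫⁻ ω : ℕ → ℝ, ENNReal.ofReal (8 * ((j : ℝ) ^ i * y ^ j)) * ENNReal.ofReal |ω j| ∂(PP μ)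
        ≤ ENNReal.ofReal (8 * ((j : ℝ) ^ i * y ^ j)) := by
      intro j
      rw [lintegral_const_mul]
      · have h3 : ∫⁻ ω : ℕ → ℝ, ENNReal.ofReal |ω j| ∂(PP μ) = ∫⁻ x, ENNReal.ofReal |x| ∂μ := by
          have := (measurePreserving_eval_infinitePi (fun _ : ℕ => μ) j).lintegral_comp
            (f := fun x : ℝ => ENNReal.ofReal |x|) (by fun_prop)
          exact this
        rw [h3]
        calc _ ≤ ENNReal.ofReal (8 * ((j : ℝ) ^ i * y ^ j)) * 1 := by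
              gcongr; exact abs_le_one μ hμ
          _ = _ := mul_one _
      · fun_prop
    refine (Finset.sum_le_sum fun j _ => h2 j).trans ?_
    rw [← ENNReal.ofReal_sum_of_nonneg (fun j _ => by positivity), Finset.mul_sum]
  · intro j _
    fun_prop

lemma SS_markov (μ : Measure ℝ) (hμ : Std μ) (n m i : ℕ) (y C : ℝ) (hy : 0 ≤ y) (hm : 1 ≤ m) (hC : 0 ≤ C)
    (hw : ∑ j ∈ Finset.range (n + 1), (j : ℝ) ^ i * y ^ j ≤ C * (m : ℝ) ^ (i + 1)) :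
    (PP μ) {ω | (m : ℝ) ^ (i : ℝ) * (m : ℝ) ^ (5 / 2 : ℝ) ≤ SS n i y ω} ≤ ENNReal.ofReal (8 * C * (m : ℝ) ^ (-(3 / 2) : ℝ)) := by
  have hm0 : (0 : ℝ) < m := by exact_mod_cast hm
  have hpos : 0 < (m : ℝ) ^ (i : ℝ) * (m : ℝ) ^ (5 / 2 : ℝ) := by positivity
  have hsub : {ω | (m : ℝ) ^ (i : ℝ) * (m : ℝ) ^ (5 / 2 : ℝ) ≤ SS n i y ω} ⊆
      {ω | ENNReal.ofReal ((m : ℝ) ^ (i : ℝ) * (m : ℝ) ^ (5 / 2 : ℝ)) ≤ ENNReal.ofReal (SS n i y ω)} := by
    intro ω hω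
    exact ENNReal.ofReal_le_ofReal hω
  have hmeas : Measurable fun ω : ℕ → ℝ => ENNReal.ofReal (SS n i y ω) := by
    unfold SS
    fun_prop
  refine (measure_mono hsub).trans ?_
  refine (meas_ge_le_lintegral_div hmeas.aemeasurable (ENNReal.ofReal_pos.2 hpos).ne' ENNReal.ofReal_ne_top).trans ?_
  rw [ENNReal.div_le_iff (ENNReal.ofReal_pos.2 hpos).ne' ENNReal.ofReal_ne_top, ← ENNReal.ofReal_mul (by positivity)]
  refine (SS_lint μ hμ n i y hy).trans (ENNReal.ofReal_le_ofReal ?_)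
  have h1 : (m : ℝ) ^ (-(3 / 2) : ℝ) * ((m : ℝ) ^ (i : ℝ) * (m : ℝ) ^ (5 / 2 : ℝ)) = (m : ℝ) ^ (i + 1) := by
    rw [← Real.rpow_add hm0, ← Real.rpow_add hm0, ← Real.rpow_natCast]
    congr 1
    push_cast
    ring
  calc 8 * ∑ j ∈ Finset.range (n + 1), (j : ℝ) ^ i * y ^ j ≤ 8 * (C * (m : ℝ) ^ (i + 1)) := by gcongr
    _ = 8 * C * (m : ℝ) ^ (-(3 / 2) : ℝ) * ((m : ℝ) ^ (i : ℝ) * (m : ℝ) ^ (5 / 2 : ℝ)) := by
        rw [mul_assoc (8 * C), h1]; ring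


lemma piece (hJ : JensenPoly) (hR : NzRolle) (n m : ℕ) (ω : ℕ → ℝ) (x ρ R : ℝ) (hm : 2 ≤ m)
    (hρ : 0 < ρ) (hR' : R = 8 * ρ) (hy : 1 / 2 ≤ |x| + R)
    (h1 : ¬ ((m : ℝ) ^ ((1 : ℕ) : ℝ) * (m : ℝ) ^ (5 / 2 : ℝ) ≤ SS n 1 (|x| + R) ω))
    (h2 : ¬ ((m : ℝ) ^ ((2 : ℕ) : ℝ) * (m : ℝ) ^ (5 / 2 : ℝ) ≤ SS n 2 (|x| + R) ω))
    (h3 : ¬ ((m : ℝ) ^ ((3 : ℕ) : ℝ) * (m : ℝ) ^ (5 / 2 : ℝ) ≤ SS n 3 (|x| + R) ω))
    (hz : 4 * (1 + Real.log m) ≤ (nz (kac n ω).derivative (Icc (x - ρ) (x + ρ)) : ℝ)) :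
    |D1 n ω x| ≤ m ∧ |D2 n ω x| ≤ (m : ℝ) ^ 2 ∧ |D3 n ω x| ≤ (m : ℝ) ^ 3 := by
  have hm0 : (0 : ℝ) < m := by exact_mod_cast (by omega : 0 < m)
  have hm1 : (1 : ℝ) ≤ m := by exact_mod_cast (by omega : 1 ≤ m)
  have hlog : 0 ≤ Real.log m := Real.log_nonneg hm1
  have hge4 : 4 ≤ nz (kac n ω).derivative (Icc (x - ρ) (x + ρ)) := by
    have : (4 : ℝ) ≤ (nz (kac n ω).derivative (Icc (x - ρ) (x + ρ)) : ℝ) := by linarith
    exact_mod_cast this
  obtain ⟨M, hM⟩ : ∃ M, nz (kac n ω).derivative (Icc (x - ρ) (x + ρ)) = M + 2 :=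
    ⟨_, (Nat.sub_add_cancel (by omega : 2 ≤ _)).symm⟩
  have hMr : 2 + 4 * Real.log m ≤ (M : ℝ) := by
    rw [hM] at hz
    push_cast at hz
    linarith
  have hr1 := hR (kac n ω).derivative (Icc (x - ρ) (x + ρ)) ordConnected_Icc
  have hr2 := hR (kac n ω).derivative.derivative (Icc (x - ρ) (x + ρ)) ordConnected_Icc
  have hn1 : M ≤ nz (Polynomial.derivative^[1] (kac n ω)) (Icc (x - ρ) (x + ρ)) := by
    show M ≤ nz (kac n ω).derivative (Icc (x - ρ) (x + ρ))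
    omega
  have hn2 : M ≤ nz (Polynomial.derivative^[2] (kac n ω)) (Icc (x - ρ) (x + ρ)) := by
    show M ≤ nz (kac n ω).derivative.derivative (Icc (x - ρ) (x + ρ))
    omega
  have hn3 : M ≤ nz (Polynomial.derivative^[3] (kac n ω)) (Icc (x - ρ) (x + ρ)) := by
    show M ≤ nz (kac n ω).derivative.derivative.derivative (Icc (x - ρ) (x + ρ))
    omega
  have hRpos : 0 < R := by rw [hR']; positivity
  have hrat : ρ / R = 1 / 8 := by rw [hR']; field_simp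
  have hsmall : (1 / 8 : ℝ) ^ M * (m : ℝ) ^ (5 / 2 : ℝ) ≤ 1 := by
    have e1 : (1 / 8 : ℝ) ≤ Real.exp (-1) := by
      rw [Real.exp_neg, one_div]
      gcongr
      exact (Real.exp_one_lt_d9.le.trans (by norm_num))
    have e2 : (1 / 8 : ℝ) ^ M ≤ Real.exp (-M) := by
      calc (1 / 8 : ℝ) ^ M ≤ (Real.exp (-1)) ^ M := by gcongr
        _ = Real.exp (-M) := by rw [← Real.exp_nat_mul]; congr 1; ring
    calc (1 / 8 : ℝ) ^ M * (m : ℝ) ^ (5 / 2 : ℝ) ≤ Real.exp (-M) * Real.exp (Real.log m * (5 / 2)) := by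
          rw [← Real.rpow_def_of_pos hm0]
          gcongr
      _ = Real.exp (-M + Real.log m * (5 / 2)) := by rw [Real.exp_add]
      _ ≤ 1 := by
          rw [Real.exp_le_one_iff]
          nlinarith
  have key : ∀ i : ℕ, i ≤ 3 → M ≤ nz (Polynomial.derivative^[i] (kac n ω)) (Icc (x - ρ) (x + ρ)) →
      ¬ ((m : ℝ) ^ (i : ℝ) * (m : ℝ) ^ (5 / 2 : ℝ) ≤ SS n i (|x| + R) ω) →
      |(Polynomial.derivative^[i] (kac n ω)).eval x| ≤ (m : ℝ) ^ i := by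
    intro i hi hn hS
    have e1 := hJ (Polynomial.derivative^[i] (kac n ω)) x ρ R hρ (by rw [hR']; linarith) M hn
    have e2 := sum_coeff_bound i hi n ω (|x| + R) hy
    rw [hrat] at e1
    calc |(Polynomial.derivative^[i] (kac n ω)).eval x| ≤ _ := e1
      _ ≤ (1 / 8) ^ M * SS n i (|x| + R) ω := by gcongr
      _ ≤ (1 / 8) ^ M * ((m : ℝ) ^ (i : ℝ) * (m : ℝ) ^ (5 / 2 : ℝ)) := by
          gcongr
          exact (not_le.1 hS).le
      _ = (m : ℝ) ^ i * ((1 / 8) ^ M * (m : ℝ) ^ (5 / 2 : ℝ)) := by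
          rw [Real.rpow_natCast]; ring
      _ ≤ (m : ℝ) ^ i * 1 := by gcongr
      _ = (m : ℝ) ^ i := mul_one _
  refine ⟨?_, ?_, ?_⟩
  · have := key 1 (by norm_num) hn1 h1
    rwa [eval1, pow_one] at this
  · have := key 2 (by norm_num) hn2 h2
    rwa [eval2] at this
  · have := key 3 (by norm_num) hn3 h3
    rwa [eval3] at this

theorem logZ_of (hJ : JensenPoly) (hR : NzRolle) (hW : Weights) (μ : Measure ℝ) (hμ : Std μ)
    (h3 : SB3 μ) : LogZ μ := by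
  have hprob := hμ.prob
  obtain ⟨C3, hC3, h3'⟩ := h3
  obtain ⟨c1, hc1, w1⟩ := hW 1
  obtain ⟨c2, hc2, w2⟩ := hW 2
  obtain ⟨c3, hc3, w3⟩ := hW 3
  refine ⟨260 + 65 * (8 * c1 + 8 * c2 + 8 * c3 + C3), by positivity, ?_⟩
  intro n m a b hw
  have hm := hw.hm
  have hm0 : (0 : ℝ) < m := by exact_mod_cast (by omega : 0 < m)
  have hm1 : (1 : ℝ) ≤ m := by exact_mod_cast (by omega : 1 ≤ m)
  have hm2 : (2 : ℝ) ≤ m := by exact_mod_cast hm
  have hlog : 0 ≤ Real.log m := Real.log_nonneg hm1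
  obtain ⟨ρ, hρ⟩ : ∃ ρ : ℝ, ρ = 1 / (64 * (m : ℝ)) := ⟨_, rfl⟩
  obtain ⟨R, hRd⟩ : ∃ R : ℝ, R = 1 / (8 * (m : ℝ)) := ⟨_, rfl⟩
  have hρ0 : 0 < ρ := by rw [hρ]; positivity
  have hR8 : R = 8 * ρ := by rw [hρ, hRd]; field_simp; norm_num
  have hR0 : 0 < R := by rw [hR8]; positivity
  obtain ⟨x, hx⟩ : ∃ x : ℕ → ℝ, x = fun k : ℕ => min b (a + k * ρ) := ⟨_, rfl⟩
  have hxm : ∀ k, x k ∈ Icc a b := by
    intro k
    rw [hx]
    constructor
    · apply le_min hw.hab.le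
      have : 0 ≤ (k : ℝ) * ρ := by positivity
      linarith
    · exact min_le_left _ _
  have hadm : ∀ k, Adm n m (x k) := by
    intro k
    refine ⟨hw.hm, hw.hmn, hw.hlow _ (hxm k), ?_⟩
    rcases hw.hup with h | ⟨h1, h2⟩
    · exact Or.inl (h _ (hxm k))
    · exact Or.inr ⟨h1, h2 _ (hxm k)⟩
  have hinv : 1 / (m : ℝ) ≤ 1 / 2 := by gcongr
  have hy : ∀ k, 1 / 2 ≤ |x k| + R := by
    intro k
    have := hw.hlow _ (hxm k)
    linarith
  have hRm : R = (1 / (m : ℝ)) / 8 := by rw [hRd]; field_simp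
  have hwt : ∀ k, (|(|x k| + R)| ≤ 1 - 1 / (4 * (m : ℝ)) ∨ (n ≤ 2 * m ∧ |(|x k| + R)| ≤ 1 + 1 / (m : ℝ))) := by
    intro k
    rw [abs_of_nonneg (by linarith [hy k])]
    have e1 : 1 / (4 * (m : ℝ)) = (1 / (m : ℝ)) / 4 := by field_simp
    have e2 : 1 / (2 * (m : ℝ)) = (1 / (m : ℝ)) / 2 := by field_simp
    have e3 : 0 < 1 / (m : ℝ) := by positivity
    rcases hw.hup with h | ⟨h1, h2⟩
    · left
      have := h _ (hxm k)
      rw [e1, hRm]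
      rw [e2] at this
      linarith
    · right
      refine ⟨h1, ?_⟩
      have := h2 _ (hxm k)
      rw [hRm]
      linarith
  have hsub : {ω : ℕ → ℝ | (260 + 65 * (8 * c1 + 8 * c2 + 8 * c3 + C3)) * (1 + Real.log m) ≤ (nz (kac n ω).derivative (Icc a b) : ℝ)} ⊆
      ⋃ k ∈ Finset.range 65,
        ((({ω | (m : ℝ) ^ ((1 : ℕ) : ℝ) * (m : ℝ) ^ (5 / 2 : ℝ) ≤ SS n 1 (|x k| + R) ω} ∪
        {ω | (m : ℝ) ^ ((2 : ℕ) : ℝ) * (m : ℝ) ^ (5 / 2 : ℝ) ≤ SS n 2 (|x k| + R) ω}) ∪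
        {ω | (m : ℝ) ^ ((3 : ℕ) : ℝ) * (m : ℝ) ^ (5 / 2 : ℝ) ≤ SS n 3 (|x k| + R) ω}) ∪
        {ω | |D1 n ω (x k)| ≤ m ∧ |D2 n ω (x k)| ≤ (m : ℝ) ^ 2 ∧ |D3 n ω (x k)| ≤ (m : ℝ) ^ 3}) := by
    intro ω hω
    by_contra hcon
    simp only [Set.mem_iUnion, not_exists, Set.mem_union, not_or] at hcon
    have hlt : ∀ k ∈ Finset.range 65, (nz (kac n ω).derivative (Icc (x k - ρ) (x k + ρ)) : ℝ) < 4 * (1 + Real.log m) := by
      intro k hk
      by_contra hge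
      obtain ⟨⟨⟨g1, g2⟩, g3⟩, g4⟩ := hcon k hk
      exact g4 (piece hJ hR n m ω (x k) ρ R hm hρ0 hR8 (hy k) g1 g2 g3 (not_lt.1 hge))
    have hcov := nz_cover (kac n ω).derivative a b ρ hρ0 hw.hab.le (by
      refine hw.hlen.trans (le_of_eq ?_)
      rw [hρ]; field_simp)
    have hcov' : (nz (kac n ω).derivative (Icc a b) : ℝ) ≤
        ∑ k ∈ Finset.range 65, (nz (kac n ω).derivative (Icc (x k - ρ) (x k + ρ)) : ℝ) := by
      rw [hx]
      exact_mod_cast hcov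
    have hsum : ∑ k ∈ Finset.range 65, (nz (kac n ω).derivative (Icc (x k - ρ) (x k + ρ)) : ℝ)
        < ∑ k ∈ Finset.range 65, 4 * (1 + Real.log m) :=
      Finset.sum_lt_sum_of_nonempty (by simp) hlt
    rw [Finset.sum_const, Finset.card_range, nsmul_eq_mul] at hsum
    have hω' : (260 + 65 * (8 * c1 + 8 * c2 + 8 * c3 + C3)) * (1 + Real.log m) ≤ (nz (kac n ω).derivative (Icc a b) : ℝ) := hω
    have hpos : 0 ≤ 65 * (8 * c1 + 8 * c2 + 8 * c3 + C3) * (1 + Real.log m) := by positivity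
    have e5 : (260 + 65 * (8 * c1 + 8 * c2 + 8 * c3 + C3)) * (1 + Real.log m)
        = 65 * (4 * (1 + Real.log m)) + 65 * (8 * c1 + 8 * c2 + 8 * c3 + C3) * (1 + Real.log m) := by ring
    have e6 : ((65 : ℕ) : ℝ) = 65 := by norm_num
    rw [e5] at hω'
    rw [e6] at hsum
    linarith
  have ht : 0 < (m : ℝ) ^ (-(3 / 2) : ℝ) := by positivity
  have hB : ∀ k, (PP μ) {ω | |D1 n ω (x k)| ≤ m ∧ |D2 n ω (x k)| ≤ (m : ℝ) ^ 2 ∧ |D3 n ω (x k)| ≤ (m : ℝ) ^ 3}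
      ≤ ENNReal.ofReal (C3 * (m : ℝ) ^ (-(3 / 2) : ℝ)) := by
    intro k
    rw [← ofReal_measureReal]
    exact ENNReal.ofReal_le_ofReal (h3' n m (x k) (hadm k))
  have hw' : ∀ (i : ℕ) (k : ℕ) (c : ℝ), (∑ j ∈ Finset.range (n + 1), (j : ℝ) ^ i * |(|x k| + R)| ^ j ≤ c * (m : ℝ) ^ (i + 1)) →
      ∑ j ∈ Finset.range (n + 1), (j : ℝ) ^ i * (|x k| + R) ^ j ≤ c * (m : ℝ) ^ (i + 1) := by
    intro i k c h
    rwa [abs_of_nonneg (by linarith [hy k])] at h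
  have hA1 := fun k => SS_markov μ hμ n m 1 (|x k| + R) c1 (by linarith [hy k]) (by omega) hc1.le
    (hw' 1 k c1 (w1 n m (|x k| + R) (by omega) (hwt k)).1)
  have hA2 := fun k => SS_markov μ hμ n m 2 (|x k| + R) c2 (by linarith [hy k]) (by omega) hc2.le
    (hw' 2 k c2 (w2 n m (|x k| + R) (by omega) (hwt k)).1)
  have hA3 := fun k => SS_markov μ hμ n m 3 (|x k| + R) c3 (by linarith [hy k]) (by omega) hc3.le
    (hw' 3 k c3 (w3 n m (|x k| + R) (by omega) (hwt k)).1)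
  refine (measure_mono hsub).trans ?_
  refine (measure_biUnion_finset_le _ _).trans ?_
  have hk : ∀ k ∈ Finset.range 65, (PP μ) 
        ((({ω | (m : ℝ) ^ ((1 : ℕ) : ℝ) * (m : ℝ) ^ (5 / 2 : ℝ) ≤ SS n 1 (|x k| + R) ω} ∪
        {ω | (m : ℝ) ^ ((2 : ℕ) : ℝ) * (m : ℝ) ^ (5 / 2 : ℝ) ≤ SS n 2 (|x k| + R) ω}) ∪
        {ω | (m : ℝ) ^ ((3 : ℕ) : ℝ) * (m : ℝ) ^ (5 / 2 : ℝ) ≤ SS n 3 (|x k| + R) ω}) ∪
        {ω | |D1 n ω (x k)| ≤ m ∧ |D2 n ω (x k)| ≤ (m : ℝ) ^ 2 ∧ |D3 n ω (x k)| ≤ (m : ℝ) ^ 3}) ≤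
      ENNReal.ofReal ((8 * c1 + 8 * c2 + 8 * c3 + C3) * (m : ℝ) ^ (-(3 / 2) : ℝ)) := by
    intro k _
    have e1 : ENNReal.ofReal ((8 * c1 + 8 * c2 + 8 * c3 + C3) * (m : ℝ) ^ (-(3 / 2) : ℝ)) =
        ENNReal.ofReal (8 * c1 * (m : ℝ) ^ (-(3 / 2) : ℝ)) + ENNReal.ofReal (8 * c2 * (m : ℝ) ^ (-(3 / 2) : ℝ)) +
        ENNReal.ofReal (8 * c3 * (m : ℝ) ^ (-(3 / 2) : ℝ)) + ENNReal.ofReal (C3 * (m : ℝ) ^ (-(3 / 2) : ℝ)) := by
      rw [← ENNReal.ofReal_add (by positivity) (by positivity), ← ENNReal.ofReal_add (by positivity) (by positivity),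
        ← ENNReal.ofReal_add (by positivity) (by positivity)]
      congr 1
      ring
    rw [e1]
    refine (measure_union_le _ _).trans (add_le_add ?_ (hB k))
    refine (measure_union_le _ _).trans (add_le_add ?_ (hA3 k))
    exact (measure_union_le _ _).trans (add_le_add (hA1 k) (hA2 k))
  refine (Finset.sum_le_sum hk).trans ?_
  rw [Finset.sum_const, Finset.card_range, nsmul_eq_mul]
  rw [show ((65 : ℕ) : ℝ≥0∞) = ENNReal.ofReal 65 by norm_num, ← ENNReal.ofReal_mul (by norm_num)]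
  apply ENNReal.ofReal_le_ofReal
  have e7 : (260 + 65 * (8 * c1 + 8 * c2 + 8 * c3 + C3)) * (m : ℝ) ^ (-(3 / 2) : ℝ)
      = 260 * (m : ℝ) ^ (-(3 / 2) : ℝ) + 65 * ((8 * c1 + 8 * c2 + 8 * c3 + C3) * (m : ℝ) ^ (-(3 / 2) : ℝ)) := by ring
  rw [e7]
  have e8 : 0 < 260 * (m : ℝ) ^ (-(3 / 2) : ℝ) := by positivity
  linarith


end P7
end Kac764
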