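import Pool.Agent.Helper764.KacDefs
import Pool.Agent.Helper764.KacJ4
import Pool.Agent.Helper764.KacP1
import Pool.Agent.Helper764.KacP3
import Pool.Agent.Helper764.KacP4
import Pool.Agent.Helper764.KacP5
import Pool.Agent.Helper764.KacP6
import Pool.Agent.Helper764.KacP7
import Pool.Agent.Helper764.KacF1
import Pool.Agent.Helper764.KacF2
import Pool.Agent.Helper764.KacF3

set_option autoImplicit false
set_option maxHeartbeats 4000000
open MeasureTheory ProbabilityTheory Filter Topology Set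
open scoped ENNReal NNReal

namespace Kac764
namespace A2

def CharB (μ : Measure ℝ) : Prop :=
  ∃ c0 > 0, ∃ c > 0, ∀ θ : ℝ, |θ| ≤ c0 → ‖charFun μ θ‖ ≤ Real.exp (-c * θ ^ 2)

theorem char_bound (μ : Measure ℝ) (hμ : Std μ) : CharB μ := by
  haveI := hμ.prob
  exact P1.char_bound μ hμ.int2 hμ.mean hμ.var

theorem mom (μ : Measure ℝ) (hμ : Std μ) : Mom μ := P5.mom_of P4.weights μ hμ

theorem smallBall : P5.SmallBall := fun d c c0 hc hc0 => P3.small_ball d c c0 hc hc0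

theorem sb1 (μ : Measure ℝ) (hμ : Std μ) : SB1 μ :=
  P5.sb1_of smallBall P4.gram2 P4.weights μ hμ (char_bound μ hμ)
theorem sb2 (μ : Measure ℝ) (hμ : Std μ) : SB2 μ :=
  P5.sb2_of smallBall P4.gram2 P4.weights μ hμ (char_bound μ hμ)
theorem sb3 (μ : Measure ℝ) (hμ : Std μ) : SB3 μ :=
  P5.sb3_of smallBall P4.gram3 P4.weights μ hμ (char_bound μ hμ)

theorem logZ (μ : Measure ℝ) (hμ : Std μ) : LogZ μ :=
  P7.logZ_of J4.jensen_poly J4.nz_rolle P4.weights μ hμ (sb3 μ hμ)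

theorem nearD (μ : Measure ℝ) (hμ : Std μ) : NearD μ :=
  P6.nearD_of μ hμ (sb1 μ hμ) (sb2 μ hμ) (mom μ hμ)

theorem fComp (μ : Measure ℝ) (hμ : Std μ) : FComp μ :=
  F3.fComp_of μ hμ (F1.oneVar μ hμ) (F2.hyb_of μ hμ (char_bound μ hμ))

end A2
end Kac764
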