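import Mathlib

set_option autoImplicit false
set_option maxHeartbeats 4000000
open MeasureTheory ProbabilityTheory Filter Topology Set
open scoped ENNReal NNReal

namespace Kac764

/-- number of distinct real zeros of `p` in `S`; the zero polynomial has `nz = 0`. -/
noncomputable def nz (p : Polynomial ℝ) (S : Set ℝ) : ℕ :=
  {x : ℝ | x ∈ S ∧ p ≠ 0 ∧ p.eval x = 0}.ncard

/-- the Kac polynomial `∑_{j ≤ n} ω_j X^j`. -/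
noncomputable def kac (n : ℕ) (ω : ℕ → ℝ) : Polynomial ℝ :=
  ∑ j ∈ Finset.range (n + 1), Polynomial.C (ω j) * Polynomial.X ^ j

/-- law of the i.i.d. coefficient sequence with common law `μ`. -/
noncomputable abbrev PP (μ : Measure ℝ) : Measure (ℕ → ℝ) := Measure.infinitePi (fun _ : ℕ => μ)


/-- standing assumption: `μ` is a centred probability law with variance one -/
structure Std (μ : Measure ℝ) : Prop where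
  prob : IsProbabilityMeasure μ
  int2 : Integrable (fun x : ℝ => x ^ 2) μ
  mean : ∫ x, x ∂μ = 0
  var : ∫ x, x ^ 2 ∂μ = 1

/-- `x` is an admissible point for degree `n` at scale `m`. -/
def Adm (n m : ℕ) (x : ℝ) : Prop :=
  2 ≤ m ∧ m ≤ n ∧ 1 - 1 / (m : ℝ) ≤ |x| ∧
    (|x| ≤ 1 - 1 / (2 * (m : ℝ)) ∨ (n ≤ 2 * m ∧ |x| ≤ 1))

/-- `[a,b]` is a window for degree `n` at scale `m`. -/
structure Win (n m : ℕ) (a b : ℝ) : Prop where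
  hm : 2 ≤ m
  hmn : m ≤ n
  hab : a < b
  hlen : b - a ≤ 1 / (m : ℝ)
  hlow : ∀ x ∈ Icc a b, 1 - 1 / (m : ℝ) ≤ |x|
  hup : (∀ x ∈ Icc a b, |x| ≤ 1 - 1 / (2 * (m : ℝ))) ∨ (n ≤ 2 * m ∧ ∀ x ∈ Icc a b, |x| ≤ 1)

/-- value, first, second, third derivative of the Kac polynomial at `x` -/
noncomputable def D0 (n : ℕ) (ω : ℕ → ℝ) (x : ℝ) : ℝ := ∑ j ∈ Finset.range (n + 1), ω j * x ^ j
noncomputable def D1 (n : ℕ) (ω : ℕ → ℝ) (x : ℝ) : ℝ :=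
  ∑ j ∈ Finset.range (n + 1), ω j * ((j : ℝ) * x ^ (j - 1))
noncomputable def D2 (n : ℕ) (ω : ℕ → ℝ) (x : ℝ) : ℝ :=
  ∑ j ∈ Finset.range (n + 1), ω j * ((j : ℝ) * ((j : ℝ) - 1) * x ^ (j - 2))
noncomputable def D3 (n : ℕ) (ω : ℕ → ℝ) (x : ℝ) : ℝ :=
  ∑ j ∈ Finset.range (n + 1), ω j * ((j : ℝ) * ((j : ℝ) - 1) * ((j : ℝ) - 2) * x ^ (j - 3))

def SB1 (μ : Measure ℝ) : Prop := ∃ C > 0, ∀ (n m : ℕ) (x r : ℝ), Adm n m x → 1 ≤ r →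
  (PP μ).real {ω | |D0 n ω x| ≤ r} ≤ C * r * (m : ℝ) ^ (-(1 / 2) : ℝ)

def SB2 (μ : Measure ℝ) : Prop := ∃ C > 0, ∀ (n m : ℕ) (x r1 r2 : ℝ), Adm n m x → 1 ≤ r1 →
  (m : ℝ) ≤ r2 →
  (PP μ).real {ω | |D0 n ω x| ≤ r1 ∧ |D1 n ω x| ≤ r2} ≤ C * r1 * r2 * (m : ℝ) ^ (-2 : ℝ)

def SB3 (μ : Measure ℝ) : Prop := ∃ C > 0, ∀ (n m : ℕ) (x : ℝ), Adm n m x →
  (PP μ).real {ω | |D1 n ω x| ≤ m ∧ |D2 n ω x| ≤ (m : ℝ) ^ 2 ∧ |D3 n ω x| ≤ (m : ℝ) ^ 3}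
    ≤ C * (m : ℝ) ^ (-(3 / 2) : ℝ)

/-- first absolute moments of the derivatives -/
def Mom (μ : Measure ℝ) : Prop := ∃ C > 0, ∀ (n m : ℕ) (x : ℝ), Adm n m x →
  ∫ ω, |D0 n ω x| ∂(PP μ) ≤ C * (m : ℝ) ^ (1 / 2 : ℝ) ∧
  ∫ ω, |D1 n ω x| ∂(PP μ) ≤ C * (m : ℝ) ^ (3 / 2 : ℝ) ∧
  ∫ ω, |D2 n ω x| ∂(PP μ) ≤ C * (m : ℝ) ^ (5 / 2 : ℝ) ∧
  ∫ ω, |D3 n ω x| ∂(PP μ) ≤ C * (m : ℝ) ^ (7 / 2 : ℝ)

/-- crude moment bound for the number of zeros of the derivative, uniform in the degree -/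
def Crude (μ : Measure ℝ) : Prop := ∃ C > 0, ∀ (n m : ℕ), 1 ≤ m →
  ∫⁻ ω, (nz (kac n ω).derivative (Icc (-(1 - 1 / (2 * (m : ℝ)))) (1 - 1 / (2 * (m : ℝ)))) : ℝ≥0∞) ^ 8
    ∂(PP μ) ≤ ENNReal.ofReal (C * (m : ℝ) ^ 9)

/-- with high probability there are only `O(log m)` zeros of the derivative in a window -/
def LogZ (μ : Measure ℝ) : Prop := ∃ C > 0, ∀ (n m : ℕ) (a b : ℝ), Win n m a b →
  (PP μ) {ω | C * (1 + Real.log m) ≤ (nz (kac n ω).derivative (Icc a b) : ℝ)}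
    ≤ ENNReal.ofReal (C * (m : ℝ) ^ (-(3 / 2) : ℝ))

/-- near-double zeros are unlikely -/
def NearD (μ : Measure ℝ) : Prop := ∃ C > 0, ∀ (n m : ℕ) (a b : ℝ), Win n m a b →
  (PP μ) {ω | (∃ x ∈ Icc a b, D1 n ω x = 0 ∧ |D0 n ω x| ≤ (m : ℝ) ^ (3 / 10 : ℝ)) ∨
      |D0 n ω a| ≤ (m : ℝ) ^ (3 / 10 : ℝ) ∨ |D0 n ω b| ≤ (m : ℝ) ^ (3 / 10 : ℝ)}
    ≤ ENNReal.ofReal (C * (m : ℝ) ^ (-(1 / 20) : ℝ))


/-! ### Fourier part -/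

/-- the constant `∫ (1 - cos t)/t² dt` (its value `π` is not needed) -/
noncomputable def cst : ℝ := ∫ t : ℝ, (1 - Real.cos t) / t ^ 2

/-- Fejér density with Fourier transform supported in `[-a,a]` -/
noncomputable def fej (a y : ℝ) : ℝ := (1 / (2 * cst)) * ∫ s in (-a)..a, (1 - |s| / a) * Real.cos (s * y)

/-- truncated integral representation of `|v|` -/
noncomputable def lT (T v : ℝ) : ℝ := (1 / cst) * ∫ t in (-T)..T, (1 - Real.cos (t * v)) / t ^ 2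

/-- truncated moments of `μ` -/
noncomputable def rho3 (μ : Measure ℝ) (L : ℝ) : ℝ := ∫ x in {x : ℝ | |x| ≤ L}, |x| ^ 3 ∂μ
noncomputable def sig2 (μ : Measure ℝ) (L : ℝ) : ℝ := ∫ x in {x : ℝ | |x| ≤ L}, x ^ 2 ∂μ
noncomputable def lam1 (μ : Measure ℝ) (L : ℝ) : ℝ := ∫ x in {x : ℝ | L < |x|}, |x| ∂μ

/-- Gaussian characteristic function with the truncated variance -/
noncomputable def gam (μ : Measure ℝ) (L θ : ℝ) : ℂ := Complex.exp (-((sig2 μ L * θ ^ 2 / 2 : ℝ) : ℂ))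

/-- difference of the characteristic functions -/
noncomputable def dd (μ : Measure ℝ) (L θ : ℝ) : ℂ := charFun μ θ - gam μ L θ

/-- one-variable estimates for `dd` -/
def OneVar (μ : Measure ℝ) : Prop := ∃ C > 0, ∀ L : ℝ, 0 ≤ L →
  (∀ θ : ℝ, |θ| ≤ 1 → ‖dd μ L θ‖ ≤ C * ((rho3 μ L + 1) * |θ| ^ 3 + lam1 μ L * |θ|)) ∧
  (∀ M θ θ' : ℝ, |θ| ≤ M → |θ'| ≤ M → M ≤ 1 →
    ‖dd μ L θ - dd μ L θ'‖ ≤ C * |θ - θ'| * ((rho3 μ L + 1) * M ^ 2 + lam1 μ L)) ∧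
  (∀ p q e : ℝ, 0 < e → |p| + e * |q| ≤ 1 →
    ∫⁻ t in Icc (-e) e, ENNReal.ofReal (‖dd μ L p - (dd μ L (p + t * q) + dd μ L (p - t * q)) / 2‖ / t ^ 2)
      ≤ ENNReal.ofReal (C * (e * q ^ 2 * (rho3 μ L + 1) * (|p| + e * |q|) + |q| * lam1 μ L)))

/-- hypotheses on the weights -/
structure Wts (K κ : ℝ) (n m : ℕ) (α β : ℕ → ℝ) : Prop where
  hm : 2 ≤ m
  ha : ∀ j ∈ Finset.range (n + 1), |α j| ≤ 1
  hb : ∀ j ∈ Finset.range (n + 1), |β j| ≤ K * m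
  hsum : ∑ j ∈ Finset.range (n + 1), (|α j| + |β j| / m) ≤ K * m
  hgram : ∀ s t : ℝ, κ * ((m : ℝ) * s ^ 2 + (m : ℝ) ^ 3 * t ^ 2)
    ≤ ∑ j ∈ Finset.range (n + 1), (s * α j + t * β j) ^ 2

/-- hybrid products: factors `< j` are `charFun μ`, factors `> j` are Gaussian, factor `j` is missing -/
noncomputable def hyb (μ : Measure ℝ) (L : ℝ) (n : ℕ) (α β : ℕ → ℝ) (j : ℕ) (s t : ℝ) : ℂ :=
  (∏ i ∈ Finset.range j, charFun μ (s * α i + t * β i)) *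
    ∏ i ∈ Finset.Ioc j n, gam μ L (s * α i + t * β i)

/-- bounds for the hybrid products -/
def Hyb (μ : Measure ℝ) : Prop := ∀ K κ : ℝ, 0 < K → 0 < κ →
  ∃ a > 0, ∃ C > 0, ∃ c > 0, ∃ m0 : ℕ, ∀ (n m : ℕ) (α β : ℕ → ℝ), m0 ≤ m → Wts K κ n m α β →
    ∀ j ∈ Finset.range (n + 1), ∀ s t : ℝ, |s| ≤ a → |t| ≤ a / m →
      ‖hyb μ (Real.sqrt m) n α β j s t‖ ≤ C * Real.exp (-c * ((m : ℝ) * s ^ 2 + (m : ℝ) ^ 3 * t ^ 2)) ∧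
      (|t| ≤ (m : ℝ) ^ (-(3 / 2) : ℝ) →
        ‖hyb μ (Real.sqrt m) n α β j s t - hyb μ (Real.sqrt m) n α β j s 0‖
          ≤ C * |t| * (m : ℝ) ^ (3 / 2 : ℝ) * Real.exp (-c * ((m : ℝ) * s ^ 2)) ∧
        ‖hyb μ (Real.sqrt m) n α β j s 0 - (hyb μ (Real.sqrt m) n α β j s t
            + hyb μ (Real.sqrt m) n α β j s (-t)) / 2‖
          ≤ C * t ^ 2 * (m : ℝ) ^ 3 * Real.exp (-c * ((m : ℝ) * s ^ 2)))

/-- full products -/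
noncomputable def PhiX (μ : Measure ℝ) (n : ℕ) (α β : ℕ → ℝ) (s t : ℝ) : ℂ :=
  ∏ j ∈ Finset.range (n + 1), charFun μ (s * α j + t * β j)
noncomputable def PhiG (μ : Measure ℝ) (L : ℝ) (n : ℕ) (α β : ℕ → ℝ) (s t : ℝ) : ℂ :=
  ∏ j ∈ Finset.range (n + 1), gam μ L (s * α j + t * β j)

/-- the scale error -/
noncomputable def AA (μ : Measure ℝ) (m : ℕ) : ℝ :=
  ∫ x, x ^ 2 * min (|x| / Real.sqrt m) (Real.sqrt m / |x|) ∂μ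

/-- Fourier comparison -/
def FComp (μ : Measure ℝ) : Prop := ∀ K κ : ℝ, 0 < K → 0 < κ →
  ∃ a0 > 0, ∀ a : ℝ, 0 < a → a ≤ a0 → ∃ C > 0, ∃ m0 : ℕ, ∀ (n m : ℕ) (α β : ℕ → ℝ), m0 ≤ m → Wts K κ n m α β →
    ∫⁻ s in Icc (-a) a, ∫⁻ t in Icc (-(a / m)) (a / m), ENNReal.ofReal
      (‖(PhiX μ n α β s 0 - (PhiX μ n α β s t + PhiX μ n α β s (-t)) / 2)
        - (PhiG μ (Real.sqrt m) n α β s 0 - (PhiG μ (Real.sqrt m) n α β s t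
            + PhiG μ (Real.sqrt m) n α β s (-t)) / 2)‖ / t ^ 2)
      ≤ ENNReal.ofReal (C * m * (AA μ m + (m : ℝ) ^ (-(1 / 2) : ℝ)))


/-! ### Kac-Rice density -/
noncomputable def SA (n : ℕ) (x : ℝ) : ℝ := ∑ j ∈ Finset.range (n + 1), (x ^ j) ^ 2
noncomputable def SB (n : ℕ) (x : ℝ) : ℝ := ∑ j ∈ Finset.range (n + 1), x ^ j * ((j : ℝ) * x ^ (j - 1))
noncomputable def SC (n : ℕ) (x : ℝ) : ℝ := ∑ j ∈ Finset.range (n + 1), ((j : ℝ) * x ^ (j - 1)) ^ 2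
/-- the Kac-Rice density of real zeros for Gaussian coefficients -/
noncomputable def rho (n : ℕ) (x : ℝ) : ℝ :=
  (1 / Real.pi) * Real.sqrt (SA n x * SC n x - SB n x ^ 2) / SA n x

/-- density comparison -/
def DComp (μ : Measure ℝ) : Prop := ∃ a > 0, ∃ C > 0, ∃ m0 : ℕ, ∀ (n m : ℕ) (x : ℝ), m0 ≤ m → Adm n m x →
    |∫ ω, |D1 n ω x| * fej a (D0 n ω x) ∂(PP μ) - rho n x|
      ≤ C * m * (AA μ m + (m : ℝ) ^ (-(1 / 4) : ℝ))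

/-- the window estimate -/
def WindowEst (μ : Measure ℝ) : Prop := ∃ C > 0, ∀ (n m : ℕ) (a b : ℝ), Win n m a b →
  ∀ S : Set ℝ, Ioo a b ⊆ S → S ⊆ Icc a b →
    |∫ ω, (nz (kac n ω) S : ℝ) ∂(PP μ) - ∫ x in a..b, rho n x|
      ≤ C * (AA μ m + (m : ℝ) ^ (-(1 / 25) : ℝ))


/-! ### the random power series -/
noncomputable def F0 (ω : ℕ → ℝ) (x : ℝ) : ℝ := ∑' j : ℕ, ω j * x ^ j
noncomputable def F1 (ω : ℕ → ℝ) (x : ℝ) : ℝ := ∑' j : ℕ, ω j * ((j : ℝ) * x ^ (j - 1))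
/-- number of distinct zeros in `S` of the power series -/
noncomputable def Ninf (ω : ℕ → ℝ) (S : Set ℝ) : ℕ := {x : ℝ | x ∈ S ∧ F0 ω x = 0}.ncard
def SumOK (ω : ℕ → ℝ) : Prop := ∀ r : ℝ, 0 ≤ r → r < 1 → Summable fun j : ℕ => |ω j| * r ^ j


/-! ### constants and symmetry -/
/-- `½ √(1/u² - 1/sinh² u)` -/
noncomputable def ff (u : ℝ) : ℝ := (1 / 2) * Real.sqrt (1 / u ^ 2 - 1 / Real.sinh u ^ 2)

/-- Kac's constant `0.6257...` for Gaussian coefficients -/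
noncomputable def gaussConst : ℝ :=
  (2 / Real.pi) * Real.log 2
    + (4 / Real.pi) * ((∫ u in Ioc (0 : ℝ) 1, ff u) + ∫ u in Ioi (1 : ℝ), (ff u - 1 / (2 * u)))


end Kac764
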