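import Pool.Agent.Helper764.KacDefs

set_option autoImplicit false
set_option maxHeartbeats 4000000
open MeasureTheory ProbabilityTheory Filter Topology Set
open scoped ENNReal NNReal

namespace Kac764
namespace K1

theorem aux_bound (v t : ℝ) : 0 ≤ (1 - Real.cos (t * v)) / t ^ 2 ∧
    (1 - Real.cos (t * v)) / t ^ 2 ≤ v ^ 2 / 2 ∧ (1 - Real.cos (t * v)) / t ^ 2 ≤ 2 / t ^ 2 := by
  have h1 := Real.cos_le_one (t * v)
  have h2 := Real.neg_one_le_cos (t * v)
  have h3 := Real.one_sub_sq_div_two_le_cos (x := t * v)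
  refine ⟨div_nonneg (by linarith) (sq_nonneg t), ?_, ?_⟩
  · rcases eq_or_ne t 0 with rfl | ht
    · simp; positivity
    · have : 0 < t ^ 2 := by positivity
      rw [div_le_iff₀ this]
      nlinarith
  · exact div_le_div_of_nonneg_right (by linarith) (sq_nonneg t)

theorem integrable_aux (v : ℝ) : Integrable (fun t : ℝ => (1 - Real.cos (t * v)) / t ^ 2) := by
  refine Integrable.mono' ((integrable_inv_one_add_sq).const_mul (2 + v ^ 2)) ?_ ?_
  · exact Measurable.aestronglyMeasurable (by fun_prop)
  · refine Filter.Eventually.of_forall fun t => ?_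
    obtain ⟨h1, h2, h3⟩ := aux_bound v t
    rw [Real.norm_eq_abs, abs_of_nonneg h1, ← div_eq_mul_inv, le_div_iff₀ (by positivity)]
    have h4 : (1 - Real.cos (t * v)) / t ^ 2 * t ^ 2 ≤ 2 := by
      rcases eq_or_ne t 0 with rfl | ht
      · simp
      · have : 0 < t ^ 2 := by positivity
        rw [div_mul_cancel₀ _ this.ne']
        linarith [Real.neg_one_le_cos (t * v)]
    nlinarith [sq_nonneg v]

theorem cst_pos : 0 < cst := by
  unfold cst
  have hi := integrable_aux 1
  simp only [mul_one] at hi
  have hn : 0 ≤ (fun t : ℝ => (1 - Real.cos t) / t ^ 2) := by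
    intro t
    have := (aux_bound 1 t).1
    simpa using this
  rw [integral_pos_iff_support_of_nonneg hn hi]
  refine lt_of_lt_of_le ?_ (measure_mono (s := Set.Ioo 0 Real.pi) ?_)
  · rw [Real.volume_Ioo]
    simp [Real.pi_pos]
  · intro t ht
    rw [Function.mem_support]
    have h1 : Real.cos t < 1 := by
      have := Real.cos_lt_cos_of_nonneg_of_le_pi le_rfl ht.2.le ht.1
      rwa [Real.cos_zero] at this
    have h2 : 0 < t := ht.1
    have : 0 < (1 - Real.cos t) / t ^ 2 := div_pos (by linarith) (by positivity)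
    exact this.ne'

theorem integrable_one_sub_cos (v : ℝ) : Integrable (fun t : ℝ => (1 - Real.cos (t * v)) / t ^ 2) :=
  integrable_aux v

theorem integral_one_sub_cos (v : ℝ) : ∫ t : ℝ, (1 - Real.cos (t * v)) / t ^ 2 = cst * |v| := by
  rcases eq_or_ne v 0 with rfl | hv
  · simp
  · have h := Measure.integral_comp_mul_right (fun t : ℝ => (1 - Real.cos t) / t ^ 2) v
    have e : (fun t : ℝ => (1 - Real.cos (t * v)) / t ^ 2)
        = fun t => v ^ 2 * ((1 - Real.cos (t * v)) / (t * v) ^ 2) := by
      funext t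
      rcases eq_or_ne t 0 with rfl | ht
      · simp
      · field_simp
    rw [e, integral_const_mul, h, smul_eq_mul, abs_inv]
    unfold cst
    have hv' : |v| ≠ 0 := abs_ne_zero.2 hv
    rw [← sq_abs v]
    field_simp

theorem int_half (a y : ℝ) (ha : 0 < a) (hy : y ≠ 0) :
    ∫ s in (0 : ℝ)..a, (1 - s / a) * Real.cos (s * y) = (1 - Real.cos (a * y)) / (a * y ^ 2) := by
  have hd : ∀ s ∈ Set.uIcc 0 a, HasDerivAt
      (fun s : ℝ => (1 - s / a) * (Real.sin (s * y) / y) - Real.cos (s * y) / (a * y ^ 2))
      ((1 - s / a) * Real.cos (s * y)) s := by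
    intro s _
    have h1 : HasDerivAt (fun s : ℝ => 1 - s / a) (-(1 / a)) s := by
      have := ((hasDerivAt_id s).div_const a).const_sub 1
      simpa using this
    have h0 : HasDerivAt (fun s : ℝ => s * y) y s := by
      simpa using (hasDerivAt_id s).mul_const y
    have h2 : HasDerivAt (fun s : ℝ => Real.sin (s * y) / y) (Real.cos (s * y)) s := by
      have := (h0.sin).div_const y
      refine this.congr_deriv ?_
      field_simp
    have h3 : HasDerivAt (fun s : ℝ => Real.cos (s * y) / (a * y ^ 2))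
        (-Real.sin (s * y) * y / (a * y ^ 2)) s := (h0.cos).div_const _
    refine ((h1.mul h2).sub h3).congr_deriv ?_
    field_simp
    ring
  rw [intervalIntegral.integral_eq_sub_of_hasDerivAt hd]
  · simp only [zero_mul, Real.sin_zero, Real.cos_zero, zero_div, mul_zero]
    rw [div_self ha.ne']
    ring
  · exact Continuous.intervalIntegrable (by fun_prop) _ _

theorem int_sym (a y : ℝ) (ha : 0 < a) :
    ∫ s in (-a)..a, (1 - |s| / a) * Real.cos (s * y)
      = 2 * ∫ s in (0 : ℝ)..a, (1 - s / a) * Real.cos (s * y) := by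
  have hc : ∀ u w : ℝ, IntervalIntegrable (fun s => (1 - |s| / a) * Real.cos (s * y)) volume u w :=
    fun u w => Continuous.intervalIntegrable (by fun_prop) _ _
  rw [← intervalIntegral.integral_add_adjacent_intervals (hc (-a) 0) (hc 0 a)]
  have h1 : ∫ s in (0 : ℝ)..a, (1 - |s| / a) * Real.cos (s * y)
      = ∫ s in (0 : ℝ)..a, (1 - s / a) * Real.cos (s * y) := by
    refine intervalIntegral.integral_congr fun s hs => ?_
    rw [Set.uIcc_of_le ha.le] at hs
    rw [abs_of_nonneg hs.1]
  have h2 : ∫ s in (-a)..0, (1 - |s| / a) * Real.cos (s * y)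
      = ∫ s in (0 : ℝ)..a, (1 - |s| / a) * Real.cos (s * y) := by
    have := intervalIntegral.integral_comp_neg (a := 0) (b := a)
      (fun s : ℝ => (1 - |s| / a) * Real.cos (s * y))
    simp only [neg_zero] at this
    rw [← this]
    refine intervalIntegral.integral_congr fun s hs => ?_
    simp only [abs_neg, neg_mul, Real.cos_neg]
  rw [h2, h1]
  ring

theorem int_zero (a : ℝ) (ha : 0 < a) : ∫ s in (-a)..a, (1 - |s| / a) = a := by
  have h := int_sym a 0 ha
  simp only [mul_zero, Real.cos_zero, mul_one] at h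
  rw [h]
  have : ∫ s in (0 : ℝ)..a, (1 - s / a) = a / 2 := by
    rw [intervalIntegral.integral_sub (by simp) (by
      exact Continuous.intervalIntegrable (by fun_prop) _ _)]
    simp only [intervalIntegral.integral_const, smul_eq_mul, mul_one, sub_zero,
      intervalIntegral.integral_div, integral_id]
    field_simp
    ring
  rw [this]; ring

theorem fej_eq (a y : ℝ) (ha : 0 < a) (hy : y ≠ 0) :
    fej a y = (1 - Real.cos (a * y)) / (cst * a * y ^ 2) := by
  unfold fej
  rw [int_sym a y ha, int_half a y ha hy]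
  have := cst_pos.ne'
  field_simp

theorem wt_nonneg (a s : ℝ) (ha : 0 < a) (hs : s ∈ Set.Icc (-a) a) : 0 ≤ 1 - |s| / a := by
  have : |s| ≤ a := abs_le.2 ⟨hs.1, hs.2⟩
  rw [sub_nonneg, div_le_one ha]
  exact this

theorem fej_nonneg (a y : ℝ) (ha : 0 < a) : 0 ≤ fej a y := by
  rcases eq_or_ne y 0 with rfl | hy
  · unfold fej
    simp only [mul_zero, Real.cos_zero, mul_one]
    rw [int_zero a ha]
    have := cst_pos
    positivity
  · rw [fej_eq a y ha hy]
    have := cst_pos
    have h1 := Real.cos_le_one (a * y)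
    exact div_nonneg (by linarith) (by positivity)

theorem fej_le (a y : ℝ) (ha : 0 < a) : fej a y ≤ a / (2 * cst) := by
  unfold fej
  have hc := cst_pos
  have h : ∫ s in (-a)..a, (1 - |s| / a) * Real.cos (s * y) ≤ a := by
    conv_rhs => rw [← int_zero a ha]
    refine intervalIntegral.integral_mono_on (by linarith) ?_ ?_ ?_
    · exact Continuous.intervalIntegrable (by fun_prop) _ _
    · exact Continuous.intervalIntegrable (by fun_prop) _ _
    · intro s hs
      exact mul_le_of_le_one_right (wt_nonneg a s ha hs) (Real.cos_le_one _)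
  calc 1 / (2 * cst) * ∫ s in (-a)..a, (1 - |s| / a) * Real.cos (s * y)
      ≤ 1 / (2 * cst) * a := mul_le_mul_of_nonneg_left h (by positivity)
    _ = a / (2 * cst) := by ring

theorem fej_neg (a y : ℝ) : fej a (-y) = fej a y := by
  unfold fej
  simp only [mul_neg, Real.cos_neg]

theorem fej_continuous (a : ℝ) (ha : 0 < a) : Continuous (fej a) := by
  unfold fej
  refine continuous_const.mul ?_
  refine intervalIntegral.continuous_parametric_intervalIntegral_of_continuous' ?_ _ _
  simp only [Function.uncurry_def]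
  fun_prop

theorem fej_ae (a : ℝ) (ha : 0 < a) :
    fej a =ᵐ[volume] fun y => 1 / (cst * a) * ((1 - Real.cos (y * a)) / y ^ 2) := by
  have : ∀ᵐ y : ℝ, y ≠ 0 := by
    rw [ae_iff]
    simp
  filter_upwards [this] with y hy
  rw [fej_eq a y ha hy, mul_comm a y]
  have := cst_pos.ne'
  field_simp

theorem lintegral_fej (a : ℝ) (ha : 0 < a) : ∫⁻ y, ENNReal.ofReal (fej a y) = 1 := by
  have hi : Integrable (fej a) :=
    (((integrable_aux a).const_mul (1 / (cst * a))).congr (fej_ae a ha).symm)
  rw [← ofReal_integral_eq_lintegral_ofReal hi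
    (Filter.Eventually.of_forall fun y => fej_nonneg a y ha), integral_congr_ae (fej_ae a ha),
    integral_const_mul, integral_one_sub_cos, abs_of_pos ha]
  have := cst_pos.ne'
  have e : 1 / (cst * a) * (cst * a) = 1 := by field_simp
  rw [e, ENNReal.ofReal_one]

theorem lT_le (T v : ℝ) (hT : 0 < T) : lT T v ≤ |v| := by
  unfold lT
  have hc := cst_pos
  rw [intervalIntegral.integral_of_le (by linarith)]
  have h := setIntegral_le_integral (s := Set.Ioc (-T) T) (integrable_aux v)
    (Filter.Eventually.of_forall fun t => (aux_bound v t).1)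
  rw [integral_one_sub_cos] at h
  calc 1 / cst * ∫ t in Set.Ioc (-T) T, (1 - Real.cos (t * v)) / t ^ 2
      ≤ 1 / cst * (cst * |v|) := mul_le_mul_of_nonneg_left h (by positivity)
    _ = |v| := by field_simp

theorem lT_nonneg (T v : ℝ) (hT : 0 < T) : 0 ≤ lT T v := by
  unfold lT
  have hc := cst_pos
  refine mul_nonneg (by positivity) ?_
  exact intervalIntegral.integral_nonneg (by linarith) fun t _ => (aux_bound v t).1

theorem int_tail (T : ℝ) (hT : 0 < T) :
    IntegrableOn (fun t : ℝ => 2 / t ^ 2) (Set.Ioi T) ∧ ∫ t in Set.Ioi T, 2 / t ^ 2 = 2 / T := by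
  have h1 := integrableOn_Ioi_rpow_of_lt (a := -2) (by norm_num) hT
  have h2 := integral_Ioi_rpow_of_lt (a := -2) (by norm_num) hT
  have e : ∀ t ∈ Set.Ioi T, 2 * t ^ (-2 : ℝ) = 2 / t ^ 2 := by
    intro t ht
    have ht0 : 0 < t := hT.trans ht
    rw [Real.rpow_neg ht0.le, Real.rpow_two]
    rfl
  constructor
  · exact IntegrableOn.congr_fun (f := fun t : ℝ => 2 * t ^ (-2 : ℝ)) (h1.const_mul 2) e measurableSet_Ioi
  · rw [← setIntegral_congr_fun measurableSet_Ioi e, integral_const_mul, h2]
    have : (-2 + 1 : ℝ) = -1 := by norm_num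
    rw [this, Real.rpow_neg_one]
    field_simp

theorem le_lT (T v : ℝ) (hT : 0 < T) : |v| - 4 / (cst * T) ≤ lT T v := by
  have hc := cst_pos
  unfold lT
  rw [intervalIntegral.integral_of_le (by linarith)]
  have hi := integrable_aux v
  have hsplit := integral_add_compl (measurableSet_Ioc (a := -T) (b := T)) hi
  rw [integral_one_sub_cos] at hsplit
  have hcompl : (Set.Ioc (-T) T)ᶜ = Set.Iic (-T) ∪ Set.Ioi T := by
    ext t
    simp only [Set.mem_compl_iff, Set.mem_Ioc, Set.mem_union, Set.mem_Iic, Set.mem_Ioi, not_and_or,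
      not_lt, not_le]
  have hdisj : Disjoint (Set.Iic (-T)) (Set.Ioi T) := by
    rw [Set.disjoint_left]
    intro t h1 h2
    simp only [Set.mem_Iic, Set.mem_Ioi] at h1 h2
    linarith
  have hpos : ∫ t in Set.Ioi T, (1 - Real.cos (t * v)) / t ^ 2 ≤ 2 / T := by
    rw [← (int_tail T hT).2]
    exact setIntegral_mono_on hi.integrableOn (int_tail T hT).1 measurableSet_Ioi
      fun t _ => (aux_bound v t).2.2
  have hneg : ∫ t in Set.Iic (-T), (1 - Real.cos (t * v)) / t ^ 2
      = ∫ t in Set.Ioi T, (1 - Real.cos (t * v)) / t ^ 2 := by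
    have := integral_comp_neg_Iic (-T) (fun t : ℝ => (1 - Real.cos (t * v)) / t ^ 2)
    rw [neg_neg] at this
    rw [← this]
    refine integral_congr_ae (Filter.Eventually.of_forall fun t => ?_)
    simp only [neg_mul, Real.cos_neg, neg_sq, even_two, Even.neg_pow]
  rw [hcompl, setIntegral_union hdisj measurableSet_Ioi hi.integrableOn hi.integrableOn, hneg]
    at hsplit
  have h5 : cst * |v| - 4 / T ≤ ∫ t in Set.Ioc (-T) T, (1 - Real.cos (t * v)) / t ^ 2 := by
    have : (4 : ℝ) / T = 2 / T + 2 / T := by ring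
    linarith
  calc |v| - 4 / (cst * T) = 1 / cst * (cst * |v| - 4 / T) := by field_simp
    _ ≤ _ := mul_le_mul_of_nonneg_left h5 (by positivity)

theorem lT_measurable (T : ℝ) (hT : 0 < T) : Continuous (lT T) := by
  have e : lT T = fun v => 1 / cst * ∫ t in (-T)..T, v ^ 2 / 2 * Real.sinc (t * v / 2) ^ 2 := by
    funext v
    unfold lT
    congr 1
    refine intervalIntegral.integral_congr_ae ?_
    have : ∀ᵐ t : ℝ, t ≠ 0 := by
      rw [ae_iff]
      simp
    filter_upwards [this] with t ht _
    rcases eq_or_ne v 0 with rfl | hv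
    · simp
    · have h1 : t * v / 2 ≠ 0 := by positivity
      rw [Real.sinc_of_ne_zero h1]
      have h2 : 1 - Real.cos (t * v) = 2 * Real.sin (t * v / 2) ^ 2 := by
        have h3 := Real.cos_two_mul (t * v / 2)
        have h4 := Real.sin_sq_add_cos_sq (t * v / 2)
        have h5 : 2 * (t * v / 2) = t * v := by ring
        rw [h5] at h3
        linarith
      rw [h2]
      field_simp
  rw [e]
  refine continuous_const.mul ?_
  refine intervalIntegral.continuous_parametric_intervalIntegral_of_continuous' ?_ _ _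
  simp only [Function.uncurry_def]
  have := Real.continuous_sinc
  fun_prop


end K1
end Kac764
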