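import Pool.Agent.Helper764.KacDefs

set_option autoImplicit false
set_option maxHeartbeats 4000000
open MeasureTheory ProbabilityTheory Filter Topology Set
open scoped ENNReal NNReal

namespace Kac764
namespace K2


/-! ### auxiliary lemmas for K2 -/

theorem K2_J_nonneg (t v : ℝ) : 0 ≤ (1 - Real.cos (t * v)) / t ^ 2 :=
  div_nonneg (by linarith [Real.cos_le_one (t * v)]) (sq_nonneg t)

theorem K2_J_meas (v : ℝ) : Measurable fun t : ℝ => (1 - Real.cos (t * v)) / t ^ 2 := by
  fun_prop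

theorem K2_base_int : Integrable fun t : ℝ => (1 - Real.cos t) / t ^ 2 := by
  refine Integrable.mono' (integrable_inv_one_add_sq.const_mul (5 / 2)) ?_ ?_
  · have : Measurable fun t : ℝ => (1 - Real.cos t) / t ^ 2 := by fun_prop
    exact this.aestronglyMeasurable
  · refine Eventually.of_forall fun t => ?_
    have h0 : 0 ≤ (1 - Real.cos t) / t ^ 2 := div_nonneg (by linarith [Real.cos_le_one t]) (sq_nonneg t)
    rw [Real.norm_of_nonneg h0]
    rcases eq_or_ne t 0 with rfl | ht
    · norm_num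
    · have ht2 : 0 < t ^ 2 := by positivity
      rw [div_le_iff₀ ht2, mul_assoc, inv_mul_eq_div, mul_div_assoc', le_div_iff₀ (by positivity)]
      have h1 := Real.one_sub_sq_div_two_le_cos (x := t)
      have h2 := Real.neg_one_le_cos t
      nlinarith

theorem K2_cst_pos : 0 < cst := by
  unfold cst
  rw [integral_pos_iff_support_of_nonneg
    (fun t => div_nonneg (by linarith [Real.cos_le_one t]) (sq_nonneg t)) K2_base_int]
  have hsub : Ioo (1 : ℝ) 2 ⊆ Function.support fun t : ℝ => (1 - Real.cos t) / t ^ 2 := by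
    intro t ht
    rw [Function.mem_support]
    have h1 : 0 < Real.sin (t / 2) := Real.sin_pos_of_pos_of_lt_pi (by linarith [ht.1])
      (by linarith [ht.2, Real.pi_gt_three])
    have h2 : Real.cos t = 1 - 2 * Real.sin (t / 2) ^ 2 := by
      have := Real.cos_two_mul (t / 2)
      have h3 := Real.sin_sq_add_cos_sq (t / 2)
      rw [show 2 * (t / 2) = t by ring] at this
      linarith
    have h3 : 0 < (1 - Real.cos t) / t ^ 2 := by
      have : 0 < t := by linarith [ht.1]
      have h4 : 1 - Real.cos t = 2 * Real.sin (t / 2) ^ 2 := by rw [h2]; ring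
      rw [h4]
      positivity
    exact h3.ne'
  refine lt_of_lt_of_le ?_ (measure_mono hsub)
  rw [Real.volume_Ioo]
  norm_num

theorem K2_J_int (v : ℝ) : Integrable (fun t : ℝ => (1 - Real.cos (t * v)) / t ^ 2) ∧
    ∫ t : ℝ, (1 - Real.cos (t * v)) / t ^ 2 = cst * |v| := by
  rcases eq_or_ne v 0 with rfl | hv
  · simp
  · have h1 : (fun t : ℝ => (1 - Real.cos (t * v)) / t ^ 2) =
        fun t : ℝ => v ^ 2 * ((fun y : ℝ => (1 - Real.cos y) / y ^ 2) (v * t)) := by
      funext t
      rcases eq_or_ne t 0 with rfl | ht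
      · simp
      · simp only []
        rw [mul_comm t v]
        field_simp
    constructor
    · rw [h1]
      exact (K2_base_int.comp_mul_left' hv).const_mul _
    · have h2 := Measure.integral_comp_mul_left (fun y : ℝ => (1 - Real.cos y) / y ^ 2) v
      rw [h1, integral_const_mul, h2, smul_eq_mul]
      unfold cst
      rw [abs_inv, ← sq_abs v]
      have : |v| ≠ 0 := abs_ne_zero.2 hv
      field_simp

theorem K2_K_bd {a s : ℝ} (ha : 0 < a) (hs : s ∈ Icc (-a) a) :
    0 ≤ 1 - |s| / a ∧ 1 - |s| / a ≤ 1 := by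
  have h1 : |s| ≤ a := abs_le.2 hs
  have h2 : |s| / a ≤ 1 := (div_le_one ha).2 h1
  have h3 : 0 ≤ |s| / a := by positivity
  constructor <;> linarith

/-- the integrand -/
noncomputable def K2G (a : ℝ) (z : ℝ × ℝ) (p : ℝ × ℝ) : ℝ :=
  ((1 - |p.1| / a) * Real.cos (p.1 * z.1)) * ((1 - Real.cos (p.2 * z.2)) / p.2 ^ 2)

theorem K2_K_int (a u : ℝ) : Integrable (fun s => (1 - |s| / a) * Real.cos (s * u))
    (volume.restrict (Icc (-a) a)) := by
  have : Continuous fun s : ℝ => (1 - |s| / a) * Real.cos (s * u) := by fun_prop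
  exact this.continuousOn.integrableOn_compact isCompact_Icc

theorem K2_G_int (ν : Measure (ℝ × ℝ)) [IsProbabilityMeasure ν]
    (h1 : Integrable (fun z : ℝ × ℝ => |z.2|) ν) (a T : ℝ) (ha : 0 < a) :
    Integrable (Function.uncurry (K2G a))
      (ν.prod ((volume.restrict (Icc (-a) a)).prod (volume.restrict (Icc (-T) T)))) := by
  have hm : Measurable (Function.uncurry (K2G a)) := by
    unfold K2G Function.uncurry
    fun_prop
  rw [integrable_prod_iff hm.aestronglyMeasurable]
  constructor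
  · refine Eventually.of_forall fun z => ?_
    exact (K2_K_int a z.1).mul_prod ((K2_J_int z.2).1.integrableOn)
  · refine Integrable.mono' (h1.const_mul (2 * a * cst))
      (hm.norm.aestronglyMeasurable.integral_prod_right') ?_
    refine Eventually.of_forall fun z => ?_
    have e : ∫ p, ‖Function.uncurry (K2G a) (z, p)‖
        ∂((volume.restrict (Icc (-a) a)).prod (volume.restrict (Icc (-T) T))) =
        (∫ s in Icc (-a) a, |(1 - |s| / a) * Real.cos (s * z.1)|) *
          ∫ t in Icc (-T) T, (1 - Real.cos (t * z.2)) / t ^ 2 := by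
      rw [← integral_prod_mul]
      refine integral_congr_ae (Eventually.of_forall fun p => ?_)
      simp only [Function.uncurry, K2G]
      rw [norm_mul, Real.norm_eq_abs, Real.norm_of_nonneg (K2_J_nonneg _ _)]
    rw [e]
    have i1 : 0 ≤ ∫ s in Icc (-a) a, |(1 - |s| / a) * Real.cos (s * z.1)| :=
      integral_nonneg fun s => abs_nonneg _
    have i2 : 0 ≤ ∫ t in Icc (-T) T, (1 - Real.cos (t * z.2)) / t ^ 2 :=
      integral_nonneg fun t => K2_J_nonneg _ _
    have i3 : ∫ s in Icc (-a) a, |(1 - |s| / a) * Real.cos (s * z.1)| ≤ 2 * a := by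
      have : ∫ s in Icc (-a) a, |(1 - |s| / a) * Real.cos (s * z.1)| ≤ ∫ s in Icc (-a) a, (1 : ℝ) := by
        refine setIntegral_mono_on (K2_K_int a z.1).abs (by simp) measurableSet_Icc ?_
        intro s hs
        obtain ⟨j1, j2⟩ := K2_K_bd ha hs
        rw [abs_mul, abs_of_nonneg j1]
        exact mul_le_one₀ j2 (abs_nonneg _) (Real.abs_cos_le_one _)
      refine this.trans ?_
      simp
      constructor <;> linarith
    have i4 : ∫ t in Icc (-T) T, (1 - Real.cos (t * z.2)) / t ^ 2 ≤ cst * |z.2| := by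
      rw [← (K2_J_int z.2).2]
      exact setIntegral_le_integral (K2_J_int z.2).1 (Eventually.of_forall fun t => K2_J_nonneg _ _)
    rw [Real.norm_of_nonneg (mul_nonneg i1 i2)]
    calc _ ≤ 2 * a * (cst * |z.2|) := mul_le_mul i3 i4 i2 (by positivity)
      _ = _ := by ring

theorem K2_prod (a T : ℝ) (ha : 0 < a) (hT : 0 < T) (z : ℝ × ℝ) :
    lT T z.2 * fej a z.1 = (1 / (2 * cst ^ 2)) * ∫ p, K2G a z p
      ∂((volume.restrict (Icc (-a) a)).prod (volume.restrict (Icc (-T) T))) := by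
  have e : ∫ p, K2G a z p ∂((volume.restrict (Icc (-a) a)).prod (volume.restrict (Icc (-T) T))) =
      (∫ s in Icc (-a) a, (1 - |s| / a) * Real.cos (s * z.1)) *
        ∫ t in Icc (-T) T, (1 - Real.cos (t * z.2)) / t ^ 2 := by
    rw [← integral_prod_mul]
    rfl
  rw [e, lT, fej, intervalIntegral.integral_of_le (by linarith),
    intervalIntegral.integral_of_le (by linarith), integral_Icc_eq_integral_Ioc,
    integral_Icc_eq_integral_Ioc]
  have := K2_cst_pos.ne'
  generalize (∫ s in Ioc (-a) a, (1 - |s| / a) * Real.cos (s * z.1)) = X1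
  generalize (∫ t in Ioc (-T) T, (1 - Real.cos (t * z.2)) / t ^ 2) = X2
  field_simp

theorem K2_expect (ν : Measure (ℝ × ℝ)) [IsProbabilityMeasure ν]
    (h1 : Integrable (fun z : ℝ × ℝ => |z.2|) ν) (a T : ℝ) (ha : 0 < a) (hT : 0 < T) :
    ∫ z, lT T z.2 * fej a z.1 ∂ν = (1 / (2 * cst ^ 2)) * ∫ p, (∫ z, K2G a z p ∂ν)
      ∂((volume.restrict (Icc (-a) a)).prod (volume.restrict (Icc (-T) T))) := by
  rw [← integral_integral_swap (K2_G_int ν h1 a T ha), ← integral_const_mul]
  exact integral_congr_ae (Eventually.of_forall fun z => K2_prod a T ha hT z)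

theorem K2_expint (ν : Measure (ℝ × ℝ)) [IsProbabilityMeasure ν] (s t : ℝ) :
    Integrable (fun z : ℝ × ℝ => Complex.exp (Complex.I * ((s * z.1 + t * z.2 : ℝ) : ℂ))) ν := by
  refine Integrable.mono' (integrable_const (1 : ℝ)) ?_ ?_
  · have : Continuous fun z : ℝ × ℝ => Complex.exp (Complex.I * ((s * z.1 + t * z.2 : ℝ) : ℂ)) := by
      fun_prop
    exact this.aestronglyMeasurable
  · refine Eventually.of_forall fun z => ?_
    rw [mul_comm, Complex.norm_exp_ofReal_mul_I]

theorem K2_re (ν : Measure (ℝ × ℝ)) [IsProbabilityMeasure ν] (s t : ℝ) :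
    (∫ z, Complex.exp (Complex.I * ((s * z.1 + t * z.2 : ℝ) : ℂ)) ∂ν).re =
      ∫ z, Real.cos (s * z.1 + t * z.2) ∂ν := by
  have := integral_re (𝕜 := ℂ) (K2_expint ν s t)
  simp only [RCLike.re_eq_complex_re] at this
  rw [← this]
  refine integral_congr_ae (Eventually.of_forall fun z => ?_)
  simp only []
  rw [mul_comm, Complex.exp_ofReal_mul_I_re]

theorem K2_cosint (ν : Measure (ℝ × ℝ)) [IsProbabilityMeasure ν] (s t : ℝ) :
    Integrable (fun z : ℝ × ℝ => Real.cos (s * z.1 + t * z.2)) ν := by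
  refine Integrable.mono' (integrable_const (1 : ℝ)) ?_ ?_
  · have : Continuous fun z : ℝ × ℝ => Real.cos (s * z.1 + t * z.2) := by fun_prop
    exact this.aestronglyMeasurable
  · exact Eventually.of_forall fun z => Real.abs_cos_le_one _

theorem K2_GE (ν : Measure (ℝ × ℝ)) [IsProbabilityMeasure ν] (a : ℝ) (φ : ℝ → ℝ → ℂ)
    (hφ : ∀ s t : ℝ, φ s t = ∫ z, Complex.exp (Complex.I * ((s * z.1 + t * z.2 : ℝ) : ℂ)) ∂ν)
    (p : ℝ × ℝ) :
    ∫ z, K2G a z p ∂ν = (1 - |p.1| / a) / p.2 ^ 2 *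
      (φ p.1 0 - (φ p.1 p.2 + φ p.1 (-p.2)) / 2).re := by
  have e1 : ∀ z : ℝ × ℝ, K2G a z p = (1 - |p.1| / a) / p.2 ^ 2 *
      (Real.cos (p.1 * z.1 + 0 * z.2) - (Real.cos (p.1 * z.1 + p.2 * z.2) +
        Real.cos (p.1 * z.1 + (-p.2) * z.2)) / 2) := by
    intro z
    unfold K2G
    rw [zero_mul, add_zero, neg_mul, ← sub_eq_add_neg, Real.cos_add, Real.cos_sub]
    ring
  have e2 : (φ p.1 0 - (φ p.1 p.2 + φ p.1 (-p.2)) / 2).re =
      (φ p.1 0).re - ((φ p.1 p.2).re + (φ p.1 (-p.2)).re) / 2 := by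
    rw [Complex.sub_re]
    congr 1
    rw [show (2 : ℂ) = ((2 : ℝ) : ℂ) by norm_num, Complex.div_ofReal_re, Complex.add_re]
  rw [e2, hφ, hφ, hφ, K2_re, K2_re, K2_re]
  simp_rw [e1]
  have i1 : Integrable (fun z : ℝ × ℝ => (Real.cos (p.1 * z.1 + p.2 * z.2) +
      Real.cos (p.1 * z.1 + (-p.2) * z.2)) / 2) ν :=
    ((K2_cosint ν p.1 p.2).add (K2_cosint ν p.1 (-p.2))).div_const 2
  rw [integral_const_mul, integral_sub (K2_cosint ν _ _) i1, integral_div,
    integral_add (K2_cosint ν _ _) (K2_cosint ν _ _)]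

/-- Comparison of `E[l_T(V) g_a(U)]` for two laws through characteristic functions. -/
theorem rep_compare (ν₁ ν₂ : Measure (ℝ × ℝ)) [IsProbabilityMeasure ν₁] [IsProbabilityMeasure ν₂]
    (h1 : Integrable (fun z : ℝ × ℝ => |z.2|) ν₁) (h2 : Integrable (fun z : ℝ × ℝ => |z.2|) ν₂)
    (a T B : ℝ) (ha : 0 < a) (hT : 0 < T) (hB : 0 ≤ B) (φ₁ φ₂ : ℝ → ℝ → ℂ)
    (hφ₁ : ∀ s t : ℝ, φ₁ s t = ∫ z, Complex.exp (Complex.I * ((s * z.1 + t * z.2 : ℝ) : ℂ)) ∂ν₁)
    (hφ₂ : ∀ s t : ℝ, φ₂ s t = ∫ z, Complex.exp (Complex.I * ((s * z.1 + t * z.2 : ℝ) : ℂ)) ∂ν₂)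
    (hle : ∫⁻ s in Icc (-a) a, ∫⁻ t in Icc (-T) T, ENNReal.ofReal
      (‖(φ₁ s 0 - (φ₁ s t + φ₁ s (-t)) / 2) - (φ₂ s 0 - (φ₂ s t + φ₂ s (-t)) / 2)‖ / t ^ 2)
      ≤ ENNReal.ofReal B) :
    |∫ z, lT T z.2 * fej a z.1 ∂ν₁ - ∫ z, lT T z.2 * fej a z.1 ∂ν₂| ≤ B / (2 * cst ^ 2) := by
  have hc := K2_cst_pos
  have i1 := (K2_G_int ν₁ h1 a T ha).integral_prod_right
  have i2 := (K2_G_int ν₂ h2 a T ha).integral_prod_right
  simp only [Function.uncurry_apply_pair] at i1 i2
  have i3 : Integrable (fun p : ℝ × ℝ => (∫ z, K2G a z p ∂ν₁) - ∫ z, K2G a z p ∂ν₂)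
      ((volume.restrict (Icc (-a) a)).prod (volume.restrict (Icc (-T) T))) := i1.sub i2
  rw [K2_expect ν₁ h1 a T ha hT, K2_expect ν₂ h2 a T ha hT, ← mul_sub, ← integral_sub i1 i2,
    integral_prod _ i3, abs_mul, abs_of_pos (by positivity : 0 < 1 / (2 * cst ^ 2))]
  have hb : |∫ s in Icc (-a) a, ∫ t in Icc (-T) T,
      ((∫ z, K2G a z (s, t) ∂ν₁) - ∫ z, K2G a z (s, t) ∂ν₂)| ≤ B := by
    have e : ‖∫ s in Icc (-a) a, ∫ t in Icc (-T) T,
        ((∫ z, K2G a z (s, t) ∂ν₁) - ∫ z, K2G a z (s, t) ∂ν₂)‖ₑ ≤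
          ENNReal.ofReal B := by
      refine (enorm_integral_le_lintegral_enorm _).trans (le_trans ?_ hle)
      refine setLIntegral_mono' measurableSet_Icc fun s hs => ?_
      refine (enorm_integral_le_lintegral_enorm _).trans ?_
      refine lintegral_mono fun t => ?_
      rw [← ofReal_norm]
      refine ENNReal.ofReal_le_ofReal ?_
      rw [K2_GE ν₁ a φ₁ hφ₁, K2_GE ν₂ a φ₂ hφ₂, ← mul_sub, ← Complex.sub_re, norm_mul,
        Real.norm_eq_abs, Real.norm_eq_abs]
      obtain ⟨j1, j2⟩ := K2_K_bd ha hs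
      have k1 : |(1 - |s| / a) / t ^ 2| ≤ 1 / t ^ 2 := by
        rw [abs_of_nonneg (div_nonneg j1 (sq_nonneg t))]
        gcongr
      calc _ ≤ 1 / t ^ 2 * ‖(φ₁ s 0 - (φ₁ s t + φ₁ s (-t)) / 2) -
            (φ₂ s 0 - (φ₂ s t + φ₂ s (-t)) / 2)‖ :=
          mul_le_mul k1 (Complex.abs_re_le_norm _) (abs_nonneg _) (by positivity)
        _ = _ := by ring
    rw [← ofReal_norm] at e
    have := (ENNReal.ofReal_le_ofReal_iff hB).1 e
    rwa [Real.norm_eq_abs] at this
  calc _ ≤ 1 / (2 * cst ^ 2) * B := by gcongr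
    _ = _ := by ring

/-- `E g_a(U)` through the characteristic function. -/
theorem fej_expect (ν : Measure ℝ) [IsProbabilityMeasure ν] (a : ℝ) (ha : 0 < a) :
    ∫ u, fej a u ∂ν ≤ (1 / (2 * cst)) * ∫ s in (-a)..a, ‖charFun ν s‖ := by
  have hc := K2_cst_pos
  have hcont : Continuous fun s => charFun ν s := continuous_charFun
  have hI : Integrable (Function.uncurry fun (u s : ℝ) => (1 - |s| / a) * Real.cos (s * u))
      (ν.prod (volume.restrict (Icc (-a) a))) := by
    refine Integrable.mono' (g := fun p : ℝ × ℝ => 1 * |1 - |p.2| / a|) ?_ ?_ ?_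
    · refine Integrable.mul_prod (f := fun _ : ℝ => (1 : ℝ)) (g := fun s : ℝ => |1 - |s| / a|)
        (integrable_const _) ?_
      have : Continuous fun s : ℝ => |1 - |s| / a| := by fun_prop
      exact this.continuousOn.integrableOn_compact isCompact_Icc
    · have : Continuous (Function.uncurry fun (u s : ℝ) => (1 - |s| / a) * Real.cos (s * u)) := by
        unfold Function.uncurry
        fun_prop
      exact this.aestronglyMeasurable
    · refine Eventually.of_forall fun p => ?_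
      simp only [Function.uncurry]
      rw [norm_mul, Real.norm_eq_abs, Real.norm_eq_abs, one_mul]
      exact mul_le_of_le_one_right (abs_nonneg _) (Real.abs_cos_le_one _)
  have hre : ∀ s : ℝ, ∫ u, (1 - |s| / a) * Real.cos (s * u) ∂ν = (1 - |s| / a) * (charFun ν s).re := by
    intro s
    rw [integral_const_mul, charFun_apply_real]
    congr 1
    have hint : Integrable (fun x : ℝ => Complex.exp (s * x * Complex.I)) ν := by
      refine Integrable.mono' (integrable_const (1 : ℝ)) ?_ ?_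
      · have : Continuous fun x : ℝ => Complex.exp (s * x * Complex.I) := by fun_prop
        exact this.aestronglyMeasurable
      · refine Eventually.of_forall fun z => ?_
        rw [← Complex.ofReal_mul, Complex.norm_exp_ofReal_mul_I]
    have := integral_re (𝕜 := ℂ) hint
    simp only [RCLike.re_eq_complex_re] at this
    rw [← this]
    refine integral_congr_ae (Eventually.of_forall fun z => ?_)
    simp only []
    rw [← Complex.ofReal_mul, Complex.exp_ofReal_mul_I_re]
  have e1 : ∫ u, fej a u ∂ν = (1 / (2 * cst)) * ∫ s in Icc (-a) a,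
      (1 - |s| / a) * (charFun ν s).re := by
    have : ∀ u, fej a u = (1 / (2 * cst)) * ∫ s in Icc (-a) a, (1 - |s| / a) * Real.cos (s * u) := by
      intro u
      rw [fej, intervalIntegral.integral_of_le (by linarith), integral_Icc_eq_integral_Ioc]
    simp_rw [this]
    rw [integral_const_mul, integral_integral_swap hI]
    simp_rw [hre]
  rw [e1, intervalIntegral.integral_of_le (by linarith), ← integral_Icc_eq_integral_Ioc]
  refine mul_le_mul_of_nonneg_left ?_ (by positivity)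
  refine setIntegral_mono_on ?_ ?_ measurableSet_Icc ?_
  · have : Continuous fun s : ℝ => (1 - |s| / a) * (charFun ν s).re := by fun_prop
    exact this.continuousOn.integrableOn_compact isCompact_Icc
  · exact hcont.norm.continuousOn.integrableOn_compact isCompact_Icc
  · intro s hs
    obtain ⟨j1, j2⟩ := K2_K_bd ha hs
    calc (1 - |s| / a) * (charFun ν s).re ≤ (1 - |s| / a) * ‖charFun ν s‖ :=
          mul_le_mul_of_nonneg_left (Complex.re_le_norm _) j1
      _ ≤ _ := mul_le_of_le_one_left (norm_nonneg _) j2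


end K2
end Kac764
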