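import Pool.Agent.Helper764.KacDefs
import Pool.Agent.Helper764.KacK1

set_option autoImplicit false
set_option maxHeartbeats 4000000
open MeasureTheory ProbabilityTheory Filter Topology Set
open scoped ENNReal NNReal

namespace Kac764
namespace K3
open Kac764.K1

/-- The Gaussian model vector `(U,V)` with covariance `σ² [[A,B],[B,C']]`, `Dt = A C' - B²`. -/
noncomputable def UG (A σ : ℝ) (z : ℝ × ℝ) : ℝ := σ * Real.sqrt A * z.1
noncomputable def VG (A B Dt σ : ℝ) (z : ℝ × ℝ) : ℝ :=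
  σ * (B / Real.sqrt A * z.1 + Real.sqrt (Dt / A) * z.2)

/-! ### auxiliary lemmas (prefix `ge_`) -/

lemma ge_fej_le2 (a y : ℝ) (ha : 0 < a) (hy : y ≠ 0) : fej a y ≤ 2 / (cst * a) / y ^ 2 := by
  rw [fej_eq a y ha hy, div_div]
  have hc := cst_pos
  have hy2 : 0 < y ^ 2 := by positivity
  apply div_le_div_of_nonneg_right _ (by positivity)
  linarith [Real.neg_one_le_cos (a * y)]

lemma ge_fej_int (a : ℝ) (ha : 0 < a) : Integrable (fej a) := by
  refine ⟨(fej_continuous a ha).aestronglyMeasurable, ?_⟩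
  rw [hasFiniteIntegral_iff_ofReal (Filter.Eventually.of_forall fun y => fej_nonneg a y ha),
    lintegral_fej a ha]
  exact ENNReal.one_lt_top

lemma ge_fej_integral (a : ℝ) (ha : 0 < a) : ∫ y, fej a y = 1 := by
  rw [integral_eq_lintegral_of_nonneg_ae (Filter.Eventually.of_forall fun y => fej_nonneg a y ha)
    (fej_continuous a ha).aestronglyMeasurable, lintegral_fej a ha]
  simp

lemma ge_g_int (a : ℝ) (ha : 0 < a) : Integrable (fun u : ℝ => Real.sqrt |u| * fej a u) := by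
  have hc := cst_pos
  set M : ℝ := max (a / (2 * cst)) (2 / (cst * a)) with hM
  have hM0 : 0 < M := lt_max_of_lt_left (by positivity)
  have hJ : Integrable (fun u : ℝ => (1 + ‖u‖) ^ (-(3 / 2) : ℝ)) := by
    apply integrable_one_add_norm
    simp
    norm_num
  refine (hJ.const_mul (4 * M)).mono' ?_ ?_
  · exact ((Real.continuous_sqrt.comp continuous_abs).mul (fej_continuous a ha)).aestronglyMeasurable
  · refine Filter.Eventually.of_forall fun u => ?_
    have hf0 := fej_nonneg a u ha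
    rw [Real.norm_eq_abs, abs_of_nonneg (by positivity), Real.norm_eq_abs]
    have h14 : (1 : ℝ) / 4 ≤ (2 : ℝ) ^ (-(3 / 2) : ℝ) := by
      have : (2 : ℝ) ^ (-(2 : ℝ)) ≤ (2 : ℝ) ^ (-(3 / 2) : ℝ) :=
        Real.rpow_le_rpow_of_exponent_le (by norm_num) (by norm_num)
      refine le_trans (le_of_eq ?_) this
      rw [Real.rpow_neg (by norm_num)]
      norm_num
    rcases le_or_gt |u| 1 with hu | hu
    · have h1 : Real.sqrt |u| ≤ 1 := by
        rw [← Real.sqrt_one]
        exact Real.sqrt_le_sqrt hu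
      have h2 : Real.sqrt |u| * fej a u ≤ M := by
        calc Real.sqrt |u| * fej a u ≤ 1 * fej a u := mul_le_mul_of_nonneg_right h1 hf0
          _ ≤ M := by rw [one_mul]; exact (fej_le a u ha).trans (le_max_left _ _)
      have h3 : (2 : ℝ) ^ (-(3 / 2) : ℝ) ≤ (1 + |u|) ^ (-(3 / 2) : ℝ) :=
        Real.rpow_le_rpow_of_nonpos (by positivity) (by linarith) (by norm_num)
      have h4 : (1 : ℝ) / 4 ≤ (1 + |u|) ^ (-(3 / 2) : ℝ) := h14.trans h3
      calc Real.sqrt |u| * fej a u ≤ M := h2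
        _ = 4 * M * (1 / 4) := by ring
        _ ≤ _ := mul_le_mul_of_nonneg_left h4 (by positivity)
    · have hu0 : 0 < |u| := by linarith
      have hne : u ≠ 0 := abs_pos.1 hu0
      have h1 : fej a u ≤ M / u ^ 2 := by
        refine (ge_fej_le2 a u ha hne).trans ?_
        apply div_le_div_of_nonneg_right (le_max_right _ _) (by positivity)
      have h2 : Real.sqrt |u| * (M / u ^ 2) = M * |u| ^ (-(3 / 2) : ℝ) := by
        rw [Real.sqrt_eq_rpow, ← sq_abs u]
        have e1 : |u| ^ (-(3 / 2) : ℝ) = |u| ^ (1 / 2 : ℝ) * (|u| ^ 2)⁻¹ := by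
          rw [← Real.rpow_natCast, ← Real.rpow_neg hu0.le, ← Real.rpow_add hu0]
          norm_num
        rw [e1]
        ring
      have h3 : |u| ^ (-(3 / 2) : ℝ) ≤ 4 * (1 + |u|) ^ (-(3 / 2) : ℝ) := by
        have h5 : (2 * |u|) ^ (-(3 / 2) : ℝ) ≤ (1 + |u|) ^ (-(3 / 2) : ℝ) :=
          Real.rpow_le_rpow_of_nonpos (by positivity) (by linarith) (by norm_num)
        rw [Real.mul_rpow (by norm_num) hu0.le] at h5
        have h6 : 0 < |u| ^ (-(3 / 2) : ℝ) := by positivity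
        nlinarith [mul_le_mul_of_nonneg_right h14 h6.le]
      calc Real.sqrt |u| * fej a u ≤ Real.sqrt |u| * (M / u ^ 2) :=
            mul_le_mul_of_nonneg_left h1 (Real.sqrt_nonneg _)
        _ = M * |u| ^ (-(3 / 2) : ℝ) := h2
        _ ≤ M * (4 * (1 + |u|) ^ (-(3 / 2) : ℝ)) := mul_le_mul_of_nonneg_left h3 hM0.le
        _ = _ := by ring

/-- the constant `1 / √(2π)` -/
noncomputable def gePhi : ℝ := (Real.sqrt (2 * Real.pi))⁻¹

lemma gePhi_pos : 0 < gePhi := by
  unfold gePhi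
  have := Real.pi_pos
  positivity

lemma gePhi_le : gePhi ≤ 1 := by
  unfold gePhi
  apply inv_le_one_of_one_le₀
  rw [Real.one_le_sqrt]
  linarith [Real.pi_gt_three]

lemma ge_pdf (z : ℝ) : gaussianPDFReal 0 1 z = gePhi * Real.exp (-(z ^ 2 / 2)) := by
  rw [gaussianPDFReal_def, gePhi]
  simp only [NNReal.coe_one, mul_one, sub_zero]
  congr 2
  ring

lemma ge_pdf_le (z : ℝ) : gaussianPDFReal 0 1 z * Real.sqrt |z| ≤ 1 := by
  rw [ge_pdf]
  have h1 : Real.sqrt |z| ≤ 1 + z ^ 2 / 2 := by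
    have h2 := Real.sq_sqrt (abs_nonneg z)
    have h3 := sq_abs z
    nlinarith [sq_nonneg (Real.sqrt |z| - 1), sq_nonneg (|z| - 1), Real.sqrt_nonneg |z|]
  have h2 : Real.sqrt |z| ≤ Real.exp (z ^ 2 / 2) := h1.trans (by linarith [Real.add_one_le_exp (z ^ 2 / 2)])
  have h3 : Real.exp (-(z ^ 2 / 2)) * Real.sqrt |z| ≤ 1 := by
    rw [Real.exp_neg]
    rw [inv_mul_le_iff₀ (Real.exp_pos _), mul_one]
    exact h2
  calc gePhi * Real.exp (-(z ^ 2 / 2)) * Real.sqrt |z|
      = gePhi * (Real.exp (-(z ^ 2 / 2)) * Real.sqrt |z|) := by ring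
    _ ≤ 1 * 1 := mul_le_mul gePhi_le h3 (by positivity) (by norm_num)
    _ = 1 := by norm_num

lemma ge_pdf_sub (z : ℝ) : |gaussianPDFReal 0 1 z - gePhi| ≤ gePhi * Real.sqrt |z| := by
  rw [ge_pdf]
  have h0 : gePhi * Real.exp (-(z ^ 2 / 2)) - gePhi = -(gePhi * (1 - Real.exp (-(z ^ 2 / 2)))) := by ring
  have hle : Real.exp (-(z ^ 2 / 2)) ≤ 1 := by
    rw [Real.exp_le_one_iff]
    have := sq_nonneg z
    linarith
  rw [h0, abs_neg, abs_mul, abs_of_pos gePhi_pos, abs_of_nonneg (by linarith)]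
  apply mul_le_mul_of_nonneg_left _ gePhi_pos.le
  rcases le_or_gt 1 |z| with h | h
  · have : 1 ≤ Real.sqrt |z| := by rw [Real.one_le_sqrt]; exact h
    linarith [Real.exp_pos (-(z ^ 2 / 2))]
  · have h1 : 1 - Real.exp (-(z ^ 2 / 2)) ≤ z ^ 2 / 2 := by
      linarith [Real.add_one_le_exp (-(z ^ 2 / 2))]
    have h2 : z ^ 2 / 2 ≤ |z| := by
      have := sq_abs z
      nlinarith [abs_nonneg z]
    have h3 : |z| ≤ Real.sqrt |z| := by
      have h4 := Real.sq_sqrt (abs_nonneg z)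
      have h5 : Real.sqrt |z| ≤ 1 := by
        rw [← Real.sqrt_one]
        exact Real.sqrt_le_sqrt h.le
      nlinarith [Real.sqrt_nonneg |z|]
    linarith

/-- the constant `J` -/
noncomputable def geJ (a : ℝ) : ℝ := ∫ u : ℝ, Real.sqrt |u| * fej a u

lemma geJ_nonneg (a : ℝ) (ha : 0 < a) : 0 ≤ geJ a :=
  integral_nonneg fun u => mul_nonneg (Real.sqrt_nonneg _) (fej_nonneg a u ha)

lemma ge_scale (g : ℝ → ℝ) (s : ℝ) (hs : 0 < s) : ∫ z, g (s * z) = s⁻¹ * ∫ u, g u := by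
  rw [Measure.integral_comp_mul_left, abs_of_pos (by positivity), smul_eq_mul]

lemma ge_E1 (a s : ℝ) (ha : 0 < a) (hs : 0 < s) :
    ∫ z, |s * z| * fej a (s * z) ∂(gaussianReal 0 1) ≤ (Real.sqrt s)⁻¹ * geJ a := by
  rw [integral_gaussianReal_eq_integral_smul one_ne_zero]
  have hgi := (ge_g_int a ha).comp_mul_left' hs.ne'
  have h1 : ∫ z, gaussianPDFReal 0 1 z • (|s * z| * fej a (s * z))
      ≤ ∫ z, Real.sqrt s * (Real.sqrt |s * z| * fej a (s * z)) := by
    apply integral_mono_of_nonneg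
    · refine Filter.Eventually.of_forall fun z => ?_
      exact mul_nonneg (gaussianPDFReal_nonneg 0 1 z) (mul_nonneg (abs_nonneg _) (fej_nonneg a _ ha))
    · exact hgi.const_mul _
    · refine Filter.Eventually.of_forall fun z => ?_
      simp only [smul_eq_mul]
      have hf := fej_nonneg a (s * z) ha
      have e1 : |s * z| = Real.sqrt s * Real.sqrt |s * z| * Real.sqrt |z| := by
        have e2 : Real.sqrt |s * z| = Real.sqrt s * Real.sqrt |z| := by
          rw [abs_mul, abs_of_pos hs, Real.sqrt_mul hs.le]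
        rw [e2]
        have e3 := Real.mul_self_sqrt hs.le
        have e4 := Real.mul_self_sqrt (abs_nonneg z)
        rw [abs_mul, abs_of_pos hs]
        calc s * |z| = (Real.sqrt s * Real.sqrt s) * (Real.sqrt |z| * Real.sqrt |z|) := by rw [e3, e4]
          _ = _ := by ring
      have hp := ge_pdf_le z
      calc gaussianPDFReal 0 1 z * (|s * z| * fej a (s * z))
          = (gaussianPDFReal 0 1 z * Real.sqrt |z|) * (Real.sqrt s * (Real.sqrt |s * z| * fej a (s * z))) := by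
            nth_rewrite 1 [e1]
            ring
        _ ≤ 1 * (Real.sqrt s * (Real.sqrt |s * z| * fej a (s * z))) :=
            mul_le_mul_of_nonneg_right hp (by positivity)
        _ = _ := by ring
  refine h1.trans (le_of_eq ?_)
  rw [integral_const_mul, ge_scale (fun u => Real.sqrt |u| * fej a u) s hs, geJ, ← mul_assoc]
  congr 1
  rw [← div_eq_mul_inv, Real.sqrt_div_self']
  rw [one_div]

lemma ge_E2 (a s : ℝ) (ha : 0 < a) (hs : 0 < s) :
    |∫ z, fej a (s * z) ∂(gaussianReal 0 1) - gePhi / s|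
      ≤ gePhi * ((Real.sqrt s)⁻¹ * s⁻¹ * geJ a) := by
  rw [integral_gaussianReal_eq_integral_smul one_ne_zero]
  have hgi := (ge_g_int a ha).comp_mul_left' hs.ne'
  have hfi := (ge_fej_int a ha).comp_mul_left' hs.ne'
  have hc : gePhi / s = ∫ z, gePhi * fej a (s * z) := by
    rw [integral_const_mul, ge_scale (fej a) s hs, ge_fej_integral a ha, mul_one, div_eq_mul_inv]
  have hfi1 : Integrable (fun z => gaussianPDFReal 0 1 z • fej a (s * z)) := by
    refine (hfi.const_mul gePhi).mono' ?_ ?_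
    · exact ((measurable_gaussianPDFReal 0 1).aestronglyMeasurable).mul hfi.aestronglyMeasurable
    · refine Filter.Eventually.of_forall fun z => ?_
      rw [smul_eq_mul, Real.norm_eq_abs, abs_of_nonneg (mul_nonneg (gaussianPDFReal_nonneg 0 1 z)
        (fej_nonneg a _ ha))]
      apply mul_le_mul_of_nonneg_right _ (fej_nonneg a _ ha)
      rw [ge_pdf]
      have : Real.exp (-(z ^ 2 / 2)) ≤ 1 := by
        rw [Real.exp_le_one_iff]
        have := sq_nonneg z
        linarith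
      nlinarith [gePhi_pos]
  rw [hc, ← integral_sub hfi1 (hfi.const_mul gePhi)]
  have hbi : Integrable (fun z => gePhi * (Real.sqrt s)⁻¹ * (Real.sqrt |s * z| * fej a (s * z))) :=
    hgi.const_mul _
  rw [← Real.norm_eq_abs]
  refine (norm_integral_le_of_norm_le hbi ?_).trans (le_of_eq ?_)
  · refine Filter.Eventually.of_forall fun z => ?_
    rw [smul_eq_mul, ← sub_mul, norm_mul, Real.norm_eq_abs, Real.norm_eq_abs,
      abs_of_nonneg (fej_nonneg a _ ha)]
    have e2 : Real.sqrt |s * z| = Real.sqrt s * Real.sqrt |z| := by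
      rw [abs_mul, abs_of_pos hs, Real.sqrt_mul hs.le]
    have hs0 : Real.sqrt s ≠ 0 := (Real.sqrt_pos.2 hs).ne'
    calc |gaussianPDFReal 0 1 z - gePhi| * fej a (s * z)
        ≤ (gePhi * Real.sqrt |z|) * fej a (s * z) :=
          mul_le_mul_of_nonneg_right (ge_pdf_sub z) (fej_nonneg a _ ha)
      _ = _ := by rw [e2]; field_simp
  · rw [integral_const_mul, ge_scale (fun u => Real.sqrt |u| * fej a u) s hs, geJ]
    ring

lemma ge_absint : Integrable (fun z : ℝ => |z|) (gaussianReal 0 1) := by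
  have h := (memLp_id_gaussianReal' (μ := 0) (v := 1) 1 (by simp))
  rw [memLp_one_iff_integrable] at h
  exact h.abs

lemma ge_half : ∫ x in Set.Ioi (0 : ℝ), x * Real.exp (-(x ^ 2 / 2)) = 1 := by
  have h := integral_mul_cexp_neg_mul_sq (b := 1 / 2) (by norm_num)
  have h2 : ∀ r : ℝ, (r : ℂ) * Complex.exp (-(1 / 2) * (r : ℂ) ^ 2)
      = ((r * Real.exp (-(r ^ 2 / 2)) : ℝ) : ℂ) := by
    intro r
    push_cast
    congr 2
    ring
  simp only [h2] at h
  rw [integral_complex_ofReal] at h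
  have h3 : ((2 : ℂ) * (1 / 2))⁻¹ = ((1 : ℝ) : ℂ) := by norm_num
  rw [h3] at h
  exact_mod_cast h

lemma ge_E0 : ∫ z, |z| ∂(gaussianReal 0 1) = 2 * gePhi := by
  rw [integral_gaussianReal_eq_integral_smul one_ne_zero]
  have h1 : ∀ z : ℝ, gaussianPDFReal 0 1 z • |z| = (fun x : ℝ => gePhi * (x * Real.exp (-(x ^ 2 / 2)))) |z| := by
    intro z
    rw [smul_eq_mul, ge_pdf]
    simp only [sq_abs]
    ring
  simp_rw [h1]
  have h2 := integral_comp_abs (f := fun x : ℝ => gePhi * (x * Real.exp (-(x ^ 2 / 2))))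
  refine h2.trans ?_
  rw [integral_const_mul, ge_half]
  ring

lemma ge_phi_sq : 2 * gePhi * gePhi = 1 / Real.pi := by
  unfold gePhi
  have hp := Real.pi_pos
  have h := Real.mul_self_sqrt (show (0 : ℝ) ≤ 2 * Real.pi by positivity)
  have h0 : Real.sqrt (2 * Real.pi) ≠ 0 := (Real.sqrt_pos.2 (by positivity)).ne'
  calc 2 * (Real.sqrt (2 * Real.pi))⁻¹ * (Real.sqrt (2 * Real.pi))⁻¹
      = 2 * (Real.sqrt (2 * Real.pi) * Real.sqrt (2 * Real.pi))⁻¹ := by
        rw [mul_inv]; ring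
    _ = 1 / Real.pi := by
        rw [h]; field_simp

theorem gauss_eval (K κ a : ℝ) (hK : 0 < K) (hκ : 0 < κ) (ha : 0 < a) :
    ∃ C > 0, ∀ (m : ℕ) (A B Dt σ : ℝ), 2 ≤ m → κ * m ≤ A → A ≤ K * m → |B| ≤ K * (m : ℝ) ^ 2 →
      κ * (m : ℝ) ^ 4 ≤ Dt → Dt ≤ K * (m : ℝ) ^ 4 → 1 / 2 ≤ σ ^ 2 → σ ^ 2 ≤ 1 → 0 < σ →
      |∫ z, |VG A B Dt σ z| * fej a (UG A σ z) ∂((gaussianReal 0 1).prod (gaussianReal 0 1))
        - (1 / Real.pi) * Real.sqrt Dt / A| ≤ C * (m : ℝ) ^ (3 / 4 : ℝ) := by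
  have hc := cst_pos
  have hJ0 := geJ_nonneg a ha
  have hk2 : 0 < (κ / 2) ^ (-(1 / 4) : ℝ) := by positivity
  refine ⟨(K / κ + Real.sqrt K / κ) * (κ / 2) ^ (-(1 / 4) : ℝ) * geJ a + 1, by positivity, ?_⟩
  intro m A B Dt σ hm hA1 hA2 hB hD1 hD2 hσ1 hσ2 hσ
  have hm0 : (0 : ℝ) < m := by
    have : 0 < m := by omega
    exact_mod_cast this
  have hA : 0 < A := lt_of_lt_of_le (by positivity) hA1
  have hD : 0 < Dt := lt_of_lt_of_le (by positivity) hD1
  set s : ℝ := σ * Real.sqrt A with hs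
  have hs0 : 0 < s := by positivity
  set r : ℝ := Real.sqrt Dt / A with hr
  have hr0 : 0 ≤ r := by positivity
  have hsA : Real.sqrt A ≠ 0 := (Real.sqrt_pos.2 hA).ne'
  have hAA : Real.sqrt A * Real.sqrt A = A := Real.mul_self_sqrt hA.le
  set γ := gaussianReal 0 1 with hγ
  have e1 : σ * Real.sqrt (Dt / A) = s * r := by
    rw [Real.sqrt_div hD.le, hs, hr]
    have hA2' : Real.sqrt A ^ 2 = A := Real.sq_sqrt hA.le
    field_simp
    linarith
  have e2 : σ * (B / Real.sqrt A) = B / A * s := by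
    rw [hs]
    have hA2' : Real.sqrt A ^ 2 = A := Real.sq_sqrt hA.le
    field_simp
    rw [hA2']
  have hV : ∀ z : ℝ × ℝ, VG A B Dt σ z = B / A * (s * z.1) + s * r * z.2 := by
    intro z
    unfold VG
    rw [mul_add, ← mul_assoc, ← mul_assoc, e1, e2]
    ring
  have hU : ∀ z : ℝ × ℝ, UG A σ z = s * z.1 := by
    intro z
    rfl
  simp only [hV, hU]
  have hfc : Continuous (fun z : ℝ × ℝ => fej a (s * z.1)) :=
    (fej_continuous a ha).comp (continuous_const.mul continuous_fst)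
  have hi1 : Integrable (fun z : ℝ × ℝ => |z.1|) (γ.prod γ) := ge_absint.comp_fst γ
  have hi2 : Integrable (fun z : ℝ × ℝ => |z.2|) (γ.prod γ) := ge_absint.comp_snd γ
  have hbdd : ∀ z : ℝ × ℝ, ‖fej a (s * z.1)‖ ≤ a / (2 * cst) := by
    intro z
    rw [Real.norm_eq_abs, abs_of_nonneg (fej_nonneg a _ ha)]
    exact fej_le a _ ha
  -- integrability
  have hI2 : Integrable (fun z : ℝ × ℝ => (s * r * |z.2|) * fej a (s * z.1)) (γ.prod γ) :=
    (hi2.const_mul (s * r)).mul_bdd hfc.aestronglyMeasurable (Filter.Eventually.of_forall hbdd)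
  have hI3 : Integrable (fun z : ℝ × ℝ => |B / A| * (|s * z.1| * fej a (s * z.1))) (γ.prod γ) := by
    have : Integrable (fun z : ℝ × ℝ => |s * z.1| * fej a (s * z.1)) (γ.prod γ) := by
      have h := (hi1.const_mul |s|).mul_bdd hfc.aestronglyMeasurable (Filter.Eventually.of_forall hbdd)
      simpa only [abs_mul] using h
    exact this.const_mul _
  have hI1 : Integrable (fun z : ℝ × ℝ => |B / A * (s * z.1) + s * r * z.2| * fej a (s * z.1))
      (γ.prod γ) := by
    refine (hI3.add hI2).mono' ?_ ?_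
    · apply Continuous.aestronglyMeasurable
      exact (by fun_prop : Continuous fun z : ℝ × ℝ => |B / A * (s * z.1) + s * r * z.2|).mul hfc
    · refine Filter.Eventually.of_forall fun z => ?_
      have hf := fej_nonneg a (s * z.1) ha
      rw [Real.norm_eq_abs, abs_of_nonneg (by positivity)]
      simp only [Pi.add_apply]
      have := abs_add_le (B / A * (s * z.1)) (s * r * z.2)
      rw [abs_mul (B / A) (s * z.1), abs_mul (s * r) z.2, abs_of_nonneg (by positivity : 0 ≤ s * r)] at this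
      nlinarith
  -- first error
  have herr1 : |∫ z, |B / A * (s * z.1) + s * r * z.2| * fej a (s * z.1) ∂(γ.prod γ)
      - ∫ z, (s * r * |z.2|) * fej a (s * z.1) ∂(γ.prod γ)|
      ≤ |B / A| * ((Real.sqrt s)⁻¹ * geJ a) := by
    rw [← integral_sub hI1 hI2]
    rw [← Real.norm_eq_abs]
    refine (norm_integral_le_of_norm_le hI3 ?_).trans ?_
    · refine Filter.Eventually.of_forall fun z => ?_
      have hf := fej_nonneg a (s * z.1) ha
      rw [← sub_mul, norm_mul, Real.norm_eq_abs, Real.norm_eq_abs, abs_of_nonneg hf,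
        ← mul_assoc |B / A|]
      apply mul_le_mul_of_nonneg_right _ hf
      rw [← abs_mul]
      have h3 := abs_abs_sub_abs_le (B / A * (s * z.1) + s * r * z.2) (s * r * z.2)
      rw [add_sub_cancel_right, abs_mul (s * r) z.2, abs_of_nonneg (by positivity : 0 ≤ s * r)] at h3
      exact h3
    · rw [integral_const_mul]
      apply mul_le_mul_of_nonneg_left _ (abs_nonneg _)
      have h4 : ∫ z : ℝ × ℝ, |s * z.1| * fej a (s * z.1) ∂(γ.prod γ)
          = ∫ x, |s * x| * fej a (s * x) ∂γ := by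
        rw [integral_fun_fst (f := fun x => |s * x| * fej a (s * x))]
        simp
      rw [h4]
      exact ge_E1 a s ha hs0
  -- main term
  have hmain : ∫ z, (s * r * |z.2|) * fej a (s * z.1) ∂(γ.prod γ)
      = s * r * (2 * gePhi) * ∫ x, fej a (s * x) ∂γ := by
    have h5 : ∀ z : ℝ × ℝ, (s * r * |z.2|) * fej a (s * z.1)
        = (s * r * fej a (s * z.1)) * |z.2| := fun z => by ring
    simp only [h5]
    rw [integral_prod_mul (μ := γ) (ν := γ) (fun x => s * r * fej a (s * x)) (fun y => |y|),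
      ge_E0, integral_const_mul]
    ring
  have herr2 : |∫ z, (s * r * |z.2|) * fej a (s * z.1) ∂(γ.prod γ) - 1 / Real.pi * Real.sqrt Dt / A|
      ≤ r * ((Real.sqrt s)⁻¹ * geJ a) := by
    rw [hmain]
    have h6 : s * r * (2 * gePhi) * ∫ x, fej a (s * x) ∂γ - 1 / Real.pi * Real.sqrt Dt / A
        = s * r * (2 * gePhi) * (∫ x, fej a (s * x) ∂γ - gePhi / s) := by
      rw [← ge_phi_sq, mul_sub, hr]
      field_simp
    rw [h6, abs_mul, abs_of_nonneg (by have := gePhi_pos; positivity)]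
    have h7 := ge_E2 a s ha hs0
    have hgp := gePhi_pos
    calc s * r * (2 * gePhi) * |∫ x, fej a (s * x) ∂γ - gePhi / s|
        ≤ s * r * (2 * gePhi) * (gePhi * ((Real.sqrt s)⁻¹ * s⁻¹ * geJ a)) :=
          mul_le_mul_of_nonneg_left h7 (by positivity)
      _ = (2 * gePhi * gePhi) * (r * ((Real.sqrt s)⁻¹ * geJ a)) := by
          field_simp
      _ = (1 / Real.pi) * (r * ((Real.sqrt s)⁻¹ * geJ a)) := by rw [ge_phi_sq]
      _ ≤ 1 * (r * ((Real.sqrt s)⁻¹ * geJ a)) := by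
          apply mul_le_mul_of_nonneg_right _ (by positivity)
          rw [div_le_one Real.pi_pos]
          linarith [Real.pi_gt_three]
      _ = _ := one_mul _
  -- bounds
  have hb1 : |B / A| ≤ K / κ * m := by
    rw [abs_div, abs_of_pos hA, div_le_iff₀ hA]
    calc |B| ≤ K * (m : ℝ) ^ 2 := hB
      _ = K / κ * m * (κ * m) := by field_simp
      _ ≤ K / κ * m * A := mul_le_mul_of_nonneg_left hA1 (by positivity)
  have hb2 : r ≤ Real.sqrt K / κ * m := by
    rw [hr, div_le_iff₀ hA]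
    calc Real.sqrt Dt ≤ Real.sqrt (K * (m : ℝ) ^ 4) := Real.sqrt_le_sqrt hD2
      _ = Real.sqrt K * (m : ℝ) ^ 2 := by
          rw [Real.sqrt_mul hK.le, show (m : ℝ) ^ 4 = ((m : ℝ) ^ 2) ^ 2 by ring,
            Real.sqrt_sq (by positivity)]
      _ = Real.sqrt K / κ * m * (κ * m) := by field_simp
      _ ≤ _ := mul_le_mul_of_nonneg_left hA1 (by positivity)
  have hb3 : (Real.sqrt s)⁻¹ ≤ (κ / 2) ^ (-(1 / 4) : ℝ) * (m : ℝ) ^ (-(1 / 4) : ℝ) := by
    rw [← Real.mul_rpow (by positivity) hm0.le]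
    have h8 : κ / 2 * m ≤ s ^ 2 := by
      rw [hs, mul_pow, Real.sq_sqrt hA.le]
      nlinarith
    have h9 : Real.sqrt s = (s ^ 2) ^ (1 / 4 : ℝ) := by
      rw [Real.sqrt_eq_rpow, ← Real.rpow_natCast, ← Real.rpow_mul hs0.le]
      norm_num
    rw [h9, ← Real.rpow_neg (by positivity)]
    exact Real.rpow_le_rpow_of_nonpos (by positivity) h8 (by norm_num)
  have hpow : (m : ℝ) * (m : ℝ) ^ (-(1 / 4) : ℝ) = (m : ℝ) ^ (3 / 4 : ℝ) := by
    nth_rewrite 1 [← Real.rpow_one (m : ℝ)]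
    rw [← Real.rpow_add hm0]
    norm_num
  have hpos : 0 ≤ (m : ℝ) ^ (3 / 4 : ℝ) := by positivity
  have htri := abs_sub_le (∫ z, |B / A * (s * z.1) + s * r * z.2| * fej a (s * z.1) ∂(γ.prod γ))
    (∫ z, (s * r * |z.2|) * fej a (s * z.1) ∂(γ.prod γ)) (1 / Real.pi * Real.sqrt Dt / A)
  calc _ ≤ |B / A| * ((Real.sqrt s)⁻¹ * geJ a) + r * ((Real.sqrt s)⁻¹ * geJ a) :=
        htri.trans (add_le_add herr1 herr2)
    _ = (|B / A| + r) * ((Real.sqrt s)⁻¹ * geJ a) := by ring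
    _ ≤ (K / κ * m + Real.sqrt K / κ * m) *
          (((κ / 2) ^ (-(1 / 4) : ℝ) * (m : ℝ) ^ (-(1 / 4) : ℝ)) * geJ a) := by
        apply mul_le_mul (add_le_add hb1 hb2) (mul_le_mul_of_nonneg_right hb3 hJ0)
          (by positivity) (by positivity)
    _ = (K / κ + Real.sqrt K / κ) * (κ / 2) ^ (-(1 / 4) : ℝ) * geJ a
          * ((m : ℝ) * (m : ℝ) ^ (-(1 / 4) : ℝ)) := by ring
    _ = (K / κ + Real.sqrt K / κ) * (κ / 2) ^ (-(1 / 4) : ℝ) * geJ a * (m : ℝ) ^ (3 / 4 : ℝ) := by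
        rw [hpow]
    _ ≤ _ := by nlinarith

theorem gauss_char (A B Cc σ s t : ℝ) (hA : 0 < A) (hD : 0 ≤ A * Cc - B ^ 2) :
    ∫ z, Complex.exp (Complex.I * ((s * UG A σ z + t * VG A B (A * Cc - B ^ 2) σ z : ℝ) : ℂ))
        ∂((gaussianReal 0 1).prod (gaussianReal 0 1))
      = Complex.exp (-((σ ^ 2 * (s ^ 2 * A + 2 * s * t * B + t ^ 2 * Cc) / 2 : ℝ) : ℂ)) := by
  have hsA : Real.sqrt A ≠ 0 := (Real.sqrt_pos.2 hA).ne'
  set Dt := A * Cc - B ^ 2 with hDt
  set c1 : ℝ := σ * (s * Real.sqrt A + t * (B / Real.sqrt A)) with hc1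
  set c2 : ℝ := σ * (t * Real.sqrt (Dt / A)) with hc2
  have h1 : ∀ z : ℝ × ℝ, Complex.exp (Complex.I * ((s * UG A σ z + t * VG A B Dt σ z : ℝ) : ℂ))
      = Complex.exp (c1 * z.1 * Complex.I) * Complex.exp (c2 * z.2 * Complex.I) := by
    intro z
    rw [← Complex.exp_add]
    congr 1
    unfold UG VG
    rw [hc1, hc2]
    push_cast
    ring
  simp only [h1]
  rw [integral_prod_mul (μ := gaussianReal 0 1) (ν := gaussianReal 0 1)
    (fun x : ℝ => Complex.exp (c1 * x * Complex.I)) (fun y : ℝ => Complex.exp (c2 * y * Complex.I)),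
    ← charFun_apply_real, ← charFun_apply_real, charFun_gaussianReal, charFun_gaussianReal,
    ← Complex.exp_add]
  congr 1
  have h2 : c1 ^ 2 + c2 ^ 2 = σ ^ 2 * (s ^ 2 * A + 2 * s * t * B + t ^ 2 * Cc) := by
    rw [hc1, hc2]
    have hAA : Real.sqrt A ^ 2 = A := Real.sq_sqrt hA.le
    have hDD : Real.sqrt (Dt / A) ^ 2 = Dt / A := Real.sq_sqrt (by positivity)
    have h3 : (s * Real.sqrt A + t * (B / Real.sqrt A)) ^ 2 = s ^ 2 * A + 2 * s * t * B + t ^ 2 * (B ^ 2 / A) := by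
      have : (B / Real.sqrt A) ^ 2 = B ^ 2 / A := by rw [div_pow, hAA]
      have h4 : Real.sqrt A * (B / Real.sqrt A) = B := by field_simp
      calc (s * Real.sqrt A + t * (B / Real.sqrt A)) ^ 2
          = s ^ 2 * Real.sqrt A ^ 2 + 2 * s * t * (Real.sqrt A * (B / Real.sqrt A))
            + t ^ 2 * (B / Real.sqrt A) ^ 2 := by ring
        _ = _ := by rw [hAA, h4, this]
    rw [mul_pow, mul_pow, mul_pow, h3, hDD, hDt]
    field_simp
    ring
  have h5 : (σ : ℂ) ^ 2 * (s ^ 2 * A + 2 * s * t * B + t ^ 2 * Cc) = (c1 : ℂ) ^ 2 + (c2 : ℂ) ^ 2 := by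
    exact_mod_cast h2.symm
  push_cast
  rw [h5]
  ring


end K3
end Kac764
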