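import Pool.Agent.Helper764.KacDefs
import Pool.Agent.Helper764.KacP1
import Pool.Agent.Helper764.KacP4
import Pool.Agent.Helper764.KacP5
import Pool.Agent.Helper764.KacP6
import Pool.Agent.Helper764.KacK1
import Pool.Agent.Helper764.KacK2
import Pool.Agent.Helper764.KacK3
import Pool.Agent.Helper764.KacA2

set_option autoImplicit false
set_option maxHeartbeats 4000000
open MeasureTheory ProbabilityTheory Filter Topology Set
open scoped ENNReal NNReal

namespace Kac764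
namespace K4
open Kac764.P1
open Kac764.P4
open Kac764.K1
open Kac764.K2
open Kac764.K3 (UG VG gauss_eval gauss_char)
open Kac764.A2 (CharB char_bound mom fComp)

theorem lT_continuous (T : ℝ) (hT : 0 < T) : Continuous (lT T) := K1.lT_measurable T hT

/-! The following are GIVEN (being proved in other jobs): leave them as `sorry`. -/
/-! ### auxiliary lemmas -/

theorem dca_int_fej {Ω : Type*} [MeasurableSpace Ω] (ν : Measure Ω) [IsProbabilityMeasure ν]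
    (f : Ω → ℝ) (hf : Measurable f) (a : ℝ) (ha : 0 < a) : Integrable (fun z => fej a (f z)) ν := by
  refine Integrable.mono' (integrable_const (a / (2 * cst))) ?_ ?_
  · exact ((fej_continuous a ha).measurable.comp hf).aestronglyMeasurable
  · refine Filter.Eventually.of_forall (fun z => ?_)
    rw [Real.norm_eq_abs, abs_of_nonneg (fej_nonneg a _ ha)]
    exact fej_le a _ ha

theorem dca_int_mul {Ω : Type*} [MeasurableSpace Ω] (ν : Measure Ω) [IsProbabilityMeasure ν]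
    (f g : Ω → ℝ) (hf : Measurable f) (hg : Integrable g ν) (a : ℝ) (ha : 0 < a) :
    Integrable (fun z => g z * fej a (f z)) ν := by
  have h1 : Integrable (fun z => |g z| * (a / (2 * cst))) ν := hg.abs.mul_const _
  refine Integrable.mono' h1 ?_ ?_
  · exact hg.aestronglyMeasurable.mul
      ((fej_continuous a ha).measurable.comp hf).aestronglyMeasurable
  · refine Filter.Eventually.of_forall (fun z => ?_)
    rw [Real.norm_eq_abs, abs_mul, abs_of_nonneg (fej_nonneg a _ ha)]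
    exact mul_le_mul_of_nonneg_left (fej_le a _ ha) (abs_nonneg _)

theorem dca_int_lT (ν : Measure (ℝ × ℝ)) [IsProbabilityMeasure ν]
    (h1 : Integrable (fun z : ℝ × ℝ => |z.2|) ν) (T : ℝ) (hT : 0 < T) :
    Integrable (fun z : ℝ × ℝ => lT T z.2) ν := by
  have hc := cst_pos
  refine Integrable.mono' (h1.add (integrable_const (4 / (cst * T)))) ?_ ?_
  · exact ((lT_continuous T hT).comp continuous_snd).aestronglyMeasurable
  · refine Filter.Eventually.of_forall (fun z => ?_)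
    rw [Real.norm_eq_abs, abs_le]
    have e1 := lT_le T z.2 hT
    have e2 := le_lT T z.2 hT
    have e3 : 0 ≤ 4 / (cst * T) := by positivity
    have e4 := abs_nonneg z.2
    simp only [Pi.add_apply]
    constructor <;> linarith

theorem dca_err (ν : Measure (ℝ × ℝ)) [IsProbabilityMeasure ν]
    (h1 : Integrable (fun z : ℝ × ℝ => |z.2|) ν) (a T : ℝ) (ha : 0 < a) (hT : 0 < T) :
    |∫ z, |z.2| * fej a z.1 ∂ν - ∫ z, lT T z.2 * fej a z.1 ∂ν| ≤
      4 / (cst * T) * ∫ z, fej a z.1 ∂ν := by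
  have hf : Measurable (fun z : ℝ × ℝ => z.1) := measurable_fst
  have i1 := dca_int_mul ν (fun z : ℝ × ℝ => z.1) (fun z => |z.2|) hf h1 a ha
  have i2 := dca_int_mul ν (fun z : ℝ × ℝ => z.1) (fun z => lT T z.2) hf (dca_int_lT ν h1 T hT) a ha
  have i3 := dca_int_fej ν (fun z : ℝ × ℝ => z.1) hf a ha
  rw [← integral_sub i1 i2, ← integral_const_mul]
  refine (abs_integral_le_integral_abs).trans ?_
  refine integral_mono (i1.sub i2).abs (i3.const_mul _) (fun z => ?_)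
  simp only
  have e1 := lT_le T z.2 hT
  have e2 := le_lT T z.2 hT
  have e3 := fej_nonneg a z.1 ha
  rw [← sub_mul, abs_mul, abs_of_nonneg e3]
  refine mul_le_mul_of_nonneg_right ?_ e3
  rw [abs_le]
  constructor <;> linarith

theorem dca_fej_bd (ν : Measure (ℝ × ℝ)) [IsProbabilityMeasure ν] (φ : ℝ → ℝ → ℂ)
    (hφ : ∀ s t : ℝ, φ s t = ∫ z, Complex.exp (Complex.I * ((s * z.1 + t * z.2 : ℝ) : ℂ)) ∂ν)
    (a b : ℝ) (ha : 0 < a) (hb : 0 < b)
    (hbd : ∀ s : ℝ, |s| ≤ a → ‖φ s 0‖ ≤ Real.exp (-b * s ^ 2)) :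
    ∫ z, fej a z.1 ∂ν ≤ 1 / (2 * cst) * Real.sqrt (Real.pi / b) := by
  have hc := cst_pos
  have hprob : IsProbabilityMeasure (ν.map Prod.fst) :=
    Measure.isProbabilityMeasure_map measurable_fst.aemeasurable
  have e1 : ∫ z, fej a z.1 ∂ν = ∫ u, fej a u ∂(ν.map Prod.fst) := by
    rw [integral_map measurable_fst.aemeasurable
      (fej_continuous a ha).measurable.aestronglyMeasurable]
  have e2 : ∀ s : ℝ, charFun (ν.map Prod.fst) s = φ s 0 := by
    intro s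
    rw [charFun_apply_real, hφ, integral_map measurable_fst.aemeasurable
      (by fun_prop)]
    refine integral_congr_ae (Filter.Eventually.of_forall (fun z => ?_))
    simp only
    congr 1
    push_cast
    ring
  rw [e1]
  refine (fej_expect _ a ha).trans ?_
  refine mul_le_mul_of_nonneg_left ?_ (by positivity)
  have e3 : ∫ s in (-a)..a, ‖charFun (ν.map Prod.fst) s‖ ≤ ∫ s in (-a)..a, Real.exp (-b * s ^ 2) := by
    refine intervalIntegral.integral_mono_on (by linarith) ?_ ?_ ?_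
    · exact intervalIntegrable_charFun.norm
    · exact (by fun_prop : Continuous fun s : ℝ => Real.exp (-b * s ^ 2)).intervalIntegrable _ _
    · intro s hs
      rw [e2]
      exact hbd s (abs_le.mpr hs)
  refine e3.trans ?_
  rw [intervalIntegral.integral_of_le (by linarith), ← integral_gaussian b]
  refine setIntegral_le_integral (integrable_exp_neg_mul_sq hb) ?_
  exact Filter.Eventually.of_forall (fun s => (Real.exp_pos _).le)

theorem dca_combine (ν₁ ν₂ : Measure (ℝ × ℝ)) [IsProbabilityMeasure ν₁] [IsProbabilityMeasure ν₂]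
    (h1 : Integrable (fun z : ℝ × ℝ => |z.2|) ν₁) (h2 : Integrable (fun z : ℝ × ℝ => |z.2|) ν₂)
    (a T B : ℝ) (ha : 0 < a) (hT : 0 < T) (hB : 0 ≤ B) (φ₁ φ₂ : ℝ → ℝ → ℂ)
    (hφ₁ : ∀ s t : ℝ, φ₁ s t = ∫ z, Complex.exp (Complex.I * ((s * z.1 + t * z.2 : ℝ) : ℂ)) ∂ν₁)
    (hφ₂ : ∀ s t : ℝ, φ₂ s t = ∫ z, Complex.exp (Complex.I * ((s * z.1 + t * z.2 : ℝ) : ℂ)) ∂ν₂)
    (hle : ∫⁻ s in Icc (-a) a, ∫⁻ t in Icc (-T) T, ENNReal.ofReal
      (‖(φ₁ s 0 - (φ₁ s t + φ₁ s (-t)) / 2) - (φ₂ s 0 - (φ₂ s t + φ₂ s (-t)) / 2)‖ / t ^ 2)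
      ≤ ENNReal.ofReal B) (b₁ b₂ : ℝ) (hb₁ : 0 < b₁) (hb₂ : 0 < b₂)
    (hbd₁ : ∀ s : ℝ, |s| ≤ a → ‖φ₁ s 0‖ ≤ Real.exp (-b₁ * s ^ 2))
    (hbd₂ : ∀ s : ℝ, |s| ≤ a → ‖φ₂ s 0‖ ≤ Real.exp (-b₂ * s ^ 2)) :
    |∫ z, |z.2| * fej a z.1 ∂ν₁ - ∫ z, |z.2| * fej a z.1 ∂ν₂| ≤
      4 / (cst * T) * (1 / (2 * cst) * Real.sqrt (Real.pi / b₁)) +
      4 / (cst * T) * (1 / (2 * cst) * Real.sqrt (Real.pi / b₂)) + B / (2 * cst ^ 2) := by
  have hc := cst_pos
  have k1 := dca_err ν₁ h1 a T ha hT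
  have k2 := dca_err ν₂ h2 a T ha hT
  have k3 := rep_compare ν₁ ν₂ h1 h2 a T B ha hT hB φ₁ φ₂ hφ₁ hφ₂ hle
  have k4 := dca_fej_bd ν₁ φ₁ hφ₁ a b₁ ha hb₁ hbd₁
  have k5 := dca_fej_bd ν₂ φ₂ hφ₂ a b₂ ha hb₂ hbd₂
  have e3 : 0 ≤ 4 / (cst * T) := by positivity
  have k6 := mul_le_mul_of_nonneg_left k4 e3
  have k7 := mul_le_mul_of_nonneg_left k5 e3
  have k1' := k1.trans k6
  have k2' := k2.trans k7
  rw [abs_le] at k1' k2' k3 ⊢
  constructor <;> linarith [k1'.1, k1'.2, k2'.1, k2'.2, k3.1, k3.2]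

theorem dca_int_id (μ : Measure ℝ) (hμ : Std μ) : Integrable (fun x : ℝ => x) μ := by
  have := hμ.prob
  have h2 : MemLp (fun x : ℝ => x) 2 μ :=
    (memLp_two_iff_integrable_sq measurable_id.aestronglyMeasurable).mpr hμ.int2
  exact h2.integrable one_le_two

theorem dca_int_coord (μ : Measure ℝ) (hμ : Std μ) (j : ℕ) :
    Integrable (fun ω : ℕ → ℝ => ω j) (PP μ) := by
  have := hμ.prob
  have h1 := measurePreserving_eval_infinitePi (fun _ : ℕ => μ) j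
  have h2 := (h1.integrable_comp (g := fun x : ℝ => x)
    measurable_id.aestronglyMeasurable).mpr (dca_int_id μ hμ)
  exact h2

theorem dca_meas_D0 (n : ℕ) (x : ℝ) : Measurable (fun ω : ℕ → ℝ => D0 n ω x) := by
  unfold D0
  exact Finset.measurable_fun_sum _ (fun j _ => (measurable_pi_apply j).mul_const _)

theorem dca_meas_D1 (n : ℕ) (x : ℝ) : Measurable (fun ω : ℕ → ℝ => D1 n ω x) := by
  unfold D1
  exact Finset.measurable_fun_sum _ (fun j _ => (measurable_pi_apply j).mul_const _)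

theorem dca_int_D1 (μ : Measure ℝ) (hμ : Std μ) (n : ℕ) (x : ℝ) :
    Integrable (fun ω : ℕ → ℝ => D1 n ω x) (PP μ) := by
  unfold D1
  exact integrable_finsetSum _ (fun j _ => (dca_int_coord μ hμ j).mul_const _)

/-- the law of `(D0, D1)` -/
noncomputable def dcaLaw (μ : Measure ℝ) (n : ℕ) (x : ℝ) : Measure (ℝ × ℝ) :=
  (PP μ).map (fun ω => (D0 n ω x, D1 n ω x))

theorem dca_meas_pair (n : ℕ) (x : ℝ) :
    Measurable (fun ω : ℕ → ℝ => (D0 n ω x, D1 n ω x)) :=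
  (dca_meas_D0 n x).prodMk (dca_meas_D1 n x)

theorem dcaLaw_prob (μ : Measure ℝ) (hμ : Std μ) (n : ℕ) (x : ℝ) :
    IsProbabilityMeasure (dcaLaw μ n x) := by
  have := hμ.prob
  exact Measure.isProbabilityMeasure_map (dca_meas_pair n x).aemeasurable

theorem dcaLaw_int (μ : Measure ℝ) (hμ : Std μ) (n : ℕ) (x : ℝ) :
    Integrable (fun z : ℝ × ℝ => |z.2|) (dcaLaw μ n x) := by
  unfold dcaLaw
  rw [integrable_map_measure (by fun_prop) (dca_meas_pair n x).aemeasurable]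
  exact (dca_int_D1 μ hμ n x).abs

theorem dcaLaw_fej (μ : Measure ℝ) (n : ℕ) (x a : ℝ) (ha : 0 < a) :
    ∫ z, |z.2| * fej a z.1 ∂(dcaLaw μ n x) = ∫ ω, |D1 n ω x| * fej a (D0 n ω x) ∂(PP μ) := by
  unfold dcaLaw
  have hc : Continuous (fun z : ℝ × ℝ => |z.2| * fej a z.1) :=
    (continuous_abs.comp continuous_snd).mul ((fej_continuous a ha).comp continuous_fst)
  rw [integral_map (dca_meas_pair n x).aemeasurable hc.measurable.aestronglyMeasurable]

theorem dcaLaw_char (μ : Measure ℝ) (hμ : Std μ) (n : ℕ) (x s t : ℝ) :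
    PhiX μ n (fun j => x ^ j) (fun j => (j : ℝ) * x ^ (j - 1)) s t =
      ∫ z, Complex.exp (Complex.I * ((s * z.1 + t * z.2 : ℝ) : ℂ)) ∂(dcaLaw μ n x) := by
  have := hμ.prob
  unfold dcaLaw PhiX
  rw [integral_map (dca_meas_pair n x).aemeasurable (by fun_prop), ← char_prod]
  refine integral_congr_ae (Filter.Eventually.of_forall (fun ω => ?_))
  simp only
  congr 3
  unfold D0 D1
  rw [Finset.mul_sum, Finset.mul_sum, ← Finset.sum_add_distrib]
  refine Finset.sum_congr rfl (fun j _ => ?_)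
  ring

/-- the Gaussian law -/
noncomputable def dcaG (A B Dt σ : ℝ) : Measure (ℝ × ℝ) :=
  ((gaussianReal 0 1).prod (gaussianReal 0 1)).map (fun z => (UG A σ z, VG A B Dt σ z))

theorem dca_meas_G (A B Dt σ : ℝ) : Measurable (fun z : ℝ × ℝ => (UG A σ z, VG A B Dt σ z)) := by
  unfold UG VG
  fun_prop

theorem dcaG_prob (A B Dt σ : ℝ) : IsProbabilityMeasure (dcaG A B Dt σ) :=
  Measure.isProbabilityMeasure_map (dca_meas_G A B Dt σ).aemeasurable

theorem dcaG_int (A B Dt σ : ℝ) : Integrable (fun z : ℝ × ℝ => |z.2|) (dcaG A B Dt σ) := by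
  unfold dcaG
  rw [integrable_map_measure (by fun_prop) (dca_meas_G A B Dt σ).aemeasurable]
  have h0 : Integrable (fun x : ℝ => x) (gaussianReal 0 1) :=
    (memLp_id_gaussianReal (μ := 0) (v := 1) 1).integrable (by norm_num)
  have h1 : Integrable (fun z : ℝ × ℝ => z.1) ((gaussianReal 0 1).prod (gaussianReal 0 1)) :=
    h0.comp_fst _
  have h2 : Integrable (fun z : ℝ × ℝ => z.2) ((gaussianReal 0 1).prod (gaussianReal 0 1)) :=
    h0.comp_snd _
  have h3 : Integrable (fun z : ℝ × ℝ => VG A B Dt σ z)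
      ((gaussianReal 0 1).prod (gaussianReal 0 1)) := by
    unfold VG
    exact ((h1.const_mul _).add (h2.const_mul _)).const_mul _
  exact h3.abs

theorem dcaG_fej (A B Dt σ a : ℝ) (ha : 0 < a) :
    ∫ z, |z.2| * fej a z.1 ∂(dcaG A B Dt σ) =
      ∫ z, |VG A B Dt σ z| * fej a (UG A σ z) ∂((gaussianReal 0 1).prod (gaussianReal 0 1)) := by
  unfold dcaG
  have hc : Continuous (fun z : ℝ × ℝ => |z.2| * fej a z.1) :=
    (continuous_abs.comp continuous_snd).mul ((fej_continuous a ha).comp continuous_fst)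
  rw [integral_map (dca_meas_G A B Dt σ).aemeasurable hc.measurable.aestronglyMeasurable]

theorem dca_sq_sum (n : ℕ) (x s t : ℝ) :
    ∑ j ∈ Finset.range (n + 1), (s * x ^ j + t * ((j : ℝ) * x ^ (j - 1))) ^ 2 =
      s ^ 2 * SA n x + 2 * s * t * SB n x + t ^ 2 * SC n x := by
  unfold SA SB SC
  rw [Finset.mul_sum, Finset.mul_sum, Finset.mul_sum, ← Finset.sum_add_distrib,
    ← Finset.sum_add_distrib]
  refine Finset.sum_congr rfl (fun j _ => ?_)
  ring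

theorem dcaG_char (μ : Measure ℝ) (L : ℝ) (hL : 0 ≤ sig2 μ L) (n : ℕ) (x s t : ℝ)
    (hA : 0 < SA n x) (hD : 0 ≤ SA n x * SC n x - SB n x ^ 2) :
    PhiG μ L n (fun j => x ^ j) (fun j => (j : ℝ) * x ^ (j - 1)) s t =
      ∫ z, Complex.exp (Complex.I * ((s * z.1 + t * z.2 : ℝ) : ℂ))
        ∂(dcaG (SA n x) (SB n x) (SA n x * SC n x - SB n x ^ 2) (Real.sqrt (sig2 μ L))) := by
  unfold dcaG PhiG
  rw [integral_map (dca_meas_G _ _ _ _).aemeasurable (by fun_prop)]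
  rw [gauss_char _ _ _ _ s t hA hD, Real.sq_sqrt hL, ← dca_sq_sum n x s t]
  unfold gam
  rw [← Complex.exp_sum]
  congr 1
  rw [Finset.mul_sum]
  push_cast
  rw [Finset.sum_neg_distrib, Finset.sum_div]

theorem dca_sig2 (μ : Measure ℝ) (hμ : Std μ) :
    (∀ L, sig2 μ L ≤ 1) ∧ ∃ m1 : ℕ, ∀ m : ℕ, m1 ≤ m → 1 / 2 ≤ sig2 μ (Real.sqrt m) := by
  have hprob := hμ.prob
  have hms : ∀ L : ℝ, MeasurableSet {x : ℝ | |x| ≤ L} := fun L =>
    measurableSet_le measurable_id.abs measurable_const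
  constructor
  · intro L
    unfold sig2
    rw [← hμ.var]
    exact setIntegral_le_integral hμ.int2 (Filter.Eventually.of_forall (fun x => sq_nonneg x))
  · have h1 : Tendsto (fun m : ℕ => ∫ x in {x : ℝ | |x| ≤ Real.sqrt m}, x ^ 2 ∂μ) atTop
        (𝓝 (∫ x in ⋃ m : ℕ, {x : ℝ | |x| ≤ Real.sqrt m}, x ^ 2 ∂μ)) := by
      refine tendsto_setIntegral_of_monotone (fun m => hms _) ?_ hμ.int2.integrableOn
      intro m m' hmm x hx
      have : Real.sqrt m ≤ Real.sqrt m' := Real.sqrt_le_sqrt (by exact_mod_cast hmm)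
      exact le_trans hx this
    have h2 : (⋃ m : ℕ, {x : ℝ | |x| ≤ Real.sqrt m}) = univ := by
      rw [eq_univ_iff_forall]
      intro x
      rw [mem_iUnion]
      obtain ⟨m, hm⟩ := exists_nat_ge (x ^ 2)
      exact ⟨m, Real.abs_le_sqrt hm⟩
    rw [h2, setIntegral_univ, hμ.var] at h1
    have h3 := h1.eventually (lt_mem_nhds (show (1 / 2 : ℝ) < 1 by norm_num))
    rw [Filter.eventually_atTop] at h3
    obtain ⟨m1, hm1⟩ := h3
    exact ⟨m1, fun m hm => (hm1 m hm).le⟩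

theorem dca_adm (n m : ℕ) (x : ℝ) (h : Adm n m x) : |x| ≤ 1 ∧ 1 / 2 ≤ |x| ∧
    (|x| ≤ 1 - 1 / (4 * (m : ℝ)) ∨ (n ≤ 2 * m ∧ |x| ≤ 1 + 1 / (m : ℝ))) := by
  obtain ⟨h2, h3, h4, h5⟩ := h
  have hm : (2 : ℝ) ≤ m := by exact_mod_cast h2
  have hm0 : (0 : ℝ) < m := by linarith
  have e1 : 1 / (m : ℝ) ≤ 1 / 2 := one_div_le_one_div_of_le (by norm_num) hm
  have e2 : 0 ≤ 1 / (2 * (m : ℝ)) := by positivity
  have e3 : 1 / (4 * (m : ℝ)) ≤ 1 / (2 * (m : ℝ)) :=
    one_div_le_one_div_of_le (by positivity) (by linarith)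
  have e4 : 0 ≤ 1 / (m : ℝ) := by positivity
  refine ⟨?_, by linarith, ?_⟩
  · rcases h5 with h5 | h5
    · linarith
    · exact h5.2
  · rcases h5 with h5 | h5
    · left; linarith
    · right; exact ⟨h5.1, by linarith [h5.2]⟩

theorem dca_wts : ∃ K κ : ℝ, 1 ≤ K ∧ 0 < κ ∧ κ ≤ 1 ∧ ∀ (n m : ℕ) (x : ℝ), Adm n m x →
    Wts K κ n m (fun j => x ^ j) (fun j => (j : ℝ) * x ^ (j - 1)) := by
  obtain ⟨C0, hC0, w0⟩ := weights 0
  obtain ⟨C1, hC1, w1⟩ := weights 1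
  obtain ⟨c, hc, g⟩ := gram2
  refine ⟨1 + C0 + 2 * C1, min c 1, by linarith, lt_min hc one_pos, min_le_right _ _, ?_⟩
  intro n m x h
  obtain ⟨hx1, hx2, hx3⟩ := dca_adm n m x h
  have h2 := h.1
  have hm : (2 : ℝ) ≤ m := by exact_mod_cast h2
  have hm0 : (0 : ℝ) < m := by linarith
  obtain ⟨w0a, w0b⟩ := w0 n m x (by omega) hx3
  obtain ⟨w1a, w1b⟩ := w1 n m x (by omega) hx3
  have hβ : ∀ j : ℕ, |(j : ℝ) * x ^ (j - 1)| ≤ 2 * ((j : ℝ) ^ 1 * |x| ^ j) := by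
    intro j
    rcases j with _ | k
    · simp
    · rw [abs_mul, abs_pow, Nat.add_sub_cancel, Nat.abs_cast, pow_one, pow_succ]
      have : 0 ≤ |x| ^ k := by positivity
      have h3 : |x| ^ k ≤ |x| ^ k * (2 * |x|) := le_mul_of_one_le_right this (by linarith)
      have h4 : (0 : ℝ) ≤ ((k + 1 : ℕ) : ℝ) := Nat.cast_nonneg _
      calc ((k + 1 : ℕ) : ℝ) * |x| ^ k ≤ ((k + 1 : ℕ) : ℝ) * (|x| ^ k * (2 * |x|)) :=
            mul_le_mul_of_nonneg_left h3 h4
        _ = _ := by ring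
  refine ⟨h2, ?_, ?_, ?_, ?_⟩
  · intro j _
    rw [abs_pow]
    exact pow_le_one₀ (abs_nonneg _) hx1
  · intro j hj
    refine (hβ j).trans ?_
    have := w1b j hj
    rw [pow_one (m : ℝ)] at this
    have h3 : 0 ≤ C0 * m := by positivity
    nlinarith
  · rw [Finset.sum_add_distrib, ← Finset.sum_div]
    have s1 : ∑ j ∈ Finset.range (n + 1), |x ^ j| ≤ C0 * m := by
      refine le_trans (le_of_eq ?_) (w0a.trans (le_of_eq (by ring)))
      refine Finset.sum_congr rfl (fun j _ => ?_)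
      rw [abs_pow, pow_zero, one_mul]
    have s2 : ∑ j ∈ Finset.range (n + 1), |(j : ℝ) * x ^ (j - 1)| ≤ 2 * (C1 * (m : ℝ) ^ 2) := by
      refine (Finset.sum_le_sum (fun j _ => hβ j)).trans ?_
      rw [← Finset.mul_sum]
      exact mul_le_mul_of_nonneg_left w1a (by norm_num)
    have s3 : (∑ j ∈ Finset.range (n + 1), |(j : ℝ) * x ^ (j - 1)|) / m ≤ 2 * C1 * m := by
      rw [div_le_iff₀ hm0]
      refine s2.trans (le_of_eq ?_)
      ring
    nlinarith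
  · intro s t
    refine le_trans ?_ (g n m x h2 h.2.1 h.2.2.1 (by linarith) s t)
    refine mul_le_mul_of_nonneg_right (min_le_left _ _) (by positivity)

theorem dca_sums (K κ : ℝ) (hK : 1 ≤ K) (hκ : 0 < κ) (n m : ℕ) (x : ℝ)
    (h : Wts K κ n m (fun j => x ^ j) (fun j => (j : ℝ) * x ^ (j - 1))) :
    κ * m ≤ SA n x ∧ SA n x ≤ K * m ∧ |SB n x| ≤ K * (m : ℝ) ^ 2 ∧
      κ ^ 2 * (m : ℝ) ^ 4 ≤ SA n x * SC n x - SB n x ^ 2 ∧
      SA n x * SC n x - SB n x ^ 2 ≤ K ^ 3 * (m : ℝ) ^ 4 := by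
  have hm2 := h.hm
  have hm : (2 : ℝ) ≤ m := by exact_mod_cast hm2
  have hm0 : (0 : ℝ) < m := by linarith
  have ha : ∀ j ∈ Finset.range (n + 1), |x ^ j| ≤ 1 := h.ha
  have hb : ∀ j ∈ Finset.range (n + 1), |(j : ℝ) * x ^ (j - 1)| ≤ K * m := h.hb
  have hs : ∑ j ∈ Finset.range (n + 1), (|x ^ j| + |(j : ℝ) * x ^ (j - 1)| / m) ≤ K * m := h.hsum
  rw [Finset.sum_add_distrib, ← Finset.sum_div] at hs
  have sA0 : 0 ≤ ∑ j ∈ Finset.range (n + 1), |x ^ j| := Finset.sum_nonneg (fun j _ => abs_nonneg _)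
  have sB0 : 0 ≤ ∑ j ∈ Finset.range (n + 1), |(j : ℝ) * x ^ (j - 1)| :=
    Finset.sum_nonneg (fun j _ => abs_nonneg _)
  have sA : ∑ j ∈ Finset.range (n + 1), |x ^ j| ≤ K * m := by
    have : 0 ≤ (∑ j ∈ Finset.range (n + 1), |(j : ℝ) * x ^ (j - 1)|) / m := by positivity
    linarith
  have sB : ∑ j ∈ Finset.range (n + 1), |(j : ℝ) * x ^ (j - 1)| ≤ K * m * m := by
    rw [← div_le_iff₀ hm0]
    linarith
  have hSA : SA n x ≤ K * m := by
    refine le_trans ?_ sA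
    unfold SA
    refine Finset.sum_le_sum (fun j hj => ?_)
    rw [← sq_abs, sq]
    exact mul_le_of_le_one_left (abs_nonneg _) (ha j hj)
  have hSB : |SB n x| ≤ K * (m : ℝ) ^ 2 := by
    refine le_trans ?_ (sB.trans (le_of_eq (by ring)))
    unfold SB
    refine (Finset.abs_sum_le_sum_abs _ _).trans ?_
    refine Finset.sum_le_sum (fun j hj => ?_)
    rw [abs_mul]
    exact mul_le_of_le_one_left (abs_nonneg _) (ha j hj)
  have hSC : SC n x ≤ K ^ 2 * (m : ℝ) ^ 3 := by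
    have h1 : SC n x ≤ (K * m) * ∑ j ∈ Finset.range (n + 1), |(j : ℝ) * x ^ (j - 1)| := by
      unfold SC
      rw [Finset.mul_sum]
      refine Finset.sum_le_sum (fun j hj => ?_)
      rw [← sq_abs, sq]
      exact mul_le_mul_of_nonneg_right (hb j hj) (abs_nonneg _)
    refine h1.trans ((mul_le_mul_of_nonneg_left sB (by positivity)).trans (le_of_eq (by ring)))
  have hgr : ∀ s t : ℝ, κ * ((m : ℝ) * s ^ 2 + (m : ℝ) ^ 3 * t ^ 2) ≤
      s ^ 2 * SA n x + 2 * s * t * SB n x + t ^ 2 * SC n x := by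
    intro s t
    rw [← dca_sq_sum]
    exact h.hgram s t
  have hSA1 : κ * m ≤ SA n x := by
    have := hgr 1 0
    nlinarith
  have hSA0 : 0 < SA n x := lt_of_lt_of_le (by positivity) hSA1
  have hSC0 : 0 ≤ SC n x := Finset.sum_nonneg (fun j _ => sq_nonneg _)
  refine ⟨hSA1, hSA, hSB, ?_, ?_⟩
  · have h1 := hgr (-(SB n x / SA n x)) 1
    have h2 : κ * (m : ℝ) ^ 3 ≤ SC n x - SB n x ^ 2 / SA n x := by
      have e1 : (-(SB n x / SA n x)) ^ 2 * SA n x + 2 * (-(SB n x / SA n x)) * 1 * SB n x +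
          1 ^ 2 * SC n x = SC n x - SB n x ^ 2 / SA n x := by
        field_simp
        ring
      rw [e1] at h1
      refine le_trans ?_ h1
      have : 0 ≤ κ * ((m : ℝ) * (-(SB n x / SA n x)) ^ 2) := by positivity
      nlinarith
    have h3 : SA n x * SC n x - SB n x ^ 2 = SA n x * (SC n x - SB n x ^ 2 / SA n x) := by
      field_simp
    rw [h3]
    calc κ ^ 2 * (m : ℝ) ^ 4 = (κ * m) * (κ * (m : ℝ) ^ 3) := by ring
      _ ≤ SA n x * (SC n x - SB n x ^ 2 / SA n x) :=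
        mul_le_mul hSA1 h2 (by positivity) hSA0.le
  · calc SA n x * SC n x - SB n x ^ 2 ≤ SA n x * SC n x := by nlinarith [sq_nonneg (SB n x)]
      _ ≤ (K * m) * (K ^ 2 * (m : ℝ) ^ 3) := mul_le_mul hSA hSC hSC0 (by positivity)
      _ = K ^ 3 * (m : ℝ) ^ 4 := by ring

theorem dca_bdX (μ : Measure ℝ) (c0 c : ℝ) (hc : 0 < c)
    (hch : ∀ θ : ℝ, |θ| ≤ c0 → ‖charFun μ θ‖ ≤ Real.exp (-c * θ ^ 2)) (K κ : ℝ) (n m : ℕ)
    (α β : ℕ → ℝ) (h : Wts K κ n m α β) (s : ℝ) (hs : |s| ≤ c0) :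
    ‖PhiX μ n α β s 0‖ ≤ Real.exp (-(c * κ * m) * s ^ 2) := by
  unfold PhiX
  rw [norm_prod]
  have h1 : ∏ j ∈ Finset.range (n + 1), ‖charFun μ (s * α j + 0 * β j)‖ ≤
      ∏ j ∈ Finset.range (n + 1), Real.exp (-c * (s * α j + 0 * β j) ^ 2) := by
    refine Finset.prod_le_prod (fun j _ => norm_nonneg _) (fun j hj => hch _ ?_)
    rw [zero_mul, add_zero, abs_mul]
    exact (mul_le_of_le_one_right (abs_nonneg _) (h.ha j hj)).trans hs
  refine h1.trans ?_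
  rw [← Real.exp_sum, ← Finset.mul_sum]
  apply Real.exp_le_exp.mpr
  have h2 := h.hgram s 0
  have h3 := mul_le_mul_of_nonneg_left h2 hc.le
  nlinarith

theorem dca_bdG (μ : Measure ℝ) (L : ℝ) (hL : 1 / 2 ≤ sig2 μ L) (K κ : ℝ) (n m : ℕ)
    (α β : ℕ → ℝ) (h : Wts K κ n m α β) (s : ℝ) (hκ : 0 < κ) :
    ‖PhiG μ L n α β s 0‖ ≤ Real.exp (-(κ * m / 4) * s ^ 2) := by
  unfold PhiG gam
  rw [norm_prod]
  have h1 : ∀ j, ‖Complex.exp (-((sig2 μ L * (s * α j + 0 * β j) ^ 2 / 2 : ℝ) : ℂ))‖ =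
      Real.exp (-(sig2 μ L / 2) * (s * α j + 0 * β j) ^ 2) := by
    intro j
    rw [Complex.norm_exp]
    congr 1
    rw [Complex.neg_re, Complex.ofReal_re]
    ring
  simp only [h1]
  rw [← Real.exp_sum, ← Finset.mul_sum]
  apply Real.exp_le_exp.mpr
  have h2 := h.hgram s 0
  have h4 : 0 ≤ κ * ((m : ℝ) * s ^ 2 + (m : ℝ) ^ 3 * 0 ^ 2) := by positivity
  have h3 := mul_le_mul (show (1 / 4 : ℝ) ≤ sig2 μ L / 2 by linarith) h2 h4 (by linarith)
  nlinarith

/-! TARGET -/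
theorem density_compare (μ : Measure ℝ) (hμ : Std μ) : DComp μ := by
  have hprob := hμ.prob
  obtain ⟨c0, hc0, c, hc, hch⟩ := char_bound μ hμ
  obtain ⟨K, κ, hK, hκ, hκ1, hW⟩ := dca_wts
  obtain ⟨a0, ha0, hF⟩ := fComp μ hμ K κ (by linarith) hκ
  obtain ⟨a, ha, haa, hac⟩ : ∃ a > 0, a ≤ a0 ∧ a ≤ c0 :=
    ⟨min a0 c0, lt_min ha0 hc0, min_le_left _ _, min_le_right _ _⟩
  obtain ⟨CF, hCF, m0, hF⟩ := hF a ha haa
  obtain ⟨CG, hCG, hG⟩ := gauss_eval (K ^ 3) (κ ^ 2) a (by positivity) (by positivity) ha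
  obtain ⟨hsig1, m1, hsig⟩ := dca_sig2 μ hμ
  have hcst := cst_pos
  refine ⟨a, ha, 4 / (cst * a) * (1 / (2 * cst)) * (Real.sqrt (Real.pi / (c * κ)) +
    Real.sqrt (Real.pi / (κ / 4))) + CF / (2 * cst ^ 2) + CG, by positivity, max m0 m1, ?_⟩
  intro n m x hm hadm
  have hw := hW n m x hadm
  obtain ⟨hA1, hA2, hB1, hD1, hD2⟩ := dca_sums K κ hK hκ n m x hw
  have hm2 : 2 ≤ m := hadm.1
  have hmR : (2 : ℝ) ≤ m := by exact_mod_cast hm2
  have hm0 : (0 : ℝ) < m := by linarith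
  have hm1 : (1 : ℝ) ≤ m := by linarith
  have hsg := hsig m ((le_max_right _ _).trans hm)
  have hsg1 := hsig1 (Real.sqrt m)
  have hSA0 : 0 < SA n x := lt_of_lt_of_le (by positivity) hA1
  have hD0 : 0 ≤ SA n x * SC n x - SB n x ^ 2 := le_trans (by positivity) hD1
  have p1 := dcaLaw_prob μ hμ n x
  have p2 := dcaG_prob (SA n x) (SB n x) (SA n x * SC n x - SB n x ^ 2)
    (Real.sqrt (sig2 μ (Real.sqrt m)))
  have hAA : 0 ≤ AA μ m := by
    unfold AA
    refine integral_nonneg (fun y => ?_)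
    simp only [Pi.zero_apply]
    refine mul_nonneg (sq_nonneg _) (le_min ?_ ?_) <;> positivity
  have hT : 0 < a / m := by positivity
  have hBn : 0 ≤ CF * m * (AA μ m + (m : ℝ) ^ (-(1 / 2) : ℝ)) := by positivity
  have hcomb := dca_combine (dcaLaw μ n x) (dcaG (SA n x) (SB n x) (SA n x * SC n x - SB n x ^ 2)
    (Real.sqrt (sig2 μ (Real.sqrt m)))) (dcaLaw_int μ hμ n x) (dcaG_int _ _ _ _) a (a / m)
    (CF * m * (AA μ m + (m : ℝ) ^ (-(1 / 2) : ℝ))) ha hT hBn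
    (PhiX μ n (fun j => x ^ j) (fun j => (j : ℝ) * x ^ (j - 1)))
    (PhiG μ (Real.sqrt m) n (fun j => x ^ j) (fun j => (j : ℝ) * x ^ (j - 1)))
    (fun s t => dcaLaw_char μ hμ n x s t)
    (fun s t => dcaG_char μ (Real.sqrt m) (by linarith) n x s t hSA0 hD0)
    (hF n m _ _ ((le_max_left _ _).trans hm) hw) (c * κ * m) (κ * m / 4) (by positivity)
    (by positivity) (fun s hs => dca_bdX μ c0 c hc hch K κ n m _ _ hw s (hs.trans hac))
    (fun s _ => dca_bdG μ (Real.sqrt m) hsg K κ n m _ _ hw s hκ)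
  rw [dcaLaw_fej μ n x a ha, dcaG_fej _ _ _ _ a ha] at hcomb
  have hKK : K ≤ K ^ 3 := by
    calc K = K ^ 1 := (pow_one K).symm
      _ ≤ K ^ 3 := pow_le_pow_right₀ hK (by norm_num)
  have hκκ : κ ^ 2 ≤ κ := by nlinarith
  have hg := hG m (SA n x) (SB n x) (SA n x * SC n x - SB n x ^ 2)
    (Real.sqrt (sig2 μ (Real.sqrt m))) hm2
    ((mul_le_mul_of_nonneg_right hκκ hm0.le).trans hA1)
    (hA2.trans (mul_le_mul_of_nonneg_right hKK hm0.le))
    (hB1.trans (mul_le_mul_of_nonneg_right hKK (by positivity))) hD1 hD2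
    (by rw [Real.sq_sqrt (by linarith)]; exact hsg)
    (by rw [Real.sq_sqrt (by linarith)]; exact hsg1)
    (Real.sqrt_pos.mpr (by linarith))
  -- powers of m
  have e0 : 1 / (Real.pi) * Real.sqrt (SA n x * SC n x - SB n x ^ 2) / SA n x = rho n x := rfl
  rw [e0] at hg
  obtain ⟨r, hr⟩ : ∃ r : ℝ, r = (m : ℝ) ^ (-(1 / 2) : ℝ) := ⟨_, rfl⟩
  obtain ⟨q, hq⟩ : ∃ q : ℝ, q = (m : ℝ) ^ (-(1 / 4) : ℝ) := ⟨_, rfl⟩
  have hr0 : 0 < r := by rw [hr]; positivity
  have hq0 : 0 < q := by rw [hq]; positivity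
  have hrq : r ≤ q := by
    rw [hr, hq]
    exact Real.rpow_le_rpow_of_exponent_le hm1 (by norm_num)
  have e34 : (m : ℝ) ^ (3 / 4 : ℝ) = m * q := by
    rw [hq]
    nth_rw 2 [← Real.rpow_one (m : ℝ)]
    rw [← Real.rpow_add hm0]
    norm_num
  have esq : ∀ b : ℝ, 0 < b → Real.sqrt (Real.pi / (b * m)) = Real.sqrt (Real.pi / b) * r := by
    intro b hb
    have h1 : Real.pi / (b * m) = Real.pi / b * (m : ℝ)⁻¹ := by
      field_simp
    have h2 : Real.sqrt ((m : ℝ)⁻¹) = r := by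
      rw [hr, Real.sqrt_eq_rpow, ← Real.rpow_neg_one, ← Real.rpow_mul hm0.le]
      norm_num
    rw [h1, Real.sqrt_mul (by positivity), h2]
  have e1 := esq (c * κ) (by positivity)
  have e2 := esq (κ / 4) (by positivity)
  have e3 : κ * m / 4 = κ / 4 * m := by ring
  rw [e3, e1, e2, ← hr] at hcomb
  rw [← hq]
  rw [e34] at hg
  have e4 : 4 / (cst * (a / m)) = 4 / (cst * a) * m := by
    field_simp
  rw [e4] at hcomb
  generalize ∫ ω, |D1 n ω x| * fej a (D0 n ω x) ∂(PP μ) = I1 at hcomb ⊢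
  generalize ∫ z, |VG (SA n x) (SB n x) (SA n x * SC n x - SB n x ^ 2)
    (Real.sqrt (sig2 μ (Real.sqrt m))) z| * fej a (UG (SA n x)
    (Real.sqrt (sig2 μ (Real.sqrt m))) z) ∂((gaussianReal 0 1).prod (gaussianReal 0 1)) = I2
    at hcomb hg
  generalize rho n x = R at hg ⊢
  have hS1 : 0 ≤ Real.sqrt (Real.pi / (c * κ)) := Real.sqrt_nonneg _
  have hS2 : 0 ≤ Real.sqrt (Real.pi / (κ / 4)) := Real.sqrt_nonneg _
  generalize Real.sqrt (Real.pi / (c * κ)) = S1 at *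
  generalize Real.sqrt (Real.pi / (κ / 4)) = S2 at *
  have hE : 0 ≤ 4 / (cst * a) := by positivity
  have hE2 : 0 ≤ 1 / (2 * cst) := by positivity
  have hE3 : 0 ≤ CF / (2 * cst ^ 2) := by positivity
  have e5 : CF * m * (AA μ m + r) / (2 * cst ^ 2) = CF / (2 * cst ^ 2) * (m * (AA μ m + r)) := by
    ring
  rw [e5] at hcomb
  generalize 4 / (cst * a) = E at *
  generalize 1 / (2 * cst) = E2 at *
  generalize CF / (2 * cst ^ 2) = E3 at *
  generalize AA μ m = Q at *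
  have tri : |I1 - R| ≤ |I1 - I2| + |I2 - R| := abs_sub_le _ _ _
  have b1 : E * m * (E2 * (S1 * r)) + E * m * (E2 * (S2 * r)) ≤ E * E2 * (S1 + S2) * m * (Q + q) := by
    have h1 : E * m * (E2 * (S1 * r)) + E * m * (E2 * (S2 * r)) = E * E2 * (S1 + S2) * m * r := by
      ring
    rw [h1]
    exact mul_le_mul_of_nonneg_left (by linarith) (by positivity)
  have b2 : E3 * (m * (Q + r)) ≤ E3 * m * (Q + q) := by
    rw [← mul_assoc]
    exact mul_le_mul_of_nonneg_left (by linarith) (by positivity)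
  have b3 : CG * (m * q) ≤ CG * m * (Q + q) := by
    rw [← mul_assoc]
    exact mul_le_mul_of_nonneg_left (by linarith) (by positivity)
  calc |I1 - R| ≤ E * E2 * (S1 + S2) * m * (Q + q) + E3 * m * (Q + q) + CG * m * (Q + q) := by
        linarith
    _ = (E * E2 * (S1 + S2) + E3 + CG) * m * (Q + q) := by ring


end K4
end Kac764
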