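import Pool.Agent.Helper764.KacDefs

set_option autoImplicit false
set_option maxHeartbeats 4000000
open MeasureTheory ProbabilityTheory Filter Topology Set
open scoped ENNReal NNReal

namespace Kac764
namespace J1

theorem ne_zero_10964 {p : Polynomial ℝ} (hp : p.derivative ≠ 0) (c : ℝ) :
    p + Polynomial.C c ≠ 0 := by
  intro h
  apply hp
  have h1 : (p + Polynomial.C c).derivative = 0 := by rw [h, Polynomial.derivative_zero]
  rwa [Polynomial.derivative_add, Polynomial.derivative_C, add_zero] at h1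

theorem zeros_finite_10964 {q : Polynomial ℝ} (S : Set ℝ) :
    {x : ℝ | x ∈ S ∧ q ≠ 0 ∧ q.eval x = 0}.Finite := by
  by_cases hq : q = 0
  · have : {x : ℝ | x ∈ S ∧ q ≠ 0 ∧ q.eval x = 0} = ∅ := by
      ext x
      simp [hq]
    rw [this]
    exact Set.finite_empty
  · refine (q.roots.toFinset.finite_toSet).subset ?_
    rintro x ⟨-, h1, h2⟩
    simp only [Finset.mem_coe, Multiset.mem_toFinset]
    exact (Polynomial.mem_roots h1).2 h2

/-- the statement for the interval `(a, b)` -/
def Pst_10964 (p : Polynomial ℝ) (g : ℝ → ℝ≥0∞) (a b : ℝ) : Prop :=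
  AEMeasurable (fun c : ℝ => (nz (p + Polynomial.C c) (Ioo a b) : ℝ≥0∞)) volume ∧
    ∫⁻ c, (nz (p + Polynomial.C c) (Ioo a b) : ℝ≥0∞) * g c
      = ∫⁻ x in Ioo a b, ENNReal.ofReal |p.derivative.eval x| * g (-p.eval x)

theorem base_10964 (p : Polynomial ℝ) (hp : p.derivative ≠ 0) (g : ℝ → ℝ≥0∞) (hg : Measurable g)
    (a b : ℝ) (hcrit : ∀ x ∈ Ioo a b, p.derivative.eval x ≠ 0) : Pst_10964 p g a b := by
  classical
  have hinj : InjOn (fun x => p.eval x) (Ioo a b) := by
    have key : ∀ x ∈ Ioo a b, ∀ y ∈ Ioo a b, x < y → p.eval x ≠ p.eval y := by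
      intro x hx y hy hxy heq
      obtain ⟨c, hc, h0⟩ := exists_hasDerivAt_eq_zero (f := fun x => p.eval x)
        (f' := fun x => p.derivative.eval x) hxy p.continuous.continuousOn heq
        (fun x _ => p.hasDerivAt x)
      exact hcrit c ⟨hx.1.trans hc.1, hc.2.trans hy.2⟩ h0
    intro x hx y hy hxy
    rcases lt_trichotomy x y with h | h | h
    · exact absurd hxy (key x hx y hy h)
    · exact h
    · exact absurd hxy.symm (key y hy x hx h)
  set I : Set ℝ := (fun x => p.eval x) '' Ioo a b with hI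
  have hIm : MeasurableSet I :=
    measurableSet_Ioo.image_of_continuousOn_injOn p.continuous.continuousOn hinj
  set S : Set ℝ := Neg.neg ⁻¹' I with hS
  have hSm : MeasurableSet S := measurable_neg hIm
  have hnz : ∀ c : ℝ, (nz (p + Polynomial.C c) (Ioo a b) : ℝ≥0∞) = S.indicator 1 c := by
    intro c
    by_cases hc : c ∈ S
    · rw [Set.indicator_of_mem hc]
      obtain ⟨x, hx, hxc⟩ := hc
      have hxc' : p.eval x = -c := hxc
      have e : {x : ℝ | x ∈ Ioo a b ∧ p + Polynomial.C c ≠ 0 ∧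
          (p + Polynomial.C c).eval x = 0} = {x} := by
        ext y
        constructor
        · rintro ⟨h1, -, h3⟩
          rw [Polynomial.eval_add, Polynomial.eval_C] at h3
          have h4 : p.eval y = p.eval x := by rw [hxc']; linarith
          exact hinj h1 hx h4
        · intro h
          rw [Set.mem_singleton_iff] at h
          subst h
          refine ⟨hx, ne_zero_10964 hp c, ?_⟩
          rw [Polynomial.eval_add, Polynomial.eval_C, hxc']
          ring
      unfold nz
      rw [e, Set.ncard_singleton]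
      simp
    · rw [Set.indicator_of_notMem hc]
      have e : {x : ℝ | x ∈ Ioo a b ∧ p + Polynomial.C c ≠ 0 ∧
          (p + Polynomial.C c).eval x = 0} = ∅ := by
        rw [Set.eq_empty_iff_forall_notMem]
        rintro y ⟨h1, -, h3⟩
        rw [Polynomial.eval_add, Polynomial.eval_C] at h3
        apply hc
        refine ⟨y, h1, ?_⟩
        show p.eval y = -c
        linarith
      unfold nz
      rw [e, Set.ncard_empty]
      simp
  constructor
  · simp only [hnz]
    exact (measurable_one.indicator hSm).aemeasurable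
  · simp only [hnz]
    have e1 : ∀ c, S.indicator (1 : ℝ → ℝ≥0∞) c * g c = S.indicator g c := by
      intro c
      by_cases hc : c ∈ S
      · rw [Set.indicator_of_mem hc, Set.indicator_of_mem hc, Pi.one_apply, one_mul]
      · rw [Set.indicator_of_notMem hc, Set.indicator_of_notMem hc, zero_mul]
    simp only [e1]
    rw [lintegral_indicator hSm]
    have e2 := (Measure.measurePreserving_neg (volume : Measure ℝ)).setLIntegral_comp_preimage
      hIm (f := fun y => g (-y)) (hg.comp measurable_neg)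
    simp only [neg_neg] at e2
    have e3 : ∫⁻ c in S, g c = ∫⁻ y in I, g (-y) := e2
    rw [e3, hI]
    exact lintegral_image_eq_lintegral_abs_deriv_mul measurableSet_Ioo
      (fun x _ => (p.hasDerivAt x).hasDerivWithinAt) hinj (fun y => g (-y))

theorem step_10964 (p : Polynomial ℝ) (hp : p.derivative ≠ 0) (g : ℝ → ℝ≥0∞) (hg : Measurable g)
    (a z b : ℝ) (haz : a < z) (hzb : z < b) (h1 : Pst_10964 p g a z) (h2 : Pst_10964 p g z b) :
    Pst_10964 p g a b := by
  have hae : ∀ᵐ c : ℝ, (nz (p + Polynomial.C c) (Ioo a b) : ℝ≥0∞) =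
      (nz (p + Polynomial.C c) (Ioo a z) : ℝ≥0∞) + (nz (p + Polynomial.C c) (Ioo z b) : ℝ≥0∞) := by
    have hne : ∀ᵐ c : ℝ, c ≠ -p.eval z := Measure.ae_ne volume (-p.eval z)
    filter_upwards [hne] with c hc
    unfold nz
    have e : {x : ℝ | x ∈ Ioo a b ∧ p + Polynomial.C c ≠ 0 ∧ (p + Polynomial.C c).eval x = 0} =
        {x : ℝ | x ∈ Ioo a z ∧ p + Polynomial.C c ≠ 0 ∧ (p + Polynomial.C c).eval x = 0} ∪
        {x : ℝ | x ∈ Ioo z b ∧ p + Polynomial.C c ≠ 0 ∧ (p + Polynomial.C c).eval x = 0} := by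
      ext x
      constructor
      · rintro ⟨h3, h4, h5⟩
        rcases lt_trichotomy x z with h | h | h
        · exact Or.inl ⟨⟨h3.1, h⟩, h4, h5⟩
        · exfalso
          rw [h, Polynomial.eval_add, Polynomial.eval_C] at h5
          apply hc
          linarith
        · exact Or.inr ⟨⟨h, h3.2⟩, h4, h5⟩
      · rintro (⟨h3, h4, h5⟩ | ⟨h3, h4, h5⟩)
        · exact ⟨⟨h3.1, h3.2.trans hzb⟩, h4, h5⟩
        · exact ⟨⟨haz.trans h3.1, h3.2⟩, h4, h5⟩
    rw [e, Set.ncard_union_eq ?_ (zeros_finite_10964 _) (zeros_finite_10964 _)]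
    · push_cast
      rfl
    · rw [Set.disjoint_left]
      rintro x ⟨h3, -, -⟩ ⟨h4, -, -⟩
      exact lt_asymm h3.2 h4.1
  constructor
  · exact (h1.1.add h2.1).congr (hae.mono fun c hc => hc.symm)
  · have e1 : ∫⁻ c, (nz (p + Polynomial.C c) (Ioo a b) : ℝ≥0∞) * g c =
        ∫⁻ c, ((nz (p + Polynomial.C c) (Ioo a z) : ℝ≥0∞) * g c +
          (nz (p + Polynomial.C c) (Ioo z b) : ℝ≥0∞) * g c) := by
      refine lintegral_congr_ae (hae.mono fun c hc => ?_)
      simp only
      rw [hc, add_mul]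
    have hm : AEMeasurable (fun c : ℝ => (nz (p + Polynomial.C c) (Ioo a z) : ℝ≥0∞) * g c) volume :=
      h1.1.mul hg.aemeasurable
    rw [e1, lintegral_add_left' hm, h1.2, h2.2,
      ← Ioc_union_Ioo_eq_Ioo haz.le hzb, lintegral_union measurableSet_Ioo ?_]
    · congr 1
      exact setLIntegral_congr Ioo_ae_eq_Ioc
    · rw [Set.disjoint_left]
      intro x h3 h4
      exact absurd h3.2 (not_le.2 h4.1)

theorem all_10964 (p : Polynomial ℝ) (hp : p.derivative ≠ 0) (g : ℝ → ℝ≥0∞) (hg : Measurable g)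
    (n : ℕ) : ∀ a b : ℝ,
      {x : ℝ | x ∈ Ioo a b ∧ p.derivative ≠ 0 ∧ p.derivative.eval x = 0}.ncard ≤ n →
      Pst_10964 p g a b := by
  induction n with
  | zero =>
    intro a b h
    refine base_10964 p hp g hg a b fun x hx h0 => ?_
    have h1 := (Set.ncard_eq_zero (zeros_finite_10964 _)).1 (Nat.le_zero.1 h)
    have h2 : x ∈ {x : ℝ | x ∈ Ioo a b ∧ p.derivative ≠ 0 ∧ p.derivative.eval x = 0} :=
      ⟨hx, hp, h0⟩
    rw [h1] at h2
    exact h2
  | succ n ih =>
    intro a b h
    by_cases hc : ∃ z ∈ Ioo a b, p.derivative.eval z = 0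
    · obtain ⟨z, hz, hz0⟩ := hc
      refine step_10964 p hp g hg a z b hz.1 hz.2 (ih a z ?_) (ih z b ?_)
      · have hlt : {x : ℝ | x ∈ Ioo a z ∧ p.derivative ≠ 0 ∧ p.derivative.eval x = 0}.ncard <
            {x : ℝ | x ∈ Ioo a b ∧ p.derivative ≠ 0 ∧ p.derivative.eval x = 0}.ncard := by
          refine Set.ncard_lt_ncard ?_ (zeros_finite_10964 _)
          rw [Set.ssubset_iff_of_subset]
          · exact ⟨z, ⟨hz, hp, hz0⟩, fun h' => lt_irrefl _ h'.1.2⟩
          · rintro x ⟨h3, h4, h5⟩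
            exact ⟨⟨h3.1, h3.2.trans hz.2⟩, h4, h5⟩
        omega
      · have hlt : {x : ℝ | x ∈ Ioo z b ∧ p.derivative ≠ 0 ∧ p.derivative.eval x = 0}.ncard <
            {x : ℝ | x ∈ Ioo a b ∧ p.derivative ≠ 0 ∧ p.derivative.eval x = 0}.ncard := by
          refine Set.ncard_lt_ncard ?_ (zeros_finite_10964 _)
          rw [Set.ssubset_iff_of_subset]
          · exact ⟨z, ⟨hz, hp, hz0⟩, fun h' => lt_irrefl _ h'.1.1⟩
          · rintro x ⟨h3, h4, h5⟩
            exact ⟨⟨hz.1.trans h3.1, h3.2⟩, h4, h5⟩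
        omega
    · push Not at hc
      exact base_10964 p hp g hg a b hc

/-- Banach indicatrix formula for polynomials. -/
theorem banach_indicatrix (p : Polynomial ℝ) (a b : ℝ) (hab : a < b)
    (g : ℝ → ℝ≥0∞) (hg : Measurable g) :
    ∫⁻ c, (nz (p + Polynomial.C c) (Ioo a b) : ℝ≥0∞) * g c
      = ∫⁻ x in Ioo a b, ENNReal.ofReal |p.derivative.eval x| * g (-p.eval x) := by
  by_cases hp : p.derivative = 0
  · have h1 : ∀ c : ℝ, (nz (p + Polynomial.C c) (Ioo a b) : ℝ≥0∞) = 0 := by
      intro c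
      have hp' := Polynomial.derivative_eq_zero.1 hp
      obtain ⟨k, hk⟩ := Polynomial.natDegree_eq_zero.1 hp'
      unfold nz
      have e : {x : ℝ | x ∈ Ioo a b ∧ p + Polynomial.C c ≠ 0 ∧
          (p + Polynomial.C c).eval x = 0} = ∅ := by
        rw [Set.eq_empty_iff_forall_notMem]
        rintro y ⟨-, h2, h3⟩
        apply h2
        rw [← hk, ← Polynomial.C_add] at h3 ⊢
        rw [Polynomial.eval_C] at h3
        rw [h3, Polynomial.C_0]
      rw [e, Set.ncard_empty]
      simp
    simp only [h1, zero_mul, lintegral_zero, hp, Polynomial.eval_zero, abs_zero,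
      ENNReal.ofReal_zero]
  · exact (all_10964 p hp g hg _ a b le_rfl).2


end J1
end Kac764
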