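import Pool.Agent.Helper764.KacDefs
import Pool.Agent.Helper764.KacJ6
import Pool.Agent.Helper764.KacJ4
import Pool.Agent.Helper764.KacJ1
import Pool.Agent.Helper764.KacP6
import Pool.Agent.Helper764.KacK1

set_option autoImplicit false
set_option maxHeartbeats 4000000
open MeasureTheory ProbabilityTheory Filter Topology Set
open scoped ENNReal NNReal

namespace Kac764
namespace K5
open Kac764.J6
open Kac764.J4
open Kac764.J1
open Kac764.P6
open Kac764.K1

/-! The following are GIVEN (being proved in other jobs): leave them as `sorry`. -/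
/-! TARGETS -/

theorem kac_update (n : ℕ) (ω : ℕ → ℝ) (c : ℝ) :
    kac n (Function.update ω 0 (ω 0 + c)) = kac n ω + Polynomial.C c := by
  unfold kac
  rw [Finset.sum_range_succ', Finset.sum_range_succ']
  simp only [ne_eq, Nat.add_eq_zero_iff, one_ne_zero, and_false, not_false_eq_true,
    Function.update_of_ne, Function.update_self, pow_zero, mul_one, Polynomial.C_add]
  ring

theorem measurable_joint (n : ℕ) (a b : ℝ) :
    Measurable fun p : ℝ × (ℕ → ℝ) =>
      (nz (kac n p.2 + Polynomial.C p.1) (Ioo a b) : ℝ≥0∞) := by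
  have h1 : Measurable fun p : ℝ × (ℕ → ℝ) => Function.update p.2 0 (p.2 0 + p.1) := by
    rw [measurable_pi_iff]
    intro j
    by_cases hj : j = 0
    · subst hj
      simp only [Function.update_self]
      fun_prop
    · simp only [ne_eq, hj, not_false_eq_true, Function.update_of_ne]
      fun_prop
  have h2 := (measurable_nz n a b).comp h1
  have h3 : (fun p : ℝ × (ℕ → ℝ) => (nz (kac n p.2 + Polynomial.C p.1) (Ioo a b) : ℝ≥0∞)) =
      fun p => (((fun ω : ℕ → ℝ => nz (kac n ω) (Ioo a b)) ∘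
        fun p : ℝ × (ℕ → ℝ) => Function.update p.2 0 (p.2 0 + p.1)) p : ℝ≥0∞) := by
    funext p
    simp only [Function.comp]
    rw [kac_update]
  rw [h3]
  exact (measurable_of_countable (fun k : ℕ => (k : ℝ≥0∞))).comp h2

/-- (T1) Kac-Rice type formula for the randomly shifted polynomial. -/
theorem shifted_kacrice (μ : Measure ℝ) (hμ : Std μ) (n : ℕ) (a b A : ℝ) (hab : a < b) (hA : 0 < A)
    (τ : ℝ) :
    ∫⁻ c in {c : ℝ | τ < |c|}, (∫⁻ ω, (nz (kac n ω + Polynomial.C c) (Ioo a b) : ℝ≥0∞) ∂(PP μ))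
        * ENNReal.ofReal (fej A c)
      = ∫⁻ x in Ioo a b, ∫⁻ ω in {ω | τ < |D0 n ω x|},
          ENNReal.ofReal (|D1 n ω x| * fej A (D0 n ω x)) ∂(PP μ) := by
  haveI := hμ.prob
  have hfm : Measurable fun c : ℝ => ENNReal.ofReal (fej A c) :=
    (ENNReal.continuous_ofReal.comp (fej_continuous A hA)).measurable
  have hset : MeasurableSet {c : ℝ | τ < |c|} :=
    measurableSet_lt measurable_const (measurable_norm)
  set g : ℝ → ℝ≥0∞ := {c : ℝ | τ < |c|}.indicator fun c => ENNReal.ofReal (fej A c) with hg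
  have hgm : Measurable g := hfm.indicator hset
  have hD0 : Measurable fun p : (ℕ → ℝ) × ℝ => D0 n p.1 p.2 := by
    unfold D0
    fun_prop
  have hD1 : Measurable fun p : (ℕ → ℝ) × ℝ => D1 n p.1 p.2 := by
    unfold D1
    fun_prop
  calc ∫⁻ c in {c : ℝ | τ < |c|},
        (∫⁻ ω, (nz (kac n ω + Polynomial.C c) (Ioo a b) : ℝ≥0∞) ∂(PP μ)) * ENNReal.ofReal (fej A c)
      = ∫⁻ c, ∫⁻ ω, (nz (kac n ω + Polynomial.C c) (Ioo a b) : ℝ≥0∞) * g c ∂(PP μ) := by
        rw [← lintegral_indicator hset]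
        refine lintegral_congr fun c => ?_
        by_cases hc : c ∈ {c : ℝ | τ < |c|}
        · rw [indicator_of_mem hc, hg, indicator_of_mem hc,
            lintegral_mul_const' _ _ ENNReal.ofReal_ne_top]
        · rw [indicator_of_notMem hc, hg, indicator_of_notMem hc]
          simp
    _ = ∫⁻ ω, (∫⁻ c, (nz (kac n ω + Polynomial.C c) (Ioo a b) : ℝ≥0∞) * g c) ∂(PP μ) := by
        rw [lintegral_lintegral_swap]
        apply Measurable.aemeasurable
        exact (measurable_joint n a b).mul (hgm.comp measurable_fst)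
    _ = ∫⁻ ω, (∫⁻ x in Ioo a b, ENNReal.ofReal |D1 n ω x| * g (D0 n ω x)) ∂(PP μ) := by
        refine lintegral_congr fun ω => ?_
        rw [banach_indicatrix (kac n ω) a b hab g hgm]
        refine lintegral_congr fun x => ?_
        rw [kac_deriv_eval, kac_eval]
        congr 1
        rw [hg]
        by_cases hc : τ < |D0 n ω x|
        · have h1 : -D0 n ω x ∈ {c : ℝ | τ < |c|} := by
            rw [mem_setOf_eq, abs_neg]
            exact hc
          rw [indicator_of_mem h1, indicator_of_mem (show D0 n ω x ∈ {c : ℝ | τ < |c|} from hc),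
            fej_neg]
        · have h1 : -D0 n ω x ∉ {c : ℝ | τ < |c|} := by
            rw [mem_setOf_eq, abs_neg]
            exact hc
          rw [indicator_of_notMem h1,
            indicator_of_notMem (show D0 n ω x ∉ {c : ℝ | τ < |c|} from hc)]
    _ = ∫⁻ x in Ioo a b, ∫⁻ ω, ENNReal.ofReal |D1 n ω x| * g (D0 n ω x) ∂(PP μ) := by
        rw [lintegral_lintegral_swap]
        apply Measurable.aemeasurable
        refine Measurable.mul ?_ (hgm.comp hD0)
        exact ENNReal.measurable_ofReal.comp (measurable_norm.comp hD1)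
    _ = ∫⁻ x in Ioo a b, ∫⁻ ω in {ω | τ < |D0 n ω x|},
          ENNReal.ofReal (|D1 n ω x| * fej A (D0 n ω x)) ∂(PP μ) := by
        refine lintegral_congr fun x => ?_
        have hms : MeasurableSet {ω : ℕ → ℝ | τ < |D0 n ω x|} :=
          hset.preimage (hD0.comp (measurable_id.prodMk measurable_const))
        rw [← lintegral_indicator hms]
        refine lintegral_congr fun ω => ?_
        by_cases hc : τ < |D0 n ω x|
        · rw [indicator_of_mem (show ω ∈ {ω : ℕ → ℝ | τ < |D0 n ω x|} from hc), hg,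
            indicator_of_mem (show D0 n ω x ∈ {c : ℝ | τ < |c|} from hc),
            ENNReal.ofReal_mul (abs_nonneg _)]
        · rw [indicator_of_notMem (show ω ∉ {ω : ℕ → ℝ | τ < |D0 n ω x|} from hc), hg,
            indicator_of_notMem (show D0 n ω x ∉ {c : ℝ | τ < |c|} from hc), mul_zero]

theorem nz_mono (p : Polynomial ℝ) {S T : Set ℝ} (h : S ⊆ T) : nz p S ≤ nz p T := by
  unfold nz
  apply Set.ncard_le_ncard
  · exact fun x hx => ⟨h hx.1, hx.2⟩
  · by_cases hp : p = 0
    · have : {x : ℝ | x ∈ T ∧ p ≠ 0 ∧ p.eval x = 0} = ∅ := by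
        ext x
        simp [hp]
      rw [this]
      exact finite_empty
    · refine (p.roots.toFinset.finite_toSet).subset ?_
      intro x hx
      simp only [Finset.mem_coe, Multiset.mem_toFinset]
      exact (Polynomial.mem_roots hp).mpr hx.2.2

theorem natDegree_kac_deriv (n : ℕ) (ω : ℕ → ℝ) : (kac n ω).derivative.natDegree ≤ n := by
  have h1 : (kac n ω).natDegree ≤ n := by
    unfold kac
    apply Polynomial.natDegree_sum_le_of_forall_le
    intro j hj
    refine (Polynomial.natDegree_C_mul_X_pow_le _ _).trans ?_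
    have := Finset.mem_range.mp hj
    omega
  have h2 := Polynomial.natDegree_derivative_le (kac n ω)
  omega

theorem split_le (N : ℕ) (l : ℝ) (hl : 0 < l) :
    (N : ℝ≥0∞) ≤ ENNReal.ofReal l + (N : ℝ≥0∞) ^ 8 * ENNReal.ofReal ((l ^ 7)⁻¹) := by
  have h1 : (N : ℝ≥0∞) = ENNReal.ofReal (N : ℝ) := by simp
  rw [h1, ← ENNReal.ofReal_pow (by positivity), ← ENNReal.ofReal_mul (by positivity),
    ← ENNReal.ofReal_add hl.le (by positivity)]
  apply ENNReal.ofReal_le_ofReal
  by_cases h : (N : ℝ) ≤ l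
  · have : 0 ≤ (N : ℝ) ^ 8 * (l ^ 7)⁻¹ := by positivity
    linarith
  · push Not at h
    have h2 : l ^ 7 ≤ (N : ℝ) ^ 7 := by gcongr
    have h3 : (N : ℝ) ≤ (N : ℝ) ^ 8 * (l ^ 7)⁻¹ := by
      rw [← div_eq_mul_inv, le_div_iff₀ (by positivity)]
      calc (N : ℝ) * l ^ 7 ≤ N * (N : ℝ) ^ 7 := by gcongr
        _ = (N : ℝ) ^ 8 := by ring
    linarith

/-- (T2) expected number of zeros of the derivative on a set of small probability. -/
theorem small_set (μ : Measure ℝ) (hμ : Std μ) (hL : LogZ μ) (hC : Crude μ) :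
    ∃ C > 0, ∀ (n m : ℕ) (a b : ℝ), Win n m a b → ∀ B : Set (ℕ → ℝ), MeasurableSet B →
      ∫⁻ ω in B, (1 + (nz (kac n ω).derivative (Icc a b) : ℝ≥0∞)) ∂(PP μ)
        ≤ ENNReal.ofReal (C * ((1 + Real.log m) * (PP μ).real B + (m : ℝ) ^ (-(1 / 10) : ℝ))) := by
  haveI := hμ.prob
  obtain ⟨C1, hC1, hL⟩ := hL
  obtain ⟨C2, hC2, hCr⟩ := hC
  refine ⟨1 + 5 * C1 + C2, by positivity, fun n m a b hw B hB => ?_⟩
  have hm2 : (2 : ℝ) ≤ m := by exact_mod_cast hw.hm
  have hm1 : (1 : ℝ) ≤ m := by linarith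
  have hm0 : (0 : ℝ) < m := by linarith
  have hlog : 0 ≤ Real.log m := Real.log_nonneg hm1
  set q : ℝ := (m : ℝ) ^ (-(1 / 10) : ℝ) with hq
  have hq0 : 0 < q := Real.rpow_pos_of_pos hm0 _
  have hpow : ∀ e : ℝ, e ≤ -(1 / 10) → (m : ℝ) ^ e ≤ q := fun e he =>
    Real.rpow_le_rpow_of_exponent_le hm1 he
  set E : Set (ℕ → ℝ) := {ω | C1 * (1 + Real.log m) ≤ (nz (kac n ω).derivative (Icc a b) : ℝ)}
    with hE
  set E' := toMeasurable (PP μ) E with hE'
  have hE'm : MeasurableSet E' := measurableSet_toMeasurable _ _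
  have hEE' : E ⊆ E' := subset_toMeasurable _ _
  have hPE' : (PP μ) E' ≤ ENNReal.ofReal (C1 * (m : ℝ) ^ (-(3 / 2) : ℝ)) := by
    rw [hE', measure_toMeasurable]
    exact hL n m a b hw
  rw [← lintegral_inter_add_diff _ B hE'm]
  -- the part outside E'
  have h1 : ∫⁻ ω in B \ E', (1 + (nz (kac n ω).derivative (Icc a b) : ℝ≥0∞)) ∂(PP μ) ≤
      ENNReal.ofReal ((1 + C1) * ((1 + Real.log m) * (PP μ).real B)) := by
    calc ∫⁻ ω in B \ E', (1 + (nz (kac n ω).derivative (Icc a b) : ℝ≥0∞)) ∂(PP μ)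
        ≤ ∫⁻ ω in B \ E', ENNReal.ofReal ((1 + C1) * (1 + Real.log m)) ∂(PP μ) := by
          refine setLIntegral_mono' (hB.diff hE'm) fun ω hω => ?_
          have hlt : (nz (kac n ω).derivative (Icc a b) : ℝ) < C1 * (1 + Real.log m) := by
            by_contra hcon
            push Not at hcon
            exact hω.2 (hEE' hcon)
          have h2 : (1 : ℝ≥0∞) + (nz (kac n ω).derivative (Icc a b) : ℝ≥0∞) =
              ENNReal.ofReal (1 + (nz (kac n ω).derivative (Icc a b) : ℝ)) := by
            rw [ENNReal.ofReal_add (by norm_num) (by positivity)]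
            simp
          rw [h2]
          apply ENNReal.ofReal_le_ofReal
          nlinarith
      _ = ENNReal.ofReal ((1 + C1) * (1 + Real.log m)) * (PP μ) (B \ E') := by
          rw [setLIntegral_const]
      _ ≤ ENNReal.ofReal ((1 + C1) * (1 + Real.log m)) * (PP μ) B := by
          gcongr
          exact sdiff_subset
      _ = ENNReal.ofReal ((1 + C1) * ((1 + Real.log m) * (PP μ).real B)) := by
          rw [← ofReal_measureReal (measure_ne_top _ _), ← ENNReal.ofReal_mul (by positivity)]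
          congr 1
          ring
  -- the part inside E'
  have h2 : ∫⁻ ω in B ∩ E', (1 + (nz (kac n ω).derivative (Icc a b) : ℝ≥0∞)) ∂(PP μ) ≤
      ENNReal.ofReal ((4 * C1 + C2) * q) := by
    have h3 : ∫⁻ ω in B ∩ E', (1 + (nz (kac n ω).derivative (Icc a b) : ℝ≥0∞)) ∂(PP μ) ≤
        (PP μ) E' + ∫⁻ ω in E', (nz (kac n ω).derivative (Icc a b) : ℝ≥0∞) ∂(PP μ) := by
      refine (lintegral_mono_set inter_subset_right).trans ?_
      rw [lintegral_add_left measurable_const, setLIntegral_const, one_mul]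
    refine h3.trans ?_
    have h4 : (PP μ) E' ≤ ENNReal.ofReal (C1 * q) := by
      refine hPE'.trans (ENNReal.ofReal_le_ofReal ?_)
      gcongr
      exact hpow _ (by norm_num)
    have h5 : ∫⁻ ω in E', (nz (kac n ω).derivative (Icc a b) : ℝ≥0∞) ∂(PP μ) ≤
        ENNReal.ofReal ((2 * C1 + C2) * q) := by
      rcases hw.hup with hu | ⟨hn2, -⟩
      · -- first type
        set r : ℝ := 1 - 1 / (2 * (m : ℝ)) with hr
        have hsub : Icc a b ⊆ Icc (-r) r := fun x hx => abs_le.mp (hu x hx)
        set l : ℝ := (m : ℝ) ^ (13 / 10 : ℝ) with hl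
        have hl0 : 0 < l := Real.rpow_pos_of_pos hm0 _
        have hbound : ∀ ω : ℕ → ℝ, (nz (kac n ω).derivative (Icc a b) : ℝ≥0∞) ≤
            ENNReal.ofReal l + (nz (kac n ω).derivative (Icc (-r) r) : ℝ≥0∞) ^ 8 *
              ENNReal.ofReal ((l ^ 7)⁻¹) := by
          intro ω
          have h6 : (nz (kac n ω).derivative (Icc a b) : ℝ≥0∞) ≤
              (nz (kac n ω).derivative (Icc (-r) r) : ℝ≥0∞) := by
            exact_mod_cast nz_mono _ hsub
          exact h6.trans (split_le _ l hl0)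
        calc ∫⁻ ω in E', (nz (kac n ω).derivative (Icc a b) : ℝ≥0∞) ∂(PP μ)
            ≤ ∫⁻ ω in E', (ENNReal.ofReal l + (nz (kac n ω).derivative (Icc (-r) r) : ℝ≥0∞) ^ 8 *
              ENNReal.ofReal ((l ^ 7)⁻¹)) ∂(PP μ) := lintegral_mono fun ω => hbound ω
          _ = ENNReal.ofReal l * (PP μ) E' +
              (∫⁻ ω in E', (nz (kac n ω).derivative (Icc (-r) r) : ℝ≥0∞) ^ 8 ∂(PP μ)) *
              ENNReal.ofReal ((l ^ 7)⁻¹) := by
              rw [lintegral_add_left measurable_const, setLIntegral_const,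
                lintegral_mul_const' _ _ ENNReal.ofReal_ne_top]
          _ ≤ ENNReal.ofReal l * ENNReal.ofReal (C1 * (m : ℝ) ^ (-(3 / 2) : ℝ)) +
              ENNReal.ofReal (C2 * (m : ℝ) ^ 9) * ENNReal.ofReal ((l ^ 7)⁻¹) := by
              gcongr
              exact (setLIntegral_le_lintegral _ _).trans (hCr n m (by linarith [hw.hm]))
          _ = ENNReal.ofReal (C1 * (m : ℝ) ^ (-(1 / 5) : ℝ) + C2 * q) := by
              rw [← ENNReal.ofReal_mul hl0.le, ← ENNReal.ofReal_mul (by positivity),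
                ← ENNReal.ofReal_add (by positivity) (by positivity)]
              congr 1
              have e1 : l * (C1 * (m : ℝ) ^ (-(3 / 2) : ℝ)) = C1 * (m : ℝ) ^ (-(1 / 5) : ℝ) := by
                rw [hl, mul_left_comm, ← Real.rpow_add hm0]
                norm_num
              have e2 : C2 * (m : ℝ) ^ 9 * (l ^ 7)⁻¹ = C2 * q := by
                have e3 : l ^ 7 = (m : ℝ) ^ (91 / 10 : ℝ) := by
                  rw [hl, ← Real.rpow_natCast, ← Real.rpow_mul hm0.le]
                  norm_num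
                rw [e3, hq, mul_assoc, ← Real.rpow_natCast, ← Real.rpow_neg hm0.le,
                  ← Real.rpow_add hm0]
                norm_num
              rw [e1, e2]
          _ ≤ ENNReal.ofReal ((2 * C1 + C2) * q) := by
              apply ENNReal.ofReal_le_ofReal
              have h7 : (m : ℝ) ^ (-(1 / 5) : ℝ) ≤ q := hpow _ (by norm_num)
              nlinarith [mul_le_mul_of_nonneg_left h7 hC1.le, mul_pos hC1 hq0]
      · -- second type
        have hbound : ∀ ω : ℕ → ℝ, (nz (kac n ω).derivative (Icc a b) : ℝ≥0∞) ≤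
            ENNReal.ofReal (2 * m) := by
          intro ω
          have h6 : nz (kac n ω).derivative (Icc a b) ≤ 2 * m :=
            (nz_le_natDegree _ _).trans ((natDegree_kac_deriv n ω).trans hn2)
          have h7 : ENNReal.ofReal (2 * m) = ((2 * m : ℕ) : ℝ≥0∞) := by
            rw [← ENNReal.ofReal_natCast]
            push_cast
            rfl
          rw [h7]
          exact_mod_cast h6
        calc ∫⁻ ω in E', (nz (kac n ω).derivative (Icc a b) : ℝ≥0∞) ∂(PP μ)
            ≤ ∫⁻ ω in E', ENNReal.ofReal (2 * m) ∂(PP μ) := lintegral_mono fun ω => hbound ω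
          _ = ENNReal.ofReal (2 * m) * (PP μ) E' := by rw [setLIntegral_const]
          _ ≤ ENNReal.ofReal (2 * m) * ENNReal.ofReal (C1 * (m : ℝ) ^ (-(3 / 2) : ℝ)) := by gcongr
          _ = ENNReal.ofReal (2 * C1 * (m : ℝ) ^ (-(1 / 2) : ℝ)) := by
              rw [← ENNReal.ofReal_mul (by positivity)]
              congr 1
              have e1 : (m : ℝ) * (m : ℝ) ^ (-(3 / 2) : ℝ) = (m : ℝ) ^ (-(1 / 2) : ℝ) := by
                nth_rewrite 1 [← Real.rpow_one (m : ℝ)]
                rw [← Real.rpow_add hm0]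
                norm_num
              rw [← e1]
              ring
          _ ≤ ENNReal.ofReal ((2 * C1 + C2) * q) := by
              apply ENNReal.ofReal_le_ofReal
              have h7 : (m : ℝ) ^ (-(1 / 2) : ℝ) ≤ q := hpow _ (by norm_num)
              nlinarith [mul_le_mul_of_nonneg_left h7 hC1.le, mul_pos hC2 hq0]
    calc (PP μ) E' + ∫⁻ ω in E', (nz (kac n ω).derivative (Icc a b) : ℝ≥0∞) ∂(PP μ)
        ≤ ENNReal.ofReal (C1 * q) + ENNReal.ofReal ((2 * C1 + C2) * q) := add_le_add h4 h5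
      _ = ENNReal.ofReal (C1 * q + (2 * C1 + C2) * q) := by
          rw [ENNReal.ofReal_add (by positivity) (by positivity)]
      _ ≤ ENNReal.ofReal ((4 * C1 + C2) * q) := by
          apply ENNReal.ofReal_le_ofReal
          nlinarith [mul_pos hC1 hq0]
  calc _ ≤ ENNReal.ofReal ((4 * C1 + C2) * q) +
        ENNReal.ofReal ((1 + C1) * ((1 + Real.log m) * (PP μ).real B)) := add_le_add h2 h1
    _ = ENNReal.ofReal ((4 * C1 + C2) * q + (1 + C1) * ((1 + Real.log m) * (PP μ).real B)) := by
        rw [ENNReal.ofReal_add (by positivity) (by positivity)]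
    _ ≤ _ := by
        apply ENNReal.ofReal_le_ofReal
        have hPB : 0 ≤ (PP μ).real B := measureReal_nonneg
        have h8 : 0 ≤ (1 + Real.log m) * (PP μ).real B := by positivity
        nlinarith [mul_nonneg hC1.le h8, mul_nonneg hC2.le h8, mul_pos hC1 hq0]


end K5
end Kac764
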