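import Pool.Agent.Helper764.KacDefs
import Pool.Agent.Helper764.KacJ6
import Pool.Agent.Helper764.KacJ4
import Pool.Agent.Helper764.KacJ2
import Pool.Agent.Helper764.KacP6
import Pool.Agent.Helper764.KacP4
import Pool.Agent.Helper764.KacK1
import Pool.Agent.Helper764.KacK5

set_option autoImplicit false
set_option maxHeartbeats 4000000
open MeasureTheory ProbabilityTheory Filter Topology Set
open scoped ENNReal NNReal

namespace Kac764
namespace K6
open Kac764.J6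
open Kac764.J4
open Kac764.J2
open Kac764.P6
open Kac764.P4
open Kac764.K1
open Kac764.K5

/-! The following are GIVEN (being proved in other jobs): leave them as `sorry`. -/
theorem w_fin (p : Polynomial ℝ) (S : Set ℝ) : {x : ℝ | x ∈ S ∧ p ≠ 0 ∧ p.eval x = 0}.Finite := by
  refine Set.Finite.subset (p.roots.toFinset.finite_toSet) ?_
  rintro x ⟨_, h1, h2⟩
  simp [h1, h2]

theorem w_mono (p : Polynomial ℝ) (S T : Set ℝ) (h : S ⊆ T) : nz p S ≤ nz p T :=
  Set.ncard_le_ncard (fun _ hx => ⟨h hx.1, hx.2⟩) (w_fin p T)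

theorem w_le_deg (p : Polynomial ℝ) (S : Set ℝ) : nz p S ≤ p.natDegree := by
  have h1 : {x : ℝ | x ∈ S ∧ p ≠ 0 ∧ p.eval x = 0} ⊆ (p.roots.toFinset : Set ℝ) := by
    rintro x ⟨_, h1, h2⟩
    simp [h1, h2]
  have h2 := Set.ncard_le_ncard h1 (Finset.finite_toSet _)
  rw [Set.ncard_coe_finset] at h2
  exact (h2.trans (Multiset.toFinset_card_le _)).trans (Polynomial.card_roots' p)

theorem w_shift_le (n : ℕ) (ω : ℕ → ℝ) (a b c : ℝ) :
    nz (kac n ω + Polynomial.C c) (Ioo a b) ≤ 1 + nz (kac n ω).derivative (Icc a b) := by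
  have h := nz_rolle (kac n ω + Polynomial.C c) (Ioo a b) ordConnected_Ioo
  rw [Polynomial.derivative_add, Polynomial.derivative_C, add_zero] at h
  exact h.trans (Nat.add_le_add_left (w_mono _ _ _ Ioo_subset_Icc_self) 1)

theorem w_int_coord (μ : Measure ℝ) (hμ : Std μ) (j : ℕ) :
    Integrable (fun ω : ℕ → ℝ => ω j) (PP μ) := by
  have := hμ.prob
  have h1 : Integrable (fun x : ℝ => x) μ := by
    have hm : MemLp (fun x : ℝ => x) 2 μ :=
      (memLp_two_iff_integrable_sq (f := fun x : ℝ => x)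
        (measurable_id.aestronglyMeasurable)).2 hμ.int2
    exact hm.integrable (by norm_num)
  have h2 := measurePreserving_eval_infinitePi (fun _ : ℕ => μ) j
  exact (h2.integrable_comp h1.aestronglyMeasurable).2 h1

theorem w_int_D1 (μ : Measure ℝ) (hμ : Std μ) (n : ℕ) (x : ℝ) :
    Integrable (fun ω : ℕ → ℝ => D1 n ω x) (PP μ) := by
  unfold D1
  exact integrable_finsetSum _ (fun j _ => (w_int_coord μ hμ j).mul_const _)

theorem w_meas_D0 (n : ℕ) (x : ℝ) : Measurable (fun ω : ℕ → ℝ => D0 n ω x) := by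
  unfold D0
  exact Finset.measurable_fun_sum _ (fun j _ => (measurable_pi_apply j).mul_const _)

theorem w_fej_le2 (A y : ℝ) (hA : 0 < A) (hy : y ≠ 0) : fej A y ≤ 2 / (cst * A * y ^ 2) := by
  rw [fej_eq A y hA hy]
  have h1 := cst_pos
  have h2 : 0 < y ^ 2 := by positivity
  refine div_le_div_of_nonneg_right ?_ (by positivity)
  have := Real.neg_one_le_cos (A * y)
  linarith

theorem w_tail_fej (A τ : ℝ) (hA : 0 < A) (hτ : 0 < τ) :
    ∫⁻ c in {c : ℝ | τ < |c|}, ENNReal.ofReal (fej A c) ≤ ENNReal.ofReal (4 / (cst * A * τ)) := by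
  have hc := cst_pos
  have hset : {c : ℝ | τ < |c|} = Ioi τ ∪ Iio (-τ) := by
    ext c
    simp only [mem_ofPred_eq, mem_union, mem_Ioi, mem_Iio, lt_abs]
    constructor
    · rintro (h | h)
      · exact Or.inl h
      · right; linarith
    · rintro (h | h)
      · exact Or.inl h
      · right; linarith
  have hI : ∫⁻ c in Ioi τ, ENNReal.ofReal (2 / (cst * A) * c ^ (-2 : ℝ)) =
      ENNReal.ofReal (2 / (cst * A * τ)) := by
    rw [← ofReal_integral_eq_lintegral_ofReal]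
    · rw [integral_const_mul, integral_Ioi_rpow_of_lt (by norm_num) hτ]
      congr 1
      have : τ ^ ((-2 : ℝ) + 1) = τ⁻¹ := by
        rw [show (-2 : ℝ) + 1 = -1 by norm_num, Real.rpow_neg_one]
      rw [this]
      field_simp
      norm_num
    · exact (integrableOn_Ioi_rpow_of_lt (by norm_num) hτ).const_mul _
    · refine (ae_restrict_iff' measurableSet_Ioi).2 (ae_of_all _ ?_)
      intro c hcm
      have : 0 < c := lt_trans hτ hcm
      simp only [Pi.zero_apply]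
      positivity
  have h1 : ∫⁻ c in Ioi τ, ENNReal.ofReal (fej A c) ≤ ENNReal.ofReal (2 / (cst * A * τ)) := by
    rw [← hI]
    refine setLIntegral_mono' measurableSet_Ioi ?_
    intro c hcm
    have hc0 : 0 < c := lt_trans hτ hcm
    refine ENNReal.ofReal_le_ofReal ((w_fej_le2 A c hA hc0.ne').trans (le_of_eq ?_))
    rw [Real.rpow_neg hc0.le, Real.rpow_two]
    field_simp
  have h2 : ∫⁻ c in Iio (-τ), ENNReal.ofReal (fej A c) ≤ ENNReal.ofReal (2 / (cst * A * τ)) := by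
    have e1 : (∫⁻ c in Iio (-τ), ENNReal.ofReal (fej A c)) =
        ∫⁻ c in Ioi τ, ENNReal.ofReal (fej A (-c)) := by
      have := (Measure.measurePreserving_neg (volume : Measure ℝ)).setLIntegral_comp_preimage_emb
        (MeasurableEquiv.neg ℝ).measurableEmbedding (fun c => ENNReal.ofReal (fej A c)) (Iio (-τ))
      rw [← this]
      congr 1
      congr 1
      ext c
      simp
    rw [e1, ← hI]
    refine setLIntegral_mono' measurableSet_Ioi ?_
    intro c hcm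
    have hc0 : 0 < c := lt_trans hτ hcm
    refine ENNReal.ofReal_le_ofReal ((w_fej_le2 A (-c) hA (neg_ne_zero.2 hc0.ne')).trans
      (le_of_eq ?_))
    rw [Real.rpow_neg hc0.le, Real.rpow_two, neg_sq]
    field_simp
  rw [hset]
  refine (lintegral_union_le _ _ _).trans ((add_le_add h1 h2).trans ?_)
  rw [← ENNReal.ofReal_add (by positivity) (by positivity)]
  refine ENNReal.ofReal_le_ofReal (le_of_eq ?_)
  field_simp
  norm_num

theorem w_meas_fej (A : ℝ) (hA : 0 < A) : Measurable (fun c : ℝ => ENNReal.ofReal (fej A c)) :=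
  ENNReal.measurable_ofReal.comp (fej_continuous A hA).measurable

theorem w_core (μ : Measure ℝ) (hμ : Std μ) (n : ℕ) (a b A τ : ℝ) (hab : a < b) (hA : 0 < A)
    (hτ : 0 < τ) (B : Set (ℕ → ℝ)) (hB : MeasurableSet B)
    (hbad : ∀ ω, ω ∉ B → (∀ x ∈ Icc a b, D1 n ω x = 0 → τ < |D0 n ω x|) ∧
      τ < |D0 n ω a| ∧ τ < |D0 n ω b|) :
    ∫⁻ ω, (nz (kac n ω) (Ioo a b) : ℝ≥0∞) ∂(PP μ) ≤
      (∫⁻ x in Ioo a b, ∫⁻ ω, ENNReal.ofReal (|D1 n ω x| * fej A (D0 n ω x)) ∂(PP μ)) +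
      (∫⁻ ω in B, (1 + (nz (kac n ω).derivative (Icc a b) : ℝ≥0∞)) ∂(PP μ)) +
      (∫⁻ ω, (nz (kac n ω) (Ioo a b) : ℝ≥0∞) ∂(PP μ)) *
        (∫⁻ c in {c : ℝ | τ < |c|}, ENNReal.ofReal (fej A c)) ∧
    (∫⁻ x in Ioo a b, ∫⁻ ω, ENNReal.ofReal (|D1 n ω x| * fej A (D0 n ω x)) ∂(PP μ)) ≤
      (∫⁻ ω, (nz (kac n ω) (Ioo a b) : ℝ≥0∞) ∂(PP μ)) +
      (∫⁻ ω in B, (1 + (nz (kac n ω).derivative (Icc a b) : ℝ≥0∞)) ∂(PP μ)) +
      (∫⁻ x in Ioo a b, ∫⁻ ω in {ω | τ < |D0 n ω x|},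
          ENNReal.ofReal (|D1 n ω x| * fej A (D0 n ω x)) ∂(PP μ)) := by
  set I : ℝ → ℝ≥0∞ := fun c => ∫⁻ ω, (nz (kac n ω + Polynomial.C c) (Ioo a b) : ℝ≥0∞) ∂(PP μ)
    with hI
  set I0 : ℝ≥0∞ := ∫⁻ ω, (nz (kac n ω) (Ioo a b) : ℝ≥0∞) ∂(PP μ) with hI0
  set δ : ℝ≥0∞ := ∫⁻ ω in B, (1 + (nz (kac n ω).derivative (Icc a b) : ℝ≥0∞)) ∂(PP μ) with hδ
  have htot := shifted_kacrice μ hμ n a b A hab hA (-1)
  have htail := shifted_kacrice μ hμ n a b A hab hA τ
  have e1 : {c : ℝ | (-1 : ℝ) < |c|} = univ := by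
    ext c
    simp only [mem_ofPred_eq, mem_univ, iff_true]
    have := abs_nonneg c
    linarith
  have e2 : ∀ x : ℝ, {ω : ℕ → ℝ | (-1 : ℝ) < |D0 n ω x|} = univ := by
    intro x
    ext ω
    simp only [mem_ofPred_eq, mem_univ, iff_true]
    have := abs_nonneg (D0 n ω x)
    linarith
  simp only [e1, e2, Measure.restrict_univ] at htot
  have hms : MeasurableSet {c : ℝ | τ < |c|} := measurableSet_lt measurable_const
    measurable_abs
  have hsplit := lintegral_add_compl (μ := (volume : Measure ℝ))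
    (fun c => I c * ENNReal.ofReal (fej A c)) hms
  have hsplit1 := lintegral_add_compl (μ := (volume : Measure ℝ))
    (fun c => ENNReal.ofReal (fej A c)) hms
  rw [lintegral_fej A hA] at hsplit1
  have hzero : ∀ ω, nz (kac n ω) (Ioo a b) ≤ 1 + nz (kac n ω).derivative (Icc a b) := by
    intro ω
    have := w_shift_le n ω a b 0
    simpa using this
  -- comparison of I c and I 0
  have hcmp : ∀ c : ℝ, |c| ≤ τ → I c ≤ I0 + δ ∧ I0 ≤ I c + δ := by
    intro c hc
    have heq : ∀ ω ∈ Bᶜ, (nz (kac n ω + Polynomial.C c) (Ioo a b) : ℝ≥0∞) =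
        (nz (kac n ω) (Ioo a b) : ℝ≥0∞) := by
      intro ω hω
      obtain ⟨h1, h2, h3⟩ := hbad ω hω
      rw [nz_shift (kac n ω) a b τ hab hτ ?_ ?_ ?_ c hc]
      · intro x hx hx0
        rw [kac_deriv_eval] at hx0
        rw [kac_eval]
        exact h1 x hx hx0
      · rw [kac_eval]; exact h2
      · rw [kac_eval]; exact h3
    have s1 := lintegral_add_compl (μ := PP μ)
      (fun ω => (nz (kac n ω + Polynomial.C c) (Ioo a b) : ℝ≥0∞)) hB
    have s2 := lintegral_add_compl (μ := PP μ)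
      (fun ω => (nz (kac n ω) (Ioo a b) : ℝ≥0∞)) hB
    have s3 : ∫⁻ ω in Bᶜ, (nz (kac n ω + Polynomial.C c) (Ioo a b) : ℝ≥0∞) ∂(PP μ) =
        ∫⁻ ω in Bᶜ, (nz (kac n ω) (Ioo a b) : ℝ≥0∞) ∂(PP μ) :=
      setLIntegral_congr_fun hB.compl heq
    have s4 : ∫⁻ ω in B, (nz (kac n ω + Polynomial.C c) (Ioo a b) : ℝ≥0∞) ∂(PP μ) ≤ δ := by
      refine lintegral_mono ?_
      intro ω
      have := w_shift_le n ω a b c
      change (nz (kac n ω + Polynomial.C c) (Ioo a b) : ℝ≥0∞) ≤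
        1 + (nz (kac n ω).derivative (Icc a b) : ℝ≥0∞)
      exact_mod_cast this
    have s5 : ∫⁻ ω in B, (nz (kac n ω) (Ioo a b) : ℝ≥0∞) ∂(PP μ) ≤ δ := by
      refine lintegral_mono ?_
      intro ω
      have := hzero ω
      change (nz (kac n ω) (Ioo a b) : ℝ≥0∞) ≤
        1 + (nz (kac n ω).derivative (Icc a b) : ℝ≥0∞)
      exact_mod_cast this
    constructor
    · rw [hI, hI0]
      simp only
      rw [← s1, ← s2, s3]
      calc _ ≤ δ + ∫⁻ ω in Bᶜ, (nz (kac n ω) (Ioo a b) : ℝ≥0∞) ∂(PP μ) := by gcongr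
        _ ≤ _ := by
          rw [add_comm]
          gcongr
          exact le_add_self
    · rw [hI, hI0]
      simp only
      rw [← s1, ← s2, s3]
      calc _ ≤ δ + ∫⁻ ω in Bᶜ, (nz (kac n ω) (Ioo a b) : ℝ≥0∞) ∂(PP μ) := by gcongr
        _ ≤ _ := by
          rw [add_comm]
          gcongr
          exact le_add_self
  have hcompl : ∀ c ∈ ({c : ℝ | τ < |c|})ᶜ, |c| ≤ τ := by
    intro c hc
    simpa using hc
  have hfle : ∫⁻ c in ({c : ℝ | τ < |c|})ᶜ, ENNReal.ofReal (fej A c) ≤ 1 := by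
    rw [← hsplit1]
    exact le_add_self
  have hmf := w_meas_fej A hA
  constructor
  · have k1 : I0 = I0 * (∫⁻ c in {c : ℝ | τ < |c|}, ENNReal.ofReal (fej A c)) +
        I0 * ∫⁻ c in ({c : ℝ | τ < |c|})ᶜ, ENNReal.ofReal (fej A c) := by
      rw [← mul_add, hsplit1, mul_one]
    have k2 : I0 * ∫⁻ c in ({c : ℝ | τ < |c|})ᶜ, ENNReal.ofReal (fej A c) ≤
        (∫⁻ c in ({c : ℝ | τ < |c|})ᶜ, I c * ENNReal.ofReal (fej A c)) + δ := by
      rw [← lintegral_const_mul _ hmf]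
      calc ∫⁻ c in ({c : ℝ | τ < |c|})ᶜ, I0 * ENNReal.ofReal (fej A c)
          ≤ ∫⁻ c in ({c : ℝ | τ < |c|})ᶜ, (I c * ENNReal.ofReal (fej A c) +
              δ * ENNReal.ofReal (fej A c)) := by
            refine setLIntegral_mono' hms.compl ?_
            intro c hc
            rw [← add_mul]
            gcongr
            exact (hcmp c (hcompl c hc)).2
        _ = (∫⁻ c in ({c : ℝ | τ < |c|})ᶜ, I c * ENNReal.ofReal (fej A c)) +
              ∫⁻ c in ({c : ℝ | τ < |c|})ᶜ, δ * ENNReal.ofReal (fej A c) :=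
            lintegral_add_right _ (hmf.const_mul δ)
        _ ≤ _ := by
            gcongr
            rw [lintegral_const_mul _ hmf]
            calc δ * _ ≤ δ * 1 := by gcongr
              _ = δ := mul_one _
    have k3 : (∫⁻ c in ({c : ℝ | τ < |c|})ᶜ, I c * ENNReal.ofReal (fej A c)) ≤
        ∫⁻ x in Ioo a b, ∫⁻ ω, ENNReal.ofReal (|D1 n ω x| * fej A (D0 n ω x)) ∂(PP μ) := by
      rw [← htot]
      exact setLIntegral_le_lintegral _ _
    calc I0 = I0 * (∫⁻ c in {c : ℝ | τ < |c|}, ENNReal.ofReal (fej A c)) +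
        I0 * ∫⁻ c in ({c : ℝ | τ < |c|})ᶜ, ENNReal.ofReal (fej A c) := k1
      _ ≤ I0 * (∫⁻ c in {c : ℝ | τ < |c|}, ENNReal.ofReal (fej A c)) +
        ((∫⁻ x in Ioo a b, ∫⁻ ω, ENNReal.ofReal (|D1 n ω x| * fej A (D0 n ω x)) ∂(PP μ)) + δ) := by
          gcongr
          exact k2.trans (by gcongr)
      _ = _ := by rw [add_comm]
  · rw [← htot, ← hsplit, htail, add_comm]
    gcongr
    calc ∫⁻ c in ({c : ℝ | τ < |c|})ᶜ, I c * ENNReal.ofReal (fej A c)
        ≤ ∫⁻ c in ({c : ℝ | τ < |c|})ᶜ, (I0 + δ) * ENNReal.ofReal (fej A c) := by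
          refine setLIntegral_mono' hms.compl ?_
          intro c hc
          gcongr
          exact (hcmp c (hcompl c hc)).1
      _ = (I0 + δ) * ∫⁻ c in ({c : ℝ | τ < |c|})ᶜ, ENNReal.ofReal (fej A c) :=
          lintegral_const_mul _ hmf
      _ ≤ (I0 + δ) * 1 := by gcongr
      _ = I0 + δ := mul_one _

theorem w_MT (μ : Measure ℝ) (hμ : Std μ) (n : ℕ) (a b A τ L : ℝ) (_hab : a < b) (hA : 0 < A)
    (hτ : 0 < τ) (hL0 : 0 ≤ L) (hL : ∀ x ∈ Icc a b, ∫ ω, |D1 n ω x| ∂(PP μ) ≤ L) :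
    ∫⁻ x in Ioo a b, ∫⁻ ω in {ω | τ < |D0 n ω x|},
          ENNReal.ofReal (|D1 n ω x| * fej A (D0 n ω x)) ∂(PP μ) ≤
      ENNReal.ofReal ((b - a) * (L * (2 / (cst * A * τ ^ 2)))) := by
  have hc := cst_pos
  have hq : 0 ≤ 2 / (cst * A * τ ^ 2) := by positivity
  have h1 : ∀ x ∈ Ioo a b, ∫⁻ ω in {ω | τ < |D0 n ω x|},
          ENNReal.ofReal (|D1 n ω x| * fej A (D0 n ω x)) ∂(PP μ) ≤
      ENNReal.ofReal (L * (2 / (cst * A * τ ^ 2))) := by
    intro x hx
    have hms : MeasurableSet {ω : ℕ → ℝ | τ < |D0 n ω x|} :=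
      measurableSet_lt measurable_const (w_meas_D0 n x).abs
    calc ∫⁻ ω in {ω | τ < |D0 n ω x|},
          ENNReal.ofReal (|D1 n ω x| * fej A (D0 n ω x)) ∂(PP μ)
        ≤ ∫⁻ ω in {ω | τ < |D0 n ω x|},
          ENNReal.ofReal (|D1 n ω x| * (2 / (cst * A * τ ^ 2))) ∂(PP μ) := by
          refine setLIntegral_mono' hms ?_
          intro ω hω
          have hω' : τ < |D0 n ω x| := hω
          refine ENNReal.ofReal_le_ofReal (mul_le_mul_of_nonneg_left ?_ (abs_nonneg _))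
          have hne : D0 n ω x ≠ 0 := by
            intro h0
            rw [h0, abs_zero] at hω'
            linarith
          refine (w_fej_le2 A _ hA hne).trans ?_
          refine div_le_div_of_nonneg_left (by norm_num) (by positivity) ?_
          refine mul_le_mul_of_nonneg_left ?_ (by positivity)
          rw [← sq_abs (D0 n ω x)]
          exact pow_le_pow_left₀ hτ.le hω'.le 2
      _ ≤ ∫⁻ ω, ENNReal.ofReal (|D1 n ω x| * (2 / (cst * A * τ ^ 2))) ∂(PP μ) :=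
          setLIntegral_le_lintegral _ _
      _ = ENNReal.ofReal (∫ ω, |D1 n ω x| * (2 / (cst * A * τ ^ 2)) ∂(PP μ)) := by
          rw [ofReal_integral_eq_lintegral_ofReal]
          · exact (w_int_D1 μ hμ n x).abs.mul_const _
          · exact ae_of_all _ (fun ω => by positivity)
      _ ≤ _ := by
          refine ENNReal.ofReal_le_ofReal ?_
          rw [integral_mul_const]
          exact mul_le_mul_of_nonneg_right (hL x (Ioo_subset_Icc_self hx)) hq
  calc _ ≤ ∫⁻ x in Ioo a b, ENNReal.ofReal (L * (2 / (cst * A * τ ^ 2))) :=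
        setLIntegral_mono' measurableSet_Ioo h1
    _ = ENNReal.ofReal (L * (2 / (cst * A * τ ^ 2))) * ENNReal.ofReal (b - a) := by
        rw [setLIntegral_const, Real.volume_Ioo]
    _ ≤ _ := by
        rw [← ENNReal.ofReal_mul (by positivity), mul_comm]

theorem w_SA_pos (n : ℕ) (x : ℝ) : 1 ≤ SA n x := by
  unfold SA
  rw [Finset.sum_range_succ']
  have : 0 ≤ ∑ k ∈ Finset.range n, (x ^ (k + 1)) ^ 2 :=
    Finset.sum_nonneg (fun _ _ => sq_nonneg _)
  simpa using this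

theorem w_rho_cont (n : ℕ) : Continuous (rho n) := by
  unfold rho
  refine Continuous.div ?_ ?_ ?_
  · refine continuous_const.mul (Real.continuous_sqrt.comp ?_)
    unfold SA SB SC
    fun_prop
  · unfold SA
    fun_prop
  · intro x
    have := w_SA_pos n x
    linarith

theorem w_rho_nonneg (n : ℕ) (x : ℝ) : 0 ≤ rho n x := by
  unfold rho
  have := w_SA_pos n x
  have h2 := Real.pi_pos
  positivity

theorem w_rho_le (n : ℕ) (x : ℝ) : rho n x ≤ Real.sqrt (SC n x) := by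
  unfold rho
  have h1 := w_SA_pos n x
  have h0 : 0 < SA n x := by linarith
  have hC : 0 ≤ SC n x := Finset.sum_nonneg (fun _ _ => sq_nonneg _)
  rw [div_le_iff₀ h0]
  have hpi : 1 / Real.pi ≤ 1 := by
    rw [div_le_one Real.pi_pos]
    have := Real.pi_gt_three
    linarith
  have h3 : Real.sqrt (SA n x * SC n x - SB n x ^ 2) ≤ Real.sqrt (SC n x) * SA n x := by
    rw [Real.sqrt_le_left (by positivity)]
    rw [mul_pow, Real.sq_sqrt hC]
    have h4 : SA n x ≤ SA n x ^ 2 := by nlinarith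
    have h5 : SA n x * SC n x ≤ SC n x * SA n x ^ 2 := by nlinarith
    nlinarith [sq_nonneg (SB n x)]
  calc 1 / Real.pi * Real.sqrt (SA n x * SC n x - SB n x ^ 2)
      ≤ 1 * Real.sqrt (SA n x * SC n x - SB n x ^ 2) :=
        mul_le_mul_of_nonneg_right hpi (Real.sqrt_nonneg _)
    _ ≤ _ := by rw [one_mul]; exact h3

theorem w_M (μ : Measure ℝ) (hμ : Std μ) (n : ℕ) (a b A K : ℝ) (hab : a < b) (hA : 0 < A)
    (hK : 0 ≤ K)
    (hcomp : ∀ x ∈ Ioo a b, |∫ ω, |D1 n ω x| * fej A (D0 n ω x) ∂(PP μ) - rho n x| ≤ K) :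
    (∫⁻ x in Ioo a b, ∫⁻ ω, ENNReal.ofReal (|D1 n ω x| * fej A (D0 n ω x)) ∂(PP μ)) ≤
      ENNReal.ofReal (∫ x in a..b, rho n x) + ENNReal.ofReal ((b - a) * K) ∧
    ENNReal.ofReal (∫ x in a..b, rho n x) ≤
      (∫⁻ x in Ioo a b, ∫⁻ ω, ENNReal.ofReal (|D1 n ω x| * fej A (D0 n ω x)) ∂(PP μ)) +
        ENNReal.ofReal ((b - a) * K) := by
  have hfm : Measurable (fej A) := (fej_continuous A hA).measurable
  have hin : ∀ x, Integrable (fun ω => |D1 n ω x| * fej A (D0 n ω x)) (PP μ) := by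
    intro x
    refine (w_int_D1 μ hμ n x).abs.mul_bdd (c := A / (2 * cst)) ?_ ?_
    · exact (hfm.comp (w_meas_D0 n x)).aestronglyMeasurable
    · refine ae_of_all _ ?_
      intro ω
      rw [Real.norm_eq_abs, abs_of_nonneg (fej_nonneg A _ hA)]
      exact fej_le A _ hA
  have hinner : ∀ x, ∫⁻ ω, ENNReal.ofReal (|D1 n ω x| * fej A (D0 n ω x)) ∂(PP μ) =
      ENNReal.ofReal (∫ ω, |D1 n ω x| * fej A (D0 n ω x) ∂(PP μ)) := by
    intro x
    rw [ofReal_integral_eq_lintegral_ofReal (hin x)]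
    exact ae_of_all _ (fun ω => mul_nonneg (abs_nonneg _) (fej_nonneg A _ hA))
  have hrho : ENNReal.ofReal (∫ x in a..b, rho n x) =
      ∫⁻ x in Ioo a b, ENNReal.ofReal (rho n x) := by
    rw [intervalIntegral.integral_of_le hab.le, integral_Ioc_eq_integral_Ioo,
      ofReal_integral_eq_lintegral_ofReal]
    · exact ((w_rho_cont n).integrableOn_Icc).mono_set Ioo_subset_Icc_self
    · exact ae_of_all _ (fun x => w_rho_nonneg n x)
  have hconst : ∫⁻ _x in Ioo a b, ENNReal.ofReal K = ENNReal.ofReal ((b - a) * K) := by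
    rw [setLIntegral_const, Real.volume_Ioo, ← ENNReal.ofReal_mul hK, mul_comm]
  simp only [hinner]
  rw [hrho, ← hconst]
  constructor
  · rw [← lintegral_add_right _ measurable_const]
    refine setLIntegral_mono' measurableSet_Ioo ?_
    intro x hx
    rw [← ENNReal.ofReal_add (w_rho_nonneg n x) hK]
    refine ENNReal.ofReal_le_ofReal ?_
    have := (abs_le.1 (hcomp x hx)).2
    linarith
  · rw [← lintegral_add_right _ measurable_const]
    refine setLIntegral_mono' measurableSet_Ioo ?_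
    intro x hx
    rw [← ENNReal.ofReal_add (integral_nonneg
      (fun ω => mul_nonneg (abs_nonneg _) (fej_nonneg A _ hA))) hK]
    refine ENNReal.ofReal_le_ofReal ?_
    have := (abs_le.1 (hcomp x hx)).1
    linarith

theorem w_adm (n m : ℕ) (a b x : ℝ) (hW : Win n m a b) (hx : x ∈ Icc a b) : Adm n m x := by
  refine ⟨hW.hm, hW.hmn, hW.hlow x hx, ?_⟩
  rcases hW.hup with h | ⟨h1, h2⟩
  · exact Or.inl (h x hx)
  · exact Or.inr ⟨h1, h2 x hx⟩

theorem w_SC : ∃ C > 0, ∀ (n m : ℕ) (x : ℝ), Adm n m x → SC n x ≤ C * (m : ℝ) ^ 3 := by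
  obtain ⟨C, hC, h⟩ := weights 2
  refine ⟨2 * C, by positivity, ?_⟩
  intro n m x hx
  obtain ⟨hm, hmn, hlow, hup⟩ := hx
  have hmr : (2 : ℝ) ≤ m := by exact_mod_cast hm
  have hm0 : (0 : ℝ) < m := by linarith
  have hx1 : |x| ≤ 1 := by
    rcases hup with h | h
    · have : 0 < 1 / (2 * (m : ℝ)) := by positivity
      linarith
    · exact h.2
  have hx2 : 1 / 2 ≤ |x| := by
    have : 1 / (m : ℝ) ≤ 1 / 2 := one_div_le_one_div_of_le (by norm_num) hmr
    linarith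
  have hcond : |x| ≤ 1 - 1 / (4 * (m : ℝ)) ∨ (n ≤ 2 * m ∧ |x| ≤ 1 + 1 / (m : ℝ)) := by
    rcases hup with h | h
    · left
      have : 1 / (4 * (m : ℝ)) ≤ 1 / (2 * (m : ℝ)) :=
        one_div_le_one_div_of_le (by positivity) (by linarith)
      linarith
    · right
      refine ⟨h.1, ?_⟩
      have : 0 < 1 / (m : ℝ) := by positivity
      linarith
  have h1 := (h n m x (by omega) hcond).1
  unfold SC
  calc ∑ j ∈ Finset.range (n + 1), ((j : ℝ) * x ^ (j - 1)) ^ 2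
      ≤ ∑ j ∈ Finset.range (n + 1), 2 * ((j : ℝ) ^ 2 * |x| ^ j) := by
        refine Finset.sum_le_sum ?_
        intro j _
        rcases Nat.eq_zero_or_pos j with hj | hj
        · subst hj
          simp
        · obtain ⟨k, rfl⟩ : ∃ k, j = k + 1 := ⟨j - 1, by omega⟩
          have e : k + 1 - 1 = k := by omega
          rw [e, mul_pow, ← sq_abs (x ^ k), abs_pow, ← pow_mul]
          have hk : |x| ^ (k * 2) ≤ |x| ^ k :=
            pow_le_pow_of_le_one (abs_nonneg _) hx1 (by omega)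
          have hk2 : |x| ^ k ≤ 2 * |x| ^ (k + 1) := by
            rw [pow_succ]
            have := pow_nonneg (abs_nonneg x) k
            nlinarith
          have : 0 ≤ ((k + 1 : ℕ) : ℝ) ^ 2 := by positivity
          nlinarith
    _ = 2 * ∑ j ∈ Finset.range (n + 1), ((j : ℝ) ^ 2 * |x| ^ j) := by
        rw [Finset.mul_sum]
    _ ≤ 2 * (C * (m : ℝ) ^ (2 + 1)) := by linarith
    _ = _ := by ring

theorem w_union (p : Polynomial ℝ) (S T : Set ℝ) (h : Disjoint S T) :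
    nz p (S ∪ T) = nz p S + nz p T := by
  unfold nz
  rw [← Set.ncard_union_eq _ (w_fin p S) (w_fin p T)]
  · congr 1
    ext x
    simp only [mem_union, mem_ofPred_eq]
    tauto
  · rw [Set.disjoint_left] at h ⊢
    intro x hx hx2
    exact h hx.1 hx2.1

theorem w_empty (p : Polynomial ℝ) : nz p ∅ = 0 := by
  unfold nz
  simp

theorem w_split (n : ℕ) (a b : ℝ) (hab : a < b) (S : Set ℝ) (h1 : Ioo a b ⊆ S)
    (h2 : S ⊆ Icc a b) : ∃ εa εb : ℕ, εa ≤ 1 ∧ εb ≤ 1 ∧ ∀ ω, nz (kac n ω) S =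
      nz (kac n ω) (Ioo a b) + εa * nz (kac n ω) {a} + εb * nz (kac n ω) {b} := by
  classical
  have hS : S = (Ioo a b ∪ (if a ∈ S then {a} else ∅)) ∪ (if b ∈ S then {b} else ∅) := by
    ext x
    constructor
    · intro hx
      have hx2 := h2 hx
      rcases eq_or_lt_of_le hx2.1 with h | h
      · left; right
        subst h
        simp [hx]
      · rcases eq_or_lt_of_le hx2.2 with h' | h'
        · right
          subst h'
          simp [hx]
        · left; left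
          exact ⟨h, h'⟩
    · rintro ((hx | hx) | hx)
      · exact h1 hx
      · split_ifs at hx with h
        · rw [mem_singleton_iff] at hx
          rw [hx]; exact h
        · exact absurd hx (Set.notMem_empty x)
      · split_ifs at hx with h
        · rw [mem_singleton_iff] at hx
          rw [hx]; exact h
        · exact absurd hx (Set.notMem_empty x)
  refine ⟨if a ∈ S then 1 else 0, if b ∈ S then 1 else 0, by split_ifs <;> omega,
    by split_ifs <;> omega, ?_⟩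
  intro ω
  have hd1 : Disjoint (Ioo a b) (if a ∈ S then {a} else ∅) := by
    split_ifs
    · simp
    · simp
  have hd2 : Disjoint (Ioo a b ∪ (if a ∈ S then {a} else ∅)) (if b ∈ S then {b} else ∅) := by
    split_ifs
    · simp [hab.ne']
    · simp
    · simp
    · simp
  conv_lhs => rw [hS]
  rw [w_union _ _ _ hd2, w_union _ _ _ hd1]
  congr 1
  · congr 1
    split_ifs
    · simp
    · simp [w_empty]
  · split_ifs
    · simp
    · simp [w_empty]

theorem w_deg (n : ℕ) (ω : ℕ → ℝ) : (kac n ω).natDegree ≤ n := by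
  unfold kac
  refine Polynomial.natDegree_sum_le_of_forall_le _ _ ?_
  intro j hj
  refine (Polynomial.natDegree_C_mul_X_pow_le _ _).trans ?_
  have := Finset.mem_range.1 hj
  omega

theorem w_int_J (μ : Measure ℝ) (hμ : Std μ) (n : ℕ) (a b : ℝ) :
    Integrable (fun ω => (nz (kac n ω) (Ioo a b) : ℝ)) (PP μ) := by
  have := hμ.prob
  refine Integrable.of_bound ?_ (n : ℝ) ?_
  · exact (measurable_from_nat.comp (measurable_nz n a b)).aestronglyMeasurable
  · refine ae_of_all _ ?_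
    intro ω
    rw [Real.norm_natCast]
    exact_mod_cast (w_le_deg _ _).trans (w_deg n ω)

theorem w_int_s (μ : Measure ℝ) (hμ : Std μ) (n : ℕ) (a : ℝ) :
    Integrable (fun ω => (nz (kac n ω) {a} : ℝ)) (PP μ) := by
  have := hμ.prob
  refine Integrable.of_bound ?_ (n : ℝ) ?_
  · exact (measurable_from_nat.comp (measurable_nz_singleton n a)).aestronglyMeasurable
  · refine ae_of_all _ ?_
    intro ω
    rw [Real.norm_natCast]
    exact_mod_cast (w_le_deg _ _).trans (w_deg n ω)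

theorem w_single (μ : Measure ℝ) (hμ : Std μ) (n : ℕ) (a : ℝ) :
    ∫ ω, (nz (kac n ω) {a} : ℝ) ∂(PP μ) ≤ (PP μ).real {ω | |D0 n ω a| ≤ 1} := by
  have := hμ.prob
  have hms : MeasurableSet {ω : ℕ → ℝ | |D0 n ω a| ≤ 1} :=
    measurableSet_le (w_meas_D0 n a).abs measurable_const
  rw [← integral_indicator_one hms]
  refine integral_mono (w_int_s μ hμ n a) ?_ ?_
  · exact (integrable_const (1 : ℝ)).indicator hms
  · intro ω
    simp only
    by_cases h : D0 n ω a = 0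
    · have h1 : ω ∈ {ω : ℕ → ℝ | |D0 n ω a| ≤ 1} := by
        simp [h]
      rw [Set.indicator_of_mem h1]
      have : nz (kac n ω) {a} ≤ 1 := by
        unfold nz
        refine (Set.ncard_le_ncard (t := {a}) ?_ (Set.finite_singleton a)).trans
          (le_of_eq (Set.ncard_singleton a))
        intro x hx
        exact hx.1
      simpa using this
    · have : nz (kac n ω) {a} = 0 := by
        unfold nz
        rw [Set.ncard_eq_zero (w_fin _ _)]
        ext x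
        simp only [mem_ofPred_eq, mem_empty_iff_false, iff_false]
        rintro ⟨hx, _, h2⟩
        rw [mem_singleton_iff] at hx
        rw [hx, kac_eval] at h2
        exact h h2
      rw [this]
      simp only [Nat.cast_zero]
      exact Set.indicator_nonneg (fun _ _ => zero_le_one) _

theorem w_AA_nonneg (μ : Measure ℝ) (m : ℕ) : 0 ≤ AA μ m := by
  unfold AA
  refine integral_nonneg ?_
  intro x
  simp only [Pi.zero_apply]
  have : 0 ≤ min (|x| / Real.sqrt m) (Real.sqrt m / |x|) :=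
    le_min (by positivity) (by positivity)
  positivity

theorem w_log (m : ℕ) (hm : 2 ≤ m) : 1 + Real.log m ≤ 101 * (m : ℝ) ^ (1 / 100 : ℝ) := by
  have hmr : (2 : ℝ) ≤ m := by exact_mod_cast hm
  have h1 := Real.log_le_rpow_div (x := (m : ℝ)) (by positivity) (ε := 1 / 100) (by norm_num)
  have h2 : (1 : ℝ) ≤ (m : ℝ) ^ (1 / 100 : ℝ) := Real.one_le_rpow (by linarith) (by norm_num)
  have h3 : (m : ℝ) ^ (1 / 100 : ℝ) / (1 / 100) = 100 * (m : ℝ) ^ (1 / 100 : ℝ) := by ring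
  rw [h3] at h1
  linarith

/-- the bounds for one window, `m` large -/
theorem w_window (μ : Measure ℝ) (hμ : Std μ) (A CN CS CM : ℝ) (hA : 0 < A) (hCN : 0 < CN)
    (hCS : 0 < CS) (hCM : 0 < CM) (n m : ℕ) (a b : ℝ) (hW : Win n m a b)
    (hN : (PP μ) {ω | (∃ x ∈ Icc a b, D1 n ω x = 0 ∧ |D0 n ω x| ≤ (m : ℝ) ^ (3 / 10 : ℝ)) ∨
      |D0 n ω a| ≤ (m : ℝ) ^ (3 / 10 : ℝ) ∨ |D0 n ω b| ≤ (m : ℝ) ^ (3 / 10 : ℝ)}
    ≤ ENNReal.ofReal (CN * (m : ℝ) ^ (-(1 / 20) : ℝ)))
    (hS : ∀ B : Set (ℕ → ℝ), MeasurableSet B →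
      ∫⁻ ω in B, (1 + (nz (kac n ω).derivative (Icc a b) : ℝ≥0∞)) ∂(PP μ)
        ≤ ENNReal.ofReal (CS * ((1 + Real.log m) * (PP μ).real B + (m : ℝ) ^ (-(1 / 10) : ℝ))))
    (hM : ∀ x ∈ Icc a b, ∫ ω, |D1 n ω x| ∂(PP μ) ≤ CM * (m : ℝ) ^ (3 / 2 : ℝ)) :
    ∫ ω, (nz (kac n ω) (Ioo a b) : ℝ) ∂(PP μ) ≤ CS * 102 * (m : ℝ) ^ (1 / 100 : ℝ) ∧
    ∀ K : ℝ, 0 ≤ K → (∀ x ∈ Ioo a b, |∫ ω, |D1 n ω x| * fej A (D0 n ω x) ∂(PP μ) - rho n x| ≤ K) →
    |∫ ω, (nz (kac n ω) (Ioo a b) : ℝ) ∂(PP μ) - ∫ x in a..b, rho n x| ≤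
      (b - a) * K + (CS * (101 * CN + 1) + (CS * 408 + CM * 2) / (cst * A)) *
        (m : ℝ) ^ (-(1 / 25) : ℝ) := by
  have hP := hμ.prob
  have hc := cst_pos
  have hab := hW.hab
  have hm2 := hW.hm
  have hmr : (2 : ℝ) ≤ m := by exact_mod_cast hm2
  have hm1 : (1 : ℝ) ≤ m := by linarith
  have hm0 : (0 : ℝ) < m := by linarith
  have hlog := w_log m hm2
  have hlog0 : 0 ≤ Real.log m := Real.log_natCast_nonneg m
  set q : ℝ := (m : ℝ) ^ (-(1 / 25) : ℝ) with hq
  have hq0 : 0 < q := Real.rpow_pos_of_pos hm0 _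
  have hq110 : (m : ℝ) ^ (-(1 / 10) : ℝ) ≤ q :=
    Real.rpow_le_rpow_of_exponent_le hm1 (by norm_num)
  have hp0 : 0 < (m : ℝ) ^ (-(1 / 10) : ℝ) := Real.rpow_pos_of_pos hm0 _
  have hp1 : (m : ℝ) ^ (-(1 / 10) : ℝ) ≤ 1 :=
    Real.rpow_le_one_of_one_le_of_nonpos hm1 (by norm_num)
  have h1001 : (1 : ℝ) ≤ (m : ℝ) ^ (1 / 100 : ℝ) := Real.one_le_rpow hm1 (by norm_num)
  set τ : ℝ := (m : ℝ) ^ (3 / 10 : ℝ) with hτ
  have hτ0 : 0 < τ := Real.rpow_pos_of_pos hm0 _
  set N : Set (ℕ → ℝ) := {ω | (∃ x ∈ Icc a b, D1 n ω x = 0 ∧ |D0 n ω x| ≤ τ) ∨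
      |D0 n ω a| ≤ τ ∨ |D0 n ω b| ≤ τ} with hNdef
  set B := toMeasurable (PP μ) N with hB
  have hBm : MeasurableSet B := measurableSet_toMeasurable _ _
  have hBP : (PP μ).real B ≤ CN * (m : ℝ) ^ (-(1 / 20) : ℝ) := by
    rw [Measure.real, hB, measure_toMeasurable]
    exact ENNReal.toReal_le_of_le_ofReal (by positivity) hN
  have hbad : ∀ ω, ω ∉ B → (∀ x ∈ Icc a b, D1 n ω x = 0 → τ < |D0 n ω x|) ∧
      τ < |D0 n ω a| ∧ τ < |D0 n ω b| := by
    intro ω hω
    have hω' : ω ∉ N := fun h => hω (subset_toMeasurable _ _ h)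
    rw [hNdef] at hω'
    simp only [mem_ofPred_eq, not_or, not_exists, not_and, not_le] at hω'
    exact ⟨fun x hx h0 => hω'.1 x hx h0, hω'.2.1, hω'.2.2⟩
  have hcore := w_core μ hμ n a b A τ hab hA hτ0 B hBm hbad
  have hI0 : ∫⁻ ω, (nz (kac n ω) (Ioo a b) : ℝ≥0∞) ∂(PP μ) =
      ENNReal.ofReal (∫ ω, (nz (kac n ω) (Ioo a b) : ℝ) ∂(PP μ)) := by
    rw [ofReal_integral_eq_lintegral_ofReal (w_int_J μ hμ n a b)]
    · refine lintegral_congr ?_
      intro ω
      rw [ENNReal.ofReal_natCast]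
    · exact ae_of_all _ (fun ω => Nat.cast_nonneg _)
  set E0 : ℝ := ∫ ω, (nz (kac n ω) (Ioo a b) : ℝ) ∂(PP μ) with hE0
  have hE00 : 0 ≤ E0 := integral_nonneg (fun ω => Nat.cast_nonneg _)
  -- the crude bound
  have hSu := hS univ MeasurableSet.univ
  rw [Measure.restrict_univ, probReal_univ, mul_one] at hSu
  have hL : E0 ≤ CS * 102 * (m : ℝ) ^ (1 / 100 : ℝ) := by
    have h1 : ENNReal.ofReal E0 ≤
        ENNReal.ofReal (CS * ((1 + Real.log m) + (m : ℝ) ^ (-(1 / 10) : ℝ))) := by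
      rw [← hI0]
      refine le_trans (lintegral_mono ?_) hSu
      intro ω
      have := w_shift_le n ω a b 0
      rw [Polynomial.C_0, add_zero] at this
      change (nz (kac n ω) (Ioo a b) : ℝ≥0∞) ≤
        1 + (nz (kac n ω).derivative (Icc a b) : ℝ≥0∞)
      exact_mod_cast this
    have h2 := (ENNReal.ofReal_le_ofReal_iff (by positivity)).1 h1
    nlinarith
  refine ⟨hL, ?_⟩
  intro K hK hcomp
  have hMM := w_M μ hμ n a b A K hab hA hK hcomp
  have hMT := w_MT μ hμ n a b A τ (CM * (m : ℝ) ^ (3 / 2 : ℝ)) hab hA hτ0 (by positivity) hM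
  have hSB := hS B hBm
  have htf := w_tail_fej A τ hA hτ0
  rw [hI0] at hcore
  set R : ℝ := ∫ x in a..b, rho n x with hR
  have hR0 : 0 ≤ R := intervalIntegral.integral_nonneg hab.le (fun x _ => w_rho_nonneg n x)
  set δ' : ℝ := CS * ((1 + Real.log m) * (PP μ).real B + (m : ℝ) ^ (-(1 / 10) : ℝ)) with hδ'
  have hPB0 : 0 ≤ (PP μ).real B := measureReal_nonneg
  have hδ0 : 0 ≤ δ' := by positivity
  have hbK : 0 ≤ (b - a) * K := mul_nonneg (by linarith) hK
  have ht0 : 0 ≤ 4 / (cst * A * τ) := by positivity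
  have hMT0 : 0 ≤ (b - a) * (CM * (m : ℝ) ^ (3 / 2 : ℝ) * (2 / (cst * A * τ ^ 2))) :=
    mul_nonneg (by linarith) (by positivity)
  have hi : E0 ≤ R + (b - a) * K + δ' + E0 * (4 / (cst * A * τ)) := by
    have h1 : ENNReal.ofReal E0 ≤ ENNReal.ofReal (R + (b - a) * K + δ' +
        E0 * (4 / (cst * A * τ))) := by
      rw [ENNReal.ofReal_add (by positivity) (by positivity),
        ENNReal.ofReal_add (by positivity) hδ0, ENNReal.ofReal_add hR0 hbK,
        ENNReal.ofReal_mul hE00]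
      refine hcore.1.trans ?_
      gcongr
      exact hMM.1
    exact (ENNReal.ofReal_le_ofReal_iff (by positivity)).1 h1
  have hii : R ≤ E0 + δ' + (b - a) * (CM * (m : ℝ) ^ (3 / 2 : ℝ) * (2 / (cst * A * τ ^ 2))) +
      (b - a) * K := by
    have h1 : ENNReal.ofReal R ≤ ENNReal.ofReal (E0 + δ' +
        (b - a) * (CM * (m : ℝ) ^ (3 / 2 : ℝ) * (2 / (cst * A * τ ^ 2))) + (b - a) * K) := by
      rw [ENNReal.ofReal_add (by positivity) hbK,
        ENNReal.ofReal_add (by positivity) hMT0, ENNReal.ofReal_add hE00 hδ0]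
      refine hMM.2.trans ?_
      gcongr
      refine hcore.2.trans ?_
      gcongr
    exact (ENNReal.ofReal_le_ofReal_iff (by positivity)).1 h1
  -- numerical estimates
  have hδb : δ' ≤ CS * (101 * CN + 1) * q := by
    have e1 : (1 + Real.log m) * (PP μ).real B ≤ 101 * CN * q := by
      calc (1 + Real.log m) * (PP μ).real B
          ≤ (101 * (m : ℝ) ^ (1 / 100 : ℝ)) * (CN * (m : ℝ) ^ (-(1 / 20) : ℝ)) :=
            mul_le_mul hlog hBP hPB0 (by positivity)
        _ = 101 * CN * ((m : ℝ) ^ (1 / 100 : ℝ) * (m : ℝ) ^ (-(1 / 20) : ℝ)) := by ring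
        _ = 101 * CN * q := by
            rw [← Real.rpow_add hm0, hq]
            norm_num
    rw [hδ']
    nlinarith
  have htb : E0 * (4 / (cst * A * τ)) ≤ CS * 408 / (cst * A) * q := by
    have e1 : (m : ℝ) ^ (1 / 100 : ℝ) / τ ≤ q := by
      rw [hτ, ← Real.rpow_sub hm0, hq]
      exact Real.rpow_le_rpow_of_exponent_le hm1 (by norm_num)
    calc E0 * (4 / (cst * A * τ)) ≤ (CS * 102 * (m : ℝ) ^ (1 / 100 : ℝ)) * (4 / (cst * A * τ)) :=
          mul_le_mul_of_nonneg_right hL ht0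
      _ = CS * 408 / (cst * A) * ((m : ℝ) ^ (1 / 100 : ℝ) / τ) := by
          field_simp
          ring
      _ ≤ _ := mul_le_mul_of_nonneg_left e1 (by positivity)
  have hMTb : (b - a) * (CM * (m : ℝ) ^ (3 / 2 : ℝ) * (2 / (cst * A * τ ^ 2))) ≤
      CM * 2 / (cst * A) * q := by
    have e1 : 1 / (m : ℝ) * (m : ℝ) ^ (3 / 2 : ℝ) / τ ^ 2 ≤ q := by
      have e2 : τ ^ 2 = (m : ℝ) ^ (3 / 5 : ℝ) := by
        rw [hτ, ← Real.rpow_natCast, ← Real.rpow_mul hm0.le]
        norm_num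
      have e3 : 1 / (m : ℝ) = (m : ℝ) ^ (-1 : ℝ) := by
        rw [Real.rpow_neg_one, one_div]
      rw [e2, e3, ← Real.rpow_add hm0, ← Real.rpow_sub hm0, hq]
      exact Real.rpow_le_rpow_of_exponent_le hm1 (by norm_num)
    calc (b - a) * (CM * (m : ℝ) ^ (3 / 2 : ℝ) * (2 / (cst * A * τ ^ 2)))
        ≤ (1 / (m : ℝ)) * (CM * (m : ℝ) ^ (3 / 2 : ℝ) * (2 / (cst * A * τ ^ 2))) :=
          mul_le_mul_of_nonneg_right hW.hlen (by positivity)
      _ = CM * 2 / (cst * A) * (1 / (m : ℝ) * (m : ℝ) ^ (3 / 2 : ℝ) / τ ^ 2) := by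
          field_simp
      _ ≤ _ := mul_le_mul_of_nonneg_left e1 (by positivity)
  have hfin : (CS * (101 * CN + 1) + (CS * 408 + CM * 2) / (cst * A)) * q =
      CS * (101 * CN + 1) * q + CS * 408 / (cst * A) * q + CM * 2 / (cst * A) * q := by
    rw [add_div]
    ring
  have hp1' : 0 ≤ CS * 408 / (cst * A) * q := by positivity
  have hp2' : 0 ≤ CM * 2 / (cst * A) * q := by positivity
  rw [hfin, abs_le]
  constructor
  · linarith
  · linarith

/-! TARGET -/
theorem window (μ : Measure ℝ) (hμ : Std μ) (hD : DComp μ) (hN : NearD μ) (hL : LogZ μ)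
    (hC : Crude μ) (h1 : SB1 μ) (hM : Mom μ) : WindowEst μ := by
  have hP := hμ.prob
  have hc := cst_pos
  obtain ⟨A, hA, CD, hCD, m0, hD⟩ := hD
  obtain ⟨CN, hCN, hN⟩ := hN
  obtain ⟨CS, hCS, hS⟩ := small_set μ hμ hL hC
  obtain ⟨C1, hC1, h1⟩ := h1
  obtain ⟨CM, hCM, hM⟩ := hM
  obtain ⟨CW, hCW, hCWb⟩ := w_SC
  set c1 : ℝ := CS * (101 * CN + 1) + (CS * 408 + CM * 2) / (cst * A) with hc1
  have hc10 : 0 ≤ c1 := by positivity
  set c2 : ℝ := (CS * 102 * m0 + Real.sqrt (CW * (m0 : ℝ) ^ 3)) * m0 with hc2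
  have hc20 : 0 ≤ c2 := by positivity
  refine ⟨CD + c1 + c2 + 2 * C1, by positivity, ?_⟩
  intro n m a b hW S hS1 hS2
  have hab := hW.hab
  have hm2 := hW.hm
  have hmr : (2 : ℝ) ≤ m := by exact_mod_cast hm2
  have hm1 : (1 : ℝ) ≤ m := by linarith
  have hm0 : (0 : ℝ) < m := by linarith
  have hAA := w_AA_nonneg μ m
  set q : ℝ := (m : ℝ) ^ (-(1 / 25) : ℝ) with hq
  have hq0 : 0 < q := Real.rpow_pos_of_pos hm0 _
  have hadm : ∀ x ∈ Icc a b, Adm n m x := fun x hx => w_adm n m a b x hW hx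
  obtain ⟨hE, hmain⟩ := w_window μ hμ A CN CS CM hA hCN hCS hCM n m a b hW (hN n m a b hW)
    (fun B hB => hS n m a b hW B hB) (fun x hx => (hM n m x (hadm x hx)).2.1)
  set E0 : ℝ := ∫ ω, (nz (kac n ω) (Ioo a b) : ℝ) ∂(PP μ) with hE0
  have hE00 : 0 ≤ E0 := integral_nonneg (fun ω => Nat.cast_nonneg _)
  set R : ℝ := ∫ x in a..b, rho n x with hR
  have hR0 : 0 ≤ R := intervalIntegral.integral_nonneg hab.le (fun x _ => w_rho_nonneg n x)
  -- the open interval
  have hJ : |E0 - R| ≤ (CD + c1 + c2) * (AA μ m + q) := by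
    by_cases hmm : m0 ≤ m
    · have hK0 : 0 ≤ CD * m * (AA μ m + (m : ℝ) ^ (-(1 / 4) : ℝ)) := by
        have : 0 < (m : ℝ) ^ (-(1 / 4) : ℝ) := Real.rpow_pos_of_pos hm0 _
        positivity
      have h2 := hmain (CD * m * (AA μ m + (m : ℝ) ^ (-(1 / 4) : ℝ))) hK0
        (fun x hx => hD n m x hmm (hadm x (Ioo_subset_Icc_self hx)))
      have h3 : (b - a) * (CD * m * (AA μ m + (m : ℝ) ^ (-(1 / 4) : ℝ))) ≤
          CD * (AA μ m + q) := by
        have e1 : (m : ℝ) ^ (-(1 / 4) : ℝ) ≤ q :=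
          Real.rpow_le_rpow_of_exponent_le hm1 (by norm_num)
        calc (b - a) * (CD * m * (AA μ m + (m : ℝ) ^ (-(1 / 4) : ℝ)))
            ≤ (1 / (m : ℝ)) * (CD * m * (AA μ m + (m : ℝ) ^ (-(1 / 4) : ℝ))) :=
              mul_le_mul_of_nonneg_right hW.hlen hK0
          _ = CD * (AA μ m + (m : ℝ) ^ (-(1 / 4) : ℝ)) := by
              field_simp
          _ ≤ _ := mul_le_mul_of_nonneg_left (by linarith) hCD.le
      have h4 : c1 * q ≤ c1 * (AA μ m + q) := mul_le_mul_of_nonneg_left (by linarith) hc10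
      have h5 : 0 ≤ c2 * (AA μ m + q) := by positivity
      calc |E0 - R| ≤ _ := h2
        _ ≤ CD * (AA μ m + q) + c1 * (AA μ m + q) + c2 * (AA μ m + q) := by linarith
        _ = _ := by ring
    · push Not at hmm
      have hmm' : (m : ℝ) ≤ m0 := by exact_mod_cast hmm.le
      have hm00 : (0 : ℝ) < m0 := by linarith
      have hE2 : E0 ≤ CS * 102 * m0 := by
        have e1 : (m : ℝ) ^ (1 / 100 : ℝ) ≤ m := by
          calc (m : ℝ) ^ (1 / 100 : ℝ) ≤ (m : ℝ) ^ (1 : ℝ) :=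
                Real.rpow_le_rpow_of_exponent_le hm1 (by norm_num)
            _ = m := Real.rpow_one _
        calc E0 ≤ CS * 102 * (m : ℝ) ^ (1 / 100 : ℝ) := hE
          _ ≤ CS * 102 * m0 := mul_le_mul_of_nonneg_left (e1.trans hmm') (by positivity)
      have hR2 : R ≤ Real.sqrt (CW * (m0 : ℝ) ^ 3) := by
        have e1 : ∀ x ∈ Icc a b, rho n x ≤ Real.sqrt (CW * (m0 : ℝ) ^ 3) := by
          intro x hx
          refine (w_rho_le n x).trans (Real.sqrt_le_sqrt ?_)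
          refine (hCWb n m x (hadm x hx)).trans ?_
          exact mul_le_mul_of_nonneg_left (pow_le_pow_left₀ hm0.le hmm' 3) hCW.le
        have e2 : R ≤ ∫ _x in a..b, Real.sqrt (CW * (m0 : ℝ) ^ 3) := by
          refine intervalIntegral.integral_mono_on hab.le ?_ ?_ e1
          · exact (w_rho_cont n).intervalIntegrable _ _
          · exact intervalIntegrable_const
        rw [intervalIntegral.integral_const, smul_eq_mul] at e2
        have e3 : b - a ≤ 1 := by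
          have := hW.hlen
          have e4 : 1 / (m : ℝ) ≤ 1 := by
            rw [div_le_one hm0]
            exact hm1
          linarith
        have e5 := Real.sqrt_nonneg (CW * (m0 : ℝ) ^ 3)
        nlinarith
      have hq1 : 1 ≤ m0 * q := by
        have e1 : (m : ℝ) ^ (-1 : ℝ) ≤ q :=
          Real.rpow_le_rpow_of_exponent_le hm1 (by norm_num)
        rw [Real.rpow_neg_one] at e1
        have e2 : (m : ℝ) * (m : ℝ)⁻¹ = 1 := mul_inv_cancel₀ hm0.ne'
        calc (1 : ℝ) = (m : ℝ) * (m : ℝ)⁻¹ := e2.symm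
          _ ≤ m0 * q := mul_le_mul hmm' e1 (by positivity) hm00.le
      have h6 : |E0 - R| ≤ CS * 102 * m0 + Real.sqrt (CW * (m0 : ℝ) ^ 3) := by
        rw [abs_le]
        have e5 := Real.sqrt_nonneg (CW * (m0 : ℝ) ^ 3)
        have e6 : 0 ≤ CS * 102 * m0 := by positivity
        constructor
        · linarith
        · linarith
      have h7 : CS * 102 * m0 + Real.sqrt (CW * (m0 : ℝ) ^ 3) ≤ c2 * q := by
        have e6 : 0 ≤ CS * 102 * m0 + Real.sqrt (CW * (m0 : ℝ) ^ 3) := by positivity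
        have e7 := le_mul_of_one_le_right e6 hq1
        rw [← mul_assoc] at e7
        exact e7
      have h8 : c2 * q ≤ c2 * (AA μ m + q) := mul_le_mul_of_nonneg_left (by linarith) hc20
      have h9 : 0 ≤ (CD + c1) * (AA μ m + q) := by positivity
      calc |E0 - R| ≤ c2 * (AA μ m + q) := h6.trans (h7.trans h8)
        _ ≤ (CD + c1) * (AA μ m + q) + c2 * (AA μ m + q) := by linarith
        _ = _ := by ring
  -- the end points
  obtain ⟨εa, εb, hεa, hεb, hsp⟩ := w_split n a b hab S hS1 hS2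
  have hsing : ∀ x ∈ Icc a b, ∫ ω, (nz (kac n ω) {x} : ℝ) ∂(PP μ) ≤ C1 * q := by
    intro x hx
    refine (w_single μ hμ n x).trans ?_
    refine (h1 n m x 1 (hadm x hx) le_rfl).trans ?_
    have e1 : (m : ℝ) ^ (-(1 / 2) : ℝ) ≤ q :=
      Real.rpow_le_rpow_of_exponent_le hm1 (by norm_num)
    rw [mul_one]
    exact mul_le_mul_of_nonneg_left e1 hC1.le
  have hES : ∫ ω, (nz (kac n ω) S : ℝ) ∂(PP μ) = E0 +
      εa * ∫ ω, (nz (kac n ω) {a} : ℝ) ∂(PP μ) + εb * ∫ ω, (nz (kac n ω) {b} : ℝ) ∂(PP μ) := by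
    have e1 : (fun ω => (nz (kac n ω) S : ℝ)) = fun ω => (nz (kac n ω) (Ioo a b) : ℝ) +
        εa * (nz (kac n ω) {a} : ℝ) + εb * (nz (kac n ω) {b} : ℝ) := by
      funext ω
      rw [hsp ω]
      push_cast
      ring
    rw [e1, integral_add, integral_add, integral_const_mul, integral_const_mul]
    · exact w_int_J μ hμ n a b
    · exact (w_int_s μ hμ n a).const_mul _
    · exact (w_int_J μ hμ n a b).add ((w_int_s μ hμ n a).const_mul _)
    · exact (w_int_s μ hμ n b).const_mul _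
  have ha1 := hsing a (left_mem_Icc.2 hab.le)
  have hb1 := hsing b (right_mem_Icc.2 hab.le)
  have ha0 : 0 ≤ ∫ ω, (nz (kac n ω) {a} : ℝ) ∂(PP μ) :=
    integral_nonneg (fun ω => Nat.cast_nonneg _)
  have hb0 : 0 ≤ ∫ ω, (nz (kac n ω) {b} : ℝ) ∂(PP μ) :=
    integral_nonneg (fun ω => Nat.cast_nonneg _)
  have hεa' : (εa : ℝ) ≤ 1 := by exact_mod_cast hεa
  have hεb' : (εb : ℝ) ≤ 1 := by exact_mod_cast hεb
  have hεa0 : (0 : ℝ) ≤ εa := Nat.cast_nonneg _
  have hεb0 : (0 : ℝ) ≤ εb := Nat.cast_nonneg _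
  rw [hES]
  have g1 : (εa : ℝ) * ∫ ω, (nz (kac n ω) {a} : ℝ) ∂(PP μ) ≤ C1 * q :=
    (mul_le_of_le_one_left ha0 hεa').trans ha1
  have g2 : (εb : ℝ) * ∫ ω, (nz (kac n ω) {b} : ℝ) ∂(PP μ) ≤ C1 * q :=
    (mul_le_of_le_one_left hb0 hεb').trans hb1
  have g3 : 0 ≤ (εa : ℝ) * ∫ ω, (nz (kac n ω) {a} : ℝ) ∂(PP μ) := mul_nonneg hεa0 ha0
  have g4 : 0 ≤ (εb : ℝ) * ∫ ω, (nz (kac n ω) {b} : ℝ) ∂(PP μ) := mul_nonneg hεb0 hb0
  have g5 : 2 * C1 * q ≤ 2 * C1 * (AA μ m + q) :=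
    mul_le_mul_of_nonneg_left (by linarith) (by positivity)
  have g6 : (CD + c1 + c2 + 2 * C1) * (AA μ m + q) =
      (CD + c1 + c2) * (AA μ m + q) + 2 * C1 * (AA μ m + q) := by ring
  rw [abs_le] at hJ
  rw [abs_le, g6]
  have g7 : 0 ≤ 2 * C1 * (AA μ m + q) := by positivity
  constructor
  · linarith [hJ.1]
  · linarith [hJ.2]


end K6
end Kac764
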