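import Pool.Agent.Helper764.KacDefs

set_option autoImplicit false
set_option maxHeartbeats 4000000
open MeasureTheory ProbabilityTheory Filter Topology Set
open scoped ENNReal NNReal

namespace Kac764
namespace H1

theorem AA_nonneg (μ : Measure ℝ) (m : ℕ) : 0 ≤ AA μ m := by
  unfold AA
  exact integral_nonneg fun x => mul_nonneg (sq_nonneg x)
    (le_min (div_nonneg (abs_nonneg _) (Real.sqrt_nonneg _))
      (div_nonneg (Real.sqrt_nonneg _) (abs_nonneg _)))

/-- potential function -/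
noncomputable def psiH1 (u : ℝ) : ℝ := if u ≤ 1 then 4 * u else 4 * (2 - 1 / u)

theorem psiH1_nonneg (u : ℝ) (hu : 0 < u) : 0 ≤ psiH1 u := by
  unfold psiH1
  split_ifs with h
  · positivity
  · have : 1 / u ≤ 1 := by
      rw [div_le_one hu]
      linarith
    linarith

theorem psiH1_le (u : ℝ) (hu : 0 < u) : psiH1 u ≤ 8 := by
  unfold psiH1
  split_ifs with h
  · linarith
  · have : 0 < 1 / u := by positivity
    linarith

theorem sqrt2_bounds : 1.414 < Real.sqrt 2 ∧ Real.sqrt 2 < 1.415 := by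
  constructor
  · rw [Real.lt_sqrt (by norm_num)]
    norm_num
  · rw [Real.sqrt_lt' (by norm_num)]
    norm_num

theorem psiH1_step (u : ℝ) (hu : 0 < u) :
    min u (1 / u) ≤ psiH1 u - psiH1 (u / Real.sqrt 2) := by
  obtain ⟨h1, h2⟩ := sqrt2_bounds
  have hs : Real.sqrt 2 * Real.sqrt 2 = 2 := Real.mul_self_sqrt (by norm_num)
  have hs0 : 0 < Real.sqrt 2 := by linarith
  have hdiv : u / Real.sqrt 2 = u * (Real.sqrt 2 / 2) := by
    rw [div_eq_iff hs0.ne']
    linear_combination (-u / 2) * hs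
  generalize Real.sqrt 2 = q at *
  unfold psiH1
  rcases le_or_gt u 1 with hu1 | hu1
  · rw [if_pos hu1, if_pos (by rw [div_le_one hs0]; linarith)]
    refine (min_le_left _ _).trans ?_
    rw [hdiv]
    nlinarith
  · rw [if_neg (not_le.mpr hu1)]
    refine (min_le_right _ _).trans ?_
    rcases le_or_gt u q with huq | huq
    · rw [if_pos (by rw [div_le_one hs0]; exact huq), hdiv]
      have h3 : (u - 1) * (q - u) ≥ 0 := mul_nonneg (by linarith) (by linarith)
      have h4 : 1 ≤ u * (4 * (2 - 1 / u) - 4 * (u * (q / 2))) := by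
        have e : u * (4 * (2 - 1 / u) - 4 * (u * (q / 2))) = 8 * u - 4 - 2 * q * u ^ 2 := by
          field_simp
          ring
        rw [e]
        have h5 : u ^ 2 ≤ (1 + q) * u - q := by nlinarith
        have h6 : 2 * q * u ^ 2 ≤ 2 * q * ((1 + q) * u - q) :=
          mul_le_mul_of_nonneg_left h5 (by linarith)
        have h7 : 2 * q * ((1 + q) * u - q) = (2 * q + 4) * u - 4 := by
          linear_combination (2 * u - 2) * hs
        nlinarith
      rw [div_le_iff₀ hu]
      linarith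
    · rw [if_neg (by rw [div_le_one hs0]; exact not_le.mpr huq)]
      have e : 4 * (2 - 1 / u) - 4 * (2 - 1 / (u / q)) = 4 * (q - 1) * (1 / u) := by
        field_simp
        ring
      rw [e]
      have h3 : 0 < 1 / u := by positivity
      nlinarith

theorem H1_sum (y : ℝ) (hy : 0 < y) (N : ℕ) :
    ∑ k ∈ Finset.range N, min (y / (Real.sqrt 2) ^ k) (1 / (y / (Real.sqrt 2) ^ k)) ≤
      psiH1 y - psiH1 (y / (Real.sqrt 2) ^ N) := by
  have hs0 : 0 < Real.sqrt 2 := by linarith [sqrt2_bounds.1]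
  induction N with
  | zero => simp
  | succ N ih =>
    rw [Finset.sum_range_succ]
    have h1 := psiH1_step (y / (Real.sqrt 2) ^ N) (by positivity)
    rw [div_div, ← pow_succ] at h1
    linarith

theorem H1_sqrt (k : ℕ) : Real.sqrt ((2 ^ k : ℕ) : ℝ) = (Real.sqrt 2) ^ k := by
  rw [Nat.cast_pow, Nat.cast_ofNat]
  exact (Real.sqrt_eq_iff_mul_self_eq (by positivity) (by positivity)).mpr (by
    rw [← mul_pow, Real.mul_self_sqrt (by norm_num)])

theorem H1_pt (x : ℝ) (N : ℕ) :
    ∑ k ∈ Finset.range N, min (|x| / Real.sqrt ((2 ^ k : ℕ) : ℝ))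
      (Real.sqrt ((2 ^ k : ℕ) : ℝ) / |x|) ≤ 8 := by
  have hs0 : 0 < Real.sqrt 2 := by linarith [sqrt2_bounds.1]
  rcases eq_or_ne x 0 with hx | hx
  · subst hx
    simp
  · have hy : 0 < |x| := abs_pos.mpr hx
    have h1 := H1_sum |x| hy N
    have h2 := psiH1_le |x| hy
    have h3 := psiH1_nonneg (|x| / (Real.sqrt 2) ^ N) (by positivity)
    refine le_trans (le_of_eq ?_) (h1.trans (by linarith))
    refine Finset.sum_congr rfl fun k _ => ?_
    rw [H1_sqrt, one_div_div]

theorem H1_min_le (x : ℝ) (m : ℕ) :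
    min (|x| / Real.sqrt m) (Real.sqrt m / |x|) ≤ 1 := by
  rcases le_total (|x|) (Real.sqrt m) with h | h
  · exact (min_le_left _ _).trans (div_le_one_of_le₀ h (Real.sqrt_nonneg _))
  · exact (min_le_right _ _).trans (div_le_one_of_le₀ h (abs_nonneg _))

theorem H1_min_nonneg (x : ℝ) (m : ℕ) :
    0 ≤ min (|x| / Real.sqrt m) (Real.sqrt m / |x|) :=
  le_min (div_nonneg (abs_nonneg _) (Real.sqrt_nonneg _))
      (div_nonneg (Real.sqrt_nonneg _) (abs_nonneg _))

theorem H1_int (μ : Measure ℝ) (hμ : Std μ) (m : ℕ) :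
    Integrable (fun x : ℝ => x ^ 2 * min (|x| / Real.sqrt m) (Real.sqrt m / |x|)) μ := by
  refine hμ.int2.mono' ?_ (Eventually.of_forall fun x => ?_)
  · apply Measurable.aestronglyMeasurable
    fun_prop
  · rw [Real.norm_eq_abs, abs_of_nonneg (mul_nonneg (sq_nonneg x) (H1_min_nonneg x m))]
    exact mul_le_of_le_one_right (sq_nonneg x) (H1_min_le x m)

theorem AA_summable (μ : Measure ℝ) (hμ : Std μ) : Summable (fun k : ℕ => AA μ (2 ^ k)) := by
  refine summable_of_sum_range_le (c := 8) (fun k => AA_nonneg μ (2 ^ k)) fun N => ?_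
  unfold AA
  rw [← integral_finsetSum _ (fun k _ => H1_int μ hμ (2 ^ k))]
  have h8 : ∫ x, 8 * x ^ 2 ∂μ = 8 := by
    rw [integral_const_mul, hμ.var, mul_one]
  rw [← h8]
  refine integral_mono (integrable_finsetSum _ fun k _ => H1_int μ hμ (2 ^ k))
    (hμ.int2.const_mul 8) fun x => ?_
  change ∑ k ∈ Finset.range N, x ^ 2 * min (|x| / Real.sqrt ((2 ^ k : ℕ) : ℝ))
      (Real.sqrt ((2 ^ k : ℕ) : ℝ) / |x|) ≤ 8 * x ^ 2
  rw [← Finset.mul_sum]
  have h1 := H1_pt x N
  have h2 := sq_nonneg x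
  nlinarith


end H1
end Kac764
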