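import Pool.Agent.Helper764.KacDefs

set_option autoImplicit false
set_option maxHeartbeats 4000000
open MeasureTheory ProbabilityTheory Filter Topology Set
open scoped ENNReal NNReal

namespace Kac764
namespace H2


theorem j12038_SA_one (n : ℕ) (x : ℝ) : 1 ≤ SA n x := by
  unfold SA
  rw [Finset.sum_range_succ']
  have : 0 ≤ ∑ k ∈ Finset.range n, (x ^ (k + 1)) ^ 2 := Finset.sum_nonneg fun i _ => sq_nonneg _
  simp only [pow_zero, one_pow]
  linarith

theorem j12038_SC_nonneg (n : ℕ) (x : ℝ) : 0 ≤ SC n x := by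
  unfold SC
  exact Finset.sum_nonneg fun i _ => sq_nonneg _

theorem j12038_SC_eq (n : ℕ) (x : ℝ) :
    SC n x = ∑ i ∈ Finset.range n, ((i : ℝ) + 1) ^ 2 * (x ^ 2) ^ i := by
  unfold SC
  rw [Finset.sum_range_succ']
  simp only [Nat.cast_zero, zero_mul, ne_eq, OfNat.ofNat_ne_zero, not_false_eq_true, zero_pow, add_zero,
    Nat.add_sub_cancel]
  apply Finset.sum_congr rfl
  intro i _
  push_cast
  rw [mul_pow, ← pow_mul, ← pow_mul, mul_comm i 2]

theorem j12038_SB_eq (n : ℕ) (x : ℝ) :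
    SB n x = x * ∑ i ∈ Finset.range n, ((i : ℝ) + 1) * (x ^ 2) ^ i := by
  unfold SB
  rw [Finset.sum_range_succ']
  simp only [Nat.cast_zero, zero_mul, mul_zero, add_zero, Nat.add_sub_cancel]
  rw [Finset.mul_sum]
  apply Finset.sum_congr rfl
  intro i _
  push_cast
  rw [← pow_mul, two_mul, pow_add]
  ring

theorem j12038_SA_eq (n : ℕ) (x : ℝ) : SA n x = ∑ i ∈ Finset.range (n + 1), (x ^ 2) ^ i := by
  unfold SA
  apply Finset.sum_congr rfl
  intro i _
  rw [← pow_mul, ← pow_mul, mul_comm]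

theorem j12038_hs1 (y : ℝ) (hy : ‖y‖ < 1) : HasSum (fun i : ℕ => ((i : ℝ) + 1) * y ^ i) (1 / (1 - y) ^ 2) := by
  have h := hasSum_choose_mul_geometric_of_norm_lt_one 1 hy
  simpa using h

theorem j12038_choose2 (i : ℕ) : (((i + 2).choose 2 : ℕ) : ℝ) = ((i : ℝ) + 2) * (i + 1) / 2 := by
  rw [Nat.cast_choose_two]
  push_cast
  ring

theorem j12038_hs2 (y : ℝ) (hy : ‖y‖ < 1) :
    HasSum (fun i : ℕ => ((i : ℝ) + 1) ^ 2 * y ^ i) ((1 + y) / (1 - y) ^ 3) := by
  have h := (hasSum_choose_mul_geometric_of_norm_lt_one 2 hy).mul_left 2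
  have h2 := h.sub (j12038_hs1 y hy)
  have hy1 : 1 - y ≠ 0 := by
    intro h0
    have : y = 1 := by linarith
    rw [this] at hy
    simp at hy
  have e : 2 * (1 / (1 - y) ^ (2 + 1)) - 1 / (1 - y) ^ 2 = (1 + y) / (1 - y) ^ 3 := by
    field_simp
    ring
  rw [e] at h2
  refine h2.congr_fun ?_
  intro i
  rw [j12038_choose2]
  ring

theorem j12038_tendsto (x : ℝ) (hx : |x| < 1) :
    Tendsto (fun n : ℕ => rho n x) atTop (𝓝 (1 / (Real.pi * (1 - x ^ 2)))) := by
  have hy0 : 0 ≤ x ^ 2 := sq_nonneg x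
  have hy1 : x ^ 2 < 1 := by rw [← sq_abs]; exact pow_lt_one₀ (abs_nonneg x) hx (by norm_num)
  have hyn : ‖x ^ 2‖ < 1 := by rw [Real.norm_eq_abs, abs_of_nonneg hy0]; exact hy1
  have hp : 0 < 1 - x ^ 2 := by linarith
  have hA : Tendsto (fun n : ℕ => SA n x) atTop (𝓝 (1 - x ^ 2)⁻¹) := by
    simp_rw [j12038_SA_eq]
    exact (tendsto_add_atTop_iff_nat 1).2 (hasSum_geometric_of_lt_one hy0 hy1).tendsto_sum_nat
  have hB : Tendsto (fun n : ℕ => SB n x) atTop (𝓝 (x * (1 / (1 - x ^ 2) ^ 2))) := by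
    simp_rw [j12038_SB_eq]
    exact (j12038_hs1 _ hyn).tendsto_sum_nat.const_mul x
  have hC : Tendsto (fun n : ℕ => SC n x) atTop (𝓝 ((1 + x ^ 2) / (1 - x ^ 2) ^ 3)) := by
    simp_rw [j12038_SC_eq]
    exact (j12038_hs2 _ hyn).tendsto_sum_nat
  have hD := (((hA.mul hC).sub (hB.pow 2)).sqrt.const_mul (1 / Real.pi)).div hA (by positivity)
  have e1 : (1 - x ^ 2)⁻¹ * ((1 + x ^ 2) / (1 - x ^ 2) ^ 3) - (x * (1 / (1 - x ^ 2) ^ 2)) ^ 2 =
      (1 / (1 - x ^ 2) ^ 2) ^ 2 := by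
    field_simp
    ring
  rw [e1, Real.sqrt_sq (by positivity)] at hD
  have e2 : 1 / Real.pi * (1 / (1 - x ^ 2) ^ 2) / (1 - x ^ 2)⁻¹ = 1 / (Real.pi * (1 - x ^ 2)) := by
    have := Real.pi_pos
    field_simp
  rw [e2] at hD
  exact hD

theorem j12038_bound (r : ℝ) (hr1 : r < 1) (n : ℕ) (x : ℝ) (hx : |x| ≤ r) :
    ‖rho n x‖ ≤ Real.sqrt ((1 + r ^ 2) / (1 - r ^ 2) ^ 3) := by
  have hr0 : 0 ≤ r := le_trans (abs_nonneg x) hx
  have hA := j12038_SA_one n x
  have hC := j12038_SC_nonneg n x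
  have hA0 : 0 < SA n x := by linarith
  have hr2 : r ^ 2 < 1 := pow_lt_one₀ hr0 hr1 (by norm_num)
  have hx2 : x ^ 2 ≤ r ^ 2 := by
    rw [← sq_abs]; exact pow_le_pow_left₀ (abs_nonneg x) hx 2
  have h1 : SC n x ≤ (1 + r ^ 2) / (1 - r ^ 2) ^ 3 := by
    rw [j12038_SC_eq]
    have h2 := sum_le_hasSum (Finset.range n) (fun i _ => by positivity)
      (j12038_hs2 (r ^ 2) (by rw [Real.norm_eq_abs, abs_of_nonneg (sq_nonneg r)]; exact hr2))
    refine le_trans (Finset.sum_le_sum fun i _ => ?_) h2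
    exact mul_le_mul_of_nonneg_left (pow_le_pow_left₀ (sq_nonneg x) hx2 i) (by positivity)
  have h3 : Real.sqrt (SA n x * SC n x - SB n x ^ 2) ≤ SA n x * Real.sqrt (SC n x) := by
    rw [Real.sqrt_le_left (by positivity), mul_pow, Real.sq_sqrt hC]
    have h4 : 0 ≤ SB n x ^ 2 := sq_nonneg _
    have h5 : SA n x * SC n x ≤ SA n x ^ 2 * SC n x := by
      apply mul_le_mul_of_nonneg_right _ hC
      nlinarith
    linarith
  have hpi : 1 / Real.pi ≤ 1 := by
    rw [div_le_one Real.pi_pos]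
    linarith [Real.pi_gt_three]
  have hpi0 : 0 < 1 / Real.pi := by have := Real.pi_pos; positivity
  unfold rho
  rw [Real.norm_eq_abs, abs_of_nonneg (by positivity), div_le_iff₀ hA0]
  have h6 : Real.sqrt (SC n x) ≤ Real.sqrt ((1 + r ^ 2) / (1 - r ^ 2) ^ 3) := Real.sqrt_le_sqrt h1
  calc 1 / Real.pi * Real.sqrt (SA n x * SC n x - SB n x ^ 2) ≤
        1 * (SA n x * Real.sqrt (SC n x)) := by
        apply mul_le_mul hpi h3 (Real.sqrt_nonneg _) (by norm_num)
    _ ≤ 1 * (SA n x * Real.sqrt ((1 + r ^ 2) / (1 - r ^ 2) ^ 3)) := by gcongr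
    _ = _ := by ring

theorem rho_neg (n : ℕ) (x : ℝ) : rho n (-x) = rho n x := by
  have hA : SA n (-x) = SA n x := by
    rw [j12038_SA_eq, j12038_SA_eq, neg_sq]
  have hB : SB n (-x) = - SB n x := by
    rw [j12038_SB_eq, j12038_SB_eq, neg_sq]; ring
  have hC : SC n (-x) = SC n x := by
    rw [j12038_SC_eq, j12038_SC_eq, neg_sq]
  unfold rho
  rw [hA, hB, hC, neg_sq]

theorem rho_nonneg (n : ℕ) (x : ℝ) : 0 ≤ rho n x := by
  have hA := j12038_SA_one n x
  have hpi := Real.pi_pos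
  unfold rho
  positivity

theorem rho_continuous (n : ℕ) : Continuous (rho n) := by
  have hA : Continuous (SA n) := by unfold SA; fun_prop
  have hB : Continuous (SB n) := by unfold SB; fun_prop
  have hC : Continuous (SC n) := by unfold SC; fun_prop
  unfold rho
  apply Continuous.div _ hA
  · intro x
    have := j12038_SA_one n x
    linarith
  · exact continuous_const.mul (((hA.mul hC).sub (hB.pow 2)).sqrt)

theorem tendsto_int_rho (a b : ℝ) (ha : -1 < a) (hab : a ≤ b) (hb : b < 1) :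
    Tendsto (fun n : ℕ => ∫ x in a..b, rho n x) atTop (𝓝 (∫ x in a..b, 1 / (Real.pi * (1 - x ^ 2)))) := by
  have hr1 : max |a| |b| < 1 := by
    rw [max_lt_iff, abs_lt, abs_lt]
    exact ⟨⟨ha, by linarith⟩, ⟨by linarith, hb⟩⟩
  have hle : ∀ x ∈ Set.uIoc a b, |x| ≤ max |a| |b| := by
    intro x hx
    rw [Set.uIoc_of_le hab] at hx
    exact abs_le_max_abs_abs hx.1.le hx.2
  apply intervalIntegral.tendsto_integral_filter_of_dominated_convergence
    (fun _ => Real.sqrt ((1 + (max |a| |b|) ^ 2) / (1 - (max |a| |b|) ^ 2) ^ 3))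
  · exact Filter.Eventually.of_forall fun n => (rho_continuous n).aestronglyMeasurable
  · exact Filter.Eventually.of_forall fun n => Filter.Eventually.of_forall fun x hx =>
      j12038_bound _ hr1 n x (hle x hx)
  · exact intervalIntegrable_const
  · exact Filter.Eventually.of_forall fun x hx =>
      j12038_tendsto x (lt_of_le_of_lt (hle x hx) hr1)

theorem int_rhoInf (r : ℝ) (h0 : 0 ≤ r) (h1 : r < 1) :
    ∫ x in (0 : ℝ)..r, 1 / (Real.pi * (1 - x ^ 2)) = 1 / (2 * Real.pi) * Real.log ((1 + r) / (1 - r)) := by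
  have hpi := Real.pi_pos
  have hd : ∀ x ∈ Set.uIcc 0 r, HasDerivAt
      (fun x => 1 / (2 * Real.pi) * (Real.log (1 + x) - Real.log (1 - x)))
      (1 / (Real.pi * (1 - x ^ 2))) x := by
    intro x hx
    rw [Set.uIcc_of_le h0] at hx
    have e1 : 0 < 1 + x := by linarith [hx.1]
    have e2 : 0 < 1 - x := by linarith [hx.2]
    have d1 : HasDerivAt (fun x => Real.log (1 + x)) (1 / (1 + x)) x :=
      ((hasDerivAt_id x).const_add 1).log e1.ne'
    have d2 : HasDerivAt (fun x => Real.log (1 - x)) (-1 / (1 - x)) x :=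
      ((hasDerivAt_id x).const_sub 1).log e2.ne'
    refine HasDerivAt.congr_deriv ((d1.sub d2).const_mul (1 / (2 * Real.pi))) ?_
    have e3 : 1 - x ^ 2 = (1 + x) * (1 - x) := by ring
    rw [e3]
    field_simp
    ring
  rw [intervalIntegral.integral_eq_sub_of_hasDerivAt hd]
  · rw [Real.log_div (by linarith) (by linarith)]
    simp
  · apply ContinuousOn.intervalIntegrable
    intro x hx
    rw [Set.uIcc_of_le h0] at hx
    have e1 : 0 < 1 - x ^ 2 := by nlinarith [hx.1, hx.2]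
    apply ContinuousAt.continuousWithinAt
    apply ContinuousAt.div continuousAt_const (by fun_prop)
    positivity


end H2
end Kac764
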