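import Pool.Agent.Helper764.KacDefs

set_option autoImplicit false
set_option maxHeartbeats 4000000
open MeasureTheory ProbabilityTheory Filter Topology Set
open scoped ENNReal NNReal

namespace Kac764
namespace H3

/-! ### helper lemmas -/

lemma ka_SA (n : ℕ) (x : ℝ) : SA n x * (1 - x ^ 2) = 1 - (x ^ 2) ^ (n + 1) := by
  unfold SA
  induction n with
  | zero => simp
  | succ n ih =>
    rw [Finset.sum_range_succ, add_mul, ih]
    ring

lemma ka_SB (n : ℕ) (x : ℝ) : (x * SB n x) * (1 - x ^ 2) ^ 2 =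
    x ^ 2 - (n + 1) * (x ^ 2) ^ (n + 1) + n * (x ^ 2) ^ (n + 2) := by
  unfold SB
  induction n with
  | zero => simp
  | succ n ih =>
    rw [Finset.sum_range_succ, mul_add, add_mul, ih]
    simp only [Nat.add_sub_cancel]
    push_cast
    ring

lemma ka_SC (n : ℕ) (x : ℝ) : (x ^ 2 * SC n x) * (1 - x ^ 2) ^ 3 =
    x ^ 2 + x ^ 4 - (n + 1) ^ 2 * (x ^ 2) ^ (n + 1) +
      (2 * (n + 1) ^ 2 - 2 * (n + 1) - 1) * (x ^ 2) ^ (n + 2) - n ^ 2 * (x ^ 2) ^ (n + 3) := by
  unfold SC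
  induction n with
  | zero => simp; ring
  | succ n ih =>
    rw [Finset.sum_range_succ, mul_add, add_mul, ih]
    simp only [Nat.add_sub_cancel]
    push_cast
    ring

lemma ka_key (n : ℕ) (x : ℝ) :
    (x ^ 2 * (SA n x * SC n x - SB n x ^ 2)) * (1 - x ^ 2) ^ 4 =
      x ^ 2 * (1 - (x ^ 2) ^ (n + 1)) ^ 2 - ((n : ℝ) + 1) ^ 2 * (x ^ 2) ^ (n + 1) * (1 - x ^ 2) ^ 2 := by
  have e : (x ^ 2 * (SA n x * SC n x - SB n x ^ 2)) * (1 - x ^ 2) ^ 4 =
      (SA n x * (1 - x ^ 2)) * ((x ^ 2 * SC n x) * (1 - x ^ 2) ^ 3) -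
        ((x * SB n x) * (1 - x ^ 2) ^ 2) ^ 2 := by ring
  rw [e, ka_SA, ka_SB, ka_SC]
  ring

lemma ka_SA_pos (n : ℕ) {x : ℝ} (hx : 0 < x) : 0 < SA n x := by
  unfold SA
  refine Finset.sum_pos (fun j _ => by positivity) ?_
  exact ⟨0, Finset.mem_range.2 (Nat.succ_pos n)⟩

/-- the rescaled functions -/
noncomputable def pN (n : ℕ) (v : ℝ) : ℝ := 1 / (((n : ℝ) + 1) * Real.sinh (v / ((n : ℝ) + 1)))
noncomputable def hN (n : ℕ) (v : ℝ) : ℝ := Real.sqrt (pN n v ^ 2 - 1 / Real.sinh v ^ 2)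

lemma ka_rho (n : ℕ) {v : ℝ} (hv : 0 < v) :
    (Real.exp (-v / ((n : ℝ) + 1)) / ((n : ℝ) + 1)) * rho n (Real.exp (-v / ((n : ℝ) + 1))) =
      (1 / (2 * Real.pi)) * hN n v := by
  set N : ℝ := (n : ℝ) + 1 with hN'
  have hN0 : 0 < N := by positivity
  set x := Real.exp (-v / N) with hx
  have hx0 : 0 < x := Real.exp_pos _
  have hvN : 0 < v / N := by positivity
  set s := Real.sinh (v / N) with hs
  set S := Real.sinh v with hS
  have hs0 : 0 < s := Real.sinh_pos_iff.2 hvN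
  have hS0 : 0 < S := Real.sinh_pos_iff.2 hv
  have e1 : 1 - x ^ 2 = 2 * x * s := by
    rw [hs, Real.sinh_eq, hx, show -v / N = -(v / N) by ring]
    have h1 : Real.exp (-(v / N)) * Real.exp (v / N) = 1 := by
      rw [← Real.exp_add]; simp
    linear_combination (-1 : ℝ) * h1
  set Z := (x ^ 2) ^ (n + 1) with hZ
  have hZe : Z = Real.exp (-v) ^ 2 := by
    rw [hZ, hx, ← pow_mul, mul_comm 2 (n + 1), pow_mul, ← Real.exp_nat_mul]
    congr 2
    push_cast
    rw [← hN']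
    field_simp
  have e2 : 1 - Z = 2 * Real.exp (-v) * S := by
    rw [hZe, hS, Real.sinh_eq]
    have h1 : Real.exp (-v) * Real.exp v = 1 := by
      rw [← Real.exp_add]; simp
    linear_combination (-1 : ℝ) * h1
  have hk := ka_key n x
  rw [← hZ, ← hN'] at hk
  have hA := ka_SA n x
  rw [← hZ] at hA
  have hSA := ka_SA_pos n hx0
  set A := SA n x
  set D := SA n x * SC n x - SB n x ^ 2 with hD
  have hD' : D = A * SC n x - SB n x ^ 2 := hD
  set E := Real.exp (-v) with hE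
  have hE0 : 0 < E := Real.exp_pos _
  have hval : x ^ 2 * (D / A ^ 2) = (N / 2) ^ 2 * (pN n v ^ 2 - 1 / S ^ 2) := by
    have hA2 : A = (2 * E * S) / (2 * x * s) := by
      rw [← e1, ← e2, eq_div_iff (by rw [e1]; positivity)]
      exact hA
    have hDx : x ^ 2 * D = (x ^ 2 * (2 * E * S) ^ 2 - N ^ 2 * Z * (2 * x * s) ^ 2) / (2 * x * s) ^ 4 := by
      rw [eq_div_iff (by positivity), ← e1, ← e2]
      exact hk
    rw [mul_div_assoc', hDx, hA2, hZe]
    unfold pN
    rw [← hN', ← hs]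
    field_simp
  have hrho : x / N * rho n x = (1 / (Real.pi * N)) * Real.sqrt (x ^ 2 * (D / A ^ 2)) := by
    unfold rho
    have h1 : Real.sqrt (x ^ 2 * (D / A ^ 2)) = x * (Real.sqrt D / A) := by
      rw [Real.sqrt_mul (by positivity), Real.sqrt_sq hx0.le, Real.sqrt_div' _ (by positivity),
        Real.sqrt_sq hSA.le]
    rw [h1]
    change x / N * (1 / Real.pi * Real.sqrt D / A) = _
    field_simp
  rw [hrho, hval, Real.sqrt_mul (by positivity), Real.sqrt_sq (by positivity)]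
  unfold hN
  rw [← hS]
  field_simp

lemma ka_sinh_mul (k : ℕ) {t : ℝ} (ht : 0 ≤ t) : (k : ℝ) * Real.sinh t ≤ Real.sinh (k * t) := by
  induction k with
  | zero => simp
  | succ k ih =>
    push_cast
    rw [add_mul, add_mul, one_mul, one_mul, Real.sinh_add]
    have h1 : 0 ≤ Real.sinh t := Real.sinh_nonneg_iff.2 ht
    have h2 : 0 ≤ Real.sinh (k * t) := Real.sinh_nonneg_iff.2 (by positivity)
    have h3 := Real.one_le_cosh t
    have h4 := Real.one_le_cosh (k * t)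
    nlinarith [mul_nonneg h2 (sub_nonneg.2 h3), mul_nonneg h1 (sub_nonneg.2 h4)]

lemma ka_N_sinh (n : ℕ) {v : ℝ} (hv : 0 ≤ v) :
    ((n : ℝ) + 1) * Real.sinh (v / ((n : ℝ) + 1)) ≤ Real.sinh v := by
  have h := ka_sinh_mul (n + 1) (t := v / ((n : ℝ) + 1)) (by positivity)
  push_cast at h
  rwa [mul_div_cancel₀ v (by positivity : ((n : ℝ) + 1) ≠ 0)] at h

lemma ka_pN_pos (n : ℕ) {v : ℝ} (hv : 0 < v) : 0 < pN n v := by
  unfold pN
  have : 0 < Real.sinh (v / ((n : ℝ) + 1)) := Real.sinh_pos_iff.2 (by positivity)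
  positivity

lemma ka_pN_le (n : ℕ) {v : ℝ} (hv : 0 < v) : pN n v ≤ 1 / v := by
  unfold pN
  have h1 : v / ((n : ℝ) + 1) ≤ Real.sinh (v / ((n : ℝ) + 1)) :=
    Real.self_le_sinh_iff.2 (by positivity)
  refine one_div_le_one_div_of_le hv ?_
  calc v = ((n : ℝ) + 1) * (v / ((n : ℝ) + 1)) := by field_simp
    _ ≤ _ := by gcongr

lemma ka_c_lim : Tendsto (fun n : ℕ => (n : ℝ) + 1) atTop atTop :=
  tendsto_atTop_add_const_right _ _ tendsto_natCast_atTop_atTop

lemma ka_sinh_lim (v : ℝ) :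
    Tendsto (fun n : ℕ => ((n : ℝ) + 1) * Real.sinh (v / ((n : ℝ) + 1))) atTop (𝓝 v) := by
  have h := (Real.hasDerivAt_sinh 0).hasFDerivAt.lim v (c := fun n : ℕ => (n : ℝ) + 1) (l := atTop)
    (by
      refine ka_c_lim.congr fun n => ?_
      rw [Real.norm_of_nonneg (by positivity)])
  simp only [Real.sinh_zero, sub_zero, zero_add, smul_eq_mul, Real.cosh_zero] at h
  have e : ∀ n : ℕ, ((n : ℝ) + 1) * Real.sinh (((n : ℝ) + 1)⁻¹ * v) =
      ((n : ℝ) + 1) * Real.sinh (v / ((n : ℝ) + 1)) := fun n => by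
    rw [inv_mul_eq_div]
  simp only [e] at h
  simpa using h

lemma ka_pN_lim {v : ℝ} (hv : 0 < v) : Tendsto (fun n : ℕ => pN n v) atTop (𝓝 (1 / v)) :=
  (tendsto_const_nhds (x := (1:ℝ))).div (ka_sinh_lim v) hv.ne'

lemma ka_hN_lim {v : ℝ} (hv : 0 < v) : Tendsto (fun n : ℕ => hN n v) atTop (𝓝 (2 * ff v)) := by
  have h1 : Tendsto (fun n : ℕ => Real.sqrt (pN n v ^ 2 - 1 / Real.sinh v ^ 2)) atTop
      (𝓝 (Real.sqrt ((1 / v) ^ 2 - 1 / Real.sinh v ^ 2))) :=
    (((ka_pN_lim hv).pow 2).sub_const _).sqrt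
  have e : 2 * ff v = Real.sqrt ((1 / v) ^ 2 - 1 / Real.sinh v ^ 2) := by
    unfold ff
    rw [one_div_pow]
    ring
  rw [e]
  exact h1

lemma ka_hN_bd {v : ℝ} (n : ℕ) (hv : 0 < v) (hv1 : v ≤ 1) : hN n v ≤ 2 := by
  have hS0 : 0 < Real.sinh v := Real.sinh_pos_iff.2 hv
  have hSv : v ≤ Real.sinh v := Real.self_le_sinh_iff.2 hv.le
  -- sinh v ≤ v cosh v
  have h1 : Real.sinh v ≤ v * Real.cosh v := by
    have hmono : MonotoneOn (fun t : ℝ => t * Real.cosh t - Real.sinh t) (Ici 0) := by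
      refine monotoneOn_of_deriv_nonneg (convex_Ici 0) (by fun_prop) (by fun_prop) ?_
      intro t ht
      rw [interior_Ici] at ht
      have hd : HasDerivAt (fun t : ℝ => t * Real.cosh t - Real.sinh t)
          (1 * Real.cosh t + t * Real.sinh t - Real.cosh t) t :=
        ((hasDerivAt_id t).mul (Real.hasDerivAt_cosh t)).sub (Real.hasDerivAt_sinh t)
      rw [hd.deriv]
      have : 0 ≤ t * Real.sinh t := mul_nonneg (le_of_lt ht) (Real.sinh_nonneg_iff.2 (le_of_lt ht))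
      linarith
    have := hmono (mem_Ici.2 le_rfl) (mem_Ici.2 hv.le) hv.le
    simp only [zero_mul, Real.sinh_zero, sub_zero] at this
    linarith
  have h2 : Real.cosh v ≤ 1 + v ^ 2 := by
    have h3 := Real.cosh_le_exp_half_sq v
    have h4 : |v ^ 2 / 2| ≤ 1 := by
      rw [abs_of_nonneg (by positivity)]
      nlinarith
    have h5 := Real.abs_exp_sub_one_sub_id_le h4
    have h6 := (abs_le.1 h5).2
    have h7 : v ^ 2 ≤ 1 := by nlinarith
    nlinarith [sq_nonneg v, mul_nonneg (sq_nonneg v) (sub_nonneg.2 h7)]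
  have h3 : Real.sinh v - v ≤ v ^ 3 := by nlinarith
  have h4 : 1 / v ^ 2 - 1 / Real.sinh v ^ 2 ≤ 4 := by
    have e : 1 / v ^ 2 - 1 / Real.sinh v ^ 2 =
        ((Real.sinh v - v) * (Real.sinh v + v)) / (v ^ 2 * Real.sinh v ^ 2) := by
      field_simp
      ring
    rw [e, div_le_iff₀ (by positivity)]
    have h5 : (Real.sinh v - v) * (Real.sinh v + v) ≤ v ^ 3 * (2 * Real.sinh v) :=
      mul_le_mul h3 (by linarith) (by positivity) (by positivity)
    have h6 : v ^ 3 * (2 * Real.sinh v) ≤ 2 * (v ^ 2 * Real.sinh v ^ 2) := by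
      have : v ^ 2 * Real.sinh v * v ≤ v ^ 2 * Real.sinh v * Real.sinh v :=
        mul_le_mul_of_nonneg_left hSv (by positivity)
      nlinarith
    have h7 : 0 ≤ v ^ 2 * Real.sinh v ^ 2 := by positivity
    linarith
  unfold hN
  rw [show (2:ℝ) = Real.sqrt 4 by
    rw [show (4:ℝ) = 2 ^ 2 by norm_num, Real.sqrt_sq (by norm_num)]]
  refine Real.sqrt_le_sqrt ?_
  have h8 : pN n v ^ 2 ≤ (1 / v) ^ 2 :=
    pow_le_pow_left₀ (ka_pN_pos n hv).le (ka_pN_le n hv) 2
  rw [one_div_pow] at h8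
  linarith

lemma ka_sqrt_gap {p q : ℝ} (hp : 0 < p) (hq : 0 ≤ q) :
    0 ≤ p - Real.sqrt (p ^ 2 - q) ∧ p - Real.sqrt (p ^ 2 - q) ≤ q / p := by
  constructor
  · rw [sub_nonneg]
    calc Real.sqrt (p ^ 2 - q) ≤ Real.sqrt (p ^ 2) := Real.sqrt_le_sqrt (by linarith)
      _ = p := Real.sqrt_sq hp.le
  · rw [le_div_iff₀ hp]
    rcases le_total q (p ^ 2) with h | h
    · have h1 := Real.sq_sqrt (show 0 ≤ p ^ 2 - q by linarith)
      have h2 := Real.sqrt_nonneg (p ^ 2 - q)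
      have h3 : Real.sqrt (p ^ 2 - q) ≤ p := by
        calc Real.sqrt (p ^ 2 - q) ≤ Real.sqrt (p ^ 2) := Real.sqrt_le_sqrt (by linarith)
          _ = p := Real.sqrt_sq hp.le
      nlinarith
    · rw [Real.sqrt_eq_zero_of_nonpos (by linarith)]
      nlinarith

lemma ka_gap_bd (n : ℕ) {v : ℝ} (hv : 0 < v) :
    0 ≤ pN n v - hN n v ∧ pN n v - hN n v ≤ 1 / Real.sinh v := by
  have hS0 : 0 < Real.sinh v := Real.sinh_pos_iff.2 hv
  have hp := ka_pN_pos n hv
  obtain ⟨h1, h2⟩ := ka_sqrt_gap hp (q := 1 / Real.sinh v ^ 2) (by positivity)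
  refine ⟨h1, h2.trans ?_⟩
  have h3 : 1 / Real.sinh v ≤ pN n v := by
    unfold pN
    have hs : 0 < Real.sinh (v / ((n : ℝ) + 1)) := Real.sinh_pos_iff.2 (by positivity)
    exact one_div_le_one_div_of_le (by positivity) (ka_N_sinh n hv.le)
  rw [div_le_iff₀ hp]
  calc 1 / Real.sinh v ^ 2 = 1 / Real.sinh v * (1 / Real.sinh v) := by
        rw [sq]; field_simp
    _ ≤ 1 / Real.sinh v * pN n v := by gcongr

lemma ka_sinh_int : IntegrableOn (fun v : ℝ => 1 / Real.sinh v) (Ioi 1) := by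
  have h1 : IntegrableOn (fun v : ℝ => 4 * Real.exp (-v)) (Ioi 1) :=
    (integrableOn_exp_neg_Ioi 1).const_mul 4
  refine Integrable.mono' h1 ?_ ?_
  · refine ContinuousOn.aestronglyMeasurable ?_ measurableSet_Ioi
    refine continuousOn_const.div Real.continuous_sinh.continuousOn fun v hv => ?_
    exact (Real.sinh_pos_iff.2 (lt_trans one_pos hv)).ne'
  · refine (ae_restrict_iff' measurableSet_Ioi).2 (Eventually.of_forall fun v hv => ?_)
    have hv1 : (1:ℝ) < v := hv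
    have hS0 : 0 < Real.sinh v := Real.sinh_pos_iff.2 (by linarith)
    rw [Real.norm_of_nonneg (by positivity), div_le_iff₀ hS0, Real.sinh_eq]
    have h2 : Real.exp (-v) * Real.exp v = 1 := by rw [← Real.exp_add]; simp
    have h3 : Real.exp (-v) ≤ 1 / 2 := by
      have h4 : (2:ℝ) ≤ Real.exp v := by
        have := Real.add_one_le_exp v
        linarith
      have h5 := Real.exp_pos (-v)
      nlinarith
    have h5 := Real.exp_pos (-v)
    nlinarith

/-- primitive of `pN` -/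
noncomputable def Pr (n : ℕ) (v : ℝ) : ℝ :=
  Real.log (Real.sinh (v / (2 * ((n : ℝ) + 1)))) - Real.log (Real.cosh (v / (2 * ((n : ℝ) + 1))))

lemma ka_Pr_deriv (n : ℕ) {v : ℝ} (hv : 0 < v) : HasDerivAt (Pr n) (pN n v) v := by
  set N : ℝ := (n : ℝ) + 1 with hN'
  have hN0 : 0 < N := by positivity
  have hw : 0 < v / (2 * N) := by positivity
  have hs : 0 < Real.sinh (v / (2 * N)) := Real.sinh_pos_iff.2 hw
  have hc : 0 < Real.cosh (v / (2 * N)) := Real.cosh_pos _
  have h0 : HasDerivAt (fun v : ℝ => v / (2 * N)) (1 / (2 * N)) v := (hasDerivAt_id v).div_const _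
  have h1 : HasDerivAt (fun v : ℝ => Real.log (Real.sinh (v / (2 * N))))
      (Real.cosh (v / (2 * N)) * (1 / (2 * N)) / Real.sinh (v / (2 * N))) v :=
    ((Real.hasDerivAt_sinh _).comp v h0).log hs.ne'
  have h2 : HasDerivAt (fun v : ℝ => Real.log (Real.cosh (v / (2 * N))))
      (Real.sinh (v / (2 * N)) * (1 / (2 * N)) / Real.cosh (v / (2 * N))) v :=
    ((Real.hasDerivAt_cosh _).comp v h0).log hc.ne'
  have h3 := h1.sub h2
  have e : Real.cosh (v / (2 * N)) * (1 / (2 * N)) / Real.sinh (v / (2 * N)) -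
      Real.sinh (v / (2 * N)) * (1 / (2 * N)) / Real.cosh (v / (2 * N)) = pN n v := by
    unfold pN
    rw [← hN', show v / N = 2 * (v / (2 * N)) by field_simp, Real.sinh_two_mul]
    have h4 := Real.cosh_sq (v / (2 * N))
    field_simp
    rw [h4]
    ring
  rw [e] at h3
  exact h3

lemma ka_Pr_lim (n : ℕ) : Tendsto (Pr n) atTop (𝓝 0) := by
  set N : ℝ := (n : ℝ) + 1 with hN'
  have hN0 : 0 < N := by positivity
  have h0 : Tendsto (fun v : ℝ => v / (2 * N)) atTop atTop :=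
    tendsto_id.atTop_div_const (by positivity)
  have h1 : Tendsto (fun u : ℝ => Real.log (Real.sinh u / Real.cosh u)) atTop (𝓝 0) := by
    have h2 : Tendsto (fun u : ℝ => Real.sinh u / Real.cosh u) atTop (𝓝 1) := by
      have h3 : Tendsto (fun u : ℝ => (1 - Real.exp (-u) ^ 2) / (1 + Real.exp (-u) ^ 2)) atTop
          (𝓝 ((1 - 0 ^ 2) / (1 + 0 ^ 2))) := by
        have h4 := Real.tendsto_exp_neg_atTop_nhds_zero
        exact (tendsto_const_nhds.sub (h4.pow 2)).div (tendsto_const_nhds.add (h4.pow 2)) (by norm_num)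
      have h5 : ((1:ℝ) - 0 ^ 2) / (1 + 0 ^ 2) = 1 := by norm_num
      rw [h5] at h3
      refine h3.congr fun u => ?_
      rw [Real.sinh_eq, Real.cosh_eq]
      have h6 : Real.exp (-u) * Real.exp u = 1 := by rw [← Real.exp_add]; simp
      have h7 := Real.exp_pos u
      have h8 := Real.exp_pos (-u)
      rw [div_div_div_cancel_right₀ (by norm_num), div_eq_div_iff (by positivity) (by positivity)]
      linear_combination (-2 * Real.exp (-u)) * h6
    have h9 := h2.log one_ne_zero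
    rwa [Real.log_one] at h9
  refine (h1.comp h0).congr' ?_
  filter_upwards [eventually_gt_atTop 0] with v hv
  have hs : 0 < Real.sinh (v / (2 * N)) := Real.sinh_pos_iff.2 (by positivity)
  have hc : 0 < Real.cosh (v / (2 * N)) := Real.cosh_pos _
  simp only [Function.comp]
  rw [Real.log_div hs.ne' hc.ne']
  rfl

lemma ka_pN_int (n : ℕ) : IntegrableOn (pN n) (Ioi 1) :=
  integrableOn_Ioi_deriv_of_nonneg' (g := Pr n) (fun v hv => ka_Pr_deriv n (lt_of_lt_of_le one_pos hv))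
    (fun v hv => (ka_pN_pos n (lt_trans one_pos hv)).le) (ka_Pr_lim n)

lemma ka_pN_val (n : ℕ) : ∫ v in Ioi (1:ℝ), pN n v = 0 - Pr n 1 :=
  integral_Ioi_of_hasDerivAt_of_nonneg' (g := Pr n)
    (fun v hv => ka_Pr_deriv n (lt_of_lt_of_le one_pos hv))
    (fun v hv => (ka_pN_pos n (lt_trans one_pos hv)).le) (ka_Pr_lim n)

lemma ka_hN_cont (n : ℕ) : ContinuousOn (hN n) (Ioi 0) := by
  unfold hN pN
  refine ContinuousOn.sqrt (ContinuousOn.sub (ContinuousOn.pow (continuousOn_const.div ?_ ?_) 2)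
    (continuousOn_const.div ?_ ?_))
  · fun_prop
  · intro v hv
    have : 0 < Real.sinh (v / ((n : ℝ) + 1)) := Real.sinh_pos_iff.2 (div_pos hv (by positivity))
    positivity
  · fun_prop
  · intro v hv
    have : 0 < Real.sinh v := Real.sinh_pos_iff.2 hv
    positivity

lemma ka_hN_int1 (n : ℕ) : IntegrableOn (hN n) (Ioc 0 1) := by
  refine Integrable.mono' (g := fun _ => (2:ℝ)) (integrableOn_const (by simp)) ?_ ?_
  · exact ((ka_hN_cont n).mono (fun v hv => hv.1)).aestronglyMeasurable measurableSet_Ioc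
  · refine (ae_restrict_iff' measurableSet_Ioc).2 (Eventually.of_forall fun v hv => ?_)
    rw [Real.norm_of_nonneg (show 0 ≤ hN n v from Real.sqrt_nonneg _)]
    exact ka_hN_bd n hv.1 hv.2

lemma ka_gap_int (n : ℕ) : IntegrableOn (fun v => pN n v - hN n v) (Ioi 1) := by
  refine Integrable.mono' ka_sinh_int ?_ ?_
  · refine ((ka_pN_int n).1).sub ?_
    exact ((ka_hN_cont n).mono (fun v (hv : 1 < v) => lt_trans one_pos hv)).aestronglyMeasurable
      measurableSet_Ioi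
  · refine (ae_restrict_iff' measurableSet_Ioi).2 (Eventually.of_forall fun v hv => ?_)
    obtain ⟨h1, h2⟩ := ka_gap_bd n (lt_trans one_pos hv)
    rw [Real.norm_of_nonneg h1]
    exact h2

lemma ka_hN_int2 (n : ℕ) : IntegrableOn (hN n) (Ioi 1) := by
  have := (ka_pN_int n).sub (ka_gap_int n)
  refine this.congr (Eventually.of_forall fun v => ?_)
  simp

lemma ka_split (n : ℕ) : ∫ x in (0:ℝ)..1, rho n x =
    (1 / (2 * Real.pi)) * ((∫ v in Ioc (0:ℝ) 1, hN n v) + ∫ v in Ioi (1:ℝ), hN n v) := by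
  set N : ℝ := (n : ℝ) + 1 with hN'
  have hN0 : 0 < N := by positivity
  have himg : (fun v : ℝ => Real.exp (-v / N)) '' (Ioi 0) = Ioo 0 1 := by
    ext x
    constructor
    · rintro ⟨v, hv, rfl⟩
      refine ⟨Real.exp_pos _, ?_⟩
      rw [Real.exp_lt_one_iff]
      have : 0 < v / N := div_pos hv hN0
      rw [neg_div]; linarith
    · rintro ⟨h1, h2⟩
      refine ⟨-N * Real.log x, ?_, ?_⟩
      · have := Real.log_neg h1 h2
        simp only [mem_Ioi]
        nlinarith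
      · simp only
        rw [show -(-N * Real.log x) / N = Real.log x by field_simp, Real.exp_log h1]
  have hcv := integral_image_eq_integral_abs_deriv_smul (s := Ioi (0:ℝ)) measurableSet_Ioi
    (f := fun v : ℝ => Real.exp (-v / N)) (f' := fun v => Real.exp (-v / N) * (-1 / N))
    (fun v _ => by
      have h0 : HasDerivAt (fun v : ℝ => -v / N) (-1 / N) v := ((hasDerivAt_id v).neg).div_const N
      exact (h0.exp).hasDerivWithinAt)
    (fun v _ w _ h => by
      have h1 := Real.exp_injective h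
      have h2 : -v = -w := by
        have := congrArg (fun t => t * N) h1
        simpa [div_mul_cancel₀ _ hN0.ne'] using this
      linarith) (rho n)
  rw [himg] at hcv
  rw [intervalIntegral.integral_of_le zero_le_one, integral_Ioc_eq_integral_Ioo, hcv]
  have h1 : ∫ v in Ioi (0:ℝ), |Real.exp (-v / N) * (-1 / N)| • rho n (Real.exp (-v / N)) =
      ∫ v in Ioi (0:ℝ), (1 / (2 * Real.pi)) * hN n v := by
    refine setIntegral_congr_fun measurableSet_Ioi fun v hv => ?_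
    simp only [smul_eq_mul]
    have e : |Real.exp (-v / N) * (-1 / N)| = Real.exp (-v / N) / N := by
      rw [abs_mul, abs_of_pos (Real.exp_pos _), abs_div, abs_neg, abs_one, abs_of_pos hN0]
      ring
    rw [e]
    exact ka_rho n hv
  rw [h1, integral_const_mul, ← Ioc_union_Ioi_eq_Ioi (zero_le_one (α := ℝ)),
    setIntegral_union (by
      rw [Set.disjoint_left]
      intro v h2 h3
      exact absurd h2.2 (not_le.2 h3)) measurableSet_Ioi (ka_hN_int1 n) (ka_hN_int2 n)]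

lemma ka_lim1 : Tendsto (fun n : ℕ => ∫ v in Ioc (0:ℝ) 1, hN n v) atTop
    (𝓝 (∫ v in Ioc (0:ℝ) 1, 2 * ff v)) := by
  refine tendsto_integral_of_dominated_convergence (fun _ => (2:ℝ)) ?_ (integrableOn_const (by simp)) ?_ ?_
  · exact fun n => (ka_hN_int1 n).1
  · intro n
    refine (ae_restrict_iff' measurableSet_Ioc).2 (Eventually.of_forall fun v hv => ?_)
    rw [Real.norm_of_nonneg (show 0 ≤ hN n v from Real.sqrt_nonneg _)]
    exact ka_hN_bd n hv.1 hv.2
  · exact (ae_restrict_iff' measurableSet_Ioc).2 (Eventually.of_forall fun v hv => ka_hN_lim hv.1)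

lemma ka_lim2 : Tendsto (fun n : ℕ => ∫ v in Ioi (1:ℝ), (pN n v - hN n v)) atTop
    (𝓝 (∫ v in Ioi (1:ℝ), (1 / v - 2 * ff v))) := by
  refine tendsto_integral_of_dominated_convergence (fun v => 1 / Real.sinh v) ?_ ka_sinh_int ?_ ?_
  · exact fun n => (ka_gap_int n).1
  · intro n
    refine (ae_restrict_iff' measurableSet_Ioi).2 (Eventually.of_forall fun v hv => ?_)
    obtain ⟨h1, h2⟩ := ka_gap_bd n (lt_trans one_pos hv)
    rw [Real.norm_of_nonneg h1]
    exact h2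
  · exact (ae_restrict_iff' measurableSet_Ioi).2 (Eventually.of_forall fun v hv =>
      (ka_pN_lim (lt_trans one_pos hv)).sub (ka_hN_lim (lt_trans one_pos hv)))

/-- `-Pr n 1 - log (2n)` tends to zero -/
lemma ka_lim3 : Tendsto (fun n : ℕ => (0 - Pr n 1) - Real.log n) atTop (𝓝 (Real.log 2)) := by
  have h1 : Tendsto (fun n : ℕ => ((n : ℝ) + 1) * Real.sinh (1 / 2 / ((n : ℝ) + 1))) atTop
      (𝓝 (1 / 2)) := ka_sinh_lim (1 / 2)
  have h2 : Tendsto (fun n : ℕ => Real.log (((n : ℝ) + 1) * Real.sinh (1 / 2 / ((n : ℝ) + 1)))) atTop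
      (𝓝 (Real.log (1 / 2))) := h1.log (by norm_num)
  have h3 : Tendsto (fun n : ℕ => (1:ℝ) / 2 / ((n : ℝ) + 1)) atTop (𝓝 0) :=
    tendsto_const_nhds.div_atTop ka_c_lim
  have h4 : Tendsto (fun n : ℕ => Real.log (Real.cosh (1 / 2 / ((n : ℝ) + 1)))) atTop (𝓝 0) := by
    have h5 := (Real.continuous_cosh.tendsto 0).comp h3
    rw [Real.cosh_zero] at h5
    have h6 := h5.log one_ne_zero
    rwa [Real.log_one] at h6
  have h7 : Tendsto (fun n : ℕ => Real.log (((n : ℝ) + 1) / n)) atTop (𝓝 0) := by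
    have h8 : Tendsto (fun n : ℕ => ((n : ℝ) + 1) / n) atTop (𝓝 1) := by
      have h9 : Tendsto (fun n : ℕ => 1 + 1 / (n : ℝ)) atTop (𝓝 (1 + 0)) :=
        tendsto_const_nhds.add tendsto_one_div_atTop_nhds_zero_nat
      rw [add_zero] at h9
      refine h9.congr' ?_
      filter_upwards [eventually_gt_atTop 0] with n hn
      have : (n : ℝ) ≠ 0 := by positivity
      field_simp
    have h10 := h8.log one_ne_zero
    rwa [Real.log_one] at h10
  have h8 := (h4.sub h2).add h7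
  have e0 : (0:ℝ) - Real.log (1 / 2) + 0 = Real.log 2 := by
    rw [one_div, Real.log_inv]; ring
  rw [e0] at h8
  refine h8.congr' ?_
  filter_upwards [eventually_gt_atTop 0] with n hn
  have hn0 : (0:ℝ) < n := by positivity
  have hN0 : (0:ℝ) < (n : ℝ) + 1 := by positivity
  have hs : 0 < Real.sinh (1 / 2 / ((n : ℝ) + 1)) := Real.sinh_pos_iff.2 (by positivity)
  unfold Pr
  rw [show (1:ℝ) / (2 * ((n : ℝ) + 1)) = 1 / 2 / ((n : ℝ) + 1) by field_simp,
    Real.log_mul hN0.ne' hs.ne', Real.log_div hN0.ne' hn0.ne']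
  ring

theorem rho_asymp :
    Tendsto (fun n : ℕ => 4 * (∫ x in (0 : ℝ)..1, rho n x) - (2 / Real.pi) * Real.log n) atTop
      (𝓝 gaussConst) := by
  have hpi := Real.pi_pos
  have h1 : Tendsto (fun n : ℕ => (2 / Real.pi) * ((∫ v in Ioc (0:ℝ) 1, hN n v) +
      (((0 - Pr n 1) - Real.log n) - ∫ v in Ioi (1:ℝ), (pN n v - hN n v)))) atTop
      (𝓝 ((2 / Real.pi) * ((∫ v in Ioc (0:ℝ) 1, 2 * ff v) +
        (Real.log 2 - ∫ v in Ioi (1:ℝ), (1 / v - 2 * ff v))))) :=
    (ka_lim1.add (ka_lim3.sub ka_lim2)).const_mul _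
  have e1 : (2 / Real.pi) * ((∫ v in Ioc (0:ℝ) 1, 2 * ff v) +
        (Real.log 2 - ∫ v in Ioi (1:ℝ), (1 / v - 2 * ff v))) = gaussConst := by
    unfold gaussConst
    have e2 : ∫ v in Ioi (1:ℝ), (1 / v - 2 * ff v) = -2 * ∫ u in Ioi (1 : ℝ), (ff u - 1 / (2 * u)) := by
      rw [← integral_const_mul]
      refine setIntegral_congr_fun measurableSet_Ioi fun v hv => ?_
      have : v ≠ 0 := (lt_trans one_pos hv).ne'
      field_simp
      ring
    rw [e2, integral_const_mul]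
    ring
  rw [e1] at h1
  refine h1.congr fun n => ?_
  have e3 : ∫ v in Ioi (1:ℝ), (pN n v - hN n v) = (0 - Pr n 1) - ∫ v in Ioi (1:ℝ), hN n v := by
    rw [integral_sub (ka_pN_int n) (ka_hN_int2 n), ka_pN_val]
  rw [ka_split, e3]
  field_simp
  ring



end H3
end Kac764
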