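import Pool.Agent.Helper764.KacDefs
import Pool.Agent.Helper764.KacJ6

set_option autoImplicit false
set_option maxHeartbeats 4000000
open MeasureTheory ProbabilityTheory Filter Topology Set
open scoped ENNReal NNReal

namespace Kac764
namespace H4
open Kac764.J6

/-! GIVEN (proved in another job): leave as `sorry` -/
/-! TARGETS -/
theorem h4_fin (p : Polynomial ℝ) (S : Set ℝ) : {x : ℝ | x ∈ S ∧ p ≠ 0 ∧ p.eval x = 0}.Finite := by
  by_cases hp : p = 0
  · have : {x : ℝ | x ∈ S ∧ p ≠ 0 ∧ p.eval x = 0} = ∅ := by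
      ext x
      simp [hp]
    rw [this]
    exact Set.finite_empty
  · apply (Finset.finite_toSet p.roots.toFinset).subset
    rintro x ⟨_, _, hx⟩
    simp only [Finset.mem_coe, Multiset.mem_toFinset, Polynomial.mem_roots hp]
    exact hx

theorem nz_natDegree_kac (n : ℕ) (ω : ℕ → ℝ) (S : Set ℝ) : nz (kac n ω) S ≤ n := by
  have hdeg : (kac n ω).natDegree ≤ n := by
    unfold kac
    apply Polynomial.natDegree_sum_le_of_forall_le
    intro j hj
    rw [Finset.mem_range] at hj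
    exact (Polynomial.natDegree_C_mul_X_pow_le _ _).trans (by omega)
  unfold nz
  by_cases hp : kac n ω = 0
  · have : {x : ℝ | x ∈ S ∧ kac n ω ≠ 0 ∧ (kac n ω).eval x = 0} = ∅ := by
      ext x
      simp [hp]
    rw [this]
    simp
  · have h1 : {x : ℝ | x ∈ S ∧ kac n ω ≠ 0 ∧ (kac n ω).eval x = 0} ⊆
        ((kac n ω).roots.toFinset : Set ℝ) := by
      rintro x ⟨_, _, hx⟩
      simp only [Finset.mem_coe, Multiset.mem_toFinset, Polynomial.mem_roots hp]
      exact hx
    have h2 := Set.ncard_le_ncard h1 (Finset.finite_toSet _)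
    rw [Set.ncard_coe_finset] at h2
    exact h2.trans ((Multiset.toFinset_card_le _).trans ((Polynomial.card_roots' _).trans hdeg))

theorem nz_union (p : Polynomial ℝ) (S T : Set ℝ) (h : Disjoint S T) :
    nz p (S ∪ T) = nz p S + nz p T := by
  unfold nz
  rw [← Set.ncard_union_eq _ (h4_fin p S) (h4_fin p T)]
  · congr 1
    ext x
    simp only [mem_setOf_eq, mem_union]
    tauto
  · rw [Set.disjoint_left]
    rintro x ⟨h1, _⟩ ⟨h2, _⟩
    exact Set.disjoint_left.1 h h1 h2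

theorem h4_empty (p : Polynomial ℝ) : nz p ∅ = 0 := by
  unfold nz
  simp

theorem h4_meas_Ioc (n : ℕ) (a b : ℝ) : Measurable (fun ω : ℕ → ℝ => nz (kac n ω) (Ioc a b)) := by
  rcases lt_or_ge a b with h | h
  · have e : ∀ ω : ℕ → ℝ, nz (kac n ω) (Ioc a b) = nz (kac n ω) (Ioo a b) + nz (kac n ω) {b} := by
      intro ω
      rw [← nz_union]
      · rw [Ioo_union_right h]
      · simp
    simp only [e]
    exact (measurable_nz n a b).add (measurable_nz_singleton n b)
  · rw [Ioc_eq_empty (not_lt.2 h)]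
    simp only [h4_empty]
    exact measurable_const

theorem h4_meas_Ico (n : ℕ) (a b : ℝ) : Measurable (fun ω : ℕ → ℝ => nz (kac n ω) (Ico a b)) := by
  rcases lt_or_ge a b with h | h
  · have e : ∀ ω : ℕ → ℝ, nz (kac n ω) (Ico a b) = nz (kac n ω) (Ioo a b) + nz (kac n ω) {a} := by
      intro ω
      rw [← nz_union]
      · rw [Ioo_union_left h]
      · simp
    simp only [e]
    exact (measurable_nz n a b).add (measurable_nz_singleton n a)
  · rw [Ico_eq_empty (not_lt.2 h)]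
    simp only [h4_empty]
    exact measurable_const

theorem h4_meas_Icc (n : ℕ) (a b : ℝ) : Measurable (fun ω : ℕ → ℝ => nz (kac n ω) (Icc a b)) := by
  rcases le_or_gt a b with h | h
  · have e : ∀ ω : ℕ → ℝ, nz (kac n ω) (Icc a b) = nz (kac n ω) (Ico a b) + nz (kac n ω) {b} := by
      intro ω
      rw [← nz_union]
      · rw [Ico_union_right h]
      · simp
    simp only [e]
    exact (h4_meas_Ico n a b).add (measurable_nz_singleton n b)
  · rw [Icc_eq_empty (not_le.2 h)]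
    simp only [h4_empty]
    exact measurable_const

theorem h4_meas_univ (n : ℕ) : Measurable (fun ω : ℕ → ℝ => nz (kac n ω) univ) := by
  apply measurable_of_tendsto_metrizable
    (f := fun M : ℕ => fun ω : ℕ → ℝ => nz (kac n ω) (Ioo (-(M : ℝ)) M))
  · intro M
    exact measurable_nz n _ _
  · rw [tendsto_pi_nhds]
    intro ω
    apply tendsto_const_nhds.congr'
    have hf := h4_fin (kac n ω) univ
    obtain ⟨B, hB⟩ := hf.isBounded.exists_norm_le
    obtain ⟨M0, hM0⟩ := exists_nat_gt B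
    filter_upwards [eventually_ge_atTop M0] with M hM
    unfold nz
    congr 1
    ext x
    simp only [mem_setOf_eq, mem_univ, true_and, mem_Ioo]
    constructor
    · intro hx
      have h1 := hB x ⟨mem_univ _, hx⟩
      rw [Real.norm_eq_abs] at h1
      have h2 : |x| < M := lt_of_le_of_lt h1 (hM0.trans_le (by exact_mod_cast hM))
      rw [abs_lt] at h2
      exact ⟨h2, hx⟩
    · intro hx
      exact hx.2

theorem h4_sub {α : Type*} [MeasurableSpace α] {f g : α → ℕ} (hf : Measurable f)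
    (hg : Measurable g) : Measurable (fun x => f x - g x) :=
  (measurable_of_countable (fun q : ℕ × ℕ => q.1 - q.2)).comp (hf.prodMk hg)

theorem h4_split_unit (p : Polynomial ℝ) : nz p (Ioo (-1) 1) =
    nz p {0} + nz p {x : ℝ | 0 < |x| ∧ |x| < 1} := by
  rw [← nz_union]
  · congr 1
    ext x
    simp only [mem_Ioo, mem_union, mem_singleton_iff, mem_setOf_eq, abs_pos]
    rw [← abs_lt]
    constructor
    · intro h
      by_cases hx : x = 0
      · exact Or.inl hx
      · exact Or.inr ⟨hx, h⟩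
    · rintro (h | h)
      · rw [h]; simp
      · exact h.2
  · rw [Set.disjoint_left]
    rintro x hx ⟨h1, _⟩
    rw [mem_singleton_iff] at hx
    rw [hx] at h1
    simp at h1

theorem h4_split_out (p : Polynomial ℝ) : nz p univ =
    nz p (Icc (-1) 1) + nz p {x : ℝ | 1 < |x|} := by
  rw [← nz_union]
  · congr 1
    ext x
    simp only [mem_univ, mem_union, mem_Icc, mem_setOf_eq, true_iff]
    rw [← abs_le]
    exact le_or_gt _ _
  · rw [Set.disjoint_left]
    rintro x hx h1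
    rw [mem_Icc, ← abs_le] at hx
    exact absurd h1 (not_lt.2 hx)

theorem measurable_nz_set (n : ℕ) (S : Set ℝ) (hS : S = univ ∨ S = {x : ℝ | 0 < |x| ∧ |x| < 1} ∨
    S = {x : ℝ | 1 < |x|} ∨ (∃ a b, S = Ioc a b) ∨ (∃ a b, S = Ico a b) ∨ (∃ a b, S = Icc a b)) :
    Measurable (fun ω : ℕ → ℝ => nz (kac n ω) S) := by
  rcases hS with rfl | rfl | rfl | ⟨a, b, rfl⟩ | ⟨a, b, rfl⟩ | ⟨a, b, rfl⟩
  · exact h4_meas_univ n
  · have e : ∀ ω : ℕ → ℝ, nz (kac n ω) {x : ℝ | 0 < |x| ∧ |x| < 1} =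
        nz (kac n ω) (Ioo (-1) 1) - nz (kac n ω) {0} := by
      intro ω
      rw [h4_split_unit]; omega
    simp only [e]
    exact h4_sub (measurable_nz n _ _) (measurable_nz_singleton n 0)
  · have e : ∀ ω : ℕ → ℝ, nz (kac n ω) {x : ℝ | 1 < |x|} =
        nz (kac n ω) univ - nz (kac n ω) (Icc (-1) 1) := by
      intro ω
      rw [h4_split_out]; omega
    simp only [e]
    exact h4_sub (h4_meas_univ n) (h4_meas_Icc n _ _)
  · exact h4_meas_Ioc n a b
  · exact h4_meas_Ico n a b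
  · exact h4_meas_Icc n a b

/-- the involution -/
def h4_s (n j : ℕ) : ℕ := if j ≤ n then n - j else j

theorem h4_s_inv (n j : ℕ) : h4_s n (h4_s n j) = j := by
  unfold h4_s
  split_ifs <;> omega

theorem h4_map (μ : Measure ℝ) [IsProbabilityMeasure μ] (n : ℕ) :
    (PP μ).map (fun ω j => ω (h4_s n j)) = PP μ := by
  apply Measure.eq_infinitePi
  intro s t ht
  have hm : Measurable (fun (ω : ℕ → ℝ) j => ω (h4_s n j)) :=
    measurable_pi_lambda _ fun j => measurable_pi_apply _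
  rw [Measure.map_apply hm (MeasurableSet.pi (Finset.countable_toSet s) fun i _ => ht i)]
  have h1 : (fun (ω : ℕ → ℝ) j => ω (h4_s n j)) ⁻¹' (Set.pi s t) =
      Set.pi (s.image (h4_s n)) (fun j => t (h4_s n j)) := by
    ext ω
    simp only [mem_preimage, Set.mem_pi, Finset.mem_coe, Finset.mem_image]
    constructor
    · rintro h j ⟨i, hi, rfl⟩
      rw [h4_s_inv]
      exact h i hi
    · intro h i hi
      have := h (h4_s n i) ⟨i, hi, rfl⟩
      rwa [h4_s_inv] at this
  rw [h1, Measure.infinitePi_pi _ (fun i _ => ht _), Finset.prod_image]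
  · apply Finset.prod_congr rfl
    intro i _
    rw [h4_s_inv]
  · intro i _ j _ hij
    have := congrArg (h4_s n) hij
    rwa [h4_s_inv, h4_s_inv] at this

theorem h4_eval (n : ℕ) (ω : ℕ → ℝ) (x : ℝ) (hx : x ≠ 0) :
    (kac n ω).eval x = x ^ n * (kac n (fun j => ω (h4_s n j))).eval x⁻¹ := by
  unfold kac
  rw [Polynomial.eval_finsetSum, Polynomial.eval_finsetSum, Finset.mul_sum,
    ← Finset.sum_range_reflect]
  apply Finset.sum_congr rfl
  intro j hj
  rw [Finset.mem_range] at hj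
  simp only [Polynomial.eval_mul, Polynomial.eval_C, Polynomial.eval_pow, Polynomial.eval_X]
  have h1 : n + 1 - 1 - j = n - j := by omega
  have h2 : h4_s n j = n - j := by unfold h4_s; rw [if_pos (by omega)]
  rw [h1, h2]
  have h3 : x ^ n = x ^ (n - j) * x ^ j := by rw [← pow_add]; congr 1; omega
  rw [h3, inv_pow]
  have : x ^ j ≠ 0 := pow_ne_zero _ hx
  field_simp

theorem h4_coeff (n : ℕ) (ω : ℕ → ℝ) (j : ℕ) :
    (kac n ω).coeff j = if j ≤ n then ω j else 0 := by
  unfold kac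
  rw [Polynomial.finsetSum_coeff]
  simp only [Polynomial.coeff_C_mul, Polynomial.coeff_X_pow]
  split_ifs with h
  · rw [Finset.sum_eq_single j]
    · simp
    · intro i _ hi
      rw [if_neg (Ne.symm hi), mul_zero]
    · intro h2
      exact absurd (Finset.mem_range.2 (by omega)) h2
  · apply Finset.sum_eq_zero
    intro i hi
    rw [Finset.mem_range] at hi
    rw [if_neg (by omega), mul_zero]

theorem h4_zero_iff (n : ℕ) (ω : ℕ → ℝ) : kac n ω = 0 ↔ ∀ j ≤ n, ω j = 0 := by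
  constructor
  · intro h j hj
    have := h4_coeff n ω j
    rw [h, Polynomial.coeff_zero, if_pos hj] at this
    exact this.symm
  · intro h
    ext j
    rw [h4_coeff, Polynomial.coeff_zero]
    split_ifs with hj
    · exact h j hj
    · rfl

theorem h4_zero_rev (n : ℕ) (ω : ℕ → ℝ) :
    kac n (fun j => ω (h4_s n j)) = 0 ↔ kac n ω = 0 := by
  rw [h4_zero_iff, h4_zero_iff]
  constructor
  · intro h j hj
    have := h (h4_s n j) (by unfold h4_s; rw [if_pos hj]; omega)
    rwa [h4_s_inv] at this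
  · intro h j hj
    exact h _ (by unfold h4_s; rw [if_pos hj]; omega)

theorem h4_nz (n : ℕ) (ω : ℕ → ℝ) : nz (kac n ω) {x : ℝ | 1 < |x|} =
    nz (kac n (fun j => ω (h4_s n j))) {x : ℝ | 0 < |x| ∧ |x| < 1} := by
  unfold nz
  rw [← Set.ncard_image_of_injective _ (inv_injective (G := ℝ))]
  congr 1
  ext y
  simp only [mem_image, mem_setOf_eq]
  constructor
  · rintro ⟨x, ⟨h1, h2, h3⟩, rfl⟩
    have hx : x ≠ 0 := by rintro rfl; simp at h1; linarith
    refine ⟨⟨?_, ?_⟩, ?_, ?_⟩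
    · rw [abs_pos]; exact inv_ne_zero hx
    · rw [abs_inv]; exact inv_lt_one_of_one_lt₀ h1
    · rw [Ne, h4_zero_rev]; exact h2
    · rw [h4_eval n ω x hx] at h3
      exact (mul_eq_zero.1 h3).resolve_left (pow_ne_zero _ hx)
  · rintro ⟨⟨h0, h1⟩, h2, h3⟩
    have hy : y ≠ 0 := abs_pos.1 h0
    refine ⟨y⁻¹, ⟨?_, ?_, ?_⟩, inv_inv y⟩
    · rw [abs_inv]; exact (one_lt_inv₀ h0).2 h1
    · rw [Ne, ← h4_zero_rev n]; exact h2
    · rw [h4_eval n ω y⁻¹ (inv_ne_zero hy), inv_inv, h3, mul_zero]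

theorem nz_symm (μ : Measure ℝ) (hμ : Std μ) (n : ℕ) :
    ∫ ω, (nz (kac n ω) {x : ℝ | 1 < |x|} : ℝ) ∂(PP μ)
      = ∫ ω, (nz (kac n ω) {x : ℝ | 0 < |x| ∧ |x| < 1} : ℝ) ∂(PP μ) := by
  haveI := hμ.prob
  have hm : Measurable (fun (ω : ℕ → ℝ) j => ω (h4_s n j)) :=
    measurable_pi_lambda _ fun j => measurable_pi_apply _
  have h1 : Measurable (fun ω : ℕ → ℝ => (nz (kac n ω) {x : ℝ | 0 < |x| ∧ |x| < 1} : ℝ)) :=
    measurable_from_nat.comp (measurable_nz_set n _ (Or.inr (Or.inl rfl)))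
  conv_rhs => rw [← h4_map μ n]
  rw [integral_map hm.aemeasurable h1.aestronglyMeasurable]
  simp only [h4_nz]

theorem h4_int (μ : Measure ℝ) [IsProbabilityMeasure μ] (n : ℕ) (S : Set ℝ)
    (h : Measurable (fun ω : ℕ → ℝ => nz (kac n ω) S)) :
    Integrable (fun ω : ℕ → ℝ => (nz (kac n ω) S : ℝ)) (PP μ) := by
  apply Integrable.of_bound (C := (n : ℝ))
  · exact (measurable_from_nat.comp h : Measurable (fun ω : ℕ → ℝ => (nz (kac n ω) S : ℝ))).aestronglyMeasurable
  · apply Eventually.of_forall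
    intro ω
    rw [Real.norm_eq_abs, abs_of_nonneg (Nat.cast_nonneg _)]
    exact_mod_cast nz_natDegree_kac n ω S

theorem h4_nz_zero (n : ℕ) (ω : ℕ → ℝ) : (nz (kac n ω) {0} : ℝ) =
    indicator {ω : ℕ → ℝ | ω 0 = 0} (fun _ => (1 : ℝ)) ω -
      indicator {ω : ℕ → ℝ | ∀ j ≤ n, ω j = 0} (fun _ => (1 : ℝ)) ω := by
  have he : (kac n ω).eval 0 = ω 0 := by
    rw [← Polynomial.coeff_zero_eq_eval_zero, h4_coeff, if_pos (Nat.zero_le _)]
  by_cases h0 : ω 0 = 0
  · by_cases h1 : ∀ j ≤ n, ω j = 0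
    · have e1 : ω ∈ {ω : ℕ → ℝ | ω 0 = 0} := h0
      have e2 : ω ∈ {ω : ℕ → ℝ | ∀ j ≤ n, ω j = 0} := h1
      rw [indicator_of_mem e1, indicator_of_mem e2, (h4_zero_iff n ω).2 h1]
      simp [nz]
    · have e1 : ω ∈ {ω : ℕ → ℝ | ω 0 = 0} := h0
      have e2 : ω ∉ {ω : ℕ → ℝ | ∀ j ≤ n, ω j = 0} := h1
      rw [indicator_of_mem e1, indicator_of_notMem e2, sub_zero]
      have hk : kac n ω ≠ 0 := fun h => h1 ((h4_zero_iff n ω).1 h)
      have : {x : ℝ | x ∈ ({0} : Set ℝ) ∧ kac n ω ≠ 0 ∧ (kac n ω).eval x = 0} = {0} := by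
        ext x
        simp only [mem_setOf_eq, mem_singleton_iff]
        constructor
        · exact fun h => h.1
        · rintro rfl
          exact ⟨rfl, hk, by rw [he, h0]⟩
      unfold nz
      rw [this]
      simp
  · have e1 : ω ∉ {ω : ℕ → ℝ | ω 0 = 0} := h0
    have e2 : ω ∉ {ω : ℕ → ℝ | ∀ j ≤ n, ω j = 0} := fun h => h0 (h 0 (Nat.zero_le _))
    rw [indicator_of_notMem e1, indicator_of_notMem e2, sub_zero]
    have : {x : ℝ | x ∈ ({0} : Set ℝ) ∧ kac n ω ≠ 0 ∧ (kac n ω).eval x = 0} = ∅ := by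
      ext x
      simp only [mem_setOf_eq, mem_singleton_iff, mem_empty_iff_false, iff_false]
      rintro ⟨rfl, _, h⟩
      rw [he] at h
      exact h0 h
    unfold nz
    rw [this]
    simp

theorem h4_int_zero (μ : Measure ℝ) [IsProbabilityMeasure μ] (n : ℕ) :
    ∫ ω, (nz (kac n ω) {0} : ℝ) ∂(PP μ) = μ.real {0} - μ.real {0} ^ (n + 1) := by
  have s1 : {ω : ℕ → ℝ | ω 0 = 0} = Set.pi (({0} : Finset ℕ) : Set ℕ) (fun _ => ({0} : Set ℝ)) := by
    ext ω
    simp [Set.mem_pi]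
  have s2 : {ω : ℕ → ℝ | ∀ j ≤ n, ω j = 0} =
      Set.pi ((Finset.range (n + 1) : Finset ℕ) : Set ℕ) (fun _ => ({0} : Set ℝ)) := by
    ext ω
    simp only [mem_setOf_eq, Set.mem_pi, Finset.coe_range, mem_Iio, mem_singleton_iff]
    constructor
    · intro h j hj
      exact h j (by omega)
    · intro h j hj
      exact h j (by omega)
  have m1 : MeasurableSet {ω : ℕ → ℝ | ω 0 = 0} := by
    rw [s1]
    exact MeasurableSet.pi (Finset.countable_toSet _) fun i _ => measurableSet_singleton _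
  have m2 : MeasurableSet {ω : ℕ → ℝ | ∀ j ≤ n, ω j = 0} := by
    rw [s2]
    exact MeasurableSet.pi (Finset.countable_toSet _) fun i _ => measurableSet_singleton _
  simp only [h4_nz_zero]
  rw [integral_sub ((integrable_indicator_iff m1).2 (integrable_const _).integrableOn)
    ((integrable_indicator_iff m2).2 (integrable_const _).integrableOn),
    integral_indicator m1, integral_indicator m2, setIntegral_const, setIntegral_const, smul_eq_mul,
    smul_eq_mul, mul_one, mul_one]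
  congr 1
  · rw [Measure.real, s1, Measure.infinitePi_pi _ (fun _ _ => measurableSet_singleton _)]
    simp [Measure.real]
  · rw [Measure.real, s2, Measure.infinitePi_pi _ (fun _ _ => measurableSet_singleton _)]
    simp [Measure.real]

theorem nz_total (μ : Measure ℝ) (hμ : Std μ) (n : ℕ) :
    ∫ ω, (nz (kac n ω) univ : ℝ) ∂(PP μ)
      = μ.real {0} - μ.real {0} ^ (n + 1)
        + ∫ ω, (nz (kac n ω) {1} : ℝ) ∂(PP μ) + ∫ ω, (nz (kac n ω) {-1} : ℝ) ∂(PP μ)
        + 2 * ∫ ω, (nz (kac n ω) {x : ℝ | 0 < |x| ∧ |x| < 1} : ℝ) ∂(PP μ) := by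
  haveI := hμ.prob
  have hsp : ∀ ω : ℕ → ℝ, (nz (kac n ω) univ : ℝ) = nz (kac n ω) {0} + nz (kac n ω) {1} +
      nz (kac n ω) {-1} + nz (kac n ω) {x : ℝ | 0 < |x| ∧ |x| < 1} +
      nz (kac n ω) {x : ℝ | 1 < |x|} := by
    intro ω
    have e1 : nz (kac n ω) (Icc (-1) 1) = nz (kac n ω) (Ico (-1) 1) + nz (kac n ω) {1} := by
      rw [← nz_union]
      · rw [Ico_union_right (by norm_num)]
      · simp
    have e2 : nz (kac n ω) (Ico (-1) 1) = nz (kac n ω) (Ioo (-1) 1) + nz (kac n ω) {-1} := by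
      rw [← nz_union]
      · rw [Ioo_union_left (by norm_num)]
      · simp
    rw [h4_split_out, e1, e2, h4_split_unit]
    push_cast
    ring
  simp only [hsp]
  have i0 := h4_int μ n _ (measurable_nz_singleton n 0)
  have i1 := h4_int μ n _ (measurable_nz_singleton n 1)
  have i2 := h4_int μ n _ (measurable_nz_singleton n (-1))
  have i3 := h4_int μ n _ (measurable_nz_set n {x : ℝ | 0 < |x| ∧ |x| < 1} (Or.inr (Or.inl rfl)))
  have i4 := h4_int μ n _ (measurable_nz_set n {x : ℝ | 1 < |x|} (Or.inr (Or.inr (Or.inl rfl))))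
  have a1 : ∫ ω, ((nz (kac n ω) {0} : ℝ) + nz (kac n ω) {1} +
      nz (kac n ω) {-1} + nz (kac n ω) {x : ℝ | 0 < |x| ∧ |x| < 1} +
      nz (kac n ω) {x : ℝ | 1 < |x|}) ∂(PP μ) =
      ∫ ω, (nz (kac n ω) {0} : ℝ) ∂(PP μ) + ∫ ω, (nz (kac n ω) {1} : ℝ) ∂(PP μ) +
      ∫ ω, (nz (kac n ω) {-1} : ℝ) ∂(PP μ) +
      ∫ ω, (nz (kac n ω) {x : ℝ | 0 < |x| ∧ |x| < 1} : ℝ) ∂(PP μ) +
      ∫ ω, (nz (kac n ω) {x : ℝ | 1 < |x|} : ℝ) ∂(PP μ) := by
    have b1 := integral_add ((((i0.add i1).add i2).add i3)) i4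
    have b2 := integral_add (((i0.add i1).add i2)) i3
    have b3 := integral_add ((i0.add i1)) i2
    have b4 := integral_add i0 i1
    simp only [Pi.add_apply] at b1 b2 b3 b4
    rw [b1, b2, b3, b4]
  rw [a1, nz_symm μ hμ n, h4_int_zero]
  ring


end H4
end Kac764
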