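import Pool.Agent.Helper764.KacDefs
import Pool.Agent.Helper764.KacJ6
import Pool.Agent.Helper764.KacH4
import Pool.Agent.Helper764.KacP6
import Pool.Agent.Helper764.KacG1
import Pool.Agent.Helper764.KacA1

set_option autoImplicit false
set_option maxHeartbeats 4000000
open MeasureTheory ProbabilityTheory Filter Topology Set
open scoped ENNReal NNReal

namespace Kac764
namespace M1
open Kac764.J6
open Kac764.H4
open Kac764.P6
open Kac764.G1
open Kac764.A1

/-! GIVEN (proved in other jobs): leave as `sorry` -/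
/-! TARGETS -/
/-- a.s. finiteness of the zero set of the power series in compact intervals (0 excluded) -/
theorem ae_finite_zeros (μ : Measure ℝ) (hμ : Std μ) (a b : ℝ) (hab : a < b) (ha : -1 < a) (hb : b < 1)
    (h0 : (0 : ℝ) ∉ Ioo a b) :
    ∀ᵐ ω ∂(PP μ), {x : ℝ | x ∈ Ioo a b ∧ F0 ω x = 0}.Finite := by
  filter_upwards [ae_sumOK μ hμ, ae_exists_ne μ hμ] with ω h1 h2
  by_contra hinf
  have hinf : {x : ℝ | x ∈ Ioo a b ∧ F0 ω x = 0}.Infinite := hinf
  obtain ⟨z, hz, hacc⟩ := hinf.exists_accPt_of_subset_isCompact (isCompact_Icc (a := a) (b := b))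
    (fun x hx => Ioo_subset_Icc_self hx.1)
  have hz1 : |z| < 1 := by
    rw [abs_lt]
    exact ⟨lt_of_lt_of_le ha hz.1, lt_of_le_of_lt hz.2 hb⟩
  obtain ⟨han, hnz⟩ := F0_local_zero ω h1 h2 z hz1
  rcases han.eventually_eq_zero_or_eventually_ne_zero with h | h
  · exact hnz h
  · rw [accPt_iff_frequently] at hacc
    rw [eventually_nhdsWithin_iff] at h
    obtain ⟨y, hy1, hy2⟩ := (hacc.and_eventually h).exists
    exact hy2 hy1.1 hy1.2.2

theorem aux12193_Ninf_union (ω : ℕ → ℝ) (S T : Set ℝ) (hd : Disjoint S T)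
    (hS : {x : ℝ | x ∈ S ∧ F0 ω x = 0}.Finite) (hT : {x : ℝ | x ∈ T ∧ F0 ω x = 0}.Finite) :
    Ninf ω (S ∪ T) = Ninf ω S + Ninf ω T := by
  unfold Ninf
  have h : {x : ℝ | x ∈ S ∪ T ∧ F0 ω x = 0} =
      {x : ℝ | x ∈ S ∧ F0 ω x = 0} ∪ {x : ℝ | x ∈ T ∧ F0 ω x = 0} := by
    ext x
    simp only [mem_setOf_eq, mem_union]
    tauto
  rw [h]
  apply Set.ncard_union_eq _ hS hT
  rw [Set.disjoint_left] at hd ⊢
  intro x hx hx'
  exact hd hx.1 hx'.1

theorem aux12193_Ninf_congr (ω : ℕ → ℝ) (S T : Set ℝ) (h1 : ∀ x, F0 ω x = 0 → (x ∈ S ↔ x ∈ T)) :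
    Ninf ω S = Ninf ω T := by
  unfold Ninf
  congr 1
  ext x
  simp only [mem_setOf_eq]
  constructor
  · rintro ⟨h, h'⟩
    exact ⟨(h1 x h').1 h, h'⟩
  · rintro ⟨h, h'⟩
    exact ⟨(h1 x h').2 h, h'⟩

theorem aux12193_nz_singleton_le (p : Polynomial ℝ) (x : ℝ) : nz p {x} ≤ 1 := by
  unfold nz
  have h : {y : ℝ | y ∈ ({x} : Set ℝ) ∧ p ≠ 0 ∧ p.eval y = 0} ⊆ {x} := fun y hy => hy.1
  calc _ ≤ ({x} : Set ℝ).ncard := Set.ncard_le_ncard h
    _ = 1 := Set.ncard_singleton x

theorem aux12193_nz_le (n : ℕ) (ω : ℕ → ℝ) (S : Set ℝ) : nz (kac n ω) S ≤ n := by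
  unfold nz
  by_cases h : kac n ω = 0
  · have : {x : ℝ | x ∈ S ∧ kac n ω ≠ 0 ∧ (kac n ω).eval x = 0} = ∅ := by
      ext x
      simp [h]
    rw [this]
    simp
  · have hsub : {x : ℝ | x ∈ S ∧ kac n ω ≠ 0 ∧ (kac n ω).eval x = 0} ⊆
        ((kac n ω).roots.toFinset : Set ℝ) := by
      intro x hx
      simp only [Finset.mem_coe, Multiset.mem_toFinset]
      exact (Polynomial.mem_roots h).2 hx.2.2
    calc _ ≤ ((kac n ω).roots.toFinset : Set ℝ).ncard :=
          Set.ncard_le_ncard hsub (Finset.finite_toSet _)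
      _ = (kac n ω).roots.toFinset.card := Set.ncard_coe_finset _
      _ ≤ Multiset.card (kac n ω).roots := Multiset.toFinset_card_le _
      _ ≤ (kac n ω).natDegree := Polynomial.card_roots' _
      _ ≤ n := by
        unfold kac
        apply Polynomial.natDegree_sum_le_of_forall_le
        intro j hj
        refine (Polynomial.natDegree_C_mul_X_pow_le _ _).trans ?_
        rw [Finset.mem_range] at hj
        omega

theorem aux12193_int_of_bdd (μ : Measure ℝ) (hμ : Std μ) (f : (ℕ → ℝ) → ℕ) (hf : Measurable f)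
    (C : ℕ) (hC : ∀ ω, f ω ≤ C) : Integrable (fun ω => (f ω : ℝ)) (PP μ) := by
  haveI := hμ.prob
  have hm : Measurable (fun ω => (f ω : ℝ)) := measurable_from_top.comp hf
  refine Integrable.of_bound hm.aestronglyMeasurable (C : ℝ) (Eventually.of_forall fun ω => ?_)
  rw [Real.norm_eq_abs, abs_of_nonneg (Nat.cast_nonneg _)]
  exact_mod_cast hC ω

theorem aux12193_singleton_tendsto (μ : Measure ℝ) (hμ : Std μ) (p : ℝ) (hp0 : p ≠ 0)
    (hp : |p| < 1) :
    Tendsto (fun n : ℕ => ∫ ω, (nz (kac n ω) {p} : ℝ) ∂(PP μ)) atTop (𝓝 0) := by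
  haveI := hμ.prob
  have h0 : (0 : ℝ) = ∫ ω : ℕ → ℝ, (0 : ℝ) ∂(PP μ) := by simp
  rw [h0]
  apply tendsto_integral_of_dominated_convergence (fun _ => (1 : ℝ))
  · intro n
    have hm : Measurable (fun ω => (nz (kac n ω) {p} : ℝ)) :=
      measurable_from_top.comp (measurable_nz_singleton n p)
    exact hm.aestronglyMeasurable
  · exact integrable_const _
  · intro n
    refine Eventually.of_forall fun ω => ?_
    rw [Real.norm_eq_abs, abs_of_nonneg (Nat.cast_nonneg _)]
    exact_mod_cast aux12193_nz_singleton_le _ _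
  · filter_upwards [ae_sumOK μ hμ, ae_ne_zero_at μ hμ p hp0 hp] with ω h1 h2
    have h3 := D0_D1_unif ω h1 |p| (abs_nonneg _) hp |F0 ω p| (abs_pos.2 h2)
    apply tendsto_const_nhds.congr'
    filter_upwards [h3] with n hn
    have h4 := (hn p le_rfl).1
    have h5 : D0 n ω p ≠ 0 := by
      intro h
      rw [h, zero_sub, abs_neg] at h4
      exact lt_irrefl _ h4
    have h6 : nz (kac n ω) {p} = 0 := by
      unfold nz
      have : {x : ℝ | x ∈ ({p} : Set ℝ) ∧ kac n ω ≠ 0 ∧ (kac n ω).eval x = 0} = ∅ := by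
        ext x
        simp only [mem_setOf_eq, mem_singleton_iff, mem_empty_iff_false, iff_false, not_and]
        rintro rfl _
        rw [kac_eval]
        exact h5
      rw [this]
      simp
    rw [h6]
    simp

theorem aux12193_nz_split (p : Polynomial ℝ) (a b : ℝ) (hab : a < b) (S : Set ℝ)
    (h1 : Ioo a b ⊆ S) (h2 : S ⊆ Icc a b) [Decidable (a ∈ S)] [Decidable (b ∈ S)] :
    nz p S = nz p (Ioo a b) + (if a ∈ S then nz p {a} else 0) + (if b ∈ S then nz p {b} else 0) := by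
  have hE : nz p ∅ = 0 := by
    unfold nz
    simp
  have ha : (if a ∈ S then nz p {a} else 0) = nz p (if a ∈ S then {a} else ∅) := by
    split_ifs
    · rfl
    · exact hE.symm
  have hb : (if b ∈ S then nz p {b} else 0) = nz p (if b ∈ S then {b} else ∅) := by
    split_ifs
    · rfl
    · exact hE.symm
  rw [ha, hb, ← nz_union, ← nz_union]
  · congr 1
    ext x
    by_cases hxa : x = a
    · subst hxa
      by_cases hx : x ∈ S
      · simp [hx]
      · simp only [hx, if_false, union_empty, false_iff, mem_union, mem_Ioo, lt_irrefl, false_and,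
          false_or]
        split_ifs
        · simp only [mem_singleton_iff]; exact hab.ne
        · simp
    · by_cases hxb : x = b
      · subst hxb
        by_cases hx : x ∈ S
        · simp [hx]
        · simp only [hx, if_false, union_empty, false_iff, mem_union, mem_Ioo, lt_irrefl, and_false,
            false_or]
          split_ifs
          · simp only [mem_singleton_iff]; exact hxa
          · simp
      · constructor
        · intro hx
          have := h2 hx
          left; left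
          exact ⟨lt_of_le_of_ne this.1 (Ne.symm hxa), lt_of_le_of_ne this.2 hxb⟩
        · rintro ((hx | hx) | hx)
          · exact h1 hx
          · split_ifs at hx
            · exact absurd hx hxa
            · exact absurd hx (by simp)
          · split_ifs at hx
            · exact absurd hx hxb
            · exact absurd hx (by simp)
  · rw [Set.disjoint_left]
    intro x hx hx'
    have hxb : x = b := by
      split_ifs at hx'
      · exact hx'
      · exact absurd hx' (by simp)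
    rcases hx with hx | hx
    · rw [hxb] at hx
      exact lt_irrefl _ hx.2
    · split_ifs at hx
      · have : x = a := hx
        rw [hxb] at this
        exact hab.ne' this
      · exact absurd hx (by simp)
  · rw [Set.disjoint_left]
    intro x hx hx'
    have hxa : x = a := by
      split_ifs at hx'
      · exact hx'
      · exact absurd hx' (by simp)
    rw [hxa] at hx
    exact lt_irrefl _ hx.1

theorem tendsto_nz_set (μ : Measure ℝ) (hμ : Std μ) (a b : ℝ) (hab : a < b) (ha : -1 < a) (hb : b < 1)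
    (h0 : (0 : ℝ) ∉ Ioo a b) (S : Set ℝ) (h1 : Ioo a b ⊆ S) (h2 : S ⊆ Icc a b) (h3 : (0 : ℝ) ∉ S) :
    Integrable (fun ω => (Ninf ω S : ℝ)) (PP μ) ∧
    (∫ ω, (Ninf ω S : ℝ) ∂(PP μ) = ∫ ω, (Ninf ω (Ioo a b) : ℝ) ∂(PP μ)) ∧
    Tendsto (fun n : ℕ => ∫ ω, (nz (kac n ω) S : ℝ) ∂(PP μ)) atTop
      (𝓝 (∫ ω, (Ninf ω S : ℝ) ∂(PP μ))) := by
  classical
  haveI := hμ.prob
  obtain ⟨hI, hT⟩ := tendsto_nz μ hμ a b hab ha hb h0
  have hane : a ∈ S → a ≠ 0 := fun h h' => h3 (h' ▸ h)
  have hbne : b ∈ S → b ≠ 0 := fun h h' => h3 (h' ▸ h)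
  have ha1 : |a| < 1 := abs_lt.2 ⟨ha, hab.trans hb⟩
  have hb1 : |b| < 1 := abs_lt.2 ⟨ha.trans hab, hb⟩
  have hA : ∀ᵐ ω ∂(PP μ), a ∈ S → F0 ω a ≠ 0 := by
    by_cases h : a ∈ S
    · filter_upwards [ae_ne_zero_at μ hμ a (hane h) ha1] with ω hω _ using hω
    · exact Eventually.of_forall fun ω h' => absurd h' h
  have hB : ∀ᵐ ω ∂(PP μ), b ∈ S → F0 ω b ≠ 0 := by
    by_cases h : b ∈ S
    · filter_upwards [ae_ne_zero_at μ hμ b (hbne h) hb1] with ω hω _ using hω
    · exact Eventually.of_forall fun ω h' => absurd h' h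
  have hN : (fun ω => (Ninf ω (Ioo a b) : ℝ)) =ᵐ[PP μ] (fun ω => (Ninf ω S : ℝ)) := by
    filter_upwards [hA, hB] with ω hωa hωb
    have := aux12193_Ninf_congr ω (Ioo a b) S (fun x hx => by
      constructor
      · exact fun h => h1 h
      · intro h
        have h' := h2 h
        refine ⟨lt_of_le_of_ne h'.1 ?_, lt_of_le_of_ne h'.2 ?_⟩
        · rintro rfl
          exact hωa h hx
        · rintro rfl
          exact hωb h hx)
    rw [this]
  refine ⟨hI.congr hN, (integral_congr_ae hN).symm, ?_⟩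
  rw [← integral_congr_ae hN]
  have hsplit : ∀ n : ℕ, ∫ ω, (nz (kac n ω) S : ℝ) ∂(PP μ) =
      ∫ ω, (nz (kac n ω) (Ioo a b) : ℝ) ∂(PP μ) +
        (if a ∈ S then ∫ ω, (nz (kac n ω) {a} : ℝ) ∂(PP μ) else 0) +
        (if b ∈ S then ∫ ω, (nz (kac n ω) {b} : ℝ) ∂(PP μ) else 0) := by
    intro n
    have i1 := aux12193_int_of_bdd μ hμ (fun ω => nz (kac n ω) (Ioo a b)) (measurable_nz n a b) n
      (fun ω => aux12193_nz_le n ω _)
    have i2 := aux12193_int_of_bdd μ hμ (fun ω => nz (kac n ω) {a}) (measurable_nz_singleton n a) n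
      (fun ω => aux12193_nz_le n ω _)
    have i3 := aux12193_int_of_bdd μ hμ (fun ω => nz (kac n ω) {b}) (measurable_nz_singleton n b) n
      (fun ω => aux12193_nz_le n ω _)
    have e : ∀ ω, (nz (kac n ω) S : ℝ) = (nz (kac n ω) (Ioo a b) : ℝ) +
        (if a ∈ S then (nz (kac n ω) {a} : ℝ) else 0) +
        (if b ∈ S then (nz (kac n ω) {b} : ℝ) else 0) := by
      intro ω
      rw [aux12193_nz_split (kac n ω) a b hab S h1 h2]
      push_cast
      rfl
    simp only [e]
    by_cases hSa : a ∈ S <;> by_cases hSb : b ∈ S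
    · simp only [hSa, hSb, if_true]
      have i12 : Integrable (fun ω => (nz (kac n ω) (Ioo a b) : ℝ) + (nz (kac n ω) {a} : ℝ)) (PP μ) :=
        i1.add i2
      rw [integral_add i12 i3, integral_add i1 i2]
    · simp only [hSa, hSb, if_true, if_false, add_zero]
      rw [integral_add i1 i2]
    · simp only [hSa, hSb, if_true, if_false, add_zero]
      rw [integral_add i1 i3]
    · simp only [hSa, hSb, if_false, add_zero]
  have hlim : Tendsto (fun n : ℕ => ∫ ω, (nz (kac n ω) (Ioo a b) : ℝ) ∂(PP μ) +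
        (if a ∈ S then ∫ ω, (nz (kac n ω) {a} : ℝ) ∂(PP μ) else 0) +
        (if b ∈ S then ∫ ω, (nz (kac n ω) {b} : ℝ) ∂(PP μ) else 0)) atTop
      (𝓝 (∫ ω, (Ninf ω (Ioo a b) : ℝ) ∂(PP μ) + 0 + 0)) := by
    refine (hT.add ?_).add ?_
    · by_cases h : a ∈ S
      · simp only [h, if_true]
        exact aux12193_singleton_tendsto μ hμ a (hane h) ha1
      · simp only [h, if_false]
        exact tendsto_const_nhds
    · by_cases h : b ∈ S
      · simp only [h, if_true]
        exact aux12193_singleton_tendsto μ hμ b (hbne h) hb1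
      · simp only [h, if_false]
        exact tendsto_const_nhds
  rw [add_zero, add_zero] at hlim
  refine hlim.congr fun n => (hsplit n).symm

theorem aux12193_center (μ : Measure ℝ) (hμ : Std μ) (r : ℝ) (hr : 0 < r) (hr1 : r < 1) :
    ∀ᵐ ω ∂(PP μ), {x : ℝ | x ∈ {x : ℝ | 0 < |x| ∧ |x| < r} ∧ F0 ω x = 0}.Finite ∧
      Ninf ω {x : ℝ | 0 < |x| ∧ |x| < r} = Ninf ω (Ioo 0 r) + Ninf ω (Ioo (-r) 0) := by
  filter_upwards [ae_finite_zeros μ hμ 0 r hr (by linarith) hr1 (by simp),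
    ae_finite_zeros μ hμ (-r) 0 (by linarith) (by linarith) (by linarith) (by simp)] with ω f1 f2
  have hset : {x : ℝ | 0 < |x| ∧ |x| < r} = Ioo 0 r ∪ Ioo (-r) 0 := by
    ext x
    simp only [mem_setOf_eq, mem_union, mem_Ioo, abs_pos, abs_lt]
    constructor
    · rintro ⟨h, h'⟩
      rcases lt_or_gt_of_ne h with h | h
      · right; exact ⟨h'.1, h⟩
      · left; exact ⟨h, h'.2⟩
    · rintro (h | h)
      · exact ⟨h.1.ne', by linarith [h.1], h.2⟩
      · exact ⟨h.2.ne, h.1, by linarith [h.2]⟩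
  constructor
  · refine (f1.union f2).subset ?_
    rintro x ⟨hx, hx'⟩
    have hx2 : x ∈ {x : ℝ | 0 < |x| ∧ |x| < r} := hx
    rw [hset] at hx2
    rcases hx2 with hx2 | hx2
    · left; exact ⟨hx2, hx'⟩
    · right; exact ⟨hx2, hx'⟩
  · rw [hset]
    apply aux12193_Ninf_union ω _ _ _ f1 f2
    rw [Set.disjoint_left]
    intro x hx hx'
    exact lt_asymm hx.1 hx'.2

/-- additivity of the expected number of zeros of the power series: for `0 < r < s < 1` -/
theorem Ninf_annulus (μ : Measure ℝ) (hμ : Std μ) (r s : ℝ) (hr : 0 < r) (hrs : r < s) (hs : s < 1) :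
    ∫ ω, (Ninf ω {x : ℝ | 0 < |x| ∧ |x| < s} : ℝ) ∂(PP μ)
      = ∫ ω, (Ninf ω {x : ℝ | 0 < |x| ∧ |x| < r} : ℝ) ∂(PP μ)
        + ∫ ω, (Ninf ω (Ioo r s) : ℝ) ∂(PP μ) + ∫ ω, (Ninf ω (Ioo (-s) (-r)) : ℝ) ∂(PP μ) := by
  have hr1 : r < 1 := hrs.trans hs
  have n1 : (0 : ℝ) ∉ Ioo r s := fun h => by linarith [h.1]
  have n2 : (0 : ℝ) ∉ Ioo (-s) (-r) := fun h => by linarith [h.2]
  have i1 : Integrable (fun ω => (Ninf ω {x : ℝ | 0 < |x| ∧ |x| < r} : ℝ)) (PP μ) := by
    have j1 := (tendsto_nz μ hμ 0 r hr (by linarith) hr1 (by simp)).1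
    have j2 := (tendsto_nz μ hμ (-r) 0 (by linarith) (by linarith) (by linarith) (by simp)).1
    refine (j1.add j2).congr ?_
    filter_upwards [aux12193_center μ hμ r hr hr1] with ω hω
    rw [hω.2]
    simp
  have i2 := (tendsto_nz μ hμ r s hrs (by linarith) hs n1).1
  have i3 := (tendsto_nz μ hμ (-s) (-r) (by linarith) (by linarith) (by linarith) n2).1
  have i12 : Integrable (fun ω => (Ninf ω {x : ℝ | 0 < |x| ∧ |x| < r} : ℝ) +
      (Ninf ω (Ioo r s) : ℝ)) (PP μ) := i1.add i2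
  rw [← integral_add i1 i2, ← integral_add i12 i3]
  apply integral_congr_ae
  filter_upwards [aux12193_center μ hμ r hr hr1,
    ae_finite_zeros μ hμ r s hrs (by linarith) hs n1,
    ae_finite_zeros μ hμ (-s) (-r) (by linarith) (by linarith) (by linarith) n2,
    ae_ne_zero_at μ hμ r hr.ne' (by rw [abs_of_pos hr]; exact hr1),
    ae_ne_zero_at μ hμ (-r) (by linarith) (by rw [abs_neg, abs_of_pos hr]; exact hr1)]
    with ω hc f1 f2 hnr hnr'
  have e1 : Ninf ω {x : ℝ | 0 < |x| ∧ |x| < s} =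
      Ninf ω (({x : ℝ | 0 < |x| ∧ |x| < r} ∪ Ioo r s) ∪ Ioo (-s) (-r)) := by
    apply aux12193_Ninf_congr
    intro x hx
    have hxr : x ≠ r := by rintro rfl; exact hnr hx
    have hxr' : x ≠ -r := by rintro rfl; exact hnr' hx
    simp only [mem_setOf_eq, mem_union, mem_Ioo, abs_pos, abs_lt]
    constructor
    · rintro ⟨h, h'⟩
      rcases lt_or_gt_of_ne hxr with h3 | h3
      · rcases lt_or_gt_of_ne hxr' with h4 | h4
        · right; exact ⟨h'.1, h4⟩
        · left; left; exact ⟨h, h4, h3⟩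
      · left; right; exact ⟨h3, h'.2⟩
    · rintro ((h | h) | h)
      · exact ⟨h.1, by linarith [h.2.1], by linarith [h.2.2]⟩
      · exact ⟨by linarith [h.1], by linarith [h.1], h.2⟩
      · exact ⟨by linarith [h.2], h.1, by linarith [h.2]⟩
  have d1 : Disjoint {x : ℝ | 0 < |x| ∧ |x| < r} (Ioo r s) := by
    rw [Set.disjoint_left]
    intro x hx hx'
    have := (abs_lt.1 hx.2).2
    exact lt_asymm this hx'.1
  have d2 : Disjoint ({x : ℝ | 0 < |x| ∧ |x| < r} ∪ Ioo r s) (Ioo (-s) (-r)) := by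
    rw [Set.disjoint_left]
    intro x hx hx'
    rcases hx with hx | hx
    · have := (abs_lt.1 hx.2).1
      exact lt_asymm this hx'.2
    · linarith [hx.1, hx'.2]
  have f3 : {x : ℝ | x ∈ {x : ℝ | 0 < |x| ∧ |x| < r} ∪ Ioo r s ∧ F0 ω x = 0}.Finite := by
    refine (hc.1.union f1).subset ?_
    rintro x ⟨hx | hx, hx'⟩
    · left; exact ⟨hx, hx'⟩
    · right; exact ⟨hx, hx'⟩
  rw [e1, aux12193_Ninf_union ω _ _ d2 f3 f2, aux12193_Ninf_union ω _ _ d1 hc.1 f1]
  simp

theorem Ninf_center (μ : Measure ℝ) (hμ : Std μ) (r : ℝ) (hr : 0 < r) (hr1 : r < 1) :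
    ∫ ω, (Ninf ω {x : ℝ | 0 < |x| ∧ |x| < r} : ℝ) ∂(PP μ)
      = ∫ ω, (Ninf ω (Ioo 0 r) : ℝ) ∂(PP μ) + ∫ ω, (Ninf ω (Ioo (-r) 0) : ℝ) ∂(PP μ) := by
  have j1 := (tendsto_nz μ hμ 0 r hr (by linarith) hr1 (by simp)).1
  have j2 := (tendsto_nz μ hμ (-r) 0 (by linarith) (by linarith) (by linarith) (by simp)).1
  rw [← integral_add j1 j2]
  apply integral_congr_ae
  filter_upwards [aux12193_center μ hμ r hr hr1] with ω hω
  rw [hω.2]
  simp


end M1
end Kac764
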