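import Pool.Agent.Helper764.KacDefs
import Pool.Agent.Helper764.KacH4
import Pool.Agent.Helper764.KacJ6
import Pool.Agent.Helper764.KacH2

set_option autoImplicit false
set_option maxHeartbeats 4000000
open MeasureTheory ProbabilityTheory Filter Topology Set
open scoped ENNReal NNReal

namespace Kac764
namespace M2
open Kac764.H4
open Kac764.J6
open Kac764.H2

/-! GIVEN (proved in other jobs): leave as `sorry` -/
/-! TARGETS -/
/-- dyadic points `1 - 2^{-k}` -/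
noncomputable def rr (k : ℕ) : ℝ := 1 - (1 / 2 : ℝ) ^ k

/-- expected number of zeros in the two symmetric windows number `k`, minus the Gaussian prediction -/
noncomputable def del (μ : Measure ℝ) (n k : ℕ) : ℝ :=
  ∫ ω, (nz (kac n ω) (Ioc (rr k) (rr (k + 1))) : ℝ) ∂(PP μ)
    + ∫ ω, (nz (kac n ω) (Ico (-rr (k + 1)) (-rr k)) : ℝ) ∂(PP μ)
    - 2 * ∫ x in (rr k)..(rr (k + 1)), rho n x

/-- the same for the last window `(1 - 2^{-K}, 1)` -/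
noncomputable def delLast (μ : Measure ℝ) (n k : ℕ) : ℝ :=
  ∫ ω, (nz (kac n ω) (Ioo (rr k) 1) : ℝ) ∂(PP μ)
    + ∫ ω, (nz (kac n ω) (Ioo (-1) (-rr k)) : ℝ) ∂(PP μ)
    - 2 * ∫ x in (rr k)..1, rho n x

theorem rr_lt_one (k : ℕ) : rr k < 1 := by
  unfold rr
  have : (0 : ℝ) < (1 / 2) ^ k := by positivity
  linarith

theorem rr_lt_succ (k : ℕ) : rr k < rr (k + 1) := by
  unfold rr
  have : (0 : ℝ) < (1 / 2) ^ k := by positivity
  rw [pow_succ]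
  linarith

theorem rr_nonneg (k : ℕ) : 0 ≤ rr k := by
  unfold rr
  have : ((1 : ℝ) / 2) ^ k ≤ 1 := pow_le_one₀ (by norm_num) (by norm_num)
  linarith

theorem rr_zero : rr 0 = 0 := by simp [rr]

theorem nz_meas_int (μ : Measure ℝ) (hμ : Std μ) (n : ℕ) (S : Set ℝ)
    (hm : Measurable (fun ω : ℕ → ℝ => nz (kac n ω) S)) :
    Integrable (fun ω : ℕ → ℝ => (nz (kac n ω) S : ℝ)) (PP μ) := by
  have := hμ.prob
  refine Integrable.of_bound (C := (n : ℝ)) ?_ ?_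
  · exact (measurable_from_nat.comp hm).aestronglyMeasurable
  · refine Eventually.of_forall fun ω => ?_
    rw [Real.norm_eq_abs, abs_of_nonneg (Nat.cast_nonneg _)]
    exact_mod_cast nz_natDegree_kac n ω S

theorem E_union (μ : Measure ℝ) (hμ : Std μ) (n : ℕ) (S T : Set ℝ) (h : Disjoint S T)
    (hS : Measurable (fun ω : ℕ → ℝ => nz (kac n ω) S))
    (hT : Measurable (fun ω : ℕ → ℝ => nz (kac n ω) T)) :
    ∫ ω, (nz (kac n ω) (S ∪ T) : ℝ) ∂(PP μ) =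
      ∫ ω, (nz (kac n ω) S : ℝ) ∂(PP μ) + ∫ ω, (nz (kac n ω) T : ℝ) ∂(PP μ) := by
  rw [← integral_add (nz_meas_int μ hμ n S hS) (nz_meas_int μ hμ n T hT)]
  refine integral_congr_ae (Eventually.of_forall fun ω => ?_)
  simp only
  rw [nz_union _ _ _ h]
  push_cast
  rfl

theorem meas_Ioc (n : ℕ) (a b : ℝ) : Measurable (fun ω : ℕ → ℝ => nz (kac n ω) (Ioc a b)) :=
  measurable_nz_set n _ (Or.inr (Or.inr (Or.inr (Or.inl ⟨a, b, rfl⟩))))

theorem meas_Ico (n : ℕ) (a b : ℝ) : Measurable (fun ω : ℕ → ℝ => nz (kac n ω) (Ico a b)) :=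
  measurable_nz_set n _ (Or.inr (Or.inr (Or.inr (Or.inr (Or.inl ⟨a, b, rfl⟩)))))

theorem rho_ii (n : ℕ) (a b : ℝ) : IntervalIntegrable (rho n) volume a b :=
  (rho_continuous n).intervalIntegrable a b

theorem decompose (μ : Measure ℝ) (hμ : Std μ) (n K : ℕ) :
    ∫ ω, (nz (kac n ω) {x : ℝ | 0 < |x| ∧ |x| < 1} : ℝ) ∂(PP μ)
      = ∑ k ∈ Finset.range K, del μ n k + delLast μ n K + 2 * ∫ x in (0 : ℝ)..1, rho n x := by
  induction K with
  | zero =>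
    rw [Finset.sum_range_zero, delLast, rr_zero]
    have e : {x : ℝ | 0 < |x| ∧ |x| < 1} = Ioo 0 1 ∪ Ioo (-1) (-0) := by
      ext x
      simp only [mem_setOf_eq, mem_union, mem_Ioo, abs_lt, abs_pos, neg_zero]
      constructor
      · rintro ⟨h1, h2, h3⟩
        rcases lt_or_gt_of_ne h1 with h | h
        · exact Or.inr ⟨h2, h⟩
        · exact Or.inl ⟨h, h3⟩
      · rintro (⟨h1, h2⟩ | ⟨h1, h2⟩)
        · exact ⟨h1.ne', by linarith, h2⟩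
        · exact ⟨h2.ne, h1, by linarith⟩
    rw [e, E_union μ hμ n _ _ ?_ (measurable_nz n 0 1) (measurable_nz n (-1) (-0))]
    · ring
    · rw [Set.disjoint_left]
      rintro x ⟨h1, h2⟩ ⟨h3, h4⟩
      linarith
  | succ K ih =>
    rw [ih, Finset.sum_range_succ]
    have h1 := rr_lt_succ K
    have h2 := rr_lt_one (K + 1)
    have e1 : Ioo (rr K) 1 = Ioc (rr K) (rr (K + 1)) ∪ Ioo (rr (K + 1)) 1 :=
      (Ioc_union_Ioo_eq_Ioo h1.le h2).symm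
    have e2 : Ioo (-1) (-rr K) = Ico (-rr (K + 1)) (-rr K) ∪ Ioo (-1) (-rr (K + 1)) := by
      rw [union_comm]
      exact (Ioo_union_Ico_eq_Ioo (by linarith) (by linarith)).symm
    have e3 : ∫ ω, (nz (kac n ω) (Ioo (rr K) 1) : ℝ) ∂(PP μ) =
        ∫ ω, (nz (kac n ω) (Ioc (rr K) (rr (K + 1))) : ℝ) ∂(PP μ) +
        ∫ ω, (nz (kac n ω) (Ioo (rr (K + 1)) 1) : ℝ) ∂(PP μ) := by
      rw [e1, E_union μ hμ n _ _ ?_ (meas_Ioc n _ _) (measurable_nz n _ _)]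
      rw [Set.disjoint_left]
      rintro x ⟨h1, h2⟩ ⟨h3, h4⟩
      linarith
    have e4 : ∫ ω, (nz (kac n ω) (Ioo (-1) (-rr K)) : ℝ) ∂(PP μ) =
        ∫ ω, (nz (kac n ω) (Ico (-rr (K + 1)) (-rr K)) : ℝ) ∂(PP μ) +
        ∫ ω, (nz (kac n ω) (Ioo (-1) (-rr (K + 1))) : ℝ) ∂(PP μ) := by
      rw [e2, E_union μ hμ n _ _ ?_ (meas_Ico n _ _) (measurable_nz n _ _)]
      rw [Set.disjoint_left]
      rintro x ⟨h1, h2⟩ ⟨h3, h4⟩
      linarith
    have e5 : ∫ x in (rr K)..1, rho n x = (∫ x in (rr K)..(rr (K + 1)), rho n x) +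
        ∫ x in (rr (K + 1))..1, rho n x :=
      (intervalIntegral.integral_add_adjacent_intervals (rho_ii n _ _) (rho_ii n _ _)).symm
    have e6 : delLast μ n K = del μ n K + delLast μ n (K + 1) := by
      unfold delLast del
      rw [e3, e4, e5]
      ring
    rw [e6]
    ring

theorem _root_.Kac764.Win.neg' {n m : ℕ} {a b : ℝ} (h : Win n m a b) : Win n m (-b) (-a) := by
  have hx : ∀ x ∈ Icc (-b) (-a), -x ∈ Icc a b := by
    rintro x ⟨h1, h2⟩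
    exact ⟨by linarith, by linarith⟩
  refine ⟨h.hm, h.hmn, by linarith [h.hab], by linarith [h.hlen], ?_, ?_⟩
  · intro x hxx
    have := h.hlow (-x) (hx x hxx)
    rwa [abs_neg] at this
  · rcases h.hup with h1 | ⟨h1, h2⟩
    · left
      intro x hxx
      have := h1 (-x) (hx x hxx)
      rwa [abs_neg] at this
    · right
      refine ⟨h1, fun x hxx => ?_⟩
      have := h2 (-x) (hx x hxx)
      rwa [abs_neg] at this

theorem _root_.Kac764.Win.sub' {n m : ℕ} {a b s : ℝ} (h : Win n m a b) (h1 : a < s) (h2 : s ≤ b) :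
    Win n m a s := by
  have hx : ∀ x ∈ Icc a s, x ∈ Icc a b := fun x hx => ⟨hx.1, hx.2.trans h2⟩
  refine ⟨h.hm, h.hmn, h1, by linarith [h.hlen], fun x hxx => h.hlow x (hx x hxx), ?_⟩
  rcases h.hup with h3 | ⟨h3, h4⟩
  · exact Or.inl fun x hxx => h3 x (hx x hxx)
  · exact Or.inr ⟨h3, fun x hxx => h4 x (hx x hxx)⟩

theorem rr_eq (k : ℕ) : rr k = 1 - 1 / (((2 ^ k : ℕ)) : ℝ) := by
  unfold rr
  push_cast
  rw [one_div_pow]

theorem rr_succ_eq (k : ℕ) : rr (k + 1) = 1 - 1 / (2 * (((2 ^ k : ℕ)) : ℝ)) := by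
  unfold rr
  push_cast
  rw [one_div_pow, pow_succ, mul_comm]

theorem win_dyadic (n k : ℕ) (hk : 1 ≤ k) (hn : 2 ^ k ≤ n) :
    Win n (2 ^ k) (rr k) (rr (k + 1)) := by
  have h2 : 2 ≤ 2 ^ k := by
    calc 2 = 2 ^ 1 := by norm_num
      _ ≤ 2 ^ k := Nat.pow_le_pow_right (by norm_num) hk
  have hpos : (0 : ℝ) < ((2 ^ k : ℕ) : ℝ) := by positivity
  refine ⟨h2, hn, rr_lt_succ k, ?_, ?_, ?_⟩
  · rw [rr_succ_eq, rr_eq]
    have : 0 < 1 / (2 * (((2 ^ k : ℕ)) : ℝ)) := by positivity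
    linarith
  · rintro x ⟨h1, -⟩
    rw [← rr_eq]
    exact h1.trans (le_abs_self x)
  · left
    rintro x ⟨h1, h3⟩
    rw [← rr_succ_eq, abs_of_nonneg ((rr_nonneg k).trans h1)]
    exact h3

theorem win_last (n k : ℕ) (hk : 1 ≤ k) (hn : 2 ^ k ≤ n) (hn2 : n < 2 ^ (k + 1)) :
    Win n (2 ^ k) (rr k) 1 := by
  have h2 : 2 ≤ 2 ^ k := by
    calc 2 = 2 ^ 1 := by norm_num
      _ ≤ 2 ^ k := Nat.pow_le_pow_right (by norm_num) hk
  refine ⟨h2, hn, rr_lt_one k, ?_, ?_, ?_⟩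
  · rw [rr_eq]; linarith
  · rintro x ⟨h1, -⟩
    rw [← rr_eq]
    exact h1.trans (le_abs_self x)
  · right
    refine ⟨?_, ?_⟩
    · rw [pow_succ] at hn2; omega
    · rintro x ⟨h1, h3⟩
      rw [abs_of_nonneg ((rr_nonneg k).trans h1)]
      exact h3

theorem rho_mirror (n : ℕ) (a b : ℝ) : ∫ x in (-b)..(-a), rho n x = ∫ x in a..b, rho n x := by
  have h := intervalIntegral.integral_comp_neg (a := a) (b := b) (rho n)
  rw [← h]
  refine intervalIntegral.integral_congr fun x _ => ?_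
  exact rho_neg n x

theorem pair_bound (μ : Measure ℝ) (C : ℝ)
    (hC : ∀ (n m : ℕ) (a b : ℝ), Win n m a b → ∀ S : Set ℝ, Ioo a b ⊆ S → S ⊆ Icc a b →
      |∫ ω, (nz (kac n ω) S : ℝ) ∂(PP μ) - ∫ x in a..b, rho n x|
        ≤ C * (AA μ m + (m : ℝ) ^ (-(1 / 25) : ℝ)))
    (n k : ℕ) (a b : ℝ) (hw : Win n (2 ^ k) a b) (S S' : Set ℝ) (h1 : Ioo a b ⊆ S)
    (h2 : S ⊆ Icc a b) (h3 : Ioo (-b) (-a) ⊆ S') (h4 : S' ⊆ Icc (-b) (-a)) :
    |∫ ω, (nz (kac n ω) S : ℝ) ∂(PP μ) + ∫ ω, (nz (kac n ω) S' : ℝ) ∂(PP μ)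
      - 2 * ∫ x in a..b, rho n x| ≤ 2 * C * (AA μ (2 ^ k) + ((2 : ℝ) ^ k) ^ (-(1 / 25) : ℝ)) := by
  have u1 := hC n (2 ^ k) a b hw S h1 h2
  have u2 := hC n (2 ^ k) (-b) (-a) hw.neg' S' h3 h4
  rw [rho_mirror] at u2
  have e : (((2 ^ k : ℕ)) : ℝ) = (2 : ℝ) ^ k := by push_cast; rfl
  rw [e] at u1 u2
  rw [abs_le] at u1 u2 ⊢
  constructor <;> linarith [u1.1, u1.2, u2.1, u2.2]

/-- uniform bound for the windows -/
theorem del_bound (μ : Measure ℝ) (hμ : Std μ) (hW : WindowEst μ) :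
    ∃ C > 0, (∀ n k : ℕ, 1 ≤ k → 2 ^ k ≤ n →
        |del μ n k| ≤ C * (AA μ (2 ^ k) + ((2 : ℝ) ^ k) ^ (-(1 / 25) : ℝ))) ∧
      (∀ n k : ℕ, 1 ≤ k → 2 ^ k ≤ n → n < 2 ^ (k + 1) →
        |delLast μ n k| ≤ C * (AA μ (2 ^ k) + ((2 : ℝ) ^ k) ^ (-(1 / 25) : ℝ))) ∧
      (∀ n k : ℕ, ∀ s : ℝ, 1 ≤ k → 2 ^ k ≤ n → rr k < s → s ≤ rr (k + 1) →
        |∫ ω, (nz (kac n ω) (Ioo (rr k) s) : ℝ) ∂(PP μ)
          + ∫ ω, (nz (kac n ω) (Ioo (-s) (-rr k)) : ℝ) ∂(PP μ)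
          - 2 * ∫ x in (rr k)..s, rho n x| ≤ C * (AA μ (2 ^ k) + ((2 : ℝ) ^ k) ^ (-(1 / 25) : ℝ))) := by
  obtain ⟨C, hC0, hC⟩ := hW
  refine ⟨2 * C, by positivity, ?_, ?_, ?_⟩
  · intro n k hk hn
    unfold del
    exact pair_bound μ C hC n k _ _ (win_dyadic n k hk hn) _ _ Ioo_subset_Ioc_self
      Ioc_subset_Icc_self Ioo_subset_Ico_self Ico_subset_Icc_self
  · intro n k hk hn hn2
    unfold delLast
    exact pair_bound μ C hC n k _ _ (win_last n k hk hn hn2) _ _ (Subset.refl _)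
      Ioo_subset_Icc_self (Subset.refl _) Ioo_subset_Icc_self
  · intro n k s hk hn h1 h2
    exact pair_bound μ C hC n k _ _ ((win_dyadic n k hk hn).sub' h1 h2) _ _ (Subset.refl _)
      Ioo_subset_Icc_self (Subset.refl _) Ioo_subset_Icc_self


end M2
end Kac764
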