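import Pool.Agent.Helper764.KacDefs
import Pool.Agent.Helper764.KacH1
import Pool.Agent.Helper764.KacH2
import Pool.Agent.Helper764.KacH3
import Pool.Agent.Helper764.KacH4
import Pool.Agent.Helper764.KacJ6
import Pool.Agent.Helper764.KacP6
import Pool.Agent.Helper764.KacM1
import Pool.Agent.Helper764.KacM2

set_option autoImplicit false
set_option maxHeartbeats 4000000
open MeasureTheory ProbabilityTheory Filter Topology Set
open scoped ENNReal NNReal

namespace Kac764
namespace M3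
open Kac764.H1
open Kac764.H2
open Kac764.H3
open Kac764.H4
open Kac764.J6
open Kac764.P6
open Kac764.M1
open Kac764.M2

/-! GIVEN (proved in other jobs): leave as `sorry` -/
/-! helper lemmas for M3 -/
theorem M3_rr_lt_one (k : ℕ) : rr k < 1 := by
  unfold rr
  have : (0 : ℝ) < (1 / 2) ^ k := by positivity
  linarith

theorem M3_rr_nonneg (k : ℕ) : 0 ≤ rr k := by
  unfold rr
  have : ((1 : ℝ) / 2) ^ k ≤ 1 := pow_le_one₀ (by norm_num) (by norm_num)
  linarith

theorem M3_rr_lt (k : ℕ) : rr k < rr (k + 1) := by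
  unfold rr
  have : (0 : ℝ) < (1 / 2) ^ k := by positivity
  rw [pow_succ]
  linarith

theorem M3_rr_mono : Monotone rr := monotone_nat_of_le_succ fun k => (M3_rr_lt k).le

theorem M3_rr_zero : rr 0 = 0 := by simp [rr]

theorem M3_rr_pos (k : ℕ) (hk : 1 ≤ k) : 0 < rr k := by
  have h1 := M3_rr_lt 0
  rw [M3_rr_zero, zero_add] at h1
  exact lt_of_lt_of_le h1 (M3_rr_mono hk)

theorem M3_rr_tendsto : Tendsto rr atTop (𝓝 1) := by
  have h : Tendsto (fun k : ℕ => ((1 : ℝ) / 2) ^ k) atTop (𝓝 0) :=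
    tendsto_pow_atTop_nhds_zero_of_lt_one (by norm_num) (by norm_num)
  have h2 : Tendsto (fun k : ℕ => 1 - ((1 : ℝ) / 2) ^ k) atTop (𝓝 (1 - 0)) := h.const_sub 1
  rw [sub_zero] at h2
  exact h2

/-- the limit of `del` -/
noncomputable def delInf (μ : Measure ℝ) (k : ℕ) : ℝ :=
  ∫ ω, (Ninf ω (Ioo (rr k) (rr (k + 1))) : ℝ) ∂(PP μ)
    + ∫ ω, (Ninf ω (Ioo (-rr (k + 1)) (-rr k)) : ℝ) ∂(PP μ)
    - 2 * ∫ x in (rr k)..(rr (k + 1)), 1 / (Real.pi * (1 - x ^ 2))

theorem M3_lim_gen (μ : Measure ℝ) (hμ : Std μ) (a b : ℝ) (ha : 0 ≤ a) (hab : a < b) (hb : b < 1)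
    (S S' : Set ℝ) (h1 : Ioo a b ⊆ S) (h2 : S ⊆ Ioc a b) (h1' : Ioo (-b) (-a) ⊆ S')
    (h2' : S' ⊆ Ico (-b) (-a)) :
    Tendsto (fun n : ℕ => ∫ ω, (nz (kac n ω) S : ℝ) ∂(PP μ)
      + ∫ ω, (nz (kac n ω) S' : ℝ) ∂(PP μ) - 2 * ∫ x in a..b, rho n x) atTop
      (𝓝 (∫ ω, (Ninf ω (Ioo a b) : ℝ) ∂(PP μ) + ∫ ω, (Ninf ω (Ioo (-b) (-a)) : ℝ) ∂(PP μ)
        - 2 * ∫ x in a..b, 1 / (Real.pi * (1 - x ^ 2)))) := by
  obtain ⟨_, e1, t1⟩ := tendsto_nz_set μ hμ a b hab (by linarith) hb
    (fun h => by have := h.1; linarith) S h1 (h2.trans Ioc_subset_Icc_self)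
    (fun h => by have := (h2 h).1; linarith)
  obtain ⟨_, e2, t2⟩ := tendsto_nz_set μ hμ (-b) (-a) (by linarith) (by linarith) (by linarith)
    (fun h => by have := h.2; linarith) S' h1' (h2'.trans Ico_subset_Icc_self)
    (fun h => by have := (h2' h).2; linarith)
  rw [e1] at t1
  rw [e2] at t2
  exact (t1.add t2).sub ((tendsto_int_rho a b (by linarith) hab.le hb).const_mul 2)

theorem M3_del_tendsto (μ : Measure ℝ) (hμ : Std μ) (k : ℕ) :
    Tendsto (fun n => del μ n k) atTop (𝓝 (delInf μ k)) :=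
  M3_lim_gen μ hμ (rr k) (rr (k + 1)) (M3_rr_nonneg k) (M3_rr_lt k) (M3_rr_lt_one _) _ _
    Ioo_subset_Ioc_self subset_rfl Ioo_subset_Ico_self subset_rfl

theorem M3_eta_summable (μ : Measure ℝ) (hμ : Std μ) (C : ℝ) :
    Summable (fun k : ℕ => C * (AA μ (2 ^ k) + ((2 : ℝ) ^ k) ^ (-(1 / 25) : ℝ))) := by
  refine ((AA_summable μ hμ).add ?_).mul_left C
  have h1 : ∀ k : ℕ, ((2 : ℝ) ^ k) ^ (-(1 / 25) : ℝ) = ((2 : ℝ) ^ (-(1 / 25) : ℝ)) ^ k := by
    intro k
    rw [← Real.rpow_natCast, ← Real.rpow_mul (by norm_num), ← Real.rpow_natCast,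
      ← Real.rpow_mul (by norm_num), mul_comm]
  simp_rw [h1]
  refine summable_geometric_of_lt_one (by positivity) ?_
  exact Real.rpow_lt_one_of_one_lt_of_neg (by norm_num) (by norm_num)

theorem M3_log_tendsto : Tendsto (fun n : ℕ => Nat.log 2 n) atTop atTop := by
  refine tendsto_atTop.2 fun b => ?_
  filter_upwards [eventually_ge_atTop (2 ^ b)] with n hn
  exact Nat.le_log_of_pow_le (by norm_num) hn

theorem M3_atom (μ : Measure ℝ) (hμ : Std μ) : μ.real {0} < 1 := by
  haveI := hμ.prob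
  refine lt_of_le_of_ne measureReal_le_one ?_
  intro h
  have h1 : μ {(0 : ℝ)} = 1 := by
    have := ofReal_measureReal (μ := μ) (s := {(0 : ℝ)})
    rw [h, ENNReal.ofReal_one] at this
    exact this.symm
  have h2 : ∀ᵐ x ∂μ, x ∈ ({0} : Set ℝ) :=
    (prob_compl_eq_zero_iff (measurableSet_singleton 0)).2 h1
  have h3 : ∫ x, x ^ 2 ∂μ = 0 := by
    rw [integral_eq_zero_of_ae]
    filter_upwards [h2] with x hx
    rw [mem_singleton_iff] at hx
    simp [hx]
  rw [hμ.var] at h3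
  norm_num at h3

theorem M3_point (μ : Measure ℝ) (hμ : Std μ) (hS : SB1 μ) (a : ℝ) (ha : |a| = 1) :
    Tendsto (fun n : ℕ => ∫ ω, (nz (kac n ω) {a} : ℝ) ∂(PP μ)) atTop (𝓝 0) := by
  haveI := hμ.prob
  obtain ⟨C, hC, hb⟩ := hS
  have hle1 : ∀ (n : ℕ) (ω : ℕ → ℝ), nz (kac n ω) {a} ≤ 1 := by
    intro n ω
    unfold nz
    have : {x : ℝ | x ∈ ({a} : Set ℝ) ∧ kac n ω ≠ 0 ∧ (kac n ω).eval x = 0} ⊆ {a} := fun x hx => hx.1
    calc _ ≤ ({a} : Set ℝ).ncard := Set.ncard_le_ncard this (Set.finite_singleton a)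
      _ = 1 := Set.ncard_singleton a
  have hD : ∀ (n : ℕ) (ω : ℕ → ℝ), nz (kac n ω) {a} ≠ 0 → D0 n ω a = 0 := by
    intro n ω h
    have h1 : {x : ℝ | x ∈ ({a} : Set ℝ) ∧ kac n ω ≠ 0 ∧ (kac n ω).eval x = 0}.Nonempty := by
      rw [Set.nonempty_iff_ne_empty]
      intro he
      apply h
      unfold nz
      rw [he, Set.ncard_empty]
    obtain ⟨x, hx, _, hx2⟩ := h1
    rw [mem_singleton_iff] at hx
    rw [kac_eval, hx] at hx2
    exact hx2
  have hbd : ∀ n : ℕ, 2 ≤ n → ∫ ω, (nz (kac n ω) {a} : ℝ) ∂(PP μ) ≤ C * (n : ℝ) ^ (-(1 / 2) : ℝ) := by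
    intro n hn
    set A : Set (ℕ → ℝ) := {ω | nz (kac n ω) {a} = 1} with hA
    have hAm : MeasurableSet A := (measurable_nz_singleton n a) (measurableSet_singleton 1)
    have e1 : (fun ω => (nz (kac n ω) {a} : ℝ)) = A.indicator (fun _ => (1 : ℝ)) := by
      funext ω
      by_cases h : ω ∈ A
      · rw [indicator_of_mem h]
        have : nz (kac n ω) {a} = 1 := h
        rw [this]; norm_num
      · rw [indicator_of_notMem h]
        have h2 : nz (kac n ω) {a} ≠ 1 := h
        have h3 := hle1 n ω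
        have h4 : nz (kac n ω) {a} = 0 := by omega
        rw [h4]; norm_num
    rw [e1, integral_indicator hAm, setIntegral_const, smul_eq_mul, mul_one]
    have h5 : A ⊆ {ω | |D0 n ω a| ≤ 1} := by
      intro ω hω
      have h6 : nz (kac n ω) {a} = 1 := hω
      have := hD n ω (by rw [h6]; norm_num)
      simp [this]
    refine (measureReal_mono h5).trans ?_
    have hn0 : (0 : ℝ) < n := by
      have : 0 < n := by omega
      exact_mod_cast this
    have hadm : Adm n n a := by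
      refine ⟨hn, le_rfl, ?_, Or.inr ⟨by omega, ha.le⟩⟩
      rw [ha]
      have : (0 : ℝ) < 1 / n := by positivity
      linarith
    have := hb n n a 1 hadm le_rfl
    rwa [mul_one] at this
  have hlim : Tendsto (fun n : ℕ => C * (n : ℝ) ^ (-(1 / 2) : ℝ)) atTop (𝓝 0) := by
    have h1 : Tendsto (fun x : ℝ => x ^ (-(1 / 2) : ℝ)) atTop (𝓝 0) :=
      tendsto_rpow_neg_atTop (by norm_num)
    have h2 := (h1.comp tendsto_natCast_atTop_atTop).const_mul C
    rw [mul_zero] at h2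
    exact h2
  refine squeeze_zero' ?_ ?_ hlim
  · exact Eventually.of_forall fun n => integral_nonneg fun ω => by positivity
  · filter_upwards [eventually_ge_atTop 2] with n hn
    exact hbd n hn

/-- the centred expectation on the disc of radius `r` -/
noncomputable def gInf (μ : Measure ℝ) (r : ℝ) : ℝ :=
  ∫ ω, (Ninf ω {x : ℝ | 0 < |x| ∧ |x| < r} : ℝ) ∂(PP μ)
    - 2 * ∫ x in (0 : ℝ)..r, 1 / (Real.pi * (1 - x ^ 2))

theorem M3_intble (a b : ℝ) (ha : 0 ≤ a) (hab : a ≤ b) (hb : b < 1) :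
    IntervalIntegrable (fun x : ℝ => 1 / (Real.pi * (1 - x ^ 2))) volume a b := by
  refine ContinuousOn.intervalIntegrable ?_
  rw [uIcc_of_le hab]
  refine ContinuousOn.div continuousOn_const (by fun_prop) ?_
  intro x hx
  have h1 : 0 ≤ x := ha.trans hx.1
  have h2 : x < 1 := lt_of_le_of_lt hx.2 hb
  have h3 : 0 < 1 - x ^ 2 := by nlinarith
  have := Real.pi_pos
  positivity

theorem M3_g_step (μ : Measure ℝ) (hμ : Std μ) (r s : ℝ) (hr : 0 < r) (hrs : r < s) (hs : s < 1) :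
    gInf μ s = gInf μ r + (∫ ω, (Ninf ω (Ioo r s) : ℝ) ∂(PP μ)
      + ∫ ω, (Ninf ω (Ioo (-s) (-r)) : ℝ) ∂(PP μ) - 2 * ∫ x in r..s, 1 / (Real.pi * (1 - x ^ 2))) := by
  unfold gInf
  rw [Ninf_annulus μ hμ r s hr hrs hs, ← intervalIntegral.integral_add_adjacent_intervals
    (M3_intble 0 r le_rfl hr.le (hrs.trans hs)) (M3_intble r s hr.le hrs.le hs)]
  ring

theorem M3_g_rr (μ : Measure ℝ) (hμ : Std μ) (k : ℕ) (hk : 1 ≤ k) :
    gInf μ (rr k) = ∑ i ∈ Finset.range k, delInf μ i := by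
  induction k, hk using Nat.le_induction with
  | base =>
    rw [Finset.sum_range_one]
    unfold gInf delInf
    rw [Ninf_center μ hμ (rr 1) (M3_rr_pos 1 le_rfl) (M3_rr_lt_one 1), zero_add, M3_rr_zero, neg_zero]
  | succ k hk ih =>
    rw [Finset.sum_range_succ, ← ih, M3_g_step μ hμ (rr k) (rr (k + 1)) (M3_rr_pos k hk) (M3_rr_lt k)
      (M3_rr_lt_one _)]
    rfl

theorem M3_exists_k (k0 : ℕ) (r : ℝ) (h0 : rr k0 < r) (h1 : r < 1) :
    ∃ k ≥ k0, rr k < r ∧ r ≤ rr (k + 1) := by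
  classical
  have hex : ∃ j, r ≤ rr (j + 1) := by
    have := (M3_rr_tendsto.eventually (lt_mem_nhds h1)).and (eventually_ge_atTop 1)
    obtain ⟨j, hj, hj1⟩ := this.exists
    refine ⟨j - 1, ?_⟩
    rw [Nat.sub_add_cancel hj1]
    exact hj.le
  have hk := Nat.find_spec hex
  set k := Nat.find hex with hkdef
  have hge : k0 ≤ k := by
    by_contra hlt
    push Not at hlt
    have : rr (k + 1) ≤ rr k0 := M3_rr_mono hlt
    linarith
  refine ⟨k, hge, ?_, hk⟩
  rcases Nat.eq_or_lt_of_le hge with h | h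
  · rw [← h]; exact h0
  · have hmin := Nat.find_min hex (m := k - 1) (by omega)
    rw [Nat.sub_add_cancel (by omega)] at hmin
    exact not_le.1 hmin

/-! TARGET -/
theorem main_of (μ : Measure ℝ) (hμ : Std μ) (hW : WindowEst μ) (hS : SB1 μ) :
    ∃ L : ℝ,
      Tendsto (fun r : ℝ => 2 * ∫ ω, (Ninf ω {x : ℝ | 0 < |x| ∧ |x| < r} : ℝ) ∂(PP μ)
          - (2 / Real.pi) * Real.log ((1 + r) / (1 - r))) (𝓝[<] 1) (𝓝 L) ∧
      Tendsto (fun n : ℕ => ∫ ω, (nz (kac n ω) univ : ℝ) ∂(PP μ)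
          - (2 / Real.pi) * Real.log n) atTop (𝓝 (μ.real {0} + gaussConst + L)) := by
  haveI := hμ.prob
  obtain ⟨C, hC, hd1, hd2, hd3⟩ := del_bound μ hμ hW
  set η : ℕ → ℝ := fun k => C * (AA μ (2 ^ k) + ((2 : ℝ) ^ k) ^ (-(1 / 25) : ℝ)) with hη
  have hηs : Summable η := M3_eta_summable μ hμ C
  have hη0 : ∀ k, 0 ≤ η k := by
    intro k
    have := AA_nonneg μ (2 ^ k)
    have : (0 : ℝ) ≤ ((2 : ℝ) ^ k) ^ (-(1 / 25) : ℝ) := by positivity
    simp only [hη]
    positivity
  have hdI : ∀ k, 1 ≤ k → |delInf μ k| ≤ η k := by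
    intro k hk
    refine le_of_tendsto (M3_del_tendsto μ hμ k).abs ?_
    filter_upwards [eventually_ge_atTop (2 ^ k)] with n hn
    exact hd1 n k hk hn
  set bound : ℕ → ℝ := fun k => η k + if k = 0 then |delInf μ 0| + 1 else 0 with hbound
  have hbs : Summable bound := by
    refine hηs.add ?_
    exact summable_of_ne_finset_zero (s := {0}) (fun k hk => by
      rw [Finset.mem_singleton] at hk
      simp [hk])
  have hdIb : ∀ k, ‖delInf μ k‖ ≤ bound k := by
    intro k
    rw [Real.norm_eq_abs]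
    rcases Nat.eq_zero_or_pos k with h | h
    · subst h
      simp only [hbound, if_true]
      have := hη0 0
      linarith
    · simp only [hbound, if_neg h.ne', add_zero]
      exact hdI k h
  have hdIs : Summable (delInf μ) := Summable.of_norm_bounded hbs hdIb
  set T : ℝ := ∑' k, delInf μ k with hT
  refine ⟨2 * T, ?_, ?_⟩
  · -- first claim
    have hpart : Tendsto (fun k => ∑ i ∈ Finset.range k, delInf μ i) atTop (𝓝 T) :=
      hdIs.hasSum.tendsto_sum_nat
    have hηz : Tendsto η atTop (𝓝 0) := hηs.tendsto_atTop_zero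
    have hdiff : ∀ k, 1 ≤ k → ∀ r, rr k < r → r ≤ rr (k + 1) → |gInf μ r - gInf μ (rr k)| ≤ η k := by
      intro k hk r hr1 hr2
      have hr3 : r < 1 := lt_of_le_of_lt hr2 (M3_rr_lt_one _)
      rw [M3_g_step μ hμ (rr k) r (M3_rr_pos k hk) hr1 hr3, add_sub_cancel_left]
      refine le_of_tendsto (M3_lim_gen μ hμ (rr k) r (M3_rr_nonneg k) hr1 hr3 (Ioo (rr k) r)
        (Ioo (-r) (-rr k)) subset_rfl Ioo_subset_Ioc_self subset_rfl Ioo_subset_Ico_self).abs ?_
      filter_upwards [eventually_ge_atTop (2 ^ k)] with n hn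
      exact hd3 n k r hk hn hr1 hr2
    have hg : Tendsto (gInf μ) (𝓝[<] 1) (𝓝 T) := by
      rw [Metric.tendsto_nhds]
      intro ε hε
      have hA : ∀ᶠ k in atTop, η k < ε / 2 := hηz.eventually (gt_mem_nhds (by linarith))
      have hB : ∀ᶠ k in atTop, dist (∑ i ∈ Finset.range k, delInf μ i) T < ε / 2 :=
        (Metric.tendsto_nhds.1 hpart) (ε / 2) (by linarith)
      obtain ⟨k0, hk0⟩ := eventually_atTop.1 (hA.and hB)
      have hnb : Ioo (rr (k0 + 1)) 1 ∈ 𝓝[<] (1 : ℝ) := Ioo_mem_nhdsLT (M3_rr_lt_one _)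
      filter_upwards [hnb] with r hr
      obtain ⟨k, hk, hk1, hk2⟩ := M3_exists_k (k0 + 1) r hr.1 hr.2
      obtain ⟨hA', hB'⟩ := hk0 k (by omega)
      have h1 := hdiff k (by omega) r hk1 hk2
      rw [M3_g_rr μ hμ k (by omega)] at h1
      have h2 := dist_triangle (gInf μ r) (∑ i ∈ Finset.range k, delInf μ i) T
      rw [Real.dist_eq (gInf μ r) (∑ i ∈ Finset.range k, delInf μ i)] at h2
      linarith
    have hcongr : (fun r : ℝ => 2 * ∫ ω, (Ninf ω {x : ℝ | 0 < |x| ∧ |x| < r} : ℝ) ∂(PP μ)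
          - (2 / Real.pi) * Real.log ((1 + r) / (1 - r))) =ᶠ[𝓝[<] 1] fun r => 2 * gInf μ r := by
      have hnb : Ioo (0 : ℝ) 1 ∈ 𝓝[<] (1 : ℝ) := Ioo_mem_nhdsLT (by norm_num)
      filter_upwards [hnb] with r hr
      unfold gInf
      rw [int_rhoInf r hr.1.le hr.2]
      have := Real.pi_pos.ne'
      field_simp
    exact Tendsto.congr' hcongr.symm (hg.const_mul 2)
  · -- second claim
    have hK := M3_log_tendsto
    have hsum : Tendsto (fun n : ℕ => ∑ k ∈ Finset.range (Nat.log 2 n), del μ n k) atTop (𝓝 T) := by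
      have h1 := tendsto_tsum_of_dominated_convergence (𝓕 := atTop)
        (f := fun (n k : ℕ) => if k < Nat.log 2 n then del μ n k else 0) (g := delInf μ) hbs ?_ ?_
      · refine h1.congr fun n => ?_
        rw [tsum_eq_sum (s := Finset.range (Nat.log 2 n))]
        · refine Finset.sum_congr rfl fun k hk => ?_
          rw [Finset.mem_range] at hk
          simp [hk]
        · intro k hk
          rw [Finset.mem_range] at hk
          simp [hk]
      · intro k
        refine (M3_del_tendsto μ hμ k).congr' ?_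
        filter_upwards [hK.eventually (eventually_gt_atTop k)] with n hn
        simp [hn]
      · have h0 : ∀ᶠ n in atTop, |del μ n 0| < |delInf μ 0| + 1 :=
          (M3_del_tendsto μ hμ 0).abs.eventually (gt_mem_nhds (by linarith))
        filter_upwards [h0, eventually_ge_atTop 1] with n hn hn1
        intro k
        rw [Real.norm_eq_abs]
        split_ifs with hkn
        · rcases Nat.eq_zero_or_pos k with h | h
          · subst h
            simp only [hbound, if_true]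
            have := hη0 0
            linarith
          · simp only [hbound, if_neg h.ne', add_zero]
            refine hd1 n k h ?_
            exact (Nat.pow_le_pow_right (by norm_num) hkn.le).trans
              (Nat.pow_log_le_self 2 (by omega))
        · rw [abs_zero]
          exact (norm_nonneg _).trans (hdIb k)
    have hlast : Tendsto (fun n : ℕ => delLast μ n (Nat.log 2 n)) atTop (𝓝 0) := by
      refine squeeze_zero_norm' ?_ (hηs.tendsto_atTop_zero.comp hK)
      filter_upwards [eventually_ge_atTop 2] with n hn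
      rw [Real.norm_eq_abs]
      have hk1 : 1 ≤ Nat.log 2 n := Nat.le_log_of_pow_le (by norm_num) (by simpa using hn)
      exact hd2 n _ hk1 (Nat.pow_log_le_self 2 (by omega)) (Nat.lt_pow_succ_log_self (by norm_num) n)
    have hatom : Tendsto (fun n : ℕ => μ.real {0} ^ (n + 1)) atTop (𝓝 0) :=
      (tendsto_pow_atTop_nhds_zero_of_lt_one measureReal_nonneg (M3_atom μ hμ)).comp
        (tendsto_add_atTop_nat 1)
    have hp1 := M3_point μ hμ hS 1 (by simp)
    have hm1 := M3_point μ hμ hS (-1) (by simp)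
    have hall := (((((tendsto_const_nhds (x := μ.real {0})).sub hatom).add hp1).add hm1).add
      ((hsum.add hlast).const_mul 2)).add rho_asymp
    have hlimeq : μ.real {0} - 0 + 0 + 0 + 2 * (T + 0) + gaussConst =
        μ.real {0} + gaussConst + 2 * T := by ring
    rw [hlimeq] at hall
    refine hall.congr fun n => ?_
    rw [nz_total μ hμ n, decompose μ hμ n (Nat.log 2 n)]
    ring


end M3
end Kac764
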