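import Pool.Agent.Helper764.KacDefs
import Pool.Agent.Helper764.KacA1
import Pool.Agent.Helper764.KacA2
import Pool.Agent.Helper764.KacK4
import Pool.Agent.Helper764.KacK6
import Pool.Agent.Helper764.KacM3

set_option autoImplicit false
open MeasureTheory ProbabilityTheory Filter Topology Set

namespace Kac764
namespace Fin

theorem windowEst (μ : Measure ℝ) (hμ : Std μ) : WindowEst μ :=
  K6.window μ hμ (K4.density_compare μ hμ) (A2.nearD μ hμ) (A2.logZ μ hμ) (A1.crude μ hμ)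
    (A2.sb1 μ hμ) (A2.mom μ hμ)

theorem main (μ : Measure ℝ) (hμ : Std μ) :
    ∃ L : ℝ,
      Tendsto (fun r : ℝ => 2 * ∫ ω, (Ninf ω {x : ℝ | 0 < |x| ∧ |x| < r} : ℝ) ∂(PP μ)
          - (2 / Real.pi) * Real.log ((1 + r) / (1 - r))) (𝓝[<] 1) (𝓝 L) ∧
      Tendsto (fun n : ℕ => ∫ ω, (nz (kac n ω) univ : ℝ) ∂(PP μ)
          - (2 / Real.pi) * Real.log n) atTop (𝓝 (μ.real {0} + gaussConst + L)) :=
  M3.main_of μ hμ (windowEst μ hμ) (A2.sb1 μ hμ)

end Fin
end Kac764
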