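import Mathlib

set_option autoImplicit false
set_option maxHeartbeats 4000000
open Finset

namespace Ram3

/-- greedy strong colouring with capacities -/
def St_color : Prop := ∀ (V : Type) [Fintype V] [DecidableEq V] (E : Finset (Finset V)),
    (∀ e ∈ E, e.card = 3) → (∀ v : V, ∃ e ∈ E, v ∈ e) → ∀ L : ℕ, 24 * E.card < L ^ 2 →
    ∃ c : V → Fin L, (∀ e ∈ E, ∀ u ∈ e, ∀ v ∈ e, u ≠ v → c u ≠ c v) ∧
      ∀ i : Fin L, (univ.filter (fun v => c v = i)).card * (i.1 + 1) ^ 2 ≤ 2 * L ^ 2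

/-- product of the (capacities + 2) -/
def St_prod : Prop := ∀ (L : ℕ) (n : Fin L → ℕ), (∀ i : Fin L, n i * (i.1 + 1) ^ 2 ≤ 2 * L ^ 2) →
    ∏ i : Fin L, (n i + 2) ≤ 2 ^ (5 * L)

/-- multicolour Ramsey for pairs -/
def St_pairs : Prop := ∀ (α : Type) [LinearOrder α] (q : ℕ) (g : α → α → Fin q) (l : ℕ) (P : Finset α),
    0 < q → (q + 1) ^ (q * l) ≤ P.card →
    ∃ Q ⊆ P, Q.card = l ∧ ∃ i : Fin q, ∀ a ∈ Q, ∀ b ∈ Q, a < b → g a b = i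

/-- Erdős–Rado step: colours of triples depend on the first two elements -/
def St_er : Prop := ∀ (α : Type) [LinearOrder α] (q : ℕ) (χ : Finset α → Fin q) (k t : ℕ) (S : Finset α),
    0 < q → 0 < t → (2 * q) ^ (k ^ 2) * t ≤ S.card →
    ∃ P ⊆ S, ∃ T ⊆ S, P.card = k ∧ t ≤ T.card ∧ (∀ p ∈ P, ∀ w ∈ T, p < w) ∧
      ∀ a ∈ P, ∀ b ∈ P, a < b → ∀ w ∈ P ∪ T, b < w → ∀ w' ∈ P ∪ T, b < w' →
        χ {a, b, w} = χ {a, b, w'}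

/-- multicolour Ramsey for triples -/
def St_triples : Prop := ∀ (α : Type) [LinearOrder α] (q : ℕ) (χ : Finset α → Fin q) (l : ℕ) (S : Finset α),
    0 < q → (2 * q) ^ (((q + 1) ^ (q * l)) ^ 2) ≤ S.card →
    ∃ Q ⊆ S, Q.card = l ∧ ∃ i : Fin q, ∀ e ⊆ Q, e.card = 3 → χ e = i

/-- supersaturation -/
def St_super : Prop := ∀ (N q l r : ℕ) (χ : Finset (Fin N) → Fin q), 1 ≤ r → l ≤ r → 2 * r ^ 2 ≤ N →
    (∀ S : Finset (Fin N), S.card = r → ∃ Q ⊆ S, Q.card = l ∧ ∃ i : Fin q, ∀ e ⊆ Q, e.card = 3 → χ e = i) →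
    ∃ i : Fin q, ∃ G : Finset (Fin l → Fin N), N ^ l ≤ (2 * q * r ^ l) * G.card ∧
      ∀ x ∈ G, Function.Injective x ∧ ∀ e ⊆ univ.image x, e.card = 3 → χ e = i

/-- one step of the box lemma -/
def St_boxstep : Prop := ∀ (N l n K : ℕ), 1 ≤ N → 1 ≤ K → 1 ≤ n → n ^ 2 * K ^ n ≤ N →
    ∀ G : Finset (Fin (l + 1) → Fin N), N ^ (l + 1) ≤ K * G.card →
    ∃ a : Fin n → Fin N, Function.Injective a ∧ ∃ G' : Finset (Fin l → Fin N),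
      N ^ l ≤ (2 * K ^ n) * G'.card ∧ ∀ w ∈ G', ∀ j : Fin n, (Fin.cons (a j) w : Fin (l + 1) → Fin N) ∈ G

/-- the box lemma (Erdős) with unequal sides -/
def St_box : Prop := ∀ (l K : ℕ) (n : Fin l → ℕ) (M N : ℕ), 2 ≤ K → (∀ i, n i + 1 ≤ M) →
    M ^ 2 * K ^ (∏ i, (n i + 2)) ≤ N → ∀ G : Finset (Fin l → Fin N), N ^ l ≤ K * G.card →
    ∃ x : (i : Fin l) → Fin (n i + 1) → Fin N, (∀ i, Function.Injective (x i)) ∧
      ∀ j : (i : Fin l) → Fin (n i + 1), (fun i => x i (j i)) ∈ G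

/-- embedding the hypergraph into the box -/
def St_embed : Prop := ∀ (V : Type) [Fintype V] [DecidableEq V] (E : Finset (Finset V)),
    (∀ e ∈ E, e.card = 3) → ∀ (L N q : ℕ) (c : V → Fin L),
    (∀ e ∈ E, ∀ u ∈ e, ∀ v ∈ e, u ≠ v → c u ≠ c v) →
    ∀ (χ : Finset (Fin N) → Fin q) (i₀ : Fin q)
      (x : (i : Fin L) → Fin ((univ.filter (fun v => c v = i)).card + 1) → Fin N),
    (∀ i, Function.Injective (x i)) →
    (∀ j : (i : Fin L) → Fin ((univ.filter (fun v => c v = i)).card + 1),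
      Function.Injective (fun i => x i (j i)) ∧
      ∀ e ⊆ univ.image (fun i => x i (j i)), e.card = 3 → χ e = i₀) →
    ∃ f : V ↪ Fin N, ∀ e ∈ E, χ (e.map f) = i₀

/-- numerics -/
def St_num : Prop := ∀ q : ℕ, 2 ≤ q → ∃ c : ℝ, ∀ m : ℕ, 1 ≤ m → ∃ L r N : ℕ,
    N = ⌊(2:ℝ) ^ ((2:ℝ) ^ (c * Real.sqrt (m : ℝ)))⌋₊ ∧
    24 * m < L ^ 2 ∧ 1 ≤ L ∧ r = (2 * q) ^ (((q + 1) ^ (q * L)) ^ 2) ∧ L ≤ r ∧
    2 * r ^ 2 ≤ N ∧ (3 * m + 1) ^ 2 * (2 * q * r ^ L) ^ (2 ^ (5 * L)) ≤ N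


end Ram3
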