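import Pool.Agent.Helper764.RamDefs

set_option autoImplicit false
set_option maxHeartbeats 4000000
open Finset

namespace Ram3
namespace M_boxstep






theorem bs_desc (N n : ℕ) : 2 * N ^ (n + 1) ≤ 2 * N * N.descFactorial n + n ^ 2 * N ^ n := by
  induction n with
  | zero => simp
  | succ n ih =>
    have h1 : N * N.descFactorial n ≤ N.descFactorial (n + 1) + n * N.descFactorial n := by
      rw [Nat.descFactorial_succ]
      have : N ≤ (N - n) + n := by omega
      calc N * N.descFactorial n ≤ ((N - n) + n) * N.descFactorial n :=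
            Nat.mul_le_mul_right _ this
        _ = _ := by ring
    have h2 : N.descFactorial n ≤ N ^ n := Nat.descFactorial_le_pow N n
    calc 2 * N ^ (n + 1 + 1) = N * (2 * N ^ (n + 1)) := by ring
      _ ≤ N * (2 * N * N.descFactorial n + n ^ 2 * N ^ n) := Nat.mul_le_mul_left _ ih
      _ = 2 * N * (N * N.descFactorial n) + n ^ 2 * N ^ (n + 1) := by ring
      _ ≤ 2 * N * (N.descFactorial (n + 1) + n * N.descFactorial n) + n ^ 2 * N ^ (n + 1) := by
          gcongr
      _ ≤ 2 * N * (N.descFactorial (n + 1) + n * N ^ n) + n ^ 2 * N ^ (n + 1) := by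
          gcongr
      _ = 2 * N * N.descFactorial (n + 1) + (n ^ 2 + 2 * n) * N ^ (n + 1) := by ring
      _ ≤ 2 * N * N.descFactorial (n + 1) + (n + 1) ^ 2 * N ^ (n + 1) := by
          gcongr
          nlinarith

theorem bs_card_inj (N n : ℕ) :
    ((univ : Finset (Fin n → Fin N)).filter Function.Injective).card = N.descFactorial n := by
  classical
  have h := Fintype.card_embedding_eq (α := Fin n) (β := Fin N)
  rw [Fintype.card_fin, Fintype.card_fin] at h
  rw [← h, ← Fintype.card_subtype]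
  exact Fintype.card_congr (Equiv.subtypeInjectiveEquivEmbedding (Fin n) (Fin N))

theorem bs_sum_fiber {l N : ℕ} (G : Finset (Fin (l + 1) → Fin N)) :
    ∑ w : Fin l → Fin N,
      (univ.filter (fun x : Fin N => (Fin.cons x w : Fin (l + 1) → Fin N) ∈ G)).card = G.card := by
  classical
  rw [Finset.card_eq_sum_card_fiberwise (f := fun x : Fin (l + 1) → Fin N => Fin.tail x)
    (t := univ) (fun x _ => by simp)]
  apply Finset.sum_congr rfl
  intro w _
  symm
  apply Finset.card_nbij' (fun x => x 0) (fun x => (Fin.cons x w : Fin (l + 1) → Fin N))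
  · intro x hx
    rw [Finset.mem_coe, Finset.mem_filter] at hx ⊢
    obtain ⟨h1, h2⟩ := hx
    refine ⟨Finset.mem_univ _, ?_⟩
    rw [← h2, Fin.cons_self_tail]
    exact h1
  · intro x hx
    rw [Finset.mem_coe, Finset.mem_filter] at hx ⊢
    refine ⟨hx.2, ?_⟩
    show Fin.tail (Fin.cons x w : Fin (l + 1) → Fin N) = w
    exact Fin.tail_cons _ _
  · intro x hx
    rw [Finset.mem_coe, Finset.mem_filter] at hx
    obtain ⟨h1, h2⟩ := hx
    show Fin.cons (x 0) w = x
    rw [← h2, Fin.cons_self_tail]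
  · intro x _
    rfl

theorem bs_double {l N : ℕ} (n : ℕ) (G : Finset (Fin (l + 1) → Fin N)) :
    ∑ a : Fin n → Fin N, (univ.filter (fun w : Fin l → Fin N =>
        ∀ j, (Fin.cons (a j) w : Fin (l + 1) → Fin N) ∈ G)).card =
      ∑ w : Fin l → Fin N,
        (univ.filter (fun x : Fin N => (Fin.cons x w : Fin (l + 1) → Fin N) ∈ G)).card ^ n := by
  classical
  simp_rw [Finset.card_filter]
  rw [Finset.sum_comm]
  apply Finset.sum_congr rfl
  intro w _
  rw [← Finset.card_filter, ← Finset.card_filter]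
  have : univ.filter (fun a : Fin n → Fin N =>
      ∀ j, (Fin.cons (a j) w : Fin (l + 1) → Fin N) ∈ G) =
      Fintype.piFinset (fun _ : Fin n =>
        univ.filter (fun x : Fin N => (Fin.cons x w : Fin (l + 1) → Fin N) ∈ G)) := by
    ext a
    simp [Fintype.mem_piFinset]
  rw [this, Fintype.card_piFinset_const]

theorem bs_power {ι : Type} [Fintype ι] (f : ι → ℕ) (k : ℕ) :
    (∑ i, f i) ^ (k + 1) ≤ (Fintype.card ι) ^ k * ∑ i, f i ^ (k + 1) := by
  by_cases hι : Fintype.card ι = 0
  · have : IsEmpty ι := Fintype.card_eq_zero_iff.mp hι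
    simp
  have h := pow_sum_div_card_le_sum_pow (s := (univ : Finset ι)) (f := fun i => (f i : ℝ))
    (fun i _ => Nat.cast_nonneg _) k
  rw [Finset.card_univ, div_le_iff₀ (by positivity)] at h
  have h2 : (((∑ i, f i) ^ (k + 1) : ℕ) : ℝ) ≤
      (((Fintype.card ι) ^ k * ∑ i, f i ^ (k + 1) : ℕ) : ℝ) := by
    push_cast
    rw [mul_comm]
    exact h
  exact_mod_cast h2

theorem J_boxstep : St_boxstep := by
  classical
  intro N l n K hN hK hn hnK G hG
  obtain ⟨k, rfl⟩ : ∃ k, n = k + 1 := ⟨n - 1, by omega⟩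
  set W : (Fin (k + 1) → Fin N) → Finset (Fin l → Fin N) := fun a =>
    univ.filter (fun w : Fin l → Fin N => ∀ j, (Fin.cons (a j) w : Fin (l + 1) → Fin N) ∈ G)
    with hW
  have hT : (∑ w : Fin l → Fin N,
      (univ.filter (fun x : Fin N => (Fin.cons x w : Fin (l + 1) → Fin N) ∈ G)).card) ^ (k + 1) ≤
      (N ^ l) ^ k * ∑ a, (W a).card := by
    have h := bs_power (fun w : Fin l → Fin N =>
      (univ.filter (fun x : Fin N => (Fin.cons x w : Fin (l + 1) → Fin N) ∈ G)).card) k
    rw [← bs_double, Fintype.card_fun, Fintype.card_fin, Fintype.card_fin] at h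
    exact h
  rw [bs_sum_fiber] at hT
  have hT2 : N ^ (k + 1 + l) ≤ K ^ (k + 1) * ∑ a, (W a).card := by
    have hpos : 0 < (N ^ l) ^ k := by positivity
    apply Nat.le_of_mul_le_mul_left _ hpos
    calc (N ^ l) ^ k * N ^ (k + 1 + l) = (N ^ (l + 1)) ^ (k + 1) := by
          rw [← pow_mul, ← pow_mul, ← pow_add]
          congr 1
          ring
      _ ≤ (K * G.card) ^ (k + 1) := Nat.pow_le_pow_left hG _
      _ = K ^ (k + 1) * G.card ^ (k + 1) := by rw [mul_pow]
      _ ≤ K ^ (k + 1) * ((N ^ l) ^ k * ∑ a, (W a).card) := Nat.mul_le_mul_left _ hT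
      _ = (N ^ l) ^ k * (K ^ (k + 1) * ∑ a, (W a).card) := by ring
  -- split
  have hsplit : ∑ a, (W a).card =
      ∑ a ∈ univ.filter Function.Injective, (W a).card +
      ∑ a ∈ univ.filter (fun a : Fin (k + 1) → Fin N => ¬ Function.Injective a), (W a).card :=
    (Finset.sum_filter_add_sum_filter_not _ _ _).symm
  have hWle : ∀ a, (W a).card ≤ N ^ l := by
    intro a
    calc (W a).card ≤ (univ : Finset (Fin l → Fin N)).card := Finset.card_le_card (Finset.subset_univ _)
      _ = N ^ l := by rw [Finset.card_univ, Fintype.card_fun, Fintype.card_fin, Fintype.card_fin]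
  have hcard : (univ.filter (Function.Injective : (Fin (k + 1) → Fin N) → Prop)).card +
      (univ.filter (fun a : Fin (k + 1) → Fin N => ¬ Function.Injective a)).card =
      N ^ (k + 1) := by
    rw [Finset.card_filter_add_card_filter_not, Finset.card_univ, Fintype.card_fun,
      Fintype.card_fin, Fintype.card_fin]
  have hinj := bs_card_inj N (k + 1)
  have hdesc := bs_desc N (k + 1)
  set I := univ.filter (Function.Injective : (Fin (k + 1) → Fin N) → Prop) with hI
  set J := univ.filter (fun a : Fin (k + 1) → Fin N => ¬ Function.Injective a) with hJ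
  have hJle : 2 * (N * J.card) ≤ (k + 1) ^ 2 * N ^ (k + 1) := by
    rw [← hinj] at hdesc
    have : 2 * N ^ (k + 1 + 1) = 2 * N * I.card + 2 * (N * J.card) := by
      rw [pow_succ, ← hcard]
      ring
    omega
  have hsumJ : ∑ a ∈ J, (W a).card ≤ J.card * N ^ l := by
    rw [← smul_eq_mul]
    exact Finset.sum_le_card_nsmul _ _ _ (fun a _ => hWle a)
  have hJ2 : 2 * K ^ (k + 1) * ∑ a ∈ J, (W a).card ≤ N ^ (k + 1 + l) := by
    apply Nat.le_of_mul_le_mul_left _ (show 0 < N by omega)
    calc N * (2 * K ^ (k + 1) * ∑ a ∈ J, (W a).card)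
        ≤ N * (2 * K ^ (k + 1) * (J.card * N ^ l)) := by gcongr
      _ = K ^ (k + 1) * N ^ l * (2 * (N * J.card)) := by ring
      _ ≤ K ^ (k + 1) * N ^ l * ((k + 1) ^ 2 * N ^ (k + 1)) := by gcongr
      _ = ((k + 1) ^ 2 * K ^ (k + 1)) * N ^ (k + 1 + l) := by ring
      _ ≤ N * N ^ (k + 1 + l) := by gcongr
  have hI2 : N ^ (k + 1 + l) ≤ 2 * K ^ (k + 1) * ∑ a ∈ I, (W a).card := by
    rw [hsplit] at hT2
    nlinarith
  by_contra hcon
  push Not at hcon
  have hlt : ∀ a ∈ I, 2 * K ^ (k + 1) * (W a).card + 1 ≤ N ^ l := by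
    intro a ha
    have hainj : Function.Injective a := (Finset.mem_filter.mp ha).2
    by_contra hge
    obtain ⟨w, hw, j, hj⟩ := hcon a hainj (W a) (by omega)
    exact hj ((Finset.mem_filter.mp hw).2 j)
  have hsum : ∑ a ∈ I, (2 * K ^ (k + 1) * (W a).card + 1) ≤ I.card * N ^ l := by
    rw [← smul_eq_mul (a := I.card)]
    exact Finset.sum_le_card_nsmul _ _ _ hlt
  rw [Finset.sum_add_distrib, ← Finset.mul_sum, Finset.sum_const, smul_eq_mul, mul_one] at hsum
  have hIle : I.card ≤ N ^ (k + 1) := by omega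
  have hfin : I.card * N ^ l ≤ N ^ (k + 1 + l) := by
    rw [pow_add N (k + 1) l]
    exact Nat.mul_le_mul_right _ hIle
  have hpos : 0 < N ^ (k + 1 + l) := by positivity
  have hI0 : I.card = 0 := by omega
  rw [hI0] at hsum
  omega



end M_boxstep
end Ram3
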