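import Pool.Agent.Helper764.RamDefs
import Pool.Agent.Helper764.Ram_boxstep

set_option autoImplicit false
set_option maxHeartbeats 4000000
open Finset

namespace Ram3
namespace M_box

theorem given_boxstep : St_boxstep := M_boxstep.J_boxstep





theorem J_box : St_box := by
  intro l
  induction l with
  | zero =>
    intro K n M N hK hM hN G hG
    refine ⟨fun i => i.elim0, fun i => i.elim0, ?_⟩
    intro j
    have hne : G.Nonempty := by
      rw [← Finset.card_pos]
      rw [pow_zero] at hG
      by_contra hcon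
      have h0 : G.card = 0 := by omega
      rw [h0, mul_zero] at hG
      omega
    obtain ⟨g, hg⟩ := hne
    convert hg
  | succ l ih =>
    intro K n M N hK hM hN G hG
    have hM1 : 1 ≤ M := by have := hM 0; omega
    have hprod : ∏ i, (n i + 2) = (n 0 + 2) * ∏ i : Fin l, (n i.succ + 2) :=
      Fin.prod_univ_succ _
    have hP1 : 0 < ∏ i : Fin l, (n i.succ + 2) := Finset.prod_pos (fun i _ => by omega)
    have hn : n 0 + 2 ≤ ∏ i, (n i + 2) := by
      rw [hprod]; exact Nat.le_mul_of_pos_right _ hP1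
    have hKpow : K ^ (n 0 + 1) ≤ K ^ (∏ i, (n i + 2)) :=
      Nat.pow_le_pow_right (by omega) (by omega)
    have h1 : (n 0 + 1) ^ 2 * K ^ (n 0 + 1) ≤ N :=
      le_trans (Nat.mul_le_mul (Nat.pow_le_pow_left (hM 0) 2) hKpow) hN
    have hK0 : 0 < K := by omega
    have hN1 : 1 ≤ N := by
      have : 0 < (n 0 + 1) ^ 2 * K ^ (n 0 + 1) := by positivity
      omega
    obtain ⟨a, ha, G', hG', hmem⟩ :=
      given_boxstep N l (n 0 + 1) K hN1 (by omega) (by omega) h1 G hG
    have h2 : N ^ l ≤ K ^ (n 0 + 2) * G'.card := by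
      refine le_trans hG' (Nat.mul_le_mul_right _ ?_)
      rw [pow_succ' K (n 0 + 1)]
      exact Nat.mul_le_mul_right _ hK
    have hK2 : 2 ≤ K ^ (n 0 + 2) := le_trans hK (Nat.le_self_pow (by omega) K)
    have h3 : M ^ 2 * (K ^ (n 0 + 2)) ^ (∏ i : Fin l, (n i.succ + 2)) ≤ N := by
      rw [← pow_mul, ← hprod]; exact hN
    obtain ⟨x', hx', hx'G⟩ :=
      ih (K ^ (n 0 + 2)) (fun i => n i.succ) M N hK2 (fun i => hM i.succ) h3 G' h2
    refine ⟨Fin.cons (α := fun i => Fin (n i + 1) → Fin N) a x', ?_, ?_⟩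
    · intro i
      refine Fin.cases ?_ ?_ i
      · rw [Fin.cons_zero]; exact ha
      · intro k; rw [Fin.cons_succ]; exact hx' k
    · intro j
      have h4 : (fun i => (Fin.cons (α := fun i => Fin (n i + 1) → Fin N) a x' :
          (i : Fin (l + 1)) → Fin (n i + 1) → Fin N) i (j i)) =
          (Fin.cons (a (j 0)) (fun i => x' i (j i.succ)) : Fin (l + 1) → Fin N) := by
        funext i
        refine Fin.cases ?_ ?_ i
        · simp
        · intro k; simp
      rw [h4]
      exact hmem _ (hx'G (fun i => j i.succ)) (j 0)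


end M_box
end Ram3
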