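import Pool.Agent.Helper764.RamDefs

set_option autoImplicit false
set_option maxHeartbeats 4000000
open Finset

namespace Ram3
namespace M_embed






theorem J_embed : St_embed := by
  intro V _ _ E hE L N q c hc χ i₀ x hx hj
  classical
  have hmem : ∀ v, v ∈ univ.filter (fun w => c w = c v) := fun v => by simp
  let idx : V → ℕ := fun v => ((univ.filter (fun w => c w = c v)).equivFin ⟨v, hmem v⟩ : ℕ)
  have hidx : ∀ v, idx v < (univ.filter (fun w => c w = c v)).card + 1 := fun v => by
    have h := ((univ.filter (fun w => c w = c v)).equivFin ⟨v, hmem v⟩).2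
    exact Nat.lt_succ_of_lt h
  have hidx2 : ∀ (u : V) (i : Fin L) (h : c u = i),
      idx u = ((univ.filter (fun w => c w = i)).equivFin ⟨u, by simp [h]⟩ : ℕ) := by
    rintro u _ rfl
    rfl
  have hinj : ∀ u v, c u = c v → idx u = idx v → u = v := by
    intro u v h1 h2
    rw [hidx2 u (c v) h1, hidx2 v (c v) rfl] at h2
    have h3 := (univ.filter (fun w => c w = c v)).equivFin.injective (Fin.ext h2)
    exact congrArg Subtype.val h3
  let f : V → Fin N := fun v => x (c v) ⟨idx v, hidx v⟩
  have key : ∀ A : Finset V, (∀ u ∈ A, ∀ v ∈ A, u ≠ v → c u ≠ c v) →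
      ∃ j : (i : Fin L) → Fin ((univ.filter (fun v => c v = i)).card + 1),
        ∀ v ∈ A, x (c v) (j (c v)) = f v := by
    intro A hA
    have hb : ∀ (i : Fin L) (h : ∃ v, v ∈ A ∧ c v = i),
        idx h.choose < (univ.filter (fun v => c v = i)).card + 1 := by
      intro i h
      have h1 := hidx h.choose
      have h2 := h.choose_spec.2
      rw [h2] at h1
      exact h1
    refine ⟨fun i => if h : ∃ v, v ∈ A ∧ c v = i then ⟨idx h.choose, hb i h⟩ else 0, ?_⟩
    intro v hv
    have h : ∃ w, w ∈ A ∧ c w = c v := ⟨v, hv, rfl⟩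
    have hch : h.choose = v := by
      by_contra hne
      exact hA _ h.choose_spec.1 v hv hne h.choose_spec.2
    show x (c v) (if h : ∃ w, w ∈ A ∧ c w = c v then ⟨idx h.choose, hb (c v) h⟩ else 0)
      = x (c v) ⟨idx v, hidx v⟩
    rw [dif_pos h]
    congr 1
    apply Fin.ext
    show idx h.choose = idx v
    rw [hch]
  have finj : Function.Injective f := by
    intro u v huv
    by_contra hne
    by_cases hcc : c u = c v
    · have : ∀ (i : Fin L) (h : c u = i) (hlt : idx u < (univ.filter (fun w => c w = i)).card + 1),
          f u = x i ⟨idx u, hlt⟩ := by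
        rintro _ rfl _
        rfl
      have hlt : idx u < (univ.filter (fun w => c w = c v)).card + 1 := by
        have h1 := hidx u
        rw [hcc] at h1
        exact h1
      rw [this (c v) hcc hlt] at huv
      have h4 := hx (c v) huv
      have h5 : idx u = idx v := congrArg Fin.val h4
      exact hne (hinj u v hcc h5)
    · obtain ⟨j, hjA⟩ := key {u, v} (by
        intro a ha b hb hab
        simp only [Finset.mem_insert, Finset.mem_singleton] at ha hb
        rcases ha with rfl | rfl <;> rcases hb with rfl | rfl
        · exact absurd rfl hab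
        · exact hcc
        · exact fun h => hcc h.symm
        · exact absurd rfl hab)
      have h1 := hjA u (by simp)
      have h2 := hjA v (by simp)
      have h3 : (fun i => x i (j i)) (c u) = (fun i => x i (j i)) (c v) := by
        show x (c u) (j (c u)) = x (c v) (j (c v))
        rw [h1, h2, huv]
      exact hcc ((hj j).1 h3)
  refine ⟨⟨f, finj⟩, ?_⟩
  intro e he
  obtain ⟨j, hjA⟩ := key e (hc e he)
  apply (hj j).2
  · intro y hy
    rw [Finset.mem_map] at hy
    obtain ⟨v, hv, rfl⟩ := hy
    rw [Finset.mem_image]
    exact ⟨c v, Finset.mem_univ _, hjA v hv⟩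
  · rw [Finset.card_map]
    exact hE e he


end M_embed
end Ram3
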