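import Pool.Agent.Helper764.RamDefs

set_option autoImplicit false
set_option maxHeartbeats 4000000
open Finset

namespace Ram3
namespace M_er






theorem J_er : St_er := by
  classical
  intro α _ q χ k
  induction k with
  | zero =>
    intro t S hq ht hS
    refine ⟨∅, Finset.empty_subset _, S, Finset.Subset.refl _, Finset.card_empty, ?_, ?_, ?_⟩
    · simpa using hS
    · intro p hp
      exact absurd hp (Finset.notMem_empty p)
    · intro a ha
      exact absurd ha (Finset.notMem_empty a)
  | succ k ih =>
    intro t S hq ht hS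
    have hb : (2 * q) ^ (k ^ 2) * (q ^ k * t + 1) ≤ S.card := by
      refine le_trans ?_ hS
      have e1 : (2 * q) ^ ((k + 1) ^ 2) = (2 * q) ^ (k ^ 2) * (2 * q) ^ (2 * k + 1) := by
        rw [← pow_add]
        congr 1
        ring
      rw [e1, mul_assoc]
      refine Nat.mul_le_mul_left _ ?_
      have h1 : q ^ k ≤ (2 * q) ^ k := Nat.pow_le_pow_left (by omega) k
      have h2 : 1 ≤ (2 * q) ^ k := Nat.one_le_pow _ _ (by omega)
      have h3 : 2 ≤ (2 * q) ^ k * (2 * q) := by nlinarith
      have h4 : q ^ k * 2 ≤ (2 * q) ^ (2 * k + 1) := by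
        have h5 : (2 * q) ^ (2 * k + 1) = (2 * q) ^ k * ((2 * q) ^ k * (2 * q)) := by
          rw [two_mul k, pow_succ, pow_add]
          ring
        rw [h5]
        exact Nat.mul_le_mul h1 h3
      have h6 : 1 ≤ q ^ k := Nat.one_le_pow _ _ hq
      have h7 : 1 ≤ q ^ k * t := Nat.mul_pos h6 ht
      calc q ^ k * t + 1 ≤ q ^ k * t + q ^ k * t := by omega
        _ = (q ^ k * 2) * t := by ring
        _ ≤ (2 * q) ^ (2 * k + 1) * t := Nat.mul_le_mul_right _ h4
    obtain ⟨P, hP, T', hT', hPc, hTc, hlt, hχ⟩ := ih (q ^ k * t + 1) S hq (Nat.succ_pos _) hb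
    have hne : T'.Nonempty := Finset.card_pos.1 (by omega)
    obtain ⟨v, hv, hvmin⟩ : ∃ v ∈ T', ∀ w ∈ T', v ≤ w :=
      ⟨T'.min' hne, T'.min'_mem hne, fun w hw => T'.min'_le w hw⟩
    have hPv : ∀ p ∈ P, p < v := fun p hp => hlt p hp v hv
    have hvP : v ∉ P := fun h => lt_irrefl _ (hPv v h)
    have hcard : (Finset.univ : Finset (P → Fin q)).card * t ≤ (T'.erase v).card := by
      rw [Finset.card_univ, Fintype.card_fun, Fintype.card_fin, Fintype.card_coe, hPc,
        Finset.card_erase_of_mem hv]
      omega
    have hne2 : (Finset.univ : Finset (P → Fin q)).Nonempty :=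
      ⟨fun _ => ⟨0, hq⟩, Finset.mem_univ _⟩
    obtain ⟨y, -, hy⟩ := Finset.exists_le_card_fiber_of_mul_le_card_of_maps_to
      (f := fun (w : α) => (fun (a : P) => χ {(a : α), v, w}))
      (fun w _ => Finset.mem_univ _) hne2 hcard
    have hT : ∀ w, w ∈ (T'.erase v).filter
        (fun w => (fun (a : P) => χ {(a : α), v, w}) = y) →
        w ∈ T' ∧ v < w ∧ ∀ a (ha : a ∈ P), χ {a, v, w} = y ⟨a, ha⟩ := by
      intro w hw
      rw [Finset.mem_filter, Finset.mem_erase] at hw
      refine ⟨hw.1.2, lt_of_le_of_ne (hvmin w hw.1.2) (Ne.symm hw.1.1), ?_⟩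
      intro a ha
      exact congrFun hw.2 ⟨a, ha⟩
    refine ⟨insert v P, ?_, (T'.erase v).filter
        (fun w => (fun (a : P) => χ {(a : α), v, w}) = y), ?_, ?_, hy, ?_, ?_⟩
    · intro p hp
      rcases Finset.mem_insert.1 hp with h | h
      · rw [h]
        exact hT' hv
      · exact hP h
    · intro w hw
      exact hT' (hT w hw).1
    · rw [Finset.card_insert_of_notMem hvP, hPc]
    · intro p hp w hw
      rcases Finset.mem_insert.1 hp with h | h
      · rw [h]
        exact (hT w hw).2.1
      · exact hlt p h w (hT w hw).1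
    · intro a ha b hb hab w hw hbw w' hw' hbw'
      have hsub : ∀ w ∈ insert v P ∪ (T'.erase v).filter
          (fun w => (fun (a : P) => χ {(a : α), v, w}) = y), w ∈ P ∪ T' := by
        intro w hw
        rcases Finset.mem_union.1 hw with h | h
        · rcases Finset.mem_insert.1 h with h | h
          · rw [h]
            exact Finset.mem_union_right _ hv
          · exact Finset.mem_union_left _ h
        · exact Finset.mem_union_right _ (hT w h).1
      rcases Finset.mem_insert.1 hb with h | h
      · subst h
        have haP : a ∈ P := by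
          rcases Finset.mem_insert.1 ha with h | h
          · exact absurd hab (by rw [h]; exact lt_irrefl _)
          · exact h
        have key : ∀ w ∈ insert b P ∪ (T'.erase b).filter
            (fun w => (fun (a : P) => χ {(a : α), b, w}) = y), b < w →
            χ {a, b, w} = y ⟨a, haP⟩ := by
          intro w hw hbw
          rcases Finset.mem_union.1 hw with h | h
          · rcases Finset.mem_insert.1 h with h | h
            · exact absurd hbw (by rw [h]; exact lt_irrefl _)
            · exact absurd (hPv w h) (not_lt.2 hbw.le)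
          · exact (hT w h).2.2 a haP
        rw [key w hw hbw, key w' hw' hbw']
      · have haP : a ∈ P := by
          rcases Finset.mem_insert.1 ha with h' | h'
          · exact absurd hab (by rw [h']; exact not_lt.2 (hPv b h).le)
          · exact h'
        exact hχ a haP b h hab w (hsub w hw) hbw w' (hsub w' hw') hbw'


end M_er
end Ram3
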