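import Pool.Agent.Helper764.RamDefs

set_option autoImplicit false
set_option maxHeartbeats 4000000
open Finset

namespace Ram3
namespace M_num





theorem num_floor (c' L : ℕ) (x : ℝ) (hx : (L : ℝ) ≤ 6 * x) (A : ℕ)
    (hA : A ≤ 2 ^ (2 ^ (c' * L))) :
    A ≤ ⌊(2:ℝ) ^ ((2:ℝ) ^ ((6 * (c' : ℝ)) * x))⌋₊ := by
  apply Nat.le_floor
  have h1 : (A : ℝ) ≤ ((2 ^ (2 ^ (c' * L)) : ℕ) : ℝ) := by exact_mod_cast hA
  refine h1.trans ?_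
  have h2 : ((2 ^ (2 ^ (c' * L)) : ℕ) : ℝ) = (2:ℝ) ^ ((2:ℝ) ^ ((c' * L : ℕ) : ℝ)) := by
    rw [Real.rpow_natCast]
    have h3 : ((2:ℝ) ^ (c' * L)) = ((2 ^ (c' * L) : ℕ) : ℝ) := by push_cast; rfl
    rw [h3, Real.rpow_natCast]
    push_cast
    rfl
  rw [h2]
  apply Real.rpow_le_rpow_of_exponent_le one_le_two
  apply Real.rpow_le_rpow_of_exponent_le one_le_two
  push_cast
  have : (0:ℝ) ≤ c' := Nat.cast_nonneg _
  nlinarith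

theorem num_main (q L m k r : ℕ) (hq : 2 ≤ q) (hL : 1 ≤ L) (hm : 1 ≤ m) (hmL : 24 * m < L ^ 2)
    (hk : k = (q + 1) ^ (q * L)) (hr : r = (2 * q) ^ (k ^ 2)) :
    L ≤ r ∧ 2 * r ^ 2 ≤ 2 ^ (2 ^ ((2 * q ^ 2 + q + 9) * L)) ∧
      (3 * m + 1) ^ 2 * (2 * q * r ^ L) ^ (2 ^ (5 * L)) ≤ 2 ^ (2 ^ ((2 * q ^ 2 + q + 9) * L)) := by
  have hk1 : 1 ≤ k := by rw [hk]; exact Nat.one_le_pow _ _ (by omega)
  have hkL : L < k := by
    calc L < 2 ^ L := Nat.lt_two_pow_self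
      _ ≤ (q + 1) ^ L := Nat.pow_le_pow_left (by omega) L
      _ ≤ (q + 1) ^ (q * L) := Nat.pow_le_pow_right (by omega) (by nlinarith)
      _ = k := hk.symm
  have hk2 : k ≤ k ^ 2 := by nlinarith
  have hLr : L ≤ r := by
    calc L ≤ k ^ 2 := by omega
      _ ≤ 2 ^ (k ^ 2) := Nat.lt_two_pow_self.le
      _ ≤ (2 * q) ^ (k ^ 2) := Nat.pow_le_pow_left (by omega) _
      _ = r := hr.symm
  have h2q : 2 * q ≤ 2 ^ q := by
    obtain ⟨p, rfl⟩ : ∃ p, q = p + 1 := ⟨q - 1, by omega⟩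
    have := (Nat.lt_two_pow_self : p < 2 ^ p)
    rw [pow_succ]
    omega
  have hq1 : q + 1 ≤ 2 ^ q := Nat.lt_two_pow_self
  have hkk : k ^ 2 ≤ 2 ^ (2 * q ^ 2 * L) := by
    calc k ^ 2 = ((q + 1) ^ (q * L)) ^ 2 := by rw [hk]
      _ ≤ ((2 ^ q) ^ (q * L)) ^ 2 := Nat.pow_le_pow_left (Nat.pow_le_pow_left hq1 _) 2
      _ = 2 ^ (2 * q ^ 2 * L) := by rw [← pow_mul, ← pow_mul]; congr 1; ring
  have hrr : r ≤ 2 ^ (q * k ^ 2) := by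
    calc r = (2 * q) ^ (k ^ 2) := hr
      _ ≤ (2 ^ q) ^ (k ^ 2) := Nat.pow_le_pow_left h2q _
      _ = 2 ^ (q * k ^ 2) := by rw [← pow_mul]
  have hX0 : 2 * q * r ^ L ≤ 2 ^ (2 * q * L * k ^ 2) := by
    calc 2 * q * r ^ L ≤ 2 ^ q * (2 ^ (q * k ^ 2)) ^ L :=
          Nat.mul_le_mul h2q (Nat.pow_le_pow_left hrr L)
      _ = 2 ^ (q + q * k ^ 2 * L) := by rw [← pow_mul, ← pow_add]
      _ ≤ 2 ^ (2 * q * L * k ^ 2) := by
          apply Nat.pow_le_pow_right (by norm_num)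
          have h1 : 1 ≤ k ^ 2 * L := Nat.mul_pos (by omega) (by omega)
          have h2 : q * 1 ≤ q * (k ^ 2 * L) := Nat.mul_le_mul_left q h1
          have h3 : q * k ^ 2 * L = q * (k ^ 2 * L) := by ring
          have h4 : 2 * q * L * k ^ 2 = 2 * (q * (k ^ 2 * L)) := by ring
          rw [h3, h4]
          omega
  have hX : (2 * q * r ^ L) ^ (2 ^ (5 * L)) ≤ 2 ^ (2 * q * L * k ^ 2 * 2 ^ (5 * L)) := by
    calc (2 * q * r ^ L) ^ (2 ^ (5 * L)) ≤ (2 ^ (2 * q * L * k ^ 2)) ^ (2 ^ (5 * L)) :=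
          Nat.pow_le_pow_left hX0 _
      _ = _ := by rw [← pow_mul]
  have hm1 : (3 * m + 1) ^ 2 ≤ 2 ^ (4 * L) := by
    have h1 : 3 * m + 1 ≤ L ^ 2 := by omega
    have h2 : L ^ 2 ≤ (2 ^ L) ^ 2 := Nat.pow_le_pow_left Nat.lt_two_pow_self.le 2
    calc (3 * m + 1) ^ 2 ≤ ((2 ^ L) ^ 2) ^ 2 := Nat.pow_le_pow_left (h1.trans h2) 2
      _ = 2 ^ (4 * L) := by rw [← pow_mul, ← pow_mul]; congr 1; ring
  have hexp : 4 * L + 2 * q * L * k ^ 2 * 2 ^ (5 * L) ≤ 2 ^ ((2 * q ^ 2 + q + 9) * L) := by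
    have hp : 1 ≤ k ^ 2 * 2 ^ (5 * L) := Nat.mul_pos (by omega) (by positivity)
    have h1 : 4 * L + 2 * q * L * k ^ 2 * 2 ^ (5 * L) ≤ 8 * (q * L * (k ^ 2 * 2 ^ (5 * L))) := by
      have h2 : L * 1 ≤ L * (k ^ 2 * 2 ^ (5 * L)) := Nat.mul_le_mul_left L hp
      have h3 : 1 * (L * (k ^ 2 * 2 ^ (5 * L))) ≤ q * (L * (k ^ 2 * 2 ^ (5 * L))) :=
        Nat.mul_le_mul_right _ (by omega)
      have h4 : 2 * q * L * k ^ 2 * 2 ^ (5 * L) = 2 * (q * (L * (k ^ 2 * 2 ^ (5 * L)))) := by ring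
      have h5 : q * L * (k ^ 2 * 2 ^ (5 * L)) = q * (L * (k ^ 2 * 2 ^ (5 * L))) := by ring
      rw [h4, h5]
      omega
    refine h1.trans ?_
    calc 8 * (q * L * (k ^ 2 * 2 ^ (5 * L)))
        ≤ 2 ^ 3 * (2 ^ q * 2 ^ L * (2 ^ (2 * q ^ 2 * L) * 2 ^ (5 * L))) := by
          apply Nat.mul_le_mul (by norm_num)
          apply Nat.mul_le_mul
          · exact Nat.mul_le_mul Nat.lt_two_pow_self.le Nat.lt_two_pow_self.le
          · exact Nat.mul_le_mul hkk le_rfl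
      _ = 2 ^ (3 + (q + L + (2 * q ^ 2 * L + 5 * L))) := by
          rw [pow_add, pow_add, pow_add, pow_add]
      _ ≤ 2 ^ ((2 * q ^ 2 + q + 9) * L) := by
          apply Nat.pow_le_pow_right (by norm_num)
          nlinarith
  refine ⟨hLr, ?_, ?_⟩
  · calc 2 * r ^ 2 ≤ 2 ^ 1 * (2 ^ (q * k ^ 2)) ^ 2 :=
          Nat.mul_le_mul (by norm_num) (Nat.pow_le_pow_left hrr 2)
      _ = 2 ^ (1 + q * k ^ 2 * 2) := by rw [← pow_mul, ← pow_add]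
      _ ≤ 2 ^ (2 ^ ((2 * q ^ 2 + q + 9) * L)) := by
          apply Nat.pow_le_pow_right (by norm_num)
          refine le_trans ?_ hexp
          have h1 : 1 ≤ L * 2 ^ (5 * L) := Nat.mul_pos (by omega) (by positivity)
          have h2 : 2 * q * k ^ 2 * 1 ≤ 2 * q * k ^ 2 * (L * 2 ^ (5 * L)) :=
            Nat.mul_le_mul_left _ h1
          have h3 : 2 * q * L * k ^ 2 * 2 ^ (5 * L) = 2 * q * k ^ 2 * (L * 2 ^ (5 * L)) := by ring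
          have h4 : q * k ^ 2 * 2 = 2 * q * k ^ 2 * 1 := by ring
          rw [h3, h4]
          omega
  · calc (3 * m + 1) ^ 2 * (2 * q * r ^ L) ^ (2 ^ (5 * L))
        ≤ 2 ^ (4 * L) * 2 ^ (2 * q * L * k ^ 2 * 2 ^ (5 * L)) := Nat.mul_le_mul hm1 hX
      _ = 2 ^ (4 * L + 2 * q * L * k ^ 2 * 2 ^ (5 * L)) := by rw [← pow_add]
      _ ≤ _ := Nat.pow_le_pow_right (by norm_num) hexp


theorem J_num : St_num := by
  intro q hq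
  refine ⟨6 * ((2 * q ^ 2 + q + 9 : ℕ) : ℝ), ?_⟩
  intro m hm
  have hm1 : (1 : ℝ) ≤ m := by exact_mod_cast hm
  have hs1 : 1 ≤ Real.sqrt (m : ℝ) := by
    rw [← Real.sqrt_one]
    exact Real.sqrt_le_sqrt hm1
  have hsq : Real.sqrt (m : ℝ) * Real.sqrt (m : ℝ) = m := Real.mul_self_sqrt (by linarith)
  have hL0 : 5 * Real.sqrt (m : ℝ) ≤ (⌈5 * Real.sqrt (m : ℝ)⌉₊ : ℝ) := Nat.le_ceil _
  have hL6 : (⌈5 * Real.sqrt (m : ℝ)⌉₊ : ℝ) ≤ 6 * Real.sqrt (m : ℝ) := by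
    have := Nat.ceil_lt_add_one (show 0 ≤ 5 * Real.sqrt (m : ℝ) by positivity)
    linarith
  generalize ⌈5 * Real.sqrt (m : ℝ)⌉₊ = L at hL0 hL6
  have hmL : 24 * m < L ^ 2 := by
    have h1 : (24 * m : ℝ) < (L : ℝ) ^ 2 := by nlinarith
    exact_mod_cast h1
  have hL : 1 ≤ L := by
    have h1 : (1 : ℝ) ≤ L := by linarith
    exact_mod_cast h1
  obtain ⟨h1, h2, h3⟩ := num_main q L m _ _ hq hL hm hmL rfl rfl
  exact ⟨L, _, _, rfl, hmL, hL, rfl, h1, num_floor _ L _ hL6 _ h2, num_floor _ L _ hL6 _ h3⟩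



end M_num
end Ram3
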