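import Pool.Agent.Helper764.RamDefs

set_option autoImplicit false
set_option maxHeartbeats 4000000
open Finset

namespace Ram3
namespace M_pairs






theorem pairs_gen21957 (α : Type) [LinearOrder α] (q : ℕ) (g : α → α → Fin q) (hq : 0 < q) :
    ∀ (s : ℕ) (f : Fin q → ℕ), ∑ i, f i = s → ∀ P : Finset α, (q + 1) ^ s ≤ P.card →
      ∃ i : Fin q, ∃ Q ⊆ P, Q.card = f i ∧ ∀ a ∈ Q, ∀ b ∈ Q, a < b → g a b = i := by
  intro s
  induction s with
  | zero =>
    intro f hf P _
    refine ⟨⟨0, hq⟩, ∅, Finset.empty_subset _, ?_, ?_⟩
    · rw [Finset.card_empty]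
      exact ((Finset.sum_eq_zero_iff.1 hf) ⟨0, hq⟩ (Finset.mem_univ _)).symm
    · intro a ha
      exact absurd ha (Finset.notMem_empty a)
  | succ s ih =>
    intro f hf P hP
    by_cases h0 : ∃ i, f i = 0
    · obtain ⟨i, hi⟩ := h0
      refine ⟨i, ∅, Finset.empty_subset _, ?_, ?_⟩
      · rw [Finset.card_empty, hi]
      · intro a ha
        exact absurd ha (Finset.notMem_empty a)
    · have h1 : ∀ i, f i ≠ 0 := fun i hi => h0 ⟨i, hi⟩
      have hpos : 0 < (q + 1) ^ (s + 1) := Nat.pos_of_ne_zero (pow_ne_zero _ (by omega))
      have hpos' : 0 < (q + 1) ^ s := Nat.pos_of_ne_zero (pow_ne_zero _ (by omega))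
      have hne : P.Nonempty := Finset.card_pos.1 (lt_of_lt_of_le hpos hP)
      obtain ⟨v, hv⟩ : ∃ v, v = P.min' hne := ⟨_, rfl⟩
      have hvP : v ∈ P := by
        rw [hv]
        exact Finset.min'_mem P hne
      have hvlt : ∀ w ∈ P.erase v, v < w := by
        intro w hw
        rw [Finset.mem_erase] at hw
        have h2 : v ≤ w := by
          rw [hv]
          exact Finset.min'_le P w hw.2
        exact lt_of_le_of_ne h2 (Ne.symm hw.1)
      have hcard : (Finset.univ : Finset (Fin q)).card * (q + 1) ^ s ≤ (P.erase v).card := by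
        rw [Finset.card_erase_of_mem hvP, Finset.card_univ, Fintype.card_fin]
        have e : (q + 1) ^ (s + 1) = q * (q + 1) ^ s + (q + 1) ^ s := by ring
        rw [e] at hP
        omega
      obtain ⟨i, _, hi⟩ := Finset.exists_le_card_fiber_of_mul_le_card_of_maps_to
        (f := fun w => g v w) (s := P.erase v) (t := Finset.univ) (fun _ _ => Finset.mem_univ _)
        ⟨⟨0, hq⟩, Finset.mem_univ _⟩ hcard
      have hsum : ∑ j, Function.update f i (f i - 1) j = s := by
        have e1 := Finset.sum_update_of_mem (Finset.mem_univ i) f (f i - 1)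
        have e2 := Finset.sum_update_of_mem (Finset.mem_univ i) f (f i)
        rw [Function.update_eq_self] at e2
        have := h1 i
        omega
      obtain ⟨j, Q, hQ, hQc, hQg⟩ := ih (Function.update f i (f i - 1)) hsum _ hi
      have hQP : Q ⊆ P.erase v := hQ.trans (Finset.filter_subset _ _)
      by_cases hij : j = i
      · subst hij
        rw [Function.update_self] at hQc
        have hvQ : v ∉ Q := fun h => (Finset.mem_erase.1 (hQP h)).1 rfl
        refine ⟨j, insert v Q, ?_, ?_, ?_⟩
        · intro x hx
          rw [Finset.mem_insert] at hx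
          rcases hx with hx | hx
          · rw [hx]
            exact hvP
          · exact Finset.mem_of_mem_erase (hQP hx)
        · rw [Finset.card_insert_of_notMem hvQ, hQc]
          have := h1 j
          omega
        · intro a ha b hb hab
          rw [Finset.mem_insert] at ha hb
          rcases ha with ha | ha
          · rcases hb with hb | hb
            · rw [ha, hb] at hab
              exact absurd hab (lt_irrefl _)
            · rw [ha]
              exact (Finset.mem_filter.1 (hQ hb)).2
          · rcases hb with hb | hb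
            · rw [hb] at hab
              exact absurd hab (not_lt_of_gt (hvlt a (hQP ha)))
            · exact hQg a ha b hb hab
      · rw [Function.update_of_ne hij] at hQc
        exact ⟨j, Q, hQP.trans (Finset.erase_subset _ _), hQc, hQg⟩


theorem J_pairs : St_pairs := by
  intro α _ q g l P hq hP
  have hs : ∑ _i : Fin q, l = q * l := by simp
  obtain ⟨i, Q, h1, h2, h3⟩ := pairs_gen21957 α q g hq (q * l) (fun _ => l) hs P hP
  exact ⟨Q, h1, h2, i, h3⟩


end M_pairs
end Ram3
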