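import Pool.Agent.Helper764.RamDefs

set_option autoImplicit false
set_option maxHeartbeats 4000000
open Finset

namespace Ram3
namespace M_prod






theorem J_prod : St_prod := by
  intro L n hn
  have h1 : ∀ i ∈ (univ : Finset (Fin L)), ((n i : ℝ) + 2) ≤ 4 * (L:ℝ) ^ 2 / (((i.1 : ℝ) + 1) ^ 2) := by
    intro i _
    have hk : (0:ℝ) < ((i.1 : ℝ) + 1) ^ 2 := by positivity
    rw [le_div_iff₀ hk]
    have h2 : (n i : ℝ) * ((i.1:ℝ) + 1) ^ 2 ≤ 2 * (L:ℝ) ^ 2 := by exact_mod_cast hn i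
    have h3 : ((i.1:ℝ) + 1) ≤ L := by exact_mod_cast i.2
    have h4 : ((i.1:ℝ) + 1) ^ 2 ≤ (L:ℝ) ^ 2 := by gcongr
    nlinarith
  have h2 : ∏ i : Fin L, ((n i : ℝ) + 2) ≤ ∏ i : Fin L, (4 * (L:ℝ) ^ 2 / (((i.1 : ℝ) + 1) ^ 2)) :=
    Finset.prod_le_prod (fun i _ => by positivity) h1
  have h3 : ∏ i : Fin L, (4 * (L:ℝ) ^ 2 / (((i.1 : ℝ) + 1) ^ 2)) =
      4 ^ L * (((L:ℝ) ^ L) / (L.factorial : ℝ)) ^ 2 := by
    rw [Fin.prod_univ_eq_prod_range (fun k : ℕ => (4 * (L:ℝ) ^ 2 / (((k : ℝ) + 1) ^ 2))) L]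
    rw [Finset.prod_div_distrib, Finset.prod_const, Finset.card_range, Finset.prod_pow]
    have : ∏ x ∈ range L, ((x:ℝ) + 1) = (L.factorial : ℝ) := by
      rw [← Finset.prod_range_add_one_eq_factorial]
      push_cast
      rfl
    rw [this, div_pow, mul_pow, ← pow_mul, ← pow_mul, mul_comm 2 L, mul_div_assoc]
  have h4 : ((L:ℝ) ^ L) / (L.factorial : ℝ) ≤ Real.exp L :=
    Real.pow_div_factorial_le_exp (L:ℝ) (by positivity) L
  have h5 : Real.exp (L:ℝ) = Real.exp 1 ^ L := by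
    rw [← Real.exp_nat_mul, mul_one]
  have h6 : Real.exp 1 < 2.7182818286 := Real.exp_one_lt_d9
  have h7 : (4:ℝ) ^ L * (((L:ℝ) ^ L) / (L.factorial : ℝ)) ^ 2 ≤ 32 ^ L := by
    calc (4:ℝ) ^ L * (((L:ℝ) ^ L) / (L.factorial : ℝ)) ^ 2
        ≤ 4 ^ L * (Real.exp 1 ^ L) ^ 2 := by
          rw [← h5]
          gcongr
      _ = (4 * Real.exp 1 ^ 2) ^ L := by
          rw [mul_pow, ← pow_mul, ← pow_mul, mul_comm L 2]
      _ ≤ 32 ^ L := by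
          refine pow_le_pow_left₀ (by positivity) ?_ L
          have h0 : 0 < Real.exp 1 := Real.exp_pos 1
          nlinarith
  have h8 : ((∏ i : Fin L, (n i + 2) : ℕ) : ℝ) ≤ ((2 ^ (5 * L) : ℕ) : ℝ) := by
    push_cast
    calc ∏ i : Fin L, ((n i : ℝ) + 2) ≤ 4 ^ L * (((L:ℝ) ^ L) / (L.factorial : ℝ)) ^ 2 := by
          rw [← h3]; exact h2
      _ ≤ 32 ^ L := h7
      _ = 2 ^ (5 * L) := by rw [pow_mul]; norm_num
  exact_mod_cast h8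


end M_prod
end Ram3
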