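import Pool.Agent.Helper764.RamDefs

set_option autoImplicit false
set_option maxHeartbeats 4000000
open Finset

namespace Ram3
namespace M_super






theorem pow_le_two_desc (N r : ℕ) (hr : 1 ≤ r) (h : 2 * r ^ 2 ≤ N) :
    N ^ r ≤ 2 * N.descFactorial r := by
  have h1 : (N + 1 - r) ^ r ≤ N.descFactorial r := Nat.pow_sub_le_descFactorial N r
  have hrN : r ≤ N := by nlinarith
  have hN : 0 < N := by nlinarith
  have key : (N : ℝ) ^ r ≤ 2 * ((N + 1 - r : ℕ) : ℝ) ^ r := by
    rw [Nat.cast_sub (by omega)]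
    push_cast
    have hNr : (0 : ℝ) < N := by exact_mod_cast hN
    have hr1 : (1 : ℝ) ≤ r := by exact_mod_cast hr
    have hrN' : (r : ℝ) ≤ N := by exact_mod_cast hrN
    have hh : 2 * (r : ℝ) ^ 2 ≤ N := by exact_mod_cast h
    have hx : ((r : ℝ) - 1) / N ≤ 1 := by
      rw [div_le_one hNr]; linarith
    have hb := one_add_mul_le_pow (a := -(((r : ℝ) - 1) / N)) (by linarith) r
    have h3 : (N : ℝ) + 1 - r = N * (1 + -((r - 1) / N)) := by field_simp; ring
    rw [h3, mul_pow]
    have h4 : (1 : ℝ) / 2 ≤ 1 + r * (-((r - 1) / N)) := by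
      have : (r : ℝ) * ((r - 1) / N) ≤ 1 / 2 := by
        rw [← mul_div_assoc, div_le_iff₀ hNr]
        nlinarith
      linarith
    have h5 : (1 : ℝ) / 2 ≤ (1 + -((r - 1) / N)) ^ r := h4.trans hb
    nlinarith [pow_pos hNr r]
  have h2 : N ^ r ≤ 2 * (N + 1 - r) ^ r := by exact_mod_cast key
  omega


theorem J_super : St_super := by
  classical
  intro N q l r χ hr hl hN hram
  let G : Fin q → Finset (Fin l → Fin N) := fun i =>
    univ.filter (fun x => Function.Injective x ∧ ∀ e ⊆ univ.image x, e.card = 3 → χ e = i)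
  have hGm : ∀ i x, x ∈ G i ↔ (Function.Injective x ∧ ∀ e ⊆ univ.image x, e.card = 3 → χ e = i) := by
    intro i x
    simp [G]
  -- step 1
  have h1 : ∀ y : Fin r ↪ Fin N, ∃ p : Fin q × (Fin l ↪ Fin r), (fun j => y (p.2 j)) ∈ G p.1 := by
    intro y
    obtain ⟨Q, hQS, hQl, i, hi⟩ := hram (univ.map y) (by rw [card_map, card_univ, Fintype.card_fin])
    let J : Finset (Fin r) := univ.filter (fun k => y k ∈ Q)
    have hJ : J.map y = Q := by
      ext z
      simp only [J, Finset.mem_map, Finset.mem_filter, Finset.mem_univ, true_and]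
      constructor
      · rintro ⟨k, hk, rfl⟩; exact hk
      · intro hz
        obtain ⟨k, -, hk⟩ := Finset.mem_map.1 (hQS hz)
        exact ⟨k, by rw [hk]; exact hz, hk⟩
    have hJl : J.card = l := by rw [← hQl, ← hJ, card_map]
    refine ⟨(i, (J.orderEmbOfFin hJl).toEmbedding), ?_⟩
    rw [hGm]
    refine ⟨?_, ?_⟩
    · intro a b hab
      exact (J.orderEmbOfFin hJl).injective (y.injective hab)
    · intro e he he3
      apply hi e _ he3
      intro z hz
      obtain ⟨j, -, hj⟩ := Finset.mem_image.1 (he hz)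
      rw [← hj]
      have : (J.orderEmbOfFin hJl) j ∈ J := J.orderEmbOfFin_mem hJl j
      simp only [J, Finset.mem_filter, Finset.mem_univ, true_and] at this
      exact this
  -- step 3
  have h3 : ∀ (i : Fin q) (I : Fin l ↪ Fin r),
      (univ.filter (fun y : Fin r ↪ Fin N => (fun j => y (I j)) ∈ G i)).card ≤
        (G i).card * N ^ (r - l) := by
    intro i I
    have hc : Fintype.card {k // k ∉ Set.range I} = r - l := by
      rw [Fintype.card_subtype_compl, Fintype.card_fin]
      congr 1
      have := Set.card_range_of_injective I.injective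
      rw [Fintype.card_fin] at this
      exact this
    have hcard : ((G i) ×ˢ (univ : Finset ({k // k ∉ Set.range I} → Fin N))).card =
        (G i).card * N ^ (r - l) := by
      rw [card_product, card_univ, Fintype.card_fun, Fintype.card_fin, hc]
    rw [← hcard]
    apply Finset.card_le_card_of_injOn (fun y => ((fun j => y (I j)), fun k => y k.1))
    · intro y hy
      have hy' := (Finset.mem_filter.1 hy).2
      exact Finset.mem_coe.2 (Finset.mem_product.2 ⟨hy', Finset.mem_univ _⟩)
    · intro y _ y' _ hyy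
      simp only [Prod.mk.injEq] at hyy
      ext k
      by_cases hk : k ∈ Set.range I
      · obtain ⟨j, rfl⟩ := hk
        rw [congrFun hyy.1 j]
      · rw [congrFun hyy.2 ⟨k, hk⟩]
  haveI : Nonempty (Fin q) := ⟨χ ∅⟩
  obtain ⟨i₀, -, hmax⟩ := Finset.exists_max_image (univ : Finset (Fin q)) (fun i => (G i).card)
    Finset.univ_nonempty
  refine ⟨i₀, G i₀, ?_, fun x hx => (hGm i₀ x).1 hx⟩
  have h2 : N.descFactorial r ≤ (q * r ^ l) * ((G i₀).card * N ^ (r - l)) := by
    have e1 : (univ : Finset (Fin r ↪ Fin N)).card = N.descFactorial r := by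
      rw [card_univ, Fintype.card_embedding_eq, Fintype.card_fin, Fintype.card_fin]
    rw [← e1]
    have e2 : (univ : Finset (Fin r ↪ Fin N)) ⊆
        (univ : Finset (Fin q × (Fin l ↪ Fin r))).biUnion
          (fun p => univ.filter (fun y : Fin r ↪ Fin N => (fun j => y (p.2 j)) ∈ G p.1)) := by
      intro y _
      obtain ⟨p, hp⟩ := h1 y
      rw [Finset.mem_biUnion]
      exact ⟨p, Finset.mem_univ _, by simpa using hp⟩
    refine (Finset.card_le_card e2).trans (Finset.card_biUnion_le.trans ?_)
    have e3 : ∀ p ∈ (univ : Finset (Fin q × (Fin l ↪ Fin r))),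
        (univ.filter (fun y : Fin r ↪ Fin N => (fun j => y (p.2 j)) ∈ G p.1)).card ≤
          (G i₀).card * N ^ (r - l) := by
      intro p _
      exact (h3 p.1 p.2).trans (Nat.mul_le_mul_right _ (hmax p.1 (Finset.mem_univ _)))
    refine (Finset.sum_le_card_nsmul _ _ _ e3).trans ?_
    rw [smul_eq_mul]
    apply Nat.mul_le_mul_right
    rw [card_univ, Fintype.card_prod, Fintype.card_fin, Fintype.card_embedding_eq,
      Fintype.card_fin, Fintype.card_fin]
    exact Nat.mul_le_mul_left _ (Nat.descFactorial_le_pow _ _)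
  have h5 := pow_le_two_desc N r hr hN
  have hN0 : 0 < N := by nlinarith
  have h6 : N ^ r = N ^ l * N ^ (r - l) := by
    rw [← pow_add]; congr 1; omega
  have h7 : N ^ l * N ^ (r - l) ≤ ((2 * q * r ^ l) * (G i₀).card) * N ^ (r - l) := by
    rw [← h6]
    refine h5.trans ((Nat.mul_le_mul_left 2 h2).trans_eq ?_)
    ring
  exact Nat.le_of_mul_le_mul_right h7 (pow_pos hN0 _)


end M_super
end Ram3
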