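import Pool.Agent.Helper764.RamDefs
import Pool.Agent.Helper764.Ram_pairs
import Pool.Agent.Helper764.Ram_er

set_option autoImplicit false
set_option maxHeartbeats 4000000
open Finset

namespace Ram3
namespace M_triples

theorem given_pairs : St_pairs := M_pairs.J_pairs
theorem given_er : St_er := M_er.J_er




theorem h120_sorted3 {α : Type} [LinearOrder α] (e : Finset α) (he : e.card = 3) :
    ∃ a b w : α, a < b ∧ b < w ∧ e = {a, b, w} := by
  refine ⟨e.orderEmbOfFin he 0, e.orderEmbOfFin he 1, e.orderEmbOfFin he 2, ?_, ?_, ?_⟩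
  · exact (e.orderEmbOfFin he).strictMono (by decide)
  · exact (e.orderEmbOfFin he).strictMono (by decide)
  · ext x
    constructor
    · intro hx
      have : x ∈ Set.range (e.orderEmbOfFin he) := by
        rw [Finset.range_orderEmbOfFin]
        exact hx
      obtain ⟨j, rfl⟩ := this
      fin_cases j <;> simp
    · intro hx
      simp only [Finset.mem_insert, Finset.mem_singleton] at hx
      rcases hx with rfl | rfl | rfl <;> exact Finset.orderEmbOfFin_mem e he _


theorem J_triples : St_triples := by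
  intro α _ q χ l S hq hS
  obtain ⟨P, hPS, T, hTS, hPc, hTc, hPT, hcol⟩ :=
    given_er α q χ ((q + 1) ^ (q * l)) 1 S hq one_pos (by simpa using hS)
  obtain ⟨t0, ht0⟩ : T.Nonempty := by
    rw [← Finset.card_pos]
    omega
  obtain ⟨Q, hQP, hQc, i, hi⟩ :=
    given_pairs α q (fun a b => χ {a, b, t0}) l P hq (by rw [hPc])
  refine ⟨Q, hQP.trans hPS, hQc, i, ?_⟩
  intro e he hc
  obtain ⟨a, b, w, hab, hbw, rfl⟩ := h120_sorted3 e hc
  have ha : a ∈ Q := he (by simp)
  have hb : b ∈ Q := he (by simp)
  have hw : w ∈ Q := he (by simp)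
  have h1 := hcol a (hQP ha) b (hQP hb) hab w (Finset.mem_union_left _ (hQP hw)) hbw t0
    (Finset.mem_union_right _ ht0) (hPT b (hQP hb) t0 ht0)
  rw [h1]
  exact hi a ha b hb hab


end M_triples
end Ram3
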