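import Pool.Agent.Helper764.Ram_color
import Pool.Agent.Helper764.Ram_prod
import Pool.Agent.Helper764.Ram_pairs
import Pool.Agent.Helper764.Ram_er
import Pool.Agent.Helper764.Ram_triples
import Pool.Agent.Helper764.Ram_super
import Pool.Agent.Helper764.Ram_boxstep
import Pool.Agent.Helper764.Ram_box
import Pool.Agent.Helper764.Ram_embed
import Pool.Agent.Helper764.Ram_num

set_option autoImplicit false
set_option maxHeartbeats 4000000
open Finset

namespace Ram3

theorem M_final (hcol : St_color) (hprod : St_prod) (htri : St_triples) (hsup : St_super) (hbox : St_box)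
   (hemb : St_embed) (hnum : St_num) :
    ∀ q : ℕ, 2 ≤ q → ∃ c : ℝ, ∀ (V : Type) [Fintype V] (E : Finset (Finset V)),
      (∀ e ∈ E, e.card = 3) → (∀ v : V, ∃ e ∈ E, v ∈ e) →
      ∀ χ : Finset (Fin ⌊(2:ℝ) ^ ((2:ℝ) ^ (c * Real.sqrt (E.card : ℝ)))⌋₊) → Fin q,
        ∃ (f : V ↪ Fin ⌊(2:ℝ) ^ ((2:ℝ) ^ (c * Real.sqrt (E.card : ℝ)))⌋₊) (i : Fin q),
          ∀ e ∈ E, χ (e.map f) = i := by
  classical
  intro q hq
  obtain ⟨c, hc⟩ := hnum q hq
  refine ⟨c, ?_⟩
  intro V _ E h3 hiso χ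
  rcases Nat.eq_zero_or_pos E.card with h0 | hpos
  · -- no edges: V is empty
    have hE : E = ∅ := Finset.card_eq_zero.mp h0
    have hV : IsEmpty V := ⟨fun v => by
      obtain ⟨e, he, _⟩ := hiso v
      rw [hE] at he
      exact absurd he (Finset.notMem_empty _)⟩
    refine ⟨⟨fun v => (hV.false v).elim, fun v => (hV.false v).elim⟩, ⟨0, by omega⟩, ?_⟩
    intro e he
    rw [hE] at he
    exact absurd he (Finset.notMem_empty _)
  · obtain ⟨L, r, N, hN, hL, hL1, hr, hLr, hrN, hbig⟩ := hc E.card hpos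
    revert χ
    rw [← hN]
    intro χ
    obtain ⟨col, hcol1, hcol2⟩ := hcol V E h3 hiso L hL
    have hr1 : 1 ≤ r := le_trans hL1 hLr
    obtain ⟨i₀, G, hG1, hG2⟩ := hsup N q L r χ hr1 hLr hrN (by
      intro S hS
      exact htri (Fin N) q χ L S (by omega) (by rw [hS, hr]))
    -- number of vertices
    have hV : Fintype.card V ≤ 3 * E.card := by
      have h1 : (Finset.univ : Finset V) ⊆ E.biUnion id := by
        intro v _
        obtain ⟨e, he, hve⟩ := hiso v
        exact Finset.mem_biUnion.mpr ⟨e, he, hve⟩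
      calc Fintype.card V = (Finset.univ : Finset V).card := rfl
        _ ≤ (E.biUnion id).card := Finset.card_le_card h1
        _ ≤ ∑ e ∈ E, (id e).card := Finset.card_biUnion_le
        _ = ∑ e ∈ E, 3 := Finset.sum_congr rfl (fun e he => h3 e he)
        _ = 3 * E.card := by rw [Finset.sum_const, smul_eq_mul, mul_comm]
    have hK : 2 ≤ 2 * q * r ^ L := by
      have h1 : 1 ≤ r ^ L := Nat.one_le_pow _ _ hr1
      have h2 : 1 ≤ q := by omega
      nlinarith [Nat.mul_le_mul h2 h1]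
    have hprod' := hprod L (fun i => (univ.filter (fun v => col v = i)).card) hcol2
    obtain ⟨x, hx1, hx2⟩ := hbox L (2 * q * r ^ L) (fun i => (univ.filter (fun v => col v = i)).card)
      (3 * E.card + 1) N hK (by
        intro i
        have : (univ.filter (fun v => col v = i)).card ≤ Fintype.card V := Finset.card_le_univ _
        omega) (by
        refine le_trans ?_ hbig
        exact Nat.mul_le_mul_left _ (Nat.pow_le_pow_right (by omega) hprod')) G hG1
    obtain ⟨f, hf⟩ := hemb V E h3 L N q col hcol1 χ i₀ x hx1 (fun j => hG2 _ (hx2 j))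
    exact ⟨f, i₀, hf⟩


theorem final : ∀ q : ℕ, 2 ≤ q → ∃ c : ℝ, ∀ (V : Type) [Fintype V] (E : Finset (Finset V)),
      (∀ e ∈ E, e.card = 3) → (∀ v : V, ∃ e ∈ E, v ∈ e) →
      ∀ χ : Finset (Fin ⌊(2:ℝ) ^ ((2:ℝ) ^ (c * Real.sqrt (E.card : ℝ)))⌋₊) → Fin q,
        ∃ (f : V ↪ Fin ⌊(2:ℝ) ^ ((2:ℝ) ^ (c * Real.sqrt (E.card : ℝ)))⌋₊) (i : Fin q),
          ∀ e ∈ E, χ (e.map f) = i :=
  M_final M_color.J_color M_prod.J_prod M_triples.J_triples M_super.J_super M_box.J_box M_embed.J_embed M_num.J_num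

end Ram3
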