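import Pool.Agent.Helper764.RamDefs

set_option autoImplicit false
set_option maxHeartbeats 4000000
open Finset

namespace Ram3
namespace M_color






theorem J_color : St_color := by
  intro V _ _ E hE hcov L hL
  classical
  have hLpos : 0 < L := by
    rcases Nat.eq_zero_or_pos L with h | h
    · subst h; simp at hL
    · exact h
  set deg : V → ℕ := fun v => (E.filter (fun e => v ∈ e)).card with hdeg
  have hdpos : ∀ v, 1 ≤ deg v := by
    intro v
    obtain ⟨e, he, hv⟩ := hcov v
    exact Finset.card_pos.2 ⟨e, Finset.mem_filter.2 ⟨he, hv⟩⟩
  have hsum : ∑ v, deg v = 3 * E.card := by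
    have h1 : ∀ v, deg v = ∑ e ∈ E, if v ∈ e then 1 else 0 := fun v => by
      simp only [hdeg]
      rw [Finset.card_filter]
    simp only [h1]
    rw [Finset.sum_comm]
    have h2 : ∀ e ∈ E, (∑ v : V, if v ∈ e then 1 else 0) = 3 := by
      intro e he
      rw [← Finset.card_filter]
      simp [hE e he]
    rw [Finset.sum_congr rfl h2]
    simp [mul_comm]
  have main : ∀ n : ℕ, ∀ S : Finset V, S.card = n → ∃ c : V → Fin L,
      (∀ e ∈ E, ∀ u ∈ e, ∀ w ∈ e, u ∈ S → w ∈ S → u ≠ w → c u ≠ c w) ∧
      ∀ i : Fin L, (S.filter (fun v => c v = i)).card * (i.1 + 1) ^ 2 ≤ L ^ 2 + (i.1 + 1) ^ 2 := by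
    intro n
    induction n with
    | zero =>
      intro S hS
      rw [Finset.card_eq_zero] at hS
      subst hS
      exact ⟨fun _ => ⟨0, hLpos⟩, by simp, by simp⟩
    | succ n ih =>
      intro S hS
      have hSne : S.Nonempty := Finset.card_pos.1 (by omega)
      obtain ⟨v, hv, hmin⟩ := Finset.exists_min_image S deg hSne
      obtain ⟨d, hd⟩ : ∃ d, d = deg v := ⟨_, rfl⟩
      have hd1 : 1 ≤ d := by rw [hd]; exact hdpos v
      have hS' : (S.erase v).card = n := by rw [Finset.card_erase_of_mem hv, hS]; rfl
      obtain ⟨c, hca, hcb⟩ := ih (S.erase v) hS'
      have hdS : d * S.card ≤ 3 * E.card := by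
        calc d * S.card = ∑ u ∈ S, d := by simp [mul_comm]
          _ ≤ ∑ u ∈ S, deg u := Finset.sum_le_sum (fun u hu => by rw [hd]; exact hmin u hu)
          _ ≤ ∑ u, deg u := Finset.sum_le_sum_of_subset (Finset.subset_univ S)
          _ = _ := hsum
      set N : Finset V := (E.filter (fun e => v ∈ e)).biUnion (fun e => e.erase v) with hN
      have hNcard : N.card ≤ 2 * d := by
        calc N.card ≤ ∑ e ∈ E.filter (fun e => v ∈ e), (e.erase v).card := Finset.card_biUnion_le
          _ = ∑ e ∈ E.filter (fun e => v ∈ e), 2 := by
              apply Finset.sum_congr rfl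
              intro e he
              rw [Finset.mem_filter] at he
              rw [Finset.card_erase_of_mem he.2, hE e he.1]
          _ = (E.filter (fun e => v ∈ e)).card * 2 := by simp
          _ = 2 * d := by rw [hd, mul_comm]
      set Conf : Finset (Fin L) := (N ∩ S.erase v).image c with hConfdef
      set Full : Finset (Fin L) := univ.filter
        (fun i => L ^ 2 ≤ ((S.erase v).filter (fun u => c u = i)).card * (i.1 + 1) ^ 2) with hFull
      have hConf : Conf.card ≤ 2 * d :=
        Finset.card_image_le.trans ((Finset.card_le_card Finset.inter_subset_left).trans hNcard)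
      have key : ∃ i : Fin L, i ∉ Conf ∧ i ∉ Full := by
        by_contra hcon
        push Not at hcon
        rcases le_or_gt (4 * d) L with hA | hB
        · set I : Finset (Fin L) := univ.filter (fun i : Fin L => i.1 < 4 * d) with hI
          have hIcard : I.card = 4 * d := by
            have : I = (Finset.univ : Finset (Fin (4 * d))).map (Fin.castLEEmb hA) := by
              ext i
              simp only [hI, Finset.mem_filter, Finset.mem_univ, true_and, Finset.mem_map,
                Fin.castLEEmb_apply]
              constructor
              · intro h
                exact ⟨⟨i.1, h⟩, by ext; simp⟩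
              · rintro ⟨a, rfl⟩
                exact a.2
            rw [this, Finset.card_map, Finset.card_univ, Fintype.card_fin]
          set FI := Full ∩ I with hFI
          have hsub : I ⊆ Conf ∪ FI := by
            intro i hi
            rw [Finset.mem_union, hFI, Finset.mem_inter]
            by_cases h : i ∈ Conf
            · exact Or.inl h
            · exact Or.inr ⟨hcon i h, hi⟩
          have h1 : 4 * d ≤ Conf.card + FI.card := by
            rw [← hIcard]
            exact (Finset.card_le_card hsub).trans (Finset.card_union_le _ _)
          have h2 : 2 * d ≤ FI.card := by omega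
          have h3 : FI.card * L ^ 2 ≤ (4 * d) ^ 2 * (S.erase v).card := by
            calc FI.card * L ^ 2 = ∑ i ∈ FI, L ^ 2 := by simp
              _ ≤ ∑ i ∈ FI, ((S.erase v).filter (fun u => c u = i)).card * (4 * d) ^ 2 := by
                  apply Finset.sum_le_sum
                  intro i hi
                  rw [hFI, Finset.mem_inter, hFull, hI, Finset.mem_filter, Finset.mem_filter] at hi
                  refine hi.1.2.trans (Nat.mul_le_mul_left _ (Nat.pow_le_pow_left ?_ 2))
                  have := hi.2.2
                  omega
              _ = (∑ i ∈ FI, ((S.erase v).filter (fun u => c u = i)).card) * (4 * d) ^ 2 := by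
                  rw [Finset.sum_mul]
              _ ≤ (∑ i : Fin L, ((S.erase v).filter (fun u => c u = i)).card) * (4 * d) ^ 2 :=
                  Nat.mul_le_mul_right _ (Finset.sum_le_sum_of_subset (Finset.subset_univ _))
              _ = (S.erase v).card * (4 * d) ^ 2 := by
                  rw [← Finset.card_eq_sum_card_fiberwise (f := c) (t := Finset.univ)
                    (fun _ _ => Finset.mem_coe.2 (Finset.mem_univ _))]
              _ = _ := mul_comm _ _
          have h4 : (S.erase v).card ≤ S.card := Finset.card_le_card (Finset.erase_subset _ _)
          have h5 : 2 * d * L ^ 2 ≤ 16 * d * (3 * E.card) := by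
            calc 2 * d * L ^ 2 ≤ FI.card * L ^ 2 := Nat.mul_le_mul_right _ h2
              _ ≤ (4 * d) ^ 2 * (S.erase v).card := h3
              _ ≤ (4 * d) ^ 2 * S.card := Nat.mul_le_mul_left _ h4
              _ = 16 * d * (d * S.card) := by ring
              _ ≤ 16 * d * (3 * E.card) := Nat.mul_le_mul_left _ hdS
          have h6 : 16 * d * (3 * E.card) = 2 * d * (24 * E.card) := by ring
          rw [h6] at h5
          have h7 := Nat.le_of_mul_le_mul_left h5 (by omega)
          omega
        · have hsub : (Finset.univ : Finset (Fin L)) ⊆ (S.erase v).image c := by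
            intro i _
            rw [Finset.mem_image]
            by_cases h : i ∈ Conf
            · rw [hConfdef, Finset.mem_image] at h
              obtain ⟨u, hu, hui⟩ := h
              exact ⟨u, (Finset.mem_inter.1 hu).2, hui⟩
            · have h1 := hcon i h
              rw [hFull, Finset.mem_filter] at h1
              have h2 : 0 < L ^ 2 := by positivity
              have h3 : 0 < ((S.erase v).filter (fun u => c u = i)).card := by
                rcases Nat.eq_zero_or_pos ((S.erase v).filter (fun u => c u = i)).card with h0 | h0
                · rw [h0] at h1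
                  omega
                · exact h0
              obtain ⟨u, hu⟩ := Finset.card_pos.1 h3
              rw [Finset.mem_filter] at hu
              exact ⟨u, hu.1, hu.2⟩
          have h1 : L ≤ (S.erase v).card := by
            have := (Finset.card_le_card hsub).trans Finset.card_image_le
            simpa using this
          have h2 : L < S.card := by omega
          have h3 : L * S.card ≤ 4 * (d * S.card) := by
            rw [← mul_assoc]
            exact Nat.mul_le_mul_right _ hB.le
          have h4 : L * L ≤ L * S.card := Nat.mul_le_mul_left _ h2.le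
          have h5 : L ^ 2 = L * L := by ring
          omega
      obtain ⟨i, hiC, hiF⟩ := key
      have hiC' : ∀ e ∈ E, v ∈ e → ∀ w ∈ e, w ∈ S → w ≠ v → c w ≠ i := by
        intro e he hve w hwe hwS hwv hwi
        apply hiC
        rw [hConfdef, Finset.mem_image]
        refine ⟨w, Finset.mem_inter.2 ⟨?_, Finset.mem_erase.2 ⟨hwv, hwS⟩⟩, hwi⟩
        rw [hN, Finset.mem_biUnion]
        exact ⟨e, Finset.mem_filter.2 ⟨he, hve⟩, Finset.mem_erase.2 ⟨hwv, hwe⟩⟩
      refine ⟨Function.update c v i, ?_, ?_⟩
      · intro e he u hu w hw huS hwS huw
        by_cases huv : u = v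
        · subst huv
          have hwv : w ≠ u := Ne.symm huw
          rw [Function.update_self, Function.update_of_ne hwv]
          exact Ne.symm (hiC' e he hu w hw hwS hwv)
        · by_cases hwv : w = v
          · subst hwv
            rw [Function.update_self, Function.update_of_ne huv]
            exact hiC' e he hw u hu huS huv
          · rw [Function.update_of_ne huv, Function.update_of_ne hwv]
            exact hca e he u hu w hw (Finset.mem_erase.2 ⟨huv, huS⟩)
              (Finset.mem_erase.2 ⟨hwv, hwS⟩) huw
      · intro j
        by_cases hj : j = i
        · subst hj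
          have h1 : (S.filter (fun u => Function.update c v j u = j)).card ≤
              ((S.erase v).filter (fun u => c u = j)).card + 1 := by
            have hsub : S.filter (fun u => Function.update c v j u = j) ⊆
                insert v ((S.erase v).filter (fun u => c u = j)) := by
              intro u hu
              rw [Finset.mem_filter] at hu
              rw [Finset.mem_insert, Finset.mem_filter, Finset.mem_erase]
              by_cases huv : u = v
              · exact Or.inl huv
              · rw [Function.update_of_ne huv] at hu
                exact Or.inr ⟨⟨huv, hu.1⟩, hu.2⟩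
            exact (Finset.card_le_card hsub).trans (Finset.card_insert_le _ _)
          have h2 : ((S.erase v).filter (fun u => c u = j)).card * (j.1 + 1) ^ 2 < L ^ 2 := by
            by_contra h
            push Not at h
            exact hiF (by rw [hFull, Finset.mem_filter]; exact ⟨Finset.mem_univ _, h⟩)
          calc (S.filter (fun u => Function.update c v j u = j)).card * (j.1 + 1) ^ 2
              ≤ (((S.erase v).filter (fun u => c u = j)).card + 1) * (j.1 + 1) ^ 2 :=
                Nat.mul_le_mul_right _ h1
            _ = ((S.erase v).filter (fun u => c u = j)).card * (j.1 + 1) ^ 2 + (j.1 + 1) ^ 2 := by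
                ring
            _ ≤ _ := by omega
        · have h1 : (S.filter (fun u => Function.update c v i u = j)) ⊆
              ((S.erase v).filter (fun u => c u = j)) := by
            intro u hu
            rw [Finset.mem_filter] at hu
            rw [Finset.mem_filter, Finset.mem_erase]
            by_cases huv : u = v
            · subst huv
              rw [Function.update_self] at hu
              exact absurd hu.2.symm hj
            · rw [Function.update_of_ne huv] at hu
              exact ⟨⟨huv, hu.1⟩, hu.2⟩
          exact (Nat.mul_le_mul_right _ (Finset.card_le_card h1)).trans (hcb j)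
  obtain ⟨c, hca, hcb⟩ := main _ Finset.univ rfl
  refine ⟨c, fun e he u hu w hw huw => hca e he u hu w hw (Finset.mem_univ _) (Finset.mem_univ _) huw,
    fun i => (hcb i).trans ?_⟩
  have : (i.1 + 1) ^ 2 ≤ L ^ 2 := Nat.pow_le_pow_left i.2 2
  omega


end M_color
end Ram3
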